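import Pool.Agent.H521.G.Sel7

open MeasureTheory Set Filter Topology
open scoped ComplexConjugate FourierTransform ContDiff

namespace Pool.Agent.H521.G

/-- Selberg's bound in the logarithmic scale. -/
theorem sel_log {Z : Multiset ℂ} (hZ : ∀ ρ ∈ Z, ρ.re < 1) (hZc : Z.map conj = Z) {x₀ : ℝ}
    (hR : RDens (fZ Z) x₀) {p : ℕ → ℝ} (hS : SysW Z p) {σ η : ℝ} (hσ : 1 / 2 < σ) (hσ1 : σ < 1)
    (hη : 0 < η) (hη1 : η ≤ 1) :
    ∃ C : ℝ, 0 < C ∧ ∀ L δ : ℝ, Real.log x₀ ≤ L → 1 ≤ L → 0 < δ → δ ≤ 1 → ∀ T : Finset ℝ,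
      (∀ w ∈ T, L ≤ w ∧ w ≤ L + 1) → (∀ w ∈ T, ∀ w' ∈ T, w < w' → w + δ ≤ w') →
      (∀ w ∈ T, ∀ k, p k ≤ Real.exp w ∨ Real.exp (w + δ) ≤ p k) →
      (T.card : ℝ) * (δ * Real.exp ((1 - σ) * L)) ^ 2 ≤ C * δ ^ (-η) * L ^ 2 := by
  obtain ⟨C, hC0, hC⟩ := aer_bound hZ hR hS hZc hσ (by linarith) hη hη1
  set C1 : ℝ := (∫ y, ‖tht y‖ ^ 2) + 1 with hC1
  have hI0 : 0 ≤ ∫ y, ‖tht y‖ ^ 2 := integral_nonneg fun y => by positivity
  have hC10 : 0 < C1 := by rw [hC1]; linarith
  refine ⟨64 * 9 * (C1 * (2 * Real.pi * C)), by positivity,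
    fun L δ hL hL1 hδ hδ1 T hT hsep hfree => ?_⟩
  rcases T.eq_empty_or_nonempty with h0 | h0
  · rw [h0]
    simp only [Finset.card_empty, CharP.cast_eq_zero, zero_mul]
    positivity
  have hcard : (0 : ℝ) < T.card := by exact_mod_cast h0.card_pos
  have hM : 0 ≤ C * δ ^ (-η) := by positivity
  have hmain := sel_fourier (k := kT δ T) (kT_smooth δ T) (kT_compact hδ T)
    (aer_integrable hZ hR hS hσ) (σ := σ) hδ hM
    (A := T.card * (δ * C1)) (by positivity) (hC δ hδ hδ1) (by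
      rw [kT_sq hδ hsep]
      apply mul_le_mul_of_nonneg_left _ hcard.le
      apply mul_le_mul_of_nonneg_left _ hδ.le
      rw [hC1]; linarith)
  -- evaluate
  have hwin : ∀ w ∈ T, ∃ I : ℝ, δ / 4 * Real.exp ((1 - σ) * w) / (2 * (w + 1)) ≤ I ∧
      ∫ v, ((σ : ℂ) * pw δ w v - deriv (pw δ w) v) * aer Z x₀ p σ v = -(I : ℂ) := fun w hw =>
    window_int hR hσ1 hδ hδ1 (hL.trans (hT w hw).1) (by linarith [(hT w hw).1]) (hfree w hw)
  choose! I hI1 hI2 using hwin
  have hint : ∀ w, Integrable fun v => ((σ : ℂ) * pw δ w v - deriv (pw δ w) v) *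
      aer Z x₀ p σ v := by
    intro w
    have h1 : ContDiff ℝ ∞ (deriv (pw δ w)) := by
      have : ContDiff ℝ (∞ + 1) (pw δ w) := pw_smooth δ w
      exact (contDiff_succ_iff_deriv.1 this).2.2
    have hc : Continuous fun v => (σ : ℂ) * pw δ w v - deriv (pw δ w) v :=
      (continuous_const.mul (pw_smooth δ w).continuous).sub h1.continuous
    have hcs : HasCompactSupport fun v => (σ : ℂ) * pw δ w v - deriv (pw δ w) v :=
      ((pw_compact hδ w).mul_left).sub (pw_compact hδ w).deriv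
    obtain ⟨B, hB⟩ := hc.bounded_above_of_compact_support hcs
    exact (aer_integrable hZ hR hS hσ).bdd_mul hc.aestronglyMeasurable
      (Eventually.of_forall hB)
  have hsum : ∫ v, ((σ : ℂ) * kT δ T v - deriv (kT δ T) v) * aer Z x₀ p σ v =
      -((∑ w ∈ T, I w : ℝ) : ℂ) := by
    have e1 : ∀ v, ((σ : ℂ) * kT δ T v - deriv (kT δ T) v) * aer Z x₀ p σ v =
        ∑ w ∈ T, ((σ : ℂ) * pw δ w v - deriv (pw δ w) v) * aer Z x₀ p σ v := by
      intro v
      rw [deriv_kT, ← Finset.sum_mul]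
      congr 1
      unfold kT
      simp only
      rw [Finset.mul_sum, ← Finset.sum_sub_distrib]
    simp_rw [e1]
    rw [integral_finsetSum _ fun w _ => hint w, Finset.sum_congr rfl hI2]
    push_cast
    rw [Finset.sum_neg_distrib]
  rw [hsum, norm_neg, Complex.norm_real, Real.norm_eq_abs, sq_abs] at hmain
  have hlow : (T.card : ℝ) * (δ * Real.exp ((1 - σ) * L) / (8 * (3 * L))) ≤ ∑ w ∈ T, I w := by
    rw [← nsmul_eq_mul]
    apply Finset.card_nsmul_le_sum
    intro w hw
    refine le_trans ?_ (hI1 w hw)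
    obtain ⟨w1, w2⟩ := hT w hw
    have e : δ / 4 * Real.exp ((1 - σ) * w) / (2 * (w + 1)) =
        δ * Real.exp ((1 - σ) * w) / (8 * (w + 1)) := by
      field_simp
      ring
    rw [e]
    apply div_le_div₀ (by positivity)
    · apply mul_le_mul_of_nonneg_left _ hδ.le
      apply Real.exp_le_exp.2
      apply mul_le_mul_of_nonneg_left w1
      linarith
    · linarith
    · linarith
  have hlow0 : 0 ≤ (T.card : ℝ) * (δ * Real.exp ((1 - σ) * L) / (8 * (3 * L))) := by positivity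
  have h1 := (pow_le_pow_left₀ hlow0 hlow 2).trans hmain
  have e2 : (T.card : ℝ) * (δ * C1) * (2 * Real.pi * (C * δ ^ (-η)) / δ) =
      T.card * (C1 * (2 * Real.pi * C) * δ ^ (-η)) := by
    field_simp
  rw [e2] at h1
  have e3 : ((T.card : ℝ) * (δ * Real.exp ((1 - σ) * L) / (8 * (3 * L)))) ^ 2 =
      T.card * (T.card * (δ * Real.exp ((1 - σ) * L)) ^ 2 / (64 * 9 * L ^ 2)) := by
    field_simp
    ring
  rw [e3] at h1
  have h2 := le_of_mul_le_mul_left h1 hcard
  rw [div_le_iff₀ (by positivity)] at h2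
  calc _ ≤ _ := h2
    _ = _ := by ring

/-- A separated set of points is small. -/
theorem card_sep {X h : ℝ} (hh : 0 < h) {T : Finset ℝ} (hT : ∀ x ∈ T, X ≤ x ∧ x ≤ 2 * X)
    (hsep : ∀ x ∈ T, ∀ y ∈ T, x < y → x + h ≤ y) (hX : 0 ≤ X) : (T.card : ℝ) * h ≤ X + h := by
  have hdis : Set.PairwiseDisjoint (T : Set ℝ) fun x => Ico x (x + h) := by
    intro x hx y hy hxy
    rcases lt_or_gt_of_ne hxy with h1 | h1
    · have := hsep x hx y hy h1
      apply Set.disjoint_left.2
      intro z hz1 hz2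
      linarith [hz1.2, hz2.1]
    · have := hsep y hy x hx h1
      apply Set.disjoint_left.2
      intro z hz1 hz2
      linarith [hz1.1, hz2.2]
  have h1 := measure_biUnion_finset hdis (fun x _ => measurableSet_Ico) (μ := volume)
  have h2 : (⋃ x ∈ T, Ico x (x + h)) ⊆ Ico X (2 * X + h) := by
    intro z hz
    simp only [mem_iUnion] at hz
    obtain ⟨x, hx, hz⟩ := hz
    obtain ⟨a, b⟩ := hT x hx
    exact ⟨a.trans hz.1, by linarith [hz.2]⟩
  have h3 := measure_mono (μ := volume) h2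
  rw [h1] at h3
  simp only [Real.volume_Ico, add_sub_cancel_left, Finset.sum_const, nsmul_eq_mul] at h3
  have h4 : (T.card : ENNReal) * ENNReal.ofReal h = ENNReal.ofReal (T.card * h) := by
    rw [ENNReal.ofReal_mul (Nat.cast_nonneg _), ENNReal.ofReal_natCast]
  rw [h4] at h3
  have h5 := (ENNReal.ofReal_le_ofReal_iff (by linarith)).1 h3
  linarith

/-- **Selberg's bound** for separated prime free intervals in systems of generalised primes. -/
theorem selberg {Z : Multiset ℂ} (hZ : ∀ ρ ∈ Z, ρ.re < 1) (hZc : Z.map conj = Z)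
    {p : ℕ → ℝ} (hS : SysW Z p) {ε : ℝ} (hε : 0 < ε) :
    ∃ C : ℝ, 0 < C ∧ ∀ X h : ℝ, 1 ≤ X → 1 ≤ h → h ≤ X → ∀ T : Finset ℝ,
      (∀ x ∈ T, X ≤ x ∧ x ≤ 2 * X) → (∀ x ∈ T, ∀ y ∈ T, x < y → x + h ≤ y) →
      (∀ x ∈ T, ∀ k, p k ≤ x ∨ x + h ≤ p k) → (T.card : ℝ) * h ^ 2 ≤ C * X ^ (1 + ε) := by
  obtain ⟨x₀, hR⟩ := exists_RDens hZ
  have hx3 := hR.dens.hx₀
  set e : ℝ := min ε 1 / 8 with he
  have he0 : 0 < e := by rw [he]; positivity
  have he1 : e ≤ 1 / 8 := by rw [he]; linarith [min_le_right ε 1]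
  have heε : 8 * e ≤ ε := by rw [he]; linarith [min_le_left ε 1]
  obtain ⟨C, hC0, hC⟩ := sel_log hZ hZc hR hS (σ := 1 / 2 + e) (η := e) (by linarith)
    (by linarith) he0 (by linarith)
  obtain ⟨X1, hX1⟩ : ∃ X1 : ℝ, X1 = max x₀ (Real.exp 1) := ⟨_, rfl⟩
  have hX1a : x₀ ≤ X1 := by rw [hX1]; exact le_max_left _ _
  have hX1b : Real.exp 1 ≤ X1 := by rw [hX1]; exact le_max_right _ _
  have hX10 : 0 < X1 := by linarith
  refine ⟨16 * C * 4 ^ e * (1 / e) ^ 2 + 2 * X1 ^ 2, by positivity, fun X h hX hh hhX T hT hsep hfree => ?_⟩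
  have hXp : 1 ≤ X ^ (1 + ε) := Real.one_le_rpow hX (by linarith)
  rcases lt_or_ge X X1 with h0 | h0
  · have h1 := card_sep (by linarith) hT hsep (by linarith)
    have h2 : (T.card : ℝ) * h ^ 2 ≤ 2 * X1 ^ 2 := by
      calc (T.card : ℝ) * h ^ 2 = (T.card * h) * h := by ring
        _ ≤ (X + h) * h := mul_le_mul_of_nonneg_right h1 (by linarith)
        _ ≤ (X + X) * X := mul_le_mul (by linarith) hhX (by linarith) (by linarith)
        _ = 2 * X ^ 2 := by ring
        _ ≤ 2 * X1 ^ 2 := by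
            apply mul_le_mul_of_nonneg_left _ (by norm_num)
            exact pow_le_pow_left₀ (by linarith) h0.le 2
    have h3 : 0 ≤ 16 * C * 4 ^ e * (1 / e) ^ 2 := by positivity
    have h4 : 2 * X1 ^ 2 * 1 ≤ 2 * X1 ^ 2 * X ^ (1 + ε) :=
      mul_le_mul_of_nonneg_left hXp (by positivity)
    nlinarith
  · have hX0 : 0 < X := by linarith
    set L : ℝ := Real.log X with hL
    set δ : ℝ := h / (4 * X) with hδ
    have hδ0 : 0 < δ := by rw [hδ]; positivity
    have hδ1 : δ ≤ 1 := by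
      rw [hδ, div_le_one (by positivity)]
      linarith
    have hL1 : 1 ≤ L := by
      rw [hL, Real.le_log_iff_exp_le hX0]
      exact hX1b.trans h0
    have hLx : Real.log x₀ ≤ L := Real.log_le_log (by linarith) (hX1a.trans h0)
    have hexp : Real.exp δ ≤ 1 + 2 * δ := by
      have h1 : δ ≤ 1 / 4 := by
        rw [hδ, div_le_iff₀ (by positivity)]
        linarith
      have h2 := Real.exp_bound_div_one_sub_of_interval hδ0.le (by linarith : δ < 1)
      refine h2.trans ?_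
      rw [div_le_iff₀ (by linarith)]
      nlinarith
    have hpos : ∀ x ∈ T, 0 < x := fun x hx => by linarith [(hT x hx).1]
    -- the set of logarithms
    have hinj : Set.InjOn Real.log (T : Set ℝ) := fun x hx y hy hxy =>
      Real.log_injOn_pos (hpos x hx) (hpos y hy) hxy
    have hcard : (T.image Real.log).card = T.card := Finset.card_image_of_injOn hinj
    have hstep : ∀ x ∈ T, Real.exp (Real.log x + δ) ≤ x + h := by
      intro x hx
      rw [Real.exp_add, Real.exp_log (hpos x hx)]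
      have h1 := mul_le_mul_of_nonneg_left hexp (hpos x hx).le
      have h2 : x * (1 + 2 * δ) ≤ x + h := by
        have h3 : x * (2 * δ) ≤ h := by
          rw [hδ]
          have := (hT x hx).2
          have e1 : x * (2 * (h / (4 * X))) = (x / (2 * X)) * h := by field_simp; ring
          rw [e1]
          have h4 : x / (2 * X) ≤ 1 := by
            rw [div_le_one (by positivity)]; exact this
          nlinarith
        linarith
      linarith
    have key := hC L δ hLx hL1 hδ0 hδ1 (T.image Real.log) (by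
      intro w hw
      obtain ⟨x, hx, rfl⟩ := Finset.mem_image.1 hw
      obtain ⟨a, b⟩ := hT x hx
      constructor
      · exact Real.log_le_log hX0 a
      · have h1 := Real.log_le_log (hpos x hx) b
        rw [Real.log_mul (by norm_num) hX0.ne'] at h1
        have h2 : Real.log 2 ≤ 1 := by
          have := Real.log_two_lt_d9
          linarith
        linarith) (by
      intro w hw w' hw' hww
      obtain ⟨x, hx, rfl⟩ := Finset.mem_image.1 hw
      obtain ⟨y, hy, rfl⟩ := Finset.mem_image.1 hw'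
      have hxy : x < y := (Real.log_lt_log_iff (hpos x hx) (hpos y hy)).1 hww
      have h1 := hsep x hx y hy hxy
      rw [Real.le_log_iff_exp_le (hpos y hy)]
      exact (hstep x hx).trans h1) (by
      intro w hw k
      obtain ⟨x, hx, rfl⟩ := Finset.mem_image.1 hw
      rw [Real.exp_log (hpos x hx)]
      rcases hfree x hx k with h1 | h1
      · left; exact h1
      · right; exact (hstep x hx).trans h1)
    rw [hcard] at key
    -- numerical conclusion
    have hE : Real.exp ((1 - (1 / 2 + e)) * L) = X ^ (1 / 2 - e) := by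
      rw [Real.rpow_def_of_pos hX0, ← hL]
      congr 1
      ring
    rw [hE] at key
    have hLe : L ≤ X ^ e / e := Real.log_le_rpow_div hX0.le he0
    have hL2 : L ^ 2 ≤ (1 / e) ^ 2 * X ^ (2 * e) := by
      have h1 : (X ^ e) ^ 2 = X ^ (2 * e) := by
        rw [← Real.rpow_natCast, ← Real.rpow_mul hX0.le]
        congr 1
        push_cast
        ring
      calc L ^ 2 ≤ (X ^ e / e) ^ 2 := pow_le_pow_left₀ (by linarith) hLe 2
        _ = _ := by rw [div_pow, h1]; field_simp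
    have hδe : δ ^ (-e) ≤ 4 ^ e * X ^ e := by
      rw [Real.rpow_neg hδ0.le, ← Real.inv_rpow hδ0.le, ← Real.mul_rpow (by norm_num) hX0.le]
      apply Real.rpow_le_rpow (by positivity) _ he0.le
      rw [hδ, inv_div, div_le_iff₀ (by linarith)]
      nlinarith
    have hlhs : (T.card : ℝ) * (δ * X ^ (1 / 2 - e)) ^ 2 =
        (T.card * h ^ 2) * (X ^ (-1 - 2 * e) / 16) := by
      have h1 : (X ^ (1 / 2 - e)) ^ 2 = X ^ (1 - 2 * e) := by
        rw [← Real.rpow_natCast, ← Real.rpow_mul hX0.le]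
        congr 1
        push_cast
        ring
      have h2 : X ^ (1 - 2 * e) = X ^ (-1 - 2 * e) * X ^ 2 := by
        rw [← Real.rpow_natCast X 2, ← Real.rpow_add hX0]
        congr 1
        push_cast
        ring
      rw [mul_pow, h1, h2, hδ]
      field_simp
      ring
    rw [hlhs] at key
    have hfin : (T.card * h ^ 2) * (X ^ (-1 - 2 * e) / 16) ≤
        C * (4 ^ e * X ^ e) * ((1 / e) ^ 2 * X ^ (2 * e)) := by
      refine key.trans ?_
      apply mul_le_mul (mul_le_mul_of_nonneg_left hδe hC0.le) hL2 (by positivity) (by positivity)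
    have hXn : 0 < X ^ (-1 - 2 * e) := Real.rpow_pos_of_pos hX0 _
    have h5 : (T.card : ℝ) * h ^ 2 ≤ 16 * C * 4 ^ e * (1 / e) ^ 2 * X ^ (1 + 5 * e) := by
      have h6 : X ^ (1 + 5 * e) * X ^ (-1 - 2 * e) = X ^ e * X ^ (2 * e) := by
        rw [← Real.rpow_add hX0, ← Real.rpow_add hX0]
        congr 1
        ring
      have h7 : (T.card * h ^ 2) * X ^ (-1 - 2 * e) ≤
          (16 * C * 4 ^ e * (1 / e) ^ 2 * X ^ (1 + 5 * e)) * X ^ (-1 - 2 * e) := by
        calc (T.card * h ^ 2) * X ^ (-1 - 2 * e) =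
              16 * ((T.card * h ^ 2) * (X ^ (-1 - 2 * e) / 16)) := by ring
          _ ≤ 16 * (C * (4 ^ e * X ^ e) * ((1 / e) ^ 2 * X ^ (2 * e))) :=
              mul_le_mul_of_nonneg_left hfin (by norm_num)
          _ = 16 * C * 4 ^ e * (1 / e) ^ 2 * (X ^ e * X ^ (2 * e)) := by ring
          _ = _ := by rw [← h6]; ring
      exact le_of_mul_le_mul_right h7 hXn
    have h6 : X ^ (1 + 5 * e) ≤ X ^ (1 + ε) :=
      Real.rpow_le_rpow_of_exponent_le hX (by linarith)
    have h7 : 0 ≤ 16 * C * 4 ^ e * (1 / e) ^ 2 := by positivity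
    have h8 := mul_le_mul_of_nonneg_left h6 h7
    have h9 : 0 ≤ 2 * X1 ^ 2 * X ^ (1 + ε) := by positivity
    nlinarith

end Pool.Agent.H521.G
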