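import Pool.Agent.H521.G.Blocked
import Pool.Agent.H521.G.Sel8

open MeasureTheory Set Filter Topology
open scoped ComplexConjugate Classical

namespace Pool.Agent.H521.G

/-- Doubling. -/
theorem count_doubling {N : ℝ → ℝ} (hmono : ∀ x y, x ≤ y → N x ≤ N y) {C ε X : ℝ} (hε : 0 < ε)
    (hX : 1 ≤ X) (hC : 0 ≤ C) (h : ∀ x, X ≤ x → N (2 * x) ≤ N x + C * x ^ ε) :
    ∃ C' : ℝ, ∀ x, 1 ≤ x → N x ≤ C' * x ^ ε := by
  have h2 : 1 < (2 : ℝ) ^ ε := Real.one_lt_rpow one_lt_two hε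
  set C' : ℝ := |N (2 * X)| + C / (2 ^ ε - 1) with hC'
  have hd : 0 < (2 : ℝ) ^ ε - 1 := by linarith
  have hC'0 : 0 ≤ C' := by positivity
  have hkey : C + C' ≤ 2 ^ ε * C' := by
    have h3 : C / (2 ^ ε - 1) ≤ C' := by rw [hC']; linarith [abs_nonneg (N (2 * X))]
    rw [div_le_iff₀ hd] at h3
    nlinarith
  refine ⟨C', ?_⟩
  have hind : ∀ k : ℕ, ∀ x, 1 ≤ x → x ≤ 2 ^ (k + 1) * X → N x ≤ C' * x ^ ε := by
    intro k
    induction k with
    | zero =>
      intro x hx1 hx2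
      simp only [zero_add, pow_one] at hx2
      have h3 := hmono _ _ hx2
      have h4 := le_abs_self (N (2 * X))
      have h5 : 1 ≤ x ^ ε := Real.one_le_rpow hx1 hε.le
      have h6 : |N (2 * X)| ≤ C' := by
        rw [hC']
        have : 0 ≤ C / (2 ^ ε - 1) := by positivity
        linarith
      nlinarith
    | succ k ih =>
      intro x hx1 hx2
      rcases le_or_gt x (2 ^ (k + 1) * X) with h3 | h3
      · exact ih x hx1 h3
      · have hp : (2 : ℝ) ^ (k + 1) = 2 * 2 ^ k := by ring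
        have hp1 : (1 : ℝ) ≤ 2 ^ k := one_le_pow₀ one_le_two
        have hx3 : X ≤ x / 2 := by
          rw [hp] at h3
          nlinarith
        have h4 := ih (x / 2) (by linarith) (by
          have : (2 : ℝ) ^ (k + 1 + 1) = 2 * 2 ^ (k + 1) := by ring
          rw [this] at hx2
          linarith)
        have h5 := h (x / 2) hx3
        have e : 2 * (x / 2) = x := by ring
        rw [e] at h5
        have h6 : (x / 2) ^ ε = x ^ ε / 2 ^ ε := Real.div_rpow (by linarith) (by norm_num) _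
        rw [h6] at h4 h5
        have h7 : 0 < x ^ ε := Real.rpow_pos_of_pos (by linarith) _
        have h8 : N x ≤ (C' + C) * (x ^ ε / 2 ^ ε) := by linarith
        have h9 : (C' + C) * (x ^ ε / 2 ^ ε) ≤ C' * x ^ ε := by
          rw [← mul_div_assoc, div_le_iff₀ (by linarith)]
          nlinarith
        linarith
  intro x hx
  obtain ⟨k, hk⟩ := pow_unbounded_of_one_lt x one_lt_two
  apply hind k x hx
  have h1 : (2 : ℝ) ^ (k + 1) = 2 * 2 ^ k := by ring
  have h3 : (0 : ℝ) < 2 ^ k := by positivity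
  rw [h1]
  nlinarith

theorem sqrt_gap {c x y : ℝ} (hc : 0 < c) (hx : 0 ≤ x) (h : c ≤ √y - √x) :
    x + 2 * c * √x ≤ y ∧ c * √y ≤ y - x := by
  have h1 : 0 ≤ √x := Real.sqrt_nonneg x
  have h2 : √x * √x = x := Real.mul_self_sqrt hx
  have hy0 : 0 < √y := by linarith
  have hy : 0 ≤ y := by
    by_contra hcc
    push Not at hcc
    rw [Real.sqrt_eq_zero_of_nonpos hcc.le] at hy0
    exact lt_irrefl _ hy0
  have h3 : √y * √y = y := Real.mul_self_sqrt hy
  constructor <;> nlinarith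

theorem finite_le {p : ℕ → ℝ} (hpt : Tendsto p atTop atTop) (x : ℝ) : {n | p n ≤ x}.Finite := by
  obtain ⟨N, hN⟩ := eventually_atTop.1 (hpt.eventually_gt_atTop x)
  apply (Set.finite_Iio N).subset
  intro j hj
  simp only [mem_ofPred_eq] at hj
  simp only [mem_Iio]
  by_contra hc
  push Not at hc
  linarith [hN j hc]

/-- Selberg's bound for the number of gaps of size `√x`. -/
theorem andrica_count {Z : Multiset ℂ} (hZ : ∀ ρ ∈ Z, ρ.re < 1) (hZc : Z.map conj = Z)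
    {p : ℕ → ℝ} (hS : SysW Z p) {c : ℝ} (hc : 0 < c) {ε : ℝ} (hε : 0 < ε) :
    ∃ C : ℝ, ∀ x, 1 ≤ x →
      (({n : ℕ | p n ≤ x ∧ c ≤ √(p (n + 1)) - √(p n)}.ncard : ℕ) : ℝ) ≤ C * x ^ ε := by
  obtain ⟨C, hC0, hC⟩ := selberg hZ hZc hS hε
  set E : ℝ → Set ℕ := fun x => {n : ℕ | p n ≤ x ∧ c ≤ √(p (n + 1)) - √(p n)} with hE
  have hfin : ∀ x, (E x).Finite := fun x => (finite_le hS.tendsto x).subset fun n hn => hn.1
  set X : ℝ := max 1 (max (4 * c ^ 2) (1 / (4 * c ^ 2))) with hX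
  have hX1 : 1 ≤ X := le_max_left _ _
  have hX2 : 4 * c ^ 2 ≤ X := (le_max_left _ _).trans (le_max_right _ _)
  have hX3 : 1 / (4 * c ^ 2) ≤ X := (le_max_right _ _).trans (le_max_right _ _)
  refine count_doubling (N := fun x => ((E x).ncard : ℝ)) ?_ (C := C / (4 * c ^ 2)) hε hX1
    (by positivity) ?_
  · intro x y hxy
    have h1 : E x ⊆ E y := fun n hn => ⟨hn.1.trans hxy, hn.2⟩
    have h2 := Set.ncard_le_ncard h1 (hfin y)
    exact_mod_cast h2
  · intro x hx
    have hx0 : 0 < x := by linarith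
    set D : Set ℕ := {n : ℕ | (x ≤ p n ∧ p n ≤ 2 * x) ∧ c ≤ √(p (n + 1)) - √(p n)} with hD
    have hDfin : D.Finite := (finite_le hS.tendsto (2 * x)).subset fun n hn => hn.1.2
    have hsub : E (2 * x) ⊆ E x ∪ D := by
      intro n hn
      rcases le_or_gt (p n) x with h | h
      · left; exact ⟨h, hn.2⟩
      · right; exact ⟨⟨h.le, hn.1⟩, hn.2⟩
    have h1 : (E (2 * x)).ncard ≤ (E x).ncard + D.ncard :=
      (Set.ncard_le_ncard hsub ((hfin x).union hDfin)).trans (Set.ncard_union_le _ _)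
    have h2 : (D.ncard : ℝ) ≤ C / (4 * c ^ 2) * x ^ ε := by
      set T : Finset ℝ := hDfin.toFinset.image p with hT
      have hcard : (T.card : ℝ) = D.ncard := by
        rw [hT, Finset.card_image_of_injective _ hS.mono.injective,
          Set.ncard_eq_toFinset_card _ hDfin]
      set h : ℝ := 2 * c * √x with hh
      have hsx : √x * √x = x := Real.mul_self_sqrt hx0.le
      have hsx0 : 0 < √x := Real.sqrt_pos.2 hx0
      have hh1 : 1 ≤ h := by
        have h3 : 1 ≤ (2 * c * √x) ^ 2 := by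
          have h4 : 1 / (4 * c ^ 2) ≤ x := hX3.trans hx
          rw [div_le_iff₀ (by positivity)] at h4
          nlinarith
        rw [hh]
        by_contra hcc
        push Not at hcc
        have : 0 < 2 * c * √x := by positivity
        nlinarith
      have hhx : h ≤ x := by
        have h4 : 4 * c ^ 2 ≤ x := hX2.trans hx
        have h5 : 2 * c ≤ √x := by
          apply Real.le_sqrt_of_sq_le
          nlinarith
        rw [hh]
        nlinarith
      have hmem : ∀ u ∈ T, ∃ n, n ∈ D ∧ p n = u := by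
        intro u hu
        rw [hT] at hu
        obtain ⟨n, hn, rfl⟩ := Finset.mem_image.1 hu
        exact ⟨n, (Set.Finite.mem_toFinset _).1 hn, rfl⟩
      have hgap : ∀ n ∈ D, p n + h ≤ p (n + 1) := by
        intro n hn
        have h3 := (sqrt_gap hc (by linarith [hn.1.1]) hn.2).1
        have h4 : √x ≤ √(p n) := Real.sqrt_le_sqrt hn.1.1
        have h5 : 2 * c * √x ≤ 2 * c * √(p n) := mul_le_mul_of_nonneg_left h4 (by positivity)
        rw [hh]
        linarith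
      have key := hC x h (hX1.trans hx) hh1 hhx T (by
        intro u hu
        obtain ⟨n, hn, rfl⟩ := hmem u hu
        exact hn.1) (by
        intro u hu v hv huv
        obtain ⟨n, hn, rfl⟩ := hmem u hu
        obtain ⟨m, hm, rfl⟩ := hmem v hv
        have h3 := hS.mono.lt_iff_lt.1 huv
        exact (hgap n hn).trans (hS.mono.monotone h3)) (by
        intro u hu k
        obtain ⟨n, hn, rfl⟩ := hmem u hu
        rcases le_or_gt k n with h3 | h3
        · left; exact hS.mono.monotone h3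
        · right; exact (hgap n hn).trans (hS.mono.monotone h3))
      rw [hcard] at key
      have e1 : h ^ 2 = 4 * c ^ 2 * x := by rw [hh]; nlinarith
      rw [e1, Real.rpow_add hx0, Real.rpow_one] at key
      have h6 : (D.ncard : ℝ) * (4 * c ^ 2) ≤ C * x ^ ε := by
        have h7 : ((D.ncard : ℝ) * (4 * c ^ 2)) * x ≤ (C * x ^ ε) * x := by linarith
        exact le_of_mul_le_mul_right h7 hx0
      rw [div_mul_eq_mul_div, le_div_iff₀ (by positivity)]
      exact h6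
    have h3 : ((E (2 * x)).ncard : ℝ) ≤ (E x).ncard + D.ncard := by exact_mod_cast h1
    linarith

/-- Admissible configurations of large gaps. -/
def Adm (c : ℝ) (G : Set (ℝ × ℝ)) : Prop := ∃ x₁ : ℝ,
  (∀ q ∈ G, x₁ ≤ q.1 → c ≤ √q.2 - √q.1) ∧
  (∀ q ∈ G, ∀ q' ∈ G, x₁ ≤ q.1 → q.1 ≤ q'.1 → q = q' ∨ q.2 ≤ q'.1) ∧
  (∀ ε : ℝ, 0 < ε → ∃ C : ℝ, ∀ x : ℝ, 1 ≤ x → {q ∈ G | x₁ ≤ q.1 ∧ q.1 ≤ x}.Finite ∧
    ({q ∈ G | x₁ ≤ q.1 ∧ q.1 ≤ x}.ncard : ℝ) ≤ C * x ^ ε) ∧
  (∀ ε : ℝ, 0 < ε → ∃ C : ℝ, ∀ q ∈ G, x₁ ≤ q.1 → q.2 - q.1 ≤ C * q.1 ^ (1 / 2 + ε))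

theorem andrica_nec {Z : Multiset ℂ} (hZ : ∀ ρ ∈ Z, ρ.re < 1) (hZc : Z.map conj = Z)
    {p : ℕ → ℝ} (hS : SysW Z p) {c : ℝ} (hc : 0 < c) {G : Set (ℝ × ℝ)} {x₁ : ℝ}
    (hG : ∀ x y, x₁ ≤ x → ((x, y) ∈ G ↔ ∃ n, p n = x ∧ p (n + 1) = y ∧ c ≤ √y - √x)) :
    Adm c G := by
  have hpp : ∀ n, 1 < p n := fun n => by
    linarith [hS.mono.monotone (Nat.zero_le n), hS.one_lt]
  refine ⟨max x₁ 1, fun q hq hq1 => ?_, fun q hq q' hq' hq1 hqq => ?_, fun ε hε => ?_,
    fun ε hε => ?_⟩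
  · obtain ⟨n, h1, h2, h3⟩ := (hG q.1 q.2 ((le_max_left _ _).trans hq1)).1 hq
    exact h3
  · have hx1 := (le_max_left _ _).trans hq1
    obtain ⟨n, h1, h2, h3⟩ := (hG q.1 q.2 hx1).1 hq
    obtain ⟨m, k1, k2, k3⟩ := (hG q'.1 q'.2 (hx1.trans hqq)).1 hq'
    rw [← h1, ← k1] at hqq
    have hnm := hS.mono.le_iff_le.1 hqq
    rcases eq_or_lt_of_le hnm with h | h
    · left
      apply Prod.ext
      · rw [← h1, ← k1, h]
      · rw [← h2, ← k2, h]
    · right
      rw [← h2, ← k1]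
      exact hS.mono.monotone h
  · obtain ⟨C, hC⟩ := andrica_count hZ hZc hS hc hε
    refine ⟨C, fun x hx => ?_⟩
    have hfinE : {n : ℕ | p n ≤ x ∧ c ≤ √(p (n + 1)) - √(p n)}.Finite :=
      (finite_le hS.tendsto x).subset fun n hn => hn.1
    have hsub : {q ∈ G | max x₁ 1 ≤ q.1 ∧ q.1 ≤ x} ⊆
        (fun n => (p n, p (n + 1))) '' {n : ℕ | p n ≤ x ∧ c ≤ √(p (n + 1)) - √(p n)} := by
      rintro q ⟨hq, h1, h2⟩
      obtain ⟨n, k1, k2, k3⟩ := (hG q.1 q.2 ((le_max_left _ _).trans h1)).1 hq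
      refine ⟨n, ⟨by rw [k1]; exact h2, by rw [k1, k2]; exact k3⟩, ?_⟩
      simp only
      rw [k1, k2]
    refine ⟨(hfinE.image _).subset hsub, ?_⟩
    have h1 := Set.ncard_le_ncard hsub (hfinE.image _)
    have h2 := Set.ncard_image_le (f := fun n => (p n, p (n + 1))) hfinE
    have h3 := hC x hx
    have h4 : ({q ∈ G | max x₁ 1 ≤ q.1 ∧ q.1 ≤ x}.ncard : ℝ) ≤
        ({n : ℕ | p n ≤ x ∧ c ≤ √(p (n + 1)) - √(p n)}.ncard : ℕ) := by exact_mod_cast h1.trans h2
    linarith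
  · obtain ⟨N, hN⟩ := eventually_atTop.1 (gap_bound hZ hS.mono hS.tendsto hS.pnt hε)
    obtain ⟨M, hM⟩ : ∃ M : ℝ, ∀ k < N, p (k + 1) - p k ≤ M := by
      obtain ⟨M, hM⟩ := (((Set.finite_Iio N).image fun n => p (n + 1) - p n).bddAbove)
      exact ⟨M, fun k hk => hM ⟨k, hk, rfl⟩⟩
    refine ⟨1 + |M|, fun q hq hq1 => ?_⟩
    obtain ⟨n, k1, k2, k3⟩ := (hG q.1 q.2 ((le_max_left _ _).trans hq1)).1 hq
    have hone : 1 ≤ q.1 ^ (1 / 2 + ε) :=
      Real.one_le_rpow ((le_max_right _ _).trans hq1) (by linarith)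
    have hM0 := abs_nonneg M
    rcases lt_or_ge n N with h | h
    · have := hM n h
      rw [k1, k2] at this
      have := le_abs_self M
      nlinarith
    · have := hN n h
      rw [k1, k2] at this
      nlinarith

theorem andrica_suff {Z : Multiset ℂ} (hZ : ∀ ρ ∈ Z, ρ.re < 1) (hZc : Z.map conj = Z)
    {c : ℝ} (hc : 0 < c) {G : Set (ℝ × ℝ)} (hG : Adm c G) :
    ∃ p : ℕ → ℝ, Sys Z p ∧ ∃ x₁ : ℝ,
      ∀ x y, x₁ ≤ x → ((x, y) ∈ G ↔ ∃ n, p n = x ∧ p (n + 1) = y ∧ c ≤ √y - √x) := by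
  obtain ⟨x₁, a1, a2, a3, a4⟩ := hG
  set x₂ : ℝ := max x₁ 1 with hx₂
  have h12 : x₁ ≤ x₂ := le_max_left _ _
  have h1x : 1 ≤ x₂ := le_max_right _ _
  set Q : Set (ℝ × ℝ) := {q | q ∈ G ∧ x₂ ≤ q.1} with hQ
  set P : Set ℝ := {u | ∃ q ∈ Q, u = q.1 ∨ u = q.2} with hP
  have hQ1 : ∀ q ∈ Q, q.1 < q.2 := by
    intro q hq
    have h1 := a1 q hq.1 (h12.trans hq.2)
    have h2 := (sqrt_gap hc (by linarith [hq.2]) h1).1
    have h3 : 0 < √q.1 := Real.sqrt_pos.2 (by linarith [hq.2])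
    have : 0 < 2 * c * √q.1 := by positivity
    linarith
  have hdisj : ∀ q ∈ Q, ∀ q' ∈ Q, q = q' ∨ q.2 ≤ q'.1 ∨ q'.2 ≤ q.1 := by
    intro q hq q' hq'
    rcases le_total q.1 q'.1 with h | h
    · rcases a2 q hq.1 q' hq'.1 (h12.trans hq.2) h with h1 | h1
      · left; exact h1
      · right; left; exact h1
    · rcases a2 q' hq'.1 q hq.1 (h12.trans hq'.2) h with h1 | h1
      · left; exact h1.symm
      · right; right; exact h1
  have hfinQ : ∀ x, 1 ≤ x → {q | q ∈ Q ∧ q.1 ≤ x}.Finite := by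
    intro x hx
    obtain ⟨C, hC⟩ := a3 1 one_pos
    exact (hC x hx).1.subset fun q hq => ⟨hq.1.1, h12.trans hq.1.2, hq.2⟩
  have hcardQ : ∀ ε : ℝ, 0 < ε → ∃ C : ℝ, 0 ≤ C ∧ ∀ x (hx : 1 ≤ x),
      ((hfinQ x hx).toFinset.card : ℝ) ≤ C * x ^ ε := by
    intro ε hε
    obtain ⟨C, hC⟩ := a3 ε hε
    refine ⟨|C|, abs_nonneg C, fun x hx => ?_⟩
    have h1 : (hfinQ x hx).toFinset.card = {q | q ∈ Q ∧ q.1 ≤ x}.ncard :=
      (Set.ncard_eq_toFinset_card _ (hfinQ x hx)).symm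
    have h2 := Set.ncard_le_ncard (s := {q | q ∈ Q ∧ q.1 ≤ x})
      (t := {q ∈ G | x₁ ≤ q.1 ∧ q.1 ≤ x}) (fun q hq => ⟨hq.1.1, h12.trans hq.1.2, hq.2⟩)
      (hC x hx).1
    have h3 : (({q | q ∈ Q ∧ q.1 ≤ x}.ncard : ℕ) : ℝ) ≤
        ({q ∈ G | x₁ ≤ q.1 ∧ q.1 ≤ x}.ncard : ℕ) := by exact_mod_cast h2
    rw [h1]
    have h4 := (hC x hx).2
    have h5 : C * x ^ ε ≤ |C| * x ^ ε :=
      mul_le_mul_of_nonneg_right (le_abs_self C) (Real.rpow_nonneg (by linarith) _)
    linarith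
  obtain ⟨x₃, p, hS, hb1, hb2⟩ := blocked hZ hZc (Q := Q) (P := P) (fun q hq => (hQ1 q hq).le)
    (by
      intro ε hε
      obtain ⟨C, hC0, hC⟩ := hcardQ (ε / 2) (by linarith)
      obtain ⟨D, hD⟩ := a4 (ε / 2) (by linarith)
      refine ⟨C * (|D| + 1), fun x hx Q' hQ' => ?_⟩
      have hxp : 1 ≤ x ^ (1 / 2 + ε / 2) := Real.one_le_rpow hx (by linarith)
      have h1 : ∀ q ∈ Q', q.2 - q.1 + 1 ≤ (|D| + 1) * x ^ (1 / 2 + ε / 2) := by
        intro q hq
        obtain ⟨h2, h3⟩ := hQ' q hq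
        have h4 := hD q h2.1 (h12.trans h2.2)
        have hq0 : 0 ≤ q.1 := by linarith [h2.2]
        have h5 : q.1 ^ (1 / 2 + ε / 2) ≤ x ^ (1 / 2 + ε / 2) :=
          Real.rpow_le_rpow hq0 h3 (by linarith)
        have h6 : D * q.1 ^ (1 / 2 + ε / 2) ≤ |D| * x ^ (1 / 2 + ε / 2) :=
          mul_le_mul (le_abs_self D) h5 (Real.rpow_nonneg hq0 _) (abs_nonneg D)
        linarith
      refine (Finset.sum_le_sum h1).trans ?_
      rw [Finset.sum_const, nsmul_eq_mul]
      have h2 : (Q'.card : ℝ) ≤ C * x ^ (ε / 2) := by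
        refine le_trans ?_ (hC x hx)
        exact_mod_cast Finset.card_le_card fun q hq => by
          rw [Set.Finite.mem_toFinset]
          exact hQ' q hq
      have e : x ^ (ε / 2) * x ^ (1 / 2 + ε / 2) = x ^ (1 / 2 + ε) := by
        rw [← Real.rpow_add (by linarith)]
        congr 1
        ring
      calc (Q'.card : ℝ) * ((|D| + 1) * x ^ (1 / 2 + ε / 2)) ≤
            (C * x ^ (ε / 2)) * ((|D| + 1) * x ^ (1 / 2 + ε / 2)) :=
            mul_le_mul_of_nonneg_right h2 (by positivity)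
        _ = C * (|D| + 1) * (x ^ (ε / 2) * x ^ (1 / 2 + ε / 2)) := by ring
        _ = _ := by rw [e])
    (by
      intro ε hε
      obtain ⟨C, hC0, hC⟩ := hcardQ ε hε
      refine ⟨2 * C, fun x hx P' hP' => ?_⟩
      have hsub : P' ⊆ ((hfinQ x hx).toFinset.image Prod.fst) ∪
          ((hfinQ x hx).toFinset.image Prod.snd) := by
        intro u hu
        obtain ⟨⟨q, hq, h1⟩, h2⟩ := hP' u hu
        rw [Finset.mem_union, Finset.mem_image, Finset.mem_image]
        rcases h1 with h1 | h1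
        · left
          refine ⟨q, ?_, h1.symm⟩
          rw [Set.Finite.mem_toFinset]
          exact ⟨hq, by rw [← h1]; exact h2⟩
        · right
          refine ⟨q, ?_, h1.symm⟩
          rw [Set.Finite.mem_toFinset]
          exact ⟨hq, by linarith [hQ1 q hq]⟩
      have h1 := (Finset.card_le_card hsub).trans (Finset.card_union_le _ _)
      have h2 := Finset.card_image_le (s := (hfinQ x hx).toFinset) (f := Prod.fst)
      have h3 := Finset.card_image_le (s := (hfinQ x hx).toFinset) (f := Prod.snd)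
      have h4 : (P'.card : ℝ) ≤ 2 * (hfinQ x hx).toFinset.card := by
        have : P'.card ≤ 2 * (hfinQ x hx).toFinset.card := by omega
        exact_mod_cast this
      have h5 := hC x hx
      have h6 : x ^ ε ≤ x ^ (1 / 2 + ε) := Real.rpow_le_rpow_of_exponent_le hx (by linarith)
      have h7 := mul_le_mul_of_nonneg_left h6 hC0
      linarith)
  refine ⟨p, hS, ?_⟩
  obtain ⟨D, hD⟩ := a4 1 one_pos
  -- large numbers
  have hlarge : ∀ᶠ y : ℝ in atTop, 4 * Real.log y + 2 ≤ c * √y := by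
    have h1 : (fun y : ℝ => 4 * Real.log y + 2) =o[atTop] fun y : ℝ => y ^ (1 / 2 : ℝ) := by
      apply Asymptotics.IsLittleO.add
      · exact (isLittleO_log_rpow_atTop (by norm_num)).const_mul_left 4
      · apply Asymptotics.isLittleO_const_left.2
        right
        exact tendsto_norm_atTop_atTop.comp (tendsto_rpow_atTop (by norm_num))
    filter_upwards [h1.bound hc, eventually_ge_atTop 1] with y hy hy1
    have h2 : 0 ≤ Real.log y := Real.log_nonneg hy1
    rw [Real.norm_eq_abs, Real.norm_eq_abs, abs_of_nonneg (by linarith),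
      abs_of_nonneg (by positivity), ← Real.sqrt_eq_rpow] at hy
    exact hy
  obtain ⟨x₅, hx₅⟩ := eventually_atTop.1 hlarge
  set x₄ : ℝ := max (max x₂ x₃) (max x₅ (|x₃| + |D| * |x₃| ^ (1 / 2 + 1 : ℝ))) with hx₄
  have k1 : x₂ ≤ x₄ := (le_max_left _ _).trans (le_max_left _ _)
  have k2 : x₃ ≤ x₄ := (le_max_right _ _).trans (le_max_left _ _)
  have k3 : x₅ ≤ x₄ := (le_max_left _ _).trans (le_max_right _ _)
  have k4 : |x₃| + |D| * |x₃| ^ (1 / 2 + 1 : ℝ) ≤ x₄ := (le_max_right _ _).trans (le_max_right _ _)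
  refine ⟨x₄, fun x y hx => ⟨fun hxy => ?_, ?_⟩⟩
  · have hq : (x, y) ∈ Q := ⟨hxy, k1.trans hx⟩
    have hlt : x < y := hQ1 _ hq
    have hc' := a1 _ hxy (h12.trans (k1.trans hx))
    obtain ⟨n, hn⟩ := (hb1 x ⟨(x, y), hq, k2.trans hx, le_rfl, hlt.le⟩).2 ⟨(x, y), hq, Or.inl rfl⟩
    obtain ⟨m, hm⟩ := (hb1 y ⟨(x, y), hq, k2.trans hx, hlt.le, le_rfl⟩).2 ⟨(x, y), hq, Or.inr rfl⟩
    refine ⟨n, hn, ?_, hc'⟩
    have hnm : n < m := by
      rw [← hn, ← hm] at hlt
      exact hS.mono.lt_iff_lt.1 hlt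
    by_contra hne
    have h1 : p (n + 1) ≤ y := by rw [← hm]; exact hS.mono.monotone hnm
    have h2 : p (n + 1) < y := lt_of_le_of_ne h1 hne
    have h3 : x < p (n + 1) := by rw [← hn]; exact hS.mono (Nat.lt_succ_self n)
    obtain ⟨q', hq', h4⟩ := (hb1 (p (n + 1)) ⟨(x, y), hq, k2.trans hx, h3.le, h2.le⟩).1 ⟨_, rfl⟩
    have h5 := hQ1 q' hq'
    rcases hdisj (x, y) hq q' hq' with h6 | h6 | h6
    · rw [← h6] at h4
      rcases h4 with h4 | h4
      · simp only at h4; linarith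
      · simp only at h4; linarith
    · simp only at h6
      rcases h4 with h4 | h4
      · linarith
      · linarith
    · simp only at h6
      rcases h4 with h4 | h4
      · linarith
      · linarith
  · rintro ⟨n, hn, hm, hcc⟩
    have hx0 : 0 ≤ x := by linarith [k1.trans hx]
    have hlt : x < y := by rw [← hn, ← hm]; exact hS.mono (Nat.lt_succ_self n)
    have hnone : ∀ k, ¬ (x < p k ∧ p k < y) := by
      rintro k ⟨h1, h2⟩
      rw [← hn] at h1
      rw [← hm] at h2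
      have h3 := hS.mono.lt_iff_lt.1 h1
      have h4 := hS.mono.lt_iff_lt.1 h2
      omega
    have hg := (sqrt_gap hc hx0 hcc).2
    have hl := hx₅ y (k3.trans (hx.trans hlt.le))
    have hlog : Real.log (y - 1) ≤ Real.log y := by
      apply Real.log_le_log
      · have : 0 ≤ Real.log y := Real.log_nonneg (by linarith [k1.trans hx])
        linarith
      · linarith
    have hlog0 : 0 ≤ Real.log y := Real.log_nonneg (by linarith [k1.trans hx])
    -- some blocked interval meets the interval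
    have hex : ∃ q ∈ Q, x + 1 ≤ q.2 ∧ q.1 ≤ y - 1 := by
      by_contra hcon
      push Not at hcon
      obtain ⟨k, h1, h2⟩ := hb2 (x + 1) (y - 1) (by linarith [k2.trans hx]) (by linarith)
        (by linarith) (fun q hq => by
          rcases lt_or_ge q.2 (x + 1) with h | h
          · left; exact h
          · right; exact hcon q hq h)
      exact hnone k ⟨by linarith, by linarith⟩
    obtain ⟨q, hq, h1, h2⟩ := hex
    have hqlt := hQ1 q hq
    have hq3 : x₃ ≤ q.1 := by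
      by_contra hcon
      push Not at hcon
      have h3 := hD q hq.1 (h12.trans hq.2)
      have hq0 : 0 ≤ q.1 := by linarith [hq.2]
      have h4 : q.1 ≤ |x₃| := hcon.le.trans (le_abs_self _)
      have h5 : D * q.1 ^ (1 / 2 + 1 : ℝ) ≤ |D| * |x₃| ^ (1 / 2 + 1 : ℝ) :=
        mul_le_mul (le_abs_self D) (Real.rpow_le_rpow hq0 h4 (by norm_num))
          (Real.rpow_nonneg hq0 _) (abs_nonneg D)
      linarith
    -- the endpoints of q are primes
    obtain ⟨k, hk⟩ := (hb1 q.1 ⟨q, hq, hq3, le_rfl, hqlt.le⟩).2 ⟨q, hq, Or.inl rfl⟩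
    obtain ⟨l, hl'⟩ := (hb1 q.2 ⟨q, hq, hq3, hqlt.le, le_rfl⟩).2 ⟨q, hq, Or.inr rfl⟩
    have h3 : q.1 ≤ x := by
      by_contra hcon
      push Not at hcon
      exact hnone k ⟨by rw [hk]; exact hcon, by rw [hk]; linarith⟩
    have h4 : y ≤ q.2 := by
      by_contra hcon
      push Not at hcon
      exact hnone l ⟨by rw [hl']; linarith, by rw [hl']; exact hcon⟩
    -- x is prescribed
    have hxP := (hb1 x ⟨q, hq, hq3, h3, by linarith⟩).1 ⟨n, hn⟩
    have hyP := (hb1 y ⟨q, hq, hq3, by linarith, h4⟩).1 ⟨n + 1, hm⟩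
    have hx1 : x = q.1 := by
      obtain ⟨q', hq', h5⟩ := hxP
      have h6 := hQ1 q' hq'
      rcases hdisj q hq q' hq' with h7 | h7 | h7
      · rw [← h7] at h5
        rcases h5 with h5 | h5
        · exact h5
        · linarith
      · rcases h5 with h5 | h5 <;> linarith
      · rcases h5 with h5 | h5 <;> linarith
    have hy1 : y = q.2 := by
      obtain ⟨q', hq', h5⟩ := hyP
      have h6 := hQ1 q' hq'
      rcases hdisj q hq q' hq' with h7 | h7 | h7
      · rw [← h7] at h5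
        rcases h5 with h5 | h5
        · linarith
        · exact h5
      · rcases h5 with h5 | h5 <;> linarith
      · rcases h5 with h5 | h5 <;> linarith
    rw [hx1, hy1]
    exact hq.1

end Pool.Agent.H521.G
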