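import Mathlib

open MeasureTheory Set Filter Topology

namespace Pool.Agent.H521.G

/-- The number of members of a sequence with short gaps in an interval. -/
theorem blk_count2 {g : ℕ → ℕ} (hg : StrictMono g) {A H G : ℕ} (h0 : g 0 ≤ A)
    (hG : 1 ≤ G) (hgap : ∀ j, g j ≤ A + H → g (j + 1) ≤ g j + G) :
    H / G ≤ ((Finset.range (A + H + 1)).filter fun j => A ≤ g j ∧ g j ≤ A + H).card := by
  have hex : ∃ j, A ≤ g j := ⟨A, hg.le_apply⟩
  obtain ⟨j1, hj1, hmin⟩ : ∃ j1, A ≤ g j1 ∧ ∀ j < j1, g j < A :=
    ⟨Nat.find hex, Nat.find_spec hex, fun j hj => not_le.1 (Nat.find_min hex hj)⟩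
  have hb : g j1 ≤ A + G := by
    rcases Nat.eq_zero_or_pos j1 with h | h
    · rw [h]
      omega
    · have h1 := hmin (j1 - 1) (by omega)
      have h2 := hgap (j1 - 1) (by omega)
      have h3 : j1 - 1 + 1 = j1 := by omega
      rw [h3] at h2
      omega
  have hk : ∀ k : ℕ, G * (k + 1) ≤ H → g (j1 + k) ≤ A + G * (k + 1) := by
    intro k
    induction k with
    | zero =>
      intro _
      rw [zero_add, mul_one, add_zero]
      exact hb
    | succ k ih =>
      intro h
      have e : G * (k + 1 + 1) = G * (k + 1) + G := by ring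
      rw [e] at h ⊢
      have h1 := ih (by omega)
      have h2 := hgap (j1 + k) (by omega)
      have h3 : j1 + (k + 1) = j1 + k + 1 := by omega
      rw [h3]
      omega
  have hcard : (Finset.range (H / G)).card ≤
      ((Finset.range (A + H + 1)).filter fun j => A ≤ g j ∧ g j ≤ A + H).card := by
    apply Finset.card_le_card_of_injOn (fun k => j1 + k)
    · intro k hk'
      have hk2 : k < H / G := Finset.mem_range.1 (Finset.mem_coe.1 hk')
      have h1 : G * (k + 1) ≤ H :=
        (Nat.mul_le_mul_left G (Nat.succ_le_of_lt hk2)).trans (Nat.mul_div_le H G)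
      have h2 := hk k h1
      have h3 : A ≤ g (j1 + k) := hj1.trans (hg.monotone (by omega))
      have h4 : j1 + k ≤ g (j1 + k) := hg.le_apply
      rw [Finset.mem_coe, Finset.mem_filter, Finset.mem_range]
      refine ⟨?_, h3, ?_⟩
      · show j1 + k < A + H + 1
        omega
      · show g (j1 + k) ≤ A + H
        omega
    · intro a _ b _ hab
      exact Nat.add_left_cancel hab
  rwa [Finset.card_range] at hcard

end Pool.Agent.H521.G
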