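import Pool.Agent.H521.G.Win2

open MeasureTheory Set Filter Topology
open scoped ENNReal NNReal ComplexConjugate Classical

namespace Pool.Agent.H521.G

/-- Data of a system of blocks: block `j` has integer length `m j` and contains `m j` points, which
are functions of one uniform variable and whose mean measure is Lebesgue measure. -/
structure Bd (f : ℝ → ℝ) (x₀ : ℝ) where
  m : ℕ → ℕ
  t : ℕ → ℕ → ℝ → ℝ
  mpos : ∀ j, 0 < m j
  tmeas : ∀ j l, Measurable (t j l)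
  t0 : ∀ j l v, v ∈ Ico (0 : ℝ) 1 → l < m j → 0 ≤ t j l v
  tm : ∀ j l v, v ∈ Ico (0 : ℝ) 1 → l < m j → t j l v < m j
  tlt : ∀ j l v, v ∈ Ico (0 : ℝ) 1 → l + 1 < m j → t j l v < t j (l + 1) v
  mean : ∀ j (g : ℝ → ℂ), Measurable g → (∀ x, ‖g x‖ ≤ 1) →
    ∑ l ∈ Finset.range (m j), ∫ v in (0 : ℝ)..1, g (t j l v) = ∫ x in (0 : ℝ)..(m j), g x
  hB : ∀ σ : ℝ, 1 / 2 < σ → Summable fun j => ((m j : ℝ) * phi f x₀ (KK m j) ^ (-σ)) ^ 2
  two : ∀ j, phi f x₀ (KK m (j + 1)) ≤ 2 * phi f x₀ (KK m j)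

namespace Bd

variable {f : ℝ → ℝ} {x₀ : ℝ} (W : Bd f x₀)

/-- left end of the block -/
noncomputable def Y (j : ℕ) : ℝ := KK W.m j

theorem Ys (j : ℕ) : W.Y (j + 1) = W.Y j + W.m j := by
  unfold Y; rw [KK_succ]; push_cast; ring

theorem Y0 : W.Y 0 = 0 := by unfold Y; simp [KK_zero]

theorem Y_nonneg (j : ℕ) : 0 ≤ W.Y j := Nat.cast_nonneg _

theorem m_pos' (j : ℕ) : (0 : ℝ) < W.m j := by exact_mod_cast W.mpos j

theorem one_le_m (j : ℕ) : (1 : ℝ) ≤ W.m j := by exact_mod_cast W.mpos j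

theorem Y_mono : Monotone W.Y := fun i j h => by
  unfold Y; exact_mod_cast KK_mono W.m h

theorem Y_ge (j : ℕ) : (j : ℝ) ≤ W.Y j := by
  unfold Y; exact_mod_cast KK_ge W.mpos j

theorem Y_tendsto : Tendsto W.Y atTop atTop :=
  tendsto_atTop_mono W.Y_ge tendsto_natCast_atTop_atTop

/-- The `y`-coordinates. -/
noncomputable def yk (V : ℕ → ℝ) (k : ℕ) : ℝ :=
  W.Y (blk W.m k) + W.t (blk W.m k) (pos W.m k) (V (blk W.m k))

theorem yk_eq (V : ℕ → ℝ) {j l : ℕ} (hl : l < W.m j) :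
    W.yk V (KK W.m j + l) = W.Y j + W.t j l (V j) := by
  unfold yk
  rw [blk_eq W.mpos hl, pos_eq W.mpos hl]

variable {V : ℕ → ℝ} (hV : ∀ j, V j ∈ Ico (0 : ℝ) 1)
include hV

theorem Y_le_yk (k : ℕ) : W.Y (blk W.m k) ≤ W.yk V k := by
  unfold yk
  have := W.t0 (blk W.m k) (pos W.m k) (V (blk W.m k)) (hV _) (pos_lt W.mpos k)
  linarith

theorem yk_lt_Y (k : ℕ) : W.yk V k < W.Y (blk W.m k + 1) := by
  unfold yk
  rw [W.Ys]
  have := W.tm (blk W.m k) (pos W.m k) (V (blk W.m k)) (hV _) (pos_lt W.mpos k)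
  linarith

theorem yk_nonneg (k : ℕ) : 0 ≤ W.yk V k := (W.Y_nonneg _).trans (W.Y_le_yk hV k)

theorem yk_step (k : ℕ) : W.yk V k < W.yk V (k + 1) := by
  rcases blk_succ W.mpos k with ⟨h1, h2, h3⟩ | ⟨h1, h2, h3⟩
  · unfold yk
    rw [h2, h3]
    have := W.tlt (blk W.m k) (pos W.m k) (V (blk W.m k)) (hV (blk W.m k)) h1
    linarith
  · have h4 := W.Y_le_yk hV (k + 1)
    rw [h2] at h4
    exact lt_of_lt_of_le (W.yk_lt_Y hV k) h4

theorem yk_strictMono : StrictMono (W.yk V) := strictMono_nat_of_lt_succ (W.yk_step hV)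

theorem yk_tendsto : Tendsto (W.yk V) atTop atTop :=
  tendsto_atTop_mono (W.Y_le_yk hV) (W.Y_tendsto.comp (blk_tendsto W.mpos))

theorem yk_dev (k : ℕ) : |W.yk V k - k| ≤ W.m (blk W.m k) := by
  have h1 := W.Y_le_yk hV k
  have h2 := W.yk_lt_Y hV k
  rw [W.Ys] at h2
  have h3 := KK_add_pos W.mpos k
  have h4 := pos_lt W.mpos k
  have h5 : (k : ℝ) = W.Y (blk W.m k) + pos W.m k := by
    unfold Y; exact_mod_cast h3.symm
  have h6 : (pos W.m k : ℝ) < W.m (blk W.m k) := by exact_mod_cast h4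
  have h7 : (0 : ℝ) ≤ pos W.m k := Nat.cast_nonneg _
  rw [abs_le]
  constructor <;> linarith

omit hV

variable (hR : RDens f x₀)
include hR

theorem m_le {σ : ℝ} (hσ : 1 / 2 < σ) : ∃ C : ℝ, 0 ≤ C ∧ ∀ j, (W.m j : ℝ) ≤ C * phi f x₀ (W.Y j) ^ σ := by
  have hs := W.hB σ hσ
  set S := ∑' j, ((W.m j : ℝ) * phi f x₀ (KK W.m j) ^ (-σ)) ^ 2 with hS
  have hS0 : 0 ≤ S := tsum_nonneg fun j => sq_nonneg _
  refine ⟨S + 1, by linarith, fun j => ?_⟩
  have h1 : ((W.m j : ℝ) * phi f x₀ (KK W.m j) ^ (-σ)) ^ 2 ≤ S :=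
    hs.le_tsum j fun i _ => sq_nonneg _
  have hp := hR.phi_pos (W.Y j)
  have h2 : 0 ≤ (W.m j : ℝ) * phi f x₀ (W.Y j) ^ (-σ) :=
    mul_nonneg (Nat.cast_nonneg _) (Real.rpow_nonneg hp.le _)
  have h3 : (W.m j : ℝ) * phi f x₀ (W.Y j) ^ (-σ) ≤ S + 1 := by
    have h4 : ((W.m j : ℝ) * phi f x₀ (W.Y j) ^ (-σ)) ^ 2 ≤ S := h1
    nlinarith
  have h5 : 0 < phi f x₀ (W.Y j) ^ σ := Real.rpow_pos_of_pos hp _
  rw [Real.rpow_neg hp.le, ← div_eq_mul_inv, div_le_iff₀ h5] at h3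
  exact h3

include hV in
theorem yk_disc {σ : ℝ} (hσ : 1 / 2 < σ) : ∃ C : ℝ, 0 ≤ C ∧ W.yk V 0 ≤ C ∧
    (∀ k, |W.yk V k - k| ≤ C * phi f x₀ (W.yk V k) ^ σ) ∧
    ∀ k, W.yk V (k + 1) - W.yk V k ≤ C * phi f x₀ (W.yk V k) ^ σ := by
  obtain ⟨C, hC0, hC⟩ := W.m_le hR hσ
  have hmono : ∀ k, phi f x₀ (W.Y (blk W.m k)) ^ σ ≤ phi f x₀ (W.yk V k) ^ σ := fun k =>
    Real.rpow_le_rpow (hR.phi_pos _).le (hR.phi_mono (W.Y_le_yk hV k)) (by linarith)
  have hdev : ∀ k, |W.yk V k - k| ≤ C * phi f x₀ (W.yk V k) ^ σ := fun k =>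
    (W.yk_dev hV k).trans ((hC _).trans (mul_le_mul_of_nonneg_left (hmono k) hC0))
  have h2σ : (0 : ℝ) < 2 ^ σ := Real.rpow_pos_of_pos two_pos _
  have hone : ∀ k, 1 ≤ phi f x₀ (W.yk V k) ^ σ := fun k =>
    Real.one_le_rpow (hR.phi_one_le _) (by linarith)
  refine ⟨C * (1 + 2 ^ σ) + C * phi f x₀ (W.yk V 0) ^ σ, ?_, ?_, fun k => ?_, fun k => ?_⟩
  · have := hone 0
    positivity
  · have h1 := (abs_le.1 (hdev 0)).2
    simp only [Nat.cast_zero, sub_zero] at h1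
    have : 0 ≤ C * (1 + 2 ^ σ) := by positivity
    linarith
  · refine (hdev k).trans ?_
    apply mul_le_mul_of_nonneg_right _ (by linarith [hone k])
    have h1 : 0 ≤ C * 2 ^ σ := by positivity
    have h2 : 0 ≤ C * phi f x₀ (W.yk V 0) ^ σ := mul_nonneg hC0 (by linarith [hone 0])
    linarith
  · have hlo := W.Y_le_yk hV k
    have key : W.yk V (k + 1) - W.yk V k ≤ W.m (blk W.m k) + W.m (blk W.m k + 1) := by
      have hhi := W.yk_lt_Y hV (k + 1)
      have h5 := W.Ys (blk W.m k)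
      have h6 := W.Ys (blk W.m k + 1)
      have h7 := W.m_pos' (blk W.m k + 1)
      rcases blk_succ W.mpos k with ⟨h1, h2, h3⟩ | ⟨h1, h2, h3⟩
      · rw [h2] at hhi
        linarith
      · rw [h2] at hhi
        linarith
    have h1 := hC (blk W.m k)
    have h2 := hC (blk W.m k + 1)
    have h3 : phi f x₀ (W.Y (blk W.m k + 1)) ^ σ ≤ 2 ^ σ * phi f x₀ (W.Y (blk W.m k)) ^ σ := by
      rw [← Real.mul_rpow two_pos.le (hR.phi_pos _).le]
      exact Real.rpow_le_rpow (hR.phi_pos _).le (W.two _) (by linarith)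
    have h4 := mul_le_mul_of_nonneg_left h3 hC0
    have h5 := mul_le_mul_of_nonneg_left (hmono k) (by positivity : 0 ≤ C * (1 + 2 ^ σ))
    have h6 : 0 ≤ C * phi f x₀ (W.yk V 0) ^ σ * phi f x₀ (W.yk V k) ^ σ :=
      mul_nonneg (mul_nonneg hC0 (by linarith [hone 0])) (by linarith [hone k])
    nlinarith

/-- The centred terms. -/
noncomputable def X (j : ℕ) (ω : ℝ) (s : ℂ) : ℂ :=
  ∑ l ∈ Finset.range (W.m j), Ph f x₀ s (W.Y j + W.t j l ω) -
    (Ip f x₀ s (W.Y (j + 1)) - Ip f x₀ s (W.Y j))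

theorem X_norm_le (j : ℕ) {ω : ℝ} (hω : ω ∈ Ico (0 : ℝ) 1) {s : ℂ} (hs : 0 ≤ s.re) :
    ‖W.X j ω s‖ ≤ 2 * (W.m j * phi f x₀ (W.Y j) ^ (-s.re)) := by
  unfold X
  refine (norm_sub_le _ _).trans ?_
  have h1 : ‖∑ l ∈ Finset.range (W.m j), Ph f x₀ s (W.Y j + W.t j l ω)‖ ≤
      W.m j * phi f x₀ (W.Y j) ^ (-s.re) := by
    refine (norm_sum_le _ _).trans ?_
    refine (Finset.sum_le_sum (g := fun _ => phi f x₀ (W.Y j) ^ (-s.re)) fun l hl => ?_).trans ?_
    · exact hR.norm_Ph_le (by linarith [W.t0 j l ω hω (Finset.mem_range.1 hl)]) hs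
    · simp
  have h2 := hR.norm_Ip_sub_le (le_refl (W.Y j)) (W.Y_mono (Nat.le_succ j)) hs
  rw [Nat.succ_eq_add_one, W.Ys, add_sub_cancel_left, abs_of_pos (W.m_pos' j)] at h2
  rw [W.Ys]
  linarith

theorem int_block (j : ℕ) {s : ℂ} (hs : 0 ≤ s.re) :
    Ip f x₀ s (W.Y (j + 1)) - Ip f x₀ s (W.Y j) = ∫ x in (0 : ℝ)..(W.m j), Ph f x₀ s (W.Y j + x) := by
  rw [hR.Ip_sub _ _ hs, W.Ys]
  rw [intervalIntegral.integral_comp_add_left (fun x => Ph f x₀ s x)]
  simp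

theorem X_lip_le (j : ℕ) {ω : ℝ} (hω : ω ∈ Ico (0 : ℝ) 1) {s : ℂ} (hs : 0 ≤ s.re) :
    ‖W.X j ω s‖ ≤ ‖s‖ * (W.m j * ((phi f x₀ (W.Y (j + 1)) - phi f x₀ (W.Y j)) *
      phi f x₀ (W.Y j) ^ (-s.re - 1))) := by
  have hm := W.m_pos' j
  set D : ℝ := ‖s‖ * ((phi f x₀ (W.Y (j + 1)) - phi f x₀ (W.Y j)) *
      phi f x₀ (W.Y j) ^ (-s.re - 1)) with hD
  have hii : IntervalIntegrable (fun x => Ph f x₀ s (W.Y j + x)) volume 0 (W.m j : ℝ) := by
    rw [intervalIntegrable_iff]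
    exact Measure.integrableOn_of_bounded (by simp)
      ((hR.measurable_Ph s).comp (measurable_const.add measurable_id)).aestronglyMeasurable
      (M := 1) (Filter.Eventually.of_forall fun y => hR.norm_Ph_le_one _ hs)
  have e : W.X j ω s = ∑ l ∈ Finset.range (W.m j), ((1 / (W.m j : ℝ) : ℝ) : ℂ) *
      ∫ x in (0 : ℝ)..(W.m j), (Ph f x₀ s (W.Y j + W.t j l ω) - Ph f x₀ s (W.Y j + x)) := by
    unfold X
    have h1 : ∀ l, ((1 / (W.m j : ℝ) : ℝ) : ℂ) *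
        ∫ x in (0 : ℝ)..(W.m j), (Ph f x₀ s (W.Y j + W.t j l ω) - Ph f x₀ s (W.Y j + x)) =
        Ph f x₀ s (W.Y j + W.t j l ω) - ((1 / (W.m j : ℝ) : ℝ) : ℂ) *
          ∫ x in (0 : ℝ)..(W.m j), Ph f x₀ s (W.Y j + x) := by
      intro l
      rw [intervalIntegral.integral_sub intervalIntegrable_const hii,
        intervalIntegral.integral_const, sub_zero, mul_sub, Complex.real_smul, ← mul_assoc,
        ← Complex.ofReal_mul, one_div_mul_cancel hm.ne', Complex.ofReal_one, one_mul]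
    rw [Finset.sum_congr rfl fun l _ => h1 l, Finset.sum_sub_distrib, Finset.sum_const,
      Finset.card_range, nsmul_eq_mul, ← mul_assoc, W.int_block hR j hs]
    congr 1
    rw [← Complex.ofReal_natCast, ← Complex.ofReal_mul, mul_one_div_cancel hm.ne',
      Complex.ofReal_one, one_mul]
  rw [e]
  have h2 : ∀ l ∈ Finset.range (W.m j), ‖((1 / (W.m j : ℝ) : ℝ) : ℂ) *
      ∫ x in (0 : ℝ)..(W.m j), (Ph f x₀ s (W.Y j + W.t j l ω) - Ph f x₀ s (W.Y j + x))‖ ≤ D := by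
    intro l hl
    have h3 : ‖∫ x in (0 : ℝ)..(W.m j), (Ph f x₀ s (W.Y j + W.t j l ω) -
        Ph f x₀ s (W.Y j + x))‖ ≤ D * |(W.m j : ℝ) - 0| := by
      apply intervalIntegral.norm_integral_le_of_norm_le_const
      intro x hx
      rw [uIoc_of_le hm.le] at hx
      have hmem : ∀ u : ℝ, 0 ≤ u → u ≤ W.m j → phi f x₀ (W.Y j + u) ∈
          Icc (phi f x₀ (W.Y j)) (phi f x₀ (W.Y (j + 1))) := fun u hu0 hu =>
        ⟨hR.phi_mono (by linarith), hR.phi_mono (by rw [W.Ys]; linarith)⟩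
      have := norm_cpow_neg_sub_le' (hR.phi_pos (W.Y j))
        (hmem _ (W.t0 j l ω hω (Finset.mem_range.1 hl)) (W.tm j l ω hω (Finset.mem_range.1 hl)).le)
        (hmem x hx.1.le hx.2) (by linarith : (-1 : ℝ) ≤ s.re)
      unfold Ph
      rw [hD]
      linarith
    rw [norm_mul, Complex.norm_real, Real.norm_eq_abs, abs_of_pos (by positivity),
      one_div_mul_eq_div, div_le_iff₀ hm]
    rw [sub_zero, abs_of_pos hm] at h3
    exact h3
  refine (norm_sum_le _ _).trans ((Finset.sum_le_sum h2).trans (le_of_eq ?_))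
  rw [Finset.sum_const, Finset.card_range, nsmul_eq_mul, hD]
  ring

theorem sum_D {σ : ℝ} (hσ : 1 / 2 < σ) : Summable fun j => (W.m j : ℝ) *
    ((phi f x₀ (W.Y (j + 1)) - phi f x₀ (W.Y j)) * phi f x₀ (W.Y j) ^ (-σ - 1)) := by
  -- choose an intermediate exponent
  set τ : ℝ := (σ + 1 / 2) / 2 with hτ
  have hτ1 : 1 / 2 < τ := by rw [hτ]; linarith
  set η : ℝ := σ + 1 - 2 * τ with hη
  have hη0 : 0 < η := by rw [hη, hτ]; linarith
  have hs := (W.hB τ hτ1).mul_left (2 * (2 ^ η / η))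
  refine Summable.of_nonneg_of_le (fun j => ?_) (fun j => ?_) hs
  · apply mul_nonneg (Nat.cast_nonneg _)
    apply mul_nonneg _ (Real.rpow_nonneg (hR.phi_pos _).le _)
    have := hR.phi_mono (W.Y_mono (Nat.le_succ j))
    simp only [Nat.succ_eq_add_one] at this
    linarith
  · have hp := hR.phi_pos (W.Y j)
    have hm := W.m_pos' j
    have h1 := hR.phi_sub_le (W.Y_nonneg j) (W.Y_mono (Nat.le_succ j))
    simp only [Nat.succ_eq_add_one] at h1
    have e0 : W.Y (j + 1) - W.Y j = W.m j := by rw [W.Ys]; ring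
    rw [e0] at h1
    have h2 := W.two j
    have h3 : Real.log (phi f x₀ (W.Y (j + 1))) ≤ 2 ^ η * phi f x₀ (W.Y j) ^ η / η := by
      have h4 := Real.log_le_rpow_div (hR.phi_pos (W.Y (j + 1))).le hη0
      refine h4.trans ?_
      apply div_le_div_of_nonneg_right _ hη0.le
      rw [← Real.mul_rpow two_pos.le hp.le]
      exact Real.rpow_le_rpow (hR.phi_pos _).le h2 hη0.le
    have h5 : 0 < phi f x₀ (W.Y j) ^ (-σ - 1) := Real.rpow_pos_of_pos hp _
    have e1 : phi f x₀ (W.Y j) ^ η * phi f x₀ (W.Y j) ^ (-σ - 1) =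
        (phi f x₀ (W.Y j) ^ (-τ)) ^ 2 := by
      rw [← Real.rpow_natCast (phi f x₀ (W.Y j) ^ (-τ)) 2, ← Real.rpow_mul hp.le,
        ← Real.rpow_add hp]
      congr 1
      rw [hη]
      push_cast
      ring
    calc (W.m j : ℝ) * ((phi f x₀ (W.Y (j + 1)) - phi f x₀ (W.Y j)) *
          phi f x₀ (W.Y j) ^ (-σ - 1)) ≤
        W.m j * ((W.m j * (2 * (2 ^ η * phi f x₀ (W.Y j) ^ η / η))) *
          phi f x₀ (W.Y j) ^ (-σ - 1)) := by
          apply mul_le_mul_of_nonneg_left _ hm.le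
          apply mul_le_mul_of_nonneg_right _ h5.le
          refine h1.trans ?_
          apply mul_le_mul_of_nonneg_left _ hm.le
          linarith
      _ = 2 * (2 ^ η / η) * ((W.m j : ℝ) ^ 2 * (phi f x₀ (W.Y j) ^ η *
          phi f x₀ (W.Y j) ^ (-σ - 1))) := by ring
      _ = 2 * (2 ^ η / η) * ((W.m j : ℝ) * phi f x₀ (KK W.m j) ^ (-τ)) ^ 2 := by
          rw [e1, mul_pow]
          rfl

/-- The kernels. -/
noncomputable def kernels : Kernels ℝ where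
  μ _ _ := muI
  A _ _ := Ico 0 1
  X j _ ω s := W.X j ω s
  B j σ := 2 * (W.m j * phi f x₀ (W.Y j) ^ (-σ))
  D j σ := W.m j * ((phi f x₀ (W.Y (j + 1)) - phi f x₀ (W.Y j)) * phi f x₀ (W.Y j) ^ (-σ - 1))
  prob _ _ := inferInstance
  full _ _ := muI_compl
  meas j _ := by
    have h1 : Measurable fun x : ℝ × ℂ => ∑ l ∈ Finset.range (W.m j),
        Ph f x₀ x.2 (W.Y j + W.t j l x.1) := by
      apply Finset.measurable_fun_sum
      intro l _
      exact hR.measurable_Ph2.comp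
        ((measurable_const.add ((W.tmeas j l).comp measurable_fst)).prodMk measurable_snd)
    have h2 : Measurable fun x : ℝ × ℂ => Ip f x₀ x.2 (W.Y (j + 1)) :=
      ((hR.diff_Ip (W.Y_nonneg (j + 1))).continuous.measurable).comp measurable_snd
    have h3 : Measurable fun x : ℝ × ℂ => Ip f x₀ x.2 (W.Y j) :=
      ((hR.diff_Ip (W.Y_nonneg j)).continuous.measurable).comp measurable_snd
    exact h1.sub (h2.sub h3)
  cent j _ s hs := by
    have hs0 : 0 ≤ s.re := by linarith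
    have hi : ∀ l, Integrable (fun v => Ph f x₀ s (W.Y j + W.t j l v)) muI := by
      intro l
      apply Integrable.of_bound _ 1
      · exact Filter.Eventually.of_forall fun y => hR.norm_Ph_le_one _ hs0
      · exact ((hR.measurable_Ph s).comp
          (measurable_const.add (W.tmeas j l))).aestronglyMeasurable
    unfold X
    rw [integral_sub (integrable_finsetSum _ fun l _ => hi l) (integrable_const _),
      integral_finsetSum _ fun l _ => hi l]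
    have h1 := W.mean j (fun x => Ph f x₀ s (W.Y j + x))
      ((hR.measurable_Ph s).comp (measurable_const.add measurable_id))
      (fun x => hR.norm_Ph_le_one _ hs0)
    rw [Finset.sum_congr rfl fun l _ => integral_muI (fun v => Ph f x₀ s (W.Y j + W.t j l v)), h1,
      ← W.int_block hR j hs0]
    simp
  diff j _ ω _ := by
    have h1 : Differentiable ℂ fun s => ∑ l ∈ Finset.range (W.m j),
        Ph f x₀ s (W.Y j + W.t j l ω) := Differentiable.fun_sum fun l _ => hR.diff_Ph _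
    have h2 := hR.diff_Ip (W.Y_nonneg (j + 1))
    have h3 := hR.diff_Ip (W.Y_nonneg j)
    exact (h1.sub (h2.sub h3)).differentiableOn
  B0 j σ _ := mul_nonneg two_pos.le (mul_nonneg (Nat.cast_nonneg _)
    (Real.rpow_nonneg (hR.phi_pos _).le _))
  Bmeas j := by fun_prop
  Bmono j σ τ _ hst := by
    apply mul_le_mul_of_nonneg_left _ two_pos.le
    apply mul_le_mul_of_nonneg_left _ (Nat.cast_nonneg _)
    exact Real.rpow_le_rpow_of_exponent_le (hR.phi_one_le _) (by linarith)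
  Ble j _ ω hω s hs := W.X_norm_le hR j hω (by linarith)
  Bsum σ hσ := by
    refine ((W.hB σ hσ).mul_left 4).congr fun j => ?_
    unfold Y
    ring
  Dle j _ ω hω σ s hσ hs := by
    refine (W.X_lip_le hR j hω (by linarith)).trans ?_
    apply mul_le_mul_of_nonneg_left _ (norm_nonneg _)
    apply mul_le_mul_of_nonneg_left _ (Nat.cast_nonneg _)
    apply mul_le_mul_of_nonneg_left
    · exact Real.rpow_le_rpow_of_exponent_le (hR.phi_one_le _) (by linarith)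
    · have := hR.phi_mono (W.Y_mono (Nat.le_succ j))
      simp only [Nat.succ_eq_add_one] at this
      linarith
  Dsum σ hσ := W.sum_D hR hσ

/-- **The block theorem.** -/
theorem system {Z : Multiset ℂ} (hZ : ∀ ρ ∈ Z, ρ.re < 1) (hZc : Z.map conj = Z)
    (hf : f = fZ Z) :
    ∃ V : ℕ → ℝ, (∀ j, V j ∈ Ico (0 : ℝ) 1) ∧ Sys Z fun k => phi f x₀ (W.yk V k) := by
  obtain ⟨V, hV, hsum, hdiff, hbd⟩ := (W.kernels hR).engine
  have hV' : ∀ j, V j ∈ Ico (0 : ℝ) 1 := hV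
  refine ⟨V, hV', ?_⟩
  subst hf
  have hint : ∀ s : ℂ, 1 < s.re →
      IntegrableOn (fun u : ℝ => (fZ Z u : ℂ) * (u : ℂ) ^ (-s)) (Ioi x₀) := fun s hs =>
    (int_fZ hZ hZc hs).1.mono_set (Ioi_subset_Ioi (by linarith [hR.dens.hx₀]))
  have hKt : Tendsto (KK W.m) atTop atTop :=
    tendsto_atTop_mono (fun j => KK_ge W.mpos j) tendsto_id
  refine sys_of_seq hZ hZc hR (W.yk_strictMono hV') (W.yk_tendsto hV') (W.yk_nonneg hV')
    (fun σ hσ => W.yk_disc hV' hR hσ)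
    (R := fun s => ∑' j, W.X j (V j) s) hdiff ?_ hKt ?_
  · intro ε hε
    obtain ⟨C1, h1⟩ := hbd ε hε
    exact ⟨C1, fun s hs => h1 s hs⟩
  · intro s hs
    have hs1 : 1 / 2 < s.re := by linarith
    have hL := (hR.Ip_tendsto (hint s hs)).comp W.Y_tendsto
    have hX : Tendsto (fun J => ∑ j ∈ Finset.range J, W.X j (V j) s) atTop
        (𝓝 (∑' j, W.X j (V j) s)) := (hsum s hs1).hasSum.tendsto_sum_nat
    have h1 := hL.add hX
    refine h1.congr fun J => ?_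
    rw [sum_blocks]
    have h2 : ∀ j, ∑ l ∈ Finset.range (W.m j), Ph (fZ Z) x₀ s (W.yk V (KK W.m j + l)) =
        ∑ l ∈ Finset.range (W.m j), Ph (fZ Z) x₀ s (W.Y j + W.t j l (V j)) := by
      intro j
      apply Finset.sum_congr rfl
      intro l hl
      rw [W.yk_eq V (Finset.mem_range.1 hl)]
    have h3 : Ip (fZ Z) x₀ s (W.Y J) =
        ∑ j ∈ Finset.range J, (Ip (fZ Z) x₀ s (W.Y (j + 1)) - Ip (fZ Z) x₀ s (W.Y j)) := by
      rw [Finset.sum_range_sub (fun j => Ip (fZ Z) x₀ s (W.Y j)), W.Y0]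
      simp [Ip]
    change Ip (fZ Z) x₀ s (W.Y J) + _ = ∑ j ∈ Finset.range J, ∑ l ∈ Finset.range (W.m j),
      Ph (fZ Z) x₀ s (W.yk V (KK W.m j + l))
    rw [h3, ← Finset.sum_add_distrib]
    apply Finset.sum_congr rfl
    intro j _
    rw [h2 j]
    unfold X
    ring

end Bd

end Pool.Agent.H521.G
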