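import Mathlib

open MeasureTheory Set Filter Topology

namespace Pool.Agent.H521.G

theorem block_cesaro_lip {S T : ℕ → ℝ} (hT : Monotone T) {C : ℝ}
    (hST : ∀ n, |S (n + 1) - S n| ≤ C * (T (n + 1) - T n)) {m n : ℕ} (h : m ≤ n) :
    |S n - S m| ≤ |C| * (T n - T m) := by
  induction n, h using Nat.le_induction with
  | base => simp
  | succ n hmn ih =>
    have h1 := hST n
    have h2 : 0 ≤ T (n + 1) - T n := sub_nonneg.2 (hT (Nat.le_succ n))
    have h3 : C * (T (n + 1) - T n) ≤ |C| * (T (n + 1) - T n) :=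
      mul_le_mul_of_nonneg_right (le_abs_self C) h2
    calc |S (n + 1) - S m| ≤ |S (n + 1) - S n| + |S n - S m| := abs_sub_le _ _ _
      _ ≤ |C| * (T (n + 1) - T n) + |C| * (T n - T m) := by linarith
      _ = _ := by ring

theorem block_cesaro_key {g : ℕ → ℕ} (hg : StrictMono g) {S T : ℕ → ℝ} (hT : Monotone T)
    (hTt : Tendsto T atTop atTop) {C l : ℝ}
    (hST : ∀ n, |S (n + 1) - S n| ≤ C * (T (n + 1) - T n))
    (hr : Tendsto (fun j => T (g (j + 1)) / T (g j)) atTop (𝓝 1))
    (H : ∀ ε : ℝ, 0 < ε → ∀ᶠ j in atTop,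
      |S (g (j + 1)) - S (g j) - l * (T (g (j + 1)) - T (g j))| ≤ ε * (T (g (j + 1)) - T (g j)))
    {ε : ℝ} (hε : 0 < ε) : ∀ᶠ n in atTop, |S n - l * T n| ≤ (2 + |C| + |l|) * ε * T n := by
  have hTg : Tendsto (fun j => T (g j)) atTop atTop := hTt.comp hg.tendsto_atTop
  obtain ⟨J, hJ⟩ := eventually_atTop.1 (H ε hε)
  have hE : ∀ j, J ≤ j → |S (g j) - l * T (g j)| ≤
      |S (g J) - l * T (g J)| + ε * (T (g j) - T (g J)) := by
    intro j hj
    induction j, hj using Nat.le_induction with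
    | base => simp
    | succ j hj ih =>
      have h1 := hJ j hj
      have e : S (g (j + 1)) - l * T (g (j + 1)) =
          (S (g (j + 1)) - S (g j) - l * (T (g (j + 1)) - T (g j))) + (S (g j) - l * T (g j)) := by ring
      calc |S (g (j + 1)) - l * T (g (j + 1))| ≤
          |S (g (j + 1)) - S (g j) - l * (T (g (j + 1)) - T (g j))| + |S (g j) - l * T (g j)| := by
            rw [e]; exact abs_add_le _ _
        _ ≤ _ := by linarith
  have ev1 := hTg.eventually_ge_atTop ((|S (g J) - l * T (g J)| + ε * |T (g J)|) / ε)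
  have ev2 := hr.eventually (gt_mem_nhds (show (1 : ℝ) < 1 + ε by linarith))
  have ev3 := hTg.eventually_gt_atTop 0
  obtain ⟨J', hJ'⟩ := eventually_atTop.1 (ev1.and (ev2.and ev3))
  filter_upwards [eventually_ge_atTop (g (max J J'))] with n hn
  obtain ⟨j, hj1, hj2⟩ : ∃ j, g j ≤ n ∧ n < g (j + 1) := by
    classical
    have hex : ∃ k, n < g k := ⟨n + 1, lt_of_lt_of_le (Nat.lt_succ_self n) (hg.id_le (n + 1))⟩
    have h0 : Nat.find hex ≠ 0 := by
      intro h0
      have h1 := Nat.find_spec hex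
      rw [h0] at h1
      have h2 := hg.monotone (Nat.zero_le (max J J'))
      omega
    obtain ⟨k, hk⟩ := Nat.exists_eq_succ_of_ne_zero h0
    refine ⟨k, ?_, ?_⟩
    · have := Nat.find_min hex (m := k) (by omega)
      omega
    · have h1 := Nat.find_spec hex
      rw [hk] at h1
      exact h1
  have hmj : max J J' ≤ j := by
    by_contra hcon
    have h1 : j + 1 ≤ max J J' := by omega
    have h2 := hg.monotone h1
    omega
  have hJj : J ≤ j := (le_max_left _ _).trans hmj
  obtain ⟨a1, a2, a3⟩ := hJ' j ((le_max_right _ _).trans hmj)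
  rw [div_le_iff₀ hε] at a1
  rw [div_lt_iff₀ a3] at a2
  have b1 := hE j hJj
  have b2 := block_cesaro_lip hT hST hj1
  have b3 : T n ≤ T (g (j + 1)) := hT hj2.le
  have b4 : T (g j) ≤ T n := hT hj1
  have b5 : T n - T (g j) ≤ ε * T (g j) := by linarith
  have b6 : 0 ≤ T n - T (g j) := by linarith
  have c1 : |S (g j) - l * T (g j)| ≤ 2 * ε * T (g j) := by
    have h1 : -(ε * T (g J)) ≤ ε * |T (g J)| := by
      have := mul_le_mul_of_nonneg_left (neg_abs_le (T (g J))) hε.le
      linarith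
    linarith
  have c2 : |l * (T (g j) - T n)| ≤ |l| * (T n - T (g j)) := by
    rw [abs_mul, abs_sub_comm (T (g j)) (T n), abs_of_nonneg b6]
  have e : S n - l * T n = (S n - S (g j)) + (S (g j) - l * T (g j)) + l * (T (g j) - T n) := by ring
  calc |S n - l * T n| ≤ |S n - S (g j)| + |S (g j) - l * T (g j)| + |l * (T (g j) - T n)| := by
        rw [e]; exact (abs_add_le _ _).trans (add_le_add_left (abs_add_le _ _) _)
    _ ≤ |C| * (T n - T (g j)) + 2 * ε * T (g j) + |l| * (T n - T (g j)) := by linarith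
    _ ≤ |C| * (ε * T (g j)) + 2 * ε * T (g j) + |l| * (ε * T (g j)) := by
        have h1 := mul_le_mul_of_nonneg_left b5 (abs_nonneg C)
        have h2 := mul_le_mul_of_nonneg_left b5 (abs_nonneg l)
        linarith
    _ = (2 + |C| + |l|) * ε * T (g j) := by ring
    _ ≤ (2 + |C| + |l|) * ε * T n := by
        apply mul_le_mul_of_nonneg_left b4
        positivity

theorem block_cesaro {g : ℕ → ℕ} (hg : StrictMono g) {S T : ℕ → ℝ} (hT : Monotone T)
    (hTt : Tendsto T atTop atTop) {C l : ℝ}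
    (hST : ∀ n, |S (n + 1) - S n| ≤ C * (T (n + 1) - T n))
    (hr : Tendsto (fun j => T (g (j + 1)) / T (g j)) atTop (𝓝 1))
    (H : ∀ ε : ℝ, 0 < ε → ∀ᶠ j in atTop,
      |S (g (j + 1)) - S (g j) - l * (T (g (j + 1)) - T (g j))| ≤ ε * (T (g (j + 1)) - T (g j))) :
    Tendsto (fun n => S n / T n) atTop (𝓝 l) := by
  rw [Metric.tendsto_nhds]
  intro ε hε
  have hK : 0 < 2 + |C| + |l| := by positivity
  filter_upwards [block_cesaro_key hg hT hTt hST hr H (ε := ε / (2 * (2 + |C| + |l|))) (by positivity),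
    hTt.eventually_gt_atTop 0] with n h1 h2
  rw [Real.dist_eq]
  have e : S n / T n - l = (S n - l * T n) / T n := by field_simp
  rw [e, abs_div, abs_of_pos h2, div_lt_iff₀ h2]
  have e2 : (2 + |C| + |l|) * (ε / (2 * (2 + |C| + |l|))) * T n = ε / 2 * T n := by field_simp
  rw [e2] at h1
  have h3 : 0 < ε * T n := by positivity
  linarith

end Pool.Agent.H521.G
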