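import Mathlib

open MeasureTheory Set Filter Topology
open scoped Classical

namespace Pool.Agent.H521.G

theorem blockCnt_eps {a : ℝ} (ha : 1 < a) : ∃ ε : ℝ, 0 < ε ∧ ε < 1 ∧
    (1 + ε) ≤ 2 * (1 - ε) ^ a ∧ (1 + ε) ^ a ≤ 2 * (1 - ε) := by
  have ha0 : 0 ≤ a := by linarith
  have h1 : ContinuousAt (fun e : ℝ => 2 * (1 - e) ^ a - (1 + e)) 0 := by
    refine ContinuousAt.sub (ContinuousAt.mul continuousAt_const ?_) ?_
    · exact ContinuousAt.rpow_const (continuousAt_const.sub continuousAt_id) (Or.inr ha0)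
    · exact continuousAt_const.add continuousAt_id
  have h2 : ContinuousAt (fun e : ℝ => 2 * (1 - e) - (1 + e) ^ a) 0 := by
    refine ContinuousAt.sub (ContinuousAt.mul continuousAt_const ?_) ?_
    · exact continuousAt_const.sub continuousAt_id
    · exact ContinuousAt.rpow_const (continuousAt_const.add continuousAt_id) (Or.inr ha0)
  have h3 : ∀ᶠ e : ℝ in 𝓝 0, 0 < 2 * (1 - e) ^ a - (1 + e) := by
    refine h1.eventually (lt_mem_nhds ?_)
    show (0 : ℝ) < 2 * (1 - 0) ^ a - (1 + 0)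
    rw [sub_zero, add_zero, Real.one_rpow]
    norm_num
  have h4 : ∀ᶠ e : ℝ in 𝓝 0, 0 < 2 * (1 - e) - (1 + e) ^ a := by
    refine h2.eventually (lt_mem_nhds ?_)
    show (0 : ℝ) < 2 * (1 - 0) - (1 + 0) ^ a
    rw [sub_zero, add_zero, Real.one_rpow]
    norm_num
  have h5 : ∀ᶠ e : ℝ in 𝓝 0, e < 1 := gt_mem_nhds one_pos
  have h6 : ∀ᶠ e : ℝ in 𝓝[>] 0, (0 < 2 * (1 - e) ^ a - (1 + e) ∧
      0 < 2 * (1 - e) - (1 + e) ^ a ∧ e < 1) ∧ 0 < e :=
    ((h3.and (h4.and h5)).filter_mono nhdsWithin_le_nhds).and self_mem_nhdsWithin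
  obtain ⟨e, ⟨h7, h8, h9⟩, h10⟩ := h6.exists
  exact ⟨e, h10, h9, by linarith, by linarith⟩

theorem blockCnt_inj {M r l l' : ℕ} (hl : l < M) (hl' : l' < M)
    (h : (r + l) % M = (r + l') % M) : l = l' := by
  have h1 : r + l ≡ r + l' [MOD M] := h
  have h2 : l ≡ l' [MOD M] := Nat.ModEq.add_left_cancel' r h1
  have h3 : l % M = l' % M := h2
  rwa [Nat.mod_eq_of_lt hl, Nat.mod_eq_of_lt hl'] at h3

theorem blockCnt_surj {M r m : ℕ} (hm : m < M) : ∃ l < M, (r + l) % M = m := by
  have hM : 0 < M := by omega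
  refine ⟨(m + (M - r % M)) % M, Nat.mod_lt _ hM, ?_⟩
  rw [Nat.add_mod_mod]
  have h1 : r % M < M := Nat.mod_lt _ hM
  have h2 : r + (m + (M - r % M)) = m + M * (r / M + 1) := by
    have h3 := Nat.div_add_mod r M
    rw [Nat.mul_add, Nat.mul_one]
    omega
  rw [h2, Nat.add_mul_mod_self_left, Nat.mod_eq_of_lt hm]

theorem blockCnt_up {ε lam a L D C : ℝ} (he1 : ε < 1) (hlam : 0 < lam)
    (ha : 1 < a) (h1 : (1 + ε) ≤ 2 * (1 - ε) ^ a) (he0 : 0 < ε)
    (hD : |D - lam * C| ≤ ε * (lam * C)) (hL : |L - lam| ≤ ε * lam) (h : L ^ a ≤ D) :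
    lam ^ (a - 1) / 2 ≤ C := by
  have h2 : (1 - ε) * lam ≤ L := by
    have := (abs_le.1 hL).1
    linarith
  have h3 : D ≤ (1 + ε) * (lam * C) := by
    have := (abs_le.1 hD).2
    linarith
  have h4 : 0 ≤ (1 - ε) * lam := mul_nonneg (by linarith) hlam.le
  have h5 : ((1 - ε) * lam) ^ a ≤ L ^ a := Real.rpow_le_rpow h4 h2 (by linarith)
  rw [Real.mul_rpow (by linarith) hlam.le] at h5
  have h6 : lam ^ a = lam ^ (a - 1) * lam := by
    rw [Real.rpow_sub_one hlam.ne', div_mul_cancel₀ _ hlam.ne']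
  have h7 : 0 < lam ^ a := Real.rpow_pos_of_pos hlam a
  have h8 : (1 + ε) * lam ^ a ≤ 2 * ((1 - ε) ^ a * lam ^ a) := by
    nlinarith
  have h9 : (1 + ε) * (lam ^ (a - 1) * lam) ≤ 2 * ((1 + ε) * (lam * C)) := by
    rw [← h6]
    linarith
  have h10 : 0 < (1 + ε) * lam := mul_pos (by linarith) hlam
  have h11 : ((1 + ε) * lam) * (lam ^ (a - 1) / 2) ≤ ((1 + ε) * lam) * C := by
    nlinarith
  exact le_of_mul_le_mul_left h11 h10

theorem blockCnt_low {ε lam a L D C : ℝ} (he1 : ε < 1) (hlam : 0 < lam)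
    (ha : 1 < a) (h1 : (1 + ε) ^ a ≤ 2 * (1 - ε)) (he0 : 0 < ε)
    (hD : |D - lam * C| ≤ ε * (lam * C)) (hL : |L - lam| ≤ ε * lam)
    (h : 2 * lam ^ (a - 1) ≤ C) : L ^ a ≤ D := by
  have h2 : L ≤ (1 + ε) * lam := by
    have := (abs_le.1 hL).2
    linarith
  have h2' : (1 - ε) * lam ≤ L := by
    have := (abs_le.1 hL).1
    linarith
  have h3 : (1 - ε) * (lam * C) ≤ D := by
    have := (abs_le.1 hD).1
    linarith
  have h4 : 0 ≤ (1 - ε) * lam := mul_nonneg (by linarith) hlam.le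
  have h5 : L ^ a ≤ ((1 + ε) * lam) ^ a := Real.rpow_le_rpow (h4.trans h2') h2 (by linarith)
  rw [Real.mul_rpow (by linarith) hlam.le] at h5
  have h6 : lam ^ a = lam ^ (a - 1) * lam := by
    rw [Real.rpow_sub_one hlam.ne', div_mul_cancel₀ _ hlam.ne']
  have h7 : 0 < lam ^ a := Real.rpow_pos_of_pos hlam a
  have h8 : (1 + ε) ^ a * lam ^ a ≤ 2 * (1 - ε) * lam ^ a :=
    mul_le_mul_of_nonneg_right h1 h7.le
  have h9 : (1 - ε) * lam * (2 * lam ^ (a - 1)) ≤ (1 - ε) * lam * C :=
    mul_le_mul_of_nonneg_left h h4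
  have h10 : 2 * (1 - ε) * lam ^ a = (1 - ε) * lam * (2 * lam ^ (a - 1)) := by
    rw [h6]; ring
  have h11 : (1 - ε) * lam * C = (1 - ε) * (lam * C) := by ring
  linarith

/-- Number of large gaps of `p` in a block, from the number of large entries of the pattern. -/
theorem block_cnt {g M r : ℕ → ℕ} (hM0 : ∀ j, 0 < M j) {p y : ℕ → ℝ} (hp : StrictMono p)
    (hp1 : 1 < p 0) (hy : StrictMono y) {lam : ℕ → ℝ} {c : ℕ → ℕ → ℝ}
    (hlam : Tendsto lam atTop atTop) (hc0 : ∀ j l, 0 < c j l)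
    (hgap : ∀ j l, l + 1 < M j → y (g j + l + 1) - y (g j + l) = c j ((r j + l) % M j))
    (hD : ∀ ε : ℝ, 0 < ε → ∀ᶠ j in atTop, ∀ l, l < M j + 1 →
      |p (g j + l + 1) - p (g j + l) - lam j * (y (g j + l + 1) - y (g j + l))| ≤
        ε * (lam j * (y (g j + l + 1) - y (g j + l))))
    (hL : ∀ ε : ℝ, 0 < ε → ∀ᶠ j in atTop, ∀ l, l < M j + 1 →
      |Real.log (p (g j + l)) - lam j| ≤ ε * lam j)
    {a : ℝ} (ha : 1 < a) :
    (∀ᶠ j in atTop,
      ((Finset.range (M j + 1)).filter fun l =>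
        Real.log (p (g j + l)) ^ a ≤ p (g j + l + 1) - p (g j + l)).card ≤
      ((Finset.range (M j)).filter fun l => lam j ^ (a - 1) / 2 ≤ c j l).card + 2) ∧
    ∀ᶠ j in atTop,
      ((Finset.range (M j)).filter fun l => 2 * lam j ^ (a - 1) ≤ c j l).card ≤
      ((Finset.range (M j + 1)).filter fun l =>
        Real.log (p (g j + l)) ^ a ≤ p (g j + l + 1) - p (g j + l)).card + 1 := by
  obtain ⟨ε, he0, he1, hea, heb⟩ := blockCnt_eps ha
  constructor
  · filter_upwards [hlam.eventually_gt_atTop 0, hD ε he0, hL ε he0] with j hj hDj hLj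
    have h1 : ((Finset.range (M j + 1)).filter fun l =>
        Real.log (p (g j + l)) ^ a ≤ p (g j + l + 1) - p (g j + l)) ⊆
        ((Finset.range (M j + 1)).filter fun l =>
        Real.log (p (g j + l)) ^ a ≤ p (g j + l + 1) - p (g j + l) ∧ l + 1 < M j) ∪
        {M j - 1, M j} := by
      intro l hl
      rw [Finset.mem_filter, Finset.mem_range] at hl
      rw [Finset.mem_union, Finset.mem_filter, Finset.mem_range, Finset.mem_insert,
        Finset.mem_singleton]
      by_cases h2 : l + 1 < M j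
      · exact Or.inl ⟨hl.1, hl.2, h2⟩
      · right
        omega
    have h2 : ((Finset.range (M j + 1)).filter fun l =>
        Real.log (p (g j + l)) ^ a ≤ p (g j + l + 1) - p (g j + l) ∧ l + 1 < M j).card ≤
        ((Finset.range (M j)).filter fun l => lam j ^ (a - 1) / 2 ≤ c j l).card := by
      refine Finset.card_le_card_of_injOn (fun l => (r j + l) % M j) ?_ ?_
      · intro l hl
        rw [Finset.mem_coe, Finset.mem_filter, Finset.mem_range] at hl
        rw [Finset.mem_coe, Finset.mem_filter, Finset.mem_range]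
        obtain ⟨h3, h4, h5⟩ := hl
        refine ⟨Nat.mod_lt _ (hM0 j), ?_⟩
        have h6 := hDj l h3
        rw [hgap j l h5] at h6
        exact blockCnt_up he1 hj ha hea he0 h6 (hLj l h3) h4
      · intro l hl l' hl' h3
        rw [Finset.mem_coe, Finset.mem_filter, Finset.mem_range] at hl hl'
        exact blockCnt_inj (by omega) (by omega) h3
    have h3 : ({M j - 1, M j} : Finset ℕ).card ≤ 2 := Finset.card_le_two
    have h4 := Finset.card_le_card h1
    have h5 := Finset.card_union_le ((Finset.range (M j + 1)).filter fun l =>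
        Real.log (p (g j + l)) ^ a ≤ p (g j + l + 1) - p (g j + l) ∧ l + 1 < M j)
        ({M j - 1, M j} : Finset ℕ)
    omega
  · filter_upwards [hlam.eventually_gt_atTop 0, hD ε he0, hL ε he0] with j hj hDj hLj
    have h1 : ((Finset.range (M j)).filter fun l => 2 * lam j ^ (a - 1) ≤ c j l) ⊆
        (((Finset.range (M j + 1)).filter fun l =>
        Real.log (p (g j + l)) ^ a ≤ p (g j + l + 1) - p (g j + l)).image
          fun l => (r j + l) % M j) ∪ {(r j + (M j - 1)) % M j} := by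
      intro m hm
      rw [Finset.mem_filter, Finset.mem_range] at hm
      rw [Finset.mem_union, Finset.mem_image, Finset.mem_singleton]
      obtain ⟨l, hl, hlm⟩ := blockCnt_surj (r := r j) hm.1
      by_cases h2 : l + 1 < M j
      · left
        refine ⟨l, ?_, hlm⟩
        rw [Finset.mem_filter, Finset.mem_range]
        have h3 : l < M j + 1 := by omega
        refine ⟨h3, ?_⟩
        have h6 := hDj l h3
        rw [hgap j l h2, hlm] at h6
        exact blockCnt_low he1 hj ha heb he0 h6 (hLj l h3) hm.2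
      · right
        have h3 : l = M j - 1 := by omega
        rw [← h3, hlm]
    have h4 := Finset.card_le_card h1
    have h5 := Finset.card_union_le (((Finset.range (M j + 1)).filter fun l =>
        Real.log (p (g j + l)) ^ a ≤ p (g j + l + 1) - p (g j + l)).image
          fun l => (r j + l) % M j) ({(r j + (M j - 1)) % M j} : Finset ℕ)
    have h6 : (((Finset.range (M j + 1)).filter fun l =>
        Real.log (p (g j + l)) ^ a ≤ p (g j + l + 1) - p (g j + l)).image
          fun l => (r j + l) % M j).card ≤ _ := Finset.card_image_le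
    rw [Finset.card_singleton] at h5
    omega

end Pool.Agent.H521.G
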