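import Pool.Agent.H521.G.PatFull

open MeasureTheory Set Filter Topology
open scoped ENNReal NNReal ComplexConjugate

namespace Pool.Agent.H521.G

theorem exists_RDens {Z : Multiset ℂ} (hZ : ∀ ρ ∈ Z, ρ.re < 1) :
    ∃ x₀ : ℝ, RDens (fZ Z) x₀ := by
  obtain ⟨x₀, h3, h1, h2, hl, h4⟩ := exists_x0 hZ
  exact ⟨x₀, dens_fZ h3 h1 h2 hl, h1, hl, h4⟩

theorem tendsto_fZ_log {Z : Multiset ℂ} (hZ : ∀ ρ ∈ Z, ρ.re < 1) :
    Tendsto (fun u => fZ Z u * Real.log u) atTop (𝓝 1) := by
  have h1 : Tendsto (fun u : ℝ => (1 - 1 / u) * (1 - osc Z u)) atTop (𝓝 ((1 - 0) * (1 - 0))) := by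
    apply Tendsto.mul
    · have : Tendsto (fun u : ℝ => 1 / u) atTop (𝓝 0) := by
        simpa using (tendsto_inv_atTop_zero (𝕜 := ℝ))
      exact this.const_sub 1
    · exact (tendsto_osc hZ).const_sub _
  have e : ((1 : ℝ) - 0) * (1 - 0) = 1 := by norm_num
  rw [e] at h1
  refine h1.congr' ?_
  filter_upwards [eventually_gt_atTop 1] with u hu
  have hlog : Real.log u ≠ 0 := (Real.log_pos hu).ne'
  unfold fZ Wf
  field_simp

/-- Transfer between gaps and increments of the template. -/
theorem transfer {Z : Multiset ℂ} (hZ : ∀ ρ ∈ Z, ρ.re < 1) {x₀ : ℝ} (hR : RDens (fZ Z) x₀)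
    {ε : ℝ} (hε : 0 < ε) :
    ∀ᶠ a in atTop, x₀ ≤ a ∧ ∀ b, a ≤ b → b ≤ 2 * a →
      |(Fp (fZ Z) x₀ b - Fp (fZ Z) x₀ a) * Real.log a - (b - a)| ≤ ε * (b - a) := by
  have h1 : ∀ᶠ u in atTop, |fZ Z u * Real.log u - 1| ≤ ε / 2 := by
    have := (tendsto_fZ_log hZ).eventually (Metric.closedBall_mem_nhds 1 (half_pos hε))
    filter_upwards [this] with u hu
    rwa [Real.dist_eq] at hu
  obtain ⟨X, hX⟩ := eventually_atTop.1 h1
  have h2 : ∀ᶠ a in atTop, 2 * Real.log 2 / ε ≤ Real.log a :=
    Real.tendsto_log_atTop.eventually_ge_atTop _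
  filter_upwards [eventually_ge_atTop X, eventually_ge_atTop x₀, h2] with a ha1 ha2 ha3
  refine ⟨ha2, fun b hab hb2 => ?_⟩
  have hx3 := hR.dens.hx₀
  have hla := hR.hlog a ha2
  rw [hR.F_sub ha2 hab]
  have hii := hR.dens.ii ha2 hab
  have e1 : (∫ u in a..b, fZ Z u) * Real.log a - (b - a) =
      ∫ u in a..b, (fZ Z u * Real.log a - 1) := by
    rw [intervalIntegral.integral_sub (hii.mul_const _) (intervalIntegrable_const),
      intervalIntegral.integral_mul_const, intervalIntegral.integral_const]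
    simp
  rw [e1]
  have h3 := intervalIntegral.norm_integral_le_of_norm_le_const (a := a) (b := b)
    (f := fun u => fZ Z u * Real.log a - 1) (C := ε) (by
      intro u hu
      rw [uIoc_of_le hab] at hu
      have hu0 : x₀ ≤ u := ha2.trans hu.1.le
      have hlu := hR.hlog u hu0
      have hmono : Real.log a ≤ Real.log u := Real.log_le_log (by linarith) hu.1.le
      have hup : Real.log u ≤ Real.log 2 + Real.log a := by
        rw [← Real.log_mul (by norm_num) (by linarith)]
        exact Real.log_le_log (by linarith) (hu.2.trans hb2)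
      have hf := hX u (ha1.trans hu.1.le)
      have hr : |Real.log a / Real.log u - 1| ≤ ε / 2 := by
        have : Real.log a / Real.log u - 1 = -((Real.log u - Real.log a) / Real.log u) := by
          field_simp
          ring
        rw [this, abs_neg, abs_of_nonneg (div_nonneg (by linarith) (by linarith))]
        rw [div_le_iff₀ (by linarith)]
        have h5 : Real.log 2 ≤ ε / 2 * Real.log a := by
          rw [div_le_iff₀ hε] at ha3
          linarith
        nlinarith
      have hle1 : |Real.log a / Real.log u| ≤ 1 := by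
        rw [abs_of_nonneg (div_nonneg (by linarith) (by linarith)), div_le_one (by linarith)]
        exact hmono
      have e2 : fZ Z u * Real.log a - 1 =
          (fZ Z u * Real.log u - 1) * (Real.log a / Real.log u) +
            (Real.log a / Real.log u - 1) := by
        field_simp
        ring
      rw [Real.norm_eq_abs, e2]
      refine (abs_add_le _ _).trans ?_
      rw [abs_mul]
      have := mul_le_mul hf hle1 (abs_nonneg _) (by positivity)
      linarith)
  rw [Real.norm_eq_abs, abs_of_nonneg (by linarith : 0 ≤ b - a)] at h3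
  exact h3

/-- The template counts the primes of any system. -/
theorem F_div_n {Z : Multiset ℂ} (hZ : ∀ ρ ∈ Z, ρ.re < 1) {x₀ : ℝ} (hR : RDens (fZ Z) x₀)
    {p : ℕ → ℝ} (hp : StrictMono p) (hpt : Tendsto p atTop atTop)
    (hpnt : ∀ ε : ℝ, 0 < ε → ∃ C : ℝ, ∀ x : ℝ, 2 ≤ x →
        |(countPr p x : ℝ) - mainTerm Z x| ≤ C * x ^ (1 / 2 + ε)) :
    Tendsto (fun n : ℕ => (n : ℝ) / Fp (fZ Z) x₀ (p n)) atTop (𝓝 1) := by
  obtain ⟨C, hC⟩ := hpnt (1 / 4) (by norm_num)
  have hx3 := hR.dens.hx₀
  have hdiff : ∀ x, x₀ ≤ x → |mainTerm Z x - Fp (fZ Z) x₀ x| ≤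
      |mainTerm Z x₀| + (1 + Multiset.card Z) * Real.log x := by
    intro x hx
    have h2 := abs_main_diff_le hZ hx3 hx
    have h3 : mainTerm Z x = mainTerm Z x₀ + ∫ u in x₀..x, (1 - osc Z u) / Real.log u := by
      unfold mainTerm
      exact (intervalIntegral.integral_add_adjacent_intervals
        (main_ii Z (by norm_num) (by linarith)) (main_ii Z (by linarith) hx)).symm
    rw [h3]
    have e1 : mainTerm Z x₀ + (∫ u in x₀..x, (1 - osc Z u) / Real.log u) - Fp (fZ Z) x₀ x =
      mainTerm Z x₀ + ((∫ u in x₀..x, (1 - osc Z u) / Real.log u) - ∫ u in x₀..x, fZ Z u) := by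
      unfold Fp; ring
    rw [e1]
    exact (abs_add_le _ _).trans (add_le_add_right h2 _)
  -- error / F → 0
  have hE : Tendsto (fun x : ℝ => (1 + |mainTerm Z x₀| + (1 + Multiset.card Z) * Real.log x +
      |C| * x ^ (3 / 4 : ℝ)) / Fp (fZ Z) x₀ x) atTop (𝓝 0) := by
    have hlow : ∀ᶠ x in atTop, x / (4 * Real.log x) ≤ Fp (fZ Z) x₀ x := by
      filter_upwards [eventually_ge_atTop (2 * x₀)] with x hx
      have h1 := hR.F_sub_ge le_rfl (by linarith : x₀ ≤ x)
      rw [hR.F_zero, sub_zero] at h1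
      refine le_trans ?_ h1
      have hl := hR.hlog x (by linarith)
      rw [div_le_div_iff₀ (by positivity) (by positivity)]
      nlinarith
    have hup : Tendsto (fun x : ℝ => (1 + |mainTerm Z x₀| + (1 + Multiset.card Z) * Real.log x +
        |C| * x ^ (3 / 4 : ℝ)) / (x / (4 * Real.log x))) atTop (𝓝 0) := by
      have a1 : Tendsto (fun x : ℝ => Real.log x / x ^ (1 / 8 : ℝ)) atTop (𝓝 0) :=
        (isLittleO_log_rpow_atTop (by norm_num)).tendsto_div_nhds_zero
      have a2 : Tendsto (fun x : ℝ => x ^ (-(1 / 8 : ℝ))) atTop (𝓝 0) :=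
        tendsto_rpow_neg_atTop (by norm_num)
      have a3 : Tendsto (fun x : ℝ => 4 * ((1 + |mainTerm Z x₀|) *
          ((Real.log x / x ^ (1 / 8 : ℝ)) * x ^ (-(1 / 8 : ℝ)) ) +
          (1 + Multiset.card Z) * ((Real.log x / x ^ (1 / 8 : ℝ)) * (Real.log x / x ^ (1 / 8 : ℝ))) +
          |C| * ((Real.log x / x ^ (1 / 8 : ℝ)) * x ^ (-(1 / 8 : ℝ))))) atTop
          (𝓝 (4 * ((1 + |mainTerm Z x₀|) * (0 * 0) + (1 + Multiset.card Z) * (0 * 0) +
            |C| * (0 * 0)))) :=
        (((a1.mul a2).const_mul _).add ((a1.mul a1).const_mul _)).add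
          ((a1.mul a2).const_mul _) |>.const_mul 4
      have e0 : (4 * ((1 + |mainTerm Z x₀|) * (0 * 0) + (1 + Multiset.card Z) * (0 * 0) +
            |C| * (0 * 0)) : ℝ) = 0 := by ring
      rw [e0] at a3
      apply squeeze_zero' _ _ a3
      · filter_upwards [eventually_gt_atTop 1] with x hx
        have : 0 < Real.log x := Real.log_pos hx
        positivity
      · filter_upwards [eventually_ge_atTop 3] with x hx
        have hx0 : 0 < x := by linarith
        have hl : 0 < Real.log x := Real.log_pos (by linarith)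
        have e1 : (1 + |mainTerm Z x₀| + (1 + Multiset.card Z) * Real.log x +
            |C| * x ^ (3 / 4 : ℝ)) / (x / (4 * Real.log x)) =
            4 * ((1 + |mainTerm Z x₀|) * (Real.log x * x ^ (-1 : ℝ)) +
            (1 + Multiset.card Z) * (Real.log x * Real.log x * x ^ (-1 : ℝ)) +
            |C| * (Real.log x * (x ^ (3 / 4 : ℝ) * x ^ (-1 : ℝ)))) := by
          rw [Real.rpow_neg_one]
          field_simp
        have e2 : x ^ (3 / 4 : ℝ) * x ^ (-1 : ℝ) = x ^ (-(1 / 8 : ℝ)) * x ^ (-(1 / 8 : ℝ)) := by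
          rw [← Real.rpow_add hx0, ← Real.rpow_add hx0]; norm_num
        have e3 : (Real.log x / x ^ (1 / 8 : ℝ)) = Real.log x * x ^ (-(1 / 8 : ℝ)) := by
          rw [Real.rpow_neg hx0.le]; rfl
        rw [e1, e2, e3]
        have h5 : x ^ (-1 : ℝ) ≤ x ^ (-(1 / 8 : ℝ)) * x ^ (-(1 / 8 : ℝ)) := by
          rw [← Real.rpow_add hx0]
          exact Real.rpow_le_rpow_of_exponent_le (by linarith) (by norm_num)
        have h6 : 0 ≤ x ^ (-(1 / 8 : ℝ)) := by positivity
        apply mul_le_mul_of_nonneg_left _ (by norm_num)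
        apply add_le_add (add_le_add _ _) _
        · apply mul_le_mul_of_nonneg_left _ (by positivity)
          calc Real.log x * x ^ (-1 : ℝ) ≤ Real.log x * (x ^ (-(1 / 8 : ℝ)) *
              x ^ (-(1 / 8 : ℝ))) := mul_le_mul_of_nonneg_left h5 hl.le
            _ = _ := by ring
        · apply mul_le_mul_of_nonneg_left _ (by positivity)
          calc Real.log x * Real.log x * x ^ (-1 : ℝ) ≤ Real.log x * Real.log x *
              (x ^ (-(1 / 8 : ℝ)) * x ^ (-(1 / 8 : ℝ))) :=
                mul_le_mul_of_nonneg_left h5 (by positivity)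
            _ = _ := by ring
        · apply le_of_eq; ring
    apply squeeze_zero' _ _ hup
    · filter_upwards [eventually_ge_atTop x₀] with x hx
      have h1 : 0 ≤ Fp (fZ Z) x₀ x := by
        have := hR.F_mono le_rfl hx
        rwa [hR.F_zero] at this
      have h2 : 0 ≤ Real.log x := by linarith [hR.hlog x hx]
      have h3 : 0 < x := by linarith
      positivity
    · filter_upwards [hlow, eventually_ge_atTop x₀] with x hx hx1
      have h2 : 0 < Real.log x := by linarith [hR.hlog x hx1]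
      have h3 : 0 < x := by linarith
      exact div_le_div_of_nonneg_left (by positivity) (by positivity) hx
  have hFpos : ∀ᶠ n in atTop, 0 < Fp (fZ Z) x₀ (p n) := by
    filter_upwards [hpt.eventually_gt_atTop x₀] with n hn
    have := hR.F_strict le_rfl hn
    rwa [hR.F_zero] at this
  have h1 : Tendsto (fun n : ℕ => (n : ℝ) / Fp (fZ Z) x₀ (p n) - 1) atTop (𝓝 0) := by
    apply squeeze_zero_norm' _ (hE.comp hpt)
    filter_upwards [hFpos, hpt.eventually_ge_atTop x₀] with n hn hn2
    have hc := countPr_eq hp (n := n) (x := p n) le_rfl (hp (Nat.lt_succ_self n))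
    have h2 := hC (p n) (by linarith)
    have h3 := hdiff (p n) hn2
    rw [hc] at h2
    have e1 : (n : ℝ) / Fp (fZ Z) x₀ (p n) - 1 =
        ((n : ℝ) - Fp (fZ Z) x₀ (p n)) / Fp (fZ Z) x₀ (p n) := by
      field_simp
    rw [e1, Real.norm_eq_abs, abs_div, abs_of_pos hn]
    apply div_le_div_of_nonneg_right _ hn.le
    have e2 : (n : ℝ) - Fp (fZ Z) x₀ (p n) = ((n + 1 : ℕ) - mainTerm Z (p n)) +
        (mainTerm Z (p n) - Fp (fZ Z) x₀ (p n)) - 1 := by push_cast; ring
    rw [e2]
    have h4 := abs_sub (((n + 1 : ℕ) - mainTerm Z (p n)) +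
        (mainTerm Z (p n) - Fp (fZ Z) x₀ (p n))) 1
    have h5 := abs_add_le (((n + 1 : ℕ) : ℝ) - mainTerm Z (p n))
        (mainTerm Z (p n) - Fp (fZ Z) x₀ (p n))
    rw [abs_one] at h4
    have h6 : C * p n ^ (1 / 2 + 1 / 4 : ℝ) ≤ |C| * p n ^ (3 / 4 : ℝ) := by
      have : (1 / 2 + 1 / 4 : ℝ) = 3 / 4 := by norm_num
      rw [this]
      exact mul_le_mul_of_nonneg_right (le_abs_self C) (Real.rpow_nonneg (by linarith) _)
    linarith
  have := h1.add_const 1
  simpa using this

end Pool.Agent.H521.G
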