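import Pool.Agent.H521.G.IntCell
import Pool.Agent.H521.G.Transfer

open MeasureTheory Set Filter Topology
open scoped ENNReal NNReal ComplexConjugate Classical

namespace Pool.Agent.H521.G

/-- From counting to summation. -/
theorem summable_of_count {c φ : ℕ → ℝ} (hc : ∀ n, 0 ≤ c n) (hφ : ∀ n, 1 ≤ φ n)
    (hcount : ∀ ε : ℝ, 0 < ε → ∃ C : ℝ, ∀ x : ℝ, 1 ≤ x → ∀ B : Finset ℕ,
      (∀ n ∈ B, φ n ≤ x) → ∑ n ∈ B, c n ≤ C * x ^ (1 / 2 + ε)) {σ : ℝ} (hσ : 1 / 2 < σ) :
    Summable fun n => c n * φ n ^ (-σ) := by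
  set ε : ℝ := (σ - 1 / 2) / 2 with hε
  have hε0 : 0 < ε := by rw [hε]; linarith
  obtain ⟨C, hC⟩ := hcount ε hε0
  have hC0 : 0 ≤ C := by
    have := hC 1 le_rfl ∅ (by simp)
    simpa using this
  set q : ℝ := (2 : ℝ) ^ (-ε) with hq
  have hq0 : 0 < q := by positivity
  have hq1 : q < 1 := Real.rpow_lt_one_of_one_lt_of_neg one_lt_two (by linarith)
  set κ : ℕ → ℕ := fun n => ⌊Real.logb 2 (φ n)⌋₊ with hκ
  have hφ0 : ∀ n, 0 < φ n := fun n => by linarith [hφ n]
  have hlog0 : ∀ n, 0 ≤ Real.logb 2 (φ n) := fun n => Real.logb_nonneg one_lt_two (hφ n)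
  have hκ1 : ∀ n, (2 : ℝ) ^ (κ n : ℝ) ≤ φ n := by
    intro n
    rw [← Real.le_logb_iff_rpow_le one_lt_two (hφ0 n)]
    exact Nat.floor_le (hlog0 n)
  have hκ2 : ∀ n, φ n ≤ (2 : ℝ) ^ ((κ n : ℝ) + 1) := by
    intro n
    rw [← Real.logb_le_iff_le_rpow one_lt_two (hφ0 n)]
    exact (Nat.lt_floor_add_one _).le
  refine summable_of_sum_range_le (c := C * 2 ^ (1 / 2 + ε) * (1 - q)⁻¹) (fun n =>
    mul_nonneg (hc n) (Real.rpow_nonneg (hφ0 n).le _)) (fun N => ?_)
  set K : ℕ := (Finset.range N).sup κ with hK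
  have hmaps : ∀ n ∈ Finset.range N, κ n ∈ Finset.range (K + 1) := fun n hn =>
    Finset.mem_range.2 (Nat.lt_succ_of_le (Finset.le_sup hn))
  rw [← Finset.sum_fiberwise_of_maps_to hmaps]
  have hinner : ∀ k ∈ Finset.range (K + 1), ∑ n ∈ (Finset.range N).filter (fun n => κ n = k),
      c n * φ n ^ (-σ) ≤ C * 2 ^ (1 / 2 + ε) * q ^ k := by
    intro k _
    have h1 : ∀ n ∈ (Finset.range N).filter (fun n => κ n = k),
        c n * φ n ^ (-σ) ≤ c n * ((2 : ℝ) ^ (k : ℝ)) ^ (-σ) := by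
      intro n hn
      rw [Finset.mem_filter] at hn
      apply mul_le_mul_of_nonneg_left _ (hc n)
      apply Real.rpow_le_rpow_of_nonpos (by positivity) _ (by linarith)
      rw [← hn.2]
      exact hκ1 n
    refine (Finset.sum_le_sum h1).trans ?_
    rw [← Finset.sum_mul]
    have h2 := hC ((2 : ℝ) ^ ((k : ℝ) + 1)) (Real.one_le_rpow one_le_two (by positivity))
      ((Finset.range N).filter (fun n => κ n = k)) (fun n hn => by
        rw [Finset.mem_filter] at hn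
        rw [← hn.2]
        exact hκ2 n)
    have h3 : 0 ≤ ((2 : ℝ) ^ (k : ℝ)) ^ (-σ) := by positivity
    refine (mul_le_mul_of_nonneg_right h2 h3).trans (le_of_eq ?_)
    rw [hq, ← Real.rpow_natCast ((2 : ℝ) ^ (-ε)) k, ← Real.rpow_mul two_pos.le,
      ← Real.rpow_mul two_pos.le, ← Real.rpow_mul two_pos.le, mul_assoc, mul_assoc,
      ← Real.rpow_add two_pos, ← Real.rpow_add two_pos]
    congr 2
    rw [hε]
    ring
  refine (Finset.sum_le_sum hinner).trans ?_
  rw [← Finset.mul_sum]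
  apply mul_le_mul_of_nonneg_left _ (by positivity)
  have := (summable_geometric_of_lt_one hq0.le hq1).sum_le_tsum (Finset.range (K + 1))
    (fun k _ => by positivity)
  rwa [tsum_geometric_of_lt_one hq0.le hq1] at this

/-- **Systems with blocked intervals and prescribed primes.** -/
theorem blocked {Z : Multiset ℂ} (hZ : ∀ ρ ∈ Z, ρ.re < 1) (hZc : Z.map conj = Z)
    {Q : Set (ℝ × ℝ)} {P : Set ℝ} (h1 : ∀ q ∈ Q, q.1 ≤ q.2)
    (h3 : ∀ ε : ℝ, 0 < ε → ∃ C : ℝ, ∀ x : ℝ, 1 ≤ x → ∀ Q' : Finset (ℝ × ℝ),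
      (∀ q ∈ Q', q ∈ Q ∧ q.1 ≤ x) → ∑ q ∈ Q', (q.2 - q.1 + 1) ≤ C * x ^ (1 / 2 + ε))
    (h4 : ∀ ε : ℝ, 0 < ε → ∃ C : ℝ, ∀ x : ℝ, 1 ≤ x → ∀ P' : Finset ℝ,
      (∀ u ∈ P', u ∈ P ∧ u ≤ x) → (P'.card : ℝ) ≤ C * x ^ (1 / 2 + ε)) :
    ∃ x₁ : ℝ, ∃ p : ℕ → ℝ, Sys Z p ∧
      (∀ x, (∃ q ∈ Q, x₁ ≤ q.1 ∧ q.1 ≤ x ∧ x ≤ q.2) → ((∃ k, p k = x) ↔ x ∈ P)) ∧
      ∀ x y, x₁ ≤ x → x ≤ y → x + 4 * Real.log y ≤ y → (∀ q ∈ Q, q.2 < x ∨ y < q.1) →
        ∃ k, x ≤ p k ∧ p k ≤ y := by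
  obtain ⟨x₀, hR⟩ := exists_RDens hZ
  have hx3 := hR.dens.hx₀
  obtain ⟨x₁, hx01, hF1⟩ := hR.F_large 1
  set F := Fp (fZ Z) x₀ with hF
  set φ := phi (fZ Z) x₀ with hφ
  -- the bad cells
  set Bad : ℕ → Prop := fun n => ∃ q ∈ Q, x₁ ≤ q.1 ∧ F q.1 < n + 1 ∧ (n : ℝ) ≤ F q.2 with hBad
  have hφstep : ∀ n : ℕ, φ ((n : ℝ) + 1) ≤ 5 * φ n := by
    intro n
    have a1 := hR.phi_cell (Nat.cast_nonneg n)
    have a2 := hR.hlog4 _ (hR.phi_ge (n : ℝ))
    have a3 := hR.phi_one_le (n : ℝ)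
    rw [hφ]
    linarith
  have hφ1 : ∀ n : ℕ, 1 ≤ φ n := fun n => hR.phi_one_le _
  -- the prescribed points in a cell
  have hbadP : ∀ n : ℕ, ∀ u, u ∈ P → x₁ ≤ u → F u < n + 1 → u ≤ 5 * φ n := by
    intro n u _ hu hFu
    have a1 : u ≤ φ ((n : ℝ) + 1) := by
      by_contra hc
      push Not at hc
      have a2 := hR.F_strict (hR.phi_ge _) hc
      rw [hR.F_phi (by positivity)] at a2
      linarith
    exact a1.trans (hφstep n)
  set PC : ℕ → Set ℝ := fun n => {u | u ∈ P ∧ (∃ q ∈ Q, x₁ ≤ q.1 ∧ q.1 ≤ u ∧ u ≤ q.2) ∧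
    (n : ℝ) ≤ F u ∧ F u < n + 1} with hPC
  have hPCx : ∀ n u, u ∈ PC n → x₁ ≤ u := by
    intro n u hu
    obtain ⟨-, ⟨q, -, b1, b2, -⟩, -⟩ := hu
    exact b1.trans b2
  have hfin : ∀ n, (PC n).Finite := by
    intro n
    obtain ⟨C, hC⟩ := h4 1 one_pos
    by_contra hinf
    have hinf' : (PC n).Infinite := hinf
    obtain ⟨m, hm⟩ := exists_nat_gt (C * (5 * φ n) ^ (1 / 2 + 1 : ℝ))
    obtain ⟨P', hP', hcard⟩ := hinf'.exists_subset_card_eq m
    have := hC (5 * φ n) (by linarith [hφ1 n]) P' (fun u hu => by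
      have h5 := hP' hu
      exact ⟨h5.1, hbadP n u h5.1 (hPCx n u h5) h5.2.2.2⟩)
    rw [hcard] at this
    linarith
  set T : ℕ → Finset ℝ := fun n => ((hfin n).toFinset).image F with hT
  have hPCbad : ∀ n u, u ∈ PC n → Bad n := by
    intro n u hu
    obtain ⟨c1, ⟨q, b0, b1, b2, b3⟩, b4, b5⟩ := hu
    refine ⟨q, b0, b1, lt_of_le_of_lt (hR.F_mono (hx01.trans b1) b2) b5, b4.trans
      (hR.F_mono (hx01.trans (b1.trans b2)) b3)⟩
  -- the counting
  have hcount : ∀ ε : ℝ, 0 < ε → ∃ C : ℝ, ∀ x : ℝ, 1 ≤ x → ∀ B : Finset ℕ,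
      (∀ n ∈ B, φ n ≤ x) → ∑ n ∈ B, (if Bad n then (1 : ℝ) + (T n).card else 0) ≤
        C * x ^ (1 / 2 + ε) := by
    intro ε hε
    obtain ⟨C3, hC3⟩ := h3 ε hε
    obtain ⟨C4, hC4⟩ := h4 ε hε
    refine ⟨(2 * C3 + C4) * 5 ^ (1 / 2 + ε), fun x hx B hB => ?_⟩
    set B' := B.filter Bad with hB'
    have e1 : ∑ n ∈ B, (if Bad n then (1 : ℝ) + (T n).card else 0) =
        ∑ n ∈ B', ((1 : ℝ) + (T n).card) := by
      rw [hB', Finset.sum_filter]
    rw [e1, Finset.sum_add_distrib, Finset.sum_const, nsmul_eq_mul, mul_one]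
    have h5x : 1 ≤ 5 * x := by linarith
    have e5 : (5 * x) ^ (1 / 2 + ε) = 5 ^ (1 / 2 + ε) * x ^ (1 / 2 + ε) :=
      Real.mul_rpow (by norm_num) (by linarith)
    have hchoice : ∀ n ∈ B', ∃ q : ℝ × ℝ, q ∈ Q ∧ x₁ ≤ q.1 ∧ F q.1 < n + 1 ∧ (n : ℝ) ≤ F q.2 := by
      intro n hn
      rw [hB', Finset.mem_filter] at hn
      obtain ⟨q, a, b, c, d⟩ := hn.2
      exact ⟨q, a, b, c, d⟩
    choose! qf hq1 hq2 hq3 hq4 using hchoice
    have hqx : ∀ n ∈ B', (qf n).1 ≤ 5 * x := by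
      intro n hn
      have a1 : (qf n).1 ≤ φ ((n : ℝ) + 1) := by
        by_contra hc
        push Not at hc
        have a2 := hR.F_strict (hR.phi_ge _) hc
        rw [hR.F_phi (by positivity)] at a2
        have := hq3 n hn
        linarith
      have a2 := hφstep n
      have a3 := hB n (Finset.mem_filter.1 hn).1
      linarith
    have hcard1 : (B'.card : ℝ) ≤ 2 * (C3 * (5 * x) ^ (1 / 2 + ε)) := by
      have b1 : B'.card = ∑ q ∈ B'.image qf, (B'.filter fun n => qf n = q).card :=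
        Finset.card_eq_sum_card_image qf B'
      have b2 : ∀ q ∈ B'.image qf, ((B'.filter fun n => qf n = q).card : ℝ) ≤
          2 * (q.2 - q.1 + 1) := by
        intro q hq
        obtain ⟨n0, hn0, rfl⟩ := Finset.mem_image.1 hq
        have c1 := hx01.trans (hq2 n0 hn0)
        have c2 := h1 _ (hq1 n0 hn0)
        have c3 := hR.F_sub_le c1 c2
        have c4 := hR.F_mono le_rfl c1
        rw [hR.F_zero] at c4
        have c6 := hR.F_mono c1 c2
        -- all n in the fibre lie in an interval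
        have c5 : (B'.filter fun n => qf n = qf n0) ⊆
            Finset.Icc ⌊F (qf n0).1⌋₊ ⌊F (qf n0).2⌋₊ := by
          intro n hn
          rw [Finset.mem_filter] at hn
          have d1 := hq3 n hn.1
          have d2 := hq4 n hn.1
          rw [hn.2] at d1 d2
          rw [Finset.mem_Icc]
          constructor
          · have : (⌊F (qf n0).1⌋₊ : ℝ) < n + 1 := lt_of_le_of_lt (Nat.floor_le c4) d1
            have : ⌊F (qf n0).1⌋₊ < n + 1 := by exact_mod_cast this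
            omega
          · exact Nat.le_floor d2
        have c7 := Finset.card_le_card c5
        rw [Nat.card_Icc] at c7
        have c8 : ((B'.filter fun n => qf n = qf n0).card : ℝ) ≤
            (⌊F (qf n0).2⌋₊ : ℝ) + 1 - ⌊F (qf n0).1⌋₊ := by
          have c9 : ⌊F (qf n0).1⌋₊ ≤ ⌊F (qf n0).2⌋₊ + 1 :=
            (Nat.floor_le_floor c6).trans (Nat.le_succ _)
          have c10 : (((⌊F (qf n0).2⌋₊ + 1 - ⌊F (qf n0).1⌋₊ : ℕ)) : ℝ) =
              (⌊F (qf n0).2⌋₊ : ℝ) + 1 - ⌊F (qf n0).1⌋₊ := by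
            rw [Nat.cast_sub c9]
            push_cast
            ring
          rw [← c10]
          exact_mod_cast c7
        have c9 := Nat.floor_le (c4.trans c6)
        have c10 := Nat.lt_floor_add_one (F (qf n0).1)
        linarith
      rw [b1]
      push_cast
      refine (Finset.sum_le_sum b2).trans ?_
      rw [← Finset.mul_sum]
      apply mul_le_mul_of_nonneg_left _ (by norm_num)
      apply hC3 (5 * x) h5x
      intro q hq
      obtain ⟨n, hn, rfl⟩ := Finset.mem_image.1 hq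
      exact ⟨hq1 n hn, hqx n hn⟩
    have hcard2 : ∑ n ∈ B', ((T n).card : ℝ) ≤ C4 * (5 * x) ^ (1 / 2 + ε) := by
      have b1 : ∀ n ∈ B', ((T n).card : ℝ) ≤ ((hfin n).toFinset).card := fun n _ => by
        exact_mod_cast Finset.card_image_le
      refine (Finset.sum_le_sum b1).trans ?_
      have hdis : Set.PairwiseDisjoint (B' : Set ℕ) fun n => (hfin n).toFinset := by
        intro n _ m _ hnm
        rw [Function.onFun, Finset.disjoint_left]
        intro u hu hv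
        rw [Set.Finite.mem_toFinset] at hu hv
        obtain ⟨-, -, u1, u2⟩ := hu
        obtain ⟨-, -, v1, v2⟩ := hv
        apply hnm
        have w1 : (n : ℝ) < m + 1 := by linarith
        have w2 : (m : ℝ) < n + 1 := by linarith
        have w3 : n < m + 1 := by exact_mod_cast w1
        have w4 : m < n + 1 := by exact_mod_cast w2
        omega
      have b2 : ∑ n ∈ B', (((hfin n).toFinset).card : ℝ) =
          ((B'.biUnion fun n => (hfin n).toFinset).card : ℝ) := by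
        rw [Finset.card_biUnion hdis]
        push_cast
        rfl
      rw [b2]
      apply hC4 (5 * x) h5x
      intro u hu
      obtain ⟨n, hn, hu⟩ := Finset.mem_biUnion.1 hu
      rw [Set.Finite.mem_toFinset] at hu
      refine ⟨hu.1, ?_⟩
      have a1 := hbadP n u hu.1 (hPCx n u hu) hu.2.2.2
      have a3 := hB n (Finset.mem_filter.1 hn).1
      linarith
    rw [e5] at hcard1 hcard2
    calc _ ≤ 2 * (C3 * (5 ^ (1 / 2 + ε) * x ^ (1 / 2 + ε))) +
          C4 * (5 ^ (1 / 2 + ε) * x ^ (1 / 2 + ε)) := add_le_add hcard1 hcard2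
      _ = _ := by ring
  have hcnn : ∀ n, 0 ≤ (if Bad n then (1 : ℝ) + (T n).card else 0) := by
    intro n
    split_ifs <;> positivity
  let I : IC (fZ Z) x₀ :=
    { Bad := Bad
      T := T
      h0 := by
        rintro ⟨q, -, b1, b2, -⟩
        have := hR.F_mono hx01 b1
        simp only [CharP.cast_eq_zero, zero_add] at b2
        linarith
      hT := by
        intro n t ht
        rw [hT] at ht
        simp only at ht
        obtain ⟨u, hu, rfl⟩ := Finset.mem_image.1 ht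
        rw [Set.Finite.mem_toFinset] at hu
        exact ⟨hPCbad n u hu, hu.2.2.1, hu.2.2.2⟩
      hS := fun σ hσ => summable_of_count hcnn hφ1 hcount hσ }
  obtain ⟨y, hym, hy0, hyt, hsys, hgood, hbad⟩ := I.system hR hZ hZc rfl
  refine ⟨x₁, fun k => φ (y k), hsys, ?_, ?_⟩
  · rintro x ⟨q, hq, b1, b2, b3⟩
    have hx0 : x₀ ≤ x := hx01.trans (b1.trans b2)
    have hFx : 0 ≤ F x := by
      have := hR.F_mono le_rfl hx0
      rwa [hR.F_zero] at this
    set n := ⌊F x⌋₊ with hn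
    have c1 : (n : ℝ) ≤ F x := Nat.floor_le hFx
    have c2 : F x < n + 1 := Nat.lt_floor_add_one _
    have hB : Bad n := ⟨q, hq, b1, lt_of_le_of_lt (hR.F_mono (hx01.trans b1) b2) c2,
      c1.trans (hR.F_mono hx0 b3)⟩
    have key := hbad n hB (F x) c1 c2
    constructor
    · rintro ⟨k, hk⟩
      have hyk : y k = F x := by
        rw [← hk, hF, hR.F_phi (hy0 k)]
      have := key.1 ⟨k, hyk⟩
      have h5 : F x ∈ T n := this
      rw [hT] at h5
      simp only at h5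
      obtain ⟨u, hu, hux⟩ := Finset.mem_image.1 h5
      rw [Set.Finite.mem_toFinset] at hu
      have := hR.F_inj (hx01.trans (hPCx n u hu)) hx0 hux
      rw [← this]
      exact hu.1
    · intro hxP
      have h5 : F x ∈ T n := by
        rw [hT]
        simp only
        apply Finset.mem_image_of_mem
        rw [Set.Finite.mem_toFinset]
        exact ⟨hxP, ⟨q, hq, b1, b2, b3⟩, c1, c2⟩
      obtain ⟨k, hk⟩ := key.2 h5
      refine ⟨k, ?_⟩
      simp only
      rw [hk, hφ, hF, hR.phi_F hx0]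
  · intro x z hx hxz' hxz hq
    have hx0 : x₀ ≤ x := hx01.trans hx
    have hFx : 0 ≤ F x := by
      have := hR.F_mono le_rfl hx0
      rwa [hR.F_zero] at this
    have hlz := hR.hlog z (hx0.trans hxz')
    have hFz : F x + 2 ≤ F z := by
      have b1 := hR.F_sub_ge hx0 hxz'
      have b2 : (2 : ℝ) ≤ (z - x) / (2 * Real.log z) := by
        rw [le_div_iff₀ (by positivity)]
        linarith
      linarith
    set n := ⌈F x⌉₊ with hn
    have c1 : F x ≤ n := Nat.le_ceil _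
    have c2 : (n : ℝ) < F x + 1 := Nat.ceil_lt_add_one hFx
    have hgd : ¬ Bad n := by
      rintro ⟨q, hq1, hq2, hq3, hq4⟩
      rcases hq q hq1 with h5 | h5
      · have h6 := hR.F_strict (hx01.trans (hq2.trans (h1 q hq1))) h5
        linarith
      · have h6 := hR.F_strict (hx0.trans hxz') h5
        linarith
    obtain ⟨k, ⟨hk1, hk2⟩, -⟩ := hgood n hgd
    refine ⟨k, ?_, ?_⟩
    · have := hR.phi_mono (c1.trans hk1)
      rw [hF, hR.phi_F hx0] at this
      exact this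
    · have := hR.phi_mono (by linarith : y k ≤ F z)
      rw [hF, hR.phi_F (hx0.trans hxz')] at this
      exact this

end Pool.Agent.H521.G
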