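import Pool.Agent.H521.G.Blocked

open MeasureTheory Set Filter Topology
open scoped ENNReal NNReal ComplexConjugate Classical

namespace Pool.Agent.H521.G

/-- Counting in an interval from the cells. -/
theorem count_cells {Y : ℕ → ℝ} (hY : Tendsto Y atTop atTop) {u v : ℝ} (hu : 0 ≤ u) (huv : u ≤ v)
    (h1 : ∀ n : ℕ, u < n → (n : ℝ) + 1 ≤ v → ∃ k, (n : ℝ) ≤ Y k ∧ Y k < n + 1)
    (h2 : ∀ k k', u < Y k → Y k < v → u < Y k' → Y k' < v → ⌊Y k⌋₊ = ⌊Y k'⌋₊ → k = k') :
    |((Set.ncard {k | u < Y k ∧ Y k < v} : ℕ) : ℝ) - (v - u)| ≤ 2 := by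
  have hv : 0 ≤ v := hu.trans huv
  set A : Set ℕ := {k | u < Y k ∧ Y k < v} with hA
  have hfin : A.Finite := by
    obtain ⟨N, hN⟩ := eventually_atTop.1 (hY.eventually_ge_atTop v)
    apply (Set.finite_Iio N).subset
    intro j hj
    simp only [mem_Iio]
    by_contra hc
    push Not at hc
    have := hN j hc
    have := hj.2
    linarith
  have hfu := Nat.floor_le hu
  have hfu' := Nat.lt_floor_add_one u
  have hfv := Nat.floor_le hv
  have hfv' := Nat.lt_floor_add_one v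
  have hfuv : ⌊u⌋₊ ≤ ⌊v⌋₊ := Nat.floor_le_floor huv
  rw [Set.ncard_eq_toFinset_card _ hfin]
  have hup : hfin.toFinset.card ≤ ⌊v⌋₊ + 1 - ⌊u⌋₊ := by
    rw [← Nat.card_Icc]
    apply Finset.card_le_card_of_injOn (fun k => ⌊Y k⌋₊)
    · intro k hk
      have hk' := (Set.Finite.mem_toFinset hfin).1 hk
      simp only [Finset.coe_Icc, mem_Icc]
      exact ⟨Nat.floor_le_floor hk'.1.le, Nat.floor_le_floor hk'.2.le⟩
    · intro k hk k' hk' hkk
      have a := (Set.Finite.mem_toFinset hfin).1 hk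
      have b := (Set.Finite.mem_toFinset hfin).1 hk'
      exact h2 k k' a.1 a.2 b.1 b.2 hkk
  have hlow : ⌊v⌋₊ - (⌊u⌋₊ + 1) ≤ hfin.toFinset.card := by
    have hch : ∀ n ∈ Finset.Ico (⌊u⌋₊ + 1) ⌊v⌋₊, ∃ k, (n : ℝ) ≤ Y k ∧ Y k < n + 1 := by
      intro n hn
      rw [Finset.mem_Ico] at hn
      apply h1
      · exact (Nat.floor_lt hu).1 (by omega)
      · have : n + 1 ≤ ⌊v⌋₊ := by omega
        have h3 : ((n + 1 : ℕ) : ℝ) ≤ ⌊v⌋₊ := by exact_mod_cast this
        push_cast at h3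
        linarith
    choose! kf hk1 hk2 using hch
    rw [← Nat.card_Ico]
    apply Finset.card_le_card_of_injOn kf
    · intro n hn
      have hn' := Finset.mem_Ico.1 hn
      simp only [Set.Finite.coe_toFinset, hA, mem_ofPred_eq]
      have h3 : u < n := (Nat.floor_lt hu).1 (by omega)
      have h4 : ((n + 1 : ℕ) : ℝ) ≤ ⌊v⌋₊ := by exact_mod_cast (by omega : n + 1 ≤ ⌊v⌋₊)
      push_cast at h4
      exact ⟨by linarith [hk1 n hn], by linarith [hk2 n hn]⟩
    · intro n hn m hm hnm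
      have a1 := hk1 n hn
      have a2 := hk2 n hn
      have b1 := hk1 m hm
      have b2 := hk2 m hm
      rw [hnm] at a1 a2
      have c1 : (n : ℝ) < m + 1 := by linarith
      have c2 : (m : ℝ) < n + 1 := by linarith
      have c3 : n < m + 1 := by exact_mod_cast c1
      have c4 : m < n + 1 := by exact_mod_cast c2
      omega
  have hup' : (hfin.toFinset.card : ℝ) ≤ ⌊v⌋₊ + 1 - ⌊u⌋₊ := by
    have h3 : hfin.toFinset.card + ⌊u⌋₊ ≤ ⌊v⌋₊ + 1 := by omega
    have h4 : ((hfin.toFinset.card + ⌊u⌋₊ : ℕ) : ℝ) ≤ ((⌊v⌋₊ + 1 : ℕ) : ℝ) := by exact_mod_cast h3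
    push_cast at h4
    linarith
  have hlow' : (⌊v⌋₊ : ℝ) - ⌊u⌋₊ - 1 ≤ hfin.toFinset.card := by
    have h3 : ⌊v⌋₊ ≤ hfin.toFinset.card + (⌊u⌋₊ + 1) := by omega
    have h4 : ((⌊v⌋₊ : ℕ) : ℝ) ≤ ((hfin.toFinset.card + (⌊u⌋₊ + 1) : ℕ) : ℝ) := by
      exact_mod_cast h3
    push_cast at h4
    linarith
  rw [abs_le]
  constructor <;> linarith

/-- **Systems with blocked intervals and prescribed primes**, with counting. -/
theorem blocked_count {Z : Multiset ℂ} (hZ : ∀ ρ ∈ Z, ρ.re < 1) (hZc : Z.map conj = Z)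
    {x₀ : ℝ} (hR : RDens (fZ Z) x₀)
    {Q : Set (ℝ × ℝ)} {P : Set ℝ} (h1 : ∀ q ∈ Q, q.1 ≤ q.2)
    (h3 : ∀ ε : ℝ, 0 < ε → ∃ C : ℝ, ∀ x : ℝ, 1 ≤ x → ∀ Q' : Finset (ℝ × ℝ),
      (∀ q ∈ Q', q ∈ Q ∧ q.1 ≤ x) → ∑ q ∈ Q', (q.2 - q.1 + 1) ≤ C * x ^ (1 / 2 + ε))
    (h4 : ∀ ε : ℝ, 0 < ε → ∃ C : ℝ, ∀ x : ℝ, 1 ≤ x → ∀ P' : Finset ℝ,
      (∀ u ∈ P', u ∈ P ∧ u ≤ x) → (P'.card : ℝ) ≤ C * x ^ (1 / 2 + ε)) :
    ∃ x₁ : ℝ, ∃ p : ℕ → ℝ, Sys Z p ∧
      (∀ x, (∃ q ∈ Q, x₁ ≤ q.1 ∧ q.1 ≤ x ∧ x ≤ q.2) → ((∃ k, p k = x) ↔ x ∈ P)) ∧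
      ∀ x y, x₁ ≤ x → x ≤ y → (∀ q ∈ Q, q.2 ≤ x ∨ y ≤ q.1) →
        |((Set.ncard {k | x < p k ∧ p k < y} : ℕ) : ℝ) - (Fp (fZ Z) x₀ y - Fp (fZ Z) x₀ x)| ≤ 2 := by
  have hx3 := hR.dens.hx₀
  obtain ⟨x₁, hx01, hF1⟩ := hR.F_large 1
  set F := Fp (fZ Z) x₀ with hF
  set φ := phi (fZ Z) x₀ with hφ
  -- the bad cells
  set Bad : ℕ → Prop := fun n => ∃ q ∈ Q, x₁ ≤ q.1 ∧ F q.1 < n + 1 ∧ (n : ℝ) ≤ F q.2 with hBad
  have hφstep : ∀ n : ℕ, φ ((n : ℝ) + 1) ≤ 5 * φ n := by
    intro n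
    have a1 := hR.phi_cell (Nat.cast_nonneg n)
    have a2 := hR.hlog4 _ (hR.phi_ge (n : ℝ))
    have a3 := hR.phi_one_le (n : ℝ)
    rw [hφ]
    linarith
  have hφ1 : ∀ n : ℕ, 1 ≤ φ n := fun n => hR.phi_one_le _
  -- the prescribed points in a cell
  have hbadP : ∀ n : ℕ, ∀ u, u ∈ P → x₁ ≤ u → F u < n + 1 → u ≤ 5 * φ n := by
    intro n u _ hu hFu
    have a1 : u ≤ φ ((n : ℝ) + 1) := by
      by_contra hc
      push Not at hc
      have a2 := hR.F_strict (hR.phi_ge _) hc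
      rw [hR.F_phi (by positivity)] at a2
      linarith
    exact a1.trans (hφstep n)
  set PC : ℕ → Set ℝ := fun n => {u | u ∈ P ∧ (∃ q ∈ Q, x₁ ≤ q.1 ∧ q.1 ≤ u ∧ u ≤ q.2) ∧
    (n : ℝ) ≤ F u ∧ F u < n + 1} with hPC
  have hPCx : ∀ n u, u ∈ PC n → x₁ ≤ u := by
    intro n u hu
    obtain ⟨-, ⟨q, -, b1, b2, -⟩, -⟩ := hu
    exact b1.trans b2
  have hfin : ∀ n, (PC n).Finite := by
    intro n
    obtain ⟨C, hC⟩ := h4 1 one_pos
    by_contra hinf
    have hinf' : (PC n).Infinite := hinf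
    obtain ⟨m, hm⟩ := exists_nat_gt (C * (5 * φ n) ^ (1 / 2 + 1 : ℝ))
    obtain ⟨P', hP', hcard⟩ := hinf'.exists_subset_card_eq m
    have := hC (5 * φ n) (by linarith [hφ1 n]) P' (fun u hu => by
      have h5 := hP' hu
      exact ⟨h5.1, hbadP n u h5.1 (hPCx n u h5) h5.2.2.2⟩)
    rw [hcard] at this
    linarith
  set T : ℕ → Finset ℝ := fun n => ((hfin n).toFinset).image F with hT
  have hPCbad : ∀ n u, u ∈ PC n → Bad n := by
    intro n u hu
    obtain ⟨c1, ⟨q, b0, b1, b2, b3⟩, b4, b5⟩ := hu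
    refine ⟨q, b0, b1, lt_of_le_of_lt (hR.F_mono (hx01.trans b1) b2) b5, b4.trans
      (hR.F_mono (hx01.trans (b1.trans b2)) b3)⟩
  -- the counting
  have hcount : ∀ ε : ℝ, 0 < ε → ∃ C : ℝ, ∀ x : ℝ, 1 ≤ x → ∀ B : Finset ℕ,
      (∀ n ∈ B, φ n ≤ x) → ∑ n ∈ B, (if Bad n then (1 : ℝ) + (T n).card else 0) ≤
        C * x ^ (1 / 2 + ε) := by
    intro ε hε
    obtain ⟨C3, hC3⟩ := h3 ε hε
    obtain ⟨C4, hC4⟩ := h4 ε hε
    refine ⟨(2 * C3 + C4) * 5 ^ (1 / 2 + ε), fun x hx B hB => ?_⟩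
    set B' := B.filter Bad with hB'
    have e1 : ∑ n ∈ B, (if Bad n then (1 : ℝ) + (T n).card else 0) =
        ∑ n ∈ B', ((1 : ℝ) + (T n).card) := by
      rw [hB', Finset.sum_filter]
    rw [e1, Finset.sum_add_distrib, Finset.sum_const, nsmul_eq_mul, mul_one]
    have h5x : 1 ≤ 5 * x := by linarith
    have e5 : (5 * x) ^ (1 / 2 + ε) = 5 ^ (1 / 2 + ε) * x ^ (1 / 2 + ε) :=
      Real.mul_rpow (by norm_num) (by linarith)
    have hchoice : ∀ n ∈ B', ∃ q : ℝ × ℝ, q ∈ Q ∧ x₁ ≤ q.1 ∧ F q.1 < n + 1 ∧ (n : ℝ) ≤ F q.2 := by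
      intro n hn
      rw [hB', Finset.mem_filter] at hn
      obtain ⟨q, a, b, c, d⟩ := hn.2
      exact ⟨q, a, b, c, d⟩
    choose! qf hq1 hq2 hq3 hq4 using hchoice
    have hqx : ∀ n ∈ B', (qf n).1 ≤ 5 * x := by
      intro n hn
      have a1 : (qf n).1 ≤ φ ((n : ℝ) + 1) := by
        by_contra hc
        push Not at hc
        have a2 := hR.F_strict (hR.phi_ge _) hc
        rw [hR.F_phi (by positivity)] at a2
        have := hq3 n hn
        linarith
      have a2 := hφstep n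
      have a3 := hB n (Finset.mem_filter.1 hn).1
      linarith
    have hcard1 : (B'.card : ℝ) ≤ 2 * (C3 * (5 * x) ^ (1 / 2 + ε)) := by
      have b1 : B'.card = ∑ q ∈ B'.image qf, (B'.filter fun n => qf n = q).card :=
        Finset.card_eq_sum_card_image qf B'
      have b2 : ∀ q ∈ B'.image qf, ((B'.filter fun n => qf n = q).card : ℝ) ≤
          2 * (q.2 - q.1 + 1) := by
        intro q hq
        obtain ⟨n0, hn0, rfl⟩ := Finset.mem_image.1 hq
        have c1 := hx01.trans (hq2 n0 hn0)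
        have c2 := h1 _ (hq1 n0 hn0)
        have c3 := hR.F_sub_le c1 c2
        have c4 := hR.F_mono le_rfl c1
        rw [hR.F_zero] at c4
        have c6 := hR.F_mono c1 c2
        -- all n in the fibre lie in an interval
        have c5 : (B'.filter fun n => qf n = qf n0) ⊆
            Finset.Icc ⌊F (qf n0).1⌋₊ ⌊F (qf n0).2⌋₊ := by
          intro n hn
          rw [Finset.mem_filter] at hn
          have d1 := hq3 n hn.1
          have d2 := hq4 n hn.1
          rw [hn.2] at d1 d2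
          rw [Finset.mem_Icc]
          constructor
          · have : (⌊F (qf n0).1⌋₊ : ℝ) < n + 1 := lt_of_le_of_lt (Nat.floor_le c4) d1
            have : ⌊F (qf n0).1⌋₊ < n + 1 := by exact_mod_cast this
            omega
          · exact Nat.le_floor d2
        have c7 := Finset.card_le_card c5
        rw [Nat.card_Icc] at c7
        have c8 : ((B'.filter fun n => qf n = qf n0).card : ℝ) ≤
            (⌊F (qf n0).2⌋₊ : ℝ) + 1 - ⌊F (qf n0).1⌋₊ := by
          have c9 : ⌊F (qf n0).1⌋₊ ≤ ⌊F (qf n0).2⌋₊ + 1 :=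
            (Nat.floor_le_floor c6).trans (Nat.le_succ _)
          have c10 : (((⌊F (qf n0).2⌋₊ + 1 - ⌊F (qf n0).1⌋₊ : ℕ)) : ℝ) =
              (⌊F (qf n0).2⌋₊ : ℝ) + 1 - ⌊F (qf n0).1⌋₊ := by
            rw [Nat.cast_sub c9]
            push_cast
            ring
          rw [← c10]
          exact_mod_cast c7
        have c9 := Nat.floor_le (c4.trans c6)
        have c10 := Nat.lt_floor_add_one (F (qf n0).1)
        linarith
      rw [b1]
      push_cast
      refine (Finset.sum_le_sum b2).trans ?_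
      rw [← Finset.mul_sum]
      apply mul_le_mul_of_nonneg_left _ (by norm_num)
      apply hC3 (5 * x) h5x
      intro q hq
      obtain ⟨n, hn, rfl⟩ := Finset.mem_image.1 hq
      exact ⟨hq1 n hn, hqx n hn⟩
    have hcard2 : ∑ n ∈ B', ((T n).card : ℝ) ≤ C4 * (5 * x) ^ (1 / 2 + ε) := by
      have b1 : ∀ n ∈ B', ((T n).card : ℝ) ≤ ((hfin n).toFinset).card := fun n _ => by
        exact_mod_cast Finset.card_image_le
      refine (Finset.sum_le_sum b1).trans ?_
      have hdis : Set.PairwiseDisjoint (B' : Set ℕ) fun n => (hfin n).toFinset := by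
        intro n _ m _ hnm
        rw [Function.onFun, Finset.disjoint_left]
        intro u hu hv
        rw [Set.Finite.mem_toFinset] at hu hv
        obtain ⟨-, -, u1, u2⟩ := hu
        obtain ⟨-, -, v1, v2⟩ := hv
        apply hnm
        have w1 : (n : ℝ) < m + 1 := by linarith
        have w2 : (m : ℝ) < n + 1 := by linarith
        have w3 : n < m + 1 := by exact_mod_cast w1
        have w4 : m < n + 1 := by exact_mod_cast w2
        omega
      have b2 : ∑ n ∈ B', (((hfin n).toFinset).card : ℝ) =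
          ((B'.biUnion fun n => (hfin n).toFinset).card : ℝ) := by
        rw [Finset.card_biUnion hdis]
        push_cast
        rfl
      rw [b2]
      apply hC4 (5 * x) h5x
      intro u hu
      obtain ⟨n, hn, hu⟩ := Finset.mem_biUnion.1 hu
      rw [Set.Finite.mem_toFinset] at hu
      refine ⟨hu.1, ?_⟩
      have a1 := hbadP n u hu.1 (hPCx n u hu) hu.2.2.2
      have a3 := hB n (Finset.mem_filter.1 hn).1
      linarith
    rw [e5] at hcard1 hcard2
    calc _ ≤ 2 * (C3 * (5 ^ (1 / 2 + ε) * x ^ (1 / 2 + ε))) +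
          C4 * (5 ^ (1 / 2 + ε) * x ^ (1 / 2 + ε)) := add_le_add hcard1 hcard2
      _ = _ := by ring
  have hcnn : ∀ n, 0 ≤ (if Bad n then (1 : ℝ) + (T n).card else 0) := by
    intro n
    split_ifs <;> positivity
  let I : IC (fZ Z) x₀ :=
    { Bad := Bad
      T := T
      h0 := by
        rintro ⟨q, -, b1, b2, -⟩
        have := hR.F_mono hx01 b1
        simp only [CharP.cast_eq_zero, zero_add] at b2
        linarith
      hT := by
        intro n t ht
        rw [hT] at ht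
        simp only at ht
        obtain ⟨u, hu, rfl⟩ := Finset.mem_image.1 ht
        rw [Set.Finite.mem_toFinset] at hu
        exact ⟨hPCbad n u hu, hu.2.2.1, hu.2.2.2⟩
      hS := fun σ hσ => summable_of_count hcnn hφ1 hcount hσ }
  obtain ⟨y, hym, hy0, hyt, hsys, hgood, hbad⟩ := I.system hR hZ hZc rfl
  refine ⟨x₁, fun k => φ (y k), hsys, ?_, ?_⟩
  · rintro x ⟨q, hq, b1, b2, b3⟩
    have hx0 : x₀ ≤ x := hx01.trans (b1.trans b2)
    have hFx : 0 ≤ F x := by
      have := hR.F_mono le_rfl hx0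
      rwa [hR.F_zero] at this
    set n := ⌊F x⌋₊ with hn
    have c1 : (n : ℝ) ≤ F x := Nat.floor_le hFx
    have c2 : F x < n + 1 := Nat.lt_floor_add_one _
    have hB : Bad n := ⟨q, hq, b1, lt_of_le_of_lt (hR.F_mono (hx01.trans b1) b2) c2,
      c1.trans (hR.F_mono hx0 b3)⟩
    have key := hbad n hB (F x) c1 c2
    constructor
    · rintro ⟨k, hk⟩
      have hyk : y k = F x := by
        rw [← hk, hF, hR.F_phi (hy0 k)]
      have := key.1 ⟨k, hyk⟩
      have h5 : F x ∈ T n := this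
      rw [hT] at h5
      simp only at h5
      obtain ⟨u, hu, hux⟩ := Finset.mem_image.1 h5
      rw [Set.Finite.mem_toFinset] at hu
      have := hR.F_inj (hx01.trans (hPCx n u hu)) hx0 hux
      rw [← this]
      exact hu.1
    · intro hxP
      have h5 : F x ∈ T n := by
        rw [hT]
        simp only
        apply Finset.mem_image_of_mem
        rw [Set.Finite.mem_toFinset]
        exact ⟨hxP, ⟨q, hq, b1, b2, b3⟩, c1, c2⟩
      obtain ⟨k, hk⟩ := key.2 h5
      refine ⟨k, ?_⟩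
      simp only
      rw [hk, hφ, hF, hR.phi_F hx0]
  · intro x z hx hxz hq
    have hx0 : x₀ ≤ x := hx01.trans hx
    have hz0 : x₀ ≤ z := hx0.trans hxz
    have hFx : 0 ≤ F x := by
      have := hR.F_mono le_rfl hx0
      rwa [hR.F_zero] at this
    have hFxz : F x ≤ F z := hR.F_mono hx0 hxz
    have hpos : ∀ k, x₀ ≤ φ (y k) := fun k => hR.phi_ge _
    have hFφ : ∀ k, F (φ (y k)) = y k := fun k => hR.F_phi (hy0 k)
    have hset : {k | x < φ (y k) ∧ φ (y k) < z} = {k | F x < y k ∧ y k < F z} := by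
      ext k
      simp only [mem_ofPred_eq]
      constructor
      · rintro ⟨h5, h6⟩
        have h7 := hR.F_strict hx0 h5
        have h8 := hR.F_strict (hpos k) h6
        rw [hφ, hR.F_phi (hy0 k)] at h7 h8
        exact ⟨h7, h8⟩
      · rintro ⟨h5, h6⟩
        constructor
        · by_contra hc
          push Not at hc
          have := hR.F_mono (hpos k) hc
          rw [hφ, hR.F_phi (hy0 k)] at this
          linarith
        · by_contra hc
          push Not at hc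
          have := hR.F_mono hz0 hc
          rw [hφ, hR.F_phi (hy0 k)] at this
          linarith
    have key := count_cells hyt hFx hFxz (fun n hn1 hn2 => by
      have hgd : ¬ Bad n := by
        rintro ⟨q, hq1, hq2, hq3, hq4⟩
        rcases hq q hq1 with h5 | h5
        · have h6 := hR.F_mono (hx01.trans (hq2.trans (h1 q hq1))) h5
          linarith
        · have h6 := hR.F_mono hz0 h5
          linarith
      obtain ⟨k, hk, -⟩ := hgood n hgd
      exact ⟨k, hk⟩) (fun k k' a1 a2 b1 b2 hkk => by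
      set n := ⌊y k⌋₊ with hn
      have c1 : (n : ℝ) ≤ y k := Nat.floor_le (hy0 k)
      have c2 : y k < n + 1 := Nat.lt_floor_add_one _
      have c3 : (n : ℝ) ≤ y k' := by rw [hkk]; exact Nat.floor_le (hy0 k')
      have c4 : y k' < n + 1 := by rw [hkk]; exact Nat.lt_floor_add_one _
      by_cases hB : Bad n
      · exfalso
        have h5 := (hbad n hB (y k) c1 c2).1 ⟨k, rfl⟩
        have h6 : y k ∈ T n := h5
        rw [hT] at h6
        simp only at h6
        obtain ⟨w, hw, hwx⟩ := Finset.mem_image.1 h6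
        rw [Set.Finite.mem_toFinset] at hw
        obtain ⟨-, ⟨q, d0, d1, d2, d3⟩, -⟩ := hw
        rcases hq q d0 with h7 | h7
        · have := hR.F_mono (hx01.trans (d1.trans d2)) (d3.trans h7)
          rw [← hwx] at a1
          linarith
        · have := hR.F_mono hz0 (h7.trans d2)
          rw [← hwx] at a2
          linarith
      · obtain ⟨k₀, -, hk0⟩ := hgood n hB
        rw [hk0 k c1 c2, hk0 k' c3 c4])
    have e : {k | x < (fun k => φ (y k)) k ∧ (fun k => φ (y k)) k < z} =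
        {k | F x < y k ∧ y k < F z} := hset
    rw [e]
    exact key

end Pool.Agent.H521.G
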