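import Pool.Agent.H521.G.Transfer

open MeasureTheory Set Filter Topology
open scoped ENNReal NNReal ComplexConjugate

namespace Pool.Agent.H521.G

/-- Stage data: a sequence of periodic patterns and window constants. -/
structure Stages where
  m : ℕ → ℕ
  Γ : ℕ → ℕ → ℝ
  c : ℕ → ℝ
  m1 : ∀ t, 1 ≤ m t
  Γ0 : ∀ t, Γ t 0 = 0
  Γmono : ∀ t, StrictMono (Γ t)
  Γper : ∀ t l, Γ t (l + m t) = Γ t l + m t
  c0 : ∀ t, 0 ≤ c t

theorem per_mul {Γ : ℕ → ℝ} {m : ℕ} (h : ∀ l, Γ (l + m) = Γ l + m) (l k : ℕ) :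
    Γ (l + m * k) = Γ l + (m * k : ℕ) := by
  induction k with
  | zero => simp
  | succ k ih =>
    rw [Nat.mul_succ, ← add_assoc, h, ih]
    push_cast
    ring

theorem exists_Q (S : Stages) : ∃ Q : ℕ → ℕ, ∀ t, t + 2 ≤ Q t ∧
    ∀ l, 1 / (Q t : ℝ) < S.Γ t (l + 1) - S.Γ t l := by
  have h : ∀ t, ∃ q : ℕ, t + 2 ≤ q ∧ ∀ l, 1 / (q : ℝ) < S.Γ t (l + 1) - S.Γ t l := by
    intro t
    have hne : (Finset.range (S.m t)).Nonempty := ⟨0, Finset.mem_range.2 (S.m1 t)⟩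
    obtain ⟨l₀, -, hl₀⟩ := Finset.exists_min_image (Finset.range (S.m t))
      (fun l => S.Γ t (l + 1) - S.Γ t l) hne
    have hpos : 0 < S.Γ t (l₀ + 1) - S.Γ t l₀ := by
      have := S.Γmono t (Nat.lt_succ_self l₀)
      linarith
    obtain ⟨n, hn⟩ := exists_nat_one_div_lt hpos
    refine ⟨max (n + 1) (t + 2), le_max_right _ _, fun l => ?_⟩
    have h1 : (1 : ℝ) / ((max (n + 1) (t + 2) : ℕ) : ℝ) ≤ 1 / ((n : ℝ) + 1) := by
      apply one_div_le_one_div_of_le (by positivity)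
      have : n + 1 ≤ max (n + 1) (t + 2) := le_max_left _ _
      exact_mod_cast this
    have h2 := hl₀ (l % S.m t) (Finset.mem_range.2 (Nat.mod_lt _ (S.m1 t)))
    have h3 := per_mul (S.Γper t) (l % S.m t) (l / S.m t)
    have h4 := per_mul (S.Γper t) (l % S.m t + 1) (l / S.m t)
    have e1 : l % S.m t + S.m t * (l / S.m t) = l := Nat.mod_add_div _ _
    have e2 : l % S.m t + 1 + S.m t * (l / S.m t) = l + 1 := by omega
    rw [e1] at h3
    rw [e2] at h4
    rw [h3, h4]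
    linarith
  choose Q hQ using h
  exact ⟨Q, hQ⟩

theorem exists_slow (N : ℕ → ℕ) : ∃ κ : ℕ → ℕ, Monotone κ ∧ Tendsto κ atTop atTop ∧
    ∀ i, N (κ i) ≤ i + N 0 := by
  classical
  set P : ℕ → ℕ → Prop := fun i t => ∀ t' ≤ t, N t' ≤ i + N 0 with hP
  refine ⟨fun i => Nat.findGreatest (P i) i, ?_, ?_, ?_⟩
  · intro i i' hii
    apply Nat.findGreatest_mono _ hii
    intro t ht t' ht'
    have := ht t' ht'
    omega
  · rw [tendsto_atTop_atTop]
    intro T
    refine ⟨T + ∑ t ∈ Finset.range (T + 1), N t, fun i hi => ?_⟩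
    apply Nat.le_findGreatest (by omega)
    intro t' ht'
    have : N t' ≤ ∑ t ∈ Finset.range (T + 1), N t :=
      Finset.single_le_sum (fun _ _ => Nat.zero_le _) (Finset.mem_range.2 (by omega))
    omega
  · intro i
    have h0 : P i 0 := by
      intro t' ht'
      have : t' = 0 := by omega
      rw [this]
      omega
    exact Nat.findGreatest_spec (P := P i) (Nat.zero_le i) h0 _ le_rfl

theorem natlog_le (j : ℕ) : (Nat.log 2 (j + 1) : ℝ) * Real.log 2 ≤ Real.log (j + 1) := by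
  have h := Nat.pow_log_le_self 2 (Nat.succ_ne_zero j)
  have h1 : ((2 : ℝ) ^ Nat.log 2 (j + 1)) ≤ (j : ℝ) + 1 := by exact_mod_cast h
  have h2 := Real.log_le_log (by positivity) h1
  rwa [Real.log_pow] at h2

theorem log_two_ge : 1 / 2 ≤ Real.log 2 := by
  have := Real.log_two_gt_d9
  linarith

theorem growth (N0 : ℕ) {δ : ℝ} (hδ : 0 < δ) : ∃ C : ℝ, 0 ≤ C ∧ ∀ j : ℕ,
    (Nat.log 2 (j + 1) : ℝ) + N0 + 1 ≤ C * ((j : ℝ) + 1) ^ δ := by
  refine ⟨2 / δ + N0 + 1, by positivity, fun j => ?_⟩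
  have hj : (1 : ℝ) ≤ (j : ℝ) + 1 := by
    have : (0 : ℝ) ≤ j := Nat.cast_nonneg j
    linarith
  have h1 := natlog_le j
  have h2 := Real.log_le_rpow_div (by linarith : (0 : ℝ) ≤ (j : ℝ) + 1) hδ
  have h3 : 1 ≤ ((j : ℝ) + 1) ^ δ := Real.one_le_rpow hj hδ.le
  have h4 := log_two_ge
  have h5 : (0 : ℝ) ≤ Nat.log 2 (j + 1) := Nat.cast_nonneg _
  have h6 : (Nat.log 2 (j + 1) : ℝ) ≤ 2 / δ * ((j : ℝ) + 1) ^ δ := by
    have : (Nat.log 2 (j + 1) : ℝ) * (1 / 2) ≤ ((j : ℝ) + 1) ^ δ / δ := by nlinarith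
    calc (Nat.log 2 (j + 1) : ℝ) = 2 * (Nat.log 2 (j + 1) * (1 / 2)) := by ring
      _ ≤ 2 * (((j : ℝ) + 1) ^ δ / δ) := by linarith
      _ = _ := by ring
  have h7 : ((N0 : ℝ) + 1) ≤ (N0 + 1) * ((j : ℝ) + 1) ^ δ := by
    have : (0 : ℝ) ≤ N0 := Nat.cast_nonneg _
    nlinarith
  nlinarith

theorem summable_add_one_rpow {p : ℝ} (hp : p < -1) : Summable fun j : ℕ => ((j : ℝ) + 1) ^ p := by
  have h1 : Summable fun j : ℕ => (j : ℝ) ^ p := Real.summable_nat_rpow.2 hp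
  have h2 := (summable_nat_add_iff 1).2 h1
  refine h2.congr fun j => ?_
  push_cast
  rfl

theorem summable_jump {τ : ℝ} (hτ : 0 < τ) : Summable fun j : ℕ =>
    if Nat.log 2 (j + 1) = Nat.log 2 (j + 2) then (0 : ℝ) else ((j : ℝ) + 1) ^ (-τ) := by
  set g : ℕ → ℝ := fun j => ((2 : ℝ) ^ (-τ)) ^ Nat.log 2 (j + 1) with hg
  have h2τ : (2 : ℝ) ^ (-τ) < 1 := Real.rpow_lt_one_of_one_lt_of_neg (by norm_num) (by linarith)
  have h2τ0 : 0 < (2 : ℝ) ^ (-τ) := by positivity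
  have hanti : ∀ j, g (j + 1) ≤ g j := by
    intro j
    apply pow_le_pow_of_le_one h2τ0.le h2τ.le
    exact Nat.log_mono_right (by omega)
  have hg0 : ∀ j, 0 ≤ g j := fun j => by positivity
  have hsum : Summable fun j => g j - g (j + 1) := by
    apply summable_of_sum_range_le (c := g 0) (fun j => by linarith [hanti j])
    intro n
    rw [Finset.sum_range_sub']
    linarith [hg0 n]
  refine Summable.of_nonneg_of_le (fun j => ?_) (fun j => ?_) (hsum.mul_left (1 - 2 ^ (-τ))⁻¹)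
  · split_ifs
    · exact le_rfl
    · positivity
  · have h1 : 0 < 1 - (2 : ℝ) ^ (-τ) := by linarith
    split_ifs with h
    · have := hanti j
      have : 0 ≤ g j - g (j + 1) := by linarith
      positivity
    · rw [← div_eq_inv_mul, le_div_iff₀ h1]
      have h3 : Nat.log 2 (j + 1) + 1 ≤ Nat.log 2 (j + 1 + 1) := by
        have : Nat.log 2 (j + 1) ≤ Nat.log 2 (j + 2) := Nat.log_mono_right (by omega)
        have e : j + 1 + 1 = j + 2 := rfl
        rw [e]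
        omega
      have h4 : g (j + 1) ≤ g j * 2 ^ (-τ) := by
        rw [hg]
        simp only
        rw [← pow_succ]
        exact pow_le_pow_of_le_one h2τ0.le h2τ.le h3
      have h5 : ((j : ℝ) + 1) ^ (-τ) ≤ g j := by
        have h6 : ((2 : ℝ) ^ Nat.log 2 (j + 1)) ≤ (j : ℝ) + 1 := by
          exact_mod_cast Nat.pow_log_le_self 2 (Nat.succ_ne_zero j)
        calc ((j : ℝ) + 1) ^ (-τ) ≤ ((2 : ℝ) ^ Nat.log 2 (j + 1)) ^ (-τ) :=
              Real.rpow_le_rpow_of_nonpos (by positivity) h6 (by linarith)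
          _ = g j := by
              rw [hg]
              simp only
              rw [← Real.rpow_natCast, ← Real.rpow_natCast, ← Real.rpow_mul (by norm_num),
                ← Real.rpow_mul (by norm_num)]
              congr 1
              ring
      nlinarith [mul_le_mul_of_nonneg_right h5 h1.le]

/-- The positions of the blocks. -/
noncomputable def Yr (f : ℝ → ℝ) (x₀ : ℝ) (n κ : ℕ → ℕ) (c : ℕ → ℝ) : ℕ → ℝ
  | 0 => 0
  | j + 1 => Yr f x₀ n κ c j + n j +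
      (if κ j = κ (j + 1) then 0 else c (κ j) * Real.log (phi f x₀ (Yr f x₀ n κ c j)))

theorem Yr_ge {f : ℝ → ℝ} {x₀ : ℝ} (hR : RDens f x₀) {n κ : ℕ → ℕ} {c : ℕ → ℝ}
    (hn : ∀ j, 1 ≤ n j) (hc : ∀ t, 0 ≤ c t) (j : ℕ) : (j : ℝ) ≤ Yr f x₀ n κ c j := by
  induction j with
  | zero => simp [Yr]
  | succ j ih =>
    rw [Yr]
    have h1 : (1 : ℝ) ≤ n j := by exact_mod_cast hn j
    have h2 : 0 ≤ (if κ j = κ (j + 1) then 0 else
        c (κ j) * Real.log (phi f x₀ (Yr f x₀ n κ c j))) := by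
      split_ifs
      · exact le_rfl
      · exact mul_nonneg (hc _) (by linarith [hR.hlog _ (hR.phi_ge (Yr f x₀ n κ c j))])
    push_cast
    linarith

theorem phi_ge_succ {f : ℝ → ℝ} {x₀ : ℝ} (hR : RDens f x₀) {j : ℕ} {y : ℝ} (hy : (j : ℝ) ≤ y) :
    (j : ℝ) + 1 ≤ phi f x₀ y := by
  have h0 : (0 : ℝ) ≤ y := (Nat.cast_nonneg j).trans hy
  have := hR.phi_ge_add h0
  linarith [hR.dens.hx₀]

/-- the increments of `φ` over a block -/
theorem phi_block {f : ℝ → ℝ} {x₀ : ℝ} (hR : RDens f x₀) {y N : ℝ} (hy : 0 ≤ y) (hN : 0 ≤ N)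
    (h8 : 8 * N ≤ phi f x₀ y) :
    phi f x₀ (y + 2 * N) - phi f x₀ y ≤ 8 * N * Real.log (phi f x₀ y) := by
  set a := phi f x₀ y with ha
  set b := phi f x₀ (y + 2 * N) with hb
  have h1 := hR.phi_sub_le hy (by linarith : y ≤ y + 2 * N)
  rw [← ha, ← hb] at h1
  have hab : a ≤ b := hR.phi_mono (by linarith)
  have ha0 : 0 < a := hR.phi_pos y
  have hb0 : 0 < b := hR.phi_pos _
  have hlog : Real.log b ≤ Real.log a + (b - a) / a := by
    have h2 := Real.log_le_sub_one_of_pos (div_pos hb0 ha0)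
    rw [Real.log_div hb0.ne' ha0.ne'] at h2
    have : b / a - 1 = (b - a) / a := by field_simp
    linarith
  have h3 : 4 * N * ((b - a) / a) ≤ (b - a) / 2 := by
    have : 4 * N * ((b - a) / a) = (8 * N / a) * ((b - a) / 2) := by ring
    rw [this]
    have h4 : 8 * N / a ≤ 1 := by rw [div_le_one ha0]; exact h8
    have h5 : 0 ≤ (b - a) / 2 := by linarith
    nlinarith
  have h4 : (y + 2 * N - y) * (2 * Real.log b) = 4 * N * Real.log b := by ring
  rw [h4] at h1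
  have h5 : 4 * N * Real.log b ≤ 4 * N * (Real.log a + (b - a) / a) :=
    mul_le_mul_of_nonneg_left hlog (by linarith)
  nlinarith

end Pool.Agent.H521.G
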