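import Pool.Agent.H521.G.Build

open MeasureTheory Set Filter Topology
open scoped ENNReal NNReal ComplexConjugate

namespace Pool.Agent.H521.G

namespace Pat

variable {f : ℝ → ℝ} {x₀ : ℝ} (P : Pat f x₀)

noncomputable def EE (σ : ℝ) (j : ℕ) : ℝ := if P.χ j = 1 ∧ P.χ (j + 1) = 1 then 0 else
    (2 * ((P.m j * P.q j : ℕ) : ℝ) + P.w j + ((P.m (j + 1) * P.q (j + 1) : ℕ) : ℝ)) *
      phi f x₀ (P.Y j) ^ (-σ)

theorem EE_nonneg (hR : RDens f x₀) (σ : ℝ) (j : ℕ) : 0 ≤ P.EE σ j := by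
  unfold EE
  split_ifs
  · exact le_rfl
  · have := P.w0 j
    have h1 : (0 : ℝ) ≤ ((P.m j * P.q j : ℕ) : ℝ) := Nat.cast_nonneg _
    have h2 : (0 : ℝ) ≤ ((P.m (j + 1) * P.q (j + 1) : ℕ) : ℝ) := Nat.cast_nonneg _
    exact mul_nonneg (by linarith) (Real.rpow_nonneg (hR.phi_pos _).le _)

theorem w_le (hR : RDens f x₀) (σ : ℝ) (j : ℕ) :
    P.w j ≤ phi f x₀ (P.Y j) ^ σ * P.EE σ j := by
  have hpos := hR.phi_pos (P.Y j)
  unfold EE
  split_ifs with h
  · rw [(P.reg j h.2).2.2]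
    simp
  · have e : phi f x₀ (P.Y j) ^ σ * ((2 * ((P.m j * P.q j : ℕ) : ℝ) + P.w j +
        ((P.m (j + 1) * P.q (j + 1) : ℕ) : ℝ)) * phi f x₀ (P.Y j) ^ (-σ)) =
        (2 * ((P.m j * P.q j : ℕ) : ℝ) + P.w j +
        ((P.m (j + 1) * P.q (j + 1) : ℕ) : ℝ)) := by
      rw [mul_comm, mul_assoc, ← Real.rpow_add hpos]
      simp
    rw [e]
    have h1 : (0 : ℝ) ≤ ((P.m j * P.q j : ℕ) : ℝ) := Nat.cast_nonneg _
    have h2 : (0 : ℝ) ≤ ((P.m (j + 1) * P.q (j + 1) : ℕ) : ℝ) := Nat.cast_nonneg _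
    linarith

theorem S_le (hR : RDens f x₀) {σ : ℝ} (hσ : 0 ≤ σ) (j : ℕ) :
    P.S (j + 1) ≤ phi f x₀ (P.Y j) ^ σ * ∑ i ∈ Finset.range (j + 1), P.EE σ i := by
  induction j with
  | zero =>
    rw [P.S_succ, P.S_zero, zero_add]
    simpa using P.w_le hR σ 0
  | succ j ih =>
    rw [P.S_succ, Finset.sum_range_succ, mul_add]
    have h1 := P.w_le hR σ (j + 1)
    have h2 : phi f x₀ (P.Y j) ^ σ ≤ phi f x₀ (P.Y (j + 1)) ^ σ :=
      Real.rpow_le_rpow (hR.phi_pos _).le (hR.phi_mono (P.Y_mono (Nat.le_succ j))) hσ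
    have h3 : 0 ≤ ∑ i ∈ Finset.range (j + 1), P.EE σ i :=
      Finset.sum_nonneg fun i _ => P.EE_nonneg hR σ i
    have h4 := mul_le_mul_of_nonneg_right h2 h3
    linarith

end Pat

/-- **Construction of the pattern data.** -/
theorem build {f : ℝ → ℝ} {x₀ : ℝ} (hR : RDens f x₀) (S : Stages) :
    ∃ (P : Pat f x₀) (κ : ℕ → ℕ), Monotone κ ∧ Tendsto κ atTop atTop ∧
      (∀ j, P.m j = S.m (κ j)) ∧ (∀ j, P.Γ j = S.Γ (κ j)) ∧ (∀ j, κ j + 2 ≤ P.q j) ∧
      (∀ j l, 1 / (P.q j : ℝ) < P.Γ j (l + 1) - P.Γ j l) ∧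
      (∀ j, P.w j = if κ j = κ (j + 1) then 0 else
        S.c (κ j) * Real.log (phi f x₀ (P.Y j))) ∧
      (∀ δ : ℝ, 0 < δ → ∃ C : ℝ, 0 ≤ C ∧ ∀ j : ℕ,
        (P.n j : ℝ) + S.c (κ j) ≤ C * ((j : ℝ) + 1) ^ δ) ∧
      (∀ σ : ℝ, 1 / 2 < σ → ∃ C : ℝ, 0 ≤ C ∧ ∀ j,
        P.S (j + 1) + 2 * P.n j + 2 * P.n (j + 1) ≤ C * phi f x₀ (P.Y j) ^ σ) ∧
      Tendsto (fun j => (P.m j : ℝ) / Real.log (phi f x₀ (P.Y j))) atTop (𝓝 0) := by
  obtain ⟨Q, hQ⟩ := exists_Q S
  set N : ℕ → ℕ := fun t => S.m t * Q t + ⌈S.c t⌉₊ with hN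
  obtain ⟨κ', hκm, hκt, hκN⟩ := exists_slow N
  set κ : ℕ → ℕ := fun j => κ' (Nat.log 2 (j + 1)) with hκ
  have hκmono : Monotone κ := fun i j hij => hκm (Nat.log_mono_right (by omega))
  have hlogt : Tendsto (fun j => Nat.log 2 (j + 1)) atTop atTop := by
    rw [tendsto_atTop_atTop]
    intro b
    refine ⟨2 ^ b, fun j hj => ?_⟩
    have : 2 ^ b ≤ j + 1 := by omega
    exact (Nat.le_log_iff_pow_le (by norm_num) (by omega)).2 this
  have hκtend : Tendsto κ atTop atTop := hκt.comp hlogt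
  set n : ℕ → ℕ := fun j => S.m (κ j) * Q (κ j) with hn
  have hn1 : ∀ j, 1 ≤ n j := fun j => Nat.mul_pos (S.m1 _) (by have := (hQ (κ j)).1; omega)
  have hsmall : ∀ j : ℕ, (n j : ℝ) + S.c (κ j) ≤ (Nat.log 2 (j + 1) : ℝ) + N 0 := by
    intro j
    have h1 := hκN (Nat.log 2 (j + 1))
    have h2 : (N (κ j) : ℝ) ≤ (Nat.log 2 (j + 1) : ℝ) + N 0 := by exact_mod_cast h1
    have h3 : (n j : ℝ) + S.c (κ j) ≤ N (κ j) := by
      rw [hN]
      push_cast
      have := Nat.le_ceil (S.c (κ j))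
      rw [hn]
      push_cast
      linarith
    linarith
  have hgrow : ∀ δ : ℝ, 0 < δ → ∃ C : ℝ, 0 ≤ C ∧ ∀ j : ℕ,
        (n j : ℝ) + S.c (κ j) ≤ C * ((j : ℝ) + 1) ^ δ := by
    intro δ hδ
    obtain ⟨C, hC0, hC⟩ := growth (N 0) hδ
    exact ⟨C, hC0, fun j => by linarith [hsmall j, hC j]⟩
  have hngrow : ∀ δ : ℝ, 0 < δ → ∃ C : ℝ, 0 ≤ C ∧ ∀ j : ℕ, (n j : ℝ) ≤ C * ((j : ℝ) + 1) ^ δ := by
    intro δ hδ
    obtain ⟨C, hC0, hC⟩ := hgrow δ hδ
    exact ⟨C, hC0, fun j => by linarith [hC j, S.c0 (κ j)]⟩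
  set Y : ℕ → ℝ := Yr f x₀ n κ S.c with hY
  have hYj : ∀ j : ℕ, (j : ℝ) ≤ Y j := Yr_ge hR hn1 S.c0
  have hφ : ∀ j : ℕ, (j : ℝ) + 1 ≤ phi f x₀ (Y j) := fun j => phi_ge_succ hR (hYj j)
  have hj1 : ∀ j : ℕ, (1 : ℝ) ≤ (j : ℝ) + 1 := fun j => by
    have : (0 : ℝ) ≤ j := Nat.cast_nonneg j
    linarith
  set w : ℕ → ℝ := fun j => if κ j = κ (j + 1) then 0 else
        S.c (κ j) * Real.log (phi f x₀ (Y j)) with hw
  have hw0 : ∀ j, 0 ≤ w j := by
    intro j
    rw [hw]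
    simp only
    split_ifs
    · exact le_rfl
    · exact mul_nonneg (S.c0 _) (by linarith [hR.hlog _ (hR.phi_ge (Y j))])
  -- value bound
  have hval : ∀ σ : ℝ, 1 / 2 < σ → ∃ K : ℝ, 0 ≤ K ∧ ∀ i : ℕ,
      (2 * (n i : ℝ) + w i + n (i + 1)) * phi f x₀ (Y i) ^ (-σ) ≤
        K * ((i : ℝ) + 1) ^ (-(1 / 4) : ℝ) := by
    intro σ hσ
    obtain ⟨C, hC0, hC⟩ := hgrow (1 / 8) (by norm_num)
    refine ⟨14 * C, by positivity, fun i => ?_⟩
    have ha := hφ i
    have hi := hj1 i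
    set a := phi f x₀ (Y i) with hadef
    have ha1 : 1 ≤ a := hi.trans ha
    have ha0 : 0 < a := by linarith
    have h1 := hC i
    have hc := S.c0 (κ i)
    have hn0 : (0 : ℝ) ≤ n i := Nat.cast_nonneg _
    have h2 := hC (i + 1)
    have hc2 := S.c0 (κ (i + 1))
    have h3 : (((i + 1 : ℕ) : ℝ) + 1) ^ (1 / 8 : ℝ) ≤ 2 * ((i : ℝ) + 1) ^ (1 / 8 : ℝ) := by
      calc (((i + 1 : ℕ) : ℝ) + 1) ^ (1 / 8 : ℝ) ≤ (2 * ((i : ℝ) + 1)) ^ (1 / 8 : ℝ) := by
            apply Real.rpow_le_rpow (by positivity) _ (by norm_num)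
            push_cast
            linarith
        _ = 2 ^ (1 / 8 : ℝ) * ((i : ℝ) + 1) ^ (1 / 8 : ℝ) :=
            Real.mul_rpow (by norm_num) (by positivity)
        _ ≤ 2 * ((i : ℝ) + 1) ^ (1 / 8 : ℝ) := by
            apply mul_le_mul_of_nonneg_right _ (by positivity)
            calc (2 : ℝ) ^ (1 / 8 : ℝ) ≤ 2 ^ (1 : ℝ) :=
                  Real.rpow_le_rpow_of_exponent_le (by norm_num) (by norm_num)
              _ = 2 := Real.rpow_one 2
    set X := ((i : ℝ) + 1) ^ (1 / 8 : ℝ) with hX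
    have hX0 : 0 < X := by positivity
    have hlog : Real.log a ≤ 8 * a ^ (1 / 8 : ℝ) := by
      have := Real.log_le_rpow_div ha0.le (by norm_num : (0 : ℝ) < 1 / 8)
      linarith
    have hA1 : 1 ≤ a ^ (1 / 8 : ℝ) := Real.one_le_rpow ha1 (by norm_num)
    have hlog0 : 0 ≤ Real.log a := Real.log_nonneg ha1
    have hwi : w i ≤ C * X * (8 * a ^ (1 / 8 : ℝ)) := by
      have h5 : w i ≤ S.c (κ i) * Real.log a := by
        rw [hw]
        simp only
        split_ifs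
        · exact mul_nonneg hc hlog0
        · exact le_rfl
      have h6 : S.c (κ i) ≤ C * X := by linarith
      calc w i ≤ S.c (κ i) * Real.log a := h5
        _ ≤ C * X * (8 * a ^ (1 / 8 : ℝ)) := mul_le_mul h6 hlog hlog0 (by positivity)
    have hCX : 0 ≤ C * X := by positivity
    have hn2 : (n (i + 1) : ℝ) ≤ 2 * (C * X) := by
      have := mul_le_mul_of_nonneg_left h3 hC0
      linarith
    have hsum : 2 * (n i : ℝ) + w i + n (i + 1) ≤ 14 * (C * X) * a ^ (1 / 8 : ℝ) := by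
      have h7 : C * X * 1 ≤ C * X * a ^ (1 / 8 : ℝ) := mul_le_mul_of_nonneg_left hA1 hCX
      nlinarith
    calc (2 * (n i : ℝ) + w i + n (i + 1)) * a ^ (-σ) ≤
        14 * (C * X) * a ^ (1 / 8 : ℝ) * a ^ (-σ) :=
          mul_le_mul_of_nonneg_right hsum (by positivity)
      _ = 14 * C * (X * a ^ (1 / 8 - σ)) := by
          rw [mul_assoc (14 * (C * X)), ← Real.rpow_add ha0]
          ring_nf
      _ ≤ 14 * C * (X * ((i : ℝ) + 1) ^ (1 / 8 - σ)) := by
          apply mul_le_mul_of_nonneg_left _ (by positivity)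
          apply mul_le_mul_of_nonneg_left _ hX0.le
          exact Real.rpow_le_rpow_of_nonpos (by linarith) ha (by linarith)
      _ ≤ 14 * C * ((i : ℝ) + 1) ^ (-(1 / 4) : ℝ) := by
          apply mul_le_mul_of_nonneg_left _ (by positivity)
          rw [hX, ← Real.rpow_add (by linarith)]
          exact Real.rpow_le_rpow_of_exponent_le hi (by linarith)
  have hreg : ∀ j, κ j ≠ κ (j + 1) → Nat.log 2 (j + 1) ≠ Nat.log 2 (j + 2) := by
    intro j h h2
    apply h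
    rw [hκ]
    simp only
    rw [h2]
  set χ : ℕ → ℝ := fun j => match j with
    | 0 => 0
    | j + 1 => if κ j = κ (j + 1) then 1 else 0 with hχ
  have hχs : ∀ j, χ (j + 1) = if κ j = κ (j + 1) then 1 else 0 := fun j => rfl
  have hχ0 : χ 0 = 0 := rfl
  -- summability
  have hB : ∀ σ : ℝ, 1 / 2 < σ → Summable fun j => ((n j : ℝ) * phi f x₀ (Y j) ^ (-σ)) ^ 2 := by
    intro σ hσ
    obtain ⟨C, hC0, hC⟩ := hngrow ((σ - 1 / 2) / 2) (by linarith)
    have hs := summable_add_one_rpow (p := -(σ + 1 / 2)) (by linarith)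
    refine Summable.of_nonneg_of_le (fun j => sq_nonneg _) (fun j => ?_) (hs.mul_left (C ^ 2))
    have ha := hφ j
    have hi := hj1 j
    have h1 : (n j : ℝ) * phi f x₀ (Y j) ^ (-σ) ≤
        C * (((j : ℝ) + 1) ^ ((σ - 1 / 2) / 2) * ((j : ℝ) + 1) ^ (-σ)) := by
      rw [← mul_assoc]
      apply mul_le_mul (hC j) _ (Real.rpow_nonneg (hR.phi_pos _).le _) (by positivity)
      exact Real.rpow_le_rpow_of_nonpos (by linarith) ha (by linarith)
    rw [← Real.rpow_add (by linarith)] at h1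
    have h0 : 0 ≤ (n j : ℝ) * phi f x₀ (Y j) ^ (-σ) :=
      mul_nonneg (Nat.cast_nonneg _) (Real.rpow_nonneg (hR.phi_pos _).le _)
    calc ((n j : ℝ) * phi f x₀ (Y j) ^ (-σ)) ^ 2 ≤
        (C * ((j : ℝ) + 1) ^ ((σ - 1 / 2) / 2 + -σ)) ^ 2 := pow_le_pow_left₀ h0 h1 2
      _ = C ^ 2 * ((j : ℝ) + 1) ^ (-(σ + 1 / 2)) := by
          rw [mul_pow, ← Real.rpow_natCast (((j : ℝ) + 1) ^ ((σ - 1 / 2) / 2 + -σ)) 2,
            ← Real.rpow_mul (by linarith)]
          congr 2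
          push_cast
          ring
  have hD : ∀ σ : ℝ, 1 / 2 < σ → Summable fun j => (n j : ℝ) *
    ((phi f x₀ (Y j + 2 * n j) - phi f x₀ (Y j)) * phi f x₀ (Y j) ^ (-σ - 1)) := by
    intro σ hσ
    obtain ⟨C, hC0, hC⟩ := hngrow (1 / 16) (by norm_num)
    have hs := summable_add_one_rpow (p := -(5 / 4)) (by norm_num)
    have hev : ∀ᶠ j : ℕ in atTop, 8 * (C * ((j : ℝ) + 1) ^ (1 / 16 : ℝ)) ≤ (j : ℝ) + 1 := by
      have h1 : Tendsto (fun j : ℕ => ((j : ℝ) + 1) ^ (15 / 16 : ℝ)) atTop atTop :=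
        (tendsto_rpow_atTop (by norm_num)).comp
          (tendsto_atTop_add_const_right _ _ tendsto_natCast_atTop_atTop)
      filter_upwards [h1.eventually_ge_atTop (8 * C)] with j hj
      have hi := hj1 j
      calc 8 * (C * ((j : ℝ) + 1) ^ (1 / 16 : ℝ)) = 8 * C * ((j : ℝ) + 1) ^ (1 / 16 : ℝ) := by ring
        _ ≤ ((j : ℝ) + 1) ^ (15 / 16 : ℝ) * ((j : ℝ) + 1) ^ (1 / 16 : ℝ) :=
            mul_le_mul_of_nonneg_right hj (by positivity)
        _ = (j : ℝ) + 1 := by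
            rw [← Real.rpow_add (by linarith)]
            norm_num
    refine Summable.of_norm_bounded_eventually_nat (g := fun j : ℕ =>
      64 * C ^ 2 * ((j : ℝ) + 1) ^ (-(5 / 4) : ℝ)) (hs.mul_left _) ?_
    filter_upwards [hev] with j hj
    have ha := hφ j
    have hi := hj1 j
    have hNj := hC j
    have hN0 : (0 : ℝ) ≤ n j := Nat.cast_nonneg _
    have hY0 : 0 ≤ Y j := (Nat.cast_nonneg j).trans (hYj j)
    have h1 := phi_block hR hY0 hN0 (by linarith)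
    set a := phi f x₀ (Y j) with hadef
    have ha0 : 0 < a := by linarith
    have ha1 : 1 ≤ a := by linarith
    have hd0 : 0 ≤ phi f x₀ (Y j + 2 * n j) - a := by
      have := hR.phi_mono (by linarith : Y j ≤ Y j + 2 * n j)
      linarith
    rw [Real.norm_eq_abs, abs_of_nonneg (mul_nonneg hN0 (mul_nonneg hd0
      (Real.rpow_nonneg ha0.le _)))]
    have hlog : Real.log a ≤ 8 * a ^ (1 / 8 : ℝ) := by
      have := Real.log_le_rpow_div ha0.le (by norm_num : (0 : ℝ) < 1 / 8)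
      linarith
    have h2 : phi f x₀ (Y j + 2 * n j) - a ≤ 8 * n j * (8 * a ^ (1 / 8 : ℝ)) :=
      h1.trans (mul_le_mul_of_nonneg_left hlog (by positivity))
    have hNsq : (n j : ℝ) * n j ≤ C ^ 2 * ((j : ℝ) + 1) ^ (1 / 8 : ℝ) := by
      calc (n j : ℝ) * n j ≤ (C * ((j : ℝ) + 1) ^ (1 / 16 : ℝ)) * (C * ((j : ℝ) + 1) ^ (1 / 16 : ℝ)) :=
            mul_le_mul hNj hNj hN0 (by positivity)
        _ = C ^ 2 * (((j : ℝ) + 1) ^ (1 / 16 : ℝ) * ((j : ℝ) + 1) ^ (1 / 16 : ℝ)) := by ring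
        _ = _ := by
            rw [← Real.rpow_add (by linarith)]
            norm_num
    calc (n j : ℝ) * ((phi f x₀ (Y j + 2 * n j) - a) * a ^ (-σ - 1))
        ≤ (n j : ℝ) * ((8 * n j * (8 * a ^ (1 / 8 : ℝ))) * a ^ (-σ - 1)) := by
          apply mul_le_mul_of_nonneg_left _ hN0
          exact mul_le_mul_of_nonneg_right h2 (Real.rpow_nonneg ha0.le _)
      _ = 64 * ((n j : ℝ) * n j) * (a ^ (1 / 8 : ℝ) * a ^ (-σ - 1)) := by ring
      _ ≤ 64 * (C ^ 2 * ((j : ℝ) + 1) ^ (1 / 8 : ℝ)) * ((j : ℝ) + 1) ^ (-(11 / 8) : ℝ) := by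
          apply mul_le_mul _ _ (by positivity) (by positivity)
          · exact mul_le_mul_of_nonneg_left hNsq (by norm_num)
          · rw [← Real.rpow_add ha0]
            calc a ^ (1 / 8 + (-σ - 1)) ≤ a ^ (-(11 / 8) : ℝ) :=
                  Real.rpow_le_rpow_of_exponent_le ha1 (by linarith)
              _ ≤ ((j : ℝ) + 1) ^ (-(11 / 8) : ℝ) :=
                  Real.rpow_le_rpow_of_nonpos (by linarith) ha (by norm_num)
      _ = 64 * C ^ 2 * ((j : ℝ) + 1) ^ (-(5 / 4) : ℝ) := by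
          have : ((j : ℝ) + 1) ^ (-(5 / 4) : ℝ) =
              ((j : ℝ) + 1) ^ (1 / 8 : ℝ) * ((j : ℝ) + 1) ^ (-(11 / 8) : ℝ) := by
            rw [← Real.rpow_add (by linarith)]
            norm_num
          rw [this]
          ring
  have hE : ∀ σ : ℝ, 1 / 2 < σ → Summable fun j => if χ j = 1 ∧ χ (j + 1) = 1 then 0 else
    (2 * (n j : ℝ) + w j + (n (j + 1) : ℝ)) * phi f x₀ (Y j) ^ (-σ) := by
    intro σ hσ
    obtain ⟨K, hK0, hK⟩ := hval σ hσ
    rw [← summable_nat_add_iff 1]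
    have hs := summable_jump (τ := 1 / 4) (by norm_num)
    have hs1 := (summable_nat_add_iff 1).2 hs
    refine Summable.of_nonneg_of_le (fun j => ?_) (fun j => ?_) ((hs.add hs1).mul_left K)
    · split_ifs
      · exact le_rfl
      · have := hw0 (j + 1)
        have h3 := hR.phi_pos (Y (j + 1))
        positivity
    · have hjj : (0 : ℝ) ≤ ((j : ℝ) + 1) ^ (-(1 / 4) : ℝ) := by positivity
      have hjj1 : (0 : ℝ) ≤ (((j + 1 : ℕ) : ℝ) + 1) ^ (-(1 / 4) : ℝ) := by positivity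
      have hA : 0 ≤ (if Nat.log 2 (j + 1) = Nat.log 2 (j + 2) then (0 : ℝ) else
          ((j : ℝ) + 1) ^ (-(1 / 4) : ℝ)) := by
        split_ifs
        · exact le_rfl
        · exact hjj
      have hB : 0 ≤ (if Nat.log 2 (j + 1 + 1) = Nat.log 2 (j + 1 + 2) then (0 : ℝ) else
          (((j + 1 : ℕ) : ℝ) + 1) ^ (-(1 / 4) : ℝ)) := by
        split_ifs
        · exact le_rfl
        · exact hjj1
      by_cases hirr : χ (j + 1) = 1 ∧ χ (j + 1 + 1) = 1
      · rw [if_pos hirr]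
        positivity
      · rw [if_neg hirr]
        refine (hK (j + 1)).trans ?_
        apply mul_le_mul_of_nonneg_left _ hK0
        rw [not_and_or] at hirr
        rcases hirr with h | h
        · have h1 : κ j ≠ κ (j + 1) := by
            intro h2
            apply h
            rw [hχs, if_pos h2]
          have h2 := hreg j h1
          rw [if_neg h2]
          have h3 : (((j + 1 : ℕ) : ℝ) + 1) ^ (-(1 / 4) : ℝ) ≤ ((j : ℝ) + 1) ^ (-(1 / 4) : ℝ) := by
            apply Real.rpow_le_rpow_of_nonpos (by positivity) _ (by norm_num)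
            push_cast
            linarith
          linarith
        · have h1 : κ (j + 1) ≠ κ (j + 1 + 1) := by
            intro h2
            apply h
            rw [hχs, if_pos h2]
          have h2 := hreg (j + 1) h1
          rw [if_neg h2]
          linarith
  set P : Pat f x₀ :=
    { m := fun j => S.m (κ j)
      Γ := fun j => S.Γ (κ j)
      q := fun j => Q (κ j)
      w := w
      Y := Y
      χ := χ
      m1 := fun j => S.m1 _
      Γ0 := fun j => S.Γ0 _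
      Γmono := fun j => S.Γmono _
      Γper := fun j => S.Γper _
      q1 := fun j => by have := (hQ (κ j)).1; omega
      w0 := hw0
      Y0 := rfl
      Ys := fun j => rfl
      χ01 := fun j => by
        cases j with
        | zero => left; rfl
        | succ j =>
          rw [hχs]
          split_ifs
          · right; rfl
          · left; rfl
      reg := fun j h => by
        rw [hχs] at h
        have h1 : κ j = κ (j + 1) := by
          by_contra h2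
          rw [if_neg h2] at h
          norm_num at h
        refine ⟨by rw [h1], by rw [h1], ?_⟩
        rw [hw]
        simp only
        rw [if_pos h1]
      hB := hB
      hD := hD
      hE := hE } with hP
  refine ⟨P, κ, hκmono, hκtend, fun j => rfl, fun j => rfl, fun j => (hQ (κ j)).1,
    fun j l => (hQ (κ j)).2 l, fun j => rfl, hgrow, ?_, ?_⟩
  · intro σ hσ
    obtain ⟨C, hC0, hC⟩ := hngrow (1 / 2) (by norm_num)
    have hEs := P.hE σ hσ
    refine ⟨∑' j, P.EE σ j + 6 * C, ?_, fun j => ?_⟩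
    · have : 0 ≤ ∑' j, P.EE σ j := tsum_nonneg fun j => P.EE_nonneg hR σ j
      positivity
    · have h1 := P.S_le hR (by linarith : 0 ≤ σ) j
      have h2 : ∑ i ∈ Finset.range (j + 1), P.EE σ i ≤ ∑' i, P.EE σ i :=
        hEs.sum_le_tsum _ fun i _ => P.EE_nonneg hR σ i
      have ha := hφ j
      have hi := hj1 j
      have hpw : ((j : ℝ) + 1) ^ (1 / 2 : ℝ) ≤ phi f x₀ (Y j) ^ σ :=
        calc ((j : ℝ) + 1) ^ (1 / 2 : ℝ) ≤ phi f x₀ (Y j) ^ (1 / 2 : ℝ) :=
              Real.rpow_le_rpow (by linarith) ha (by norm_num)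
          _ ≤ phi f x₀ (Y j) ^ σ :=
              Real.rpow_le_rpow_of_exponent_le (by linarith) hσ.le
      have h3 : ((((j + 1 : ℕ) : ℝ)) + 1) ^ (1 / 2 : ℝ) ≤ 2 * ((j : ℝ) + 1) ^ (1 / 2 : ℝ) := by
        calc (((j + 1 : ℕ) : ℝ) + 1) ^ (1 / 2 : ℝ) ≤ (2 * ((j : ℝ) + 1)) ^ (1 / 2 : ℝ) := by
              apply Real.rpow_le_rpow (by positivity) _ (by norm_num)
              push_cast
              linarith
          _ = 2 ^ (1 / 2 : ℝ) * ((j : ℝ) + 1) ^ (1 / 2 : ℝ) :=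
              Real.mul_rpow (by norm_num) (by positivity)
          _ ≤ 2 * ((j : ℝ) + 1) ^ (1 / 2 : ℝ) := by
              apply mul_le_mul_of_nonneg_right _ (by positivity)
              calc (2 : ℝ) ^ (1 / 2 : ℝ) ≤ 2 ^ (1 : ℝ) :=
                    Real.rpow_le_rpow_of_exponent_le (by norm_num) (by norm_num)
                _ = 2 := Real.rpow_one 2
      have h4 : (P.n j : ℝ) ≤ C * phi f x₀ (P.Y j) ^ σ :=
        (hC j).trans (mul_le_mul_of_nonneg_left hpw hC0)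
      have h5 : (P.n (j + 1) : ℝ) ≤ 2 * C * phi f x₀ (P.Y j) ^ σ := by
        have h6 := hC (j + 1)
        have h7 := mul_le_mul_of_nonneg_left h3 hC0
        have h8 := mul_le_mul_of_nonneg_left hpw hC0
        change (n (j + 1) : ℝ) ≤ 2 * C * phi f x₀ (Y j) ^ σ
        linarith
      have h6 : phi f x₀ (P.Y j) ^ σ * ∑ i ∈ Finset.range (j + 1), P.EE σ i ≤
          phi f x₀ (P.Y j) ^ σ * ∑' i, P.EE σ i :=
        mul_le_mul_of_nonneg_left h2 (Real.rpow_nonneg (hR.phi_pos _).le _)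
      linarith
  · have hq : Tendsto (fun j => (2 + (N 0 : ℝ)) / ((κ j : ℝ) + 2)) atTop (𝓝 0) := by
      apply Tendsto.div_atTop tendsto_const_nhds
      exact tendsto_atTop_add_const_right _ _ (tendsto_natCast_atTop_atTop.comp hκtend)
    apply squeeze_zero _ _ hq
    · intro j
      have := hR.hlog _ (hR.phi_ge (P.Y j))
      positivity
    · intro j
      have hl := hR.hlog _ (hR.phi_ge (Y j))
      have h1 := hsmall j
      have h2 := natlog_le j
      have h3 : Real.log ((j : ℝ) + 1) ≤ Real.log (phi f x₀ (Y j)) :=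
        Real.log_le_log (by linarith [hj1 j]) (hφ j)
      have h4 := log_two_ge
      have h5 : (0 : ℝ) ≤ Nat.log 2 (j + 1) := Nat.cast_nonneg _
      have h6 := S.c0 (κ j)
      have h7 : ((κ j : ℝ) + 2) ≤ Q (κ j) := by exact_mod_cast (hQ (κ j)).1
      have h8 : (n j : ℝ) = S.m (κ j) * Q (κ j) := by rw [hn]; push_cast; rfl
      have h9 : (0 : ℝ) ≤ S.m (κ j) := Nat.cast_nonneg _
      have hN0 : (0 : ℝ) ≤ N 0 := Nat.cast_nonneg _
      change (S.m (κ j) : ℝ) / Real.log (phi f x₀ (Y j)) ≤ _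
      rw [div_le_div_iff₀ (by linarith) (by positivity)]
      have h10 : (Nat.log 2 (j + 1) : ℝ) ≤ 2 * Real.log (phi f x₀ (Y j)) := by nlinarith
      have h11 : (S.m (κ j) : ℝ) * ((κ j : ℝ) + 2) ≤ S.m (κ j) * Q (κ j) :=
        mul_le_mul_of_nonneg_left h7 h9
      nlinarith

end Pool.Agent.H521.G
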