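import Pool.Agent.H521.Engine2

open MeasureTheory Set Filter Topology
open scoped ENNReal NNReal

namespace Pool.Agent.H521.G

/-- One step of the method of conditional expectations. -/
theorem step_lintegral {Ω T : Type*} [MeasurableSpace Ω] [MeasurableSpace T] (ν : Measure T)
    [SFinite ν] (μ : Measure Ω) [IsProbabilityMeasure μ] (A : Set Ω) (hA : μ Aᶜ = 0)
    (Y : Ω → T → ℝ≥0∞) (hY : Measurable (Function.uncurry Y))
    (hle : ∀ ω, ∫⁻ u, Y u ω ∂μ ≤ 1) (g : T → ℝ≥0∞) (hg : Measurable g) :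
    ∃ u ∈ A, ∫⁻ ω, g ω * Y u ω ∂ν ≤ ∫⁻ ω, g ω ∂ν := by
  have hm : Measurable (Function.uncurry fun (u : Ω) (ω : T) => g ω * Y u ω) :=
    (hg.comp measurable_snd).mul hY
  have h1 : ∫⁻ u, ∫⁻ ω, g ω * Y u ω ∂ν ∂μ ≤ ∫⁻ ω, g ω ∂ν := by
    rw [lintegral_lintegral_swap hm.aemeasurable]
    apply lintegral_mono
    intro ω
    have : ∫⁻ u, g ω * Y u ω ∂μ = g ω * ∫⁻ u, Y u ω ∂μ :=
      lintegral_const_mul _ (hY.comp (measurable_id.prodMk measurable_const))
    simp only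
    rw [this]
    exact (mul_le_mul_right (hle ω) _).trans (by simp)
  obtain ⟨u, hu, hle'⟩ := exists_notMem_null_le_lintegral
    (μ := μ) (f := fun u => ∫⁻ ω, g ω * Y u ω ∂ν) (N := Aᶜ)
    (hm.lintegral_prod_right').aemeasurable hA
  exact ⟨u, by simpa using hu, hle'.trans h1⟩

/-- the history before step `j` -/
def hist {Ω : Type*} [Inhabited Ω] (u : ℕ → Ω) (j : ℕ) : ℕ → Ω := fun i =>
  if i < j then u i else default

theorem hist_apply {Ω : Type*} [Inhabited Ω] (u : ℕ → Ω) {i j : ℕ} (h : i < j) :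
    hist u j i = u i := by simp [hist, h]

/-- The method of conditional expectations along a sequence, adapted to the history. -/
theorem exists_seq_lintegral_le {Ω T : Type*} [Inhabited Ω] [MeasurableSpace Ω]
    [MeasurableSpace T] (ν : Measure T) [SFinite ν]
    (μ : ℕ → (ℕ → Ω) → Measure Ω) (hprob : ∀ j h, IsProbabilityMeasure (μ j h))
    (A : ℕ → (ℕ → Ω) → Set Ω) (hA : ∀ j h, μ j h (A j h)ᶜ = 0)
    (Y : ℕ → (ℕ → Ω) → Ω → T → ℝ≥0∞) (hY : ∀ j h, Measurable (Function.uncurry (Y j h)))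
    (hle : ∀ j h ω, ∫⁻ u, Y j h u ω ∂(μ j h) ≤ 1) :
    ∃ u : ℕ → Ω, (∀ j, u j ∈ A j (hist u j)) ∧
      ∀ J, ∫⁻ ω, ∏ j ∈ Finset.range J, Y j (hist u j) (u j) ω ∂ν ≤ ν univ := by
  classical
  choose! U hU1 hU2 using fun (j : ℕ) (h : ℕ → Ω) (g : T → ℝ≥0∞) (hg : Measurable g) =>
    haveI := hprob j h
    step_lintegral ν (μ j h) (A j h) (hA j h) (Y j h) (hY j h) (hle j h) g hg
  -- state: the history (as a function) and the current product
  let st : ℕ → (ℕ → Ω) × (T → ℝ≥0∞) := fun n => Nat.rec (fun _ => default, fun _ => 1)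
    (fun j s => (fun i => if i = j then U j s.1 s.2 else s.1 i,
      fun ω => s.2 ω * Y j s.1 (U j s.1 s.2) ω)) n
  set H : ℕ → ℕ → Ω := fun n => (st n).1 with hH
  set G : ℕ → T → ℝ≥0∞ := fun n => (st n).2 with hG
  have hH0 : H 0 = fun _ => default := rfl
  have hG0 : G 0 = fun _ => 1 := rfl
  have hHs : ∀ n, H (n + 1) = fun i => if i = n then U n (H n) (G n) else H n i := fun n => rfl
  have hGs : ∀ n, G (n + 1) = fun ω => G n ω * Y n (H n) (U n (H n) (G n)) ω := fun n => rfl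
  set u : ℕ → Ω := fun n => U n (H n) (G n) with hu
  have hHist : ∀ n, H n = hist u n := by
    intro n
    induction n with
    | zero => rw [hH0]; ext i; simp [hist]
    | succ n ih =>
      rw [hHs]
      ext i
      simp only [hist]
      by_cases h1 : i = n
      · subst h1
        simp [hu]
      · rw [if_neg h1, ih]
        simp only [hist]
        by_cases h2 : i < n
        · rw [if_pos h2, if_pos (by omega)]
        · rw [if_neg h2, if_neg (by omega)]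
  have hGm : ∀ n, Measurable (G n) := by
    intro n
    induction n with
    | zero => rw [hG0]; exact measurable_const
    | succ n ih =>
      rw [hGs]
      exact ih.mul ((hY n (H n)).comp (measurable_const.prodMk measurable_id))
  have hGle : ∀ n, ∫⁻ ω, G n ω ∂ν ≤ ν univ := by
    intro n
    induction n with
    | zero => rw [hG0]; simp
    | succ n ih =>
      rw [hGs]
      exact (hU2 n (H n) (G n) (hGm n)).trans ih
  have hGp : ∀ J ω, G J ω = ∏ j ∈ Finset.range J, Y j (hist u j) (u j) ω := by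
    intro J ω
    induction J with
    | zero => simp [hG0]
    | succ J ih => rw [Finset.prod_range_succ, ← ih, hGs, ← hHist J]
  refine ⟨u, fun j => ?_, fun J => ?_⟩
  · rw [← hHist j]
    exact hU1 j (H j) (G j) (hGm j)
  · simp_rw [← hGp]
    exact hGle J

/-- Hoeffding's lemma in the form needed. -/
theorem hoeffding {Ω : Type*} [MeasurableSpace Ω] {μ : Measure Ω} [IsProbabilityMeasure μ]
    {A : Set Ω} (hA : μ Aᶜ = 0) {X : Ω → ℂ} (hX : Measurable X) {B : ℝ}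
    (hB : ∀ ω ∈ A, ‖X ω‖ ≤ B) (hc : ∫ ω, X ω ∂μ = 0) (K : ℝ) :
    ∫⁻ ω, ENNReal.ofReal (Real.exp (K * (X ω).re - K ^ 2 * B ^ 2 / 2)) ∂μ ≤ 1 := by
  have hae : ∀ᵐ ω ∂μ, ω ∈ A := by rw [ae_iff]; exact hA
  have hmeas : Measurable fun ω => (X ω).re := Complex.measurable_re.comp hX
  have hbd : ∀ᵐ ω ∂μ, (X ω).re ∈ Icc (-B) B := by
    filter_upwards [hae] with ω hω
    exact abs_le.1 ((Complex.abs_re_le_norm _).trans (hB ω hω))
  have hXi : Integrable X μ := Integrable.of_bound hX.aestronglyMeasurable B (by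
    filter_upwards [hae] with ω hω using hB ω hω)
  have hc' : ∫ ω, (X ω).re ∂μ = 0 := by
    have h1 := integral_re (𝕜 := ℂ) hXi
    rw [hc] at h1
    simpa using h1
  have hsub := ProbabilityTheory.hasSubgaussianMGF_of_mem_Icc_of_integral_eq_zero
    hmeas.aemeasurable hbd hc'
  have hmgf := hsub.mgf_le K
  have hexp := hsub.integrable_exp_mul K
  rw [← ofReal_integral_eq_lintegral_ofReal]
  · have : ∫ ω, Real.exp (K * (X ω).re - K ^ 2 * B ^ 2 / 2) ∂μ =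
        ProbabilityTheory.mgf (fun ω => (X ω).re) μ K * Real.exp (-(K ^ 2 * B ^ 2 / 2)) := by
      rw [ProbabilityTheory.mgf, ← integral_mul_const]
      congr 1
      ext u
      rw [← Real.exp_add]
      ring_nf
    rw [this, ENNReal.ofReal_le_one]
    calc _ ≤ Real.exp (((‖B - -B‖₊ / 2) ^ 2 : ℝ≥0) * K ^ 2 / 2) *
          Real.exp (-(K ^ 2 * B ^ 2 / 2)) := by
            apply mul_le_mul_of_nonneg_right hmgf (Real.exp_nonneg _)
      _ = 1 := by
            rw [← Real.exp_add]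
            have : ((((‖B - -B‖₊ / 2) ^ 2 : ℝ≥0)) : ℝ) = B ^ 2 := by
              push_cast
              rw [Real.norm_eq_abs, div_pow, sq_abs]
              ring
            rw [this]
            simp [mul_comm]
  · have : (fun ω => Real.exp (K * (X ω).re - K ^ 2 * B ^ 2 / 2)) = fun ω =>
        Real.exp (K * (X ω).re) * Real.exp (-(K ^ 2 * B ^ 2 / 2)) := by
      ext u
      rw [← Real.exp_add]
      ring_nf
    rw [this]
    exact hexp.mul_const _
  · exact Eventually.of_forall fun u => (Real.exp_pos _).le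

/-- The data of an adapted family of centred kernels. -/
structure Kernels (Ω : Type*) [Inhabited Ω] [MeasurableSpace Ω] where
  /-- laws -/
  μ : ℕ → (ℕ → Ω) → Measure Ω
  /-- allowed sets -/
  A : ℕ → (ℕ → Ω) → Set Ω
  /-- kernels -/
  X : ℕ → (ℕ → Ω) → Ω → ℂ → ℂ
  /-- uniform bounds -/
  B : ℕ → ℝ → ℝ
  /-- bounds for convergence -/
  D : ℕ → ℝ → ℝ
  prob : ∀ j h, IsProbabilityMeasure (μ j h)
  full : ∀ j h, μ j h (A j h)ᶜ = 0
  meas : ∀ j h, Measurable (Function.uncurry (X j h))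
  cent : ∀ j h (s : ℂ), 1 / 2 < s.re → ∫ ω, X j h ω s ∂(μ j h) = 0
  diff : ∀ j h, ∀ ω ∈ A j h, DifferentiableOn ℂ (X j h ω) {s : ℂ | 1 / 2 < s.re}
  B0 : ∀ j σ, 1 / 2 < σ → 0 ≤ B j σ
  Bmeas : ∀ j, Measurable (B j)
  Bmono : ∀ j σ τ, 1 / 2 < σ → σ ≤ τ → B j τ ≤ B j σ
  Ble : ∀ j h, ∀ ω ∈ A j h, ∀ s : ℂ, 1 / 2 < s.re → ‖X j h ω s‖ ≤ B j s.re
  Bsum : ∀ σ : ℝ, 1 / 2 < σ → Summable fun j => B j σ ^ 2
  Dle : ∀ j h, ∀ ω ∈ A j h, ∀ (σ : ℝ) (s : ℂ), 1 / 2 < σ → σ ≤ s.re → ‖X j h ω s‖ ≤ ‖s‖ * D j σ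
  Dsum : ∀ σ : ℝ, 1 / 2 < σ → Summable (fun j => D j σ)

namespace Kernels

variable {Ω : Type*} [Inhabited Ω] [MeasurableSpace Ω] (𝒦 : Kernels Ω)

/-- The test functions. -/
noncomputable def Y (j : ℕ) (h : ℕ → Ω) (ω : Ω) (q : ℂ × ℝ) : ℝ≥0∞ :=
  if 1 / 2 < q.1.re then
    ENNReal.ofReal (Real.exp (q.2 * (𝒦.X j h ω q.1).re - q.2 ^ 2 * (𝒦.B j q.1.re) ^ 2 / 2)) else 1


theorem measurable_Y (j : ℕ) (h : ℕ → Ω) : Measurable (Function.uncurry (𝒦.Y j h)) := by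
  have hX := 𝒦.meas j h
  unfold Y Function.uncurry
  have h2 : Measurable fun q : Ω × (ℂ × ℝ) => q.2.1.re :=
    Complex.measurable_re.comp (measurable_fst.comp measurable_snd)
  have h6 : Measurable fun q : Ω × (ℂ × ℝ) => q.2.2 := measurable_snd.comp measurable_snd
  have h1 : Measurable fun q : Ω × (ℂ × ℝ) => 𝒦.X j h q.1 q.2.1 :=
    hX.comp (measurable_fst.prodMk (measurable_fst.comp measurable_snd))
  have h3 : Measurable fun q : Ω × (ℂ × ℝ) => (𝒦.X j h q.1 q.2.1).re :=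
    Complex.measurable_re.comp h1
  have h4 : Measurable fun q : Ω × (ℂ × ℝ) => 𝒦.B j q.2.1.re := (𝒦.Bmeas j).comp h2
  apply Measurable.ite
  · exact measurableSet_lt measurable_const h2
  · apply Measurable.ennreal_ofReal
    apply Measurable.exp
    exact (h6.mul h3).sub (((h6.pow_const 2).mul (h4.pow_const 2)).div_const 2)
  · exact measurable_const

theorem lintegral_Y_le (j : ℕ) (h : ℕ → Ω) (q : ℂ × ℝ) : ∫⁻ u, 𝒦.Y j h u q ∂(𝒦.μ j h) ≤ 1 := by
  have := 𝒦.prob j h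
  unfold Y
  by_cases hq : 1 / 2 < q.1.re
  · simp only [hq, if_true]
    apply hoeffding (𝒦.full j h) _ (fun ω hω => 𝒦.Ble j h ω hω q.1 hq) (𝒦.cent j h q.1 hq)
    exact (𝒦.meas j h).comp (measurable_id.prodMk measurable_const)
  · simp only [hq, if_false]
    simp

theorem exists_u : ∃ u : ℕ → Ω, (∀ j, u j ∈ 𝒦.A j (hist u j)) ∧
    ∀ J, ∫⁻ q, ∏ j ∈ Finset.range J, 𝒦.Y j (hist u j) (u j) q ∂nuM ≤ nuM univ :=
  exists_seq_lintegral_le nuM 𝒦.μ 𝒦.prob 𝒦.A 𝒦.full 𝒦.Y 𝒦.measurable_Y 𝒦.lintegral_Y_le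

variable {u : ℕ → Ω}

theorem summable_X (hu : ∀ j, u j ∈ 𝒦.A j (hist u j)) {s : ℂ} (hs : 1 / 2 < s.re) :
    Summable fun j => 𝒦.X j (hist u j) (u j) s := by
  refine Summable.of_norm_bounded (g := fun j => ‖s‖ * 𝒦.D j s.re) ((𝒦.Dsum _ hs).mul_left _)
    fun j => 𝒦.Dle j _ _ (hu j) _ s hs le_rfl

theorem differentiableOn_X (hu : ∀ j, u j ∈ 𝒦.A j (hist u j)) :
    DifferentiableOn ℂ (fun s => ∑' j, 𝒦.X j (hist u j) (u j) s) {s : ℂ | 1 / 2 < s.re} := by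
  intro s₀ hs₀
  simp only [mem_ofPred_eq] at hs₀
  set σ₀ : ℝ := (1 / 2 + s₀.re) / 2 with hσ₀
  have h1 : 1 / 2 < σ₀ := by rw [hσ₀]; linarith
  have h2 : σ₀ < s₀.re := by rw [hσ₀]; linarith
  set U : Set ℂ := {s : ℂ | σ₀ < s.re} ∩ Metric.ball 0 (‖s₀‖ + 1) with hU
  have hUo : IsOpen U := (isOpen_lt continuous_const Complex.continuous_re).inter
    Metric.isOpen_ball
  have hmem : s₀ ∈ U := ⟨h2, by simp⟩
  have hD0 : ∀ j, 0 ≤ 𝒦.D j σ₀ := by
    intro j
    have h3 := 𝒦.Dle j _ _ (hu j) σ₀ s₀ h1 h2.le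
    have h4 : 0 < ‖s₀‖ := by
      rw [norm_pos_iff]
      rintro rfl
      simp at hs₀
      linarith
    by_contra hc
    push Not at hc
    have := norm_nonneg (𝒦.X j (hist u j) (u j) s₀)
    nlinarith
  have hd : DifferentiableOn ℂ (fun s => ∑' j, 𝒦.X j (hist u j) (u j) s) U := by
    refine Complex.differentiableOn_tsum_of_summable_norm
      (u := fun j => (‖s₀‖ + 1) * 𝒦.D j σ₀)
      ((𝒦.Dsum _ h1).mul_left _) (fun j => ?_) hUo (fun j s hs => ?_)
    · exact (𝒦.diff j _ _ (hu j)).mono fun s hs => lt_trans h1 hs.1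
    · have hs1 : σ₀ < s.re := hs.1
      have hs2 : ‖s‖ < ‖s₀‖ + 1 := by simpa using hs.2
      have h3 := 𝒦.Dle j _ _ (hu j) σ₀ s h1 hs1.le
      calc _ ≤ _ := h3
        _ ≤ (‖s₀‖ + 1) * 𝒦.D j σ₀ := mul_le_mul_of_nonneg_right hs2.le (hD0 j)
  exact (hd.differentiableAt (hUo.mem_nhds hmem)).differentiableWithinAt

/-- lower bound for the product of the test functions. -/
theorem prod_Y_ge {δ : ℝ} (hδ : 0 < δ) {s : ℂ} (hs : 1 / 2 + δ ≤ s.re) (K : ℝ) (J : ℕ) :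
    ENNReal.ofReal (Real.exp (K * (∑ j ∈ Finset.range J, 𝒦.X j (hist u j) (u j) s).re)) ≤
      ENNReal.ofReal (Real.exp (K ^ 2 * (∑' j, 𝒦.B j (1 / 2 + δ) ^ 2) / 2)) *
      ∏ j ∈ Finset.range J, 𝒦.Y j (hist u j) (u j) (s, K) := by
  have hs' : 1 / 2 < s.re := by linarith
  unfold Y
  simp only [hs', if_true]
  rw [← ENNReal.ofReal_prod_of_nonneg (fun j _ => (Real.exp_pos _).le), ← Real.exp_sum,
    ← ENNReal.ofReal_mul (Real.exp_pos _).le, ← Real.exp_add]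
  apply ENNReal.ofReal_le_ofReal
  apply Real.exp_le_exp.2
  rw [Finset.sum_sub_distrib, ← Finset.mul_sum, ← Complex.re_sum]
  have h2 : ∑ j ∈ Finset.range J, 𝒦.B j s.re ^ 2 ≤ ∑' j, 𝒦.B j (1 / 2 + δ) ^ 2 := by
    refine le_trans ?_ ((𝒦.Bsum (1 / 2 + δ) (by linarith)).sum_le_tsum (Finset.range J)
      (fun j _ => sq_nonneg _))
    apply Finset.sum_le_sum
    intro j _
    exact pow_le_pow_left₀ (𝒦.B0 j _ hs') (𝒦.Bmono j _ _ (by linarith) hs) 2
  have h3 : ∑ j ∈ Finset.range J, K ^ 2 * 𝒦.B j s.re ^ 2 / 2 =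
      K ^ 2 * (∑ j ∈ Finset.range J, 𝒦.B j s.re ^ 2) / 2 := by
    rw [Finset.mul_sum, Finset.sum_div]
  rw [h3]
  have := mul_le_mul_of_nonneg_left h2 (sq_nonneg K)
  linarith

/-- Fatou on a circle. -/
theorem circle_lintegral_le (hu : ∀ j, u j ∈ 𝒦.A j (hist u j))
    (hint : ∀ J, ∫⁻ q, ∏ j ∈ Finset.range J, 𝒦.Y j (hist u j) (u j) q ∂nuM ≤ nuM univ)
    {δ : ℝ} (hδ : 0 < δ) (i : ℤ × ℤ × ℤ)
    (hi : ∀ θ : ℝ, 1 / 2 + δ ≤ (circleMap (cen i) (rad i) θ).re) :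
    ENNReal.ofReal (wt i) * ∫⁻ θ in Ioc 0 (2 * Real.pi), ENNReal.ofReal (Real.exp ((i.1 : ℝ) *
      (∑' j, 𝒦.X j (hist u j) (u j) (circleMap (cen i) (rad i) θ)).re)) ≤
      ENNReal.ofReal (Real.exp ((i.1 : ℝ) ^ 2 * (∑' j, 𝒦.B j (1 / 2 + δ) ^ 2) / 2)) *
        nuM univ := by
  set C := ENNReal.ofReal (Real.exp ((i.1 : ℝ) ^ 2 * (∑' j, 𝒦.B j (1 / 2 + δ) ^ 2) / 2))
    with hC
  have hJ : ∀ J : ℕ, ENNReal.ofReal (wt i) * ∫⁻ θ in Ioc 0 (2 * Real.pi),
      ENNReal.ofReal (Real.exp ((i.1 : ℝ) *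
        (∑ j ∈ Finset.range J, 𝒦.X j (hist u j) (u j) (circleMap (cen i) (rad i) θ)).re)) ≤
      C * nuM univ := by
    intro J
    have hm : Measurable fun q : ℂ × ℝ =>
        ∏ j ∈ Finset.range J, 𝒦.Y j (hist u j) (u j) q := by
      apply Finset.measurable_fun_prod
      intro j _
      exact (𝒦.measurable_Y j (hist u j)).comp (measurable_const.prodMk measurable_id)
    have h1 := lintegral_nuM_ge i _ hm
    have h2 : ∫⁻ θ in Ioc 0 (2 * Real.pi), ENNReal.ofReal (Real.exp ((i.1 : ℝ) *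
        (∑ j ∈ Finset.range J, 𝒦.X j (hist u j) (u j) (circleMap (cen i) (rad i) θ)).re)) ≤
        C * ∫⁻ θ in Ioc 0 (2 * Real.pi), ∏ j ∈ Finset.range J,
          𝒦.Y j (hist u j) (u j) (circleMap (cen i) (rad i) θ, (i.1 : ℝ)) := by
      have h3 : Measurable fun θ : ℝ => ∏ j ∈ Finset.range J,
          𝒦.Y j (hist u j) (u j) (circleMap (cen i) (rad i) θ, (i.1 : ℝ)) :=
        hm.comp (measurable_param i)
      rw [← lintegral_const_mul _ h3]
      apply lintegral_mono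
      intro θ
      exact 𝒦.prod_Y_ge hδ (hi θ) _ J
    calc _ ≤ ENNReal.ofReal (wt i) * (C * ∫⁻ θ in Ioc 0 (2 * Real.pi), ∏ j ∈ Finset.range J,
          𝒦.Y j (hist u j) (u j) (circleMap (cen i) (rad i) θ, (i.1 : ℝ))) :=
          mul_le_mul_right h2 _
      _ = C * (ENNReal.ofReal (wt i) * ∫⁻ θ in Ioc 0 (2 * Real.pi), ∏ j ∈ Finset.range J,
          𝒦.Y j (hist u j) (u j) (circleMap (cen i) (rad i) θ, (i.1 : ℝ))) := by ring
      _ ≤ C * nuM univ := mul_le_mul_right (h1.trans (hint J)) _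
  have hfat : ∫⁻ θ in Ioc 0 (2 * Real.pi), ENNReal.ofReal (Real.exp ((i.1 : ℝ) *
      (∑' j, 𝒦.X j (hist u j) (u j) (circleMap (cen i) (rad i) θ)).re)) ≤
      liminf (fun J : ℕ => ∫⁻ θ in Ioc 0 (2 * Real.pi), ENNReal.ofReal (Real.exp ((i.1 : ℝ) *
        (∑ j ∈ Finset.range J, 𝒦.X j (hist u j) (u j)
          (circleMap (cen i) (rad i) θ)).re))) atTop := by
    have hlim : ∀ θ : ℝ, ENNReal.ofReal (Real.exp ((i.1 : ℝ) *
      (∑' j, 𝒦.X j (hist u j) (u j) (circleMap (cen i) (rad i) θ)).re)) =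
      liminf (fun J : ℕ => ENNReal.ofReal (Real.exp ((i.1 : ℝ) *
        (∑ j ∈ Finset.range J, 𝒦.X j (hist u j) (u j)
          (circleMap (cen i) (rad i) θ)).re))) atTop := by
      intro θ
      symm
      apply Tendsto.liminf_eq
      apply ENNReal.tendsto_ofReal
      apply (Real.continuous_exp.tendsto _).comp
      apply Tendsto.const_mul
      apply (Complex.continuous_re.tendsto _).comp
      exact (𝒦.summable_X hu (by linarith [hi θ])).hasSum.tendsto_sum_nat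
    simp_rw [hlim]
    apply lintegral_liminf_le
    intro J
    apply Measurable.ennreal_ofReal
    apply Measurable.exp
    apply Measurable.const_mul
    apply Complex.measurable_re.comp
    apply Finset.measurable_fun_sum
    intro j _
    have h1 : Measurable fun s : ℂ => 𝒦.X j (hist u j) (u j) s :=
      (𝒦.meas j (hist u j)).comp (measurable_const.prodMk measurable_id)
    exact h1.comp (continuous_circleMap _ _).measurable
  rcases eq_or_ne (ENNReal.ofReal (wt i)) 0 with h0 | h0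
  · rw [h0]; simp
  calc _ ≤ ENNReal.ofReal (wt i) * liminf (fun J : ℕ => ∫⁻ θ in Ioc 0 (2 * Real.pi),
      ENNReal.ofReal (Real.exp ((i.1 : ℝ) *
        (∑ j ∈ Finset.range J, 𝒦.X j (hist u j) (u j)
          (circleMap (cen i) (rad i) θ)).re))) atTop :=
        mul_le_mul_right hfat _
    _ ≤ ENNReal.ofReal (wt i) * (C * nuM univ / ENNReal.ofReal (wt i)) := by
        apply mul_le_mul_right
        apply liminf_le_of_le (by isBoundedDefault)
        intro y hy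
        obtain ⟨J, hJ'⟩ := hy.exists
        refine hJ'.trans ?_
        rw [ENNReal.le_div_iff_mul_le (Or.inl h0) (Or.inl ENNReal.ofReal_ne_top), mul_comm]
        exact hJ J
    _ ≤ C * nuM univ := ENNReal.mul_div_le

theorem exp_bound (hu : ∀ j, u j ∈ 𝒦.A j (hist u j))
    (hint : ∀ J, ∫⁻ q, ∏ j ∈ Finset.range J, 𝒦.Y j (hist u j) (u j) q ∂nuM ≤ nuM univ)
    {ε : ℝ} (hε : 0 < ε) (k : ℤ) (hk : k ≠ 0) (hk' : 1 / |(k : ℝ)| ≤ ε) :
    ∃ C : ℝ, ∀ s : ℂ, 1 / 2 + ε ≤ s.re →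
      (k : ℝ) * (∑' j, 𝒦.X j (hist u j) (u j) s).re ≤ C + 4 * Real.log (2 + ‖s‖) := by
  set E : ℂ → ℂ := fun s => ∑' j, 𝒦.X j (hist u j) (u j) s with hE
  have hEd : DifferentiableOn ℂ E {s : ℂ | 1 / 2 < s.re} := 𝒦.differentiableOn_X hu
  have hk1 : 1 ≤ |(k : ℝ)| := by
    have : 1 ≤ |k| := Int.one_le_abs hk
    exact_mod_cast this
  have hk0 : 0 < |(k : ℝ)| := by linarith
  set B : ℝ≥0∞ := ENNReal.ofReal (Real.exp ((k : ℝ) ^ 2 *
    (∑' j, 𝒦.B j (1 / 2 + ε / 4) ^ 2) / 2)) * nuM univ with hB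
  have hBtop : B < ∞ := ENNReal.mul_lt_top ENNReal.ofReal_lt_top nuM_univ
  set B' : ℝ := B.toReal with hB'
  have hB'0 : 0 ≤ B' := ENNReal.toReal_nonneg
  set D : ℝ := (B' + 1) * ((1 + (k : ℝ) ^ 2) * ((4 * |(k : ℝ)|) ^ 2 * (4 * |(k : ℝ)|) ^ 2)) with hD
  have hD0 : 0 < D := by positivity
  refine ⟨Real.log D, fun s hs => ?_⟩
  set m : ℤ := round (4 * |(k : ℝ)| * s.re) with hm
  set n : ℤ := round (4 * |(k : ℝ)| * s.im) with hn
  set i : ℤ × ℤ × ℤ := (k, m, n) with hi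
  have hre : |s.re - (cen i).re| ≤ 1 / (8 * |(k : ℝ)|) := round_div_bound s.re hk0
  have him : |s.im - (cen i).im| ≤ 1 / (8 * |(k : ℝ)|) := round_div_bound s.im hk0
  have hrad : rad i = 1 / (2 * |(k : ℝ)|) := rfl
  have hrad0 : 0 < rad i := by rw [hrad]; positivity
  have hdist : ‖s - cen i‖ ≤ rad i / 2 := by
    have h1 := Complex.norm_le_abs_re_add_abs_im (s - cen i)
    simp only [Complex.sub_re, Complex.sub_im] at h1
    have h2 : rad i / 2 = 1 / (8 * |(k : ℝ)|) + 1 / (8 * |(k : ℝ)|) := by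
      rw [hrad]; field_simp; norm_num
    linarith
  have hball : ∀ z ∈ Metric.closedBall (cen i) (rad i), 1 / 2 + ε / 4 ≤ z.re := by
    intro z hz
    rw [Metric.mem_closedBall, dist_eq_norm] at hz
    have h1 := (Complex.abs_re_le_norm (z - cen i)).trans hz
    rw [Complex.sub_re] at h1
    have h2 := (abs_le.1 h1).1
    have h3 := (abs_le.1 hre).2
    have h4 : 1 / (8 * |(k : ℝ)|) ≤ ε / 8 := by
      have : 1 / (8 * |(k : ℝ)|) = (1 / |(k : ℝ)|) / 8 := by field_simp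
      rw [this]; linarith
    have h5 : rad i ≤ ε / 2 := by
      have : rad i = (1 / |(k : ℝ)|) / 2 := by rw [hrad]; field_simp
      rw [this]; linarith
    linarith
  have hcirc : ∀ θ : ℝ, 1 / 2 + ε / 4 ≤ (circleMap (cen i) (rad i) θ).re := fun θ =>
    hball _ (circleMap_mem_closedBall _ hrad0.le θ)
  have hsub : Metric.closedBall (cen i) (rad i) ⊆ {s : ℂ | 1 / 2 < s.re} := by
    intro z hz
    have := hball z hz
    simp only [mem_ofPred_eq]
    linarith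
  have hcl := 𝒦.circle_lintegral_le hu hint (by positivity : 0 < ε / 4) i hcirc
  have hwt := wt_pos i
  set f : ℂ → ℂ := fun z => Complex.exp ((k : ℂ) * E z) with hf
  have hfd : DiffContOnCl ℂ f (Metric.ball (cen i) (rad i)) := by
    apply DifferentiableOn.diffContOnCl
    rw [closure_ball _ hrad0.ne']
    exact ((hEd.mono hsub).const_mul _).cexp
  have hnf : ∀ z, ‖f z‖ = Real.exp ((k : ℝ) * (E z).re) := by
    intro z
    rw [hf]
    simp only
    rw [Complex.norm_exp]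
    congr 1
    rw [show (k : ℂ) = ((k : ℝ) : ℂ) by simp, Complex.re_ofReal_mul]
  have hfc : Continuous fun θ => ‖f (circleMap (cen i) (rad i) θ)‖ := by
    apply Continuous.norm
    have hco : ContinuousOn f (Metric.closedBall (cen i) (rad i)) := by
      have := hfd.continuousOn
      rwa [closure_ball _ hrad0.ne'] at this
    exact hco.comp_continuous (continuous_circleMap _ _)
      (fun θ => circleMap_mem_closedBall _ hrad0.le θ)
  have hint2 : ∫ θ in (0 : ℝ)..2 * Real.pi, ‖f (circleMap (cen i) (rad i) θ)‖ ≤ B' / wt i := by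
    have h2pi : (0 : ℝ) ≤ 2 * Real.pi := by positivity
    rw [intervalIntegral.integral_of_le h2pi]
    have h1 : ENNReal.ofReal (∫ θ in Ioc 0 (2 * Real.pi), ‖f (circleMap (cen i) (rad i) θ)‖) =
        ∫⁻ θ in Ioc 0 (2 * Real.pi), ENNReal.ofReal ‖f (circleMap (cen i) (rad i) θ)‖ := by
      apply ofReal_integral_eq_lintegral_ofReal
      · exact (hfc.integrableOn_Icc (a := 0) (b := 2 * Real.pi)).mono_set Ioc_subset_Icc_self
      · exact Eventually.of_forall fun θ => norm_nonneg _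
    simp_rw [hnf] at h1
    have h2 : ENNReal.ofReal (wt i * ∫ θ in Ioc 0 (2 * Real.pi),
        Real.exp ((k : ℝ) * (E (circleMap (cen i) (rad i) θ)).re)) ≤ B := by
      rw [ENNReal.ofReal_mul hwt.le, h1]
      exact hcl
    have h3 : wt i * ∫ θ in Ioc 0 (2 * Real.pi),
        Real.exp ((k : ℝ) * (E (circleMap (cen i) (rad i) θ)).re) ≤ B' :=
      (ENNReal.ofReal_le_iff_le_toReal hBtop.ne).1 h2
    simp_rw [hnf]
    rw [le_div_iff₀ hwt, mul_comm]
    exact h3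
  have hmain := norm_le_circle hrad0 hfd (w := s) hdist
  rw [hnf] at hmain
  have h6 : (1 / Real.pi) * ∫ θ in (0 : ℝ)..2 * Real.pi, ‖f (circleMap (cen i) (rad i) θ)‖ ≤
      (B' + 1) / wt i := by
    have hpi1 : 1 / Real.pi ≤ 1 := by
      rw [div_le_one Real.pi_pos]; linarith [Real.pi_gt_three]
    have h7 : 0 ≤ ∫ θ in (0 : ℝ)..2 * Real.pi, ‖f (circleMap (cen i) (rad i) θ)‖ :=
      intervalIntegral.integral_nonneg (by positivity) (fun θ _ => norm_nonneg _)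
    calc _ ≤ 1 * ∫ θ in (0 : ℝ)..2 * Real.pi, ‖f (circleMap (cen i) (rad i) θ)‖ :=
          mul_le_mul_of_nonneg_right hpi1 h7
      _ ≤ B' / wt i := by rw [one_mul]; exact hint2
      _ ≤ (B' + 1) / wt i := by
          apply div_le_div_of_nonneg_right _ hwt.le
          linarith
  have hwt' : (B' + 1) / wt i = (B' + 1) * ((1 + (k : ℝ) ^ 2) *
      ((1 + (m : ℝ) ^ 2) * (1 + (n : ℝ) ^ 2))) := by
    rw [wt, hi]
    field_simp
  have hm2 : 1 + (m : ℝ) ^ 2 ≤ (4 * |(k : ℝ)|) ^ 2 * (2 + ‖s‖) ^ 2 :=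
    one_add_round_sq_le hk1 (Complex.abs_re_le_norm s)
  have hn2 : 1 + (n : ℝ) ^ 2 ≤ (4 * |(k : ℝ)|) ^ 2 * (2 + ‖s‖) ^ 2 :=
    one_add_round_sq_le hk1 (Complex.abs_im_le_norm s)
  have hmn : (1 + (m : ℝ) ^ 2) * (1 + (n : ℝ) ^ 2) ≤
      ((4 * |(k : ℝ)|) ^ 2 * (2 + ‖s‖) ^ 2) * ((4 * |(k : ℝ)|) ^ 2 * (2 + ‖s‖) ^ 2) :=
    mul_le_mul hm2 hn2 (by positivity) (by positivity)
  have h8 : Real.exp ((k : ℝ) * (E s).re) ≤ D * (2 + ‖s‖) ^ 4 := by
    calc _ ≤ (B' + 1) / wt i := hmain.trans h6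
      _ = _ := hwt'
      _ ≤ (B' + 1) * ((1 + (k : ℝ) ^ 2) * (((4 * |(k : ℝ)|) ^ 2 * (2 + ‖s‖) ^ 2) *
          ((4 * |(k : ℝ)|) ^ 2 * (2 + ‖s‖) ^ 2))) := by
          apply mul_le_mul_of_nonneg_left _ (by positivity)
          apply mul_le_mul_of_nonneg_left hmn (by positivity)
      _ = _ := by rw [hD]; ring
  have h9 : (k : ℝ) * (E s).re ≤ Real.log (D * (2 + ‖s‖) ^ 4) := by
    rw [← Real.log_exp ((k : ℝ) * (E s).re)]
    exact Real.log_le_log (Real.exp_pos _) h8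
  rw [Real.log_mul hD0.ne' (by positivity), Real.log_pow] at h9
  simpa using h9

/-- **The adapted engine.** -/
theorem engine : ∃ u : ℕ → Ω, (∀ j, u j ∈ 𝒦.A j (hist u j)) ∧
      (∀ s : ℂ, 1 / 2 < s.re → Summable fun j => 𝒦.X j (hist u j) (u j) s) ∧
      DifferentiableOn ℂ (fun s => ∑' j, 𝒦.X j (hist u j) (u j) s) {s : ℂ | 1 / 2 < s.re} ∧
      ∀ ε : ℝ, 0 < ε → ∃ C : ℝ, ∀ s : ℂ, 1 / 2 + ε ≤ s.re →
        |(∑' j, 𝒦.X j (hist u j) (u j) s).re| ≤ C + ε * Real.log (2 + ‖s‖) := by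
  obtain ⟨u, hu, hint⟩ := 𝒦.exists_u
  refine ⟨u, hu, fun s hs => 𝒦.summable_X hu hs, 𝒦.differentiableOn_X hu, ?_⟩
  intro ε hε
  obtain ⟨k, hk⟩ := exists_nat_gt (4 / ε)
  have hk0 : (0 : ℝ) < k := lt_trans (by positivity) hk
  have hkne : (k : ℤ) ≠ 0 := by
    have : (k : ℝ) ≠ 0 := hk0.ne'
    exact_mod_cast this
  have hkε : 4 / (k : ℝ) ≤ ε := by
    rw [div_le_iff₀ hk0]
    rw [div_lt_iff₀ hε] at hk
    linarith
  have hkε' : 1 / (k : ℝ) ≤ ε := by
    refine le_trans ?_ hkε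
    apply div_le_div_of_nonneg_right _ hk0.le
    norm_num
  obtain ⟨C1, h1⟩ := 𝒦.exp_bound hu hint hε (k : ℤ) hkne (by
    simpa [abs_of_pos hk0] using hkε')
  obtain ⟨C2, h2⟩ := 𝒦.exp_bound hu hint hε (-(k : ℤ)) (by simpa using hkne) (by
    simpa [abs_of_pos hk0] using hkε')
  refine ⟨(|C1| + |C2|) / k, fun s hs => ?_⟩
  have h3 := h1 s hs
  have h4 := h2 s hs
  push_cast at h3 h4
  have hlog : 0 ≤ Real.log (2 + ‖s‖) := Real.log_nonneg (by linarith [norm_nonneg s])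
  have hb1 : |(k : ℝ) * (∑' j, 𝒦.X j (hist u j) (u j) s).re| ≤
      |C1| + |C2| + 4 * Real.log (2 + ‖s‖) := by
    rw [abs_le]
    constructor
    · have := le_abs_self C2
      have := abs_nonneg C1
      linarith
    · have := le_abs_self C1
      have := abs_nonneg C2
      linarith
  rw [abs_mul, abs_of_pos hk0] at hb1
  have hb2 : |(∑' j, 𝒦.X j (hist u j) (u j) s).re| ≤
      (|C1| + |C2| + 4 * Real.log (2 + ‖s‖)) / k := by
    rw [le_div_iff₀ hk0]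
    linarith
  refine hb2.trans ?_
  have : (|C1| + |C2| + 4 * Real.log (2 + ‖s‖)) / k =
      (|C1| + |C2|) / k + (4 / k) * Real.log (2 + ‖s‖) := by ring
  rw [this]
  have := mul_le_mul_of_nonneg_right hkε hlog
  linarith

end Kernels

end Pool.Agent.H521.G
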