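import Pool.Agent.H521.G.Tri
import Pool.Agent.H521.G.Cond

open MeasureTheory Set Filter Topology
open scoped ENNReal NNReal

namespace Pool.Agent.H521.G

theorem diff_int_cpow {Ω : Type*} [MeasurableSpace Ω] {ν : Measure Ω} [IsFiniteMeasure ν]
    {q : Ω → ℝ} (hq : Measurable q) {a b : ℝ} (ha : 1 ≤ a) (hab : ∀ ω, q ω ∈ Icc a b) :
    Differentiable ℂ fun s : ℂ => ∫ ω, (q ω : ℂ) ^ (-s) ∂ν := by
  have h1 : (ν.map q) (Icc a b)ᶜ = 0 := by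
    rw [Measure.map_apply hq measurableSet_Icc.compl]
    have : q ⁻¹' (Icc a b)ᶜ = ∅ := by
      ext ω
      simp only [mem_preimage, mem_compl_iff, mem_empty_iff_false, iff_false, not_not]
      exact hab ω
    rw [this]
    simp
  have h2 := differentiable_mean ha h1
  have h3 : (fun s : ℂ => ∫ v : ℝ, ((v : ℂ) ^ (-s)) ∂(ν.map q)) =
      fun s : ℂ => ∫ ω, (q ω : ℂ) ^ (-s) ∂ν := by
    ext s
    exact integral_map hq.aemeasurable (measurable_cpow_neg s).aestronglyMeasurable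
  rwa [h3] at h2

theorem norm_q_le {q a : ℝ} (ha : 1 ≤ a) (h : a ≤ q) {s : ℂ} (hs : 0 ≤ s.re) :
    ‖(q : ℂ) ^ (-s)‖ ≤ a ^ (-s.re) := by
  rw [norm_ofReal_cpow_neg (by linarith)]
  exact Real.rpow_le_rpow_of_nonpos (by linarith) h (by linarith)

/-- Data of a chain of blocks: the points of block `j` depend on two consecutive phases. -/
structure Chain where
  n : ℕ → ℕ
  q : ℕ → ℕ → ℝ → ℝ → ℝ
  a : ℕ → ℝ
  b : ℕ → ℝ
  a1 : ∀ j, 1 ≤ a j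
  meas : ∀ j l, Measurable (Function.uncurry (q j l))
  mem : ∀ j l θ θ', l < n j → q j l θ θ' ∈ Icc (a j) (b j)
  hB : ∀ σ : ℝ, 1 / 2 < σ → Summable fun j => ((n j : ℝ) * a j ^ (-σ)) ^ 2
  hD : ∀ σ : ℝ, 1 / 2 < σ → Summable fun j => (n j : ℝ) * ((b j - a j) * a j ^ (-σ - 1))

namespace Chain

variable (𝒞 : Chain)

noncomputable def T (j : ℕ) (θ θ' : ℝ) (s : ℂ) : ℂ :=
  ∑ l ∈ Finset.range (𝒞.n j), (𝒞.q j l θ θ' : ℂ) ^ (-s)

noncomputable def M (j : ℕ) (θ : ℝ) (s : ℂ) : ℂ := ∫ θ', 𝒞.T j θ θ' s ∂muU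

noncomputable def C (j : ℕ) (s : ℂ) : ℂ := ∫ θ, 𝒞.M j θ s ∂muU

noncomputable def Bd (j : ℕ) (σ : ℝ) : ℝ := (𝒞.n j : ℝ) * 𝒞.a j ^ (-σ)

noncomputable def Dd (j : ℕ) (σ : ℝ) : ℝ := (𝒞.n j : ℝ) * ((𝒞.b j - 𝒞.a j) * 𝒞.a j ^ (-σ - 1))

theorem Bd_nonneg (j : ℕ) (σ : ℝ) : 0 ≤ 𝒞.Bd j σ :=
  mul_nonneg (Nat.cast_nonneg _) (Real.rpow_nonneg (by linarith [𝒞.a1 j]) _)

theorem Bd_anti (j : ℕ) {σ τ : ℝ} (h : σ ≤ τ) : 𝒞.Bd j τ ≤ 𝒞.Bd j σ :=
  mul_le_mul_of_nonneg_left (Real.rpow_le_rpow_of_exponent_le (𝒞.a1 j) (by linarith))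
    (Nat.cast_nonneg _)

theorem Dd_anti (j : ℕ) {σ τ : ℝ} (h : σ ≤ τ) : 𝒞.Dd j τ ≤ 𝒞.Dd j σ := by
  unfold Dd
  rcases Nat.eq_zero_or_pos (𝒞.n j) with h0 | h0
  · rw [h0]; simp
  have hab : 𝒞.a j ≤ 𝒞.b j := by
    have := 𝒞.mem j 0 0 0 h0
    exact this.1.trans this.2
  apply mul_le_mul_of_nonneg_left _ (Nat.cast_nonneg _)
  apply mul_le_mul_of_nonneg_left _ (by linarith)
  exact Real.rpow_le_rpow_of_exponent_le (𝒞.a1 j) (by linarith)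

theorem norm_T_le (j : ℕ) (θ θ' : ℝ) {s : ℂ} (hs : 0 ≤ s.re) : ‖𝒞.T j θ θ' s‖ ≤ 𝒞.Bd j s.re := by
  unfold T Bd
  refine (norm_sum_le _ _).trans ?_
  calc ∑ l ∈ Finset.range (𝒞.n j), ‖(𝒞.q j l θ θ' : ℂ) ^ (-s)‖
      ≤ ∑ l ∈ Finset.range (𝒞.n j), 𝒞.a j ^ (-s.re) := by
        apply Finset.sum_le_sum
        intro l hl
        exact norm_q_le (𝒞.a1 j) (𝒞.mem j l θ θ' (Finset.mem_range.1 hl)).1 hs
    _ = _ := by simp

theorem norm_T_sub_le (j : ℕ) (θ θ' η η' : ℝ) {s : ℂ} (hs : 0 ≤ s.re) :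
    ‖𝒞.T j θ θ' s - 𝒞.T j η η' s‖ ≤ ‖s‖ * 𝒞.Dd j s.re := by
  unfold T Dd
  rw [← Finset.sum_sub_distrib]
  refine (norm_sum_le _ _).trans ?_
  calc ∑ l ∈ Finset.range (𝒞.n j), ‖(𝒞.q j l θ θ' : ℂ) ^ (-s) - (𝒞.q j l η η' : ℂ) ^ (-s)‖
      ≤ ∑ l ∈ Finset.range (𝒞.n j), ‖s‖ * (𝒞.a j ^ (-s.re - 1)) * (𝒞.b j - 𝒞.a j) := by
        apply Finset.sum_le_sum
        intro l hl
        have hl' := Finset.mem_range.1 hl
        exact norm_cpow_neg_sub_le' (by linarith [𝒞.a1 j]) (𝒞.mem j l θ θ' hl')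
          (𝒞.mem j l η η' hl') (by linarith)
    _ = _ := by
        rw [Finset.sum_const, Finset.card_range, nsmul_eq_mul]
        ring

theorem measurable_T (j : ℕ) :
    Measurable fun x : (ℝ × ℝ) × ℂ => 𝒞.T j x.1.1 x.1.2 x.2 := by
  unfold T
  apply Finset.measurable_sum
  intro l _
  have h1 : Measurable fun x : (ℝ × ℝ) × ℂ => 𝒞.q j l x.1.1 x.1.2 :=
    (𝒞.meas j l).comp measurable_fst
  exact measurable_cpow_neg2.comp (h1.prodMk measurable_snd)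

theorem measurable_M (j : ℕ) : Measurable fun x : ℝ × ℂ => 𝒞.M j x.1 x.2 := by
  unfold M
  have h1 : StronglyMeasurable fun x : (ℝ × ℂ) × ℝ => 𝒞.T j x.1.1 x.2 x.1.2 := by
    apply Measurable.stronglyMeasurable
    exact (𝒞.measurable_T j).comp (((measurable_fst.comp measurable_fst).prodMk
      measurable_snd).prodMk (measurable_snd.comp measurable_fst))
  exact h1.integral_prod_right'.measurable

theorem measurable_C (j : ℕ) : Measurable (𝒞.C j) := by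
  unfold C
  have h1 : StronglyMeasurable fun x : ℂ × ℝ => 𝒞.M j x.2 x.1 := by
    apply Measurable.stronglyMeasurable
    exact (𝒞.measurable_M j).comp (measurable_snd.prodMk measurable_fst)
  exact h1.integral_prod_right'.measurable

theorem integrable_T (j : ℕ) (θ : ℝ) {s : ℂ} (hs : 0 ≤ s.re) :
    Integrable (fun θ' => 𝒞.T j θ θ' s) muU := by
  apply Integrable.of_bound _ (𝒞.Bd j s.re)
  · exact Filter.Eventually.of_forall fun θ' => 𝒞.norm_T_le j θ θ' hs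
  · exact ((𝒞.measurable_T j).comp ((measurable_const.prodMk measurable_id).prodMk
      measurable_const)).aestronglyMeasurable

theorem norm_M_le (j : ℕ) (θ : ℝ) {s : ℂ} (hs : 0 ≤ s.re) : ‖𝒞.M j θ s‖ ≤ 𝒞.Bd j s.re := by
  have := norm_integral_le_of_norm_le_const (μ := muU) (f := fun θ' => 𝒞.T j θ θ' s)
    (C := 𝒞.Bd j s.re) (Filter.Eventually.of_forall fun θ' => 𝒞.norm_T_le j θ θ' hs)
  simpa [M] using this

theorem integrable_M (j : ℕ) {s : ℂ} (hs : 0 ≤ s.re) :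
    Integrable (fun θ => 𝒞.M j θ s) muU := by
  apply Integrable.of_bound _ (𝒞.Bd j s.re)
  · exact Filter.Eventually.of_forall fun θ' => 𝒞.norm_M_le j θ' hs
  · exact ((𝒞.measurable_M j).comp (measurable_id.prodMk measurable_const)).aestronglyMeasurable

theorem norm_C_le (j : ℕ) {s : ℂ} (hs : 0 ≤ s.re) : ‖𝒞.C j s‖ ≤ 𝒞.Bd j s.re := by
  have := norm_integral_le_of_norm_le_const (μ := muU) (f := fun θ => 𝒞.M j θ s)
    (C := 𝒞.Bd j s.re) (Filter.Eventually.of_forall fun θ' => 𝒞.norm_M_le j θ' hs)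
  simpa [C] using this

theorem norm_T_sub_M_le (j : ℕ) (θ θ' η : ℝ) {s : ℂ} (hs : 0 ≤ s.re) :
    ‖𝒞.T j θ θ' s - 𝒞.M j η s‖ ≤ ‖s‖ * 𝒞.Dd j s.re := by
  have h1 : 𝒞.T j θ θ' s - 𝒞.M j η s = ∫ η', (𝒞.T j θ θ' s - 𝒞.T j η η' s) ∂muU := by
    rw [integral_sub (integrable_const _) (𝒞.integrable_T j η hs)]
    simp [M]
  rw [h1]
  have := norm_integral_le_of_norm_le_const (μ := muU)
    (f := fun η' => 𝒞.T j θ θ' s - 𝒞.T j η η' s) (C := ‖s‖ * 𝒞.Dd j s.re)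
    (Filter.Eventually.of_forall fun η' => 𝒞.norm_T_sub_le j θ θ' η η' hs)
  simpa using this

theorem norm_M_sub_M_le (j : ℕ) (θ η : ℝ) {s : ℂ} (hs : 0 ≤ s.re) :
    ‖𝒞.M j θ s - 𝒞.M j η s‖ ≤ ‖s‖ * 𝒞.Dd j s.re := by
  have h1 : 𝒞.M j θ s - 𝒞.M j η s = ∫ θ', (𝒞.T j θ θ' s - 𝒞.M j η s) ∂muU := by
    rw [integral_sub (𝒞.integrable_T j θ hs) (integrable_const _)]
    simp [M]
  rw [h1]
  have := norm_integral_le_of_norm_le_const (μ := muU)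
    (f := fun θ' => 𝒞.T j θ θ' s - 𝒞.M j η s) (C := ‖s‖ * 𝒞.Dd j s.re)
    (Filter.Eventually.of_forall fun θ' => 𝒞.norm_T_sub_M_le j θ θ' η hs)
  simpa using this

theorem norm_M_sub_C_le (j : ℕ) (θ : ℝ) {s : ℂ} (hs : 0 ≤ s.re) :
    ‖𝒞.M j θ s - 𝒞.C j s‖ ≤ ‖s‖ * 𝒞.Dd j s.re := by
  have h1 : 𝒞.M j θ s - 𝒞.C j s = ∫ η, (𝒞.M j θ s - 𝒞.M j η s) ∂muU := by
    rw [integral_sub (integrable_const _) (𝒞.integrable_M j hs)]
    simp [C]
  rw [h1]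
  have := norm_integral_le_of_norm_le_const (μ := muU)
    (f := fun η => 𝒞.M j θ s - 𝒞.M j η s) (C := ‖s‖ * 𝒞.Dd j s.re)
    (Filter.Eventually.of_forall fun η => 𝒞.norm_M_sub_M_le j θ η hs)
  simpa using this

theorem pos_q (j l : ℕ) (θ θ' : ℝ) (hl : l < 𝒞.n j) : 0 < 𝒞.q j l θ θ' := by
  linarith [(𝒞.mem j l θ θ' hl).1, 𝒞.a1 j]

theorem diff_T (j : ℕ) (θ θ' : ℝ) : Differentiable ℂ (𝒞.T j θ θ') := by
  unfold T
  apply Differentiable.fun_sum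
  intro l hl s
  have hne : (𝒞.q j l θ θ' : ℂ) ≠ 0 := by
    exact_mod_cast (𝒞.pos_q j l θ θ' (Finset.mem_range.1 hl)).ne'
  exact (differentiableAt_id.neg).const_cpow (Or.inl hne)

theorem integrable_q {Ω : Type*} [MeasurableSpace Ω] {ν : Measure Ω} [IsFiniteMeasure ν]
    {q : Ω → ℝ} (hq : Measurable q) {a b : ℝ} (ha : 1 ≤ a) (hab : ∀ ω, q ω ∈ Icc a b) (s : ℂ) :
    Integrable (fun ω => (q ω : ℂ) ^ (-s)) ν := by
  apply Integrable.of_bound _ (max (a ^ (-s.re)) (b ^ (-s.re)))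
  · exact Filter.Eventually.of_forall fun ω => by
      rw [norm_ofReal_cpow_neg (by linarith [(hab ω).1])]
      exact rpow_neg_le_max (by linarith) (hab ω) _
  · exact ((measurable_cpow_neg s).comp hq).aestronglyMeasurable

theorem diff_M (j : ℕ) (θ : ℝ) : Differentiable ℂ (𝒞.M j θ) := by
  have h1 : ∀ l, Measurable fun θ' => 𝒞.q j l θ θ' := fun l =>
    (𝒞.meas j l).comp (measurable_const.prodMk measurable_id)
  have h2 : 𝒞.M j θ = fun s => ∑ l ∈ Finset.range (𝒞.n j), ∫ θ', (𝒞.q j l θ θ' : ℂ) ^ (-s) ∂muU := by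
    ext s
    unfold M T
    rw [integral_finsetSum]
    intro l hl
    exact integrable_q (h1 l) (𝒞.a1 j) (fun θ' => 𝒞.mem j l θ θ' (Finset.mem_range.1 hl)) s
  rw [h2]
  apply Differentiable.fun_sum
  intro l hl
  exact diff_int_cpow (h1 l) (𝒞.a1 j) fun θ' => 𝒞.mem j l θ θ' (Finset.mem_range.1 hl)

theorem C_eq (j : ℕ) (s : ℂ) : 𝒞.C j s = ∑ l ∈ Finset.range (𝒞.n j),
    ∫ θ, ∫ θ', (𝒞.q j l θ θ' : ℂ) ^ (-s) ∂muU ∂muU := by
  unfold C M T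
  have h1 : ∀ l θ, Measurable fun θ' => 𝒞.q j l θ θ' := fun l θ =>
    (𝒞.meas j l).comp (measurable_const.prodMk measurable_id)
  have e1 : ∀ θ, ∫ θ', ∑ l ∈ Finset.range (𝒞.n j), (𝒞.q j l θ θ' : ℂ) ^ (-s) ∂muU =
      ∑ l ∈ Finset.range (𝒞.n j), ∫ θ', (𝒞.q j l θ θ' : ℂ) ^ (-s) ∂muU := by
    intro θ
    rw [integral_finsetSum]
    intro l hl
    exact integrable_q (h1 l θ) (𝒞.a1 j) (fun θ' => 𝒞.mem j l θ θ' (Finset.mem_range.1 hl)) s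
  simp_rw [e1]
  rw [integral_finsetSum]
  intro l hl
  have h3 : Integrable (fun x : ℝ × ℝ => (𝒞.q j l x.1 x.2 : ℂ) ^ (-s)) (muU.prod muU) :=
    integrable_q (q := fun x : ℝ × ℝ => 𝒞.q j l x.1 x.2) (𝒞.meas j l) (𝒞.a1 j)
      (fun x => 𝒞.mem j l x.1 x.2 (Finset.mem_range.1 hl)) s
  exact h3.integral_prod_left

theorem diff_C (j : ℕ) : Differentiable ℂ (𝒞.C j) := by
  have h2 : 𝒞.C j = fun s => ∑ l ∈ Finset.range (𝒞.n j),
      ∫ x : ℝ × ℝ, (𝒞.q j l x.1 x.2 : ℂ) ^ (-s) ∂(muU.prod muU) := by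
    ext s
    rw [𝒞.C_eq]
    apply Finset.sum_congr rfl
    intro l hl
    rw [integral_prod]
    exact integrable_q (q := fun x : ℝ × ℝ => 𝒞.q j l x.1 x.2) (𝒞.meas j l) (𝒞.a1 j)
      (fun x => 𝒞.mem j l x.1 x.2 (Finset.mem_range.1 hl)) s
  rw [h2]
  apply Differentiable.fun_sum
  intro l hl
  exact diff_int_cpow (q := fun x : ℝ × ℝ => 𝒞.q j l x.1 x.2) (𝒞.meas j l) (𝒞.a1 j)
    fun x => 𝒞.mem j l x.1 x.2 (Finset.mem_range.1 hl)

/-- The centred kernels. -/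
noncomputable def X : ℕ → (ℕ → ℝ) → ℝ → ℂ → ℂ
  | 0, _, ω, s => 𝒞.M 0 ω s - 𝒞.C 0 s
  | j + 1, h, ω, s => (𝒞.T j (h j) ω s - 𝒞.M j (h j) s) + (𝒞.M (j + 1) ω s - 𝒞.C (j + 1) s)

noncomputable def BB : ℕ → ℝ → ℝ
  | 0, σ => 2 * 𝒞.Bd 0 σ
  | j + 1, σ => 2 * 𝒞.Bd j σ + 2 * 𝒞.Bd (j + 1) σ

noncomputable def DD : ℕ → ℝ → ℝ
  | 0, σ => 𝒞.Dd 0 σ
  | j + 1, σ => 𝒞.Dd j σ + 𝒞.Dd (j + 1) σ

theorem measurable_Bd (j : ℕ) : Measurable (𝒞.Bd j) := by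
  unfold Bd
  fun_prop

theorem summable_Bd2 {σ : ℝ} (hσ : 1 / 2 < σ) : Summable fun j => 𝒞.Bd j σ ^ 2 := 𝒞.hB σ hσ

theorem summable_Dd {σ : ℝ} (hσ : 1 / 2 < σ) : Summable fun j => 𝒞.Dd j σ := 𝒞.hD σ hσ

theorem cent (j : ℕ) (h : ℕ → ℝ) {s : ℂ} (hs : 1 / 2 < s.re) : ∫ ω, 𝒞.X j h ω s ∂muU = 0 := by
  have hs0 : 0 ≤ s.re := by linarith
  have h1 : ∀ j, ∫ ω, (𝒞.M j ω s - 𝒞.C j s) ∂muU = 0 := by
    intro j
    rw [integral_sub (𝒞.integrable_M j hs0) (integrable_const _)]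
    simp [C]
  cases j with
  | zero => exact h1 0
  | succ j =>
    simp only [X]
    have i1 : Integrable (fun ω => 𝒞.T j (h j) ω s - 𝒞.M j (h j) s) muU :=
      (𝒞.integrable_T j _ hs0).sub (integrable_const _)
    have i2 : Integrable (fun ω => 𝒞.M (j + 1) ω s - 𝒞.C (j + 1) s) muU :=
      (𝒞.integrable_M _ hs0).sub (integrable_const _)
    rw [integral_add i1 i2, h1, integral_sub (𝒞.integrable_T j _ hs0) (integrable_const _)]
    simp [M]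

/-- The kernels of the chain. -/
noncomputable def kernels : Kernels ℝ where
  μ _ _ := muU
  A _ _ := Ioc (-1) 1
  X := 𝒞.X
  B := 𝒞.BB
  D := 𝒞.DD
  prob _ _ := inferInstance
  full _ _ := muU_compl
  meas j h := by
    cases j with
    | zero =>
      exact (𝒞.measurable_M 0).sub ((𝒞.measurable_C 0).comp measurable_snd)
    | succ j =>
      have h1 : Measurable fun x : ℝ × ℂ => 𝒞.T j (h j) x.1 x.2 :=
        (𝒞.measurable_T j).comp ((measurable_const.prodMk measurable_fst).prodMk measurable_snd)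
      have h2 : Measurable fun x : ℝ × ℂ => 𝒞.M j (h j) x.2 :=
        (𝒞.measurable_M j).comp (measurable_const.prodMk measurable_snd)
      exact (h1.sub h2).add ((𝒞.measurable_M (j + 1)).sub
        ((𝒞.measurable_C (j + 1)).comp measurable_snd))
  cent j h s hs := 𝒞.cent j h hs
  diff j h ω _ := by
    cases j with
    | zero => exact ((𝒞.diff_M 0 ω).sub (𝒞.diff_C 0)).differentiableOn
    | succ j =>
      exact (((𝒞.diff_T j (h j) ω).sub (𝒞.diff_M j (h j))).add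
        ((𝒞.diff_M (j + 1) ω).sub (𝒞.diff_C (j + 1)))).differentiableOn
  B0 j σ _ := by
    cases j with
    | zero => simp only [BB]; linarith [𝒞.Bd_nonneg 0 σ]
    | succ j => simp only [BB]; linarith [𝒞.Bd_nonneg j σ, 𝒞.Bd_nonneg (j + 1) σ]
  Bmeas j := by
    cases j with
    | zero => exact (𝒞.measurable_Bd 0).const_mul 2
    | succ j => exact ((𝒞.measurable_Bd j).const_mul 2).add ((𝒞.measurable_Bd (j + 1)).const_mul 2)
  Bmono j σ τ _ hst := by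
    cases j with
    | zero => simp only [BB]; linarith [𝒞.Bd_anti 0 hst]
    | succ j => simp only [BB]; linarith [𝒞.Bd_anti j hst, 𝒞.Bd_anti (j + 1) hst]
  Ble j h ω _ s hs := by
    have hs0 : 0 ≤ s.re := by linarith
    have h1 : ∀ j, ‖𝒞.M j ω s - 𝒞.C j s‖ ≤ 2 * 𝒞.Bd j s.re := fun j => by
      have := norm_sub_le (𝒞.M j ω s) (𝒞.C j s)
      linarith [𝒞.norm_M_le j ω hs0, 𝒞.norm_C_le j hs0]
    cases j with
    | zero => exact h1 0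
    | succ j =>
      simp only [X, BB]
      refine (norm_add_le _ _).trans ?_
      have := norm_sub_le (𝒞.T j (h j) ω s) (𝒞.M j (h j) s)
      linarith [𝒞.norm_T_le j (h j) ω hs0, 𝒞.norm_M_le j (h j) hs0, h1 (j + 1)]
  Bsum σ hσ := by
    rw [← summable_nat_add_iff 1]
    have h1 := 𝒞.summable_Bd2 hσ
    have h2 : Summable fun j => 𝒞.Bd (j + 1) σ ^ 2 := (summable_nat_add_iff 1).2 h1
    refine Summable.of_nonneg_of_le (fun j => sq_nonneg _) (fun j => ?_)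
      ((h1.mul_left 8).add (h2.mul_left 8))
    simp only [BB]
    nlinarith [sq_nonneg (𝒞.Bd j σ - 𝒞.Bd (j + 1) σ)]
  Dle j h ω _ σ s hσ hs := by
    have hs0 : 0 ≤ s.re := by linarith
    have h1 : ∀ j, ‖𝒞.M j ω s - 𝒞.C j s‖ ≤ ‖s‖ * 𝒞.Dd j σ := fun j =>
      (𝒞.norm_M_sub_C_le j ω hs0).trans
        (mul_le_mul_of_nonneg_left (𝒞.Dd_anti j hs) (norm_nonneg _))
    cases j with
    | zero => exact h1 0
    | succ j =>
      simp only [X, DD]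
      refine (norm_add_le _ _).trans ?_
      have h2 := (𝒞.norm_T_sub_M_le j (h j) ω (h j) hs0).trans
        (mul_le_mul_of_nonneg_left (𝒞.Dd_anti j hs) (norm_nonneg _))
      have h3 := h1 (j + 1)
      rw [mul_add]
      linarith
  Dsum σ hσ := by
    rw [← summable_nat_add_iff 1]
    have h1 := 𝒞.summable_Dd hσ
    have h2 : Summable fun j => 𝒞.Dd (j + 1) σ := (summable_nat_add_iff 1).2 h1
    exact h1.add h2

theorem sum_X {θ : ℕ → ℝ} (s : ℂ) (J : ℕ) :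
    ∑ j ∈ Finset.range (J + 1), 𝒞.X j (hist θ j) (θ j) s =
      ∑ j ∈ Finset.range J, (𝒞.T j (θ j) (θ (j + 1)) s - 𝒞.C j s) + (𝒞.M J (θ J) s - 𝒞.C J s) := by
  induction J with
  | zero => simp [X]
  | succ J ih =>
    rw [Finset.sum_range_succ, ih, Finset.sum_range_succ _ J]
    simp only [X]
    rw [hist_apply θ (Nat.lt_succ_self J)]
    ring

/-- **The chain theorem.** -/
theorem chain : ∃ (θ : ℕ → ℝ) (R : ℂ → ℂ), DifferentiableOn ℂ R {s : ℂ | 1 / 2 < s.re} ∧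
    (∀ ε : ℝ, 0 < ε → ∃ C : ℝ, ∀ s : ℂ, 1 / 2 + ε ≤ s.re →
      |(R s).re| ≤ C + ε * Real.log (2 + ‖s‖)) ∧
    ∀ s : ℂ, 1 / 2 < s.re →
      Tendsto (fun J => ∑ j ∈ Finset.range J, (𝒞.T j (θ j) (θ (j + 1)) s - 𝒞.C j s)) atTop
        (𝓝 (R s)) := by
  obtain ⟨θ, -, hsum, hdiff, hbd⟩ := 𝒞.kernels.engine
  refine ⟨θ, _, hdiff, hbd, fun s hs => ?_⟩
  have hs0 : 0 ≤ s.re := by linarith
  have h1 := ((hsum s hs).hasSum.tendsto_sum_nat).comp (tendsto_add_atTop_nat 1)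
  have h2 : Tendsto (fun J => 𝒞.M J (θ J) s - 𝒞.C J s) atTop (𝓝 0) := by
    apply squeeze_zero_norm (a := fun J => ‖s‖ * 𝒞.Dd J s.re)
    · intro J
      exact 𝒞.norm_M_sub_C_le J (θ J) hs0
    · have := ((𝒞.summable_Dd hs).tendsto_atTop_zero).const_mul ‖s‖
      simpa using this
  have h3 := h1.sub h2
  rw [sub_zero] at h3
  refine h3.congr fun J => ?_
  have h4 := 𝒞.sum_X (θ := θ) s J
  change ∑ j ∈ Finset.range (J + 1), 𝒞.X j (hist θ j) (θ j) s - _ = _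
  rw [h4]
  ring

end Chain

end Pool.Agent.H521.G
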