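import Mathlib

open MeasureTheory Set Filter Topology

namespace Pool.Agent.H521.G

theorem h190_st_le {lam : ℕ → ℝ} {st : ℕ → ℕ} (hlam : Tendsto lam atTop atTop)
    (hst : Tendsto st atTop atTop) (hi : ∀ᶠ j in atTop, (st j : ℝ) ^ st j ≤ lam j)
    {ε : ℝ} (hε : 0 < ε) : ∀ᶠ j in atTop, (st j : ℝ) ≤ lam j ^ ε := by
  obtain ⟨K, hK⟩ := exists_nat_gt (1 / ε)
  have hK0 : 0 < K := by
    have : (0 : ℝ) < K := lt_trans (by positivity) hK
    exact_mod_cast this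
  have hKr : (0 : ℝ) < K := by exact_mod_cast hK0
  filter_upwards [hi, hst.eventually_ge_atTop K, hst.eventually_ge_atTop 1,
    hlam.eventually_ge_atTop 1] with j h1 h2 h3 h4
  have hs1 : (1 : ℝ) ≤ st j := by exact_mod_cast h3
  have hs0 : (0 : ℝ) ≤ st j := by linarith
  have h5 : (st j : ℝ) ^ K ≤ lam j := (pow_le_pow_right₀ hs1 h2).trans h1
  have h6 : (st j : ℝ) = ((st j : ℝ) ^ K) ^ (1 / (K : ℝ)) := by
    rw [← Real.rpow_natCast, ← Real.rpow_mul hs0, mul_one_div_cancel hKr.ne', Real.rpow_one]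
  rw [h6]
  calc ((st j : ℝ) ^ K) ^ (1 / (K : ℝ)) ≤ lam j ^ (1 / (K : ℝ)) :=
        Real.rpow_le_rpow (by positivity) h5 (by positivity)
    _ ≤ lam j ^ ε := by
        apply Real.rpow_le_rpow_of_exponent_le h4
        rw [div_le_iff₀ hKr]
        rw [div_lt_iff₀ hε] at hK
        linarith

theorem h190_M_ge {lam : ℕ → ℝ} {st M : ℕ → ℕ} (hlam : Tendsto lam atTop atTop)
    (hst : Tendsto st atTop atTop) (hM : ∀ᶠ j in atTop, lam j ^ st j ≤ M j) (b : ℝ) :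
    ∀ᶠ j in atTop, lam j ≤ M j * lam j ^ (1 - b) := by
  obtain ⟨K, hK⟩ := exists_nat_gt b
  filter_upwards [hM, hst.eventually_ge_atTop K, hlam.eventually_ge_atTop 1] with j h1 h2 h3
  have hl0 : (0 : ℝ) < lam j := by linarith
  have h4 : lam j ^ b ≤ M j := by
    calc lam j ^ b ≤ lam j ^ (st j : ℝ) := by
          apply Real.rpow_le_rpow_of_exponent_le h3
          have : (K : ℝ) ≤ st j := by exact_mod_cast h2
          linarith
      _ = lam j ^ st j := Real.rpow_natCast _ _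
      _ ≤ M j := h1
  calc lam j = lam j ^ b * lam j ^ (1 - b) := by
        rw [← Real.rpow_add hl0]
        have : b + (1 - b) = 1 := by ring
        rw [this, Real.rpow_one]
    _ ≤ M j * lam j ^ (1 - b) := mul_le_mul_of_nonneg_right h4 (Real.rpow_nonneg hl0.le _)

theorem cnt_up {lam L : ℕ → ℝ} {st M cnt : ℕ → ℕ} (hlam : Tendsto lam atTop atTop)
    (hst : Tendsto st atTop atTop) (hi : ∀ᶠ j in atTop, (st j : ℝ) ^ st j ≤ lam j)
    (hL0 : ∀ᶠ j in atTop, lam j / 2 ≤ L j) (hL1 : ∀ᶠ j in atTop, L j ≤ lam j)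
    (hM : ∀ᶠ j in atTop, lam j ^ st j ≤ M j) {b b₁ : ℝ} (hb : 1 ≤ b) (hb1 : b < b₁)
    (h : ∀ᶠ j in atTop, (cnt j : ℝ) ≤ 4 + st j * (M j * lam j ^ (1 - b₁))) :
    ∀ᶠ j in atTop, (cnt j : ℝ) ≤ ((M j + 1 : ℕ) : ℝ) * L j ^ (-(b - 1)) := by
  have hε : 0 < (b₁ - b) / 2 := by linarith
  have ht : ∀ᶠ j in atTop, 2 ≤ lam j ^ ((b₁ - b) / 2) :=
    ((tendsto_rpow_atTop hε).comp hlam).eventually_ge_atTop 2
  filter_upwards [h190_st_le hlam hst hi hε, h190_M_ge hlam hst hM b, ht, h, hL0, hL1,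
    hlam.eventually_ge_atTop 8] with j h1 h2 h3 h4 h5 h6 h7
  have hl0 : (0 : ℝ) < lam j := by linarith
  have hLp : 0 < L j := by linarith
  have h8 : lam j ^ (1 - b) ≤ L j ^ (-(b - 1)) := by
    have e : (1 - b) = -(b - 1) := by ring
    rw [e]
    exact Real.rpow_le_rpow_of_nonpos hLp h6 (by linarith)
  have hM0 : (0 : ℝ) ≤ M j := Nat.cast_nonneg _
  have h9 : (M j : ℝ) * lam j ^ (1 - b) ≤ ((M j + 1 : ℕ) : ℝ) * L j ^ (-(b - 1)) := by
    push_cast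
    exact mul_le_mul (by linarith) h8 (Real.rpow_nonneg hl0.le _) (by linarith)
  have h10 : (st j : ℝ) * lam j ^ (1 - b₁) ≤ lam j ^ (1 - b) / 2 := by
    have e1 : lam j ^ (1 - b) = lam j ^ ((b₁ - b) / 2) * (lam j ^ ((b₁ - b) / 2) * lam j ^ (1 - b₁)) := by
      rw [← Real.rpow_add hl0, ← Real.rpow_add hl0]
      congr 1
      ring
    rw [e1]
    have h11 : (st j : ℝ) * lam j ^ (1 - b₁) ≤ lam j ^ ((b₁ - b) / 2) * lam j ^ (1 - b₁) :=
      mul_le_mul_of_nonneg_right h1 (Real.rpow_nonneg hl0.le _)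
    have h12 : 0 ≤ lam j ^ ((b₁ - b) / 2) * lam j ^ (1 - b₁) :=
      mul_nonneg (Real.rpow_nonneg hl0.le _) (Real.rpow_nonneg hl0.le _)
    have h13 := mul_le_mul_of_nonneg_right h3 h12
    linarith
  have h14 : (st j : ℝ) * (M j * lam j ^ (1 - b₁)) ≤ M j * lam j ^ (1 - b) / 2 := by
    have := mul_le_mul_of_nonneg_left h10 hM0
    calc (st j : ℝ) * (M j * lam j ^ (1 - b₁)) = M j * (st j * lam j ^ (1 - b₁)) := by ring
      _ ≤ M j * (lam j ^ (1 - b) / 2) := this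
      _ = M j * lam j ^ (1 - b) / 2 := by ring
  linarith

theorem cnt_lo {lam L : ℕ → ℝ} {st M cnt : ℕ → ℕ} (hlam : Tendsto lam atTop atTop)
    (hst : Tendsto st atTop atTop) (hi : ∀ᶠ j in atTop, (st j : ℝ) ^ st j ≤ lam j)
    (hL0 : ∀ᶠ j in atTop, lam j / 2 ≤ L j) (hL1 : ∀ᶠ j in atTop, L j ≤ lam j)
    (hM : ∀ᶠ j in atTop, lam j ^ st j ≤ M j) {b E : ℝ} (hE : 1 ≤ E) (hb : E < b)
    (h : ∀ᶠ j in atTop, M j * lam j ^ (1 - E) / (2 * (st j : ℝ) ^ 3) ≤ (cnt j : ℝ) + 1) :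
    ∀ᶠ j in atTop, ((M j + 1 : ℕ) : ℝ) * L j ^ (-(b - 1)) ≤ (cnt j : ℝ) := by
  have hε : 0 < (b - E) / 6 := by linarith
  have hε' : 0 < (b - E) / 2 := by linarith
  have ht : ∀ᶠ j in atTop, 4 * (2 : ℝ) ^ b ≤ lam j ^ ((b - E) / 2) :=
    ((tendsto_rpow_atTop hε').comp hlam).eventually_ge_atTop _
  have ht2 : ∀ᶠ j in atTop, (4 : ℝ) ≤ lam j ^ ((1 : ℝ) / 2) :=
    ((tendsto_rpow_atTop (by norm_num : (0 : ℝ) < 1 / 2)).comp hlam).eventually_ge_atTop 4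
  filter_upwards [h190_st_le hlam hst hi hε, h190_st_le hlam hst hi (by norm_num : (0 : ℝ) < 1 / 6),
    h190_M_ge hlam hst hM E, ht, ht2, h, hL0, hL1, hlam.eventually_ge_atTop 8,
    hst.eventually_ge_atTop 1, hM] with j h1 h1' h2 h3 h3' h4 h5 h6 h7 hs hMj
  have hl0 : (0 : ℝ) < lam j := by linarith
  have hLp : 0 < L j := by linarith
  have hs1 : (1 : ℝ) ≤ st j := by exact_mod_cast hs
  have hs0 : (0 : ℝ) < st j := by linarith
  have hM1 : (1 : ℝ) ≤ M j := by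
    have : (1 : ℝ) ≤ lam j ^ st j := one_le_pow₀ (by linarith)
    linarith
  -- the power of L
  have h8 : L j ^ (-(b - 1)) ≤ (2 : ℝ) ^ (b - 1) * lam j ^ (1 - b) := by
    calc L j ^ (-(b - 1)) ≤ (lam j / 2) ^ (-(b - 1)) :=
          Real.rpow_le_rpow_of_nonpos (by linarith) h5 (by linarith)
      _ = (2 : ℝ) ^ (b - 1) * lam j ^ (1 - b) := by
          rw [Real.div_rpow hl0.le (by norm_num), Real.rpow_neg (by norm_num : (0 : ℝ) ≤ 2),
            div_inv_eq_mul, mul_comm]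
          congr 2
          ring
  have h9 : ((M j + 1 : ℕ) : ℝ) * L j ^ (-(b - 1)) ≤ M j * ((2 : ℝ) ^ b * lam j ^ (1 - b)) := by
    push_cast
    have h10 : ((M j : ℝ) + 1) * L j ^ (-(b - 1)) ≤ (2 * M j) * ((2 : ℝ) ^ (b - 1) * lam j ^ (1 - b)) :=
      mul_le_mul (by linarith) h8 (Real.rpow_nonneg hLp.le _) (by linarith)
    have e2 : (2 : ℝ) ^ b = 2 * (2 : ℝ) ^ (b - 1) := by
      rw [Real.rpow_sub_one (by norm_num)]
      ring
    rw [e2]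
    calc ((M j : ℝ) + 1) * L j ^ (-(b - 1)) ≤
          (2 * M j) * ((2 : ℝ) ^ (b - 1) * lam j ^ (1 - b)) := h10
      _ = _ := by ring
  -- the cubes
  have hc1 : (st j : ℝ) ^ 3 ≤ lam j ^ ((b - E) / 2) := by
    calc (st j : ℝ) ^ 3 ≤ (lam j ^ ((b - E) / 6)) ^ 3 := pow_le_pow_left₀ hs0.le h1 3
      _ = lam j ^ ((b - E) / 2) := by
          rw [← Real.rpow_natCast, ← Real.rpow_mul hl0.le]
          congr 1
          push_cast
          ring
  have hc2 : (st j : ℝ) ^ 3 ≤ lam j ^ ((1 : ℝ) / 2) := by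
    calc (st j : ℝ) ^ 3 ≤ (lam j ^ ((1 : ℝ) / 6)) ^ 3 := pow_le_pow_left₀ hs0.le h1' 3
      _ = lam j ^ ((1 : ℝ) / 2) := by
          rw [← Real.rpow_natCast, ← Real.rpow_mul hl0.le]
          norm_num
  have hs3 : (0 : ℝ) < (st j : ℝ) ^ 3 := by positivity
  -- first half
  have hA : (1 : ℝ) ≤ M j * lam j ^ (1 - E) / (4 * (st j : ℝ) ^ 3) := by
    rw [le_div_iff₀ (by positivity), one_mul]
    have e3 : lam j = lam j ^ ((1 : ℝ) / 2) * lam j ^ ((1 : ℝ) / 2) := by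
      rw [← Real.rpow_add hl0]
      norm_num
    have h11 : 4 * (st j : ℝ) ^ 3 ≤ lam j := by
      rw [e3]
      exact mul_le_mul h3' hc2 hs3.le (by linarith)
    linarith
  -- second half
  have hB : (2 : ℝ) ^ b * lam j ^ (1 - b) ≤ lam j ^ (1 - E) / (4 * (st j : ℝ) ^ 3) := by
    rw [le_div_iff₀ (by positivity)]
    have e4 : lam j ^ (1 - E) = lam j ^ ((b - E) / 2) * (lam j ^ ((b - E) / 2) * lam j ^ (1 - b)) := by
      rw [← Real.rpow_add hl0, ← Real.rpow_add hl0]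
      congr 1
      ring
    rw [e4]
    have h12 : (4 * (2 : ℝ) ^ b) * (st j : ℝ) ^ 3 ≤ lam j ^ ((b - E) / 2) * lam j ^ ((b - E) / 2) :=
      mul_le_mul h3 hc1 hs3.le (Real.rpow_nonneg hl0.le _)
    have h13 := mul_le_mul_of_nonneg_right h12 (Real.rpow_nonneg hl0.le (1 - b))
    calc (2 : ℝ) ^ b * lam j ^ (1 - b) * (4 * (st j : ℝ) ^ 3) =
          (4 * (2 : ℝ) ^ b) * (st j : ℝ) ^ 3 * lam j ^ (1 - b) := by ring
      _ ≤ _ := h13
      _ = _ := by ring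
  have hC := mul_le_mul_of_nonneg_left hB (by linarith : (0 : ℝ) ≤ M j)
  have e5 : (M j : ℝ) * lam j ^ (1 - E) / (2 * (st j : ℝ) ^ 3) =
      M j * (lam j ^ (1 - E) / (4 * (st j : ℝ) ^ 3)) + M j * lam j ^ (1 - E) / (4 * (st j : ℝ) ^ 3) := by
    field_simp
    ring
  rw [e5] at h4
  linarith

end Pool.Agent.H521.G
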