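import Pool.Agent.H521.G.Count
import Pool.Agent.H521.Full

open MeasureTheory Set Filter Topology
open scoped ENNReal NNReal ComplexConjugate

namespace Pool.Agent.H521.G

/-- Sums of functions analytic in the half plane with uniform bounds. -/
theorem diffOn_tsum_half {ι : Type*} {F : ι → ℂ → ℂ} {B : ℝ → ι → ℝ}
    (hF : ∀ j, DifferentiableOn ℂ (F j) {s : ℂ | 1 / 2 < s.re})
    (hB : ∀ j (σ : ℝ) (s : ℂ), 1 / 2 < σ → σ ≤ s.re → ‖F j s‖ ≤ B σ j)
    (hsum : ∀ σ : ℝ, 1 / 2 < σ → Summable (B σ)) :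
    DifferentiableOn ℂ (fun s => ∑' j, F j s) {s : ℂ | 1 / 2 < s.re} ∧
      (∀ s : ℂ, 1 / 2 < s.re → Summable fun j => F j s) ∧
      ∀ ε : ℝ, 0 < ε → ∃ C : ℝ, ∀ s : ℂ, 1 / 2 + ε ≤ s.re → ‖∑' j, F j s‖ ≤ C := by
  refine ⟨?_, ?_, ?_⟩
  · intro s₀ hs₀
    simp only [mem_ofPred_eq] at hs₀
    set σ₀ : ℝ := (1 / 2 + s₀.re) / 2 with hσ₀
    have h1 : 1 / 2 < σ₀ := by rw [hσ₀]; linarith
    have h2 : σ₀ < s₀.re := by rw [hσ₀]; linarith
    set U : Set ℂ := {s : ℂ | σ₀ < s.re} with hU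
    have hUo : IsOpen U := isOpen_lt continuous_const Complex.continuous_re
    have hmem : s₀ ∈ U := h2
    have hd : DifferentiableOn ℂ (fun s => ∑' j, F j s) U := by
      refine Complex.differentiableOn_tsum_of_summable_norm
        (u := B σ₀) (hsum _ h1) (fun j => ?_) hUo (fun j s hs => ?_)
      · exact (hF j).mono (fun s hs => lt_trans h1 hs)
      · exact hB j σ₀ s h1 (le_of_lt hs)
    exact (hd.differentiableAt (hUo.mem_nhds hmem)).differentiableWithinAt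
  · intro s hs
    exact Summable.of_norm_bounded (hsum _ hs) (fun j => hB j _ s hs le_rfl)
  · intro ε hε
    refine ⟨∑' j, B (1 / 2 + ε) j, fun s hs => ?_⟩
    exact tsum_of_norm_bounded (hsum _ (by linarith)).hasSum
      (fun j => hB j _ s (by linarith) hs)

/-- The prime powers part. -/
theorem E2_props {ι : Type*} {p : ι → ℝ} (hp : ∀ j, 3 ≤ p j)
    (hV : ∀ τ : ℝ, 1 < τ → Summable fun j => p j ^ (-τ)) :
    DifferentiableOn ℂ (fun s => ∑' j, (-Complex.log (1 - (p j : ℂ) ^ (-s)) - (p j : ℂ) ^ (-s)))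
      {s : ℂ | 1 / 2 < s.re} ∧
      (∀ s : ℂ, 1 / 2 < s.re →
        Summable fun j => (-Complex.log (1 - (p j : ℂ) ^ (-s)) - (p j : ℂ) ^ (-s))) ∧
      ∀ ε : ℝ, 0 < ε → ∃ C : ℝ, ∀ s : ℂ, 1 / 2 + ε ≤ s.re →
        ‖∑' j, (-Complex.log (1 - (p j : ℂ) ^ (-s)) - (p j : ℂ) ^ (-s))‖ ≤ C := by
  have hpos : ∀ j, 0 < p j := fun j => by linarith [hp j]
  have hnorm : ∀ j (s : ℂ), ‖(p j : ℂ) ^ (-s)‖ = p j ^ (-s.re) := by
    intro j s
    rw [Complex.norm_cpow_eq_rpow_re_of_pos (hpos j)]; simp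
  have hsmall : ∀ j (s : ℂ), 1 / 2 < s.re → ‖(p j : ℂ) ^ (-s)‖ ≤ 3 / 5 := by
    intro j s hs
    rw [hnorm]
    calc p j ^ (-s.re) ≤ p j ^ (-(1 / 2) : ℝ) :=
          Real.rpow_le_rpow_of_exponent_le (by linarith [hp j]) (by linarith)
      _ ≤ (3 : ℝ) ^ (-(1 / 2) : ℝ) :=
          Real.rpow_le_rpow_of_nonpos (by norm_num) (hp j) (by norm_num)
      _ ≤ 3 / 5 := by
          rw [Real.rpow_neg (by norm_num), ← Real.sqrt_eq_rpow]
          rw [inv_le_comm₀ (by positivity) (by norm_num)]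
          apply Real.le_sqrt_of_sq_le
          norm_num
  refine diffOn_tsum_half (B := fun σ j => 2 * p j ^ (-(2 * σ))) ?_ ?_ ?_
  · intro j s hs
    simp only [mem_ofPred_eq] at hs
    have hpne : (p j : ℂ) ≠ 0 := by exact_mod_cast (hpos j).ne'
    have h1 : DifferentiableAt ℂ (fun s : ℂ => (p j : ℂ) ^ (-s)) s :=
      (differentiableAt_id.neg).const_cpow (Or.inl hpne)
    have h2 : DifferentiableAt ℂ (fun s : ℂ => Complex.log (1 - (p j : ℂ) ^ (-s))) s := by
      apply DifferentiableAt.clog ((differentiableAt_const _).sub h1)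
      rw [sub_eq_add_neg]
      apply Complex.mem_slitPlane_of_norm_lt_one
      change ‖-((p j : ℂ) ^ (-s))‖ < 1
      rw [norm_neg]
      have := hsmall j s hs
      linarith
    exact (h2.neg.sub h1).differentiableWithinAt
  · intro j σ s hσ hs
    refine (norm_log_one_sub_add_le (hsmall j s (by linarith))).trans ?_
    rw [hnorm, ← Real.rpow_natCast, ← Real.rpow_mul (hpos j).le]
    apply mul_le_mul_of_nonneg_left _ (by norm_num)
    apply Real.rpow_le_rpow_of_exponent_le (by linarith [hp j])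
    push_cast
    linarith
  · intro σ hσ
    exact (hV (2 * σ) (by linarith)).mul_left 2

variable {ι : Type*} [Countable ι] [Infinite ι]

/-- The residue is a positive real number. -/
theorem kappa_pos {p : ι → ℝ} (hp : ∀ j, 2 ≤ p j) {H : ℂ → ℂ}
    (hH : DifferentiableOn ℂ H {s : ℂ | 1 / 2 < s.re})
    (hz : ∀ s : ℂ, 1 < s.re → (s - 1) * zetaB p s = H s) (hne : H 1 ≠ 0) :
    ∃ κ : ℝ, 0 < κ ∧ H 1 = κ := by
  have hg : ∀ e, 0 < gint p e := gint_pos fun j => one_le_two.trans (hp j)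
  have hreal : ∀ σ : ℝ, 1 < σ → H (σ : ℂ) =
      (((σ - 1) * ∑' e : ι →₀ ℕ, gint p e ^ (-σ) : ℝ) : ℂ) := by
    intro σ hσ
    rw [← hz (σ : ℂ) (by simpa using hσ)]
    unfold zetaB
    have : ∀ e : ι →₀ ℕ, ((gint p e : ℝ) : ℂ) ^ (-(σ : ℂ)) = ((gint p e ^ (-σ) : ℝ) : ℂ) := by
      intro e
      rw [Complex.ofReal_cpow (hg e).le]
      simp
    simp_rw [this]
    rw [← Complex.ofReal_tsum]
    push_cast
    ring
  have hcont : Tendsto (fun σ : ℝ => H (σ : ℂ)) (𝓝[>] 1) (𝓝 (H 1)) := by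
    have h1 : ContinuousAt H 1 := by
      apply (hH.differentiableAt _).continuousAt
      apply (isOpen_lt continuous_const Complex.continuous_re).mem_nhds
      simp; norm_num
    have h2 : Tendsto (fun σ : ℝ => (σ : ℂ)) (𝓝[>] 1) (𝓝 (1 : ℂ)) := by
      have h3 : Tendsto (fun σ : ℝ => (σ : ℂ)) (𝓝 1) (𝓝 ((1 : ℝ) : ℂ)) :=
        Complex.continuous_ofReal.tendsto 1
      rw [Complex.ofReal_one] at h3
      exact h3.mono_left nhdsWithin_le_nhds
    exact h1.tendsto.comp h2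
  have him : (H 1).im = 0 := by
    have h1 : Tendsto (fun σ : ℝ => (H (σ : ℂ)).im) (𝓝[>] 1) (𝓝 (H 1).im) :=
      (Complex.continuous_im.tendsto _).comp hcont
    have h2 : Tendsto (fun σ : ℝ => (H (σ : ℂ)).im) (𝓝[>] 1) (𝓝 0) := by
      apply tendsto_const_nhds.congr'
      filter_upwards [self_mem_nhdsWithin] with σ hσ
      rw [hreal σ hσ, Complex.ofReal_im]
    exact tendsto_nhds_unique h1 h2
  have hre : 0 ≤ (H 1).re := by
    have h1 : Tendsto (fun σ : ℝ => (H (σ : ℂ)).re) (𝓝[>] 1) (𝓝 (H 1).re) :=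
      (Complex.continuous_re.tendsto _).comp hcont
    apply ge_of_tendsto h1
    filter_upwards [self_mem_nhdsWithin] with σ hσ
    rw [hreal σ hσ, Complex.ofReal_re]
    have hσ' : (1 : ℝ) < σ := hσ
    apply mul_nonneg (by linarith)
    exact tsum_nonneg fun e => Real.rpow_nonneg (hg e).le _
  refine ⟨(H 1).re, ?_, ?_⟩
  · rcases eq_or_lt_of_le hre with h | h
    · exfalso
      apply hne
      apply Complex.ext
      · simpa using h.symm
      · simpa using him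
    · exact h
  · apply Complex.ext
    · simp
    · simpa using him

/-- **Core theorem**: from the sum over the primes to the zeta function and the integers. -/
theorem core {Z : Multiset ℂ} (hZ : ∀ ρ ∈ Z, ρ.re < 1) (hZc : Z.map conj = Z)
    {x₀ : ℝ} (hx3 : 3 ≤ x₀) {p : ι → ℝ} (hp3 : ∀ j, 3 ≤ p j)
    (hV : ∀ τ : ℝ, 1 < τ → Summable fun j => p j ^ (-τ)) {R : ℂ → ℂ}
    (hRd : DifferentiableOn ℂ R {s : ℂ | 1 / 2 < s.re})
    (hRe : ∀ s : ℂ, 1 < s.re → ∑' j, (p j : ℂ) ^ (-s) =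
      (∫ u in Ioi x₀, (fZ Z u : ℂ) * (u : ℂ) ^ (-s)) + R s)
    (hRb : ∀ ε : ℝ, 0 < ε → ∃ C : ℝ, ∀ s : ℂ, 1 / 2 + ε ≤ s.re →
      |(R s).re| ≤ C + ε * Real.log (2 + ‖s‖)) :
    (∃ g : ℂ → ℂ, DifferentiableOn ℂ g {s : ℂ | 1 / 2 < s.re} ∧
        (∀ s : ℂ, 1 < s.re → (s - 1) * zetaB p s = (Z.map fun ρ => s - ρ).prod *
          Complex.exp (g s)) ∧
        ∀ ε : ℝ, 0 < ε → ∃ C : ℝ, ∀ s : ℂ, 1 / 2 + ε ≤ s.re →
          ‖(Z.map fun ρ => s - ρ).prod * Complex.exp (g s)‖ ≤ C * (1 + ‖s‖) ^ (1 + ε)) ∧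
      (∃ κ : ℝ, 0 < κ ∧ ∀ ε : ℝ, 0 < ε → ∃ C : ℝ, ∀ x : ℝ, 1 ≤ x →
        |(countInt p x : ℝ) - κ * x| ≤ C * x ^ (1 / 2 + ε)) ∧
      (∀ s : ℂ, 1 < s.re → Summable fun e : ι →₀ ℕ => ((gint p e : ℝ) : ℂ) ^ (-s)) := by
  have hp2 : ∀ j, 2 ≤ p j := fun j => by linarith [hp3 j]
  obtain ⟨hd2, hs2, hb2⟩ := E2_props hp3 hV
  set E2 : ℂ → ℂ := fun s => ∑' j, (-Complex.log (1 - (p j : ℂ) ^ (-s)) - (p j : ℂ) ^ (-s))
    with hE2
  set I0 : ℂ → ℂ := fun s => ∫ u in (1 : ℝ)..x₀, (fZ Z u : ℂ) * (u : ℂ) ^ (-s) with hI0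
  have hfb : ∀ u ∈ Ioc (1 : ℝ) x₀, ‖(fZ Z u : ℂ)‖ ≤ 1 + Multiset.card Z := by
    intro u hu
    rw [Complex.norm_real, Real.norm_eq_abs]
    unfold fZ
    rw [abs_mul]
    have h1 := abs_Wf_le_one hu.1.le
    have h2 : |1 - osc Z u| ≤ 1 + Multiset.card Z := by
      have := abs_sub (1 : ℝ) (osc Z u)
      have h3 := abs_osc_le hZ hu.1.le
      rw [abs_one] at this
      linarith
    calc |Wf u| * |1 - osc Z u| ≤ 1 * (1 + Multiset.card Z) :=
          mul_le_mul h1 h2 (abs_nonneg _) zero_le_one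
      _ = _ := one_mul _
  have hI0d : Differentiable ℂ I0 := differentiable_integral_cpow le_rfl (by linarith)
    (Complex.measurable_ofReal.comp (measurable_fZ Z)).aestronglyMeasurable hfb
  set g : ℂ → ℂ := fun s => g0 Z s + (R s + E2 s - I0 s) with hg
  have hgd : DifferentiableOn ℂ g {s : ℂ | 1 / 2 < s.re} := (diff_g0 hZ).add
    ((hRd.add hd2).sub hI0d.differentiableOn)
  have hgz : ∀ s : ℂ, 1 < s.re → (s - 1) * zetaB p s = (Z.map fun ρ => s - ρ).prod *
          Complex.exp (g s) := by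
    intro s hs
    have hs' : 1 / 2 < s.re := by linarith
    have hsp : Summable fun j => (p j : ℂ) ^ (-s) := by
      refine Summable.of_norm_bounded (hV s.re hs) (fun j => ?_)
      rw [norm_ofReal_cpow_neg (by linarith [hp3 j])]
    have e2 : ∑' j, -Complex.log (1 - (p j : ℂ) ^ (-s)) = E2 s + ∑' j, (p j : ℂ) ^ (-s) := by
      rw [hE2]
      simp only
      rw [← (hs2 s hs').tsum_add hsp]
      apply tsum_congr
      intro j
      ring
    rw [zetaB_eq_exp p hp2 s hs.le (hV _ hs), e2, hRe s hs]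
    have hsplit : ∫ u in Ioi x₀, (fZ Z u : ℂ) * (u : ℂ) ^ (-s) =
        (Alog s 1 - (Z.map (Alog s)).sum) - I0 s := by
      rw [← (int_fZ hZ hZc hs).2, hI0]
      simp only
      have := intervalIntegral.integral_Ioi_sub_Ioi (a := (1 : ℝ)) (b := x₀)
        (f := fun u : ℝ => (fZ Z u : ℂ) * (u : ℂ) ^ (-s)) (μ := volume)
        (int_fZ hZ hZc hs).1 (by linarith)
      rw [← this]
      ring
    rw [hsplit]
    have e1 : E2 s + (Alog s 1 - (Z.map (Alog s)).sum - I0 s + R s) =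
        Alog s 1 + (-(Z.map (Alog s)).sum + (R s + E2 s - I0 s)) := by ring
    rw [e1, Complex.exp_add, Complex.exp_add, exp_Alog_sum (fun ρ hρ => by linarith [hZ ρ hρ]),
      ← mul_assoc, exp_Alog_one hs]
    rw [hg]
    simp only
    unfold g0
    have e2 : Complex.exp
        (Complex.log s - (Z.map fun ρ => Complex.log (s - ρ + 1)).sum + (R s + E2 s - I0 s)) =
        Complex.exp (Complex.log s) *
        Complex.exp (-(Z.map fun ρ => Complex.log (s - ρ + 1)).sum) *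
        Complex.exp (R s + E2 s - I0 s) := by
      rw [← Complex.exp_add, ← Complex.exp_add]
      ring_nf
    rw [e2]
    ring
  have hgb : ∀ ε : ℝ, 0 < ε → ∃ C : ℝ, ∀ s : ℂ, 1 / 2 + ε ≤ s.re →
          ‖(Z.map fun ρ => s - ρ).prod * Complex.exp (g s)‖ ≤ C * ‖s‖ * (2 + ‖s‖) ^ ε := by
    intro ε hε
    obtain ⟨C, hC⟩ := hRb ε hε
    obtain ⟨C2, hC2⟩ := hb2 ε hε
    obtain ⟨K, hK⟩ : ∃ K : ℝ, K = (1 + (Multiset.card Z : ℝ)) * ((x₀ - 1) * 1 ^ (-(0 : ℝ))) + C2 :=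
      ⟨_, rfl⟩
    refine ⟨3 ^ (Multiset.card Z) * Real.exp (C + K), fun s hs => ?_⟩
    have hs' : 1 / 2 < s.re := by linarith
    have hsne : s ≠ 0 := by
      intro h0
      rw [h0] at hs'
      simp at hs'
      linarith
    rw [hg]
    simp only
    unfold g0
    have e1 : (Z.map fun ρ => s - ρ).prod * Complex.exp
        (Complex.log s - (Z.map fun ρ => Complex.log (s - ρ + 1)).sum + (R s + E2 s - I0 s)) =
        ((Z.map fun ρ => s - ρ).prod *
          Complex.exp (-(Z.map fun ρ => Complex.log (s - ρ + 1)).sum)) * s *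
          Complex.exp (R s + E2 s - I0 s) := by
      rw [Complex.exp_add, sub_eq_add_neg, Complex.exp_add, Complex.exp_log hsne]
      ring
    rw [e1, norm_mul, norm_mul, Complex.norm_exp]
    have h1 := norm_prod_le hZ hs'
    have h2 : (R s + E2 s - I0 s).re ≤ C + ε * Real.log (2 + ‖s‖) + K := by
      rw [Complex.sub_re, Complex.add_re, hK]
      have h3 := (abs_le.1 (hC s hs)).2
      have h4 := norm_integral_cpow_le (h := fun u => (fZ Z u : ℂ)) one_pos
        (by linarith : (1 : ℝ) ≤ x₀) hfb (by positivity) (s := s) (σ := 0) le_rfl le_rfl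
        (by linarith)
      have h5 := (abs_le.1 ((Complex.abs_re_le_norm (I0 s)).trans h4)).1
      have h6 := (abs_le.1 ((Complex.abs_re_le_norm (E2 s)).trans (hC2 s hs))).2
      linarith
    have h6 : Real.exp (R s + E2 s - I0 s).re ≤ Real.exp (C + K) * (2 + ‖s‖) ^ ε := by
      rw [Real.rpow_def_of_pos (by positivity), ← Real.exp_add]
      apply Real.exp_le_exp.2
      linarith
    calc _ ≤ 3 ^ (Multiset.card Z) * ‖s‖ *
          (Real.exp (C + K) * (2 + ‖s‖) ^ ε) := by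
          apply mul_le_mul (mul_le_mul_of_nonneg_right h1 (norm_nonneg _)) h6
            (Real.exp_nonneg _) (by positivity)
      _ = _ := by ring
  set H : ℂ → ℂ := fun s => (Z.map fun ρ => s - ρ).prod * Complex.exp (g s) with hH
  have hHd : DifferentiableOn ℂ H {s : ℂ | 1 / 2 < s.re} := by
    apply DifferentiableOn.mul _ hgd.cexp
    have : ∀ Y : Multiset ℂ, Differentiable ℂ fun s : ℂ => (Y.map fun ρ => s - ρ).prod := by
      intro Y
      induction Y using Multiset.induction_on with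
      | empty => simp
      | cons ρ Y ih =>
        simp only [Multiset.map_cons, Multiset.prod_cons]
        exact (differentiable_id.sub_const ρ).mul ih
    exact (this Z).differentiableOn
  have hne : H 1 ≠ 0 := by
    apply mul_ne_zero _ (Complex.exp_ne_zero _)
    apply prod_sub_ne_zero
    intro ρ hρ h1
    have := hZ ρ hρ
    rw [h1] at this
    simp at this
  obtain ⟨κ, hκ0, hκ⟩ := kappa_pos hp2 hHd hgz hne
  refine ⟨⟨g, hgd, hgz, ?_⟩, ⟨κ, hκ0, fun ε hε => ?_⟩, fun s hs => ?_⟩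
  · intro ε hε
    obtain ⟨C, hC⟩ := hgb ε hε
    refine ⟨|C| * 2 ^ ε, fun s hs => (hC s hs).trans ?_⟩
    have h0 : 0 ≤ ‖s‖ := norm_nonneg s
    have h1 : (2 + ‖s‖) ^ ε ≤ 2 ^ ε * (1 + ‖s‖) ^ ε := by
      rw [← Real.mul_rpow (by norm_num) (by positivity)]
      exact Real.rpow_le_rpow (by positivity) (by linarith) hε.le
    calc C * ‖s‖ * (2 + ‖s‖) ^ ε ≤ |C| * (1 + ‖s‖) * (2 ^ ε * (1 + ‖s‖) ^ ε) := by
          apply mul_le_mul _ h1 (by positivity) (by positivity)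
          apply mul_le_mul (le_abs_self C) (by linarith) h0 (abs_nonneg C)
      _ = |C| * 2 ^ ε * (1 + ‖s‖) ^ (1 + ε) := by
          rw [Real.rpow_add (by positivity), Real.rpow_one]
          ring
  · exact count_asymp hp2 hV hHd hκ hgz (fun ε hε => hgb ε hε) hε
  · exact (summable_gint p hp2 s hs.le (hV _ hs)).of_norm

end Pool.Agent.H521.G
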