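import Pool.Agent.H521.G.Zeta
import Pool.Agent.H521.Count3

open MeasureTheory Set Filter Topology
open scoped ENNReal NNReal

namespace Pool.Agent.H521.G

variable {ι : Type*} [Countable ι] [Infinite ι]

/-- The counting function of generalised integers (with multiplicity). -/
noncomputable def countInt (p : ι → ℝ) (x : ℝ) : ℕ := Set.ncard {e : ι →₀ ℕ | gint p e ≤ x}

/-- The integrated counting function. -/
noncomputable def Aint (p : ι → ℝ) (x : ℝ) : ℝ := ∑' e : ι →₀ ℕ, max 0 (x - gint p e)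

theorem summable_gint_real (p : ι → ℝ) (hp : ∀ j, 2 ≤ p j)
    (hV : ∀ τ : ℝ, 1 < τ → Summable fun j => p j ^ (-τ)) {c : ℝ} (hc : 1 < c) :
    Summable fun e : ι →₀ ℕ => gint p e ^ (-c) := by
  have h := summable_gint p hp (c : ℂ) (by simpa using hc.le) (by simpa using hV c hc)
  refine h.congr fun e => ?_
  rw [Complex.norm_cpow_eq_rpow_re_of_pos (gint_pos (fun j => one_le_two.trans (hp j)) e)]
  simp

theorem finite_gint (p : ι → ℝ) (hp : ∀ j, 2 ≤ p j)
    (hV : ∀ τ : ℝ, 1 < τ → Summable fun j => p j ^ (-τ)) (x : ℝ) :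
    {e : ι →₀ ℕ | gint p e ≤ x}.Finite := by
  rcases le_or_gt x 0 with hx | hx
  · have : {e : ι →₀ ℕ | gint p e ≤ x} = ∅ := by
      ext e
      have := gint_pos (fun j => one_le_two.trans (hp j)) e
      simp only [mem_ofPred_eq, mem_empty_iff_false, iff_false, not_le]
      linarith
    rw [this]; exact finite_empty
  · have h1 := (summable_gint_real p hp hV one_lt_two).tendsto_cofinite_zero
    have h2 : ∀ᶠ e : ι →₀ ℕ in cofinite, gint p e ^ (-(2 : ℝ)) < x ^ (-(2 : ℝ)) :=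
      h1.eventually_lt_const (Real.rpow_pos_of_pos hx _)
    rw [eventually_cofinite] at h2
    refine h2.subset fun e he => ?_
    simp only [mem_ofPred_eq, not_lt] at he ⊢
    exact Real.rpow_le_rpow_of_nonpos (gint_pos (fun j => one_le_two.trans (hp j)) e) he
      (by norm_num)

theorem Aint_eq_sum (p : ι → ℝ) (hp : ∀ j, 2 ≤ p j)
    (hV : ∀ τ : ℝ, 1 < τ → Summable fun j => p j ^ (-τ)) {x y : ℝ} (hxy : x ≤ y) :
    Aint p x = ∑ e ∈ (finite_gint p hp hV y).toFinset, max 0 (x - gint p e) := by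
  unfold Aint
  apply tsum_eq_sum
  intro e he
  rw [Set.Finite.mem_toFinset] at he
  simp only [mem_ofPred_eq, not_le] at he
  exact max_eq_left (by linarith)

theorem count_le_Aint (p : ι → ℝ) (hp : ∀ j, 2 ≤ p j)
    (hV : ∀ τ : ℝ, 1 < τ → Summable fun j => p j ^ (-τ)) (x : ℝ) :
    (countInt p x : ℝ) ≤ Aint p (x + 1) - Aint p x := by
  classical
  rw [Aint_eq_sum p hp hV (le_refl (x + 1)), Aint_eq_sum p hp hV (by linarith : x ≤ x + 1),
    ← Finset.sum_sub_distrib]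
  have h1 : (countInt p x : ℝ) =
      ∑ e ∈ (finite_gint p hp hV (x + 1)).toFinset, if gint p e ≤ x then (1 : ℝ) else 0 := by
    rw [Finset.sum_boole, countInt]
    congr 1
    rw [← Set.ncard_coe_finset]
    congr 1
    ext e
    simp only [Finset.coe_filter, Set.Finite.mem_toFinset, mem_ofPred_eq]
    constructor
    · intro h; exact ⟨by linarith, h⟩
    · intro h; exact h.2
  rw [h1]
  apply Finset.sum_le_sum
  intro e _
  split_ifs with h
  · rw [max_eq_right (by linarith), max_eq_right (by linarith)]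
    linarith
  · push Not at h
    rw [max_eq_left (by linarith : x - gint p e ≤ 0)]
    have := le_max_left (0 : ℝ) (x + 1 - gint p e)
    linarith

theorem Aint_le_count (p : ι → ℝ) (hp : ∀ j, 2 ≤ p j)
    (hV : ∀ τ : ℝ, 1 < τ → Summable fun j => p j ^ (-τ)) (x : ℝ) :
    Aint p (x + 1) - Aint p x ≤ (countInt p (x + 1) : ℝ) := by
  classical
  rw [Aint_eq_sum p hp hV (le_refl (x + 1)), Aint_eq_sum p hp hV (by linarith : x ≤ x + 1),
    ← Finset.sum_sub_distrib]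
  have h1 : (countInt p (x + 1) : ℝ) =
      ∑ e ∈ (finite_gint p hp hV (x + 1)).toFinset, (1 : ℝ) := by
    rw [Finset.sum_const, nsmul_eq_mul, mul_one, countInt,
      Set.ncard_eq_toFinset_card _ (finite_gint p hp hV (x + 1))]
  rw [h1]
  apply Finset.sum_le_sum
  intro e _
  rcases le_total (x + 1 - gint p e) 0 with h | h
  · rw [max_eq_left h, max_eq_left (by linarith : x - gint p e ≤ 0)]
    norm_num
  · rw [max_eq_right h]
    have := le_max_right (0 : ℝ) (x - gint p e)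
    linarith

theorem zetaB_two (p : ι → ℝ) (hp : ∀ j, 2 ≤ p j)
    (hV : ∀ τ : ℝ, 1 < τ → Summable fun j => p j ^ (-τ)) {x : ℝ} (hx : 0 < x) :
    ((Aint p x : ℝ) : ℂ) = ((1 / (2 * Real.pi) : ℝ) : ℂ) * ∫ y : ℝ,
      (x : ℂ) ^ ((2 : ℝ) + y * Complex.I + 1 : ℂ) * (zetaB p ((2 : ℝ) + y * Complex.I) *
        (1 / (((2 : ℝ) + y * Complex.I : ℂ) * ((2 : ℝ) + y * Complex.I + 1)))) := by
  have hxne : (x : ℂ) ≠ 0 := by exact_mod_cast hx.ne'
  have hg : ∀ e, 0 < gint p e := gint_pos fun j => one_le_two.trans (hp j)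
  set F : (ι →₀ ℕ) → ℝ → ℂ := fun e y => (((gint p e / x : ℝ)) : ℂ) ^ (-(((2 : ℝ) : ℂ) + y * Complex.I)) *
      (1 / ((((2 : ℝ) : ℂ) + y * Complex.I) * (((2 : ℝ) : ℂ) + y * Complex.I + 1))) with hF
  have hk : Integrable fun y : ℝ =>
      (1 / ((((2 : ℝ) : ℂ) + y * Complex.I) * (((2 : ℝ) : ℂ) + y * Complex.I + 1))) := by
    apply integrable_of_le_japanese (C := 16) (r := 2) _ one_lt_two
    · intro y
      have hy : 0 < 1 + |y| := by positivity
      have h1 := norm_ge_one_add (c := 2) (by norm_num) y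
      have h2 := norm_ge_one_add (c := 2 + 1) (by norm_num) y
      rw [norm_div, norm_one, norm_mul]
      have h3 : (((2 + 1 : ℝ) : ℂ) + y * Complex.I) = ((2 : ℝ) : ℂ) + y * Complex.I + 1 := by
        push_cast; ring
      rw [h3] at h2
      rw [Real.rpow_neg hy.le, div_le_iff₀ (mul_pos (by linarith) (by linarith))]
      have h4 := mul_le_mul h1 h2 (by positivity) (norm_nonneg _)
      have h5 : (1 + |y|) ^ (2 : ℝ) = (1 + |y|) * (1 + |y|) := by
        rw [show (2 : ℝ) = ((2 : ℕ) : ℝ) by norm_num, Real.rpow_natCast]; ring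
      rw [h5]
      calc (1 : ℝ) = 16 * ((1 + |y|) * (1 + |y|))⁻¹ * (((1 + |y|) / 4) * ((1 + |y|) / 4)) := by
            field_simp; norm_num
        _ ≤ _ := mul_le_mul_of_nonneg_left h4 (by positivity)
    · apply Continuous.aestronglyMeasurable
      apply Continuous.div continuous_const (by fun_prop)
      intro y h
      rcases mul_eq_zero.1 h with h | h
      · have := congrArg Complex.re h
        simp at this
      · have := congrArg Complex.re h
        simp at this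
        linarith
  have hnF : ∀ e y, ‖F e y‖ = (gint p e / x) ^ (-(2 : ℝ)) *
      ‖(1 / ((((2 : ℝ) : ℂ) + y * Complex.I) * (((2 : ℝ) : ℂ) + y * Complex.I + 1)))‖ := by
    intro e y
    rw [hF]
    simp only
    rw [norm_mul, Complex.norm_cpow_eq_rpow_re_of_pos (div_pos (hg e) hx)]
    simp
  have hFi : ∀ e, Integrable (F e) := by
    intro e
    have hm : AEStronglyMeasurable (F e) volume := by
      apply AEStronglyMeasurable.mul _ hk.aestronglyMeasurable
      apply Continuous.aestronglyMeasurable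
      apply Continuous.const_cpow (by fun_prop)
      left
      exact_mod_cast (div_pos (hg e) hx).ne'
    refine Integrable.mono' ((hk.norm).const_mul ((gint p e / x) ^ (-(2 : ℝ)))) hm
      (Eventually.of_forall fun y => ?_)
    rw [hnF]
  have hsum : Summable fun e => ∫ y, ‖F e y‖ := by
    simp_rw [hnF, integral_const_mul]
    apply Summable.mul_right
    have h1 : (fun e : ι →₀ ℕ => (gint p e / x) ^ (-(2 : ℝ))) =
        fun e => gint p e ^ (-(2 : ℝ)) * x ^ (2 : ℝ) := by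
      ext e
      rw [Real.div_rpow (hg e).le hx.le, Real.rpow_neg hx.le 2]
      field_simp
    rw [h1]
    exact (summable_gint_real p hp hV one_lt_two).mul_right _
  have hHS := hasSum_integral_of_summable_integral_norm hFi hsum
  have hterm : ∀ e, ((max 0 (1 - gint p e / x) : ℝ) : ℂ) =
      ((1 / (2 * Real.pi) : ℝ) : ℂ) * ∫ y, F e y := by
    intro e
    rw [hF]
    exact (perron1 (c := 2) (by norm_num) (div_pos (hg e) hx)).symm
  have hA : ((Aint p x : ℝ) : ℂ) = (x : ℂ) * ∑' e, ((max 0 (1 - gint p e / x) : ℝ) : ℂ) := by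
    unfold Aint
    rw [Complex.ofReal_tsum, ← tsum_mul_left]
    apply tsum_congr
    intro e
    have : max 0 (x - gint p e) = x * max 0 (1 - gint p e / x) := by
      rw [mul_max_of_nonneg _ _ hx.le, mul_zero]
      congr 1
      field_simp
    rw [this]
    push_cast
    rfl
  rw [hA]
  simp_rw [hterm]
  rw [tsum_mul_left, hHS.tsum_eq, mul_left_comm]
  congr 1
  rw [← integral_const_mul]
  apply integral_congr_ae
  filter_upwards with y
  rw [hF]
  simp only
  rw [tsum_mul_right]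
  unfold zetaB
  have h3 : ∑' e : ι →₀ ℕ, (((gint p e / x : ℝ)) : ℂ) ^ (-(((2 : ℝ) : ℂ) + y * Complex.I)) =
      (∑' e : ι →₀ ℕ, ((gint p e : ℝ) : ℂ) ^ (-(((2 : ℝ) : ℂ) + y * Complex.I))) *
        (x : ℂ) ^ (((2 : ℝ) : ℂ) + y * Complex.I) := by
    rw [← tsum_mul_right]
    apply tsum_congr
    intro e
    rw [div_eq_mul_inv, Complex.ofReal_mul, Complex.mul_cpow_ofReal_nonneg (hg e).le
      (inv_nonneg.2 hx.le)]
    congr 1
    rw [Complex.ofReal_inv, Complex.inv_cpow, Complex.cpow_neg, inv_inv]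
    rw [Complex.arg_ofReal_of_nonneg hx.le]
    exact Real.pi_ne_zero.symm
  rw [h3, Complex.cpow_add _ 1 hxne, Complex.cpow_one]
  ring

/-- Perron's formula on the shifted line. -/
theorem Aint_formula {p : ι → ℝ} (hp : ∀ j, 2 ≤ p j)
    (hV : ∀ τ : ℝ, 1 < τ → Summable fun j => p j ^ (-τ)) {H : ℂ → ℂ} {κ : ℝ}
    (hH : DifferentiableOn ℂ H {s : ℂ | 1 / 2 < s.re}) (hκ : H 1 = κ)
    (hz : ∀ s : ℂ, 1 < s.re → (s - 1) * zetaB p s = H s)
    (hb : ∀ ε : ℝ, 0 < ε → ∃ C : ℝ, ∀ s : ℂ, 1 / 2 + ε ≤ s.re →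
      ‖H s‖ ≤ C * ‖s‖ * (2 + ‖s‖) ^ ε) {ε : ℝ} (hε : 0 < ε) (hε2 : ε ≤ 1 / 2)
    {x : ℝ} (hx : 1 ≤ x) :
    (((Aint p x - κ * ((x ^ 2 - 1) / 2) : ℝ)) : ℂ) = ((1 / (2 * Real.pi) : ℝ) : ℂ) * ∫ y : ℝ,
      (x : ℂ) ^ ((((1 / 2 + ε : ℝ) : ℂ) + y * Complex.I) + 1) *
        Qf H κ (((1 / 2 + ε : ℝ) : ℂ) + y * Complex.I) := by
  have hx0 : 0 < x := by linarith
  have hxne : (x : ℂ) ≠ 0 := by exact_mod_cast hx0.ne'
  obtain ⟨C, hC0, hC⟩ := Qf_bound' hH hκ hb hε hε2
  set G : ℂ → ℂ := fun s => (x : ℂ) ^ (s + 1) * Qf H κ s with hG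
  have hGd : DifferentiableOn ℂ G {s : ℂ | 1 / 2 < s.re} := by
    apply DifferentiableOn.mul _ (Qf_diff hH)
    intro s _
    have : DifferentiableAt ℂ (fun s : ℂ => (x : ℂ) ^ (s + 1)) s :=
      (differentiableAt_id.add_const 1).const_cpow (Or.inl hxne)
    exact this.differentiableWithinAt
  have hGb : ∀ s : ℂ, 1 / 2 + ε ≤ s.re → s.re ≤ 2 →
      ‖G s‖ ≤ (x ^ (3 : ℝ) * C) * (1 + |s.im|) ^ (-(3 / 2 : ℝ)) := by
    intro s h1 h2
    rw [hG]
    simp only
    rw [norm_mul, Complex.norm_cpow_eq_rpow_re_of_pos hx0, mul_assoc]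
    apply mul_le_mul _ (hC s h1) (norm_nonneg _) (by positivity)
    apply Real.rpow_le_rpow_of_exponent_le hx
    simp
    linarith
  have hshift := contour_shift (σ₀ := 1 / 2 + ε) (c := 2) (by linarith) (by linarith)
    (by norm_num : (1 : ℝ) < 3 / 2) hGd hGb
  have hGi : Integrable fun y : ℝ => G (((2 : ℝ) : ℂ) + y * Complex.I) := by
    apply integrable_of_le_japanese (C := x ^ (3 : ℝ) * C) (r := 3 / 2)
      (continuous_vertical hGd (by norm_num)).aestronglyMeasurable (by norm_num)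
    intro y
    have := hGb (((2 : ℝ) : ℂ) + y * Complex.I) (by simp; linarith) (by simp)
    simpa using this
  -- the main term
  have hne : ∀ y : ℝ, (((2 : ℝ) : ℂ) + y * Complex.I - 1) ≠ 0 := by
    intro y h
    have := congrArg Complex.re h
    simp at this
    linarith
  have hne1 : ∀ y : ℝ, (((2 : ℝ) : ℂ) + y * Complex.I + 1) ≠ 0 := by
    intro y h
    have := congrArg Complex.re h
    simp at this
    linarith
  have hne0 : ∀ y : ℝ, (((2 : ℝ) : ℂ) + y * Complex.I) ≠ 0 := by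
    intro y h
    have := congrArg Complex.re h
    simp at this
  have hmi : Integrable fun y : ℝ => (x : ℂ) ^ (((2 : ℝ) : ℂ) + y * Complex.I) *
      (1 / (((((2 : ℝ) : ℂ) + y * Complex.I) - 1) * (((2 : ℝ) : ℂ) + y * Complex.I + 1))) := by
    apply integrable_of_le_japanese (C := x ^ (2 : ℝ) * 16) (r := 2) _ one_lt_two
    · intro y
      have hy : 0 < 1 + |y| := by positivity
      have h1 := norm_ge_one_add (c := 2 - 1) (by norm_num) y
      have h2 := norm_ge_one_add (c := 2 + 1) (by norm_num) y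
      rw [norm_mul, norm_div, norm_one, norm_mul, Complex.norm_cpow_eq_rpow_re_of_pos hx0]
      have h3 : (((2 + 1 : ℝ) : ℂ) + y * Complex.I) = ((2 : ℝ) : ℂ) + y * Complex.I + 1 := by
        push_cast; ring
      have h3' : (((2 - 1 : ℝ) : ℂ) + y * Complex.I) = ((2 : ℝ) : ℂ) + y * Complex.I - 1 := by
        push_cast; ring
      rw [h3] at h2
      rw [h3'] at h1
      have hre : ((((2 : ℝ) : ℂ) + y * Complex.I)).re = 2 := by simp
      rw [hre, mul_assoc]
      apply mul_le_mul_of_nonneg_left _ (by positivity)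
      rw [Real.rpow_neg hy.le, div_le_iff₀ (mul_pos (by linarith) (by linarith))]
      have h4 := mul_le_mul h1 h2 (by positivity) (norm_nonneg _)
      have h5 : (1 + |y|) ^ (2 : ℝ) = (1 + |y|) * (1 + |y|) := by
        rw [show (2 : ℝ) = ((2 : ℕ) : ℝ) by norm_num, Real.rpow_natCast]; ring
      rw [h5]
      calc (1 : ℝ) = 16 * ((1 + |y|) * (1 + |y|))⁻¹ * (((1 + |y|) / 4) * ((1 + |y|) / 4)) := by
            field_simp; norm_num
        _ ≤ _ := mul_le_mul_of_nonneg_left h4 (by positivity)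
    · apply Continuous.aestronglyMeasurable
      apply Continuous.mul
      · exact Continuous.const_cpow (by fun_prop) (Or.inl hxne)
      · apply Continuous.div continuous_const (by fun_prop)
        intro y
        exact mul_ne_zero (hne y) (hne1 y)
  have hA := zetaB_two p hp hV hx0
  have hP := perron2 (c := 2) (by norm_num) hx
  have hsplit : ∀ y : ℝ, (x : ℂ) ^ ((2 : ℝ) + y * Complex.I + 1 : ℂ) *
      (zetaB p ((2 : ℝ) + y * Complex.I) *
        (1 / (((2 : ℝ) + y * Complex.I : ℂ) * ((2 : ℝ) + y * Complex.I + 1)))) =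
      G (((2 : ℝ) : ℂ) + y * Complex.I) + (κ : ℂ) * x * ((x : ℂ) ^ (((2 : ℝ) : ℂ) + y * Complex.I) *
      (1 / (((((2 : ℝ) : ℂ) + y * Complex.I) - 1) * (((2 : ℝ) : ℂ) + y * Complex.I + 1)))) := by
    intro y
    have hz' := hz (((2 : ℝ) : ℂ) + y * Complex.I) (by simp)
    have hs1 : (((2 : ℝ) : ℂ) + y * Complex.I) ≠ 1 := fun h => hne y (by rw [h]; ring)
    rw [hG]
    simp only
    unfold Qf
    rw [Rg_eq hκ hs1, ← hz', Complex.cpow_add _ 1 hxne, Complex.cpow_one]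
    have a1 := hne y
    have a2 := hne1 y
    have a3 := hne0 y
    generalize (((2 : ℝ) : ℂ) + y * Complex.I) = s at *
    field_simp
    ring
  simp_rw [hsplit] at hA
  rw [integral_add hGi (hmi.const_mul _), integral_const_mul, mul_add] at hA
  have hP' : ((1 / (2 * Real.pi) : ℝ) : ℂ) * ((κ : ℂ) * x * ∫ y : ℝ,
      (x : ℂ) ^ (((2 : ℝ) : ℂ) + y * Complex.I) *
      (1 / (((((2 : ℝ) : ℂ) + y * Complex.I) - 1) * (((2 : ℝ) : ℂ) + y * Complex.I + 1)))) =
      ((κ * ((x ^ 2 - 1) / 2) : ℝ) : ℂ) := by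
    rw [mul_left_comm, hP, ← Complex.ofReal_mul, ← Complex.ofReal_mul]
    congr 1
    field_simp
  rw [hP'] at hA
  rw [Complex.ofReal_sub, hA, add_sub_cancel_right]
  congr 1
  exact hshift.symm

theorem Aint_diff {p : ι → ℝ} (hp : ∀ j, 2 ≤ p j)
    (hV : ∀ τ : ℝ, 1 < τ → Summable fun j => p j ^ (-τ)) {H : ℂ → ℂ} {κ : ℝ}
    (hH : DifferentiableOn ℂ H {s : ℂ | 1 / 2 < s.re}) (hκ : H 1 = κ)
    (hz : ∀ s : ℂ, 1 < s.re → (s - 1) * zetaB p s = H s)
    (hb : ∀ ε : ℝ, 0 < ε → ∃ C : ℝ, ∀ s : ℂ, 1 / 2 + ε ≤ s.re →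
      ‖H s‖ ≤ C * ‖s‖ * (2 + ‖s‖) ^ ε) {ε : ℝ} (hε : 0 < ε) (hε2 : ε ≤ 1 / 2) :
    ∃ C : ℝ, 0 ≤ C ∧ ∀ x : ℝ, 1 ≤ x →
      |Aint p (x + 1) - Aint p x - κ * (x + 1 / 2)| ≤ C * (x + 1) ^ (1 / 2 + 3 * ε) := by
  obtain ⟨C, hC0, hC⟩ := Qf_bound hH hκ hb hε
  obtain ⟨C', hC'0, hC'⟩ := Qf_bound' hH hκ hb hε hε2
  set J : ℝ := ∫ y : ℝ, (1 + ‖y‖) ^ (-(1 + ε)) with hJ
  have hJi : Integrable fun y : ℝ => (1 + ‖y‖) ^ (-(1 + ε)) :=
    integrable_one_add_norm (by simp; linarith)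
  have hJ0 : 0 ≤ J := integral_nonneg fun y => by positivity
  refine ⟨2 * C * J, by positivity, fun x hx => ?_⟩
  have hx0 : 0 < x := by linarith
  have hX0 : 0 < x + 1 := by linarith
  have f1 := Aint_formula hp hV hH hκ hz hb hε hε2 hx
  have f2 := Aint_formula hp hV hH hκ hz hb hε hε2 (x := x + 1) (by linarith)
  set σ₀ : ℝ := 1 / 2 + ε with hσ₀
  have hGi : ∀ z : ℝ, 1 ≤ z → Integrable fun y : ℝ =>
      (z : ℂ) ^ (((σ₀ : ℂ) + y * Complex.I) + 1) * Qf H κ ((σ₀ : ℂ) + y * Complex.I) := by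
    intro z hz1
    have hz0 : 0 < z := by linarith
    apply integrable_of_le_japanese (C := z ^ (σ₀ + 1) * C') (r := 3 / 2) _ (by norm_num)
    · intro y
      have h1 := hC' ((σ₀ : ℂ) + y * Complex.I) (by simp [hσ₀])
      rw [norm_mul, Complex.norm_cpow_eq_rpow_re_of_pos hz0, mul_assoc]
      have hre : ((σ₀ : ℂ) + y * Complex.I + 1).re = σ₀ + 1 := by simp
      rw [hre]
      apply mul_le_mul_of_nonneg_left _ (by positivity)
      simpa using h1
    · apply Continuous.aestronglyMeasurable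
      apply Continuous.mul
      · exact Continuous.const_cpow (by fun_prop) (Or.inl (by exact_mod_cast hz0.ne'))
      · exact continuous_vertical (Qf_diff hH) (by rw [hσ₀]; linarith)
  have hdiff : (((Aint p (x + 1) - Aint p x - κ * (x + 1 / 2) : ℝ)) : ℂ) =
      ((1 / (2 * Real.pi) : ℝ) : ℂ) * ∫ y : ℝ,
        (((x + 1 : ℝ) : ℂ) ^ (((σ₀ : ℂ) + y * Complex.I) + 1) -
          (x : ℂ) ^ (((σ₀ : ℂ) + y * Complex.I) + 1)) * Qf H κ ((σ₀ : ℂ) + y * Complex.I) := by
    simp_rw [sub_mul]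
    rw [integral_sub (hGi (x + 1) (by linarith)) (hGi x hx), mul_sub, ← f1, ← f2,
      ← Complex.ofReal_sub]
    congr 1
    ring
  have hnorm : |Aint p (x + 1) - Aint p x - κ * (x + 1 / 2)| =
      ‖(((Aint p (x + 1) - Aint p x - κ * (x + 1 / 2) : ℝ)) : ℂ)‖ := by
    rw [Complex.norm_real, Real.norm_eq_abs]
  rw [hnorm, hdiff, norm_mul]
  have hbound : ‖∫ y : ℝ, (((x + 1 : ℝ) : ℂ) ^ (((σ₀ : ℂ) + y * Complex.I) + 1) -
          (x : ℂ) ^ (((σ₀ : ℂ) + y * Complex.I) + 1)) * Qf H κ ((σ₀ : ℂ) + y * Complex.I)‖ ≤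
      ∫ y : ℝ, (2 * C * (x + 1) ^ (1 / 2 + 3 * ε)) * (1 + ‖y‖) ^ (-(1 + ε)) := by
    apply norm_integral_le_of_norm_le (hJi.const_mul _)
    refine Eventually.of_forall fun y => ?_
    set s : ℂ := (σ₀ : ℂ) + y * Complex.I with hs
    have hre : s.re = σ₀ := by simp [hs]
    have him : s.im = y := by simp [hs]
    have h1 := norm_cpow_diff_le hx (s := s) (by rw [hre, hσ₀]; linarith) (θ := 2 * ε)
      (by linarith) (by linarith)
    have h2 := hC s (by rw [hre])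
    have hpos : 0 < 2 + ‖s‖ := by positivity
    rw [norm_mul]
    calc _ ≤ (2 * (2 + ‖s‖) ^ (1 - 2 * ε) * (x + 1) ^ (s.re + 2 * ε)) *
          (C * (2 + ‖s‖) ^ (ε - 2)) := mul_le_mul h1 h2 (norm_nonneg _) (by positivity)
      _ = 2 * C * (x + 1) ^ (1 / 2 + 3 * ε) * (2 + ‖s‖) ^ (-(1 + ε)) := by
          have e1 : (2 + ‖s‖) ^ (-(1 + ε)) = (2 + ‖s‖) ^ (1 - 2 * ε) * (2 + ‖s‖) ^ (ε - 2) := by
            rw [← Real.rpow_add hpos]
            congr 1
            ring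
          have e2 : s.re + 2 * ε = 1 / 2 + 3 * ε := by rw [hre, hσ₀]; ring
          rw [e1, e2]
          ring
      _ ≤ _ := by
          apply mul_le_mul_of_nonneg_left _ (by positivity)
          apply Real.rpow_le_rpow_of_nonpos (by positivity) _ (by linarith)
          have := one_add_im_le (s := s)
          rw [him] at this
          exact this
  rw [integral_const_mul] at hbound
  have hpi : ‖((1 / (2 * Real.pi) : ℝ) : ℂ)‖ ≤ 1 := by
    rw [Complex.norm_real, Real.norm_eq_abs, abs_of_pos (by positivity)]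
    rw [div_le_one (by positivity)]
    linarith [Real.pi_gt_three]
  calc _ ≤ 1 * ‖∫ y : ℝ, (((x + 1 : ℝ) : ℂ) ^ (((σ₀ : ℂ) + y * Complex.I) + 1) -
          (x : ℂ) ^ (((σ₀ : ℂ) + y * Complex.I) + 1)) * Qf H κ ((σ₀ : ℂ) + y * Complex.I)‖ :=
        mul_le_mul_of_nonneg_right hpi (norm_nonneg _)
    _ ≤ 2 * C * (x + 1) ^ (1 / 2 + 3 * ε) * J := by rw [one_mul]; exact hbound
    _ = _ := by ring

/-- The counting theorem: `N(x) = κ x + O(x^{1/2+δ})`. -/
theorem count_asymp {p : ι → ℝ} (hp : ∀ j, 2 ≤ p j)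
    (hV : ∀ τ : ℝ, 1 < τ → Summable fun j => p j ^ (-τ)) {H : ℂ → ℂ} {κ : ℝ}
    (hH : DifferentiableOn ℂ H {s : ℂ | 1 / 2 < s.re}) (hκ : H 1 = κ)
    (hz : ∀ s : ℂ, 1 < s.re → (s - 1) * zetaB p s = H s)
    (hb : ∀ ε : ℝ, 0 < ε → ∃ C : ℝ, ∀ s : ℂ, 1 / 2 + ε ≤ s.re →
      ‖H s‖ ≤ C * ‖s‖ * (2 + ‖s‖) ^ ε) {δ : ℝ} (hδ : 0 < δ) :
    ∃ C : ℝ, ∀ x : ℝ, 1 ≤ x → |(countInt p x : ℝ) - κ * x| ≤ C * x ^ (1 / 2 + δ) := by
  set ε : ℝ := min (δ / 3) (1 / 2) with hε
  have hε0 : 0 < ε := by rw [hε]; positivity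
  have hε1 : ε ≤ 1 / 2 := min_le_right _ _
  have hε2 : 3 * ε ≤ δ := by
    have := min_le_left (δ / 3) (1 / 2)
    rw [← hε] at this
    linarith
  obtain ⟨C, hC0, hC⟩ := Aint_diff hp hV hH hκ hz hb hε0 hε1
  -- x + 1 ≤ 2 x
  have hpow : ∀ x : ℝ, 1 ≤ x → (x + 1) ^ (1 / 2 + 3 * ε) ≤ 4 * x ^ (1 / 2 + δ) := by
    intro x hx
    calc (x + 1) ^ (1 / 2 + 3 * ε) ≤ (2 * x) ^ (1 / 2 + 3 * ε) :=
          Real.rpow_le_rpow (by linarith) (by linarith) (by positivity)
      _ = 2 ^ (1 / 2 + 3 * ε) * x ^ (1 / 2 + 3 * ε) := Real.mul_rpow (by norm_num) (by linarith)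
      _ ≤ 2 ^ (2 : ℝ) * x ^ (1 / 2 + δ) := by
          apply mul_le_mul
          · exact Real.rpow_le_rpow_of_exponent_le one_le_two (by linarith)
          · exact Real.rpow_le_rpow_of_exponent_le hx (by linarith)
          · positivity
          · positivity
      _ = _ := by norm_num
  have hone : ∀ x : ℝ, 1 ≤ x → 1 ≤ x ^ (1 / 2 + δ) := fun x hx =>
    Real.one_le_rpow hx (by positivity)
  refine ⟨4 * C + 2 * |κ|, fun x hx => ?_⟩
  have h1 := hone x hx
  have hκ0 : 0 ≤ |κ| := abs_nonneg κ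
  have hup : (countInt p x : ℝ) - κ * x ≤ (4 * C + 2 * |κ|) * x ^ (1 / 2 + δ) := by
    have h2 := count_le_Aint p hp hV x
    have h3 := (abs_le.1 (hC x hx)).2
    have h4 := hpow x hx
    have h5 : C * (x + 1) ^ (1 / 2 + 3 * ε) ≤ C * (4 * x ^ (1 / 2 + δ)) :=
      mul_le_mul_of_nonneg_left h4 hC0
    have h6 := le_abs_self κ
    nlinarith
  have hlo : -((4 * C + 2 * |κ|) * x ^ (1 / 2 + δ)) ≤ (countInt p x : ℝ) - κ * x := by
    rcases le_or_gt x 2 with hx2 | hx2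
    · have h2 : (0 : ℝ) ≤ countInt p x := Nat.cast_nonneg _
      have h3 : κ * x ≤ 2 * |κ| := by
        have := le_abs_self κ
        nlinarith
      have h4 : 2 * |κ| * 1 ≤ 2 * |κ| * x ^ (1 / 2 + δ) :=
        mul_le_mul_of_nonneg_left h1 (by positivity)
      have h5 : 0 ≤ 4 * C * x ^ (1 / 2 + δ) := by positivity
      nlinarith
    · have h2 := Aint_le_count p hp hV (x - 1)
      have h3 := (abs_le.1 (hC (x - 1) (by linarith))).1
      rw [sub_add_cancel] at h2 h3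
      have h4 : x ^ (1 / 2 + 3 * ε) ≤ 4 * x ^ (1 / 2 + δ) :=
        le_trans (Real.rpow_le_rpow (by linarith) (by linarith) (by positivity)) (hpow x hx)
      have h5 : C * x ^ (1 / 2 + 3 * ε) ≤ C * (4 * x ^ (1 / 2 + δ)) :=
        mul_le_mul_of_nonneg_left h4 hC0
      have h6 := le_abs_self κ
      have h7 := neg_abs_le κ
      nlinarith
  exact abs_le.2 ⟨hlo, hup⟩

end Pool.Agent.H521.G
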