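import Mathlib

open MeasureTheory Set Filter Topology

namespace Pool.Agent.H521.G

theorem polyUp_mono {g M : ℕ → ℕ} (hg : ∀ j, g (j + 1) = g j + M j) (hM0 : ∀ j, 0 < M j) :
    StrictMono g :=
  strictMono_nat_of_lt_succ fun j => by
    rw [hg]
    have := hM0 j
    omega

theorem polyUp_tend {g M : ℕ → ℕ} (hg : ∀ j, g (j + 1) = g j + M j) (hM0 : ∀ j, 0 < M j) :
    Tendsto (fun j => (g j : ℝ)) atTop atTop :=
  tendsto_natCast_atTop_atTop.comp (polyUp_mono hg hM0).tendsto_atTop

theorem polyUp_sum {g M : ℕ → ℕ} (hg : ∀ j, g (j + 1) = g j + M j) {j0 J : ℕ} (hJ : j0 ≤ J) :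
    (g j0 : ℝ) + ∑ j ∈ Finset.Ico j0 J, (M j : ℝ) = g J := by
  induction J, hJ using Nat.le_induction with
  | base => simp
  | succ J hJ ih =>
    rw [Finset.sum_Ico_succ_top hJ, ← add_assoc, ih, hg]
    push_cast
    ring

/-- the blocks with small starting point -/
theorem polyUp_small {g M : ℕ → ℕ} (hg : ∀ j, g (j + 1) = g j + M j) {j0 J : ℕ} (hJ : j0 ≤ J)
    (hM : ∀ j, j0 ≤ j → M j ≤ g j) {s : ℝ} (hs : 0 ≤ s) :
    ∑ j ∈ Finset.Ico j0 J, (if (g j : ℝ) ≤ s then (M j : ℝ) else 0) ≤ 2 * s := by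
  induction J, hJ using Nat.le_induction with
  | base =>
    simp only [Finset.Ico_self, Finset.sum_empty]
    positivity
  | succ J hJ ih =>
    rw [Finset.sum_Ico_succ_top hJ]
    by_cases h : (g J : ℝ) ≤ s
    · rw [if_pos h]
      have h1 : ∑ j ∈ Finset.Ico j0 J, (if (g j : ℝ) ≤ s then (M j : ℝ) else 0) ≤ g J := by
        have h2 := polyUp_sum hg hJ
        have h3 : ∑ j ∈ Finset.Ico j0 J, (if (g j : ℝ) ≤ s then (M j : ℝ) else 0) ≤
            ∑ j ∈ Finset.Ico j0 J, (M j : ℝ) := by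
          refine Finset.sum_le_sum fun j _ => ?_
          split_ifs
          · exact le_rfl
          · positivity
        have h4 : (0 : ℝ) ≤ g j0 := by positivity
        linarith
      have h5 : (M J : ℝ) ≤ g J := by exact_mod_cast hM J hJ
      linarith
    · rw [if_neg h, add_zero]
      exact ih

/-- the comparison at the end of the upper bound -/
theorem polyUp_final (A b ε : ℝ) (hb : 0 ≤ b) (hε : 0 < ε) :
    ∀ᶠ x : ℝ in atTop, A + 2 * Real.sqrt x + 2 ^ b * x * Real.log x ^ (-b) ≤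
      x * Real.log x ^ (-b + ε) := by
  have h1 : ∀ᶠ x : ℝ in atTop, Real.log x ^ b ≤ x ^ (1 / 4 : ℝ) := by
    have h := (isLittleO_log_rpow_rpow_atTop b (show (0 : ℝ) < 1 / 4 by norm_num)).bound
      (show (0 : ℝ) < 1 by norm_num)
    filter_upwards [h, eventually_ge_atTop (1 : ℝ)] with x hx hx1
    rw [one_mul, Real.norm_of_nonneg (Real.rpow_nonneg (Real.log_nonneg hx1) _),
      Real.norm_of_nonneg (by positivity)] at hx
    exact hx
  have h2 : ∀ᶠ x : ℝ in atTop, (2 : ℝ) ^ b + 1 ≤ Real.log x ^ ε :=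
    ((tendsto_rpow_atTop hε).comp Real.tendsto_log_atTop).eventually_ge_atTop _
  have h3 : ∀ᶠ x : ℝ in atTop, (3 : ℝ) ≤ x ^ (1 / 4 : ℝ) :=
    (tendsto_rpow_atTop (by norm_num)).eventually_ge_atTop _
  filter_upwards [h1, h2, h3, eventually_ge_atTop (A ^ 2 + 1),
    Real.tendsto_log_atTop.eventually_ge_atTop 1, eventually_ge_atTop (1 : ℝ)]
    with x hx1 hx2 hx3 hx4 hx5 hx6
  have hx0 : 0 < x := by linarith
  have hL : 0 < Real.log x := by linarith
  have hsq : A ≤ Real.sqrt x := by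
    refine Real.le_sqrt_of_sq_le ?_
    linarith
  have hhalf : Real.sqrt x = x ^ (1 / 2 : ℝ) := Real.sqrt_eq_rpow x
  have hq : x ^ (1 / 2 : ℝ) * x ^ (1 / 4 : ℝ) * x ^ (1 / 4 : ℝ) = x := by
    rw [← Real.rpow_add hx0, ← Real.rpow_add hx0]
    norm_num
  have hLb : 0 < Real.log x ^ b := Real.rpow_pos_of_pos hL _
  have key : A + 2 * Real.sqrt x ≤ x * Real.log x ^ (-b) := by
    rw [Real.rpow_neg hL.le, ← div_eq_mul_inv, le_div_iff₀ hLb]
    calc (A + 2 * Real.sqrt x) * Real.log x ^ b ≤ (3 * Real.sqrt x) * x ^ (1 / 4 : ℝ) := by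
          refine mul_le_mul (by linarith) hx1 hLb.le (by positivity)
      _ = x ^ (1 / 2 : ℝ) * x ^ (1 / 4 : ℝ) * 3 := by rw [hhalf]; ring
      _ ≤ x ^ (1 / 2 : ℝ) * x ^ (1 / 4 : ℝ) * x ^ (1 / 4 : ℝ) := by gcongr
      _ = x := hq
  have hfin : x * Real.log x ^ (-b + ε) = x * Real.log x ^ (-b) * Real.log x ^ ε := by
    rw [Real.rpow_add hL]
    ring
  have hnn : 0 ≤ x * Real.log x ^ (-b) := by positivity
  rw [hfin]
  nlinarith [mul_le_mul_of_nonneg_left hx2 hnn]

/-- Upper bound for sums of block counts. -/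
theorem poly_up {g M cnt : ℕ → ℕ} (hg : ∀ j, g (j + 1) = g j + M j) (hM0 : ∀ j, 0 < M j)
    (hMg : ∀ᶠ j in atTop, M j ≤ g j) {b : ℝ} (hb : 0 ≤ b)
    (h : ∀ᶠ j in atTop, (cnt j : ℝ) ≤ M j * Real.log (g j) ^ (-b)) {ε : ℝ} (hε : 0 < ε) :
    ∀ᶠ J in atTop, ((∑ j ∈ Finset.range J, cnt j : ℕ) : ℝ) ≤
      g J * Real.log (g J) ^ (-b + ε) := by
  have ht := polyUp_tend hg hM0
  have hlog : Tendsto (fun j => Real.log (g j)) atTop atTop := Real.tendsto_log_atTop.comp ht
  obtain ⟨j0, hj0⟩ := ((h.and hMg).and (hlog.eventually_ge_atTop 1)).exists_forall_of_atTop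
  filter_upwards [eventually_ge_atTop j0,
    ht.eventually (polyUp_final (∑ j ∈ Finset.range j0, (cnt j : ℝ)) b ε hb hε),
    hlog.eventually_ge_atTop 1, ht.eventually_ge_atTop 1] with J hJ hfin hL1 hg1
  have hL : 0 < Real.log (g J) := by linarith
  refine le_trans ?_ hfin
  push_cast
  rw [← Finset.sum_range_add_sum_Ico _ hJ, add_assoc]
  gcongr
  have hsmall := polyUp_small hg hJ (fun j hj => (hj0 j hj).1.2) (Real.sqrt_nonneg (g J : ℝ))
  have hsum := polyUp_sum hg hJ
  have hc : (0 : ℝ) ≤ 2 ^ b * Real.log (g J) ^ (-b) := by positivity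
  have hterm : ∀ j ∈ Finset.Ico j0 J, (cnt j : ℝ) ≤
      (if (g j : ℝ) ≤ Real.sqrt (g J) then (M j : ℝ) else 0) +
        2 ^ b * Real.log (g J) ^ (-b) * M j := by
    intro j hj
    obtain ⟨⟨hj1, -⟩, hj3⟩ := hj0 j (Finset.mem_Ico.1 hj).1
    have hLj : 0 < Real.log (g j) := by linarith
    refine hj1.trans ?_
    by_cases hs : (g j : ℝ) ≤ Real.sqrt (g J)
    · rw [if_pos hs]
      have h1 : Real.log (g j) ^ (-b) ≤ 1 :=
        Real.rpow_le_one_of_one_le_of_nonpos hj3 (by linarith)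
      have h2 : (M j : ℝ) * Real.log (g j) ^ (-b) ≤ M j * 1 := by gcongr
      have h3 : (0 : ℝ) ≤ 2 ^ b * Real.log (g J) ^ (-b) * M j := by positivity
      linarith
    · rw [if_neg hs, zero_add, mul_comm (M j : ℝ)]
      push Not at hs
      have hJ0 : (0 : ℝ) < g J := by linarith
      have h1 : Real.log (g J) / 2 ≤ Real.log (g j) := by
        rw [← Real.log_sqrt (by positivity)]
        exact Real.log_le_log (Real.sqrt_pos.2 hJ0) hs.le
      have h2 : Real.log (g j) ^ (-b) ≤ (Real.log (g J) / 2) ^ (-b) :=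
        Real.rpow_le_rpow_of_nonpos (by positivity) h1 (by linarith)
      have h3 : (Real.log (g J) / 2) ^ (-b) = 2 ^ b * Real.log (g J) ^ (-b) := by
        rw [Real.div_rpow hL.le (by norm_num), Real.rpow_neg (by norm_num : (0 : ℝ) ≤ 2),
          div_inv_eq_mul, mul_comm]
      rw [← h3]
      gcongr
  calc ∑ j ∈ Finset.Ico j0 J, (cnt j : ℝ) ≤ ∑ j ∈ Finset.Ico j0 J,
      ((if (g j : ℝ) ≤ Real.sqrt (g J) then (M j : ℝ) else 0) +
        2 ^ b * Real.log (g J) ^ (-b) * M j) := Finset.sum_le_sum hterm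
    _ = ∑ j ∈ Finset.Ico j0 J, (if (g j : ℝ) ≤ Real.sqrt (g J) then (M j : ℝ) else 0) +
        2 ^ b * Real.log (g J) ^ (-b) * ∑ j ∈ Finset.Ico j0 J, (M j : ℝ) := by
        rw [Finset.sum_add_distrib, Finset.mul_sum]
    _ ≤ 2 * Real.sqrt (g J) + 2 ^ b * Real.log (g J) ^ (-b) * g J := by
        have h4 : (0 : ℝ) ≤ g j0 := by positivity
        have h5 : ∑ j ∈ Finset.Ico j0 J, (M j : ℝ) ≤ g J := by linarith
        exact add_le_add hsmall (mul_le_mul_of_nonneg_left h5 hc)
    _ = _ := by ring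

/-- Lower bound for sums of block counts. -/
theorem poly_lo {g M cnt : ℕ → ℕ} (hg : ∀ j, g (j + 1) = g j + M j) (hM0 : ∀ j, 0 < M j)
    (hMg : ∀ᶠ j in atTop, M j ≤ g j) {b : ℝ} (hb : 0 ≤ b)
    (h : ∀ᶠ j in atTop, M j * Real.log (g j) ^ (-b) ≤ (cnt j : ℝ)) {ε : ℝ} (hε : 0 < ε) :
    ∀ᶠ J in atTop, g J * Real.log (g J) ^ (-b - ε) ≤
      ((∑ j ∈ Finset.range J, cnt j : ℕ) : ℝ) := by
  have ht := polyUp_tend hg hM0
  have hmono := polyUp_mono hg hM0
  have hlog : Tendsto (fun j => Real.log (g j)) atTop atTop := Real.tendsto_log_atTop.comp ht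
  obtain ⟨j0, hj0⟩ := (h.and (hlog.eventually_ge_atTop 1)).exists_forall_of_atTop
  have e1 : ∀ᶠ J in atTop, (2 : ℝ) ≤ Real.log (g J) ^ ε :=
    ((tendsto_rpow_atTop hε).comp hlog).eventually_ge_atTop 2
  filter_upwards [eventually_ge_atTop j0, e1, ht.eventually_ge_atTop (2 * (g j0 : ℝ)),
    hlog.eventually_ge_atTop 1, ht.eventually_ge_atTop 1] with J hJ h2 h3 h4 h5
  have hL : 0 < Real.log (g J) := by linarith
  have hsum := polyUp_sum hg hJ
  have hcnt : ∑ j ∈ Finset.Ico j0 J, (M j : ℝ) * Real.log (g J) ^ (-b) ≤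
      ∑ j ∈ Finset.range J, (cnt j : ℝ) := by
    refine (Finset.sum_le_sum fun j hj => ?_).trans
      (Finset.sum_le_sum_of_subset_of_nonneg (s := Finset.Ico j0 J) ?_ ?_)
    · obtain ⟨hj1, hj2⟩ := Finset.mem_Ico.1 hj
      obtain ⟨hj3, hj4⟩ := hj0 j hj1
      refine le_trans ?_ hj3
      have hLj : 0 < Real.log (g j) := by linarith
      have hgj : (0 : ℝ) < g j := by
        rcases Nat.eq_zero_or_pos (g j) with h0 | h0
        · rw [h0] at hLj
          simp at hLj
        · exact_mod_cast h0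
      have h6 : Real.log (g j) ≤ Real.log (g J) :=
        Real.log_le_log hgj (by exact_mod_cast hmono.monotone hj2.le)
      have h7 : Real.log (g J) ^ (-b) ≤ Real.log (g j) ^ (-b) :=
        Real.rpow_le_rpow_of_nonpos hLj h6 (by linarith)
      gcongr
    · intro j hj
      exact Finset.mem_range.2 (Finset.mem_Ico.1 hj).2
    · intro j _ _
      positivity
  rw [← Finset.sum_mul] at hcnt
  push_cast
  refine le_trans ?_ hcnt
  have hLb : 0 < Real.log (g J) ^ (-b) := Real.rpow_pos_of_pos hL _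
  have hLe : 0 < Real.log (g J) ^ ε := Real.rpow_pos_of_pos hL _
  have h6 : Real.log (g J) ^ (-b - ε) = Real.log (g J) ^ (-b) / Real.log (g J) ^ ε :=
    Real.rpow_sub hL _ _
  have h7 : Real.log (g J) ^ (-b) / Real.log (g J) ^ ε ≤ Real.log (g J) ^ (-b) / 2 := by
    gcongr
  have h8 : (g J : ℝ) / 2 ≤ ∑ j ∈ Finset.Ico j0 J, (M j : ℝ) := by linarith
  rw [h6]
  calc (g J : ℝ) * (Real.log (g J) ^ (-b) / Real.log (g J) ^ ε) ≤
      g J * (Real.log (g J) ^ (-b) / 2) := by gcongr
    _ = (g J / 2) * Real.log (g J) ^ (-b) := by ring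
    _ ≤ _ := by gcongr

theorem ctx_core (n : ℕ) (x a c : ℝ) (hn : 8 ≤ Real.log n) (hx1 : a ≤ x) (hx2 : x < c)
    (ha : 1 / 2 * (((n - 1 : ℕ) : ℝ) * Real.log ((n - 1 : ℕ) : ℝ)) ≤ a)
    (hc : c ≤ 2 * (n * Real.log n)) :
    Real.log n ≤ Real.log x ∧ Real.log x ≤ 2 * Real.log n ∧ n * Real.log x ≤ 16 * x ∧
      x ≤ 2 * (n * Real.log x) ∧ (9 : ℝ) ≤ n ∧ 0 < x := by
  have hn0 : (0 : ℝ) < n := by
    rcases Nat.eq_zero_or_pos n with h | h
    · rw [h] at hn
      norm_num at hn
    · exact_mod_cast h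
  have hn9 : (9 : ℝ) ≤ n := by
    have := Real.log_le_sub_one_of_pos hn0
    linarith
  have hn9' : 9 ≤ n := by exact_mod_cast hn9
  have hcast : ((n - 1 : ℕ) : ℝ) = (n : ℝ) - 1 := by
    rw [Nat.cast_sub (by omega)]
    norm_num
  rw [hcast] at ha
  have h1 : Real.log n ≤ 2 * Real.log ((n : ℝ) - 1) := by
    have e1 : 2 * Real.log ((n : ℝ) - 1) = Real.log (((n : ℝ) - 1) ^ 2) := by
      rw [Real.log_pow]
      norm_num
    rw [e1]
    apply Real.log_le_log hn0
    nlinarith
  have h2 : n * Real.log n / 8 ≤ x := by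
    have e1 : (n : ℝ) / 2 ≤ n - 1 := by linarith
    have e2 : Real.log n / 2 ≤ Real.log ((n : ℝ) - 1) := by linarith
    have e3 : (n : ℝ) / 2 * (Real.log n / 2) ≤ (n - 1) * Real.log ((n : ℝ) - 1) :=
      mul_le_mul e1 e2 (by linarith) (by linarith)
    linarith
  have h3 : (n : ℝ) ≤ x := by nlinarith
  have hx0 : 0 < x := by linarith
  have h4 : Real.log n ≤ Real.log x := Real.log_le_log hn0 h3
  have h5 : 2 * Real.log n ≤ n := by
    have e1 : Real.log ((n : ℝ) / 2) ≤ n / 2 - 1 := Real.log_le_sub_one_of_pos (by linarith)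
    rw [Real.log_div hn0.ne' (by norm_num)] at e1
    have e2 : Real.log 2 ≤ 1 := by
      have := Real.log_two_lt_d9
      linarith
    linarith
  have h6 : x ≤ 2 * (n * Real.log n) := hx2.le.trans hc
  have h7 : Real.log x ≤ 2 * Real.log n := by
    have e1 : 2 * Real.log (n : ℝ) = Real.log ((n : ℝ) ^ 2) := by
      rw [Real.log_pow]
      norm_num
    rw [e1]
    apply Real.log_le_log hx0
    nlinarith
  refine ⟨h4, h7, ?_, ?_, hn9, hx0⟩
  · nlinarith
  · nlinarith

theorem ctx_pow (y z e : ℝ) (hz : 0 < z) (h1 : z / 2 ≤ y) (h2 : y ≤ 2 * z) :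
    y ^ e ≤ 2 ^ |e| * z ^ e := by
  rcases le_total 0 e with he | he
  · rw [abs_of_nonneg he, ← Real.mul_rpow (by norm_num) hz.le]
    exact Real.rpow_le_rpow (by linarith) h2 he
  · rw [abs_of_nonpos he]
    calc y ^ e ≤ (z / 2) ^ e := Real.rpow_le_rpow_of_nonpos (by linarith) h1 he
      _ = 2 ^ (-e) * z ^ e := by
        rw [Real.div_rpow hz.le (by norm_num), Real.rpow_neg (by norm_num : (0 : ℝ) ≤ 2)]
        field_simp

theorem ctx_sum {g M : ℕ → ℕ} (hg0 : g 0 = 0) (hg : ∀ j, g (j + 1) = g j + M j)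
    (W : ℕ → Prop) [DecidablePred W] (J : ℕ) :
    ∑ j ∈ Finset.range J, ((Finset.range (M j)).filter fun l => W (g j + l)).card =
      ((Finset.range (g J)).filter W).card := by
  induction J with
  | zero => simp [hg0]
  | succ J ih =>
    rw [Finset.sum_range_succ, ih, hg, Finset.card_filter, Finset.card_filter, Finset.card_filter,
      Finset.sum_range_add]

/-- the block of `n` -/
theorem ctx_block {g M : ℕ → ℕ} (hg0 : g 0 = 0) (hg : ∀ j, g (j + 1) = g j + M j)
    (hM0 : ∀ j, 0 < M j) : ∃ Jf : ℕ → ℕ, (∀ n, g (Jf n) ≤ n ∧ n < g (Jf n + 1)) ∧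
      Tendsto Jf atTop atTop := by
  classical
  have hmono := polyUp_mono hg hM0
  have hex : ∀ n, ∃ J, n < g (J + 1) := fun n => ⟨n, by
    have := hmono.le_apply (x := n + 1)
    omega⟩
  have hprop : ∀ n, g (Nat.find (hex n)) ≤ n ∧ n < g (Nat.find (hex n) + 1) := by
    intro n
    refine ⟨?_, Nat.find_spec (hex n)⟩
    rcases Nat.eq_zero_or_pos (Nat.find (hex n)) with h | h
    · rw [h, hg0]
      exact Nat.zero_le _
    · have h1 := Nat.find_min (hex n) (m := Nat.find (hex n) - 1) (by omega)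
      have h2 : Nat.find (hex n) - 1 + 1 = Nat.find (hex n) := by omega
      rw [h2] at h1
      omega
  refine ⟨fun n => Nat.find (hex n), hprop, ?_⟩
  rw [tendsto_atTop]
  intro K
  filter_upwards [eventually_ge_atTop (g K)] with n hn
  by_contra h
  push Not at h
  have h1 := (hprop n).2
  have h2 : g (Nat.find (hex n) + 1) ≤ g K := hmono.monotone (by omega)
  omega

/-- the counting function as a finite set -/
theorem ctx_find {p : ℕ → ℝ} (hp : StrictMono p) (hpt : Tendsto p atTop atTop) :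
    ∃ nf : ℝ → ℕ, (∀ x n, n < nf x ↔ p n ≤ x) ∧ Tendsto nf atTop atTop := by
  classical
  have hex : ∀ x : ℝ, ∃ n, x < p n := fun x => (hpt.eventually_gt_atTop x).exists
  have hprop : ∀ x n, n < Nat.find (hex x) ↔ p n ≤ x := by
    intro x n
    constructor
    · intro h
      have := Nat.find_min (hex x) h
      exact not_lt.1 this
    · intro h
      by_contra h1
      push Not at h1
      have h2 := Nat.find_spec (hex x)
      have h3 := hp.monotone h1
      linarith
  refine ⟨fun x => Nat.find (hex x), hprop, ?_⟩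
  rw [tendsto_atTop]
  intro K
  filter_upwards [eventually_ge_atTop (p K)] with x hx
  exact ((hprop x K).2 hx).le

/-- From block counts to the counting function in the real variable `x`. -/
theorem count_to_x {p : ℕ → ℝ} (hp : StrictMono p) (hp1 : 1 < p 0) (hpt : Tendsto p atTop atTop)
    (hpnt : Tendsto (fun n : ℕ => p n / (n * Real.log n)) atTop (𝓝 1))
    {g M : ℕ → ℕ} (hg0 : g 0 = 0) (hg : ∀ j, g (j + 1) = g j + M j) (hM0 : ∀ j, 0 < M j)
    (hMg : ∀ᶠ j in atTop, M j ≤ g j) {W : ℕ → Prop} [DecidablePred W] {b : ℝ} (hb : 1 ≤ b) :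
    ((∀ᶠ j in atTop, (((Finset.range (M j)).filter fun l => W (g j + l)).card : ℝ) ≤
        M j * Real.log (g j) ^ (-(b - 1))) →
      ∀ b' : ℝ, b' < b → ∀ᶠ x : ℝ in atTop,
        (Set.ncard {n : ℕ | p n ≤ x ∧ W n} : ℝ) ≤ x / Real.log x ^ b') ∧
    ((∀ᶠ j in atTop, M j * Real.log (g j) ^ (-(b - 1)) ≤
        (((Finset.range (M j)).filter fun l => W (g j + l)).card : ℝ)) →
      ∀ b' : ℝ, b < b' → ∀ᶠ x : ℝ in atTop,
        x / Real.log x ^ b' ≤ (Set.ncard {n : ℕ | p n ≤ x ∧ W n} : ℝ)) := by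
  classical
  have hmono := polyUp_mono hg hM0
  obtain ⟨Jf, hJf, hJt⟩ := ctx_block hg0 hg hM0
  obtain ⟨nf, hnf, hnt⟩ := ctx_find hp hpt
  have hncard : ∀ x : ℝ, Set.ncard {n : ℕ | p n ≤ x ∧ W n} =
      ((Finset.range (nf x)).filter W).card := by
    intro x
    rw [← Set.ncard_coe_finset]
    congr 1
    ext n
    simp only [Set.mem_setOf_eq, Finset.coe_filter, Finset.mem_range]
    rw [hnf]
  -- eventual facts on `n`
  have hlogn : Tendsto (fun n : ℕ => Real.log n) atTop atTop :=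
    Real.tendsto_log_atTop.comp tendsto_natCast_atTop_atTop
  have hup : ∀ᶠ n : ℕ in atTop, p n ≤ 2 * (n * Real.log n) := by
    filter_upwards [hpnt.eventually (eventually_le_nhds (show (1 : ℝ) < 2 by norm_num)),
      hlogn.eventually_ge_atTop 1, eventually_ge_atTop 1] with n h1 h2 h3
    have hn0 : (0 : ℝ) < n := by exact_mod_cast h3
    rwa [div_le_iff₀ (by positivity)] at h1
  have hlo : ∀ᶠ n : ℕ in atTop, 1 / 2 * (n * Real.log n) ≤ p n := by
    filter_upwards [hpnt.eventually (eventually_ge_nhds (show (1 / 2 : ℝ) < 1 by norm_num)),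
      hlogn.eventually_ge_atTop 1, eventually_ge_atTop 1] with n h1 h2 h3
    have hn0 : (0 : ℝ) < n := by exact_mod_cast h3
    rwa [le_div_iff₀ (by positivity)] at h1
  have hlo' : ∀ᶠ n : ℕ in atTop,
      1 / 2 * (((n - 1 : ℕ) : ℝ) * Real.log ((n - 1 : ℕ) : ℝ)) ≤ p (n - 1) :=
    (tendsto_sub_atTop_nat 1).eventually hlo
  -- eventual facts on `x`
  have hcore : ∀ᶠ x : ℝ in atTop, Real.log (nf x) ≤ Real.log x ∧
      Real.log x ≤ 2 * Real.log (nf x) ∧ nf x * Real.log x ≤ 16 * x ∧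
      x ≤ 2 * (nf x * Real.log x) ∧ (9 : ℝ) ≤ nf x ∧ 0 < x := by
    filter_upwards [hnt.eventually hup, hnt.eventually hlo',
      hnt.eventually (hlogn.eventually_ge_atTop 8), hnt.eventually_ge_atTop 1] with x h1 h2 h3 h4
    have h5 : p (nf x - 1) ≤ x := (hnf x _).1 (by omega)
    have h6 : x < p (nf x) := by
      by_contra h
      push Not at h
      exact lt_irrefl _ ((hnf x _).2 h)
    exact ctx_core (nf x) x _ _ h3 h5 h6 h2 h1
  have hMx : ∀ᶠ x : ℝ in atTop, M (Jf (nf x)) ≤ g (Jf (nf x)) :=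
    (hJt.comp hnt).eventually hMg
  constructor
  · intro hcnt b' hb'
    set ε : ℝ := (b - b') / 2 with hε
    have hε0 : 0 < ε := by
      rw [hε]
      linarith
    have hS := poly_up hg hM0 hMg (b := b - 1) (by linarith) hcnt hε0
    have hS' : ∀ᶠ J in atTop, ((∑ j ∈ Finset.range (J + 1),
        ((Finset.range (M j)).filter fun l => W (g j + l)).card : ℕ) : ℝ) ≤
        g (J + 1) * Real.log (g (J + 1)) ^ (-(b - 1) + ε) :=
      (tendsto_add_atTop_nat 1).eventually hS
    have hSx := (hJt.comp hnt).eventually hS'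
    have hfin : ∀ᶠ x : ℝ in atTop, 32 * 2 ^ |-(b - 1) + ε| ≤ Real.log x ^ ε :=
      ((tendsto_rpow_atTop hε0).comp Real.tendsto_log_atTop).eventually_ge_atTop _
    filter_upwards [hcore, hMx, hSx, hfin, Real.tendsto_log_atTop.eventually_ge_atTop 1]
      with x h1 h2 h3 h4 h5
    obtain ⟨c1, c2, c3, c4, c5, c6⟩ := h1
    have hL : 0 < Real.log x := by linarith
    simp only [Function.comp] at h3
    rw [ctx_sum hg0 hg W] at h3
    obtain ⟨j1, j2⟩ := hJf (nf x)
    set J := Jf (nf x) with hJ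
    have hG1 : (nf x : ℝ) ≤ g (J + 1) := by exact_mod_cast j2.le
    have hG2 : (g (J + 1) : ℝ) ≤ 2 * nf x := by
      have : g (J + 1) ≤ 2 * nf x := by
        rw [hg]
        omega
      exact_mod_cast this
    have hG0 : (0 : ℝ) < g (J + 1) := by linarith
    have l1 : Real.log x / 2 ≤ Real.log (g (J + 1)) := by
      have := Real.log_le_log (by linarith) hG1
      linarith
    have l2 : Real.log (g (J + 1)) ≤ 2 * Real.log x := by
      have e1 : Real.log (g (J + 1)) ≤ Real.log (2 * nf x) := Real.log_le_log hG0 hG2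
      rw [Real.log_mul (by norm_num) (by linarith)] at e1
      have e2 : Real.log 2 ≤ 1 := by
        have := Real.log_two_lt_d9
        linarith
      linarith
    have hpow := ctx_pow (Real.log (g (J + 1))) (Real.log x) (-(b - 1) + ε) hL l1 l2
    have hcard : (((Finset.range (nf x)).filter W).card : ℝ) ≤
        (((Finset.range (g (J + 1))).filter W).card : ℝ) := by
      have : ((Finset.range (nf x)).filter W).card ≤ ((Finset.range (g (J + 1))).filter W).card :=
        Finset.card_le_card (Finset.filter_subset_filter _ (Finset.range_subset_range.2 j2.le))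
      exact_mod_cast this
    rw [hncard]
    refine hcard.trans (h3.trans ?_)
    have hG3 : (g (J + 1) : ℝ) ≤ 32 * x / Real.log x := by
      rw [le_div_iff₀ hL]
      have : (g (J + 1) : ℝ) * Real.log x ≤ 2 * nf x * Real.log x :=
        mul_le_mul_of_nonneg_right hG2 hL.le
      linarith
    have hlogG : 0 ≤ Real.log (g (J + 1)) := by linarith
    calc (g (J + 1) : ℝ) * Real.log (g (J + 1)) ^ (-(b - 1) + ε)
        ≤ (32 * x / Real.log x) * (2 ^ |-(b - 1) + ε| * Real.log x ^ (-(b - 1) + ε)) :=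
          mul_le_mul hG3 hpow (Real.rpow_nonneg hlogG _) (by positivity)
      _ = (32 * 2 ^ |-(b - 1) + ε|) * (x * (Real.log x ^ (-(b - 1) + ε) / Real.log x)) := by
          ring
      _ ≤ Real.log x ^ ε * (x * (Real.log x ^ (-(b - 1) + ε) / Real.log x)) :=
          mul_le_mul_of_nonneg_right h4 (by positivity)
      _ = x / Real.log x ^ b' := by
          have e1 : Real.log x ^ (-(b - 1) + ε) / Real.log x =
              Real.log x ^ (-(b - 1) + ε - 1) := by
            rw [Real.rpow_sub hL, Real.rpow_one]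
          have e2 : Real.log x ^ ε * Real.log x ^ (-(b - 1) + ε - 1) = Real.log x ^ (-b') := by
            rw [← Real.rpow_add hL]
            congr 1
            rw [hε]
            ring
          rw [e1]
          calc Real.log x ^ ε * (x * Real.log x ^ (-(b - 1) + ε - 1)) =
              x * (Real.log x ^ ε * Real.log x ^ (-(b - 1) + ε - 1)) := by ring
            _ = x / Real.log x ^ b' := by
              rw [e2, Real.rpow_neg hL.le]
              rfl
  · intro hcnt b' hb'
    set ε : ℝ := (b' - b) / 2 with hε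
    have hε0 : 0 < ε := by
      rw [hε]
      linarith
    have hS := poly_lo hg hM0 hMg (b := b - 1) (by linarith) hcnt hε0
    have hSx := (hJt.comp hnt).eventually hS
    have hfin : ∀ᶠ x : ℝ in atTop, 4 ≤ Real.log x ^ ε :=
      ((tendsto_rpow_atTop hε0).comp Real.tendsto_log_atTop).eventually_ge_atTop _
    filter_upwards [hcore, hMx, hSx, hfin, Real.tendsto_log_atTop.eventually_ge_atTop 1]
      with x h1 h2 h3 h4 h5
    obtain ⟨c1, c2, c3, c4, c5, c6⟩ := h1
    have hL : 0 < Real.log x := by linarith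
    simp only [Function.comp] at h3
    rw [ctx_sum hg0 hg W] at h3
    obtain ⟨j1, j2⟩ := hJf (nf x)
    set J := Jf (nf x) with hJ
    have hG1 : (g J : ℝ) ≤ nf x := by exact_mod_cast j1
    have hG2 : (nf x : ℝ) / 2 ≤ g J := by
      have h6 : nf x ≤ 2 * g J := by
        rw [hg] at j2
        omega
      have h7 : (nf x : ℝ) ≤ 2 * g J := by exact_mod_cast h6
      linarith
    have hG0 : (0 : ℝ) < g J := by linarith
    have l2 : Real.log (g J) ≤ Real.log x := (Real.log_le_log hG0 hG1).trans c1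
    have l1 : 0 < Real.log (g J) := Real.log_pos (by linarith)
    have hpow : Real.log x ^ (-(b - 1) - ε) ≤ Real.log (g J) ^ (-(b - 1) - ε) :=
      Real.rpow_le_rpow_of_nonpos l1 l2 (by linarith)
    have hcard : (((Finset.range (g J)).filter W).card : ℝ) ≤
        (((Finset.range (nf x)).filter W).card : ℝ) := by
      have : ((Finset.range (g J)).filter W).card ≤ ((Finset.range (nf x)).filter W).card :=
        Finset.card_le_card (Finset.filter_subset_filter _ (Finset.range_subset_range.2 j1))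
      exact_mod_cast this
    rw [hncard]
    refine le_trans ?_ (h3.trans hcard)
    have hG3 : x / (4 * Real.log x) ≤ g J := by
      rw [div_le_iff₀ (by positivity)]
      have : (nf x : ℝ) / 2 * (4 * Real.log x) ≤ g J * (4 * Real.log x) :=
        mul_le_mul_of_nonneg_right hG2 (by positivity)
      linarith
    calc x / Real.log x ^ b' = x * (Real.log x ^ ε * Real.log x ^ ε)⁻¹ * Real.log x ^ (-b) := by
          have e1 : Real.log x ^ b' = (Real.log x ^ ε * Real.log x ^ ε) * Real.log x ^ b := by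
            rw [← Real.rpow_add hL, ← Real.rpow_add hL]
            congr 1
            rw [hε]
            ring
          rw [e1, Real.rpow_neg hL.le]
          field_simp
      _ ≤ x * (4 * Real.log x ^ ε)⁻¹ * Real.log x ^ (-b) := by
          have hpe : 0 < Real.log x ^ ε := Real.rpow_pos_of_pos hL _
          have e1 : (Real.log x ^ ε * Real.log x ^ ε)⁻¹ ≤ (4 * Real.log x ^ ε)⁻¹ :=
            inv_anti₀ (by positivity) (mul_le_mul_of_nonneg_right h4 hpe.le)
          have e2 : 0 ≤ Real.log x ^ (-b) := Real.rpow_nonneg hL.le _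
          exact mul_le_mul_of_nonneg_right (mul_le_mul_of_nonneg_left e1 c6.le) e2
      _ = (x / (4 * Real.log x)) * Real.log x ^ (-(b - 1) - ε) := by
          have e1 : Real.log x ^ (-(b - 1) - ε) = Real.log x ^ (-b) * Real.log x /
              Real.log x ^ ε := by
            rw [Real.rpow_sub hL]
            congr 1
            rw [show -(b - 1) = -b + 1 by ring, Real.rpow_add hL, Real.rpow_one]
          rw [e1]
          have hpe : Real.log x ^ ε ≠ 0 := (Real.rpow_pos_of_pos hL _).ne'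
          field_simp
      _ ≤ g J * Real.log (g J) ^ (-(b - 1) - ε) :=
          mul_le_mul hG3 hpow (Real.rpow_nonneg hL.le _) hG0.le

end Pool.Agent.H521.G
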