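import Mathlib

open MeasureTheory Set Filter Topology

namespace Pool.Agent.H521.G

/-- partial sums of the `m`-periodic extension of `c` -/
noncomputable def cs (c : ℕ → ℝ) (m n : ℕ) : ℝ := ∑ i ∈ Finset.range n, c (i % m)

/-- number of partial sums below `m (1 - v)` -/
noncomputable def cr (c : ℕ → ℝ) (m : ℕ) (v : ℝ) : ℕ :=
  ∑ l ∈ Finset.range m, if cs c m l < m * (1 - v) then 1 else 0

/-- the points of the block `[0, m)`: the configuration `cs` shifted by `m v` modulo `m` -/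
noncomputable def ct (c : ℕ → ℝ) (m l : ℕ) (v : ℝ) : ℝ := cs c m (cr c m v + l) + m * v - m

variable {c : ℕ → ℝ} {m : ℕ}

theorem cs_period (hsum : ∑ l ∈ Finset.range m, c l = m) (n : ℕ) :
    cs c m (n + m) = cs c m n + m := by
  induction n with
  | zero =>
    unfold cs
    rw [zero_add, Finset.range_zero, Finset.sum_empty, zero_add, ← hsum]
    exact Finset.sum_congr rfl fun i hi => by rw [Nat.mod_eq_of_lt (Finset.mem_range.1 hi)]
  | succ n ih =>
    have h1 : cs c m (n + 1 + m) = cs c m (n + m) + c ((n + m) % m) := by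
      unfold cs
      rw [show n + 1 + m = n + m + 1 by ring, Finset.sum_range_succ]
    have h2 : cs c m (n + 1) = cs c m n + c (n % m) := by
      unfold cs
      rw [Finset.sum_range_succ]
    rw [h1, h2, ih, Nat.add_mod_right]
    ring

theorem ctx_cr_meas : Measurable (cr c m) := by
  unfold cr
  refine Finset.measurable_sum _ fun l _ => ?_
  refine Measurable.ite ?_ measurable_const measurable_const
  exact measurableSet_lt measurable_const (by fun_prop)

theorem ct_meas (l : ℕ) : Measurable (ct c m l) := by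
  unfold ct
  have h1 : Measurable (fun v => cs c m (cr c m v + l)) :=
    (measurable_of_countable (fun n : ℕ => cs c m (n + l))).comp ctx_cr_meas
  fun_prop

theorem ctx_down (A : Finset ℕ) (h : ∀ a ∈ A, ∀ b ≤ a, b ∈ A) : A = Finset.range A.card := by
  refine Finset.eq_of_subset_of_card_le (fun a ha => ?_) (by rw [Finset.card_range])
  have h1 : Finset.range (a + 1) ⊆ A := fun b hb =>
    h a ha b (Nat.lt_succ_iff.1 (Finset.mem_range.1 hb))
  have h2 := Finset.card_le_card h1
  rw [Finset.card_range] at h2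
  exact Finset.mem_range.2 h2

theorem ctx_mono (hc : ∀ l, 0 < c l) : Monotone (cs c m) := by
  refine monotone_nat_of_le_succ fun n => ?_
  unfold cs
  rw [Finset.sum_range_succ]
  have := hc (n % m)
  linarith

theorem ctx_cr_iff (hc : ∀ l, 0 < c l) (v : ℝ) (l : ℕ) :
    (l < m ∧ cs c m l < m * (1 - v)) ↔ l < cr c m v := by
  classical
  obtain ⟨A, hA⟩ : ∃ A, A = (Finset.range m).filter (fun l => cs c m l < m * (1 - v)) := ⟨_, rfl⟩
  have h1 : cr c m v = A.card := by
    rw [hA, Finset.card_filter]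
    rfl
  have h2 := ctx_down A (by
    intro a ha b hb
    rw [hA, Finset.mem_filter, Finset.mem_range] at ha ⊢
    exact ⟨hb.trans_lt ha.1, (ctx_mono hc hb).trans_lt ha.2⟩)
  have h3 : l ∈ A ↔ l < A.card := by
    have h4 : l ∈ A ↔ l ∈ Finset.range A.card := by rw [← h2]
    exact h4.trans Finset.mem_range
  rw [h1, ← h3, hA, Finset.mem_filter, Finset.mem_range]

theorem cr_pos (hm : 0 < m) {v : ℝ} (hv : v ∈ Ico (0 : ℝ) 1) : 1 ≤ cr c m v := by
  have hmr : (0 : ℝ) < m := by exact_mod_cast hm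
  have h0 : cs c m 0 < m * (1 - v) := by
    unfold cs
    rw [Finset.range_zero, Finset.sum_empty]
    exact mul_pos hmr (by linarith [hv.2])
  unfold cr
  have h1 : (if cs c m 0 < m * (1 - v) then 1 else 0) ≤
      ∑ l ∈ Finset.range m, if cs c m l < m * (1 - v) then 1 else 0 :=
    Finset.single_le_sum (f := fun l => if cs c m l < m * (1 - v) then 1 else 0)
      (fun _ _ => Nat.zero_le _) (Finset.mem_range.2 hm)
  rw [if_pos h0] at h1
  exact h1

theorem ctx_cr_le (hm : 0 < m) (hc : ∀ l, 0 < c l) (hsum : ∑ l ∈ Finset.range m, c l = m)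
    {v : ℝ} (hv : v ∈ Ico (0 : ℝ) 1) : (m : ℝ) * (1 - v) ≤ cs c m (cr c m v) := by
  have h1 := ctx_cr_iff (m := m) hc v (cr c m v)
  have h2 : ¬ (cr c m v < m ∧ cs c m (cr c m v) < m * (1 - v)) := fun h => lt_irrefl _ (h1.1 h)
  by_cases h3 : cr c m v < m
  · by_contra h4
    exact h2 ⟨h3, not_le.1 h4⟩
  · have h5 := ctx_mono (m := m) hc (not_lt.1 h3)
    have h6 := cs_period hsum 0
    rw [zero_add] at h6
    have h7 : cs c m 0 = 0 := by
      unfold cs
      rw [Finset.range_zero, Finset.sum_empty]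
    rw [h6, h7] at h5
    have hmr : (0 : ℝ) < m := by exact_mod_cast hm
    nlinarith [hv.1]

theorem ctx_cr_gt (hm : 0 < m) (hc : ∀ l, 0 < c l) {v : ℝ} (hv : v ∈ Ico (0 : ℝ) 1) :
    cs c m (cr c m v - 1) < m * (1 - v) := by
  have h0 := cr_pos (c := c) hm hv
  exact ((ctx_cr_iff (m := m) hc v (cr c m v - 1)).2 (by omega)).2

theorem ct_nonneg (hm : 0 < m) (hc : ∀ l, 0 < c l) (hsum : ∑ l ∈ Finset.range m, c l = m)
    (l : ℕ) {v : ℝ} (hv : v ∈ Ico (0 : ℝ) 1) : 0 ≤ ct c m l v := by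
  have h1 := ctx_cr_le hm hc hsum hv
  have h2 := ctx_mono (m := m) hc (Nat.le_add_right (cr c m v) l)
  unfold ct
  linarith

theorem ct_lt (hm : 0 < m) (hc : ∀ l, 0 < c l) (hsum : ∑ l ∈ Finset.range m, c l = m)
    {l : ℕ} (hl : l < m) {v : ℝ} (hv : v ∈ Ico (0 : ℝ) 1) : ct c m l v < m := by
  have h0 := cr_pos (c := c) hm hv
  have h1 := ctx_cr_gt hm hc hv
  have h2 : cs c m (cr c m v + l) ≤ cs c m (cr c m v - 1 + m) :=
    ctx_mono (m := m) hc (by omega)
  rw [cs_period hsum] at h2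
  unfold ct
  linarith

theorem ct_succ (l : ℕ) (v : ℝ) : ct c m (l + 1) v - ct c m l v = c ((cr c m v + l) % m) := by
  unfold ct cs
  rw [← add_assoc, Finset.sum_range_succ]
  ring

/-- the first point is close to `0` -/
theorem ct_first (hm : 0 < m) (hc : ∀ l, 0 < c l) (hsum : ∑ l ∈ Finset.range m, c l = m)
    {v : ℝ} (hv : v ∈ Ico (0 : ℝ) 1) : ct c m 0 v ≤ c ((cr c m v - 1) % m) := by
  have h0 := cr_pos (c := c) hm hv
  have h1 := ctx_cr_gt hm hc hv
  obtain ⟨r, hr⟩ : ∃ r, cr c m v = r + 1 := ⟨cr c m v - 1, by omega⟩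
  rw [hr, Nat.add_sub_cancel] at h1
  unfold ct
  rw [hr, Nat.add_sub_cancel, add_zero]
  have h2 : cs c m (r + 1) = cs c m r + c (r % m) := by
    unfold cs
    rw [Finset.sum_range_succ]
  rw [h2]
  linarith

/-- the last point is close to `m` -/
theorem ct_last (hm : 0 < m) (hc : ∀ l, 0 < c l) (hsum : ∑ l ∈ Finset.range m, c l = m)
    {v : ℝ} (hv : v ∈ Ico (0 : ℝ) 1) : m - ct c m (m - 1) v ≤ c ((cr c m v - 1) % m) := by
  have h0 := cr_pos (c := c) hm hv
  have h1 := ctx_cr_le hm hc hsum hv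
  obtain ⟨r, hr⟩ : ∃ r, cr c m v = r + 1 := ⟨cr c m v - 1, by omega⟩
  rw [hr] at h1
  unfold ct
  rw [hr, Nat.add_sub_cancel, show r + 1 + (m - 1) = r + m by omega, cs_period hsum]
  have h2 : cs c m (r + 1) = cs c m r + c (r % m) := by
    unfold cs
    rw [Finset.sum_range_succ]
  rw [h2] at h1
  linarith

/-- sums of periodic sequences over a period -/
theorem ctx_sum_shift (h : ℕ → ℂ) (hp : ∀ i, h (i + m) = h i) (r : ℕ) :
    ∑ l ∈ Finset.range m, h (r + l) = ∑ i ∈ Finset.range m, h i := by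
  induction r with
  | zero => simp only [zero_add]
  | succ r ih =>
    rw [← ih]
    have h1 := Finset.sum_range_succ (fun l => h (r + l)) m
    have h2 := Finset.sum_range_succ' (fun l => h (r + l)) m
    rw [h1] at h2
    simp only [add_zero] at h2
    rw [hp r] at h2
    have h3 : ∑ l ∈ Finset.range m, h (r + l) = ∑ l ∈ Finset.range m, h (r + (l + 1)) :=
      add_right_cancel h2
    rw [h3]
    exact Finset.sum_congr rfl fun l _ => by rw [show r + 1 + l = r + (l + 1) by omega]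

/-- the mean measure of the points is Lebesgue measure on `[0, m)` -/
theorem ct_mean (hm : 0 < m) (hc : ∀ l, 0 < c l) (hsum : ∑ l ∈ Finset.range m, c l = m)
    (g : ℝ → ℂ) (hg : Measurable g) (hb : ∀ x, ‖g x‖ ≤ 1) :
    ∑ l ∈ Finset.range m, ∫ v in (0 : ℝ)..1, g (ct c m l v) = ∫ x in (0 : ℝ)..m, g x := by
  have hmr : (0 : ℝ) < m := by exact_mod_cast hm
  obtain ⟨G, hG⟩ : ∃ G : ℝ → ℂ, G = fun x : ℝ => g ((m : ℝ) * Int.fract (x / (m : ℝ))) := ⟨_, rfl⟩
  have hGm : Measurable G := by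
    rw [hG]
    exact hg.comp (measurable_const.mul (measurable_fract.comp (by fun_prop)))
  have hGb : ∀ x, ‖G x‖ ≤ 1 := fun x => by rw [hG]; exact hb _
  have hGp : Function.Periodic G m := by
    intro x
    rw [hG]
    simp only
    rw [add_div, div_self hmr.ne', Int.fract_add_one]
  have hGg : ∀ x, x ∈ Ico (0 : ℝ) m → G x = g x := by
    intro x hx
    rw [hG]
    simp only
    have h1 : Int.fract (x / m) = x / m := by
      rw [Int.fract_eq_self]
      exact ⟨div_nonneg hx.1 hmr.le, (div_lt_one hmr).2 hx.2⟩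
    rw [h1, mul_div_cancel₀ _ hmr.ne']
  have hint : ∀ (f : ℝ → ℂ), Measurable f → (∀ x, ‖f x‖ ≤ 1) → ∀ a b : ℝ,
      IntervalIntegrable f volume a b := by
    intro f hf hf1 a b
    have h1 : IntervalIntegrable (fun _ : ℝ => (1 : ℝ)) volume a b := intervalIntegrable_const
    refine h1.mono_fun hf.aestronglyMeasurable ?_
    exact Filter.Eventually.of_forall fun x => by
      rw [norm_one]
      exact hf1 x
  have hsw : ∀ v ∈ Ico (0 : ℝ) 1, ∑ l ∈ Finset.range m, g (ct c m l v) =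
      ∑ i ∈ Finset.range m, G (m * v + cs c m i) := by
    intro v hv
    have h1 : ∀ l ∈ Finset.range m, g (ct c m l v) = G (m * v + cs c m (cr c m v + l)) := by
      intro l hl
      rw [← hGg _ ⟨ct_nonneg hm hc hsum l hv, ct_lt hm hc hsum (Finset.mem_range.1 hl) hv⟩]
      have h2 : m * v + cs c m (cr c m v + l) = ct c m l v + m := by
        unfold ct
        ring
      rw [h2, hGp]
    rw [Finset.sum_congr rfl h1]
    refine ctx_sum_shift (fun i => G (m * v + cs c m i)) (fun i => ?_) (cr c m v)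
    show G (m * v + cs c m (i + m)) = G (m * v + cs c m i)
    rw [cs_period hsum, ← add_assoc, hGp]
  have h1 : ∑ l ∈ Finset.range m, ∫ v in (0 : ℝ)..1, g (ct c m l v) =
      ∫ v in (0 : ℝ)..1, ∑ l ∈ Finset.range m, g (ct c m l v) := by
    rw [intervalIntegral.integral_finsetSum]
    intro l _
    exact hint _ (hg.comp (ct_meas l)) (fun x => hb _) 0 1
  have h2 : ∫ v in (0 : ℝ)..1, ∑ l ∈ Finset.range m, g (ct c m l v) =
      ∫ v in (0 : ℝ)..1, ∑ i ∈ Finset.range m, G (m * v + cs c m i) := by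
    refine intervalIntegral.integral_congr_ae ?_
    have h3 : ∀ᵐ v : ℝ ∂volume, v ≠ 1 := by
      rw [ae_iff]
      simp
    filter_upwards [h3] with v hv hv2
    rw [uIoc_of_le zero_le_one] at hv2
    exact hsw v ⟨hv2.1.le, lt_of_le_of_ne hv2.2 hv⟩
  have h3 : ∫ v in (0 : ℝ)..1, ∑ i ∈ Finset.range m, G (m * v + cs c m i) =
      ∑ i ∈ Finset.range m, ∫ v in (0 : ℝ)..1, G (m * v + cs c m i) := by
    rw [intervalIntegral.integral_finsetSum]
    intro i _
    exact hint _ (hGm.comp (by fun_prop)) (fun x => hGb _) 0 1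
  have h4 : ∀ i, ∫ v in (0 : ℝ)..1, G (m * v + cs c m i) =
      (m : ℝ)⁻¹ • ∫ x in (0 : ℝ)..m, G x := by
    intro i
    rw [intervalIntegral.integral_comp_mul_add G hmr.ne' (cs c m i)]
    have h5 := hGp.intervalIntegral_add_eq (m * 0 + cs c m i) 0
    rw [zero_add] at h5
    rw [← h5]
    have h6 : (m : ℝ) * 1 + cs c m i = m * 0 + cs c m i + m := by ring
    rw [h6]
  have h5 : ∫ x in (0 : ℝ)..m, G x = ∫ x in (0 : ℝ)..m, g x := by
    refine intervalIntegral.integral_congr_ae ?_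
    have h6 : ∀ᵐ v : ℝ ∂volume, v ≠ m := by
      rw [ae_iff]
      simp
    filter_upwards [h6] with v hv hv2
    rw [uIoc_of_le hmr.le] at hv2
    exact hGg v ⟨hv2.1.le, lt_of_le_of_ne hv2.2 hv⟩
  rw [h1, h2, h3, Finset.sum_congr rfl fun i _ => h4 i, Finset.sum_const, Finset.card_range, h5,
    ← Nat.cast_smul_eq_nsmul ℝ, smul_smul, mul_inv_cancel₀ hmr.ne', one_smul]

end Pool.Agent.H521.G
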