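import Mathlib

open MeasureTheory Set Filter Topology
open scoped ENNReal

namespace Pool.Agent.H521.G

/-- The number of `n` with `p n ≤ x` whose gap is at least `(log p n) ^ a`. -/
noncomputable def cntA (p : ℕ → ℝ) (a x : ℝ) : ℕ :=
  Set.ncard {n : ℕ | p n ≤ x ∧ Real.log (p n) ^ a ≤ p (n + 1) - p n}

/-- `cntA p a x = x / (log x) ^ (E + o(1))`. -/
def HasExp (p : ℕ → ℝ) (a : ℝ) (E : ℝ≥0∞) : Prop :=
  (∀ b : ℝ, ENNReal.ofReal b < E → ∀ᶠ x : ℝ in atTop, (cntA p a x : ℝ) ≤ x / Real.log x ^ b) ∧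
  ∀ b : ℝ, E < ENNReal.ofReal b → ∀ᶠ x : ℝ in atTop, x / Real.log x ^ b ≤ (cntA p a x : ℝ)

end Pool.Agent.H521.G
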