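import Pool.Agent.H521.G.Sel12

open MeasureTheory Set Filter Topology
open scoped ComplexConjugate Classical

namespace Pool.Agent.H521.G

theorem Brk.upq {b : ℕ → ℝ} {c C : ℝ} (hb : Brk b c C) :
    ∃ A : ℝ, 1 ≤ A ∧ ∀ m : ℕ, b m ≤ A * ((m : ℝ) + 1) ^ 2 := by
  have hc := hb.c0
  have hb0 := hb.b0
  have hC0 : 0 ≤ C := by
    have h1 := hb.up 1
    have h2 := hb.low 1
    push_cast at h1 h2
    nlinarith
  refine ⟨b 0 + C + 1, by linarith, fun m => ?_⟩
  induction m with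
  | zero => simp; linarith
  | succ m ih =>
    have h1 := hb.up m
    push_cast
    have h2 : C * ((m : ℝ) + 1) ≤ (b 0 + C + 1) * ((m : ℝ) + 1) :=
      mul_le_mul_of_nonneg_right (by linarith) (by positivity)
    have h3 : (0 : ℝ) ≤ m := Nat.cast_nonneg m
    nlinarith

theorem Brk.far {b : ℕ → ℝ} {c C : ℝ} (hb : Brk b c C) (m j : ℕ) :
    b m + c * m * j ≤ b (m + j) := by
  induction j with
  | zero => simp
  | succ j ih =>
    have h1 := hb.low (m + j)
    have hc := hb.c0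
    push_cast at h1 ⊢
    have h2 : 0 ≤ c * (j : ℝ) := by positivity
    have e : m + (j + 1) = m + j + 1 := by ring
    rw [e]
    nlinarith

/-- Few intervals have a wrong number of primes: one residue class. -/
theorem dev_class {Z : Multiset ℂ} (hZ : ∀ ρ ∈ Z, ρ.re < 1) (hZc : Z.map conj = Z)
    {x₀ : ℝ} (hR : RDens (fZ Z) x₀) {p : ℕ → ℝ} (hS : SysW Z p) {b : ℕ → ℝ} {c C : ℝ}
    (hb : Brk b c C) {η : ℝ} (hη : 0 < η) (hη1 : η ≤ 1) :
    ∃ r : ℕ, 1 ≤ r ∧ ∀ (i : ℕ) (E : Set ℕ), (∀ m ∈ E, m % r = i) →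
      ((∀ m ∈ E, ((Set.ncard {k | b m < p k ∧ p k < b (m + 1)} : ℕ) : ℝ) ≤
          (1 - η) * (Fp (fZ Z) x₀ (b (m + 1)) - Fp (fZ Z) x₀ (b m))) ∨
        (∀ m ∈ E, (1 + η) * (Fp (fZ Z) x₀ (b (m + 1)) - Fp (fZ Z) x₀ (b m)) ≤
          ((Set.ncard {k | b m < p k ∧ p k < b (m + 1)} : ℕ) : ℝ))) → Sps E := by
  have hc := hb.c0
  obtain ⟨A, hA1, hA⟩ := hb.upq
  have hA0 : 0 < A := by linarith
  have hsA : 0 < √A := Real.sqrt_pos.2 hA0
  have hC0 : 0 < C := by
    have h1 := hb.up 1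
    have h2 := hb.low 1
    push_cast at h1 h2
    nlinarith
  set K : ℝ := 2 / √c + 2 with hK
  have hK0 : 2 ≤ K := by
    rw [hK]
    have : 0 ≤ 2 / √c := by positivity
    linarith
  set c₁ : ℝ := c / (2 * √A) with hc₁
  set C₁ : ℝ := C * (2 * K + 1) + c₁ with hC₁
  have hc₁0 : 0 < c₁ := by rw [hc₁]; positivity
  have hC₁0 : c₁ ≤ C₁ := by
    rw [hC₁]
    have : 0 ≤ C * (2 * K + 1) := by positivity
    linarith
  have hC₁p : 0 < C₁ := by linarith
  obtain ⟨r, hr⟩ := exists_nat_ge (C₁ / c₁ + 1)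
  have hr1 : 1 ≤ r := by
    have : 0 ≤ C₁ / c₁ := by positivity
    have h2 : (1 : ℝ) ≤ r := by linarith
    exact_mod_cast h2
  refine ⟨r, hr1, fun i E hE hdev ε hε => ?_⟩
  obtain ⟨D, X₀, hD0, hX₀, hD⟩ := selberg_dev hZ hZc hR hS hη hη1 (A := C₁ / c₁)
    (by rw [le_div_iff₀ hc₁0]; linarith) (half_pos hε)
  have hfin : ∀ x, {m | m ∈ E ∧ b m ≤ x}.Finite := fun x =>
    (finite_le hb.tendsto x).subset fun m hm => hm.2
  set X : ℝ := max (max X₀ 16) (max (16 * A) (max ((64 * C₁ / η) ^ 2) (1 / C₁ ^ 2))) with hX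
  have hX1 : X₀ ≤ X := (le_max_left _ _).trans (le_max_left _ _)
  have hX16 : 16 ≤ X := (le_max_right _ _).trans (le_max_left _ _)
  have hX2 : 16 * A ≤ X := (le_max_left _ _).trans (le_max_right _ _)
  have hX3 : (64 * C₁ / η) ^ 2 ≤ X :=
    (le_max_left _ _).trans ((le_max_right _ _).trans (le_max_right _ _))
  have hX4 : 1 / C₁ ^ 2 ≤ X :=
    (le_max_right _ _).trans ((le_max_right _ _).trans (le_max_right _ _))
  obtain ⟨D', hD'⟩ := count_doubling (N := fun x => ((Set.ncard {m | m ∈ E ∧ b m ≤ x} : ℕ) : ℝ))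
    (fun x y hxy => by
      have h1 : {m | m ∈ E ∧ b m ≤ x} ⊆ {m | m ∈ E ∧ b m ≤ y} := fun n hn => ⟨hn.1, hn.2.trans hxy⟩
      have h2 := Set.ncard_le_ncard h1 (hfin y)
      exact_mod_cast h2) (C := D / C₁ ^ 2) (half_pos hε) (by linarith : (1 : ℝ) ≤ X)
      (by positivity) (by
    intro x hx
    have hx0 : 0 < x := by linarith
    have hx16 : 16 ≤ x := by linarith
    set W : Set ℕ := {m | m ∈ E ∧ (x < b m ∧ b m ≤ 2 * x)} with hW
    have hWfin : W.Finite := (hfin (2 * x)).subset fun m hm => ⟨hm.1, hm.2.2⟩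
    have hsub : {m | m ∈ E ∧ b m ≤ 2 * x} ⊆ {m | m ∈ E ∧ b m ≤ x} ∪ W := by
      intro m hm
      rcases le_or_gt (b m) x with h | h
      · left; exact ⟨hm.1, h⟩
      · right; exact ⟨hm.1, h, hm.2⟩
    have h1 := (Set.ncard_le_ncard hsub ((hfin x).union hWfin)).trans (Set.ncard_union_le _ _)
    have hsx : √x * √x = x := Real.mul_self_sqrt hx0.le
    have hsx4 : 4 ≤ √x := by
      apply Real.le_sqrt_of_sq_le
      linarith
    have hsx0 : 0 < √x := by linarith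
    set h : ℝ := C₁ * √x with hh
    have hmlow : ∀ m ∈ W, √x / (2 * √A) ≤ m := by
      intro m hm
      have h2 : x < A * ((m : ℝ) + 1) ^ 2 := lt_of_lt_of_le hm.2.1 (hA m)
      have h3 : √x < √A * ((m : ℝ) + 1) := by
        rw [Real.sqrt_lt' (by positivity), mul_pow, Real.sq_sqrt hA0.le]
        exact h2
      have h4 : 4 * √A ≤ √x := by
        have : (4 : ℝ) * √A = √(16 * A) := by
          rw [Real.sqrt_mul (by norm_num)]
          congr 1
          rw [show (16 : ℝ) = 4 ^ 2 by norm_num, Real.sqrt_sq (by norm_num)]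
        rw [this]
        exact Real.sqrt_le_sqrt (hX2.trans hx)
      rw [div_le_iff₀ (by positivity)]
      nlinarith
    have hclow : ∀ m ∈ W, c₁ * √x ≤ c * m := by
      intro m hm
      calc c₁ * √x = c * (√x / (2 * √A)) := by rw [hc₁]; ring
        _ ≤ c * m := mul_le_mul_of_nonneg_left (hmlow m hm) hc.le
    have hmup : ∀ m ∈ W, C * ((m : ℝ) + 1) ≤ h := by
      intro m hm
      have h2 := hb.idx (by linarith : (1 : ℝ) ≤ 2 * x) hm.2.2
      have h3 : √(2 * x) ≤ 2 * √x := by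
        rw [show 2 * √x = √(4 * x) by
          rw [Real.sqrt_mul (by norm_num), show (4 : ℝ) = 2 ^ 2 by norm_num,
            Real.sqrt_sq (by norm_num)]]
        exact Real.sqrt_le_sqrt (by linarith)
      have h4 : (m : ℝ) ≤ K * (2 * √x) := h2.trans (mul_le_mul_of_nonneg_left h3 (by linarith))
      have h5 : (m : ℝ) + 1 ≤ (2 * K + 1) * √x := by nlinarith
      rw [hh, hC₁]
      have h6 : C * ((m : ℝ) + 1) ≤ C * ((2 * K + 1) * √x) := mul_le_mul_of_nonneg_left h5 hC0.le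
      have h7 : 0 ≤ c₁ * √x := by positivity
      linarith
    have hh1 : 1 ≤ h := by
      have h2 : 1 / C₁ ^ 2 ≤ x := hX4.trans hx
      rw [div_le_iff₀ (by positivity)] at h2
      have h3 : 1 ≤ (C₁ * √x) ^ 2 := by nlinarith
      rw [hh]
      by_contra hcc
      push Not at hcc
      have : 0 < C₁ * √x := by positivity
      nlinarith
    have hhx : h ≤ η / 64 * x := by
      have h2 : 64 * C₁ / η ≤ √x := Real.le_sqrt_of_sq_le (hX3.trans hx)
      rw [div_le_iff₀ hη] at h2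
      rw [hh]
      have h3 : 64 * C₁ * √x ≤ √x * η * √x := mul_le_mul_of_nonneg_right h2 hsx0.le
      have h4 : √x * η * √x = η * x := by
        rw [show √x * η * √x = η * (√x * √x) by ring, hsx]
      linarith
    set T : Finset (ℝ × ℝ) := hWfin.toFinset.image fun m => (b m, b (m + 1)) with hT
    have hW1 : ∀ m ∈ W, 1 ≤ m := by
      intro m hm
      by_contra h0
      have h2 : m = 0 := by omega
      have h3 := hA 0
      have h4 := hm.2.1
      rw [h2] at h4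
      simp at h3
      linarith
    have hcard : (T.card : ℝ) = W.ncard := by
      rw [hT, Set.ncard_eq_toFinset_card _ hWfin, Finset.card_image_of_injOn]
      intro m hm n hn hmn
      have hm' := (Set.Finite.mem_toFinset hWfin).1 hm
      have hn' := (Set.Finite.mem_toFinset hWfin).1 hn
      simp only [Prod.mk.injEq] at hmn
      rcases lt_trichotomy m n with h2 | h2 | h2
      · have := hb.lt (hW1 m hm') h2
        linarith [hmn.1]
      · exact h2
      · have := hb.lt (hW1 n hn') h2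
        linarith [hmn.1]
    have hmem : ∀ v ∈ T, ∃ m, m ∈ W ∧ v = (b m, b (m + 1)) := by
      intro v hv
      rw [hT] at hv
      obtain ⟨m, hm, rfl⟩ := Finset.mem_image.1 hv
      exact ⟨m, (Set.Finite.mem_toFinset _).1 hm, rfl⟩
    have hsep : ∀ m ∈ W, ∀ n ∈ W, m < n → b (m + 1) + h ≤ b n := by
      intro m hm n hn hmn
      have h2 : m + r ≤ n := by
        have h3 := hE m hm.1
        have h4 := hE n hn.1
        have h5 : (n - m) % r = 0 := by
          have h6 : m ≡ n [MOD r] := by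
            unfold Nat.ModEq
            rw [h3, h4]
          exact Nat.mod_eq_zero_of_dvd ((Nat.modEq_iff_dvd' hmn.le).1 h6)
        have h7 := Nat.le_of_dvd (by omega) (Nat.dvd_of_mod_eq_zero h5)
        omega
      have h3 := hb.mono h2
      have h4 := hb.far (m + 1) (r - 1)
      have e1 : m + 1 + (r - 1) = m + r := by omega
      rw [e1] at h4
      have h5 : ((r - 1 : ℕ) : ℝ) = r - 1 := by
        rw [Nat.cast_sub hr1]
        simp
      rw [h5] at h4
      have h6 : h ≤ c * ((m + 1 : ℕ) : ℝ) * (r - 1) := by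
        have h7 := hclow m hm
        have h8 : C₁ / c₁ ≤ (r : ℝ) - 1 := by linarith
        have h9 : c₁ * √x ≤ c * ((m + 1 : ℕ) : ℝ) := by
          push_cast
          linarith
        calc h = (c₁ * √x) * (C₁ / c₁) := by rw [hh]; field_simp
          _ ≤ (c * ((m + 1 : ℕ) : ℝ)) * (r - 1) :=
              mul_le_mul h9 h8 (by positivity) (by positivity)
      linarith
    have key := hD x h (hX1.trans hx) hh1 hhx T (by
      intro v hv
      obtain ⟨m, hm, rfl⟩ := hmem v hv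
      refine ⟨hm.2.1.le, hm.2.2, (hb.up m).trans (hmup m hm), ?_⟩
      simp only
      have h2 := hb.low m
      have h3 := hclow m hm
      rw [div_mul_eq_mul_div, le_div_iff₀ hc₁0, hh]
      have h4 : C₁ * (c₁ * √x) ≤ C₁ * (b (m + 1) - b m) :=
        mul_le_mul_of_nonneg_left (h3.trans h2) hC₁p.le
      linarith) (by
      intro v hv w hw hvw
      obtain ⟨m, hm, rfl⟩ := hmem v hv
      obtain ⟨n, hn, rfl⟩ := hmem w hw
      simp only
      rcases lt_trichotomy m n with h2 | h2 | h2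
      · left; exact hsep m hm n hn h2
      · exact absurd (by rw [h2]) hvw
      · right; exact hsep n hn m hm h2) (by
      rcases hdev with hl | hu
      · left
        intro v hv
        obtain ⟨m, hm, rfl⟩ := hmem v hv
        exact hl m hm.1
      · right
        intro v hv
        obtain ⟨m, hm, rfl⟩ := hmem v hv
        exact hu m hm.1)
    rw [hcard] at key
    have e1 : h ^ 2 = C₁ ^ 2 * x := by rw [hh]; nlinarith
    rw [e1, Real.rpow_add hx0, Real.rpow_one] at key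
    have h6 : (W.ncard : ℝ) * C₁ ^ 2 ≤ D * x ^ (ε / 2) := by
      have h7 : ((W.ncard : ℝ) * C₁ ^ 2) * x ≤ (D * x ^ (ε / 2)) * x := by linarith
      exact le_of_mul_le_mul_right h7 hx0
    have h7 : (W.ncard : ℝ) ≤ D / C₁ ^ 2 * x ^ (ε / 2) := by
      rw [div_mul_eq_mul_div, le_div_iff₀ (by positivity)]
      exact h6
    have h8 : ((Set.ncard {m | m ∈ E ∧ b m ≤ 2 * x} : ℕ) : ℝ) ≤
        Set.ncard {m | m ∈ E ∧ b m ≤ x} + W.ncard := by exact_mod_cast h1
    linarith)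
  set B : ℝ := max 1 (4 * A) with hB
  have hB1 : 1 ≤ B := le_max_left _ _
  refine ⟨|D'| * B ^ (ε / 2), fun N hN => ?_⟩
  have hN1 : (1 : ℝ) ≤ N := by exact_mod_cast hN
  have hsub : {m | m ∈ E ∧ m ≤ N} ⊆ {m | m ∈ E ∧ b m ≤ B * (N : ℝ) ^ 2} := by
    rintro m ⟨hm, hmN⟩
    refine ⟨hm, ?_⟩
    have h2 := hA m
    have h4 : (m : ℝ) ≤ N := by exact_mod_cast hmN
    have h5 : (0 : ℝ) ≤ m := Nat.cast_nonneg m
    have h6 : ((m : ℝ) + 1) ^ 2 ≤ 4 * (N : ℝ) ^ 2 := by nlinarith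
    have h7 : A * ((m : ℝ) + 1) ^ 2 ≤ A * (4 * (N : ℝ) ^ 2) :=
      mul_le_mul_of_nonneg_left h6 hA0.le
    have h8 : 4 * A * (N : ℝ) ^ 2 ≤ B * (N : ℝ) ^ 2 :=
      mul_le_mul_of_nonneg_right (le_max_right _ _) (by positivity)
    linarith
  have h1 := Set.ncard_le_ncard hsub (hfin _)
  have h2 : (1 : ℝ) ≤ B * (N : ℝ) ^ 2 := by nlinarith
  have h3 := hD' _ h2
  have h4 : (B * (N : ℝ) ^ 2) ^ (ε / 2) = B ^ (ε / 2) * (N : ℝ) ^ ε := by
    rw [Real.mul_rpow (by linarith) (by positivity), ← Real.rpow_natCast (N : ℝ) 2,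
      ← Real.rpow_mul (by positivity)]
    congr 2
    push_cast
    ring
  rw [h4] at h3
  have h5 : (({m | m ∈ E ∧ m ≤ N}.ncard : ℕ) : ℝ) ≤
      (({m | m ∈ E ∧ b m ≤ B * (N : ℝ) ^ 2}.ncard : ℕ) : ℝ) := by exact_mod_cast h1
  have h6 : D' * (B ^ (ε / 2) * (N : ℝ) ^ ε) ≤ |D'| * (B ^ (ε / 2) * (N : ℝ) ^ ε) :=
    mul_le_mul_of_nonneg_right (le_abs_self D') (by positivity)
  linarith

theorem Sps.finite_union {ι : Type*} (s : Finset ι) {S : ι → Set ℕ} (h : ∀ i ∈ s, Sps (S i)) :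
    Sps (⋃ i ∈ s, S i) := by
  induction s using Finset.induction_on with
  | empty =>
    intro ε hε
    refine ⟨0, fun N _ => ?_⟩
    simp
  | insert a s ha ih =>
    rw [Finset.set_biUnion_insert]
    exact (h a (Finset.mem_insert_self _ _)).union
      (ih fun i hi => h i (Finset.mem_insert_of_mem hi))

theorem Sps.mono {S T : Set ℕ} (hT : Sps T) (h : S ⊆ T) : Sps S := by
  intro ε hε
  obtain ⟨C, hC⟩ := hT ε hε
  refine ⟨C, fun N hN => ?_⟩
  have h1 : {n | n ∈ S ∧ n ≤ N} ⊆ {n | n ∈ T ∧ n ≤ N} := fun n hn => ⟨h hn.1, hn.2⟩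
  have h2 := Set.ncard_le_ncard h1 (fin_le T N)
  have h3 : (({n | n ∈ S ∧ n ≤ N}.ncard : ℕ) : ℝ) ≤ (({n | n ∈ T ∧ n ≤ N}.ncard : ℕ) : ℝ) := by
    exact_mod_cast h2
  exact h3.trans (hC N hN)

/-- **Few intervals have a wrong number of primes.** -/
theorem dev_count {Z : Multiset ℂ} (hZ : ∀ ρ ∈ Z, ρ.re < 1) (hZc : Z.map conj = Z)
    {x₀ : ℝ} (hR : RDens (fZ Z) x₀) {p : ℕ → ℝ} (hS : SysW Z p) {b : ℕ → ℝ} {c C : ℝ}
    (hb : Brk b c C) {η : ℝ} (hη : 0 < η) (hη1 : η ≤ 1) :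
    Sps {m | η * (Fp (fZ Z) x₀ (b (m + 1)) - Fp (fZ Z) x₀ (b m)) ≤
      |((Set.ncard {k | b m < p k ∧ p k < b (m + 1)} : ℕ) : ℝ) -
        (Fp (fZ Z) x₀ (b (m + 1)) - Fp (fZ Z) x₀ (b m))|} := by
  obtain ⟨r, hr1, hr⟩ := dev_class hZ hZc hR hS hb hη hη1
  set L : ℕ → Set ℕ := fun i => {m | m % r = i ∧
    ((Set.ncard {k | b m < p k ∧ p k < b (m + 1)} : ℕ) : ℝ) ≤
      (1 - η) * (Fp (fZ Z) x₀ (b (m + 1)) - Fp (fZ Z) x₀ (b m))} with hL
  set U : ℕ → Set ℕ := fun i => {m | m % r = i ∧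
    (1 + η) * (Fp (fZ Z) x₀ (b (m + 1)) - Fp (fZ Z) x₀ (b m)) ≤
      ((Set.ncard {k | b m < p k ∧ p k < b (m + 1)} : ℕ) : ℝ)} with hU
  have h1 : ∀ i ∈ Finset.range r, Sps (L i ∪ U i) := fun i _ =>
    (hr i (L i) (fun m hm => hm.1) (Or.inl fun m hm => hm.2)).union
      (hr i (U i) (fun m hm => hm.1) (Or.inr fun m hm => hm.2))
  refine (Sps.finite_union (Finset.range r) h1).mono ?_
  intro m hm
  have hm' : η * (Fp (fZ Z) x₀ (b (m + 1)) - Fp (fZ Z) x₀ (b m)) ≤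
      |((Set.ncard {k | b m < p k ∧ p k < b (m + 1)} : ℕ) : ℝ) -
        (Fp (fZ Z) x₀ (b (m + 1)) - Fp (fZ Z) x₀ (b m))| := hm
  rw [mem_iUnion₂]
  refine ⟨m % r, Finset.mem_range.2 (Nat.mod_lt _ (by omega)), ?_⟩
  rcases le_abs'.1 hm' with h2 | h2
  · left
    refine ⟨rfl, ?_⟩
    linarith
  · right
    refine ⟨rfl, ?_⟩
    linarith

end Pool.Agent.H521.G
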