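import Mathlib

open MeasureTheory Set Filter Topology

namespace Pool.Agent.H521.G

/-- Dyadic windows of length `2 ^ (n (1 - ρ))`. -/
def DyA (ρ : ℝ) (u : ℕ) : Prop := ∃ n : ℕ, 2 ^ n ≤ u ∧ (u : ℝ) ≤ 2 ^ n + ((2 : ℝ) ^ n) ^ (1 - ρ)

/-- Dyadic windows of length `n ^ 4`. -/
def DyB (u : ℕ) : Prop := ∃ n : ℕ, 2 ^ n ≤ u ∧ u ≤ 2 ^ n + n ^ 4

theorem dyCount_log {n u U : ℕ} (h : 2 ^ n ≤ u) (hu : u < U + 1) : n < Nat.log 2 U + 1 := by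
  have h1 : 2 ^ n ≤ U := h.trans (Nat.lt_succ_iff.mp hu)
  exact Nat.lt_succ_of_le (Nat.le_log_of_pow_le (by norm_num) h1)

open Classical in
theorem dyA_count {ρ : ℝ} (h0 : 0 ≤ ρ) (h1 : ρ ≤ 1) (U : ℕ) (hU : 1 ≤ U) :
    (((Finset.range (U + 1)).filter fun u => DyA ρ u).card : ℝ) ≤
      (Nat.log 2 U + 1) * ((U : ℝ) ^ (1 - ρ) + 1) := by
  have hsub : ((Finset.range (U + 1)).filter fun u => DyA ρ u) ⊆
      (Finset.range (Nat.log 2 U + 1)).biUnion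
        (fun n => Finset.Icc (2 ^ n) (2 ^ n + ⌊((2 : ℝ) ^ n) ^ (1 - ρ)⌋₊)) := by
    intro u hu
    rw [Finset.mem_filter, Finset.mem_range] at hu
    obtain ⟨hu1, n, hn1, hn2⟩ := hu
    rw [Finset.mem_biUnion]
    refine ⟨n, Finset.mem_range.mpr (dyCount_log hn1 hu1), ?_⟩
    rw [Finset.mem_Icc]
    refine ⟨hn1, ?_⟩
    obtain ⟨v, rfl⟩ := Nat.exists_eq_add_of_le hn1
    have h2 : (v : ℝ) ≤ ((2 : ℝ) ^ n) ^ (1 - ρ) := by
      push_cast at hn2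
      linarith
    exact Nat.add_le_add_left (Nat.le_floor h2) _
  have h2 : ((Finset.range (U + 1)).filter fun u => DyA ρ u).card ≤
      ∑ n ∈ Finset.range (Nat.log 2 U + 1),
        (Finset.Icc (2 ^ n) (2 ^ n + ⌊((2 : ℝ) ^ n) ^ (1 - ρ)⌋₊)).card :=
    (Finset.card_le_card hsub).trans Finset.card_biUnion_le
  have h3 : (((Finset.range (U + 1)).filter fun u => DyA ρ u).card : ℝ) ≤
      ∑ n ∈ Finset.range (Nat.log 2 U + 1),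
        ((Finset.Icc (2 ^ n) (2 ^ n + ⌊((2 : ℝ) ^ n) ^ (1 - ρ)⌋₊)).card : ℝ) := by
    exact_mod_cast h2
  refine h3.trans ?_
  have h4 : ∀ n ∈ Finset.range (Nat.log 2 U + 1),
      ((Finset.Icc (2 ^ n) (2 ^ n + ⌊((2 : ℝ) ^ n) ^ (1 - ρ)⌋₊)).card : ℝ) ≤
        (U : ℝ) ^ (1 - ρ) + 1 := by
    intro n hn
    have h5 : 2 ^ n ≤ U :=
      Nat.pow_le_of_le_log (by omega) (Nat.lt_succ_iff.mp (Finset.mem_range.mp hn))
    have h6 : ((2 : ℝ) ^ n) ≤ (U : ℝ) := by exact_mod_cast h5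
    have h7 : ((2 : ℝ) ^ n) ^ (1 - ρ) ≤ (U : ℝ) ^ (1 - ρ) :=
      Real.rpow_le_rpow (by positivity) h6 (by linarith)
    have h8 : ((⌊((2 : ℝ) ^ n) ^ (1 - ρ)⌋₊ : ℕ) : ℝ) ≤ ((2 : ℝ) ^ n) ^ (1 - ρ) :=
      Nat.floor_le (by positivity)
    have h9 : (Finset.Icc (2 ^ n) (2 ^ n + ⌊((2 : ℝ) ^ n) ^ (1 - ρ)⌋₊)).card =
        ⌊((2 : ℝ) ^ n) ^ (1 - ρ)⌋₊ + 1 := by
      rw [Nat.card_Icc]
      omega
    rw [h9]
    push_cast
    linarith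
  refine (Finset.sum_le_sum h4).trans ?_
  rw [Finset.sum_const, Finset.card_range, nsmul_eq_mul]
  push_cast
  exact le_rfl

open Classical in
theorem dyB_count (U : ℕ) (hU : 1 ≤ U) :
    ((Finset.range (U + 1)).filter fun u => DyB u).card ≤
      (Nat.log 2 U + 1) * ((Nat.log 2 U) ^ 4 + 1) := by
  have hsub : ((Finset.range (U + 1)).filter fun u => DyB u) ⊆
      (Finset.range (Nat.log 2 U + 1)).biUnion
        (fun n => Finset.Icc (2 ^ n) (2 ^ n + n ^ 4)) := by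
    intro u hu
    rw [Finset.mem_filter, Finset.mem_range] at hu
    obtain ⟨hu1, n, hn1, hn2⟩ := hu
    rw [Finset.mem_biUnion]
    exact ⟨n, Finset.mem_range.mpr (dyCount_log hn1 hu1), Finset.mem_Icc.mpr ⟨hn1, hn2⟩⟩
  refine ((Finset.card_le_card hsub).trans Finset.card_biUnion_le).trans ?_
  have h4 : ∀ n ∈ Finset.range (Nat.log 2 U + 1),
      (Finset.Icc (2 ^ n) (2 ^ n + n ^ 4)).card ≤ (Nat.log 2 U) ^ 4 + 1 := by
    intro n hn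
    have h5 : n ^ 4 ≤ (Nat.log 2 U) ^ 4 :=
      Nat.pow_le_pow_left (Nat.lt_succ_iff.mp (Finset.mem_range.mp hn)) 4
    rw [Nat.card_Icc]
    omega
  refine (Finset.sum_le_sum h4).trans ?_
  rw [Finset.sum_const, Finset.card_range, smul_eq_mul]

theorem dyA_anti {ρ ρ' : ℝ} (h : ρ ≤ ρ') {u : ℕ} (hu : DyA ρ' u) : DyA ρ u := by
  obtain ⟨n, h1, h2⟩ := hu
  refine ⟨n, h1, h2.trans ?_⟩
  have h3 : (1 : ℝ) ≤ 2 ^ n := one_le_pow₀ (by norm_num)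
  have h4 : ((2 : ℝ) ^ n) ^ (1 - ρ') ≤ ((2 : ℝ) ^ n) ^ (1 - ρ) :=
    Real.rpow_le_rpow_of_exponent_le h3 (by linarith)
  linarith

end Pool.Agent.H521.G
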