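import Mathlib

open MeasureTheory Set Filter Topology
open scoped ENNReal

namespace Pool.Agent.H521.G

/-- the set of exponents -/
def expoSeqD (e : ℝ → ℝ≥0∞) : Set ℝ :=
  {x | 1 < x ∧ ∃ q : ℚ, (q : ℝ) = x} ∪ {x ∈ Ioi (1 : ℝ) | ¬ ContinuousWithinAt e (Ioi 1) x}

theorem expoSeqD_countable {e : ℝ → ℝ≥0∞} (he : MonotoneOn e (Ioi 1)) :
    (expoSeqD e).Countable := by
  refine Set.Countable.union ?_ he.countable_not_continuousWithinAt
  refine (Set.countable_range (fun q : ℚ => (q : ℝ))).mono ?_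
  rintro x ⟨-, q, hq⟩
  exact ⟨q, hq⟩

theorem expoSeqD_cont {e : ℝ → ℝ≥0∞} {a : ℝ} (ha : 1 < a) (h : a ∉ expoSeqD e) :
    ContinuousAt e a := by
  have h1 : ContinuousWithinAt e (Ioi 1) a := by
    by_contra h2
    exact h (Or.inr ⟨ha, h2⟩)
  exact h1.continuousAt (Ioi_mem_nhds ha)

/-- A sequence of exponents containing all jumps of a monotone function and dense for its values. -/
theorem expo_seq {e : ℝ → ℝ≥0∞} (he : MonotoneOn e (Ioi 1)) :
    ∃ Q : ℕ → ℝ, (∀ i, 1 < Q i) ∧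
      (∀ a, 1 < a → ∀ b, e a < b → ∃ i, a ≤ Q i ∧ e (Q i) < b) ∧
      ∀ a, 1 < a → ∀ b, b < e a → (∃ i, Q i = a) ∨ ∃ a', 1 < a' ∧ a' < a ∧ b < e a' := by
  have hne : (expoSeqD e).Nonempty := ⟨2, Or.inl ⟨by norm_num, 2, by norm_num⟩⟩
  obtain ⟨Q, hQ⟩ := (expoSeqD_countable he).exists_eq_range hne
  have hmem : ∀ i, Q i ∈ expoSeqD e := by
    intro i
    rw [hQ]
    exact mem_range_self i
  refine ⟨Q, ?_, ?_, ?_⟩
  · intro i
    rcases hmem i with h | h
    · exact h.1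
    · exact h.1
  · intro a ha b hb
    by_cases hD : a ∈ expoSeqD e
    · rw [hQ] at hD
      obtain ⟨i, hi⟩ := hD
      exact ⟨i, hi.ge, by rw [hi]; exact hb⟩
    · have hc := expoSeqD_cont ha hD
      have hev : ∀ᶠ x in 𝓝 a, e x < b := hc.eventually_lt_const hb
      obtain ⟨ε, hε, hεs⟩ := Metric.eventually_nhds_iff.1 hev
      obtain ⟨q, hq1, hq2⟩ := exists_rat_btwn (show a < a + ε by linarith)
      have hqD : (q : ℝ) ∈ expoSeqD e := Or.inl ⟨ha.trans hq1, q, rfl⟩
      rw [hQ] at hqD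
      obtain ⟨i, hi⟩ := hqD
      refine ⟨i, by rw [hi]; exact hq1.le, ?_⟩
      rw [hi]
      apply hεs
      rw [Real.dist_eq, abs_of_pos (by linarith)]
      linarith
  · intro a ha b hb
    by_cases hD : a ∈ expoSeqD e
    · left
      rw [hQ] at hD
      exact hD
    · right
      have hc := expoSeqD_cont ha hD
      have hev : ∀ᶠ x in 𝓝 a, b < e x := hc.eventually_const_lt hb
      obtain ⟨ε, hε, hεs⟩ := Metric.eventually_nhds_iff.1 hev
      obtain ⟨x, hx1, hx2⟩ := exists_between (show max 1 (a - ε) < a from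
        max_lt ha (by linarith))
      refine ⟨x, (le_max_left _ _).trans_lt hx1, hx2, ?_⟩
      apply hεs
      rw [Real.dist_eq, abs_sub_comm, abs_of_pos (by linarith)]
      have := (le_max_right 1 (a - ε)).trans_lt hx1
      linarith

end Pool.Agent.H521.G
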