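import Mathlib

open MeasureTheory Set Filter Topology

namespace Pool.Agent.H521.G

/-- exponentials of the bounds for the logarithm -/
theorem forder_aux_rpow {y l c : ℝ} (hy : 0 < y) (hl : 0 < l) :
    (Real.log y ≤ c * Real.log l ↔ y ≤ l ^ c) ∧ (c * Real.log l ≤ Real.log y ↔ l ^ c ≤ y) := by
  rw [← Real.log_rpow hl]
  exact ⟨Real.log_le_log_iff hy (Real.rpow_pos_of_pos hl c),
    Real.log_le_log_iff (Real.rpow_pos_of_pos hl c) hy⟩

theorem forder {f : ℝ → ℝ} (h1 : Tendsto (fun x => f x / Real.log x) atTop atTop) {A : ℝ}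
    (h2 : Tendsto (fun x => Real.log (f x) / Real.log (Real.log x)) atTop (𝓝 A)) (i : ℕ)
    (hi : A + 1 < (i : ℝ) / 2) {Q : ℕ → ℝ} :
    ∀ᶠ x in atTop, 2 * (i : ℝ) < f x / Real.log x ∧
      f x / Real.log x ≤ Real.log x ^ ((i : ℝ) / 2) ∧
      ∀ q, q < i → Q q < A → 2 * Real.log x ^ (Q q - 1) ≤ f x / Real.log x := by
  have hl : Tendsto Real.log atTop atTop := Real.tendsto_log_atTop
  have hll : Tendsto (fun x => Real.log (Real.log x)) atTop atTop := hl.comp hl
  have e1 : ∀ᶠ x in atTop, 2 * (i : ℝ) < f x / Real.log x := h1.eventually_gt_atTop _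
  have e2 : ∀ᶠ x in atTop, 1 < Real.log x := hl.eventually_gt_atTop 1
  have e3 : ∀ᶠ x in atTop, 0 < Real.log (Real.log x) := hll.eventually_gt_atTop 0
  have e4 : ∀ᶠ x in atTop, 0 < f x := by
    filter_upwards [h1.eventually_gt_atTop 0, e2] with x hx hx2
    have := mul_pos hx (by linarith : (0 : ℝ) < Real.log x)
    rwa [div_mul_cancel₀ _ (by linarith : Real.log x ≠ 0)] at this
  have e5 : ∀ᶠ x in atTop, Real.log (f x) / Real.log (Real.log x) < A + 1 :=
    h2.eventually_lt_const (by linarith)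
  have e6 : ∀ᶠ x in atTop, f x / Real.log x ≤ Real.log x ^ ((i : ℝ) / 2) := by
    filter_upwards [e2, e3, e4, e5] with x x2 x3 x4 x5
    have l0 : 0 < Real.log x := by linarith
    rw [div_lt_iff₀ x3] at x5
    have x6 := (forder_aux_rpow x4 l0).1.1 x5.le
    rw [div_le_iff₀ l0]
    calc f x ≤ Real.log x ^ (A + 1) := x6
      _ ≤ Real.log x ^ ((i : ℝ) / 2 + 1) :=
        Real.rpow_le_rpow_of_exponent_le x2.le (by linarith)
      _ = Real.log x ^ ((i : ℝ) / 2) * Real.log x := by
        rw [Real.rpow_add l0, Real.rpow_one]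
  have e7 : ∀ᶠ x in atTop, ∀ q, q < i → Q q < A →
      2 * Real.log x ^ (Q q - 1) ≤ f x / Real.log x := by
    have e8 : ∀ q : ℕ, Q q < A →
        ∀ᶠ x in atTop, 2 * Real.log x ^ (Q q - 1) ≤ f x / Real.log x := by
      intro q hq
      have a1 : ∀ᶠ x in atTop, (Q q + A) / 2 < Real.log (f x) / Real.log (Real.log x) :=
        h2.eventually_const_lt (by linarith)
      have a2 : ∀ᶠ x in atTop, 2 < Real.log x ^ ((A - Q q) / 2) :=
        ((tendsto_rpow_atTop (by linarith : 0 < (A - Q q) / 2)).comp hl).eventually_gt_atTop 2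
      filter_upwards [e2, e3, e4, a1, a2] with x x2 x3 x4 x5 x6
      have l0 : 0 < Real.log x := by linarith
      rw [lt_div_iff₀ x3] at x5
      have x7 := (forder_aux_rpow x4 l0).2.1 x5.le
      rw [le_div_iff₀ l0]
      calc 2 * Real.log x ^ (Q q - 1) * Real.log x = 2 * Real.log x ^ (Q q) := by
            rw [mul_assoc, ← Real.rpow_add_one l0.ne']
            norm_num
        _ ≤ Real.log x ^ ((A - Q q) / 2) * Real.log x ^ (Q q) :=
          mul_le_mul_of_nonneg_right x6.le (Real.rpow_nonneg l0.le _)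
        _ = Real.log x ^ ((Q q + A) / 2) := by
          rw [← Real.rpow_add l0]
          congr 1
          ring
        _ ≤ f x := x7
    have e9 : ∀ᶠ x in atTop, ∀ q ∈ Finset.range i, Q q < A →
        2 * Real.log x ^ (Q q - 1) ≤ f x / Real.log x := by
      rw [Filter.eventually_all_finset]
      intro q _
      by_cases hq : Q q < A
      · filter_upwards [e8 q hq] with x hx _ using hx
      · exact Filter.Eventually.of_forall fun x h => absurd h hq
    filter_upwards [e9] with x hx q hq hQ using hx q (Finset.mem_range.2 hq) hQ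
  filter_upwards [e1, e6, e7] with x x1 x6 x7 using ⟨x1, x6, x7⟩

end Pool.Agent.H521.G
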