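import Pool.Agent.H521.G.Forder

open MeasureTheory Set Filter Topology
open scoped ENNReal

namespace Pool.Agent.H521.G

/-- The polylogarithmic exponent of an order function. -/
noncomputable def lexp (f : ℝ → ℝ) : ℝ≥0∞ :=
  liminf (fun x => ENNReal.ofReal (Real.log (f x) / Real.log (Real.log x))) atTop

theorem forder8 {f : ℝ → ℝ} (h1 : Tendsto (fun x => f x / Real.log x) atTop atTop) (i : ℕ)
    {Q : ℕ → ℝ} :
    ∀ᶠ x in atTop, 2 * (i : ℝ) < f x / Real.log x ∧
      ∀ q, q < i → ENNReal.ofReal (Q q) < lexp f →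
        2 * Real.log x ^ (Q q - 1) ≤ f x / Real.log x := by
  have hl : Tendsto Real.log atTop atTop := Real.tendsto_log_atTop
  have hll : Tendsto (fun x => Real.log (Real.log x)) atTop atTop := hl.comp hl
  have e1 : ∀ᶠ x in atTop, 2 * (i : ℝ) < f x / Real.log x := h1.eventually_gt_atTop _
  have e2 : ∀ᶠ x in atTop, 1 < Real.log x := hl.eventually_gt_atTop 1
  have e3 : ∀ᶠ x in atTop, 0 < Real.log (Real.log x) := hll.eventually_gt_atTop 0
  have e4 : ∀ᶠ x in atTop, 0 < f x := by
    filter_upwards [h1.eventually_gt_atTop 0, e2] with x hx hx2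
    have := mul_pos hx (by linarith : (0 : ℝ) < Real.log x)
    rwa [div_mul_cancel₀ _ (by linarith : Real.log x ≠ 0)] at this
  have e7 : ∀ᶠ x in atTop, ∀ q, q < i → ENNReal.ofReal (Q q) < lexp f →
      2 * Real.log x ^ (Q q - 1) ≤ f x / Real.log x := by
    have e8 : ∀ q : ℕ, ENNReal.ofReal (Q q) < lexp f →
        ∀ᶠ x in atTop, 2 * Real.log x ^ (Q q - 1) ≤ f x / Real.log x := by
      intro q hq
      obtain ⟨r, hr1, hr2⟩ := ENNReal.lt_iff_exists_nnreal_btwn.1 hq
      have hr3 : Q q < r := by
        by_contra hc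
        push Not at hc
        have := ENNReal.ofReal_le_ofReal hc
        rw [ENNReal.ofReal_coe_nnreal] at this
        exact absurd hr1 (not_lt.2 this)
      have a1 : ∀ᶠ x in atTop, (r : ℝ≥0∞) <
          ENNReal.ofReal (Real.log (f x) / Real.log (Real.log x)) :=
        eventually_lt_of_lt_liminf hr2 (by isBoundedDefault)
      have a2 : ∀ᶠ x in atTop, 2 < Real.log x ^ (r - Q q) :=
        ((tendsto_rpow_atTop (by linarith : 0 < r - Q q)).comp hl).eventually_gt_atTop 2
      filter_upwards [e2, e3, e4, a1, a2] with x x2 x3 x4 x5 x6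
      have l0 : 0 < Real.log x := by linarith
      have x5' : (r : ℝ) ≤ Real.log (f x) / Real.log (Real.log x) := by
        by_contra hc
        push Not at hc
        have := ENNReal.ofReal_le_ofReal hc.le
        rw [ENNReal.ofReal_coe_nnreal] at this
        exact absurd x5 (not_lt.2 this)
      rw [le_div_iff₀ x3] at x5'
      have x7 := (forder_aux_rpow x4 l0).2.1 x5'
      rw [le_div_iff₀ l0]
      calc 2 * Real.log x ^ (Q q - 1) * Real.log x = 2 * Real.log x ^ (Q q) := by
            rw [mul_assoc, ← Real.rpow_add_one l0.ne']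
            norm_num
        _ ≤ Real.log x ^ (r - Q q) * Real.log x ^ (Q q) :=
          mul_le_mul_of_nonneg_right x6.le (Real.rpow_nonneg l0.le _)
        _ = Real.log x ^ (r : ℝ) := by
          rw [← Real.rpow_add l0]
          congr 1
          ring
        _ ≤ f x := x7
    have e9 : ∀ᶠ x in atTop, ∀ q ∈ Finset.range i, ENNReal.ofReal (Q q) < lexp f →
        2 * Real.log x ^ (Q q - 1) ≤ f x / Real.log x := by
      rw [Filter.eventually_all_finset]
      intro q _
      by_cases hq : ENNReal.ofReal (Q q) < lexp f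
      · filter_upwards [e8 q hq] with x hx _ using hx
      · exact Filter.Eventually.of_forall fun x h => absurd h hq
    filter_upwards [e9] with x hx q hq hQ using hx q (Finset.mem_range.2 hq) hQ
  filter_upwards [e1, e7] with x x1 x7 using ⟨x1, x7⟩

end Pool.Agent.H521.G
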