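import Pool.Agent.H521.G.Pieces2

open MeasureTheory Set Filter Topology
open scoped ENNReal NNReal ComplexConjugate

namespace Pool.Agent.H521.G

namespace Pat

variable {f : ℝ → ℝ} {x₀ : ℝ} (P : Pat f x₀)

theorem gp_le (k : ℕ) : P.gp k ≤ P.m (blk P.n k) := by
  unfold gp
  set j := blk P.n k
  have h1 := P.Γper j (pos P.n k)
  have h2 := (P.Γmono j).monotone (by have := P.m1 j; omega : pos P.n k + 1 ≤ pos P.n k + P.m j)
  linarith

theorem gp_nonneg (k : ℕ) : 0 ≤ P.gp k := by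
  unfold gp
  have := P.Γmono (blk P.n k) (Nat.lt_succ_self (pos P.n k))
  linarith

theorem wk_nonneg (k : ℕ) : 0 ≤ P.wk k := by
  unfold wk
  split_ifs
  · exact P.w0 _
  · exact le_rfl

/-- The normalised gaps. -/
noncomputable def rr (θ : ℕ → ℝ) (k : ℕ) : ℝ :=
  (P.pk θ (k + 1) - P.pk θ k) / Real.log (P.pk θ k)

end Pat

variable {Z : Multiset ℂ} {x₀ : ℝ}

theorem gap_analysis (hZ : ∀ ρ ∈ Z, ρ.re < 1) (hR : RDens (fZ Z) x₀) (P : Pat (fZ Z) x₀)
    {κ : ℕ → ℕ} {c : ℕ → ℝ} (hκt : Tendsto κ atTop atTop) (hc0 : ∀ t, 0 ≤ c t)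
    (hq : ∀ j, κ j + 2 ≤ P.q j)
    (hgap : ∀ j l, 1 / (P.q j : ℝ) < P.Γ j (l + 1) - P.Γ j l)
    (hw : ∀ j, P.w j = if κ j = κ (j + 1) then 0 else
        c (κ j) * Real.log (phi (fZ Z) x₀ (P.Y j)))
    (hgrow : ∀ δ : ℝ, 0 < δ → ∃ C : ℝ, 0 ≤ C ∧ ∀ j : ℕ,
        (P.n j : ℝ) + c (κ j) ≤ C * ((j : ℝ) + 1) ^ δ)
    (hm : Tendsto (fun j => (P.m j : ℝ) / Real.log (phi (fZ Z) x₀ (P.Y j))) atTop (𝓝 0))
    (θ : ℕ → ℝ) :
    (∀ ε : ℝ, 0 < ε → ∀ᶠ k in atTop,
      |(P.yk θ (k + 1) - P.yk θ k) - P.rr θ k| ≤ ε * P.rr θ k) ∧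
    Tendsto (fun k => (P.yk θ (k + 1) - P.yk θ k) - (P.gp k + P.wk k)) atTop (𝓝 0) ∧
    Tendsto (fun k => P.gp k / Real.log (P.pk θ k)) atTop (𝓝 0) ∧
    Tendsto (fun k => Real.log (phi (fZ Z) x₀ (P.Y (blk P.n k))) / Real.log (P.pk θ k)) atTop
      (𝓝 1) := by
  have hblk := blk_tendsto P.n_pos
  have hmono := P.pk_strictMono hR hgap θ
  have hpt := P.pk_tendsto hR θ
  have hφj : ∀ j : ℕ, (j : ℝ) + 1 ≤ phi (fZ Z) x₀ (P.Y j) := fun j => phi_ge_succ hR (P.Y_ge j)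
  have hpge : ∀ k, phi (fZ Z) x₀ (P.Y (blk P.n k)) ≤ P.pk θ k := P.pk_ge hR θ
  have hlogp : ∀ k, 2 ≤ Real.log (P.pk θ k) := fun k => hR.hlog _ (hR.phi_ge _)
  have hlogφ : ∀ j, 2 ≤ Real.log (phi (fZ Z) x₀ (P.Y j)) := fun k => hR.hlog _ (hR.phi_ge _)
  obtain ⟨C, hC0, hC⟩ := hgrow (1 / 8) (by norm_num)
  -- bound for the y-gap
  have hG : ∀ k, P.yk θ (k + 1) - P.yk θ k ≤ (8 * C + 1) * P.pk θ k ^ (1 / 4 : ℝ) := by
    intro k
    set j := blk P.n k with hj
    set a := P.pk θ k with ha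
    have ha3 : 3 ≤ a := P.pk_ge3 hR θ k
    have h1 := (abs_le.1 (P.yk_step θ k)).2
    have h2 := P.gp_le k
    have h3 : P.wk k ≤ c (κ j) * Real.log a := by
      unfold Pat.wk
      have hnn : 0 ≤ c (κ j) * Real.log a := mul_nonneg (hc0 _) (by linarith [hlogp k])
      split_ifs with h
      · rw [← hj, hw j]
        split_ifs
        · exact hnn
        · apply mul_le_mul_of_nonneg_left _ (hc0 _)
          exact Real.log_le_log (hR.phi_pos _) (hpge k)
      · exact hnn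
    have h4 : (1 : ℝ) / P.q j ≤ 1 := by
      have : (1 : ℝ) ≤ P.q j := by exact_mod_cast P.q1 j
      rw [div_le_one (by linarith)]
      exact this
    have h5 : (P.m j : ℝ) ≤ P.n j := by exact_mod_cast P.m_le_n j
    have h6 := hC j
    have h7 : ((j : ℝ) + 1) ^ (1 / 8 : ℝ) ≤ a ^ (1 / 8 : ℝ) :=
      Real.rpow_le_rpow (by positivity) ((hφj j).trans (hpge k)) (by norm_num)
    have h8 := mul_le_mul_of_nonneg_left h7 hC0
    have hlog : Real.log a ≤ 8 * a ^ (1 / 8 : ℝ) := by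
      have := Real.log_le_rpow_div (by linarith : 0 ≤ a) (by norm_num : (0 : ℝ) < 1 / 8)
      linarith
    have h9 := hlogp k
    rw [← ha] at h9
    have hn0 : (0 : ℝ) ≤ P.n j := Nat.cast_nonneg _
    have h10 : (P.n j : ℝ) + c (κ j) * Real.log a ≤ (P.n j + c (κ j)) * Real.log a := by
      nlinarith [hc0 (κ j)]
    have h11 : (P.n j + c (κ j)) * Real.log a ≤ C * a ^ (1 / 8 : ℝ) * (8 * a ^ (1 / 8 : ℝ)) :=
      mul_le_mul (h6.trans h8) hlog (by linarith) (by positivity)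
    have h12 : C * a ^ (1 / 8 : ℝ) * (8 * a ^ (1 / 8 : ℝ)) = 8 * C * a ^ (1 / 4 : ℝ) := by
      have : a ^ (1 / 4 : ℝ) = a ^ (1 / 8 : ℝ) * a ^ (1 / 8 : ℝ) := by
        rw [← Real.rpow_add (by linarith)]; norm_num
      rw [this]; ring
    have h13 : 1 ≤ a ^ (1 / 4 : ℝ) := Real.one_le_rpow (by linarith) (by norm_num)
    linarith
  have hdouble : ∀ᶠ k in atTop, P.pk θ (k + 1) ≤ 2 * P.pk θ k := by
    have h1 : ∀ᶠ a : ℝ in atTop, 18 * (8 * C + 1) < a ^ (5 / 8 : ℝ) :=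
      (tendsto_rpow_atTop (by norm_num)).eventually_gt_atTop _
    filter_upwards [hpt.eventually h1] with k hk
    by_contra hcon
    push Not at hcon
    set a := P.pk θ k with ha
    have ha3 : 3 ≤ a := P.pk_ge3 hR θ k
    have hax : x₀ ≤ a := hR.phi_ge _
    have h2 := hR.F_sub_ge hax (by linarith : a ≤ 2 * a)
    have h3 := hR.F_mono (by linarith : x₀ ≤ 2 * a) hcon.le
    have h4 : Fp (fZ Z) x₀ a = P.yk θ k := hR.F_phi (P.yk_nonneg θ k)
    have h5 : Fp (fZ Z) x₀ (P.pk θ (k + 1)) = P.yk θ (k + 1) := hR.F_phi (P.yk_nonneg θ _)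
    have h6 := hG k
    have h7 : a / (2 * Real.log (2 * a)) ≤ (8 * C + 1) * a ^ (1 / 4 : ℝ) := by
      have : 2 * a - a = a := by ring
      rw [this] at h2
      linarith
    have h8 : Real.log (2 * a) ≤ 9 * a ^ (1 / 8 : ℝ) := by
      rw [Real.log_mul (by norm_num) (by linarith)]
      have := Real.log_le_rpow_div (by linarith : 0 ≤ a) (by norm_num : (0 : ℝ) < 1 / 8)
      have h9 : 1 ≤ a ^ (1 / 8 : ℝ) := Real.one_le_rpow (by linarith) (by norm_num)
      linarith [Real.log_two_lt_d9]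
    have h9 : 0 < Real.log (2 * a) := Real.log_pos (by linarith)
    rw [div_le_iff₀ (by positivity)] at h7
    have h10 : (8 * C + 1) * a ^ (1 / 4 : ℝ) * (2 * Real.log (2 * a)) ≤
        (8 * C + 1) * a ^ (1 / 4 : ℝ) * (2 * (9 * a ^ (1 / 8 : ℝ))) := by
      apply mul_le_mul_of_nonneg_left _ (by positivity)
      linarith
    have h11 : (8 * C + 1) * a ^ (1 / 4 : ℝ) * (2 * (9 * a ^ (1 / 8 : ℝ))) =
        18 * (8 * C + 1) * a ^ (3 / 8 : ℝ) := by
      have : a ^ (3 / 8 : ℝ) = a ^ (1 / 4 : ℝ) * a ^ (1 / 8 : ℝ) := by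
        rw [← Real.rpow_add (by linarith)]; norm_num
      rw [this]; ring
    have h12 : a = a ^ (5 / 8 : ℝ) * a ^ (3 / 8 : ℝ) := by
      rw [← Real.rpow_add (by linarith)]; norm_num
    have h13 : 0 < a ^ (3 / 8 : ℝ) := by positivity
    have h14 : 18 * (8 * C + 1) * a ^ (3 / 8 : ℝ) < a ^ (5 / 8 : ℝ) * a ^ (3 / 8 : ℝ) :=
      mul_lt_mul_of_pos_right hk h13
    rw [← h12] at h14
    linarith
  refine ⟨fun ε hε => ?_, ?_, ?_, ?_⟩
  · filter_upwards [hpt.eventually (transfer hZ hR hε), hdouble] with k hk1 hk2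
    obtain ⟨hk0, hk1⟩ := hk1
    have h1 := hk1 _ (hmono (Nat.lt_succ_self k)).le hk2
    have h4 : Fp (fZ Z) x₀ (P.pk θ k) = P.yk θ k := hR.F_phi (P.yk_nonneg θ k)
    have h5 : Fp (fZ Z) x₀ (P.pk θ (k + 1)) = P.yk θ (k + 1) := hR.F_phi (P.yk_nonneg θ _)
    rw [h4, h5] at h1
    have hl := hlogp k
    unfold Pat.rr
    have e1 : P.yk θ (k + 1) - P.yk θ k - (P.pk θ (k + 1) - P.pk θ k) / Real.log (P.pk θ k) =
        ((P.yk θ (k + 1) - P.yk θ k) * Real.log (P.pk θ k) - (P.pk θ (k + 1) - P.pk θ k)) /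
          Real.log (P.pk θ k) := by
      field_simp
    rw [e1, abs_div, abs_of_pos (by linarith : 0 < Real.log (P.pk θ k)), ← mul_div_assoc]
    exact div_le_div_of_nonneg_right h1 (by linarith)
  · have h1 : Tendsto (fun k => 1 / ((κ (blk P.n k) : ℝ) + 2)) atTop (𝓝 0) := by
      apply Tendsto.div_atTop tendsto_const_nhds
      exact tendsto_atTop_add_const_right _ _
        (tendsto_natCast_atTop_atTop.comp (hκt.comp hblk))
    apply squeeze_zero_norm _ h1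
    intro k
    refine (P.yk_step θ k).trans ?_
    apply one_div_le_one_div_of_le (by positivity)
    exact_mod_cast hq (blk P.n k)
  · have h1 := hm.comp hblk
    apply squeeze_zero _ _ h1
    · intro k
      exact div_nonneg (P.gp_nonneg k) (by linarith [hlogp k])
    · intro k
      simp only [Function.comp]
      apply div_le_div₀ (Nat.cast_nonneg _) (P.gp_le k) (by linarith [hlogφ (blk P.n k)])
      exact Real.log_le_log (hR.phi_pos _) (hpge k)
  · -- ratio of the logarithms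
    have hev : ∀ᶠ j in atTop, phi (fZ Z) x₀ (P.Y j + 2 * P.n j) ≤
        2 * phi (fZ Z) x₀ (P.Y j) := by
      have h1 : ∀ᶠ a : ℝ in atTop, 64 * C + 8 * C ≤ a ^ (3 / 4 : ℝ) :=
        (tendsto_rpow_atTop (by norm_num)).eventually_ge_atTop _
      filter_upwards [(P.phiY_tendsto hR).eventually h1] with j hj
      set a := phi (fZ Z) x₀ (P.Y j) with ha
      have ha3 : 3 ≤ a := hR.phi_three_le _
      have hn0 : (0 : ℝ) ≤ P.n j := Nat.cast_nonneg _
      have h6 := hC j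
      have h7 : ((j : ℝ) + 1) ^ (1 / 8 : ℝ) ≤ a ^ (1 / 8 : ℝ) :=
        Real.rpow_le_rpow (by positivity) (hφj j) (by norm_num)
      have h8 := mul_le_mul_of_nonneg_left h7 hC0
      have h9 : (P.n j : ℝ) ≤ C * a ^ (1 / 8 : ℝ) := by linarith [hc0 (κ j)]
      have hlog : Real.log a ≤ 8 * a ^ (1 / 8 : ℝ) := by
        have := Real.log_le_rpow_div (by linarith : 0 ≤ a) (by norm_num : (0 : ℝ) < 1 / 8)
        linarith
      have e14 : a ^ (1 / 4 : ℝ) = a ^ (1 / 8 : ℝ) * a ^ (1 / 8 : ℝ) := by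
        rw [← Real.rpow_add (by linarith)]; norm_num
      have e1 : a = a ^ (3 / 4 : ℝ) * a ^ (1 / 4 : ℝ) := by
        rw [← Real.rpow_add (by linarith)]; norm_num
      have h14 : 0 < a ^ (1 / 4 : ℝ) := by positivity
      have h15 : (64 * C + 8 * C) * a ^ (1 / 4 : ℝ) ≤ a := by
        calc _ ≤ a ^ (3 / 4 : ℝ) * a ^ (1 / 4 : ℝ) := mul_le_mul_of_nonneg_right hj h14.le
          _ = a := e1.symm
      have h16 : a ^ (1 / 8 : ℝ) ≤ a ^ (1 / 4 : ℝ) :=
        Real.rpow_le_rpow_of_exponent_le (by linarith) (by norm_num)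
      have h17 : 8 * (P.n j : ℝ) ≤ a := by
        have := mul_le_mul_of_nonneg_left h16 hC0
        have : 0 ≤ 64 * C * a ^ (1 / 4 : ℝ) := by positivity
        nlinarith
      have h18 := phi_block hR (P.Y_nonneg j) hn0 h17
      rw [← ha] at h18
      have h19 : 8 * (P.n j : ℝ) * Real.log a ≤ 8 * (C * a ^ (1 / 8 : ℝ)) *
          (8 * a ^ (1 / 8 : ℝ)) := by
        apply mul_le_mul _ hlog (by linarith [hlogφ j]) (by positivity)
        linarith
      have h20 : 8 * (C * a ^ (1 / 8 : ℝ)) * (8 * a ^ (1 / 8 : ℝ)) =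
          64 * C * a ^ (1 / 4 : ℝ) := by rw [e14]; ring
      have h21 : 0 ≤ 8 * C * a ^ (1 / 4 : ℝ) := by positivity
      nlinarith
    have hd : Tendsto (fun k => Real.log 2 / Real.log (P.pk θ k)) atTop (𝓝 0) :=
      tendsto_const_nhds.div_atTop (Real.tendsto_log_atTop.comp hpt)
    have h1 : Tendsto (fun k => 1 - Real.log 2 / Real.log (P.pk θ k)) atTop (𝓝 1) := by
      simpa using hd.const_sub 1
    apply tendsto_of_tendsto_of_tendsto_of_le_of_le' h1 tendsto_const_nhds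
    · filter_upwards [hblk.eventually hev] with k hk
      have hl := hlogp k
      have h2 : P.pk θ k ≤ 2 * phi (fZ Z) x₀ (P.Y (blk P.n k)) := by
        refine le_trans ?_ hk
        exact hR.phi_mono (P.ypos_le _ _ (pos_lt P.n_pos k) _ _)
      have h3 : Real.log (P.pk θ k) ≤ Real.log 2 + Real.log (phi (fZ Z) x₀ (P.Y (blk P.n k))) := by
        rw [← Real.log_mul (by norm_num) (hR.phi_pos _).ne']
        exact Real.log_le_log (by linarith [P.pk_ge3 hR θ k]) h2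
      rw [sub_le_iff_le_add, ← add_div, le_div_iff₀ (by linarith)]
      linarith
    · filter_upwards with k
      rw [div_le_one (by linarith [hlogp k])]
      exact Real.log_le_log (hR.phi_pos _) (hpge k)

end Pool.Agent.H521.G
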