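import Pool.Agent.H521.G.Andrica

open MeasureTheory Set Filter Topology
open scoped ComplexConjugate Classical ENNReal NNReal

namespace Pool.Agent.H521.G

/-- number of gaps of size `p^θ` -/
noncomputable def gcnt (p : ℕ → ℝ) (θ x : ℝ) : ℕ :=
  Set.ncard {n : ℕ | p n ≤ x ∧ p n ^ θ ≤ p (n + 1) - p n}

/-- exponent of the number of gaps of size `p^θ` -/
noncomputable def gexp (p : ℕ → ℝ) (θ : ℝ) : ℝ≥0∞ :=
  limsup (fun x : ℝ => ENNReal.ofReal (Real.log (gcnt p θ x) / Real.log x)) atTop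

theorem gfin {p : ℕ → ℝ} (hp : Tendsto p atTop atTop) (θ x : ℝ) :
    {n : ℕ | p n ≤ x ∧ p n ^ θ ≤ p (n + 1) - p n}.Finite :=
  (finite_le hp x).subset fun n hn => hn.1

theorem limsup_ofReal_le {g : ℝ → ℝ} {r : ℝ} (h : ∀ ε : ℝ, 0 < ε → ∀ᶠ x in atTop, g x ≤ r + ε) :
    limsup (fun x => ENNReal.ofReal (g x)) atTop ≤ ENNReal.ofReal r := by
  apply ENNReal.le_of_forall_pos_le_add
  intro ε hε _
  have h1 : limsup (fun x => ENNReal.ofReal (g x)) atTop ≤ ENNReal.ofReal (r + ε) := by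
    apply limsup_le_of_le (by isBoundedDefault)
    filter_upwards [h ε hε] with x hx
    exact ENNReal.ofReal_le_ofReal hx
  refine h1.trans (ENNReal.ofReal_add_le.trans ?_)
  rw [ENNReal.ofReal_coe_nnreal]

theorem gexp_anti {p : ℕ → ℝ} (hp : Tendsto p atTop atTop) (h1 : ∀ n, 1 ≤ p n) {θ θ' : ℝ}
    (h : θ ≤ θ') : gexp p θ' ≤ gexp p θ := by
  apply limsup_le_limsup _ (by isBoundedDefault) (by isBoundedDefault)
  filter_upwards [eventually_gt_atTop 1] with x hx
  apply ENNReal.ofReal_le_ofReal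
  apply div_le_div_of_nonneg_right _ (Real.log_nonneg hx.le)
  have h2 : gcnt p θ' x ≤ gcnt p θ x := by
    apply Set.ncard_le_ncard _ (gfin hp θ x)
    rintro n ⟨a, b⟩
    exact ⟨a, (Real.rpow_le_rpow_of_exponent_le (h1 n) h).trans b⟩
  rcases Nat.eq_zero_or_pos (gcnt p θ' x) with h3 | h3
  · rw [h3]
    simp only [CharP.cast_eq_zero, Real.log_zero]
    exact Real.log_natCast_nonneg _
  · apply Real.log_le_log
    · exact_mod_cast h3
    · exact_mod_cast h2

/-- Selberg's bound for the number of gaps of size `p^θ`. -/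
theorem gcnt_le {Z : Multiset ℂ} (hZ : ∀ ρ ∈ Z, ρ.re < 1) (hZc : Z.map conj = Z)
    {p : ℕ → ℝ} (hS : SysW Z p) {θ : ℝ} (hθ : 0 < θ) (hθ1 : θ ≤ 1 / 2) {ε : ℝ} (hε : 0 < ε) :
    ∃ C : ℝ, ∀ x, 1 ≤ x → (gcnt p θ x : ℝ) ≤ C * x ^ (1 - 2 * θ + ε) := by
  obtain ⟨C, hC0, hC⟩ := selberg hZ hZc hS hε
  refine count_doubling (N := fun x => (gcnt p θ x : ℝ)) ?_ (C := C) (ε := 1 - 2 * θ + ε)
    (by linarith) le_rfl hC0.le ?_
  · intro x y hxy
    have h2 : gcnt p θ x ≤ gcnt p θ y :=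
      Set.ncard_le_ncard (fun n hn => ⟨hn.1.trans hxy, hn.2⟩) (gfin hS.tendsto θ y)
    exact_mod_cast h2
  · intro x hx
    have hx0 : 0 < x := by linarith
    set D : Set ℕ := {n : ℕ | (x ≤ p n ∧ p n ≤ 2 * x) ∧ p n ^ θ ≤ p (n + 1) - p n} with hD
    have hDfin : D.Finite := (finite_le hS.tendsto (2 * x)).subset fun n hn => hn.1.2
    have hsub : {n : ℕ | p n ≤ 2 * x ∧ p n ^ θ ≤ p (n + 1) - p n} ⊆
        {n : ℕ | p n ≤ x ∧ p n ^ θ ≤ p (n + 1) - p n} ∪ D := by
      intro n hn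
      rcases le_or_gt (p n) x with h | h
      · left; exact ⟨h, hn.2⟩
      · right; exact ⟨⟨h.le, hn.1⟩, hn.2⟩
    have h1 : gcnt p θ (2 * x) ≤ gcnt p θ x + D.ncard :=
      (Set.ncard_le_ncard hsub ((gfin hS.tendsto θ x).union hDfin)).trans
        (Set.ncard_union_le _ _)
    have h2 : (D.ncard : ℝ) ≤ C * x ^ (1 - 2 * θ + ε) := by
      set T : Finset ℝ := hDfin.toFinset.image p with hT
      have hcard : (T.card : ℝ) = D.ncard := by
        rw [hT, Finset.card_image_of_injective _ hS.mono.injective,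
          Set.ncard_eq_toFinset_card _ hDfin]
      set h : ℝ := x ^ θ with hh
      have hh1 : 1 ≤ h := Real.one_le_rpow hx hθ.le
      have hhx : h ≤ x := by
        have := Real.rpow_le_rpow_of_exponent_le hx (by linarith : θ ≤ 1)
        rwa [Real.rpow_one] at this
      have hmem : ∀ u ∈ T, ∃ n, n ∈ D ∧ p n = u := by
        intro u hu
        rw [hT] at hu
        obtain ⟨n, hn, rfl⟩ := Finset.mem_image.1 hu
        exact ⟨n, (Set.Finite.mem_toFinset _).1 hn, rfl⟩
      have hgap : ∀ n ∈ D, p n + h ≤ p (n + 1) := by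
        intro n hn
        have h3 : x ^ θ ≤ p n ^ θ := Real.rpow_le_rpow hx0.le hn.1.1 hθ.le
        linarith [hn.2]
      have key := hC x h hx hh1 hhx T (by
        intro u hu
        obtain ⟨n, hn, rfl⟩ := hmem u hu
        exact hn.1) (by
        intro u hu v hv huv
        obtain ⟨n, hn, rfl⟩ := hmem u hu
        obtain ⟨m, hm, rfl⟩ := hmem v hv
        have h3 := hS.mono.lt_iff_lt.1 huv
        exact (hgap n hn).trans (hS.mono.monotone h3)) (by
        intro u hu k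
        obtain ⟨n, hn, rfl⟩ := hmem u hu
        rcases le_or_gt k n with h3 | h3
        · left; exact hS.mono.monotone h3
        · right; exact (hgap n hn).trans (hS.mono.monotone h3))
      rw [hcard] at key
      have e1 : h ^ 2 = x ^ (2 * θ) := by
        rw [hh, ← Real.rpow_natCast, ← Real.rpow_mul hx0.le]
        congr 1
        push_cast
        ring
      have e2 : x ^ (1 + ε) = x ^ (1 - 2 * θ + ε) * x ^ (2 * θ) := by
        rw [← Real.rpow_add hx0]
        congr 1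
        ring
      rw [e1, e2, ← mul_assoc] at key
      exact le_of_mul_le_mul_right key (Real.rpow_pos_of_pos hx0 _)
    have h3 : (gcnt p θ (2 * x) : ℝ) ≤ gcnt p θ x + D.ncard := by exact_mod_cast h1
    linarith

theorem log_cnt_le {N C x a ε : ℝ} (hN : N = 0 ∨ 1 ≤ N) (hx : 1 < x) (ha : 0 ≤ a) (hε : 0 < ε)
    (h : N ≤ C * x ^ a) (hC : Real.log (|C| + 1) ≤ ε * Real.log x) :
    Real.log N / Real.log x ≤ a + ε := by
  have hl : 0 < Real.log x := Real.log_pos hx
  rw [div_le_iff₀ hl]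
  rcases hN with hN | hN
  · rw [hN, Real.log_zero]
    positivity
  · have h1 : N ≤ (|C| + 1) * x ^ a := by
      have h2 : 0 ≤ x ^ a := Real.rpow_nonneg (by linarith) _
      have h3 : C ≤ |C| + 1 := by linarith [le_abs_self C]
      exact h.trans (mul_le_mul_of_nonneg_right h3 h2)
    have h4 := Real.log_le_log (by linarith) h1
    rw [Real.log_mul (by positivity) (Real.rpow_pos_of_pos (by linarith) _).ne',
      Real.log_rpow (by linarith)] at h4
    linarith

theorem gexp_le {Z : Multiset ℂ} (hZ : ∀ ρ ∈ Z, ρ.re < 1) (hZc : Z.map conj = Z)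
    {p : ℕ → ℝ} (hS : SysW Z p) {θ : ℝ} (hθ : 0 < θ) (hθ1 : θ ≤ 1 / 2) :
    gexp p θ ≤ ENNReal.ofReal (1 - 2 * θ) := by
  apply limsup_ofReal_le
  intro ε hε
  obtain ⟨C, hC⟩ := gcnt_le hZ hZc hS hθ hθ1 (half_pos hε)
  have h1 := (Real.tendsto_log_atTop.const_mul_atTop (half_pos hε)).eventually_ge_atTop
    (Real.log (|C| + 1))
  filter_upwards [eventually_gt_atTop 1, h1] with x hx hx2
  have h3 := log_cnt_le (N := (gcnt p θ x : ℝ)) (a := 1 - 2 * θ + ε / 2) (ε := ε / 2) (by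
    rcases Nat.eq_zero_or_pos (gcnt p θ x) with h | h
    · left; rw [h]; simp
    · right; exact_mod_cast h) hx (by linarith) (half_pos hε) (hC x hx.le) hx2
  linarith

end Pool.Agent.H521.G
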