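import Pool.Agent.H521.G.VoidSys
import Pool.Agent.H521.G.GapExp1

open MeasureTheory Set Filter Topology
open scoped ComplexConjugate Classical ENNReal NNReal

namespace Pool.Agent.H521.G

/-- A fast schedule. -/
theorem exists_fast {φ : ℕ → ℝ} (hφ : ∀ n : ℕ, (n : ℝ) ≤ φ n) {P : ℕ → ℝ → Prop}
    (hP : ∀ i, ∀ᶠ X in atTop, P i X) (M : ℕ → ℝ → ℕ) :
    ∃ a : ℕ → ℕ, (∀ i, P i (φ (a i))) ∧ (∀ i, 2 ^ i ≤ a i) ∧
      ∀ i, a i + M i (φ (a i)) + 1 ≤ a (i + 1) := by
  have h1 : ∀ i, ∃ T : ℕ, ∀ X : ℝ, (T : ℝ) ≤ X → P i X := by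
    intro i
    obtain ⟨X, hX⟩ := eventually_atTop.1 (hP i)
    obtain ⟨T, hT⟩ := exists_nat_ge X
    exact ⟨T, fun Y hY => hX Y (hT.trans hY)⟩
  choose T hT using h1
  let a : ℕ → ℕ := fun n => Nat.rec (T 0 + 1)
    (fun i s => s + M i (φ s) + 1 + T (i + 1) + 2 ^ (i + 1)) n
  have ha0 : a 0 = T 0 + 1 := rfl
  have has : ∀ i, a (i + 1) = a i + M i (φ (a i)) + 1 + T (i + 1) + 2 ^ (i + 1) := fun i => rfl
  have hTa : ∀ i, T i ≤ a i := by
    intro i
    cases i with
    | zero => rw [ha0]; omega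
    | succ i => rw [has]; have := Nat.one_le_two_pow (n := i + 1); omega
  refine ⟨a, fun i => ?_, fun i => ?_, fun i => ?_⟩
  · apply hT
    exact le_trans (by exact_mod_cast hTa i) (hφ _)
  · cases i with
    | zero => rw [ha0]; simp
    | succ i => rw [has]; omega
  · rw [has]
    have := Nat.one_le_two_pow (n := i + 1)
    omega

/-- The data of the construction. -/
structure GE (Z : Multiset ℂ) (x₀ : ℝ) where
  hR : RDens (fZ Z) x₀
  Q : ℕ → ℝ
  E : ℕ → ℝ
  Q0 : ∀ j, 0 < Q j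
  Q1 : ∀ j, Q j < 1 / 2
  E0 : ∀ j, 0 ≤ E j
  E1 : ∀ j, E j ≤ 1 - 2 * Q j
  anti : ∀ j k, Q j ≤ Q k → E k ≤ E j

/-- half length of the voids -/
noncomputable def gW (q X : ℝ) : ℕ := ⌈(4 * X) ^ q⌉₊

/-- number of the voids -/
noncomputable def gN (e X : ℝ) : ℕ := ⌈X ^ e⌉₊

theorem gW_ge (q X : ℝ) : (4 * X) ^ q ≤ gW q X := Nat.le_ceil _

theorem gW_le {q X : ℝ} (hX : 0 ≤ X) : (gW q X : ℝ) ≤ (4 * X) ^ q + 1 :=
  (Nat.ceil_lt_add_one (Real.rpow_nonneg (by linarith) _)).le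

theorem gN_ge (e X : ℝ) : X ^ e ≤ gN e X := Nat.le_ceil _

theorem gN_le {e X : ℝ} (hX : 1 ≤ X) (he : 0 ≤ e) : (gN e X : ℝ) ≤ 2 * X ^ e := by
  have h1 := (Nat.ceil_lt_add_one (Real.rpow_nonneg (by linarith : (0 : ℝ) ≤ X) e)).le
  have h2 : 1 ≤ X ^ e := Real.one_le_rpow hX he
  unfold gN
  linarith

theorem gW_le2 {q X : ℝ} (hX : 1 ≤ X) (hq : 0 ≤ q) (hq1 : q ≤ 1 / 2) :
    2 * (gW q X : ℝ) + 1 ≤ 7 * X ^ q := by
  have h1 := gW_le (q := q) (by linarith : 0 ≤ X)
  have h2 : 1 ≤ X ^ q := Real.one_le_rpow hX hq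
  have h3 : (4 * X) ^ q ≤ 2 * X ^ q := by
    rw [Real.mul_rpow (by norm_num) (by linarith)]
    apply mul_le_mul_of_nonneg_right _ (by linarith)
    calc (4 : ℝ) ^ q ≤ 4 ^ (1 / 2 : ℝ) := Real.rpow_le_rpow_of_exponent_le (by norm_num) hq1
      _ = 2 := by
        rw [show (4 : ℝ) = 2 ^ (2 : ℝ) by norm_num, ← Real.rpow_mul (by norm_num)]
        norm_num
  linarith

namespace GE

variable {Z : Multiset ℂ} {x₀ : ℝ} (C : GE Z x₀)

/-- exponents of task `i` -/
noncomputable def q (i : ℕ) : ℝ := C.Q (Nat.unpair i).1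
noncomputable def e (i : ℕ) : ℝ := C.E (Nat.unpair i).1

/-- requirements -/
def P (i : ℕ) (X : ℝ) : Prop := 1 ≤ X ∧
  4 * ((gN (C.e i) X : ℝ) * (2 * gW (C.q i) X + 1)) * Real.log X ≤ X ∧
  4 * ((gN (C.e i) X : ℝ) * (2 * gW (C.q i) X + 1)) ≤ X ∧
  ∀ k ≤ i, C.q i < C.Q k →
    ((gW (C.q i) X : ℝ) + 2) * (2 * Real.log (4 * X)) < (X / 2) ^ (C.Q k)

theorem P_ev (i : ℕ) : ∀ᶠ X in atTop, C.P i X := by
  have hq0 : 0 < C.q i := C.Q0 _
  have hq1 : C.q i < 1 / 2 := C.Q1 _
  have he0 : 0 ≤ C.e i := C.E0 _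
  have he1 : C.e i ≤ 1 - 2 * C.q i := C.E1 _
  have hbd : ∀ X : ℝ, 1 ≤ X → 4 * ((gN (C.e i) X : ℝ) * (2 * gW (C.q i) X + 1)) ≤
      56 * X ^ (1 - C.q i) := by
    intro X hX
    have h1 := gN_le hX he0
    have h2 := gW_le2 hX hq0.le hq1.le
    have h3 : X ^ C.e i * X ^ C.q i ≤ X ^ (1 - C.q i) := by
      rw [← Real.rpow_add (by linarith)]
      apply Real.rpow_le_rpow_of_exponent_le hX
      linarith
    have h4 : (gN (C.e i) X : ℝ) * (2 * gW (C.q i) X + 1) ≤ (2 * X ^ C.e i) * (7 * X ^ C.q i) :=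
      mul_le_mul h1 h2 (by positivity) (by positivity)
    nlinarith
  have h1 : ∀ᶠ X : ℝ in atTop, 56 * Real.log X ≤ X ^ C.q i := by
    have := ((isLittleO_log_rpow_atTop hq0).const_mul_left 56).bound one_pos
    filter_upwards [this, eventually_ge_atTop 1] with X hX hX1
    rw [one_mul, Real.norm_eq_abs, Real.norm_eq_abs] at hX
    exact (le_abs_self _).trans (hX.trans (le_of_eq (abs_of_nonneg (by positivity))))
  have h2 : ∀ᶠ X : ℝ in atTop, 56 ≤ X ^ C.q i := (tendsto_rpow_atTop hq0).eventually_ge_atTop 56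
  have h3 : ∀ᶠ X : ℝ in atTop, ∀ k ≤ i, C.q i < C.Q k →
      ((gW (C.q i) X : ℝ) + 2) * (2 * Real.log (4 * X)) < (X / 2) ^ (C.Q k) := by
    have := (Filter.eventually_all_finite (l := (atTop : Filter ℝ)) (Set.finite_Iic i)
      (p := fun k X => C.q i < C.Q k → ((gW (C.q i) X : ℝ) + 2) * (2 * Real.log (4 * X)) <
        (X / 2) ^ (C.Q k))).2 (fun k _ => by
      by_cases hk : C.q i < C.Q k
      · have hδ : 0 < C.Q k - C.q i := by linarith
        have t1 : ∀ᶠ X : ℝ in atTop, 48 * Real.log X < X ^ (C.Q k - C.q i) := by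
          have := ((isLittleO_log_rpow_atTop hδ).const_mul_left 96).bound one_pos
          filter_upwards [this, eventually_gt_atTop 1] with X hX hX1
          rw [one_mul, Real.norm_eq_abs, Real.norm_eq_abs] at hX
          have h5 := (le_abs_self _).trans (hX.trans (le_of_eq (abs_of_nonneg (by positivity))))
          have h6 : 0 < Real.log X := Real.log_pos hX1
          linarith
        filter_upwards [t1, eventually_ge_atTop 4] with X hX hX4 _
        have hX0 : 0 < X := by linarith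
        have g1 := gW_le2 (by linarith : 1 ≤ X) hq0.le hq1.le
        have g2 : 1 ≤ X ^ C.q i := Real.one_le_rpow (by linarith) hq0.le
        have g3 : (gW (C.q i) X : ℝ) + 2 ≤ 6 * X ^ C.q i := by linarith
        have g4 : Real.log (4 * X) ≤ 2 * Real.log X := by
          rw [Real.log_mul (by norm_num) hX0.ne']
          have := Real.log_le_log (by norm_num) hX4
          linarith
        have g0 : 0 ≤ Real.log (4 * X) := Real.log_nonneg (by linarith)
        have g5 : X ^ C.q i * X ^ (C.Q k - C.q i) = X ^ C.Q k := by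
          rw [← Real.rpow_add hX0]; congr 1; ring
        have g6 : X ^ C.Q k / 2 ≤ (X / 2) ^ C.Q k := by
          rw [Real.div_rpow hX0.le (by norm_num)]
          apply div_le_div_of_nonneg_left (by positivity) (by positivity)
          calc (2 : ℝ) ^ C.Q k ≤ 2 ^ (1 : ℝ) :=
                Real.rpow_le_rpow_of_exponent_le (by norm_num) (by linarith [C.Q1 k])
            _ = 2 := Real.rpow_one 2
        calc ((gW (C.q i) X : ℝ) + 2) * (2 * Real.log (4 * X)) ≤
              (6 * X ^ C.q i) * (2 * (2 * Real.log X)) :=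
              mul_le_mul g3 (by linarith) (by linarith) (by positivity)
          _ = X ^ C.q i * (48 * Real.log X) / 2 := by ring
          _ < X ^ C.q i * X ^ (C.Q k - C.q i) / 2 := by
              apply div_lt_div_of_pos_right _ (by norm_num)
              exact mul_lt_mul_of_pos_left hX (by linarith)
          _ = X ^ C.Q k / 2 := by rw [g5]
          _ ≤ _ := g6
      · exact Eventually.of_forall fun X h => absurd h hk)
    filter_upwards [this] with X hX k hk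
    exact hX k (Set.mem_Iic.2 hk)
  filter_upwards [h1, h2, h3, eventually_ge_atTop 1] with X g1 g2 g3 g4
  have hX0 : 0 < X := by linarith
  have e1 : X ^ (1 - C.q i) * X ^ C.q i = X := by
    rw [← Real.rpow_add hX0]
    have : 1 - C.q i + C.q i = 1 := by ring
    rw [this, Real.rpow_one]
  have hp : 0 ≤ X ^ (1 - C.q i) := by positivity
  refine ⟨g4, ?_, ?_, g3⟩
  · calc _ ≤ 56 * X ^ (1 - C.q i) * Real.log X :=
          mul_le_mul_of_nonneg_right (hbd X g4) (Real.log_nonneg g4)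
      _ = X ^ (1 - C.q i) * (56 * Real.log X) := by ring
      _ ≤ X ^ (1 - C.q i) * X ^ C.q i := mul_le_mul_of_nonneg_left g1 hp
      _ = X := e1
  · calc _ ≤ 56 * X ^ (1 - C.q i) := hbd X g4
      _ = X ^ (1 - C.q i) * 56 := by ring
      _ ≤ X ^ (1 - C.q i) * X ^ C.q i := mul_le_mul_of_nonneg_left g2 hp
      _ = X := e1

end GE

end Pool.Agent.H521.G
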