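import Pool.Agent.H521.G.GapExp2

open MeasureTheory Set Filter Topology
open scoped ComplexConjugate Classical ENNReal NNReal

namespace Pool.Agent.H521.G

/-- Data with schedule. -/
structure GS (Z : Multiset ℂ) (x₀ : ℝ) extends GE Z x₀ where
  a : ℕ → ℕ
  hP : ∀ i, toGE.P i (phi (fZ Z) x₀ (a i))
  h2 : ∀ i, 2 ^ i ≤ a i
  hs : ∀ i, a i + gN (toGE.e i) (phi (fZ Z) x₀ (a i)) *
    (2 * gW (toGE.q i) (phi (fZ Z) x₀ (a i)) + 1) + 1 ≤ a (i + 1)

theorem exists_GS {Z : Multiset ℂ} {x₀ : ℝ} (C : GE Z x₀) : ∃ S : GS Z x₀, S.toGE = C := by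
  obtain ⟨a, h1, h2, h3⟩ := exists_fast (φ := fun n : ℕ => phi (fZ Z) x₀ n) (fun n => by
    have := C.hR.phi_ge_add (Nat.cast_nonneg (α := ℝ) n)
    have := C.hR.dens.hx₀
    linarith) C.P_ev (fun i X => gN (C.e i) X * (2 * gW (C.q i) X + 1))
  exact ⟨{ toGE := C, a := a, hP := h1, h2 := h2, hs := h3 }, rfl⟩

namespace GS

variable {Z : Multiset ℂ} {x₀ : ℝ} (S : GS Z x₀)

noncomputable def X (i : ℕ) : ℝ := phi (fZ Z) x₀ (S.a i)
noncomputable def W (i : ℕ) : ℕ := gW (S.q i) (S.X i)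
noncomputable def N (i : ℕ) : ℕ := gN (S.e i) (S.X i)

/-- start of the `l`-th void block of run `i` -/
noncomputable def st (i l : ℕ) : ℕ := S.a i + l * (2 * S.W i + 1)

/-- end of run `i` -/
noncomputable def en (i : ℕ) : ℕ := S.a i + S.N i * (2 * S.W i + 1)

theorem en_lt (i : ℕ) : S.en i + 1 ≤ S.a (i + 1) := S.hs i

theorem a_mono : StrictMono S.a := strictMono_nat_of_lt_succ fun i => by
  have := S.en_lt i
  unfold en at this
  omega

theorem one_le_X (i : ℕ) : 1 ≤ S.X i := (S.hP i).1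

theorem W_pos (i : ℕ) : 1 ≤ S.W i := by
  unfold W gW
  apply Nat.one_le_iff_ne_zero.2
  have h1 := S.one_le_X i
  have : 0 < (4 * S.X i) ^ S.q i := Real.rpow_pos_of_pos (by linarith) _
  exact (Nat.ceil_pos.2 this).ne'

theorem st_lt {i l : ℕ} (hl : l < S.N i) : S.st i l + 2 * S.W i + 1 ≤ S.en i := by
  unfold st en
  have : (l + 1) * (2 * S.W i + 1) ≤ S.N i * (2 * S.W i + 1) := Nat.mul_le_mul_right _ hl
  nlinarith

theorem a_le_st (i l : ℕ) : S.a i ≤ S.st i l := Nat.le_add_right _ _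

theorem st_inj {i l i' l' : ℕ} (hl : l < S.N i) (hl' : l' < S.N i')
    (h : S.st i l = S.st i' l') : i = i' ∧ l = l' := by
  have key : ∀ {i l i' l' : ℕ}, l < S.N i → l' < S.N i' → i < i' → S.st i l < S.st i' l' := by
    intro i l i' l' hl hl' hi
    have h1 := S.st_lt hl
    have h2 := S.en_lt i
    have h3 := S.a_mono.monotone (Nat.succ_le_of_lt hi)
    have h4 := S.a_le_st i' l'
    simp only [Nat.succ_eq_add_one] at h3
    omega
  rcases lt_trichotomy i i' with h1 | h1 | h1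
  · have := key hl hl' h1; omega
  · subst h1
    refine ⟨rfl, ?_⟩
    unfold st at h
    have h2 : l * (2 * S.W i + 1) = l' * (2 * S.W i + 1) := by omega
    exact Nat.eq_of_mul_eq_mul_right (by omega) h2
  · have := key hl' hl h1; omega

/-- the half lengths -/
noncomputable def wf (u : ℕ) : ℕ :=
  if h : ∃ x : ℕ × ℕ, x.2 < S.N x.1 ∧ u = S.st x.1 x.2 then S.W h.choose.1 else 0

theorem wf_st {i l : ℕ} (hl : l < S.N i) : S.wf (S.st i l) = S.W i := by
  have hex : ∃ x : ℕ × ℕ, x.2 < S.N x.1 ∧ S.st i l = S.st x.1 x.2 := ⟨(i, l), hl, rfl⟩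
  unfold wf
  rw [dif_pos hex]
  obtain ⟨h1, h2⟩ := hex.choose_spec
  exact congrArg S.W (S.st_inj hl h1 h2).1.symm

theorem wf_pos {u : ℕ} (h : 1 ≤ S.wf u) : ∃ i l, l < S.N i ∧ u = S.st i l ∧ S.wf u = S.W i := by
  by_cases hex : ∃ x : ℕ × ℕ, x.2 < S.N x.1 ∧ u = S.st x.1 x.2
  · obtain ⟨⟨i, l⟩, h1, h2⟩ := hex
    refine ⟨i, l, h1, h2, ?_⟩
    rw [h2]
    exact S.wf_st h1
  · unfold wf at h
    rw [dif_neg hex] at h
    omega

theorem phi_en (i : ℕ) : phi (fZ Z) x₀ (S.en i) ≤ 2 * S.X i := by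
  obtain ⟨h1, h2, h3, -⟩ := S.hP i
  set N' : ℝ := (S.N i : ℝ) * (2 * S.W i + 1) / 2 with hN'
  have e1 : ((S.en i : ℕ) : ℝ) = S.a i + 2 * N' := by
    unfold en; rw [hN']; push_cast; ring
  have h4 : 8 * N' ≤ phi (fZ Z) x₀ (S.a i) := by
    have : 8 * N' = 4 * ((S.N i : ℝ) * (2 * S.W i + 1)) := by rw [hN']; ring
    rw [this]; exact h3
  have h5 := phi_block S.hR (Nat.cast_nonneg (S.a i)) (by positivity : 0 ≤ N') h4
  rw [e1]
  have h6 : 8 * N' * Real.log (phi (fZ Z) x₀ (S.a i)) ≤ phi (fZ Z) x₀ (S.a i) := by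
    have : 8 * N' * Real.log (phi (fZ Z) x₀ (S.a i)) =
        4 * ((S.N i : ℝ) * (2 * S.W i + 1)) * Real.log (phi (fZ Z) x₀ (S.a i)) := by
      rw [hN']; ring
    rw [this]; exact h2
  unfold X
  linarith

theorem two_pow_le (i : ℕ) : (2 : ℝ) ^ i ≤ S.X i := by
  have h1 : ((2 ^ i : ℕ) : ℝ) ≤ S.a i := by exact_mod_cast S.h2 i
  have h2 := S.hR.phi_ge_add (Nat.cast_nonneg (α := ℝ) (S.a i))
  have h3 := S.hR.dens.hx₀
  push_cast at h1
  unfold X
  linarith

theorem sum_run {σ : ℝ} (hσ : 1 / 2 < σ) (i : ℕ) :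
    (S.N i : ℝ) * ((S.W i : ℝ) * S.X i ^ (-σ)) ^ 2 ≤ 98 * ((2 : ℝ) ^ (1 - 2 * σ)) ^ i := by
  have hX := S.one_le_X i
  have hX0 : 0 < S.X i := by linarith
  have h1 : (S.N i : ℝ) ≤ 2 * S.X i ^ S.e i := gN_le hX (S.E0 _)
  have h2 := gW_le2 hX (S.Q0 (Nat.unpair i).1).le (S.Q1 (Nat.unpair i).1).le
  have h3 : (S.W i : ℝ) ≤ 7 * S.X i ^ S.q i := by
    have : (0 : ℝ) ≤ (S.W i : ℝ) := Nat.cast_nonneg _
    change 2 * (S.W i : ℝ) + 1 ≤ 7 * S.X i ^ S.q i at h2
    linarith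
  have h4 : ((S.W i : ℝ) * S.X i ^ (-σ)) ^ 2 ≤ 49 * S.X i ^ (2 * S.q i - 2 * σ) := by
    have h5 : (S.W i : ℝ) * S.X i ^ (-σ) ≤ 7 * S.X i ^ (S.q i - σ) := by
      have e : S.X i ^ (S.q i - σ) = S.X i ^ S.q i * S.X i ^ (-σ) := by
        rw [← Real.rpow_add hX0]; congr 1
      rw [e, ← mul_assoc]
      exact mul_le_mul_of_nonneg_right h3 (Real.rpow_nonneg hX0.le _)
    have h6 := pow_le_pow_left₀ (by positivity) h5 2
    have e : (7 * S.X i ^ (S.q i - σ)) ^ 2 = 49 * S.X i ^ (2 * S.q i - 2 * σ) := by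
      rw [mul_pow, ← Real.rpow_natCast (S.X i ^ (S.q i - σ)) 2, ← Real.rpow_mul hX0.le]
      norm_num
      congr 1
      ring
    rwa [e] at h6
  have h7 : S.X i ^ S.e i * S.X i ^ (2 * S.q i - 2 * σ) ≤ ((2 : ℝ) ^ (1 - 2 * σ)) ^ i := by
    rw [← Real.rpow_add hX0]
    have h8 : S.X i ^ (S.e i + (2 * S.q i - 2 * σ)) ≤ S.X i ^ (1 - 2 * σ) := by
      apply Real.rpow_le_rpow_of_exponent_le hX
      have := S.E1 (Nat.unpair i).1
      change S.e i ≤ 1 - 2 * S.q i at this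
      linarith
    have h9 : S.X i ^ (1 - 2 * σ) ≤ ((2 : ℝ) ^ i) ^ (1 - 2 * σ) :=
      Real.rpow_le_rpow_of_nonpos (by positivity) (S.two_pow_le i) (by linarith)
    have e : ((2 : ℝ) ^ i) ^ (1 - 2 * σ) = ((2 : ℝ) ^ (1 - 2 * σ)) ^ i := by
      rw [← Real.rpow_natCast 2 i, ← Real.rpow_mul (by norm_num), mul_comm, Real.rpow_mul
        (by norm_num), Real.rpow_natCast]
    rw [e] at h9
    exact h8.trans h9
  calc (S.N i : ℝ) * ((S.W i : ℝ) * S.X i ^ (-σ)) ^ 2 ≤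
        (2 * S.X i ^ S.e i) * (49 * S.X i ^ (2 * S.q i - 2 * σ)) :=
        mul_le_mul h1 h4 (by positivity) (by positivity)
    _ = 98 * (S.X i ^ S.e i * S.X i ^ (2 * S.q i - 2 * σ)) := by ring
    _ ≤ _ := mul_le_mul_of_nonneg_left h7 (by norm_num)

/-- The void data. -/
noncomputable def toVD : VD (fZ Z) x₀ where
  w := S.wf
  w0 := by
    by_contra hc
    obtain ⟨i, l, -, h2, -⟩ := S.wf_pos (Nat.one_le_iff_ne_zero.2 hc)
    have h3 := S.a_le_st i l
    have h4 := S.h2 i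
    have := Nat.one_le_two_pow (n := i)
    omega
  sep u v hu huv hv := by
    by_contra hc
    obtain ⟨i, l, h1, h2, h3⟩ := S.wf_pos hu
    obtain ⟨i', l', h1', h2', h3'⟩ := S.wf_pos (Nat.one_le_iff_ne_zero.2 hc)
    rw [h3] at hv
    rcases lt_trichotomy i i' with h | h | h
    · have g1 := S.st_lt h1
      have g2 := S.en_lt i
      have g3 := S.a_mono.monotone (Nat.succ_le_of_lt h)
      have g4 := S.a_le_st i' l'
      simp only [Nat.succ_eq_add_one] at g3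
      omega
    · subst h
      unfold st at h2 h2'
      rcases Nat.lt_or_ge l l' with g | g
      · have : (l + 1) * (2 * S.W i + 1) ≤ l' * (2 * S.W i + 1) := Nat.mul_le_mul_right _ g
        nlinarith
      · have : l' * (2 * S.W i + 1) ≤ l * (2 * S.W i + 1) := Nat.mul_le_mul_right _ g
        omega
    · have g1 := S.st_lt h1'
      have g2 := S.en_lt i'
      have g3 := S.a_mono.monotone (Nat.succ_le_of_lt h)
      have g4 := S.a_le_st i l
      simp only [Nat.succ_eq_add_one] at g3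
      omega
  two u hu := by
    obtain ⟨i, l, h1, h2, h3⟩ := S.wf_pos hu
    rw [h3]
    have g1 := S.st_lt h1
    rw [← h2] at g1
    have g2 : phi (fZ Z) x₀ ((u + 2 * S.W i : ℕ) : ℝ) ≤ phi (fZ Z) x₀ (S.en i) :=
      S.hR.phi_mono (by exact_mod_cast (by omega : u + 2 * S.W i ≤ S.en i))
    have g3 : S.X i ≤ phi (fZ Z) x₀ u := S.hR.phi_mono (by
      have := S.a_le_st i l
      rw [h2]; exact_mod_cast this)
    linarith [S.phi_en i]
  hS σ hσ := by
    set F : ℕ × ℕ → ℝ := fun x => if x.2 < S.N x.1 then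
      ((S.W x.1 : ℝ) * S.X x.1 ^ (-σ)) ^ 2 else 0 with hF
    have hF0 : ∀ x, 0 ≤ F x := by
      intro x
      rw [hF]
      simp only
      split_ifs <;> positivity
    have hinner : ∀ i, ∀ l ∉ Finset.range (S.N i), F (i, l) = 0 := by
      intro i l hl
      rw [Finset.mem_range] at hl
      rw [hF]
      simp only
      rw [if_neg hl]
    have hFs : Summable F := by
      rw [summable_prod_of_nonneg hF0]
      refine ⟨fun i => summable_of_ne_finset_zero (hinner i), ?_⟩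
      have hgeo : Summable fun i : ℕ => 98 * ((2 : ℝ) ^ (1 - 2 * σ)) ^ i := by
        apply Summable.mul_left
        apply summable_geometric_of_lt_one (by positivity)
        exact Real.rpow_lt_one_of_one_lt_of_neg one_lt_two (by linarith)
      refine Summable.of_nonneg_of_le (fun i => tsum_nonneg fun l => hF0 _) (fun i => ?_) hgeo
      rw [tsum_eq_sum (hinner i)]
      have h1 : ∑ l ∈ Finset.range (S.N i), F (i, l) =
          S.N i * ((S.W i : ℝ) * S.X i ^ (-σ)) ^ 2 := by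
        rw [Finset.sum_congr rfl (g := fun _ => ((S.W i : ℝ) * S.X i ^ (-σ)) ^ 2)]
        · rw [Finset.sum_const, Finset.card_range, nsmul_eq_mul]
        · intro l hl
          rw [hF]
          simp only
          rw [if_pos (Finset.mem_range.1 hl)]
      rw [h1]
      exact S.sum_run hσ i
    refine summable_of_sum_le (c := ∑' x, F x) (fun u => sq_nonneg _) (fun s => ?_)
    set s' := s.filter fun u => 1 ≤ S.wf u with hs'
    have e1 : ∑ u ∈ s, ((S.wf u : ℝ) * phi (fZ Z) x₀ u ^ (-σ)) ^ 2 =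
        ∑ u ∈ s', ((S.wf u : ℝ) * phi (fZ Z) x₀ u ^ (-σ)) ^ 2 := by
      rw [hs', Finset.sum_filter]
      apply Finset.sum_congr rfl
      intro u _
      split_ifs with h
      · rfl
      · have : S.wf u = 0 := by omega
        rw [this]
        simp
    rw [e1]
    have hch : ∀ u ∈ s', ∃ x : ℕ × ℕ, x.2 < S.N x.1 ∧ u = S.st x.1 x.2 ∧ S.wf u = S.W x.1 := by
      intro u hu
      rw [hs', Finset.mem_filter] at hu
      obtain ⟨i, l, h1, h2, h3⟩ := S.wf_pos hu.2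
      exact ⟨(i, l), h1, h2, h3⟩
    choose! c hc1 hc2 hc3 using hch
    have hinj : Set.InjOn c (s' : Set ℕ) := by
      intro u hu v hv huv
      rw [hc2 u hu, hc2 v hv, huv]
    have h1 : ∀ u ∈ s', ((S.wf u : ℝ) * phi (fZ Z) x₀ u ^ (-σ)) ^ 2 ≤ F (c u) := by
      intro u hu
      rw [hF]
      simp only
      rw [if_pos (hc1 u hu), hc3 u hu]
      apply pow_le_pow_left₀ (mul_nonneg (Nat.cast_nonneg _)
        (Real.rpow_nonneg (S.hR.phi_pos _).le _))
      apply mul_le_mul_of_nonneg_left _ (Nat.cast_nonneg _)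
      apply Real.rpow_le_rpow_of_nonpos (by linarith [S.one_le_X (c u).1]) _ (by linarith)
      apply S.hR.phi_mono
      have := S.a_le_st (c u).1 (c u).2
      rw [← hc2 u hu] at this
      exact_mod_cast this
    refine (Finset.sum_le_sum h1).trans ?_
    rw [← Finset.sum_image hinj (f := F)]
    exact hFs.sum_le_tsum _ fun x _ => hF0 x

end GS

end Pool.Agent.H521.G
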