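import Pool.Agent.H521.G.GapExp3

open MeasureTheory Set Filter Topology
open scoped ComplexConjugate Classical ENNReal NNReal

namespace Pool.Agent.H521.G

theorem le_limsup_ofReal {g : ℝ → ℝ} {r : ℝ}
    (h : ∀ ε : ℝ, 0 < ε → ∃ᶠ x in atTop, r - ε ≤ g x) :
    ENNReal.ofReal r ≤ limsup (fun x => ENNReal.ofReal (g x)) atTop := by
  apply ENNReal.le_of_forall_pos_le_add
  intro ε hε _
  have h1 : ENNReal.ofReal (r - ε) ≤ limsup (fun x => ENNReal.ofReal (g x)) atTop := by
    apply le_limsup_of_frequently_le _ (by isBoundedDefault)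
    exact (h ε hε).mono fun x hx => ENNReal.ofReal_le_ofReal hx
  have h2 : ENNReal.ofReal r ≤ ENNReal.ofReal (r - ε) + ε := by
    have e : r = (r - ε) + ε := by ring
    calc ENNReal.ofReal r = ENNReal.ofReal ((r - ε) + ε) := by rw [← e]
      _ ≤ ENNReal.ofReal (r - ε) + ENNReal.ofReal ε := ENNReal.ofReal_add_le
      _ = _ := by rw [ENNReal.ofReal_coe_nnreal]
  exact h2.trans (add_le_add h1 le_rfl)

namespace GS

variable {Z : Multiset ℂ} {x₀ : ℝ} (S : GS Z x₀)

/-- the output of the construction. -/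
structure Out (y : ℕ → ℝ) (κ : ℕ → ℕ) : Prop where
  mono : StrictMono y
  nonneg : ∀ k, 0 ≤ y k
  tends : Tendsto y atTop atTop
  voids : ∀ u, 1 ≤ S.wf u → (u : ℝ) - 1 ≤ y (κ u) ∧ y (κ u) ≤ u + S.wf u ∧
        (S.wf u : ℝ) ≤ y (κ u + 1) - y (κ u) ∧ y (κ u + 1) - y (κ u) ≤ S.wf u + 2
  big : ∀ k, 2 < y (k + 1) - y k → ∃ u, 1 ≤ S.wf u ∧ k = κ u

variable {S} {y : ℕ → ℝ} {κ : ℕ → ℕ} (O : Out S y κ)
include O

theorem run_facts {i l : ℕ} (hl : l < S.N i) :
    S.X i / 2 ≤ phi (fZ Z) x₀ (y (κ (S.st i l))) ∧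
    phi (fZ Z) x₀ (y (κ (S.st i l) + 1)) ≤ 4 * S.X i ∧
    (4 * S.X i) ^ S.q i ≤ phi (fZ Z) x₀ (y (κ (S.st i l) + 1)) - phi (fZ Z) x₀ (y (κ (S.st i l))) ∧
    phi (fZ Z) x₀ (y (κ (S.st i l) + 1)) - phi (fZ Z) x₀ (y (κ (S.st i l))) ≤
      ((S.W i : ℝ) + 2) * (2 * Real.log (4 * S.X i)) := by
  set u := S.st i l with hu
  have hw : S.wf u = S.W i := S.wf_st hl
  have hW := S.W_pos i
  obtain ⟨h1, h2, h3, h4⟩ := O.voids u (by rw [hw]; exact hW)
  rw [hw] at h2 h3 h4
  have ha1 : 1 ≤ S.a i := (Nat.one_le_two_pow (n := i)).trans (S.h2 i)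
  have ha1' : (1 : ℝ) ≤ S.a i := by exact_mod_cast ha1
  have hau : (S.a i : ℝ) ≤ u := by exact_mod_cast S.a_le_st i l
  have hstep : y (κ u) ≤ y (κ u + 1) := (O.mono (Nat.lt_succ_self _)).le
  have f1 : S.X i / 2 ≤ phi (fZ Z) x₀ (y (κ u)) := by
    have g1 := S.hR.phi_cell (by linarith : (0 : ℝ) ≤ (S.a i : ℝ) - 1)
    have g2 := S.hR.hlog4 _ (S.hR.phi_ge ((S.a i : ℝ) - 1))
    have e : (S.a i : ℝ) - 1 + 1 = S.a i := by ring
    rw [e] at g1
    have g3 := S.hR.phi_mono (by linarith : (S.a i : ℝ) - 1 ≤ y (κ u))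
    unfold X
    linarith
  have f2 : phi (fZ Z) x₀ (y (κ u + 1)) ≤ 4 * S.X i := by
    have g1 := S.st_lt hl
    have g2 : (u : ℝ) + 2 * S.W i + 1 ≤ S.en i := by exact_mod_cast g1
    have g3 := S.hR.phi_mono (by linarith : y (κ u + 1) ≤ (S.en i : ℝ) + 1)
    have g4 := S.hR.phi_cell (Nat.cast_nonneg (α := ℝ) (S.en i))
    have g5 := S.hR.hlog4 _ (S.hR.phi_ge (S.en i : ℝ))
    linarith [S.phi_en i]
  refine ⟨f1, f2, ?_, ?_⟩
  · have g1 := S.hR.phi_sub_ge (O.nonneg (κ u)) hstep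
    have g2 : (4 * S.X i) ^ S.q i ≤ S.W i := gW_ge _ _
    linarith
  · have g1 := S.hR.phi_sub_le (O.nonneg (κ u)) hstep
    refine g1.trans ?_
    apply mul_le_mul h4 _ _ (by positivity)
    · have := Real.log_le_log (S.hR.phi_pos _) f2
      linarith
    · have := Real.log_nonneg (S.hR.phi_one_le (y (κ u + 1)))
      linarith

theorem inj_run {i l l' : ℕ} (hl : l < S.N i) (hl' : l' < S.N i)
    (h : κ (S.st i l) = κ (S.st i l')) : l = l' := by
  have key : ∀ {l l' : ℕ}, l < S.N i → l' < S.N i → l < l' →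
      y (κ (S.st i l)) < y (κ (S.st i l')) := by
    intro l l' hl hl' hll
    have hw : S.wf (S.st i l) = S.W i := S.wf_st hl
    have hw' : S.wf (S.st i l') = S.W i := S.wf_st hl'
    have hW := S.W_pos i
    obtain ⟨-, h2, -, -⟩ := O.voids _ (by rw [hw]; exact hW)
    obtain ⟨h1, -, -, -⟩ := O.voids _ (by rw [hw']; exact hW)
    rw [hw] at h2
    have h3 : S.st i l + 2 * S.W i + 1 ≤ S.st i l' := by
      unfold st
      have : (l + 1) * (2 * S.W i + 1) ≤ l' * (2 * S.W i + 1) := Nat.mul_le_mul_right _ hll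
      nlinarith
    have h4 : (S.st i l : ℝ) + 2 * S.W i + 1 ≤ S.st i l' := by exact_mod_cast h3
    have h5 : (1 : ℝ) ≤ S.W i := by exact_mod_cast hW
    linarith
  rcases lt_trichotomy l l' with h1 | h1 | h1
  · have := key hl hl' h1; rw [h] at this; exact absurd this (lt_irrefl _)
  · exact h1
  · have := key hl' hl h1; rw [h] at this; exact absurd this (lt_irrefl _)

theorem lower (j t : ℕ) : (S.N (Nat.pair j t) : ℝ) ≤
    gcnt (fun k => phi (fZ Z) x₀ (y k)) (S.Q j) (4 * S.X (Nat.pair j t)) := by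
  set i := Nat.pair j t with hi
  have hq : S.q i = S.Q j := by unfold GE.q; rw [hi, Nat.unpair_pair]
  have hpt : Tendsto (fun k => phi (fZ Z) x₀ (y k)) atTop atTop := S.hR.phi_tendsto.comp O.tends
  have h1 : S.N i ≤ gcnt (fun k => phi (fZ Z) x₀ (y k)) (S.Q j) (4 * S.X i) := by
    unfold gcnt
    rw [Set.ncard_eq_toFinset_card _ (gfin hpt _ _)]
    nth_rewrite 1 [← Finset.card_range (S.N i)]
    apply Finset.card_le_card_of_injOn (fun l => κ (S.st i l))
    · intro l hl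
      have hl' : l < S.N i := Finset.mem_range.1 (Finset.mem_coe.1 hl)
      obtain ⟨g1, g2, g3, g4⟩ := run_facts O hl'
      simp only [Set.Finite.coe_toFinset, mem_ofPred_eq]
      have hmono : phi (fZ Z) x₀ (y (κ (S.st i l))) ≤ phi (fZ Z) x₀ (y (κ (S.st i l) + 1)) :=
        S.hR.phi_mono (O.mono (Nat.lt_succ_self _)).le
      refine ⟨by linarith, ?_⟩
      rw [← hq]
      refine le_trans ?_ g3
      exact Real.rpow_le_rpow (S.hR.phi_pos _).le (by linarith) (S.Q0 _).le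
    · intro l hl l' hl' h
      exact inj_run O (Finset.mem_range.1 (Finset.mem_coe.1 hl))
        (Finset.mem_range.1 (Finset.mem_coe.1 hl')) h
  exact_mod_cast h1

theorem upper (j : ℕ) {ε : ℝ} (hε : 0 < ε) : ∃ C : ℝ, ∀ x : ℝ, 1 ≤ x →
    (gcnt (fun k => phi (fZ Z) x₀ (y k)) (S.Q j) x : ℝ) ≤ C * x ^ (S.E j + ε) := by
  set θ := S.Q j with hθ
  have hθ0 : 0 < θ := S.Q0 j
  set p : ℕ → ℝ := fun k => phi (fZ Z) x₀ (y k) with hp
  have hpt : Tendsto p atTop atTop := S.hR.phi_tendsto.comp O.tends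
  have hpp : ∀ n, 0 < p n := fun n => S.hR.phi_pos _
  -- small gaps do not count
  have hsmall : ∀ᶠ X : ℝ in atTop, 4 * Real.log (4 * X) < X ^ θ := by
    have := ((isLittleO_log_rpow_atTop hθ0).const_mul_left 16).bound one_pos
    filter_upwards [this, eventually_ge_atTop 4] with X hX hX4
    rw [one_mul, Real.norm_eq_abs, Real.norm_eq_abs] at hX
    have h5 := (le_abs_self _).trans (hX.trans (le_of_eq (abs_of_nonneg (by positivity))))
    have h6 : 0 < Real.log X := Real.log_pos (by linarith)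
    rw [Real.log_mul (by norm_num) (by linarith)]
    have := Real.log_le_log (by norm_num) hX4
    linarith
  obtain ⟨n₁, hn₁⟩ := eventually_atTop.1 (hpt.eventually hsmall)
  have hcl : ∀ n, n₁ ≤ n → p n ^ θ ≤ p (n + 1) - p n → ∃ i l, l < S.N i ∧
      (i < j ∨ θ ≤ S.q i) ∧ n = κ (S.st i l) := by
    intro n hn hg
    have h1 := hn₁ n hn
    have h2 : 2 < y (n + 1) - y n := by
      by_contra hc
      push Not at hc
      have hstep : y n ≤ y (n + 1) := (O.mono (Nat.lt_succ_self _)).le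
      have g1 := S.hR.phi_sub_le (O.nonneg n) hstep
      have g2 := S.hR.phi_mono (by linarith : y (n + 1) ≤ y n + 1 + 1)
      have g3 := S.hR.phi_cell (O.nonneg n)
      have g4 := S.hR.hlog4 _ (S.hR.phi_ge (y n))
      have g5 := S.hR.phi_cell (by linarith [O.nonneg n] : 0 ≤ y n + 1)
      have g6 := S.hR.hlog4 _ (S.hR.phi_ge (y n + 1))
      have g7 : p (n + 1) ≤ 4 * p n := by rw [hp]; simp only; linarith
      have g8 := Real.log_le_log (hpp (n + 1)) g7
      have g9 : 0 ≤ Real.log (p (n + 1)) := Real.log_nonneg (S.hR.phi_one_le _)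
      have g10 : p (n + 1) - p n ≤ 2 * (2 * Real.log (p (n + 1))) :=
        g1.trans (mul_le_mul_of_nonneg_right hc (by linarith))
      linarith
    obtain ⟨u, hu, rfl⟩ := O.big n h2
    obtain ⟨i, l, h3, rfl, h5⟩ := S.wf_pos hu
    refine ⟨i, l, h3, ?_, rfl⟩
    by_contra hc
    push Not at hc
    obtain ⟨g1, g2, g3, g4⟩ := run_facts O h3
    have g5 := (S.hP i).2.2.2 j hc.1 hc.2
    have g6 : (S.X i / 2) ^ θ ≤ p (κ (S.st i l)) ^ θ :=
      Real.rpow_le_rpow (by have := S.one_le_X i; linarith) g1 hθ0.le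
    have g7 : p (κ (S.st i l) + 1) - p (κ (S.st i l)) < (S.X i / 2) ^ θ := lt_of_le_of_lt g4 g5
    linarith
  set K : ℕ := ∑ i ∈ Finset.range j, S.N i with hK
  refine ⟨n₁ + K + (2 / ε + 1) * (2 * 2 ^ (S.E j + ε)), fun x hx => ?_⟩
  set I : ℕ := ⌊Real.logb 2 (2 * x)⌋₊ with hI
  have hlogb : 0 ≤ Real.logb 2 (2 * x) := Real.logb_nonneg one_lt_two (by linarith)
  set A : Finset ℕ := (Finset.range (I + 1)).filter
    (fun i => (i < j ∨ θ ≤ S.q i) ∧ S.X i ≤ 2 * x) with hA
  set G : Finset ℕ := A.biUnion fun i => (Finset.range (S.N i)).image fun l => κ (S.st i l) with hG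
  have hsub : (gfin hpt θ x).toFinset ⊆ Finset.range n₁ ∪ G := by
    intro n hn
    rw [Set.Finite.mem_toFinset] at hn
    obtain ⟨h1, h2⟩ := hn
    rw [Finset.mem_union, Finset.mem_range]
    rcases Nat.lt_or_ge n n₁ with h3 | h3
    · left; exact h3
    · right
      obtain ⟨i, l, h4, h5, rfl⟩ := hcl n h3 h2
      rw [hG, Finset.mem_biUnion]
      have g1 := (run_facts O h4).1
      have g2 : S.X i ≤ 2 * x := by linarith
      refine ⟨i, ?_, Finset.mem_image.2 ⟨l, Finset.mem_range.2 h4, rfl⟩⟩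
      rw [hA, Finset.mem_filter, Finset.mem_range]
      refine ⟨Nat.lt_succ_of_le (Nat.le_floor ?_), h5, g2⟩
      rw [Real.le_logb_iff_rpow_le one_lt_two (by linarith), Real.rpow_natCast]
      exact (S.two_pow_le i).trans g2
  have h1 : gcnt p θ x ≤ n₁ + ∑ i ∈ A, S.N i := by
    unfold gcnt
    rw [Set.ncard_eq_toFinset_card _ (gfin hpt _ _)]
    refine (Finset.card_le_card hsub).trans ((Finset.card_union_le _ _).trans ?_)
    rw [Finset.card_range]
    apply Nat.add_le_add_left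
    refine Finset.card_biUnion_le.trans (Finset.sum_le_sum fun i _ => ?_)
    exact Finset.card_image_le.trans (le_of_eq (Finset.card_range _))
  have h2x : 1 ≤ 2 * x := by linarith
  have h2 : ((∑ i ∈ A, S.N i : ℕ) : ℝ) ≤ K + (I + 1) * (2 * (2 * x) ^ S.E j) := by
    push_cast
    have g1 : ∀ i ∈ A, (S.N i : ℝ) ≤ (if i < j then (S.N i : ℝ) else 0) + 2 * (2 * x) ^ S.E j := by
      intro i hi
      rw [hA, Finset.mem_filter] at hi
      obtain ⟨-, h3, h4⟩ := hi
      have hpos : 0 ≤ 2 * (2 * x) ^ S.E j := by positivity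
      by_cases hij : i < j
      · rw [if_pos hij]; linarith
      · rw [if_neg hij, zero_add]
        have h5 : θ ≤ S.q i := by
          rcases h3 with h3 | h3
          · exact absurd h3 hij
          · exact h3
        have h6 : S.e i ≤ S.E j := S.anti j _ h5
        have hX := S.one_le_X i
        have h7 : (S.N i : ℝ) ≤ 2 * S.X i ^ S.e i := gN_le hX (S.E0 _)
        have h8 : S.X i ^ S.e i ≤ (2 * x) ^ S.E j :=
          (Real.rpow_le_rpow_of_exponent_le hX h6).trans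
            (Real.rpow_le_rpow (by linarith) h4 (S.E0 j))
        linarith
    refine (Finset.sum_le_sum g1).trans ?_
    rw [Finset.sum_add_distrib]
    apply add_le_add
    · rw [← Finset.sum_filter, hK]
      push_cast
      apply Finset.sum_le_sum_of_subset_of_nonneg
      · intro i hi
        exact Finset.mem_range.2 (Finset.mem_filter.1 hi).2
      · intro i _ _; exact Nat.cast_nonneg _
    · rw [Finset.sum_const, nsmul_eq_mul]
      apply mul_le_mul_of_nonneg_right _ (by positivity)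
      have : A.card ≤ I + 1 := (Finset.card_filter_le _ _).trans (le_of_eq (Finset.card_range _))
      exact_mod_cast this
  have h3 : ((I : ℝ) + 1) ≤ (2 / ε + 1) * (2 * x) ^ ε := by
    have g1 : (I : ℝ) ≤ Real.logb 2 (2 * x) := Nat.floor_le hlogb
    have g2 : Real.logb 2 (2 * x) ≤ 2 * Real.log (2 * x) := by
      unfold Real.logb
      rw [div_le_iff₀ (Real.log_pos one_lt_two)]
      have h11 : (1 / 2 : ℝ) < Real.log 2 := by
        have := Real.log_two_gt_d9
        linarith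
      have := Real.log_nonneg h2x
      nlinarith
    have g3 := Real.log_le_rpow_div (by linarith : 0 ≤ 2 * x) hε
    have g4 : 1 ≤ (2 * x) ^ ε := Real.one_le_rpow h2x hε.le
    have e : (2 / ε + 1) * (2 * x) ^ ε = 2 * ((2 * x) ^ ε / ε) + (2 * x) ^ ε := by ring
    rw [e]
    linarith
  have h4 : ((I : ℝ) + 1) * (2 * (2 * x) ^ S.E j) ≤
      (2 / ε + 1) * (2 * 2 ^ (S.E j + ε)) * x ^ (S.E j + ε) := by
    calc ((I : ℝ) + 1) * (2 * (2 * x) ^ S.E j) ≤
          ((2 / ε + 1) * (2 * x) ^ ε) * (2 * (2 * x) ^ S.E j) :=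
          mul_le_mul_of_nonneg_right h3 (by positivity)
      _ = (2 / ε + 1) * (2 * ((2 * x) ^ S.E j * (2 * x) ^ ε)) := by ring
      _ = _ := by
          rw [← Real.rpow_add (by linarith), Real.mul_rpow (by norm_num) (by linarith)]
          ring
  have h5 : 1 ≤ x ^ (S.E j + ε) := Real.one_le_rpow hx (by have := S.E0 j; linarith)
  have h6 : (gcnt p θ x : ℝ) ≤ n₁ + ((∑ i ∈ A, S.N i : ℕ) : ℝ) := by exact_mod_cast h1
  have h7 : (n₁ : ℝ) + K ≤ (n₁ + K) * x ^ (S.E j + ε) := le_mul_of_one_le_right (by positivity) h5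
  calc (gcnt p θ x : ℝ) ≤ (n₁ + K) * x ^ (S.E j + ε) +
        (2 / ε + 1) * (2 * 2 ^ (S.E j + ε)) * x ^ (S.E j + ε) := by linarith
    _ = _ := by ring

theorem gexp_eq (j : ℕ) : gexp (fun k => phi (fZ Z) x₀ (y k)) (S.Q j) =
    ENNReal.ofReal (S.E j) := by
  apply le_antisymm
  · apply limsup_ofReal_le
    intro ε hε
    obtain ⟨C, hC⟩ := upper O j (half_pos hε)
    have h1 := (Real.tendsto_log_atTop.const_mul_atTop (half_pos hε)).eventually_ge_atTop
      (Real.log (|C| + 1))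
    filter_upwards [eventually_gt_atTop 1, h1] with x hx hx2
    have h3 := log_cnt_le (N := (gcnt (fun k => phi (fZ Z) x₀ (y k)) (S.Q j) x : ℝ))
      (a := S.E j + ε / 2) (ε := ε / 2) (by
      rcases Nat.eq_zero_or_pos (gcnt (fun k => phi (fZ Z) x₀ (y k)) (S.Q j) x) with h | h
      · left; rw [h]; simp
      · right; exact_mod_cast h) hx (by have := S.E0 j; linarith) (half_pos hε) (hC x hx.le) hx2
    linarith
  · apply le_limsup_ofReal
    intro ε hε
    rw [Filter.frequently_atTop]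
    intro A
    -- choose a large run
    have h1 := (Real.tendsto_log_atTop.const_mul_atTop hε).eventually_ge_atTop (Real.log 4)
    obtain ⟨B, hB⟩ := eventually_atTop.1 h1
    obtain ⟨t, ht⟩ := exists_nat_ge (max A B)
    set i := Nat.pair j t with hi
    have hti : t ≤ i := Nat.right_le_pair j t
    have hX1 := S.one_le_X i
    have hXt : (t : ℝ) ≤ S.X i := by
      have g1 : (i : ℝ) ≤ 2 ^ i := by exact_mod_cast (Nat.lt_two_pow_self (n := i)).le
      have g2 : (t : ℝ) ≤ i := by exact_mod_cast hti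
      linarith [S.two_pow_le i]
    have hXA : A ≤ 4 * S.X i := by
      have := (le_max_left A B).trans (ht.trans hXt)
      linarith
    have hXB : B ≤ 4 * S.X i := by
      have := (le_max_right A B).trans (ht.trans hXt)
      linarith
    refine ⟨4 * S.X i, hXA, ?_⟩
    have g1 := lower O j t
    have g2 : S.X i ^ S.E j ≤ S.N i := by
      have he : S.e i = S.E j := by unfold GE.e; rw [hi, Nat.unpair_pair]
      have := gN_ge (S.e i) (S.X i)
      rw [he] at this
      change S.X i ^ S.E j ≤ (gN (S.e i) (S.X i) : ℝ)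
      rw [he]
      exact this
    have g3 := Real.log_le_log (Real.rpow_pos_of_pos (by linarith) _) (g2.trans g1)
    rw [Real.log_rpow (by linarith)] at g3
    have hl : 0 < Real.log (4 * S.X i) := Real.log_pos (by linarith)
    rw [le_div_iff₀ hl]
    have g4 : Real.log (4 * S.X i) = Real.log 4 + Real.log (S.X i) :=
      Real.log_mul (by norm_num) (by linarith)
    have g5 := hB _ hXB
    have g6 : S.E j ≤ 1 := by linarith [S.E1 j, S.Q0 j]
    have g7 : 0 < Real.log 4 := Real.log_pos (by norm_num)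
    have g8 : S.E j * Real.log 4 ≤ 1 * Real.log 4 := mul_le_mul_of_nonneg_right g6 g7.le
    nlinarith

end GS

theorem gs_exists {Z : Multiset ℂ} (hZ : ∀ ρ ∈ Z, ρ.re < 1) (hZc : Z.map conj = Z)
    {Q E : ℕ → ℝ} (Q0 : ∀ j, 0 < Q j) (Q1 : ∀ j, Q j < 1 / 2) (E0 : ∀ j, 0 ≤ E j)
    (E1 : ∀ j, E j ≤ 1 - 2 * Q j) (anti : ∀ j k, Q j ≤ Q k → E k ≤ E j) :
    ∃ p : ℕ → ℝ, Sys Z p ∧ ∀ j, gexp p (Q j) = ENNReal.ofReal (E j) := by
  obtain ⟨x₀, hR⟩ := exists_RDens hZ
  obtain ⟨S, hS⟩ := exists_GS (Z := Z) (x₀ := x₀)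
    { hR := hR, Q := Q, E := E, Q0 := Q0, Q1 := Q1, E0 := E0, E1 := E1, anti := anti }
  obtain ⟨y, κ, h1, h2, h3, h4, h5, h6⟩ := S.toVD.system hR hZ hZc rfl
  refine ⟨_, h4, fun j => ?_⟩
  have O : GS.Out S y κ := ⟨h1, h2, h3, h5, h6⟩
  have := GS.gexp_eq O j
  rw [hS] at this
  exact this

end Pool.Agent.H521.G
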