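import Pool.Agent.H521.G.GapExp4

open MeasureTheory Set Filter Topology
open scoped ComplexConjugate Classical ENNReal NNReal

namespace Pool.Agent.H521.G

/-- A sequence of exponents which is dense for the function. -/
theorem exists_expo2 {e : ℝ → ℝ≥0∞} (he : AntitoneOn e (Ioo 0 (1 / 2))) :
    ∃ Q : ℕ → ℝ, (∀ i, Q i ∈ Ioo (0 : ℝ) (1 / 2)) ∧ ∀ b ∈ Ioo (0 : ℝ) (1 / 2), ∀ O ∈ 𝓝 (e b),
      (∃ i, Q i ≤ b ∧ e (Q i) ∈ O) ∧ ∃ i, b ≤ Q i ∧ e (Q i) ∈ O := by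
  set SE : Set ℝ := Ioo 0 (1 / 2) with hSE
  set D : Set ℝ := ((range ((↑) : ℚ → ℝ)) ∩ SE) ∪ {x ∈ SE | ¬ContinuousWithinAt e SE x} with hD
  have hDc : D.Countable := ((countable_range _).mono inter_subset_left).union
    he.countable_not_continuousWithinAt
  have hDne : D.Nonempty := ⟨((1 / 4 : ℚ) : ℝ), Or.inl ⟨⟨1 / 4, rfl⟩, by
    rw [hSE]; constructor <;> norm_num⟩⟩
  obtain ⟨Q, hQ⟩ := hDc.exists_eq_range hDne
  have hmem : ∀ x ∈ D, ∃ i, Q i = x := fun x hx => by rw [hQ] at hx; exact hx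
  refine ⟨Q, fun i => ?_, fun b hb O hO => ?_⟩
  · have : Q i ∈ D := by rw [hQ]; exact ⟨i, rfl⟩
    rcases this with h | h
    · exact h.2
    · exact h.1
  · by_cases hc : ContinuousWithinAt e SE b
    · have hc' : ContinuousAt e b := hc.continuousAt (isOpen_Ioo.mem_nhds hb)
      have h : ∀ᶠ x in 𝓝 b, x ∈ SE ∧ e x ∈ O := (isOpen_Ioo.eventually_mem hb).and
        (hc'.eventually hO)
      obtain ⟨δ, hδ, hball⟩ := Metric.eventually_nhds_iff.1 h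
      obtain ⟨r, hr1, hr2⟩ := exists_rat_btwn (by linarith : b - δ < b)
      obtain ⟨r', hr1', hr2'⟩ := exists_rat_btwn (by linarith : b < b + δ)
      have h1 := hball (y := (r : ℝ)) (by rw [Real.dist_eq, abs_lt]; constructor <;> linarith)
      have h2 := hball (y := (r' : ℝ)) (by rw [Real.dist_eq, abs_lt]; constructor <;> linarith)
      obtain ⟨i, hi⟩ := hmem r (Or.inl ⟨⟨r, rfl⟩, h1.1⟩)
      obtain ⟨i', hi'⟩ := hmem r' (Or.inl ⟨⟨r', rfl⟩, h2.1⟩)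
      exact ⟨⟨i, by rw [hi]; exact hr2.le, by rw [hi]; exact h1.2⟩,
        ⟨i', by rw [hi']; exact hr1'.le, by rw [hi']; exact h2.2⟩⟩
    · obtain ⟨i, hi⟩ := hmem b (Or.inr ⟨hb, hc⟩)
      exact ⟨⟨i, hi.le, by rw [hi]; exact mem_of_mem_nhds hO⟩,
        ⟨i, hi.ge, by rw [hi]; exact mem_of_mem_nhds hO⟩⟩

/-- **Realisation of exponent functions.** -/
theorem gexp_suff {Z : Multiset ℂ} (hZ : ∀ ρ ∈ Z, ρ.re < 1) (hZc : Z.map conj = Z)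
    {e : ℝ → ℝ≥0∞} (h1 : ∀ θ θ' : ℝ, 0 < θ → θ ≤ θ' → θ' ≤ 1 / 2 → e θ' ≤ e θ)
    (h2 : ∀ θ : ℝ, 0 < θ → θ ≤ 1 / 2 → e θ ≤ ENNReal.ofReal (1 - 2 * θ)) :
    ∃ p : ℕ → ℝ, Sys Z p ∧ ∀ θ : ℝ, 0 < θ → θ ≤ 1 / 2 → gexp p θ = e θ := by
  have he : AntitoneOn e (Ioo 0 (1 / 2)) := fun a ha b hb hab => h1 a b ha.1 hab hb.2.le
  obtain ⟨Q, hQ, hQd⟩ := exists_expo2 he
  have hfin : ∀ j, e (Q j) ≠ ∞ := fun j =>
    (lt_of_le_of_lt (h2 _ (hQ j).1 (hQ j).2.le) ENNReal.ofReal_lt_top).ne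
  obtain ⟨p, hS, hp⟩ := gs_exists hZ hZc (Q := Q) (E := fun j => (e (Q j)).toReal)
    (fun j => (hQ j).1) (fun j => (hQ j).2) (fun j => ENNReal.toReal_nonneg)
    (fun j => by
      have := ENNReal.toReal_mono ENNReal.ofReal_ne_top (h2 _ (hQ j).1 (hQ j).2.le)
      rwa [ENNReal.toReal_ofReal (by linarith [(hQ j).2])] at this)
    (fun j k hjk => ENNReal.toReal_mono (hfin j) (h1 _ _ (hQ j).1 hjk (hQ k).2.le))
  have hp' : ∀ j, gexp p (Q j) = e (Q j) := fun j => by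
    rw [hp j, ENNReal.ofReal_toReal (hfin j)]
  have hW : SysW Z p := ⟨by linarith [hS.three_le 0], hS.mono, hS.tendsto, hS.summable, hS.zeta,
    hS.pnt⟩
  have hp1 : ∀ n, 1 ≤ p n := fun n => by linarith [hS.three_le n]
  refine ⟨p, hS, fun θ hθ hθ1 => ?_⟩
  rcases lt_or_eq_of_le hθ1 with hlt | heq
  · by_contra hne
    rcases lt_or_gt_of_ne hne with h | h
    · obtain ⟨-, i, hi1, hi2⟩ := hQd θ ⟨hθ, hlt⟩ (Ioi (gexp p θ)) (Ioi_mem_nhds h)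
      have h3 := gexp_anti hS.tendsto hp1 hi1
      rw [hp' i] at h3
      exact absurd (lt_of_lt_of_le hi2 h3) (lt_irrefl _)
    · obtain ⟨⟨i, hi1, hi2⟩, -⟩ := hQd θ ⟨hθ, hlt⟩ (Iio (gexp p θ)) (Iio_mem_nhds h)
      have h3 := gexp_anti hS.tendsto hp1 hi1
      rw [hp' i] at h3
      exact absurd (lt_of_le_of_lt h3 hi2) (lt_irrefl _)
  · have h3 := gexp_le hZ hZc hW hθ hθ1
    have h4 := h2 θ hθ hθ1
    have e0 : ENNReal.ofReal (1 - 2 * θ) = 0 := by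
      rw [heq]; norm_num
    rw [e0] at h3 h4
    rw [le_antisymm h3 bot_le, le_antisymm h4 bot_le]

end Pool.Agent.H521.G
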