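import Mathlib

open MeasureTheory Set Filter Topology
open scoped Classical

namespace Pool.Agent.H521.G

/-- Auxiliary (greedy construction): the largest admissible ratio at height `v`. -/
noncomputable def greedyRho (R : ℝ → ℝ) (i : ℝ) (v : ℝ) : ℝ :=
  sSup ({1 / i} ∪ {c | 1 / i ≤ c ∧ c ≤ i ∧ v < R c})

/-- Auxiliary (greedy construction): the partial masses. -/
noncomputable def greedyS (R : ℝ → ℝ) (i lam m : ℝ) : ℕ → ℝ
  | 0 => 0
  | (l + 1) => greedyS R i lam m l + lam * greedyRho R i (greedyS R i lam m l / m)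

lemma greedyRho_bdd (R : ℝ → ℝ) {i : ℝ} (hi : 1 ≤ i) (v : ℝ) :
    BddAbove ({1 / i} ∪ {c | 1 / i ≤ c ∧ c ≤ i ∧ v < R c} : Set ℝ) := by
  refine ⟨i, ?_⟩
  rintro c (hc | hc)
  · rw [mem_singleton_iff] at hc
    rw [hc]
    have h0 : 0 < i := by linarith
    rw [div_le_iff₀ h0]
    nlinarith
  · exact hc.2.1

lemma greedyRho_ge (R : ℝ → ℝ) {i : ℝ} (hi : 1 ≤ i) (v : ℝ) : 1 / i ≤ greedyRho R i v :=
  le_csSup (greedyRho_bdd R hi v) (Or.inl rfl)

lemma greedyRho_le (R : ℝ → ℝ) {i : ℝ} (hi : 1 ≤ i) (v : ℝ) : greedyRho R i v ≤ i := by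
  refine csSup_le ⟨1 / i, Or.inl rfl⟩ ?_
  rintro c (hc | hc)
  · rw [mem_singleton_iff] at hc
    rw [hc]
    have h0 : 0 < i := by linarith
    rw [div_le_iff₀ h0]
    nlinarith
  · exact hc.2.1

lemma greedyRho_ge_of (R : ℝ → ℝ) {i : ℝ} (hi : 1 ≤ i) {v a : ℝ} (h1 : 1 / i ≤ a) (h2 : a ≤ i)
    (h3 : v < R a) : a ≤ greedyRho R i v :=
  le_csSup (greedyRho_bdd R hi v) (Or.inr ⟨h1, h2, h3⟩)

lemma greedyRho_exists (R : ℝ → ℝ) {i : ℝ} {v a : ℝ} (h1 : 1 / i ≤ a)
    (h2 : a < greedyRho R i v) : ∃ c, a < c ∧ v < R c := by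
  obtain ⟨c, hc, hac⟩ := exists_lt_of_lt_csSup ⟨1 / i, Or.inl rfl⟩ h2
  rcases hc with hc | hc
  · rw [mem_singleton_iff] at hc
    rw [hc] at hac
    exact absurd hac (not_lt.mpr h1)
  · exact ⟨c, hac, hc.2.2⟩

lemma greedyS_eq_sum (R : ℝ → ℝ) (i lam m : ℝ) (n : ℕ) :
    ∑ l ∈ Finset.range n, lam * greedyRho R i (greedyS R i lam m l / m) =
      greedyS R i lam m n := by
  induction n with
  | zero => rw [Finset.sum_range_zero, greedyS]
  | succ k ih => rw [Finset.sum_range_succ, ih, greedyS]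

lemma greedyS_step (R : ℝ → ℝ) {i lam : ℝ} (m : ℝ) (hi : 1 ≤ i) (hlam : 0 < lam) (n : ℕ) :
    greedyS R i lam m n + lam / i ≤ greedyS R i lam m (n + 1) ∧
    greedyS R i lam m (n + 1) ≤ greedyS R i lam m n + i * lam := by
  have h1 := greedyRho_ge R hi (greedyS R i lam m n / m)
  have h2 := greedyRho_le R hi (greedyS R i lam m n / m)
  have e : greedyS R i lam m (n + 1) =
    greedyS R i lam m n + lam * greedyRho R i (greedyS R i lam m n / m) := by rw [greedyS]
  rw [e]
  constructor
  · have := mul_le_mul_of_nonneg_left h1 hlam.le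
    have e2 : lam * (1 / i) = lam / i := by ring
    linarith
  · have := mul_le_mul_of_nonneg_left h2 hlam.le
    linarith

lemma greedyS_mono (R : ℝ → ℝ) {i lam : ℝ} (m : ℝ) (hi : 1 ≤ i) (hlam : 0 < lam) :
    Monotone (greedyS R i lam m) := by
  apply monotone_nat_of_le_succ
  intro n
  have h := (greedyS_step R m hi hlam n).1
  have h0 : 0 < lam / i := by positivity
  linarith

lemma greedyS_unbdd (R : ℝ → ℝ) {i lam : ℝ} (m : ℝ) (hi : 1 ≤ i) (hlam : 0 < lam) (n : ℕ) :
    n * (lam / i) ≤ greedyS R i lam m n := by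
  induction n with
  | zero =>
    rw [greedyS]
    simp
  | succ k ih =>
    have h := (greedyS_step R m hi hlam k).1
    push_cast
    linarith

/-- The first index where the partial mass reaches `T`: the overshoot is at most `i * lam`. -/
lemma greedyS_first (R : ℝ → ℝ) {i lam : ℝ} (m : ℝ) (hi : 1 ≤ i) (hlam : 0 < lam) (T : ℝ)
    (hT : 0 ≤ T) :
    ∃ n : ℕ, T ≤ greedyS R i lam m n ∧ (∀ l < n, greedyS R i lam m l < T) ∧
      greedyS R i lam m n ≤ T + i * lam := by
  have h0 : 0 < lam / i := by positivity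
  have hex : ∃ n : ℕ, T ≤ greedyS R i lam m n := by
    obtain ⟨n, hn⟩ := exists_nat_gt (T / (lam / i))
    refine ⟨n, ?_⟩
    rw [div_lt_iff₀ h0] at hn
    exact hn.le.trans (greedyS_unbdd R m hi hlam n)
  refine ⟨Nat.find hex, Nat.find_spec hex, ?_, ?_⟩
  · intro l hl
    exact not_le.mp (Nat.find_min hex hl)
  · rcases Nat.eq_zero_or_pos (Nat.find hex) with h | h
    · rw [h, greedyS]
      have : 0 < i * lam := by positivity
      linarith
    · obtain ⟨k, hk⟩ := Nat.exists_eq_succ_of_ne_zero h.ne'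
      have hlt : k < Nat.find hex := by omega
      have h1 := not_le.mp (Nat.find_min hex hlt)
      have h2 := (greedyS_step R m hi hlam k).2
      rw [hk]
      exact h2.trans (by linarith)

/-- A finite list of large gaps whose masses above each threshold `a * lam` are `R a * m`. -/
theorem greedy_gaps {R : ℝ → ℝ} (hR : AntitoneOn R (Ioi 0)) (hR0 : ∀ c, 0 < c → 0 ≤ R c)
    {i lam m : ℝ} (hi : 1 ≤ i) (hlam : 0 < lam) (hm : 0 < m) :
    ∃ (n : ℕ) (b : ℕ → ℝ), (∀ l, lam / i ≤ b l ∧ b l ≤ i * lam) ∧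
      (∑ l ∈ Finset.range n, b l ≤ R (1 / i) * m + i * lam) ∧
      (∀ a, 1 / i ≤ a → a ≤ i →
        R a * m ≤ ∑ l ∈ Finset.range n, (if a * lam ≤ b l then b l else 0)) ∧
      ∀ a' a, 1 / i ≤ a' → a' < a →
        ∑ l ∈ Finset.range n, (if a * lam ≤ b l then b l else 0) ≤ R a' * m + i * lam := by
  have hi0 : 0 < i := by linarith
  have h1i : 0 < 1 / i := by positivity
  have hRm : ∀ c, 0 < c → 0 ≤ R c * m := fun c hc => mul_nonneg (hR0 c hc) hm.le
  obtain ⟨n, hn1, hn2, hn3⟩ := greedyS_first R m hi hlam (R (1 / i) * m) (hRm _ h1i)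
  have hbpos : ∀ l, 0 < lam * greedyRho R i (greedyS R i lam m l / m) := fun l =>
    mul_pos hlam (lt_of_lt_of_le h1i (greedyRho_ge R hi _))
  refine ⟨n, fun l => lam * greedyRho R i (greedyS R i lam m l / m), ?_, ?_, ?_, ?_⟩
  · intro l
    have h1 := mul_le_mul_of_nonneg_left (greedyRho_ge R hi (greedyS R i lam m l / m)) hlam.le
    have h2 := mul_le_mul_of_nonneg_left (greedyRho_le R hi (greedyS R i lam m l / m)) hlam.le
    constructor
    · have e2 : lam * (1 / i) = lam / i := by ring
      rw [← e2]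
      exact h1
    · rw [mul_comm i lam]
      exact h2
  · rw [greedyS_eq_sum]
    exact hn3
  · intro a ha1 ha2
    have ha0 : 0 < a := lt_of_lt_of_le h1i ha1
    obtain ⟨k, hk1, hk2, hk3⟩ := greedyS_first R m hi hlam (R a * m) (hRm _ ha0)
    have hRa : R a * m ≤ R (1 / i) * m :=
      mul_le_mul_of_nonneg_right (hR h1i ha0 ha1) hm.le
    have hkn : k ≤ n := by
      by_contra hcon
      have := hk2 n (not_le.mp hcon)
      linarith
    have hsum : ∑ l ∈ Finset.range k,
        (if a * lam ≤ lam * greedyRho R i (greedyS R i lam m l / m) then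
          lam * greedyRho R i (greedyS R i lam m l / m) else 0) = greedyS R i lam m k := by
      rw [← greedyS_eq_sum]
      refine Finset.sum_congr rfl ?_
      intro l hl
      have hlt := hk2 l (Finset.mem_range.mp hl)
      rw [← div_lt_iff₀ hm] at hlt
      have hge := greedyRho_ge_of R hi ha1 ha2 hlt
      have hge2 := mul_le_mul_of_nonneg_left hge hlam.le
      rw [if_pos (by rw [mul_comm a lam]; exact hge2)]
    calc R a * m ≤ greedyS R i lam m k := hk1
      _ = _ := hsum.symm
      _ ≤ _ := by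
        refine Finset.sum_le_sum_of_subset_of_nonneg ?_ ?_
        · intro l hl
          rw [Finset.mem_range] at hl ⊢
          omega
        · intro l _ _
          split_ifs
          · exact (hbpos l).le
          · exact le_rfl
  · intro a' a ha1 ha2
    have ha0 : 0 < a' := lt_of_lt_of_le h1i ha1
    obtain ⟨k, hk1, hk2, hk3⟩ := greedyS_first R m hi hlam (R a' * m) (hRm _ ha0)
    refine le_trans ?_ hk3
    rw [← greedyS_eq_sum R i lam m k]
    -- compare with the sum over `range k`
    have key : ∀ l, a * lam ≤ lam * greedyRho R i (greedyS R i lam m l / m) → l < k := by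
      intro l hl
      by_contra hcon
      have hkl : k ≤ l := not_lt.mp hcon
      have h1 : a ≤ greedyRho R i (greedyS R i lam m l / m) := by
        have h2 : lam * a ≤ lam * greedyRho R i (greedyS R i lam m l / m) := by
          rw [mul_comm lam a]
          exact hl
        exact le_of_mul_le_mul_left h2 hlam
      obtain ⟨c, hc1, hc2⟩ := greedyRho_exists R ha1 (lt_of_lt_of_le ha2 h1)
      have hc0 : 0 < c := ha0.trans hc1
      have h3 : R c ≤ R a' := hR ha0 hc0 hc1.le
      have h4 : greedyS R i lam m l / m < R a' := lt_of_lt_of_le hc2 h3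
      rw [div_lt_iff₀ hm] at h4
      have h5 := greedyS_mono R m hi hlam hkl
      linarith
    have hstep : ∀ l, (if a * lam ≤ lam * greedyRho R i (greedyS R i lam m l / m) then
          lam * greedyRho R i (greedyS R i lam m l / m) else 0) ≤
        (if l < k then lam * greedyRho R i (greedyS R i lam m l / m) else 0) := by
      intro l
      by_cases h : a * lam ≤ lam * greedyRho R i (greedyS R i lam m l / m)
      · rw [if_pos h, if_pos (key l h)]
      · rw [if_neg h]
        split_ifs
        · exact (hbpos l).le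
        · exact le_rfl
    refine (Finset.sum_le_sum fun l _ => hstep l).trans ?_
    rw [← Finset.sum_filter]
    refine Finset.sum_le_sum_of_subset_of_nonneg ?_ ?_
    · intro l hl
      rw [Finset.mem_filter] at hl
      exact Finset.mem_range.mpr hl.2
    · intro l _ _
      exact (hbpos l).le

end Pool.Agent.H521.G
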