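import Pool.Agent.H521.G.Greedy

open MeasureTheory Set Filter Topology
open scoped Classical

namespace Pool.Agent.H521.G



/-- The list of `greedy_gaps`, explicitly. -/
theorem greedy_gaps_expl {R : ℝ → ℝ} (hR : AntitoneOn R (Ioi 0)) (hR0 : ∀ c, 0 < c → 0 ≤ R c)
    {i lam m : ℝ} (hi : 1 ≤ i) (hlam : 0 < lam) (hm : 0 < m) :
    ∃ n : ℕ,
      (∑ l ∈ Finset.range n, lam * greedyRho R i (greedyS R i lam m l / m) ≤
        R (1 / i) * m + i * lam) ∧
      (∀ a, 1 / i ≤ a → a ≤ i →
        R a * m ≤ ∑ l ∈ Finset.range n,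
          (if a * lam ≤ lam * greedyRho R i (greedyS R i lam m l / m) then
            lam * greedyRho R i (greedyS R i lam m l / m) else 0)) ∧
      ∀ a' a, 1 / i ≤ a' → a' < a →
        ∑ l ∈ Finset.range n, (if a * lam ≤ lam * greedyRho R i (greedyS R i lam m l / m) then
            lam * greedyRho R i (greedyS R i lam m l / m) else 0) ≤ R a' * m + i * lam := by
  have hi0 : 0 < i := by linarith
  have h1i : 0 < 1 / i := by positivity
  have hRm : ∀ c, 0 < c → 0 ≤ R c * m := fun c hc => mul_nonneg (hR0 c hc) hm.le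
  obtain ⟨n, hn1, hn2, hn3⟩ := greedyS_first R m hi hlam (R (1 / i) * m) (hRm _ h1i)
  have hbpos : ∀ l, 0 < lam * greedyRho R i (greedyS R i lam m l / m) := fun l =>
    mul_pos hlam (lt_of_lt_of_le h1i (greedyRho_ge R hi _))
  refine ⟨n, ?_, ?_, ?_⟩
  · rw [greedyS_eq_sum]
    exact hn3
  · intro a ha1 ha2
    have ha0 : 0 < a := lt_of_lt_of_le h1i ha1
    obtain ⟨k, hk1, hk2, hk3⟩ := greedyS_first R m hi hlam (R a * m) (hRm _ ha0)
    have hRa : R a * m ≤ R (1 / i) * m :=
      mul_le_mul_of_nonneg_right (hR h1i ha0 ha1) hm.le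
    have hkn : k ≤ n := by
      by_contra hcon
      have := hk2 n (not_le.mp hcon)
      linarith
    have hsum : ∑ l ∈ Finset.range k,
        (if a * lam ≤ lam * greedyRho R i (greedyS R i lam m l / m) then
          lam * greedyRho R i (greedyS R i lam m l / m) else 0) = greedyS R i lam m k := by
      rw [← greedyS_eq_sum]
      refine Finset.sum_congr rfl ?_
      intro l hl
      have hlt := hk2 l (Finset.mem_range.mp hl)
      rw [← div_lt_iff₀ hm] at hlt
      have hge := greedyRho_ge_of R hi ha1 ha2 hlt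
      have hge2 := mul_le_mul_of_nonneg_left hge hlam.le
      rw [if_pos (by rw [mul_comm a lam]; exact hge2)]
    calc R a * m ≤ greedyS R i lam m k := hk1
      _ = _ := hsum.symm
      _ ≤ _ := by
        refine Finset.sum_le_sum_of_subset_of_nonneg ?_ ?_
        · intro l hl
          rw [Finset.mem_range] at hl ⊢
          omega
        · intro l _ _
          split_ifs
          · exact (hbpos l).le
          · exact le_rfl
  · intro a' a ha1 ha2
    have ha0 : 0 < a' := lt_of_lt_of_le h1i ha1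
    obtain ⟨k, hk1, hk2, hk3⟩ := greedyS_first R m hi hlam (R a' * m) (hRm _ ha0)
    refine le_trans ?_ hk3
    rw [← greedyS_eq_sum R i lam m k]
    -- compare with the sum over `range k`
    have key : ∀ l, a * lam ≤ lam * greedyRho R i (greedyS R i lam m l / m) → l < k := by
      intro l hl
      by_contra hcon
      have hkl : k ≤ l := not_lt.mp hcon
      have h1 : a ≤ greedyRho R i (greedyS R i lam m l / m) := by
        have h2 : lam * a ≤ lam * greedyRho R i (greedyS R i lam m l / m) := by
          rw [mul_comm lam a]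
          exact hl
        exact le_of_mul_le_mul_left h2 hlam
      obtain ⟨c, hc1, hc2⟩ := greedyRho_exists R ha1 (lt_of_lt_of_le ha2 h1)
      have hc0 : 0 < c := ha0.trans hc1
      have h3 : R c ≤ R a' := hR ha0 hc0 hc1.le
      have h4 : greedyS R i lam m l / m < R a' := lt_of_lt_of_le hc2 h3
      rw [div_lt_iff₀ hm] at h4
      have h5 := greedyS_mono R m hi hlam hkl
      linarith
    have hstep : ∀ l, (if a * lam ≤ lam * greedyRho R i (greedyS R i lam m l / m) then
          lam * greedyRho R i (greedyS R i lam m l / m) else 0) ≤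
        (if l < k then lam * greedyRho R i (greedyS R i lam m l / m) else 0) := by
      intro l
      by_cases h : a * lam ≤ lam * greedyRho R i (greedyS R i lam m l / m)
      · rw [if_pos h, if_pos (key l h)]
      · rw [if_neg h]
        split_ifs
        · exact (hbpos l).le
        · exact le_rfl
    refine (Finset.sum_le_sum fun l _ => hstep l).trans ?_
    rw [← Finset.sum_filter]
    refine Finset.sum_le_sum_of_subset_of_nonneg ?_ ?_
    · intro l hl
      rw [Finset.mem_filter] at hl
      exact Finset.mem_range.mpr hl.2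
    · intro l _ _
      exact (hbpos l).le

lemma greedyS_nonneg (R : ℝ → ℝ) {i lam : ℝ} (m : ℝ) (hi : 1 ≤ i) (hlam : 0 < lam) (l : ℕ) :
    0 ≤ greedyS R i lam m l := by
  have h := greedyS_mono R m hi hlam (Nat.zero_le l)
  have h0 : greedyS R i lam m 0 = 0 := by rw [greedyS]
  rwa [h0] at h

/-- The cap of the ratios. -/
lemma greedyRho_cap {R : ℝ → ℝ} {i τ v : ℝ} (hv : 0 ≤ v) (hτ1 : 1 / i ≤ τ)
    (hτR : ∀ c, τ < c → c ≤ i → R c = 0) : greedyRho R i v ≤ τ := by
  refine csSup_le ⟨1 / i, Or.inl rfl⟩ ?_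
  rintro c (hc | hc)
  · rw [mem_singleton_iff] at hc
    rw [hc]
    exact hτ1
  · by_contra hcon
    have h1 := hτR c (not_le.mp hcon) hc.2.1
    have h2 := hc.2.2
    rw [h1] at h2
    exact absurd h2 (not_lt.mpr hv)

/-- The list with two forced gaps. -/
noncomputable def greedyList (R : ℝ → ℝ) (i lam m τ : ℝ) (l : ℕ) : ℝ :=
  if l < 2 then τ * lam else lam * greedyRho R i (greedyS R i lam m (l - 2) / m)

lemma greedyList_add (R : ℝ → ℝ) (i lam m τ : ℝ) (l : ℕ) :
    greedyList R i lam m τ (l + 2) = lam * greedyRho R i (greedyS R i lam m l / m) := by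
  unfold greedyList
  rw [if_neg (by omega), Nat.add_sub_cancel]

lemma greedyList_sum (R : ℝ → ℝ) (i lam m τ : ℝ) (F : ℝ → ℝ) (n : ℕ) :
    ∑ l ∈ Finset.range (n + 2), F (greedyList R i lam m τ l) =
      ∑ l ∈ Finset.range n, F (lam * greedyRho R i (greedyS R i lam m l / m)) +
        2 * F (τ * lam) := by
  rw [Finset.sum_range_succ', Finset.sum_range_succ']
  have h0 : greedyList R i lam m τ 0 = τ * lam := by
    unfold greedyList
    rw [if_pos (by omega)]
  have h1 : greedyList R i lam m τ (0 + 1) = τ * lam := by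
    unfold greedyList
    rw [if_pos (by omega)]
  rw [h0, h1]
  have h2 : ∀ l, greedyList R i lam m τ (l + 1 + 1) =
      lam * greedyRho R i (greedyS R i lam m l / m) := fun l => greedyList_add R i lam m τ l
  simp only [h2]
  ring

/-- The list of `greedy_gaps` with two forced gaps `τ * lam` and all gaps at most `τ * lam`. -/
theorem greedy_forced {R : ℝ → ℝ} (hR : AntitoneOn R (Ioi 0)) (hR0 : ∀ c, 0 < c → 0 ≤ R c)
    {i lam m τ : ℝ} (hi : 1 ≤ i) (hlam : 0 < lam) (hm : 0 < m) (hτ1 : 1 / i ≤ τ) (hτ2 : τ ≤ i)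
    (hτR : ∀ c, τ < c → c ≤ i → R c = 0) :
    ∃ (n : ℕ) (b : ℕ → ℝ), 2 ≤ n ∧ b 0 = τ * lam ∧ b 1 = τ * lam ∧
      (∀ l, lam / i ≤ b l ∧ b l ≤ τ * lam) ∧
      (∑ l ∈ Finset.range n, b l ≤ R (1 / i) * m + 3 * (i * lam)) ∧
      (∀ a, 1 / i ≤ a → a ≤ i →
        R a * m ≤ ∑ l ∈ Finset.range n, (if a * lam ≤ b l then b l else 0)) ∧
      ∀ a' a, 1 / i ≤ a' → a' < a →
        ∑ l ∈ Finset.range n, (if a * lam ≤ b l then b l else 0) ≤ R a' * m + 3 * (i * lam) := by
  have hi0 : 0 < i := by linarith
  have hτ0 : 0 < τ := lt_of_lt_of_le (by positivity) hτ1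
  have hτl : 0 ≤ τ * lam := by positivity
  have hτi : τ * lam ≤ i * lam := mul_le_mul_of_nonneg_right hτ2 hlam.le
  obtain ⟨n, h1, h2, h3⟩ := greedy_gaps_expl hR hR0 hi hlam hm
  refine ⟨n + 2, greedyList R i lam m τ, by omega, ?_, ?_, ?_, ?_, ?_, ?_⟩
  · unfold greedyList
    rw [if_pos (by omega)]
  · unfold greedyList
    rw [if_pos (by omega)]
  · intro l
    have e2 : lam * (1 / i) = lam / i := by ring
    unfold greedyList
    by_cases hl : l < 2
    · rw [if_pos hl]
      refine ⟨?_, le_rfl⟩
      rw [← e2, mul_comm]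
      exact mul_le_mul_of_nonneg_right hτ1 hlam.le
    · rw [if_neg hl]
      constructor
      · rw [← e2]
        exact mul_le_mul_of_nonneg_left (greedyRho_ge R hi _) hlam.le
      · rw [mul_comm τ lam]
        exact mul_le_mul_of_nonneg_left (greedyRho_cap
          (div_nonneg (greedyS_nonneg R m hi hlam _) hm.le) hτ1 hτR) hlam.le
  · have h := greedyList_sum R i lam m τ (fun x => x) n
    rw [h]
    linarith
  · intro a ha1 ha2
    have h := greedyList_sum R i lam m τ (fun x => if a * lam ≤ x then x else 0) n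
    rw [h]
    have h4 : 0 ≤ (if a * lam ≤ τ * lam then τ * lam else 0) := by
      split_ifs
      · exact hτl
      · exact le_rfl
    have h5 := h2 a ha1 ha2
    linarith
  · intro a' a ha1 ha2
    have h := greedyList_sum R i lam m τ (fun x => if a * lam ≤ x then x else 0) n
    rw [h]
    have h4 : (if a * lam ≤ τ * lam then τ * lam else 0) ≤ i * lam := by
      split_ifs
      · exact hτi
      · exact hτl.trans hτi
    have h5 := h3 a' a ha1 ha2
    linarith

end Pool.Agent.H521.G
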