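import Pool.Agent.H521.G.TemplateBase

open MeasureTheory Set Filter Topology
open scoped Classical

namespace Pool.Agent.H521.G

/-- Concatenation: `base` on `[0, A)`, then the list `w` of length `n`, then the constant `e`. -/
noncomputable def insC (A n m : ℕ) (base w : ℕ → ℝ) (e : ℝ) (l : ℕ) : ℝ :=
  if l < A then base l else if l < A + n then w (l - A) else if l < m then e else 1

theorem insC_sum (A n r : ℕ) (base w : ℕ → ℝ) (e : ℝ) (F : ℝ → ℝ) :
    ∑ l ∈ Finset.range (A + n + r), F (insC A n (A + n + r) base w e l) =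
      ∑ l ∈ Finset.range A, F (base l) + ∑ l ∈ Finset.range n, F (w l) + r * F e := by
  rw [Finset.sum_range_add, Finset.sum_range_add]
  have h1 : ∀ l ∈ Finset.range A, F (insC A n (A + n + r) base w e l) = F (base l) := by
    intro l hl
    rw [Finset.mem_range] at hl
    rw [insC, if_pos hl]
  have h2 : ∀ l ∈ Finset.range n, F (insC A n (A + n + r) base w e (A + l)) = F (w l) := by
    intro l hl
    rw [Finset.mem_range] at hl
    rw [insC, if_neg (by omega), if_pos (by omega), Nat.add_sub_cancel_left]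
  have h3 : ∀ l ∈ Finset.range r, F (insC A n (A + n + r) base w e (A + n + l)) = F e := by
    intro l hl
    rw [Finset.mem_range] at hl
    rw [insC, if_neg (by omega), if_neg (by omega), if_pos (by omega)]
  rw [Finset.sum_congr rfl h1, Finset.sum_congr rfl h2, Finset.sum_congr rfl h3, Finset.sum_const,
    Finset.card_range, nsmul_eq_mul]

/-- **Insertion of a list of large gaps into a pattern.** -/
theorem insert_template {γ : ℕ → ℝ} (hγ : ∀ n, 0 ≤ γ n) {I : ℝ} (hI : 2 ≤ I) {M A n : ℕ}
    {w : ℕ → ℝ} (hA : A = ⌊(1 - 1 / I) * M⌋₊) (hM : I ≤ M) (hw0 : ∀ l, 0 < w l)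
    (hn : (n : ℝ) ≤ M / (4 * I))
    (hsum : ∑ l ∈ Finset.range A, (min (γ l) I + 1 / (4 * I)) + ∑ l ∈ Finset.range n, w l ≤
      (1 - 1 / (4 * I)) * M)
    (hcount : (((Finset.range A).filter fun l => I < γ l).card : ℝ) ≤ 2 / I * A) :
    ∃ c : ℕ → ℝ, (∀ l, 0 < c l) ∧ ∑ l ∈ Finset.range M, c l = M ∧
      (((Finset.range M).filter fun l => 2 / I < |c l - γ l|).card : ℝ) ≤ 6 / I * M ∧
      (∀ F : ℝ → ℝ, (∀ x, x ≤ 2 * I → F x = 0) →
        ∑ l ∈ Finset.range M, F (c l) = ∑ l ∈ Finset.range n, F (w l)) ∧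
      ∀ l, c l ≤ 2 * I ∨ ∃ l', c l = w l' := by
  have hI0 : 0 < I := by linarith
  obtain ⟨u, hu⟩ : ∃ u : ℝ, u = 1 / I := ⟨_, rfl⟩
  have hIu : I * u = 1 := by rw [hu]; field_simp
  have hu0 : 0 < u := by rw [hu]; positivity
  have hu2 : u ≤ 1 / 2 := by rw [hu]; exact one_div_le_one_div_of_le (by norm_num) hI
  have e4 : 1 / (4 * I) = u / 4 := by rw [hu]; field_simp
  have e4' : (M : ℝ) / (4 * I) = M * (u / 4) := by rw [← e4]; ring
  have e5 : (2:ℝ) / I = 2 * u := by rw [hu]; ring
  have e6 : (6:ℝ) / I = 6 * u := by rw [hu]; ring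
  have hM0 : (0 : ℝ) < M := by linarith
  have hMu : 1 ≤ M * u := by
    have := mul_le_mul_of_nonneg_right hM hu0.le
    rwa [hIu] at this
  rw [← hu] at hA
  rw [e4] at hsum
  rw [e4'] at hn
  rw [e5] at hcount
  have hm'0 : 0 < (1 - u) * M := mul_pos (by linarith) hM0
  have hA1 : (A : ℝ) ≤ (1 - u) * M := by rw [hA]; exact Nat.floor_le hm'0.le
  have hA2 : (1 - u) * M < A + 1 := by rw [hA]; exact Nat.lt_floor_add_one _
  have hMu4 : 0 < M * (u / 4) := by positivity
  have hAn : A + n ≤ M := by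
    have h1 : ((A + n : ℕ) : ℝ) ≤ M := by
      push_cast
      linarith
    exact_mod_cast h1
  obtain ⟨r, hr⟩ : ∃ r, M = A + n + r := ⟨M - (A + n), by omega⟩
  have hrR : (r : ℝ) = M - A - n := by
    rw [hr]
    push_cast
    ring
  have hr1 : M * (3 * u / 4) ≤ r := by
    rw [hrR]
    linarith
  have hr0 : (0 : ℝ) < r := by
    have : 0 < M * (3 * u / 4) := by positivity
    linarith
  obtain ⟨B1, hB1⟩ : ∃ B1 : ℝ, B1 = ∑ l ∈ Finset.range A, (min (γ l) I + u / 4) := ⟨_, rfl⟩
  obtain ⟨B2, hB2⟩ : ∃ B2 : ℝ, B2 = ∑ l ∈ Finset.range n, w l := ⟨_, rfl⟩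
  have hB10 : 0 ≤ B1 := by
    rw [hB1]
    refine Finset.sum_nonneg fun l _ => ?_
    have := le_min (hγ l) hI0.le
    positivity
  have hB20 : 0 ≤ B2 := by
    rw [hB2]
    exact Finset.sum_nonneg fun l _ => (hw0 l).le
  rw [← hB1, ← hB2] at hsum
  obtain ⟨e, he⟩ : ∃ e : ℝ, e = (M - B1 - B2) / r := ⟨_, rfl⟩
  have he0 : 0 < e := by
    rw [he]
    refine div_pos ?_ hr0
    linarith
  have hre : r * e = M - B1 - B2 := by
    rw [he]
    field_simp
  have heI : e ≤ 2 * I := by
    rw [he, div_le_iff₀ hr0]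
    have h1 : 2 * I * (M * (3 * u / 4)) ≤ 2 * I * r := by gcongr
    have h2 : 2 * I * (M * (3 * u / 4)) = (I * u) * (3 / 2) * M := by ring
    rw [h2, hIu] at h1
    linarith
  have hbase0 : ∀ l, 0 < min (γ l) I + u / 4 := by
    intro l
    have := le_min (hγ l) hI0.le
    positivity
  have hbaseI : ∀ l, min (γ l) I + u / 4 ≤ 2 * I := by
    intro l
    have := min_le_right (γ l) I
    linarith
  refine ⟨insC A n (A + n + r) (fun l => min (γ l) I + u / 4) w e, ?_, ?_, ?_, ?_, ?_⟩
  · intro l
    unfold insC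
    split_ifs
    · exact hbase0 l
    · exact hw0 _
    · exact he0
    · exact one_pos
  · have h1 := insC_sum A n r (fun l => min (γ l) I + u / 4) w e (fun x => x)
    have h2 : ∑ l ∈ Finset.range M, insC A n (A + n + r) (fun l => min (γ l) I + u / 4) w e l =
        ∑ l ∈ Finset.range (A + n + r), insC A n (A + n + r) (fun l => min (γ l) I + u / 4) w e l := by
      rw [← hr]
    rw [h2, h1, ← hB1, ← hB2, hre]
    ring
  · rw [e5, e6]
    have h1 : (Finset.range M).filter (fun l => 2 * u <
        |insC A n (A + n + r) (fun l => min (γ l) I + u / 4) w e l - γ l|) ⊆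
        (Finset.range A).filter (fun l => I < γ l) ∪ Finset.Ico A M := by
      intro l hl
      rw [Finset.mem_filter, Finset.mem_range] at hl
      obtain ⟨hl1, hl2⟩ := hl
      rw [Finset.mem_union, Finset.mem_filter, Finset.mem_range, Finset.mem_Ico]
      by_cases hlA : l < A
      · left
        refine ⟨hlA, ?_⟩
        by_contra hc
        push Not at hc
        rw [insC, if_pos hlA, min_eq_left hc, add_sub_cancel_left, abs_of_pos (by positivity)] at hl2
        linarith
      · right
        omega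
    have h2 := Finset.card_le_card h1
    have h3 := h2.trans (Finset.card_union_le _ _)
    rw [Nat.card_Ico] at h3
    have h4 : (((Finset.range M).filter (fun l => 2 * u <
        |insC A n (A + n + r) (fun l => min (γ l) I + u / 4) w e l - γ l|)).card : ℝ) ≤
        ((Finset.range A).filter (fun l => I < γ l)).card + (M - A) := by
      have h5 : ((M - A : ℕ) : ℝ) = M - A := by
        rw [Nat.cast_sub (by omega)]
      rw [← h5]
      exact_mod_cast h3
    have h8 : 2 * u * A ≤ 2 * u * M := by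
      have h9 : (A : ℝ) ≤ M := by linarith
      gcongr
    linarith
  · intro F hF
    have h1 := insC_sum A n r (fun l => min (γ l) I + u / 4) w e F
    have h2 : ∑ l ∈ Finset.range M, F (insC A n (A + n + r) (fun l => min (γ l) I + u / 4) w e l) =
        ∑ l ∈ Finset.range (A + n + r),
          F (insC A n (A + n + r) (fun l => min (γ l) I + u / 4) w e l) := by
      rw [← hr]
    rw [h2, h1, hF e heI, Finset.sum_eq_zero fun l _ => hF _ (hbaseI l)]
    ring
  · intro l
    unfold insC
    split_ifs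
    · exact Or.inl (hbaseI l)
    · exact Or.inr ⟨_, rfl⟩
    · exact Or.inl heI
    · left; linarith

end Pool.Agent.H521.G
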