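import Pool.Agent.H521.G.Win2

open MeasureTheory Set Filter Topology
open scoped ENNReal NNReal ComplexConjugate Classical

namespace Pool.Agent.H521.G

/-- Data: bad unit cells with prescribed points. -/
structure IC (f : ℝ → ℝ) (x₀ : ℝ) where
  Bad : ℕ → Prop
  T : ℕ → Finset ℝ
  h0 : ¬ Bad 0
  hT : ∀ n, ∀ t ∈ T n, Bad n ∧ (n : ℝ) ≤ t ∧ t < n + 1
  hS : ∀ σ : ℝ, 1 / 2 < σ →
    Summable fun n : ℕ => (if Bad n then (1 : ℝ) + (T n).card else 0) * phi f x₀ n ^ (-σ)

namespace IC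

variable {f : ℝ → ℝ} {x₀ : ℝ} (I : IC f x₀)

/-- weights -/
noncomputable def c (n : ℕ) : ℝ := if I.Bad n then (1 : ℝ) + (I.T n).card else 0

theorem c_nonneg (n : ℕ) : 0 ≤ I.c n := by
  unfold c
  split_ifs <;> positivity

variable (hR : RDens f x₀)
include hR

theorem inf : (Set.ofPred fun n => ¬ I.Bad n).Infinite := by
  intro hfin
  obtain ⟨N, hN⟩ : ∃ N : ℕ, ∀ n, N ≤ n → I.Bad n := by
    obtain ⟨N, hN⟩ := hfin.bddAbove
    refine ⟨N + 1, fun n hn => ?_⟩
    by_contra hc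
    have : n ≤ N := hN hc
    omega
  have h1 := I.hS (3 / 4) (by norm_num)
  have h2 : Summable fun n : ℕ => ((n : ℝ) + 1)⁻¹ := by
    have h3 : Summable fun n : ℕ => (phi f x₀ ((n + N : ℕ) : ℝ)) ^ (-(3 / 4) : ℝ) := by
      have h4 := (summable_nat_add_iff N).2 h1
      refine Summable.of_nonneg_of_le (fun n => Real.rpow_nonneg (hR.phi_pos _).le _)
        (fun n => ?_) h4
      rw [if_pos (hN _ (Nat.le_add_left _ _))]
      have : 0 ≤ phi f x₀ ((n + N : ℕ) : ℝ) ^ (-(3 / 4) : ℝ) := Real.rpow_nonneg (hR.phi_pos _).le _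
      have h5 : (0 : ℝ) ≤ (I.T (n + N)).card := Nat.cast_nonneg _
      nlinarith
    refine Summable.of_nonneg_of_le (fun n => by positivity) (fun n => ?_)
      (h3.mul_left (x₀ + 8 + 8 * N))
    set x := phi f x₀ ((n + N : ℕ) : ℝ) with hx
    have hx1 := hR.phi_one_le ((n + N : ℕ) : ℝ)
    rw [← hx] at hx1
    have hxp : 0 < x := by linarith
    have h4 := hR.phi_sub_le (le_refl (0 : ℝ)) (Nat.cast_nonneg (n + N))
    rw [hR.phi_zero, ← hx, sub_zero] at h4
    have h5 := Real.log_le_rpow_div hxp.le (by norm_num : (0 : ℝ) < 1 / 4)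
    have h6 : x = x ^ (3 / 4 : ℝ) * x ^ (1 / 4 : ℝ) := by
      rw [← Real.rpow_add hxp]
      norm_num
    have h7 : 1 ≤ x ^ (1 / 4 : ℝ) := Real.one_le_rpow hx1 (by norm_num)
    have hx0 := hR.dens.hx₀
    have hnN : (0 : ℝ) ≤ ((n + N : ℕ) : ℝ) := Nat.cast_nonneg _
    have h8 : x ^ (3 / 4 : ℝ) * x ^ (1 / 4 : ℝ) ≤
        (x₀ + 8 * ((n + N : ℕ) : ℝ)) * x ^ (1 / 4 : ℝ) := by
      rw [← h6]
      have : x ≤ x₀ + ((n + N : ℕ) : ℝ) * (2 * (x ^ (1 / 4 : ℝ) / (1 / 4))) := by
        have h9 : ((n + N : ℕ) : ℝ) * (2 * Real.log x) ≤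
            ((n + N : ℕ) : ℝ) * (2 * (x ^ (1 / 4 : ℝ) / (1 / 4))) :=
          mul_le_mul_of_nonneg_left (by linarith) hnN
        linarith
      nlinarith
    have h9 : x ^ (3 / 4 : ℝ) ≤ x₀ + 8 * ((n + N : ℕ) : ℝ) :=
      le_of_mul_le_mul_right h8 (by linarith)
    have h10 : 0 < x ^ (3 / 4 : ℝ) := Real.rpow_pos_of_pos hxp _
    rw [Real.rpow_neg hxp.le, ← div_eq_mul_inv, le_div_iff₀ h10, inv_mul_le_iff₀ (by positivity)]
    push_cast at h9
    have hn0 : (0 : ℝ) ≤ n := Nat.cast_nonneg n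
    have hN0 : (0 : ℝ) ≤ N := Nat.cast_nonneg N
    nlinarith [mul_nonneg hn0 hN0, mul_nonneg hn0 (by linarith : (0:ℝ) ≤ x₀)]
  exact Real.not_summable_natCast_inv ((summable_nat_add_iff 1).1 (by simpa using h2))

omit hR in
/-- the `j`-th good cell -/
noncomputable def g (j : ℕ) : ℕ := Nat.nth (fun n => ¬ I.Bad n) j

omit hR in
theorem g_zero : I.g 0 = 0 := Nat.nth_zero_of_zero I.h0

theorem g_mono : StrictMono I.g := Nat.nth_strictMono (I.inf hR)

theorem g_good (j : ℕ) : ¬ I.Bad (I.g j) := Nat.nth_mem_of_infinite (I.inf hR) j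

omit hR in
theorem bad_of {j n : ℕ} (h1 : I.g j < n) (h2 : n < I.g (j + 1)) : I.Bad n := by
  by_contra hc
  have := Nat.le_nth_of_lt_nth_succ h2 hc
  unfold g at h1
  omega

/-- comparison in runs of bad cells -/
theorem run : ∃ C : ℝ, 0 < C ∧ ∀ j n, I.g j < n → n < I.g (j + 1) →
    phi f x₀ n ≤ C * phi f x₀ (I.g j) := by
  have hs := I.hS (3 / 4) (by norm_num)
  set S := ∑' n : ℕ, (if I.Bad n then (1 : ℝ) + (I.T n).card else 0) * phi f x₀ n ^ (-(3 / 4) : ℝ)
    with hS
  have hnn : ∀ n : ℕ, 0 ≤ (if I.Bad n then (1 : ℝ) + (I.T n).card else 0) *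
      phi f x₀ n ^ (-(3 / 4) : ℝ) := fun n =>
    mul_nonneg (I.c_nonneg n) (Real.rpow_nonneg (hR.phi_pos _).le _)
  have hS0 : 0 ≤ S := tsum_nonneg hnn
  refine ⟨2 + (32 * S) ^ 8, by positivity, fun j n h1 h2 => ?_⟩
  set x := phi f x₀ n with hx
  have hx1 : 1 ≤ x := hR.phi_one_le _
  have hxp : 0 < x := by linarith
  have hg1 : 1 ≤ phi f x₀ (I.g j) := hR.phi_one_le _
  -- the length of the run
  have hrun : ((n : ℝ) - I.g j) * x ^ (-(3 / 4) : ℝ) ≤ S := by
    have a1 : ∑ i ∈ Finset.Ioc (I.g j) n, (if I.Bad i then (1 : ℝ) + (I.T i).card else 0) *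
        phi f x₀ i ^ (-(3 / 4) : ℝ) ≤ S := hs.sum_le_tsum _ fun i _ => hnn i
    refine le_trans ?_ a1
    have a2 : ((n : ℝ) - I.g j) * x ^ (-(3 / 4) : ℝ) =
        (Finset.Ioc (I.g j) n).card • (x ^ (-(3 / 4) : ℝ)) := by
      rw [Nat.card_Ioc, nsmul_eq_mul, Nat.cast_sub h1.le]
    rw [a2]
    apply Finset.card_nsmul_le_sum
    intro i hi
    rw [Finset.mem_Ioc] at hi
    rw [if_pos (I.bad_of hi.1 (lt_of_le_of_lt hi.2 h2))]
    have a3 : x ^ (-(3 / 4) : ℝ) ≤ phi f x₀ i ^ (-(3 / 4) : ℝ) :=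
      Real.rpow_le_rpow_of_nonpos (hR.phi_pos _)
        (hR.phi_mono (by exact_mod_cast hi.2)) (by norm_num)
    have a4 : (0 : ℝ) ≤ (I.T i).card := Nat.cast_nonneg _
    have a5 : 0 ≤ phi f x₀ i ^ (-(3 / 4) : ℝ) := Real.rpow_nonneg (hR.phi_pos _).le _
    nlinarith
  have hlen : (n : ℝ) - I.g j ≤ S * x ^ (3 / 4 : ℝ) := by
    rw [Real.rpow_neg hxp.le, ← div_eq_mul_inv, div_le_iff₀ (Real.rpow_pos_of_pos hxp _)] at hrun
    exact hrun
  have hjn : (I.g j : ℝ) ≤ n := by exact_mod_cast h1.le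
  have h3 := hR.phi_sub_le (Nat.cast_nonneg (I.g j)) hjn
  rw [← hx] at h3
  have h4 := Real.log_le_rpow_div hxp.le (by norm_num : (0 : ℝ) < 1 / 8)
  have h5 : x - phi f x₀ (I.g j) ≤ 16 * S * x ^ (7 / 8 : ℝ) := by
    have e : x ^ (3 / 4 : ℝ) * x ^ (1 / 8 : ℝ) = x ^ (7 / 8 : ℝ) := by
      rw [← Real.rpow_add hxp]; norm_num
    calc x - phi f x₀ (I.g j) ≤ ((n : ℝ) - I.g j) * (2 * Real.log x) := h3
      _ ≤ (S * x ^ (3 / 4 : ℝ)) * (2 * (x ^ (1 / 8 : ℝ) / (1 / 8))) := by
          apply mul_le_mul hlen (by linarith) _ (by positivity)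
          have := Real.log_nonneg hx1
          positivity
      _ = 16 * S * (x ^ (3 / 4 : ℝ) * x ^ (1 / 8 : ℝ)) := by ring
      _ = _ := by rw [e]
  rcases le_or_gt (32 * S) (x ^ (1 / 8 : ℝ)) with h6 | h6
  · have e : x ^ (7 / 8 : ℝ) * x ^ (1 / 8 : ℝ) = x := by
      rw [← Real.rpow_add hxp]; norm_num
    have h7 : 0 ≤ x ^ (7 / 8 : ℝ) := by positivity
    have h8 : 32 * S * x ^ (7 / 8 : ℝ) ≤ x := by
      calc 32 * S * x ^ (7 / 8 : ℝ) ≤ x ^ (1 / 8 : ℝ) * x ^ (7 / 8 : ℝ) :=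
            mul_le_mul_of_nonneg_right h6 h7
        _ = x := by rw [mul_comm]; exact e
    have h9 : 0 ≤ (32 * S) ^ 8 * phi f x₀ (I.g j) := by positivity
    linarith
  · have h7 : x ≤ (32 * S) ^ 8 := by
      have e : x = (x ^ (1 / 8 : ℝ)) ^ (8 : ℕ) := by
        rw [← Real.rpow_natCast, ← Real.rpow_mul hxp.le]
        norm_num
      rw [e]
      exact pow_le_pow_left₀ (by positivity) h6.le 8
    have h8 : (32 * S) ^ 8 * 1 ≤ (32 * S) ^ 8 * phi f x₀ (I.g j) :=
      mul_le_mul_of_nonneg_left hg1 (by positivity)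
    linarith

omit hR in
/-- the prescribed points in the window -/
noncomputable def TT (j : ℕ) : Finset ℝ := (Finset.Ioo (I.g j) (I.g (j + 1))).biUnion I.T

omit hR in
theorem mem_TT {j : ℕ} {t : ℝ} (h : t ∈ I.TT j) : ∃ n, I.g j < n ∧ n < I.g (j + 1) ∧ t ∈ I.T n := by
  unfold TT at h
  rw [Finset.mem_biUnion] at h
  obtain ⟨n, hn, ht⟩ := h
  rw [Finset.mem_Ioo] at hn
  exact ⟨n, hn.1, hn.2, ht⟩

/-- The windows. -/
noncomputable def toW : Wdata f x₀ where
  Y j := I.g j
  w j := (I.g (j + 1) : ℝ) - I.g j - 1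
  r j := (I.TT j).card
  t j l := if h : l < (I.TT j).card then (I.TT j).orderEmbOfFin rfl ⟨l, h⟩ else 0
  Y0 := by rw [I.g_zero]; simp
  Ys j := by ring
  w0 j := by
    have : I.g j + 1 ≤ I.g (j + 1) := I.g_mono hR (Nat.lt_succ_self j)
    have h2 : ((I.g j : ℝ) + 1) ≤ I.g (j + 1) := by exact_mod_cast this
    linarith
  tl j l hl := by
    rw [dif_pos hl]
    obtain ⟨n, h1, h2, h3⟩ := I.mem_TT ((I.TT j).orderEmbOfFin_mem rfl ⟨l, hl⟩)
    have h4 := (I.hT n _ h3).2.1
    have h5 : ((I.g j : ℝ) + 1) ≤ n := by exact_mod_cast h1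
    linarith
  tu j l hl := by
    rw [dif_pos hl]
    obtain ⟨n, h1, h2, h3⟩ := I.mem_TT ((I.TT j).orderEmbOfFin_mem rfl ⟨l, hl⟩)
    have h4 := (I.hT n _ h3).2.2
    have h5 : ((n : ℝ) + 1) ≤ I.g (j + 1) := by exact_mod_cast h2
    linarith
  tm j l hl := by
    rw [dif_pos hl, dif_pos (by omega)]
    apply ((I.TT j).orderEmbOfFin rfl).strictMono
    exact Fin.mk_lt_mk.2 (Nat.lt_succ_self l)
  hS σ hσ := by
    obtain ⟨C, hC0, hC⟩ := I.run hR
    have hs := I.hS σ hσ
    have hnn : ∀ n : ℕ, 0 ≤ (if I.Bad n then (1 : ℝ) + (I.T n).card else 0) *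
        phi f x₀ n ^ (-σ) := fun n =>
      mul_nonneg (I.c_nonneg n) (Real.rpow_nonneg (hR.phi_pos _).le _)
    have hw0 : ∀ j, 0 ≤ (I.g (j + 1) : ℝ) - I.g j - 1 := fun j => by
      have : I.g j + 1 ≤ I.g (j + 1) := I.g_mono hR (Nat.lt_succ_self j)
      have h2 : ((I.g j : ℝ) + 1) ≤ I.g (j + 1) := by exact_mod_cast this
      linarith
    -- one block
    have hblock : ∀ j, ((I.g (j + 1) : ℝ) - I.g j - 1 + (I.TT j).card) *
        phi f x₀ (I.g j) ^ (-σ) ≤ C ^ σ * ∑ n ∈ Finset.Ioo (I.g j) (I.g (j + 1)),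
          (if I.Bad n then (1 : ℝ) + (I.T n).card else 0) * phi f x₀ n ^ (-σ) := by
      intro j
      have a1 : ((I.g (j + 1) : ℝ) - I.g j - 1 + (I.TT j).card) ≤
          ∑ n ∈ Finset.Ioo (I.g j) (I.g (j + 1)), ((1 : ℝ) + (I.T n).card) := by
        rw [Finset.sum_add_distrib]
        apply add_le_add
        · rw [Finset.sum_const, nsmul_eq_mul, mul_one, Nat.card_Ioo]
          have : I.g j + 1 ≤ I.g (j + 1) := I.g_mono hR (Nat.lt_succ_self j)
          rw [Nat.sub_sub, Nat.cast_sub this]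
          push_cast
          linarith
        · have : (I.TT j).card ≤ ∑ n ∈ Finset.Ioo (I.g j) (I.g (j + 1)), (I.T n).card :=
            Finset.card_biUnion_le
          exact_mod_cast this
      have hp : 0 ≤ phi f x₀ (I.g j) ^ (-σ) := Real.rpow_nonneg (hR.phi_pos _).le _
      refine (mul_le_mul_of_nonneg_right a1 hp).trans ?_
      rw [Finset.sum_mul, Finset.mul_sum]
      apply Finset.sum_le_sum
      intro n hn
      rw [Finset.mem_Ioo] at hn
      rw [if_pos (I.bad_of hn.1 hn.2)]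
      have a2 : phi f x₀ (I.g j) ^ (-σ) ≤ C ^ σ * phi f x₀ n ^ (-σ) := by
        have a3 := hC j n hn.1 hn.2
        have a4 : (phi f x₀ n / C) ≤ phi f x₀ (I.g j) := by
          rw [div_le_iff₀ hC0]
          linarith
        calc phi f x₀ (I.g j) ^ (-σ) ≤ (phi f x₀ n / C) ^ (-σ) :=
              Real.rpow_le_rpow_of_nonpos (div_pos (hR.phi_pos _) hC0) a4 (by linarith)
          _ = _ := by
              rw [Real.div_rpow (hR.phi_pos _).le hC0.le, Real.rpow_neg hC0.le, div_inv_eq_mul,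
                mul_comm]
      calc ((1 : ℝ) + (I.T n).card) * phi f x₀ (I.g j) ^ (-σ) ≤
            (1 + (I.T n).card) * (C ^ σ * phi f x₀ n ^ (-σ)) :=
            mul_le_mul_of_nonneg_left a2 (by positivity)
        _ = _ := by ring
    refine summable_of_sum_range_le (c := C ^ σ * ∑' n : ℕ,
      (if I.Bad n then (1 : ℝ) + (I.T n).card else 0) * phi f x₀ n ^ (-σ)) (fun j => ?_)
      (fun J => ?_)
    · exact mul_nonneg (add_nonneg (hw0 j) (Nat.cast_nonneg _))
        (Real.rpow_nonneg (hR.phi_pos _).le _)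
    · refine (Finset.sum_le_sum fun j _ => hblock j).trans ?_
      rw [← Finset.mul_sum]
      apply mul_le_mul_of_nonneg_left _ (by positivity)
      have hdisj : Set.PairwiseDisjoint (Finset.range J : Set ℕ)
          fun j => Finset.Ioo (I.g j) (I.g (j + 1)) := by
        intro i _ j _ hij
        rw [Function.onFun, Finset.disjoint_left]
        intro n h1 h2
        rw [Finset.mem_Ioo] at h1 h2
        rcases lt_or_gt_of_ne hij with h | h
        · have := (I.g_mono hR).monotone (Nat.succ_le_of_lt h)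
          have e : i.succ = i + 1 := rfl
          rw [e] at this
          omega
        · have := (I.g_mono hR).monotone (Nat.succ_le_of_lt h)
          have e : j.succ = j + 1 := rfl
          rw [e] at this
          omega
      rw [← Finset.sum_biUnion hdisj]
      exact hs.sum_le_tsum _ fun n _ => hnn n

/-- **Systems with prescribed bad cells.** -/
theorem system {Z : Multiset ℂ} (hZ : ∀ ρ ∈ Z, ρ.re < 1) (hZc : Z.map conj = Z)
    (hf : f = fZ Z) : ∃ y : ℕ → ℝ, StrictMono y ∧ (∀ k, 0 ≤ y k) ∧ Tendsto y atTop atTop ∧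
      Sys Z (fun k => phi f x₀ (y k)) ∧
      (∀ n, ¬ I.Bad n → ∃ k, ((n : ℝ) ≤ y k ∧ y k < n + 1) ∧
        ∀ k', (n : ℝ) ≤ y k' → y k' < n + 1 → k' = k) ∧
      ∀ n, I.Bad n → ∀ t, (n : ℝ) ≤ t → t < n + 1 → ((∃ k, y k = t) ↔ t ∈ I.T n) := by
  obtain ⟨V, hV, hsys⟩ := (I.toW hR).system hR hZ hZc hf
  set W := I.toW hR with hW
  have hY : ∀ j, W.Y j = I.g j := fun j => rfl
  refine ⟨W.yk V, W.yk_strictMono hV, W.yk_nonneg hV, W.yk_tendsto hV, hsys, ?_, ?_⟩
  · intro n hn
    obtain ⟨j, hj⟩ : ∃ j, I.g j = n := ⟨Nat.count (fun n => ¬ I.Bad n) n, Nat.nth_count hn⟩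
    refine ⟨KK W.n j, ?_, fun k' h1 h2 => ?_⟩
    · rw [W.yk_zero, hY, hj]
      have := hV j
      exact ⟨by linarith [this.1], by linarith [this.2]⟩
    · have hlo := W.Y_le_yk hV k'
      have hhi := W.yk_lt_Y hV k'
      set j' := blk W.n k' with hj'
      have hjj : j' = j := by
        by_contra hne
        rcases lt_or_gt_of_ne hne with h | h
        · have h3 := W.Y_mono (Nat.succ_le_of_lt h)
          have e : j'.succ = j' + 1 := rfl
          rw [e, hY j, hj] at h3
          linarith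
        · have h3 := W.Y_mono (Nat.succ_le_of_lt h)
          have h4 : I.g j + 1 ≤ I.g (j + 1) := I.g_mono hR (Nat.lt_succ_self j)
          have h5 : ((I.g j : ℝ) + 1) ≤ I.g (j + 1) := by exact_mod_cast h4
          have e : j.succ = j + 1 := rfl
          rw [e, hY (j + 1)] at h3
          rw [hj] at h5
          linarith
      by_cases h0 : pos W.n k' = 0
      · have := KK_add_pos W.n_pos k'
        rw [h0, add_zero, ← hj', hjj] at this
        exact this.symm
      · exfalso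
        have hl := pos_lt W.n_pos k'
        rw [W.n_eq] at hl
        have h3 : W.yk V k' = W.t j' (pos W.n k' - 1) := by
          unfold Wdata.yk
          rw [if_neg h0]
        have h4 := W.tl j' (pos W.n k' - 1) (by rw [hj']; omega)
        rw [← h3, hjj, hY, hj] at h4
        linarith
  · intro n hn t ht1 ht2
    constructor
    · rintro ⟨k, hk⟩
      have hlo := W.Y_le_yk hV k
      have hhi := W.yk_lt_Y hV k
      set j := blk W.n k with hj
      rw [hY] at hlo hhi
      rw [hk] at hlo hhi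
      have a1 : I.g j < n := by
        have b1 : (I.g j : ℝ) < n + 1 := by linarith
        have b2 : I.g j < n + 1 := by exact_mod_cast b1
        have b3 : I.g j ≠ n := fun h => I.g_good hR j (h ▸ hn)
        omega
      have a2 : n < I.g (j + 1) := by
        have b1 : (n : ℝ) < I.g (j + 1) := by linarith
        exact_mod_cast b1
      have a3 : (I.g j : ℝ) + 1 ≤ n := by exact_mod_cast a1
      by_cases h0 : pos W.n k = 0
      · exfalso
        unfold Wdata.yk at hk
        rw [if_pos h0, ← hj, hY] at hk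
        have := (hV j).2
        linarith
      · have hl := pos_lt W.n_pos k
        rw [W.n_eq] at hl
        have hr : pos W.n k - 1 < (I.TT j).card := by
          have e : W.r j = (I.TT j).card := rfl
          rw [← hj, e] at hl
          omega
        unfold Wdata.yk at hk
        rw [if_neg h0, ← hj] at hk
        have e : W.t j (pos W.n k - 1) = if h : pos W.n k - 1 < (I.TT j).card then
          (I.TT j).orderEmbOfFin rfl ⟨pos W.n k - 1, h⟩ else 0 := rfl
        rw [e, dif_pos hr] at hk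
        obtain ⟨n', c1, c2, c3⟩ := I.mem_TT ((I.TT j).orderEmbOfFin_mem rfl ⟨_, hr⟩)
        rw [hk] at c3
        obtain ⟨-, d1, d2⟩ := I.hT n' t c3
        have : n' = n := by
          have e1 : (n' : ℝ) < n + 1 := by linarith
          have e2 : (n : ℝ) < n' + 1 := by linarith
          have e3 : n' < n + 1 := by exact_mod_cast e1
          have e4 : n < n' + 1 := by exact_mod_cast e2
          omega
        rw [this] at c3
        exact c3
    · intro ht
      -- find the block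
      have hex : ∃ j, n < I.g (j + 1) := by
        refine ⟨n, ?_⟩
        have := (I.g_mono hR).le_apply (x := n + 1)
        omega
      set j := Nat.find hex with hj
      have a2 : n < I.g (j + 1) := Nat.find_spec hex
      have a1 : I.g j < n := by
        have hne : I.g j ≠ n := fun h => I.g_good hR j (h ▸ hn)
        have hle : I.g j ≤ n := by
          rcases Nat.eq_zero_or_pos j with h | h
          · rw [h, I.g_zero]; exact Nat.zero_le n
          · have := Nat.find_min hex (Nat.sub_lt h one_pos)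
            have e : j - 1 + 1 = j := by omega
            rw [e] at this
            omega
        omega
      have hmem : t ∈ I.TT j := by
        unfold TT
        rw [Finset.mem_biUnion]
        exact ⟨n, Finset.mem_Ioo.2 ⟨a1, a2⟩, ht⟩
      have hmem' : t ∈ (I.TT j : Set ℝ) := hmem
      rw [← (I.TT j).range_orderEmbOfFin rfl] at hmem'
      obtain ⟨⟨l, hl⟩, hlx⟩ := hmem'
      have hr : l < W.r j := hl
      refine ⟨KK W.n j + (l + 1), ?_⟩
      rw [W.yk_succ V hr]
      have e : W.t j l = if h : l < (I.TT j).card then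
          (I.TT j).orderEmbOfFin rfl ⟨l, h⟩ else 0 := rfl
      rw [e, dif_pos hl]
      exact hlx

end IC

end Pool.Agent.H521.G
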