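import Pool.Agent.H521.G.GapAn

open MeasureTheory Set Filter Topology
open scoped ENNReal NNReal ComplexConjugate

namespace Pool.Agent.H521.G

/-! ### transfer of limits along filters -/

theorem tendsto_of_rel {F : Filter ℕ} {G r : ℕ → ℝ}
    (hrel : ∀ ε : ℝ, 0 < ε → ∀ᶠ k in F, |G k - r k| ≤ ε * r k) {x : ℝ}
    (hG : Tendsto G F (𝓝 x)) : Tendsto r F (𝓝 x) := by
  -- r bounded eventually by B
  have hB : ∀ᶠ k in F, |r k| ≤ 2 * (|x| + 1) := by
    have h1 : ∀ᶠ k in F, |G k| ≤ |x| + 1 := by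
      have := (hG.abs).eventually_le_const (by linarith : |x| < |x| + 1)
      exact this
    filter_upwards [h1, hrel (1 / 2) (by norm_num)] with k hk1 hk2
    have hr0 : 0 ≤ r k := by
      have := (abs_nonneg (G k - r k)).trans hk2
      linarith
    rw [abs_of_nonneg hr0]
    have := (abs_le.1 hk2).1
    have := le_abs_self (G k)
    linarith
  have h0 : Tendsto (fun k => G k - r k) F (𝓝 0) := by
    rw [Metric.tendsto_nhds]
    intro ε hε
    have hpos : 0 < 2 * (|x| + 1) := by positivity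
    filter_upwards [hB, hrel (ε / (2 * (2 * (|x| + 1)))) (by positivity)] with k hk1 hk2
    rw [Real.dist_eq, sub_zero]
    refine lt_of_le_of_lt hk2 ?_
    calc ε / (2 * (2 * (|x| + 1))) * r k ≤ ε / (2 * (2 * (|x| + 1))) * (2 * (|x| + 1)) :=
          mul_le_mul_of_nonneg_left ((le_abs_self _).trans hk1) (by positivity)
      _ = ε / 2 := by field_simp
      _ < ε := by linarith
  have := hG.sub h0
  simpa using this

theorem tendsto_top_of_rel {F : Filter ℕ} {G r : ℕ → ℝ}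
    (hrel : ∀ ε : ℝ, 0 < ε → ∀ᶠ k in F, |G k - r k| ≤ ε * r k)
    (hG : Tendsto G F atTop) : Tendsto r F atTop := by
  have h1 : Tendsto (fun k => G k / 2) F atTop := hG.atTop_div_const (by norm_num)
  refine tendsto_atTop_mono' F ?_ h1
  filter_upwards [hrel 1 one_pos] with k hk
  have := (abs_le.1 hk).2
  linarith

theorem ofReal_tendsto_of_rel {F : Filter ℕ} {G r e : ℕ → ℝ} {a : ℕ → ℝ≥0∞} {s : ℝ≥0∞}
    {κ : ℕ → ℕ} (hκ : Tendsto κ F atTop)
    (hrel : ∀ ε : ℝ, 0 < ε → ∀ᶠ k in F, |G k - r k| ≤ ε * r k)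
    (he : ∀ᶠ k in F, |e k - (min (a k) (κ k + 1 : ℕ)).toReal| ≤ 1 / ((κ k : ℝ) + 1))
    (hGe : Tendsto (fun k => G k - e k) F (𝓝 0)) (ha : Tendsto a F (𝓝 s)) :
    Tendsto (fun k => ENNReal.ofReal (r k)) F (𝓝 s) := by
  have h1 : Tendsto (fun k => 1 / ((κ k : ℝ) + 1)) F (𝓝 0) := by
    apply Tendsto.div_atTop tendsto_const_nhds
    exact tendsto_atTop_add_const_right _ _ (tendsto_natCast_atTop_atTop.comp hκ)
  have h2 : Tendsto (fun k => e k - (min (a k) (κ k + 1 : ℕ)).toReal) F (𝓝 0) :=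
    squeeze_zero_norm' he h1
  have h3 : Tendsto (fun k => G k - (min (a k) (κ k + 1 : ℕ)).toReal) F (𝓝 0) := by
    have := hGe.add h2
    simpa using this
  have h4 : Tendsto (fun k => ((κ k + 1 : ℕ) : ℝ≥0∞)) F (𝓝 ∞) :=
    ENNReal.tendsto_nat_nhds_top.comp (tendsto_atTop_mono (fun k => Nat.le_succ (κ k)) hκ)
  have h5 : Tendsto (fun k => min (a k) (κ k + 1 : ℕ)) F (𝓝 s) := by
    have := ha.min h4
    simpa using this
  by_cases hs : s = ∞
  · subst hs
    have h6 : Tendsto (fun k => (min (a k) (κ k + 1 : ℕ)).toReal) F atTop := by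
      rw [tendsto_atTop]
      intro b
      have h7 := h5.eventually (lt_mem_nhds (ENNReal.ofReal_lt_top (r := b)))
      filter_upwards [h7] with k hk
      have hfin : min (a k) (κ k + 1 : ℕ) ≠ ∞ :=
        ne_top_of_le_ne_top (ENNReal.natCast_ne_top _) (min_le_right _ _)
      exact (ENNReal.ofReal_le_iff_le_toReal hfin).1 hk.le
    have h7 : Tendsto G F atTop := by
      have := h3.add_atTop h6
      simpa using this
    exact ENNReal.tendsto_ofReal_atTop.comp (tendsto_top_of_rel hrel h7)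
  · have h6 := (ENNReal.tendsto_toReal hs).comp h5
    have h7 : Tendsto G F (𝓝 s.toReal) := by
      have := h3.add h6
      simpa using this
    have h8 := ENNReal.tendsto_ofReal (tendsto_of_rel hrel h7)
    rwa [ENNReal.ofReal_toReal hs] at h8

/-! ### necessity -/

section necessity

variable {Z : Multiset ℂ} {p : ℕ → ℝ}

theorem growth_contra_up {F : ℕ → ℝ} (hF : Tendsto (fun n : ℕ => (n : ℝ) / F n) atTop (𝓝 1))
    {η : ℝ} (hη : 0 < η) (hη1 : η ≤ 1) (h : ∀ᶠ n in atTop, 1 + η ≤ F (n + 1) - F n) : False := by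
  obtain ⟨K, hK⟩ := eventually_atTop.1 h
  have h1 : ∀ n, F K + (1 + η) * n ≤ F (K + n) := by
    intro n
    induction n with
    | zero => simp
    | succ n ih =>
      have := hK (K + n) (by omega)
      have e : K + (n + 1) = K + n + 1 := rfl
      rw [e]
      push_cast
      linarith
  have h2 : ∀ᶠ n : ℕ in atTop, 1 - η / 4 ≤ (n : ℝ) / F n :=
    hF.eventually_const_le (by linarith)
  have h3 : ∀ᶠ n : ℕ in atTop, 0 < F n := by
    have h4 : ∀ᶠ n : ℕ in atTop, 1 / 2 < (n : ℝ) / F n := hF.eventually_const_lt (by norm_num)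
    filter_upwards [h4] with n hn
    by_contra hc
    push Not at hc
    have : (n : ℝ) / F n ≤ 0 := div_nonpos_of_nonneg_of_nonpos (Nat.cast_nonneg _) hc
    linarith
  obtain ⟨N, hN⟩ := eventually_atTop.1 (h2.and h3)
  obtain ⟨n, hn⟩ := exists_nat_gt ((4 * (K + |F K| + 1)) / η)
  set M := max n N with hM
  have hMn : (n : ℝ) ≤ M := by exact_mod_cast le_max_left n N
  have h4 := hN (K + M) (by have := le_max_right n N; omega)
  have h5 := h1 M
  obtain ⟨h6, h7⟩ := h4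
  rw [le_div_iff₀ h7] at h6
  push_cast at h6
  rw [div_lt_iff₀ hη] at hn
  have h8 : 4 * (K + |F K| + 1) < M * η := by nlinarith
  have h9 := neg_abs_le (F K)
  have hM0 : (0 : ℝ) ≤ M := Nat.cast_nonneg _
  have hK0 : (0 : ℝ) ≤ K := Nat.cast_nonneg _
  have h10 : (1 - η / 4) * (F K + (1 + η) * M) ≤ K + M :=
    (mul_le_mul_of_nonneg_left h5 (by linarith)).trans h6
  have h11 : (1 - η / 4) * F K ≥ -|F K| := by
    have : (1 - η / 4) * F K ≥ (1 - η / 4) * (-|F K|) :=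
      mul_le_mul_of_nonneg_left h9 (by linarith)
    have : (1 - η / 4) * |F K| ≤ |F K| := by nlinarith [abs_nonneg (F K)]
    linarith
  have h12 : (1 - η / 4) * (1 + η) ≥ 1 + η / 2 := by nlinarith
  nlinarith [mul_le_mul_of_nonneg_right h12 hM0]

theorem growth_contra_down {F : ℕ → ℝ} (hF : Tendsto (fun n : ℕ => (n : ℝ) / F n) atTop (𝓝 1))
    {η : ℝ} (hη : 0 < η) (hη1 : η ≤ 1) (h : ∀ᶠ n in atTop, F (n + 1) - F n ≤ 1 - η) : False := by
  obtain ⟨K, hK⟩ := eventually_atTop.1 h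
  have h1 : ∀ n, F (K + n) ≤ F K + (1 - η) * n := by
    intro n
    induction n with
    | zero => simp
    | succ n ih =>
      have := hK (K + n) (by omega)
      have e : K + (n + 1) = K + n + 1 := rfl
      rw [e]
      push_cast
      linarith
  have h2 : ∀ᶠ n : ℕ in atTop, (n : ℝ) / F n ≤ 1 + η / 4 :=
    hF.eventually_le_const (by linarith)
  have h3 : ∀ᶠ n : ℕ in atTop, 0 < F n := by
    have h4 : ∀ᶠ n : ℕ in atTop, 1 / 2 < (n : ℝ) / F n := hF.eventually_const_lt (by norm_num)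
    filter_upwards [h4] with n hn
    by_contra hc
    push Not at hc
    have : (n : ℝ) / F n ≤ 0 := div_nonpos_of_nonneg_of_nonpos (Nat.cast_nonneg _) hc
    linarith
  obtain ⟨N, hN⟩ := eventually_atTop.1 (h2.and h3)
  obtain ⟨n, hn⟩ := exists_nat_gt ((4 * (K + 2 * |F K| + 1)) / η)
  set M := max n N with hM
  have hMn : (n : ℝ) ≤ M := by exact_mod_cast le_max_left n N
  have h4 := hN (K + M) (by have := le_max_right n N; omega)
  have h5 := h1 M
  obtain ⟨h6, h7⟩ := h4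
  rw [div_le_iff₀ h7] at h6
  push_cast at h6
  rw [div_lt_iff₀ hη] at hn
  have h8 : 4 * (K + 2 * |F K| + 1) < M * η := by nlinarith
  have h9 := le_abs_self (F K)
  have hM0 : (0 : ℝ) ≤ M := Nat.cast_nonneg _
  have hK0 : (0 : ℝ) ≤ K := Nat.cast_nonneg _
  have h10 : (K : ℝ) + M ≤ (1 + η / 4) * (F K + (1 - η) * M) :=
    h6.trans (mul_le_mul_of_nonneg_left h5 (by linarith))
  have h11 : (1 + η / 4) * F K ≤ 2 * |F K| := by
    have : (1 + η / 4) * F K ≤ (1 + η / 4) * |F K| :=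
      mul_le_mul_of_nonneg_left h9 (by linarith)
    have : (1 + η / 4) * |F K| ≤ 2 * |F K| := by nlinarith [abs_nonneg (F K)]
    linarith
  have h12 : (1 + η / 4) * (1 - η) ≤ 1 - η / 2 := by nlinarith
  nlinarith [mul_le_mul_of_nonneg_right h12 hM0]

theorem frequently_le (hZ : ∀ ρ ∈ Z, ρ.re < 1) (hp : StrictMono p) (hpt : Tendsto p atTop atTop)
    (hpnt : ∀ ε : ℝ, 0 < ε → ∃ C : ℝ, ∀ x : ℝ, 2 ≤ x →
        |(countPr p x : ℝ) - mainTerm Z x| ≤ C * x ^ (1 / 2 + ε)) {ε : ℝ} (hε : 0 < ε)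
    (hε1 : ε ≤ 1) : ∃ᶠ k in atTop, (p (k + 1) - p k) / Real.log (p k) ≤ 1 + ε := by
  obtain ⟨x₀, hR⟩ := exists_RDens hZ
  have hF := F_div_n hZ hR hp hpt hpnt
  intro hcon
  apply growth_contra_up hF (η := ε / 4) (by positivity) (by linarith)
  have hbig : ∀ᶠ a : ℝ in atTop, 2 * (2 * Real.log (2 * a)) ≤ a := by
    have h1 : ∀ᶠ a : ℝ in atTop, Real.log a ≤ (1 / 8) * a := by
      have := Real.isLittleO_log_id_atTop.bound (c := 1 / 8) (by norm_num)
      filter_upwards [this, eventually_ge_atTop 1] with u hu hu1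
      rw [Real.norm_eq_abs, abs_of_nonneg (Real.log_nonneg hu1)] at hu
      simpa only [id, Real.norm_eq_abs, abs_of_nonneg (by linarith : 0 ≤ u)] using hu
    filter_upwards [h1, eventually_ge_atTop 8] with a ha ha8
    rw [Real.log_mul (by norm_num) (by linarith)]
    linarith [Real.log_two_lt_d9]
  filter_upwards [hpt.eventually (transfer hZ hR (ε := ε / 4) (by positivity)), hcon,
    hpt.eventually hbig, hpt.eventually_ge_atTop 8] with k hk1 hk2 hk3 hk4
  obtain ⟨hk0, hk1⟩ := hk1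
  push Not at hk2
  have hab := (hp (Nat.lt_succ_self k)).le
  have hl := hR.hlog _ hk0
  rcases le_or_gt (p (k + 1)) (2 * p k) with h | h
  · have h1 := (abs_le.1 (hk1 _ hab h)).1
    rw [lt_div_iff₀ (by linarith)] at hk2
    have h2 : (1 - ε / 4) * ((1 + ε) * Real.log (p k)) ≤
        (Fp (fZ Z) x₀ (p (k + 1)) - Fp (fZ Z) x₀ (p k)) * Real.log (p k) := by
      have : (1 - ε / 4) * ((1 + ε) * Real.log (p k)) ≤ (1 - ε / 4) * (p (k + 1) - p k) :=
        mul_le_mul_of_nonneg_left hk2.le (by linarith)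
      linarith
    have h3 : (1 + ε / 4) ≤ (1 - ε / 4) * (1 + ε) := by nlinarith
    have h4 : (1 + ε / 4) * Real.log (p k) ≤
        (Fp (fZ Z) x₀ (p (k + 1)) - Fp (fZ Z) x₀ (p k)) * Real.log (p k) := by
      have := mul_le_mul_of_nonneg_right h3 (by linarith : 0 ≤ Real.log (p k))
      linarith
    exact le_of_mul_le_mul_right h4 (by linarith)
  · have h1 := hR.F_sub_ge hk0 (by linarith : p k ≤ 2 * p k)
    have h2 := hR.F_mono (by linarith : x₀ ≤ 2 * p k) h.le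
    have h3 : 0 < Real.log (2 * p k) := Real.log_pos (by linarith)
    have h4 : 2 ≤ (2 * p k - p k) / (2 * Real.log (2 * p k)) := by
      rw [le_div_iff₀ (by positivity)]
      linarith
    linarith

theorem frequently_ge (hZ : ∀ ρ ∈ Z, ρ.re < 1) (hp : StrictMono p) (hpt : Tendsto p atTop atTop)
    (hpnt : ∀ ε : ℝ, 0 < ε → ∃ C : ℝ, ∀ x : ℝ, 2 ≤ x →
        |(countPr p x : ℝ) - mainTerm Z x| ≤ C * x ^ (1 / 2 + ε)) {ε : ℝ} (hε : 0 < ε)
    (hε1 : ε ≤ 1) : ∃ᶠ k in atTop, 1 - ε ≤ (p (k + 1) - p k) / Real.log (p k) := by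
  obtain ⟨x₀, hR⟩ := exists_RDens hZ
  have hF := F_div_n hZ hR hp hpt hpnt
  intro hcon
  apply growth_contra_down hF (η := ε / 2) (by positivity) (by linarith)
  filter_upwards [hpt.eventually (transfer hZ hR (ε := ε / 4) (by positivity)), hcon,
    hpt.eventually_ge_atTop 8] with k hk1 hk2 hk4
  obtain ⟨hk0, hk1⟩ := hk1
  push Not at hk2
  have hab := (hp (Nat.lt_succ_self k)).le
  have hl := hR.hlog _ hk0
  have hll : Real.log (p k) ≤ p k := by
    have := Real.log_le_sub_one_of_pos (by linarith : 0 < p k)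
    linarith
  rw [div_lt_iff₀ (by linarith)] at hk2
  have h : p (k + 1) ≤ 2 * p k := by nlinarith
  have h1 := (abs_le.1 (hk1 _ hab h)).2
  have h2 : (Fp (fZ Z) x₀ (p (k + 1)) - Fp (fZ Z) x₀ (p k)) * Real.log (p k) ≤
      (1 + ε / 4) * ((1 - ε) * Real.log (p k)) := by
    have : (1 + ε / 4) * (p (k + 1) - p k) ≤ (1 + ε / 4) * ((1 - ε) * Real.log (p k)) :=
      mul_le_mul_of_nonneg_left hk2.le (by linarith)
    linarith
  have h3 : (1 + ε / 4) * (1 - ε) ≤ 1 - ε / 2 := by nlinarith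
  have h4 : (Fp (fZ Z) x₀ (p (k + 1)) - Fp (fZ Z) x₀ (p k)) * Real.log (p k) ≤
      (1 - ε / 2) * Real.log (p k) := by
    have := mul_le_mul_of_nonneg_right h3 (by linarith : 0 ≤ Real.log (p k))
    linarith
  exact le_of_mul_le_mul_right h4 (by linarith)

/-- The set of limit points of the normalised gaps. -/
def limitSet (p : ℕ → ℝ) : Set ℝ≥0∞ :=
  {a | MapClusterPt a atTop fun n => ENNReal.ofReal ((p (n + 1) - p n) / Real.log (p n))}

theorem isClosed_limitSet (p : ℕ → ℝ) : IsClosed (limitSet p) := isClosed_setOfPred_clusterPt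

theorem limitSet_le_one (hZ : ∀ ρ ∈ Z, ρ.re < 1) (hp : StrictMono p)
    (hpt : Tendsto p atTop atTop)
    (hpnt : ∀ ε : ℝ, 0 < ε → ∃ C : ℝ, ∀ x : ℝ, 2 ≤ x →
        |(countPr p x : ℝ) - mainTerm Z x| ≤ C * x ^ (1 / 2 + ε)) :
    ∃ a ∈ limitSet p, a ≤ 1 := by
  have h : ∀ ε : ℝ, 0 < ε → ε ≤ 1 → ∃ a ∈ limitSet p, a ≤ ENNReal.ofReal (1 + ε) := by
    intro ε hε hε1
    have hf := frequently_le hZ hp hpt hpnt hε hε1
    have hf2 : ∃ᶠ k in atTop, ENNReal.ofReal ((p (k + 1) - p k) / Real.log (p k)) ∈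
        Iic (ENNReal.ofReal (1 + ε)) := hf.mono fun k hk => ENNReal.ofReal_le_ofReal hk
    obtain ⟨a, ha1, ha2⟩ := (isClosed_Iic.isCompact).exists_mapClusterPt_of_frequently hf2
    exact ⟨a, ha2, ha1⟩
  obtain ⟨a0, ha0, -⟩ := h 1 one_pos le_rfl
  refine ⟨sInf (limitSet p), (isClosed_limitSet p).csInf_mem ⟨a0, ha0⟩ (OrderBot.bddBelow _), ?_⟩
  apply ENNReal.le_of_forall_pos_le_add
  intro ε hε _
  obtain ⟨a, ha, ha2⟩ := h (min ε 1) (lt_min (by exact_mod_cast hε) one_pos) (min_le_right _ _)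
  refine (sInf_le ha).trans (ha2.trans ?_)
  rw [ENNReal.ofReal_add (by norm_num) (le_min (NNReal.coe_nonneg ε) zero_le_one), ENNReal.ofReal_one]
  gcongr
  calc ENNReal.ofReal (min (ε : ℝ) 1) ≤ ENNReal.ofReal ε := ENNReal.ofReal_le_ofReal (min_le_left _ _)
    _ = ε := ENNReal.ofReal_coe_nnreal

theorem one_le_limitSet (hZ : ∀ ρ ∈ Z, ρ.re < 1) (hp : StrictMono p)
    (hpt : Tendsto p atTop atTop)
    (hpnt : ∀ ε : ℝ, 0 < ε → ∃ C : ℝ, ∀ x : ℝ, 2 ≤ x →
        |(countPr p x : ℝ) - mainTerm Z x| ≤ C * x ^ (1 / 2 + ε)) :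
    ∃ a ∈ limitSet p, 1 ≤ a := by
  have h : ∀ ε : ℝ, 0 < ε → ε ≤ 1 → ∃ a ∈ limitSet p, ENNReal.ofReal (1 - ε) ≤ a := by
    intro ε hε hε1
    have hf := frequently_ge hZ hp hpt hpnt hε hε1
    have hf2 : ∃ᶠ k in atTop, ENNReal.ofReal ((p (k + 1) - p k) / Real.log (p k)) ∈
        Ici (ENNReal.ofReal (1 - ε)) := hf.mono fun k hk => ENNReal.ofReal_le_ofReal hk
    obtain ⟨a, ha1, ha2⟩ := (isClosed_Ici.isCompact).exists_mapClusterPt_of_frequently hf2
    exact ⟨a, ha2, ha1⟩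
  obtain ⟨a0, ha0, -⟩ := h 1 one_pos le_rfl
  refine ⟨sSup (limitSet p), (isClosed_limitSet p).csSup_mem ⟨a0, ha0⟩ (OrderTop.bddAbove _), ?_⟩
  apply ENNReal.le_of_forall_pos_le_add
  intro ε hε _
  obtain ⟨a, ha, ha2⟩ := h (min ε 1) (lt_min (by exact_mod_cast hε) one_pos) (min_le_right _ _)
  have h1 : (1 : ℝ≥0∞) ≤ ENNReal.ofReal (1 - min (ε : ℝ) 1) + ENNReal.ofReal (min (ε : ℝ) 1) := by
    rw [← ENNReal.ofReal_add (by linarith [min_le_right (ε : ℝ) 1]) (le_min (NNReal.coe_nonneg ε) zero_le_one)]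
    simp
  refine h1.trans (add_le_add (ha2.trans (le_sSup ha)) ?_)
  calc ENNReal.ofReal (min (ε : ℝ) 1) ≤ ENNReal.ofReal ε := ENNReal.ofReal_le_ofReal (min_le_left _ _)
    _ = ε := ENNReal.ofReal_coe_nnreal

theorem top_mem_limitSet (hpt : Tendsto p atTop atTop)
    (h : 0 < limsup (fun n => ENNReal.ofReal ((p (n + 1) - p n) / Real.log (p n) ^ 2)) atTop) :
    ∞ ∈ limitSet p := by
  obtain ⟨δ, hδ0, hδ⟩ := exists_between h
  have hf := frequently_lt_of_lt_limsup (by isBoundedDefault) hδ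
  have hδtop : δ ≠ ∞ := ne_top_of_lt hδ
  have hδr : 0 < δ.toReal := ENNReal.toReal_pos hδ0.ne' hδtop
  change MapClusterPt ∞ atTop _
  rw [mapClusterPt_iff_frequently]
  intro s hs
  obtain ⟨a, ha, hs2⟩ := (nhds_top_basis.mem_iff).1 hs
  have hatop : a ≠ ∞ := ha.ne
  have h1 : ∀ᶠ n in atTop, (a.toReal + 1) / δ.toReal ≤ Real.log (p n) :=
    (Real.tendsto_log_atTop.comp hpt).eventually_ge_atTop _
  apply (hf.and_eventually (h1.and ((Real.tendsto_log_atTop.comp hpt).eventually_gt_atTop 0))).mono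
  rintro n ⟨h2, h3, h4⟩
  apply hs2
  simp only [Function.comp] at h4
  rw [mem_Ioi]
  have h5 : δ.toReal < (p (n + 1) - p n) / Real.log (p n) ^ 2 := by
    rw [← ENNReal.ofReal_toReal hδtop] at h2
    exact (ENNReal.ofReal_lt_ofReal_iff_of_nonneg hδr.le).1 h2
  rw [← ENNReal.ofReal_toReal hatop, ENNReal.ofReal_lt_ofReal_iff_of_nonneg
    ENNReal.toReal_nonneg]
  rw [lt_div_iff₀ (by positivity)] at h5
  rw [lt_div_iff₀ h4]
  rw [div_le_iff₀ hδr] at h3
  nlinarith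

end necessity

end Pool.Agent.H521.G
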