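import Pool.Agent.H521.G.LimSet

open MeasureTheory Set Filter Topology
open scoped ENNReal NNReal ComplexConjugate

namespace Pool.Agent.H521.G

theorem frequently_jump {κ : ℕ → ℕ} (hκ : Tendsto κ atTop atTop) :
    ∃ᶠ j in atTop, κ j ≠ κ (j + 1) := by
  intro hcon
  obtain ⟨J, hJ⟩ := eventually_atTop.1 hcon
  have h1 : ∀ n, κ (J + n) = κ J := by
    intro n
    induction n with
    | zero => rfl
    | succ n ih =>
      have := hJ (J + n) (by omega)
      push Not at this
      have e : J + (n + 1) = J + n + 1 := rfl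
      rw [e, ← this, ih]
  obtain ⟨N, hN⟩ := (tendsto_atTop_atTop.1 hκ) (κ J + 1)
  have h2 := hN (J + N) (by omega)
  rw [h1] at h2
  omega

/-- Existence of systems with prescribed limit set and Cramér constant. -/
theorem limset_exists {Z : Multiset ℂ} (hZ : ∀ ρ ∈ Z, ρ.re < 1) (hZc : Z.map conj = Z)
    {A : Set ℝ≥0∞} (hA : IsClosed A) (hα : ∃ a ∈ A, a ≤ 1) (hβ : ∃ b ∈ A, 1 ≤ b)
    {c : ℝ≥0∞} (hc : 0 < c → ∞ ∈ A) :
    ∃ p : ℕ → ℝ, StrictMono p ∧ Tendsto p atTop atTop ∧ (∀ k, 3 ≤ p k) ∧
      (∃ g : ℂ → ℂ, DifferentiableOn ℂ g {s : ℂ | 1 / 2 < s.re} ∧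
        (∀ s : ℂ, 1 < s.re → (s - 1) * zetaB p s = (Z.map fun ρ => s - ρ).prod *
          Complex.exp (g s)) ∧
        ∀ ε : ℝ, 0 < ε → ∃ C : ℝ, ∀ s : ℂ, 1 / 2 + ε ≤ s.re →
          ‖(Z.map fun ρ => s - ρ).prod * Complex.exp (g s)‖ ≤ C * (1 + ‖s‖) ^ (1 + ε)) ∧
      (∃ κ : ℝ, 0 < κ ∧ ∀ ε : ℝ, 0 < ε → ∃ C : ℝ, ∀ x : ℝ, 1 ≤ x →
        |(countInt p x : ℝ) - κ * x| ≤ C * x ^ (1 / 2 + ε)) ∧
      (∀ ε : ℝ, 0 < ε → ∃ C : ℝ, ∀ x : ℝ, 2 ≤ x →
        |(countPr p x : ℝ) - mainTerm Z x| ≤ C * x ^ (1 / 2 + ε)) ∧
      (∀ s : ℂ, 1 < s.re → Summable fun e : ℕ →₀ ℕ => ((gint p e : ℝ) : ℂ) ^ (-s)) ∧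
      limitSet p = A ∧
      limsup (fun n => ENNReal.ofReal ((p (n + 1) - p n) / Real.log (p n) ^ 2)) atTop = c := by
  obtain ⟨x₀, hR⟩ := exists_RDens hZ
  -- dense sequence
  have hα' := hα
  obtain ⟨a0, ha0, -⟩ := hα
  have : Nonempty A := ⟨⟨a0, ha0⟩⟩
  obtain ⟨u, hu⟩ := TopologicalSpace.exists_dense_seq A
  set d : ℕ → ℝ≥0∞ := fun i => (u i : ℝ≥0∞) with hd
  have hdA : ∀ i, d i ∈ A := fun i => (u i).2
  have hdense : A ⊆ closure (range d) := by
    intro a ha
    have h1 : (⟨a, ha⟩ : A) ∈ closure (range u) := hu ⟨a, ha⟩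
    rw [closure_subtype] at h1
    have h2 : ((↑) '' (range u) : Set ℝ≥0∞) = range d := by
      rw [← range_comp]; rfl
    rwa [h2] at h1
  have hpat := pattern_exists (A := A) hα' hβ d hdA
  choose m Γ hm1 hΓ0 hΓmono hΓper hΓall hΓd using hpat
  set cc : ℕ → ℝ := fun t => if c = ∞ then (t : ℝ) else c.toReal with hcc
  have hcc0 : ∀ t, 0 ≤ cc t := by
    intro t
    rw [hcc]
    simp only
    split_ifs
    · exact Nat.cast_nonneg _
    · exact ENNReal.toReal_nonneg
  obtain ⟨P, κ, hκm, hκt, hPm, hPΓ, hPq, hPgap, hPw, hPgrow, hPS, hPm0⟩ := build hR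
    { m := m, Γ := Γ, c := cc, m1 := hm1, Γ0 := hΓ0, Γmono := hΓmono, Γper := hΓper, c0 := hcc0 }
  simp only at hPm hPΓ hPw hPgrow
  obtain ⟨θ, hzeta, hints, hpnt, hsum⟩ := pattern_system hZ hZc hR P hPgap hPS
  obtain ⟨hrel, hGB, hgp0, hlogr⟩ := gap_analysis hZ hR P hκt hcc0 hPq hPgap hPw hPgrow hPm0 θ
  have hmono := P.pk_strictMono hR hPgap θ
  have hpt := P.pk_tendsto hR θ
  have hblk := blk_tendsto P.n_pos
  have hlogp : ∀ k, 2 ≤ Real.log (P.pk θ k) := fun k => hR.hlog _ (hR.phi_ge _)
  have hlogφ : ∀ j, 2 ≤ Real.log (phi (fZ Z) x₀ (P.Y j)) := fun k => hR.hlog _ (hR.phi_ge _)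
  refine ⟨P.pk θ, hmono, hpt, P.pk_ge3 hR θ, hzeta, hints, hpnt, hsum, ?_, ?_⟩
  · apply Subset.antisymm
    · -- limit points belong to A
      intro x hx
      obtain ⟨U, hU, hUx⟩ := mapClusterPt_iff_ultrafilter.1 hx
      change Tendsto (fun n => ENNReal.ofReal (P.rr θ n)) U (𝓝 x) at hUx
      have hgpa : ∀ k, ∃ a ∈ A, |P.gp k - (min a (κ (blk P.n k) + 1 : ℕ)).toReal| ≤
          1 / ((κ (blk P.n k) : ℝ) + 1) := by
        intro k
        unfold Pat.gp
        rw [hPΓ]
        exact hΓall _ _
      choose a haA hae using hgpa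
      have hκU : Tendsto (fun k => κ (blk P.n k)) U atTop := (hκt.comp hblk).mono_left hU
      by_cases hW : ∀ᶠ k in (U : Filter ℕ), P.wk k = 0
      · have hs : Tendsto a U (𝓝 (U.map a).lim) := (U.map a).le_nhds_lim
        have hsA : (U.map a).lim ∈ A := hA.mem_of_tendsto hs (Filter.Eventually.of_forall haA)
        have h1 : Tendsto (fun k => (P.yk θ (k + 1) - P.yk θ k) - P.gp k) U (𝓝 0) := by
          have h2 := hGB.mono_left hU
          refine h2.congr' ?_
          filter_upwards [hW] with k hk
          rw [hk, add_zero]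
        have h2 := ofReal_tendsto_of_rel hκU (fun ε hε => (hrel ε hε).filter_mono hU)
          (Filter.Eventually.of_forall hae) h1 hs
        rw [tendsto_nhds_unique hUx h2]
        exact hsA
      · have hW' : ∀ᶠ k in (U : Filter ℕ), P.wk k ≠ 0 := Ultrafilter.eventually_not.2 hW
        -- c is positive
        have hwk : ∀ k, P.wk k ≠ 0 → P.wk k = cc (κ (blk P.n k)) *
            Real.log (phi (fZ Z) x₀ (P.Y (blk P.n k))) := by
          intro k hk
          unfold Pat.wk at hk ⊢
          split_ifs at hk ⊢ with h1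
          · rw [hPw] at hk ⊢
            split_ifs at hk ⊢ with h2
            · exact absurd rfl hk
            · rfl
          · exact absurd rfl hk
        obtain ⟨k0, hk0⟩ := hW'.exists
        have hcpos : 0 < c := by
          rw [pos_iff_ne_zero]
          intro h0
          apply hk0
          rw [hwk k0 hk0, hcc]
          simp [h0]
        have hAtop := hc hcpos
        obtain ⟨δ, hδ0, hδ⟩ : ∃ δ : ℝ, 0 < δ ∧ ∀ᶠ t in atTop, δ ≤ cc t := by
          by_cases hct : c = ∞
          · refine ⟨1, one_pos, ?_⟩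
            filter_upwards [eventually_ge_atTop 1] with t ht
            rw [hcc]
            simp only
            rw [if_pos hct]
            exact_mod_cast ht
          · refine ⟨c.toReal, ENNReal.toReal_pos hcpos.ne' hct, ?_⟩
            filter_upwards with t
            rw [hcc]
            simp only
            rw [if_neg hct]
        have hwt : Tendsto (fun k => δ * Real.log (phi (fZ Z) x₀ (P.Y (blk P.n k))) - 1) U
            atTop := by
          apply tendsto_atTop_add_const_right
          apply Tendsto.const_mul_atTop hδ0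
          exact ((Real.tendsto_log_atTop.comp (P.phiY_tendsto hR)).comp hblk).mono_left hU
        have hGt : Tendsto (fun k => P.yk θ (k + 1) - P.yk θ k) U atTop := by
          refine tendsto_atTop_mono' _ ?_ hwt
          have h3 : ∀ᶠ k in (U : Filter ℕ), |(P.yk θ (k + 1) - P.yk θ k) -
              (P.gp k + P.wk k)| ≤ 1 := by
            have h4 := (hGB.mono_left hU).abs
            rw [abs_zero] at h4
            exact h4.eventually_le_const one_pos
          filter_upwards [hW', h3, hκU.eventually hδ] with k hk1 hk2 hk3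
          have h4 := (abs_le.1 hk2).1
          have h5 := P.gp_nonneg k
          rw [hwk k hk1] at h4
          have h6 := mul_le_mul_of_nonneg_right hk3
            (by linarith [hlogφ (blk P.n k)] :
              0 ≤ Real.log (phi (fZ Z) x₀ (P.Y (blk P.n k))))
          linarith
        have h5 := ENNReal.tendsto_ofReal_atTop.comp
          (tendsto_top_of_rel (fun ε hε => (hrel ε hε).filter_mono hU) hGt)
        rw [tendsto_nhds_unique hUx h5]
        exact hAtop
    · -- elements of A are limit points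
      refine hdense.trans (closure_minimal ?_ (isClosed_limitSet _))
      rintro _ ⟨i, rfl⟩
      have hl : ∀ t, ∃ l, l < m t ∧ (i ≤ t →
          |Γ t (l + 1) - Γ t l - (min (d i) (t + 1 : ℕ)).toReal| ≤ 1 / ((t : ℝ) + 1)) := by
        intro t
        by_cases h : i ≤ t
        · obtain ⟨l, hl1, hl2⟩ := hΓd t i h
          exact ⟨l, hl1, fun _ => hl2⟩
        · exact ⟨0, hm1 t, fun h' => absurd h' h⟩
      choose lf hlf1 hlf2 using hl
      set kj : ℕ → ℕ := fun j => KK P.n j + lf (κ j) with hkj
      have hlt : ∀ j, lf (κ j) + 1 < P.n j := by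
        intro j
        have h1 := hlf1 (κ j)
        rw [← hPm] at h1
        have h2 := hPq j
        have h3 : P.n j = P.m j * P.q j := rfl
        have h4 : P.m j * 2 ≤ P.m j * P.q j := Nat.mul_le_mul_left _ (by omega)
        have h5 := P.m1 j
        omega
      have hkjt : Tendsto kj atTop atTop := by
        apply tendsto_atTop_mono (fun j => ?_) tendsto_id
        exact (KK_ge P.n_pos j).trans (Nat.le_add_right _ _)
      have hb : ∀ j, blk P.n (kj j) = j := fun j => blk_eq P.n_pos (by have := hlt j; omega)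
      have hps : ∀ j, pos P.n (kj j) = lf (κ j) := fun j => pos_eq P.n_pos (by have := hlt j; omega)
      have hwk0 : ∀ j, P.wk (kj j) = 0 := by
        intro j
        unfold Pat.wk
        rw [hb, hps, if_neg (by have := hlt j; omega)]
      have he : ∀ᶠ j in atTop, |P.gp (kj j) - (min (d i) (κ j + 1 : ℕ)).toReal| ≤
          1 / ((κ j : ℝ) + 1) := by
        filter_upwards [hκt.eventually_ge_atTop i] with j hj
        unfold Pat.gp
        rw [hb, hps, hPΓ]
        exact hlf2 (κ j) hj
      have h1 : Tendsto (fun j => (P.yk θ (kj j + 1) - P.yk θ (kj j)) - P.gp (kj j)) atTop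
          (𝓝 0) := by
        have h2 := hGB.comp hkjt
        refine h2.congr fun j => ?_
        simp only [Function.comp]
        rw [hwk0, add_zero]
      have h2 := ofReal_tendsto_of_rel (G := fun j => P.yk θ (kj j + 1) - P.yk θ (kj j))
        (r := fun j => P.rr θ (kj j)) (e := fun j => P.gp (kj j)) (a := fun _ => d i) hκt
        (fun ε hε => hkjt.eventually (hrel ε hε)) he h1 tendsto_const_nhds
      change MapClusterPt (d i) atTop _
      exact MapClusterPt.of_comp hkjt h2.mapClusterPt
  · -- the Cramér constant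
    set D : ℕ → ℝ := fun n => (P.pk θ (n + 1) - P.pk θ n) / Real.log (P.pk θ n) ^ 2 with hDdef
    have hD : ∀ n, D n = P.rr θ n / Real.log (P.pk θ n) := by
      intro n
      rw [hDdef]
      simp only
      unfold Pat.rr
      rw [div_div, sq]
    have hwle : ∀ k, c ≠ ∞ → P.wk k ≤ c.toReal * Real.log (P.pk θ k) := by
      intro k hct
      have hnn : 0 ≤ c.toReal * Real.log (P.pk θ k) :=
        mul_nonneg ENNReal.toReal_nonneg (by linarith [hlogp k])
      unfold Pat.wk
      split_ifs with h1
      · rw [hPw]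
        split_ifs with h2
        · exact hnn
        · have : cc (κ (blk P.n k)) = c.toReal := by
            rw [hcc]; simp only; rw [if_neg hct]
          rw [this]
          apply mul_le_mul_of_nonneg_left _ ENNReal.toReal_nonneg
          exact Real.log_le_log (hR.phi_pos _) (P.pk_ge hR θ k)
      · exact hnn
    apply le_antisymm
    · by_cases hct : c = ∞
      · rw [hct]; exact le_top
      · apply ENNReal.le_of_forall_pos_le_add
        intro ε hε _
        apply limsup_le_of_le (by isBoundedDefault)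
        set c' := c.toReal with hc'
        have hc'0 : 0 ≤ c' := ENNReal.toReal_nonneg
        have hεr : (0 : ℝ) < ε := by exact_mod_cast hε
        set ε1 : ℝ := ε / (3 + c' + ε) with hε1
        have hε10 : 0 < ε1 := by positivity
        have hε11 : ε1 * (3 + c' + ε) = ε := by rw [hε1]; field_simp
        have hε1lt : ε1 < 1 := by nlinarith
        have e1 : ∀ᶠ k in atTop, P.gp k / Real.log (P.pk θ k) ≤ ε1 :=
          hgp0.eventually_le_const hε10
        have e2 : ∀ᶠ k in atTop, |(P.yk θ (k + 1) - P.yk θ k) - (P.gp k + P.wk k)| ≤ ε1 := by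
          have h4 := hGB.abs
          rw [abs_zero] at h4
          exact h4.eventually_le_const hε10
        filter_upwards [e1, e2, hrel ε1 hε10] with k h1 h2 h3
        have hL := hlogp k
        have h4 := hwle k hct
        have h5 := (abs_le.1 h2).2
        have h6 := (abs_le.1 h3).1
        rw [div_le_iff₀ (by linarith)] at h1
        have h7 : (1 - ε1) * P.rr θ k ≤ (c' + 2 * ε1) * Real.log (P.pk θ k) := by nlinarith
        have h8 : D k ≤ c' + ε := by
          rw [hD, div_le_iff₀ (by linarith)]
          have h9 : (c' + 2 * ε1) ≤ (1 - ε1) * (c' + ε) := by nlinarith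
          have h10 : (1 - ε1) * P.rr θ k ≤ (1 - ε1) * ((c' + ε) * Real.log (P.pk θ k)) := by
            calc _ ≤ (c' + 2 * ε1) * Real.log (P.pk θ k) := h7
              _ ≤ (1 - ε1) * (c' + ε) * Real.log (P.pk θ k) :=
                  mul_le_mul_of_nonneg_right h9 (by linarith)
              _ = _ := by ring
          exact le_of_mul_le_mul_left h10 (by linarith)
        calc ENNReal.ofReal (D k) ≤ ENNReal.ofReal (c' + ε) := ENNReal.ofReal_le_ofReal h8
          _ = c + ε := by
              rw [ENNReal.ofReal_add hc'0 hεr.le, hc', ENNReal.ofReal_toReal hct,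
                ENNReal.ofReal_coe_nnreal]
    · apply le_of_forall_lt_imp_le_of_dense
      intro b hb
      have hbt : b ≠ ∞ := ne_top_of_lt hb
      set b' := b.toReal with hb'
      have hb'0 : 0 ≤ b' := ENNReal.toReal_nonneg
      obtain ⟨ε1, hε10, hε11, hev⟩ : ∃ ε1 : ℝ, 0 < ε1 ∧ ε1 < 1 ∧
          ∀ᶠ t in atTop, b' * (1 + ε1) ≤ cc t * (1 - ε1) - ε1 := by
        by_cases hct : c = ∞
        · refine ⟨1 / 4, by norm_num, by norm_num, ?_⟩
          obtain ⟨n, hn⟩ := exists_nat_gt (2 * b' + 2)
          filter_upwards [eventually_ge_atTop n] with t ht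
          rw [hcc]
          simp only
          rw [if_pos hct]
          have : (n : ℝ) ≤ t := by exact_mod_cast ht
          linarith
        · have hlt : b' < c.toReal := (ENNReal.toReal_lt_toReal hbt hct).2 hb
          refine ⟨(c.toReal - b') / (c.toReal + b' + 1), ?_, ?_, ?_⟩
          · apply div_pos <;> linarith
          · rw [div_lt_one (by linarith)]; linarith
          · filter_upwards with t
            have : cc t = c.toReal := by rw [hcc]; simp only; rw [if_neg hct]
            rw [this]
            have h1 : (c.toReal - b') / (c.toReal + b' + 1) * (c.toReal + b' + 1) =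
                c.toReal - b' := by
              field_simp
            nlinarith
      apply le_limsup_of_frequently_le _ (by isBoundedDefault)
      -- boundary indices
      have hkt : Tendsto (fun j => KK P.n j + (P.n j - 1)) atTop atTop := by
        apply tendsto_atTop_mono (fun j => ?_) tendsto_id
        exact (KK_ge P.n_pos j).trans (Nat.le_add_right _ _)
      apply hkt.frequently
      have e2 : ∀ᶠ k in atTop, |(P.yk θ (k + 1) - P.yk θ k) - (P.gp k + P.wk k)| ≤ ε1 := by
        have h4 := hGB.abs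
        rw [abs_zero] at h4
        exact h4.eventually_le_const hε10
      have e3 : ∀ᶠ k in atTop, 1 - ε1 ≤
          Real.log (phi (fZ Z) x₀ (P.Y (blk P.n k))) / Real.log (P.pk θ k) :=
        hlogr.eventually_const_le (by linarith)
      apply ((frequently_jump hκt).and_eventually ((hkt.eventually (e2.and
        (e3.and (hrel ε1 hε10)))).and (hκt.eventually hev))).mono
      rintro j ⟨h1, ⟨h2, h3, h4⟩, h5⟩
      set k := KK P.n j + (P.n j - 1) with hk
      have hnp := P.n_pos j
      have hb1 : blk P.n k = j := blk_eq P.n_pos (by omega)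
      have hps : pos P.n k = P.n j - 1 := pos_eq P.n_pos (by omega)
      have hw1 : P.wk k = cc (κ j) * Real.log (phi (fZ Z) x₀ (P.Y j)) := by
        unfold Pat.wk
        rw [hb1, hps, if_pos (by omega), hPw, if_neg h1]
      rw [hb1] at h3
      have hL := hlogp k
      have h6 := (abs_le.1 h2).1
      have h7 := P.gp_nonneg k
      have h8 := (abs_le.1 h4).2
      rw [le_div_iff₀ (by linarith)] at h3
      have h9 : b' * (1 + ε1) * Real.log (P.pk θ k) ≤ (1 + ε1) * P.rr θ k := by
        have h10 : cc (κ j) * ((1 - ε1) * Real.log (P.pk θ k)) ≤ P.wk k := by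
          rw [hw1]
          exact mul_le_mul_of_nonneg_left h3 (hcc0 _)
        have h11 := mul_le_mul_of_nonneg_right h5 (by linarith : 0 ≤ Real.log (P.pk θ k))
        nlinarith
      have h10 : b' ≤ D k := by
        rw [hD, le_div_iff₀ (by linarith)]
        have h11 : (1 + ε1) * (b' * Real.log (P.pk θ k)) ≤ (1 + ε1) * P.rr θ k := by
          calc _ = b' * (1 + ε1) * Real.log (P.pk θ k) := by ring
            _ ≤ _ := h9
        exact le_of_mul_le_mul_left h11 (by linarith)
      calc b = ENNReal.ofReal b' := (ENNReal.ofReal_toReal hbt).symm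
        _ ≤ ENNReal.ofReal (D k) := ENNReal.ofReal_le_ofReal h10

end Pool.Agent.H521.G
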