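import Mathlib

open MeasureTheory Set Filter Topology

namespace Pool.Agent.H521.G

/-- The choice of the dyadic scale. -/
noncomputable def dyN (δ x : ℝ) : ℕ := Nat.log 2 ⌊x ^ (1 - δ) / 8⌋₊

theorem dyN_y_tendsto {δ : ℝ} (hδ1 : δ < 1) : Tendsto (fun x : ℝ => x ^ (1 - δ) / 8) atTop atTop :=
  (tendsto_rpow_atTop (by linarith)).atTop_div_const (by norm_num)

theorem dyN_tendsto {δ : ℝ} (hδ : 0 < δ) (hδ1 : δ < 1) : Tendsto (dyN δ) atTop atTop := by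
  have h1 : Tendsto (Nat.log 2) atTop atTop := by
    rw [tendsto_atTop_atTop]
    intro b
    exact ⟨2 ^ b, fun a ha => Nat.le_log_of_pow_le one_lt_two ha⟩
  exact h1.comp (tendsto_nat_floor_atTop.comp (dyN_y_tendsto hδ1))

theorem dyN_pow_le {δ x : ℝ} (h : 1 ≤ x ^ (1 - δ) / 8) : (2 : ℝ) ^ dyN δ x ≤ x ^ (1 - δ) / 8 := by
  have h1 : 1 ≤ ⌊x ^ (1 - δ) / 8⌋₊ := (Nat.one_le_floor_iff _).2 h
  have h2 : 2 ^ dyN δ x ≤ ⌊x ^ (1 - δ) / 8⌋₊ := Nat.pow_log_le_self 2 (by omega)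
  have h3 : (2 : ℝ) ^ dyN δ x ≤ (⌊x ^ (1 - δ) / 8⌋₊ : ℝ) := by exact_mod_cast h2
  exact h3.trans (Nat.floor_le (by linarith))

theorem dyN_pow_ge {δ x : ℝ} (h : 2 ≤ x ^ (1 - δ) / 8) : x ^ (1 - δ) / 32 ≤ (2 : ℝ) ^ dyN δ x := by
  have h2 : ⌊x ^ (1 - δ) / 8⌋₊ < 2 ^ (dyN δ x + 1) := Nat.lt_pow_succ_log_self one_lt_two _
  have h3 : (⌊x ^ (1 - δ) / 8⌋₊ : ℝ) < 2 ^ (dyN δ x + 1) := by exact_mod_cast h2
  have h4 := Nat.lt_floor_add_one (x ^ (1 - δ) / 8)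
  rw [pow_succ] at h3
  linarith

theorem dyN_le {δ : ℝ} (hδ : 0 < δ) (hδ1 : δ < 1) :
    ∀ᶠ x : ℝ in atTop, (4 : ℝ) * 2 ^ dyN δ x ≤ x ^ (1 - δ) := by
  filter_upwards [(dyN_y_tendsto hδ1).eventually_ge_atTop 1] with x hx
  have := dyN_pow_le hx
  linarith

theorem lo_arith12 {ρ ε : ℝ} (hρ0 : 0 ≤ ρ) (hρ1 : ρ < 1) (hε : 0 < ε) (hε1 : ε < 1 - ρ) :
    ∀ᶠ x : ℝ in atTop, x ^ (1 - ρ - ε) ≤
      ((⌊((2 : ℝ) ^ dyN (ε / 2) x) ^ (1 - ρ)⌋₊ / (9 * (dyN (ε / 2) x + 1) ^ 2 + 1) : ℕ) : ℝ) := by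
  have hδ1 : ε / 2 < 1 := by linarith
  have hlog := (isLittleO_log_rpow_atTop (r := ε / 4) (by positivity)).bound
    (c := 1 / 100) (by norm_num)
  filter_upwards [(dyN_y_tendsto hδ1).eventually_ge_atTop 2, hlog,
    eventually_ge_atTop (Real.exp 1), eventually_ge_atTop 1] with x hy hl he hx1
  have hx0 : 0 < x := by linarith
  have hL1 : 1 ≤ Real.log x := by
    rw [Real.le_log_iff_exp_le hx0]
    exact he
  have hL : Real.log x ≤ 1 / 100 * x ^ (ε / 4) := by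
    rw [Real.norm_of_nonneg (by linarith), Real.norm_of_nonneg (by positivity)] at hl
    exact hl
  have hL2 : 9312 * Real.log x ^ 2 ≤ x ^ (ε / 2) := by
    have e1 : x ^ (ε / 2) = x ^ (ε / 4) * x ^ (ε / 4) := by
      rw [← Real.rpow_add hx0]
      congr 1
      ring
    have e2 : 0 ≤ x ^ (ε / 4) := by positivity
    rw [e1]
    nlinarith
  -- the scale
  have ha := dyN_pow_le (δ := ε / 2) (x := x) (by linarith)
  have hb := dyN_pow_ge hy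
  obtain ⟨n, hn⟩ : ∃ n : ℕ, n = dyN (ε / 2) x := ⟨_, rfl⟩
  rw [← hn] at ha hb ⊢
  have hxle : x ^ (1 - ε / 2) ≤ x := by
    calc x ^ (1 - ε / 2) ≤ x ^ (1 : ℝ) := Real.rpow_le_rpow_of_exponent_le hx1 (by linarith)
      _ = x := Real.rpow_one x
  have hnl : (n : ℝ) + 1 ≤ 4 * Real.log x := by
    have e1 : (2 : ℝ) ^ n ≤ x := by
      have : 0 ≤ x ^ (1 - ε / 2) := by positivity
      linarith
    have e2 : (n : ℝ) * Real.log 2 ≤ Real.log x := by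
      rw [← Real.log_pow]
      exact Real.log_le_log (by positivity) e1
    have e3 := Real.log_two_gt_d9
    have e4 : (0 : ℝ) ≤ n := Nat.cast_nonneg n
    nlinarith
  have hD : 9 * ((n : ℝ) + 1) ^ 2 + 1 ≤ 145 * Real.log x ^ 2 := by
    have e4 : (0 : ℝ) ≤ n := Nat.cast_nonneg n
    have e5 : ((n : ℝ) + 1) ^ 2 ≤ (4 * Real.log x) ^ 2 := pow_le_pow_left₀ (by linarith) hnl 2
    nlinarith
  -- the size of the numerator
  obtain ⟨w, hw⟩ : ∃ w : ℝ, w = x ^ (1 - ρ - ε) := ⟨_, rfl⟩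
  have hw1 : 1 ≤ w := by
    rw [hw]
    exact Real.one_le_rpow hx1 (by linarith)
  have hA : 291 * Real.log x ^ 2 * w ≤ ((2 : ℝ) ^ n) ^ (1 - ρ) := by
    have e1 : (x ^ (1 - ε / 2) / 32) ^ (1 - ρ) ≤ ((2 : ℝ) ^ n) ^ (1 - ρ) :=
      Real.rpow_le_rpow (by positivity) hb (by linarith)
    have e2 : (x ^ (1 - ε / 2) / 32) ^ (1 - ρ) = x ^ ((1 - ε / 2) * (1 - ρ)) / 32 ^ (1 - ρ) := by
      rw [Real.div_rpow (by positivity) (by norm_num), ← Real.rpow_mul hx0.le]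
    have e3 : (32 : ℝ) ^ (1 - ρ) ≤ 32 := by
      calc (32 : ℝ) ^ (1 - ρ) ≤ 32 ^ (1 : ℝ) :=
            Real.rpow_le_rpow_of_exponent_le (by norm_num) (by linarith)
        _ = 32 := Real.rpow_one 32
    have e4 : x ^ (1 - ρ - ε / 2) ≤ x ^ ((1 - ε / 2) * (1 - ρ)) :=
      Real.rpow_le_rpow_of_exponent_le hx1 (by nlinarith)
    have e5 : x ^ (1 - ρ - ε / 2) = w * x ^ (ε / 2) := by
      rw [hw, ← Real.rpow_add hx0]
      congr 1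
      ring
    have e6 : x ^ (1 - ρ - ε / 2) / 32 ≤ x ^ ((1 - ε / 2) * (1 - ρ)) / 32 ^ (1 - ρ) :=
      div_le_div₀ (by positivity) e4 (by positivity) e3
    rw [e2] at e1
    rw [e5] at e6
    have e7 : w * (9312 * Real.log x ^ 2) ≤ w * x ^ (ε / 2) :=
      mul_le_mul_of_nonneg_left hL2 (by linarith)
    linarith
  rw [← hw]
  -- division
  obtain ⟨A, hA'⟩ : ∃ A : ℝ, A = ((2 : ℝ) ^ n) ^ (1 - ρ) := ⟨_, rfl⟩
  rw [← hA'] at hA ⊢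
  have hfl := Nat.lt_floor_add_one A
  obtain ⟨D, hD'⟩ : ∃ D : ℕ, D = 9 * (n + 1) ^ 2 + 1 := ⟨_, rfl⟩
  have hDr : (D : ℝ) = 9 * ((n : ℝ) + 1) ^ 2 + 1 := by
    rw [hD']
    push_cast
    ring
  have hD0 : 0 < D := by
    rw [hD']
    positivity
  rw [← hD']
  have hdiv : ⌊A⌋₊ < D * (⌊A⌋₊ / D + 1) := Nat.lt_mul_div_succ _ hD0
  have hdiv' : (⌊A⌋₊ : ℝ) < (D : ℝ) * (((⌊A⌋₊ / D : ℕ) : ℝ) + 1) := by exact_mod_cast hdiv
  have hDp : (0 : ℝ) < D := by exact_mod_cast hD0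
  have hLw : 1 ≤ Real.log x ^ 2 * w :=
    one_le_mul_of_one_le_of_one_le (one_le_pow₀ hL1) hw1
  have hmain : (w + 1) * (D : ℝ) ≤ A - 1 := by
    have e1 : (w + 1) * (D : ℝ) ≤ (2 * w) * (145 * Real.log x ^ 2) := by
      rw [hDr]
      exact mul_le_mul (by linarith) hD (by positivity) (by linarith)
    nlinarith
  have hfin : (D : ℝ) * (w + 1) < (D : ℝ) * (((⌊A⌋₊ / D : ℕ) : ℝ) + 1) := by linarith
  have := lt_of_mul_lt_mul_left hfin hDp.le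
  linarith

end Pool.Agent.H521.G
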