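import Mathlib

open MeasureTheory Set Filter Topology

namespace Pool.Agent.H521.G

theorem log_lim_upper {N : ℝ → ℕ} {s : ℝ} (hs0 : 0 ≤ s)
    (hup : ∀ ε : ℝ, 0 < ε → ∃ C k : ℝ, ∀ᶠ x : ℝ in atTop,
      (N x : ℝ) ≤ C * (Real.log x) ^ k * (x ^ (s + ε) + 1)) (ε : ℝ) (hε : 0 < ε) :
    ∀ᶠ x : ℝ in atTop, Real.log (1 + N x) / Real.log x ≤ s + 3 * ε := by
  obtain ⟨C, k, h⟩ := hup ε hε
  have h1 : ∀ᶠ x : ℝ in atTop, (Real.log x) ^ k ≤ x ^ ε := by
    have h2 := (isLittleO_log_rpow_rpow_atTop k hε).bound (show (0 : ℝ) < 1 by norm_num)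
    filter_upwards [h2, eventually_ge_atTop 1] with x hx hx1
    rw [one_mul, Real.norm_of_nonneg (Real.rpow_nonneg (Real.log_nonneg hx1) _),
      Real.norm_of_nonneg (Real.rpow_nonneg (by linarith) _)] at hx
    exact hx
  have h2 : ∀ᶠ x : ℝ in atTop, 1 + 2 * |C| ≤ x ^ ε :=
    (tendsto_rpow_atTop hε).eventually_ge_atTop _
  filter_upwards [h, h1, h2, eventually_gt_atTop 1] with x hx hx1 hx2 hx3
  have hx0 : 0 < x := by linarith
  have hlog : 0 < Real.log x := Real.log_pos hx3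
  rw [div_le_iff₀ hlog]
  have h3 : (1 : ℝ) ≤ x ^ (s + ε) := Real.one_le_rpow hx3.le (by linarith)
  have h4 : 0 ≤ (Real.log x) ^ k := Real.rpow_nonneg hlog.le _
  have h5 : (N x : ℝ) ≤ |C| * x ^ ε * (2 * x ^ (s + ε)) := by
    refine hx.trans ?_
    have h6 : C * Real.log x ^ k ≤ |C| * x ^ ε :=
      (mul_le_mul_of_nonneg_right (le_abs_self C) h4).trans
        (mul_le_mul_of_nonneg_left hx1 (abs_nonneg C))
    exact mul_le_mul h6 (by linarith) (by linarith)
      (mul_nonneg (abs_nonneg C) (Real.rpow_nonneg hx0.le _))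
  have h6 : x ^ ε * x ^ (s + ε) = x ^ (s + 2 * ε) := by
    rw [← Real.rpow_add hx0]
    ring_nf
  have h7 : (1 : ℝ) ≤ x ^ (s + 2 * ε) := Real.one_le_rpow hx3.le (by linarith)
  have h8 : 1 + (N x : ℝ) ≤ (1 + 2 * |C|) * x ^ (s + 2 * ε) := by
    have h9 : |C| * x ^ ε * (2 * x ^ (s + ε)) = 2 * |C| * x ^ (s + 2 * ε) := by
      rw [← h6]
      ring
    rw [h9] at h5
    linarith
  have h9 : 1 + (N x : ℝ) ≤ x ^ (s + 3 * ε) := by
    refine h8.trans ((mul_le_mul_of_nonneg_right hx2 (by linarith)).trans (le_of_eq ?_))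
    rw [← Real.rpow_add hx0]
    ring_nf
  have hN : (0 : ℝ) ≤ N x := Nat.cast_nonneg _
  have h10 := Real.log_le_log (by linarith) h9
  rwa [Real.log_rpow hx0] at h10

/-- The logarithmic order of a counting function. -/
theorem log_lim {N : ℝ → ℕ} {s : ℝ} (hs0 : 0 ≤ s)
    (hup : ∀ ε : ℝ, 0 < ε → ∃ C k : ℝ, ∀ᶠ x : ℝ in atTop,
      (N x : ℝ) ≤ C * (Real.log x) ^ k * (x ^ (s + ε) + 1))
    (hlo : 0 < s → ∀ ε : ℝ, 0 < ε → ε < s → ∀ᶠ x : ℝ in atTop, x ^ (s - ε) ≤ (N x : ℝ)) :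
    Tendsto (fun x => Real.log (1 + N x) / Real.log x) atTop (𝓝 s) := by
  rw [tendsto_order]
  constructor
  · intro a ha
    rcases hs0.eq_or_lt with h0 | h0
    · filter_upwards [eventually_gt_atTop 1] with x hx
      have h1 : 0 ≤ Real.log (1 + N x) / Real.log x := by
        apply div_nonneg _ (Real.log_pos hx).le
        apply Real.log_nonneg
        have hN : (0 : ℝ) ≤ N x := Nat.cast_nonneg _
        linarith
      linarith
    · have h1 : 0 < min ((s - a) / 2) (s / 2) := lt_min (by linarith) (by linarith)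
      have h2 : min ((s - a) / 2) (s / 2) < s := (min_le_right _ _).trans_lt (by linarith)
      have h3 : min ((s - a) / 2) (s / 2) < s - a := (min_le_left _ _).trans_lt (by linarith)
      filter_upwards [hlo h0 _ h1 h2, eventually_gt_atTop 1] with x hx hx1
      have hx0 : 0 < x := by linarith
      have hlog : 0 < Real.log x := Real.log_pos hx1
      rw [lt_div_iff₀ hlog]
      have h4 : x ^ (s - min ((s - a) / 2) (s / 2)) ≤ 1 + (N x : ℝ) := by linarith
      have h5 := Real.log_le_log (Real.rpow_pos_of_pos hx0 _) h4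
      rw [Real.log_rpow hx0] at h5
      have h6 : a * Real.log x < (s - min ((s - a) / 2) (s / 2)) * Real.log x :=
        mul_lt_mul_of_pos_right (by linarith) hlog
      linarith
  · intro b hb
    filter_upwards [log_lim_upper hs0 hup ((b - s) / 4) (by linarith)] with x hx
    linarith

end Pool.Agent.H521.G
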