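import Pool.Agent.H521.G.Maier1

open MeasureTheory Set Filter Topology
open scoped ENNReal NNReal ComplexConjugate

namespace Pool.Agent.H521.G

/-- number of primes in `(x, x + h]` -/
noncomputable def cnt (p : ℕ → ℝ) (x h : ℝ) : ℝ := (countPr p (x + h) : ℝ) - countPr p x

theorem countPr_mono {p : ℕ → ℝ} (hpt : Tendsto p atTop atTop) {x y : ℝ} (h : x ≤ y) :
    countPr p x ≤ countPr p y := by
  unfold countPr
  apply Set.ncard_le_ncard
  · intro j hj
    exact le_trans hj h
  · have h1 : ∀ᶠ j in atTop, y < p j := hpt.eventually_gt_atTop y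
    obtain ⟨N, hN⟩ := eventually_atTop.1 h1
    apply (Set.finite_Iio N).subset
    intro j hj
    simp only [mem_ofPred_eq] at hj
    simp only [mem_Iio]
    by_contra hc
    push Not at hc
    linarith [hN j hc]

/-- The chain of consecutive intervals. -/
noncomputable def chn (a x : ℝ) : ℕ → ℝ
  | 0 => x
  | i + 1 => chn a x i + Real.log (chn a x i) ^ a

theorem chn_ge {a x : ℝ} (hx : 1 ≤ x) (i : ℕ) : x ≤ chn a x i := by
  induction i with
  | zero => exact le_rfl
  | succ i ih =>
    rw [chn]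
    have : 0 ≤ Real.log (chn a x i) ^ a := Real.rpow_nonneg (Real.log_nonneg (hx.trans ih)) _
    linarith

theorem chn_le {a x X : ℝ} (ha : 0 ≤ a) (hx : 1 ≤ x) (hX : x ≤ X) (i : ℕ)
    (h : x + i * Real.log X ^ a ≤ X) : chn a x i ≤ x + i * Real.log X ^ a := by
  induction i with
  | zero => simp [chn]
  | succ i ih =>
    have hX1 : 1 ≤ X := hx.trans hX
    have h0 : 0 ≤ Real.log X ^ a := Real.rpow_nonneg (Real.log_nonneg hX1) _
    push_cast at h ⊢
    have h1 := ih (by linarith)
    rw [chn]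
    have h2 : Real.log (chn a x i) ^ a ≤ Real.log X ^ a := by
      apply Real.rpow_le_rpow (Real.log_nonneg (hx.trans (chn_ge hx i))) _ ha
      exact Real.log_le_log (by linarith [chn_ge (a := a) hx i]) (by linarith)
    linarith

theorem chn_sum (p : ℕ → ℝ) (a x : ℝ) (m : ℕ) : (countPr p (chn a x m) : ℝ) - countPr p x =
    ∑ i ∈ Finset.range m, cnt p (chn a x i) (Real.log (chn a x i) ^ a) := by
  induction m with
  | zero => simp [chn]
  | succ m ih =>
    rw [Finset.sum_range_succ, ← ih]
    unfold cnt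
    rw [chn]
    ring

theorem log_ratio (K : ℝ) (hK : 1 ≤ K) (a : ℝ) :
    Tendsto (fun x : ℝ => (Real.log (K * x) / Real.log x) ^ a) atTop (𝓝 1) := by
  have h1 : Tendsto (fun x : ℝ => Real.log K / Real.log x + 1) atTop (𝓝 (0 + 1)) :=
    (Real.tendsto_log_atTop.const_div_atTop _).add_const 1
  have h2 : Tendsto (fun x : ℝ => Real.log (K * x) / Real.log x) atTop (𝓝 1) := by
    rw [zero_add] at h1
    refine h1.congr' ?_
    filter_upwards [eventually_gt_atTop 1] with x hx
    have hl := Real.log_pos hx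
    rw [Real.log_mul (by linarith) (by linarith)]
    field_simp
  have h3 := h2.rpow_const (p := a) (Or.inl one_ne_zero)
  simpa using h3

/-- Lower bounds propagate to longer intervals. -/
theorem prop_low {p : ℕ → ℝ} (hpt : Tendsto p atTop atTop) {a l : ℝ} (ha : 1 < a) (hl : 0 ≤ l)
    (hev : ∀ᶠ x in atTop, l * Real.log x ^ (a - 1) ≤ cnt p x (Real.log x ^ a))
    {h : ℝ → ℝ} (h1 : ∀ᶠ x in atTop, h x ≤ x)
    (h2 : Tendsto (fun x => h x / Real.log x ^ a) atTop atTop) {ε : ℝ} (hε : 0 < ε) :
    ∀ᶠ x in atTop, (l - ε) * (h x / Real.log x) ≤ cnt p x (h x) := by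
  obtain ⟨X₀, hX₀⟩ := eventually_atTop.1 hev
  have hb : Tendsto (fun x : ℝ => l * (((Real.log (2 * x) / Real.log x) ^ a)⁻¹ -
      (h x / Real.log x ^ a)⁻¹)) atTop (𝓝 (l * (1⁻¹ - 0))) :=
    (((log_ratio 2 (by norm_num) a).inv₀ one_ne_zero).sub h2.inv_tendsto_atTop).const_mul l
  have e1 : l * (1⁻¹ - 0) = l := by simp
  rw [e1] at hb
  have hb' := hb.eventually_const_le (by linarith : l - ε < l)
  filter_upwards [hb', h1, h2.eventually_gt_atTop 0, eventually_ge_atTop X₀,
    eventually_gt_atTop 1] with x hx1 hx2 hx3 hx4 hx5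
  have hlx : 0 < Real.log x := Real.log_pos hx5
  have hlxa : 0 < Real.log x ^ a := Real.rpow_pos_of_pos hlx _
  have hh : 0 < h x := by
    rwa [lt_div_iff₀ hlxa, zero_mul] at hx3
  set H : ℝ := Real.log (2 * x) ^ a with hH
  have hl2 : 0 < Real.log (2 * x) := Real.log_pos (by linarith)
  have hH0 : 0 < H := Real.rpow_pos_of_pos hl2 _
  set m : ℕ := ⌊h x / H⌋₊ with hm
  have hm1 : (m : ℝ) ≤ h x / H := Nat.floor_le (by positivity)
  have hm2 : h x / H < m + 1 := Nat.lt_floor_add_one _
  have hmH : m * H ≤ h x := by rwa [le_div_iff₀ hH0] at hm1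
  have hbnd : ∀ i ≤ m, x + i * H ≤ x + h x := by
    intro i hi
    have : (i : ℝ) ≤ m := by exact_mod_cast hi
    nlinarith
  have hchm : chn a x m ≤ x + h x := by
    have := chn_le (a := a) (X := 2 * x) (by linarith) hx5.le (by linarith) m
      (by have := hbnd m le_rfl; rw [hH] at this; linarith)
    have h4 := hbnd m le_rfl
    rw [hH] at h4
    linarith
  have hsum := chn_sum p a x m
  have hge : l * m * Real.log x ^ (a - 1) ≤
      ∑ i ∈ Finset.range m, cnt p (chn a x i) (Real.log (chn a x i) ^ a) := by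
    calc l * m * Real.log x ^ (a - 1) = ∑ i ∈ Finset.range m, l * Real.log x ^ (a - 1) := by
          rw [Finset.sum_const, Finset.card_range, nsmul_eq_mul]; ring
      _ ≤ _ := by
          apply Finset.sum_le_sum
          intro i _
          have h3 := chn_ge (a := a) hx5.le i
          refine le_trans ?_ (hX₀ _ (hx4.trans h3))
          apply mul_le_mul_of_nonneg_left _ hl
          apply Real.rpow_le_rpow hlx.le (Real.log_le_log (by linarith) h3) (by linarith)
  have hmono : (countPr p (chn a x m) : ℝ) ≤ countPr p (x + h x) := by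
    exact_mod_cast countPr_mono hpt hchm
  have hcnt : l * m * Real.log x ^ (a - 1) ≤ cnt p x (h x) := by
    unfold cnt
    linarith
  refine le_trans ?_ hcnt
  have e2 : h x / Real.log x * (l * (((Real.log (2 * x) / Real.log x) ^ a)⁻¹ -
      (h x / Real.log x ^ a)⁻¹)) = l * (h x / H - 1) * Real.log x ^ (a - 1) := by
    rw [Real.div_rpow hl2.le hlx.le, Real.rpow_sub_one hlx.ne', ← hH]
    field_simp
  calc (l - ε) * (h x / Real.log x) ≤ l * (((Real.log (2 * x) / Real.log x) ^ a)⁻¹ -
      (h x / Real.log x ^ a)⁻¹) * (h x / Real.log x) :=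
        mul_le_mul_of_nonneg_right hx1 (by positivity)
    _ = l * (h x / H - 1) * Real.log x ^ (a - 1) := by rw [← e2]; ring
    _ ≤ l * m * Real.log x ^ (a - 1) := by
        apply mul_le_mul_of_nonneg_right _ (Real.rpow_nonneg hlx.le _)
        apply mul_le_mul_of_nonneg_left _ hl
        linarith

/-- Upper bounds propagate to longer intervals. -/
theorem prop_up {p : ℕ → ℝ} (hpt : Tendsto p atTop atTop) {a u : ℝ} (ha : 1 < a) (hu : 0 ≤ u)
    (hev : ∀ᶠ x in atTop, cnt p x (Real.log x ^ a) ≤ u * Real.log x ^ (a - 1))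
    {h : ℝ → ℝ} (h1 : ∀ᶠ x in atTop, h x ≤ x)
    (h2 : Tendsto (fun x => h x / Real.log x ^ a) atTop atTop) {ε : ℝ} (hε : 0 < ε) :
    ∀ᶠ x in atTop, cnt p x (h x) ≤ (u + ε) * (h x / Real.log x) := by
  obtain ⟨X₀, hX₀⟩ := eventually_atTop.1 hev
  have hb : Tendsto (fun x : ℝ => u * ((1 + (h x / Real.log x ^ a)⁻¹) *
      (Real.log (4 * x) / Real.log x) ^ (a - 1))) atTop (𝓝 (u * ((1 + 0) * 1))) :=
    ((h2.inv_tendsto_atTop.const_add 1).mul (log_ratio 4 (by norm_num) (a - 1))).const_mul u
  have e1 : u * ((1 + 0) * 1) = u := by ring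
  rw [e1] at hb
  have hb' := hb.eventually_le_const (by linarith : u < u + ε)
  have h3 := (log_ratio 4 (by norm_num) a).eventually_le_const (by norm_num : (1 : ℝ) < 3 / 2)
  have h4 : ∀ᶠ x : ℝ in atTop, Real.log x ^ a ≤ x := by
    have := (isLittleO_log_rpow_rpow_atTop a (by norm_num : (0 : ℝ) < 1)).bound
      (by norm_num : (0 : ℝ) < 1)
    filter_upwards [this, eventually_gt_atTop 1] with x hx hx1
    rw [Real.rpow_one, one_mul, Real.norm_eq_abs, Real.norm_eq_abs, abs_of_pos
      (Real.rpow_pos_of_pos (Real.log_pos hx1) _), abs_of_pos (by linarith)] at hx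
    exact hx
  filter_upwards [hb', h1, h2.eventually_ge_atTop 1, h3, h4, eventually_ge_atTop X₀,
    eventually_gt_atTop 1] with x hx1 hx2 hx3 hx4 hx5 hx6 hx7
  have hlx : 0 < Real.log x := Real.log_pos hx7
  have hlxa : 0 < Real.log x ^ a := Real.rpow_pos_of_pos hlx _
  have hlh : Real.log x ^ a ≤ h x := by rwa [le_div_iff₀ hlxa, one_mul] at hx3
  have hh : 0 < h x := by linarith
  have hl4 : 0 < Real.log (4 * x) := Real.log_pos (by linarith)
  set H : ℝ := Real.log (4 * x) ^ a with hH
  have hH0 : 0 < H := Real.rpow_pos_of_pos hl4 _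
  have hH32 : H ≤ 3 / 2 * Real.log x ^ a := by
    rw [Real.div_rpow hl4.le hlx.le, div_le_iff₀ hlxa] at hx4
    exact hx4
  set m : ℕ := ⌈h x / Real.log x ^ a⌉₊ with hm
  have hm1 : h x / Real.log x ^ a ≤ m := Nat.le_ceil _
  have hm2 : (m : ℝ) < h x / Real.log x ^ a + 1 := Nat.ceil_lt_add_one (by positivity)
  have hmH : m * H ≤ 3 * h x := by
    have h5 : (m : ℝ) * Real.log x ^ a ≤ 2 * h x := by
      have : (h x / Real.log x ^ a + 1) * Real.log x ^ a = h x + Real.log x ^ a := by
        field_simp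
      nlinarith
    have hm0 : (0 : ℝ) ≤ m := Nat.cast_nonneg _
    nlinarith
  have hchle : ∀ i ≤ m, chn a x i ≤ 4 * x := by
    intro i hi
    have h6 : x + i * H ≤ 4 * x := by
      have : (i : ℝ) ≤ m := by exact_mod_cast hi
      nlinarith
    exact (chn_le (a := a) (X := 4 * x) (by linarith) hx7.le (by linarith) i h6).trans h6
  have hchge : ∀ i : ℕ, x + i * Real.log x ^ a ≤ chn a x i := by
    intro i
    induction i with
    | zero => simp [chn]
    | succ i ih =>
      rw [chn]
      push_cast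
      have : Real.log x ^ a ≤ Real.log (chn a x i) ^ a :=
        Real.rpow_le_rpow hlx.le (Real.log_le_log (by linarith) (chn_ge hx7.le i)) (by linarith)
      linarith
  have hsum := chn_sum p a x m
  have hle : ∑ i ∈ Finset.range m, cnt p (chn a x i) (Real.log (chn a x i) ^ a) ≤
      u * m * Real.log (4 * x) ^ (a - 1) := by
    calc _ ≤ ∑ i ∈ Finset.range m, u * Real.log (4 * x) ^ (a - 1) := by
          apply Finset.sum_le_sum
          intro i hi
          have h7 := chn_ge (a := a) hx7.le i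
          refine (hX₀ _ (hx6.trans h7)).trans ?_
          apply mul_le_mul_of_nonneg_left _ hu
          apply Real.rpow_le_rpow (Real.log_nonneg (by linarith)) _ (by linarith)
          exact Real.log_le_log (by linarith) (hchle i (Finset.mem_range.1 hi).le)
      _ = _ := by rw [Finset.sum_const, Finset.card_range, nsmul_eq_mul]; ring
  have hchm : x + h x ≤ chn a x m := by
    refine le_trans ?_ (hchge m)
    rw [div_le_iff₀ hlxa] at hm1
    linarith
  have hmono : (countPr p (x + h x) : ℝ) ≤ countPr p (chn a x m) := by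
    exact_mod_cast countPr_mono hpt hchm
  have hcnt : cnt p x (h x) ≤ u * m * Real.log (4 * x) ^ (a - 1) := by
    unfold cnt
    linarith
  refine hcnt.trans ?_
  have e2 : h x / Real.log x * (u * ((1 + (h x / Real.log x ^ a)⁻¹) *
      (Real.log (4 * x) / Real.log x) ^ (a - 1))) =
      u * (h x / Real.log x ^ a + 1) * Real.log (4 * x) ^ (a - 1) := by
    rw [Real.div_rpow hl4.le hlx.le, Real.rpow_sub_one hlx.ne']
    field_simp
  calc u * m * Real.log (4 * x) ^ (a - 1) ≤
        u * (h x / Real.log x ^ a + 1) * Real.log (4 * x) ^ (a - 1) := by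
        apply mul_le_mul_of_nonneg_right _ (Real.rpow_nonneg hl4.le _)
        exact mul_le_mul_of_nonneg_left hm2.le hu
    _ = u * ((1 + (h x / Real.log x ^ a)⁻¹) *
      (Real.log (4 * x) / Real.log x) ^ (a - 1)) * (h x / Real.log x) := by rw [← e2]; ring
    _ ≤ (u + ε) * (h x / Real.log x) := mul_le_mul_of_nonneg_right hx1 (by positivity)

end Pool.Agent.H521.G
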