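import Pool.Agent.H521.G.Maier2
import Pool.Agent.H521.G.LimSet

open MeasureTheory Set Filter Topology
open scoped ENNReal NNReal ComplexConjugate

namespace Pool.Agent.H521.G

/-- The prime number theorem in terms of the template. -/
theorem pi_F {Z : Multiset ℂ} (hZ : ∀ ρ ∈ Z, ρ.re < 1) {x₀ : ℝ} (hR : RDens (fZ Z) x₀)
    {p : ℕ → ℝ}
    (hpnt : ∀ ε : ℝ, 0 < ε → ∃ C : ℝ, ∀ x : ℝ, 2 ≤ x →
        |(countPr p x : ℝ) - mainTerm Z x| ≤ C * x ^ (1 / 2 + ε)) :
    ∃ C : ℝ, 0 ≤ C ∧ ∀ x : ℝ, x₀ ≤ x → |(countPr p x : ℝ) - Fp (fZ Z) x₀ x| ≤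
      C * x ^ (3 / 4 : ℝ) := by
  obtain ⟨C, hC⟩ := hpnt (1 / 4) (by norm_num)
  have hx3 := hR.dens.hx₀
  set K : ℝ := (1 + (Multiset.card Z : ℝ)) with hK
  have hK0 : 0 ≤ K := by positivity
  refine ⟨|C| + |mainTerm Z x₀| + 2 * K, by positivity, fun x hx => ?_⟩
  have h2 := abs_main_diff_le hZ hx3 hx
  have h3 : mainTerm Z x = mainTerm Z x₀ + ∫ u in x₀..x, (1 - osc Z u) / Real.log u := by
    unfold mainTerm
    exact (intervalIntegral.integral_add_adjacent_intervals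
      (main_ii Z (by norm_num) (by linarith)) (main_ii Z (by linarith) hx)).symm
  have h4 := hC x (by linarith)
  have e : (1 / 2 + 1 / 4 : ℝ) = 3 / 4 := by norm_num
  rw [e] at h4
  have hx1 : 1 ≤ x ^ (3 / 4 : ℝ) := Real.one_le_rpow (by linarith) (by norm_num)
  have h5 : Real.log x ≤ 2 * x ^ (3 / 4 : ℝ) := by
    have h6 := Real.log_le_rpow_div (by linarith : 0 ≤ x) (by norm_num : (0 : ℝ) < 3 / 4)
    linarith
  have e1 : (countPr p x : ℝ) - Fp (fZ Z) x₀ x = ((countPr p x : ℝ) - mainTerm Z x) +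
      mainTerm Z x₀ + ((∫ u in x₀..x, (1 - osc Z u) / Real.log u) - ∫ u in x₀..x, fZ Z u) := by
    rw [h3]; unfold Fp; ring
  rw [e1]
  refine (abs_add_le _ _).trans ?_
  have h6 := abs_add_le ((countPr p x : ℝ) - mainTerm Z x) (mainTerm Z x₀)
  have h7 : C * x ^ (3 / 4 : ℝ) ≤ |C| * x ^ (3 / 4 : ℝ) :=
    mul_le_mul_of_nonneg_right (le_abs_self C) (by linarith)
  have h8 : |mainTerm Z x₀| ≤ |mainTerm Z x₀| * x ^ (3 / 4 : ℝ) :=
    le_mul_of_one_le_right (abs_nonneg _) hx1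
  have h9 : K * Real.log x ≤ K * (2 * x ^ (3 / 4 : ℝ)) := mul_le_mul_of_nonneg_left h5 hK0
  nlinarith

/-- Counting in `(x, 2x]`. -/
theorem cnt_double {Z : Multiset ℂ} (hZ : ∀ ρ ∈ Z, ρ.re < 1) {p : ℕ → ℝ}
    (hpnt : ∀ ε : ℝ, 0 < ε → ∃ C : ℝ, ∀ x : ℝ, 2 ≤ x →
        |(countPr p x : ℝ) - mainTerm Z x| ≤ C * x ^ (1 / 2 + ε)) {ε : ℝ} (hε : 0 < ε) :
    ∀ᶠ x in atTop, |cnt p x x - x / Real.log x| ≤ ε * (x / Real.log x) := by
  obtain ⟨x₀, hR⟩ := exists_RDens hZ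
  obtain ⟨C, hC0, hC⟩ := pi_F hZ hR hpnt
  have h1 : Tendsto (fun x : ℝ => (3 * C) * (Real.log x / x ^ (1 / 4 : ℝ))) atTop
      (𝓝 (3 * C * 0)) :=
    ((isLittleO_log_rpow_atTop (by norm_num)).tendsto_div_nhds_zero).const_mul _
  rw [mul_zero] at h1
  filter_upwards [transfer hZ hR (half_pos hε), h1.eventually_le_const (half_pos hε),
    eventually_gt_atTop 1] with x hx hx2 hx3
  obtain ⟨hx0, hx1⟩ := hx
  have hl : 0 < Real.log x := Real.log_pos hx3
  have h2 := hx1 (2 * x) (by linarith) le_rfl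
  have h3 := hC x hx0
  have h4 := hC (2 * x) (by linarith)
  have e1 : 2 * x - x = x := by ring
  rw [e1] at h2
  have h5 : (2 * x) ^ (3 / 4 : ℝ) ≤ 2 * x ^ (3 / 4 : ℝ) := by
    rw [Real.mul_rpow (by norm_num) (by linarith)]
    apply mul_le_mul_of_nonneg_right _ (Real.rpow_nonneg (by linarith) _)
    calc (2 : ℝ) ^ (3 / 4 : ℝ) ≤ 2 ^ (1 : ℝ) :=
          Real.rpow_le_rpow_of_exponent_le (by norm_num) (by norm_num)
      _ = 2 := Real.rpow_one _
  have h6 : C * (2 * x) ^ (3 / 4 : ℝ) ≤ C * (2 * x ^ (3 / 4 : ℝ)) :=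
    mul_le_mul_of_nonneg_left h5 hC0
  have h7 : 3 * C * x ^ (3 / 4 : ℝ) ≤ ε / 2 * (x / Real.log x) := by
    have hx4 : 0 < x ^ (1 / 4 : ℝ) := Real.rpow_pos_of_pos (by linarith) _
    rw [mul_div_assoc', le_div_iff₀ hl]
    rw [mul_div_assoc', div_le_iff₀ hx4] at hx2
    have hx34 : 0 < x ^ (3 / 4 : ℝ) := Real.rpow_pos_of_pos (by linarith) _
    have e2 : x ^ (1 / 4 : ℝ) * x ^ (3 / 4 : ℝ) = x := by
      rw [← Real.rpow_add (by linarith)]; norm_num
    calc 3 * C * x ^ (3 / 4 : ℝ) * Real.log x = (3 * C * Real.log x) * x ^ (3 / 4 : ℝ) := by ring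
      _ ≤ (ε / 2 * x ^ (1 / 4 : ℝ)) * x ^ (3 / 4 : ℝ) := mul_le_mul_of_nonneg_right hx2 hx34.le
      _ = ε / 2 * x := by rw [mul_assoc, e2]
  set D := Fp (fZ Z) x₀ (2 * x) - Fp (fZ Z) x₀ x with hD
  have h8 : |D - x / Real.log x| ≤ ε / 2 * (x / Real.log x) := by
    have e3 : D - x / Real.log x = (D * Real.log x - x) / Real.log x := by field_simp
    rw [e3, abs_div, abs_of_pos hl, mul_div_assoc']
    exact div_le_div_of_nonneg_right h2 hl.le
  have e4 : cnt p x x - x / Real.log x = ((countPr p (2 * x) : ℝ) - Fp (fZ Z) x₀ (2 * x)) -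
      ((countPr p x : ℝ) - Fp (fZ Z) x₀ x) + (D - x / Real.log x) := by
    unfold cnt
    rw [← two_mul x, hD]
    ring
  rw [e4]
  have h9 := abs_add_le (((countPr p (2 * x) : ℝ) - Fp (fZ Z) x₀ (2 * x)) -
      ((countPr p x : ℝ) - Fp (fZ Z) x₀ x)) (D - x / Real.log x)
  have h10 := abs_sub ((countPr p (2 * x) : ℝ) - Fp (fZ Z) x₀ (2 * x))
      ((countPr p x : ℝ) - Fp (fZ Z) x₀ x)
  linarith

/-- The Maier ratio. -/
noncomputable def mR (p : ℕ → ℝ) (a x : ℝ) : ℝ≥0∞ :=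
  ENNReal.ofReal (((countPr p (x + Real.log x ^ a) : ℝ) - countPr p x) / Real.log x ^ (a - 1))

theorem pow_ratio {a b : ℝ} (hab : a < b) :
    Tendsto (fun x : ℝ => Real.log x ^ b / Real.log x ^ a) atTop atTop := by
  have h1 : Tendsto (fun x : ℝ => Real.log x ^ (b - a)) atTop atTop :=
    (tendsto_rpow_atTop (by linarith)).comp Real.tendsto_log_atTop
  refine h1.congr' ?_
  filter_upwards [eventually_gt_atTop 1] with x hx
  rw [Real.rpow_sub (Real.log_pos hx)]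

theorem pow_le_self (b : ℝ) : ∀ᶠ x : ℝ in atTop, Real.log x ^ b ≤ x := by
  have := (isLittleO_log_rpow_rpow_atTop b (by norm_num : (0 : ℝ) < 1)).bound
    (by norm_num : (0 : ℝ) < 1)
  filter_upwards [this, eventually_gt_atTop 1] with x hx hx1
  rw [Real.rpow_one, one_mul, Real.norm_eq_abs, Real.norm_eq_abs, abs_of_pos
    (Real.rpow_pos_of_pos (Real.log_pos hx1) _), abs_of_pos (by linarith)] at hx
  exact hx

theorem log_pow_div (b : ℝ) : ∀ᶠ x : ℝ in atTop,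
    Real.log x ^ b / Real.log x = Real.log x ^ (b - 1) := by
  filter_upwards [eventually_gt_atTop 1] with x hx
  rw [Real.rpow_sub_one (Real.log_pos hx).ne']

/-- from an eventual lower bound -/
theorem ev_low {p : ℕ → ℝ} {a : ℝ} {r : ℝ≥0} (h : (r : ℝ≥0∞) < liminf (mR p a) atTop) :
    ∀ᶠ x in atTop, (r : ℝ) * Real.log x ^ (a - 1) ≤ cnt p x (Real.log x ^ a) := by
  filter_upwards [eventually_lt_of_lt_liminf h, eventually_gt_atTop 1] with x hx hx1
  have hl : 0 < Real.log x ^ (a - 1) := Real.rpow_pos_of_pos (Real.log_pos hx1) _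
  have h1 : (r : ℝ) < cnt p x (Real.log x ^ a) / Real.log x ^ (a - 1) := by
    have h2 : ENNReal.ofReal (r : ℝ) < mR p a x := by rwa [ENNReal.ofReal_coe_nnreal]
    unfold mR at h2
    exact (ENNReal.ofReal_lt_ofReal_iff_of_nonneg (NNReal.coe_nonneg r)).1 h2
  rw [lt_div_iff₀ hl] at h1
  exact h1.le

theorem ev_up {p : ℕ → ℝ} {a : ℝ} {r : ℝ≥0} (h : limsup (mR p a) atTop < (r : ℝ≥0∞)) :
    ∀ᶠ x in atTop, cnt p x (Real.log x ^ a) ≤ (r : ℝ) * Real.log x ^ (a - 1) := by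
  filter_upwards [eventually_lt_of_limsup_lt h, eventually_gt_atTop 1] with x hx hx1
  have hl : 0 < Real.log x ^ (a - 1) := Real.rpow_pos_of_pos (Real.log_pos hx1) _
  have h1 : cnt p x (Real.log x ^ a) / Real.log x ^ (a - 1) ≤ (r : ℝ) := by
    have h2 : mR p a x ≤ ENNReal.ofReal (r : ℝ) := by
      rw [ENNReal.ofReal_coe_nnreal]; exact hx.le
    unfold mR at h2
    exact (ENNReal.ofReal_le_ofReal_iff (NNReal.coe_nonneg r)).1 h2
  rwa [div_le_iff₀ hl] at h1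

theorem liminf_ge {p : ℕ → ℝ} {a r : ℝ} (h : ∀ ε : ℝ, 0 < ε → ∀ᶠ x in atTop,
    (r - ε) * Real.log x ^ (a - 1) ≤ cnt p x (Real.log x ^ a)) :
    ENNReal.ofReal r ≤ liminf (mR p a) atTop := by
  apply ENNReal.le_of_forall_pos_le_add
  intro ε hε _
  have h1 : ∀ᶠ x in atTop, ENNReal.ofReal (r - ε) ≤ mR p a x := by
    filter_upwards [h ε (by exact_mod_cast hε), eventually_gt_atTop 1] with x hx hx1
    have hl : 0 < Real.log x ^ (a - 1) := Real.rpow_pos_of_pos (Real.log_pos hx1) _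
    unfold mR
    apply ENNReal.ofReal_le_ofReal
    rw [le_div_iff₀ hl]
    exact hx
  have h2 : ENNReal.ofReal (r - ε) ≤ liminf (mR p a) atTop := le_liminf_of_le (by isBoundedDefault) h1
  calc ENNReal.ofReal r = ENNReal.ofReal ((r - ε) + ε) := by ring_nf
    _ ≤ ENNReal.ofReal (r - ε) + ENNReal.ofReal ε := ENNReal.ofReal_add_le
    _ ≤ liminf (mR p a) atTop + ε := by
        rw [ENNReal.ofReal_coe_nnreal]
        exact add_le_add_left h2 _

theorem limsup_le {p : ℕ → ℝ} {a r : ℝ} (hr : 0 ≤ r) (h : ∀ ε : ℝ, 0 < ε → ∀ᶠ x in atTop,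
    cnt p x (Real.log x ^ a) ≤ (r + ε) * Real.log x ^ (a - 1)) :
    limsup (mR p a) atTop ≤ ENNReal.ofReal r := by
  apply ENNReal.le_of_forall_pos_le_add
  intro ε hε _
  have h1 : ∀ᶠ x in atTop, mR p a x ≤ ENNReal.ofReal (r + ε) := by
    filter_upwards [h ε (by exact_mod_cast hε), eventually_gt_atTop 1] with x hx hx1
    have hl : 0 < Real.log x ^ (a - 1) := Real.rpow_pos_of_pos (Real.log_pos hx1) _
    unfold mR
    apply ENNReal.ofReal_le_ofReal
    rw [div_le_iff₀ hl]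
    exact hx
  have h2 : limsup (mR p a) atTop ≤ ENNReal.ofReal (r + ε) := limsup_le_of_le (by isBoundedDefault) h1
  refine h2.trans ?_
  rw [ENNReal.ofReal_add hr (NNReal.coe_nonneg ε), ENNReal.ofReal_coe_nnreal]

/-- Necessity: monotonicity of the lower function. -/
theorem low_mono {p : ℕ → ℝ} (hpt : Tendsto p atTop atTop) {a b : ℝ} (ha : 1 < a) (hab : a ≤ b) :
    liminf (mR p a) atTop ≤ liminf (mR p b) atTop := by
  rcases eq_or_lt_of_le hab with rfl | hab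
  · exact le_rfl
  apply le_of_forall_lt
  intro c hc
  obtain ⟨r, hr1, hr2⟩ := ENNReal.lt_iff_exists_nnreal_btwn.1 hc
  obtain ⟨r', hr3, hr4⟩ := ENNReal.lt_iff_exists_nnreal_btwn.1 hr1
  refine lt_of_lt_of_le hr3 ?_
  have h1 : ENNReal.ofReal (r : ℝ) ≤ liminf (mR p b) atTop := by
    apply liminf_ge
    intro ε hε
    filter_upwards [prop_low hpt ha (NNReal.coe_nonneg r) (ev_low hr2) (pow_le_self b) (pow_ratio hab) hε,
      log_pow_div b] with x hx hx1
    rwa [hx1] at hx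
  rw [ENNReal.ofReal_coe_nnreal] at h1
  exact hr4.le.trans h1

theorem up_anti {p : ℕ → ℝ} (hpt : Tendsto p atTop atTop) {a b : ℝ} (ha : 1 < a) (hab : a ≤ b) :
    limsup (mR p b) atTop ≤ limsup (mR p a) atTop := by
  rcases eq_or_lt_of_le hab with rfl | hab
  · exact le_rfl
  apply le_of_forall_gt
  intro c hc
  obtain ⟨r, hr1, hr2⟩ := ENNReal.lt_iff_exists_nnreal_btwn.1 hc
  refine lt_of_le_of_lt ?_ hr2
  rw [← ENNReal.ofReal_coe_nnreal]
  apply limsup_le (NNReal.coe_nonneg r)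
  intro ε hε
  filter_upwards [prop_up hpt ha (NNReal.coe_nonneg r) (ev_up hr1) (pow_le_self b) (pow_ratio hab) hε,
    log_pow_div b] with x hx hx1
  rwa [hx1] at hx

theorem self_ratio (a : ℝ) : Tendsto (fun x : ℝ => x / Real.log x ^ a) atTop atTop := by
  have h1 : Tendsto (fun x : ℝ => Real.log x ^ a / x ^ (1 : ℝ)) atTop (𝓝[>] 0) := by
    rw [tendsto_nhdsWithin_iff]
    refine ⟨(isLittleO_log_rpow_rpow_atTop a one_pos).tendsto_div_nhds_zero, ?_⟩
    filter_upwards [eventually_gt_atTop 1] with x hx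
    exact div_pos (Real.rpow_pos_of_pos (Real.log_pos hx) _)
      (Real.rpow_pos_of_pos (by linarith) _)
  refine h1.inv_tendsto_nhdsGT_zero.congr fun x => ?_
  simp

theorem low_le_one {Z : Multiset ℂ} (hZ : ∀ ρ ∈ Z, ρ.re < 1) {p : ℕ → ℝ}
    (hpt : Tendsto p atTop atTop)
    (hpnt : ∀ ε : ℝ, 0 < ε → ∃ C : ℝ, ∀ x : ℝ, 2 ≤ x →
        |(countPr p x : ℝ) - mainTerm Z x| ≤ C * x ^ (1 / 2 + ε)) {a : ℝ} (ha : 1 < a) :
    liminf (mR p a) atTop ≤ 1 := by
  apply le_of_forall_lt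
  intro c hc
  obtain ⟨r, hr1, hr2⟩ := ENNReal.lt_iff_exists_nnreal_btwn.1 hc
  refine lt_of_lt_of_le hr1 ?_
  have h1 : (r : ℝ) ≤ 1 := by
    apply le_of_forall_pos_le_add
    intro ε hε
    have h2 := prop_low hpt ha (NNReal.coe_nonneg r) (ev_low hr2) (h := fun x => x)
      (Eventually.of_forall fun x => le_rfl) (self_ratio a) (half_pos hε)
    have h3 := cnt_double hZ hpnt (half_pos hε)
    obtain ⟨x, hx1, hx2, hx3⟩ := (h2.and (h3.and (eventually_gt_atTop 1))).exists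
    have hl : 0 < x / Real.log x := div_pos (by linarith) (Real.log_pos hx3)
    have h4 := (abs_le.1 hx2).2
    generalize x / Real.log x = t at *
    have h5 : ((r : ℝ) - ε / 2) * t ≤ (1 + ε / 2) * t := by
      linarith
    have h6 := le_of_mul_le_mul_right h5 hl
    linarith
  exact_mod_cast h1

theorem one_le_up {Z : Multiset ℂ} (hZ : ∀ ρ ∈ Z, ρ.re < 1) {p : ℕ → ℝ}
    (hpt : Tendsto p atTop atTop)
    (hpnt : ∀ ε : ℝ, 0 < ε → ∃ C : ℝ, ∀ x : ℝ, 2 ≤ x →
        |(countPr p x : ℝ) - mainTerm Z x| ≤ C * x ^ (1 / 2 + ε)) {a : ℝ} (ha : 1 < a) :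
    1 ≤ limsup (mR p a) atTop := by
  apply le_of_forall_gt
  intro c hc
  obtain ⟨r, hr1, hr2⟩ := ENNReal.lt_iff_exists_nnreal_btwn.1 hc
  refine lt_of_le_of_lt ?_ hr2
  have h1 : 1 ≤ (r : ℝ) := by
    apply le_of_forall_pos_le_add
    intro ε hε
    have h2 := prop_up hpt ha (NNReal.coe_nonneg r) (ev_up hr1) (h := fun x => x)
      (Eventually.of_forall fun x => le_rfl) (self_ratio a) (half_pos hε)
    have h3 := cnt_double hZ hpnt (half_pos hε)
    obtain ⟨x, hx1, hx2, hx3⟩ := (h2.and (h3.and (eventually_gt_atTop 1))).exists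
    have hl : 0 < x / Real.log x := div_pos (by linarith) (Real.log_pos hx3)
    have h4 := (abs_le.1 hx2).1
    generalize x / Real.log x = t at *
    have h5 : (1 - ε / 2) * t ≤ ((r : ℝ) + ε / 2) * t := by
      linarith
    have h6 := le_of_mul_le_mul_right h5 hl
    linarith
  exact_mod_cast h1

/-- a positive Cramér constant makes the lower function vanish below `2`. -/
theorem low_zero {p : ℕ → ℝ} (hp : StrictMono p) (hpt : Tendsto p atTop atTop)
    (hc : 0 < limsup (fun n => ENNReal.ofReal ((p (n + 1) - p n) / Real.log (p n) ^ 2)) atTop)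
    {a : ℝ} (ha2 : a < 2) : liminf (mR p a) atTop = 0 := by
  obtain ⟨r, hr1, hr2⟩ := ENNReal.lt_iff_exists_nnreal_btwn.1 hc
  have hr0 : 0 < (r : ℝ) := by exact_mod_cast hr1
  have hfreq := frequently_lt_of_lt_limsup (by isBoundedDefault) hr2
  have h1 : ∀ᶠ x : ℝ in atTop, Real.log x ^ a < r * Real.log x ^ 2 := by
    filter_upwards [(pow_ratio ha2).eventually_gt_atTop (1 / (r : ℝ)), eventually_gt_atTop 1]
      with x hx hx1
    have hl := Real.log_pos hx1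
    have hla : 0 < Real.log x ^ a := Real.rpow_pos_of_pos hl _
    rw [div_lt_div_iff₀ hr0 hla, one_mul] at hx
    rw [Real.rpow_two] at hx
    linarith
  have hf2 : ∃ᶠ n in atTop, mR p a (p n) = 0 := by
    refine (hfreq.and_eventually ((hpt.eventually h1).and (hpt.eventually_gt_atTop 1))).mono ?_
    rintro n ⟨hn1, hn2, hn3⟩
    have hl := Real.log_pos hn3
    have h2 : (r : ℝ) < (p (n + 1) - p n) / Real.log (p n) ^ 2 := by
      rw [← ENNReal.ofReal_coe_nnreal] at hn1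
      exact (ENNReal.ofReal_lt_ofReal_iff_of_nonneg (NNReal.coe_nonneg r)).1 hn1
    rw [lt_div_iff₀ (by positivity)] at h2
    have h3 : p n + Real.log (p n) ^ a < p (n + 1) := by linarith
    have h4 : p n ≤ p n + Real.log (p n) ^ a := by
      have := Real.rpow_nonneg hl.le a
      linarith
    unfold mR
    rw [countPr_eq hp h4 h3, countPr_eq hp le_rfl (hp (Nat.lt_succ_self n))]
    simp
  apply le_antisymm _ bot_le
  apply liminf_le_of_frequently_le'
  exact (hpt.frequently (p := fun x => mR p a x = 0) hf2).mono fun x hx => hx.le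

end Pool.Agent.H521.G
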