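import Pool.Agent.H521.G.Maier3

open MeasureTheory Set Filter Topology
open scoped ENNReal NNReal ComplexConjugate

namespace Pool.Agent.H521.G

/-- counting transported to the `y`-coordinate -/
theorem countPr_phi {f : ℝ → ℝ} {x₀ : ℝ} (hR : RDens f x₀) {y : ℕ → ℝ} (hy : ∀ n, 0 ≤ y n) {x : ℝ}
    (hx : x₀ ≤ x) : countPr (fun n => phi f x₀ (y n)) x = countPr y (Fp f x₀ x) := by
  unfold countPr
  congr 1
  ext n
  simp only [mem_ofPred_eq]
  constructor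
  · intro h
    have := hR.F_mono (hR.phi_ge _) h
    rwa [hR.F_phi (hy n)] at this
  · intro h
    have := hR.phi_mono h
    rwa [hR.phi_F hx] at this

/-- A schedule realising a list of tasks. -/
structure MC (Z : Multiset ℂ) (x₀ : ℝ) where
  hZ : ∀ ρ ∈ Z, ρ.re < 1
  hR : RDens (fZ Z) x₀
  S : Sch (fZ Z) x₀
  V : ℕ → ℝ
  hV : ∀ j, V j ∈ Ico (0 : ℝ) 1
  q : ℕ → ℝ
  ls : ℕ → ℝ
  Ck : ℕ → ℝ
  Q : ℕ → ℝ
  hq : ∀ k, 1 < q k
  hls0 : ∀ k, 0 ≤ ls k
  hls1 : ∀ k, ls k ≤ k + 1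
  hC0 : ∀ k, 0 ≤ Ck k
  hC1 : ∀ k, Ck k ≤ k + 1
  hE : ∀ k, phi (fZ Z) x₀ (S.E k) =
    phi (fZ Z) x₀ (S.A k) + Ck k * Real.log (phi (fZ Z) x₀ (S.A k)) ^ q k
  hr : ∀ k, S.r k = ⌊ls k * S.Wd k⌋₊
  h4 : ∀ k, 4 * phi (fZ Z) x₀ (S.E k) ≤ phi (fZ Z) x₀ (S.A (k + 1))
  hWg : ∀ k, S.Wd k ≤ Ck k * Real.log (phi (fZ Z) x₀ (S.A k)) ^ q k
  hPa : ∀ k, (1 + ls k) * (Ck k * Real.log (phi (fZ Z) x₀ (S.A k)) ^ q k) ≤
    phi (fZ Z) x₀ (S.A k) ^ (1 / 4 : ℝ)
  hPb : ∀ k : ℕ, (2 : ℝ) ^ k ≤ phi (fZ Z) x₀ (S.A k)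
  hPc : ∀ k : ℕ, ((k : ℝ) + 1) ^ 4 ≤ Real.log (phi (fZ Z) x₀ (S.A k))
  hPd : ∀ k : ℕ, ∀ i ≤ k, q k < Q i →
    ((k : ℝ) + 1) ^ 3 * Real.log (phi (fZ Z) x₀ (S.A k)) ^ (q k - 1) ≤
      Real.log (phi (fZ Z) x₀ (S.A k)) ^ (Q i - 1)
  hPe : ∀ k : ℕ, ((k : ℝ) + 1) ^ 4 ≤ Real.log (phi (fZ Z) x₀ (S.A k)) ^ (q k - 1)

namespace MC

variable {Z : Multiset ℂ} {x₀ : ℝ} (C : MC Z x₀)

/-- the start of window `k` -/
noncomputable def X (k : ℕ) : ℝ := phi (fZ Z) x₀ (C.S.A k)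

/-- the primes -/
noncomputable def p (n : ℕ) : ℝ := phi (fZ Z) x₀ (C.S.toW.yk C.V n)

theorem A_nonneg (k : ℕ) : 0 ≤ C.S.A k := by
  unfold Sch.A
  have := C.S.T_nonneg k
  positivity

theorem one_le_X (k : ℕ) : 1 ≤ C.X k := C.hR.phi_one_le _

theorem two_le_logX (k : ℕ) : 2 ≤ Real.log (C.X k) := C.hR.hlog _ (C.hR.phi_ge _)

theorem k_le_X (k : ℕ) : (k : ℝ) ≤ C.X k := by
  have h1 := C.hPb k
  have h2 : (k : ℝ) < 2 ^ k := by exact_mod_cast Nat.lt_two_pow_self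
  have h3 : C.X k = phi (fZ Z) x₀ (C.S.A k) := rfl
  linarith

theorem X_tendsto : Tendsto C.X atTop atTop :=
  tendsto_atTop_mono C.k_le_X tendsto_natCast_atTop_atTop

theorem E_le_two_X (k : ℕ) : phi (fZ Z) x₀ (C.S.E k) ≤ 2 * C.X k := by
  rw [C.hE]
  have h1 := C.hPa k
  have h2 := C.one_le_X k
  have h3 : (C.X k) ^ (1 / 4 : ℝ) ≤ C.X k := by
    calc (C.X k) ^ (1 / 4 : ℝ) ≤ (C.X k) ^ (1 : ℝ) :=
          Real.rpow_le_rpow_of_exponent_le h2 (by norm_num)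
      _ = C.X k := Real.rpow_one _
  have h4 : 0 ≤ C.Ck k * Real.log (phi (fZ Z) x₀ (C.S.A k)) ^ C.q k :=
    mul_nonneg (C.hC0 k) (Real.rpow_nonneg (by have := C.two_le_logX k; unfold X at this; linarith) _)
  have h5 := mul_nonneg (C.hls0 k) h4
  change _ ≤ 2 * phi (fZ Z) x₀ (C.S.A k)
  unfold X at h3
  nlinarith

theorem E_lt_A (k : ℕ) : C.S.E k < C.S.A (k + 1) := by
  by_contra hc
  push Not at hc
  have h1 := C.hR.phi_mono hc
  have h2 := C.h4 k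
  have h3 := C.hR.phi_pos (C.S.E k)
  linarith

theorem A_le_E (k : ℕ) : C.S.A k ≤ C.S.E k := by
  unfold Sch.E
  linarith [C.S.W0 k]

theorem E_mono : Monotone C.S.E := monotone_nat_of_le_succ fun k =>
  (C.E_lt_A k).le.trans (C.A_le_E (k + 1))

theorem E_tendsto : Tendsto C.S.E atTop atTop := by
  apply tendsto_atTop_mono _ (tendsto_natCast_atTop_atTop (R := ℝ))
  intro k
  have h1 : (k : ℝ) ≤ C.S.J k := by exact_mod_cast C.S.Jm.le_apply
  unfold Sch.E Sch.A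
  have := C.S.T_nonneg k
  have := C.S.W0 k
  linarith

theorem lam_le (k : ℕ) : C.S.lam k ≤ C.ls k := by
  unfold Sch.lam
  rcases eq_or_lt_of_le (C.S.W0 k) with h | h
  · rw [← h, div_zero]; exact C.hls0 k
  · rw [div_le_iff₀ h, C.hr]
    exact Nat.floor_le (mul_nonneg (C.hls0 k) h.le)

theorem lam_ge (k : ℕ) : (C.ls k - C.S.lam k) * C.S.Wd k ≤ 1 := by
  rw [sub_mul, C.S.lam_mul, C.hr]
  have := Nat.lt_floor_add_one (C.ls k * C.S.Wd k)
  linarith

/-- localisation -/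
theorem loc {b : ℝ} (K₀ : ℕ) : ∀ᶠ x in atTop, ∃ k, K₀ ≤ k ∧ ∃ cc : ℝ,
    |cnt C.p x (Real.log x ^ b) - ((Fp (fZ Z) x₀ (x + Real.log x ^ b) - Fp (fZ Z) x₀ x) +
      (C.ls k - 1) * cc)| ≤ 3 ∧ 0 ≤ cc ∧
    cc ≤ Fp (fZ Z) x₀ (x + Real.log x ^ b) - Fp (fZ Z) x₀ x ∧ cc ≤ C.S.Wd k ∧
    (0 < cc → C.X k ≤ 2 * x ∧ x ≤ 2 * C.X k) := by
  filter_upwards [eventually_ge_atTop x₀, eventually_gt_atTop 1, pow_le_self b,
    eventually_gt_atTop (phi (fZ Z) x₀ (C.S.E K₀))] with x hx0 hx1 hxb hxE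
  have hlog := Real.log_pos hx1
  have hh : 0 < Real.log x ^ b := Real.rpow_pos_of_pos hlog _
  set h : ℝ := Real.log x ^ b with hhd
  set y := Fp (fZ Z) x₀ x with hy
  set z := Fp (fZ Z) x₀ (x + h) with hz
  have hy0 : 0 ≤ y := by
    have := C.hR.F_mono le_rfl hx0
    rwa [C.hR.F_zero] at this
  have hyz : y ≤ z := C.hR.F_mono hx0 (by linarith)
  have hex : ∃ k, y < C.S.E k := (C.E_tendsto.eventually_gt_atTop y).exists
  classical
  set k := Nat.find hex with hk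
  have hkE : y < C.S.E k := Nat.find_spec hex
  have hmin : ∀ i < k, C.S.E i ≤ y := fun i hi => not_lt.1 (Nat.find_min hex hi)
  have hφy : phi (fZ Z) x₀ y = x := C.hR.phi_F hx0
  have hφz : phi (fZ Z) x₀ z = x + h := C.hR.phi_F (by linarith)
  have hK₀ : K₀ ≤ k := by
    by_contra hc
    push Not at hc
    have h1 := C.E_mono hc.le
    have h2 := C.hR.phi_mono (hkE.le.trans h1)
    rw [hφy] at h2
    linarith
  have hxk : x < phi (fZ Z) x₀ (C.S.E k) := by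
    rw [← hφy]; exact C.hR.phi_lt hy0 hkE
  have hzA : z < C.S.A (k + 1) := by
    by_contra hc
    push Not at hc
    have h1 := C.hR.phi_mono hc
    rw [hφz] at h1
    have h2 := C.h4 k
    linarith
  have hci := C.S.count_incr C.hV hy0 hyz hmin hzA
  refine ⟨k, hK₀, C.S.cl k z - C.S.cl k y, ?_, ?_, ?_, ?_, ?_⟩
  · have e1 : cnt C.p x h = (countPr (fun n => C.S.toW.yk C.V n) z : ℝ) -
        countPr (fun n => C.S.toW.yk C.V n) y := by
      unfold cnt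
      have a1 := countPr_phi C.hR (y := C.S.toW.yk C.V) (fun n => C.S.toW.yk_nonneg C.hV n)
        (x := x + h) (by linarith)
      have a2 := countPr_phi C.hR (y := C.S.toW.yk C.V) (fun n => C.S.toW.yk_nonneg C.hV n)
        (x := x) hx0
      change (countPr C.p (x + h) : ℝ) - _ = _
      have a1' : countPr C.p (x + h) = countPr (C.S.toW.yk C.V) z := a1
      have a2' : countPr C.p x = countPr (C.S.toW.yk C.V) y := a2
      rw [a1', a2']
    rw [e1]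
    set cc := C.S.cl k z - C.S.cl k y with hcc
    have hc0 : 0 ≤ cc := by have := C.S.cl_mono (k := k) hyz; linarith
    have hcW : cc ≤ C.S.Wd k := by
      have := C.S.cl_le k z
      have := C.S.cl_nonneg k y
      linarith
    have h5 := C.lam_le k
    have h6 := C.lam_ge k
    have h7 : 0 ≤ (C.ls k - C.S.lam k) * cc := mul_nonneg (by linarith) hc0
    have h8 : (C.ls k - C.S.lam k) * cc ≤ 1 :=
      (mul_le_mul_of_nonneg_left hcW (by linarith)).trans h6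
    have h9 := abs_le.1 hci
    rw [abs_le]
    constructor <;> nlinarith [h9.1, h9.2]
  · have := C.S.cl_mono (k := k) hyz
    linarith
  · exact C.S.cl_sub_le hyz
  · have := C.S.cl_le k z
    have := C.S.cl_nonneg k y
    linarith
  · intro hcc
    have hzA' : C.S.A k < z := by
      by_contra hc
      push Not at hc
      rw [C.S.cl_zero hc] at hcc
      have := C.S.cl_nonneg k y
      linarith
    have h1 : C.X k ≤ x + h := by
      rw [← hφz]; exact C.hR.phi_mono hzA'.le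
    have h2 := C.E_le_two_X k
    constructor <;> linarith

include C in
/-- the length of the interval in the template -/
theorem H_bd {b ε : ℝ} (hε : 0 < ε) : ∀ᶠ x in atTop,
    |(Fp (fZ Z) x₀ (x + Real.log x ^ b) - Fp (fZ Z) x₀ x) - Real.log x ^ (b - 1)| ≤
      ε * Real.log x ^ (b - 1) := by
  filter_upwards [transfer C.hZ C.hR hε, pow_le_self b, eventually_gt_atTop 1,
    log_pow_div b] with x hx1 hx2 hx3 hx4
  have hl := Real.log_pos hx3
  have hh : 0 < Real.log x ^ b := Real.rpow_pos_of_pos hl _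
  have h1 := hx1.2 (x + Real.log x ^ b) (by linarith) (by linarith)
  have e : x + Real.log x ^ b - x = Real.log x ^ b := by ring
  rw [e] at h1
  rw [← hx4]
  set D := Fp (fZ Z) x₀ (x + Real.log x ^ b) - Fp (fZ Z) x₀ x with hD
  have e2 : D - Real.log x ^ b / Real.log x = (D * Real.log x - Real.log x ^ b) / Real.log x := by
    field_simp
  rw [e2, abs_div, abs_of_pos hl, mul_div_assoc']
  exact div_le_div_of_nonneg_right h1 hl.le

/-- the length of the windows -/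
theorem W_le : ∀ᶠ k in atTop, C.S.Wd k ≤ 2 * (k + 1) * Real.log (C.X k) ^ (C.q k - 1) := by
  filter_upwards [C.X_tendsto.eventually (transfer C.hZ C.hR one_pos)] with k hk
  have hX := C.E_le_two_X k
  have hXE : C.X k ≤ phi (fZ Z) x₀ (C.S.E k) := C.hR.phi_mono (C.A_le_E k)
  have h1 := hk.2 _ hXE hX
  have hA := C.hR.F_phi (C.A_nonneg k)
  have hE := C.hR.F_phi ((C.A_nonneg k).trans (C.A_le_E k))
  change Fp (fZ Z) x₀ (C.X k) = _ at hA
  rw [hA, hE] at h1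
  have e1 : C.S.E k - C.S.A k = C.S.Wd k := by unfold Sch.E; ring
  have e2 : phi (fZ Z) x₀ (C.S.E k) - C.X k = C.Ck k * Real.log (C.X k) ^ C.q k := by
    rw [C.hE]; unfold X; ring
  rw [e1, e2] at h1
  have h2 := (abs_le.1 h1).2
  have hl := C.two_le_logX k
  have hl0 : 0 < Real.log (C.X k) := by linarith
  have hpow : 0 < Real.log (C.X k) ^ C.q k := Real.rpow_pos_of_pos hl0 _
  rw [Real.rpow_sub_one hl0.ne', mul_div_assoc', le_div_iff₀ hl0]
  have h3 : C.Ck k * Real.log (C.X k) ^ C.q k ≤ (k + 1) * Real.log (C.X k) ^ C.q k :=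
    mul_le_mul_of_nonneg_right (C.hC1 k) hpow.le
  linarith

/-- windows with small exponent are negligible -/
theorem W_small {b d : ℝ} (hd1 : 1 < d) (hdb : d ≤ b) {i : ℕ} (hi : C.Q i = d) {ε : ℝ}
    (hε : 0 < ε) : ∀ᶠ k : ℕ in atTop, C.q k < d → ∀ x, 1 < x → C.X k ≤ 2 * x → 2 ≤ Real.log x →
      (k + 1) * C.S.Wd k ≤ ε * Real.log x ^ (b - 1) := by
  have h1 : ∀ᶠ k : ℕ in atTop, (2 * 2 ^ (b - 1)) / ε ≤ (k : ℝ) :=
    tendsto_natCast_atTop_atTop.eventually_ge_atTop _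
  filter_upwards [C.W_le, eventually_ge_atTop i, h1] with k hk1 hk2 hk3 hq x hx1 hx2 hx3
  have h2 := C.hPd k i hk2 (by rw [hi]; exact hq)
  rw [hi] at h2
  change _ * Real.log (C.X k) ^ (C.q k - 1) ≤ Real.log (C.X k) ^ (d - 1) at h2
  have hk0 : (0 : ℝ) < (k : ℝ) + 1 := by positivity
  have hlX := C.two_le_logX k
  have hlX2 : Real.log (C.X k) ≤ 2 * Real.log x := by
    have h5 : Real.log (C.X k) ≤ Real.log (2 * x) :=
      Real.log_le_log (by linarith [C.one_le_X k]) hx2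
    rw [Real.log_mul (by norm_num) (by linarith)] at h5
    have := Real.log_two_lt_d9
    linarith
  have h3 : Real.log (C.X k) ^ (d - 1) ≤ 2 ^ (b - 1) * Real.log x ^ (b - 1) := by
    calc Real.log (C.X k) ^ (d - 1) ≤ Real.log (C.X k) ^ (b - 1) :=
          Real.rpow_le_rpow_of_exponent_le (by linarith) (by linarith)
      _ ≤ (2 * Real.log x) ^ (b - 1) := Real.rpow_le_rpow (by linarith) hlX2 (by linarith)
      _ = _ := Real.mul_rpow (by norm_num) (by linarith)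
  have h4 : (k + 1) * ((k + 1) * C.S.Wd k) ≤ 2 * (2 ^ (b - 1) * Real.log x ^ (b - 1)) := by
    calc ((k : ℝ) + 1) * ((k + 1) * C.S.Wd k) ≤
          (k + 1) * ((k + 1) * (2 * (k + 1) * Real.log (C.X k) ^ (C.q k - 1))) := by gcongr
      _ = 2 * (((k : ℝ) + 1) ^ 3 * Real.log (C.X k) ^ (C.q k - 1)) := by ring
      _ ≤ 2 * Real.log (C.X k) ^ (d - 1) := by linarith
      _ ≤ _ := by linarith
  have hlx : 0 < Real.log x ^ (b - 1) := Real.rpow_pos_of_pos (by linarith) _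
  rw [div_le_iff₀ hε] at hk3
  have h5 : (k + 1) * ((k + 1) * C.S.Wd k) ≤ (k + 1) * (ε * Real.log x ^ (b - 1)) := by
    refine h4.trans ?_
    nlinarith
  exact le_of_mul_le_mul_left h5 hk0

end MC

end Pool.Agent.H521.G
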