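import Pool.Agent.H521.G.Maier4

open MeasureTheory Set Filter Topology
open scoped ENNReal NNReal ComplexConjugate

namespace Pool.Agent.H521.G

namespace MC

variable {Z : Multiset ℂ} {x₀ : ℝ} (C : MC Z x₀)

theorem logpow_tendsto {b : ℝ} (hb : 1 < b) :
    Tendsto (fun x : ℝ => Real.log x ^ (b - 1)) atTop atTop :=
  (tendsto_rpow_atTop (by linarith)).comp Real.tendsto_log_atTop

theorem up_bd {b d u : ℝ} (hd1 : 1 < d) (hdb : d ≤ b) {i : ℕ} (hi : C.Q i = d) (hu : 1 ≤ u)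
    (hT : ∀ k, d ≤ C.q k → C.ls k ≤ u) {ε : ℝ} (hε : 0 < ε) :
    ∀ᶠ x in atTop, cnt C.p x (Real.log x ^ b) ≤ (u + ε) * Real.log x ^ (b - 1) := by
  have hb1 : 1 < b := by linarith
  obtain ⟨K₀, hK₀⟩ := eventually_atTop.1 (C.W_small hd1 hdb hi (by positivity : 0 < ε / 4))
  have hδ : 0 < ε / (4 * u) := by positivity
  filter_upwards [C.loc (b := b) K₀, C.H_bd (b := b) hδ,
    (logpow_tendsto hb1).eventually_ge_atTop (12 / ε), eventually_gt_atTop 1,
    Real.tendsto_log_atTop.eventually_ge_atTop 2] with x hx1 hx2 hx3 hx4 hx5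
  obtain ⟨k, hk, cc, h1, h2, h3, h5, h6⟩ := hx1
  set H := Fp (fZ Z) x₀ (x + Real.log x ^ b) - Fp (fZ Z) x₀ x with hH
  set T := Real.log x ^ (b - 1) with hT'
  have hT0 : 0 < T := Real.rpow_pos_of_pos (by linarith) _
  have h7 := (abs_le.1 h1).2
  have h8 := (abs_le.1 hx2).2
  have h9 : 3 ≤ ε / 4 * T := by
    rw [div_le_iff₀ hε] at hx3
    linarith
  have h10 : ε / (4 * u) * T ≤ ε / 4 * T := by
    apply mul_le_mul_of_nonneg_right _ hT0.le
    apply div_le_div_of_nonneg_left hε.le (by norm_num)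
    linarith
  have h11 : u * (ε / (4 * u) * T) = ε / 4 * T := by field_simp
  have huT : T ≤ u * T := le_mul_of_one_le_left hT0.le hu
  rcases eq_or_lt_of_le h2 with hcc | hcc
  · rw [← hcc, mul_zero, add_zero] at h7
    nlinarith
  rcases le_or_gt (C.ls k) 1 with hls | hls
  · have : (C.ls k - 1) * cc ≤ 0 := mul_nonpos_of_nonpos_of_nonneg (by linarith) h2
    nlinarith
  rcases le_or_gt d (C.q k) with hq | hq
  · have h12 : (C.ls k - 1) * cc ≤ (u - 1) * H := by
      apply mul_le_mul _ h3 h2 (by linarith)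
      linarith [hT k hq]
    have h13 : u * H ≤ u * (T + ε / (4 * u) * T) := by
      apply mul_le_mul_of_nonneg_left _ (by linarith)
      linarith
    nlinarith
  · obtain ⟨h13, h14⟩ := h6 hcc
    have h15 := hK₀ k hk hq x hx4 h13 hx5
    have h16 : (C.ls k - 1) * cc ≤ (k + 1) * C.S.Wd k := by
      apply mul_le_mul _ h5 h2 (by positivity)
      linarith [C.hls1 k]
    nlinarith

theorem low_bd {b d l : ℝ} (hd1 : 1 < d) (hdb : d ≤ b) {i : ℕ} (hi : C.Q i = d) (hl0 : 0 ≤ l)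
    (hl1 : l ≤ 1) (hT : ∀ k, d ≤ C.q k → l ≤ C.ls k ∨ C.Ck k = 0) {ε : ℝ} (hε : 0 < ε) :
    ∀ᶠ x in atTop, (l - ε) * Real.log x ^ (b - 1) ≤ cnt C.p x (Real.log x ^ b) := by
  have hb1 : 1 < b := by linarith
  obtain ⟨K₀, hK₀⟩ := eventually_atTop.1 (C.W_small hd1 hdb hi (by positivity : 0 < ε / 4))
  filter_upwards [C.loc (b := b) K₀, C.H_bd (b := b) (by positivity : 0 < ε / 4),
    (logpow_tendsto hb1).eventually_ge_atTop (12 / ε), eventually_gt_atTop 1,
    Real.tendsto_log_atTop.eventually_ge_atTop 2] with x hx1 hx2 hx3 hx4 hx5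
  obtain ⟨k, hk, cc, h1, h2, h3, h5, h6⟩ := hx1
  set H := Fp (fZ Z) x₀ (x + Real.log x ^ b) - Fp (fZ Z) x₀ x with hH
  set T := Real.log x ^ (b - 1) with hT'
  have hT0 : 0 < T := Real.rpow_pos_of_pos (by linarith) _
  have h7 := (abs_le.1 h1).1
  have h8 := (abs_le.1 hx2).1
  have h9 : 3 ≤ ε / 4 * T := by
    rw [div_le_iff₀ hε] at hx3
    linarith
  have hlT : l * T ≤ T := mul_le_of_le_one_left hT0.le hl1
  rcases eq_or_lt_of_le h2 with hcc | hcc
  · rw [← hcc, mul_zero, add_zero] at h7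
    nlinarith
  rcases le_or_gt 1 (C.ls k) with hls | hls
  · have : 0 ≤ (C.ls k - 1) * cc := mul_nonneg (by linarith) h2
    nlinarith
  rcases le_or_gt d (C.q k) with hq | hq
  · rcases hT k hq with h12 | h12
    · have h13 : (l - 1) * H ≤ (C.ls k - 1) * cc := by
        have h14 : (l - 1) * H ≤ (l - 1) * cc := mul_le_mul_of_nonpos_left h3 (by linarith)
        have h15 : (l - 1) * cc ≤ (C.ls k - 1) * cc := mul_le_mul_of_nonneg_right (by linarith) h2
        linarith
      have h16 : l * (T - ε / 4 * T) ≤ l * H := mul_le_mul_of_nonneg_left (by linarith) hl0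
      have h17 : l * (ε / 4 * T) ≤ ε / 4 * T := mul_le_of_le_one_left (by positivity) hl1
      nlinarith
    · have := C.hWg k
      rw [h12, zero_mul] at this
      linarith
  · obtain ⟨h13, h14⟩ := h6 hcc
    have h15 := hK₀ k hk hq x hx4 h13 hx5
    have h16 : -((k + 1) * C.S.Wd k) ≤ (C.ls k - 1) * cc := by
      have h17 : cc ≤ (k + 1) * C.S.Wd k := by
        have : (0 : ℝ) ≤ k := Nat.cast_nonneg k
        have hW := C.S.W0 k
        nlinarith
      have h18 : 0 ≤ C.ls k * cc := mul_nonneg (C.hls0 k) h2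
      nlinarith
    nlinarith

theorem at_X {b : ℝ} (hb1 : 1 < b) {ε : ℝ} (hε : 0 < ε) : ∀ᶠ k : ℕ in atTop, b ≤ C.q k →
    C.Ck k = 1 → |cnt C.p (C.X k) (Real.log (C.X k) ^ b) -
      C.ls k * Real.log (C.X k) ^ (b - 1)| ≤ ε * (1 + C.ls k) * Real.log (C.X k) ^ (b - 1) := by
  have h3ε : ∀ᶠ x : ℝ in atTop, 3 / ε ≤ Real.log x ^ (b - 1) :=
    (logpow_tendsto hb1).eventually_ge_atTop _
  filter_upwards [C.X_tendsto.eventually (C.H_bd (b := b) hε), C.X_tendsto.eventually h3ε,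
    C.X_tendsto.eventually (pow_le_self b)] with k hk1 hk2 hk3 hq hC
  have hx0 : x₀ ≤ C.X k := C.hR.phi_ge _
  have hlX := C.two_le_logX k
  have hh : 0 < Real.log (C.X k) ^ b := Real.rpow_pos_of_pos (by linarith) _
  set x := C.X k with hx
  set y := C.S.A k with hy
  set z := Fp (fZ Z) x₀ (x + Real.log x ^ b) with hz
  have hFx : Fp (fZ Z) x₀ x = y := C.hR.F_phi (C.A_nonneg k)
  have hyz : y ≤ z := by rw [← hFx]; exact C.hR.F_mono hx0 (by linarith)
  have hzE : z ≤ C.S.E k := by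
    have h1 : x + Real.log x ^ b ≤ phi (fZ Z) x₀ (C.S.E k) := by
      rw [C.hE, hC, one_mul]
      have : Real.log x ^ b ≤ Real.log x ^ C.q k :=
        Real.rpow_le_rpow_of_exponent_le (by linarith) hq
      change _ ≤ x + Real.log x ^ C.q k
      linarith
    have h2 := C.hR.F_mono (by linarith) h1
    rwa [C.hR.F_phi ((C.A_nonneg k).trans (C.A_le_E k))] at h2
  have hmin : ∀ i < k, C.S.E i ≤ y := fun i hi => by
    have h1 := C.E_mono (by omega : i ≤ k - 1)
    have h2 := C.E_lt_A (k - 1)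
    have e : k - 1 + 1 = k := by omega
    rw [e] at h2
    linarith
  have hci := C.S.count_incr C.hV (C.A_nonneg k) hyz hmin (lt_of_le_of_lt hzE (C.E_lt_A k))
  rw [C.S.cl_zero le_rfl, C.S.cl_mid hyz hzE, sub_zero] at hci
  have e1 : cnt C.p x (Real.log x ^ b) = (countPr (fun n => C.S.toW.yk C.V n) z : ℝ) -
      countPr (fun n => C.S.toW.yk C.V n) y := by
    have a1 : countPr C.p (x + Real.log x ^ b) = countPr (C.S.toW.yk C.V) z :=
      countPr_phi C.hR (fun n => C.S.toW.yk_nonneg C.hV n) (by linarith)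
    have a2 : countPr C.p x = countPr (C.S.toW.yk C.V) y := by
      rw [← hFx]
      exact countPr_phi C.hR (fun n => C.S.toW.yk_nonneg C.hV n) hx0
    unfold cnt
    rw [a1, a2]
  rw [← e1] at hci
  rw [hFx] at hk1
  set H := z - y with hH
  set T := Real.log x ^ (b - 1) with hT
  have hH0 : 0 ≤ H := by linarith
  have hT0 : 0 < T := Real.rpow_pos_of_pos (by linarith) _
  have hHW : H ≤ C.S.Wd k := by
    have : C.S.E k = y + C.S.Wd k := rfl
    linarith
  have h5 := C.lam_le k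
  have h6 := C.lam_ge k
  have h7 : 0 ≤ (C.ls k - C.S.lam k) * H := mul_nonneg (by linarith) hH0
  have h8 : (C.ls k - C.S.lam k) * H ≤ 1 :=
    (mul_le_mul_of_nonneg_left hHW (by linarith)).trans h6
  have h9 := abs_le.1 hci
  have h10 := abs_le.1 hk1
  have h11 : 3 ≤ ε * T := by
    rw [div_le_iff₀ hε] at hk2
    linarith
  have hls0 := C.hls0 k
  have h12 : C.ls k * (H - T) ≤ C.ls k * (ε * T) := mul_le_mul_of_nonneg_left h10.2 hls0
  have h13 : C.ls k * (-(ε * T)) ≤ C.ls k * (H - T) := mul_le_mul_of_nonneg_left h10.1 hls0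
  rw [abs_le]
  constructor <;> nlinarith [h9.1, h9.2]

end MC

end Pool.Agent.H521.G
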