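import Pool.Agent.H521.G.Maier5

open MeasureTheory Set Filter Topology
open scoped ENNReal NNReal ComplexConjugate

namespace Pool.Agent.H521.G

theorem RDens.phi_cell_two {f : ℝ → ℝ} {x₀ : ℝ} (hR : RDens f x₀) {y : ℝ} (hy : 0 ≤ y) :
    phi f x₀ (y + 1) ≤ 2 * phi f x₀ y := by
  have h1 := hR.phi_cell hy
  have h2 := hR.hlog4 _ (hR.phi_ge y)
  linarith

theorem gfin1 {c ε l g : ℝ} (hc : 0 ≤ c) (hl : 2 ≤ l) (h : 3 * c + 40 ≤ l * ε)
    (hg : g ≤ 2 * (2 * (2 * l))) : g ≤ (c + ε) * l ^ 2 := by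
  have h1 : (3 * c + 40) * l ≤ l * ε * l := mul_le_mul_of_nonneg_right h (by linarith)
  have h2 : 0 ≤ c * l ^ 2 := by positivity
  nlinarith

theorem gfin2 {c ε l L g : ℝ} (hc : 0 ≤ c) (hl : 2 ≤ l) (h : 3 * c + 40 ≤ l * ε)
    (hL0 : 0 ≤ L) (hL : L ≤ l + 1) (hg : g ≤ c * L ^ 2 + 12 * L) : g ≤ (c + ε) * l ^ 2 := by
  have h1 : (3 * c + 40) * l ≤ l * ε * l := mul_le_mul_of_nonneg_right h (by linarith)
  have h2 : c * L ^ 2 ≤ c * (l + 1) ^ 2 :=
    mul_le_mul_of_nonneg_left (pow_le_pow_left₀ hL0 hL 2) hc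
  have h3 : 0 ≤ c * l := by positivity
  have h4 : c ≤ c * l := le_mul_of_one_le_right hc (by linarith)
  nlinarith

theorem gfin3 {c ε l L g k : ℝ} (hc : 0 ≤ c) (hε : 0 < ε) (hl : 2 ≤ l) (hk : 48 / ε ≤ k)
    (hk1 : 0 ≤ k) (hL0 : 0 ≤ L) (hL : L ≤ 2 * l) (hkL : (k + 1) ^ 4 ≤ L)
    (hg : g ≤ (3 * (k + 1)) * (2 * (2 * L))) : g ≤ (c + ε) * l ^ 2 := by
  have h11 : (k + 1) * L * k ≤ L ^ 2 := by
    have h12 : (k + 1) * k ≤ (k + 1) ^ 4 := by
      have h13 : (1 : ℝ) ≤ (k + 1) ^ 2 := one_le_pow₀ (by linarith)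
      have h14 : (k + 1) * k ≤ (k + 1) ^ 2 := by nlinarith
      have h15 : (k + 1) ^ 4 = (k + 1) ^ 2 * (k + 1) ^ 2 := by ring
      rw [h15]
      nlinarith
    have h13 : (k + 1) * k ≤ L := h12.trans hkL
    nlinarith
  have h12 : (k + 1) * L * (48 / ε) ≤ L ^ 2 := by
    refine le_trans ?_ h11
    exact mul_le_mul_of_nonneg_left hk (by positivity)
  have h13 : L ^ 2 ≤ 4 * l ^ 2 := by nlinarith
  have h14 : (k + 1) * L * 12 ≤ ε * l ^ 2 := by
    have h15 : (k + 1) * L * (48 / ε) ≤ 4 * l ^ 2 := h12.trans h13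
    rw [mul_div_assoc', div_le_iff₀ hε] at h15
    linarith
  have h2 : 0 ≤ c * l ^ 2 := by positivity
  nlinarith

theorem gfin4 {k W : ℝ} (hk2 : 2 ≤ k + 1) (h : (k + 1) ^ 4 / 2 ≤ W) : 2 * (k + 1) ≤ W := by
  have h10 : 4 * (k + 1) ≤ (k + 1) ^ 4 := by
    have h11 : (2 : ℝ) ^ 3 ≤ (k + 1) ^ 3 := pow_le_pow_left₀ (by norm_num) hk2 3
    nlinarith
  linarith

namespace MC

variable {Z : Multiset ℂ} {x₀ : ℝ} (C : MC Z x₀)

theorem kap_tendsto : Tendsto C.S.kap atTop atTop := by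
  rw [tendsto_atTop_atTop]
  intro k
  refine ⟨C.S.J k, fun j hj => ?_⟩
  have := C.S.kap_mono hj
  rwa [C.S.kap_J] at this

/-- gaps in the `y`-coordinate -/
theorem y_gap (n : ℕ) :
    (C.S.J (C.S.kap (blk C.S.toW.n n)) ≠ blk C.S.toW.n n ∧
      C.S.toW.yk C.V (n + 1) - C.S.toW.yk C.V n ≤ 2) ∨
    (C.S.J (C.S.kap (blk C.S.toW.n n)) = blk C.S.toW.n n ∧ 0 < C.S.r (C.S.kap (blk C.S.toW.n n)) ∧
      C.S.toW.yk C.V (n + 1) - C.S.toW.yk C.V n ≤
        1 + C.S.Wd (C.S.kap (blk C.S.toW.n n)) / C.S.r (C.S.kap (blk C.S.toW.n n))) ∨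
    (C.S.J (C.S.kap (blk C.S.toW.n n)) = blk C.S.toW.n n ∧
      C.S.r (C.S.kap (blk C.S.toW.n n)) = 0) := by
  set j := blk C.S.toW.n n with hj
  set k := C.S.kap j with hk
  by_cases hJ : C.S.J k = j
  · rcases Nat.eq_zero_or_pos (C.S.r k) with hr | hr
    · right; right; exact ⟨hJ, hr⟩
    · right; left
      refine ⟨hJ, hr, ?_⟩
      have hW := C.S.rW _ hr
      have hr' : (0 : ℝ) < C.S.r k := by exact_mod_cast hr
      have hWr : 0 < C.S.Wd k / C.S.r k := by positivity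
      have hnj : C.S.toW.n j = C.S.r k + 1 := by
        change (if C.S.J (C.S.kap j) = j then C.S.r (C.S.kap j) else 0) + 1 = _
        rw [← hk, if_pos hJ]
      have ht : ∀ l : ℕ, C.S.toW.t j l = C.S.Y j + 1 + l * (C.S.Wd k / C.S.r k) := fun l => rfl
      have hYs : C.S.toW.Y (j + 1) = C.S.Y j + 1 + C.S.Wd k := by
        change C.S.Y (j + 1) = _
        rw [C.S.Y_succ, ← hk, if_pos hJ]
      rcases blk_succ C.S.toW.n_pos n with ⟨h1, h2, h3⟩ | ⟨h1, h2, h3⟩
      · rw [← hj] at h1 h2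
        have e1 : C.S.toW.yk C.V (n + 1) = C.S.toW.t j (pos C.S.toW.n n) := by
          unfold Wdata.yk
          rw [h2, h3, if_neg (Nat.succ_ne_zero _)]
          rfl
        rw [e1, ht]
        rcases Nat.eq_zero_or_pos (pos C.S.toW.n n) with h0 | h0
        · have e2 : C.S.toW.yk C.V n = C.S.toW.Y j + C.V j := by
            unfold Wdata.yk
            rw [h0, if_pos rfl, ← hj]
          rw [e2, h0]
          change C.S.Y j + 1 + _ - (C.S.Y j + C.V j) ≤ _
          have := (C.hV j).1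
          push_cast
          linarith
        · obtain ⟨l, hl⟩ : ∃ l, pos C.S.toW.n n = l + 1 := ⟨pos C.S.toW.n n - 1, by omega⟩
          have e2 : C.S.toW.yk C.V n = C.S.toW.t j l := by
            unfold Wdata.yk
            rw [hl, if_neg (Nat.succ_ne_zero _), ← hj]
            rfl
          rw [e2, ht, hl]
          push_cast
          linarith
      · rw [← hj] at h1 h2
        have e1 : C.S.toW.yk C.V (n + 1) = C.S.toW.Y (j + 1) + C.V (j + 1) := by
          unfold Wdata.yk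
          rw [h2, h3, if_pos rfl]
        obtain ⟨l, hl⟩ : ∃ l, pos C.S.toW.n n = l + 1 := ⟨pos C.S.toW.n n - 1, by omega⟩
        have e2 : C.S.toW.yk C.V n = C.S.toW.t j l := by
          unfold Wdata.yk
          rw [hl, if_neg (Nat.succ_ne_zero _), ← hj]
          rfl
        rw [e1, e2, ht, hYs]
        have hlr : (l : ℝ) + 1 = C.S.r k := by
          have : l + 1 = C.S.r k := by omega
          exact_mod_cast this
        have h4 : (l : ℝ) * (C.S.Wd k / C.S.r k) = C.S.Wd k - C.S.Wd k / C.S.r k := by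
          rw [← hlr]
          have : (l : ℝ) + 1 ≠ 0 := by positivity
          field_simp
          ring
        have := (C.hV (j + 1)).2
        linarith
  · left
    refine ⟨hJ, ?_⟩
    have h1 := (C.S.toW.yk_step C.hV n).2
    rw [← hj] at h1
    change _ ≤ 2 + (if C.S.J (C.S.kap j) = j then C.S.Wd (C.S.kap j) else 0) at h1
    rw [← hk, if_neg hJ, add_zero] at h1
    exact h1

theorem W_ge : ∀ᶠ k in atTop, C.Ck k = 1 → 1 / 2 * Real.log (C.X k) ^ (C.q k - 1) ≤ C.S.Wd k := by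
  filter_upwards [C.X_tendsto.eventually (transfer C.hZ C.hR (by norm_num : (0 : ℝ) < 1 / 2))]
    with k hk hC
  have hX := C.E_le_two_X k
  have hXE : C.X k ≤ phi (fZ Z) x₀ (C.S.E k) := C.hR.phi_mono (C.A_le_E k)
  have h1 := hk.2 _ hXE hX
  have hA := C.hR.F_phi (C.A_nonneg k)
  have hE := C.hR.F_phi ((C.A_nonneg k).trans (C.A_le_E k))
  change Fp (fZ Z) x₀ (C.X k) = _ at hA
  rw [hA, hE] at h1
  have e1 : C.S.E k - C.S.A k = C.S.Wd k := by unfold Sch.E; ring
  have e2 : phi (fZ Z) x₀ (C.S.E k) - C.X k = Real.log (C.X k) ^ C.q k := by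
    rw [C.hE, hC]; unfold X; ring
  rw [e1, e2] at h1
  have h2 := (abs_le.1 h1).1
  have hl := C.two_le_logX k
  have hl0 : 0 < Real.log (C.X k) := by linarith
  have hpow : 0 < Real.log (C.X k) ^ C.q k := Real.rpow_pos_of_pos hl0 _
  rw [Real.rpow_sub_one hl0.ne', mul_div_assoc', div_le_iff₀ hl0]
  linarith

theorem p_ge (n : ℕ) : phi (fZ Z) x₀ (C.S.Y (blk C.S.toW.n n)) ≤ C.p n :=
  C.hR.phi_mono (C.S.toW.Y_le_yk C.hV n)

theorem yk_nonneg (n : ℕ) : 0 ≤ C.S.toW.yk C.V n := C.S.toW.yk_nonneg C.hV n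

theorem yk_tendsto : Tendsto (C.S.toW.yk C.V) atTop atTop := C.S.toW.yk_tendsto C.hV

theorem p_tendsto : Tendsto C.p atTop atTop := C.hR.phi_tendsto.comp C.yk_tendsto

theorem p_strictMono : StrictMono C.p := fun _ _ h =>
  C.hR.phi_lt (C.yk_nonneg _) (C.S.toW.yk_strictMono C.hV h)

/-- **Upper bound for the gaps.** -/
theorem gap_up {c : ℝ} (hc : 0 ≤ c) (hT : ∀ k, (C.q k = 2 ∧ C.Ck k ≤ c) ∨
    (C.Ck k = 1 ∧ 1 / ((k : ℝ) + 1) ≤ C.ls k)) {ε : ℝ} (hε : 0 < ε) :
    ∀ᶠ n in atTop, C.p (n + 1) - C.p n ≤ (c + ε) * Real.log (C.p n) ^ 2 := by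
  have hkt : Tendsto (fun n => C.S.kap (blk C.S.toW.n n)) atTop atTop :=
    C.kap_tendsto.comp (blk_tendsto C.S.toW.n_pos)
  have h0 : ∀ᶠ k : ℕ in atTop, 1 ≤ k := eventually_ge_atTop 1
  have h48 : ∀ᶠ k : ℕ in atTop, 48 / ε ≤ (k : ℝ) :=
    tendsto_natCast_atTop_atTop.eventually_ge_atTop _
  have hlogp : Tendsto (fun n => Real.log (C.p n)) atTop atTop :=
    Real.tendsto_log_atTop.comp C.p_tendsto
  filter_upwards [hkt.eventually C.W_ge, hkt.eventually h0, hkt.eventually h48,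
    hlogp.eventually_ge_atTop ((3 * c + 40) / ε), hlogp.eventually_ge_atTop 2]
    with n hn1 hn2 hn3 hn4 hn5
  set j := blk C.S.toW.n n with hj
  set k := C.S.kap j with hk
  have hp0 : 0 < C.p n := C.hR.phi_pos _
  have hp1 : 0 < C.p (n + 1) := C.hR.phi_pos _
  have hlp0 : 0 < Real.log (C.p n) := by linarith
  rw [div_le_iff₀ hε] at hn4
  have hlog2 := Real.log_two_lt_d9
  have hc' : 0 ≤ c * Real.log (C.p n) ^ 2 := by positivity
  have hgapx : C.p (n + 1) - C.p n ≤ (C.S.toW.yk C.V (n + 1) - C.S.toW.yk C.V n) *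
      (2 * Real.log (C.p (n + 1))) :=
    C.hR.phi_sub_le (C.yk_nonneg n) (C.S.toW.yk_step C.hV n).1.le
  -- estimates in a window block
  have hwin : C.S.J k = j → C.p (n + 1) ≤ phi (fZ Z) x₀ (C.S.E k + 1) ∧
      C.X k ≤ C.p n + 4 * Real.log (C.X k) ∧ C.X k ≤ 2 * C.p n := by
    intro hJ
    have hA : C.S.A k = C.S.Y j + 1 := C.S.A_eq hJ
    have hYj0 : 0 ≤ C.S.Y j := C.S.toW.Y_nonneg j
    have h1 : C.S.toW.yk C.V (n + 1) ≤ C.S.E k + 1 := by
      have hYs : C.S.Y (j + 1) = C.S.E k := by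
        rw [C.S.Y_succ, ← hk, if_pos hJ]; unfold Sch.E; rw [hA]
      rcases blk_succ C.S.toW.n_pos n with ⟨-, h2, -⟩ | ⟨-, h2, h3⟩
      · have h4 := C.S.toW.yk_lt_Y C.hV (n + 1)
        rw [h2, ← hj] at h4
        change _ < C.S.Y (j + 1) at h4
        linarith
      · have e1 : C.S.toW.yk C.V (n + 1) = C.S.Y (j + 1) + C.V (j + 1) := by
          unfold Wdata.yk
          rw [h2, h3, if_pos rfl, ← hj]
          rfl
        rw [e1]
        linarith [(C.hV (j + 1)).2]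
    have h5 := C.p_ge n
    rw [← hj] at h5
    have h6 := C.hR.phi_cell hYj0
    rw [← hA] at h6
    have h7 := C.hR.phi_cell_two hYj0
    rw [← hA] at h7
    have h8 : Real.log (phi (fZ Z) x₀ (C.S.Y j)) ≤ Real.log (C.X k) :=
      Real.log_le_log (C.hR.phi_pos _) (C.hR.phi_mono (by linarith))
    change C.X k - _ ≤ _ at h6
    change C.X k ≤ _ at h7
    exact ⟨C.hR.phi_mono h1, by linarith, by linarith⟩
  have hEk0 : 0 ≤ C.S.E k := (C.A_nonneg k).trans (C.A_le_E k)
  rcases C.y_gap n with ⟨hJ, h1⟩ | ⟨hJ, hr, h1⟩ | ⟨hJ, hr⟩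
  · -- regular block
    have h2 : C.p (n + 1) ≤ 4 * C.p n := by
      have h3 : C.p (n + 1) ≤ phi (fZ Z) x₀ (C.S.toW.yk C.V n + 1 + 1) :=
        C.hR.phi_mono (by linarith)
      have h4 := C.hR.phi_cell_two (by linarith [C.yk_nonneg n] : 0 ≤ C.S.toW.yk C.V n + 1)
      have h5 := C.hR.phi_cell_two (C.yk_nonneg n)
      change _ ≤ 2 * C.p n at h5
      linarith
    have h6 : Real.log (C.p (n + 1)) ≤ 2 * Real.log (C.p n) := by
      have h7 := Real.log_le_log hp1 h2
      rw [show (4 : ℝ) * C.p n = 2 * (2 * C.p n) by ring, Real.log_mul (by norm_num)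
        (by positivity), Real.log_mul (by norm_num) hp0.ne'] at h7
      linarith
    have h8 : 0 ≤ Real.log (C.p (n + 1)) :=
      Real.log_nonneg (C.hR.phi_one_le _)
    have h9 : C.p (n + 1) - C.p n ≤ 2 * (2 * (2 * Real.log (C.p n))) := by
      refine hgapx.trans ?_
      apply mul_le_mul h1 _ (by linarith) (by norm_num)
      linarith
    exact gfin1 hc hn5 hn4 h9
  · -- window with points
    rw [← hj, ← hk] at hJ hr h1
    obtain ⟨h2, -, h3⟩ := hwin hJ
    have hC1 : C.Ck k = 1 ∧ 1 / ((k : ℝ) + 1) ≤ C.ls k ∨ (C.q k = 2 ∧ C.Ck k ≤ c) :=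
      (hT k).symm
    have hX1 := C.one_le_X k
    have hlX := C.two_le_logX k
    have hk0 : (0 : ℝ) < (k : ℝ) + 1 := by positivity
    have hk2 : (2 : ℝ) ≤ (k : ℝ) + 1 := by
      have : (1 : ℝ) ≤ k := by exact_mod_cast hn2
      linarith
    have hr' : (0 : ℝ) < C.S.r k := by exact_mod_cast hr
    have hW := C.S.rW _ hr
    have hEX := C.E_le_two_X k
    have h4 : C.p (n + 1) ≤ 4 * C.X k := by
      have := C.hR.phi_cell_two hEk0
      linarith
    have hlp : Real.log (C.p (n + 1)) ≤ 2 * Real.log (C.X k) := by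
      have h7 := Real.log_le_log hp1 h4
      rw [show (4 : ℝ) * C.X k = 2 * (2 * C.X k) by ring, Real.log_mul (by norm_num)
        (by positivity), Real.log_mul (by norm_num) (by positivity)] at h7
      linarith
    have hlXp : Real.log (C.X k) ≤ 2 * Real.log (C.p n) := by
      have h7 := Real.log_le_log (by linarith : 0 < C.X k) h3
      rw [Real.log_mul (by norm_num) hp0.ne'] at h7
      linarith
    -- the spacing
    have hsp : C.S.Wd k / C.S.r k ≤ 2 * (k + 1) ∨ C.q k = 2 ∧ C.Ck k ≤ c := by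
      rcases hC1 with ⟨hC, hls⟩ | h
      · left
        have h5 := hn1 hC
        have h6 := C.hPe k
        change _ ≤ Real.log (C.X k) ^ (C.q k - 1) at h6
        have h7 : C.ls k * C.S.Wd k < C.S.r k + 1 := by
          rw [C.hr]; exact Nat.lt_floor_add_one _
        have h8 : C.S.Wd k / (k + 1) ≤ C.ls k * C.S.Wd k := by
          rw [div_eq_mul_inv, mul_comm, ← one_div]
          exact mul_le_mul_of_nonneg_right hls hW.le
        have h9 : 2 * ((k : ℝ) + 1) ≤ C.S.Wd k := gfin4 hk2 (by linarith)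
        have h10 : C.S.Wd k / (2 * (k + 1)) ≤ C.S.r k := by
          have h11 : 2 ≤ C.S.Wd k / (k + 1) := by rw [le_div_iff₀ hk0]; exact h9
          have h12 : C.S.Wd k / (2 * (k + 1)) = C.S.Wd k / (k + 1) / 2 := by
            field_simp
          rw [h12]
          linarith
        rw [div_le_iff₀ hr']
        rw [div_le_iff₀ (by positivity)] at h10
        linarith
      · right; exact h
    have hfinal : C.S.Wd k / C.S.r k ≤ 2 * (k + 1) → C.p (n + 1) - C.p n ≤
        (c + ε) * Real.log (C.p n) ^ 2 := by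
      intro hs
      have h8 : 0 ≤ Real.log (C.p (n + 1)) := Real.log_nonneg (C.hR.phi_one_le _)
      have h9 : C.p (n + 1) - C.p n ≤ (3 * (k + 1)) * (2 * (2 * Real.log (C.X k))) := by
        refine hgapx.trans ?_
        apply mul_le_mul _ (by linarith) (by linarith) (by positivity)
        linarith
      exact gfin3 hc hε hn5 hn3 (Nat.cast_nonneg k) (by linarith) hlXp (C.hPc k) h9
    rcases hsp with hs | ⟨hq2, hCc⟩
    · exact hfinal hs
    · -- a window of type two with points: bounded by the whole window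
      have h5 : C.p (n + 1) - C.p n ≤ c * Real.log (C.X k) ^ 2 + 12 * Real.log (C.X k) := by
        obtain ⟨g1, g2, -⟩ := hwin hJ
        have g3 := C.hR.phi_cell hEk0
        have g4 : phi (fZ Z) x₀ (C.S.E k) = C.X k + C.Ck k * Real.log (C.X k) ^ C.q k := C.hE k
        rw [hq2, Real.rpow_two] at g4
        have g5 : C.Ck k * Real.log (C.X k) ^ 2 ≤ c * Real.log (C.X k) ^ 2 :=
          mul_le_mul_of_nonneg_right hCc (sq_nonneg _)
        have g6 : Real.log (phi (fZ Z) x₀ (C.S.E k)) ≤ 2 * Real.log (C.X k) := by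
          have g7 := Real.log_le_log (C.hR.phi_pos _) hEX
          rw [Real.log_mul (by norm_num) (by positivity)] at g7
          linarith
        linarith
      have h6 : Real.log (C.X k) ≤ Real.log (C.p n) + 1 := by
        have h7 := Real.log_le_log (by linarith : 0 < C.X k) h3
        rw [Real.log_mul (by norm_num) hp0.ne'] at h7
        linarith
      exact gfin2 hc hn5 hn4 (by linarith) h6 h5
  · -- empty window
    rw [← hj, ← hk] at hJ hr
    obtain ⟨g1, g2, h3⟩ := hwin hJ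
    have hX1 := C.one_le_X k
    have hlX := C.two_le_logX k
    have hEX := C.E_le_two_X k
    have hCc : C.q k = 2 ∧ C.Ck k ≤ c := by
      rcases hT k with h | ⟨hC, hls⟩
      · exact h
      · exfalso
        have h5 := hn1 hC
        have h6 := C.hPe k
        change _ ≤ Real.log (C.X k) ^ (C.q k - 1) at h6
        have hk2 : (2 : ℝ) ≤ (k : ℝ) + 1 := by
          have : (1 : ℝ) ≤ k := by exact_mod_cast hn2
          linarith
        have h7 : C.ls k * C.S.Wd k < C.S.r k + 1 := by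
          rw [C.hr]; exact Nat.lt_floor_add_one _
        rw [hr, Nat.cast_zero, zero_add] at h7
        have h9 : ((k : ℝ) + 1) ≤ C.S.Wd k := by
          have := gfin4 hk2 (by linarith : ((k : ℝ) + 1) ^ 4 / 2 ≤ C.S.Wd k)
          linarith
        have h10 : 1 / ((k : ℝ) + 1) * ((k : ℝ) + 1) ≤ C.ls k * C.S.Wd k :=
          mul_le_mul hls h9 (by positivity) (C.hls0 k)
        rw [one_div, inv_mul_cancel₀ (by positivity)] at h10
        linarith
    obtain ⟨hq2, hCc⟩ := hCc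
    have h5 : C.p (n + 1) - C.p n ≤ c * Real.log (C.X k) ^ 2 + 12 * Real.log (C.X k) := by
      have g3 := C.hR.phi_cell hEk0
      have g4 : phi (fZ Z) x₀ (C.S.E k) = C.X k + C.Ck k * Real.log (C.X k) ^ C.q k := C.hE k
      rw [hq2, Real.rpow_two] at g4
      have g5 : C.Ck k * Real.log (C.X k) ^ 2 ≤ c * Real.log (C.X k) ^ 2 :=
        mul_le_mul_of_nonneg_right hCc (sq_nonneg _)
      have g6 : Real.log (phi (fZ Z) x₀ (C.S.E k)) ≤ 2 * Real.log (C.X k) := by
        have g7 := Real.log_le_log (C.hR.phi_pos _) hEX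
        rw [Real.log_mul (by norm_num) (by positivity)] at g7
        linarith
      linarith
    have h6 : Real.log (C.X k) ≤ Real.log (C.p n) + 1 := by
      have h7 := Real.log_le_log (by linarith : 0 < C.X k) h3
      rw [Real.log_mul (by norm_num) hp0.ne'] at h7
      linarith
    exact gfin2 hc hn5 hn4 (by linarith) h6 h5

/-- **Lower bound for the gaps at empty windows.** -/
theorem gap_low {k : ℕ} (hr : C.S.r k = 0) (hq : C.q k = 2) :
    ∃ n, k ≤ n ∧ C.Ck k * Real.log (C.p n) ^ 2 ≤ C.p (n + 1) - C.p n := by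
  set j := C.S.J k with hj
  have hkj : C.S.kap j = k := C.S.kap_J k
  refine ⟨KK C.S.toW.n j, (C.S.Jm.le_apply.trans (KK_ge C.S.toW.n_pos j)), ?_⟩
  have h1 : C.S.toW.yk C.V (KK C.S.toW.n j) = C.S.Y j + C.V j := C.S.toW.yk_zero C.V j
  have hn : C.S.toW.n j = 1 := by
    change (if C.S.J (C.S.kap j) = j then C.S.r (C.S.kap j) else 0) + 1 = _
    rw [hkj, if_pos hj.symm, hr]
  have h2 : C.S.toW.yk C.V (KK C.S.toW.n j + 1) = C.S.Y (j + 1) + C.V (j + 1) := by
    have := C.S.toW.yk_zero C.V (j + 1)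
    rwa [KK_succ, hn] at this
  have hA : C.S.A k = C.S.Y j + 1 := by
    have := C.S.A_eq (j := j) (by rw [hkj])
    rwa [hkj] at this
  have hE : C.S.Y (j + 1) = C.S.E k := by
    rw [C.S.Y_succ, hkj, if_pos hj.symm]
    unfold Sch.E
    rw [hA]
  have h3 : C.p (KK C.S.toW.n j) ≤ C.X k := by
    unfold p X
    rw [h1, hA]
    exact C.hR.phi_mono (by linarith [(C.hV j).2])
  have h4 : phi (fZ Z) x₀ (C.S.E k) ≤ C.p (KK C.S.toW.n j + 1) := by
    unfold p
    rw [h2, hE]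
    exact C.hR.phi_mono (by linarith [(C.hV (j + 1)).1])
  have h5 : phi (fZ Z) x₀ (C.S.E k) = C.X k + C.Ck k * Real.log (C.X k) ^ C.q k := C.hE k
  rw [hq, Real.rpow_two] at h5
  have h6 : Real.log (C.p (KK C.S.toW.n j)) ≤ Real.log (C.X k) :=
    Real.log_le_log (C.hR.phi_pos _) h3
  have h7 : 0 ≤ Real.log (C.p (KK C.S.toW.n j)) := Real.log_nonneg (C.hR.phi_one_le _)
  have h8 : C.Ck k * Real.log (C.p (KK C.S.toW.n j)) ^ 2 ≤ C.Ck k * Real.log (C.X k) ^ 2 :=
    mul_le_mul_of_nonneg_left (pow_le_pow_left₀ h7 h6 2) (C.hC0 k)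
  linarith

end MC

end Pool.Agent.H521.G
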