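import Pool.Agent.H521.G.Maier6

open MeasureTheory Set Filter Topology
open scoped ENNReal NNReal ComplexConjugate

namespace Pool.Agent.H521.G

/-- the set of exponents -/
def SE : Set ℝ := {a | 1 < a ∧ a ≠ 2}

theorem isOpen_SE : IsOpen SE := by
  have : SE = Ioi 1 ∩ {2}ᶜ := by
    ext a
    simp [SE]
  rw [this]
  exact isOpen_Ioi.inter isOpen_compl_singleton

theorem approx_left {f : ℝ → ℝ≥0∞} {b : ℝ} (hb : b ∈ SE) (hf : ContinuousAt f b) {O : Set ℝ≥0∞}
    (hO : O ∈ 𝓝 (f b)) : ∃ r : ℚ, (r : ℝ) ∈ SE ∧ (r : ℝ) ≤ b ∧ f r ∈ O := by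
  have h : ∀ᶠ x in 𝓝 b, x ∈ SE ∧ f x ∈ O := (isOpen_SE.eventually_mem hb).and (hf.eventually hO)
  obtain ⟨δ, hδ, hball⟩ := Metric.eventually_nhds_iff.1 h
  obtain ⟨r, hr1, hr2⟩ := exists_rat_btwn (by linarith : b - δ < b)
  have := hball (y := (r : ℝ)) (by rw [Real.dist_eq, abs_lt]; constructor <;> linarith)
  exact ⟨r, this.1, hr2.le, this.2⟩

theorem approx_right {f : ℝ → ℝ≥0∞} {b : ℝ} (hb : b ∈ SE) (hf : ContinuousAt f b)
    {O : Set ℝ≥0∞} (hO : O ∈ 𝓝 (f b)) : ∃ r : ℚ, (r : ℝ) ∈ SE ∧ b ≤ (r : ℝ) ∧ f r ∈ O := by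
  have h : ∀ᶠ x in 𝓝 b, x ∈ SE ∧ f x ∈ O := (isOpen_SE.eventually_mem hb).and (hf.eventually hO)
  obtain ⟨δ, hδ, hball⟩ := Metric.eventually_nhds_iff.1 h
  obtain ⟨r, hr1, hr2⟩ := exists_rat_btwn (by linarith : b < b + δ)
  have := hball (y := (r : ℝ)) (by rw [Real.dist_eq, abs_lt]; constructor <;> linarith)
  exact ⟨r, this.1, hr1.le, this.2⟩

theorem exists_expo {L U : ℝ → ℝ≥0∞} (hL : MonotoneOn L SE) (hU : AntitoneOn U SE) :
    ∃ Q : ℕ → ℝ, (∀ i, Q i ∈ SE) ∧ ∀ f, f = L ∨ f = U → ∀ b ∈ SE, ∀ O ∈ 𝓝 (f b),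
      (∃ i, Q i ≤ b ∧ f (Q i) ∈ O) ∧ ∃ i, b ≤ Q i ∧ f (Q i) ∈ O := by
  set D : Set ℝ := ((range ((↑) : ℚ → ℝ)) ∩ SE) ∪ ({x ∈ SE | ¬ContinuousWithinAt L SE x} ∪
    {x ∈ SE | ¬ContinuousWithinAt U SE x}) with hD
  have hDc : D.Countable := ((countable_range _).mono inter_subset_left).union
    (hL.countable_not_continuousWithinAt.union hU.countable_not_continuousWithinAt)
  have hDne : D.Nonempty := ⟨3, Or.inl ⟨⟨3, by norm_num⟩, by constructor <;> norm_num⟩⟩
  obtain ⟨Q, hQ⟩ := hDc.exists_eq_range hDne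
  have hmem : ∀ x ∈ D, ∃ i, Q i = x := fun x hx => by rw [hQ] at hx; exact hx
  refine ⟨Q, fun i => ?_, fun f hf b hb O hO => ?_⟩
  · have : Q i ∈ D := by rw [hQ]; exact ⟨i, rfl⟩
    rcases this with h | h | h
    · exact h.2
    · exact h.1
    · exact h.1
  · by_cases hc : ContinuousWithinAt f SE b
    · have hc' : ContinuousAt f b := hc.continuousAt (isOpen_SE.mem_nhds hb)
      obtain ⟨r, h1, h2, h3⟩ := approx_left hb hc' hO
      obtain ⟨r', h1', h2', h3'⟩ := approx_right hb hc' hO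
      obtain ⟨i, hi⟩ := hmem r (Or.inl ⟨⟨r, rfl⟩, h1⟩)
      obtain ⟨i', hi'⟩ := hmem r' (Or.inl ⟨⟨r', rfl⟩, h1'⟩)
      exact ⟨⟨i, by rw [hi]; exact h2, by rw [hi]; exact h3⟩,
        ⟨i', by rw [hi']; exact h2', by rw [hi']; exact h3'⟩⟩
    · have hbD : b ∈ D := by
        rcases hf with rfl | rfl
        · exact Or.inr (Or.inl ⟨hb, hc⟩)
        · exact Or.inr (Or.inr ⟨hb, hc⟩)
      obtain ⟨i, hi⟩ := hmem b hbD
      exact ⟨⟨i, hi.le, by rw [hi]; exact mem_of_mem_nhds hO⟩,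
        ⟨i, hi.ge, by rw [hi]; exact mem_of_mem_nhds hO⟩⟩

section tasks

variable (c : ℝ≥0∞) (L U : ℝ → ℝ≥0∞) (Q : ℕ → ℝ)

/-- exponent of task `k` -/
noncomputable def tq (k : ℕ) : ℝ := if (Nat.unpair k).2 % 3 = 2 then 2 else Q (Nat.unpair k).1

/-- density of task `k` -/
noncomputable def tl (k : ℕ) : ℝ :=
  if (Nat.unpair k).2 % 3 = 0 then (min (U (Q (Nat.unpair k).1)) ((k : ℝ≥0∞) + 1)).toReal
  else if (Nat.unpair k).2 % 3 = 1 then max (L (Q (Nat.unpair k).1)).toReal (1 / ((k : ℝ) + 1))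
  else if c = 0 then 1 else 0

/-- constant of task `k` -/
noncomputable def tc (k : ℕ) : ℝ :=
  if (Nat.unpair k).2 % 3 = 2 then (min c ((k : ℝ≥0∞) + 1)).toReal else 1

theorem min_ne_top' (a : ℝ≥0∞) (k : ℕ) : min a ((k : ℝ≥0∞) + 1) ≠ ∞ :=
  (lt_of_le_of_lt (min_le_right _ _) (by simp)).ne

theorem k1_toReal (k : ℕ) : ((k : ℝ≥0∞) + 1).toReal = (k : ℝ) + 1 := by
  rw [ENNReal.toReal_add (by simp) (by simp)]
  simp

theorem min_toReal_le (a : ℝ≥0∞) (k : ℕ) : (min a ((k : ℝ≥0∞) + 1)).toReal ≤ k + 1 := by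
  rw [← k1_toReal k]
  exact ENNReal.toReal_mono (by simp) (min_le_right _ _)

theorem one_le_min {a : ℝ≥0∞} (ha : 1 ≤ a) (k : ℕ) : 1 ≤ (min a ((k : ℝ≥0∞) + 1)).toReal := by
  have : (1 : ℝ≥0∞) ≤ min a ((k : ℝ≥0∞) + 1) := le_min ha (by simp)
  have h := ENNReal.toReal_mono (min_ne_top' a k) this
  simpa using h

theorem tq_gt {Q : ℕ → ℝ} (hQ : ∀ i, Q i ∈ SE) (k : ℕ) : 1 < tq Q k := by
  unfold tq
  split_ifs
  · norm_num
  · exact (hQ _).1

theorem tl_nonneg (k : ℕ) : 0 ≤ tl c L U Q k := by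
  unfold tl
  split_ifs
  · exact ENNReal.toReal_nonneg
  · exact le_max_of_le_left ENNReal.toReal_nonneg
  · norm_num
  · norm_num

theorem tl_le {L : ℝ → ℝ≥0∞} (hL : ∀ i, L (Q i) ≤ 1) (k : ℕ) : tl c L U Q k ≤ k + 1 := by
  have hk : (0 : ℝ) ≤ k := Nat.cast_nonneg k
  unfold tl
  split_ifs
  · exact min_toReal_le _ _
  · apply max_le
    · have := ENNReal.toReal_mono (by simp) (hL (Nat.unpair k).1)
      simp only [ENNReal.toReal_one] at this
      linarith
    · rw [div_le_iff₀ (by positivity)]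
      nlinarith
  · linarith
  · linarith

theorem tc_nonneg (k : ℕ) : 0 ≤ tc c k := by
  unfold tc
  split_ifs
  · exact ENNReal.toReal_nonneg
  · norm_num

theorem tc_le (k : ℕ) : tc c k ≤ k + 1 := by
  have hk : (0 : ℝ) ≤ k := Nat.cast_nonneg k
  unfold tc
  split_ifs
  · exact min_toReal_le _ _
  · linarith

end tasks

/-- the readiness predicate -/
def PT (q ls Ck Q : ℕ → ℝ) (k : ℕ) (x : ℝ) : Prop :=
  (1 + ls k) * (Ck k * Real.log x ^ q k) ≤ x ^ (1 / 4 : ℝ) ∧ (2 : ℝ) ^ k ≤ x ∧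
  ((k : ℝ) + 1) ^ 4 ≤ Real.log x ∧
  (∀ i ≤ k, q k < Q i → ((k : ℝ) + 1) ^ 3 * Real.log x ^ (q k - 1) ≤ Real.log x ^ (Q i - 1)) ∧
  ((k : ℝ) + 1) ^ 4 ≤ Real.log x ^ (q k - 1)

theorem PT_ev {q ls Ck Q : ℕ → ℝ} (hq : ∀ k, 1 < q k) (hls : ∀ k, 0 ≤ ls k) (hC : ∀ k, 0 ≤ Ck k)
    (k : ℕ) : ∀ᶠ x in atTop, PT q ls Ck Q k x := by
  have h1 : ∀ᶠ x : ℝ in atTop, (1 + ls k) * (Ck k * Real.log x ^ q k) ≤ x ^ (1 / 4 : ℝ) := by
    have hM : 0 < (1 + ls k) * Ck k + 1 := by
      have := mul_nonneg (by linarith [hls k] : 0 ≤ 1 + ls k) (hC k)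
      linarith
    have := (isLittleO_log_rpow_rpow_atTop (q k) (by norm_num : (0 : ℝ) < 1 / 4)).bound
      (inv_pos.2 hM)
    filter_upwards [this, eventually_gt_atTop 1] with x hx hx1
    have hl : 0 < Real.log x ^ q k := Real.rpow_pos_of_pos (Real.log_pos hx1) _
    rw [Real.norm_eq_abs, Real.norm_eq_abs, abs_of_pos hl, abs_of_pos
      (Real.rpow_pos_of_pos (by linarith) _), inv_mul_eq_div, le_div_iff₀ hM] at hx
    nlinarith
  have h2 : ∀ᶠ x : ℝ in atTop, ∀ i ≤ k, q k < Q i →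
      ((k : ℝ) + 1) ^ 3 * Real.log x ^ (q k - 1) ≤ Real.log x ^ (Q i - 1) := by
    have : ∀ᶠ x : ℝ in atTop, ∀ i ∈ Iic k, q k < Q i →
        ((k : ℝ) + 1) ^ 3 * Real.log x ^ (q k - 1) ≤ Real.log x ^ (Q i - 1) := by
      rw [Filter.eventually_all_finite (finite_Iic k)]
      intro i _
      by_cases h : q k < Q i
      · filter_upwards [(pow_ratio (by linarith : q k - 1 < Q i - 1)).eventually_ge_atTop
          (((k : ℝ) + 1) ^ 3), eventually_gt_atTop 1] with x hx hx1 _
        rwa [le_div_iff₀ (Real.rpow_pos_of_pos (Real.log_pos hx1) _)] at hx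
      · exact Eventually.of_forall fun x hx => absurd hx h
    exact this
  filter_upwards [h1, h2, eventually_ge_atTop ((2 : ℝ) ^ k),
    Real.tendsto_log_atTop.eventually_ge_atTop (((k : ℝ) + 1) ^ 4),
    (MC.logpow_tendsto (hq k)).eventually_ge_atTop (((k : ℝ) + 1) ^ 4)] with x a1 a2 a3 a4 a5
  exact ⟨a1, a3, a4, a2, a5⟩

/-- the sequence of the tasks of a given type -/
theorem tasks_tendsto (i τ : ℕ) : Tendsto (fun t : ℕ => Nat.pair i (3 * t + τ)) atTop atTop := by
  apply tendsto_atTop_mono _ tendsto_id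
  intro t
  have := Nat.right_le_pair i (3 * t + τ)
  simp only [id]
  omega

/-- **Existence of systems with prescribed Cramér constant and Maier functions.** -/
theorem maier_suff {Z : Multiset ℂ} (hZ : ∀ ρ ∈ Z, ρ.re < 1) (hZc : Z.map conj = Z)
    {c : ℝ≥0∞} {L U : ℝ → ℝ≥0∞} (hL : MonotoneOn L SE) (hU : AntitoneOn U SE)
    (hL1 : ∀ a ∈ SE, L a ≤ 1) (hU1 : ∀ a ∈ SE, 1 ≤ U a) (hc : 0 < c → ∀ a ∈ SE, a < 2 → L a = 0) :
    ∃ p : ℕ → ℝ, Sys Z p ∧
      limsup (fun n => ENNReal.ofReal ((p (n + 1) - p n) / Real.log (p n) ^ 2)) atTop = c ∧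
      ∀ a ∈ SE, liminf (mR p a) atTop = L a ∧ limsup (mR p a) atTop = U a := by
  obtain ⟨x₀, hR⟩ := exists_RDens hZ
  obtain ⟨Q, hQS, hQ⟩ := exists_expo hL hU
  set q : ℕ → ℝ := tq Q with hqd
  set ls : ℕ → ℝ := tl c L U Q with hlsd
  set Ck : ℕ → ℝ := tc c with hCkd
  have hq : ∀ k, 1 < q k := tq_gt hQS
  have hls0 : ∀ k, 0 ≤ ls k := tl_nonneg c L U Q
  have hls1 : ∀ k, ls k ≤ k + 1 := tl_le c U Q fun i => hL1 _ (hQS i)
  have hC0 : ∀ k, 0 ≤ Ck k := tc_nonneg c
  have hC1 : ∀ k, Ck k ≤ k + 1 := tc_le c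
  obtain ⟨S, hP, hE, hr, h4, hWg⟩ := exists_sched hR (g := fun k x => Ck k * Real.log x ^ q k)
    (ls := ls) (fun k x hx => mul_nonneg (hC0 k) (Real.rpow_nonneg (by linarith [hR.hlog x hx]) _))
    hls0 (P := PT q ls Ck Q) (PT_ev hq hls0 hC0) (fun k x h => h.1) (fun k x h => h.2.1)
  obtain ⟨V, hV, hSys⟩ := S.toW.system hR hZ hZc rfl
  let C : MC Z x₀ :=
    { hZ := hZ, hR := hR, S := S, V := V, hV := hV, q := q, ls := ls, Ck := Ck, Q := Q, hq := hq
      hls0 := hls0, hls1 := hls1, hC0 := hC0, hC1 := hC1, hE := hE, hr := hr, h4 := h4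
      hWg := hWg, hPa := fun k => (hP k).1, hPb := fun k => (hP k).2.1
      hPc := fun k => (hP k).2.2.1, hPd := fun k => (hP k).2.2.2.1
      hPe := fun k => (hP k).2.2.2.2 }
  have hSys' : Sys Z C.p := hSys
  -- types of tasks
  have hty0 : ∀ i t, tq Q (Nat.pair i (3 * t + 0)) = Q i ∧ tc c (Nat.pair i (3 * t + 0)) = 1 ∧
      tl c L U Q (Nat.pair i (3 * t + 0)) =
        (min (U (Q i)) (((Nat.pair i (3 * t + 0) : ℕ) : ℝ≥0∞) + 1)).toReal := by
    intro i t
    unfold tq tc tl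
    rw [Nat.unpair_pair]
    have : (3 * t + 0) % 3 = 0 := by omega
    simp only [this]
    simp
  have hty1 : ∀ i t, tq Q (Nat.pair i (3 * t + 1)) = Q i ∧ tc c (Nat.pair i (3 * t + 1)) = 1 ∧
      tl c L U Q (Nat.pair i (3 * t + 1)) =
        max (L (Q i)).toReal (1 / (((Nat.pair i (3 * t + 1) : ℕ) : ℝ) + 1)) := by
    intro i t
    unfold tq tc tl
    rw [Nat.unpair_pair]
    have : (3 * t + 1) % 3 = 1 := by omega
    simp only [this]
    simp
  have hty2 : ∀ i t, tq Q (Nat.pair i (3 * t + 2)) = 2 ∧ tc c (Nat.pair i (3 * t + 2)) =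
      (min c (((Nat.pair i (3 * t + 2) : ℕ) : ℝ≥0∞) + 1)).toReal ∧
      tl c L U Q (Nat.pair i (3 * t + 2)) = if c = 0 then 1 else 0 := by
    intro i t
    unfold tq tc tl
    rw [Nat.unpair_pair]
    have : (3 * t + 2) % 3 = 2 := by omega
    simp only [this]
    simp
  -- properties of the densities
  have hUp : ∀ i, U (Q i) ≠ ∞ → ∀ k, Q i ≤ q k → ls k ≤ (U (Q i)).toReal := by
    intro i hi k hk
    have hone : 1 ≤ (U (Q i)).toReal := by
      have := ENNReal.toReal_mono hi (hU1 _ (hQS i))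
      simpa using this
    rw [hqd] at hk
    rw [hlsd]
    unfold tq at hk
    unfold tl
    split_ifs with h1 h2 h3
    · rw [if_neg (by omega)] at hk
      refine ENNReal.toReal_mono hi ((min_le_left _ _).trans ?_)
      exact hU (hQS i) (hQS _) hk
    · rw [if_neg (by omega)] at hk
      apply max_le
      · have := ENNReal.toReal_mono (by simp) (hL1 _ (hQS (Nat.unpair k).1))
        simp only [ENNReal.toReal_one] at this
        linarith
      · refine le_trans ?_ hone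
        rw [div_le_one (by positivity)]
        have : (0 : ℝ) ≤ k := Nat.cast_nonneg k
        linarith
    · exact hone
    · linarith
  have hLow : ∀ i, ∀ k, Q i ≤ q k → (L (Q i)).toReal ≤ ls k ∨ Ck k = 0 := by
    intro i k hk
    have hLi : (L (Q i)).toReal ≤ 1 := by
      have := ENNReal.toReal_mono (by simp) (hL1 _ (hQS i))
      simpa using this
    rw [hqd] at hk
    rw [hlsd, hCkd]
    unfold tq at hk
    unfold tl tc
    by_cases h0 : (Nat.unpair k).2 % 3 = 0
    · left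
      rw [if_pos h0]
      exact hLi.trans (one_le_min (hU1 _ (hQS _)) k)
    · rw [if_neg h0]
      by_cases h1 : (Nat.unpair k).2 % 3 = 1
      · left
        rw [if_pos h1]
        rw [if_neg (by omega)] at hk
        apply le_max_of_le_left
        apply ENNReal.toReal_mono
        · exact (lt_of_le_of_lt (hL1 _ (hQS _)) (by simp)).ne
        · exact hL (hQS i) (hQS _) hk
      · rw [if_neg h1]
        have h2 : (Nat.unpair k).2 % 3 = 2 := by omega
        rw [if_pos h2]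
        rw [if_pos h2] at hk
        by_cases hc0 : c = 0
        · right
          rw [hc0]
          simp
        · left
          rw [if_neg hc0]
          have hQ2 : Q i < 2 := lt_of_le_of_ne hk (hQS i).2
          rw [hc (pos_iff_ne_zero.2 hc0) _ (hQS i) hQ2]
          simp
  refine ⟨C.p, hSys', ?_, ?_⟩
  · -- the Cramér constant
    apply le_antisymm
    · rcases eq_or_ne c ∞ with hct | hct
      · rw [hct]; exact le_top
      have hT : ∀ k, (C.q k = 2 ∧ C.Ck k ≤ c.toReal) ∨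
          (C.Ck k = 1 ∧ 1 / ((k : ℝ) + 1) ≤ C.ls k) := by
        intro k
        have hk1 : 1 / ((k : ℝ) + 1) ≤ 1 := by
          rw [div_le_one (by positivity)]
          have : (0 : ℝ) ≤ k := Nat.cast_nonneg k
          linarith
        change (tq Q k = 2 ∧ tc c k ≤ c.toReal) ∨ (tc c k = 1 ∧ 1 / ((k : ℝ) + 1) ≤ tl c L U Q k)
        unfold tq tc tl
        by_cases h2 : (Nat.unpair k).2 % 3 = 2
        · left
          rw [if_pos h2, if_pos h2]
          exact ⟨rfl, ENNReal.toReal_mono hct (min_le_left _ _)⟩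
        · right
          rw [if_neg h2]
          refine ⟨rfl, ?_⟩
          by_cases h0 : (Nat.unpair k).2 % 3 = 0
          · rw [if_pos h0]
            exact hk1.trans (one_le_min (hU1 _ (hQS _)) k)
          · rw [if_neg h0, if_pos (by omega)]
            exact le_max_right _ _
      apply ENNReal.le_of_forall_pos_le_add
      intro ε hε _
      have h1 := C.gap_up ENNReal.toReal_nonneg hT (ε := ε) (by exact_mod_cast hε)
      have h2 : ∀ᶠ n in atTop, ENNReal.ofReal ((C.p (n + 1) - C.p n) / Real.log (C.p n) ^ 2) ≤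
          c + ε := by
        filter_upwards [h1, C.p_tendsto.eventually_gt_atTop 1] with n hn hn1
        have hl := Real.log_pos hn1
        have h3 : (C.p (n + 1) - C.p n) / Real.log (C.p n) ^ 2 ≤ c.toReal + ε := by
          rw [div_le_iff₀ (by positivity)]
          exact hn
        refine (ENNReal.ofReal_le_ofReal h3).trans ?_
        rw [ENNReal.ofReal_add ENNReal.toReal_nonneg (NNReal.coe_nonneg ε),
          ENNReal.ofReal_toReal hct, ENNReal.ofReal_coe_nnreal]
      exact limsup_le_of_le (by isBoundedDefault) h2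
    · apply le_of_forall_lt
      intro v hv
      obtain ⟨r, hr1, hr2⟩ := ENNReal.lt_iff_exists_nnreal_btwn.1 hv
      refine lt_of_lt_of_le hr1 ?_
      have hc0 : c ≠ 0 := (lt_of_le_of_lt bot_le hr2).ne'
      apply le_limsup_of_frequently_le _ (by isBoundedDefault)
      have hev : ∀ᶠ k : ℕ in atTop, (r : ℝ) ≤ (k : ℝ) :=
        tendsto_natCast_atTop_atTop.eventually_ge_atTop _
      rw [frequently_atTop]
      intro N
      obtain ⟨t, ht1, ht2⟩ := (((tasks_tendsto 0 2).eventually hev).and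
        ((tasks_tendsto 0 2).eventually_ge_atTop N)).exists
      obtain ⟨e1, e2, e3⟩ := hty2 0 t
      set k := Nat.pair 0 (3 * t + 2) with hk
      rw [if_neg hc0] at e3
      have hrk : C.S.r k = 0 := by
        have h1 : C.S.r k = ⌊C.ls k * C.S.Wd k⌋₊ := C.hr k
        have h2 : C.ls k = 0 := e3
        rw [h1, h2, zero_mul]
        simp
      obtain ⟨n, hn1, hn2⟩ := C.gap_low hrk e1
      refine ⟨n, ht2.trans hn1, ?_⟩
      have hCk : (r : ℝ) ≤ C.Ck k := by
        change (r : ℝ) ≤ tc c k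
        rw [e2]
        have h3 : (r : ℝ≥0∞) ≤ min c ((k : ℝ≥0∞) + 1) := by
          apply le_min hr2.le
          have h4 : (r : ℝ≥0) ≤ (k : ℝ≥0) := by
            rw [← NNReal.coe_le_coe]; simpa using ht1
          calc (r : ℝ≥0∞) ≤ ((k : ℝ≥0) : ℝ≥0∞) := by exact_mod_cast h4
            _ = (k : ℝ≥0∞) := by simp
            _ ≤ _ := le_self_add
        have h4 := ENNReal.toReal_mono (min_ne_top' c k) h3
        simpa using h4
      rw [← ENNReal.ofReal_coe_nnreal]
      apply ENNReal.ofReal_le_ofReal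
      have hl : 2 ≤ Real.log (C.p n) := C.hR.hlog _ (C.hR.phi_ge _)
      rw [le_div_iff₀ (by positivity)]
      exact (mul_le_mul_of_nonneg_right hCk (sq_nonneg _)).trans hn2
  · intro a ha
    have ha1 : 1 < a := ha.1
    refine ⟨le_antisymm ?_ ?_, le_antisymm ?_ ?_⟩
    · -- liminf ≤ L a
      apply le_of_forall_gt
      intro v hv
      obtain ⟨-, i, hi1, hi2⟩ := hQ L (Or.inl rfl) a ha (Iio v) (Iio_mem_nhds hv)
      obtain ⟨r, hr1, hr2⟩ := ENNReal.lt_iff_exists_nnreal_btwn.1 (mem_Iio.1 hi2)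
      obtain ⟨r', hr3, hr4⟩ := ENNReal.lt_iff_exists_nnreal_btwn.1 hr2
      refine lt_of_le_of_lt ?_ hr4
      have hrr : (r : ℝ) < r' := by exact_mod_cast hr3
      have hr0 : (0 : ℝ) ≤ r := NNReal.coe_nonneg r
      have hrpos : 0 < (r : ℝ) := by
        have : (0 : ℝ≥0∞) < r := lt_of_le_of_lt bot_le hr1
        exact_mod_cast this
      set ε : ℝ := (r' - r) / (1 + r) with hε
      have hε0 : 0 < ε := div_pos (by linarith) (by linarith)
      have hat := C.at_X ha1 hε0
      have h1k : ∀ᶠ k : ℕ in atTop, 1 / ((k : ℝ) + 1) ≤ r := by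
        have := tendsto_one_div_add_atTop_nhds_zero_nat (𝕜 := ℝ)
        exact this.eventually_le_const hrpos
      have hfr : ∃ᶠ x in atTop, mR C.p a x ≤ (r' : ℝ≥0∞) := by
        have h1 : ∀ᶠ t in atTop, mR C.p a (C.X (Nat.pair i (3 * t + 1))) ≤ (r' : ℝ≥0∞) := by
          filter_upwards [(tasks_tendsto i 1).eventually hat,
            (tasks_tendsto i 1).eventually h1k] with t ht1 ht2
          obtain ⟨e1, e2, e3⟩ := hty1 i t
          set k := Nat.pair i (3 * t + 1) with hk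
          have h2 := ht1 (by change a ≤ tq Q k; rw [e1]; exact hi1) e2
          have hlsk : C.ls k ≤ r := by
            change tl c L U Q k ≤ r
            rw [e3]
            apply max_le _ ht2
            have := ENNReal.toReal_mono (by simp) hr1.le
            simpa using this
          have hlX := C.two_le_logX k
          have hT0 : 0 < Real.log (C.X k) ^ (a - 1) := Real.rpow_pos_of_pos (by linarith) _
          have h3 := (abs_le.1 h2).2
          rw [← ENNReal.ofReal_coe_nnreal]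
          unfold mR
          apply ENNReal.ofReal_le_ofReal
          rw [div_le_iff₀ hT0]
          change cnt C.p (C.X k) (Real.log (C.X k) ^ a) ≤ _
          have h4 : ε * (1 + C.ls k) ≤ r' - r := by
            have : ε * (1 + C.ls k) ≤ ε * (1 + r) :=
              mul_le_mul_of_nonneg_left (by linarith) hε0.le
            rw [hε, div_mul_cancel₀ _ (by linarith : (1 + (r : ℝ)) ≠ 0)] at this
            exact this
          have h5 : ε * (1 + C.ls k) * Real.log (C.X k) ^ (a - 1) ≤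
              (r' - r) * Real.log (C.X k) ^ (a - 1) := mul_le_mul_of_nonneg_right h4 hT0.le
          have h6 : C.ls k * Real.log (C.X k) ^ (a - 1) ≤ r * Real.log (C.X k) ^ (a - 1) :=
            mul_le_mul_of_nonneg_right hlsk hT0.le
          linarith
        exact (C.X_tendsto.comp (tasks_tendsto i 1)).frequently
          (p := fun x => mR C.p a x ≤ (r' : ℝ≥0∞)) h1.frequently
      exact liminf_le_of_frequently_le' hfr
    · -- L a ≤ liminf
      apply le_of_forall_lt
      intro v hv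
      obtain ⟨⟨i, hi1, hi2⟩, -⟩ := hQ L (Or.inl rfl) a ha (Ioi v) (Ioi_mem_nhds hv)
      have hfin : L (Q i) ≠ ∞ := (lt_of_le_of_lt (hL1 _ (hQS i)) (by simp)).ne
      have hle1 : (L (Q i)).toReal ≤ 1 := by
        have := ENNReal.toReal_mono (by simp) (hL1 _ (hQS i))
        simpa using this
      have h1 : ENNReal.ofReal (L (Q i)).toReal ≤ liminf (mR C.p a) atTop :=
        liminf_ge fun ε hε => C.low_bd (hQS i).1 hi1 rfl ENNReal.toReal_nonneg hle1
          (fun k hk => hLow i k hk) hε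
      rw [ENNReal.ofReal_toReal hfin] at h1
      exact lt_of_lt_of_le hi2 h1
    · -- limsup ≤ U a
      apply le_of_forall_gt
      intro v hv
      obtain ⟨⟨i, hi1, hi2⟩, -⟩ := hQ U (Or.inr rfl) a ha (Iio v) (Iio_mem_nhds hv)
      have hfin : U (Q i) ≠ ∞ := (lt_of_lt_of_le (mem_Iio.1 hi2) le_top).ne
      have hone : 1 ≤ (U (Q i)).toReal := by
        have := ENNReal.toReal_mono hfin (hU1 _ (hQS i))
        simpa using this
      have h1 : limsup (mR C.p a) atTop ≤ ENNReal.ofReal (U (Q i)).toReal :=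
        limsup_le (by linarith) fun ε hε => C.up_bd (hQS i).1 hi1 rfl hone
          (fun k hk => hUp i hfin k hk) hε
      rw [ENNReal.ofReal_toReal hfin] at h1
      exact lt_of_le_of_lt h1 hi2
    · -- U a ≤ limsup
      apply le_of_forall_lt
      intro v hv
      obtain ⟨-, i, hi1, hi2⟩ := hQ U (Or.inr rfl) a ha (Ioi v) (Ioi_mem_nhds hv)
      obtain ⟨r, hr1, hr2⟩ := ENNReal.lt_iff_exists_nnreal_btwn.1 (mem_Ioi.1 hi2)
      obtain ⟨r', hr3, hr4⟩ := ENNReal.lt_iff_exists_nnreal_btwn.1 hr1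
      refine lt_of_lt_of_le hr3 ?_
      have hrr : (r' : ℝ) < r := by exact_mod_cast hr4
      have hr0 : (0 : ℝ) ≤ r := NNReal.coe_nonneg r
      have hr'0 : (0 : ℝ) ≤ r' := NNReal.coe_nonneg r'
      set ε : ℝ := (r - r') / (1 + r) with hε
      have hε0 : 0 < ε := div_pos (by linarith) (by linarith)
      have hε1 : ε ≤ 1 := by rw [hε, div_le_one (by linarith)]; linarith
      have hat := C.at_X ha1 hε0
      have hkr : ∀ᶠ k : ℕ in atTop, (r : ℝ) ≤ (k : ℝ) :=
        tendsto_natCast_atTop_atTop.eventually_ge_atTop _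
      have hfr : ∃ᶠ x in atTop, (r' : ℝ≥0∞) ≤ mR C.p a x := by
        have h1 : ∀ᶠ t in atTop, (r' : ℝ≥0∞) ≤ mR C.p a (C.X (Nat.pair i (3 * t + 0))) := by
          filter_upwards [(tasks_tendsto i 0).eventually hat,
            (tasks_tendsto i 0).eventually hkr] with t ht1 ht2
          obtain ⟨e1, e2, e3⟩ := hty0 i t
          set k := Nat.pair i (3 * t + 0) with hk
          have h2 := ht1 (by change a ≤ tq Q k; rw [e1]; exact hi1) e2
          have hlsk : (r : ℝ) ≤ C.ls k := by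
            change (r : ℝ) ≤ tl c L U Q k
            rw [e3]
            have h3 : (r : ℝ≥0∞) ≤ min (U (Q i)) ((k : ℝ≥0∞) + 1) := by
              apply le_min hr2.le
              have h4 : (r : ℝ≥0) ≤ (k : ℝ≥0) := by
                rw [← NNReal.coe_le_coe]; simpa using ht2
              calc (r : ℝ≥0∞) ≤ ((k : ℝ≥0) : ℝ≥0∞) := by exact_mod_cast h4
                _ = (k : ℝ≥0∞) := by simp
                _ ≤ _ := le_self_add
            have h4 := ENNReal.toReal_mono (min_ne_top' (U (Q i)) k) h3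
            simpa using h4
          have hlX := C.two_le_logX k
          have hT0 : 0 < Real.log (C.X k) ^ (a - 1) := Real.rpow_pos_of_pos (by linarith) _
          have h3 := (abs_le.1 h2).1
          rw [← ENNReal.ofReal_coe_nnreal]
          unfold mR
          apply ENNReal.ofReal_le_ofReal
          rw [le_div_iff₀ hT0]
          change _ ≤ cnt C.p (C.X k) (Real.log (C.X k) ^ a)
          have h4 : (r' : ℝ) ≤ C.ls k - ε * (1 + C.ls k) := by
            have h5 : (1 - ε) * r ≤ (1 - ε) * C.ls k :=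
              mul_le_mul_of_nonneg_left hlsk (by linarith)
            have h6 : ε * (1 + r) = r - r' := by
              rw [hε, div_mul_cancel₀ _ (by linarith : (1 + (r : ℝ)) ≠ 0)]
            nlinarith
          have h5 := mul_le_mul_of_nonneg_right h4 hT0.le
          nlinarith
        exact (C.X_tendsto.comp (tasks_tendsto i 0)).frequently
          (p := fun x => (r' : ℝ≥0∞) ≤ mR C.p a x) h1.frequently
      exact le_limsup_of_frequently_le hfr (by isBoundedDefault)

end Pool.Agent.H521.G
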