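import Pool.Agent.H521.G.MassTotal

open MeasureTheory Set Filter Topology
open scoped Classical

namespace Pool.Agent.H521.G

theorem mlo_rot (M r : ℕ) (hM : 0 < M) (f : ℕ → ℝ) :
    ∑ l ∈ Finset.range M, f ((r + l) % M) = ∑ l ∈ Finset.range M, f l := by
  have hmaps : Set.MapsTo (fun l => (r + l) % M) (Finset.range M : Set ℕ) (Finset.range M) := by
    intro l _
    exact Finset.mem_coe.2 (Finset.mem_range.2 (Nat.mod_lt _ hM))
  have hinj : Set.InjOn (fun l => (r + l) % M) (Finset.range M : Set ℕ) := by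
    intro l hl l' hl' h
    have g1 := Finset.mem_range.1 (Finset.mem_coe.1 hl)
    have g2 := Finset.mem_range.1 (Finset.mem_coe.1 hl')
    have h1 : r + l ≡ r + l' [MOD M] := h
    exact Nat.ModEq.eq_of_lt_of_lt (Nat.ModEq.add_left_cancel' r h1) g1 g2
  refine Finset.sum_nbij (fun l => (r + l) % M) (fun l hl => ?_) hinj ?_ (fun l _ => rfl)
  · exact Finset.mem_range.2 (Nat.mod_lt _ hM)
  · exact Finset.surjOn_of_injOn_of_card_le _ hmaps hinj le_rfl

/-- Lower bound for one block. -/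
theorem mlo_block {M r : ℕ} (hM : 0 < M) {lam κ a b e : ℝ} {c Cy D T : ℕ → ℝ}
    (hlam : 1 ≤ lam) (hc0 : ∀ l, 0 < c l) (hκ : ∀ l, l < M → c l ≤ κ) (he1 : e ≤ 1)
    (hgap : ∀ l, l + 1 < M → Cy l = c ((r + l) % M))
    (hD : ∀ l, l < M → (1 - e) * (lam * Cy l) ≤ D l) (hD0 : ∀ l, 0 ≤ D l)
    (hT : ∀ l, l < M → T l ^ 2 ≤ ((1 + e) * lam) ^ 2) (hb : 0 ≤ b)
    (hab : b * (1 + e) ^ 2 ≤ (1 - e) * a) :
    (1 - e) * lam * ((∑ l ∈ Finset.range M, if a * lam ≤ c l then c l else 0) - κ) ≤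
      ∑ l ∈ Finset.range M, if b * T l ^ 2 ≤ D l then D l else 0 := by
  have hlam0 : 0 < lam := by linarith
  have hκ0 : 0 ≤ κ := (hc0 0).le.trans (hκ 0 hM)
  have h1e : 0 ≤ 1 - e := by linarith
  have hone : (∑ l ∈ Finset.range M, if l + 1 = M then κ else 0) = κ := by
    rw [Finset.sum_eq_single (M - 1)]
    · rw [if_pos (by omega)]
    · intro l _ hl
      rw [if_neg (by omega)]
    · intro h
      exact absurd (Finset.mem_range.2 (by omega)) h
  have hterm0 : ∀ l, 0 ≤ (if b * T l ^ 2 ≤ D l then D l else 0) := by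
    intro l
    split_ifs
    · exact hD0 l
    · exact le_rfl
  have hterm : ∀ l ∈ Finset.range M,
      (1 - e) * lam * ((if a * lam ≤ c ((r + l) % M) then c ((r + l) % M) else 0) -
        (if l + 1 = M then κ else 0)) ≤ (if b * T l ^ 2 ≤ D l then D l else 0) := by
    intro l hl
    have hl' := Finset.mem_range.1 hl
    by_cases hlM : l + 1 = M
    · rw [if_pos hlM]
      refine le_trans ?_ (hterm0 l)
      apply mul_nonpos_of_nonneg_of_nonpos (mul_nonneg h1e hlam0.le)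
      split_ifs
      · linarith [hκ _ (Nat.mod_lt (r + l) hM)]
      · linarith
    · rw [if_neg hlM, sub_zero]
      have hg := hgap l (by omega)
      split_ifs with k1 k2 k3
      · rw [← hg]
        calc (1 - e) * lam * Cy l = (1 - e) * (lam * Cy l) := by ring
          _ ≤ _ := hD l hl'
      · exfalso
        apply k2
        rw [← hg] at k1
        calc b * T l ^ 2 ≤ b * ((1 + e) * lam) ^ 2 := mul_le_mul_of_nonneg_left (hT l hl') hb
          _ = (b * (1 + e) ^ 2) * lam ^ 2 := by ring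
          _ ≤ ((1 - e) * a) * lam ^ 2 := mul_le_mul_of_nonneg_right hab (by positivity)
          _ = (1 - e) * (lam * (a * lam)) := by ring
          _ ≤ (1 - e) * (lam * Cy l) :=
            mul_le_mul_of_nonneg_left (mul_le_mul_of_nonneg_left k1 hlam0.le) h1e
          _ ≤ D l := hD l hl'
      · rw [mul_zero]
        exact hD0 l
      · rw [mul_zero]
  have hsum := Finset.sum_le_sum hterm
  rw [← Finset.mul_sum, Finset.sum_sub_distrib, hone,
    mlo_rot M r hM (fun l => if a * lam ≤ c l then c l else 0)] at hsum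
  exact hsum

/-- Lower bound for the mass of the large gaps of `p` in a block. -/
theorem mass_lo {g M r : ℕ → ℕ} (hM0 : ∀ j, 0 < M j)
    {p y : ℕ → ℝ} (hp : StrictMono p) (hy : StrictMono y) {lam κ : ℕ → ℝ} {c : ℕ → ℕ → ℝ}
    {R : ℝ → ℝ} (hlam : ∀ j, 1 ≤ lam j) (hc0 : ∀ j l, 0 < c j l)
    (hcM : ∀ j, ∑ l ∈ Finset.range (M j), c j l = M j)
    (hκ : ∀ j l, l < M j → c j l ≤ κ j)
    (hκM : Tendsto (fun j => κ j / M j) atTop (𝓝 0))
    (hgap : ∀ j l, l + 1 < M j → y (g j + l + 1) - y (g j + l) = c j ((r j + l) % M j))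
    (hlast : ∀ j, y (g j + M j) - y (g j + M j - 1) ≤ κ j)
    (hD : ∀ ε : ℝ, 0 < ε → ∀ᶠ j in atTop, ∀ l, l < M j →
      |p (g j + l + 1) - p (g j + l) - lam j * (y (g j + l + 1) - y (g j + l))| ≤
        ε * (lam j * (y (g j + l + 1) - y (g j + l))))
    (hL : ∀ ε : ℝ, 0 < ε → ∀ᶠ j in atTop, ∀ l, l < M j →
      |Real.log (p (g j + l)) - lam j| ≤ ε * lam j)
    (hup : ∀ a' a : ℝ, 0 < a' → a' < a → ∀ ε : ℝ, 0 < ε → ∀ᶠ j in atTop,
      ∑ l ∈ Finset.range (M j), (if a * lam j ≤ c j l then c j l else 0) ≤ (R a' + ε) * M j)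
    (hlo : ∀ a : ℝ, 0 < a → ∀ ε : ℝ, 0 < ε → ∀ᶠ j in atTop,
      (R a - ε) * M j ≤ ∑ l ∈ Finset.range (M j), (if a * lam j ≤ c j l then c j l else 0))
    {b : ℝ} (hb : 0 < b) (hR : ContinuousAt R b) :
    ∀ ε : ℝ, 0 < ε → ∀ᶠ j in atTop,
      (R b - ε) * (p (g j + M j) - p (g j)) ≤ (∑ l ∈ Finset.range (M j),
          if b * Real.log (p (g j + l)) ^ 2 ≤ p (g j + l + 1) - p (g j + l)
          then p (g j + l + 1) - p (g j + l) else 0) := by
  intro ε hε
  by_cases hneg : R b - ε ≤ 0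
  · refine Eventually.of_forall fun j => ?_
    have h1 : 0 ≤ p (g j + M j) - p (g j) := sub_nonneg.2 (hp.monotone (by omega))
    refine le_trans (mul_nonpos_of_nonpos_of_nonneg hneg h1) ?_
    refine Finset.sum_nonneg fun l _ => ?_
    split_ifs
    · exact sub_nonneg.2 (hp.monotone (by omega))
    · exact le_rfl
  rw [not_le] at hneg
  obtain ⟨a, hRa, hab⟩ : ∃ a, R b - ε / 4 < R a ∧ b < a := by
    have h1 : ∀ᶠ x in 𝓝 b, R b - ε / 4 < R x :=
      Filter.Tendsto.eventually hR (lt_mem_nhds (by linarith))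
    have h2 : ∀ᶠ x in 𝓝[>] b, R b - ε / 4 < R x := h1.filter_mono nhdsWithin_le_nhds
    have h3 : ∀ᶠ x in 𝓝[>] b, b < x := self_mem_nhdsWithin
    exact (h2.and h3).exists
  have ha : 0 < a := hb.trans hab
  obtain ⟨e, he0, he1, he2, he3⟩ : ∃ e : ℝ, 0 < e ∧ e ≤ 1 / 2 ∧ b * (1 + e) ^ 2 ≤ (1 - e) * a ∧
      e * (4 * (|R b| + 1)) ≤ ε := by
    have hq1 : 0 < (a - b) / (3 * b + a) := div_pos (by linarith) (by linarith)
    have hq2 : 0 < ε / (4 * (|R b| + 1)) := div_pos hε (by positivity)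
    refine ⟨min (1 / 2) (min ((a - b) / (3 * b + a)) (ε / (4 * (|R b| + 1)))),
      lt_min (by norm_num) (lt_min hq1 hq2), min_le_left _ _, ?_, ?_⟩
    · have k1 : min (1 / 2 : ℝ) (min ((a - b) / (3 * b + a)) (ε / (4 * (|R b| + 1)))) ≤
          (a - b) / (3 * b + a) := (min_le_right _ _).trans (min_le_left _ _)
      have k2 : min (1 / 2 : ℝ) (min ((a - b) / (3 * b + a)) (ε / (4 * (|R b| + 1)))) ≤ 1 / 2 :=
        min_le_left _ _
      have k0 : 0 < min (1 / 2 : ℝ) (min ((a - b) / (3 * b + a)) (ε / (4 * (|R b| + 1)))) :=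
        lt_min (by norm_num) (lt_min hq1 hq2)
      generalize min (1 / 2 : ℝ) (min ((a - b) / (3 * b + a)) (ε / (4 * (|R b| + 1)))) = e at k0 k1 k2
      rw [le_div_iff₀ (by linarith)] at k1
      have k3 : (1 + e) ^ 2 ≤ 1 + 3 * e := by nlinarith
      have k4 := mul_le_mul_of_nonneg_left k3 hb.le
      nlinarith
    · have k1 : min (1 / 2 : ℝ) (min ((a - b) / (3 * b + a)) (ε / (4 * (|R b| + 1)))) ≤
          ε / (4 * (|R b| + 1)) := (min_le_right _ _).trans (min_le_right _ _)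
      rwa [le_div_iff₀ (by positivity)] at k1
  filter_upwards [hD e he0, hL e he0, hlo a ha (ε / 8) (by linarith),
    mass_total hM0 hp hy hlam hc0 hcM hκ hκM hgap hlast hD e he0,
    Filter.Tendsto.eventually hκM (gt_mem_nhds (show (0 : ℝ) < ε / 8 by linarith))]
    with j d1 d2 d3 d4 d5
  have hMj : (0 : ℝ) < M j := by exact_mod_cast hM0 j
  have hlamj : 1 ≤ lam j := hlam j
  have d5' : κ j ≤ ε / 8 * M j := by
    rw [div_lt_iff₀ hMj] at d5
    exact d5.le
  have hblk := mlo_block (M := M j) (r := r j) (hM0 j) (lam := lam j) (κ := κ j) (a := a) (b := b)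
    (e := e) (c := c j) (Cy := fun l => y (g j + l + 1) - y (g j + l))
    (D := fun l => p (g j + l + 1) - p (g j + l)) (T := fun l => Real.log (p (g j + l)))
    (hlam j) (hc0 j) (hκ j) (by linarith) (hgap j)
    (by
      intro l hl
      have h := (abs_le.1 (d1 l hl)).1
      linarith)
    (fun l => sub_nonneg.2 (hp.monotone (by omega)))
    (by
      intro l hl
      have h := abs_le.1 (d2 l hl)
      apply sq_le_sq'
      · have : 0 ≤ lam j := by linarith
        nlinarith [h.1]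
      · linarith [h.2]) hb.le he2
  refine le_trans ?_ hblk
  have hlM : 0 < lam j * M j := mul_pos (by linarith) hMj
  have s1 : p (g j + M j) - p (g j) ≤ (1 + e) * (lam j * M j) := by
    have h := (abs_le.1 d4).2
    linarith
  have s2 : (R b - ε) * (p (g j + M j) - p (g j)) ≤ (R b - ε) * ((1 + e) * (lam j * M j)) :=
    mul_le_mul_of_nonneg_left s1 hneg.le
  have s3 : (R b - ε / 2) * M j ≤
      (∑ l ∈ Finset.range (M j), if a * lam j ≤ c j l then c j l else 0) - κ j := by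
    have h1 : (R b - ε / 4 - ε / 8) * M j ≤ (R a - ε / 8) * M j :=
      mul_le_mul_of_nonneg_right (by linarith) hMj.le
    nlinarith
  have s4 : (1 - e) * lam j * ((R b - ε / 2) * M j) ≤ (1 - e) * lam j *
      ((∑ l ∈ Finset.range (M j), if a * lam j ≤ c j l then c j l else 0) - κ j) :=
    mul_le_mul_of_nonneg_left s3 (mul_nonneg (by linarith) (by linarith))
  have s5 : (R b - ε) * (1 + e) ≤ (1 - e) * (R b - ε / 2) := by
    have h1 : R b ≤ |R b| := le_abs_self _
    have h2 : e * R b ≤ e * |R b| := mul_le_mul_of_nonneg_left h1 he0.le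
    nlinarith
  have s6 := mul_le_mul_of_nonneg_right s5 hlM.le
  calc (R b - ε) * (p (g j + M j) - p (g j)) ≤ (R b - ε) * ((1 + e) * (lam j * M j)) := s2
    _ = (R b - ε) * (1 + e) * (lam j * M j) := by ring
    _ ≤ (1 - e) * (R b - ε / 2) * (lam j * M j) := s6
    _ = (1 - e) * lam j * ((R b - ε / 2) * M j) := by ring
    _ ≤ _ := s4

end Pool.Agent.H521.G
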