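import Mathlib

open MeasureTheory Set Filter Topology
open scoped Classical

namespace Pool.Agent.H521.G

theorem mass_total_rot (f : ℕ → ℝ) (M : ℕ) (hM : 0 < M) (r : ℕ) :
    ∑ l ∈ Finset.range M, f ((r + l) % M) = ∑ l ∈ Finset.range M, f l := by
  induction r with
  | zero =>
    apply Finset.sum_congr rfl
    intro l hl
    rw [zero_add, Nat.mod_eq_of_lt (Finset.mem_range.1 hl)]
  | succ r ih =>
    have h1 := Finset.sum_range_succ (fun l => f ((r + l) % M)) M
    have h2 := Finset.sum_range_succ' (fun l => f ((r + l) % M)) M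
    rw [h1] at h2
    have h3 : f ((r + M) % M) = f ((r + 0) % M) := by
      rw [Nat.add_mod_right, add_zero]
    rw [h3] at h2
    have h4 : ∑ l ∈ Finset.range M, f ((r + 1 + l) % M) =
        ∑ l ∈ Finset.range M, f ((r + (l + 1)) % M) := by
      apply Finset.sum_congr rfl
      intro l _
      rw [show r + 1 + l = r + (l + 1) by ring]
    rw [h4, ← ih]
    linarith

/-- The length of a block in the `p`-scale. -/
theorem mass_total {g M r : ℕ → ℕ} (hM0 : ∀ j, 0 < M j)
    {p y : ℕ → ℝ} (hp : StrictMono p) (hy : StrictMono y) {lam κ : ℕ → ℝ} {c : ℕ → ℕ → ℝ}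
    (hlam : ∀ j, 1 ≤ lam j) (hc0 : ∀ j l, 0 < c j l)
    (hcM : ∀ j, ∑ l ∈ Finset.range (M j), c j l = M j)
    (hκ : ∀ j l, l < M j → c j l ≤ κ j)
    (hκM : Tendsto (fun j => κ j / M j) atTop (𝓝 0))
    (hgap : ∀ j l, l + 1 < M j → y (g j + l + 1) - y (g j + l) = c j ((r j + l) % M j))
    (hlast : ∀ j, y (g j + M j) - y (g j + M j - 1) ≤ κ j)
    (hD : ∀ ε : ℝ, 0 < ε → ∀ᶠ j in atTop, ∀ l, l < M j →
      |p (g j + l + 1) - p (g j + l) - lam j * (y (g j + l + 1) - y (g j + l))| ≤
        ε * (lam j * (y (g j + l + 1) - y (g j + l)))) :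
    ∀ ε : ℝ, 0 < ε → ∀ᶠ j in atTop,
      |p (g j + M j) - p (g j) - lam j * M j| ≤ ε * (lam j * M j) := by
  intro ε hε
  have hε3 : 0 < ε / 3 := by positivity
  have hδ : 0 < min (ε / 3) 1 := lt_min hε3 one_pos
  filter_upwards [hD (ε / 3) hε3, hκM.eventually (gt_mem_nhds hδ)] with j hj hκj
  have hMj : (0 : ℝ) < M j := Nat.cast_pos.2 (hM0 j)
  have hk1 : κ j < min (ε / 3) 1 * M j := (div_lt_iff₀ hMj).1 hκj
  have hk2 : κ j ≤ ε / 3 * M j := hk1.le.trans
    (mul_le_mul_of_nonneg_right (min_le_left _ _) hMj.le)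
  have hk3 : κ j ≤ M j := by
    have := hk1.le.trans (mul_le_mul_of_nonneg_right (min_le_right (ε / 3) 1) hMj.le)
    linarith
  have hlamj : 0 < lam j := zero_lt_one.trans_le (hlam j)
  -- the length in the `y`-scale
  have hY : y (g j + M j) - y (g j) =
      ∑ l ∈ Finset.range (M j), (y (g j + l + 1) - y (g j + l)) := by
    have h := Finset.sum_range_sub (fun l => y (g j + l)) (M j)
    simp only [add_zero] at h
    rw [← h]
    rfl
  have hP : p (g j + M j) - p (g j) =
      ∑ l ∈ Finset.range (M j), (p (g j + l + 1) - p (g j + l)) := by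
    have h := Finset.sum_range_sub (fun l => p (g j + l)) (M j)
    simp only [add_zero] at h
    rw [← h]
    rfl
  have hrot := (mass_total_rot (c j) (M j) (hM0 j) (r j)).trans (hcM j)
  obtain ⟨m, hm⟩ : ∃ m, M j = m + 1 := ⟨M j - 1, by have := hM0 j; omega⟩
  have hYM : |y (g j + M j) - y (g j) - M j| ≤ κ j := by
    have h1 : y (g j + M j) - y (g j) - M j = (y (g j + M j) - y (g j + M j - 1)) -
        c j ((r j + m) % M j) := by
      have e1 : ∑ l ∈ Finset.range (M j), (y (g j + l + 1) - y (g j + l)) =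
          ∑ l ∈ Finset.range m, c j ((r j + l) % M j) + (y (g j + M j) - y (g j + M j - 1)) := by
        have e2 : ∑ l ∈ Finset.range (M j), (y (g j + l + 1) - y (g j + l)) =
            ∑ l ∈ Finset.range (m + 1), (y (g j + l + 1) - y (g j + l)) := by rw [hm]
        rw [e2, Finset.sum_range_succ]
        congr 1
        · apply Finset.sum_congr rfl
          intro l hl
          exact hgap j l (by have := Finset.mem_range.1 hl; omega)
        · have e3 : g j + M j = g j + m + 1 := by omega
          rw [e3]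
          rfl
      have e4 : ∑ l ∈ Finset.range (M j), c j ((r j + l) % M j) =
          ∑ l ∈ Finset.range m, c j ((r j + l) % M j) + c j ((r j + m) % M j) := by
        have e5 : ∑ l ∈ Finset.range (M j), c j ((r j + l) % M j) =
            ∑ l ∈ Finset.range (m + 1), c j ((r j + l) % M j) := by
          rw [← hm]
        rw [e5, Finset.sum_range_succ]
      rw [hY, e1]
      rw [e4] at hrot
      linarith
    have h2 : 0 < y (g j + M j) - y (g j + M j - 1) := sub_pos.2 (hy (by omega))
    have h3 := hlast j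
    have h4 := hc0 j ((r j + m) % M j)
    have h5 := hκ j ((r j + m) % M j) (Nat.mod_lt _ (hM0 j))
    rw [h1, abs_le]
    constructor <;> linarith
  have hPY : |p (g j + M j) - p (g j) - lam j * (y (g j + M j) - y (g j))| ≤
      ε / 3 * (lam j * (y (g j + M j) - y (g j))) := by
    rw [hP, hY, Finset.mul_sum, Finset.mul_sum, ← Finset.sum_sub_distrib]
    refine (Finset.abs_sum_le_sum_abs _ _).trans ?_
    apply Finset.sum_le_sum
    intro l hl
    exact hj l (Finset.mem_range.1 hl)
  rw [abs_le] at hYM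
  have h6 : lam j * (y (g j + M j) - y (g j)) ≤ lam j * (M j + κ j) :=
    mul_le_mul_of_nonneg_left (by linarith [hYM.2]) hlamj.le
  have h7 : |lam j * (y (g j + M j) - y (g j)) - lam j * M j| ≤ lam j * κ j := by
    rw [← mul_sub, abs_mul, abs_of_pos hlamj]
    exact mul_le_mul_of_nonneg_left (abs_le.2 hYM) hlamj.le
  have h8 : lam j * κ j ≤ lam j * (ε / 3 * M j) := mul_le_mul_of_nonneg_left hk2 hlamj.le
  have h9 : lam j * (M j + κ j) ≤ lam j * (M j + M j) :=
    mul_le_mul_of_nonneg_left (by linarith) hlamj.le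
  calc |p (g j + M j) - p (g j) - lam j * M j|
      = |(p (g j + M j) - p (g j) - lam j * (y (g j + M j) - y (g j))) +
          (lam j * (y (g j + M j) - y (g j)) - lam j * M j)| := by congr 1; ring
    _ ≤ |p (g j + M j) - p (g j) - lam j * (y (g j + M j) - y (g j))| +
          |lam j * (y (g j + M j) - y (g j)) - lam j * M j| := abs_add_le _ _
    _ ≤ ε / 3 * (lam j * (M j + M j)) + lam j * (ε / 3 * M j) :=
        add_le_add (hPY.trans (mul_le_mul_of_nonneg_left (h6.trans h9) hε3.le)) (h7.trans h8)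
    _ = ε * (lam j * M j) := by ring

end Pool.Agent.H521.G
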