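import Pool.Agent.H521.G.MassTotal

open MeasureTheory Set Filter Topology
open scoped Classical

namespace Pool.Agent.H521.G

theorem massup_rot (M r : ℕ) (hM : 0 < M) (f : ℕ → ℝ) :
    ∑ l ∈ Finset.range M, f ((r + l) % M) = ∑ l ∈ Finset.range M, f l := by
  have hinj : Set.InjOn (fun l => (r + l) % M) (Finset.range M : Set ℕ) := by
    intro l hl l' hl' h
    rw [Finset.coe_range, Set.mem_Iio] at hl hl'
    have h1 : (r + l) ≡ (r + l') [MOD M] := h
    have h2 : l ≡ l' [MOD M] := Nat.ModEq.add_left_cancel' r h1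
    exact Nat.ModEq.eq_of_lt_of_lt h2 hl hl'
  have himg : (Finset.range M).image (fun l => (r + l) % M) = Finset.range M := by
    apply Finset.eq_of_subset_of_card_le
    · intro x hx
      rw [Finset.mem_image] at hx
      obtain ⟨l, -, rfl⟩ := hx
      exact Finset.mem_range.2 (Nat.mod_lt _ hM)
    · rw [Finset.card_image_of_injOn hinj]
  rw [← Finset.sum_image (f := f) (g := fun l => (r + l) % M) hinj, himg]

/-- the sum over one block -/
theorem massup_block (M r : ℕ) (hM : 0 < M) (D L Y c : ℕ → ℝ) {a b e lam κ : ℝ} (hlam : 1 ≤ lam)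
    (_ha : 0 < a) (hb : 0 < b) (he : 0 < e) (he1 : e < 1) (hab : a * (1 + e) ≤ b * (1 - e) ^ 2)
    (hc0 : ∀ l, 0 < c l) (hY0 : ∀ l, 0 ≤ Y l)
    (hgap : ∀ l, l + 1 < M → Y l = c ((r + l) % M)) (hlast : Y (M - 1) ≤ κ)
    (hD : ∀ l, l < M → |D l - lam * Y l| ≤ e * (lam * Y l))
    (hL : ∀ l, l < M → |L l - lam| ≤ e * lam) :
    ∑ l ∈ Finset.range M, (if b * L l ^ 2 ≤ D l then D l else 0) ≤
      (1 + e) * lam * (∑ l ∈ Finset.range M, (if a * lam ≤ c l then c l else 0) + κ) := by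
  have hlam0 : 0 < lam := by linarith
  have hκ0 : 0 ≤ κ := (hY0 _).trans hlast
  have h1 : ∑ l ∈ Finset.range M, (if b * L l ^ 2 ≤ D l then D l else 0) ≤
      ∑ l ∈ Finset.range M, (1 + e) * lam * (if a * lam ≤ Y l then Y l else 0) := by
    refine Finset.sum_le_sum fun l hl => ?_
    rw [Finset.mem_range] at hl
    have h2 := abs_le.1 (hD l hl)
    have h3 := abs_le.1 (hL l hl)
    split_ifs with h4 h5 h5
    · linarith [h2.2]
    · exfalso
      apply h5
      have h6 : (1 - e) * lam ≤ L l := by linarith [h3.1]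
      have h7 : 0 ≤ (1 - e) * lam := mul_nonneg (by linarith) hlam0.le
      have h8 : ((1 - e) * lam) ^ 2 ≤ L l ^ 2 := pow_le_pow_left₀ h7 h6 2
      have h9 : b * ((1 - e) * lam) ^ 2 ≤ (1 + e) * lam * Y l := by
        have := mul_le_mul_of_nonneg_left h8 hb.le
        linarith [h2.2]
      have h10 : a * (1 + e) * lam ^ 2 ≤ b * (1 - e) ^ 2 * lam ^ 2 :=
        mul_le_mul_of_nonneg_right hab (sq_nonneg _)
      have h11 : (1 + e) * lam * (a * lam) ≤ (1 + e) * lam * Y l := by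
        linarith [h9, h10]
      exact le_of_mul_le_mul_left h11 (by positivity)
    · have := hY0 l
      positivity
    · simp
  have h2 : ∑ l ∈ Finset.range M, (if a * lam ≤ Y l then Y l else 0) ≤
      ∑ l ∈ Finset.range M, (if a * lam ≤ c l then c l else 0) + κ := by
    rw [← massup_rot M r hM (fun l => if a * lam ≤ c l then c l else 0)]
    obtain ⟨m, rfl⟩ : ∃ m, M = m + 1 := ⟨M - 1, by omega⟩
    rw [Finset.sum_range_succ, Finset.sum_range_succ]
    have h3 : ∑ l ∈ Finset.range m, (if a * lam ≤ Y l then Y l else 0) =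
        ∑ l ∈ Finset.range m, (if a * lam ≤ c ((r + l) % (m + 1)) then c ((r + l) % (m + 1))
          else 0) := by
      refine Finset.sum_congr rfl fun l hl => ?_
      rw [Finset.mem_range] at hl
      rw [hgap l (by omega)]
    have h4 : (if a * lam ≤ Y m then Y m else 0) ≤ κ := by
      split_ifs
      · exact hlast
      · exact hκ0
    have h5 : 0 ≤ (if a * lam ≤ c ((r + m) % (m + 1)) then c ((r + m) % (m + 1)) else 0) := by
      split_ifs
      · exact (hc0 _).le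
      · exact le_rfl
    rw [h3]
    linarith
  rw [← Finset.mul_sum] at h1
  refine h1.trans (mul_le_mul_of_nonneg_left h2 (by positivity))

theorem massup_R_nonneg {M : ℕ → ℕ} (hM0 : ∀ j, 0 < M j)
    {lam : ℕ → ℝ} {c : ℕ → ℕ → ℝ} {R : ℝ → ℝ} (hc0 : ∀ j l, 0 < c j l)
    (hup : ∀ a' a : ℝ, 0 < a' → a' < a → ∀ ε : ℝ, 0 < ε → ∀ᶠ j in atTop,
      ∑ l ∈ Finset.range (M j), (if a * lam j ≤ c j l then c j l else 0) ≤ (R a' + ε) * M j)
    {b : ℝ} (hb : 0 < b) : 0 ≤ R b := by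
  refine le_of_forall_pos_le_add fun ε hε => ?_
  obtain ⟨j, hj⟩ := (hup b (b + 1) hb (by linarith) ε hε).exists
  have h1 : 0 ≤ ∑ l ∈ Finset.range (M j), (if (b + 1) * lam j ≤ c j l then c j l else 0) := by
    refine Finset.sum_nonneg fun l _ => ?_
    split_ifs
    · exact (hc0 j l).le
    · exact le_rfl
  have h2 : (0:ℝ) < M j := Nat.cast_pos.2 (hM0 j)
  by_contra hcon
  push Not at hcon
  have h3 : (R b + ε) * M j < 0 := mul_neg_of_neg_of_pos hcon h2
  linarith

/-- Upper bound for the mass of the large gaps of `p` in a block. -/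
theorem mass_up {g M r : ℕ → ℕ} (hM0 : ∀ j, 0 < M j)
    {p y : ℕ → ℝ} (hp : StrictMono p) (hy : StrictMono y) {lam κ : ℕ → ℝ} {c : ℕ → ℕ → ℝ}
    {R : ℝ → ℝ} (hlam : ∀ j, 1 ≤ lam j) (hc0 : ∀ j l, 0 < c j l)
    (hcM : ∀ j, ∑ l ∈ Finset.range (M j), c j l = M j)
    (hκ : ∀ j l, l < M j → c j l ≤ κ j)
    (hκM : Tendsto (fun j => κ j / M j) atTop (𝓝 0))
    (hgap : ∀ j l, l + 1 < M j → y (g j + l + 1) - y (g j + l) = c j ((r j + l) % M j))
    (hlast : ∀ j, y (g j + M j) - y (g j + M j - 1) ≤ κ j)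
    (hD : ∀ ε : ℝ, 0 < ε → ∀ᶠ j in atTop, ∀ l, l < M j →
      |p (g j + l + 1) - p (g j + l) - lam j * (y (g j + l + 1) - y (g j + l))| ≤
        ε * (lam j * (y (g j + l + 1) - y (g j + l))))
    (hL : ∀ ε : ℝ, 0 < ε → ∀ᶠ j in atTop, ∀ l, l < M j →
      |Real.log (p (g j + l)) - lam j| ≤ ε * lam j)
    (hup : ∀ a' a : ℝ, 0 < a' → a' < a → ∀ ε : ℝ, 0 < ε → ∀ᶠ j in atTop,
      ∑ l ∈ Finset.range (M j), (if a * lam j ≤ c j l then c j l else 0) ≤ (R a' + ε) * M j)
    (hlo : ∀ a : ℝ, 0 < a → ∀ ε : ℝ, 0 < ε → ∀ᶠ j in atTop,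
      (R a - ε) * M j ≤ ∑ l ∈ Finset.range (M j), (if a * lam j ≤ c j l then c j l else 0))
    {b : ℝ} (hb : 0 < b) (hR : ContinuousAt R b) :
    ∀ ε : ℝ, 0 < ε → ∀ᶠ j in atTop,
      (∑ l ∈ Finset.range (M j),
          if b * Real.log (p (g j + l)) ^ 2 ≤ p (g j + l + 1) - p (g j + l)
          then p (g j + l + 1) - p (g j + l) else 0) ≤ (R b + ε) * (p (g j + M j) - p (g j)) := by
  intro ε hε
  have hRb0 : 0 ≤ R b := massup_R_nonneg hM0 hc0 hup hb
  -- the thresholds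
  obtain ⟨a', ha'0, ha'b, hRa'⟩ : ∃ a', 0 < a' ∧ a' < b ∧ R a' < R b + ε / 2 := by
    have h1 : ∀ᶠ x in 𝓝[<] b, R x < R b + ε / 2 :=
      (hR.tendsto.eventually_lt_const (by linarith)).filter_mono nhdsWithin_le_nhds
    have h2 : ∀ᶠ x in 𝓝[<] b, 0 < x := (lt_mem_nhds hb).filter_mono nhdsWithin_le_nhds
    obtain ⟨x, hx1, hx2, hx3⟩ := (h1.and (h2.and self_mem_nhdsWithin)).exists
    exact ⟨x, hx2, hx3, hx1⟩
  obtain ⟨a, haa', hab⟩ := exists_between ha'b
  have ha0 : 0 < a := ha'0.trans haa'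
  obtain ⟨e, he, he1, he2, he3⟩ : ∃ e : ℝ, 0 < e ∧ e < 1 ∧ a * (1 + e) < b * (1 - e) ^ 2 ∧
      (1 + e) * (R b + ε / 2 + 2 * e) < (R b + ε) * (1 - e) := by
    have h1 : ∀ᶠ e in 𝓝[>] (0:ℝ), e < 1 :=
      (gt_mem_nhds one_pos).filter_mono nhdsWithin_le_nhds
    have h2 : ∀ᶠ e in 𝓝[>] (0:ℝ), a * (1 + e) < b * (1 - e) ^ 2 := by
      have h3 : ContinuousAt (fun e : ℝ => b * (1 - e) ^ 2 - a * (1 + e)) 0 := by fun_prop
      have h4 : ∀ᶠ e in 𝓝 (0:ℝ), 0 < b * (1 - e) ^ 2 - a * (1 + e) :=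
        h3.tendsto.eventually_const_lt (by norm_num; exact hab)
      filter_upwards [h4.filter_mono nhdsWithin_le_nhds] with e h5
      linarith
    have h3 : ∀ᶠ e in 𝓝[>] (0:ℝ),
        (1 + e) * (R b + ε / 2 + 2 * e) < (R b + ε) * (1 - e) := by
      have h3 : ContinuousAt (fun e : ℝ => (R b + ε) * (1 - e) -
          (1 + e) * (R b + ε / 2 + 2 * e)) 0 := by fun_prop
      have h4 : ∀ᶠ e in 𝓝 (0:ℝ), 0 < (R b + ε) * (1 - e) -
          (1 + e) * (R b + ε / 2 + 2 * e) :=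
        h3.tendsto.eventually_const_lt (by norm_num; linarith)
      filter_upwards [h4.filter_mono nhdsWithin_le_nhds] with e h5
      linarith
    obtain ⟨e, h5, h6, h7, h8⟩ := (h1.and (h2.and (h3.and self_mem_nhdsWithin))).exists
    exact ⟨e, h8, h5, h6, h7⟩
  filter_upwards [hup a' a ha'0 haa' e he, hD e he, hL e he,
    mass_total hM0 hp hy hlam hc0 hcM hκ hκM hgap hlast hD e he,
    hκM.eventually_lt_const he] with j h1 h2 h3 h4 h5
  have hMj : (0:ℝ) < M j := Nat.cast_pos.2 (hM0 j)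
  have hlj : 0 < lam j := by linarith [hlam j]
  have hκe : κ j ≤ e * M j := by
    rw [div_lt_iff₀ hMj] at h5
    exact h5.le
  have hbk := massup_block (M j) (r j) (hM0 j) (fun l => p (g j + l + 1) - p (g j + l))
    (fun l => Real.log (p (g j + l))) (fun l => y (g j + l + 1) - y (g j + l)) (c j) (κ := κ j)
    (hlam j) ha0 hb he he1 he2.le (hc0 j)
    (fun l => (sub_pos.2 (hy (Nat.lt_succ_self _))).le) (hgap j) (by
      have h6 := hlast j
      have h7 : g j + (M j - 1) + 1 = g j + M j := by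
        have := hM0 j
        omega
      have h8 : g j + (M j - 1) = g j + M j - 1 := by
        have := hM0 j
        omega
      show y (g j + (M j - 1) + 1) - y (g j + (M j - 1)) ≤ κ j
      rw [h7, h8]
      exact h6) h2 h3
  refine hbk.trans ?_
  have h6 : ∑ l ∈ Finset.range (M j), (if a * lam j ≤ c j l then c j l else 0) + κ j ≤
      (R b + ε / 2 + 2 * e) * M j := by
    have h7 : (R a' + e) * M j ≤ (R b + ε / 2 + e) * M j :=
      mul_le_mul_of_nonneg_right (by linarith) hMj.le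
    linarith
  have h7 : (1 - e) * (lam j * M j) ≤ p (g j + M j) - p (g j) := by
    have := (abs_le.1 h4).1
    linarith
  calc (1 + e) * lam j * (∑ l ∈ Finset.range (M j),
        (if a * lam j ≤ c j l then c j l else 0) + κ j)
      ≤ (1 + e) * lam j * ((R b + ε / 2 + 2 * e) * M j) :=
        mul_le_mul_of_nonneg_left h6 (by positivity)
    _ = ((1 + e) * (R b + ε / 2 + 2 * e)) * (lam j * M j) := by ring
    _ ≤ ((R b + ε) * (1 - e)) * (lam j * M j) :=
        mul_le_mul_of_nonneg_right he3.le (by positivity)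
    _ = (R b + ε) * ((1 - e) * (lam j * M j)) := by ring
    _ ≤ (R b + ε) * (p (g j + M j) - p (g j)) := mul_le_mul_of_nonneg_left h7 (by linarith)

end Pool.Agent.H521.G
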