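import Pool.Agent.H521.G.Win2

open MeasureTheory Set Filter Topology
open scoped ENNReal NNReal ComplexConjugate

namespace Pool.Agent.H521.G

/-- The maximal gap function. -/
noncomputable def maxGapB (p : ℕ → ℝ) (x : ℝ) : ℝ := sSup {g | ∃ n, p n ≤ x ∧ g = p (n + 1) - p n}

theorem exists_block {p : ℕ → ℝ} (hpt : Tendsto p atTop atTop) {x : ℝ}
    (hx : p 0 ≤ x) : ∃ k, p k ≤ x ∧ x < p (k + 1) := by
  have hex : ∃ k, x < p k := (hpt.eventually_gt_atTop x).exists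
  classical
  have hpos : Nat.find hex ≠ 0 := by
    intro h
    have := Nat.find_spec hex
    rw [h] at this
    linarith
  refine ⟨Nat.find hex - 1, not_lt.1 (Nat.find_min hex (by omega)), ?_⟩
  have e : Nat.find hex - 1 + 1 = Nat.find hex := by omega
  rw [e]
  exact Nat.find_spec hex

theorem eventually_blocks {p : ℕ → ℝ} (hp : StrictMono p) (hpt : Tendsto p atTop atTop)
    {P : ℝ → Prop} (h : ∀ᶠ j in atTop, ∀ x, p j ≤ x → x < p (j + 1) → P x) :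
    ∀ᶠ x in atTop, P x := by
  obtain ⟨N, hN⟩ := eventually_atTop.1 h
  filter_upwards [eventually_ge_atTop (p N)] with x hx
  obtain ⟨k, hk1, hk2⟩ := exists_block hpt ((hp.monotone (Nat.zero_le N)).trans hx)
  have hNk : N ≤ k := by
    by_contra hc
    push Not at hc
    have := hp.monotone (Nat.succ_le_of_lt hc)
    have e : p k.succ = p (k + 1) := rfl
    rw [e] at this
    linarith
  exact hN k hNk x hk1 hk2

theorem le_maxGapB {p : ℕ → ℝ} (hpt : Tendsto p atTop atTop) (hp : StrictMono p) {n : ℕ} {x : ℝ}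
    (h : p n ≤ x) : p (n + 1) - p n ≤ maxGapB p x := by
  have hmem : p (n + 1) - p n ∈ {g | ∃ n, p n ≤ x ∧ g = p (n + 1) - p n} := ⟨n, h, rfl⟩
  refine le_csSup ?_ hmem
  obtain ⟨N, hN⟩ := (hpt.eventually_gt_atTop x).exists
  apply (((Set.finite_Iio N).image fun n => p (n + 1) - p n).bddAbove).mono
  rintro g ⟨m, hm, rfl⟩
  refine ⟨m, ?_, rfl⟩
  by_contra hc
  simp only [mem_Iio, not_lt] at hc
  have := hp.monotone hc
  linarith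

theorem maxGapB_le {p : ℕ → ℝ} {Φ : ℝ → ℝ} {X : ℝ} (hmono : MonotoneOn Φ (Ici X))
    (hpt : Tendsto p atTop atTop) (hΦ : Tendsto Φ atTop atTop)
    (h : ∀ᶠ k in atTop, p (k + 1) - p k ≤ Φ (p k)) : ∀ᶠ x in atTop, maxGapB p x ≤ Φ x := by
  obtain ⟨N, hN⟩ := eventually_atTop.1 (h.and (hpt.eventually_ge_atTop X))
  obtain ⟨M, hM⟩ : ∃ M : ℝ, ∀ k < N, p (k + 1) - p k ≤ M := by
    obtain ⟨M, hM⟩ := (((Set.finite_Iio N).image fun n => p (n + 1) - p n).bddAbove)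
    exact ⟨M, fun k hk => hM ⟨k, hk, rfl⟩⟩
  filter_upwards [hΦ.eventually_ge_atTop M, hΦ.eventually_ge_atTop 0, eventually_ge_atTop X]
    with x hx1 hx2 hx3
  apply Real.sSup_le _ hx2
  rintro g ⟨n, hn, rfl⟩
  rcases lt_or_ge n N with h1 | h1
  · exact (hM n h1).trans hx1
  · obtain ⟨h2, h3⟩ := hN n h1
    exact h2.trans (hmono h3 hx3 hn)

/-- The telescoping inequality. -/
theorem tele {δ ρ ρ' : ℝ} (hδ : 0 < δ) (hρ : 1 ≤ ρ)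
    (h : (1 + 1 / (1 + Real.log ρ)) * ρ ≤ ρ') :
    ρ ^ (-(2 * δ)) ≤ ((2 + δ) * (1 + 1 / δ) / δ) * (ρ ^ (-δ) - ρ' ^ (-δ)) := by
  have hρ0 : 0 < ρ := by linarith
  have hlog : 0 ≤ Real.log ρ := Real.log_nonneg hρ
  set η : ℝ := 1 / (1 + Real.log ρ) with hη
  have hη0 : 0 < η := by positivity
  have hη1 : η ≤ 1 := by rw [hη, div_le_one (by linarith)]; linarith
  have h1 : ρ' ^ (-δ) ≤ ρ ^ (-δ) * (1 + η) ^ (-δ) := by
    rw [← Real.mul_rpow hρ0.le (by linarith)]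
    apply Real.rpow_le_rpow_of_nonpos (by positivity) _ (by linarith)
    linarith
  have h2 : (1 + η) ^ (-δ) ≤ 1 / (1 + δ * η / 2) := by
    have h3 : η / 2 ≤ Real.log (1 + η) := by
      have := Real.le_log_one_add_of_nonneg hη0.le
      refine le_trans ?_ this
      rw [div_le_div_iff₀ (by norm_num) (by linarith)]
      nlinarith
    rw [Real.rpow_def_of_pos (by linarith), one_div, ← Real.exp_log (by positivity :
      0 < (1 + δ * η / 2)⁻¹)]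
    apply Real.exp_le_exp.2
    rw [Real.log_inv]
    have h4 := Real.log_le_sub_one_of_pos (by positivity : 0 < 1 + δ * η / 2)
    nlinarith
  have h3 : 1 / (1 + δ * η / 2) ≤ 1 - δ * η / (2 + δ) := by
    rw [div_le_iff₀ (by positivity)]
    have : (1 - δ * η / (2 + δ)) * (1 + δ * η / 2) = 1 + δ * η * (δ * (1 - η)) / (2 * (2 + δ)) := by
      field_simp
      ring
    rw [this]
    have h5 : 0 ≤ δ * η * (δ * (1 - η)) / (2 * (2 + δ)) := by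
      have : 0 ≤ 1 - η := by linarith
      positivity
    linarith
  have hρδ : 0 < ρ ^ (-δ) := Real.rpow_pos_of_pos hρ0 _
  have h4 : ρ ^ (-δ) * (δ * η / (2 + δ)) ≤ ρ ^ (-δ) - ρ' ^ (-δ) := by
    have h5 : ρ ^ (-δ) * (1 + η) ^ (-δ) ≤ ρ ^ (-δ) * (1 - δ * η / (2 + δ)) :=
      mul_le_mul_of_nonneg_left (h2.trans h3) hρδ.le
    linarith
  have h5 : 1 + Real.log ρ ≤ (1 + 1 / δ) * ρ ^ δ := by
    have h6 := Real.log_le_rpow_div hρ0.le hδ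
    have h7 : 1 ≤ ρ ^ δ := Real.one_le_rpow hρ hδ.le
    have : (1 + 1 / δ) * ρ ^ δ = ρ ^ δ + ρ ^ δ / δ := by ring
    linarith
  have h6 : ρ ^ (-(2 * δ)) ≤ (1 + 1 / δ) * (ρ ^ (-δ) * η) := by
    have h7 : ρ ^ (-(2 * δ)) = ρ ^ (-δ) * ρ ^ (-δ) := by
      rw [← Real.rpow_add hρ0]; congr 1; ring
    have h8 : ρ ^ (-δ) ≤ (1 + 1 / δ) * η := by
      rw [hη, mul_one_div, le_div_iff₀ (by linarith)]
      calc ρ ^ (-δ) * (1 + Real.log ρ) ≤ ρ ^ (-δ) * ((1 + 1 / δ) * ρ ^ δ) :=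
            mul_le_mul_of_nonneg_left h5 hρδ.le
        _ = (1 + 1 / δ) * (ρ ^ (-δ) * ρ ^ δ) := by ring
        _ = 1 + 1 / δ := by rw [← Real.rpow_add hρ0]; simp
    rw [h7]
    calc ρ ^ (-δ) * ρ ^ (-δ) ≤ ρ ^ (-δ) * ((1 + 1 / δ) * η) :=
          mul_le_mul_of_nonneg_left h8 hρδ.le
      _ = _ := by ring
  calc ρ ^ (-(2 * δ)) ≤ (1 + 1 / δ) * (ρ ^ (-δ) * η) := h6
    _ = ((2 + δ) * (1 + 1 / δ) / δ) * (ρ ^ (-δ) * (δ * η / (2 + δ))) := by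
      field_simp
    _ ≤ _ := mul_le_mul_of_nonneg_left h4 (by positivity)

/-- The state of the greedy construction: position of the cell and current record. -/
noncomputable def stG (f : ℝ → ℝ) (x₀ : ℝ) (Ψ : ℝ → ℝ) : ℕ → ℝ × ℝ
  | 0 => (0, 1)
  | j + 1 =>
    if (1 + 1 / (1 + Real.log (stG f x₀ Ψ j).2)) * (stG f x₀ Ψ j).2 ≤
        Ψ (phi f x₀ ((stG f x₀ Ψ j).1 + 1)) then
      (Fp f x₀ (phi f x₀ ((stG f x₀ Ψ j).1 + 1) + Ψ (phi f x₀ ((stG f x₀ Ψ j).1 + 1))),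
        Ψ (phi f x₀ ((stG f x₀ Ψ j).1 + 1)))
    else ((stG f x₀ Ψ j).1 + 1, (stG f x₀ Ψ j).2)

section greedy

variable {f : ℝ → ℝ} {x₀ : ℝ} (hR : RDens f x₀) (Ψ : ℝ → ℝ)

/-- position -/
noncomputable def gY (f : ℝ → ℝ) (x₀ : ℝ) (Ψ : ℝ → ℝ) (j : ℕ) : ℝ := (stG f x₀ Ψ j).1

/-- record -/
noncomputable def gρ (f : ℝ → ℝ) (x₀ : ℝ) (Ψ : ℝ → ℝ) (j : ℕ) : ℝ := (stG f x₀ Ψ j).2

/-- start of the possible window -/
noncomputable def ga (f : ℝ → ℝ) (x₀ : ℝ) (Ψ : ℝ → ℝ) (j : ℕ) : ℝ := phi f x₀ (gY f x₀ Ψ j + 1)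

theorem g_cases (j : ℕ) :
    ((1 + 1 / (1 + Real.log (gρ f x₀ Ψ j))) * gρ f x₀ Ψ j ≤ Ψ (ga f x₀ Ψ j) ∧
      gY f x₀ Ψ (j + 1) = Fp f x₀ (ga f x₀ Ψ j + Ψ (ga f x₀ Ψ j)) ∧
      gρ f x₀ Ψ (j + 1) = Ψ (ga f x₀ Ψ j)) ∨
    (Ψ (ga f x₀ Ψ j) < (1 + 1 / (1 + Real.log (gρ f x₀ Ψ j))) * gρ f x₀ Ψ j ∧
      gY f x₀ Ψ (j + 1) = gY f x₀ Ψ j + 1 ∧ gρ f x₀ Ψ (j + 1) = gρ f x₀ Ψ j) := by
  by_cases h : (1 + 1 / (1 + Real.log (stG f x₀ Ψ j).2)) * (stG f x₀ Ψ j).2 ≤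
        Ψ (phi f x₀ ((stG f x₀ Ψ j).1 + 1))
  · left
    unfold gY gρ ga gY
    rw [stG, if_pos h]
    exact ⟨h, rfl, rfl⟩
  · right
    unfold gY gρ ga gY
    rw [stG, if_neg h]
    exact ⟨not_le.1 h, rfl, rfl⟩

theorem gρ_step (j : ℕ) (h1 : 1 ≤ gρ f x₀ Ψ j) : gρ f x₀ Ψ j ≤ gρ f x₀ Ψ (j + 1) := by
  rcases g_cases (f := f) (x₀ := x₀) Ψ j with ⟨a, -, c⟩ | ⟨-, -, c⟩
  · rw [c]
    refine le_trans ?_ a
    have : 0 ≤ Real.log (gρ f x₀ Ψ j) := Real.log_nonneg h1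
    have h2 : 0 ≤ 1 / (1 + Real.log (gρ f x₀ Ψ j)) := by positivity
    nlinarith
  · rw [c]

theorem gρ_one_le (j : ℕ) : 1 ≤ gρ f x₀ Ψ j := by
  induction j with
  | zero => unfold gρ; rw [stG]
  | succ j ih => exact ih.trans (gρ_step Ψ j ih)

theorem gρ_mono : Monotone (gρ f x₀ Ψ) :=
  monotone_nat_of_le_succ fun j => gρ_step Ψ j (gρ_one_le Ψ j)

include hR

theorem gY_step_ge (j : ℕ) (h0 : 0 ≤ gY f x₀ Ψ j) : gY f x₀ Ψ j + 1 ≤ gY f x₀ Ψ (j + 1) := by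
  rcases g_cases (f := f) (x₀ := x₀) Ψ j with ⟨a, b, c⟩ | ⟨-, b, -⟩
  · rw [b]
    have h1 := gρ_one_le (f := f) (x₀ := x₀) Ψ (j + 1)
    rw [c] at h1
    have h2 := hR.F_mono (hR.phi_ge (gY f x₀ Ψ j + 1))
      (by linarith : ga f x₀ Ψ j ≤ ga f x₀ Ψ j + Ψ (ga f x₀ Ψ j))
    rwa [hR.F_phi (by linarith)] at h2
  · rw [b]

theorem gY_ge (j : ℕ) : (j : ℝ) ≤ gY f x₀ Ψ j := by
  induction j with
  | zero => unfold gY; rw [stG]; simp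
  | succ j ih =>
    have := gY_step_ge hR Ψ j ((Nat.cast_nonneg j).trans ih)
    push_cast
    linarith

theorem gY_nonneg (j : ℕ) : 0 ≤ gY f x₀ Ψ j := (Nat.cast_nonneg j).trans (gY_ge hR Ψ j)

theorem ga_ge (j : ℕ) : (j : ℝ) + 1 ≤ ga f x₀ Ψ j := by
  have h := phi_ge_succ hR (gY_ge hR Ψ j)
  have := hR.phi_mono (by linarith : gY f x₀ Ψ j ≤ gY f x₀ Ψ j + 1)
  unfold ga
  linarith

theorem ga_tendsto : Tendsto (ga f x₀ Ψ) atTop atTop :=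
  tendsto_atTop_mono (fun j => by linarith [ga_ge hR Ψ j]) tendsto_natCast_atTop_atTop

theorem ga_le (j : ℕ) : ga f x₀ Ψ j ≤ phi f x₀ (gY f x₀ Ψ j) + 4 * Real.log (ga f x₀ Ψ j) := by
  have h := hR.phi_cell (gY_nonneg hR Ψ j)
  have h2 : Real.log (phi f x₀ (gY f x₀ Ψ j)) ≤ Real.log (ga f x₀ Ψ j) :=
    Real.log_le_log (hR.phi_pos _) (hR.phi_mono (by linarith))
  unfold ga at h2 ⊢
  linarith

theorem ga_le_two (j : ℕ) : ga f x₀ Ψ j ≤ 2 * phi f x₀ (gY f x₀ Ψ j) := by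
  have h := hR.phi_cell (gY_nonneg hR Ψ j)
  have h2 := hR.hlog4 _ (hR.phi_ge (gY f x₀ Ψ j))
  unfold ga
  linarith

/-- The summability of the windows. -/
theorem g_summable (hup : ∀ ε : ℝ, 0 < ε → ∀ᶠ x in atTop, Ψ x ≤ x ^ (1 / 2 + ε)) {σ : ℝ}
    (hσ : 1 / 2 < σ) : Summable fun j => (gY f x₀ Ψ (j + 1) - gY f x₀ Ψ j - 1) *
      phi f x₀ (gY f x₀ Ψ j) ^ (-σ) := by
  set ε : ℝ := min ((σ - 1 / 2) / 2) (1 / 2) with hε
  have hε0 : 0 < ε := lt_min (by linarith) (by norm_num)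
  have hε1 : ε ≤ 1 / 2 := min_le_right _ _
  have hε2 : ε ≤ (σ - 1 / 2) / 2 := min_le_left _ _
  set δ : ℝ := ε / 2 with hδ
  have hδ0 : 0 < δ := by positivity
  set C : ℝ := (2 + δ) * (1 + 1 / δ) / δ with hC
  have hC0 : 0 < C := by positivity
  have hanti : ∀ j, gρ f x₀ Ψ (j + 1) ^ (-δ) ≤ gρ f x₀ Ψ j ^ (-δ) := fun j =>
    Real.rpow_le_rpow_of_nonpos (by linarith [gρ_one_le (f := f) (x₀ := x₀) Ψ j])
      (gρ_mono Ψ (Nat.le_succ j)) (by linarith)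
  have htel : Summable fun j => gρ f x₀ Ψ j ^ (-δ) - gρ f x₀ Ψ (j + 1) ^ (-δ) := by
    apply summable_of_sum_range_le (c := gρ f x₀ Ψ 0 ^ (-δ)) (fun j => by linarith [hanti j])
    intro n
    rw [Finset.sum_range_sub']
    have : 0 ≤ gρ f x₀ Ψ n ^ (-δ) :=
      Real.rpow_nonneg (by linarith [gρ_one_le (f := f) (x₀ := x₀) Ψ n]) _
    linarith
  have hfin := htel.mul_left (2 ^ σ * C)
  apply Summable.of_norm_bounded_eventually_nat hfin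
  have hupa := (ga_tendsto hR Ψ).eventually (hup ε hε0)
  filter_upwards [hupa] with j hj
  have hφ0 := hR.phi_pos (gY f x₀ Ψ j)
  have hw0 := gY_step_ge hR Ψ j (gY_nonneg hR Ψ j)
  have ha0 : 0 < ga f x₀ Ψ j := hR.phi_pos _
  have ha1 : 1 ≤ ga f x₀ Ψ j := hR.phi_one_le _
  rw [Real.norm_eq_abs, abs_of_nonneg (mul_nonneg (by linarith) (Real.rpow_nonneg hφ0.le _))]
  rcases g_cases (f := f) (x₀ := x₀) Ψ j with ⟨a, b, c⟩ | ⟨-, b, c⟩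
  · have hΨ1 := gρ_one_le (f := f) (x₀ := x₀) Ψ (j + 1)
    rw [c] at hΨ1
    have h1 : gY f x₀ Ψ (j + 1) - gY f x₀ Ψ j - 1 ≤ Ψ (ga f x₀ Ψ j) := by
      have h2 := hR.F_sub_le (hR.phi_ge (gY f x₀ Ψ j + 1))
        (by linarith : ga f x₀ Ψ j ≤ ga f x₀ Ψ j + Ψ (ga f x₀ Ψ j))
      have h3 : Fp f x₀ (ga f x₀ Ψ j) = gY f x₀ Ψ j + 1 :=
        hR.F_phi (by linarith [gY_nonneg hR Ψ j])
      change Fp f x₀ _ - Fp f x₀ (ga f x₀ Ψ j) ≤ _ - ga f x₀ Ψ j at h2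
      rw [h3] at h2
      rw [b]
      linarith
    have h2 : phi f x₀ (gY f x₀ Ψ j) ^ (-σ) ≤ 2 ^ σ * ga f x₀ Ψ j ^ (-σ) := by
      have h3 := ga_le_two hR Ψ j
      have h4 : ga f x₀ Ψ j / 2 ≤ phi f x₀ (gY f x₀ Ψ j) := by linarith
      calc phi f x₀ (gY f x₀ Ψ j) ^ (-σ) ≤ (ga f x₀ Ψ j / 2) ^ (-σ) :=
            Real.rpow_le_rpow_of_nonpos (by positivity) h4 (by linarith)
        _ = 2 ^ σ * ga f x₀ Ψ j ^ (-σ) := by
            rw [Real.div_rpow ha0.le (by norm_num), Real.rpow_neg (by norm_num : (0 : ℝ) ≤ 2),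
              div_inv_eq_mul, mul_comm]
    have h3 : ga f x₀ Ψ j ^ (-ε) ≤ gρ f x₀ Ψ j ^ (-ε) := by
      apply Real.rpow_le_rpow_of_nonpos (by linarith [gρ_one_le (f := f) (x₀ := x₀) Ψ j]) _
        (by linarith)
      calc gρ f x₀ Ψ j ≤ gρ f x₀ Ψ (j + 1) := gρ_mono Ψ (Nat.le_succ j)
        _ = Ψ (ga f x₀ Ψ j) := c
        _ ≤ ga f x₀ Ψ j ^ (1 / 2 + ε) := hj
        _ ≤ ga f x₀ Ψ j ^ (1 : ℝ) := Real.rpow_le_rpow_of_exponent_le ha1 (by linarith)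
        _ = ga f x₀ Ψ j := Real.rpow_one _
    have h4 := tele hδ0 (gρ_one_le (f := f) (x₀ := x₀) Ψ j) a
    have e2 : -(2 * δ) = -ε := by rw [hδ]; ring
    rw [e2, ← c] at h4
    calc _ ≤ Ψ (ga f x₀ Ψ j) * (2 ^ σ * ga f x₀ Ψ j ^ (-σ)) :=
          mul_le_mul h1 h2 (Real.rpow_nonneg hφ0.le _) (by linarith)
      _ ≤ ga f x₀ Ψ j ^ (1 / 2 + ε) * (2 ^ σ * ga f x₀ Ψ j ^ (-σ)) :=
          mul_le_mul_of_nonneg_right hj (by positivity)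
      _ = 2 ^ σ * ga f x₀ Ψ j ^ (1 / 2 + ε - σ) := by
          rw [show (1 / 2 + ε - σ) = (1 / 2 + ε) + (-σ) by ring,
            Real.rpow_add ha0 (1 / 2 + ε) (-σ)]
          ring
      _ ≤ 2 ^ σ * ga f x₀ Ψ j ^ (-ε) := by
          apply mul_le_mul_of_nonneg_left _ (by positivity)
          exact Real.rpow_le_rpow_of_exponent_le ha1 (by linarith)
      _ ≤ 2 ^ σ * gρ f x₀ Ψ j ^ (-ε) := mul_le_mul_of_nonneg_left h3 (by positivity)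
      _ ≤ 2 ^ σ * (C * (gρ f x₀ Ψ j ^ (-δ) - gρ f x₀ Ψ (j + 1) ^ (-δ))) :=
          mul_le_mul_of_nonneg_left h4 (by positivity)
      _ = _ := by ring
  · rw [b]
    have e : gY f x₀ Ψ j + 1 - gY f x₀ Ψ j - 1 = 0 := by ring
    rw [e, zero_mul]
    have := hanti j
    have : 0 ≤ gρ f x₀ Ψ j ^ (-δ) - gρ f x₀ Ψ (j + 1) ^ (-δ) := by linarith
    positivity

/-- The window data of the greedy construction. -/
noncomputable def gW (hup : ∀ ε : ℝ, 0 < ε → ∀ᶠ x in atTop, Ψ x ≤ x ^ (1 / 2 + ε)) :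
    Wdata f x₀ where
  Y := gY f x₀ Ψ
  w j := gY f x₀ Ψ (j + 1) - gY f x₀ Ψ j - 1
  r _ := 0
  t _ _ := 0
  Y0 := by unfold gY; rw [stG]
  Ys j := by ring
  w0 j := by linarith [gY_step_ge hR Ψ j (gY_nonneg hR Ψ j)]
  tl j l h := absurd h (Nat.not_lt_zero l)
  tu j l h := absurd h (Nat.not_lt_zero l)
  tm j l h := absurd h (Nat.not_lt_zero _)
  hS σ hσ := by
    simpa using g_summable hR Ψ hup hσ

end greedy

theorem Wdata.yk_simple {f : ℝ → ℝ} {x₀ : ℝ} (W : Wdata f x₀) (h : ∀ j, W.r j = 0) (V : ℕ → ℝ)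
    (k : ℕ) : W.yk V k = W.Y k + V k := by
  have hK : KK W.n k = k := by
    unfold KK
    simp [W.n_eq, h]
  have := W.yk_zero V k
  rwa [hK] at this

end Pool.Agent.H521.G
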