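import Pool.Agent.H521.G.MaxGap

open MeasureTheory Set Filter Topology
open scoped ENNReal NNReal ComplexConjugate

namespace Pool.Agent.H521.G

theorem maxgap_exists_mono {Z : Multiset ℂ} (hZ : ∀ ρ ∈ Z, ρ.re < 1) (hZc : Z.map conj = Z)
    {Ψ : ℝ → ℝ} (hmono : Monotone Ψ) (hlog : Tendsto (fun x => Ψ x / Real.log x) atTop atTop)
    (hsv : Tendsto (fun x => Ψ (x + Ψ x) / Ψ x) atTop (𝓝 1))
    (hup : ∀ ε : ℝ, 0 < ε → ∀ᶠ x in atTop, Ψ x ≤ x ^ (1 / 2 + ε)) :
    ∃ p : ℕ → ℝ, Sys Z p ∧ Tendsto (fun x => maxGapB p x / Ψ x) atTop (𝓝 1) := by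
  obtain ⟨x₀, hR⟩ := exists_RDens hZ
  set W := gW hR Ψ hup with hW
  obtain ⟨V, hV, hS⟩ := W.system hR hZ hZc rfl
  have hyk : ∀ k, W.yk V k = gY (fZ Z) x₀ Ψ k + V k := fun k => W.yk_simple (fun _ => rfl) V k
  set p : ℕ → ℝ := fun k => phi (fZ Z) x₀ (W.yk V k) with hp
  refine ⟨p, hS, ?_⟩
  have hpm := hS.mono
  have hpt := hS.tendsto
  set a : ℕ → ℝ := ga (fZ Z) x₀ Ψ with ha
  set ρ : ℕ → ℝ := gρ (fZ Z) x₀ Ψ with hρ
  set Y : ℕ → ℝ := gY (fZ Z) x₀ Ψ with hY
  have hat : Tendsto a atTop atTop := ga_tendsto hR Ψ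
  have hY0 : ∀ k, 0 ≤ Y k := gY_nonneg hR Ψ
  have hφp : ∀ k, phi (fZ Z) x₀ (Y k) ≤ p k := fun k => by
    rw [hp]; simp only; rw [hyk]; exact hR.phi_mono (by linarith [(hV k).1])
  have hpa : ∀ k, p k ≤ a k := fun k => by
    rw [hp]; simp only; rw [hyk]; exact hR.phi_mono (by linarith [(hV k).2])
  have hap : ∀ k, a k ≤ p k + 4 * Real.log (a k) := fun k => by
    have := ga_le hR Ψ k
    linarith [hφp k]
  have hap2 : ∀ k, a k ≤ 2 * p k := fun k => by
    have := ga_le_two hR Ψ k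
    linarith [hφp k]
  have hΨt : Tendsto Ψ atTop atTop := by
    have h1 : ∀ᶠ x : ℝ in atTop, Real.log x ≤ Ψ x := by
      filter_upwards [hlog.eventually_ge_atTop 1, eventually_gt_atTop 1] with x hx hx1
      have := Real.log_pos hx1
      rwa [le_div_iff₀ this, one_mul] at hx
    exact tendsto_atTop_mono' _ h1 Real.tendsto_log_atTop
  have hρ1 : ∀ k, 1 ≤ ρ k := gρ_one_le Ψ
  -- the upper bound for the next point
  have hnext : ∀ k, (ρ (k + 1) = Ψ (a k) ∧ a k + Ψ (a k) ≤ p (k + 1) ∧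
      p (k + 1) ≤ a k + Ψ (a k) + 4 * Real.log (a k + Ψ (a k))) ∨
      (ρ (k + 1) = ρ k ∧ p (k + 1) ≤ a k + 4 * Real.log (a k) ∧
        Ψ (a k) < (1 + 1 / (1 + Real.log (ρ k))) * ρ k) := by
    intro k
    have h1 := hR.phi_cell (hY0 (k + 1))
    have h2 : p (k + 1) ≤ phi (fZ Z) x₀ (Y (k + 1) + 1) := hpa (k + 1)
    rcases g_cases (f := fZ Z) (x₀ := x₀) Ψ k with ⟨c1, c2, c3⟩ | ⟨c1, c2, c3⟩
    · left
      have hΨ1 := hρ1 (k + 1)
      rw [hρ, c3] at hΨ1
      have e : phi (fZ Z) x₀ (Y (k + 1)) = a k + Ψ (a k) := by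
        have h3 : x₀ ≤ ga (fZ Z) x₀ Ψ k := hR.phi_ge (Y k + 1)
        rw [hY, c2]
        exact hR.phi_F (by linarith : x₀ ≤ ga (fZ Z) x₀ Ψ k + Ψ (ga (fZ Z) x₀ Ψ k))
      refine ⟨c3, ?_, ?_⟩
      · rw [← e]; exact hφp (k + 1)
      · rw [e] at h1
        linarith
    · right
      have e : phi (fZ Z) x₀ (Y (k + 1)) = a k := by
        rw [hY, c2]; rfl
      refine ⟨c3, ?_, c1⟩
      rw [e] at h1
      linarith
  have hG2 : ∀ k, Ψ (a k) ≤ (1 + 1 / (1 + Real.log (ρ (k + 1)))) * ρ (k + 1) := by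
    intro k
    have h1 := hρ1 (k + 1)
    have h2 : 0 ≤ Real.log (ρ (k + 1)) := Real.log_nonneg h1
    rcases hnext k with ⟨c1, -, -⟩ | ⟨c1, -, c3⟩
    · have h3 : 0 ≤ 1 / (1 + Real.log (ρ (k + 1))) := by positivity
      have h4 : 0 ≤ 1 / (1 + Real.log (ρ (k + 1))) * ρ (k + 1) := mul_nonneg h3 (by linarith)
      rw [← c1]
      linarith
    · rw [← c1] at c3
      exact c3.le
  have hρt : Tendsto (fun k => ρ (k + 1)) atTop atTop := by
    have h1 : ∀ k, Ψ (a k) / 2 ≤ ρ (k + 1) := by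
      intro k
      have h2 := hG2 k
      have h3 := hρ1 (k + 1)
      have h4 : 0 ≤ Real.log (ρ (k + 1)) := Real.log_nonneg h3
      have h5 : 1 / (1 + Real.log (ρ (k + 1))) ≤ 1 := by
        rw [div_le_one (by linarith)]; linarith
      nlinarith
    exact tendsto_atTop_mono h1 ((hΨt.comp hat).atTop_div_const (by norm_num))
  have hG1 : ∀ k x, p k ≤ x → ρ (k + 1) ≤ maxGapB p x ∨ ρ (k + 1) = 1 := by
    intro k
    induction k with
    | zero =>
      intro x hx
      rcases hnext 0 with ⟨c1, c2, -⟩ | ⟨c1, -, -⟩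
      · left
        have h1 := le_maxGapB hpt hpm hx
        rw [c1]
        linarith [hpa 0]
      · right
        rw [c1]
        change (stG (fZ Z) x₀ Ψ 0).2 = 1
        rw [stG]
    | succ k ih =>
      intro x hx
      rcases hnext (k + 1) with ⟨c1, c2, -⟩ | ⟨c1, -, -⟩
      · left
        have h1 := le_maxGapB hpt hpm hx
        rw [c1]
        linarith [hpa (k + 1)]
      · rw [c1]
        exact ih x ((hpm (Nat.lt_succ_self k)).le.trans hx)
  have hη : Tendsto (fun k => 1 / (1 + Real.log (ρ (k + 1)))) atTop (𝓝 0) := by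
    have h1 : Tendsto (fun k => 1 + Real.log (ρ (k + 1))) atTop atTop :=
      tendsto_atTop_add_const_left _ _ (Real.tendsto_log_atTop.comp hρt)
    have h2 := h1.inv_tendsto_atTop
    refine h2.congr fun k => ?_
    simp
  -- asymptotic facts
  have hL : ∀ e : ℝ, 0 < e → ∀ᶠ x in atTop, 4 * Real.log x ≤ e * Ψ x := by
    intro e he
    filter_upwards [hlog.eventually_ge_atTop (4 / e), eventually_gt_atTop 1] with x hx hx1
    have h1 := Real.log_pos hx1
    rw [le_div_iff₀ h1, div_mul_eq_mul_div, div_le_iff₀ he] at hx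
    linarith
  have hSV : ∀ e : ℝ, 0 < e → ∀ᶠ x in atTop, Ψ (x + Ψ x) ≤ (1 + e) * Ψ x := by
    intro e he
    have h1 := hsv.eventually_le_const (by linarith : (1 : ℝ) < 1 + e)
    filter_upwards [h1, hΨt.eventually_gt_atTop 0] with x hx hx0
    rwa [div_le_iff₀ hx0] at hx
  have hbt : Tendsto (fun k => a k + Ψ (a k)) atTop atTop := by
    apply tendsto_atTop_mono' _ _ hat
    filter_upwards [(hΨt.comp hat).eventually_ge_atTop 0] with k hk
    simp only [Function.comp] at hk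
    linarith
  have hpt' : Tendsto p atTop atTop := hpt
  have hΨpos : ∀ᶠ x in atTop, 0 < Ψ x := hΨt.eventually_gt_atTop 0
  -- lower bound
  have hlow : ∀ e : ℝ, 0 < e → ∀ᶠ x in atTop, Ψ x ≤ (1 + e) ^ 3 * maxGapB p x := by
    intro e he
    apply eventually_blocks hpm hpt
    filter_upwards [hat.eventually (hL 1 one_pos), hbt.eventually (hL 1 one_pos),
      hat.eventually (hSV e he), hbt.eventually (hSV e he), hη.eventually_le_const he,
      hρt.eventually_gt_atTop 1, hat.eventually hΨpos, hbt.eventually hΨpos]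
      with k h1 h2 h3 h4 h5 h6 h7 h8 x hx1 hx2
    have h9 : p (k + 1) ≤ a k + Ψ (a k) + Ψ (a k + Ψ (a k)) := by
      rcases hnext k with ⟨-, -, c3⟩ | ⟨-, c2, -⟩
      · linarith
      · linarith
    have h10 : Ψ x ≤ Ψ (a k + Ψ (a k) + Ψ (a k + Ψ (a k))) := hmono (by linarith)
    have h11 : ρ (k + 1) ≤ maxGapB p x := by
      rcases hG1 k x hx1 with h | h
      · exact h
      · linarith
    have h12 := hG2 k
    have hρ0 : 0 < ρ (k + 1) := by linarith
    have h13 : Ψ (a k) ≤ (1 + e) * ρ (k + 1) := by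
      refine h12.trans ?_
      apply mul_le_mul_of_nonneg_right _ hρ0.le
      linarith
    calc Ψ x ≤ (1 + e) * Ψ (a k + Ψ (a k)) := h10.trans h4
      _ ≤ (1 + e) * ((1 + e) * Ψ (a k)) := mul_le_mul_of_nonneg_left h3 (by linarith)
      _ ≤ (1 + e) * ((1 + e) * ((1 + e) * ρ (k + 1))) := by gcongr
      _ ≤ (1 + e) * ((1 + e) * ((1 + e) * maxGapB p x)) := by gcongr
      _ = _ := by ring
  -- upper bound
  have hupp : ∀ e : ℝ, 0 < e → ∀ᶠ x in atTop, maxGapB p x ≤ (1 + e) ^ 3 * Ψ x := by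
    intro e he
    apply maxGapB_le (X := 0) (Φ := fun x => (1 + e) ^ 3 * Ψ x)
      (fun x _ y _ hxy => mul_le_mul_of_nonneg_left (hmono hxy) (by positivity)) hpt
      (hΨt.const_mul_atTop (by positivity))
    have hL2 : ∀ᶠ x in atTop, 8 * Real.log x ≤ Ψ x := by
      filter_upwards [hL (1 / 2) (by norm_num)] with x hx
      linarith
    filter_upwards [hat.eventually (hL (e / 2) (by positivity)),
      hbt.eventually (hL (e / 2) (by positivity)),
      hat.eventually (hSV e he), hpt'.eventually (hSV e he), hpt'.eventually hL2,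
      hat.eventually hΨpos, hbt.eventually hΨpos, hpt'.eventually hΨpos]
      with k h1 h2 h3 h4 h5 h6 h7 h8
    have hp3 : 3 ≤ p k := hS.three_le k
    have h9 : Ψ (a k) ≤ (1 + e) * Ψ (p k) := by
      refine le_trans (hmono ?_) h4
      have h10 : Real.log (a k) ≤ 2 * Real.log (p k) := by
        have h11 : Real.log (a k) ≤ Real.log (p k ^ 2) := by
          apply Real.log_le_log (by linarith [hpa k])
          nlinarith [hap2 k]
        rwa [Real.log_pow, Nat.cast_ofNat] at h11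
      have := hap k
      linarith
    have h12 : p (k + 1) - p k ≤ (1 + e) ^ 2 * Ψ (a k) := by
      have h13 := hap k
      have h15 : 0 ≤ e * Ψ (a k) := by positivity
      have h16 : 0 ≤ e ^ 2 * Ψ (a k) := by positivity
      rcases hnext k with ⟨-, -, c3⟩ | ⟨-, c2, -⟩
      · have h14 : e / 2 * Ψ (a k + Ψ (a k)) ≤ e / 2 * ((1 + e) * Ψ (a k)) :=
          mul_le_mul_of_nonneg_left h3 (by positivity)
        have : p (k + 1) - p k ≤ Ψ (a k) + e / 2 * ((1 + e) * Ψ (a k)) + e / 2 * Ψ (a k) := by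
          linarith
        nlinarith
      · have : p (k + 1) - p k ≤ e * Ψ (a k) := by linarith
        nlinarith
    calc p (k + 1) - p k ≤ (1 + e) ^ 2 * Ψ (a k) := h12
      _ ≤ (1 + e) ^ 2 * ((1 + e) * Ψ (p k)) := mul_le_mul_of_nonneg_left h9 (by positivity)
      _ = _ := by ring
  have hcube : ∀ e : ℝ, 0 < e → e ≤ 1 / 4 → (1 + e) ^ 3 ≤ 1 + 4 * e := by
    intro e he he4
    nlinarith [mul_pos he he]
  rw [tendsto_order]
  constructor
  · intro u hu
    set u' := max u 0 with hu'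
    have hu'1 : u' < 1 := max_lt hu one_pos
    have hu'0 : 0 ≤ u' := le_max_right _ _
    set e : ℝ := min (1 / 4) ((1 - u') / 8) with he
    have he0 : 0 < e := lt_min (by norm_num) (by linarith)
    have he1 : e ≤ 1 / 4 := min_le_left _ _
    have he2 : e ≤ (1 - u') / 8 := min_le_right _ _
    filter_upwards [hlow e he0, hΨpos] with x hx hx0
    rw [lt_div_iff₀ hx0]
    have h1 := hcube e he0 he1
    have hmg : 0 < maxGapB p x := by
      by_contra hc
      push Not at hc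
      have : (1 + e) ^ 3 * maxGapB p x ≤ 0 := mul_nonpos_of_nonneg_of_nonpos (by positivity) hc
      linarith
    calc u * Ψ x ≤ u' * Ψ x := mul_le_mul_of_nonneg_right (le_max_left _ _) hx0.le
      _ ≤ u' * ((1 + e) ^ 3 * maxGapB p x) := mul_le_mul_of_nonneg_left hx hu'0
      _ ≤ u' * ((1 + 4 * e) * maxGapB p x) := by gcongr
      _ = (u' * (1 + 4 * e)) * maxGapB p x := by ring
      _ < 1 * maxGapB p x := by
          apply mul_lt_mul_of_pos_right _ hmg
          nlinarith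
      _ = _ := one_mul _
  · intro u hu
    set e : ℝ := min (1 / 4) ((u - 1) / 8) with he
    have he0 : 0 < e := lt_min (by norm_num) (by linarith)
    have he1 : e ≤ 1 / 4 := min_le_left _ _
    have he2 : e ≤ (u - 1) / 8 := min_le_right _ _
    filter_upwards [hupp e he0, hΨpos] with x hx hx0
    rw [div_lt_iff₀ hx0]
    have h1 := hcube e he0 he1
    calc maxGapB p x ≤ (1 + e) ^ 3 * Ψ x := hx
      _ ≤ (1 + 4 * e) * Ψ x := mul_le_mul_of_nonneg_right h1 hx0.le
      _ < u * Ψ x := by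
          apply mul_lt_mul_of_pos_right _ hx0
          linarith

/-- **The maximal gap functions.** -/
theorem maxgap_exists {Z : Multiset ℂ} (hZ : ∀ ρ ∈ Z, ρ.re < 1) (hZc : Z.map conj = Z)
    {Ψ : ℝ → ℝ} {X : ℝ} (hmono : MonotoneOn Ψ (Ici X))
    (hlog : Tendsto (fun x => Ψ x / Real.log x) atTop atTop)
    (hsv : Tendsto (fun x => Ψ (x + Ψ x) / Ψ x) atTop (𝓝 1))
    (hup : ∀ ε : ℝ, 0 < ε → ∀ᶠ x in atTop, Ψ x ≤ x ^ (1 / 2 + ε)) :
    ∃ p : ℕ → ℝ, Sys Z p ∧ Tendsto (fun x => maxGapB p x / Ψ x) atTop (𝓝 1) := by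
  set Ψ' : ℝ → ℝ := fun x => Ψ (max x X) with hΨ'
  have heq : ∀ x, X ≤ x → Ψ' x = Ψ x := fun x hx => by rw [hΨ']; simp only; rw [max_eq_left hx]
  have hpos : ∀ᶠ x in atTop, 0 ≤ Ψ x := by
    filter_upwards [hlog.eventually_ge_atTop 0, eventually_gt_atTop 1] with x hx hx1
    have := Real.log_pos hx1
    rwa [le_div_iff₀ this, zero_mul] at hx
  obtain ⟨p, hS, hp⟩ := maxgap_exists_mono hZ hZc (Ψ := Ψ')
    (fun x y hxy => hmono (mem_Ici.2 (le_max_right x X)) (mem_Ici.2 (le_max_right y X))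
      (max_le_max_right _ hxy))
    (hlog.congr' (by
      filter_upwards [eventually_ge_atTop X] with x hx
      rw [heq x hx]))
    (hsv.congr' (by
      filter_upwards [eventually_ge_atTop X, hpos] with x hx hx2
      rw [heq x hx, heq (x + Ψ x) (by linarith)]))
    (fun ε hε => by
      filter_upwards [hup ε hε, eventually_ge_atTop X] with x hx hx2
      rwa [heq x hx2])
  refine ⟨p, hS, hp.congr' ?_⟩
  filter_upwards [eventually_ge_atTop X] with x hx
  rw [heq x hx]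

/-- The necessity. -/
theorem maxgap_nec {Z : Multiset ℂ} (hZ : ∀ ρ ∈ Z, ρ.re < 1) {p : ℕ → ℝ} (hp : StrictMono p)
    (hpt : Tendsto p atTop atTop)
    (hpnt : ∀ ε : ℝ, 0 < ε → ∃ C : ℝ, ∀ x : ℝ, 2 ≤ x →
        |(countPr p x : ℝ) - mainTerm Z x| ≤ C * x ^ (1 / 2 + ε))
    {Ψ : ℝ → ℝ} (hpos : ∀ᶠ x in atTop, 0 < Ψ x)
    (h : Tendsto (fun x => maxGapB p x / Ψ x) atTop (𝓝 1)) (ε : ℝ) (hε : 0 < ε) :
    ∀ᶠ x in atTop, Ψ x ≤ x ^ (1 / 2 + ε) := by
  have h1 : ∀ᶠ x in atTop, maxGapB p x ≤ x ^ (1 / 2 + ε / 2) := by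
    apply maxGapB_le (X := 0) (Φ := fun x : ℝ => x ^ (1 / 2 + ε / 2))
      (fun x hx y _ hxy => Real.rpow_le_rpow hx hxy (by positivity)) hpt
      (tendsto_rpow_atTop (by positivity))
    exact gap_bound hZ hp hpt hpnt (ε := ε / 2) (by positivity)
  have h2 : ∀ᶠ x : ℝ in atTop, 2 ≤ x ^ (ε / 2) :=
    (tendsto_rpow_atTop (by positivity)).eventually_ge_atTop 2
  filter_upwards [h1, h2, hpos, h.eventually_const_le (by norm_num : (1 / 2 : ℝ) < 1),
    eventually_gt_atTop 0] with x hx1 hx2 hx3 hx4 hx5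
  rw [le_div_iff₀ hx3] at hx4
  calc Ψ x ≤ 2 * maxGapB p x := by linarith
    _ ≤ 2 * x ^ (1 / 2 + ε / 2) := by linarith
    _ ≤ x ^ (ε / 2) * x ^ (1 / 2 + ε / 2) :=
      mul_le_mul_of_nonneg_right hx2 (Real.rpow_nonneg hx5.le _)
    _ = x ^ (1 / 2 + ε) := by rw [← Real.rpow_add hx5]; congr 1; ring

end Pool.Agent.H521.G
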