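import Mathlib

open MeasureTheory Set Filter Topology
open scoped Classical

namespace Pool.Agent.H521.G

theorem MO_ineq {p : ℕ → ℝ} (hp : StrictMono p) (hp1 : 1 < p 0)
    {K : ℝ} (hK : 0 < K) {j N : ℕ} (hjN : j ≤ N) {l : ℝ} (hl0 : 0 ≤ l) (hl : l ≤ Real.log (p j)) :
    l * ((∑ n ∈ Finset.range N,
      min ((p (n + 1) - p n) / Real.log (p n)) K) - K * j) ≤ p N - p 0 := by
  have hpk : ∀ k, 1 < p k := fun k => lt_of_lt_of_le hp1 (hp.monotone (Nat.zero_le k))
  have hLpos : ∀ k, 0 < Real.log (p k) := fun k => Real.log_pos (hpk k)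
  have hD : ∀ k, p k < p (k + 1) := fun k => hp (Nat.lt_succ_self k)
  have hm0 : ∀ k, 0 ≤ min ((p (k + 1) - p k) / Real.log (p k)) K := fun k =>
    le_min (div_nonneg (sub_nonneg.2 (hD k).le) (hLpos k).le) hK.le
  have htel : ∑ k ∈ Finset.Ico j N, (p (k + 1) - p k) = p N - p j := by
    rw [Finset.sum_Ico_sub p hjN]
  have hM : ∑ k ∈ Finset.Ico j N, min ((p (k + 1) - p k) / Real.log (p k)) K =
      (∑ k ∈ Finset.range N, min ((p (k + 1) - p k) / Real.log (p k)) K) -
      ∑ k ∈ Finset.range j, min ((p (k + 1) - p k) / Real.log (p k)) K :=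
    Finset.sum_Ico_eq_sub _ hjN
  have h1 : ∑ k ∈ Finset.Ico j N, Real.log (p k) * min ((p (k + 1) - p k) / Real.log (p k)) K ≤
      ∑ k ∈ Finset.Ico j N, (p (k + 1) - p k) := by
    apply Finset.sum_le_sum
    intro k _
    have h3 : Real.log (p k) * min ((p (k + 1) - p k) / Real.log (p k)) K ≤
        Real.log (p k) * ((p (k + 1) - p k) / Real.log (p k)) :=
      mul_le_mul_of_nonneg_left (min_le_left _ _) (hLpos k).le
    rw [mul_div_cancel₀ _ (hLpos k).ne'] at h3
    exact h3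
  rw [htel] at h1
  have h3 : l * ∑ k ∈ Finset.Ico j N, min ((p (k + 1) - p k) / Real.log (p k)) K ≤
      ∑ k ∈ Finset.Ico j N, Real.log (p k) * min ((p (k + 1) - p k) / Real.log (p k)) K := by
    rw [Finset.mul_sum]
    apply Finset.sum_le_sum
    intro k hk
    apply mul_le_mul_of_nonneg_right _ (hm0 k)
    refine hl.trans ?_
    apply Real.log_le_log (lt_trans one_pos (hpk j))
    exact hp.monotone (Finset.mem_Ico.1 hk).1
  have h4 : ∑ k ∈ Finset.range j, min ((p (k + 1) - p k) / Real.log (p k)) K ≤ K * j := by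
    calc ∑ k ∈ Finset.range j, min ((p (k + 1) - p k) / Real.log (p k)) K ≤
        ∑ _k ∈ Finset.range j, K := Finset.sum_le_sum (fun k _ => min_le_right _ _)
      _ = K * j := by rw [Finset.sum_const, Finset.card_range, nsmul_eq_mul, mul_comm]
  rw [hM] at h3
  have h5 : l * ((∑ n ∈ Finset.range N,
      min ((p (n + 1) - p n) / Real.log (p n)) K) - K * j) ≤
      l * ((∑ k ∈ Finset.range N, min ((p (k + 1) - p k) / Real.log (p k)) K) -
      ∑ k ∈ Finset.range j, min ((p (k + 1) - p k) / Real.log (p k)) K) :=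
    mul_le_mul_of_nonneg_left (by linarith) hl0
  have h6 : p 0 ≤ p j := hp.monotone (Nat.zero_le j)
  linarith

theorem MO_key {p : ℕ → ℝ} (hp : StrictMono p) (hp1 : 1 < p 0)
    (hpt : Tendsto p atTop atTop)
    (hpnt : Tendsto (fun n : ℕ => p n / (n * Real.log n)) atTop (𝓝 1))
    {K μ : ℝ} (hK : 0 < K)
    (hμ : Tendsto (fun N : ℕ => (∑ n ∈ Finset.range N,
      min ((p (n + 1) - p n) / Real.log (p n)) K) / N) atTop (𝓝 μ))
    {ε : ℝ} (hε : 0 < ε) (hε1 : ε < 1) : μ - K * ε ≤ 1 := by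
  have hpk : ∀ k, 1 < p k := fun k => lt_of_lt_of_le hp1 (hp.monotone (Nat.zero_le k))
  have hlogN : Tendsto (fun N : ℕ => Real.log N) atTop atTop :=
    Real.tendsto_log_atTop.comp tendsto_natCast_atTop_atTop
  have hpj : ∀ᶠ j : ℕ in atTop, (j : ℝ) ≤ p j := by
    have h1 : ∀ᶠ j : ℕ in atTop, (1 / 2 : ℝ) < p j / (j * Real.log j) :=
      hpnt.eventually_const_lt (by norm_num)
    filter_upwards [h1, hlogN.eventually_ge_atTop 2, eventually_ge_atTop 1] with j h1 h2 h3
    have hj : (1 : ℝ) ≤ j := by exact_mod_cast h3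
    rw [lt_div_iff₀ (by positivity)] at h1
    nlinarith
  have hfl : Tendsto (fun N : ℕ => ⌊ε * (N : ℝ)⌋₊) atTop atTop := by
    apply tendsto_nat_floor_atTop.comp
    exact Tendsto.const_mul_atTop hε tendsto_natCast_atTop_atTop
  have hev : ∀ᶠ N : ℕ in atTop,
      (1 + Real.log (ε / 2) / Real.log N) * ((∑ n ∈ Finset.range N,
        min ((p (n + 1) - p n) / Real.log (p n)) K) / N - K * ε) *
        (p N / (N * Real.log N))⁻¹ ≤ 1 - p 0 / p N := by
    filter_upwards [hfl.eventually hpj,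
      hlogN.eventually_ge_atTop (1 - Real.log (ε / 2)), hlogN.eventually_ge_atTop 1,
      (Tendsto.const_mul_atTop hε (tendsto_natCast_atTop_atTop (R := ℝ))).eventually_ge_atTop 2,
      eventually_ge_atTop 1] with N h1 h3 h4 h5 h6
    have hN : (1 : ℝ) ≤ N := by exact_mod_cast h6
    have hN0 : (0 : ℝ) < N := by linarith
    have hpN : 0 < p N := lt_trans one_pos (hpk N)
    have hlN : 0 < Real.log N := by linarith
    have hjle : ((⌊ε * (N : ℝ)⌋₊ : ℕ) : ℝ) ≤ ε * N := Nat.floor_le (by positivity)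
    have hjge : ε / 2 * N ≤ ((⌊ε * (N : ℝ)⌋₊ : ℕ) : ℝ) := by
      have := Nat.sub_one_lt_floor (ε * (N : ℝ))
      linarith
    have hjN : ⌊ε * (N : ℝ)⌋₊ ≤ N := by
      have : ((⌊ε * (N : ℝ)⌋₊ : ℕ) : ℝ) ≤ N := by nlinarith
      exact_mod_cast this
    have hlog : Real.log (ε / 2 * N) = Real.log (ε / 2) + Real.log N :=
      Real.log_mul (by positivity) hN0.ne'
    have hl : Real.log (ε / 2) + Real.log N ≤ Real.log (p ⌊ε * (N : ℝ)⌋₊) := by
      rw [← hlog]
      apply Real.log_le_log (by positivity)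
      linarith
    have hl0 : 0 ≤ Real.log (ε / 2) + Real.log N := by linarith
    have h7 := MO_ineq hp hp1 hK hjN hl0 hl
    have h8 : (Real.log (ε / 2) + Real.log N) * ((∑ n ∈ Finset.range N,
        min ((p (n + 1) - p n) / Real.log (p n)) K) - K * (ε * N)) ≤
        (Real.log (ε / 2) + Real.log N) * ((∑ n ∈ Finset.range N,
        min ((p (n + 1) - p n) / Real.log (p n)) K) - K * ((⌊ε * (N : ℝ)⌋₊ : ℕ) : ℝ)) := by
      apply mul_le_mul_of_nonneg_left _ hl0
      nlinarith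
    generalize (∑ n ∈ Finset.range N,
        min ((p (n + 1) - p n) / Real.log (p n)) K) = Z at *
    have e1 : (1 + Real.log (ε / 2) / Real.log N) *
        (Z / N - K * ε) * (p N / (N * Real.log N))⁻¹ =
        ((Real.log (ε / 2) + Real.log N) * (Z - K * (ε * N))) / p N := by
      field_simp
      ring
    have e2 : 1 - p 0 / p N = (p N - p 0) / p N := by
      rw [sub_div, div_self hpN.ne']
    rw [e1, e2]
    apply div_le_div_of_nonneg_right _ hpN.le
    linarith
  have hc2 : Tendsto (fun N : ℕ => p 0 / p N) atTop (𝓝 0) := hpt.const_div_atTop _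
  have hc3 : Tendsto (fun N : ℕ => Real.log (ε / 2) / Real.log (N : ℝ)) atTop (𝓝 0) :=
    hlogN.const_div_atTop _
  have hc4 := hpnt.inv₀ one_ne_zero
  have hlim := ((((tendsto_const_nhds (x := (1 : ℝ))).add hc3).mul
      (hμ.sub (tendsto_const_nhds (x := K * ε)))).mul hc4)
  have hlim2 : Tendsto (fun N : ℕ => 1 - p 0 / p N) atTop (𝓝 (1 - 0)) :=
    tendsto_const_nhds.sub hc2
  have := le_of_tendsto_of_tendsto hlim hlim2 hev
  simpa using this

/-- The truncated means of the normalised gaps are at most one. -/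
theorem mean_le_one {p : ℕ → ℝ} (hp : StrictMono p) (hp1 : 1 < p 0)
    (hpt : Tendsto p atTop atTop)
    (hpnt : Tendsto (fun n : ℕ => p n / (n * Real.log n)) atTop (𝓝 1))
    {K μ : ℝ} (hK : 0 < K)
    (hμ : Tendsto (fun N : ℕ => (∑ n ∈ Finset.range N,
      min ((p (n + 1) - p n) / Real.log (p n)) K) / N) atTop (𝓝 μ)) : μ ≤ 1 := by
  have h2 : Tendsto (fun s : ℝ => μ - K * s) (𝓝[>] 0) (𝓝 (μ - K * 0)) := by
    have : Continuous (fun s : ℝ => μ - K * s) := by fun_prop
    exact (this.tendsto 0).mono_left nhdsWithin_le_nhds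
  have h3 : ∀ᶠ s : ℝ in 𝓝[>] 0, μ - K * s ≤ 1 := by
    filter_upwards [Ioo_mem_nhdsGT (show (0 : ℝ) < 1 by norm_num)] with s hs
    exact MO_key hp hp1 hpt hpnt hK hμ hs.1 hs.2
  have h4 := le_of_tendsto h2 h3
  linarith

end Pool.Agent.H521.G
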