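import Pool.Agent.H521.G.Defs6

open MeasureTheory Set Filter Topology
open scoped ENNReal

namespace Pool.Agent.H521.G



/-- the numbers `n` with `p n ≤ y` are finitely many -/
theorem necA_fin {p : ℕ → ℝ} (hp : StrictMono p) (hpt : Tendsto p atTop atTop) (y : ℝ) :
    ∃ M : ℕ, (∀ n, p n ≤ y ↔ n < M) := by
  classical
  have hex : ∃ n, y < p n := (hpt.eventually_gt_atTop y).exists
  refine ⟨Nat.find hex, fun n => ⟨fun h => ?_, fun h => ?_⟩⟩
  · by_contra hc
    push Not at hc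
    have h1 := Nat.find_spec hex
    have h2 := hp.monotone hc
    linarith
  · have := Nat.find_min hex h
    push Not at this
    exact this

theorem necA_finite {p : ℕ → ℝ} (hp : StrictMono p) (hpt : Tendsto p atTop atTop) (y : ℝ)
    (S : Set ℕ) (hS : ∀ n ∈ S, p n ≤ y) : S.Finite := by
  obtain ⟨M, hM⟩ := necA_fin hp hpt y
  exact (Set.finite_lt_nat M).subset fun n hn => (hM n).1 (hS n hn)

/-- few large gaps -/
theorem necA_few {p : ℕ → ℝ} (hp : StrictMono p) (hp1 : 1 < p 0) (hpt : Tendsto p atTop atTop)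
    (hr : Tendsto (fun n : ℕ => p (n + 1) / p n) atTop (𝓝 1)) :
    ∃ Y : ℝ, ∀ y : ℝ, Y ≤ y → ∀ g : ℝ, 0 ≤ g →
      (Set.ncard {n : ℕ | p n ≤ y ∧ g ≤ p (n + 1) - p n} : ℝ) * g ≤ 2 * y := by
  classical
  have hev : ∀ᶠ n in atTop, p (n + 1) / p n < 2 := hr.eventually_lt_const (by norm_num)
  obtain ⟨n0, hn0⟩ := eventually_atTop.1 hev
  refine ⟨p n0, fun y hy g hg => ?_⟩
  obtain ⟨M, hM⟩ := necA_fin hp hpt y
  have hn0M : n0 < M := (hM n0).1 hy
  have hset : {n : ℕ | p n ≤ y ∧ g ≤ p (n + 1) - p n} =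
      ((Finset.range M).filter fun n => g ≤ p (n + 1) - p n : Finset ℕ) := by
    ext n
    simp only [Set.mem_ofPred_eq, Finset.coe_filter, Finset.mem_range, hM n]
  rw [hset, Set.ncard_coe_finset]
  have h1 : (((Finset.range M).filter fun n => g ≤ p (n + 1) - p n).card : ℝ) * g ≤
      ∑ n ∈ (Finset.range M).filter (fun n => g ≤ p (n + 1) - p n), (p (n + 1) - p n) := by
    rw [← nsmul_eq_mul]
    exact Finset.card_nsmul_le_sum _ _ _ fun n hn => (Finset.mem_filter.1 hn).2
  have h2 : ∑ n ∈ (Finset.range M).filter (fun n => g ≤ p (n + 1) - p n), (p (n + 1) - p n) ≤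
      ∑ n ∈ Finset.range M, (p (n + 1) - p n) := by
    apply Finset.sum_le_sum_of_subset_of_nonneg (Finset.filter_subset _ _)
    intro n _ _
    have := hp (Nat.lt_succ_self n)
    simp only [Nat.succ_eq_add_one] at this
    linarith
  rw [Finset.sum_range_sub] at h2
  obtain ⟨m, rfl⟩ : ∃ m, M = m + 1 := ⟨M - 1, by omega⟩
  have hm : p m ≤ y := (hM m).2 (Nat.lt_succ_self m)
  have hpm : 0 < p m := by
    have := hp.monotone (Nat.zero_le m)
    linarith
  have h3 := hn0 m (by omega)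
  rw [div_lt_iff₀ hpm] at h3
  linarith

/-- Few gaps can be large: the gaps up to `x` have sum at most `2 x`. -/
theorem hasExp_ge {p : ℕ → ℝ} (hp : StrictMono p) (hp1 : 1 < p 0) (hpt : Tendsto p atTop atTop)
    (hr : Tendsto (fun n : ℕ => p (n + 1) / p n) atTop (𝓝 1)) {a : ℝ} (ha : 1 < a) {E : ℝ≥0∞}
    (h : HasExp p a E) : ENNReal.ofReal a ≤ E := by
  by_contra hcon
  push Not at hcon
  obtain ⟨b, hb0, hEb, hba⟩ := ENNReal.lt_iff_exists_real_btwn.1 hcon
  have hba' : b < a := (ENNReal.ofReal_lt_ofReal_iff (by linarith)).1 hba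
  have hlow := h.2 b hEb
  obtain ⟨Y, hY⟩ := necA_few hp hp1 hpt hr
  set g : ℝ := Real.log (p 0) ^ a with hg
  have hlog0 : 0 < Real.log (p 0) := Real.log_pos hp1
  have hg0 : 0 < g := Real.rpow_pos_of_pos hlog0 a
  -- the upper bound
  have hup : ∀ᶠ x : ℝ in atTop, (cntA p a x : ℝ) ≤
      2 * x / (Real.log x / 2) ^ a + 2 * Real.sqrt x / g := by
    have hsq : Tendsto Real.sqrt atTop atTop := Real.tendsto_sqrt_atTop
    filter_upwards [eventually_ge_atTop Y, hsq.eventually_ge_atTop Y, eventually_gt_atTop 1]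
      with x hxY hxs hx1
    have hlx : 0 < Real.log x := Real.log_pos hx1
    have hG : 0 < (Real.log x / 2) ^ a := Real.rpow_pos_of_pos (by positivity) a
    have hsub : {n : ℕ | p n ≤ x ∧ Real.log (p n) ^ a ≤ p (n + 1) - p n} ⊆
        {n : ℕ | p n ≤ x ∧ (Real.log x / 2) ^ a ≤ p (n + 1) - p n} ∪
        {n : ℕ | p n ≤ Real.sqrt x ∧ g ≤ p (n + 1) - p n} := by
      rintro n ⟨h1, h2⟩
      have hpn : 1 < p n := by
        have := hp.monotone (Nat.zero_le n)
        linarith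
      by_cases hc : p n ≤ Real.sqrt x
      · right
        refine ⟨hc, le_trans ?_ h2⟩
        have h3 : Real.log (p 0) ≤ Real.log (p n) :=
          Real.log_le_log (by linarith) (hp.monotone (Nat.zero_le n))
        exact Real.rpow_le_rpow hlog0.le h3 (by linarith)
      · left
        push Not at hc
        refine ⟨h1, le_trans ?_ h2⟩
        have h3 : Real.log x / 2 ≤ Real.log (p n) := by
          rw [← Real.log_sqrt (by linarith)]
          exact Real.log_le_log (Real.sqrt_pos.2 (by linarith)) hc.le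
        exact Real.rpow_le_rpow (by positivity) h3 (by linarith)
    have hfin : ({n : ℕ | p n ≤ x ∧ (Real.log x / 2) ^ a ≤ p (n + 1) - p n} ∪
        {n : ℕ | p n ≤ Real.sqrt x ∧ g ≤ p (n + 1) - p n}).Finite :=
      (necA_finite hp hpt x _ fun n hn => hn.1).union
        (necA_finite hp hpt (Real.sqrt x) _ fun n hn => hn.1)
    have h1 : cntA p a x ≤ Set.ncard {n : ℕ | p n ≤ x ∧ (Real.log x / 2) ^ a ≤ p (n + 1) - p n} +
        Set.ncard {n : ℕ | p n ≤ Real.sqrt x ∧ g ≤ p (n + 1) - p n} :=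
      (Set.ncard_le_ncard hsub hfin).trans (Set.ncard_union_le _ _)
    have h1' : (cntA p a x : ℝ) ≤
        (Set.ncard {n : ℕ | p n ≤ x ∧ (Real.log x / 2) ^ a ≤ p (n + 1) - p n} : ℝ) +
        (Set.ncard {n : ℕ | p n ≤ Real.sqrt x ∧ g ≤ p (n + 1) - p n} : ℝ) := by
      exact_mod_cast h1
    have h2 := hY x hxY _ hG.le
    have h3 := hY (Real.sqrt x) hxs g hg0.le
    rw [← le_div_iff₀ hG] at h2
    rw [← le_div_iff₀ hg0] at h3
    linarith
  -- the limit
  have hlim : Tendsto (fun x : ℝ => 2 * 2 ^ a * Real.log x ^ (-(a - b)) +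
      2 / g * (Real.log x ^ b / x ^ (1 / 2 : ℝ))) atTop (𝓝 0) := by
    have t1 : Tendsto (fun x : ℝ => Real.log x ^ (-(a - b))) atTop (𝓝 0) :=
      (tendsto_rpow_neg_atTop (by linarith)).comp Real.tendsto_log_atTop
    have t2 : Tendsto (fun x : ℝ => Real.log x ^ b / x ^ (1 / 2 : ℝ)) atTop (𝓝 0) :=
      (isLittleO_log_rpow_rpow_atTop b (by norm_num : (0 : ℝ) < 1 / 2)).tendsto_div_nhds_zero
    have t3 := (t1.const_mul (2 * 2 ^ a)).add (t2.const_mul (2 / g))
    simpa using t3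
  have hsmall := hlim.eventually_lt_const (show (0 : ℝ) < 1 by norm_num)
  obtain ⟨x, hx1, hx2, hx3, hx4⟩ :=
    (hlow.and (hup.and (hsmall.and (eventually_gt_atTop 1)))).exists
  have hlx : 0 < Real.log x := Real.log_pos hx4
  have hx0 : 0 < x := by linarith
  have hLb : 0 < Real.log x ^ b := Real.rpow_pos_of_pos hlx b
  have hkey : x / Real.log x ^ b ≤ 2 * x / (Real.log x / 2) ^ a + 2 * Real.sqrt x / g :=
    hx1.trans hx2
  have e1 : 2 * x / (Real.log x / 2) ^ a + 2 * Real.sqrt x / g =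
      (x / Real.log x ^ b) * (2 * 2 ^ a * Real.log x ^ (-(a - b)) +
      2 / g * (Real.log x ^ b / x ^ (1 / 2 : ℝ))) := by
    rw [Real.div_rpow hlx.le (by norm_num), neg_sub, Real.rpow_sub hlx, ← Real.sqrt_eq_rpow]
    have hLa : 0 < Real.log x ^ a := Real.rpow_pos_of_pos hlx a
    have h2a : (0 : ℝ) < 2 ^ a := Real.rpow_pos_of_pos (by norm_num) a
    have hs : 0 < Real.sqrt x := Real.sqrt_pos.2 hx0
    have hss : Real.sqrt x * Real.sqrt x = x := Real.mul_self_sqrt hx0.le
    field_simp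
    linear_combination Real.log x ^ a * hss
  rw [e1] at hkey
  have hpos : 0 < x / Real.log x ^ b := by positivity
  have := mul_lt_mul_of_pos_left hx3 hpos
  linarith

end Pool.Agent.H521.G
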