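import Pool.Agent.H521.G.Defs6

open MeasureTheory Set Filter Topology
open scoped ENNReal

namespace Pool.Agent.H521.G



theorem NecB_finite {p : ℕ → ℝ} (hpt : Tendsto p atTop atTop) (x : ℝ) :
    {n : ℕ | p n ≤ x}.Finite := by
  obtain ⟨N, hN⟩ := eventually_atTop.1 (hpt.eventually_gt_atTop x)
  refine (Set.finite_Iio N).subset fun n hn => ?_
  by_contra hc
  have h1 : N ≤ n := not_lt.1 hc
  exact absurd hn (not_le.2 (hN n h1))

theorem NecB_cnt {p : ℕ → ℝ} (hpt : Tendsto p atTop atTop) {a a' : ℝ} (haa : a ≤ a') (x : ℝ) :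
    cntA p a' x ≤ cntA p a x + {n : ℕ | p n ≤ Real.exp 1}.ncard := by
  unfold cntA
  refine le_trans (Set.ncard_le_ncard ?_ ?_) (Set.ncard_union_le _ _)
  · rintro n ⟨h1, h2⟩
    by_cases h3 : p n ≤ Real.exp 1
    · exact Or.inr h3
    · left
      refine ⟨h1, le_trans ?_ h2⟩
      have h4 : 1 ≤ Real.log (p n) := by
        rw [Real.le_log_iff_exp_le (lt_trans (Real.exp_pos 1) (not_le.1 h3))]
        exact (not_le.1 h3).le
      exact Real.rpow_le_rpow_of_exponent_le h4 haa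
  · exact ((NecB_finite hpt x).subset fun n hn => hn.1).union (NecB_finite hpt _)

/-- The exponents are nondecreasing. -/
theorem hasExp_mono {p : ℕ → ℝ} (hp : StrictMono p) (hp1 : 1 < p 0) (hpt : Tendsto p atTop atTop)
    {a a' : ℝ} (ha : 1 < a) (haa : a ≤ a') {E E' : ℝ≥0∞}
    (h : HasExp p a E) (h' : HasExp p a' E') : E ≤ E' := by
  by_contra hc
  have hlt : E' < E := not_le.1 hc
  obtain ⟨b', h1, h2⟩ := ENNReal.lt_iff_exists_nnreal_btwn.1 hlt
  obtain ⟨b, h3, h4⟩ := ENNReal.lt_iff_exists_nnreal_btwn.1 h2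
  have hbb : (b' : ℝ) < b := by exact_mod_cast h3
  have e1 := h'.2 (b' : ℝ) (by rwa [ENNReal.ofReal_coe_nnreal])
  have e2 := h.1 (b : ℝ) (by rwa [ENNReal.ofReal_coe_nnreal])
  set N0 : ℕ := {n : ℕ | p n ≤ Real.exp 1}.ncard with hN0
  have e3 : ∀ᶠ x : ℝ in atTop, (2 : ℝ) ≤ Real.log x ^ ((b : ℝ) - b') :=
    ((tendsto_rpow_atTop (sub_pos.2 hbb)).comp Real.tendsto_log_atTop).eventually_ge_atTop 2
  have e4 : ∀ᶠ x : ℝ in atTop, ‖Real.log x ^ (b : ℝ)‖ ≤ 1 / ((N0 : ℝ) + 1) * ‖x ^ (1 : ℝ)‖ :=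
    (isLittleO_log_rpow_rpow_atTop (b : ℝ) one_pos).bound (by positivity)
  obtain ⟨x, g1, g2, g3, g4, g5⟩ :=
    (e1.and (e2.and (e3.and (e4.and (eventually_gt_atTop (Real.exp 1)))))).exists
  have hx : 0 < x := (Real.exp_pos 1).trans g5
  have hL : 1 < Real.log x := by
    rw [Real.lt_log_iff_exp_lt hx]
    exact g5
  have hL0 : 0 < Real.log x := by linarith
  have hLb : 0 < Real.log x ^ (b : ℝ) := Real.rpow_pos_of_pos hL0 _
  rw [Real.rpow_one, Real.norm_of_nonneg hLb.le, Real.norm_of_nonneg hx.le] at g4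
  have h5 : (N0 : ℝ) + 1 ≤ x / Real.log x ^ (b : ℝ) := by
    rw [le_div_iff₀ hLb]
    have h6 : (0 : ℝ) < (N0 : ℝ) + 1 := by positivity
    calc ((N0 : ℝ) + 1) * Real.log x ^ (b : ℝ) ≤ ((N0 : ℝ) + 1) * (1 / ((N0 : ℝ) + 1) * x) :=
          mul_le_mul_of_nonneg_left g4 h6.le
      _ = x := by field_simp
  have h7 : x / Real.log x ^ (b' : ℝ) =
      x / Real.log x ^ (b : ℝ) * Real.log x ^ ((b : ℝ) - b') := by
    rw [Real.rpow_sub hL0]
    have := (Real.rpow_pos_of_pos hL0 (b' : ℝ)).ne'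
    have := hLb.ne'
    field_simp
  have h8 : (cntA p a' x : ℝ) ≤ cntA p a x + N0 := by
    exact_mod_cast NecB_cnt hpt haa x
  have h9 : 0 ≤ x / Real.log x ^ (b : ℝ) := by positivity
  have h10 : x / Real.log x ^ (b : ℝ) * 2 ≤
      x / Real.log x ^ (b : ℝ) * Real.log x ^ ((b : ℝ) - b') :=
    mul_le_mul_of_nonneg_left g3 h9
  rw [h7] at g1
  linarith

end Pool.Agent.H521.G
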