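import Pool.Agent.H521.G.Shape

open MeasureTheory Set Filter Topology
open scoped ComplexConjugate Classical

namespace Pool.Agent.H521.G

/-- the odd squares -/
noncomputable def osq (m : ℕ) : ℝ := (2 * (m : ℝ) - 1) ^ 2

theorem osq_succ (m : ℕ) : osq (m + 1) = (2 * (m : ℝ) + 1) ^ 2 := by
  unfold osq
  push_cast
  ring

theorem osq_brk : Brk osq 8 8 := by
  refine ⟨by norm_num, by unfold osq; positivity, fun m => ?_, fun m => ?_⟩
  · rw [osq_succ]; unfold osq; nlinarith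
  · rw [osq_succ]; unfold osq; nlinarith

/-- the expected number of primes -/
noncomputable def oexp (m : ℕ) : ℝ := 4 * m / Real.log m

theorem nat_log_tendsto : Tendsto (fun n : ℕ => Real.log n) atTop atTop :=
  Real.tendsto_log_atTop.comp tendsto_natCast_atTop_atTop

theorem oexp_pos : ∀ᶠ m in atTop, 0 < oexp m := by
  filter_upwards [eventually_ge_atTop 2] with m hm
  have h2 : (2 : ℝ) ≤ m := by exact_mod_cast hm
  have := Real.log_pos (by linarith : (1 : ℝ) < m)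
  unfold oexp
  positivity

theorem log_le_pow {ε : ℝ} (hε : 0 < ε) : ∀ᶠ m : ℕ in atTop, Real.log m ≤ (m : ℝ) ^ ε := by
  have h1 := (isLittleO_log_rpow_atTop hε).tendsto_div_nhds_zero
  filter_upwards [(h1.comp tendsto_natCast_atTop_atTop).eventually_le_const one_pos,
    eventually_ge_atTop 1] with m h2 h3
  simp only [Function.comp] at h2
  have hm : (0 : ℝ) < m := by exact_mod_cast h3
  rw [div_le_iff₀ (Real.rpow_pos_of_pos hm _), one_mul] at h2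
  exact h2

theorem oexp_low {ε : ℝ} (hε : 0 < ε) : ∀ᶠ m : ℕ in atTop, (m : ℝ) ^ (1 - ε) ≤ oexp m := by
  filter_upwards [log_le_pow hε, eventually_ge_atTop 2] with m h1 hm
  have h2 : (2 : ℝ) ≤ m := by exact_mod_cast hm
  have hl := Real.log_pos (by linarith : (1 : ℝ) < m)
  have hm0 : (0 : ℝ) < m := by linarith
  unfold oexp
  rw [le_div_iff₀ hl]
  calc (m : ℝ) ^ (1 - ε) * Real.log m ≤ (m : ℝ) ^ (1 - ε) * (m : ℝ) ^ ε :=
        mul_le_mul_of_nonneg_left h1 (by positivity)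
    _ = m := by rw [← Real.rpow_add hm0]; simp
    _ ≤ _ := by linarith

theorem oexp_atTop : Tendsto oexp atTop atTop := by
  refine tendsto_atTop_mono' _ (oexp_low (by norm_num : (0 : ℝ) < 1 / 2)) ?_
  exact (tendsto_rpow_atTop (by norm_num)).comp tendsto_natCast_atTop_atTop

theorem oexp_up {ε : ℝ} (hε : 0 < ε) : ∃ D : ℝ, ∀ m : ℕ, 1 ≤ m →
    |oexp m| ≤ D * (m : ℝ) ^ (1 + ε) := by
  refine ⟨8, fun m hm => ?_⟩
  have hm1 : (1 : ℝ) ≤ m := by exact_mod_cast hm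
  have hp : (m : ℝ) ≤ (m : ℝ) ^ (1 + ε) := by
    calc (m : ℝ) = (m : ℝ) ^ (1 : ℝ) := (Real.rpow_one _).symm
      _ ≤ _ := Real.rpow_le_rpow_of_exponent_le hm1 (by linarith)
  unfold oexp
  rcases Nat.lt_or_ge m 2 with h | h
  · have : m = 1 := by omega
    rw [this]
    simp
  · have h2 : (2 : ℝ) ≤ m := by exact_mod_cast h
    have hl : 1 / 2 ≤ Real.log m := by
      have h3 := Real.log_le_log (by norm_num) h2
      have := Real.log_two_gt_d9
      linarith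
    rw [abs_of_nonneg (by positivity), div_le_iff₀ (by linarith)]
    nlinarith

theorem osq_tendsto : Tendsto osq atTop atTop := osq_brk.tendsto

theorem oexp_ratio {Z : Multiset ℂ} (hZ : ∀ ρ ∈ Z, ρ.re < 1) {x₀ : ℝ} (hR : RDens (fZ Z) x₀) :
    Tendsto (fun m => (Fp (fZ Z) x₀ (osq (m + 1)) - Fp (fZ Z) x₀ (osq m)) / oexp m)
      atTop (𝓝 1) := by
  -- first factor
  have h1 : Tendsto (fun m : ℕ => (Fp (fZ Z) x₀ (osq (m + 1)) - Fp (fZ Z) x₀ (osq m)) /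
      (8 * m / Real.log (osq m))) atTop (𝓝 1) := by
    rw [Metric.tendsto_atTop]
    intro ε hε
    have h2 := osq_tendsto.eventually (F_asym hZ hR (half_pos hε))
    obtain ⟨m₀, hm₀⟩ := eventually_atTop.1 (h2.and
      ((osq_tendsto.eventually_ge_atTop 3).and (eventually_ge_atTop 6)))
    refine ⟨m₀, fun m hm => ?_⟩
    obtain ⟨h3, h4, h5⟩ := hm₀ m hm
    have h6 : (6 : ℝ) ≤ m := by exact_mod_cast h5
    have h7 := h3 (osq (m + 1)) (osq_brk.mono (Nat.le_succ m)) (by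
      rw [osq_succ]; unfold osq; nlinarith)
    have e : osq (m + 1) - osq m = 8 * m := by rw [osq_succ]; unfold osq; ring
    rw [e] at h7
    have hl : 0 < Real.log (osq m) := Real.log_pos (by linarith)
    have hpos : 0 < 8 * (m : ℝ) / Real.log (osq m) := by positivity
    rw [Real.dist_eq]
    have e2 : (Fp (fZ Z) x₀ (osq (m + 1)) - Fp (fZ Z) x₀ (osq m)) / (8 * m / Real.log (osq m)) - 1 =
        ((Fp (fZ Z) x₀ (osq (m + 1)) - Fp (fZ Z) x₀ (osq m)) - 8 * m / Real.log (osq m)) /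
          (8 * m / Real.log (osq m)) := by
      have h9 := hpos.ne'
      set D := 8 * (m : ℝ) / Real.log (osq m)
      field_simp
    rw [e2, abs_div, abs_of_pos hpos]
    have h8 : _ ≤ ε / 2 := (div_le_iff₀ hpos).2 h7
    linarith
  have h2 : Tendsto (fun m : ℕ => (8 * m / Real.log (osq m)) / oexp m) atTop (𝓝 1) := by
    have h3 : Tendsto (fun m : ℕ => 1 / Real.log m) atTop (𝓝 0) := by
      simp_rw [one_div]
      exact nat_log_tendsto.inv_tendsto_atTop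
    rw [Metric.tendsto_atTop]
    intro ε hε
    obtain ⟨m₀, hm₀⟩ := eventually_atTop.1 ((h3.eventually_lt_const
      (by positivity : (0 : ℝ) < ε / 2)).and (eventually_ge_atTop 3))
    refine ⟨m₀, fun m hm => ?_⟩
    obtain ⟨h4, h5⟩ := hm₀ m hm
    have h6 : (3 : ℝ) ≤ m := by exact_mod_cast h5
    have hm0 : (0 : ℝ) < m := by linarith
    have hl : 0 < Real.log m := Real.log_pos (by linarith)
    have e1 : Real.log (osq m) = 2 * Real.log (2 * m - 1) := by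
      unfold osq
      rw [Real.log_pow]
      norm_num
    have h7 : Real.log m ≤ Real.log (2 * m - 1) := Real.log_le_log hm0 (by linarith)
    have h8 : Real.log (2 * m - 1) ≤ Real.log m + 1 := by
      have h9 : Real.log (2 * m - 1) ≤ Real.log (2 * m) :=
        Real.log_le_log (by linarith) (by linarith)
      rw [Real.log_mul (by norm_num) hm0.ne'] at h9
      have := Real.log_two_lt_d9
      linarith
    set l := Real.log (2 * (m : ℝ) - 1) with hl2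
    have hl0 : 0 < l := by linarith
    rw [Real.dist_eq, e1]
    unfold oexp
    have e2 : 8 * (m : ℝ) / (2 * l) / (4 * m / Real.log m) - 1 = -((l - Real.log m) / l) := by
      field_simp
      ring
    rw [e2, abs_neg, abs_of_nonneg (div_nonneg (by linarith) hl0.le)]
    have h9 : (l - Real.log m) / l ≤ 1 / Real.log m :=
      div_le_div₀ (by norm_num) (by linarith) hl h7
    linarith
  have h3 := h1.mul h2
  rw [one_mul] at h3
  refine h3.congr' ?_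
  filter_upwards [oexp_pos, osq_tendsto.eventually_ge_atTop 3, eventually_ge_atTop 1] with m h4 h5 h6
  have hl : 0 < Real.log (osq m) := Real.log_pos (by linarith)
  have hm0 : (0 : ℝ) < m := by exact_mod_cast h6
  have h7 : 8 * (m : ℝ) / Real.log (osq m) ≠ 0 := by positivity
  rw [div_mul_div_cancel₀ h7]

/-- **Asymptotic shapes.** -/
theorem odd_shape {Z : Multiset ℂ} (hZ : ∀ ρ ∈ Z, ρ.re < 1) (hZc : Z.map conj = Z)
    {r : ℕ → ℝ} (hr0 : ∀ m, 0 ≤ r m) :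
    ((∃ p : ℕ → ℝ, Sys Z p ∧ Tendsto (fun m : ℕ =>
      (cntO p (osq m) (osq (m + 1)) : ℝ) / oexp m - r m) atTop (𝓝 0)) ↔
    (∀ δ : ℝ, 0 < δ → Sps {k | δ ≤ |r k - 1|}) ∧
      ∀ ε : ℝ, 0 < ε → ∃ D : ℝ, ∀ m : ℕ, 1 ≤ m → r m ≤ D * (m : ℝ) ^ ε) ∧
    ∀ p : ℕ → ℝ, SysW Z p → Tendsto (fun m : ℕ =>
      (cntO p (osq m) (osq (m + 1)) : ℝ) / oexp m - r m) atTop (𝓝 0) →
    (∀ δ : ℝ, 0 < δ → Sps {k | δ ≤ |r k - 1|}) ∧
      ∀ ε : ℝ, 0 < ε → ∃ D : ℝ, ∀ m : ℕ, 1 ≤ m → r m ≤ D * (m : ℝ) ^ ε := by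
  obtain ⟨x₀, hR⟩ := exists_RDens hZ
  have hnec : ∀ p : ℕ → ℝ, SysW Z p → Tendsto (fun m : ℕ =>
      (cntO p (osq m) (osq (m + 1)) : ℝ) / oexp m - r m) atTop (𝓝 0) →
    (∀ δ : ℝ, 0 < δ → Sps {k | δ ≤ |r k - 1|}) ∧
      ∀ ε : ℝ, 0 < ε → ∃ D : ℝ, ∀ m : ℕ, 1 ≤ m → r m ≤ D * (m : ℝ) ^ ε := fun p hp h =>
    shape_nec hZ hZc hR hp osq_brk oexp_pos (fun ε hε => oexp_low hε) (oexp_ratio hZ hR) h
  refine ⟨⟨?_, ?_⟩, hnec⟩
  · rintro ⟨p, hp, h⟩
    exact hnec p hp.toSysW h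
  · rintro ⟨h1, h2⟩
    exact shape_suff hZ hZc hR osq_brk oexp_pos oexp_atTop (fun ε hε => oexp_up hε)
      (oexp_ratio hZ hR) hr0 h1 h2

/-- **Exact numbers** in exceptional intervals. -/
theorem odd_exact {Z : Multiset ℂ} (hZ : ∀ ρ ∈ Z, ρ.re < 1) (hZc : Z.map conj = Z)
    {S : Set ℕ} (hS : Sps S) {a : ℕ → ℕ}
    (ha : ∀ ε : ℝ, 0 < ε → ∃ D : ℝ, ∀ m : ℕ, 1 ≤ m → (a m : ℝ) ≤ D * (m : ℝ) ^ (1 + ε)) :
    ∃ p : ℕ → ℝ, Sys Z p ∧ (∃ m₀ : ℕ, ∀ m, m₀ ≤ m → m ∈ S →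
        cntO p (osq m) (osq (m + 1)) = a m) ∧
      ∀ ε : ℝ, 0 < ε → ∃ m₀ : ℕ, ∀ m, m₀ ≤ m → m ∉ S →
        |(cntO p (osq m) (osq (m + 1)) : ℝ) / oexp m - 1| ≤ ε := by
  obtain ⟨x₀, hR⟩ := exists_RDens hZ
  obtain ⟨p, hp, m₀, hm₀⟩ := seq_suff hZ hZc hR osq_brk (S := S) (a := a) hS (fun ε hε => by
    obtain ⟨D, hD⟩ := ha ε hε
    exact ⟨D, fun m _ hm => hD m hm⟩)
  refine ⟨p, hp, ⟨m₀, fun m hm hmS => (hm₀ m hm).2.1 hmS⟩, fun ε hε => ?_⟩
  have hE := oexp_ratio hZ hR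
  have h3 : ∀ᶠ m in atTop, |(Fp (fZ Z) x₀ (osq (m + 1)) - Fp (fZ Z) x₀ (osq m)) / oexp m - 1| <
      ε / 2 := (tendsto_order.1 (by
        have := (hE.sub_const 1).abs
        simpa using this)).2 _ (by positivity)
  obtain ⟨m₁, hm₁⟩ := eventually_atTop.1 ((h3.and oexp_pos).and
    (oexp_atTop.eventually_ge_atTop (4 / ε)))
  refine ⟨max m₀ m₁, fun m hm hmS => ?_⟩
  obtain ⟨⟨a1, a2⟩, a3⟩ := hm₁ m ((le_max_right _ _).trans hm)
  have c1 := (hm₀ m ((le_max_left _ _).trans hm)).2.2 hmS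
  change |((cntO p (osq m) (osq (m + 1)) : ℕ) : ℝ) - _| ≤ 2 at c1
  set N : ℝ := (cntO p (osq m) (osq (m + 1)) : ℝ) with hN
  set G : ℝ := Fp (fZ Z) x₀ (osq (m + 1)) - Fp (fZ Z) x₀ (osq m) with hG
  have e : N / oexp m - 1 = (N - G) / oexp m + (G / oexp m - 1) := by
    field_simp
    ring
  rw [e]
  have c4 := abs_add_le ((N - G) / oexp m) (G / oexp m - 1)
  have c5 : |(N - G) / oexp m| ≤ 2 / oexp m := by
    rw [abs_div, abs_of_pos a2]
    exact div_le_div_of_nonneg_right c1 a2.le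
  have a4 : 2 / oexp m ≤ ε / 2 := by
    rw [div_le_iff₀ a2]
    rw [div_le_iff₀ hε] at a3
    linarith
  linarith

end Pool.Agent.H521.G
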