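import Pool.Agent.H521.G.SeqCount

open MeasureTheory Set Filter Topology
open scoped ComplexConjugate Classical

namespace Pool.Agent.H521.G

/-- Sets of counting function `O(N^ε)`. -/
def Sps (S : Set ℕ) : Prop := ∀ ε : ℝ, 0 < ε → ∃ C : ℝ, ∀ N : ℕ, 1 ≤ N →
  ((Set.ncard {n | n ∈ S ∧ n ≤ N} : ℕ) : ℝ) ≤ C * (N : ℝ) ^ ε

theorem fin_le (S : Set ℕ) (N : ℕ) : {n | n ∈ S ∧ n ≤ N}.Finite :=
  (Set.finite_Iic N).subset fun _ hn => hn.2

/-- Comparison of counting functions. -/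
theorem Sps.of_map {S T : Set ℕ} (hT : Sps T) {n₀ A : ℕ} {f : ℕ → ℕ}
    (h1 : ∀ n ∈ S, n₀ ≤ n → f n ∈ T) (h2 : ∀ n, f n ≤ A * (n + 1))
    (h3 : ∀ m n, m ∈ S → n ∈ S → n₀ ≤ m → n₀ ≤ n → f m = f n → m = n) : Sps S := by
  intro ε hε
  obtain ⟨C, hC⟩ := hT ε hε
  refine ⟨n₀ + |C| * (2 * (A + 1) : ℝ) ^ ε, fun N hN => ?_⟩
  have hN1 : (1 : ℝ) ≤ N := by exact_mod_cast hN
  have hsub : {n | n ∈ S ∧ n ≤ N} ⊆ (Set.Iio n₀) ∪ {n | (n ∈ S ∧ n₀ ≤ n) ∧ n ≤ N} := by
    rintro n ⟨a, b⟩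
    rcases Nat.lt_or_ge n n₀ with h | h
    · left; exact h
    · right; exact ⟨⟨a, h⟩, b⟩
  have hf2 : {n | (n ∈ S ∧ n₀ ≤ n) ∧ n ≤ N}.Finite := (Set.finite_Iic N).subset fun _ hn => hn.2
  have h4 := (Set.ncard_le_ncard hsub ((Set.finite_Iio n₀).union hf2)).trans
    (Set.ncard_union_le _ _)
  have h5 : (Set.Iio n₀).ncard = n₀ := by
    rw [← Finset.coe_range, Set.ncard_coe_finset, Finset.card_range]
  have h6 : {n | (n ∈ S ∧ n₀ ≤ n) ∧ n ≤ N}.ncard ≤
      {m | m ∈ T ∧ m ≤ 2 * (A + 1) * N}.ncard := by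
    refine Set.ncard_le_ncard_of_injOn f ?_ ?_ (fin_le T _)
    · rintro n ⟨⟨a, b⟩, c⟩
      refine ⟨h1 n a b, (h2 n).trans ?_⟩
      nlinarith
    · rintro m ⟨⟨a, b⟩, -⟩ n ⟨⟨a', b'⟩, -⟩ hmn
      exact h3 m n a a' b b' hmn
  have h7 := hC (2 * (A + 1) * N) (by nlinarith)
  have h8 : (((2 * (A + 1) * N : ℕ)) : ℝ) ^ ε = (2 * (A + 1) : ℝ) ^ ε * (N : ℝ) ^ ε := by
    push_cast
    rw [Real.mul_rpow (by positivity) (by positivity)]
  rw [h8] at h7
  have hNε : 1 ≤ (N : ℝ) ^ ε := Real.one_le_rpow hN1 hε.le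
  have h9 : (({n | n ∈ S ∧ n ≤ N}.ncard : ℕ) : ℝ) ≤ n₀ +
      (({m | m ∈ T ∧ m ≤ 2 * (A + 1) * N}.ncard : ℕ) : ℝ) := by
    rw [h5] at h4
    exact_mod_cast h4.trans (Nat.add_le_add_left h6 _)
  have h10 : (0 : ℝ) ≤ (2 * (A + 1) : ℝ) ^ ε * (N : ℝ) ^ ε := by positivity
  have h11 : C * ((2 * (A + 1) : ℝ) ^ ε * (N : ℝ) ^ ε) ≤
      |C| * ((2 * (A + 1) : ℝ) ^ ε * (N : ℝ) ^ ε) :=
    mul_le_mul_of_nonneg_right (le_abs_self C) h10
  have h12 : (n₀ : ℝ) ≤ n₀ * (N : ℝ) ^ ε := le_mul_of_one_le_right (Nat.cast_nonneg _) hNε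
  calc _ ≤ _ := h9
    _ ≤ n₀ * (N : ℝ) ^ ε + |C| * ((2 * (A + 1) : ℝ) ^ ε * (N : ℝ) ^ ε) := by linarith
    _ = _ := by ring

theorem Sps.union {S T : Set ℕ} (hS : Sps S) (hT : Sps T) : Sps (S ∪ T) := by
  intro ε hε
  obtain ⟨C, hC⟩ := hS ε hε
  obtain ⟨D, hD⟩ := hT ε hε
  refine ⟨C + D, fun N hN => ?_⟩
  have hsub : {n | n ∈ S ∪ T ∧ n ≤ N} ⊆ {n | n ∈ S ∧ n ≤ N} ∪ {n | n ∈ T ∧ n ≤ N} := by
    rintro n ⟨a | a, b⟩
    · left; exact ⟨a, b⟩
    · right; exact ⟨a, b⟩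
  have h4 := (Set.ncard_le_ncard hsub ((fin_le S N).union (fin_le T N))).trans
    (Set.ncard_union_le _ _)
  have h5 : (({n | n ∈ S ∪ T ∧ n ≤ N}.ncard : ℕ) : ℝ) ≤ {n | n ∈ S ∧ n ≤ N}.ncard +
      {n | n ∈ T ∧ n ≤ N}.ncard := by exact_mod_cast h4
  have := hC N hN
  have := hD N hN
  rw [add_mul]
  linarith

/-- Few intervals have fewer than `k` primes. -/
theorem few_count {Z : Multiset ℂ} (hZ : ∀ ρ ∈ Z, ρ.re < 1) (hZc : Z.map conj = Z)
    {p : ℕ → ℝ} (hS : SysW Z p) {b : ℕ → ℝ} {c C : ℝ} (hb : Brk b c C) (k : ℕ) :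
    Sps {m | Set.ncard {j | b m < p j ∧ p j < b (m + 1)} < k} := by
  rcases Nat.eq_zero_or_pos k with h0 | h0
  · intro ε hε
    refine ⟨0, fun N hN => ?_⟩
    have : {n | n ∈ {m | Set.ncard {j | b m < p j ∧ p j < b (m + 1)} < k} ∧ n ≤ N} = ∅ := by
      ext n
      simp [h0]
    rw [this]
    simp
  set E : Set ℕ := {m | Set.ncard {j | b m < p j ∧ p j < b (m + 1)} < k} with hE
  have hk : (0 : ℝ) < k := by exact_mod_cast h0
  have hex : ∀ m ∈ E, ∃ i : ℕ, i < k ∧ ∀ j, ¬ (b m + i * ((b (m + 1) - b m) / k) < p j ∧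
      p j < b m + (i + 1) * ((b (m + 1) - b m) / k)) := by
    intro m hm
    by_contra hcon
    push Not at hcon
    choose! jf hj using hcon
    set L : ℝ := (b (m + 1) - b m) / k with hL
    have hL0 : 0 ≤ L := by
      apply div_nonneg _ hk.le
      have := hb.mono (Nat.le_succ m)
      simp only [Nat.succ_eq_add_one] at this
      linarith
    have hkL : (k : ℝ) * L = b (m + 1) - b m := by
      rw [hL]; field_simp
    have hfin : {j | b m < p j ∧ p j < b (m + 1)}.Finite :=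
      (finite_le hS.tendsto (b (m + 1))).subset fun j hj => hj.2.le
    have h1 : k ≤ Set.ncard {j | b m < p j ∧ p j < b (m + 1)} := by
      rw [Set.ncard_eq_toFinset_card _ hfin]
      rw [← Finset.card_range k]
      apply Finset.card_le_card_of_injOn jf
      · intro i hi
        have hi' : i < k := Finset.mem_range.1 (Finset.mem_coe.1 hi)
        obtain ⟨h2, h3⟩ := hj i hi'
        simp only [Set.Finite.coe_toFinset, mem_ofPred_eq]
        have h4 : (0 : ℝ) ≤ i := Nat.cast_nonneg i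
        have h5 : ((i : ℝ) + 1) ≤ k := by exact_mod_cast hi'
        constructor
        · nlinarith
        · nlinarith
      · intro i hi i' hi' hii
        have hi1 : i < k := Finset.mem_range.1 (Finset.mem_coe.1 hi)
        have hi2 : i' < k := Finset.mem_range.1 (Finset.mem_coe.1 hi')
        obtain ⟨h2, h3⟩ := hj i hi1
        obtain ⟨h4, h5⟩ := hj i' hi2
        rw [hii] at h2 h3
        have hLpos : 0 < L := by nlinarith
        have h6 : (i : ℝ) < i' + 1 := by nlinarith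
        have h7 : (i' : ℝ) < i + 1 := by nlinarith
        have h8 : i < i' + 1 := by exact_mod_cast h6
        have h9 : i' < i + 1 := by exact_mod_cast h7
        omega
    have h2 : Set.ncard {j | b m < p j ∧ p j < b (m + 1)} < k := hm
    omega
  choose! i hi1 hi2 using hex
  intro ε hε
  refine void_count hZ hZc hS hb (η := c / k) (div_pos hb.c0 hk) (E := E)
    (u := fun m => b m + i m * ((b (m + 1) - b m) / k)) (fun m _ => ?_) (fun m hm => ?_)
    (fun m hm j => ?_) hε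
  · have := hb.mono (Nat.le_succ m)
    simp only [Nat.succ_eq_add_one] at this
    have h1 : 0 ≤ (i m : ℝ) * ((b (m + 1) - b m) / k) :=
      mul_nonneg (Nat.cast_nonneg _) (div_nonneg (by linarith) hk.le)
    linarith
  · have h1 : ((i m : ℝ) + 1) ≤ k := by exact_mod_cast hi1 m hm
    have h2 := hb.low m
    have h3 : c / k * m ≤ (b (m + 1) - b m) / k := by
      rw [div_mul_eq_mul_div]
      exact div_le_div_of_nonneg_right h2 hk.le
    have h4 : 0 ≤ (b (m + 1) - b m) / k := le_trans (by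
      have := hb.c0
      positivity) h3
    have h5 : ((i m : ℝ) + 1) * ((b (m + 1) - b m) / k) ≤ k * ((b (m + 1) - b m) / k) :=
      mul_le_mul_of_nonneg_right h1 h4
    have h6 : (k : ℝ) * ((b (m + 1) - b m) / k) = b (m + 1) - b m := by field_simp
    linarith
  · have h2 := hb.low m
    have h3 : c / k * m ≤ (b (m + 1) - b m) / k := by
      rw [div_mul_eq_mul_div]
      exact div_le_div_of_nonneg_right h2 hk.le
    have h4 := hi2 m hm j
    by_contra hcon
    push Not at hcon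
    apply h4
    refine ⟨hcon.1, ?_⟩
    have e : b m + ((i m : ℝ) + 1) * ((b (m + 1) - b m) / k) =
        b m + i m * ((b (m + 1) - b m) / k) + (b (m + 1) - b m) / k := by ring
    rw [e]
    linarith [hcon.2]

/-- Quarter squares. -/
noncomputable def qs (m : ℕ) : ℝ := ((m ^ 2 / 4 : ℕ) : ℝ)

theorem qs_even (n : ℕ) : qs (2 * n) = (n : ℝ) ^ 2 := by
  unfold qs
  have : (2 * n) ^ 2 / 4 = n ^ 2 := by
    rw [mul_pow]
    norm_num
  rw [this]
  push_cast
  ring

theorem qs_odd (n : ℕ) : qs (2 * n + 1) = (n : ℝ) ^ 2 + n := by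
  unfold qs
  have : (2 * n + 1) ^ 2 / 4 = n ^ 2 + n := by
    have e : (2 * n + 1) ^ 2 = 1 + 4 * (n ^ 2 + n) := by ring
    rw [e, Nat.add_mul_div_left _ _ (by norm_num)]
    norm_num
  rw [this]
  push_cast
  ring

theorem qs_brk : Brk qs (1 / 2) 1 := by
  refine ⟨by norm_num, by simp [qs], fun m => ?_, fun m => ?_⟩
  · rcases Nat.even_or_odd' m with ⟨n, rfl | rfl⟩
    · rw [qs_odd, qs_even]; push_cast; linarith
    · rw [qs_odd, show 2 * n + 1 + 1 = 2 * (n + 1) by ring, qs_even]; push_cast; nlinarith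
  · rcases Nat.even_or_odd' m with ⟨n, rfl | rfl⟩
    · have : (0 : ℝ) ≤ n := Nat.cast_nonneg n
      rw [qs_odd, qs_even]; push_cast; linarith
    · have : (0 : ℝ) ≤ n := Nat.cast_nonneg n
      rw [qs_odd, show 2 * n + 1 + 1 = 2 * (n + 1) by ring, qs_even]; push_cast; nlinarith

/-- The two families of intervals in one. -/
def cmb (S T : Set ℕ) : Set ℕ := {m | (∃ n, n ∈ S ∧ m + 1 = 2 * n) ∨ ∃ n, n ∈ T ∧ m = 2 * n}

theorem even_mem_cmb {S T : Set ℕ} {n : ℕ} : 2 * n ∈ cmb S T ↔ n ∈ T := by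
  constructor
  · rintro (⟨k, hk, h⟩ | ⟨k, hk, h⟩)
    · omega
    · have : n = k := by omega
      rw [this]; exact hk
  · intro h
    right; exact ⟨n, h, rfl⟩

theorem odd_mem_cmb {S T : Set ℕ} {n : ℕ} : 2 * n + 1 ∈ cmb S T ↔ n + 1 ∈ S := by
  constructor
  · rintro (⟨k, hk, h⟩ | ⟨k, hk, h⟩)
    · have : n + 1 = k := by omega
      rw [this]; exact hk
    · omega
  · intro h
    left; exact ⟨n + 1, h, by ring⟩

theorem Sps.cmb {S T : Set ℕ} (hS : Sps S) (hT : Sps T) : Sps (cmb S T) := by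
  have h1 : Sps {m | ∃ n, n ∈ S ∧ m + 1 = 2 * n} := by
    refine hS.of_map (n₀ := 0) (A := 1) (f := fun m => (m + 1) / 2) ?_ ?_ ?_
    · rintro m ⟨n, hn, h⟩ -
      have : (m + 1) / 2 = n := by omega
      rw [this]; exact hn
    · intro m; omega
    · rintro m n ⟨k, -, hk⟩ ⟨l, -, hl⟩ - - hmn
      omega
  have h2 : Sps {m | ∃ n, n ∈ T ∧ m = 2 * n} := by
    refine hT.of_map (n₀ := 0) (A := 1) (f := fun m => m / 2) ?_ ?_ ?_
    · rintro m ⟨n, hn, h⟩ -
      have : m / 2 = n := by omega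
      rw [this]; exact hn
    · intro m; omega
    · rintro m n ⟨k, -, hk⟩ ⟨l, -, hl⟩ - - hmn
      omega
  exact h1.union h2

/-- Asymptotics of the template. -/
theorem F_asym {Z : Multiset ℂ} (hZ : ∀ ρ ∈ Z, ρ.re < 1) {x₀ : ℝ} (hR : RDens (fZ Z) x₀)
    {ε : ℝ} (hε : 0 < ε) : ∀ᶠ a in atTop, ∀ b, a ≤ b → b ≤ 2 * a →
      |(Fp (fZ Z) x₀ b - Fp (fZ Z) x₀ a) - (b - a) / Real.log a| ≤ ε * ((b - a) / Real.log a) := by
  filter_upwards [transfer hZ hR hε] with a ⟨ha0, ha⟩ b hab hb2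
  have hl := hR.hlog a ha0
  have h1 := ha b hab hb2
  have e : (Fp (fZ Z) x₀ b - Fp (fZ Z) x₀ a) - (b - a) / Real.log a =
      ((Fp (fZ Z) x₀ b - Fp (fZ Z) x₀ a) * Real.log a - (b - a)) / Real.log a := by
    field_simp
  rw [e, abs_div, abs_of_pos (by linarith : 0 < Real.log a), ← mul_div_assoc]
  exact div_le_div_of_nonneg_right h1 (by linarith)

/-- The expected number of primes in the intervals at the squares. -/
theorem F_square {Z : Multiset ℂ} (hZ : ∀ ρ ∈ Z, ρ.re < 1) {x₀ : ℝ} (hR : RDens (fZ Z) x₀)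
    {ε : ℝ} (hε : 0 < ε) : ∀ᶠ n : ℕ in atTop,
      |(Fp (fZ Z) x₀ ((n : ℝ) ^ 2) - Fp (fZ Z) x₀ ((n : ℝ) ^ 2 - n)) - n / (2 * Real.log n)| ≤
        ε * (n / Real.log n) ∧
      |(Fp (fZ Z) x₀ ((n : ℝ) ^ 2 + n) - Fp (fZ Z) x₀ ((n : ℝ) ^ 2)) - n / (2 * Real.log n)| ≤
        ε * (n / Real.log n) := by
  have t1 : Tendsto (fun n : ℕ => (n : ℝ) ^ 2) atTop atTop :=
    (tendsto_pow_atTop (by norm_num)).comp tendsto_natCast_atTop_atTop
  have t2 : Tendsto (fun n : ℕ => (n : ℝ) ^ 2 - n) atTop atTop := by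
    refine tendsto_atTop_mono' _ ?_ tendsto_natCast_atTop_atTop
    filter_upwards [eventually_ge_atTop 2] with n hn
    have : (2 : ℝ) ≤ n := by exact_mod_cast hn
    nlinarith
  have hlog : Tendsto (fun n : ℕ => Real.log n) atTop atTop :=
    Real.tendsto_log_atTop.comp tendsto_natCast_atTop_atTop
  have hbig : ∀ᶠ n : ℕ in atTop, 1 ≤ ε / 2 * (n / Real.log n) := by
    have h3 : Tendsto (fun x : ℝ => Real.log x / x) atTop (𝓝 0) :=
      Real.isLittleO_log_id_atTop.tendsto_div_nhds_zero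
    have h4 := (h3.comp tendsto_natCast_atTop_atTop).eventually_le_const (half_pos hε)
    filter_upwards [h4, hlog.eventually_ge_atTop 1, eventually_ge_atTop 1] with n hn hl hn1
    simp only [Function.comp] at hn
    have h5 : (0 : ℝ) < n := by exact_mod_cast hn1
    rw [div_le_iff₀ h5] at hn
    rw [← mul_div_assoc, le_div_iff₀ (by linarith)]
    linarith
  filter_upwards [t1.eventually (F_asym hZ hR (half_pos hε)),
    t2.eventually (F_asym hZ hR (half_pos hε)), hlog.eventually_ge_atTop 2, hbig,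
    eventually_ge_atTop 4] with n h1 h2 hl hb hn
  have hn4 : (4 : ℝ) ≤ n := by exact_mod_cast hn
  have hn0 : (0 : ℝ) < n := by linarith
  constructor
  · have h3 := h2 ((n : ℝ) ^ 2) (by linarith) (by nlinarith)
    have e : (n : ℝ) ^ 2 - ((n : ℝ) ^ 2 - n) = n := by ring
    rw [e] at h3
    set l := Real.log ((n : ℝ) ^ 2 - n) with hl'
    have hl1 : l ≤ 2 * Real.log n := by
      have : 2 * Real.log n = Real.log ((n : ℝ) ^ 2) := by rw [Real.log_pow]; norm_num
      rw [hl', this]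
      exact Real.log_le_log (by nlinarith) (by linarith)
    have hl2 : 2 * Real.log n - 2 / n ≤ l := by
      have e2 : (n : ℝ) ^ 2 - n = (n : ℝ) ^ 2 * (1 - 1 / n) := by field_simp
      have e3 : (1 : ℝ) - 1 / n = (1 + 1 / ((n : ℝ) - 1))⁻¹ := by
        have h5 : (n : ℝ) - 1 ≠ 0 := by linarith
        have h6 : (n : ℝ) ≠ 0 := hn0.ne'
        have h7 : 1 + 1 / ((n : ℝ) - 1) = n / (n - 1) := by
          rw [eq_div_iff h5, add_mul, div_mul_cancel₀ _ h5]
          ring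
        rw [h7, inv_div, sub_div, div_self h6]
      have h5 : (0 : ℝ) < 1 + 1 / ((n : ℝ) - 1) := by
        have : 0 < 1 / ((n : ℝ) - 1) := div_pos one_pos (by linarith)
        linarith
      rw [hl', e2, Real.log_mul (by positivity) (by rw [e3]; positivity), Real.log_pow, e3,
        Real.log_inv]
      have h6 := Real.log_le_sub_one_of_pos h5
      have h7 : 1 / ((n : ℝ) - 1) ≤ 2 / n := by
        rw [div_le_div_iff₀ (by linarith) hn0]
        linarith
      push_cast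
      linarith
    have hl3 : Real.log n ≤ l := by
      have : 2 / (n : ℝ) ≤ 1 := by rw [div_le_one hn0]; linarith
      linarith
    have hl0 : 0 < l := by linarith
    have h4 : |(n : ℝ) / l - n / (2 * Real.log n)| ≤ ε / 2 * (n / Real.log n) := by
      have e4 : (n : ℝ) / l - n / (2 * Real.log n) = n * (2 * Real.log n - l) /
          (l * (2 * Real.log n)) := by
        have : Real.log (n : ℝ) ≠ 0 := by linarith
        field_simp
      rw [e4, abs_of_nonneg (div_nonneg (mul_nonneg hn0.le (by linarith)) (by positivity))]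
      refine le_trans ?_ hb
      rw [div_le_one (by positivity)]
      have h8 : (n : ℝ) * (2 * Real.log n - l) ≤ n * (2 / n) :=
        mul_le_mul_of_nonneg_left (by linarith) hn0.le
      have h9 : (n : ℝ) * (2 / n) = 2 := by field_simp
      nlinarith
    have h5 : ε / 2 * (n / l) ≤ ε / 2 * (n / Real.log n) := by
      apply mul_le_mul_of_nonneg_left _ (by linarith)
      exact div_le_div_of_nonneg_left hn0.le (by linarith) hl3
    have h6 := abs_sub_le (Fp (fZ Z) x₀ ((n : ℝ) ^ 2) - Fp (fZ Z) x₀ ((n : ℝ) ^ 2 - n)) (n / l)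
      (n / (2 * Real.log n))
    linarith
  · have h3 := h1 ((n : ℝ) ^ 2 + n) (by linarith) (by nlinarith)
    have e : (n : ℝ) ^ 2 + n - (n : ℝ) ^ 2 = n := by ring
    rw [e, Real.log_pow] at h3
    push_cast at h3
    have h4 : (n : ℝ) / (2 * Real.log n) ≤ n / Real.log n :=
      div_le_div_of_nonneg_left hn0.le (by linarith) (by linarith)
    have h5 : ε / 2 * (n / (2 * Real.log n)) ≤ ε * (n / Real.log n) := by
      have : 0 ≤ (n : ℝ) / Real.log n := by positivity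
      have h6 : ε / 2 * (n / (2 * Real.log n)) ≤ ε / 2 * (n / Real.log n) :=
        mul_le_mul_of_nonneg_left h4 (by linarith)
      nlinarith
    linarith

end Pool.Agent.H521.G
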