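import Pool.Agent.H521.G.Opp

open MeasureTheory Set Filter Topology
open scoped ComplexConjugate Classical

namespace Pool.Agent.H521.G

/-- number of points in an open interval -/
noncomputable def cntO (p : ℕ → ℝ) (x y : ℝ) : ℕ := Set.ncard {k : ℕ | x < p k ∧ p k < y}

/-- **Prescribed numbers of primes in exceptional Oppermann intervals.** -/
theorem opp_exists {Z : Multiset ℂ} (hZ : ∀ ρ ∈ Z, ρ.re < 1) (hZc : Z.map conj = Z)
    {S T : Set ℕ} (hS : Sps S) (hT : Sps T) {a b : ℕ → ℕ}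
    (ha : ∀ ε : ℝ, 0 < ε → ∃ D : ℝ, ∀ n ∈ S, 1 ≤ n → (a n : ℝ) ≤ D * (n : ℝ) ^ (1 + ε))
    (hb : ∀ ε : ℝ, 0 < ε → ∃ D : ℝ, ∀ n ∈ T, 1 ≤ n → (b n : ℝ) ≤ D * (n : ℝ) ^ (1 + ε)) :
    ∃ p : ℕ → ℝ, Sys Z p ∧
      (∃ n₀ : ℕ, ∀ n, n₀ ≤ n → (∀ k, p k ≠ (n : ℝ) ^ 2) ∧ (∀ k, p k ≠ (n : ℝ) ^ 2 - n) ∧
        (∀ k, p k ≠ (n : ℝ) ^ 2 + n) ∧
        (n ∈ S → cntO p ((n : ℝ) ^ 2 - n) ((n : ℝ) ^ 2) = a n) ∧
        (n ∈ T → cntO p ((n : ℝ) ^ 2) ((n : ℝ) ^ 2 + n) = b n)) ∧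
      ∀ ε : ℝ, 0 < ε → ∃ n₀ : ℕ, ∀ n, n₀ ≤ n →
        (n ∉ S → |(cntO p ((n : ℝ) ^ 2 - n) ((n : ℝ) ^ 2) : ℝ) - n / (2 * Real.log n)| ≤
          ε * (n / Real.log n)) ∧
        (n ∉ T → |(cntO p ((n : ℝ) ^ 2) ((n : ℝ) ^ 2 + n) : ℝ) - n / (2 * Real.log n)| ≤
          ε * (n / Real.log n)) := by
  obtain ⟨x₀, hR⟩ := exists_RDens hZ
  set d : ℕ → ℕ := fun m => if m % 2 = 0 then b (m / 2) else a ((m + 1) / 2) with hd
  obtain ⟨p, hsys, m₀, hm₀⟩ := seq_suff hZ hZc hR qs_brk (S := cmb S T) (a := d)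
    (hS.cmb hT) (by
      intro ε hε
      obtain ⟨D, hD⟩ := ha ε hε
      obtain ⟨D', hD'⟩ := hb ε hε
      refine ⟨|D| + |D'|, fun m hm hm1 => ?_⟩
      have hm0 : (1 : ℝ) ≤ m := by exact_mod_cast hm1
      have hp : 0 ≤ (m : ℝ) ^ (1 + ε) := by positivity
      have hDa := abs_nonneg D
      have hDb := abs_nonneg D'
      rcases hm with ⟨n, hn, h⟩ | ⟨n, hn, h⟩
      · have e : d m = a n := by
          rw [hd]
          simp only
          rw [if_neg (by omega)]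
          congr 1
          omega
        rw [e]
        have h1 := hD n hn (by omega)
        have h2 : (n : ℝ) ^ (1 + ε) ≤ (m : ℝ) ^ (1 + ε) := by
          apply Real.rpow_le_rpow (Nat.cast_nonneg _) _ (by linarith)
          exact_mod_cast (by omega : n ≤ m)
        have h3 : D * (n : ℝ) ^ (1 + ε) ≤ |D| * (m : ℝ) ^ (1 + ε) :=
          mul_le_mul (le_abs_self D) h2 (by positivity) hDa
        have h4 : 0 ≤ |D'| * (m : ℝ) ^ (1 + ε) := mul_nonneg hDb hp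
        linarith
      · have e : d m = b n := by
          rw [hd]
          simp only
          rw [if_pos (by omega)]
          congr 1
          omega
        rw [e]
        have h1 := hD' n hn (by omega)
        have h2 : (n : ℝ) ^ (1 + ε) ≤ (m : ℝ) ^ (1 + ε) := by
          apply Real.rpow_le_rpow (Nat.cast_nonneg _) _ (by linarith)
          exact_mod_cast (by omega : n ≤ m)
        have h3 : D' * (n : ℝ) ^ (1 + ε) ≤ |D'| * (m : ℝ) ^ (1 + ε) :=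
          mul_le_mul (le_abs_self D') h2 (by positivity) hDb
        have h4 : 0 ≤ |D| * (m : ℝ) ^ (1 + ε) := mul_nonneg hDa hp
        linarith)
  have hodd : ∀ n : ℕ, 1 ≤ n → qs (2 * n - 1) = (n : ℝ) ^ 2 - n ∧ 2 * n - 1 + 1 = 2 * n := by
    intro n hn
    obtain ⟨k, rfl⟩ : ∃ k, n = k + 1 := ⟨n - 1, by omega⟩
    have e : 2 * (k + 1) - 1 = 2 * k + 1 := by omega
    rw [e, qs_odd]
    refine ⟨?_, by ring⟩
    push_cast
    ring
  have hS' : ∀ n : ℕ, 1 ≤ n → (2 * n - 1 ∈ cmb S T ↔ n ∈ S) := by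
    intro n hn
    obtain ⟨k, rfl⟩ : ∃ k, n = k + 1 := ⟨n - 1, by omega⟩
    have e : 2 * (k + 1) - 1 = 2 * k + 1 := by omega
    rw [e]
    exact odd_mem_cmb
  have hd1 : ∀ n : ℕ, 1 ≤ n → d (2 * n - 1) = a n := by
    intro n hn
    rw [hd]
    simp only
    rw [if_neg (by omega)]
    congr 1
    omega
  have hd2 : ∀ n : ℕ, d (2 * n) = b n := by
    intro n
    rw [hd]
    simp only
    rw [if_pos (by omega)]
    congr 1
    omega
  refine ⟨p, hsys, ⟨max m₀ 1, fun n hn => ?_⟩, fun ε hε => ?_⟩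
  · have hn1 : 1 ≤ n := (le_max_right _ _).trans hn
    have hn2 : m₀ ≤ n := (le_max_left _ _).trans hn
    obtain ⟨h1, h2, -⟩ := hm₀ (2 * n) (by omega)
    obtain ⟨h3, h4, -⟩ := hm₀ (2 * n - 1) (by omega)
    obtain ⟨h5, -, -⟩ := hm₀ (2 * n + 1) (by omega)
    obtain ⟨e1, e2⟩ := hodd n hn1
    rw [e2] at h4
    rw [e1] at h3 h4
    rw [qs_even] at h1 h2 h4
    rw [qs_odd] at h2 h5
    refine ⟨h1, h3, h5, fun h => ?_, fun h => ?_⟩
    · unfold cntO
      rw [h4 ((hS' n hn1).2 h), hd1 n hn1]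
    · unfold cntO
      rw [h2 (even_mem_cmb.2 h), hd2 n]
  · have hlog : Tendsto (fun n : ℕ => Real.log n) atTop atTop :=
      Real.tendsto_log_atTop.comp tendsto_natCast_atTop_atTop
    have hbig : ∀ᶠ n : ℕ in atTop, 2 ≤ ε / 2 * (n / Real.log n) := by
      have h3 : Tendsto (fun x : ℝ => Real.log x / x) atTop (𝓝 0) :=
        Real.isLittleO_log_id_atTop.tendsto_div_nhds_zero
      have h4 := (h3.comp tendsto_natCast_atTop_atTop).eventually_le_const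
        (by positivity : 0 < ε / 4)
      filter_upwards [h4, hlog.eventually_ge_atTop 1, eventually_ge_atTop 1] with n hn hl hn1
      simp only [Function.comp] at hn
      have h5 : (0 : ℝ) < n := by exact_mod_cast hn1
      rw [div_le_iff₀ h5] at hn
      rw [← mul_div_assoc, le_div_iff₀ (by linarith)]
      linarith
    obtain ⟨n₁, hn₁⟩ := eventually_atTop.1 ((F_square hZ hR (half_pos hε)).and hbig)
    refine ⟨max n₁ (max m₀ 1), fun n hn => ?_⟩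
    have hn1 : 1 ≤ n := (le_max_right _ _).trans ((le_max_right _ _).trans hn)
    have hn2 : m₀ ≤ n := (le_max_left _ _).trans ((le_max_right _ _).trans hn)
    obtain ⟨⟨g1, g2⟩, g3⟩ := hn₁ n ((le_max_left _ _).trans hn)
    obtain ⟨-, -, h2⟩ := hm₀ (2 * n) (by omega)
    obtain ⟨-, -, h4⟩ := hm₀ (2 * n - 1) (by omega)
    obtain ⟨e1, e2⟩ := hodd n hn1
    rw [e2, e1, qs_even] at h4
    rw [qs_even, qs_odd] at h2
    constructor
    · intro h
      have h5 := h4 fun h6 => h ((hS' n hn1).1 h6)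
      have h7 := abs_sub_le (cntO p ((n : ℝ) ^ 2 - n) ((n : ℝ) ^ 2) : ℝ)
        (Fp (fZ Z) x₀ ((n : ℝ) ^ 2) - Fp (fZ Z) x₀ ((n : ℝ) ^ 2 - n)) (n / (2 * Real.log n))
      unfold cntO at h7 ⊢
      linarith
    · intro h
      have h5 := h2 fun h6 => h (even_mem_cmb.1 h6)
      have h7 := abs_sub_le (cntO p ((n : ℝ) ^ 2) ((n : ℝ) ^ 2 + n) : ℝ)
        (Fp (fZ Z) x₀ ((n : ℝ) ^ 2 + n) - Fp (fZ Z) x₀ ((n : ℝ) ^ 2)) (n / (2 * Real.log n))
      unfold cntO at h7 ⊢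
      linarith

/-- The sets of intervals with fewer than `k` primes are sparse. -/
theorem opp_few {Z : Multiset ℂ} (hZ : ∀ ρ ∈ Z, ρ.re < 1) (hZc : Z.map conj = Z)
    {p : ℕ → ℝ} (hS : SysW Z p) (k : ℕ) :
    Sps {n : ℕ | cntO p ((n : ℝ) ^ 2 - n) ((n : ℝ) ^ 2) < k} ∧
      Sps {n : ℕ | cntO p ((n : ℝ) ^ 2) ((n : ℝ) ^ 2 + n) < k} := by
  have h := few_count hZ hZc hS qs_brk k
  constructor
  · refine h.of_map (n₀ := 1) (A := 2) (f := fun n => 2 * n - 1) ?_ ?_ ?_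
    · intro n hn hn1
      obtain ⟨j, rfl⟩ : ∃ j, n = j + 1 := ⟨n - 1, by omega⟩
      have e : 2 * (j + 1) - 1 = 2 * j + 1 := by omega
      rw [e]
      simp only [mem_ofPred_eq] at hn ⊢
      rw [show 2 * j + 1 + 1 = 2 * (j + 1) by ring, qs_odd, qs_even]
      unfold cntO at hn
      have e2 : ((j + 1 : ℕ) : ℝ) ^ 2 - ((j + 1 : ℕ) : ℝ) = (j : ℝ) ^ 2 + j := by
        push_cast; ring
      rw [e2] at hn
      exact hn
    · intro n; omega
    · intro m n _ _ hm hn hmn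
      omega
  · refine h.of_map (n₀ := 0) (A := 2) (f := fun n => 2 * n) ?_ ?_ ?_
    · intro n hn _
      simp only [mem_ofPred_eq] at hn ⊢
      rw [qs_odd, qs_even]
      exact hn
    · intro n; omega
    · intro m n _ _ _ _ hmn
      omega

end Pool.Agent.H521.G
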