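import Pool.Agent.H521.G.Opp2

open MeasureTheory Set Filter Topology
open scoped ComplexConjugate Classical

namespace Pool.Agent.H521.G

/-- Diagonal choice for a family of sparse, eventually increasing sets. -/
theorem family {A : ℕ → Set ℕ} (h1 : ∀ k, 1 ≤ k → Sps (A k))
    (h2 : ∀ k, 1 ≤ k → (A k \ A (k + 1)).Finite) :
    ∃ S : Set ℕ, ∃ a : ℕ → ℕ, Sps S ∧ (∀ n, a n ≤ n) ∧ ∀ k, 1 ≤ k → ∃ n₀ : ℕ, ∀ n, n₀ ≤ n →
      (n ∈ A k → n ∈ S) ∧ (n ∈ S → (a n < k ↔ n ∈ A k)) := by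
  -- thresholds
  have hT : ∀ j : ℕ, ∃ t : ℕ, (j = 0 → t = 0) ∧ (1 ≤ j → 2 ^ j ≤ t ∧
      (∀ n, t ≤ n → ∀ i, 1 ≤ i → i < j → n ∈ A i → n ∈ A (i + 1)) ∧
      ∀ N : ℕ, t ≤ N → ((Set.ncard {n | n ∈ A j ∧ n ≤ N} : ℕ) : ℝ) ≤ (N : ℝ) ^ (1 / (j : ℝ))) := by
    intro j
    rcases Nat.eq_zero_or_pos j with h0 | h0
    · exact ⟨0, fun _ => rfl, fun h => by omega⟩
    · have hj : (0 : ℝ) < j := by exact_mod_cast h0
      obtain ⟨C, hC⟩ := h1 j h0 (1 / (2 * j)) (by positivity)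
      have hfin : (⋃ i ∈ Finset.Ico 1 j, (A i \ A (i + 1))).Finite := by
        apply Set.Finite.biUnion (Finset.finite_toSet _)
        intro i hi
        exact h2 i (Finset.mem_Ico.1 (Finset.mem_coe.1 hi)).1
      obtain ⟨t1, ht1⟩ := hfin.bddAbove
      obtain ⟨t2, ht2⟩ := eventually_atTop.1 (((tendsto_rpow_atTop
        (by positivity : 0 < 1 / (2 * (j : ℝ)))).comp
          tendsto_natCast_atTop_atTop).eventually_ge_atTop C)
      refine ⟨max (2 ^ j) (max (t1 + 1) (max t2 1)), fun h => by omega, fun _ => ⟨le_max_left _ _,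
        fun n hn i hi1 hi2 hni => ?_, fun N hN => ?_⟩⟩
      · by_contra hc
        have hmem : n ∈ ⋃ i ∈ Finset.Ico 1 j, (A i \ A (i + 1)) := by
          simp only [mem_iUnion]
          exact ⟨i, Finset.mem_Ico.2 ⟨hi1, hi2⟩, hni, hc⟩
        have h3 := ht1 hmem
        have h4 : t1 + 1 ≤ n := ((le_max_left _ _).trans (le_max_right _ _)).trans hn
        omega
      · have hN2 : t2 ≤ N := ((le_max_left _ _).trans ((le_max_right _ _).trans
          (le_max_right _ _))).trans hN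
        have hN1 : 1 ≤ N := ((le_max_right _ _).trans ((le_max_right _ _).trans
          (le_max_right _ _))).trans hN
        have h3 := hC N hN1
        have h4 := ht2 N hN2
        simp only [Function.comp] at h4
        have hN0 : (0 : ℝ) < N := by exact_mod_cast hN1
        have e : (N : ℝ) ^ (1 / (j : ℝ)) = (N : ℝ) ^ (1 / (2 * (j : ℝ))) *
            (N : ℝ) ^ (1 / (2 * (j : ℝ))) := by
          rw [← Real.rpow_add hN0]
          congr 1
          field_simp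
          norm_num
        rw [e]
        have h5 : 0 ≤ (N : ℝ) ^ (1 / (2 * (j : ℝ))) := by positivity
        exact h3.trans (mul_le_mul_of_nonneg_right h4 h5)
  choose t ht0 ht using hT
  set M : ℕ → ℕ := fun j => (Finset.range (j + 1)).sup t + j with hM
  have hMt : ∀ i j, i ≤ j → t i ≤ M j := by
    intro i j hij
    have : t i ≤ (Finset.range (j + 1)).sup t := Finset.le_sup (Finset.mem_range.2 (by omega))
    rw [hM]
    simp only
    omega
  have hM0 : M 0 = 0 := by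
    rw [hM]
    simp [ht0 0 rfl]
  have hMj : ∀ j, j ≤ M j := fun j => by rw [hM]; simp only; omega
  set κ : ℕ → ℕ := fun n => Nat.findGreatest (fun j => M j ≤ n) n with hκ
  have hκ1 : ∀ n, M (κ n) ≤ n := fun n =>
    Nat.findGreatest_spec (P := fun j => M j ≤ n) (Nat.zero_le n) (by rw [hM0]; exact Nat.zero_le n)
  have hκ2 : ∀ k n, M k ≤ n → k ≤ κ n := fun k n h =>
    Nat.le_findGreatest ((hMj k).trans h) h
  have hκ3 : ∀ n, κ n ≤ n := fun n => (hMj (κ n)).trans (hκ1 n)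
  -- monotonicity up to κ n
  have hmono : ∀ n i j, 1 ≤ i → i ≤ j → j ≤ κ n → n ∈ A i → n ∈ A j := by
    intro n i j hi hij
    induction j, hij using Nat.le_induction with
    | base => intro _ h; exact h
    | succ j hij ih =>
      intro hj h
      have h3 := ih (by omega) h
      have h4 := (ht (κ n) (by omega)).2.1 n ((hMt _ _ le_rfl).trans (hκ1 n)) j (by omega)
        (by omega) h3
      exact h4
  set S : Set ℕ := {n | 1 ≤ κ n ∧ n ∈ A (κ n)} with hS
  set a : ℕ → ℕ := fun n => if h : ∃ i, i < κ n ∧ n ∈ A (i + 1) then Nat.find h else 0 with ha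
  refine ⟨S, a, ?_, ?_, ?_⟩
  · intro ε hε
    obtain ⟨J, hJ⟩ := exists_nat_gt (2 / ε)
    have hJ0 : (0 : ℝ) < J := lt_trans (by positivity) hJ
    have hJ1 : 1 ≤ J := by
      have : 0 < J := by exact_mod_cast hJ0
      omega
    have hJε : 1 / (J : ℝ) ≤ ε / 2 := by
      rw [div_lt_iff₀ hε] at hJ
      rw [div_le_iff₀ hJ0]
      linarith
    refine ⟨M J + 4 / ε, fun N hN => ?_⟩
    have hN1 : (1 : ℝ) ≤ N := by exact_mod_cast hN
    have hsub : (fin_le S N).toFinset ⊆ Finset.range (M J) ∪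
        (Finset.Icc J (κ N)).biUnion fun j => (fin_le (A j) N).toFinset := by
      intro n hn
      rw [Set.Finite.mem_toFinset] at hn
      obtain ⟨⟨h3, h4⟩, h5⟩ := hn
      rw [Finset.mem_union, Finset.mem_range, Finset.mem_biUnion]
      rcases Nat.lt_or_ge n (M J) with h | h
      · left; exact h
      · right
        refine ⟨κ n, Finset.mem_Icc.2 ⟨hκ2 J n h, hκ2 (κ n) N ((hκ1 n).trans h5)⟩, ?_⟩
        rw [Set.Finite.mem_toFinset]
        exact ⟨h4, h5⟩
    have h3 := (Finset.card_le_card hsub).trans ((Finset.card_union_le _ _).trans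
      (Nat.add_le_add_left Finset.card_biUnion_le _))
    rw [Finset.card_range] at h3
    have h4 : ∀ j ∈ Finset.Icc J (κ N), (((fin_le (A j) N).toFinset.card : ℕ) : ℝ) ≤
        (N : ℝ) ^ (ε / 2) := by
      intro j hj
      rw [Finset.mem_Icc] at hj
      have h5 := (ht j (hJ1.trans hj.1)).2.2 N (((hMt j (κ N) hj.2)).trans (hκ1 N))
      rw [Set.ncard_eq_toFinset_card _ (fin_le (A j) N)] at h5
      refine h5.trans ?_
      apply Real.rpow_le_rpow_of_exponent_le hN1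
      have h6 : 1 / (j : ℝ) ≤ 1 / J := by
        apply one_div_le_one_div_of_le hJ0
        exact_mod_cast hj.1
      linarith
    have h5 : ((∑ j ∈ Finset.Icc J (κ N), (fin_le (A j) N).toFinset.card : ℕ) : ℝ) ≤
        κ N * (N : ℝ) ^ (ε / 2) := by
      push_cast
      refine (Finset.sum_le_sum h4).trans ?_
      rw [Finset.sum_const, nsmul_eq_mul, Nat.card_Icc]
      apply mul_le_mul_of_nonneg_right _ (by positivity)
      exact_mod_cast (by omega : κ N + 1 - J ≤ κ N)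
    have h6 : (κ N : ℝ) ≤ 4 / ε * (N : ℝ) ^ (ε / 2) := by
      rcases Nat.eq_zero_or_pos (κ N) with h0 | h0
      · rw [h0]; simp only [Nat.cast_zero]; positivity
      · have h7 : 2 ^ (κ N) ≤ N := ((ht (κ N) h0).1.trans (hMt _ _ le_rfl)).trans (hκ1 N)
        have h8 : ((2 : ℝ)) ^ (κ N) ≤ N := by exact_mod_cast h7
        have h9 := Real.log_le_log (by positivity) h8
        rw [Real.log_pow] at h9
        have h10 := Real.log_le_rpow_div (by linarith : (0 : ℝ) ≤ N) (half_pos hε)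
        have h11 : (1 / 2 : ℝ) < Real.log 2 := by
          have := Real.log_two_gt_d9
          linarith
        have h12 : (0 : ℝ) ≤ κ N := Nat.cast_nonneg _
        have e : (N : ℝ) ^ (ε / 2) / (ε / 2) = 2 / ε * (N : ℝ) ^ (ε / 2) := by
          field_simp
        rw [e] at h10
        have e2 : 4 / ε * (N : ℝ) ^ (ε / 2) = 2 * (2 / ε * (N : ℝ) ^ (ε / 2)) := by ring
        rw [e2]
        nlinarith
    have h7 : (N : ℝ) ^ ε = (N : ℝ) ^ (ε / 2) * (N : ℝ) ^ (ε / 2) := by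
      rw [← Real.rpow_add (by linarith)]
      congr 1
      ring
    have h8 : 1 ≤ (N : ℝ) ^ ε := Real.one_le_rpow hN1 hε.le
    have h9 : (((fin_le S N).toFinset.card : ℕ) : ℝ) ≤ M J +
        ((∑ j ∈ Finset.Icc J (κ N), (fin_le (A j) N).toFinset.card : ℕ) : ℝ) := by
      exact_mod_cast h3
    rw [Set.ncard_eq_toFinset_card _ (fin_le S N)]
    have h10 : (κ N : ℝ) * (N : ℝ) ^ (ε / 2) ≤ 4 / ε * (N : ℝ) ^ (ε / 2) * (N : ℝ) ^ (ε / 2) :=
      mul_le_mul_of_nonneg_right h6 (by positivity)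
    have h11 : (M J : ℝ) ≤ M J * (N : ℝ) ^ ε := le_mul_of_one_le_right (Nat.cast_nonneg _) h8
    calc _ ≤ _ := h9
      _ ≤ M J * (N : ℝ) ^ ε + 4 / ε * (N : ℝ) ^ (ε / 2) * (N : ℝ) ^ (ε / 2) := by linarith
      _ = _ := by rw [h7]; ring
  · intro n
    rw [ha]
    simp only
    split_ifs with h
    · exact ((Nat.find_spec h).1.le).trans (hκ3 n)
    · exact Nat.zero_le n
  · intro k hk
    refine ⟨M k, fun n hn => ?_⟩
    have hkκ := hκ2 k n hn
    refine ⟨fun h => ⟨hk.trans hkκ, hmono n k (κ n) hk hkκ le_rfl h⟩, fun h => ?_⟩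
    have hex : ∃ i, i < κ n ∧ n ∈ A (i + 1) := by
      refine ⟨κ n - 1, by have := h.1; omega, ?_⟩
      have e : κ n - 1 + 1 = κ n := by have := h.1; omega
      rw [e]
      exact h.2
    have e : a n = Nat.find hex := by
      rw [ha]
      simp only
      rw [dif_pos hex]
    rw [e]
    constructor
    · intro h3
      exact hmono n (Nat.find hex + 1) k (by omega) (by omega) hkκ (Nat.find_spec hex).2
    · intro h3
      have h4 : Nat.find hex ≤ k - 1 := by
        apply Nat.find_min' hex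
        refine ⟨by omega, ?_⟩
        have e : k - 1 + 1 = k := by omega
        rw [e]
        exact h3
      omega

/-- number of points in a closed interval -/
noncomputable def cntC (p : ℕ → ℝ) (x y : ℝ) : ℕ := Set.ncard {k : ℕ | x ≤ p k ∧ p k ≤ y}

theorem cntC_eq {p : ℕ → ℝ} {x y : ℝ} (hx : ∀ k, p k ≠ x) (hy : ∀ k, p k ≠ y) :
    cntC p x y = cntO p x y := by
  unfold cntC cntO
  congr 1
  ext k
  simp only [mem_ofPred_eq]
  exact ⟨fun h => ⟨lt_of_le_of_ne h.1 (hx k).symm, lt_of_le_of_ne h.2 (hy k)⟩,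
    fun h => ⟨h.1.le, h.2.le⟩⟩

theorem cntO_le_cntC {p : ℕ → ℝ} (hp : Tendsto p atTop atTop) (x y : ℝ) :
    cntO p x y ≤ cntC p x y := by
  unfold cntC cntO
  exact Set.ncard_le_ncard (fun k hk => ⟨hk.1.le, hk.2.le⟩)
    ((finite_le hp y).subset fun k hk => hk.2)

/-- **The k-fold Oppermann problem.** -/
theorem oppk_exists {Z : Multiset ℂ} (hZ : ∀ ρ ∈ Z, ρ.re < 1) (hZc : Z.map conj = Z)
    {S T : ℕ → Set ℕ} (hS : ∀ k, 1 ≤ k → Sps (S k)) (hS' : ∀ k, 1 ≤ k → (S k \ S (k + 1)).Finite)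
    (hT : ∀ k, 1 ≤ k → Sps (T k)) (hT' : ∀ k, 1 ≤ k → (T k \ T (k + 1)).Finite) :
    ∃ p : ℕ → ℝ, Sys Z p ∧ ∀ k, 1 ≤ k → ∃ n₀ : ℕ, ∀ n, n₀ ≤ n →
      (cntC p ((n : ℝ) ^ 2 - n) ((n : ℝ) ^ 2) < k ↔ n ∈ S k) ∧
      (cntC p ((n : ℝ) ^ 2) ((n : ℝ) ^ 2 + n) < k ↔ n ∈ T k) := by
  obtain ⟨S', a, s1, s2, s3⟩ := family hS hS'
  obtain ⟨T', b, t1, t2, t3⟩ := family hT hT'
  have hlin : ∀ {c : ℕ → ℕ} {U : Set ℕ}, (∀ n, c n ≤ n) → ∀ ε : ℝ, 0 < ε → ∃ D : ℝ,
      ∀ n ∈ U, 1 ≤ n → (c n : ℝ) ≤ D * (n : ℝ) ^ (1 + ε) := by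
    intro c U hc ε hε
    refine ⟨1, fun n _ hn => ?_⟩
    have hn1 : (1 : ℝ) ≤ n := by exact_mod_cast hn
    have h1 : (c n : ℝ) ≤ n := by exact_mod_cast hc n
    have h2 : (n : ℝ) ^ (1 : ℝ) ≤ (n : ℝ) ^ (1 + ε) :=
      Real.rpow_le_rpow_of_exponent_le hn1 (by linarith)
    rw [Real.rpow_one] at h2
    linarith
  obtain ⟨p, hs, ⟨n₀, h1⟩, h2⟩ := opp_exists hZ hZc (S := S') (T := T') s1 t1 (a := a) (b := b)
    (hlin s2) (hlin t2)
  refine ⟨p, hs, fun k hk => ?_⟩
  obtain ⟨n₁, hn₁⟩ := s3 k hk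
  obtain ⟨n₂, hn₂⟩ := t3 k hk
  obtain ⟨n₃, hn₃⟩ := h2 (1 / 4) (by norm_num)
  have hbig : ∀ᶠ n : ℕ in atTop, (k : ℝ) ≤ 1 / 4 * (n / Real.log n) := by
    have h3 : Tendsto (fun x : ℝ => Real.log x / x) atTop (𝓝 0) :=
      Real.isLittleO_log_id_atTop.tendsto_div_nhds_zero
    have hk0 : (0 : ℝ) < k := by exact_mod_cast hk
    have h4 := (h3.comp tendsto_natCast_atTop_atTop).eventually_le_const
      (by positivity : 0 < 1 / (4 * (k : ℝ)))
    have hlog : Tendsto (fun n : ℕ => Real.log n) atTop atTop :=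
      Real.tendsto_log_atTop.comp tendsto_natCast_atTop_atTop
    filter_upwards [h4, hlog.eventually_ge_atTop 1, eventually_ge_atTop 1] with n hn hl hn1
    simp only [Function.comp] at hn
    have h5 : (0 : ℝ) < n := by exact_mod_cast hn1
    rw [div_le_iff₀ h5, one_div_mul_eq_div, le_div_iff₀ (by positivity)] at hn
    rw [← mul_div_assoc, le_div_iff₀ (by linarith)]
    linarith
  obtain ⟨n₄, hn₄⟩ := eventually_atTop.1 hbig
  refine ⟨max n₀ (max n₁ (max n₂ (max n₃ n₄))), fun n hn => ?_⟩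
  have m0 : n₀ ≤ n := (le_max_left _ _).trans hn
  have m1 : n₁ ≤ n := ((le_max_left _ _).trans (le_max_right _ _)).trans hn
  have m2 : n₂ ≤ n := ((le_max_left _ _).trans ((le_max_right _ _).trans
    (le_max_right _ _))).trans hn
  have m3 : n₃ ≤ n := ((le_max_left _ _).trans ((le_max_right _ _).trans
    ((le_max_right _ _).trans (le_max_right _ _)))).trans hn
  have m4 : n₄ ≤ n := ((le_max_right _ _).trans ((le_max_right _ _).trans
    ((le_max_right _ _).trans (le_max_right _ _)))).trans hn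
  obtain ⟨e1, e2, e3, g1, g2⟩ := h1 n m0
  rw [cntC_eq e2 e1, cntC_eq e1 e3]
  have hb := hn₄ n m4
  have e : (n : ℝ) / (2 * Real.log n) = 1 / 2 * (n / Real.log n) := by
    rw [mul_comm 2 (Real.log (n : ℝ)), ← div_div]
    ring
  obtain ⟨f1, f2⟩ := hn₃ n m3
  rw [e] at f1 f2
  constructor
  · by_cases h : n ∈ S'
    · rw [g1 h]
      exact (hn₁ n m1).2 h
    · have h3 : n ∉ S k := fun h4 => h ((hn₁ n m1).1 h4)
      have h5 := (abs_le.1 (f1 h)).1
      have h6 : (k : ℝ) ≤ cntO p ((n : ℝ) ^ 2 - n) ((n : ℝ) ^ 2) := by linarith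
      have h7 : k ≤ cntO p ((n : ℝ) ^ 2 - n) ((n : ℝ) ^ 2) := by exact_mod_cast h6
      constructor
      · intro h8; omega
      · intro h8; exact absurd h8 h3
  · by_cases h : n ∈ T'
    · rw [g2 h]
      exact (hn₂ n m2).2 h
    · have h3 : n ∉ T k := fun h4 => h ((hn₂ n m2).1 h4)
      have h5 := (abs_le.1 (f2 h)).1
      have h6 : (k : ℝ) ≤ cntO p ((n : ℝ) ^ 2) ((n : ℝ) ^ 2 + n) := by linarith
      have h7 : k ≤ cntO p ((n : ℝ) ^ 2) ((n : ℝ) ^ 2 + n) := by exact_mod_cast h6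
      constructor
      · intro h8; omega
      · intro h8; exact absurd h8 h3

end Pool.Agent.H521.G
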