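import Pool.Agent.H521.G.PatSys

open MeasureTheory Set Filter Topology
open scoped ENNReal NNReal ComplexConjugate

namespace Pool.Agent.H521.G

namespace Pat

variable {f : ℝ → ℝ} {x₀ : ℝ} (P : Pat f x₀)

/-- the total length of the windows -/
noncomputable def S (j : ℕ) : ℝ := P.Y j - KK P.n j

theorem S_zero : P.S 0 = 0 := by simp [S, P.Y0, KK_zero]

theorem S_succ (j : ℕ) : P.S (j + 1) = P.S j + P.w j := by
  unfold S
  rw [P.Ysn, KK_succ]
  push_cast
  ring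

theorem S_mono : Monotone P.S := monotone_nat_of_le_succ fun j => by
  rw [P.S_succ]; linarith [P.w0 j]

theorem S_nonneg (j : ℕ) : 0 ≤ P.S j := by
  rw [← P.S_zero]; exact P.S_mono (Nat.zero_le j)

theorem yk_ge (θ : ℕ → ℝ) (k : ℕ) : (k : ℝ) - P.m (blk P.n k) ≤ P.yk θ k := by
  unfold yk ypos
  set j := blk P.n k with hj
  have h1 := (abs_le.1 (P.Γ_sub_le j (pos P.n k))).1
  have h2 := tri_nonneg (P.χ j * θ j + rep (P.χ (j + 1) * θ (j + 1) - P.χ j * θ j) *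
    (pos P.n k / P.n j))
  have h3 : (0 : ℝ) ≤ P.m j := Nat.cast_nonneg _
  have h4 : (k : ℝ) = KK P.n j + pos P.n k := by exact_mod_cast (KK_add_pos P.n_pos k).symm
  have h5 := P.S_nonneg j
  unfold S at h5
  have := mul_nonneg h3 h2
  linarith

theorem yk_le (θ : ℕ → ℝ) (k : ℕ) :
    P.yk θ k ≤ (k : ℝ) + P.S (blk P.n k) + 2 * P.m (blk P.n k) := by
  unfold yk ypos
  set j := blk P.n k with hj
  have h1 := (abs_le.1 (P.Γ_sub_le j (pos P.n k))).2
  have h2 := tri_le_one (P.χ j * θ j + rep (P.χ (j + 1) * θ (j + 1) - P.χ j * θ j) *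
    (pos P.n k / P.n j))
  have h3 : (0 : ℝ) ≤ P.m j := Nat.cast_nonneg _
  have h4 : (k : ℝ) = KK P.n j + pos P.n k := by exact_mod_cast (KK_add_pos P.n_pos k).symm
  unfold S
  have := mul_le_mul_of_nonneg_left h2 h3
  linarith

variable (hR : RDens f x₀)
include hR

theorem pk_ge (θ : ℕ → ℝ) (k : ℕ) : phi f x₀ (P.Y (blk P.n k)) ≤ P.pk θ k :=
  hR.phi_mono (P.Y_le_yk θ k)

theorem pk_ge3 (θ : ℕ → ℝ) (k : ℕ) : 3 ≤ P.pk θ k := hR.phi_three_le _

theorem pk_strictMono (hgap : ∀ j l, 1 / (P.q j : ℝ) < P.Γ j (l + 1) - P.Γ j l) (θ : ℕ → ℝ) :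
    StrictMono (P.pk θ) := fun _ _ h => hR.phi_lt (P.yk_nonneg θ _) (P.yk_strictMono hgap θ h)

theorem phiY_tendsto : Tendsto (fun j => phi f x₀ (P.Y j)) atTop atTop :=
  hR.phi_tendsto.comp P.Y_tendsto

theorem pk_tendsto (θ : ℕ → ℝ) : Tendsto (P.pk θ) atTop atTop :=
  tendsto_atTop_mono (P.pk_ge hR θ) ((P.phiY_tendsto hR).comp (blk_tendsto P.n_pos))

theorem summable_pk (θ : ℕ → ℝ) {τ : ℝ} (hτ : 1 < τ) : Summable fun k => P.pk θ k ^ (-τ) := by
  have h2 := P.hB (τ / 2) (by linarith)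
  apply summable_of_sum_range_le
    (c := ∑' j, (((P.m j * P.q j : ℕ) : ℝ) * phi f x₀ (P.Y j) ^ (-(τ / 2))) ^ 2)
  · intro k
    exact Real.rpow_nonneg (by linarith [P.pk_ge3 hR θ k]) _
  · intro n
    have hnn : ∀ k, 0 ≤ P.pk θ k ^ (-τ) := fun k =>
      Real.rpow_nonneg (by linarith [P.pk_ge3 hR θ k]) _
    calc ∑ k ∈ Finset.range n, P.pk θ k ^ (-τ)
        ≤ ∑ k ∈ Finset.range (KK P.n n), P.pk θ k ^ (-τ) := by
          apply Finset.sum_le_sum_of_subset_of_nonneg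
          · exact Finset.range_mono (KK_ge P.n_pos n)
          · intro k _ _
            exact hnn k
      _ = ∑ j ∈ Finset.range n, ∑ l ∈ Finset.range (P.n j), P.pk θ (KK P.n j + l) ^ (-τ) :=
          sum_blocks _ _ _
      _ ≤ ∑ j ∈ Finset.range n,
          (((P.m j * P.q j : ℕ) : ℝ) * phi f x₀ (P.Y j) ^ (-(τ / 2))) ^ 2 := by
          apply Finset.sum_le_sum
          intro j _
          have hn1 : (1 : ℝ) ≤ P.n j := by exact_mod_cast P.n_pos j
          have hph := hR.phi_one_le (P.Y j)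
          have h3 : ∀ l ∈ Finset.range (P.n j), P.pk θ (KK P.n j + l) ^ (-τ) ≤
              phi f x₀ (P.Y j) ^ (-τ) := by
            intro l hl
            have h4 := P.pk_ge hR θ (KK P.n j + l)
            rw [blk_eq P.n_pos (Finset.mem_range.1 hl)] at h4
            exact Real.rpow_le_rpow_of_nonpos (by linarith) h4 (by linarith)
          refine (Finset.sum_le_sum h3).trans ?_
          rw [Finset.sum_const, Finset.card_range, nsmul_eq_mul]
          change _ ≤ ((P.n j : ℝ) * phi f x₀ (P.Y j) ^ (-(τ / 2))) ^ 2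
          rw [mul_pow, ← Real.rpow_natCast (phi f x₀ (P.Y j) ^ (-(τ / 2))) 2,
            ← Real.rpow_mul (by linarith)]
          have e : -(τ / 2) * ((2 : ℕ) : ℝ) = -τ := by push_cast; ring
          rw [e]
          apply mul_le_mul_of_nonneg_right _ (Real.rpow_nonneg (by linarith) _)
          nlinarith
      _ ≤ _ := h2.sum_le_tsum _ fun j _ => sq_nonneg _

theorem T_eq (θ : ℕ → ℝ) (j : ℕ) (s : ℂ) : (P.ch hR).T j (θ j) (θ (j + 1)) s =
    ∑ l ∈ Finset.range (P.n j), ((P.pk θ (KK P.n j + l) : ℝ) : ℂ) ^ (-s) := by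
  unfold Chain.T
  apply Finset.sum_congr rfl
  intro l hl
  unfold pk
  rw [P.yk_block θ (Finset.mem_range.1 hl)]
  rfl

theorem tsum_pk (θ : ℕ → ℝ) {s : ℂ} (hs : 1 < s.re) {L : ℂ}
    (hL : Tendsto (fun J => ∑ j ∈ Finset.range J, (P.ch hR).T j (θ j) (θ (j + 1)) s) atTop
        (𝓝 L)) : ∑' k, ((P.pk θ k : ℝ) : ℂ) ^ (-s) = L := by
  have hsum : Summable fun k => ((P.pk θ k : ℝ) : ℂ) ^ (-s) := by
    refine Summable.of_norm_bounded (P.summable_pk hR θ hs) (fun k => ?_)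
    rw [norm_ofReal_cpow_neg (by linarith [P.pk_ge3 hR θ k])]
  have hK : Tendsto (KK P.n) atTop atTop := tendsto_atTop_mono (KK_ge P.n_pos) tendsto_id
  have h1 := hsum.hasSum.tendsto_sum_nat.comp hK
  refine tendsto_nhds_unique h1 (hL.congr fun J => ?_)
  simp only [Function.comp]
  rw [sum_blocks]
  apply Finset.sum_congr rfl
  intro j _
  exact P.T_eq hR θ j s

/-- counting -/
theorem count (hgap : ∀ j l, 1 / (P.q j : ℝ) < P.Γ j (l + 1) - P.Γ j l) (θ : ℕ → ℝ) {σ C : ℝ}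
    (hσ : 0 ≤ σ) (hC0 : 0 ≤ C)
    (hC : ∀ j, P.S (j + 1) + 2 * P.n j + 2 * P.n (j + 1) ≤ C * phi f x₀ (P.Y j) ^ σ)
    {x : ℝ} (hx : x₀ ≤ x) :
    |(countPr (P.pk θ) x : ℝ) - ∫ u in x₀..x, f u| ≤ (C + 1) * x ^ σ := by
  have hmono := P.pk_strictMono hR hgap θ
  have hx1 : 1 ≤ x := by linarith [hR.dens.hx₀]
  have hxσ : 1 ≤ x ^ σ := Real.one_le_rpow hx1 hσ
  change |(countPr (P.pk θ) x : ℝ) - Fp f x₀ x| ≤ _
  set y := Fp f x₀ x with hy
  have hy0 : 0 ≤ y := by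
    have := hR.F_mono le_rfl hx
    rwa [hR.F_zero] at this
  have hφy : phi f x₀ y = x := hR.phi_F hx
  rcases lt_or_ge x (P.pk θ 0) with h0 | h0
  · have hc : countPr (P.pk θ) x = 0 := by
      unfold countPr
      have : {j : ℕ | P.pk θ j ≤ x} = ∅ := by
        ext j
        simp only [mem_ofPred_eq, mem_empty_iff_false, iff_false, not_le]
        exact lt_of_lt_of_le h0 (hmono.monotone (Nat.zero_le j))
      rw [this]; simp
    have hyk : y < P.yk θ 0 := by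
      by_contra hcc
      push Not at hcc
      have := hR.phi_mono hcc
      rw [hφy] at this
      unfold pk at h0
      linarith
    have hb0 : blk P.n 0 = 0 := by
      have := blk_eq P.n_pos (j := 0) (l := 0) (P.n_pos 0)
      rwa [KK_zero, add_zero] at this
    have h1 := P.yk_le θ 0
    rw [hb0, P.S_zero] at h1
    have hm : (P.m 0 : ℝ) ≤ P.n 0 := by exact_mod_cast P.m_le_n 0
    have h2 := hC 0
    have h3 := P.S_nonneg (0 + 1)
    have h4 : (0 : ℝ) ≤ P.n (0 + 1) := Nat.cast_nonneg _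
    have h5 : phi f x₀ (P.Y 0) ^ σ ≤ x ^ σ := by
      rw [P.Y0, hR.phi_zero]
      exact Real.rpow_le_rpow (by linarith [hR.dens.hx₀]) hx hσ
    have h6 := mul_le_mul_of_nonneg_left h5 hC0
    rw [hc]
    simp only [Nat.cast_zero, zero_sub, abs_neg, abs_of_nonneg hy0]
    push_cast at h1
    nlinarith
  · obtain ⟨k, hk1, hk2⟩ : ∃ k, P.pk θ k ≤ x ∧ x < P.pk θ (k + 1) := by
      have hex : ∃ k, x < P.pk θ k := ((P.pk_tendsto hR θ).eventually_gt_atTop x).exists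
      classical
      refine ⟨Nat.find hex - 1, ?_, ?_⟩
      · have hpos : Nat.find hex ≠ 0 := by
          intro h
          have := Nat.find_spec hex
          rw [h] at this
          linarith
        exact not_lt.1 (Nat.find_min hex (by omega))
      · have hpos : Nat.find hex ≠ 0 := by
          intro h
          have := Nat.find_spec hex
          rw [h] at this
          linarith
        have e : Nat.find hex - 1 + 1 = Nat.find hex := by omega
        rw [e]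
        exact Nat.find_spec hex
    have hc := countPr_eq hmono hk1 hk2
    have hyk1 : P.yk θ k ≤ y := by
      by_contra hcc
      push Not at hcc
      have := hR.phi_lt hy0 hcc
      rw [hφy] at this
      unfold pk at hk1
      linarith
    have hyk2 : y < P.yk θ (k + 1) := by
      by_contra hcc
      push Not at hcc
      have := hR.phi_mono hcc
      rw [hφy] at this
      unfold pk at hk2
      linarith
    set j := blk P.n k with hj
    have h1 := P.yk_ge θ k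
    have h2 := P.yk_le θ (k + 1)
    rw [← hj] at h1
    have h3 : P.S (blk P.n (k + 1)) + 2 * P.m (blk P.n (k + 1)) ≤
        P.S (j + 1) + 2 * P.n j + 2 * P.n (j + 1) := by
      have a1 : (P.m j : ℝ) ≤ P.n j := by exact_mod_cast P.m_le_n j
      have a2 : (P.m (j + 1) : ℝ) ≤ P.n (j + 1) := by exact_mod_cast P.m_le_n (j + 1)
      have a3 : (0 : ℝ) ≤ P.n (j + 1) := Nat.cast_nonneg _
      have a4 : (0 : ℝ) ≤ P.n j := Nat.cast_nonneg _
      rcases blk_succ P.n_pos k with ⟨-, g2, -⟩ | ⟨-, g2, -⟩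
      · rw [g2]
        have := P.S_mono (Nat.le_succ j)
        change P.S j ≤ P.S (j + 1) at this
        linarith
      · rw [g2]
        change P.S (j + 1) + 2 * P.m (j + 1) ≤ _
        linarith
    have h4 := hC j
    have h5 : phi f x₀ (P.Y j) ^ σ ≤ x ^ σ :=
      Real.rpow_le_rpow (hR.phi_pos _).le ((P.pk_ge hR θ k).trans hk1) hσ
    have h6 := mul_le_mul_of_nonneg_left h5 hC0
    have h7 : (P.m j : ℝ) ≤ P.S (j + 1) + 2 * P.n j + 2 * P.n (j + 1) := by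
      have a1 : (P.m j : ℝ) ≤ P.n j := by exact_mod_cast P.m_le_n j
      have a3 : (0 : ℝ) ≤ P.n (j + 1) := Nat.cast_nonneg _
      have a4 : (0 : ℝ) ≤ P.n j := Nat.cast_nonneg _
      have := P.S_nonneg (j + 1)
      linarith
    rw [hc, abs_le]
    push_cast at h2 ⊢
    constructor <;> nlinarith

end Pat

/-- **The pattern theorem**: systems with a slowly moving pattern. -/
theorem pattern_system {Z : Multiset ℂ} (hZ : ∀ ρ ∈ Z, ρ.re < 1) (hZc : Z.map conj = Z)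
    {x₀ : ℝ} (hR : RDens (fZ Z) x₀) (P : Pat (fZ Z) x₀)
    (hgap : ∀ j l, 1 / (P.q j : ℝ) < P.Γ j (l + 1) - P.Γ j l)
    (hS : ∀ σ : ℝ, 1 / 2 < σ → ∃ C : ℝ, 0 ≤ C ∧ ∀ j,
      P.S (j + 1) + 2 * P.n j + 2 * P.n (j + 1) ≤ C * phi (fZ Z) x₀ (P.Y j) ^ σ) :
    ∃ θ : ℕ → ℝ,
      (∃ g : ℂ → ℂ, DifferentiableOn ℂ g {s : ℂ | 1 / 2 < s.re} ∧
        (∀ s : ℂ, 1 < s.re → (s - 1) * zetaB (P.pk θ) s = (Z.map fun ρ => s - ρ).prod *
          Complex.exp (g s)) ∧
        ∀ ε : ℝ, 0 < ε → ∃ C : ℝ, ∀ s : ℂ, 1 / 2 + ε ≤ s.re →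
          ‖(Z.map fun ρ => s - ρ).prod * Complex.exp (g s)‖ ≤ C * (1 + ‖s‖) ^ (1 + ε)) ∧
      (∃ κ : ℝ, 0 < κ ∧ ∀ ε : ℝ, 0 < ε → ∃ C : ℝ, ∀ x : ℝ, 1 ≤ x →
        |(countInt (P.pk θ) x : ℝ) - κ * x| ≤ C * x ^ (1 / 2 + ε)) ∧
      (∀ ε : ℝ, 0 < ε → ∃ C : ℝ, ∀ x : ℝ, 2 ≤ x →
        |(countPr (P.pk θ) x : ℝ) - mainTerm Z x| ≤ C * x ^ (1 / 2 + ε)) ∧
      (∀ s : ℂ, 1 < s.re → Summable fun e : ℕ →₀ ℕ => ((gint (P.pk θ) e : ℝ) : ℂ) ^ (-s)) := by
  have hint : ∀ s : ℂ, 1 < s.re →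
      IntegrableOn (fun u : ℝ => (fZ Z u : ℂ) * (u : ℂ) ^ (-s)) (Ioi x₀) := fun s hs =>
    (int_fZ hZ hZc hs).1.mono_set (Ioi_subset_Ioi (by linarith [hR.dens.hx₀]))
  obtain ⟨θ, R, hRd, hRb, hRt⟩ := P.pat_sum hR hint
  obtain ⟨c1, c2, c3⟩ := core hZ hZc hR.dens.hx₀ (p := P.pk θ) (P.pk_ge3 hR θ)
    (fun τ hτ => P.summable_pk hR θ hτ) hRd
    (fun s hs => P.tsum_pk hR θ hs (hRt s hs)) hRb
  refine ⟨θ, c1, c2, fun ε hε => ?_, c3⟩
  obtain ⟨C, hC0, hC⟩ := hS (1 / 2 + ε) (by linarith)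
  exact pi_of_count hZ hR.dens (p := P.pk θ) (fun k => hR.phi_ge _) hε
    (by positivity : 0 ≤ C + 1) (fun x hx => P.count hR hgap θ (by positivity) hC0 hC hx)

end Pool.Agent.H521.G
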