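import Pool.Agent.H521.G.Pattern
import Pool.Agent.H521.GapBound

open MeasureTheory Set Filter Topology
open scoped ENNReal NNReal ComplexConjugate

namespace Pool.Agent.H521.G

/-- From counting against the density to the prime number theorem. -/
theorem pi_of_count {Z : Multiset ℂ} (hZ : ∀ ρ ∈ Z, ρ.re < 1) {x₀ : ℝ} (hD : Dens (fZ Z) x₀)
    {ι : Type*} {p : ι → ℝ} (hp : ∀ j, x₀ ≤ p j)
    {ε W : ℝ} (hε : 0 < ε) (hW0 : 0 ≤ W)
    (hc : ∀ x, x₀ ≤ x → |(Set.ncard {j | p j ≤ x} : ℝ) - ∫ u in x₀..x, fZ Z u| ≤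
      W * x ^ (1 / 2 + ε)) :
    ∃ C : ℝ, ∀ x : ℝ, 2 ≤ x → |(Set.ncard {j | p j ≤ x} : ℝ) - mainTerm Z x| ≤
      C * x ^ (1 / 2 + ε) := by
  have hx3 := hD.hx₀
  obtain ⟨M, hM⟩ := (isCompact_Icc (a := (2 : ℝ)) (b := x₀)).exists_bound_of_continuousOn
    ((continuousOn_main Z).mono fun u hu => (by linarith [hu.1] : (1 : ℝ) < u))
  have hM0 : 0 ≤ M := (norm_nonneg _).trans (hM 2 ⟨le_rfl, by linarith⟩)
  have hMint : ∀ y, 2 ≤ y → y ≤ x₀ → |mainTerm Z y| ≤ M * x₀ := by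
    intro y hy1 hy2
    unfold mainTerm
    have := intervalIntegral.norm_integral_le_of_norm_le_const (a := 2) (b := y)
      (f := fun u => (1 - osc Z u) / Real.log u) (C := M) (by
        intro u hu
        rw [uIoc_of_le hy1] at hu
        exact hM u ⟨hu.1.le, hu.2.trans hy2⟩)
    rw [Real.norm_eq_abs, abs_of_nonneg (by linarith : 0 ≤ y - 2)] at this
    refine this.trans ?_
    apply mul_le_mul_of_nonneg_left _ hM0
    linarith
  set K : ℝ := (1 + (Multiset.card Z : ℝ)) with hK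
  have hK0 : 0 ≤ K := by positivity
  refine ⟨W + 2 * K + M * x₀, fun x hx => ?_⟩
  have hxp : 1 ≤ x ^ (1 / 2 + ε) := Real.one_le_rpow (by linarith) (by positivity)
  have hMx0 : 0 ≤ M * x₀ := by positivity
  rcases le_or_gt x₀ x with hc' | hc'
  · have h1 := hc x hc'
    have h2 := abs_main_diff_le hZ hx3 hc'
    have h3 : mainTerm Z x = mainTerm Z x₀ + ∫ u in x₀..x, (1 - osc Z u) / Real.log u := by
      unfold mainTerm
      exact (intervalIntegral.integral_add_adjacent_intervals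
        (main_ii Z (by norm_num) (by linarith)) (main_ii Z (by linarith) hc')).symm
    have h4 := hMint x₀ (by linarith) le_rfl
    have h5 : Real.log x ≤ 2 * x ^ (1 / 2 + ε) := by
      have h6 := Real.log_le_rpow_div (by linarith : 0 ≤ x) (by norm_num : (0 : ℝ) < 1 / 2)
      have h7 : x ^ (1 / 2 : ℝ) ≤ x ^ (1 / 2 + ε) :=
        Real.rpow_le_rpow_of_exponent_le (by linarith) (by linarith)
      linarith
    have h8 : K * Real.log x ≤ K * (2 * x ^ (1 / 2 + ε)) := mul_le_mul_of_nonneg_left h5 hK0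
    have h9 : |(Set.ncard {j | p j ≤ x} : ℝ) - mainTerm Z x| ≤ W * x ^ (1 / 2 + ε) +
        K * Real.log x + M * x₀ := by
      rw [h3]
      have e1 : (Set.ncard {j | p j ≤ x} : ℝ) -
          (mainTerm Z x₀ + ∫ u in x₀..x, (1 - osc Z u) / Real.log u) =
        ((Set.ncard {j | p j ≤ x} : ℝ) - ∫ u in x₀..x, fZ Z u) -
        ((∫ u in x₀..x, (1 - osc Z u) / Real.log u) - ∫ u in x₀..x, fZ Z u) -
        mainTerm Z x₀ := by ring
      rw [e1]
      have h10 := abs_sub ((((Set.ncard {j | p j ≤ x} : ℝ) - ∫ u in x₀..x, fZ Z u)) -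
        ((∫ u in x₀..x, (1 - osc Z u) / Real.log u) - ∫ u in x₀..x, fZ Z u)) (mainTerm Z x₀)
      have h11 := abs_sub (((Set.ncard {j | p j ≤ x} : ℝ) - ∫ u in x₀..x, fZ Z u))
        ((∫ u in x₀..x, (1 - osc Z u) / Real.log u) - ∫ u in x₀..x, fZ Z u)
      linarith
    have h12 : M * x₀ * 1 ≤ M * x₀ * x ^ (1 / 2 + ε) := mul_le_mul_of_nonneg_left hxp hMx0
    nlinarith
  · have h1 : Set.ncard {j | p j ≤ x} = 0 := by
      have : {j | p j ≤ x} = ∅ := by
        ext j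
        simp only [mem_ofPred_eq, mem_empty_iff_false, iff_false, not_le]
        linarith [hp j]
      rw [this]; simp
    rw [h1]
    have h2 := hMint x hx hc'.le
    have h12 : M * x₀ * 1 ≤ M * x₀ * x ^ (1 / 2 + ε) := mul_le_mul_of_nonneg_left hxp hMx0
    simp only [Nat.cast_zero, zero_sub, abs_neg]
    have : 0 ≤ (W + 2 * K) * x ^ (1 / 2 + ε) := by positivity
    nlinarith

/-! ### Blocks of natural numbers -/

/-- The first index of block `j`. -/
def KK (n : ℕ → ℕ) (j : ℕ) : ℕ := ∑ i ∈ Finset.range j, n i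

theorem KK_succ (n : ℕ → ℕ) (j : ℕ) : KK n (j + 1) = KK n j + n j := Finset.sum_range_succ _ _

theorem KK_zero (n : ℕ → ℕ) : KK n 0 = 0 := rfl

theorem KK_mono (n : ℕ → ℕ) : Monotone (KK n) :=
  monotone_nat_of_le_succ fun j => by rw [KK_succ]; omega

theorem KK_ge {n : ℕ → ℕ} (hn : ∀ j, 0 < n j) (j : ℕ) : j ≤ KK n j := by
  induction j with
  | zero => simp
  | succ j ih => rw [KK_succ]; have := hn j; omega

theorem exists_blk {n : ℕ → ℕ} (hn : ∀ j, 0 < n j) (k : ℕ) : ∃ j, k < KK n (j + 1) :=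
  ⟨k, by have := KK_ge hn (k + 1); omega⟩

/-- The block of an index. -/
noncomputable def blk (n : ℕ → ℕ) (k : ℕ) : ℕ := by
  classical
  exact if h : ∃ j, k < KK n (j + 1) then Nat.find h else 0

theorem blk_lt {n : ℕ → ℕ} (hn : ∀ j, 0 < n j) (k : ℕ) : k < KK n (blk n k + 1) := by
  classical
  have h := exists_blk hn k
  unfold blk
  rw [dif_pos h]
  exact Nat.find_spec h

theorem le_blk {n : ℕ → ℕ} (hn : ∀ j, 0 < n j) (k : ℕ) : KK n (blk n k) ≤ k := by
  classical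
  have h := exists_blk hn k
  unfold blk
  rw [dif_pos h]
  rcases Nat.eq_zero_or_pos (Nat.find h) with h0 | h0
  · rw [h0, KK_zero]; exact Nat.zero_le _
  · have := Nat.find_min h (Nat.sub_lt h0 one_pos)
    have e : Nat.find h - 1 + 1 = Nat.find h := by omega
    rw [e] at this
    omega

theorem blk_eq {n : ℕ → ℕ} (hn : ∀ j, 0 < n j) {j l : ℕ} (hl : l < n j) :
    blk n (KK n j + l) = j := by
  have h1 := blk_lt hn (KK n j + l)
  have h2 := le_blk hn (KK n j + l)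
  by_contra hne
  rcases lt_or_gt_of_ne hne with h | h
  · have := KK_mono n (by omega : blk n (KK n j + l) + 1 ≤ j)
    omega
  · have := KK_mono n (by omega : j + 1 ≤ blk n (KK n j + l))
    rw [KK_succ] at this
    omega

/-- The position in the block. -/
noncomputable def pos (n : ℕ → ℕ) (k : ℕ) : ℕ := k - KK n (blk n k)

theorem pos_eq {n : ℕ → ℕ} (hn : ∀ j, 0 < n j) {j l : ℕ} (hl : l < n j) :
    pos n (KK n j + l) = l := by
  unfold pos
  rw [blk_eq hn hl]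
  omega

theorem pos_lt {n : ℕ → ℕ} (hn : ∀ j, 0 < n j) (k : ℕ) : pos n k < n (blk n k) := by
  unfold pos
  have h1 := blk_lt hn k
  have h2 := le_blk hn k
  rw [KK_succ] at h1
  omega

theorem KK_add_pos {n : ℕ → ℕ} (hn : ∀ j, 0 < n j) (k : ℕ) : KK n (blk n k) + pos n k = k := by
  unfold pos
  have h2 := le_blk hn k
  omega

theorem blk_tendsto {n : ℕ → ℕ} (hn : ∀ j, 0 < n j) : Tendsto (blk n) atTop atTop := by
  rw [tendsto_atTop_atTop]
  intro j
  refine ⟨KK n j, fun k hk => ?_⟩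
  by_contra hc
  push Not at hc
  have h1 := blk_lt hn k
  have h2 := KK_mono n (by omega : blk n k + 1 ≤ j)
  omega

theorem sum_blocks {E : Type*} [AddCommMonoid E] (n : ℕ → ℕ) (F : ℕ → E) (J : ℕ) :
    ∑ k ∈ Finset.range (KK n J), F k =
      ∑ j ∈ Finset.range J, ∑ l ∈ Finset.range (n j), F (KK n j + l) := by
  induction J with
  | zero => simp [KK_zero]
  | succ J ih => rw [KK_succ, Finset.sum_range_add, ih, Finset.sum_range_succ]

theorem blk_succ {n : ℕ → ℕ} (hn : ∀ j, 0 < n j) (k : ℕ) :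
    (pos n k + 1 < n (blk n k) ∧ blk n (k + 1) = blk n k ∧ pos n (k + 1) = pos n k + 1) ∨
    (pos n k + 1 = n (blk n k) ∧ blk n (k + 1) = blk n k + 1 ∧ pos n (k + 1) = 0) := by
  have h1 := pos_lt hn k
  have h2 := KK_add_pos hn k
  rcases lt_or_eq_of_le (Nat.succ_le_of_lt h1) with h | h
  · left
    have e : k + 1 = KK n (blk n k) + (pos n k + 1) := by omega
    refine ⟨h, ?_, ?_⟩
    · rw [e]; exact blk_eq hn h
    · rw [e]
      exact pos_eq hn h
  · right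
    have e : k + 1 = KK n (blk n k + 1) + 0 := by rw [KK_succ]; omega
    refine ⟨h, ?_, ?_⟩
    · rw [e]; exact blk_eq hn (hn _)
    · rw [e]; exact pos_eq hn (hn _)

namespace Pat

variable {f : ℝ → ℝ} {x₀ : ℝ} (P : Pat f x₀)

/-- the `y`-coordinates of the points. -/
noncomputable def yk (θ : ℕ → ℝ) (k : ℕ) : ℝ :=
  P.ypos (blk P.n k) (pos P.n k) (θ (blk P.n k)) (θ (blk P.n k + 1))

/-- the points. -/
noncomputable def pk (θ : ℕ → ℝ) (k : ℕ) : ℝ := phi f x₀ (P.yk θ k)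

theorem yk_block (θ : ℕ → ℝ) {j l : ℕ} (hl : l < P.n j) :
    P.yk θ (KK P.n j + l) = P.ypos j l (θ j) (θ (j + 1)) := by
  unfold yk
  rw [blk_eq P.n_pos hl, pos_eq P.n_pos hl]

theorem Y_le_yk (θ : ℕ → ℝ) (k : ℕ) : P.Y (blk P.n k) ≤ P.yk θ k := P.ypos_ge _ _ _ _

theorem yk_nonneg (θ : ℕ → ℝ) (k : ℕ) : 0 ≤ P.yk θ k := (P.Y_nonneg _).trans (P.Y_le_yk θ k)

theorem ypos_zero (j : ℕ) (θ θ' : ℝ) : P.ypos j 0 θ θ' = P.Y j + P.m j * tri (P.χ j * θ) := by
  unfold ypos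
  rw [P.Γ0]
  simp

theorem ypos_end (j : ℕ) (θ θ' : ℝ) :
    P.ypos j (P.n j) θ θ' = P.Y j + P.n j + P.m j * tri (P.χ (j + 1) * θ') := by
  unfold ypos
  have h : (P.n j : ℝ) ≠ 0 := by exact_mod_cast (P.n_pos j).ne'
  rw [P.Γ_n, div_self h, mul_one, tri_add_rep]

theorem ypos_next (j : ℕ) (θ θ' θ'' : ℝ) :
    P.ypos (j + 1) 0 θ' θ'' = P.ypos j (P.n j) θ θ' + P.w j := by
  rw [P.ypos_zero, P.ypos_end, P.Ysn]
  rcases P.χ01 (j + 1) with h | h
  · rw [h, zero_mul, tri_zero]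
    ring
  · obtain ⟨e1, e2, e3⟩ := P.reg j h
    rw [h, e1, e3]
    ring

theorem ypos_step (j l : ℕ) (θ θ' : ℝ) :
    |P.ypos j (l + 1) θ θ' - P.ypos j l θ θ' - (P.Γ j (l + 1) - P.Γ j l)| ≤ 1 / P.q j := by
  unfold ypos
  set α := P.χ j * θ
  set δ := rep (P.χ (j + 1) * θ' - P.χ j * θ) with hδ
  have hn : (0 : ℝ) < P.n j := by exact_mod_cast P.n_pos j
  have hm : (0 : ℝ) < P.m j := by exact_mod_cast P.m1 j
  have hq : (0 : ℝ) < P.q j := by exact_mod_cast P.q1 j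
  have e1 : P.Y j + P.Γ j (l + 1) + P.m j * tri (α + δ * ((l + 1 : ℕ) / P.n j)) -
      (P.Y j + P.Γ j l + P.m j * tri (α + δ * (l / P.n j))) - (P.Γ j (l + 1) - P.Γ j l) =
      P.m j * (tri (α + δ * ((l + 1 : ℕ) / P.n j)) - tri (α + δ * (l / P.n j))) := by ring
  rw [e1, abs_mul, abs_of_pos hm]
  have h1 := tri_lip (α + δ * ((l + 1 : ℕ) / P.n j)) (α + δ * (l / P.n j))
  have h2 : α + δ * ((l + 1 : ℕ) / P.n j) - (α + δ * (l / P.n j)) = δ * (1 / P.n j) := by
    push_cast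
    ring
  rw [h2, abs_mul, abs_of_pos (by positivity : (0 : ℝ) < 1 / P.n j)] at h1
  have h3 : |δ| ≤ 1 := abs_rep_le _
  have h4 : |δ| * (1 / (P.n j : ℝ)) ≤ 1 / P.n j := by
    have : (0 : ℝ) ≤ 1 / P.n j := by positivity
    nlinarith
  calc (P.m j : ℝ) * _ ≤ P.m j * (1 / P.n j) := mul_le_mul_of_nonneg_left (h1.trans h4) hm.le
    _ = 1 / P.q j := by
      have : (P.n j : ℝ) = P.m j * P.q j := by
        have : P.n j = P.m j * P.q j := rfl
        rw [this]; push_cast; ring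
      rw [this]
      field_simp

/-- the gap at `k` of the pattern -/
noncomputable def gp (k : ℕ) : ℝ :=
  P.Γ (blk P.n k) (pos P.n k + 1) - P.Γ (blk P.n k) (pos P.n k)

/-- the window at `k` -/
noncomputable def wk (k : ℕ) : ℝ := if pos P.n k + 1 = P.n (blk P.n k) then P.w (blk P.n k) else 0

theorem yk_step (θ : ℕ → ℝ) (k : ℕ) :
    |P.yk θ (k + 1) - P.yk θ k - (P.gp k + P.wk k)| ≤ 1 / P.q (blk P.n k) := by
  have h := P.ypos_step (blk P.n k) (pos P.n k) (θ (blk P.n k)) (θ (blk P.n k + 1))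
  rcases blk_succ P.n_pos k with ⟨h1, h2, h3⟩ | ⟨h1, h2, h3⟩
  · unfold yk gp wk
    rw [h2, h3, if_neg (by omega)]
    simpa using h
  · unfold yk gp wk
    rw [h2, h3, if_pos h1, P.ypos_next (blk P.n k) (θ (blk P.n k))]
    rw [h1] at h
    rw [h1]
    convert h using 2
    ring

theorem yk_strictMono (hgap : ∀ j l, 1 / (P.q j : ℝ) < P.Γ j (l + 1) - P.Γ j l) (θ : ℕ → ℝ) :
    StrictMono (P.yk θ) := by
  apply strictMono_nat_of_lt_succ
  intro k
  have h1 := (abs_le.1 (P.yk_step θ k)).1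
  have h2 := hgap (blk P.n k) (pos P.n k)
  have h3 : 0 ≤ P.wk k := by
    unfold wk
    split_ifs
    · exact P.w0 _
    · exact le_rfl
  unfold gp at h1
  linarith

theorem Γ_sub_le (j l : ℕ) : |P.Γ j l - l| ≤ P.m j := by
  have hm := P.m1 j
  have h1 := P.Γ_add_mul j (l % P.m j) (l / P.m j)
  rw [Nat.mod_add_div] at h1
  have h2 : (l : ℝ) = ((l % P.m j : ℕ) : ℝ) + (P.m j * (l / P.m j) : ℕ) := by
    exact_mod_cast (Nat.mod_add_div l (P.m j)).symm
  have h3 : P.Γ j l - l = P.Γ j (l % P.m j) - (l % P.m j : ℕ) := by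
    rw [h1]
    linarith
  rw [h3]
  have hlt : l % P.m j < P.m j := Nat.mod_lt _ hm
  have h4 := P.Γ_nonneg j (l % P.m j)
  have h5 := P.Γ_le_m j (l % P.m j) hlt
  have h6 : ((l % P.m j : ℕ) : ℝ) ≤ P.m j := by exact_mod_cast hlt.le
  have h7 : (0 : ℝ) ≤ ((l % P.m j : ℕ) : ℝ) := Nat.cast_nonneg _
  rw [abs_le]
  constructor <;> linarith

end Pat

end Pool.Agent.H521.G
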