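import Pool.Agent.H521.G.Chain
import Pool.Agent.H521.G.Core

open MeasureTheory Set Filter Topology
open scoped ENNReal NNReal ComplexConjugate

namespace Pool.Agent.H521.G

/-- `y ↦ φ(y)^{-s}`. -/
noncomputable def Ph (f : ℝ → ℝ) (x₀ : ℝ) (s : ℂ) (y : ℝ) : ℂ := ((phi f x₀ y : ℝ) : ℂ) ^ (-s)

/-- The primitive of `Ph`. -/
noncomputable def Ip (f : ℝ → ℝ) (x₀ : ℝ) (s : ℂ) (y : ℝ) : ℂ := ∫ t in (0 : ℝ)..y, Ph f x₀ s t

namespace RDens

variable {f : ℝ → ℝ} {x₀ : ℝ} (hR : RDens f x₀)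
include hR

theorem phi_one_le (y : ℝ) : 1 ≤ phi f x₀ y := by linarith [hR.phi_ge y, hR.dens.hx₀]

theorem phi_three_le (y : ℝ) : 3 ≤ phi f x₀ y := by linarith [hR.phi_ge y, hR.dens.hx₀]

theorem phi_pos (y : ℝ) : 0 < phi f x₀ y := by linarith [hR.phi_one_le y]

theorem measurable_Ph (s : ℂ) : Measurable (Ph f x₀ s) :=
  (measurable_cpow_neg s).comp hR.phi_measurable

theorem norm_Ph_le {Y y : ℝ} (hy : Y ≤ y) {s : ℂ} (hs : 0 ≤ s.re) :
    ‖Ph f x₀ s y‖ ≤ phi f x₀ Y ^ (-s.re) :=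
  norm_q_le (hR.phi_one_le Y) (hR.phi_mono hy) hs

theorem norm_Ph_le_one (y : ℝ) {s : ℂ} (hs : 0 ≤ s.re) : ‖Ph f x₀ s y‖ ≤ 1 := by
  refine (hR.norm_Ph_le le_rfl hs).trans ?_
  exact Real.rpow_le_one_of_one_le_of_nonpos (hR.phi_one_le y) (by linarith)

theorem Ph_ii (a b : ℝ) {s : ℂ} (hs : 0 ≤ s.re) : IntervalIntegrable (Ph f x₀ s) volume a b := by
  rw [intervalIntegrable_iff]
  exact Measure.integrableOn_of_bounded (by simp) (hR.measurable_Ph s).aestronglyMeasurable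
    (M := 1) (Filter.Eventually.of_forall fun y => hR.norm_Ph_le_one y hs)

theorem Ip_sub (a b : ℝ) {s : ℂ} (hs : 0 ≤ s.re) :
    Ip f x₀ s b - Ip f x₀ s a = ∫ t in a..b, Ph f x₀ s t := by
  unfold Ip
  rw [sub_eq_iff_eq_add, add_comm]
  exact (intervalIntegral.integral_add_adjacent_intervals (hR.Ph_ii 0 a hs)
    (hR.Ph_ii a b hs)).symm

theorem norm_Ip_sub_le {Y a b : ℝ} (ha : Y ≤ a) (hb : Y ≤ b) {s : ℂ} (hs : 0 ≤ s.re) :
    ‖Ip f x₀ s b - Ip f x₀ s a‖ ≤ phi f x₀ Y ^ (-s.re) * |b - a| := by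
  rw [hR.Ip_sub a b hs]
  apply intervalIntegral.norm_integral_le_of_norm_le_const
  intro t ht
  apply hR.norm_Ph_le _ hs
  rw [uIoc, mem_Ioc] at ht
  exact (le_min ha hb).trans ht.1.le

theorem Ip_eq {y : ℝ} (hy : 0 ≤ y) (s : ℂ) :
    Ip f x₀ s y = ∫ u in x₀..phi f x₀ y, (f u : ℂ) * (u : ℂ) ^ (-s) := by
  have := hR.phi_cv le_rfl hy s
  rw [hR.phi_zero] at this
  exact this

theorem diff_Ip {y : ℝ} (hy : 0 ≤ y) : Differentiable ℂ fun s => Ip f x₀ s y := by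
  have h : (fun s => Ip f x₀ s y) = fun s =>
      ∫ u in x₀..phi f x₀ y, (f u : ℂ) * (u : ℂ) ^ (-s) := by
    ext s
    exact hR.Ip_eq hy s
  rw [h]
  apply differentiable_integral_cpow (M := 1) (by linarith [hR.dens.hx₀]) (hR.phi_ge y)
  · exact (Complex.measurable_ofReal.comp hR.dens.meas).aestronglyMeasurable
  · intro u hu
    rw [Complex.norm_real, Real.norm_eq_abs, abs_of_nonneg (hR.dens.nonneg u hu.1.le)]
    exact hR.dens.le_one u hu.1.le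

theorem int01 (c : ℝ) {m : ℝ} (hm : 0 < m) {s : ℂ} (hs : 0 ≤ s.re) :
    ∫ v in (0 : ℝ)..1, Ph f x₀ s (c + m * v) = (Ip f x₀ s (c + m) - Ip f x₀ s c) / m := by
  rw [hR.Ip_sub c (c + m) hs, intervalIntegral.integral_comp_add_mul _ hm.ne']
  simp only [mul_zero, add_zero, mul_one]
  rw [Complex.real_smul]
  push_cast
  rw [div_eq_inv_mul]

theorem phi_tendsto : Tendsto (phi f x₀) atTop atTop := by
  apply tendsto_atTop_mono' atTop _ tendsto_id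
  filter_upwards [eventually_ge_atTop 0] with y hy
  have := hR.phi_sub_ge le_rfl hy
  rw [hR.phi_zero] at this
  simp only [id]
  linarith [hR.dens.hx₀]

theorem phi_ge_add {y : ℝ} (hy : 0 ≤ y) : x₀ + y ≤ phi f x₀ y := by
  have := hR.phi_sub_ge le_rfl hy
  rw [hR.phi_zero] at this
  linarith

theorem Ip_tendsto {s : ℂ} (hint : IntegrableOn (fun u : ℝ => (f u : ℂ) * (u : ℂ) ^ (-s)) (Ioi x₀)) :
    Tendsto (Ip f x₀ s) atTop (𝓝 (∫ u in Ioi x₀, (f u : ℂ) * (u : ℂ) ^ (-s))) := by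
  have h1 := (intervalIntegral_tendsto_integral_Ioi x₀ hint hR.phi_tendsto)
  refine h1.congr' ?_
  filter_upwards [eventually_ge_atTop 0] with y hy
  exact (hR.Ip_eq hy s).symm

end RDens

theorem sum_shift {E : Type*} [AddCommGroup E] (g : ℕ → E) (n m : ℕ) :
    ∑ l ∈ Finset.range n, (g (l + m) - g l) = ∑ l ∈ Finset.range m, (g (n + l) - g l) := by
  have h1 : ∑ l ∈ Finset.range (n + m), g l =
      ∑ l ∈ Finset.range n, g l + ∑ l ∈ Finset.range m, g (n + l) := Finset.sum_range_add _ _ _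
  have h2 : ∑ l ∈ Finset.range (m + n), g l =
      ∑ l ∈ Finset.range m, g l + ∑ l ∈ Finset.range n, g (m + l) := Finset.sum_range_add _ _ _
  rw [Finset.sum_sub_distrib, Finset.sum_sub_distrib]
  rw [add_comm m n] at h2
  have h3 : ∑ l ∈ Finset.range n, g (l + m) = ∑ l ∈ Finset.range n, g (m + l) :=
    Finset.sum_congr rfl fun l _ => by rw [add_comm]
  rw [h3, sub_eq_sub_iff_add_eq_add]
  rw [h1] at h2
  rw [add_comm, ← h2, add_comm]

/-- Data of a slowly moving pattern. -/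
structure Pat (f : ℝ → ℝ) (x₀ : ℝ) where
  m : ℕ → ℕ
  Γ : ℕ → ℕ → ℝ
  q : ℕ → ℕ
  w : ℕ → ℝ
  Y : ℕ → ℝ
  χ : ℕ → ℝ
  m1 : ∀ j, 1 ≤ m j
  Γ0 : ∀ j, Γ j 0 = 0
  Γmono : ∀ j, StrictMono (Γ j)
  Γper : ∀ j l, Γ j (l + m j) = Γ j l + m j
  q1 : ∀ j, 1 ≤ q j
  w0 : ∀ j, 0 ≤ w j
  Y0 : Y 0 = 0
  Ys : ∀ j, Y (j + 1) = Y j + (m j * q j : ℕ) + w j
  χ01 : ∀ j, χ j = 0 ∨ χ j = 1
  reg : ∀ j, χ (j + 1) = 1 → m (j + 1) = m j ∧ Γ (j + 1) = Γ j ∧ w j = 0
  hB : ∀ σ : ℝ, 1 / 2 < σ → Summable fun j => (((m j * q j : ℕ) : ℝ) * phi f x₀ (Y j) ^ (-σ)) ^ 2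
  hD : ∀ σ : ℝ, 1 / 2 < σ → Summable fun j => ((m j * q j : ℕ) : ℝ) *
    ((phi f x₀ (Y j + 2 * (m j * q j : ℕ)) - phi f x₀ (Y j)) * phi f x₀ (Y j) ^ (-σ - 1))
  hE : ∀ σ : ℝ, 1 / 2 < σ → Summable fun j => if χ j = 1 ∧ χ (j + 1) = 1 then 0 else
    (2 * ((m j * q j : ℕ) : ℝ) + w j + ((m (j + 1) * q (j + 1) : ℕ) : ℝ)) *
      phi f x₀ (Y j) ^ (-σ)

namespace Pat

variable {f : ℝ → ℝ} {x₀ : ℝ} (P : Pat f x₀)

/-- the length of the block -/
def n (j : ℕ) : ℕ := P.m j * P.q j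

/-- The position of the points. -/
noncomputable def ypos (j l : ℕ) (θ θ' : ℝ) : ℝ :=
  P.Y j + P.Γ j l + P.m j * tri (P.χ j * θ + rep (P.χ (j + 1) * θ' - P.χ j * θ) * (l / P.n j))

theorem n_pos (j : ℕ) : 0 < P.n j := Nat.mul_pos (P.m1 j) (P.q1 j)

theorem m_le_n (j : ℕ) : P.m j ≤ P.n j := Nat.le_mul_of_pos_right _ (P.q1 j)

theorem Γ_add_mul (j l k : ℕ) : P.Γ j (l + P.m j * k) = P.Γ j l + (P.m j * k : ℕ) := by
  induction k with
  | zero => simp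
  | succ k ih =>
    rw [Nat.mul_succ, ← add_assoc, P.Γper, ih]
    push_cast
    ring

theorem Γ_add_n (j l : ℕ) : P.Γ j (P.n j + l) = P.Γ j l + P.n j := by
  rw [add_comm]
  exact P.Γ_add_mul j l (P.q j)

theorem Γ_n (j : ℕ) : P.Γ j (P.n j) = P.n j := by
  have := P.Γ_add_n j 0
  rw [add_zero, P.Γ0, zero_add] at this
  exact this

theorem Γ_nonneg (j l : ℕ) : 0 ≤ P.Γ j l := by
  rw [← P.Γ0 j]
  exact (P.Γmono j).monotone (Nat.zero_le l)

theorem Γ_le_n (j l : ℕ) (hl : l < P.n j) : P.Γ j l ≤ P.n j := by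
  rw [← P.Γ_n j]
  exact (P.Γmono j).monotone hl.le

theorem Γ_m (j : ℕ) : P.Γ j (P.m j) = P.m j := by
  have := P.Γper j 0
  rw [zero_add, P.Γ0, zero_add] at this
  exact this

theorem Γ_le_m (j l : ℕ) (hl : l < P.m j) : P.Γ j l ≤ P.m j := by
  rw [← P.Γ_m j]
  exact (P.Γmono j).monotone hl.le

theorem Ysn (j : ℕ) : P.Y (j + 1) = P.Y j + P.n j + P.w j := P.Ys j

theorem Y_mono : Monotone P.Y := monotone_nat_of_le_succ fun j => by
  rw [P.Ysn]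
  have := P.w0 j
  have : (0 : ℝ) ≤ P.n j := Nat.cast_nonneg _
  linarith

theorem Y_ge (j : ℕ) : (j : ℝ) ≤ P.Y j := by
  induction j with
  | zero => simp [P.Y0]
  | succ j ih =>
    rw [P.Ysn]
    have h1 := P.w0 j
    have h2 : (1 : ℝ) ≤ P.n j := by exact_mod_cast P.n_pos j
    push_cast
    linarith

theorem Y_nonneg (j : ℕ) : 0 ≤ P.Y j := (Nat.cast_nonneg j).trans (P.Y_ge j)

theorem ypos_ge (j l : ℕ) (θ θ' : ℝ) : P.Y j ≤ P.ypos j l θ θ' := by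
  unfold ypos
  have h1 := P.Γ_nonneg j l
  have h2 := tri_nonneg (P.χ j * θ + rep (P.χ (j + 1) * θ' - P.χ j * θ) * (l / P.n j))
  have h3 : (0 : ℝ) ≤ P.m j := Nat.cast_nonneg _
  have := mul_nonneg h3 h2
  linarith

theorem ypos_le (j l : ℕ) (hl : l < P.n j) (θ θ' : ℝ) :
    P.ypos j l θ θ' ≤ P.Y j + 2 * P.n j := by
  unfold ypos
  have h1 := P.Γ_le_n j l hl
  have h2 := tri_le_one (P.χ j * θ + rep (P.χ (j + 1) * θ' - P.χ j * θ) * (l / P.n j))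
  have h3 : (0 : ℝ) ≤ P.m j := Nat.cast_nonneg _
  have h4 : (P.m j : ℝ) ≤ P.n j := by exact_mod_cast P.m_le_n j
  have := mul_le_mul_of_nonneg_left h2 h3
  linarith

theorem measurable_ypos (j l : ℕ) : Measurable (Function.uncurry (P.ypos j l)) := by
  unfold ypos Function.uncurry
  apply Measurable.const_add
  apply Measurable.const_mul
  apply measurable_tri.comp
  apply (measurable_fst.const_mul _).add
  apply Measurable.mul_const
  exact measurable_rep.comp ((measurable_snd.const_mul _).sub (measurable_fst.const_mul _))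

/-- The chain of the pattern. -/
noncomputable def ch (hR : RDens f x₀) : Chain where
  n := P.n
  q j l θ θ' := phi f x₀ (P.ypos j l θ θ')
  a j := phi f x₀ (P.Y j)
  b j := phi f x₀ (P.Y j + 2 * P.n j)
  a1 j := hR.phi_one_le _
  meas j l := hR.phi_measurable.comp (P.measurable_ypos j l)
  mem j l θ θ' hl := ⟨hR.phi_mono (P.ypos_ge j l θ θ'), hR.phi_mono (P.ypos_le j l hl θ θ')⟩
  hB := P.hB
  hD := P.hD

/-- boundary functions -/
noncomputable def β (j : ℕ) (s : ℂ) : ℂ :=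
  (∑ l ∈ Finset.range (P.m j), Ip f x₀ s (P.Y j + P.Γ j l)) / P.m j

variable (hR : RDens f x₀)
include hR

theorem C_reg {j : ℕ} (h0 : P.χ j = 1) (h1 : P.χ (j + 1) = 1) {s : ℂ} (hs : 0 ≤ s.re) :
    (P.ch hR).C j s = P.β (j + 1) s - P.β j s := by
  obtain ⟨e1, e2, e3⟩ := P.reg j h1
  have hm : (0 : ℝ) < P.m j := by exact_mod_cast P.m1 j
  rw [(P.ch hR).C_eq]
  have h2 : ∀ l, ∫ θ, ∫ θ', ((P.ch hR).q j l θ θ' : ℂ) ^ (-s) ∂muU ∂muU =
      (Ip f x₀ s (P.Y j + P.Γ j (l + P.m j)) - Ip f x₀ s (P.Y j + P.Γ j l)) / P.m j := by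
    intro l
    have h3 := exact_phase (K := fun v => Ph f x₀ s (P.Y j + P.Γ j l + P.m j * v)) (C := 1)
      ((hR.measurable_Ph s).comp ((measurable_id.const_mul _).const_add _))
      (fun v _ => hR.norm_Ph_le_one _ hs) (l / P.n j)
    rw [hR.int01 _ hm hs] at h3
    rw [P.Γper, ← add_assoc]
    push_cast at h3
    rw [← h3]
    unfold ch
    simp only [ypos, h0, h1, one_mul]
    rfl
  simp_rw [h2]
  rw [← Finset.sum_div]
  change (∑ l ∈ Finset.range (P.n j), _) / _ = _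
  rw [sum_shift (fun l => Ip f x₀ s (P.Y j + P.Γ j l)) (P.n j) (P.m j)]
  unfold β
  rw [e1, e2, ← sub_div, ← Finset.sum_sub_distrib]
  congr 1
  apply Finset.sum_congr rfl
  intro l _
  rw [P.Γ_add_n, P.Ysn, e3]
  congr 2
  ring

/-- the error terms -/
noncomputable def e (j : ℕ) (s : ℂ) : ℂ := (P.ch hR).C j s - (P.β (j + 1) s - P.β j s)

omit hR in
theorem β_sub {j : ℕ} {Yb : ℝ} (hR : RDens f x₀) (hYb : Yb ≤ P.Y j) {s : ℂ} (hs : 0 ≤ s.re) :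
    ‖P.β j s - Ip f x₀ s Yb‖ ≤ phi f x₀ Yb ^ (-s.re) * (P.Y j + P.m j - Yb) := by
  have hm : (0 : ℝ) < P.m j := by exact_mod_cast P.m1 j
  have h1 : P.β j s - Ip f x₀ s Yb =
      (∑ l ∈ Finset.range (P.m j), (Ip f x₀ s (P.Y j + P.Γ j l) - Ip f x₀ s Yb)) / P.m j := by
    unfold β
    rw [Finset.sum_sub_distrib, Finset.sum_const, Finset.card_range, nsmul_eq_mul, sub_div,
      mul_div_cancel_left₀]
    exact_mod_cast hm.ne'
  rw [h1, norm_div, Complex.norm_natCast, div_le_iff₀ hm]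
  refine (norm_sum_le _ _).trans ?_
  calc ∑ l ∈ Finset.range (P.m j), ‖Ip f x₀ s (P.Y j + P.Γ j l) - Ip f x₀ s Yb‖
      ≤ ∑ l ∈ Finset.range (P.m j), phi f x₀ Yb ^ (-s.re) * (P.Y j + P.m j - Yb) := by
        apply Finset.sum_le_sum
        intro l hl
        have h2 := P.Γ_nonneg j l
        have h3 := P.Γ_le_m j l (Finset.mem_range.1 hl)
        refine (hR.norm_Ip_sub_le le_rfl (by linarith) hs).trans ?_
        apply mul_le_mul_of_nonneg_left _ (Real.rpow_nonneg (hR.phi_pos _).le _)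
        rw [abs_of_nonneg (by linarith)]
        linarith
    _ = _ := by
        rw [Finset.sum_const, Finset.card_range, nsmul_eq_mul]
        ring

theorem norm_e_le (j : ℕ) {σ : ℝ} {s : ℂ} (hσ : 1 / 2 < σ) (hs : σ ≤ s.re) :
    ‖P.e hR j s‖ ≤ if P.χ j = 1 ∧ P.χ (j + 1) = 1 then 0 else
    3 * ((2 * ((P.m j * P.q j : ℕ) : ℝ) + P.w j + ((P.m (j + 1) * P.q (j + 1) : ℕ) : ℝ)) *
      phi f x₀ (P.Y j) ^ (-σ)) := by
  have hs0 : 0 ≤ s.re := by linarith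
  split_ifs with h
  · unfold e
    rw [P.C_reg hR h.1 h.2 hs0]
    simp
  · unfold e
    have h1 := (P.ch hR).norm_C_le j hs0
    have h2 := P.β_sub hR (Yb := P.Y j) (P.Y_mono (Nat.le_succ j)) hs0
    have h3 := P.β_sub hR (Yb := P.Y j) le_rfl hs0
    have hm1 : (P.m j : ℝ) ≤ P.n j := by exact_mod_cast P.m_le_n j
    have hm2 : (P.m (j + 1) : ℝ) ≤ P.n (j + 1) := by exact_mod_cast P.m_le_n (j + 1)
    have hY := P.Ysn j
    have hw := P.w0 j
    have hpow : phi f x₀ (P.Y j) ^ (-s.re) ≤ phi f x₀ (P.Y j) ^ (-σ) :=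
      Real.rpow_le_rpow_of_exponent_le (hR.phi_one_le _) (by linarith)
    have hpow0 : 0 ≤ phi f x₀ (P.Y j) ^ (-s.re) := Real.rpow_nonneg (hR.phi_pos _).le _
    have h4 : (P.ch hR).Bd j s.re = (P.n j : ℝ) * phi f x₀ (P.Y j) ^ (-s.re) := rfl
    rw [h4] at h1
    have h5 : ‖(P.ch hR).C j s - (P.β (j + 1) s - P.β j s)‖ ≤ ‖(P.ch hR).C j s‖ +
        (‖P.β (j + 1) s - Ip f x₀ s (P.Y j)‖ + ‖P.β j s - Ip f x₀ s (P.Y j)‖) := by
      have e1 : (P.ch hR).C j s - (P.β (j + 1) s - P.β j s) = (P.ch hR).C j s -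
        ((P.β (j + 1) s - Ip f x₀ s (P.Y j)) - (P.β j s - Ip f x₀ s (P.Y j))) := by ring
      rw [e1]
      exact (norm_sub_le _ _).trans (add_le_add_right (norm_sub_le _ _) _)
    have hn0 : (0 : ℝ) ≤ P.n j := Nat.cast_nonneg _
    have hn1 : (0 : ℝ) ≤ P.n (j + 1) := Nat.cast_nonneg _
    change _ ≤ 3 * ((2 * (P.n j : ℝ) + P.w j + (P.n (j + 1) : ℝ)) * phi f x₀ (P.Y j) ^ (-σ))
    refine h5.trans ?_
    have h6 : phi f x₀ (P.Y j) ^ (-s.re) * (P.Y (j + 1) + P.m (j + 1) - P.Y j) ≤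
        phi f x₀ (P.Y j) ^ (-s.re) * (P.n j + P.w j + P.n (j + 1)) :=
      mul_le_mul_of_nonneg_left (by linarith) hpow0
    have h7 : phi f x₀ (P.Y j) ^ (-s.re) * (P.Y j + P.m j - P.Y j) ≤
        phi f x₀ (P.Y j) ^ (-s.re) * (P.n j) :=
      mul_le_mul_of_nonneg_left (by linarith) hpow0
    have h8 : (3 * (P.n j : ℝ) + P.w j + P.n (j + 1)) * phi f x₀ (P.Y j) ^ (-s.re) ≤
        (3 * (2 * (P.n j : ℝ) + P.w j + (P.n (j + 1) : ℝ))) * phi f x₀ (P.Y j) ^ (-σ) := by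
      apply mul_le_mul (by linarith) hpow hpow0 (by linarith)
    linarith

theorem diff_β (j : ℕ) : Differentiable ℂ (P.β j) := by
  unfold β
  apply Differentiable.div_const
  apply Differentiable.fun_sum
  intro l _
  exact hR.diff_Ip (by linarith [P.Y_nonneg j, P.Γ_nonneg j l])

theorem diff_e (j : ℕ) : Differentiable ℂ (P.e hR j) :=
  ((P.ch hR).diff_C j).sub ((P.diff_β hR (j + 1)).sub (P.diff_β hR j))

theorem e_props : DifferentiableOn ℂ (fun s => ∑' j, P.e hR j s) {s : ℂ | 1 / 2 < s.re} ∧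
      (∀ s : ℂ, 1 / 2 < s.re → Summable fun j => P.e hR j s) ∧
      ∀ ε : ℝ, 0 < ε → ∃ C : ℝ, ∀ s : ℂ, 1 / 2 + ε ≤ s.re → ‖∑' j, P.e hR j s‖ ≤ C := by
  apply diffOn_tsum_half (B := fun σ j => if P.χ j = 1 ∧ P.χ (j + 1) = 1 then 0 else
    3 * ((2 * ((P.m j * P.q j : ℕ) : ℝ) + P.w j + ((P.m (j + 1) * P.q (j + 1) : ℕ) : ℝ)) *
      phi f x₀ (P.Y j) ^ (-σ)))
  · intro j
    exact (P.diff_e hR j).differentiableOn
  · intro j σ s hσ hs
    exact P.norm_e_le hR j hσ hs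
  · intro σ hσ
    refine ((P.hE σ hσ).mul_left 3).congr fun j => ?_
    split_ifs <;> simp

omit hR in
theorem Y_tendsto : Tendsto P.Y atTop atTop :=
  tendsto_atTop_mono P.Y_ge tendsto_natCast_atTop_atTop

theorem β_tendsto {s : ℂ} (hs : 1 / 2 < s.re) {L : ℂ} (hL : Tendsto (Ip f x₀ s) atTop (𝓝 L)) :
    Tendsto (fun j => P.β j s) atTop (𝓝 L) := by
  have hs0 : 0 ≤ s.re := by linarith
  have h1 : Tendsto (fun j => P.β j s - Ip f x₀ s (P.Y j)) atTop (𝓝 0) := by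
    have h2 : Tendsto (fun j => (P.ch hR).Bd j s.re) atTop (𝓝 0) := by
      have h3 := (P.hB s.re hs).tendsto_atTop_zero
      have h4 := h3.sqrt
      rw [Real.sqrt_zero] at h4
      refine h4.congr fun j => ?_
      rw [Real.sqrt_sq]
      · rfl
      · exact mul_nonneg (Nat.cast_nonneg _) (Real.rpow_nonneg (hR.phi_pos _).le _)
    apply squeeze_zero_norm _ h2
    intro j
    refine (P.β_sub hR le_rfl hs0).trans ?_
    have hm1 : (P.m j : ℝ) ≤ P.n j := by exact_mod_cast P.m_le_n j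
    change _ ≤ (P.n j : ℝ) * phi f x₀ (P.Y j) ^ (-s.re)
    rw [mul_comm]
    exact mul_le_mul_of_nonneg_right (by linarith) (Real.rpow_nonneg (hR.phi_pos _).le _)
  have h2 := h1.add (hL.comp P.Y_tendsto)
  rw [zero_add] at h2
  refine h2.congr fun j => ?_
  simp

/-- The sum over the points of the pattern. -/
theorem pat_sum (hint : ∀ s : ℂ, 1 < s.re →
      IntegrableOn (fun u : ℝ => (f u : ℂ) * (u : ℂ) ^ (-s)) (Ioi x₀)) :
    ∃ (θ : ℕ → ℝ) (R : ℂ → ℂ), DifferentiableOn ℂ R {s : ℂ | 1 / 2 < s.re} ∧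
    (∀ ε : ℝ, 0 < ε → ∃ C : ℝ, ∀ s : ℂ, 1 / 2 + ε ≤ s.re →
      |(R s).re| ≤ C + ε * Real.log (2 + ‖s‖)) ∧
    ∀ s : ℂ, 1 < s.re →
      Tendsto (fun J => ∑ j ∈ Finset.range J, (P.ch hR).T j (θ j) (θ (j + 1)) s) atTop
        (𝓝 ((∫ u in Ioi x₀, (f u : ℂ) * (u : ℂ) ^ (-s)) + R s)) := by
  obtain ⟨θ, R1, hR1d, hR1b, hR1t⟩ := (P.ch hR).chain
  obtain ⟨he1, he2, he3⟩ := P.e_props hR
  refine ⟨θ, fun s => R1 s + (∑' j, P.e hR j s - P.β 0 s), ?_, ?_, ?_⟩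
  · exact hR1d.add (he1.sub (P.diff_β hR 0).differentiableOn)
  · intro ε hε
    obtain ⟨C1, h1⟩ := hR1b ε hε
    obtain ⟨C2, h2⟩ := he3 ε hε
    refine ⟨C1 + C2 + P.m 0, fun s hs => ?_⟩
    have hs0 : 0 ≤ s.re := by linarith
    have h3 := h1 s hs
    have h4 := (Complex.abs_re_le_norm _).trans (h2 s hs)
    have h5 : |(P.β 0 s).re| ≤ P.m 0 := by
      refine (Complex.abs_re_le_norm _).trans ?_
      have h6 := P.β_sub hR (j := 0) (Yb := 0) (by rw [P.Y0]) hs0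
      have h7 : Ip f x₀ s 0 = 0 := by simp [Ip]
      rw [h7, sub_zero, P.Y0, sub_zero, zero_add] at h6
      refine h6.trans ?_
      have h8 : phi f x₀ 0 ^ (-s.re) ≤ 1 :=
        Real.rpow_le_one_of_one_le_of_nonpos (hR.phi_one_le 0) (by linarith)
      calc phi f x₀ 0 ^ (-s.re) * P.m 0 ≤ 1 * P.m 0 :=
            mul_le_mul_of_nonneg_right h8 (Nat.cast_nonneg _)
        _ = _ := one_mul _
    rw [Complex.add_re, Complex.sub_re]
    have e1 := abs_add_le (R1 s).re ((∑' j, P.e hR j s).re - (P.β 0 s).re)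
    have e2 := abs_sub (∑' j, P.e hR j s).re (P.β 0 s).re
    linarith
  · intro s hs
    have hs1 : 1 / 2 < s.re := by linarith
    have hL := hR.Ip_tendsto (hint s hs)
    have hβ := P.β_tendsto hR hs1 hL
    have hE := (he2 s hs1).hasSum.tendsto_sum_nat
    have h1 := (hR1t s hs1).add (hE.add (hβ.sub_const (P.β 0 s)))
    have h3 : R1 s + (∑' j, P.e hR j s + ((∫ u in Ioi x₀, (f u : ℂ) * (u : ℂ) ^ (-s)) -
        P.β 0 s)) =
        (∫ u in Ioi x₀, (f u : ℂ) * (u : ℂ) ^ (-s)) + (R1 s + (∑' j, P.e hR j s - P.β 0 s)) := by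
      ring
    rw [h3] at h1
    refine h1.congr fun J => ?_
    have h4 : ∑ j ∈ Finset.range J, P.e hR j s + (P.β J s - P.β 0 s) =
        ∑ j ∈ Finset.range J, (P.ch hR).C j s := by
      unfold e
      rw [Finset.sum_sub_distrib, Finset.sum_range_sub (fun j => P.β j s)]
      ring
    rw [h4, ← Finset.sum_add_distrib]
    apply Finset.sum_congr rfl
    intro j _
    ring

end Pat

end Pool.Agent.H521.G
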