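import Pool.Agent.H521.G.Core

open MeasureTheory Set Filter Topology
open scoped ENNReal NNReal ComplexConjugate

namespace Pool.Agent.H521.G

/-- Regular densities. -/
structure RDens (f : ℝ → ℝ) (x₀ : ℝ) : Prop where
  dens : Dens f x₀
  low : ∀ u, x₀ ≤ u → 1 / 2 ≤ f u * Real.log u
  hlog : ∀ u, x₀ ≤ u → 2 ≤ Real.log u
  hlog4 : ∀ u, x₀ ≤ u → 4 * Real.log u ≤ u

/-- The primitive. -/
noncomputable def Fp (f : ℝ → ℝ) (x₀ x : ℝ) : ℝ := ∫ u in x₀..x, f u

namespace RDens

variable {f : ℝ → ℝ} {x₀ : ℝ} (hR : RDens f x₀)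
include hR

theorem pos {u : ℝ} (hu : x₀ ≤ u) : 0 < f u := by
  have h1 := hR.low u hu
  have h2 := hR.hlog u hu
  by_contra hc
  push Not at hc
  nlinarith

theorem F_sub {x y : ℝ} (hx : x₀ ≤ x) (hxy : x ≤ y) :
    Fp f x₀ y - Fp f x₀ x = ∫ u in x..y, f u := by
  unfold Fp
  rw [sub_eq_iff_eq_add, add_comm]
  exact (intervalIntegral.integral_add_adjacent_intervals (hR.dens.ii le_rfl hx)
    (hR.dens.ii hx hxy)).symm

theorem F_sub_le {x y : ℝ} (hx : x₀ ≤ x) (hxy : x ≤ y) : Fp f x₀ y - Fp f x₀ x ≤ y - x := by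
  rw [hR.F_sub hx hxy]; exact hR.dens.int_le hx hxy

theorem F_sub_ge {x y : ℝ} (hx : x₀ ≤ x) (hxy : x ≤ y) :
    (y - x) / (2 * Real.log y) ≤ Fp f x₀ y - Fp f x₀ x := by
  rw [hR.F_sub hx hxy]
  have hy := hR.hlog y (hx.trans hxy)
  have hmono := intervalIntegral.integral_mono_on hxy
      (intervalIntegrable_const (c := 1 / (2 * Real.log y))) (hR.dens.ii hx hxy)
      (fun u hu => by
        have h2 := hR.low u (hx.trans hu.1)
        have h3 := hR.hlog u (hx.trans hu.1)
        have h4 : Real.log u ≤ Real.log y :=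
          Real.log_le_log (by linarith [hu.1, hR.dens.hx₀]) hu.2
        have h5 := hR.pos (hx.trans hu.1)
        rw [div_le_iff₀ (by positivity)]
        nlinarith)
  rw [intervalIntegral.integral_const, smul_eq_mul] at hmono
  calc (y - x) / (2 * Real.log y) = (y - x) * (1 / (2 * Real.log y)) := by ring
    _ ≤ _ := hmono

theorem F_strict {x y : ℝ} (hx : x₀ ≤ x) (hxy : x < y) : Fp f x₀ x < Fp f x₀ y := by
  have h1 := hR.F_sub_ge hx hxy.le
  have hy := hR.hlog y (hx.trans hxy.le)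
  have : 0 < (y - x) / (2 * Real.log y) := div_pos (by linarith) (by positivity)
  linarith

theorem F_mono {x y : ℝ} (hx : x₀ ≤ x) (hxy : x ≤ y) : Fp f x₀ x ≤ Fp f x₀ y := by
  have := hR.dens.int_nonneg hx hxy
  rw [← hR.F_sub hx hxy] at this
  linarith

theorem F_zero : Fp f x₀ x₀ = 0 := by unfold Fp; simp

theorem F_contOn (y : ℝ) (hy : x₀ ≤ y) : ContinuousOn (Fp f x₀) (Icc x₀ y) := by
  have := intervalIntegral.continuousOn_primitive_interval (μ := volume) (f := f) (a := x₀)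
      (b := y) ((intervalIntegrable_iff' (by simp)).1 (hR.dens.ii le_rfl hy))
  rwa [uIcc_of_le hy] at this

/-- the primitive is unbounded. -/
theorem F_large (Y : ℝ) : ∃ x, x₀ ≤ x ∧ Y ≤ Fp f x₀ x := by
  have h1 : Tendsto (fun x : ℝ => (x - x₀) / (2 * Real.log x)) atTop atTop := by
    have h2 : Tendsto (fun x : ℝ => x / Real.log x) atTop atTop := by
      have h3 : Tendsto (fun x : ℝ => Real.log x / x) atTop (𝓝[>] 0) := by
        rw [tendsto_nhdsWithin_iff]
        refine ⟨?_, ?_⟩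
        · have := Real.isLittleO_log_id_atTop.tendsto_div_nhds_zero
          simpa using this
        · filter_upwards [eventually_gt_atTop 1] with x hx
          exact div_pos (Real.log_pos hx) (by linarith)
      have h4 := h3.inv_tendsto_nhdsGT_zero
      refine h4.congr fun x => ?_
      simp
    have h5 : Tendsto (fun x : ℝ => (1 / 4 : ℝ) * (x / Real.log x)) atTop atTop :=
      h2.const_mul_atTop (by norm_num)
    refine tendsto_atTop_mono' _ ?_ h5
    filter_upwards [eventually_ge_atTop (2 * x₀), eventually_gt_atTop 3] with x hx hx3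
    have hl : 0 < Real.log x := Real.log_pos (by linarith)
    rw [← mul_div_assoc, div_le_div_iff₀ hl (by positivity)]
    nlinarith
  obtain ⟨x, hx, hx2⟩ := ((h1.eventually_ge_atTop Y).and (eventually_ge_atTop x₀)).exists
  refine ⟨x, hx2, ?_⟩
  have := hR.F_sub_ge le_rfl hx2
  rw [hR.F_zero] at this
  linarith

theorem exists_inv (y : ℝ) (hy : 0 ≤ y) : ∃ x, x₀ ≤ x ∧ Fp f x₀ x = y := by
  obtain ⟨X, hX, hXY⟩ := hR.F_large y
  have hmem : y ∈ Icc (Fp f x₀ x₀) (Fp f x₀ X) := by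
    rw [hR.F_zero]; exact ⟨hy, hXY⟩
  obtain ⟨x, hx, hx1⟩ := intermediate_value_Icc hX (hR.F_contOn X hX) hmem
  exact ⟨x, hx.1, hx1⟩

end RDens

/-- The inverse function of the primitive. -/
noncomputable def phi (f : ℝ → ℝ) (x₀ y : ℝ) : ℝ := by
  classical
  exact if h : ∃ x, x₀ ≤ x ∧ Fp f x₀ x = max y 0 then Classical.choose h else x₀

namespace RDens

variable {f : ℝ → ℝ} {x₀ : ℝ} (hR : RDens f x₀)
include hR

theorem phi_spec (y : ℝ) : x₀ ≤ phi f x₀ y ∧ Fp f x₀ (phi f x₀ y) = max y 0 := by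
  have h := hR.exists_inv (max y 0) (le_max_right _ _)
  unfold phi
  rw [dif_pos h]
  exact Classical.choose_spec h

theorem phi_ge (y : ℝ) : x₀ ≤ phi f x₀ y := (hR.phi_spec y).1

theorem F_phi {y : ℝ} (hy : 0 ≤ y) : Fp f x₀ (phi f x₀ y) = y := by
  rw [(hR.phi_spec y).2, max_eq_left hy]

theorem F_inj {x y : ℝ} (hx : x₀ ≤ x) (hy : x₀ ≤ y) (h : Fp f x₀ x = Fp f x₀ y) : x = y := by
  rcases lt_trichotomy x y with h1 | h1 | h1
  · exact absurd h (hR.F_strict hx h1).ne
  · exact h1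
  · exact absurd h (hR.F_strict hy h1).ne'

theorem phi_F {x : ℝ} (hx : x₀ ≤ x) : phi f x₀ (Fp f x₀ x) = x := by
  apply hR.F_inj (hR.phi_ge _) hx
  apply hR.F_phi
  have := hR.F_mono le_rfl hx
  rwa [hR.F_zero] at this

theorem phi_zero : phi f x₀ 0 = x₀ := by
  have := hR.phi_F (le_refl x₀)
  rwa [hR.F_zero] at this

theorem phi_mono : Monotone (phi f x₀) := by
  intro y z hyz
  by_contra hc
  push Not at hc
  have h1 := hR.F_strict (hR.phi_ge z) hc
  rw [(hR.phi_spec y).2, (hR.phi_spec z).2] at h1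
  have := max_le_max_right 0 hyz
  linarith

theorem phi_lt {y z : ℝ} (hy : 0 ≤ y) (hyz : y < z) : phi f x₀ y < phi f x₀ z := by
  rcases lt_or_eq_of_le (hR.phi_mono hyz.le) with h | h
  · exact h
  · exfalso
    have := congrArg (Fp f x₀) h
    rw [hR.F_phi hy, hR.F_phi (by linarith)] at this
    linarith

theorem phi_measurable : Measurable (phi f x₀) := hR.phi_mono.measurable

/-- increments of `φ` -/
theorem phi_sub_ge {y z : ℝ} (hy : 0 ≤ y) (hyz : y ≤ z) : z - y ≤ phi f x₀ z - phi f x₀ y := by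
  have h := hR.F_sub_le (hR.phi_ge y) (hR.phi_mono hyz)
  rwa [hR.F_phi hy, hR.F_phi (hy.trans hyz)] at h

theorem phi_sub_le {y z : ℝ} (hy : 0 ≤ y) (hyz : y ≤ z) :
    phi f x₀ z - phi f x₀ y ≤ (z - y) * (2 * Real.log (phi f x₀ z)) := by
  have h := hR.F_sub_ge (hR.phi_ge y) (hR.phi_mono hyz)
  rw [hR.F_phi hy, hR.F_phi (hy.trans hyz)] at h
  have hl := hR.hlog _ (hR.phi_ge z)
  rwa [div_le_iff₀ (by positivity)] at h

theorem phi_contOn (Y : ℝ) : ContinuousOn (phi f x₀) (Icc 0 Y) := by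
  rcases lt_or_ge Y 0 with hY | hY
  · rw [Icc_eq_empty (by linarith)]; exact continuousOn_empty _
  have hl := hR.hlog _ (hR.phi_ge Y)
  have hlip : LipschitzOnWith (Real.toNNReal (2 * Real.log (phi f x₀ Y))) (phi f x₀)
      (Icc 0 Y) := by
    apply LipschitzOnWith.of_le_add_mul
    intro y hy z hz
    rw [Real.coe_toNNReal _ (by linarith)]
    rcases le_total y z with h | h
    · have := hR.phi_mono h
      have h2 : 0 ≤ 2 * Real.log (phi f x₀ Y) * dist y z := by positivity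
      linarith
    · have h1 := hR.phi_sub_le hz.1 h
      have h2 : Real.log (phi f x₀ y) ≤ Real.log (phi f x₀ Y) :=
        Real.log_le_log (by linarith [hR.phi_ge y, hR.dens.hx₀]) (hR.phi_mono hy.2)
      have h3 : dist y z = y - z := by
        rw [Real.dist_eq, abs_of_nonneg (by linarith)]
      rw [h3]
      have h4 : 0 ≤ y - z := by linarith
      nlinarith
  exact hlip.continuousOn

/-- change of variables -/
theorem phi_cv {A B : ℝ} (hA : 0 ≤ A) (hAB : A ≤ B) (s : ℂ) :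
    ∫ y in A..B, ((phi f x₀ y : ℝ) : ℂ) ^ (-s) =
      ∫ u in phi f x₀ A..phi f x₀ B, (f u : ℂ) * (u : ℂ) ^ (-s) := by
  have hle := hR.phi_mono hAB
  have hA' := hR.phi_ge A
  have hFc : ContinuousOn (Fp f x₀) (uIcc (phi f x₀ A) (phi f x₀ B)) := by
    rw [uIcc_of_le hle]
    exact (hR.F_contOn _ (hA'.trans hle)).mono (Icc_subset_Icc_left hA')
  have hder : ∀ x ∈ Ioo (min (phi f x₀ A) (phi f x₀ B)) (max (phi f x₀ A) (phi f x₀ B)),
      HasDerivWithinAt (Fp f x₀) (f x) (Ioi x) x := by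
    intro x hx
    rw [min_eq_left hle, max_eq_right hle] at hx
    have hx0 : x₀ < x := lt_of_le_of_lt hA' hx.1
    have hca : ContinuousAt f x := hR.dens.cont.continuousAt (Ici_mem_nhds hx0)
    have : HasDerivAt (Fp f x₀) (f x) x := by
      unfold Fp
      apply intervalIntegral.integral_hasDerivAt_right (hR.dens.ii le_rfl hx0.le)
      · exact hR.dens.meas.stronglyMeasurable.stronglyMeasurableAtFilter
      · exact hca
    exact this.hasDerivWithinAt
  have hfc : ContinuousOn f (uIcc (phi f x₀ A) (phi f x₀ B)) := by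
    rw [uIcc_of_le hle]
    exact hR.dens.cont.mono fun u hu => hA'.trans hu.1
  have himg : Fp f x₀ '' uIcc (phi f x₀ A) (phi f x₀ B) ⊆ Icc 0 B := by
    rintro y ⟨x, hx, rfl⟩
    rw [uIcc_of_le hle] at hx
    constructor
    · have := hR.F_mono le_rfl (hA'.trans hx.1)
      rwa [hR.F_zero] at this
    · have := hR.F_mono (hA'.trans hx.1) hx.2
      rwa [hR.F_phi (hA.trans hAB)] at this
  have hg : ContinuousOn (fun y => ((phi f x₀ y : ℝ) : ℂ) ^ (-s))
      (Fp f x₀ '' uIcc (phi f x₀ A) (phi f x₀ B)) := by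
    apply ContinuousOn.mono _ himg
    intro y hy
    have h1 : ContinuousWithinAt (fun y => ((phi f x₀ y : ℝ) : ℂ)) (Icc 0 B) y :=
      Complex.continuous_ofReal.continuousAt.comp_continuousWithinAt (hR.phi_contOn B y hy)
    exact h1.cpow continuousWithinAt_const
      (Complex.ofReal_mem_slitPlane.2 (by linarith [hR.phi_ge y, hR.dens.hx₀]))
  have key := intervalIntegral.integral_deriv_smul_comp'' hFc hder hfc hg
  rw [hR.F_phi hA, hR.F_phi (hA.trans hAB)] at key
  rw [← key]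
  apply intervalIntegral.integral_congr
  intro u hu
  rw [uIcc_of_le hle] at hu
  simp only [Function.comp]
  rw [hR.phi_F (hA'.trans hu.1), Complex.real_smul]

end RDens

end Pool.Agent.H521.G
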