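import Mathlib

open MeasureTheory Set Filter Topology

namespace Pool.Agent.H521.G

/-- If `F u ≤ C u log (F u)` then `F u ≤ u ^ (1 + ε)`, `log F u ≤ 3 log u` eventually. -/
theorem phi_up {F : ℝ → ℝ} (hF : Tendsto F atTop atTop) {C : ℝ}
    (h : ∀ᶠ u in atTop, F u ≤ C * u * Real.log (F u)) :
    (∀ ε : ℝ, 0 < ε → ∀ᶠ u in atTop, F u ≤ u ^ (1 + ε)) ∧
      ∀ᶠ u in atTop, Real.log (F u) ≤ 3 * Real.log u := by
  have hC : 0 < |C| + 1 := by positivity
  have h0 : ∀ᶠ u in atTop, F u ≤ |C| * u * Real.log (F u) := by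
    filter_upwards [h, hF.eventually_gt_atTop 1, eventually_gt_atTop (1 : ℝ)] with u h1 h2 h3
    refine h1.trans (mul_le_mul_of_nonneg_right (mul_le_mul_of_nonneg_right (le_abs_self C)
      (by linarith)) (Real.log_nonneg h2.le))
  have hlog : ∀ᶠ u in atTop, Real.log (F u) ≤ 3 * Real.log u := by
    have hlo := (isLittleO_log_rpow_atTop (show (0 : ℝ) < 1 / 2 by norm_num)).bound
      (show 0 < 1 / (|C| + 1) by positivity)
    filter_upwards [hF.eventually hlo, h0, hF.eventually_gt_atTop 1,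
      eventually_gt_atTop (1 : ℝ)] with u h1 h2 h3 h4
    have hF0 : 0 < F u := by linarith
    obtain ⟨s, hs⟩ : ∃ s, s = √(F u) := ⟨_, rfl⟩
    have hs0 : 0 < s := by rw [hs]; exact Real.sqrt_pos.2 hF0
    have hs2 : s ^ 2 = F u := by rw [hs]; exact Real.sq_sqrt hF0.le
    rw [← Real.sqrt_eq_rpow, ← hs, Real.norm_of_nonneg (Real.log_nonneg h3.le),
      Real.norm_of_nonneg hs0.le] at h1
    have h5 : |C| * Real.log (F u) ≤ s := by
      calc |C| * Real.log (F u) ≤ |C| * (1 / (|C| + 1) * s) :=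
            mul_le_mul_of_nonneg_left h1 (abs_nonneg C)
        _ = (|C| / (|C| + 1)) * s := by ring
        _ ≤ 1 * s := by
            refine mul_le_mul_of_nonneg_right ?_ hs0.le
            rw [div_le_one hC]
            linarith
        _ = s := one_mul s
    have h6 : s ^ 2 ≤ u * s := by
      rw [hs2]
      calc F u ≤ |C| * u * Real.log (F u) := h2
        _ = u * (|C| * Real.log (F u)) := by ring
        _ ≤ u * s := mul_le_mul_of_nonneg_left h5 (by linarith)
    have h7 : s ≤ u := by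
      rw [sq] at h6
      exact le_of_mul_le_mul_right h6 hs0
    have h8 : Real.log (F u) = 2 * Real.log s := by
      rw [← hs2, Real.log_pow]
      norm_num
    have h9 : Real.log s ≤ Real.log u := Real.log_le_log hs0 h7
    have h10 : 0 < Real.log u := Real.log_pos h4
    rw [h8]
    linarith
  refine ⟨fun ε hε => ?_, hlog⟩
  have hlo := (isLittleO_log_rpow_atTop hε).bound (show 0 < 1 / (3 * (|C| + 1)) by positivity)
  filter_upwards [hlo, h0, hlog, eventually_gt_atTop (1 : ℝ)] with u h1 h2 h3 h4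
  have hu0 : 0 < u := by linarith
  have hp : 0 < u ^ ε := Real.rpow_pos_of_pos hu0 ε
  rw [Real.norm_of_nonneg (Real.log_nonneg h4.le), Real.norm_of_nonneg hp.le] at h1
  rw [Real.rpow_add hu0, Real.rpow_one]
  have h5 : |C| * (3 * Real.log u) ≤ u ^ ε := by
    calc |C| * (3 * Real.log u) ≤ |C| * (3 * (1 / (3 * (|C| + 1)) * u ^ ε)) :=
          mul_le_mul_of_nonneg_left (mul_le_mul_of_nonneg_left h1 (by norm_num)) (abs_nonneg C)
      _ = (|C| / (|C| + 1)) * u ^ ε := by
          field_simp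
      _ ≤ 1 * u ^ ε := by
          refine mul_le_mul_of_nonneg_right ?_ hp.le
          rw [div_le_one hC]
          linarith
      _ = u ^ ε := one_mul _
  calc F u ≤ |C| * u * Real.log (F u) := h2
    _ = u * (|C| * Real.log (F u)) := by ring
    _ ≤ u * (|C| * (3 * Real.log u)) :=
        mul_le_mul_of_nonneg_left (mul_le_mul_of_nonneg_left h3 (abs_nonneg C)) hu0.le
    _ ≤ u * u ^ ε := mul_le_mul_of_nonneg_left h5 hu0.le

end Pool.Agent.H521.G
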