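import Pool.Agent.H521.G.Build2

open MeasureTheory Set Filter Topology
open scoped ENNReal NNReal ComplexConjugate

namespace Pool.Agent.H521.G

/-- Patterns from gap sequences. -/
theorem pattern_of_gaps {g : ℕ → ℝ} {m : ℕ} (hm : 1 ≤ m) (hg : ∀ l, l < m → 0 < g l)
    (hs : ∑ l ∈ Finset.range m, g l = m) :
    ∃ Γ : ℕ → ℝ, Γ 0 = 0 ∧ StrictMono Γ ∧ (∀ l, Γ (l + m) = Γ l + m) ∧
      ∀ l, Γ (l + 1) - Γ l = g (l % m) := by
  refine ⟨fun l => ∑ i ∈ Finset.range l, g (i % m), by simp, ?_, ?_, ?_⟩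
  · apply strictMono_nat_of_lt_succ
    intro l
    rw [Finset.sum_range_succ]
    have := hg (l % m) (Nat.mod_lt _ hm)
    linarith
  · intro l
    simp only
    rw [add_comm l m, Finset.sum_range_add]
    have h1 : ∑ x ∈ Finset.range m, g (x % m) = m := by
      rw [← hs]
      apply Finset.sum_congr rfl
      intro x hx
      rw [Nat.mod_eq_of_lt (Finset.mem_range.1 hx)]
    have h2 : ∑ x ∈ Finset.range l, g ((m + x) % m) = ∑ x ∈ Finset.range l, g (x % m) := by
      apply Finset.sum_congr rfl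
      intro x _
      rw [Nat.add_mod_left]
    rw [h1, h2, add_comm]
  · intro l
    simp only
    rw [Finset.sum_range_succ]
    ring

/-- A list of values with prescribed members and mean one. -/
theorem mean_one {T : ℕ} (hT : 1 ≤ T) (v : ℕ → ℝ) (hv : ∀ l, 0 ≤ v l) {α β : ℝ} (hα0 : 0 ≤ α)
    (hα : α ≤ 1) (hβ : 1 ≤ β) (hcase : α < 1 ∨ ∀ l, 1 ≤ v l) :
    ∃ (m : ℕ) (g : ℕ → ℝ), T ≤ m ∧ (∀ l, l < m → 0 < g l) ∧ ∑ l ∈ Finset.range m, g l = m ∧
      (∀ l, l < T → |g l - v l| ≤ 1 / T) ∧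
      ∀ l, l < m → (∃ i, |g l - v i| ≤ 1 / T) ∨ |g l - α| ≤ 1 / T ∨ |g l - β| ≤ 1 / T := by
  have hT0 : (0 : ℝ) < T := by exact_mod_cast hT
  -- reduce to finding x y
  suffices H : ∃ x y : ℕ, |∑ l ∈ Finset.range T, (1 - v l) + x * (1 - α) - y * (β - 1)| ≤
      (T + x + y) / T ∧ (0 < ∑ l ∈ Finset.range T, (1 - v l) + x * (1 - α) - y * (β - 1) ∨
        ((∀ l, 1 ≤ v l) ∧ α = 1 ∧ |∑ l ∈ Finset.range T, (1 - v l) + x * (1 - α) -
          y * (β - 1)| ≤ (T + x + y) / 2)) by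
    obtain ⟨x, y, h1, h2⟩ := H
    set D := ∑ l ∈ Finset.range T, (1 - v l) + x * (1 - α) - y * (β - 1) with hD
    set m : ℕ := T + x + y with hm
    have hm0 : (0 : ℝ) < m := by
      rw [hm]; push_cast
      have : (0 : ℝ) ≤ x := Nat.cast_nonneg _
      have : (0 : ℝ) ≤ y := Nat.cast_nonneg _
      linarith
    have hmc : (m : ℝ) = T + x + y := by rw [hm]; push_cast; ring
    set η : ℝ := D / m with hη
    have hη1 : |η| ≤ 1 / T := by
      rw [hη, abs_div, abs_of_pos hm0, div_le_div_iff₀ hm0 hT0]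
      rw [le_div_iff₀ hT0] at h1
      rw [hmc]
      linarith
    have hpos : ∀ z : ℝ, 0 ≤ z → ((∀ l, 1 ≤ v l) → α = 1 → 1 ≤ z) → 0 < z + η := by
      intro z hz hz1
      rcases h2 with h2 | ⟨h2, h3, h4⟩
      · have : 0 < η := div_pos h2 hm0
        linarith
      · have h5 : |η| ≤ 1 / 2 := by
          rw [hη, abs_div, abs_of_pos hm0, div_le_div_iff₀ hm0 (by norm_num)]
          rw [hmc]
          linarith
        have := (abs_le.1 h5).1
        linarith [hz1 h2 h3]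
    set g : ℕ → ℝ := fun l => if l < T then v l + η else if l < T + x then α + η else β + η
      with hg
    refine ⟨m, g, by omega, ?_, ?_, ?_, ?_⟩
    · intro l _
      rw [hg]
      simp only
      split_ifs with c1 c2
      · exact hpos _ (hv l) (fun h _ => h l)
      · exact hpos _ hα0 (fun _ h => h.ge)
      · exact hpos _ (by linarith) (fun _ _ => hβ)
    · rw [hm, Finset.sum_range_add, Finset.sum_range_add]
      have e1 : ∑ l ∈ Finset.range T, g l = ∑ l ∈ Finset.range T, (v l + η) := by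
        apply Finset.sum_congr rfl
        intro l hl
        rw [hg]
        simp only
        rw [if_pos (Finset.mem_range.1 hl)]
      have e2 : ∑ l ∈ Finset.range x, g (T + l) = ∑ l ∈ Finset.range x, (α + η) := by
        apply Finset.sum_congr rfl
        intro l hl
        have := Finset.mem_range.1 hl
        rw [hg]
        simp only
        rw [if_neg (by omega), if_pos (by omega)]
      have e3 : ∑ l ∈ Finset.range y, g (T + x + l) = ∑ l ∈ Finset.range y, (β + η) := by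
        apply Finset.sum_congr rfl
        intro l hl
        rw [hg]
        simp only
        rw [if_neg (by omega), if_neg (by omega)]
      rw [e1, e2, e3, Finset.sum_add_distrib]
      simp only [Finset.sum_const, Finset.card_range, nsmul_eq_mul]
      have e4 : D = T - ∑ l ∈ Finset.range T, v l + x * (1 - α) - y * (β - 1) := by
        rw [hD, Finset.sum_sub_distrib]
        simp
      have e5 : (m : ℝ) * η = D := by rw [hη]; field_simp
      rw [hmc] at e5
      push_cast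
      linarith
    · intro l hl
      rw [hg]
      simp only
      rw [if_pos hl]
      simpa using hη1
    · intro l _
      rw [hg]
      simp only
      split_ifs with c1 c2
      · left
        exact ⟨l, by simpa using hη1⟩
      · right; left
        simpa using hη1
      · right; right
        simpa using hη1
  set D0 := ∑ l ∈ Finset.range T, (1 - v l) with hD0
  rcases lt_or_eq_of_le hα with h | h
  · set y : ℕ := ⌈(T : ℝ) * |D0|⌉₊ with hy
    have hyl : (T : ℝ) * |D0| ≤ y := Nat.le_ceil _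
    have hex : ∃ x : ℕ, 0 < D0 + x * (1 - α) - y * (β - 1) := by
      obtain ⟨x, hx⟩ := exists_nat_gt ((y * (β - 1) - D0) / (1 - α))
      refine ⟨x, ?_⟩
      rw [div_lt_iff₀ (by linarith)] at hx
      linarith
    classical
    set x := Nat.find hex with hx
    have hx1 : 0 < D0 + x * (1 - α) - y * (β - 1) := Nat.find_spec hex
    have hy0 : (0 : ℝ) ≤ y := Nat.cast_nonneg _
    have hx0 : (0 : ℝ) ≤ x := Nat.cast_nonneg _
    refine ⟨x, y, ?_, Or.inl hx1⟩
    rw [abs_of_pos hx1, le_div_iff₀ hT0]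
    rcases Nat.eq_zero_or_pos x with h0 | h0
    · rw [h0]
      push_cast
      have h3 : D0 ≤ |D0| := le_abs_self _
      have h4 : 0 ≤ (y : ℝ) * (β - 1) := mul_nonneg hy0 (by linarith)
      nlinarith
    · have h3 := Nat.find_min hex (Nat.sub_lt h0 one_pos)
      have h4 : ((x - 1 : ℕ) : ℝ) = x - 1 := by
        rw [Nat.cast_sub h0]; simp
      have h5 : D0 + x * (1 - α) - y * (β - 1) ≤ 1 := by
        by_contra hc
        apply h3
        change 0 < D0 + ((x - 1 : ℕ) : ℝ) * (1 - α) - y * (β - 1)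
        rw [h4]
        push Not at hc
        nlinarith
      nlinarith
  · have hv1 : ∀ l, 1 ≤ v l := by
      rcases hcase with h1 | h1
      · linarith
      · exact h1
    set x : ℕ := ⌈((T : ℝ) + 2) * |D0|⌉₊ with hx
    have hxl : ((T : ℝ) + 2) * |D0| ≤ x := Nat.le_ceil _
    refine ⟨x, 0, ?_, Or.inr ⟨hv1, h, ?_⟩⟩
    · rw [h]
      simp only [sub_self, mul_zero, add_zero, Nat.cast_zero, zero_mul, sub_zero]
      rw [le_div_iff₀ hT0]
      nlinarith [abs_nonneg D0]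
    · rw [h]
      simp only [sub_self, mul_zero, add_zero, Nat.cast_zero, zero_mul, sub_zero]
      rw [le_div_iff₀ (by norm_num)]
      nlinarith [abs_nonneg D0]

/-- Existence of the patterns of a closed set. -/
theorem pattern_exists {A : Set ℝ≥0∞} (hα : ∃ a ∈ A, a ≤ 1) (hβ : ∃ b ∈ A, 1 ≤ b)
    (d : ℕ → ℝ≥0∞) (hd : ∀ i, d i ∈ A) (t : ℕ) :
    ∃ (m : ℕ) (Γ : ℕ → ℝ), 1 ≤ m ∧ Γ 0 = 0 ∧ StrictMono Γ ∧ (∀ l, Γ (l + m) = Γ l + m) ∧
      (∀ l, ∃ a ∈ A, |Γ (l + 1) - Γ l - (min a (t + 1 : ℕ)).toReal| ≤ 1 / ((t : ℝ) + 1)) ∧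
      ∀ i, i ≤ t → ∃ l, l < m ∧
        |Γ (l + 1) - Γ l - (min (d i) (t + 1 : ℕ)).toReal| ≤ 1 / ((t : ℝ) + 1) := by
  obtain ⟨β, hβA, hβ1⟩ := hβ
  obtain ⟨α, hαA, hα1, hcase⟩ : ∃ α ∈ A, α ≤ 1 ∧ (α < 1 ∨ ∀ a ∈ A, 1 ≤ a) := by
    by_cases h : ∃ a ∈ A, a < 1
    · obtain ⟨a, ha, ha1⟩ := h
      exact ⟨a, ha, ha1.le, Or.inl ha1⟩
    · push Not at h
      obtain ⟨a, ha, ha1⟩ := hα
      exact ⟨a, ha, ha1, Or.inr h⟩
  set tr : ℝ≥0∞ → ℝ := fun a => (min a (t + 1 : ℕ)).toReal with htr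
  have hfin : ∀ a : ℝ≥0∞, min a (t + 1 : ℕ) ≠ ∞ := fun a =>
    ne_top_of_le_ne_top (ENNReal.natCast_ne_top _) (min_le_right _ _)
  have ht1 : (1 : ℝ≥0∞) ≤ ((t + 1 : ℕ) : ℝ≥0∞) := by
    exact_mod_cast Nat.succ_le_succ (Nat.zero_le t)
  have htr1 : ∀ a : ℝ≥0∞, 1 ≤ a → 1 ≤ tr a := by
    intro a ha
    rw [htr]
    simp only
    rw [← ENNReal.toReal_one]
    exact (ENNReal.toReal_le_toReal ENNReal.one_ne_top (hfin a)).2 (le_min ha ht1)
  have htrle : ∀ a : ℝ≥0∞, a ≤ 1 → tr a ≤ 1 := by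
    intro a ha
    rw [htr]
    simp only
    rw [← ENNReal.toReal_one]
    exact (ENNReal.toReal_le_toReal (hfin a) ENNReal.one_ne_top).2 ((min_le_left _ _).trans ha)
  have htrlt : α < 1 → tr α < 1 := by
    intro ha
    rw [htr]
    simp only
    rw [← ENNReal.toReal_one]
    exact (ENNReal.toReal_lt_toReal (hfin α) ENNReal.one_ne_top).2
      (lt_of_le_of_lt (min_le_left _ _) ha)
  obtain ⟨m, g, hm, hg0, hgs, hgv, hgall⟩ := mean_one (T := t + 1) (by omega)
    (fun l => tr (d l)) (fun l => ENNReal.toReal_nonneg) (α := tr α) (β := tr β)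
    ENNReal.toReal_nonneg (htrle α hα1) (htr1 β hβ1) (by
      rcases hcase with h | h
      · left; exact htrlt h
      · right; intro l; exact htr1 _ (h _ (hd l)))
  obtain ⟨Γ, h0, hmono, hper, hgap⟩ := pattern_of_gaps (by omega : 1 ≤ m) hg0 hgs
  have hcast : ((t + 1 : ℕ) : ℝ) = (t : ℝ) + 1 := by push_cast; ring
  refine ⟨m, Γ, by omega, h0, hmono, hper, fun l => ?_, fun i hi => ?_⟩
  · rw [hgap]
    rcases hgall (l % m) (Nat.mod_lt _ (by omega)) with ⟨i, hi⟩ | h | h
    · rw [hcast] at hi; exact ⟨d i, hd i, hi⟩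
    · rw [hcast] at h; exact ⟨α, hαA, h⟩
    · rw [hcast] at h; exact ⟨β, hβA, h⟩
  · refine ⟨i, by omega, ?_⟩
    rw [hgap, Nat.mod_eq_of_lt (by omega)]
    have := hgv i (by omega)
    rw [hcast] at this
    exact this

end Pool.Agent.H521.G
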