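import Mathlib

open MeasureTheory Set Filter Topology

namespace Pool.Agent.H521.G

theorem pnasymp_aux_log : Tendsto (fun n : ℕ => Real.log (n : ℝ)) atTop atTop :=
  Real.tendsto_log_atTop.comp tendsto_natCast_atTop_atTop

theorem pnasymp_aux_succ : Tendsto (fun n : ℕ => ((n + 1 : ℕ) : ℝ) / n) atTop (𝓝 1) := by
  have h1 : Tendsto (fun n : ℕ => 1 + 1 / (n : ℝ)) atTop (𝓝 (1 + 0)) :=
    tendsto_const_nhds.add tendsto_one_div_atTop_nhds_zero_nat
  rw [add_zero] at h1
  refine h1.congr' ?_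
  filter_upwards [eventually_ge_atTop 1] with n hn
  have hn0 : (n : ℝ) ≠ 0 := by positivity
  push_cast
  field_simp

theorem pnasymp_aux_logsucc :
    Tendsto (fun n : ℕ => Real.log ((n + 1 : ℕ) : ℝ) / Real.log n) atTop (𝓝 1) := by
  have h1 : Tendsto (fun n : ℕ => Real.log (((n + 1 : ℕ) : ℝ) / n)) atTop (𝓝 0) := by
    have := pnasymp_aux_succ.log one_ne_zero
    rwa [Real.log_one] at this
  have h2 : Tendsto (fun n : ℕ => 1 + Real.log (((n + 1 : ℕ) : ℝ) / n) / Real.log n) atTop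
      (𝓝 (1 + 0)) := tendsto_const_nhds.add (h1.div_atTop pnasymp_aux_log)
  rw [add_zero] at h2
  refine h2.congr' ?_
  filter_upwards [eventually_ge_atTop 2] with n hn
  have hn0 : (n : ℝ) ≠ 0 := by positivity
  have hn1 : ((n + 1 : ℕ) : ℝ) ≠ 0 := by positivity
  have hl : Real.log (n : ℝ) ≠ 0 := (Real.log_pos (by exact_mod_cast hn)).ne'
  rw [Real.log_div hn1 hn0]
  field_simp
  ring

theorem pnasymp_aux_ratio :
    Tendsto (fun n : ℕ => (((n + 1 : ℕ) : ℝ) * Real.log ((n + 1 : ℕ) : ℝ)) / (n * Real.log n))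
      atTop (𝓝 1) := by
  have h := pnasymp_aux_succ.mul pnasymp_aux_logsucc
  rw [mul_one] at h
  refine h.congr fun n => ?_
  rw [div_mul_div_comm]

theorem pnasymp_aux_lp {p : ℕ → ℝ} (hpt : Tendsto p atTop atTop)
    (h : Tendsto (fun n : ℕ => n * Real.log (p n) / p n) atTop (𝓝 1)) :
    Tendsto (fun n : ℕ => Real.log n / Real.log (p n)) atTop (𝓝 1) := by
  have hL : Tendsto (fun n : ℕ => Real.log (p n)) atTop atTop := Real.tendsto_log_atTop.comp hpt
  have h1 : Tendsto (fun n : ℕ => Real.log (n * Real.log (p n) / p n)) atTop (𝓝 0) := by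
    have := h.log one_ne_zero
    rwa [Real.log_one] at this
  have h2 : Tendsto (fun n : ℕ => Real.log (Real.log (p n)) / Real.log (p n)) atTop (𝓝 0) :=
    Real.isLittleO_log_id_atTop.tendsto_div_nhds_zero.comp hL
  have h3 : Tendsto (fun n : ℕ => 1 + Real.log (n * Real.log (p n) / p n) / Real.log (p n) -
      Real.log (Real.log (p n)) / Real.log (p n)) atTop (𝓝 (1 + 0 - 0)) :=
    (tendsto_const_nhds.add (h1.div_atTop hL)).sub h2
  rw [add_zero, sub_zero] at h3
  refine h3.congr' ?_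
  filter_upwards [eventually_ge_atTop 1, hpt.eventually_gt_atTop 1] with n hn hp
  have hn0 : (n : ℝ) ≠ 0 := by positivity
  have hp0 : p n ≠ 0 := by linarith
  have hl : Real.log (p n) ≠ 0 := (Real.log_pos hp).ne'
  rw [Real.log_div (mul_ne_zero hn0 hl) hp0, Real.log_mul hn0 hl]
  field_simp
  ring

theorem pn_asymp {p : ℕ → ℝ} (hpt : Tendsto p atTop atTop)
    (h : Tendsto (fun n : ℕ => n * Real.log (p n) / p n) atTop (𝓝 1)) :
    Tendsto (fun n : ℕ => p n / (n * Real.log n)) atTop (𝓝 1) ∧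
      Tendsto (fun n : ℕ => p (n + 1) / p n) atTop (𝓝 1) := by
  have hlp := pnasymp_aux_lp hpt h
  have h1 : Tendsto (fun n : ℕ => p n / (n * Real.log n)) atTop (𝓝 1) := by
    have h2 := (h.inv₀ one_ne_zero).mul (hlp.inv₀ one_ne_zero)
    rw [inv_one, mul_one] at h2
    refine h2.congr' ?_
    filter_upwards [hpt.eventually_gt_atTop 1] with n hp
    have hl : Real.log (p n) ≠ 0 := (Real.log_pos hp).ne'
    rw [inv_div, inv_div, div_mul_div_comm, mul_comm (p n), mul_comm (n * Real.log (p n)), ← mul_assoc,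
      mul_comm (Real.log n) (n : ℝ), mul_comm (Real.log (p n)) (p n)]
    exact mul_div_mul_right _ _ hl
  refine ⟨h1, ?_⟩
  have h3 : Tendsto (fun n : ℕ => p (n + 1) / (((n + 1 : ℕ) : ℝ) * Real.log ((n + 1 : ℕ) : ℝ)))
      atTop (𝓝 1) := h1.comp (tendsto_add_atTop_nat 1)
  have h4 := (h3.mul pnasymp_aux_ratio).mul (h1.inv₀ one_ne_zero)
  rw [inv_one, mul_one, mul_one] at h4
  refine h4.congr' ?_
  filter_upwards [eventually_ge_atTop 2] with n hn
  have hn0 : (n : ℝ) ≠ 0 := by positivity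
  have hn1 : ((n + 1 : ℕ) : ℝ) ≠ 0 := by positivity
  have hl : Real.log (n : ℝ) ≠ 0 := (Real.log_pos (by exact_mod_cast hn)).ne'
  have hl1 : Real.log ((n + 1 : ℕ) : ℝ) ≠ 0 :=
    (Real.log_pos (by exact_mod_cast (by omega : 1 < n + 1))).ne'
  rw [div_mul_div_cancel₀ (mul_ne_zero hn1 hl1), inv_div, div_mul_div_cancel₀ (mul_ne_zero hn0 hl)]

end Pool.Agent.H521.G
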