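import Pool.Agent.H521.G.Win2

open MeasureTheory Set Filter Topology
open scoped ENNReal NNReal ComplexConjugate

namespace Pool.Agent.H521.G

/-- Data: a sequence of intervals `(a i, b i]` with prescribed sets of points. -/
structure PD (f : ℝ → ℝ) (x₀ : ℝ) where
  a : ℕ → ℝ
  b : ℕ → ℝ
  A : ℕ → Finset ℝ
  ha : ∀ i, x₀ ≤ a i
  h8 : ∀ i, 8 * Real.log (a i) ≤ a i
  hF0 : 2 ≤ Fp f x₀ (a 0)
  hab : ∀ i, a i ≤ b i
  hba : ∀ i, Fp f x₀ (b i) + 2 ≤ Fp f x₀ (a (i + 1))
  hA : ∀ i, ∀ x ∈ A i, a i < x ∧ x ≤ b i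
  hS : ∀ σ : ℝ, 1 / 2 < σ → Summable fun i => (b i - a i + (A i).card + 2) * a i ^ (-σ)

namespace PD

variable {f : ℝ → ℝ} {x₀ : ℝ} (P : PD f x₀)

/-- the beginning of the `i`-th group of cells -/
noncomputable def bs : ℕ → ℝ
  | 0 => 0
  | (i + 1) => Fp f x₀ (P.b i) + 1

/-- the number of cells in the `i`-th group -/
noncomputable def m (i : ℕ) : ℕ := ⌊Fp f x₀ (P.a i) - P.bs i⌋₊

theorem room (i : ℕ) : 1 ≤ Fp f x₀ (P.a i) - P.bs i := by
  cases i with
  | zero => have := P.hF0; unfold bs; linarith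
  | succ i => have := P.hba i; unfold bs; linarith

theorem m_pos (i : ℕ) : 0 < P.m i := Nat.floor_pos.2 (P.room i)

theorem m_le (i : ℕ) : P.bs i + P.m i ≤ Fp f x₀ (P.a i) := by
  have := Nat.floor_le (by linarith [P.room i] : 0 ≤ Fp f x₀ (P.a i) - P.bs i)
  unfold m
  linarith

theorem lt_m (i : ℕ) : Fp f x₀ (P.a i) < P.bs i + P.m i + 1 := by
  have := Nat.lt_floor_add_one (Fp f x₀ (P.a i) - P.bs i)
  unfold m
  linarith

/-- the last cell of the `i`-th group -/
noncomputable def L (i : ℕ) : ℕ := KK P.m i + (P.m i - 1)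

theorem L_lt (i : ℕ) : P.m i - 1 < P.m i := Nat.sub_lt (P.m_pos i) one_pos

theorem blk_L (i : ℕ) : blk P.m (P.L i) = i := blk_eq P.m_pos (P.L_lt i)

theorem pos_L (i : ℕ) : pos P.m (P.L i) = P.m i - 1 := pos_eq P.m_pos (P.L_lt i)

theorem L_inj : Function.Injective P.L := fun i j h => by
  have h1 := P.blk_L i
  rw [h, P.blk_L] at h1
  exact h1.symm

theorem mem_range_L {j : ℕ} (h : pos P.m j + 1 = P.m (blk P.m j)) : P.L (blk P.m j) = j := by
  have h2 := KK_add_pos P.m_pos j
  unfold L
  omega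

/-- cell boundaries -/
noncomputable def Y (j : ℕ) : ℝ := P.bs (blk P.m j) + pos P.m j

/-- window lengths -/
noncomputable def w (j : ℕ) : ℝ := if pos P.m j + 1 = P.m (blk P.m j) then
  P.bs (blk P.m j + 1) - P.bs (blk P.m j) - P.m (blk P.m j) else 0

/-- numbers of prescribed points -/
noncomputable def r (j : ℕ) : ℕ := if pos P.m j + 1 = P.m (blk P.m j) then
  (P.A (blk P.m j)).card else 0

/-- prescribed points -/
noncomputable def t (j l : ℕ) : ℝ :=
  if h : l < (P.A (blk P.m j)).card then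
    Fp f x₀ ((P.A (blk P.m j)).orderEmbOfFin rfl ⟨l, h⟩) else 0

theorem r_lt {j l : ℕ} (h : l < P.r j) : pos P.m j + 1 = P.m (blk P.m j) ∧
    l < (P.A (blk P.m j)).card := by
  unfold r at h
  split_ifs at h with h1
  · exact ⟨h1, h⟩
  · exact absurd h (Nat.not_lt_zero l)

theorem Ys (j : ℕ) : P.Y (j + 1) = P.Y j + 1 + P.w j := by
  unfold Y w
  rcases blk_succ P.m_pos j with ⟨h1, h2, h3⟩ | ⟨h1, h2, h3⟩
  · rw [h2, h3, if_neg (by omega)]
    push_cast
    ring
  · rw [h2, h3, if_pos h1, ← h1]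
    push_cast
    ring

variable (hR : RDens f x₀)
include hR

theorem w_ge (i : ℕ) : 1 ≤ P.bs (i + 1) - P.bs i - P.m i := by
  have h1 := P.m_le i
  have h2 := hR.F_mono (P.ha i) (P.hab i)
  have e : P.bs (i + 1) = Fp f x₀ (P.b i) + 1 := rfl
  rw [e]
  linarith

theorem w_le (i : ℕ) : P.bs (i + 1) - P.bs i - P.m i ≤ P.b i - P.a i + 2 := by
  have h1 := P.lt_m i
  have h2 := hR.F_sub_le (P.ha i) (P.hab i)
  have e : P.bs (i + 1) = Fp f x₀ (P.b i) + 1 := rfl
  rw [e]
  linarith

theorem bs_nonneg (i : ℕ) : 0 ≤ P.bs i := by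
  cases i with
  | zero => exact le_rfl
  | succ i =>
    have h1 := hR.F_mono le_rfl ((P.ha i).trans (P.hab i))
    rw [hR.F_zero] at h1
    unfold bs
    linarith

/-- The windows. -/
noncomputable def toW : Wdata f x₀ where
  Y := P.Y
  w := P.w
  r := P.r
  t := P.t
  Y0 := by
    have h1 := blk_eq P.m_pos (P.m_pos 0)
    have h2 := pos_eq P.m_pos (P.m_pos 0)
    rw [add_zero, KK_zero] at h1 h2
    unfold Y
    rw [h1, h2]
    simp [bs]
  Ys := P.Ys
  w0 j := by
    unfold w
    split_ifs with h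
    · linarith [P.w_ge hR (blk P.m j)]
    · exact le_rfl
  tl j l hl := by
    obtain ⟨h1, h2⟩ := P.r_lt hl
    unfold t Y
    rw [dif_pos h2]
    have hmem := (P.A (blk P.m j)).orderEmbOfFin_mem rfl ⟨l, h2⟩
    obtain ⟨h3, h4⟩ := P.hA _ _ hmem
    have h5 := hR.F_strict (P.ha _) h3
    have h6 := P.m_le (blk P.m j)
    rw [← h1] at h6
    push_cast at h6
    linarith
  tu j l hl := by
    obtain ⟨h1, h2⟩ := P.r_lt hl
    have hmem := (P.A (blk P.m j)).orderEmbOfFin_mem rfl ⟨l, h2⟩
    obtain ⟨h3, h4⟩ := P.hA _ _ hmem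
    have h5 := hR.F_mono ((P.ha _).trans h3.le) h4
    have e1 : P.Y (j + 1) = P.bs (blk P.m j + 1) := by
      rw [P.Ys]
      unfold Y w
      rw [if_pos h1, ← h1]
      push_cast
      ring
    have e : P.bs (blk P.m j + 1) = Fp f x₀ (P.b (blk P.m j)) + 1 := rfl
    rw [e1, e]
    unfold t
    rw [dif_pos h2]
    linarith
  tm j l hl := by
    obtain ⟨h1, h2⟩ := P.r_lt hl
    have h2' : l < (P.A (blk P.m j)).card := by omega
    unfold t
    rw [dif_pos h2, dif_pos h2']
    have hmem := (P.A (blk P.m j)).orderEmbOfFin_mem rfl ⟨l, h2'⟩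
    obtain ⟨h3, h4⟩ := P.hA _ _ hmem
    apply hR.F_strict ((P.ha _).trans h3.le)
    apply ((P.A (blk P.m j)).orderEmbOfFin rfl).strictMono
    exact Fin.mk_lt_mk.2 (Nat.lt_succ_self l)
  hS σ hσ := by
    rw [← P.L_inj.summable_iff]
    · refine Summable.of_nonneg_of_le (fun i => ?_) (fun i => ?_)
        ((P.hS σ hσ).mul_left ((2 : ℝ) ^ σ))
      · simp only [Function.comp]
        apply mul_nonneg _ (Real.rpow_nonneg (hR.phi_pos _).le _)
        apply add_nonneg _ (Nat.cast_nonneg _)
        unfold w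
        split_ifs
        · linarith [P.w_ge hR (blk P.m (P.L i))]
        · exact le_rfl
      · simp only [Function.comp]
        have hp : pos P.m (P.L i) + 1 = P.m (blk P.m (P.L i)) := by
          rw [P.blk_L, P.pos_L]
          have := P.m_pos i
          omega
        have e1 : P.w (P.L i) = P.bs (i + 1) - P.bs i - P.m i := by
          unfold w
          rw [if_pos hp, P.blk_L]
        have e2 : P.r (P.L i) = (P.A i).card := by
          unfold r
          rw [if_pos hp, P.blk_L]
        have e3 : P.Y (P.L i) = P.bs i + P.m i - 1 := by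
          unfold Y
          rw [P.blk_L, P.pos_L, Nat.cast_sub (P.m_pos i)]
          push_cast
          ring
        rw [e1, e2, e3]
        have h1 := P.w_le hR i
        have h2 := P.w_ge hR i
        have hb := P.bs_nonneg hR i
        have hm : (1 : ℝ) ≤ P.m i := by exact_mod_cast P.m_pos i
        have ha := P.ha i
        have ha0 : 0 < P.a i := by linarith [hR.dens.hx₀]
        have h3 : P.a i / 2 ≤ phi f x₀ (P.bs i + P.m i - 1) := by
          have h4 := hR.phi_sub_le (by linarith : 0 ≤ P.bs i + P.m i - 1)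
            (by linarith [P.m_le i] : P.bs i + P.m i - 1 ≤ Fp f x₀ (P.a i))
          rw [hR.phi_F ha] at h4
          have h5 := P.lt_m i
          have h6 := P.h8 i
          have h7 := hR.hlog _ ha
          nlinarith
        have h4 : phi f x₀ (P.bs i + P.m i - 1) ^ (-σ) ≤ 2 ^ σ * P.a i ^ (-σ) := by
          calc _ ≤ (P.a i / 2) ^ (-σ) :=
                Real.rpow_le_rpow_of_nonpos (by linarith) h3 (by linarith)
            _ = _ := by
                rw [Real.div_rpow ha0.le two_pos.le, Real.rpow_neg two_pos.le, div_inv_eq_mul,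
                  mul_comm]
        have h5 : 0 ≤ phi f x₀ (P.bs i + P.m i - 1) ^ (-σ) := Real.rpow_nonneg (hR.phi_pos _).le _
        have h6 : (0 : ℝ) ≤ (P.A i).card := Nat.cast_nonneg _
        calc (P.bs (i + 1) - P.bs i - P.m i + (P.A i).card) *
              phi f x₀ (P.bs i + P.m i - 1) ^ (-σ) ≤
            (P.b i - P.a i + (P.A i).card + 2) * (2 ^ σ * P.a i ^ (-σ)) := by
              apply mul_le_mul (by linarith) h4 h5
              linarith [P.hab i]
          _ = _ := by ring
    · intro j hj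
      have hn : pos P.m j + 1 ≠ P.m (blk P.m j) := fun h => hj ⟨_, P.mem_range_L h⟩
      unfold w r
      rw [if_neg hn, if_neg hn]
      simp

/-- The primes in the windows are exactly the prescribed points. -/
theorem mem_iff {V : ℕ → ℝ} (hV : ∀ j, V j ∈ Ico (0 : ℝ) 1) (i : ℕ) (x : ℝ)
    (hx : x ∈ Ioc (P.a i) (P.b i)) :
    (∃ k, phi f x₀ ((P.toW hR).yk V k) = x) ↔ x ∈ P.A i := by
  set W := P.toW hR with hW
  have hx0 : x₀ ≤ x := (P.ha i).trans hx.1.le
  constructor
  · rintro ⟨k, hk⟩
    have hy : W.yk V k = Fp f x₀ x := by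
      rw [← hk, hR.F_phi (W.yk_nonneg hV k)]
    have h1 := hR.F_strict (P.ha i) hx.1
    have h2 := hR.F_mono hx0 hx.2
    rw [← hy] at h1 h2
    have hlo := W.Y_le_yk hV k
    have hhi := W.yk_lt_Y hV k
    set j := blk W.n k with hj
    -- the block is the last cell of group `i`
    have hYL : W.Y (P.L i) + 1 ≤ Fp f x₀ (P.a i) := by
      change P.Y (P.L i) + 1 ≤ _
      unfold Y
      rw [P.blk_L, P.pos_L, Nat.cast_sub (P.m_pos i)]
      push_cast
      linarith [P.m_le i]
    have hYL2 : W.Y (P.L i + 1) = Fp f x₀ (P.b i) + 1 := by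
      change P.Y (P.L i + 1) = _
      have hp : pos P.m (P.L i) + 1 = P.m (blk P.m (P.L i)) := by
        rw [P.blk_L, P.pos_L]
        have := P.m_pos i
        omega
      rw [P.Ys]
      unfold Y w
      rw [if_pos hp, P.blk_L, P.pos_L, Nat.cast_sub (P.m_pos i)]
      have e : P.bs (i + 1) = Fp f x₀ (P.b i) + 1 := rfl
      rw [e]
      push_cast
      ring
    have hjL : j = P.L i := by
      apply le_antisymm
      · by_contra hc
        push Not at hc
        have := W.Y_mono (Nat.succ_le_of_lt hc)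
        have e : (P.L i).succ = P.L i + 1 := rfl
        rw [e, hYL2] at this
        linarith
      · by_contra hc
        push Not at hc
        have := W.Y_mono (Nat.succ_le_of_lt hc)
        have e : j.succ = j + 1 := rfl
        rw [e] at this
        linarith
    unfold Wdata.yk at h1 hy
    rw [← hj] at h1 hy
    split_ifs at h1 hy with h0
    · exfalso
      have := (hV j).2
      rw [hjL] at h1
      rw [hjL] at this
      linarith
    · have hl := pos_lt W.n_pos k
      rw [W.n_eq, ← hj] at hl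
      have hr : pos W.n k - 1 < P.r j := by
        have e : W.r j = P.r j := rfl
        rw [e] at hl
        omega
      obtain ⟨h3, h4⟩ := P.r_lt hr
      have e : W.t j (pos W.n k - 1) = P.t j (pos W.n k - 1) := rfl
      rw [e] at hy
      unfold t at hy
      rw [dif_pos h4] at hy
      have hmem := (P.A (blk P.m j)).orderEmbOfFin_mem rfl ⟨_, h4⟩
      obtain ⟨h5, h6⟩ := P.hA _ _ hmem
      have h7 := hR.F_inj ((P.ha _).trans h5.le) hx0 hy
      have e2 : blk P.m j = i := by rw [hjL, P.blk_L]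
      rw [h7, e2] at hmem
      exact hmem
  · intro hmem
    have hmem' : x ∈ (P.A i : Set ℝ) := hmem
    rw [← (P.A i).range_orderEmbOfFin rfl] at hmem'
    obtain ⟨⟨l, hl⟩, hlx⟩ := hmem'
    have hp : pos P.m (P.L i) + 1 = P.m (blk P.m (P.L i)) := by
      rw [P.blk_L, P.pos_L]
      have := P.m_pos i
      omega
    have hr : l < W.r (P.L i) := by
      change l < P.r (P.L i)
      unfold r
      rw [if_pos hp, P.blk_L]
      exact hl
    refine ⟨KK W.n (P.L i) + (l + 1), ?_⟩
    rw [W.yk_succ V hr]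
    change phi f x₀ (P.t (P.L i) l) = x
    have h1 : l < (P.A (blk P.m (P.L i))).card := by rw [P.blk_L]; exact hl
    have key : ∀ i' (h : i' = i) (h' : l < (P.A i').card),
        (P.A i').orderEmbOfFin rfl ⟨l, h'⟩ = x := by
      rintro i' rfl h'
      exact hlx
    unfold t
    rw [dif_pos h1, key _ (P.blk_L i) h1, hR.phi_F hx0]

end PD

end Pool.Agent.H521.G
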