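import Pool.Agent.H521.G.Presc
import Pool.Agent.H521.G.Transfer

open MeasureTheory Set Filter Topology
open scoped ENNReal NNReal ComplexConjugate

namespace Pool.Agent.H521.G

/-- **Prescribed primes in sparse intervals.** -/
theorem presc_exists {Z : Multiset ℂ} (hZ : ∀ ρ ∈ Z, ρ.re < 1) (hZc : Z.map conj = Z)
    {a b : ℕ → ℝ} {A : ℕ → Finset ℝ} (hat : Tendsto a atTop atTop)
    (hab : ∀ᶠ n in atTop, a n ≤ b n)
    (hba : ∀ᶠ n in atTop, b n + 4 * Real.log (a (n + 1)) ≤ a (n + 1))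
    (hA : ∀ᶠ n in atTop, ∀ x ∈ A n, a n < x ∧ x ≤ b n)
    (hS : ∀ σ : ℝ, 1 / 2 < σ → Summable fun n => (b n - a n + (A n).card + 2) * a n ^ (-σ)) :
    ∃ p : ℕ → ℝ, Sys Z p ∧ ∀ᶠ n in atTop, ∀ x ∈ Ioc (a n) (b n), (∃ k, p k = x) ↔ x ∈ A n := by
  obtain ⟨x₀, hR⟩ := exists_RDens hZ
  obtain ⟨X, hX0, hX2⟩ := hR.F_large 2
  have h8 : ∀ᶠ x : ℝ in atTop, 8 * Real.log x ≤ x := by
    have h1 := Real.isLittleO_log_id_atTop.bound (by norm_num : (0 : ℝ) < 1 / 8)
    filter_upwards [h1, eventually_ge_atTop 1] with x hx hx1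
    simp only [id, Real.norm_eq_abs] at hx
    rw [abs_of_nonneg (Real.log_nonneg hx1), abs_of_nonneg (by linarith)] at hx
    linarith
  obtain ⟨N, hN⟩ := eventually_atTop.1 (hab.and (hba.and (hA.and
    ((hat.eventually_ge_atTop X).and (hat.eventually h8)))))
  let P : PD (fZ Z) x₀ :=
    { a := fun i => a (N + i)
      b := fun i => b (N + i)
      A := fun i => A (N + i)
      ha := fun i => hX0.trans (hN (N + i) (Nat.le_add_right _ _)).2.2.2.1
      h8 := fun i => (hN (N + i) (Nat.le_add_right _ _)).2.2.2.2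
      hF0 := hX2.trans (hR.F_mono hX0 (hN (N + 0) (Nat.le_add_right _ _)).2.2.2.1)
      hab := fun i => (hN (N + i) (Nat.le_add_right _ _)).1
      hba := fun i => by
        obtain ⟨h1, h2, h3, h4, h5⟩ := hN (N + i) (Nat.le_add_right _ _)
        have h6 := (hN (N + (i + 1)) (Nat.le_add_right _ _)).2.2.2.1
        have e : N + (i + 1) = N + i + 1 := rfl
        rw [e] at h6 ⊢
        have hx1 : x₀ ≤ b (N + i) := (hX0.trans h4).trans h1
        have hl := hR.hlog _ (hX0.trans h6)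
        have h7 : b (N + i) ≤ a (N + i + 1) := by linarith
        have h8 := hR.F_sub_ge hx1 h7
        have h9 : (2 : ℝ) ≤ (a (N + i + 1) - b (N + i)) / (2 * Real.log (a (N + i + 1))) := by
          rw [le_div_iff₀ (by positivity)]
          linarith
        linarith
      hA := fun i => (hN (N + i) (Nat.le_add_right _ _)).2.2.1
      hS := fun σ hσ => by
        have := (summable_nat_add_iff N).2 (hS σ hσ)
        refine this.congr fun i => ?_
        rw [Nat.add_comm i N] }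
  obtain ⟨V, hV, hsys⟩ := (P.toW hR).system hR hZ hZc rfl
  refine ⟨_, hsys, ?_⟩
  filter_upwards [eventually_ge_atTop N] with n hn x hx
  obtain ⟨i, rfl⟩ := Nat.exists_eq_add_of_le hn
  exact P.mem_iff hR hV i x hx

/-- Prescribed primes in intervals to the right of the squares. -/
theorem presc_squares {Z : Multiset ℂ} (hZ : ∀ ρ ∈ Z, ρ.re < 1) (hZc : Z.map conj = Z)
    {h : ℕ → ℝ} {A : ℕ → Finset ℝ} (h0 : ∀ n, 0 ≤ h n) (h1 : ∀ᶠ n : ℕ in atTop, h n ≤ n)
    (hA : ∀ n : ℕ, ∀ x ∈ A n, (n : ℝ) ^ 2 < x ∧ x ≤ (n : ℝ) ^ 2 + h n)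
    (hS : ∀ σ : ℝ, 1 < σ → Summable fun n : ℕ => (h n + (A n).card) * (n : ℝ) ^ (-σ)) :
    ∃ p : ℕ → ℝ, Sys Z p ∧ ∀ᶠ n : ℕ in atTop, ∀ x ∈ Ioc ((n : ℝ) ^ 2) ((n : ℝ) ^ 2 + h n),
      (∃ k, p k = x) ↔ x ∈ A n := by
  have hsq : Tendsto (fun n : ℕ => (n : ℝ) ^ 2) atTop atTop :=
    (tendsto_pow_atTop two_ne_zero).comp tendsto_natCast_atTop_atTop
  refine presc_exists hZ hZc hsq ?_ ?_ ?_ ?_
  · exact Eventually.of_forall fun n => by linarith [h0 n]
  · have h8 : ∀ᶠ n : ℕ in atTop, 8 * Real.log ((n : ℝ) + 1) ≤ (n : ℝ) + 1 := by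
      have h2 : ∀ᶠ x : ℝ in atTop, 8 * Real.log x ≤ x := by
        have h1 := Real.isLittleO_log_id_atTop.bound (by norm_num : (0 : ℝ) < 1 / 8)
        filter_upwards [h1, eventually_ge_atTop 1] with x hx hx1
        simp only [id, Real.norm_eq_abs] at hx
        rw [abs_of_nonneg (Real.log_nonneg hx1), abs_of_nonneg (by linarith)] at hx
        linarith
      exact (tendsto_atTop_add_const_right _ 1 tendsto_natCast_atTop_atTop).eventually h2
    filter_upwards [h1, h8] with n hn hn8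
    push_cast
    rw [Real.log_pow]
    push_cast
    nlinarith
  · exact Eventually.of_forall fun n x hx => by
      have := hA n x hx
      exact this
  · intro σ hσ
    have hs1 := hS (2 * σ) (by linarith)
    have hs2 : Summable fun n : ℕ => (n : ℝ) ^ (-(2 * σ)) :=
      Real.summable_nat_rpow.2 (by linarith)
    refine (hs1.add (hs2.mul_left 2)).congr fun n => ?_
    have e : ((n : ℝ) ^ 2) ^ (-σ) = (n : ℝ) ^ (-(2 * σ)) := by
      rw [← Real.rpow_natCast (n : ℝ) 2, ← Real.rpow_mul (Nat.cast_nonneg n)]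
      congr 1
      push_cast
      ring
    rw [e]
    ring

end Pool.Agent.H521.G
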