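import Mathlib

open MeasureTheory Set Filter Topology

namespace Pool.Agent.H521.G

theorem prim_asymp_deriv {u : ℝ} (hu : 2 ≤ Real.log u) (hu0 : 0 < u) :
    HasDerivAt (fun x : ℝ => x / Real.log x) ((Real.log u - 1) / Real.log u ^ 2) u := by
  have h1 := (hasDerivAt_id u).div (Real.hasDerivAt_log hu0.ne') (by
    show Real.log u ≠ 0
    linarith)
  have e : (1 * Real.log u - id u * u⁻¹) / Real.log u ^ 2 = (Real.log u - 1) / Real.log u ^ 2 := by
    rw [one_mul, id, mul_inv_cancel₀ hu0.ne']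
  rw [e] at h1
  exact h1

theorem prim_asymp_bound {e l y : ℝ} (he : 0 < e) (h : |y * l - 1| < e) (hl : 2 ≤ l)
    (hle : 1 / e ≤ l) :
    (1 - 4 * e) * ((l - 1) / l ^ 2) ≤ y ∧ y ≤ (1 + 4 * e) * ((l - 1) / l ^ 2) := by
  have hl0 : 0 < l := by linarith
  have h1 : 1 ≤ e * l := by
    rw [div_le_iff₀ he] at hle
    linarith
  obtain ⟨h2, h3⟩ := abs_lt.1 h
  have h4 := mul_lt_mul_of_pos_right h2 hl0
  have h5 := mul_lt_mul_of_pos_right h3 hl0
  have h6 : e * 2 ≤ e * l := mul_le_mul_of_nonneg_left hl he.le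
  constructor
  · rw [← mul_div_assoc, div_le_iff₀ (by positivity)]
    nlinarith
  · rw [← mul_div_assoc, le_div_iff₀ (by positivity)]
    nlinarith

theorem prim_asymp {f : ℝ → ℝ} {x₀ : ℝ} (hx₀ : 1 < x₀) (hf : ContinuousOn f (Ici x₀))
    (h : Tendsto (fun u => f u * Real.log u) atTop (𝓝 1)) :
    Tendsto (fun x => (∫ u in x₀..x, f u) * Real.log x / x) atTop (𝓝 1) := by
  rw [Metric.tendsto_atTop]
  intro ε hε
  have he : 0 < ε / 8 := by positivity
  have a1 : ∀ᶠ u in atTop, |f u * Real.log u - 1| < ε / 8 := by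
    have := Metric.tendsto_nhds.1 h (ε / 8) he
    refine this.mono fun u hu => ?_
    rwa [Real.dist_eq] at hu
  have a2 : ∀ᶠ u in atTop, 2 ≤ Real.log u := Real.tendsto_log_atTop.eventually_ge_atTop 2
  have a3 : ∀ᶠ u in atTop, 1 / (ε / 8) ≤ Real.log u :=
    Real.tendsto_log_atTop.eventually_ge_atTop _
  obtain ⟨X₁, hX₁⟩ := eventually_atTop.1 (a1.and (a2.and a3))
  obtain ⟨X, hX⟩ : ∃ X, X = max X₁ x₀ := ⟨_, rfl⟩
  have hXX : X₁ ≤ X := by rw [hX]; exact le_max_left _ _
  have hX0 : x₀ ≤ X := by rw [hX]; exact le_max_right _ _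
  have hX1 : 1 < X := lt_of_lt_of_le hx₀ hX0
  -- the integrals over `[X, x]`
  have hint : ∀ x, X ≤ x → IntervalIntegrable f volume X x := fun x hx =>
    (hf.mono (by
      rw [uIcc_of_le hx]
      intro y hy
      exact hX0.trans hy.1)).intervalIntegrable
  have hlog : ∀ u, X ≤ u → 2 ≤ Real.log u := fun u hu => (hX₁ u (hXX.trans hu)).2.1
  have hg : ∀ x, X ≤ x → ∀ c : ℝ,
      (∫ u in X..x, c * ((Real.log u - 1) / Real.log u ^ 2)) =
        c * (x / Real.log x - X / Real.log X) ∧
      IntervalIntegrable (fun u => c * ((Real.log u - 1) / Real.log u ^ 2)) volume X x := by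
    intro x hx c
    have hc : ContinuousOn (fun u : ℝ => (Real.log u - 1) / Real.log u ^ 2) (uIcc X x) := by
      rw [uIcc_of_le hx]
      have hl : ContinuousOn Real.log (Icc X x) := by
        refine Real.continuousOn_log.mono fun y hy => ?_
        have : 1 < y := lt_of_lt_of_le hX1 hy.1
        simp only [mem_compl_iff, mem_singleton_iff]
        linarith
      refine (hl.sub continuousOn_const).div (hl.pow 2) fun y hy => ?_
      have := hlog y hy.1
      positivity
    have hi := hc.intervalIntegrable (μ := volume)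
    refine ⟨?_, hi.const_mul c⟩
    rw [intervalIntegral.integral_const_mul]
    congr 1
    refine intervalIntegral.integral_eq_sub_of_hasDerivAt
      (f := fun x : ℝ => x / Real.log x) (fun u hu => ?_) hi
    rw [uIcc_of_le hx] at hu
    exact prim_asymp_deriv (hlog u hu.1) (by linarith [hu.1])
  have hup : ∀ x, X ≤ x → (∫ u in X..x, f u) ≤
      (1 + 4 * (ε / 8)) * (x / Real.log x - X / Real.log X) := by
    intro x hx
    obtain ⟨e1, e2⟩ := hg x hx (1 + 4 * (ε / 8))
    rw [← e1]
    refine intervalIntegral.integral_mono_on hx (hint x hx) e2 fun u hu => ?_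
    obtain ⟨b1, b2, b3⟩ := hX₁ u (hXX.trans hu.1)
    exact (prim_asymp_bound he b1 b2 b3).2
  have hlo : ∀ x, X ≤ x → (1 - 4 * (ε / 8)) * (x / Real.log x - X / Real.log X) ≤
      (∫ u in X..x, f u) := by
    intro x hx
    obtain ⟨e1, e2⟩ := hg x hx (1 - 4 * (ε / 8))
    rw [← e1]
    refine intervalIntegral.integral_mono_on hx e2 (hint x hx) fun u hu => ?_
    obtain ⟨b1, b2, b3⟩ := hX₁ u (hXX.trans hu.1)
    exact (prim_asymp_bound he b1 b2 b3).1
  have hsplit : ∀ x, X ≤ x → (∫ u in x₀..x, f u) = (∫ u in x₀..X, f u) + ∫ u in X..x, f u := by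
    intro x hx
    refine (intervalIntegral.integral_add_adjacent_intervals ?_ (hint x hx)).symm
    refine (hf.mono ?_).intervalIntegrable
    rw [uIcc_of_le hX0]
    intro y hy
    exact hy.1
  obtain ⟨C, hC⟩ : ∃ C : ℝ, C = |(∫ u in x₀..X, f u) - X / Real.log X| := ⟨_, rfl⟩
  have hlim : Tendsto (fun x : ℝ => C * (Real.log x / x)) atTop (𝓝 0) := by
    have h1 : Tendsto (fun x : ℝ => Real.log x / x) atTop (𝓝 0) :=
      Real.isLittleO_log_id_atTop.tendsto_div_nhds_zero
    have h2 := h1.const_mul C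
    rwa [mul_zero] at h2
  have a4 : ∀ᶠ x in atTop, C * (Real.log x / x) < ε / 2 := hlim.eventually_lt_const (by positivity)
  obtain ⟨N, hN⟩ := eventually_atTop.1 (a4.and (eventually_ge_atTop X))
  refine ⟨N, fun x hx => ?_⟩
  obtain ⟨c1, c2⟩ := hN x hx
  have hx0 : 0 < x := by linarith
  have hl := hlog x c2
  have hl0 : 0 < Real.log x := by linarith
  have hG0 : 0 < x / Real.log x := by positivity
  have hGX : 0 < X / Real.log X := by
    have := hlog X le_rfl
    positivity
  have hF := hsplit x c2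
  have hu := hup x c2
  have hd := hlo x c2
  have hC1 : (∫ u in x₀..X, f u) - X / Real.log X ≤ C := by rw [hC]; exact le_abs_self _
  have hC2 : -C ≤ (∫ u in x₀..X, f u) - X / Real.log X := by rw [hC]; exact neg_abs_le _
  have hkey : |(∫ u in x₀..x, f u) - x / Real.log x| ≤ C + ε / 2 * (x / Real.log x) := by
    rw [hF, abs_le]
    have hp : 0 < ε * (X / Real.log X) := by positivity
    constructor
    · nlinarith
    · nlinarith
  rw [Real.dist_eq]
  have e1 : (∫ u in x₀..x, f u) * Real.log x / x - 1 =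
      ((∫ u in x₀..x, f u) - x / Real.log x) * (Real.log x / x) := by
    field_simp
  rw [e1, abs_mul, abs_of_pos (by positivity : 0 < Real.log x / x)]
  calc |(∫ u in x₀..x, f u) - x / Real.log x| * (Real.log x / x)
      ≤ (C + ε / 2 * (x / Real.log x)) * (Real.log x / x) :=
        mul_le_mul_of_nonneg_right hkey (by positivity)
    _ = C * (Real.log x / x) + ε / 2 := by field_simp
    _ < ε := by linarith

end Pool.Agent.H521.G
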