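import Pool.Agent.H521.G.Win2

open MeasureTheory Set Filter Topology
open scoped ENNReal NNReal ComplexConjugate

namespace Pool.Agent.H521.G

theorem exists_blk_real {p : ℕ → ℝ} (hpt : Tendsto p atTop atTop) {x : ℝ}
    (hx : p 0 ≤ x) : ∃ k, p k ≤ x ∧ x < p (k + 1) := by
  have hex : ∃ k, x < p k := (hpt.eventually_gt_atTop x).exists
  classical
  have hpos : Nat.find hex ≠ 0 := by
    intro h
    have := Nat.find_spec hex
    rw [h] at this
    linarith
  refine ⟨Nat.find hex - 1, not_lt.1 (Nat.find_min hex (by omega)), ?_⟩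
  have e : Nat.find hex - 1 + 1 = Nat.find hex := by omega
  rw [e]
  exact Nat.find_spec hex

/-- A schedule of windows: window `k` comes after cell `J k`, has length `Wd k` and contains
`r k` equally spaced points. -/
structure Sch (f : ℝ → ℝ) (x₀ : ℝ) where
  J : ℕ → ℕ
  Wd : ℕ → ℝ
  r : ℕ → ℕ
  Jm : StrictMono J
  W0 : ∀ k, 0 ≤ Wd k
  rW : ∀ k, 0 < r k → 0 < Wd k
  hS : ∀ σ : ℝ, 1 / 2 < σ → Summable fun k =>
    (Wd k + r k) * phi f x₀ (J k + ∑ i ∈ Finset.range k, Wd i) ^ (-σ)

namespace Sch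

variable {f : ℝ → ℝ} {x₀ : ℝ} (S : Sch f x₀)

/-- total length of the windows before window `k` -/
noncomputable def T (k : ℕ) : ℝ := ∑ i ∈ Finset.range k, S.Wd i

/-- total number of points in the windows before window `k` -/
def Rr (k : ℕ) : ℕ := ∑ i ∈ Finset.range k, S.r i

/-- start of window `k` -/
noncomputable def A (k : ℕ) : ℝ := S.J k + 1 + S.T k

/-- end of window `k` -/
noncomputable def E (k : ℕ) : ℝ := S.A k + S.Wd k

/-- density in window `k` -/
noncomputable def lam (k : ℕ) : ℝ := S.r k / S.Wd k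

/-- the clamp function -/
noncomputable def cl (k : ℕ) (y : ℝ) : ℝ := min (max (y - S.A k) 0) (S.Wd k)

/-- the template counting function near window `k` -/
noncomputable def M (k : ℕ) (y : ℝ) : ℝ := y + S.Rr k - S.T k + (S.lam k - 1) * S.cl k y

theorem T_succ (k : ℕ) : S.T (k + 1) = S.T k + S.Wd k := Finset.sum_range_succ _ _

theorem Rr_succ (k : ℕ) : S.Rr (k + 1) = S.Rr k + S.r k := Finset.sum_range_succ _ _

theorem T_nonneg (k : ℕ) : 0 ≤ S.T k := Finset.sum_nonneg fun i _ => S.W0 i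

theorem lam_nonneg (k : ℕ) : 0 ≤ S.lam k := div_nonneg (Nat.cast_nonneg _) (S.W0 k)

theorem lam_mul (k : ℕ) : S.lam k * S.Wd k = S.r k := by
  unfold lam
  rcases Nat.eq_zero_or_pos (S.r k) with h | h
  · rw [h]; simp
  · exact div_mul_cancel₀ _ (S.rW k h).ne'

theorem exists_kap (j : ℕ) : ∃ k, j ≤ S.J k := ⟨j, S.Jm.le_apply⟩

/-- the index of the next window -/
noncomputable def kap (j : ℕ) : ℕ := by
  classical
  exact Nat.find (S.exists_kap j)

theorem le_kap (j : ℕ) : j ≤ S.J (S.kap j) := by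
  classical
  exact Nat.find_spec (S.exists_kap j)

theorem lt_kap {j k : ℕ} (h : k < S.kap j) : S.J k < j := by
  classical
  exact not_le.1 (Nat.find_min (S.exists_kap j) h)

theorem kap_eq {j k : ℕ} (h1 : j ≤ S.J k) (h2 : ∀ i < k, S.J i < j) : S.kap j = k := by
  apply le_antisymm
  · by_contra hc
    push Not at hc
    exact absurd (S.lt_kap hc) (not_lt.2 h1)
  · by_contra hc
    push Not at hc
    exact absurd (h2 _ hc) (not_lt.2 (S.le_kap j))

theorem kap_zero : S.kap 0 = 0 := S.kap_eq (Nat.zero_le _) fun i hi => absurd hi (Nat.not_lt_zero i)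

theorem kap_J (k : ℕ) : S.kap (S.J k) = k := S.kap_eq le_rfl fun _ hi => S.Jm hi

theorem kap_succ_of_eq {j : ℕ} (h : S.J (S.kap j) = j) : S.kap (j + 1) = S.kap j + 1 := by
  apply S.kap_eq
  · have := S.Jm (Nat.lt_succ_self (S.kap j))
    have e : (S.kap j).succ = S.kap j + 1 := rfl
    rw [e] at this
    omega
  · intro i hi
    have := S.Jm.monotone (Nat.lt_succ_iff.1 hi)
    omega

theorem kap_succ_of_ne {j : ℕ} (h : S.J (S.kap j) ≠ j) : S.kap (j + 1) = S.kap j := by
  apply S.kap_eq
  · have := S.le_kap j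
    omega
  · intro i hi
    have := S.lt_kap hi
    omega

theorem kap_mono : Monotone S.kap := monotone_nat_of_le_succ fun j => by
  by_cases h : S.J (S.kap j) = j
  · rw [S.kap_succ_of_eq h]; omega
  · rw [S.kap_succ_of_ne h]

/-- position of the cells -/
noncomputable def Y (j : ℕ) : ℝ := j + S.T (S.kap j)

theorem Y_succ (j : ℕ) : S.Y (j + 1) = S.Y j + 1 +
    (if S.J (S.kap j) = j then S.Wd (S.kap j) else 0) := by
  unfold Y
  by_cases h : S.J (S.kap j) = j
  · rw [if_pos h, S.kap_succ_of_eq h, S.T_succ]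
    push_cast
    ring
  · rw [if_neg h, S.kap_succ_of_ne h]
    push_cast
    ring

theorem A_eq {j : ℕ} (h : S.J (S.kap j) = j) : S.A (S.kap j) = S.Y j + 1 := by
  unfold A Y
  rw [h]
  ring

variable (hR : RDens f x₀)

/-- The window data of a schedule. -/
noncomputable def toW : Wdata f x₀ where
  Y := S.Y
  w j := if S.J (S.kap j) = j then S.Wd (S.kap j) else 0
  r j := if S.J (S.kap j) = j then S.r (S.kap j) else 0
  t j l := S.Y j + 1 + l * (S.Wd (S.kap j) / S.r (S.kap j))
  Y0 := by unfold Y; rw [S.kap_zero]; simp [T]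
  Ys := S.Y_succ
  w0 j := by
    split_ifs
    · exact S.W0 _
    · exact le_rfl
  tl j l h := by
    have : 0 ≤ (l : ℝ) * (S.Wd (S.kap j) / S.r (S.kap j)) :=
      mul_nonneg (Nat.cast_nonneg _) (div_nonneg (S.W0 _) (Nat.cast_nonneg _))
    linarith
  tu j l h := by
    split_ifs at h with h1
    · have hr : 0 < S.r (S.kap j) := by omega
      have hW := S.rW _ hr
      rw [S.Y_succ, if_pos h1]
      have hr' : (0 : ℝ) < S.r (S.kap j) := by exact_mod_cast hr
      have hl : (l : ℝ) < S.r (S.kap j) := by exact_mod_cast h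
      have h2 : (l : ℝ) * (S.Wd (S.kap j) / S.r (S.kap j)) <
          S.r (S.kap j) * (S.Wd (S.kap j) / S.r (S.kap j)) :=
        mul_lt_mul_of_pos_right hl (by positivity)
      rw [mul_div_cancel₀ _ hr'.ne'] at h2
      linarith
    · exact absurd h (Nat.not_lt_zero l)
  tm j l h := by
    split_ifs at h with h1
    · have hr : 0 < S.r (S.kap j) := by omega
      have hW := S.rW _ hr
      have hr' : (0 : ℝ) < S.r (S.kap j) := by exact_mod_cast hr
      push_cast
      have : 0 < S.Wd (S.kap j) / S.r (S.kap j) := by positivity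
      linarith
    · exact absurd h (Nat.not_lt_zero _)
  hS σ hσ := by
    rw [← S.Jm.injective.summable_iff]
    · refine (S.hS σ hσ).congr fun k => ?_
      simp only [Function.comp, S.kap_J, if_true, Y]
      rfl
    · intro j hj
      have h : S.J (S.kap j) ≠ j := fun h => hj ⟨_, h⟩
      rw [if_neg h, if_neg h]
      simp

theorem KK_eq (j : ℕ) : KK S.toW.n j = j + S.Rr (S.kap j) := by
  induction j with
  | zero => rw [KK_zero, S.kap_zero]; simp [Rr]
  | succ j ih =>
    rw [KK_succ, ih]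
    change _ + ((if S.J (S.kap j) = j then S.r (S.kap j) else 0) + 1) = _
    by_cases h : S.J (S.kap j) = j
    · rw [if_pos h, S.kap_succ_of_eq h, S.Rr_succ]; ring
    · rw [if_neg h, S.kap_succ_of_ne h]; ring

theorem cl_zero {k : ℕ} {y : ℝ} (h : y ≤ S.A k) : S.cl k y = 0 := by
  unfold cl
  rw [max_eq_right (by linarith), min_eq_left (S.W0 k)]

theorem cl_full {k : ℕ} {y : ℝ} (h : S.E k ≤ y) : S.cl k y = S.Wd k := by
  unfold cl
  unfold E at h
  have := S.W0 k
  rw [max_eq_left (by linarith), min_eq_right (by linarith)]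

theorem cl_mid {k : ℕ} {y : ℝ} (h1 : S.A k ≤ y) (h2 : y ≤ S.E k) : S.cl k y = y - S.A k := by
  unfold cl
  unfold E at h2
  rw [max_eq_left (by linarith), min_eq_left (by linarith)]

theorem M_succ {k : ℕ} {y : ℝ} (h1 : S.E k ≤ y) (h2 : y ≤ S.A (k + 1)) :
    S.M (k + 1) y = S.M k y := by
  unfold M
  rw [S.cl_zero h2, S.cl_full h1, sub_mul (S.lam k) 1 (S.Wd k), S.lam_mul, S.Rr_succ, S.T_succ]
  push_cast
  ring

/-- the block formula -/
theorem M_block {j : ℕ} {y : ℝ} (h1 : S.Y j ≤ y) (h2 : y < S.Y (j + 1)) :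
    (y < S.Y j + 1 ∧ S.M (S.kap j) y = (KK S.toW.n j : ℝ) + (y - S.Y j)) ∨
    (S.J (S.kap j) = j ∧ S.Y j + 1 ≤ y ∧ S.M (S.kap j) y =
      (KK S.toW.n j : ℝ) + 1 + S.lam (S.kap j) * (y - (S.Y j + 1))) := by
  have hK : (KK S.toW.n j : ℝ) = j + S.Rr (S.kap j) := by exact_mod_cast S.KK_eq j
  have hYj : S.Y j = j + S.T (S.kap j) := rfl
  rcases lt_or_ge y (S.Y j + 1) with h | h
  · left
    refine ⟨h, ?_⟩
    have hA : y ≤ S.A (S.kap j) := by
      have : (j : ℝ) ≤ S.J (S.kap j) := by exact_mod_cast S.le_kap j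
      unfold A
      linarith
    unfold M
    rw [S.cl_zero hA, hK, hYj]
    ring
  · right
    have hJ : S.J (S.kap j) = j := by
      by_contra hc
      rw [S.Y_succ, if_neg hc] at h2
      linarith
    refine ⟨hJ, h, ?_⟩
    have hA := S.A_eq hJ
    rw [S.Y_succ, if_pos hJ] at h2
    unfold M
    rw [S.cl_mid (by linarith) (by unfold E; linarith), hA, hK, hYj]
    ring

variable {V : ℕ → ℝ} (hV : ∀ j, V j ∈ Ico (0 : ℝ) 1)
include hV

theorem le_M {n j : ℕ} {y : ℝ} (h1 : S.Y j ≤ y) (h2 : y < S.Y (j + 1))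
    (hn : S.toW.yk V n ≤ y) : (n : ℝ) ≤ S.M (S.kap j) y := by
  have hlo := S.toW.Y_le_yk hV n
  have hbj : blk S.toW.n n ≤ j := by
    by_contra hc
    push Not at hc
    have h3 : S.Y (j + 1) ≤ S.Y (blk S.toW.n n) := S.toW.Y_mono (by omega)
    have : S.Y (blk S.toW.n n) ≤ S.toW.yk V n := hlo
    linarith
  have hM := S.M_block h1 h2
  rcases lt_or_eq_of_le hbj with h | h
  · have h3 : n < KK S.toW.n j :=
      lt_of_lt_of_le (blk_lt S.toW.n_pos n) (KK_mono _ (by omega))
    have h4 : (n : ℝ) ≤ KK S.toW.n j := by exact_mod_cast h3.le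
    rcases hM with ⟨-, e⟩ | ⟨-, h5, e⟩
    · rw [e]; linarith
    · rw [e]
      have := mul_nonneg (S.lam_nonneg (S.kap j)) (by linarith : 0 ≤ y - (S.Y j + 1))
      linarith
  · have hn' : (n : ℝ) = KK S.toW.n j + pos S.toW.n n := by
      rw [← h]; exact_mod_cast (KK_add_pos S.toW.n_pos n).symm
    rcases Nat.eq_zero_or_pos (pos S.toW.n n) with h0 | h0
    · rw [h0, Nat.cast_zero, add_zero] at hn'
      rw [hn']
      rcases hM with ⟨-, e⟩ | ⟨-, h5, e⟩
      · rw [e]; linarith
      · rw [e]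
        have := mul_nonneg (S.lam_nonneg (S.kap j)) (by linarith : 0 ≤ y - (S.Y j + 1))
        linarith
    · obtain ⟨l, hl⟩ : ∃ l, pos S.toW.n n = l + 1 := ⟨pos S.toW.n n - 1, by omega⟩
      have hy : S.toW.yk V n = S.Y j + 1 + l * (S.Wd (S.kap j) / S.r (S.kap j)) := by
        unfold Wdata.yk
        rw [hl, if_neg (Nat.succ_ne_zero l), h]
        rfl
      rw [hy] at hn
      have hpl := pos_lt S.toW.n_pos n
      rw [h, hl] at hpl
      change l + 1 < (if S.J (S.kap j) = j then S.r (S.kap j) else 0) + 1 at hpl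
      split_ifs at hpl with hJ
      · have hr : 0 < S.r (S.kap j) := by omega
        have hW := S.rW _ hr
        have hr' : (0 : ℝ) < S.r (S.kap j) := by exact_mod_cast hr
        have hpos : 0 ≤ (l : ℝ) * (S.Wd (S.kap j) / S.r (S.kap j)) := by positivity
        rcases hM with ⟨h5, -⟩ | ⟨-, h5, e⟩
        · linarith
        · rw [e, hn', hl]
          have h6 : (l : ℝ) ≤ S.lam (S.kap j) * (y - (S.Y j + 1)) := by
            have h7 : (l : ℝ) = S.lam (S.kap j) * (l * (S.Wd (S.kap j) / S.r (S.kap j))) := by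
              unfold lam
              field_simp
            rw [h7]
            apply mul_le_mul_of_nonneg_left _ (S.lam_nonneg _)
            linarith
          push_cast
          linarith
      · omega

theorem M_le {n j : ℕ} {y : ℝ} (h1 : S.Y j ≤ y) (h2 : y < S.Y (j + 1))
    (hn : y < S.toW.yk V n) : S.M (S.kap j) y ≤ n + 1 := by
  have hhi := S.toW.yk_lt_Y hV n
  have hbj : j ≤ blk S.toW.n n := by
    by_contra hc
    push Not at hc
    have h3 : S.Y (blk S.toW.n n + 1) ≤ S.Y j := S.toW.Y_mono (by omega)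
    have : S.toW.yk V n < S.Y (blk S.toW.n n + 1) := hhi
    linarith
  have hM := S.M_block h1 h2
  rcases lt_or_eq_of_le hbj with h | h
  · have h3 : KK S.toW.n (j + 1) ≤ n :=
      (KK_mono _ (by omega)).trans (le_blk S.toW.n_pos n)
    rw [KK_succ] at h3
    change KK S.toW.n j + ((if S.J (S.kap j) = j then S.r (S.kap j) else 0) + 1) ≤ n at h3
    rcases hM with ⟨h5, e⟩ | ⟨hJ, h5, e⟩
    · rw [e]
      have h4 : (KK S.toW.n j : ℝ) + 1 ≤ n := by
        have : KK S.toW.n j + 1 ≤ n := by omega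
        exact_mod_cast this
      linarith
    · rw [if_pos hJ] at h3
      rw [S.Y_succ, if_pos hJ] at h2
      rw [e]
      have h4 : (KK S.toW.n j : ℝ) + S.r (S.kap j) + 1 ≤ n := by
        have : KK S.toW.n j + S.r (S.kap j) + 1 ≤ n := by omega
        exact_mod_cast this
      have h6 : S.lam (S.kap j) * (y - (S.Y j + 1)) ≤ S.lam (S.kap j) * S.Wd (S.kap j) :=
        mul_le_mul_of_nonneg_left (by linarith) (S.lam_nonneg _)
      rw [S.lam_mul] at h6
      linarith
  · have hn' : (n : ℝ) = KK S.toW.n j + pos S.toW.n n := by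
      rw [h]; exact_mod_cast (KK_add_pos S.toW.n_pos n).symm
    rcases Nat.eq_zero_or_pos (pos S.toW.n n) with h0 | h0
    · have hy : S.toW.yk V n = S.Y j + V j := by
        unfold Wdata.yk
        rw [h0, if_pos rfl, ← h]
        rfl
      rw [hy] at hn
      have hVj := (hV j).2
      rw [h0, Nat.cast_zero, add_zero] at hn'
      rcases hM with ⟨h5, e⟩ | ⟨hJ, h5, e⟩
      · rw [e, hn']; linarith
      · linarith
    · obtain ⟨l, hl⟩ : ∃ l, pos S.toW.n n = l + 1 := ⟨pos S.toW.n n - 1, by omega⟩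
      have hy : S.toW.yk V n = S.Y j + 1 + l * (S.Wd (S.kap j) / S.r (S.kap j)) := by
        unfold Wdata.yk
        rw [hl, if_neg (Nat.succ_ne_zero l), ← h]
        rfl
      rw [hy] at hn
      rw [hl] at hn'
      have hpl := pos_lt S.toW.n_pos n
      rw [← h, hl] at hpl
      change l + 1 < (if S.J (S.kap j) = j then S.r (S.kap j) else 0) + 1 at hpl
      rcases hM with ⟨h5, e⟩ | ⟨hJ, h5, e⟩
      · rw [e, hn']
        push_cast
        have : (0 : ℝ) ≤ l := Nat.cast_nonneg l
        linarith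
      · rw [if_pos hJ] at hpl
        have hr : 0 < S.r (S.kap j) := by omega
        have hW := S.rW _ hr
        have hr' : (0 : ℝ) < S.r (S.kap j) := by exact_mod_cast hr
        rw [e, hn']
        have h6 : S.lam (S.kap j) * (y - (S.Y j + 1)) ≤ l := by
          have h7 : (l : ℝ) = S.lam (S.kap j) * (l * (S.Wd (S.kap j) / S.r (S.kap j))) := by
            unfold lam
            field_simp
          rw [h7]
          apply mul_le_mul_of_nonneg_left _ (S.lam_nonneg _)
          linarith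
        push_cast
        linarith

omit hV in
theorem exists_cell {y : ℝ} (hy : 0 ≤ y) : ∃ j, S.Y j ≤ y ∧ y < S.Y (j + 1) :=
  exists_blk_real S.toW.Y_tendsto (by rw [show S.toW.Y 0 = 0 from S.toW.Y0]; exact hy)

theorem count_bd {k : ℕ} {y : ℝ} (hy : 0 ≤ y) (h1 : ∀ i < k, S.E i ≤ y) (h2 : y < S.A (k + 1)) :
    |(countPr (fun n => S.toW.yk V n) y : ℝ) - S.M k y| ≤ 1 := by
  obtain ⟨j, hj1, hj2⟩ := S.exists_cell hy
  have hkj : S.M (S.kap j) y = S.M k y := by
    have hge : k ≤ S.kap j := by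
      by_contra hc
      push Not at hc
      have h3 := h1 _ hc
      have h4 := S.le_kap j
      rcases lt_or_eq_of_le h4 with h | h
      · have h5 : S.Y (j + 1) ≤ S.A (S.kap j) := by
          rw [S.Y_succ, if_neg (by omega)]
          unfold Y A
          have : (j : ℝ) + 1 ≤ S.J (S.kap j) := by exact_mod_cast h
          linarith
        have := S.W0 (S.kap j)
        unfold E at h3
        linarith
      · have h5 := S.A_eq h.symm
        rw [S.Y_succ, if_pos h.symm] at hj2
        unfold E at h3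
        linarith
    have hle : S.kap j ≤ k + 1 := by
      by_contra hc
      push Not at hc
      have h3 := S.lt_kap hc
      have h4 : S.Y (S.J (k + 1) + 1) ≤ S.Y j := S.toW.Y_mono (by omega)
      rw [S.Y_succ, S.kap_J, if_pos rfl] at h4
      have h5 := S.A_eq (j := S.J (k + 1)) (by rw [S.kap_J])
      rw [S.kap_J] at h5
      have := S.W0 (k + 1)
      linarith
    rcases lt_or_eq_of_le hge with h | h
    · have e : S.kap j = k + 1 := by omega
      rw [e]
      apply S.M_succ _ h2.le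
      have h3 : S.J k < j := S.lt_kap (by omega)
      have h4 : S.Y (S.J k + 1) ≤ S.Y j := S.toW.Y_mono (by omega)
      rw [S.Y_succ, S.kap_J, if_pos rfl] at h4
      have h5 := S.A_eq (j := S.J k) (by rw [S.kap_J])
      rw [S.kap_J] at h5
      unfold E
      linarith
    · rw [← h]
  rw [← hkj]
  rcases lt_or_ge y (S.toW.yk V 0) with h0 | h0
  · have hc : countPr (fun n => S.toW.yk V n) y = 0 := by
      unfold countPr
      have : {j : ℕ | S.toW.yk V j ≤ y} = ∅ := by
        ext i
        simp only [mem_ofPred_eq, mem_empty_iff_false, iff_false, not_le]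
        exact lt_of_lt_of_le h0 ((S.toW.yk_strictMono hV).monotone (Nat.zero_le i))
      rw [this]; simp
    rw [hc]
    have h3 := S.M_le hV hj1 hj2 h0
    have h4 : 0 ≤ S.M (S.kap j) y := by
      rcases S.M_block hj1 hj2 with ⟨-, e⟩ | ⟨-, h5, e⟩
      · rw [e]
        have : (0 : ℝ) ≤ KK S.toW.n j := Nat.cast_nonneg _
        linarith
      · rw [e]
        have : (0 : ℝ) ≤ KK S.toW.n j := Nat.cast_nonneg _
        have := mul_nonneg (S.lam_nonneg (S.kap j)) (by linarith : 0 ≤ y - (S.Y j + 1))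
        linarith
    rw [abs_le]
    push_cast at h3 ⊢
    constructor <;> linarith
  · obtain ⟨n, hn1, hn2⟩ := exists_blk_real (S.toW.yk_tendsto hV) h0
    rw [countPr_eq (S.toW.yk_strictMono hV) hn1 hn2]
    have h3 := S.le_M hV hj1 hj2 hn1
    have h4 := S.M_le hV hj1 hj2 hn2
    rw [abs_le]
    push_cast at h3 h4 ⊢
    constructor <;> linarith

/-- **Counting in short intervals.** -/
theorem count_incr {k : ℕ} {y z : ℝ} (hy : 0 ≤ y) (hyz : y ≤ z) (h1 : ∀ i < k, S.E i ≤ y)
    (h2 : z < S.A (k + 1)) :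
    |((countPr (fun n => S.toW.yk V n) z : ℝ) - countPr (fun n => S.toW.yk V n) y) -
      ((z - y) + (S.lam k - 1) * (S.cl k z - S.cl k y))| ≤ 2 := by
  have a1 := abs_le.1 (S.count_bd hV hy h1 (lt_of_le_of_lt hyz h2))
  have a2 := abs_le.1 (S.count_bd hV (hy.trans hyz) (fun i hi => (h1 i hi).trans hyz) h2)
  unfold M at a1 a2
  rw [abs_le]
  constructor <;> nlinarith [a1.1, a1.2, a2.1, a2.2]

omit hV in
theorem cl_mono {k : ℕ} {y z : ℝ} (hyz : y ≤ z) : S.cl k y ≤ S.cl k z :=
  min_le_min_right _ (max_le_max_right _ (by linarith))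

omit hV in
theorem cl_nonneg (k : ℕ) (y : ℝ) : 0 ≤ S.cl k y := le_min (le_max_right _ _) (S.W0 k)

omit hV in
theorem cl_le (k : ℕ) (y : ℝ) : S.cl k y ≤ S.Wd k := min_le_right _ _

omit hV in
theorem cl_sub_le {k : ℕ} {y z : ℝ} (hyz : y ≤ z) : S.cl k z - S.cl k y ≤ z - y := by
  unfold cl
  rcases le_total (z - S.A k) 0 with a | a <;> rcases le_total (y - S.A k) 0 with b | b
  · rw [max_eq_right a, max_eq_right b]; linarith
  · rw [max_eq_right a, max_eq_left b]
    rcases le_total (y - S.A k) (S.Wd k) with c | c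
    · rw [min_eq_left c, min_eq_left (S.W0 k)]; linarith
    · rw [min_eq_right c, min_eq_left (S.W0 k)]; linarith [S.W0 k]
  · rw [max_eq_left a, max_eq_right b, min_eq_left (S.W0 k)]
    have := min_le_left (z - S.A k) (S.Wd k)
    linarith
  · rw [max_eq_left a, max_eq_left b]
    rcases le_total (y - S.A k) (S.Wd k) with c | c
    · rw [min_eq_left c]
      have := min_le_left (z - S.A k) (S.Wd k)
      linarith
    · rw [min_eq_right c]
      have := min_le_right (z - S.A k) (S.Wd k)
      linarith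

end Sch

end Pool.Agent.H521.G
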