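import Pool.Agent.H521.G.Core

open MeasureTheory Set Filter Topology
open scoped ComplexConjugate FourierTransform ContDiff

namespace Pool.Agent.H521.G

/-- The Fourier transform is self adjoint, for two integrable functions. -/
theorem integral_fourierInv_mul {f g : ℝ → ℂ} (hf : Integrable f) (hg : Integrable g) :
    ∫ v, 𝓕⁻ f v * g v = ∫ ξ, f ξ * 𝓕⁻ g ξ := by
  have h := VectorFourier.integral_bilin_fourierIntegral_eq_flip (μ := volume) (ν := volume)
    (ContinuousLinearMap.mul ℂ ℂ) (L := -innerₗ ℝ) Real.continuous_fourierChar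
    (by
      have : Continuous fun p : ℝ × ℝ => -(inner ℝ p.1 p.2) := continuous_inner.neg
      exact this) hf hg
  simp only [ContinuousLinearMap.mul_apply'] at h
  have e1 : ∀ (u : ℝ → ℂ) (w : ℝ), VectorFourier.fourierIntegral Real.fourierChar volume
      (-innerₗ ℝ) u w = 𝓕⁻ u w := fun u w => rfl
  have e2 : ∀ (u : ℝ → ℂ) (w : ℝ), VectorFourier.fourierIntegral Real.fourierChar volume
      (-innerₗ ℝ).flip u w = 𝓕⁻ u w := by
    intro u w
    rw [← e1]
    unfold VectorFourier.fourierIntegral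
    simp only [LinearMap.flip_apply, LinearMap.neg_apply, innerₗ_apply_apply, neg_neg]
    congr 1
    ext v
    rw [real_inner_comm]
  simp only [e1, e2] at h
  exact h

/-- The basic `L²` inequality. -/
theorem sel_fourier {k : ℝ → ℂ} (hk : ContDiff ℝ ∞ k) (hkc : HasCompactSupport k) {a : ℝ → ℂ}
    (ha : Integrable a) {σ δ M A : ℝ} (hδ : 0 < δ) (hM : 0 ≤ M) (hA0 : 0 < A)
    (hH : ∀ ξ : ℝ, ‖((σ : ℂ) - 2 * Real.pi * Complex.I * ξ) * 𝓕⁻ a ξ‖ ^ 2 ≤ M * (1 + |δ * ξ|))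
    (hA : ∫ v, ‖k v - (δ / (2 * Real.pi)) ^ 2 * deriv (deriv k) v‖ ^ 2 ≤ A) :
    ‖∫ v, ((σ : ℂ) * k v - deriv k v) * a v‖ ^ 2 ≤ A * (2 * Real.pi * M / δ) := by
  have hpi := Real.pi_pos
  have hk1 : ContDiff ℝ ∞ (deriv k) := by
    have : ContDiff ℝ (∞ + 1) k := hk
    exact (contDiff_succ_iff_deriv.1 this).2.2
  have hk2 : ContDiff ℝ ∞ (deriv (deriv k)) := by
    have : ContDiff ℝ (∞ + 1) (deriv k) := hk1
    exact (contDiff_succ_iff_deriv.1 this).2.2
  have hkc1 : HasCompactSupport (deriv k) := hkc.deriv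
  have hkc2 : HasCompactSupport (deriv (deriv k)) := hkc1.deriv
  have hki : Integrable k := hk.continuous.integrable_of_hasCompactSupport hkc
  have hki1 : Integrable (deriv k) := hk1.continuous.integrable_of_hasCompactSupport hkc1
  have hki2 : Integrable (deriv (deriv k)) := hk2.continuous.integrable_of_hasCompactSupport hkc2
  -- the function κ
  set κ : ℝ → ℂ := fun v => (σ : ℂ) * k v - deriv k v with hκ
  have hκs : ContDiff ℝ ∞ κ := (contDiff_const.mul hk).sub hk1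
  have hκc : HasCompactSupport κ := (hkc.mul_left).sub hkc1
  set κS : SchwartzMap ℝ ℂ := hκc.toSchwartzMap hκs with hκS
  have hκi : Integrable κ := hκs.continuous.integrable_of_hasCompactSupport hκc
  have hFκi : Integrable (𝓕 κ) := (𝓕 κS).integrable
  have hinv : ∀ v, 𝓕⁻ (𝓕 κ) v = κ v := fun v => by
    rw [hκs.continuous.fourierInv_fourier_eq hκi hFκi]
  -- the function K
  set c : ℂ := (((δ / (2 * Real.pi)) ^ 2 : ℝ) : ℂ) with hc
  set K : ℝ → ℂ := fun v => k v - c * deriv (deriv k) v with hK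
  have hKs : ContDiff ℝ ∞ K := hk.sub (contDiff_const.mul hk2)
  have hKc : HasCompactSupport K := hkc.sub hkc2.mul_left
  set KS : SchwartzMap ℝ ℂ := hKc.toSchwartzMap hKs with hKS
  have hplan : ∫ ξ, ‖𝓕 K ξ‖ ^ 2 = ∫ v, ‖K v‖ ^ 2 := SchwartzMap.integral_norm_sq_fourier KS
  have hFK2i : Integrable fun ξ => ‖𝓕 K ξ‖ ^ 2 := by
    have := (𝓕 KS).memLp 2 volume
    exact this.integrable_norm_pow two_ne_zero
  have hFk : ∀ ξ : ℝ, 𝓕 (deriv k) ξ = (2 * Real.pi * Complex.I * ξ) * 𝓕 k ξ := fun ξ => by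
    rw [Real.fourier_deriv hki (hk.differentiable (by simp)) hki1]
    simp only [smul_eq_mul]
  have hFk2 : ∀ ξ : ℝ, 𝓕 (deriv (deriv k)) ξ = (2 * Real.pi * Complex.I * ξ) ^ 2 * 𝓕 k ξ :=
    fun ξ => by
      rw [Real.fourier_deriv hki1 (hk1.differentiable (by simp)) hki2]
      simp only [smul_eq_mul]
      rw [hFk]
      ring
  have hFκ : ∀ ξ : ℝ, 𝓕 κ ξ = ((σ : ℂ) - 2 * Real.pi * Complex.I * ξ) * 𝓕 k ξ := by
    intro ξ
    have e : κ = fun v => ((σ : ℂ) • k) v - deriv k v := by ext v; simp [hκ]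
    have h1 : 𝓕 κ ξ = 𝓕 ((σ : ℂ) • k) ξ - 𝓕 (deriv k) ξ := by
      rw [e, Real.fourier_eq, Real.fourier_eq, Real.fourier_eq, ← integral_sub]
      · congr 1
        ext v
        rw [smul_sub]
      · exact (Real.fourierIntegral_convergent_iff ξ).2 (hki.smul _)
      · exact (Real.fourierIntegral_convergent_iff ξ).2 hki1
    rw [h1, hFk]
    have h2 : 𝓕 ((σ : ℂ) • k) ξ = σ * 𝓕 k ξ := by
      rw [Real.fourier_eq, Real.fourier_eq, ← integral_const_mul]
      congr 1
      ext v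
      simp only [Pi.smul_apply, smul_eq_mul, Circle.smul_def]
      ring
    rw [h2]
    ring
  have hFK : ∀ ξ : ℝ, 𝓕 K ξ = ((1 + (δ * ξ) ^ 2 : ℝ) : ℂ) * 𝓕 k ξ := by
    intro ξ
    have e : K = fun v => k v - (c • deriv (deriv k)) v := by ext v; simp [hK]
    have h1 : 𝓕 K ξ = 𝓕 k ξ - 𝓕 (c • deriv (deriv k)) ξ := by
      rw [e, Real.fourier_eq, Real.fourier_eq, Real.fourier_eq, ← integral_sub]
      · congr 1
        ext v
        rw [smul_sub]
      · exact (Real.fourierIntegral_convergent_iff ξ).2 hki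
      · exact (Real.fourierIntegral_convergent_iff ξ).2 (hki2.smul _)
    have h2 : 𝓕 (c • deriv (deriv k)) ξ = c * 𝓕 (deriv (deriv k)) ξ := by
      rw [Real.fourier_eq, Real.fourier_eq, ← integral_const_mul]
      congr 1
      ext v
      simp only [Pi.smul_apply, smul_eq_mul, Circle.smul_def]
      ring
    rw [h1, h2, hFk2, hc]
    push_cast
    have hpi' : (Real.pi : ℂ) ≠ 0 := by exact_mod_cast hpi.ne'
    field_simp
    ring_nf
    rw [Complex.I_sq]
    ring
  -- the identity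
  have hid : ∫ v, κ v * a v = ∫ ξ, 𝓕 k ξ *
      (((σ : ℂ) - 2 * Real.pi * Complex.I * ξ) * 𝓕⁻ a ξ) := by
    have h1 := integral_fourierInv_mul hFκi ha
    simp only [hinv] at h1
    rw [h1]
    congr 1
    ext ξ
    rw [hFκ]
    ring
  rw [hid]
  set S := ∫ ξ, 𝓕 k ξ * (((σ : ℂ) - 2 * Real.pi * Complex.I * ξ) * 𝓕⁻ a ξ) with hS
  -- the pointwise bound
  set B : ℝ := 2 * Real.pi * M / δ with hB
  have hB0 : 0 ≤ B := by positivity
  have hint : Integrable fun ξ : ℝ => (1 + (δ * ξ) ^ 2)⁻¹ := by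
    have := integrable_inv_one_add_sq.comp_mul_left' hδ.ne'
    exact this
  have hintv : ∫ ξ : ℝ, (1 + (δ * ξ) ^ 2)⁻¹ = Real.pi / δ := by
    have h1 := Measure.integral_comp_mul_left (fun x : ℝ => (1 + x ^ 2)⁻¹) δ
    rw [h1, integral_univ_inv_one_add_sq, abs_of_pos (inv_pos.2 hδ)]
    simp [div_eq_inv_mul]
  have hkey : ∀ lam : ℝ, 0 < lam → ‖S‖ ≤ (lam * A + B / lam) / 2 := by
    intro lam hlam
    have hpt : ∀ ξ : ℝ, ‖𝓕 k ξ * (((σ : ℂ) - 2 * Real.pi * Complex.I * ξ) * 𝓕⁻ a ξ)‖ ≤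
        lam / 2 * ‖𝓕 K ξ‖ ^ 2 + M / lam * (1 + (δ * ξ) ^ 2)⁻¹ := by
      intro ξ
      set q : ℝ := 1 + (δ * ξ) ^ 2 with hq
      have hq1 : 0 < q := by positivity
      set Hn := ‖((σ : ℂ) - 2 * Real.pi * Complex.I * ξ) * 𝓕⁻ a ξ‖ with hHn
      have hHn0 : 0 ≤ Hn := norm_nonneg _
      have h1 : ‖𝓕 k ξ‖ = ‖𝓕 K ξ‖ / q := by
        rw [hFK, norm_mul, Complex.norm_real, Real.norm_eq_abs, abs_of_pos hq1]
        field_simp
      have h2 : Hn ^ 2 ≤ 2 * M * q := by
        refine (hH ξ).trans ?_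
        have h3 : 1 + |δ * ξ| ≤ 2 * q := by
          rw [hq]
          have := sq_abs (δ * ξ)
          nlinarith [sq_nonneg (|δ * ξ| - 1), abs_nonneg (δ * ξ)]
        nlinarith
      rw [norm_mul, h1]
      set x := ‖𝓕 K ξ‖ with hx
      have hx0 : 0 ≤ x := norm_nonneg _
      have h4 : x / q * Hn = x * (Hn / q) := by ring
      have h5 : (Hn / q) ^ 2 ≤ 2 * M * q⁻¹ := by
        rw [div_pow, div_le_iff₀ (by positivity)]
        calc Hn ^ 2 ≤ 2 * M * q := h2
          _ = 2 * M * q⁻¹ * q ^ 2 := by field_simp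
      have h6 : 0 ≤ (lam * x - Hn / q) ^ 2 := sq_nonneg _
      rw [h4]
      have h7 : x * (Hn / q) ≤ lam / 2 * x ^ 2 + (Hn / q) ^ 2 / (2 * lam) := by
        rw [← sub_nonneg]
        have : lam / 2 * x ^ 2 + (Hn / q) ^ 2 / (2 * lam) - x * (Hn / q) =
          (lam * x - Hn / q) ^ 2 / (2 * lam) := by
          field_simp
          ring
        rw [this]
        positivity
      have h8 : (Hn / q) ^ 2 / (2 * lam) ≤ M / lam * q⁻¹ := by
        rw [div_le_iff₀ (by positivity)]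
        calc (Hn / q) ^ 2 ≤ 2 * M * q⁻¹ := h5
          _ = _ := by field_simp
      linarith
    have hI2 : Integrable fun ξ : ℝ => lam / 2 * ‖𝓕 K ξ‖ ^ 2 + M / lam * (1 + (δ * ξ) ^ 2)⁻¹ :=
      (hFK2i.const_mul _).add (hint.const_mul _)
    calc ‖S‖ ≤ ∫ ξ : ℝ, (lam / 2 * ‖𝓕 K ξ‖ ^ 2 + M / lam * (1 + (δ * ξ) ^ 2)⁻¹) :=
          norm_integral_le_of_norm_le hI2 (Eventually.of_forall hpt)
      _ = lam / 2 * (∫ v, ‖K v‖ ^ 2) + M / lam * (Real.pi / δ) := by
          rw [integral_add (hFK2i.const_mul _) (hint.const_mul _), integral_const_mul,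
            integral_const_mul, hplan, hintv]
      _ ≤ lam / 2 * A + M / lam * (Real.pi / δ) := by
          have hA' : ∫ v, ‖K v‖ ^ 2 ≤ A := by
            refine le_trans (le_of_eq ?_) hA
            simp only [hK, hc]
            push_cast
            rfl
          have := mul_le_mul_of_nonneg_left hA' (by positivity : 0 ≤ lam / 2)
          linarith
      _ = (lam * A + B / lam) / 2 := by
          rw [hB]
          field_simp
  rcases eq_or_lt_of_le (norm_nonneg S) with h0 | h0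
  · rw [← h0]
    simp only [ne_eq, OfNat.ofNat_ne_zero, not_false_eq_true, zero_pow]
    positivity
  · have h1 := hkey (‖S‖ / A) (by positivity)
    have e1 : ‖S‖ / A * A = ‖S‖ := by field_simp
    have e2 : B / (‖S‖ / A) = A * B / ‖S‖ := by field_simp
    rw [e1, e2] at h1
    have h2 : ‖S‖ ≤ A * B / ‖S‖ := by linarith
    rw [le_div_iff₀ h0] at h2
    nlinarith

end Pool.Agent.H521.G
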