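import Pool.Agent.H521.G.Sel9
import Pool.Agent.H521.G.Andrica

open MeasureTheory Set Filter Topology
open scoped ComplexConjugate FourierTransform ContDiff

namespace Pool.Agent.H521.G

theorem step_int {u u' : ℝ → ℝ} (hud : ∀ v, HasDerivAt u (u' v) v) (hu'c : Continuous u')
    {w d a : ℝ} (hwd : w ≤ d) (hw : u w = 0) (hd : u d = 0) (ha : a ≤ d) (haw : a ≤ w → u a = 0) :
    ∫ v in w..d, u' v * (if a ≤ v then (1 : ℝ) else 0) = -u a := by
  have e : ∀ v, u' v * (if a ≤ v then (1 : ℝ) else 0) = (Ici a).indicator u' v := by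
    intro v
    by_cases h : a ≤ v
    · rw [if_pos h, indicator_of_mem (mem_Ici.2 h), mul_one]
    · rw [if_neg h, indicator_of_notMem (fun h2 => h (mem_Ici.1 h2)), mul_zero]
  simp_rw [e]
  rw [intervalIntegral.integral_of_le hwd, setIntegral_indicator measurableSet_Ici]
  rcases le_or_gt a w with h | h
  · rw [haw h, neg_zero]
    have : Ioc w d ∩ Ici a = Ioc w d := by
      apply inter_eq_left.2
      intro z hz
      exact mem_Ici.2 (h.trans hz.1.le)
    rw [this, ← intervalIntegral.integral_of_le hwd,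
      intervalIntegral.integral_eq_sub_of_hasDerivAt (fun v _ => hud v)
        (hu'c.intervalIntegrable _ _), hw, hd, sub_zero]
  · have : Ioc w d ∩ Ici a = Icc a d := by
      ext z
      simp only [mem_inter_iff, mem_Ioc, mem_Ici, mem_Icc]
      constructor
      · rintro ⟨⟨-, h1⟩, h2⟩; exact ⟨h2, h1⟩
      · rintro ⟨h1, h2⟩; exact ⟨⟨lt_of_lt_of_le h h1, h2⟩, h1⟩
    rw [this, integral_Icc_eq_integral_Ioc, ← intervalIntegral.integral_of_le ha,
      intervalIntegral.integral_eq_sub_of_hasDerivAt (fun v _ => hud v)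
        (hu'c.intervalIntegrable _ _), hd, zero_sub]

namespace Bp

/-- The contribution of one window. -/
theorem window {Z : Multiset ℂ} {x₀ : ℝ} (hR : RDens (fZ Z) x₀) {p : ℕ → ℝ}
    (hp1 : ∀ k, 1 < p k) (hpt : Tendsto p atTop atTop)
    (b : ContDiffBump (1 / 2 : ℝ)) (hb : b.rOut < 1 / 2)
    {σ δ w : ℝ} (hσ0 : 0 < σ) (hδ : 0 < δ) (hw : Real.log x₀ ≤ w) :
    ∃ W I : ℝ, ∫ v, ((σ : ℂ) * pw b δ w v - deriv (pw b δ w) v) * aer Z x₀ p σ v =
        ((W - I : ℝ) : ℂ) ∧
      W ≤ Real.exp (-(σ * w)) *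
        (Set.ncard {k | Real.exp w < p k ∧ p k < Real.exp (w + δ)} : ℕ) ∧
      Real.exp (-(σ * (w + δ))) *
        (Set.ncard {k | Real.exp (w + (1 / 2 - b.rIn) * δ) < p k ∧
          p k < Real.exp (w + (1 / 2 + b.rIn) * δ)} : ℕ) ≤ W ∧
      I ≤ Real.exp (-(σ * w)) * (Fp (fZ Z) x₀ (Real.exp (w + δ)) - Fp (fZ Z) x₀ (Real.exp w)) ∧
      Real.exp (-(σ * (w + δ))) * (Fp (fZ Z) x₀ (Real.exp (w + (1 / 2 + b.rIn) * δ)) -
        Fp (fZ Z) x₀ (Real.exp (w + (1 / 2 - b.rIn) * δ))) ≤ I := by
  have hx3 := hR.dens.hx₀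
  have hrin := b.rIn_pos
  have hrio := b.rIn_lt_rOut
  have hxw : x₀ ≤ Real.exp w := by
    rw [← Real.log_le_iff_le_exp (by linarith)]; exact hw
  set f := fZ Z with hf
  set ψ : ℝ → ℝ := fun v => b ((v - w) / δ) with hψ
  have hψ01 : ∀ v, 0 ≤ ψ v ∧ ψ v ≤ 1 := fun v => ⟨b.nonneg, b.le_one⟩
  have hψd : ∀ v, HasDerivAt ψ (deriv ψ v) v := fun v => by
    have h1 : Differentiable ℝ ψ := by
      have : ContDiff ℝ 1 ψ := b.contDiff.comp ((contDiff_id.sub contDiff_const).div_const _)
      exact this.differentiable (by simp)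
    exact (h1 v).hasDerivAt
  have hψc : Continuous (deriv ψ) := by
    have : ContDiff ℝ 1 ψ := b.contDiff.comp ((contDiff_id.sub contDiff_const).div_const _)
    exact this.continuous_deriv (by simp)
  have hψ0 : ∀ v, v ∉ Ioo w (w + δ) → ψ v = 0 := by
    intro v hv
    rw [hψ]
    simp only
    apply zero
    rw [mem_Ioo, not_and_or, not_lt, not_lt] at hv
    rcases hv with h | h
    · left
      rw [div_le_iff₀ hδ]
      have : 0 ≤ (1 / 2 - b.rOut) * δ := mul_nonneg (by linarith) hδ.le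
      linarith
    · right
      rw [le_div_iff₀ hδ]
      have : (1 / 2 + b.rOut) * δ ≤ 1 * δ := mul_le_mul_of_nonneg_right (by linarith) hδ.le
      linarith
  have hψ1 : ∀ v, w + (1 / 2 - b.rIn) * δ ≤ v → v ≤ w + (1 / 2 + b.rIn) * δ → ψ v = 1 := by
    intro v h1 h2
    rw [hψ]
    simp only
    apply one
    · rw [le_div_iff₀ hδ]; linarith
    · rw [div_le_iff₀ hδ]; linarith
  have hψpw : ∀ v, pw b δ w v = (ψ v : ℂ) := fun v => rfl
  have hψpwd : ∀ v, deriv (pw b δ w) v = ((deriv ψ v : ℝ) : ℂ) := fun v => by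
    have h1 : HasDerivAt (pw b δ w) (((deriv ψ v : ℝ) : ℂ)) v := (hψd v).ofReal_comp
    exact h1.deriv
  have hψd0 : ∀ v, v ∉ Icc w (w + δ) → deriv ψ v = 0 := by
    intro v hv
    have hev : ψ =ᶠ[𝓝 v] fun _ => 0 := by
      have : (Icc w (w + δ))ᶜ ∈ 𝓝 v := isClosed_Icc.isOpen_compl.mem_nhds hv
      filter_upwards [this] with z hz
      exact hψ0 z fun h => hz ⟨h.1.le, h.2.le⟩
    rw [hev.deriv_eq]
    simp
  -- the points
  have hKfin : {k | p k ≤ Real.exp (w + δ)}.Finite := finite_le hpt _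
  set K : Finset ℕ := hKfin.toFinset with hK
  have hKm : ∀ k, k ∈ K ↔ p k ≤ Real.exp (w + δ) := fun k => by
    rw [hK, Set.Finite.mem_toFinset, mem_ofPred_eq]
  have hlogp : ∀ k v, Real.log (p k) ≤ v ↔ p k ≤ Real.exp v := fun k v =>
    Real.log_le_iff_le_exp (by linarith [hp1 k])
  have herr : ∀ v ∈ Ioc w (w + δ), Err Z x₀ p (Real.exp v) =
      (∑ k ∈ K, if Real.log (p k) ≤ v then (1 : ℝ) else 0) - Fp f x₀ (Real.exp v) := by
    intro v hv
    unfold Err
    rw [if_pos (hxw.trans (Real.exp_le_exp.2 hv.1.le))]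
    congr 1
    unfold countPr
    have hset : {j : ℕ | p j ≤ Real.exp v} = ↑(K.filter fun k => Real.log (p k) ≤ v) := by
      ext j
      rw [Finset.mem_coe, Finset.mem_filter, hKm, hlogp, mem_ofPred_eq]
      constructor
      · intro h
        exact ⟨h.trans (Real.exp_le_exp.2 hv.2), h⟩
      · intro h
        exact h.2
    rw [hset, Set.ncard_coe_finset, Finset.card_filter]
    push_cast
    rfl
  set u : ℝ → ℝ := fun v => ψ v * Real.exp (-(σ * v)) with hu
  set u' : ℝ → ℝ := fun v => deriv ψ v * Real.exp (-(σ * v)) +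
    ψ v * (Real.exp (-(σ * v)) * (-σ)) with hu'
  have hud : ∀ v, HasDerivAt u (u' v) v := by
    intro v
    have h1 : HasDerivAt (fun v : ℝ => Real.exp (-(σ * v))) (Real.exp (-(σ * v)) * (-σ)) v := by
      have h2 : HasDerivAt (fun v : ℝ => -(σ * v)) (-σ) v := by
        have h3 : HasDerivAt (fun v : ℝ => σ * v) σ v := by
          simpa using (hasDerivAt_id v).const_mul σ
        exact h3.fun_neg
      exact h2.exp
    exact (hψd v).mul h1
  set Vf : ℝ → ℝ := fun v => Fp f x₀ (Real.exp v) with hVf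
  set V' : ℝ → ℝ := fun v => f (Real.exp v) * Real.exp v with hV'
  have hVd : ∀ v ∈ Ioo w (w + δ), HasDerivAt Vf (V' v) v := by
    intro v hv
    have hxv : x₀ < Real.exp v := lt_of_le_of_lt hxw (Real.exp_lt_exp.2 hv.1)
    have h1 : HasDerivAt (Fp f x₀) (f (Real.exp v)) (Real.exp v) := by
      unfold Fp
      apply intervalIntegral.integral_hasDerivAt_right (hR.dens.ii le_rfl hxv.le)
      · exact hR.dens.meas.stronglyMeasurable.stronglyMeasurableAtFilter
      · exact hR.dens.cont.continuousAt (Ici_mem_nhds hxv)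
    exact h1.comp v (Real.hasDerivAt_exp v)
  have hww : w ≤ w + δ := by linarith
  have hVc : ContinuousOn Vf (uIcc w (w + δ)) := by
    rw [uIcc_of_le hww]
    apply (hR.F_contOn (Real.exp (w + δ)) (hxw.trans (Real.exp_le_exp.2 hww))).comp
      Real.continuous_exp.continuousOn
    intro v hv
    exact ⟨hxw.trans (Real.exp_le_exp.2 hv.1), Real.exp_le_exp.2 hv.2⟩
  have hfc : ContinuousOn (fun v => f (Real.exp v)) (uIcc w (w + δ)) := by
    rw [uIcc_of_le hww]
    apply hR.dens.cont.comp Real.continuous_exp.continuousOn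
    intro v hv
    exact hxw.trans (Real.exp_le_exp.2 hv.1)
  have hV'i : IntervalIntegrable V' volume w (w + δ) :=
    (hfc.mul Real.continuous_exp.continuousOn).intervalIntegrable
  have hψcont : Continuous ψ := by
    rw [continuous_iff_continuousAt]
    exact fun v => (hψd v).continuousAt
  have hexpc : Continuous fun v : ℝ => Real.exp (-(σ * v)) := by fun_prop
  have huc : Continuous u := hψcont.mul hexpc
  have hu'c : Continuous u' := (hψc.mul hexpc).add (hψcont.mul (hexpc.mul continuous_const))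
  have hparts := intervalIntegral.integral_mul_deriv_eq_deriv_mul_of_hasDerivAt
    (u := u) (v := Vf) (u' := u') (v' := V') (a := w) (b := w + δ) huc.continuousOn hVc
    (fun v hv => hud v) (fun v hv => hVd v (by
      rwa [min_eq_left hww, max_eq_right hww] at hv)) (hu'c.intervalIntegrable _ _) hV'i
  have hua : u w = 0 := by
    rw [hu]; simp only; rw [hψ0 w (by simp)]; simp
  have hub : u (w + δ) = 0 := by
    rw [hu]; simp only; rw [hψ0 (w + δ) (by simp)]; simp
  rw [hua, hub, zero_mul, zero_mul, sub_zero, zero_sub] at hparts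
  have hI : ∫ v in w..(w + δ), u v * V' v =
      ∫ v in w..(w + δ), ψ v * (Real.exp ((1 - σ) * v) * f (Real.exp v)) := by
    apply intervalIntegral.integral_congr
    intro v _
    simp only
    rw [hu, hV']
    simp only
    have e3 : Real.exp ((1 - σ) * v) = Real.exp (-(σ * v)) * Real.exp v := by
      rw [← Real.exp_add]
      congr 1
      ring
    rw [e3]
    ring
  -- facts about the density on the window
  have hfpos : ∀ v ∈ Icc w (w + δ), 0 ≤ f (Real.exp v) * Real.exp v := fun v hv =>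
    mul_nonneg (hR.pos (hxw.trans (Real.exp_le_exp.2 hv.1))).le (Real.exp_pos _).le
  have hFint : ∀ a c, w ≤ a → a ≤ c → c ≤ w + δ → ∫ v in a..c, V' v = Vf c - Vf a := by
    intro a c h1 h2 h3
    apply intervalIntegral.integral_eq_sub_of_hasDerivAt_of_le h2
    · apply hVc.mono
      rw [uIcc_of_le hww]
      exact Icc_subset_Icc h1 h3
    · intro v hv
      exact hVd v ⟨lt_of_le_of_lt h1 hv.1, lt_of_lt_of_le hv.2 h3⟩
    · apply hV'i.mono_set
      rw [uIcc_of_le h2, uIcc_of_le hww]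
      exact Icc_subset_Icc h1 h3
  refine ⟨∑ k ∈ K, u (Real.log (p k)), ∫ v in w..(w + δ), u v * V' v, ?_, ?_, ?_, ?_, ?_⟩
  · have e1 : ∀ v, ((σ : ℂ) * pw b δ w v - deriv (pw b δ w) v) * aer Z x₀ p σ v =
        (((σ * ψ v - deriv ψ v) * (Real.exp (-(σ * v)) * Err Z x₀ p (Real.exp v)) : ℝ) : ℂ) := by
      intro v
      rw [hψpw, hψpwd]
      unfold aer
      push_cast
      ring
    simp_rw [e1]
    rw [integral_complex_ofReal]
    congr 1
    have hzero : ∀ v, v ∉ Icc w (w + δ) →
        (σ * ψ v - deriv ψ v) * (Real.exp (-(σ * v)) * Err Z x₀ p (Real.exp v)) = 0 := by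
      intro v hv
      rw [hψ0 v fun h => hv ⟨h.1.le, h.2.le⟩, hψd0 v hv]
      ring
    rw [← setIntegral_eq_integral_of_forall_compl_eq_zero hzero,
      integral_Icc_eq_integral_Ioc, ← intervalIntegral.integral_of_le hww]
    have hstep : ∀ k ∈ K, IntervalIntegrable
        (fun v => u' v * (if Real.log (p k) ≤ v then (1 : ℝ) else 0)) volume w (w + δ) := by
      intro k _
      have e : (fun v => u' v * (if Real.log (p k) ≤ v then (1 : ℝ) else 0)) =
          (Ici (Real.log (p k))).indicator u' := by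
        ext v
        by_cases h : Real.log (p k) ≤ v
        · rw [if_pos h, indicator_of_mem (mem_Ici.2 h), mul_one]
        · rw [if_neg h, indicator_of_notMem (fun h2 => h (mem_Ici.1 h2)), mul_zero]
      rw [e, intervalIntegrable_iff_integrableOn_Ioc_of_le hww]
      exact ((hu'c.intervalIntegrable w (w + δ)).1).indicator measurableSet_Ici
    have hVfi : IntervalIntegrable (fun v => u' v * Vf v) volume w (w + δ) :=
      (hu'c.continuousOn.mul hVc).intervalIntegrable
    have e2 : ∫ v in w..(w + δ), (σ * ψ v - deriv ψ v) *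
        (Real.exp (-(σ * v)) * Err Z x₀ p (Real.exp v)) =
        ∫ v in w..(w + δ), (u' v * Vf v -
          ∑ k ∈ K, u' v * (if Real.log (p k) ≤ v then (1 : ℝ) else 0)) := by
      rw [intervalIntegral.integral_of_le hww, intervalIntegral.integral_of_le hww]
      apply setIntegral_congr_fun measurableSet_Ioc
      intro v hv
      simp only
      rw [herr v hv, ← Finset.mul_sum, hu', hVf]
      ring
    have hsumi : IntervalIntegrable
        (fun v => ∑ k ∈ K, u' v * (if Real.log (p k) ≤ v then (1 : ℝ) else 0)) volume w (w + δ) := by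
      have e : (fun v => ∑ k ∈ K, u' v * (if Real.log (p k) ≤ v then (1 : ℝ) else 0)) =
          ∑ k ∈ K, fun v => u' v * (if Real.log (p k) ≤ v then (1 : ℝ) else 0) := by
        ext v
        rw [Finset.sum_apply]
      rw [e]
      exact IntervalIntegrable.sum K hstep
    rw [e2, intervalIntegral.integral_sub hVfi hsumi, intervalIntegral.integral_finsetSum hstep]
    have e3 : ∀ k ∈ K, ∫ v in w..(w + δ), u' v * (if Real.log (p k) ≤ v then (1 : ℝ) else 0) =
        -u (Real.log (p k)) := by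
      intro k hk
      apply step_int hud hu'c hww hua hub ((hlogp k _).2 ((hKm k).1 hk))
      intro h
      rw [hu]
      simp only
      rw [hψ0 _ (fun h2 => absurd h (not_le.2 h2.1))]
      simp
    rw [Finset.sum_congr rfl e3, Finset.sum_neg_distrib]
    linarith
  · -- W ≤
    have h1 : ∀ k ∈ K, u (Real.log (p k)) ≤
        if Real.exp w < p k ∧ p k < Real.exp (w + δ) then Real.exp (-(σ * w)) else 0 := by
      intro k _
      have hpk : 0 < p k := by linarith [hp1 k]
      rw [hu]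
      simp only
      split_ifs with h
      · have h2 : w ≤ Real.log (p k) := (Real.le_log_iff_exp_le hpk).2 h.1.le
        have h3 : Real.exp (-(σ * Real.log (p k))) ≤ Real.exp (-(σ * w)) := by
          apply Real.exp_le_exp.2
          have := mul_le_mul_of_nonneg_left h2 hσ0.le
          linarith
        calc ψ (Real.log (p k)) * Real.exp (-(σ * Real.log (p k))) ≤
            1 * Real.exp (-(σ * w)) :=
              mul_le_mul (hψ01 _).2 h3 (Real.exp_pos _).le zero_le_one
          _ = _ := one_mul _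
      · rw [hψ0 _ (fun h2 => h ⟨(Real.lt_log_iff_exp_lt hpk).1 h2.1,
          (Real.log_lt_iff_lt_exp hpk).1 h2.2⟩)]
        simp
    refine (Finset.sum_le_sum h1).trans ?_
    rw [← Finset.sum_filter, Finset.sum_const, nsmul_eq_mul, mul_comm]
    apply mul_le_mul_of_nonneg_left _ (Real.exp_pos _).le
    have h2 : (↑(K.filter fun k => Real.exp w < p k ∧ p k < Real.exp (w + δ)) : Set ℕ) ⊆
        {k | Real.exp w < p k ∧ p k < Real.exp (w + δ)} := by
      intro k hk
      rw [Finset.mem_coe, Finset.mem_filter] at hk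
      exact hk.2
    have h3 := Set.ncard_le_ncard h2 ((finite_le hpt (Real.exp (w + δ))).subset
      fun k hk => hk.2.le)
    rw [Set.ncard_coe_finset] at h3
    exact_mod_cast h3
  · -- ≤ W
    have h1 : ∀ k ∈ K, (if Real.exp (w + (1 / 2 - b.rIn) * δ) < p k ∧
          p k < Real.exp (w + (1 / 2 + b.rIn) * δ) then Real.exp (-(σ * (w + δ))) else 0) ≤
        u (Real.log (p k)) := by
      intro k hk
      have hpk : 0 < p k := by linarith [hp1 k]
      rw [hu]
      simp only
      split_ifs with h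
      · have h2 : w + (1 / 2 - b.rIn) * δ ≤ Real.log (p k) :=
          (Real.le_log_iff_exp_le hpk).2 h.1.le
        have h2' : Real.log (p k) ≤ w + (1 / 2 + b.rIn) * δ :=
          (Real.log_le_iff_le_exp hpk).2 h.2.le
        rw [hψ1 _ h2 h2', one_mul]
        apply Real.exp_le_exp.2
        have h3 : Real.log (p k) ≤ w + δ := (hlogp k _).2 ((hKm k).1 hk)
        have := mul_le_mul_of_nonneg_left h3 hσ0.le
        linarith
      · exact mul_nonneg (hψ01 _).1 (Real.exp_pos _).le
    refine le_trans ?_ (Finset.sum_le_sum h1)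
    rw [← Finset.sum_filter, Finset.sum_const, nsmul_eq_mul, mul_comm]
    apply mul_le_mul_of_nonneg_right _ (Real.exp_pos _).le
    have h2 : {k | Real.exp (w + (1 / 2 - b.rIn) * δ) < p k ∧
        p k < Real.exp (w + (1 / 2 + b.rIn) * δ)} ⊆
        (↑(K.filter fun k => Real.exp (w + (1 / 2 - b.rIn) * δ) < p k ∧
          p k < Real.exp (w + (1 / 2 + b.rIn) * δ)) : Set ℕ) := by
      intro k hk
      rw [Finset.mem_coe, Finset.mem_filter]
      refine ⟨(hKm k).2 (hk.2.le.trans (Real.exp_le_exp.2 ?_)), hk⟩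
      have : (1 / 2 + b.rIn) * δ ≤ 1 * δ := mul_le_mul_of_nonneg_right (by linarith) hδ.le
      linarith
    have h3 := Set.ncard_le_ncard h2 (Finset.finite_toSet _)
    rw [Set.ncard_coe_finset] at h3
    exact_mod_cast h3
  · -- I ≤
    have h1 : ∀ v ∈ Icc w (w + δ), u v * V' v ≤ Real.exp (-(σ * w)) * V' v := by
      intro v hv
      apply mul_le_mul_of_nonneg_right _ (hfpos v hv)
      rw [hu]
      simp only
      have h3 : Real.exp (-(σ * v)) ≤ Real.exp (-(σ * w)) := by
        apply Real.exp_le_exp.2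
        have := mul_le_mul_of_nonneg_left hv.1 hσ0.le
        linarith
      calc ψ v * Real.exp (-(σ * v)) ≤ 1 * Real.exp (-(σ * w)) :=
            mul_le_mul (hψ01 _).2 h3 (Real.exp_pos _).le zero_le_one
        _ = _ := one_mul _
    have h2 := intervalIntegral.integral_mono_on hww (hV'i.continuousOn_mul huc.continuousOn)
      (hV'i.const_mul (Real.exp (-(σ * w)))) h1
    rw [intervalIntegral.integral_const_mul, hFint w (w + δ) le_rfl hww le_rfl] at h2
    exact h2
  · -- ≤ I
    set a1 : ℝ := w + (1 / 2 - b.rIn) * δ with ha1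
    set a2 : ℝ := w + (1 / 2 + b.rIn) * δ with ha2
    have g1 : w ≤ a1 := by
      rw [ha1]
      have : 0 ≤ (1 / 2 - b.rIn) * δ := mul_nonneg (by linarith) hδ.le
      linarith
    have g2 : a1 ≤ a2 := by rw [ha1, ha2]; nlinarith
    have g3 : a2 ≤ w + δ := by
      rw [ha2]
      have : (1 / 2 + b.rIn) * δ ≤ 1 * δ := mul_le_mul_of_nonneg_right (by linarith) hδ.le
      linarith
    have h0 : ∀ v ∈ Icc w (w + δ), 0 ≤ u v * V' v := fun v hv =>
      mul_nonneg (mul_nonneg (hψ01 _).1 (Real.exp_pos _).le) (hfpos v hv)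
    have hIi := hV'i.continuousOn_mul huc.continuousOn
    have hsub : ∫ v in a1..a2, u v * V' v ≤ ∫ v in w..(w + δ), u v * V' v := by
      apply intervalIntegral.integral_mono_interval g1 g2 g3
      · filter_upwards [ae_restrict_mem measurableSet_Ioc] with v hv
        exact h0 v ⟨hv.1.le, hv.2⟩
      · exact hIi
    refine le_trans ?_ hsub
    have h1 : ∀ v ∈ Icc a1 a2, Real.exp (-(σ * (w + δ))) * V' v ≤ u v * V' v := by
      intro v hv
      apply mul_le_mul_of_nonneg_right _ (hfpos v ⟨g1.trans hv.1, hv.2.trans g3⟩)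
      rw [hu]
      simp only
      rw [hψ1 v hv.1 hv.2, one_mul]
      apply Real.exp_le_exp.2
      have := mul_le_mul_of_nonneg_left (hv.2.trans g3) hσ0.le
      linarith
    have hss : uIcc a1 a2 ⊆ uIcc w (w + δ) := by
      rw [uIcc_of_le g2, uIcc_of_le hww]
      exact Icc_subset_Icc g1 g3
    have h2 := intervalIntegral.integral_mono_on g2
      ((hV'i.mono_set hss).const_mul (Real.exp (-(σ * (w + δ)))))
      (hIi.mono_set hss) h1
    rw [intervalIntegral.integral_const_mul, hFint a1 a2 g1 g2 g3] at h2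
    exact h2

/-- The second moment bound. -/
theorem second {Z : Multiset ℂ} (hZ : ∀ ρ ∈ Z, ρ.re < 1) (hZc : Z.map conj = Z) {x₀ : ℝ}
    (hR : RDens (fZ Z) x₀) {p : ℕ → ℝ} (hS : SysW Z p)
    (b : ContDiffBump (1 / 2 : ℝ)) (hb : b.rOut < 1 / 2) {σ η A : ℝ} (hσ : 1 / 2 < σ)
    (hσ1 : σ < 2) (hη : 0 < η) (hη1 : η ≤ 1) (hA : 0 < A) :
    ∃ C : ℝ, 0 < C ∧ ∀ δ : ℝ, 0 < δ → δ ≤ 1 → ∀ T : Finset (ℝ × ℝ), Win δ A T →
      ∀ D s : ℝ, 0 ≤ D → |s| = 1 →
      (∀ q ∈ T, ∃ V : ℝ, D ≤ s * V ∧
        ∫ v, ((σ : ℂ) * pw b q.2 q.1 v - deriv (pw b q.2 q.1) v) * aer Z x₀ p σ v = (V : ℂ)) →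
      (T.card : ℝ) * D ^ 2 ≤ C * δ ^ (-η) := by
  obtain ⟨C, hC0, hC⟩ := aer_bound hZ hR hS hZc hσ hσ1 hη hη1
  set C1 : ℝ := (∫ y, maj b A y) + 1 with hC1
  have hI0 : 0 ≤ ∫ y, maj b A y := integral_nonneg fun y => maj_nonneg b A y
  have hC10 : 0 < C1 := by rw [hC1]; linarith
  refine ⟨C1 * (2 * Real.pi * C), by positivity, fun δ hδ hδ1 T hT D s hD hs hwin => ?_⟩
  rcases T.eq_empty_or_nonempty with h0 | h0
  · rw [h0]
    simp only [Finset.card_empty, CharP.cast_eq_zero, zero_mul]
    positivity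
  have hcard : (0 : ℝ) < T.card := by exact_mod_cast h0.card_pos
  have hM : 0 ≤ C * δ ^ (-η) := by positivity
  have hpos : ∀ q ∈ T, 0 < q.2 := by
    intro q hq
    have h1 := (hT.len q hq).2
    by_contra hc
    push Not at hc
    nlinarith
  have hmain := sel_fourier (k := kT b T) (kT_smooth b T) (kT_compact b hb T hpos)
    (aer_integrable hZ hR hS hσ) (σ := σ) hδ hM
    (A := T.card * (δ * C1)) (by positivity) (hC δ hδ hδ1) (by
      refine (kT_sq b hb hδ hA hT).trans ?_
      apply mul_le_mul_of_nonneg_left _ hcard.le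
      apply mul_le_mul_of_nonneg_left _ hδ.le
      rw [hC1]; linarith)
  choose! V hV1 hV2 using hwin
  have hint : ∀ q ∈ T, Integrable fun v => ((σ : ℂ) * pw b q.2 q.1 v - deriv (pw b q.2 q.1) v) *
      aer Z x₀ p σ v := by
    intro q hq
    have h1 : ContDiff ℝ ∞ (deriv (pw b q.2 q.1)) := by
      have : ContDiff ℝ (∞ + 1) (pw b q.2 q.1) := pw_smooth b q.2 q.1
      exact (contDiff_succ_iff_deriv.1 this).2.2
    have hc : Continuous fun v => (σ : ℂ) * pw b q.2 q.1 v - deriv (pw b q.2 q.1) v :=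
      (continuous_const.mul (pw_smooth b q.2 q.1).continuous).sub h1.continuous
    have hcs : HasCompactSupport fun v => (σ : ℂ) * pw b q.2 q.1 v - deriv (pw b q.2 q.1) v :=
      ((pw_compact b hb (hpos q hq) q.1).mul_left).sub (pw_compact b hb (hpos q hq) q.1).deriv
    obtain ⟨B, hB⟩ := hc.bounded_above_of_compact_support hcs
    exact (aer_integrable hZ hR hS hσ).bdd_mul hc.aestronglyMeasurable
      (Eventually.of_forall hB)
  have hsum : ∫ v, ((σ : ℂ) * kT b T v - deriv (kT b T) v) * aer Z x₀ p σ v =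
      ((∑ q ∈ T, V q : ℝ) : ℂ) := by
    have e1 : ∀ v, ((σ : ℂ) * kT b T v - deriv (kT b T) v) * aer Z x₀ p σ v =
        ∑ q ∈ T, ((σ : ℂ) * pw b q.2 q.1 v - deriv (pw b q.2 q.1) v) * aer Z x₀ p σ v := by
      intro v
      rw [deriv_kT, ← Finset.sum_mul]
      congr 1
      unfold kT
      simp only
      rw [Finset.mul_sum, ← Finset.sum_sub_distrib]
    simp_rw [e1]
    rw [integral_finsetSum _ hint, Finset.sum_congr rfl hV2]
    push_cast
    rfl
  rw [hsum, Complex.norm_real, Real.norm_eq_abs, sq_abs] at hmain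
  have hlow : (T.card : ℝ) * D ≤ s * ∑ q ∈ T, V q := by
    rw [Finset.mul_sum, ← nsmul_eq_mul]
    exact Finset.card_nsmul_le_sum _ _ _ hV1
  have hlow0 : 0 ≤ (T.card : ℝ) * D := by positivity
  have hs2 : s ^ 2 = 1 := by rw [← sq_abs, hs]; norm_num
  have h1 : ((T.card : ℝ) * D) ^ 2 ≤ (∑ q ∈ T, V q) ^ 2 := by
    have := pow_le_pow_left₀ hlow0 hlow 2
    rwa [mul_pow s, hs2, one_mul] at this
  have h2 := h1.trans hmain
  have e2 : (T.card : ℝ) * (δ * C1) * (2 * Real.pi * (C * δ ^ (-η)) / δ) =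
      T.card * (C1 * (2 * Real.pi * C) * δ ^ (-η)) := by
    field_simp
  have e3 : ((T.card : ℝ) * D) ^ 2 = T.card * (T.card * D ^ 2) := by ring
  rw [e2, e3] at h2
  exact le_of_mul_le_mul_left h2 hcard

end Bp

end Pool.Agent.H521.G
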