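import Pool.Agent.H521.G.Sel10
import Pool.Agent.H521.G.Opp2

open MeasureTheory Set Filter Topology
open scoped ComplexConjugate FourierTransform ContDiff

namespace Pool.Agent.H521.G

theorem exp_le_lin {t : ℝ} (h0 : 0 ≤ t) (h1 : t ≤ 1 / 2) : Real.exp t ≤ 1 + 2 * t := by
  have h2 := Real.exp_bound_div_one_sub_of_interval h0 (by linarith : t < 1)
  refine h2.trans ?_
  rw [div_le_iff₀ (by linarith)]
  nlinarith

/-- Masses of short intervals. -/
theorem piece_le {Z : Multiset ℂ} (hZ : ∀ ρ ∈ Z, ρ.re < 1) {x₀ : ℝ} (hR : RDens (fZ Z) x₀) :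
    ∃ X₁ : ℝ, x₀ ≤ X₁ ∧ 9 ≤ X₁ ∧ ∀ x, X₁ ≤ x →
      (∀ a b, x / 3 ≤ a → a ≤ b → b ≤ 2 * a →
        Fp (fZ Z) x₀ b - Fp (fZ Z) x₀ a ≤ 2 * ((b - a) / Real.log x)) ∧
      (∀ y, x ≤ y → y ≤ 2 * x → 2 / 5 * ((y - x) / Real.log x) ≤
        Fp (fZ Z) x₀ y - Fp (fZ Z) x₀ x) := by
  have h1 := F_asym hZ hR (by norm_num : (0 : ℝ) < 1 / 4)
  obtain ⟨X₂, hX₂⟩ := eventually_atTop.1 h1
  refine ⟨max (max x₀ 9) (max (3 * |X₂|) (Real.exp 10)), ?_, ?_, fun x hx => ?_⟩
  · exact (le_max_left _ _).trans (le_max_left _ _)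
  · exact (le_max_right _ _).trans (le_max_left _ _)
  have hx0 : x₀ ≤ x := (le_max_left _ _).trans ((le_max_left _ _).trans hx)
  have hx9 : 9 ≤ x := (le_max_right _ _).trans ((le_max_left _ _).trans hx)
  have hx2 : 3 * |X₂| ≤ x := (le_max_left _ _).trans ((le_max_right _ _).trans hx)
  have hx10 : Real.exp 10 ≤ x := (le_max_right _ _).trans ((le_max_right _ _).trans hx)
  have hl : 10 ≤ Real.log x := (Real.le_log_iff_exp_le (by linarith)).2 hx10
  have h3 : Real.log 3 ≤ 2 := by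
    have := Real.log_le_sub_one_of_pos (by norm_num : (0 : ℝ) < 3)
    linarith
  have h2l : Real.log 2 ≤ 1 := by
    have := Real.log_le_sub_one_of_pos (by norm_num : (0 : ℝ) < 2)
    linarith
  constructor
  · intro a b ha hab hb
    have ha2 : X₂ ≤ a := by
      have := le_abs_self X₂
      linarith
    have ha0 : 0 < a := by linarith
    have h4 := hX₂ a ha2 b hab hb
    have hla : Real.log x - 2 ≤ Real.log a := by
      have h5 := Real.log_le_log (by linarith) ha
      rw [Real.log_div (by linarith) (by norm_num)] at h5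
      linarith
    have hla0 : 0 < Real.log a := by linarith
    have h5 := (abs_le.1 h4).2
    have h6 : (b - a) / Real.log a ≤ 5 / 4 * ((b - a) / Real.log x) := by
      have e : 5 / 4 * ((b - a) / Real.log x) = (5 / 4 * (b - a)) / Real.log x := by ring
      rw [e, div_le_div_iff₀ hla0 (by linarith)]
      have h7 : 0 ≤ b - a := by linarith
      nlinarith
    have h8 : 0 ≤ (b - a) / Real.log x := div_nonneg (by linarith) (by linarith)
    nlinarith
  · intro y hxy hy
    have h4 := hR.F_sub_ge hx0 hxy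
    refine le_trans ?_ h4
    have hy0 : 0 < y := by linarith
    have hly : Real.log y ≤ Real.log x + 1 := by
      have h5 := Real.log_le_log hy0 hy
      rw [Real.log_mul (by norm_num) (by linarith)] at h5
      linarith
    have hly0 : 0 < Real.log y := Real.log_pos (by linarith)
    have e : 2 / 5 * ((y - x) / Real.log x) = (2 / 5 * (y - x)) / Real.log x := by ring
    rw [e, div_le_div_iff₀ (by linarith) (by linarith)]
    have h7 : 0 ≤ y - x := by linarith
    nlinarith

namespace Bp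

/-- the bump for deficiencies -/
noncomputable def bLow (κ : ℝ) (h0 : 0 < κ) (h1 : κ ≤ 1 / 4) : ContDiffBump (1 / 2 : ℝ) :=
  ⟨1 / 2 - κ, 1 / 2 - κ / 2, by linarith, by linarith⟩

section

variable {Z : Multiset ℂ} (hZ : ∀ ρ ∈ Z, ρ.re < 1) {x₀ : ℝ} (hR : RDens (fZ Z) x₀) {p : ℕ → ℝ}
  (hp1 : ∀ k, 1 < p k) (hpt : Tendsto p atTop atTop)

include hZ hR hp1 hpt

/-- Windows with few primes. -/
theorem low_window {σ η κ : ℝ} (hσ0 : 0 < σ) (hσ1 : σ ≤ 1) (hη : 0 < η) (hη1 : η ≤ 1)
    (hκ0 : 0 < κ) (hκ1 : κ ≤ 1 / 4) (hκ : κ ≤ η / 256) :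
    ∃ X₁ : ℝ, ∀ x y : ℝ, X₁ ≤ x → x < y → Real.log y - Real.log x ≤ η / 16 →
      ((Set.ncard {k | x < p k ∧ p k < y} : ℕ) : ℝ) ≤
        (1 - η) * (Fp (fZ Z) x₀ y - Fp (fZ Z) x₀ x) →
      ∃ V : ℝ, η / 2 * (Real.exp (-(σ * Real.log x)) * (Fp (fZ Z) x₀ y - Fp (fZ Z) x₀ x)) ≤
          (-1) * V ∧
        ∫ v, ((σ : ℂ) * pw (bLow κ hκ0 hκ1) (Real.log y - Real.log x) (Real.log x) v -
          deriv (pw (bLow κ hκ0 hκ1) (Real.log y - Real.log x) (Real.log x)) v) *
            aer Z x₀ p σ v = (V : ℂ) := by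
  obtain ⟨X₁, hX0, hX9, hX⟩ := piece_le hZ hR
  have hx3 := hR.dens.hx₀
  refine ⟨X₁, fun x y hx hxy hd hcnt => ?_⟩
  have hx0 : 0 < x := by linarith
  have hy0 : 0 < y := by linarith
  set d : ℝ := Real.log y - Real.log x with hdd
  have hd0 : 0 < d := by
    have := Real.log_lt_log hx0 hxy
    rw [hdd]; linarith
  obtain ⟨W, I, h1, h2, h3, h4, h5⟩ := window (Z := Z) hR hp1 hpt (bLow κ hκ0 hκ1) (by
    change 1 / 2 - κ / 2 < 1 / 2
    linarith) (σ := σ) (δ := d) (w := Real.log x) hσ0 hd0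
    (Real.log_le_log (by linarith) (hX0.trans hx))
  have hrin : (bLow κ hκ0 hκ1).rIn = 1 / 2 - κ := rfl
  have ey : Real.exp (Real.log x + d) = y := by
    rw [hdd]
    rw [show Real.log x + (Real.log y - Real.log x) = Real.log y by ring, Real.exp_log hy0]
  have ey' : Real.log x + d = Real.log y := by rw [hdd]; ring
  rw [Real.exp_log hx0, ey] at h2 h4
  rw [hrin] at h5
  set a : ℝ := Real.exp (Real.log x + (1 / 2 - (1 / 2 - κ)) * d) with ha
  set b : ℝ := Real.exp (Real.log x + (1 / 2 + (1 / 2 - κ)) * d) with hb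
  have ea : a = x * Real.exp (κ * d) := by
    rw [ha, Real.exp_add, Real.exp_log hx0]
    congr 2
    ring
  have eb : b = y * Real.exp (-(κ * d)) := by
    rw [hb, show Real.log x + (1 / 2 + (1 / 2 - κ)) * d = Real.log y + -(κ * d) by
      rw [← ey']; ring, Real.exp_add, Real.exp_log hy0]
  have hκd : 0 < κ * d := mul_pos hκ0 hd0
  have hκd1 : κ * d ≤ 1 / 64 := by
    have : d ≤ 1 / 16 := by linarith
    nlinarith
  have hd16 : d ≤ 1 / 16 := by linarith
  have he1 := exp_le_lin hκd.le (by linarith)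
  have he2 : 1 - κ * d ≤ Real.exp (-(κ * d)) := by
    have := Real.add_one_le_exp (-(κ * d))
    linarith
  have he3 : Real.exp (-(κ * d)) ≤ 1 := Real.exp_le_one_iff.2 (by linarith)
  have he4 : 1 ≤ Real.exp (κ * d) := Real.one_le_exp hκd.le
  have hyx : y = x * Real.exp d := by
    rw [← ey, Real.exp_add, Real.exp_log hx0]
  have hyx2 : y ≤ 2 * x := by
    have := exp_le_lin hd0.le (by linarith)
    rw [hyx]; nlinarith
  have hyxd : x * d ≤ y - x := by
    have := Real.add_one_le_exp d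
    rw [hyx]; nlinarith
  have hxa : x ≤ a := by rw [ea]; nlinarith
  have hax : a - x ≤ 2 * (κ * d) * x := by rw [ea]; nlinarith
  have hby : b ≤ y := by rw [eb]; nlinarith
  have hyb : y - b ≤ 2 * (κ * d) * x := by
    rw [eb]
    have h6 : y * (1 - κ * d) ≤ y * Real.exp (-(κ * d)) := mul_le_mul_of_nonneg_left he2 hy0.le
    have h7 : y * (κ * d) ≤ 2 * x * (κ * d) := mul_le_mul_of_nonneg_right hyx2 hκd.le
    linarith
  obtain ⟨g1, g2⟩ := hX x hx
  have m1 := g1 x a (by linarith) hxa (by nlinarith)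
  have m2 := g1 b y (by
    have : x / 3 ≤ y - 2 * (κ * d) * x := by nlinarith
    linarith) hby (by nlinarith)
  have m3 := g2 y hxy.le hyx2
  set F := Fp (fZ Z) x₀ with hF
  set E : ℝ := F y - F x with hE
  have hl : 0 < Real.log x := Real.log_pos (by linarith)
  have hE0 : 0 ≤ E := le_trans (by
    have : 0 ≤ (y - x) / Real.log x := div_nonneg (by linarith) hl.le
    linarith) m3
  have hmid : (1 - η / 4) * E ≤ F b - F a := by
    have h6 : (a - x) / Real.log x + (y - b) / Real.log x ≤ 4 * κ * ((y - x) / Real.log x) := by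
      rw [← add_div, ← mul_div_assoc]
      apply div_le_div_of_nonneg_right _ hl.le
      have h7 : κ * (x * d) ≤ κ * (y - x) := mul_le_mul_of_nonneg_left hyxd hκ0.le
      nlinarith
    have h8 : F y - F x - (F b - F a) ≤ 8 * κ * ((y - x) / Real.log x) := by linarith
    have h9 : (y - x) / Real.log x ≤ 5 / 2 * E := by linarith
    have h10 : 8 * κ * ((y - x) / Real.log x) ≤ 8 * κ * (5 / 2 * E) :=
      mul_le_mul_of_nonneg_left h9 (by positivity)
    have h11 : κ * E ≤ η / 256 * E := mul_le_mul_of_nonneg_right hκ hE0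
    nlinarith
  refine ⟨W - I, ?_, h1⟩
  set X' : ℝ := Real.exp (-(σ * Real.log x)) with hX'
  have hX'0 : 0 < X' := Real.exp_pos _
  have hexp : (1 - η / 8) * X' ≤ Real.exp (-(σ * (Real.log x + d))) := by
    rw [show -(σ * (Real.log x + d)) = -(σ * d) + -(σ * Real.log x) by ring, Real.exp_add, ← hX']
    apply mul_le_mul_of_nonneg_right _ hX'0.le
    have h6 := Real.add_one_le_exp (-(σ * d))
    have h7 : σ * d ≤ 1 * d := mul_le_mul_of_nonneg_right hσ1 hd0.le
    linarith
  have hI1 : (1 - η / 8) * X' * ((1 - η / 4) * E) ≤ I := by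
    refine le_trans ?_ h5
    apply mul_le_mul hexp hmid (mul_nonneg (by linarith) hE0) (Real.exp_pos _).le
  have hW1 : W ≤ X' * ((1 - η) * E) := h2.trans (mul_le_mul_of_nonneg_left hcnt hX'0.le)
  have hXE : 0 ≤ X' * E := mul_nonneg hX'0.le hE0
  have h12 : X' * E * ((1 - η / 8) * (1 - η / 4) - (1 - η) - η / 2) ≥ 0 := by
    apply mul_nonneg hXE
    nlinarith
  nlinarith

/-- Windows with many primes. -/
theorem up_window {σ η κ : ℝ} (hσ0 : 0 < σ) (hσ1 : σ ≤ 1) (hη : 0 < η) (hη1 : η ≤ 1)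
    (hκ0 : 0 < κ / 2) (hκ1 : κ / 2 ≤ 1 / 4) (hκ : κ ≤ η / 256) :
    ∃ X₁ : ℝ, ∀ x y : ℝ, X₁ ≤ x → x < y → Real.log y - Real.log x ≤ η / 32 →
      (1 + η) * (Fp (fZ Z) x₀ y - Fp (fZ Z) x₀ x) ≤
        ((Set.ncard {k | x < p k ∧ p k < y} : ℕ) : ℝ) →
      ∃ V : ℝ, η / 2 * (Real.exp (-(σ * Real.log x)) * (Fp (fZ Z) x₀ y - Fp (fZ Z) x₀ x)) ≤
          1 * V ∧
        ∫ v, ((σ : ℂ) * pw (bLow (κ / 2) hκ0 hκ1) ((1 + 2 * κ) * (Real.log y - Real.log x))
            (Real.log x - κ * (Real.log y - Real.log x)) v -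
          deriv (pw (bLow (κ / 2) hκ0 hκ1) ((1 + 2 * κ) * (Real.log y - Real.log x))
            (Real.log x - κ * (Real.log y - Real.log x))) v) *
            aer Z x₀ p σ v = (V : ℂ) := by
  obtain ⟨X₁, hX0, hX9, hX⟩ := piece_le hZ hR
  have hx3 := hR.dens.hx₀
  refine ⟨2 * X₁, fun x y hx hxy hd hcnt => ?_⟩
  have hx0 : 0 < x := by linarith
  have hy0 : 0 < y := by linarith
  set d : ℝ := Real.log y - Real.log x with hdd
  have hd0 : 0 < d := by
    have := Real.log_lt_log hx0 hxy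
    rw [hdd]; linarith
  set w : ℝ := Real.log x - κ * d with hw
  set d' : ℝ := (1 + 2 * κ) * d with hd'
  have hκ00 : 0 < κ := by linarith
  have hκd : 0 < κ * d := mul_pos hκ00 hd0
  have hd16 : d ≤ 1 / 32 := by linarith
  have hκd1 : κ * d ≤ 1 / 64 := by nlinarith
  have hd'0 : 0 < d' := by rw [hd']; positivity
  have he1 := exp_le_lin hκd.le (by linarith)
  have he2 : 1 - κ * d ≤ Real.exp (-(κ * d)) := by
    have := Real.add_one_le_exp (-(κ * d))
    linarith
  have he3 : Real.exp (-(κ * d)) ≤ 1 := Real.exp_le_one_iff.2 (by linarith)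
  have he4 : 1 ≤ Real.exp (κ * d) := Real.one_le_exp hκd.le
  set a : ℝ := Real.exp w with ha
  have ea : a = x * Real.exp (-(κ * d)) := by
    rw [ha, hw, show Real.log x - κ * d = Real.log x + -(κ * d) by ring, Real.exp_add,
      Real.exp_log hx0]
  have hxa : x / 2 ≤ a := by rw [ea]; nlinarith
  have hxw : x₀ ≤ a := by linarith
  obtain ⟨W, I, h1, h2, h3, h4, h5⟩ := window (Z := Z) hR hp1 hpt (bLow (κ / 2) hκ0 hκ1) (by
    change 1 / 2 - κ / 2 / 2 < 1 / 2
    linarith) (σ := σ) (δ := d') (w := w) hσ0 hd'0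
    (by rw [← Real.log_exp w]; exact Real.log_le_log (by linarith) hxw)
  have hrin : (bLow (κ / 2) hκ0 hκ1).rIn = 1 / 2 - κ / 2 := rfl
  have ey' : Real.log x + d = Real.log y := by rw [hdd]; ring
  rw [hrin] at h3
  set b : ℝ := Real.exp (w + d') with hb
  have eb : b = y * Real.exp (κ * d) := by
    rw [hb, show w + d' = Real.log y + κ * d by rw [hw, hd', ← ey']; ring, Real.exp_add,
      Real.exp_log hy0]
  have hyx : y = x * Real.exp d := by
    have : y = Real.exp (Real.log x + d) := by rw [ey', Real.exp_log hy0]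
    rw [this, Real.exp_add, Real.exp_log hx0]
  have hyx2 : y ≤ 2 * x := by
    have := exp_le_lin hd0.le (by linarith)
    rw [hyx]; nlinarith
  have hyxd : x * d ≤ y - x := by
    have := Real.add_one_le_exp d
    rw [hyx]; nlinarith
  have hax : a ≤ x := by rw [ea]; nlinarith
  have hxa2 : x - a ≤ (κ * d) * x := by rw [ea]; nlinarith
  have hby : y ≤ b := by rw [eb]; nlinarith
  have hyb : b - y ≤ 4 * (κ * d) * x := by
    rw [eb]
    have h6 : y * Real.exp (κ * d) ≤ y * (1 + 2 * (κ * d)) := mul_le_mul_of_nonneg_left he1 hy0.le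
    have h7 : y * (κ * d) ≤ 2 * x * (κ * d) := mul_le_mul_of_nonneg_right hyx2 hκd.le
    linarith
  obtain ⟨g1, g2⟩ := hX x (by linarith)
  have m1 := g1 a x (by linarith) hax (by linarith)
  have m2 := g1 y b (by linarith) hby (by nlinarith)
  have m3 := g2 y hxy.le hyx2
  set F := Fp (fZ Z) x₀ with hF
  set E : ℝ := F y - F x with hE
  have hl : 0 < Real.log x := Real.log_pos (by linarith)
  have hE0 : 0 ≤ E := le_trans (by
    have : 0 ≤ (y - x) / Real.log x := div_nonneg (by linarith) hl.le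
    linarith) m3
  have hmid : F b - F a ≤ (1 + η / 4) * E := by
    have h6 : (x - a) / Real.log x + (b - y) / Real.log x ≤ 5 * κ * ((y - x) / Real.log x) := by
      rw [← add_div, ← mul_div_assoc]
      apply div_le_div_of_nonneg_right _ hl.le
      have h7 : κ * (x * d) ≤ κ * (y - x) := mul_le_mul_of_nonneg_left hyxd hκ00.le
      nlinarith
    have h8 : F b - F a - (F y - F x) ≤ 10 * κ * ((y - x) / Real.log x) := by linarith
    have h9 : (y - x) / Real.log x ≤ 5 / 2 * E := by linarith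
    have h10 : 10 * κ * ((y - x) / Real.log x) ≤ 10 * κ * (5 / 2 * E) :=
      mul_le_mul_of_nonneg_left h9 (by positivity)
    have h11 : κ * E ≤ η / 256 * E := mul_le_mul_of_nonneg_right hκ hE0
    nlinarith
  refine ⟨W - I, ?_, h1⟩
  set X' : ℝ := Real.exp (-(σ * w)) with hX'
  have hX'0 : 0 < X' := Real.exp_pos _
  have hX'x : Real.exp (-(σ * Real.log x)) ≤ X' := by
    rw [hX']
    apply Real.exp_le_exp.2
    have : σ * w ≤ σ * Real.log x := mul_le_mul_of_nonneg_left (by rw [hw]; linarith) hσ0.le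
    linarith
  have hexp : (1 - η / 8) * X' ≤ Real.exp (-(σ * (w + d'))) := by
    rw [show -(σ * (w + d')) = -(σ * d') + -(σ * w) by ring, Real.exp_add, ← hX']
    apply mul_le_mul_of_nonneg_right _ hX'0.le
    have h6 := Real.add_one_le_exp (-(σ * d'))
    have h7 : σ * d' ≤ 1 * d' := mul_le_mul_of_nonneg_right hσ1 hd'0.le
    have h8 : d' ≤ 2 * d := by
      rw [hd']
      apply mul_le_mul_of_nonneg_right _ hd0.le
      linarith
    linarith
  have hW1 : (1 - η / 8) * X' * ((1 + η) * E) ≤ W := by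
    refine le_trans ?_ h3
    refine mul_le_mul hexp (hcnt.trans ?_) (mul_nonneg (by linarith) hE0) (Real.exp_pos _).le
    have hsub : {k | x < p k ∧ p k < y} ⊆ {k | Real.exp (w + (1 / 2 - (1 / 2 - κ / 2)) * d') < p k ∧
        p k < Real.exp (w + (1 / 2 + (1 / 2 - κ / 2)) * d')} := by
      rintro k ⟨k1, k2⟩
      constructor
      · refine lt_of_le_of_lt ?_ k1
        rw [← Real.exp_log hx0]
        apply Real.exp_le_exp.2
        rw [hw, hd']
        have : κ * κ * d ≤ 1 * κ * d := by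
          apply mul_le_mul_of_nonneg_right _ hd0.le
          apply mul_le_mul_of_nonneg_right _ hκ00.le
          linarith
        nlinarith
      · refine lt_of_lt_of_le k2 ?_
        rw [← Real.exp_log hy0]
        apply Real.exp_le_exp.2
        rw [hw, hd', ← ey']
        have : κ * κ * d ≤ 1 / 2 * κ * d := by
          apply mul_le_mul_of_nonneg_right _ hd0.le
          apply mul_le_mul_of_nonneg_right _ hκ00.le
          linarith
        nlinarith
    have h6 := Set.ncard_le_ncard hsub ((finite_le hpt (Real.exp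
      (w + (1 / 2 + (1 / 2 - κ / 2)) * d'))).subset fun k hk => hk.2.le)
    exact_mod_cast h6
  have hI1 : I ≤ X' * ((1 + η / 4) * E) := h4.trans (mul_le_mul_of_nonneg_left hmid hX'0.le)
  have hXE : 0 ≤ X' * E := mul_nonneg hX'0.le hE0
  have h12 : X' * E * ((1 - η / 8) * (1 + η) - (1 + η / 4) - η / 2) ≥ 0 := by
    apply mul_nonneg hXE
    nlinarith
  have h13 : η / 2 * (Real.exp (-(σ * Real.log x)) * E) ≤ η / 2 * (X' * E) :=
    mul_le_mul_of_nonneg_left (mul_le_mul_of_nonneg_right hX'x hE0) (by linarith)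
  nlinarith

end

end Bp

end Pool.Agent.H521.G
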