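import Pool.Agent.H521.G.Sel11

open MeasureTheory Set Filter Topology
open scoped ComplexConjugate FourierTransform ContDiff

namespace Pool.Agent.H521.G

/-- numerical conclusion -/
theorem dev_num {C c A e X h N : ℝ} (hC : 0 < C) (hc : 0 < c) (hA : 1 ≤ A) (he : 0 < e) (he1 : e ≤ 1)
    (hX : 2 ≤ X) (hh : 1 ≤ h) (hN : 0 ≤ N)
    (key : N * (c * ((2 * X) ^ (-(1 / 2 + e)) * (h / (A * Real.log (4 * X))))) ^ 2 ≤
      C * (2 * h / X) ^ (-e)) :
    N * h ^ 2 ≤ (C * 64 ^ (1 + e) * A ^ 2 / (c ^ 2 * e ^ 2)) * X ^ (1 + 5 * e) := by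
  have hX0 : 0 < X := by linarith
  have h4X : 1 < 4 * X := by linarith
  set L := Real.log (4 * X) with hL
  have hL0 : 0 < L := Real.log_pos h4X
  have hLe : L ≤ (4 * X) ^ e / e := Real.log_le_rpow_div (by linarith) he
  have h1 : (2 * h / X) ^ (-e) ≤ X ^ e := by
    rw [Real.rpow_neg (by positivity), ← Real.inv_rpow (by positivity)]
    apply Real.rpow_le_rpow (by positivity) _ he.le
    rw [inv_div, div_le_iff₀ (by positivity)]
    nlinarith
  have h2 : (c * ((2 * X) ^ (-(1 / 2 + e)) * (h / (A * L)))) ^ 2 =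
      h ^ 2 * (c ^ 2 / (A ^ 2 * L ^ 2 * (2 * X) ^ (1 + 2 * e))) := by
    have h3 : ((2 * X) ^ (-(1 / 2 + e))) ^ 2 = ((2 * X) ^ (1 + 2 * e))⁻¹ := by
      rw [← Real.rpow_natCast, ← Real.rpow_mul (by positivity), ← Real.rpow_neg (by positivity)]
      congr 1
      push_cast
      ring
    rw [mul_pow, mul_pow, h3]
    field_simp
  rw [h2, ← mul_assoc] at key
  have hden : 0 < A ^ 2 * L ^ 2 * (2 * X) ^ (1 + 2 * e) := by positivity
  rw [← mul_div_assoc, div_le_iff₀ hden] at key
  have h5 : A ^ 2 * L ^ 2 * (2 * X) ^ (1 + 2 * e) ≤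
      A ^ 2 * (((4 * X) ^ e / e) ^ 2) * (4 * X) ^ (1 + 2 * e) := by
    apply mul_le_mul _ _ (by positivity) (by positivity)
    · apply mul_le_mul_of_nonneg_left _ (by positivity)
      exact pow_le_pow_left₀ hL0.le hLe 2
    · apply Real.rpow_le_rpow (by positivity) (by linarith) (by linarith)
  have h6 : A ^ 2 * (((4 * X) ^ e / e) ^ 2) * (4 * X) ^ (1 + 2 * e) =
      A ^ 2 / e ^ 2 * (4 * X) ^ (1 + 4 * e) := by
    have h7 : ((4 * X) ^ e) ^ 2 = (4 * X) ^ (2 * e) := by
      rw [← Real.rpow_natCast, ← Real.rpow_mul (by positivity)]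
      congr 1
      push_cast
      ring
    have h8 : (4 * X) ^ (1 + 4 * e) = (4 * X) ^ (2 * e) * (4 * X) ^ (1 + 2 * e) := by
      rw [← Real.rpow_add (by positivity)]
      congr 1
      ring
    rw [div_pow, h7, h8]
    field_simp
  have h9 : (4 * X) ^ (1 + 4 * e) = 4 ^ (1 + 4 * e) * X ^ (1 + 4 * e) :=
    Real.mul_rpow (by norm_num) hX0.le
  have h10 : (4 : ℝ) ^ (1 + 4 * e) ≤ 64 ^ (1 + e) := by
    have h11 : (64 : ℝ) ^ (1 + e) = 4 ^ (3 * (1 + e)) := by
      rw [Real.rpow_mul (by norm_num)]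
      norm_num
    have h12 : (4 : ℝ) ^ (1 + 4 * e) ≤ 4 ^ (3 * (1 + e)) := by
      apply Real.rpow_le_rpow_of_exponent_le (by norm_num)
      linarith
    rw [h11]; exact h12
  have h13 : N * h ^ 2 * c ^ 2 ≤ C * X ^ e * (A ^ 2 / e ^ 2 * (64 ^ (1 + e) * X ^ (1 + 4 * e))) := by
    refine key.trans ?_
    apply mul_le_mul (mul_le_mul_of_nonneg_left h1 hC.le) _ hden.le (by positivity)
    refine h5.trans ?_
    rw [h6, h9]
    apply mul_le_mul_of_nonneg_left _ (by positivity)
    exact mul_le_mul_of_nonneg_right h10 (by positivity)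
  have h14 : C * X ^ e * (A ^ 2 / e ^ 2 * (64 ^ (1 + e) * X ^ (1 + 4 * e))) =
      (C * 64 ^ (1 + e) * A ^ 2 / e ^ 2) * X ^ (1 + 5 * e) := by
    have h15 : X ^ (1 + 5 * e) = X ^ e * X ^ (1 + 4 * e) := by
      rw [← Real.rpow_add hX0]
      congr 1
      ring
    rw [h15]
    ring
  rw [h14] at h13
  have hc2 : 0 < c ^ 2 := by positivity
  have h16 : (C * 64 ^ (1 + e) * A ^ 2 / (c ^ 2 * e ^ 2)) * X ^ (1 + 5 * e) =
      (C * 64 ^ (1 + e) * A ^ 2 / e ^ 2) * X ^ (1 + 5 * e) / c ^ 2 := by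
    field_simp
  rw [h16, le_div_iff₀ hc2]
  exact h13

/-- **Selberg's bound** for separated intervals with a wrong number of primes. -/
theorem selberg_dev {Z : Multiset ℂ} (hZ : ∀ ρ ∈ Z, ρ.re < 1) (hZc : Z.map conj = Z)
    {x₀ : ℝ} (hR : RDens (fZ Z) x₀) {p : ℕ → ℝ} (hS : SysW Z p) {η A ε : ℝ} (hη : 0 < η)
    (hη1 : η ≤ 1) (hA : 1 ≤ A) (hε : 0 < ε) :
    ∃ C X₀ : ℝ, 0 < C ∧ 2 ≤ X₀ ∧ ∀ X h : ℝ, X₀ ≤ X → 1 ≤ h → h ≤ η / 64 * X →
      ∀ T : Finset (ℝ × ℝ),
      (∀ q ∈ T, X ≤ q.1 ∧ q.1 ≤ 2 * X ∧ q.2 - q.1 ≤ h ∧ h ≤ A * (q.2 - q.1)) →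
      (∀ q ∈ T, ∀ q' ∈ T, q ≠ q' → q.2 + h ≤ q'.1 ∨ q'.2 + h ≤ q.1) →
      ((∀ q ∈ T, ((Set.ncard {k | q.1 < p k ∧ p k < q.2} : ℕ) : ℝ) ≤
          (1 - η) * (Fp (fZ Z) x₀ q.2 - Fp (fZ Z) x₀ q.1)) ∨
        (∀ q ∈ T, (1 + η) * (Fp (fZ Z) x₀ q.2 - Fp (fZ Z) x₀ q.1) ≤
          ((Set.ncard {k | q.1 < p k ∧ p k < q.2} : ℕ) : ℝ))) →
      (T.card : ℝ) * h ^ 2 ≤ C * X ^ (1 + ε) := by
  have hx3 := hR.dens.hx₀
  set e : ℝ := min ε 1 / 8 with he
  have he0 : 0 < e := by rw [he]; positivity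
  have he1 : e ≤ 1 / 8 := by rw [he]; linarith [min_le_right ε 1]
  have heε : 8 * e ≤ ε := by rw [he]; linarith [min_le_left ε 1]
  have hp1 : ∀ k, 1 < p k := fun k => by
    linarith [hS.mono.monotone (Nat.zero_le k), hS.one_lt]
  set κ : ℝ := η / 256 with hκ
  have hκ0 : 0 < κ := by rw [hκ]; positivity
  have hκ1 : κ ≤ 1 / 4 := by rw [hκ]; linarith
  have hκ2 : κ / 2 ≤ 1 / 4 := by linarith
  have hκ20 : 0 < κ / 2 := by positivity
  obtain ⟨C1, hC10, hC1⟩ := Bp.second hZ hZc hR hS (Bp.bLow κ hκ0 hκ1) (by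
    change 1 / 2 - κ / 2 < 1 / 2
    linarith) (σ := 1 / 2 + e) (η := e) (A := 6 * A) (by linarith) (by linarith) he0
    (by linarith) (by linarith)
  obtain ⟨C2, hC20, hC2⟩ := Bp.second hZ hZc hR hS (Bp.bLow (κ / 2) hκ20 hκ2) (by
    change 1 / 2 - κ / 2 / 2 < 1 / 2
    linarith) (σ := 1 / 2 + e) (η := e) (A := 6 * A) (by linarith) (by linarith) he0
    (by linarith) (by linarith)
  obtain ⟨X1, hX1⟩ := Bp.low_window hZ hR hp1 hS.tendsto (σ := 1 / 2 + e) (by linarith)
    (by linarith) hη hη1 hκ0 hκ1 (le_of_eq hκ)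
  obtain ⟨X2, hX2⟩ := Bp.up_window hZ hR hp1 hS.tendsto (σ := 1 / 2 + e) (by linarith)
    (by linarith) hη hη1 hκ20 hκ2 (le_of_eq hκ)
  set B : ℝ := C1 + C2 with hB
  have hB0 : 0 < B := by rw [hB]; linarith
  refine ⟨B * 64 ^ (1 + e) * (2 * A) ^ 2 / ((η / 2) ^ 2 * e ^ 2),
    max (max X1 X2) (max x₀ 2), by positivity,
    (le_max_right _ _).trans (le_max_right _ _), fun X h hX hh hhX T hT hsep hdev => ?_⟩
  have hXX1 : X1 ≤ X := (le_max_left _ _).trans ((le_max_left _ _).trans hX)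
  have hXX2 : X2 ≤ X := (le_max_right _ _).trans ((le_max_left _ _).trans hX)
  have hXx0 : x₀ ≤ X := (le_max_left _ _).trans ((le_max_right _ _).trans hX)
  have hX2' : 2 ≤ X := (le_max_right _ _).trans ((le_max_right _ _).trans hX)
  have hX0 : 0 < X := by linarith
  have hA0 : 0 < A := by linarith
  have hhX2 : h ≤ X / 64 := by nlinarith
  -- facts about one interval
  have hq : ∀ q ∈ T, 0 < q.1 ∧ q.1 < q.2 ∧ q.2 ≤ 3 * X ∧
      Real.log q.2 - Real.log q.1 ≤ h / X ∧ h / (3 * A * X) ≤ Real.log q.2 - Real.log q.1 := by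
    intro q hq
    obtain ⟨a1, a2, a3, a4⟩ := hT q hq
    have b1 : 0 < q.1 := by linarith
    have b2 : q.1 < q.2 := by
      by_contra hc
      push Not at hc
      nlinarith
    have b3 : q.2 ≤ 3 * X := by linarith
    have b4 : 0 < q.2 := by linarith
    have e1 : Real.log q.2 - Real.log q.1 = Real.log (q.2 / q.1) := by
      rw [Real.log_div b4.ne' b1.ne']
    refine ⟨b1, b2, b3, ?_, ?_⟩
    · rw [e1]
      have h1 := Real.log_le_sub_one_of_pos (div_pos b4 b1)
      refine h1.trans ?_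
      have h2 : q.2 / q.1 - 1 = (q.2 - q.1) / q.1 := by field_simp
      rw [h2]
      exact div_le_div₀ (by linarith) a3 hX0 a1
    · have e2 : Real.log q.2 - Real.log q.1 = -Real.log (q.1 / q.2) := by
        rw [Real.log_div b1.ne' b4.ne']; ring
      rw [e2]
      have h1 := Real.log_le_sub_one_of_pos (div_pos b1 b4)
      have h2 : q.1 / q.2 - 1 = -((q.2 - q.1) / q.2) := by field_simp; ring
      rw [h2] at h1
      have h3 : h / (3 * A * X) ≤ (q.2 - q.1) / q.2 := by
        rw [div_le_div_iff₀ (by positivity) b4]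
        have h4 : h * q.2 ≤ h * (3 * X) := mul_le_mul_of_nonneg_left b3 (by linarith)
        have h5 : h * (3 * X) ≤ A * (q.2 - q.1) * (3 * X) :=
          mul_le_mul_of_nonneg_right a4 (by positivity)
        nlinarith
      linarith
  set δ : ℝ := 2 * h / X with hδ
  have hδ0 : 0 < δ := by rw [hδ]; positivity
  have hδ1 : δ ≤ 1 := by
    rw [hδ, div_le_one hX0]
    linarith
  set D : ℝ := η / 2 * ((2 * X) ^ (-(1 / 2 + e)) * (h / (2 * A * Real.log (4 * X)))) with hD
  have hl4 : 0 < Real.log (4 * X) := Real.log_pos (by linarith)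
  have hD0 : 0 ≤ D := by rw [hD]; positivity
  have hDle : ∀ q ∈ T, D ≤ η / 2 * (Real.exp (-((1 / 2 + e) * Real.log q.1)) *
      (Fp (fZ Z) x₀ q.2 - Fp (fZ Z) x₀ q.1)) := by
    intro q hqT
    obtain ⟨a1, a2, a3, a4⟩ := hT q hqT
    obtain ⟨b1, b2, b3, b4, b5⟩ := hq q hqT
    rw [hD]
    apply mul_le_mul_of_nonneg_left _ (by linarith)
    have h1 : (2 * X) ^ (-(1 / 2 + e)) ≤ Real.exp (-((1 / 2 + e) * Real.log q.1)) := by
      rw [Real.rpow_def_of_pos (by linarith)]
      apply Real.exp_le_exp.2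
      have h2 := Real.log_le_log b1 a2
      nlinarith
    have h2 : h / (2 * A * Real.log (4 * X)) ≤ Fp (fZ Z) x₀ q.2 - Fp (fZ Z) x₀ q.1 := by
      have h3 := hR.F_sub_ge (hXx0.trans a1) b2.le
      refine le_trans ?_ h3
      have h4 : Real.log q.2 ≤ Real.log (4 * X) := Real.log_le_log (by linarith) (by linarith)
      have h5 : 0 < Real.log q.2 := Real.log_pos (by linarith)
      rw [div_le_div_iff₀ (by positivity) (by positivity)]
      calc h * (2 * Real.log q.2) ≤ (A * (q.2 - q.1)) * (2 * Real.log (4 * X)) :=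
            mul_le_mul a4 (by linarith) (by positivity) (by nlinarith)
        _ = _ := by ring
    exact mul_le_mul h1 h2 (by positivity) (Real.exp_pos _).le
  have hfinish : (T.card : ℝ) * D ^ 2 ≤ B * δ ^ (-e) →
      (T.card : ℝ) * h ^ 2 ≤ B * 64 ^ (1 + e) * (2 * A) ^ 2 / ((η / 2) ^ 2 * e ^ 2) *
        X ^ (1 + ε) := by
    intro key
    have h1 := dev_num (C := B) (c := η / 2) (A := 2 * A) (e := e) (X := X) (h := h)
      (N := T.card) hB0 (by linarith) (by linarith) he0 (by linarith) hX2' hh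
      (Nat.cast_nonneg _) key
    refine h1.trans ?_
    apply mul_le_mul_of_nonneg_left _ (by positivity)
    exact Real.rpow_le_rpow_of_exponent_le (by linarith) (by linarith)
  apply hfinish
  have hlogsep : ∀ q ∈ T, ∀ q' ∈ T, q.2 + h ≤ q'.1 → Real.log q.2 + h / (4 * X) ≤ Real.log q'.1 := by
    intro q hqT q' hqT' hqq
    obtain ⟨b1, b2, b3, b4, b5⟩ := hq q hqT
    obtain ⟨c1, c2, c3, c4, c5⟩ := hq q' hqT'
    have b6 : 0 < q.2 := by linarith
    have h1 : Real.log (q.2 + h) ≤ Real.log q'.1 := Real.log_le_log (by linarith) hqq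
    have h2 := Real.log_le_sub_one_of_pos (div_pos b6 (by linarith : 0 < q.2 + h))
    rw [Real.log_div b6.ne' (by linarith)] at h2
    have h3 : q.2 / (q.2 + h) - 1 = -(h / (q.2 + h)) := by
      have : q.2 + h ≠ 0 := by linarith
      field_simp
      ring
    rw [h3] at h2
    have h4 : h / (4 * X) ≤ h / (q.2 + h) :=
      div_le_div_of_nonneg_left (by linarith) (by linarith) (by linarith)
    linarith
  rcases hdev with hlow | hup
  · -- deficiencies
    have hinj : Set.InjOn (fun q : ℝ × ℝ => (Real.log q.1, Real.log q.2 - Real.log q.1))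
        (T : Set (ℝ × ℝ)) := by
      intro q hqT q' hqT' hqq
      obtain ⟨b1, b2, -⟩ := hq q hqT
      obtain ⟨c1, c2, -⟩ := hq q' hqT'
      simp only [Prod.mk.injEq] at hqq
      apply Prod.ext
      · exact Real.log_injOn_pos b1 c1 hqq.1
      · apply Real.log_injOn_pos (b1.trans b2) (c1.trans c2)
        linarith [hqq.1, hqq.2]
    set T' := T.image (fun q : ℝ × ℝ => (Real.log q.1, Real.log q.2 - Real.log q.1)) with hT'
    have hcard : T'.card = T.card := Finset.card_image_of_injOn hinj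
    have hWin : Bp.Win δ (6 * A) T' := by
      constructor
      · intro q' hq'
        obtain ⟨q, hqT, rfl⟩ := Finset.mem_image.1 hq'
        obtain ⟨b1, b2, b3, b4, b5⟩ := hq q hqT
        simp only
        constructor
        · refine b4.trans ?_
          rw [hδ]
          exact div_le_div_of_nonneg_right (by linarith) hX0.le
        · have h1 : δ = 6 * A * (h / (3 * A * X)) := by
            rw [hδ]; field_simp; ring
          rw [h1]
          exact mul_le_mul_of_nonneg_left b5 (by positivity)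
      · intro q1 hq1 q2 hq2 hne
        obtain ⟨q, hqT, rfl⟩ := Finset.mem_image.1 hq1
        obtain ⟨q', hqT', rfl⟩ := Finset.mem_image.1 hq2
        have hne' : q ≠ q' := fun h => hne (by rw [h])
        have h5 : 0 < h / (4 * X) := by positivity
        simp only
        rcases hsep q hqT q' hqT' hne' with h1 | h1
        · left
          have := hlogsep q hqT q' hqT' h1
          linarith
        · right
          have := hlogsep q' hqT' q hqT h1
          linarith
    have key := hC1 δ hδ0 hδ1 T' hWin D (-1) hD0 (by norm_num) (by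
      intro q' hq'
      obtain ⟨q, hqT, rfl⟩ := Finset.mem_image.1 hq'
      obtain ⟨b1, b2, b3, b4, b5⟩ := hq q hqT
      obtain ⟨V, h1, h2⟩ := hX1 q.1 q.2 (hXX1.trans (hT q hqT).1) b2 (by
        refine b4.trans ?_
        rw [div_le_iff₀ hX0]
        nlinarith) (hlow q hqT)
      exact ⟨V, (hDle q hqT).trans h1, h2⟩)
    rw [hcard] at key
    refine key.trans ?_
    apply mul_le_mul_of_nonneg_right _ (by positivity)
    rw [hB]; linarith
  · -- excesses
    set f : ℝ × ℝ → ℝ × ℝ := fun q => (Real.log q.1 - κ * (Real.log q.2 - Real.log q.1),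
      (1 + 2 * κ) * (Real.log q.2 - Real.log q.1)) with hf
    have hinj : Set.InjOn f (T : Set (ℝ × ℝ)) := by
      intro q hqT q' hqT' hqq
      obtain ⟨b1, b2, -⟩ := hq q hqT
      obtain ⟨c1, c2, -⟩ := hq q' hqT'
      rw [hf] at hqq
      simp only [Prod.mk.injEq] at hqq
      obtain ⟨h1, h2⟩ := hqq
      have h3 : Real.log q.2 - Real.log q.1 = Real.log q'.2 - Real.log q'.1 :=
        mul_left_cancel₀ (by positivity : (1 + 2 * κ) ≠ 0) h2
      rw [h3] at h1
      apply Prod.ext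
      · exact Real.log_injOn_pos b1 c1 (by linarith)
      · apply Real.log_injOn_pos (b1.trans b2) (c1.trans c2)
        linarith
    set T' := T.image f with hT'
    have hcard : T'.card = T.card := Finset.card_image_of_injOn hinj
    have hdpos : ∀ q ∈ T, 0 < Real.log q.2 - Real.log q.1 := by
      intro q hqT
      obtain ⟨b1, b2, b3, b4, b5⟩ := hq q hqT
      exact lt_of_lt_of_le (by positivity) b5
    have hκd : ∀ q ∈ T, κ * (Real.log q.2 - Real.log q.1) ≤ h / (8 * X) := by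
      intro q hqT
      obtain ⟨b1, b2, b3, b4, b5⟩ := hq q hqT
      have h1 : κ ≤ 1 / 8 := by rw [hκ]; linarith
      calc κ * (Real.log q.2 - Real.log q.1) ≤ 1 / 8 * (h / X) :=
            mul_le_mul h1 b4 (hdpos q hqT).le (by norm_num)
        _ = _ := by field_simp
    have hWin : Bp.Win δ (6 * A) T' := by
      constructor
      · intro q' hq'
        obtain ⟨q, hqT, rfl⟩ := Finset.mem_image.1 hq'
        obtain ⟨b1, b2, b3, b4, b5⟩ := hq q hqT
        rw [hf]
        simp only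
        constructor
        · have h1 : (1 + 2 * κ) * (Real.log q.2 - Real.log q.1) ≤ 2 * (h / X) :=
            mul_le_mul (by linarith) b4 (hdpos q hqT).le (by norm_num)
          refine h1.trans (le_of_eq ?_)
          rw [hδ]; ring
        · have h1 : δ = 6 * A * (h / (3 * A * X)) := by
            rw [hδ]; field_simp; ring
          rw [h1]
          apply mul_le_mul_of_nonneg_left _ (by positivity)
          refine b5.trans ?_
          have := hdpos q hqT
          nlinarith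
      · intro q1 hq1 q2 hq2 hne
        obtain ⟨q, hqT, rfl⟩ := Finset.mem_image.1 hq1
        obtain ⟨q', hqT', rfl⟩ := Finset.mem_image.1 hq2
        have hne' : q ≠ q' := fun h => hne (by rw [h])
        have h5 : h / (8 * X) + h / (8 * X) = h / (4 * X) := by field_simp; ring
        have h6 := hκd q hqT
        have h7 := hκd q' hqT'
        rw [hf]
        simp only
        rcases hsep q hqT q' hqT' hne' with h1 | h1
        · left
          have := hlogsep q hqT q' hqT' h1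
          linarith
        · right
          have := hlogsep q' hqT' q hqT h1
          linarith
    have key := hC2 δ hδ0 hδ1 T' hWin D 1 hD0 (by norm_num) (by
      intro q' hq'
      obtain ⟨q, hqT, rfl⟩ := Finset.mem_image.1 hq'
      obtain ⟨b1, b2, b3, b4, b5⟩ := hq q hqT
      obtain ⟨V, h1, h2⟩ := hX2 q.1 q.2 (hXX2.trans (hT q hqT).1) b2 (by
        refine b4.trans ?_
        rw [div_le_iff₀ hX0]
        nlinarith) (hup q hqT)
      exact ⟨V, (hDle q hqT).trans h1, h2⟩)
    rw [hcard] at key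
    refine key.trans ?_
    apply mul_le_mul_of_nonneg_right _ (by positivity)
    rw [hB]; linarith

end Pool.Agent.H521.G
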