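import Pool.Agent.H521.G.Sel1
import Pool.Agent.H521.G.Presc2
import Pool.Agent.H521.G.Maier2

open MeasureTheory Set Filter Topology
open scoped ComplexConjugate

namespace Pool.Agent.H521.G

/-- The properties of a system with `1 < p 0` only. -/
structure SysW (Z : Multiset ℂ) (p : ℕ → ℝ) : Prop where
  one_lt : 1 < p 0
  mono : StrictMono p
  tendsto : Tendsto p atTop atTop
  summable : ∀ s : ℂ, 1 < s.re → Summable fun e : ℕ →₀ ℕ => ((gint p e : ℝ) : ℂ) ^ (-s)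
  zeta : ∃ g : ℂ → ℂ, DifferentiableOn ℂ g {s : ℂ | 1 / 2 < s.re} ∧
        (∀ s : ℂ, 1 < s.re → (s - 1) * zetaB p s = (Z.map fun ρ => s - ρ).prod *
          Complex.exp (g s)) ∧
        ∀ ε : ℝ, 0 < ε → ∃ C : ℝ, ∀ s : ℂ, 1 / 2 + ε ≤ s.re →
          ‖(Z.map fun ρ => s - ρ).prod * Complex.exp (g s)‖ ≤ C * (1 + ‖s‖) ^ (1 + ε)
  pnt : ∀ ε : ℝ, 0 < ε → ∃ C : ℝ, ∀ x : ℝ, 2 ≤ x →
        |(countPr p x : ℝ) - mainTerm Z x| ≤ C * x ^ (1 / 2 + ε)

theorem Sys.toSysW {Z : Multiset ℂ} {p : ℕ → ℝ} (h : Sys Z p) : SysW Z p :=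
  ⟨by linarith [h.three_le 0], h.mono, h.tendsto, h.summable, h.zeta, h.pnt⟩

theorem zetaB_eq_exp' {ι : Type*} [Countable ι] [Infinite ι] (p : ι → ℝ) (hp1 : ∀ j, 1 ≤ p j)
    (s : ℂ) (hsum : Summable fun e : ι →₀ ℕ => ((gint p e : ℝ) : ℂ) ^ (-s)) :
    zetaB p s = Complex.exp (∑' j, -Complex.log (1 - (p j : ℂ) ^ (-s))) := by
  have h0 : Summable fun n : ℕ+ => ‖fmul p hp1 s n‖ := by
    simp_rw [fmul_pnat]
    exact (Equiv.summable_iff (psi ι)
      (f := fun e : ι →₀ ℕ => ‖((gint p e : ℝ) : ℂ) ^ (-s)‖)).2 hsum.norm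
  have h1 : Summable fun n => ‖fmul p hp1 s n‖ := by
    rw [← PNat.coe_injective.summable_iff]
    · exact h0
    · intro n hn
      have : n = 0 := by
        by_contra hc
        exact hn ⟨⟨n, Nat.pos_of_ne_zero hc⟩, rfl⟩
      rw [this, map_zero, norm_zero]
  have h2 := EulerProduct.exp_tsum_primes_log_eq_tsum h1
  have h3 : ∑' q : Nat.Primes, -Complex.log (1 - fmul p hp1 s (q : ℕ)) =
      ∑' j, -Complex.log (1 - (p j : ℂ) ^ (-s)) := by
    rw [← Equiv.tsum_eq (eqvP ι)]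
    apply tsum_congr
    intro q
    rw [fmul_prime]
  rw [h3] at h2
  rw [h2, zetaB, ← Equiv.tsum_eq (psi ι)]
  have h4 : ∀ n : ℕ+, ((gint p (psi ι n) : ℝ) : ℂ) ^ (-s) = fmul p hp1 s n := fun n =>
    (fmul_pnat p hp1 s n).symm
  simp_rw [h4]
  exact PNat.coe_injective.tsum_eq (f := fun n : ℕ => fmul p hp1 s n) (by
    intro n hn
    rw [Function.mem_support] at hn
    have : n ≠ 0 := by
      rintro rfl
      exact hn (map_zero _)
    exact ⟨⟨n, Nat.pos_of_ne_zero this⟩, rfl⟩)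

/-- The prime powers part, general version. -/
theorem E2_props' {ι : Type*} {p : ι → ℝ} {q : ℝ} (hq : 1 < q) (hp : ∀ j, q ≤ p j)
    (hV : ∀ τ : ℝ, 1 < τ → Summable fun j => p j ^ (-τ)) :
    DifferentiableOn ℂ (fun s => ∑' j, (-Complex.log (1 - (p j : ℂ) ^ (-s)) - (p j : ℂ) ^ (-s)))
      {s : ℂ | 1 / 2 < s.re} ∧
      (∀ s : ℂ, 1 / 2 < s.re →
        Summable fun j => (-Complex.log (1 - (p j : ℂ) ^ (-s)) - (p j : ℂ) ^ (-s))) ∧
      ∀ ε : ℝ, 0 < ε → ∃ C : ℝ, ∀ s : ℂ, 1 / 2 + ε ≤ s.re →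
        ‖∑' j, (-Complex.log (1 - (p j : ℂ) ^ (-s)) - (p j : ℂ) ^ (-s))‖ ≤ C := by
  have hpos : ∀ j, 0 < p j := fun j => by linarith [hp j]
  have hnorm : ∀ j (s : ℂ), ‖(p j : ℂ) ^ (-s)‖ = p j ^ (-s.re) := by
    intro j s
    rw [Complex.norm_cpow_eq_rpow_re_of_pos (hpos j)]; simp
  set r : ℝ := q ^ (-(1 / 2) : ℝ) with hr
  have hr1 : r < 1 := Real.rpow_lt_one_of_one_lt_of_neg hq (by norm_num)
  have hsmall : ∀ j (s : ℂ), 1 / 2 < s.re → ‖(p j : ℂ) ^ (-s)‖ ≤ r := by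
    intro j s hs
    rw [hnorm]
    calc p j ^ (-s.re) ≤ p j ^ (-(1 / 2) : ℝ) :=
          Real.rpow_le_rpow_of_exponent_le (by linarith [hp j]) (by linarith)
      _ ≤ r := Real.rpow_le_rpow_of_nonpos (by linarith) (hp j) (by norm_num)
  refine diffOn_tsum_half (B := fun σ j => (1 - r)⁻¹ / 2 * p j ^ (-(2 * σ))) ?_ ?_ ?_
  · intro j s hs
    simp only [mem_ofPred_eq] at hs
    have hpne : (p j : ℂ) ≠ 0 := by exact_mod_cast (hpos j).ne'
    have h1 : DifferentiableAt ℂ (fun s : ℂ => (p j : ℂ) ^ (-s)) s :=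
      (differentiableAt_id.neg).const_cpow (Or.inl hpne)
    have h2 : DifferentiableAt ℂ (fun s : ℂ => Complex.log (1 - (p j : ℂ) ^ (-s))) s := by
      apply DifferentiableAt.clog ((differentiableAt_const _).sub h1)
      rw [sub_eq_add_neg]
      apply Complex.mem_slitPlane_of_norm_lt_one
      change ‖-((p j : ℂ) ^ (-s))‖ < 1
      rw [norm_neg]
      have := hsmall j s hs
      linarith
    exact (h2.neg.sub h1).differentiableWithinAt
  · intro j σ s hσ hs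
    have hz := hsmall j s (by linarith)
    have h1 := Complex.norm_log_one_add_sub_self_le (z := -(p j : ℂ) ^ (-s))
      (by rw [norm_neg]; linarith)
    rw [norm_neg] at h1
    have e : -Complex.log (1 - (p j : ℂ) ^ (-s)) - (p j : ℂ) ^ (-s) =
        -(Complex.log (1 + -(p j : ℂ) ^ (-s)) - -(p j : ℂ) ^ (-s)) := by ring_nf
    rw [e, norm_neg]
    refine h1.trans ?_
    have h2 : (1 - ‖(p j : ℂ) ^ (-s)‖)⁻¹ ≤ (1 - r)⁻¹ := inv_anti₀ (by linarith) (by linarith)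
    have h3 : ‖(p j : ℂ) ^ (-s)‖ ^ 2 ≤ p j ^ (-(2 * σ)) := by
      rw [hnorm, ← Real.rpow_natCast, ← Real.rpow_mul (hpos j).le]
      apply Real.rpow_le_rpow_of_exponent_le (by linarith [hp j])
      push_cast
      linarith
    have h4 : 0 ≤ (1 - r)⁻¹ := by
      apply inv_nonneg.2; linarith
    calc ‖(p j : ℂ) ^ (-s)‖ ^ 2 * (1 - ‖(p j : ℂ) ^ (-s)‖)⁻¹ / 2 ≤
        p j ^ (-(2 * σ)) * (1 - r)⁻¹ / 2 := by
          apply div_le_div_of_nonneg_right _ (by norm_num)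
          exact mul_le_mul h3 h2 (inv_nonneg.2 (by linarith)) (Real.rpow_nonneg (hpos j).le _)
      _ = _ := by ring
  · intro σ hσ
    exact (hV (2 * σ) (by linarith)).mul_left _

/-- The error term of the prime counting function. -/
noncomputable def Err (Z : Multiset ℂ) (x₀ : ℝ) (p : ℕ → ℝ) (u : ℝ) : ℝ :=
  (countPr p u : ℝ) - if x₀ ≤ u then Fp (fZ Z) x₀ u else 0

theorem err_bound {Z : Multiset ℂ} (hZ : ∀ ρ ∈ Z, ρ.re < 1) {x₀ : ℝ} (hR : RDens (fZ Z) x₀)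
    {p : ℕ → ℝ} (hS : SysW Z p) {ε : ℝ} (hε : 0 < ε) :
    ∃ C : ℝ, 0 ≤ C ∧ ∀ u, 1 ≤ u → |Err Z x₀ p u| ≤ C * u ^ (1 / 2 + ε) := by
  have hx3 := hR.dens.hx₀
  obtain ⟨C, hC⟩ := hS.pnt ε hε
  refine ⟨|C| + |mainTerm Z x₀| + (1 + Multiset.card Z) * 2 + countPr p x₀, by positivity,
    fun u hu => ?_⟩
  have hu1 : 1 ≤ u ^ (1 / 2 + ε) := Real.one_le_rpow hu (by linarith)
  have hK : (0 : ℝ) ≤ countPr p x₀ := Nat.cast_nonneg _
  have hcard : (0 : ℝ) ≤ Multiset.card Z := Nat.cast_nonneg _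
  rcases le_or_gt x₀ u with h | h
  · unfold Err
    rw [if_pos h]
    have h1 := hC u (by linarith)
    have h2 := abs_main_diff_le hZ hx3 h
    have h3 : mainTerm Z u = mainTerm Z x₀ + ∫ v in x₀..u, (1 - osc Z v) / Real.log v := by
      unfold mainTerm
      exact (intervalIntegral.integral_add_adjacent_intervals
        (main_ii Z (by norm_num) (by linarith)) (main_ii Z (by linarith) h)).symm
    have e1 : (countPr p u : ℝ) - Fp (fZ Z) x₀ u = ((countPr p u : ℝ) - mainTerm Z u) +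
        (mainTerm Z x₀ + ((∫ v in x₀..u, (1 - osc Z v) / Real.log v) -
          ∫ v in x₀..u, fZ Z v)) := by
      rw [h3]; unfold Fp; ring
    rw [e1]
    have h4 := abs_add_le ((countPr p u : ℝ) - mainTerm Z u)
        (mainTerm Z x₀ + ((∫ v in x₀..u, (1 - osc Z v) / Real.log v) -
          ∫ v in x₀..u, fZ Z v))
    have h5 := abs_add_le (mainTerm Z x₀) ((∫ v in x₀..u, (1 - osc Z v) / Real.log v) -
          ∫ v in x₀..u, fZ Z v)
    have h6 : C * u ^ (1 / 2 + ε) ≤ |C| * u ^ (1 / 2 + ε) :=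
      mul_le_mul_of_nonneg_right (le_abs_self C) (by linarith)
    have h7 : Real.log u ≤ 2 * u ^ (1 / 2 + ε) := by
      have := Real.log_le_rpow_div (by linarith : 0 ≤ u) (by norm_num : (0 : ℝ) < 1 / 2)
      have h8 : u ^ (1 / 2 : ℝ) ≤ u ^ (1 / 2 + ε) :=
        Real.rpow_le_rpow_of_exponent_le hu (by linarith)
      linarith
    have h9 := mul_le_mul_of_nonneg_left h7 (by positivity : (0 : ℝ) ≤ 1 + Multiset.card Z)
    have h10 := mul_le_mul_of_nonneg_left hu1 (abs_nonneg (mainTerm Z x₀))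
    have h11 := mul_le_mul_of_nonneg_left hu1 hK
    nlinarith
  · unfold Err
    rw [if_neg (not_le.2 h), sub_zero, abs_of_nonneg (Nat.cast_nonneg _)]
    have h1 : (countPr p u : ℝ) ≤ countPr p x₀ := by
      exact_mod_cast countPr_mono hS.tendsto h.le
    have h11 := mul_le_mul_of_nonneg_left hu1 hK
    have : 0 ≤ (|C| + |mainTerm Z x₀| + (1 + Multiset.card Z) * 2) * u ^ (1 / 2 + ε) := by
      positivity
    nlinarith

theorem err_zero {Z : Multiset ℂ} {x₀ : ℝ} (hR : RDens (fZ Z) x₀)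
    {p : ℕ → ℝ} (hS : SysW Z p) {u : ℝ} (hu : u ≤ 1) : Err Z x₀ p u = 0 := by
  have hx3 := hR.dens.hx₀
  unfold Err
  rw [if_neg (by linarith)]
  have : {j : ℕ | p j ≤ u} = ∅ := by
    ext j
    simp only [mem_ofPred_eq, mem_empty_iff_false, iff_false, not_le]
    have := hS.mono.monotone (Nat.zero_le j)
    linarith [hS.one_lt]
  unfold countPr
  rw [this]
  simp

theorem mono_countPr {p : ℕ → ℝ} (hpt : Tendsto p atTop atTop) :
    Monotone fun u => (countPr p u : ℝ) := fun _ _ h => Nat.cast_le.2 (countPr_mono hpt h)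

theorem mono_F0 {f : ℝ → ℝ} {x₀ : ℝ} (hR : RDens f x₀) :
    Monotone fun u => if x₀ ≤ u then Fp f x₀ u else 0 := fun u v h => by
  simp only
  split_ifs with h1 h2 h2
  · exact hR.F_mono h1 h
  · exact absurd (h1.trans h) h2
  · have := hR.F_mono le_rfl h2
    rwa [hR.F_zero] at this
  · exact le_rfl

theorem err_meas {Z : Multiset ℂ} {x₀ : ℝ} (hR : RDens (fZ Z) x₀)
    {p : ℕ → ℝ} (hpt : Tendsto p atTop atTop) : Measurable (Err Z x₀ p) :=
  (mono_countPr hpt).measurable.sub (mono_F0 hR).measurable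

theorem err_locInt {Z : Multiset ℂ} {x₀ : ℝ} (hR : RDens (fZ Z) x₀)
    {p : ℕ → ℝ} (hpt : Tendsto p atTop atTop) : LocallyIntegrable (Err Z x₀ p) :=
  (mono_countPr hpt).locallyIntegrable.sub (mono_F0 hR).locallyIntegrable

/-- The Mellin transform of the error term. -/
noncomputable def Lam (Z : Multiset ℂ) (x₀ : ℝ) (p : ℕ → ℝ) (s : ℂ) : ℂ :=
  s * mellin (fun u => (Err Z x₀ p u : ℂ)) (-s)

theorem err_isBigO_top {Z : Multiset ℂ} (hZ : ∀ ρ ∈ Z, ρ.re < 1) {x₀ : ℝ}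
    (hR : RDens (fZ Z) x₀) {p : ℕ → ℝ} (hS : SysW Z p) {ε : ℝ} (hε : 0 < ε) :
    (fun u => (Err Z x₀ p u : ℂ)) =O[atTop] fun u : ℝ => u ^ (-(-(1 / 2 + ε))) := by
  obtain ⟨C, hC0, hC⟩ := err_bound hZ hR hS hε
  apply Asymptotics.IsBigO.of_bound C
  filter_upwards [eventually_ge_atTop 1] with u hu
  rw [Complex.norm_real, Real.norm_eq_abs, neg_neg, Real.norm_eq_abs,
    abs_of_nonneg (Real.rpow_nonneg (by linarith) _)]
  exact hC u hu

theorem err_isBigO_bot {Z : Multiset ℂ} {x₀ : ℝ}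
    (hR : RDens (fZ Z) x₀) {p : ℕ → ℝ} (hS : SysW Z p) (b : ℝ) :
    (fun u => (Err Z x₀ p u : ℂ)) =O[𝓝[>] 0] fun u : ℝ => u ^ (-b) := by
  apply Asymptotics.IsBigO.of_bound 1
  have : ∀ᶠ u : ℝ in 𝓝[>] 0, u < 1 := nhdsWithin_le_nhds (Iio_mem_nhds one_pos)
  filter_upwards [this, self_mem_nhdsWithin] with u hu hu0
  have hu0' : 0 < u := hu0
  rw [err_zero hR hS hu.le]
  simp only [Complex.ofReal_zero, norm_zero, one_mul]
  exact norm_nonneg _

theorem err_locIntOn {Z : Multiset ℂ} {x₀ : ℝ}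
    (hR : RDens (fZ Z) x₀) {p : ℕ → ℝ} (hpt : Tendsto p atTop atTop) :
    LocallyIntegrableOn (fun u => (Err Z x₀ p u : ℂ)) (Ioi 0) := by
  have h1 : LocallyIntegrable (fun u => (Err Z x₀ p u : ℂ)) := by
    intro u
    obtain ⟨U, hU, hi⟩ := err_locInt hR hpt u
    exact ⟨U, hU, hi.ofReal⟩
  exact h1.locallyIntegrableOn _

theorem diff_Lam {Z : Multiset ℂ} (hZ : ∀ ρ ∈ Z, ρ.re < 1) {x₀ : ℝ}
    (hR : RDens (fZ Z) x₀) {p : ℕ → ℝ} (hS : SysW Z p) :
    DifferentiableOn ℂ (Lam Z x₀ p) {s : ℂ | 1 / 2 < s.re} := by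
  intro s hs
  simp only [mem_ofPred_eq] at hs
  apply DifferentiableAt.differentiableWithinAt
  apply differentiableAt_id.mul
  have h1 : DifferentiableAt ℂ (mellin (fun u => (Err Z x₀ p u : ℂ))) (-s) :=
    mellin_differentiableAt_of_isBigO_rpow (a := -(1 / 2 + (s.re - 1 / 2) / 2))
      (b := -s.re - 1) (err_locIntOn hR hS.tendsto)
      (err_isBigO_top hZ hR hS (by linarith)) (by simp; linarith)
      (err_isBigO_bot hR hS _) (by simp)
  exact h1.comp s differentiableAt_id.neg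

end Pool.Agent.H521.G
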