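import Pool.Agent.H521.G.Sel2

open MeasureTheory Set Filter Topology
open scoped ComplexConjugate

namespace Pool.Agent.H521.G

/-- Abel summation for the primes. -/
theorem mellin_countPr {p : ℕ → ℝ} (hp : ∀ j, 0 < p j) (_ : StrictMono p)
    (hpt : Tendsto p atTop atTop) {s : ℂ} (hs : 1 < s.re)
    (hsum : Summable fun j => p j ^ (-s.re)) :
    IntegrableOn (fun t : ℝ => (t : ℂ) ^ (-s - 1) * ((countPr p t : ℝ) : ℂ)) (Ioi 0) ∧
    s * ∫ t in Ioi (0 : ℝ), (t : ℂ) ^ (-s - 1) * ((countPr p t : ℝ) : ℂ) =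
      ∑' j, ((p j : ℝ) : ℂ) ^ (-s) := by
  have hs0 : s ≠ 0 := by
    intro h; rw [h] at hs; simp at hs; linarith
  have hre : (-s - 1).re < -1 := by simp; linarith
  set φ : ℕ → ℝ → ℂ := fun k => (Ioi (p k)).indicator fun t : ℝ => (t : ℂ) ^ (-s - 1) with hφ
  have hφm : ∀ k, Integrable (φ k) (volume.restrict (Ioi 0)) := by
    intro k
    have h1 := integrableOn_Ioi_cpow_of_lt hre (hp k)
    exact ((integrable_indicator_iff measurableSet_Ioi).2 h1).integrableOn
  have hφi : ∀ k, ∫ t in Ioi (0 : ℝ), φ k t = ((p k : ℝ) : ℂ) ^ (-s) / s := by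
    intro k
    rw [hφ]
    simp only
    rw [setIntegral_indicator measurableSet_Ioi]
    have e : Ioi (0 : ℝ) ∩ Ioi (p k) = Ioi (p k) :=
      inter_eq_right.2 (Ioi_subset_Ioi (hp k).le)
    rw [e, integral_Ioi_cpow_of_lt hre (hp k)]
    have e2 : -s - 1 + 1 = -s := by ring
    rw [e2, neg_div_neg_eq]
  have hφn : ∀ k, ∫ t in Ioi (0 : ℝ), ‖φ k t‖ = p k ^ (-s.re) / s.re := by
    intro k
    have e1 : ∀ t, ‖φ k t‖ = (Ioi (p k)).indicator (fun t : ℝ => ‖(t : ℂ) ^ (-s - 1)‖) t := by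
      intro t
      rw [hφ]
      simp only
      rw [norm_indicator_eq_indicator_norm]
    simp_rw [e1]
    rw [setIntegral_indicator measurableSet_Ioi]
    have e : Ioi (0 : ℝ) ∩ Ioi (p k) = Ioi (p k) :=
      inter_eq_right.2 (Ioi_subset_Ioi (hp k).le)
    rw [e]
    have e3 : ∫ t in Ioi (p k), ‖(t : ℂ) ^ (-s - 1)‖ = ∫ t in Ioi (p k), t ^ (-s.re - 1) := by
      apply setIntegral_congr_fun measurableSet_Ioi
      intro t ht
      simp only
      rw [Complex.norm_cpow_eq_rpow_re_of_pos (lt_trans (hp k) ht)]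
      simp
    rw [e3, integral_Ioi_rpow_of_lt (by linarith) (hp k)]
    have e2 : -s.re - 1 + 1 = -s.re := by ring
    rw [e2, neg_div_neg_eq]
  have hsm : Summable fun k => ∫ t in Ioi (0 : ℝ), ‖φ k t‖ := by
    simp_rw [hφn]
    exact hsum.div_const _
  have key := hasSum_integral_of_summable_integral_norm hφm hsm
  -- the sum of the indicators
  have hfin : ∀ t, {j : ℕ | p j ≤ t}.Finite := by
    intro t
    obtain ⟨N, hN⟩ := eventually_atTop.1 (hpt.eventually_gt_atTop t)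
    apply (Set.finite_Iio N).subset
    intro j hj
    simp only [mem_ofPred_eq] at hj
    simp only [mem_Iio]
    by_contra hc
    push Not at hc
    linarith [hN j hc]
  have hae : ∀ᵐ t ∂(volume.restrict (Ioi (0 : ℝ))), ∑' k, φ k t =
      (t : ℂ) ^ (-s - 1) * ((countPr p t : ℝ) : ℂ) := by
    have hnull : ∀ᵐ t : ℝ, t ∉ range p := by
      rw [ae_iff]
      simp only [not_not]
      exact (countable_range p).measure_zero volume
    filter_upwards [ae_restrict_of_ae hnull] with t ht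
    have h1 : ∀ k, φ k t = if k ∈ (hfin t).toFinset then (t : ℂ) ^ (-s - 1) else 0 := by
      intro k
      rw [hφ]
      simp only [indicator, mem_Ioi, Set.Finite.mem_toFinset, mem_ofPred_eq]
      have hne : p k ≠ t := fun h => ht ⟨k, h⟩
      by_cases h : p k < t
      · rw [if_pos h, if_pos h.le]
      · rw [if_neg h, if_neg fun h2 => h (lt_of_le_of_ne h2 hne)]
    simp_rw [h1]
    rw [tsum_eq_sum (s := (hfin t).toFinset) (fun k hk => by rw [if_neg hk])]
    rw [Finset.sum_ite_mem, Finset.inter_self, Finset.sum_const, nsmul_eq_mul]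
    unfold countPr
    rw [Set.ncard_eq_toFinset_card _ (hfin t)]
    push_cast
    ring
  rw [integral_congr_ae hae] at key
  constructor
  · -- integrability
    have hlin : Integrable (fun t => ∑' k, φ k t) (volume.restrict (Ioi (0 : ℝ))) := by
      have hm : AEStronglyMeasurable (fun t : ℝ => (t : ℂ) ^ (-s - 1) * ((countPr p t : ℝ) : ℂ))
          (volume.restrict (Ioi (0 : ℝ))) := by
        have h1 : Measurable fun t : ℝ => (t : ℂ) ^ (-s - 1) := by fun_prop
        have h2 : Measurable fun t : ℝ => ((countPr p t : ℝ) : ℂ) :=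
          Complex.measurable_ofReal.comp (mono_countPr hpt).measurable
        exact (h1.mul h2).aestronglyMeasurable
      refine ⟨hm.congr (hae.mono fun t ht => ht.symm), ?_⟩
      have h1 : ∀ k, Integrable (φ k) (volume.restrict (Ioi 0)) := hφm
      -- use the norm sums
      have h2 : ∑' k, ∫⁻ t in Ioi (0 : ℝ), ‖φ k t‖ₑ < ⊤ := by
        have h3 : ∀ k, ∫⁻ t in Ioi (0 : ℝ), ‖φ k t‖ₑ =
            ENNReal.ofReal (∫ t in Ioi (0 : ℝ), ‖φ k t‖) := fun k =>
          (ofReal_integral_norm_eq_lintegral_enorm (h1 k)).symm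
        simp_rw [h3]
        rw [← ENNReal.ofReal_tsum_of_nonneg (fun k => integral_nonneg fun t => norm_nonneg _) hsm]
        exact ENNReal.ofReal_lt_top
      rw [HasFiniteIntegral]
      refine lt_of_le_of_lt ?_ h2
      rw [← lintegral_tsum fun k => (h1 k).1.enorm]
      apply lintegral_mono
      intro t
      exact enorm_tsum_le_tsum_enorm
    exact hlin.congr hae
  · have h5 : ∀ k, ∫ t in Ioi (0 : ℝ), φ k t = ((p k : ℝ) : ℂ) ^ (-s) * s⁻¹ := fun k => by
      rw [hφi, div_eq_mul_inv]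
    simp_rw [h5] at key
    rw [← key.tsum_eq, tsum_mul_right]
    field_simp

/-- Abel summation for the main term. -/
theorem mellin_F {f : ℝ → ℝ} {x₀ : ℝ} (hR : RDens f x₀) {s : ℂ} (hs : 1 < s.re)
    (hint : IntegrableOn (fun u : ℝ => (f u : ℂ) * (u : ℂ) ^ (-s)) (Ioi x₀)) :
    IntegrableOn (fun t : ℝ => (t : ℂ) ^ (-s - 1) *
      (((if x₀ ≤ t then Fp f x₀ t else 0 : ℝ)) : ℂ)) (Ioi 0) ∧
    s * ∫ t in Ioi (0 : ℝ), (t : ℂ) ^ (-s - 1) * (((if x₀ ≤ t then Fp f x₀ t else 0 : ℝ)) : ℂ) =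
      ∫ u in Ioi x₀, (f u : ℂ) * (u : ℂ) ^ (-s) := by
  have hx3 := hR.dens.hx₀
  have hs0 : s ≠ 0 := by
    intro h; rw [h] at hs; simp at hs; linarith
  have hm1 : Measurable fun t : ℝ => (t : ℂ) ^ (-s - 1) := by fun_prop
  have hm2 : Measurable fun t : ℝ => (((if x₀ ≤ t then Fp f x₀ t else 0 : ℝ)) : ℂ) :=
    Complex.measurable_ofReal.comp (mono_F0 hR).measurable
  -- integrability on `Ioi x₀`
  have hI1 : IntegrableOn (fun t : ℝ => (t : ℂ) ^ (-s - 1) *
      (((if x₀ ≤ t then Fp f x₀ t else 0 : ℝ)) : ℂ)) (Ioi x₀) := by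
    have hdom : IntegrableOn (fun t : ℝ => t ^ (-s.re)) (Ioi x₀) :=
      integrableOn_Ioi_rpow_of_lt (by linarith) (by linarith)
    refine Integrable.mono' hdom (hm1.mul hm2).aestronglyMeasurable ?_
    filter_upwards [ae_restrict_mem measurableSet_Ioi] with t ht
    have ht' : x₀ < t := ht
    have ht0 : 0 < t := by linarith
    rw [norm_mul, Complex.norm_cpow_eq_rpow_re_of_pos ht0, Complex.norm_real, if_pos ht'.le,
      Real.norm_eq_abs]
    have h1 := hR.F_mono le_rfl ht'.le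
    have h2 := hR.F_sub_le le_rfl ht'.le
    rw [hR.F_zero] at h1 h2
    rw [abs_of_nonneg h1]
    have h3 : t ^ (-s.re) = t ^ (-s - 1).re * t := by
      nth_rewrite 3 [← Real.rpow_one t]
      rw [← Real.rpow_add ht0]
      congr 1
      simp
    rw [h3]
    apply mul_le_mul_of_nonneg_left _ (Real.rpow_nonneg ht0.le _)
    linarith
  have hI0 : IntegrableOn (fun t : ℝ => (t : ℂ) ^ (-s - 1) *
      (((if x₀ ≤ t then Fp f x₀ t else 0 : ℝ)) : ℂ)) (Ioc 0 x₀) := by
    have : EqOn (fun t : ℝ => (t : ℂ) ^ (-s - 1) *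
      (((if x₀ ≤ t then Fp f x₀ t else 0 : ℝ)) : ℂ)) (fun _ => 0) (Ioc 0 x₀) := by
      intro t ht
      simp only
      rcases eq_or_lt_of_le ht.2 with h | h
      · rw [h, if_pos le_rfl, hR.F_zero]; simp
      · rw [if_neg (not_le.2 h)]; simp
    exact (integrableOn_congr_fun this measurableSet_Ioc).2 integrableOn_zero
  have hI : IntegrableOn (fun t : ℝ => (t : ℂ) ^ (-s - 1) *
      (((if x₀ ≤ t then Fp f x₀ t else 0 : ℝ)) : ℂ)) (Ioi 0) := by
    rw [← Ioc_union_Ioi_eq_Ioi (by linarith : (0 : ℝ) ≤ x₀)]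
    exact hI0.union hI1
  refine ⟨hI, ?_⟩
  have e1 : ∫ t in Ioi (0 : ℝ), (t : ℂ) ^ (-s - 1) *
      (((if x₀ ≤ t then Fp f x₀ t else 0 : ℝ)) : ℂ) =
      ∫ t in Ioi x₀, (t : ℂ) ^ (-s - 1) * ((Fp f x₀ t : ℝ) : ℂ) := by
    rw [← Ioc_union_Ioi_eq_Ioi (by linarith : (0 : ℝ) ≤ x₀),
      setIntegral_union (Ioc_disjoint_Ioi le_rfl) measurableSet_Ioi hI0 hI1]
    have h0 : ∫ t in Ioc 0 x₀, (t : ℂ) ^ (-s - 1) *
      (((if x₀ ≤ t then Fp f x₀ t else 0 : ℝ)) : ℂ) = 0 := by
      rw [setIntegral_congr_fun measurableSet_Ioc (g := fun _ => (0 : ℂ))]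
      · simp
      · intro t ht
        simp only
        rcases eq_or_lt_of_le ht.2 with h | h
        · rw [h, if_pos le_rfl, hR.F_zero]; simp
        · rw [if_neg (not_le.2 h)]; simp
    rw [h0, zero_add]
    apply setIntegral_congr_fun measurableSet_Ioi
    intro t ht
    simp only
    rw [if_pos (le_of_lt ht)]
  rw [e1]
  have hI2 : IntegrableOn (fun t : ℝ => (t : ℂ) ^ (-s - 1) * ((Fp f x₀ t : ℝ) : ℂ)) (Ioi x₀) := by
    refine (integrableOn_congr_fun ?_ measurableSet_Ioi).1 hI1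
    intro t ht
    simp only
    rw [if_pos (le_of_lt ht)]
  -- the primitive
  set G : ℝ → ℂ := fun u => ((Fp f x₀ u : ℝ) : ℂ) * (u : ℂ) ^ (-s) with hG
  have hder : ∀ u ∈ Ioi x₀, HasDerivAt G ((f u : ℂ) * (u : ℂ) ^ (-s) +
      ((Fp f x₀ u : ℝ) : ℂ) * (-s * (u : ℂ) ^ (-s - 1))) u := by
    intro u hu
    have hu' : x₀ < u := hu
    have hu0 : u ≠ 0 := by linarith
    have h1 : HasDerivAt (Fp f x₀) (f u) u := by
      unfold Fp
      apply intervalIntegral.integral_hasDerivAt_right (hR.dens.ii le_rfl hu'.le)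
      · exact hR.dens.meas.stronglyMeasurable.stronglyMeasurableAtFilter
      · exact hR.dens.cont.continuousAt (Ici_mem_nhds hu')
    have h3 : HasDerivAt (fun y : ℝ => (y : ℂ) ^ (-s)) (-s * (u : ℂ) ^ (-s - 1)) u := by
      have h4 : HasDerivAt (fun z : ℂ => z ^ (-s)) (-s * (u : ℂ) ^ (-s - 1)) (u : ℂ) := by
        have := (hasDerivAt_id (u : ℂ)).cpow_const (c := -s)
          (Complex.ofReal_mem_slitPlane.2 (by linarith))
        simpa using this
      exact h4.comp_ofReal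
    exact h1.ofReal_comp.mul h3
  have hcont : ContinuousWithinAt G (Ici x₀) x₀ := by
    apply ContinuousWithinAt.mul
    · have h1 : ContinuousWithinAt (Fp f x₀) (Ici x₀) x₀ := by
        have := hR.F_contOn (x₀ + 1) (by linarith) x₀ ⟨le_rfl, by linarith⟩
        apply this.mono_of_mem_nhdsWithin
        exact Icc_mem_nhdsGE (by linarith)
      exact Complex.continuous_ofReal.continuousAt.comp_continuousWithinAt h1
    · apply ContinuousAt.continuousWithinAt
      apply ContinuousAt.cpow Complex.continuous_ofReal.continuousAt continuousAt_const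
      exact Complex.ofReal_mem_slitPlane.2 (by linarith)
  have hlim : Tendsto G atTop (𝓝 0) := by
    have hb : ∀ᶠ u : ℝ in atTop, ‖G u‖ ≤ u ^ (-(s.re - 1)) := by
      filter_upwards [eventually_ge_atTop x₀] with u hu
      have hu0 : 0 < u := by linarith
      rw [hG]
      simp only
      rw [norm_mul, Complex.norm_real, Complex.norm_cpow_eq_rpow_re_of_pos hu0, Real.norm_eq_abs]
      have h1 := hR.F_mono le_rfl hu
      have h2 := hR.F_sub_le le_rfl hu
      rw [hR.F_zero] at h1 h2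
      rw [abs_of_nonneg h1]
      have h3 : u ^ (-(s.re - 1)) = u * u ^ (-s).re := by
        nth_rewrite 2 [← Real.rpow_one u]
        rw [← Real.rpow_add hu0]
        congr 1
        simp
        ring
      rw [h3]
      apply mul_le_mul_of_nonneg_right _ (Real.rpow_nonneg hu0.le _)
      linarith
    exact squeeze_zero_norm' hb (tendsto_rpow_neg_atTop (by linarith))
  have hint2 : IntegrableOn (fun u : ℝ => (f u : ℂ) * (u : ℂ) ^ (-s) +
      ((Fp f x₀ u : ℝ) : ℂ) * (-s * (u : ℂ) ^ (-s - 1))) (Ioi x₀) := by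
    refine hint.add ((hI2.const_mul (-s)).congr ?_)
    exact Eventually.of_forall fun u => by simp only; ring
  have hfin := integral_Ioi_of_hasDerivAt_of_tendsto hcont hder hint2 hlim
  have hG0 : G x₀ = 0 := by rw [hG]; simp only; rw [hR.F_zero]; simp
  rw [hG0, sub_zero] at hfin
  have hsplit : ∫ u in Ioi x₀, ((f u : ℂ) * (u : ℂ) ^ (-s) +
      ((Fp f x₀ u : ℝ) : ℂ) * (-s * (u : ℂ) ^ (-s - 1))) =
      (∫ u in Ioi x₀, (f u : ℂ) * (u : ℂ) ^ (-s)) +
      (-s) * ∫ t in Ioi x₀, (t : ℂ) ^ (-s - 1) * ((Fp f x₀ t : ℝ) : ℂ) := by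
    rw [← integral_const_mul, ← integral_add hint (hI2.const_mul (-s))]
    congr 1
    ext u
    ring
  rw [hsplit] at hfin
  linear_combination -hfin

/-- The transform of the error term to the right of `1`. -/
theorem Lam_eq {Z : Multiset ℂ} (hZ : ∀ ρ ∈ Z, ρ.re < 1) (hZc : Z.map conj = Z) {x₀ : ℝ}
    (hR : RDens (fZ Z) x₀) {p : ℕ → ℝ} (hS : SysW Z p)
    (hV : ∀ τ : ℝ, 1 < τ → Summable fun j => p j ^ (-τ)) {s : ℂ} (hs : 1 < s.re) :
    ∑' j, ((p j : ℝ) : ℂ) ^ (-s) =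
      (∫ u in Ioi x₀, (fZ Z u : ℂ) * (u : ℂ) ^ (-s)) + Lam Z x₀ p s := by
  have hp : ∀ j, 0 < p j := fun j => by
    have := hS.mono.monotone (Nat.zero_le j)
    linarith [hS.one_lt]
  have hint : IntegrableOn (fun u : ℝ => (fZ Z u : ℂ) * (u : ℂ) ^ (-s)) (Ioi x₀) :=
    (int_fZ hZ hZc hs).1.mono_set (Ioi_subset_Ioi (by linarith [hR.dens.hx₀]))
  obtain ⟨a1, a2⟩ := mellin_countPr hp hS.mono hS.tendsto hs (hV _ hs)
  obtain ⟨b1, b2⟩ := mellin_F hR hs hint
  have e : mellin (fun u => (Err Z x₀ p u : ℂ)) (-s) =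
      (∫ t in Ioi (0 : ℝ), (t : ℂ) ^ (-s - 1) * ((countPr p t : ℝ) : ℂ)) -
      ∫ t in Ioi (0 : ℝ), (t : ℂ) ^ (-s - 1) *
        (((if x₀ ≤ t then Fp (fZ Z) x₀ t else 0 : ℝ)) : ℂ) := by
    unfold mellin
    rw [← integral_sub a1 b1]
    congr 1
    ext t
    unfold Err
    rw [smul_eq_mul]
    simp only [Complex.ofReal_sub]
    ring
  unfold Lam
  rw [e, mul_sub, a2, b2]
  ring

end Pool.Agent.H521.G
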