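import Pool.Agent.H521.G.Sel3

open MeasureTheory Set Filter Topology
open scoped ComplexConjugate

namespace Pool.Agent.H521.G

theorem SysW.summable_rpow {Z : Multiset ℂ} {p : ℕ → ℝ} (hS : SysW Z p) {τ : ℝ} (hτ : 1 < τ) :
    Summable fun j => p j ^ (-τ) := by
  have hp : ∀ j, 0 < p j := fun j => by
    have := hS.mono.monotone (Nat.zero_le j)
    linarith [hS.one_lt]
  have h1 := (hS.summable (τ : ℂ) (by simpa using hτ)).norm
  have h2 : Summable fun j : ℕ => ‖((gint p (Finsupp.single j 1) : ℝ) : ℂ) ^ (-(τ : ℂ))‖ :=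
    h1.comp_injective (i := fun j : ℕ => Finsupp.single j 1)
      (Finsupp.single_left_injective one_ne_zero)
  refine h2.congr fun j => ?_
  rw [gint_single, Complex.norm_cpow_eq_rpow_re_of_pos (hp j)]
  simp

/-- The identity for the logarithm of the zeta function in the half plane. -/
theorem exp_Lam {Z : Multiset ℂ} (hZ : ∀ ρ ∈ Z, ρ.re < 1) (hZc : Z.map conj = Z) {x₀ : ℝ}
    (hR : RDens (fZ Z) x₀) {p : ℕ → ℝ} (hS : SysW Z p) {g : ℂ → ℂ}
    (hg : DifferentiableOn ℂ g {s : ℂ | 1 / 2 < s.re})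
    (hgz : ∀ s : ℂ, 1 < s.re → (s - 1) * zetaB p s = (Z.map fun ρ => s - ρ).prod *
          Complex.exp (g s)) {s : ℂ} (hs : 1 / 2 < s.re) :
    Complex.exp (g0 Z s + (Lam Z x₀ p s +
      (∑' j, (-Complex.log (1 - (p j : ℂ) ^ (-s)) - (p j : ℂ) ^ (-s))) -
      ∫ u in (1 : ℝ)..x₀, (fZ Z u : ℂ) * (u : ℂ) ^ (-s))) = Complex.exp (g s) := by
  have hx3 := hR.dens.hx₀
  have hp1 : ∀ j, 1 ≤ p j := fun j => by
    have := hS.mono.monotone (Nat.zero_le j)
    linarith [hS.one_lt]
  have hpq : ∀ j, p 0 ≤ p j := fun j => hS.mono.monotone (Nat.zero_le j)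
  have hV : ∀ τ : ℝ, 1 < τ → Summable fun j => p j ^ (-τ) := fun τ => hS.summable_rpow
  obtain ⟨hd2, hs2, hb2⟩ := E2_props' hS.one_lt hpq hV
  set E2 : ℂ → ℂ := fun s => ∑' j, (-Complex.log (1 - (p j : ℂ) ^ (-s)) - (p j : ℂ) ^ (-s))
    with hE2
  set I0 : ℂ → ℂ := fun s => ∫ u in (1 : ℝ)..x₀, (fZ Z u : ℂ) * (u : ℂ) ^ (-s) with hI0
  have hfb : ∀ u ∈ Ioc (1 : ℝ) x₀, ‖(fZ Z u : ℂ)‖ ≤ 1 + Multiset.card Z := by
    intro u hu
    rw [Complex.norm_real, Real.norm_eq_abs]
    unfold fZ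
    rw [abs_mul]
    have h1 := abs_Wf_le_one hu.1.le
    have h2 : |1 - osc Z u| ≤ 1 + Multiset.card Z := by
      have := abs_sub (1 : ℝ) (osc Z u)
      have h3 := abs_osc_le hZ hu.1.le
      rw [abs_one] at this
      linarith
    calc |Wf u| * |1 - osc Z u| ≤ 1 * (1 + Multiset.card Z) :=
          mul_le_mul h1 h2 (abs_nonneg _) zero_le_one
      _ = _ := one_mul _
  have hI0d : Differentiable ℂ I0 := differentiable_integral_cpow le_rfl (by linarith)
    (Complex.measurable_ofReal.comp (measurable_fZ Z)).aestronglyMeasurable hfb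
  set G : ℂ → ℂ := fun s => g0 Z s + (Lam Z x₀ p s + E2 s - I0 s) with hG
  have hGd : DifferentiableOn ℂ G {s : ℂ | 1 / 2 < s.re} := (diff_g0 hZ).add
    (((diff_Lam hZ hR hS).add hd2).sub hI0d.differentiableOn)
  have hGz : ∀ s : ℂ, 1 < s.re → (s - 1) * zetaB p s = (Z.map fun ρ => s - ρ).prod *
          Complex.exp (G s) := by
    intro s hs
    have hs' : 1 / 2 < s.re := by linarith
    have hsp : Summable fun j => (p j : ℂ) ^ (-s) := by
      refine Summable.of_norm_bounded (hV s.re hs) (fun j => ?_)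
      rw [norm_ofReal_cpow_neg (by linarith [hp1 j])]
    have e2 : ∑' j, -Complex.log (1 - (p j : ℂ) ^ (-s)) = E2 s + ∑' j, (p j : ℂ) ^ (-s) := by
      rw [hE2]
      simp only
      rw [← (hs2 s hs').tsum_add hsp]
      apply tsum_congr
      intro j
      ring
    rw [zetaB_eq_exp' p hp1 s (hS.summable s hs), e2, Lam_eq hZ hZc hR hS hV hs]
    have hsplit : ∫ u in Ioi x₀, (fZ Z u : ℂ) * (u : ℂ) ^ (-s) =
        (Alog s 1 - (Z.map (Alog s)).sum) - I0 s := by
      rw [← (int_fZ hZ hZc hs).2, hI0]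
      simp only
      have := intervalIntegral.integral_Ioi_sub_Ioi (a := (1 : ℝ)) (b := x₀)
        (f := fun u : ℝ => (fZ Z u : ℂ) * (u : ℂ) ^ (-s)) (μ := volume)
        (int_fZ hZ hZc hs).1 (by linarith)
      rw [← this]
      ring
    rw [hsplit]
    have e1 : E2 s + (Alog s 1 - (Z.map (Alog s)).sum - I0 s + Lam Z x₀ p s) =
        Alog s 1 + (-(Z.map (Alog s)).sum + (Lam Z x₀ p s + E2 s - I0 s)) := by ring
    rw [e1, Complex.exp_add, Complex.exp_add, exp_Alog_sum (fun ρ hρ => by linarith [hZ ρ hρ]),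
      ← mul_assoc, exp_Alog_one hs]
    rw [hG]
    simp only
    unfold g0
    have e2 : Complex.exp
        (Complex.log s - (Z.map fun ρ => Complex.log (s - ρ + 1)).sum +
          (Lam Z x₀ p s + E2 s - I0 s)) =
        Complex.exp (Complex.log s) *
        Complex.exp (-(Z.map fun ρ => Complex.log (s - ρ + 1)).sum) *
        Complex.exp (Lam Z x₀ p s + E2 s - I0 s) := by
      rw [← Complex.exp_add, ← Complex.exp_add]
      ring_nf
    rw [e2]
    ring
  -- analytic continuation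
  have hU : IsOpen {s : ℂ | 1 / 2 < s.re} := isOpen_lt continuous_const Complex.continuous_re
  have hconv : IsPreconnected {s : ℂ | 1 / 2 < s.re} :=
    (convex_halfSpace_re_gt (1 / 2)).isPreconnected
  have hA1 : AnalyticOnNhd ℂ (fun s => Complex.exp (G s)) {s : ℂ | 1 / 2 < s.re} :=
    (hGd.cexp).analyticOnNhd hU
  have hA2 : AnalyticOnNhd ℂ (fun s => Complex.exp (g s)) {s : ℂ | 1 / 2 < s.re} :=
    (hg.cexp).analyticOnNhd hU
  have h2mem : (2 : ℂ) ∈ {s : ℂ | 1 / 2 < s.re} := by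
    simp only [mem_ofPred_eq]; norm_num
  have hev : (fun s => Complex.exp (G s)) =ᶠ[𝓝 (2 : ℂ)] fun s => Complex.exp (g s) := by
    have hV1 : {s : ℂ | 1 < s.re} ∈ 𝓝 (2 : ℂ) :=
      (isOpen_lt continuous_const Complex.continuous_re).mem_nhds (by simp)
    filter_upwards [hV1] with s hs
    have h1 := hGz s hs
    rw [hgz s hs] at h1
    have hne : (Z.map fun ρ => s - ρ).prod ≠ 0 := by
      apply prod_sub_ne_zero
      intro ρ hρ h2
      have h3 := hZ ρ hρ
      rw [h2] at h3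
      have h4 : 1 < s.re := hs
      linarith
    exact (mul_left_cancel₀ hne h1).symm
  exact hA1.eqOn_of_preconnected_of_eventuallyEq hA2 hconv h2mem hev hs

theorem norm_prod_succ_le {Z : Multiset ℂ} {s : ℂ} (h : ∀ ρ ∈ Z, 1 ≤ ‖s - ρ‖) :
    ‖Complex.exp ((Z.map fun ρ => Complex.log (s - ρ + 1)).sum)‖ ≤
      2 ^ (Multiset.card Z) * ‖(Z.map fun ρ => s - ρ).prod‖ := by
  induction Z using Multiset.induction_on with
  | empty => simp
  | cons ρ Z ih =>
    have hρ := h ρ (Multiset.mem_cons_self ρ Z)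
    have h1 := ih fun ρ' h' => h ρ' (Multiset.mem_cons_of_mem h')
    simp only [Multiset.map_cons, Multiset.sum_cons, Multiset.prod_cons, Multiset.card_cons,
      Complex.exp_add, norm_mul, pow_succ]
    have h2 : ‖Complex.exp (Complex.log (s - ρ + 1))‖ ≤ 2 * ‖s - ρ‖ := by
      by_cases h0 : s - ρ + 1 = 0
      · rw [h0]
        simp only [Complex.log_zero, Complex.exp_zero, norm_one]
        linarith
      · rw [Complex.exp_log h0]
        have := norm_add_le (s - ρ) 1
        rw [norm_one] at this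
        linarith
    calc _ ≤ (2 * ‖s - ρ‖) * (2 ^ (Multiset.card Z) * ‖(Z.map fun ρ => s - ρ).prod‖) :=
          mul_le_mul h2 h1 (norm_nonneg _) (by positivity)
      _ = _ := by ring

theorem exists_height (Z : Multiset ℂ) : ∃ T : ℝ, 0 ≤ T ∧ ∀ ρ ∈ Z, |ρ.im| + 1 ≤ T := by
  induction Z using Multiset.induction_on with
  | empty => exact ⟨0, le_rfl, by simp⟩
  | cons ρ Z ih =>
    obtain ⟨T, hT0, hT⟩ := ih
    refine ⟨max T (|ρ.im| + 1), le_max_of_le_left hT0, fun ρ' h' => ?_⟩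
    rcases Multiset.mem_cons.1 h' with h | h
    · rw [h]; exact le_max_right _ _
    · exact (hT ρ' h).trans (le_max_left _ _)

/-- The bound for the transform of the error term on vertical lines. -/
theorem Lam_bound {Z : Multiset ℂ} (hZ : ∀ ρ ∈ Z, ρ.re < 1) (hZc : Z.map conj = Z) {x₀ : ℝ}
    (hR : RDens (fZ Z) x₀) {p : ℕ → ℝ} (hS : SysW Z p) {σ : ℝ} (hσ : 1 / 2 < σ) (hσ2 : σ < 2) :
    ∃ C : ℝ, 0 ≤ C ∧ ∀ t : ℝ, ‖Lam Z x₀ p (σ + t * Complex.I)‖ ≤ C * (1 + Real.log (1 + |t|)) := by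
  have hx3 := hR.dens.hx₀
  have hpq : ∀ j, p 0 ≤ p j := fun j => hS.mono.monotone (Nat.zero_le j)
  have hp0 : ∀ j, 0 < p j := fun j => by linarith [hS.one_lt, hpq j]
  have hV : ∀ τ : ℝ, 1 < τ → Summable fun j => p j ^ (-τ) := fun τ => hS.summable_rpow
  obtain ⟨g, hgd, hgz, hgb⟩ := hS.zeta
  obtain ⟨hd2, hs2, hb2⟩ := E2_props' hS.one_lt hpq hV
  set E2 : ℂ → ℂ := fun s => ∑' j, (-Complex.log (1 - (p j : ℂ) ^ (-s)) - (p j : ℂ) ^ (-s))
    with hE2
  set I0 : ℂ → ℂ := fun s => ∫ u in (1 : ℝ)..x₀, (fZ Z u : ℂ) * (u : ℂ) ^ (-s) with hI0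
  have hfb : ∀ u ∈ Ioc (1 : ℝ) x₀, ‖(fZ Z u : ℂ)‖ ≤ 1 + Multiset.card Z := by
    intro u hu
    rw [Complex.norm_real, Real.norm_eq_abs]
    unfold fZ
    rw [abs_mul]
    have h1 := abs_Wf_le_one hu.1.le
    have h2 : |1 - osc Z u| ≤ 1 + Multiset.card Z := by
      have := abs_sub (1 : ℝ) (osc Z u)
      have h3 := abs_osc_le hZ hu.1.le
      rw [abs_one] at this
      linarith
    calc |Wf u| * |1 - osc Z u| ≤ 1 * (1 + Multiset.card Z) :=
          mul_le_mul h1 h2 (abs_nonneg _) zero_le_one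
      _ = _ := one_mul _
  set σ₁ : ℝ := (1 / 2 + σ) / 2 with hσ₁
  have h1 : 1 / 2 < σ₁ := by rw [hσ₁]; linarith
  have h2 : σ₁ < σ := by rw [hσ₁]; linarith
  set ε : ℝ := σ₁ - 1 / 2 with hε
  have hε0 : 0 < ε := by rw [hε]; linarith
  obtain ⟨Cg, hCg⟩ := hgb ε hε0
  obtain ⟨CE, hCE⟩ := hb2 ε hε0
  obtain ⟨KI, hKI⟩ : ∃ K : ℝ, K = (1 + (Multiset.card Z : ℝ)) * ((x₀ - 1) * 1 ^ (-(0 : ℝ))) :=
    ⟨_, rfl⟩
  -- the height
  obtain ⟨T, hT0, hT⟩ := exists_height Z
  -- the real part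
  have hcard : (0 : ℝ) < 2 ^ (Multiset.card Z) := by positivity
  have hre : ∃ C : ℝ, 0 ≤ C ∧ ∀ s : ℂ, σ₁ ≤ s.re → T ≤ |s.im| →
      (Lam Z x₀ p s).re ≤ C + 2 * Real.log (2 + ‖s‖) := by
    refine ⟨|Real.log (2 ^ (Multiset.card Z) * (|Cg| + 1) * 2)| + |CE + KI| + ε *
      0, by positivity, fun s hs hsT => ?_⟩
    have hs' : 1 / 2 < s.re := by linarith
    have hid := exp_Lam hZ hZc hR hS hgd hgz hs'
    have hsne : s ≠ 0 := by
      intro h0
      rw [h0] at hs'
      simp at hs'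
      linarith
    have hsnorm : 1 / 2 ≤ ‖s‖ := by
      have := Complex.abs_re_le_norm s
      have := le_abs_self s.re
      linarith
    have hz1 : ∀ ρ ∈ Z, 1 ≤ ‖s - ρ‖ := by
      intro ρ hρ
      have a1 := hT ρ hρ
      have a2 := Complex.abs_im_le_norm (s - ρ)
      rw [Complex.sub_im] at a2
      have a3 := abs_sub_abs_le_abs_sub s.im ρ.im
      linarith
    have hprod := norm_prod_succ_le hz1
    have hlogid : Complex.exp (Lam Z x₀ p s) = Complex.exp (g s) * (s⁻¹ *
        Complex.exp ((Z.map fun ρ => Complex.log (s - ρ + 1)).sum)) *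
        Complex.exp (-(E2 s) + I0 s) := by
      rw [← hid]
      unfold g0
      have e1 : Complex.log s - (Z.map fun ρ => Complex.log (s - ρ + 1)).sum +
          (Lam Z x₀ p s + E2 s - I0 s) = Complex.log s +
          (-(Z.map fun ρ => Complex.log (s - ρ + 1)).sum + (Lam Z x₀ p s + (E2 s - I0 s))) := by
        ring
      have e3 : -(E2 s) + I0 s = -(E2 s - I0 s) := by ring
      rw [e1, Complex.exp_add, Complex.exp_log hsne, Complex.exp_add, Complex.exp_add, e3,
        Complex.exp_neg, Complex.exp_neg]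
      have n1 := Complex.exp_ne_zero ((Z.map fun ρ => Complex.log (s - ρ + 1)).sum)
      have n2 := Complex.exp_ne_zero (E2 s - I0 s)
      field_simp
    have hn := congrArg norm hlogid
    rw [norm_mul, norm_mul, norm_mul, Complex.norm_exp, Complex.norm_exp, norm_inv,
      Complex.norm_exp (-(E2 s) + I0 s)] at hn
    have hgb' := hCg s (by rw [hε]; linarith)
    rw [norm_mul, Complex.norm_exp] at hgb'
    have hEI : (-(E2 s) + I0 s).re ≤ |CE + KI| := by
      have h3 := hCE s (by rw [hε]; linarith)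
      have h4 := norm_integral_cpow_le (h := fun u => (fZ Z u : ℂ)) one_pos
        (by linarith : (1 : ℝ) ≤ x₀) hfb (by positivity) (s := s) (σ := 0) le_rfl le_rfl
        (by linarith)
      rw [← hKI] at h4
      have h5 := (abs_le.1 ((Complex.abs_re_le_norm (I0 s)).trans h4)).2
      have h6 := (abs_le.1 ((Complex.abs_re_le_norm (E2 s)).trans h3)).1
      rw [Complex.add_re, Complex.neg_re]
      have := le_abs_self (CE + KI)
      linarith
    have hA : 0 ≤ Real.exp (g s).re := Real.exp_nonneg _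
    have hB : 0 ≤ ‖(Z.map fun ρ => s - ρ).prod‖ := norm_nonneg _
    have hpow : (1 + ‖s‖) ^ (1 + ε) ≤ (2 + ‖s‖) ^ (2 : ℝ) := by
      calc (1 + ‖s‖) ^ (1 + ε) ≤ (1 + ‖s‖) ^ (2 : ℝ) := by
            apply Real.rpow_le_rpow_of_exponent_le (by linarith)
            rw [hε, hσ₁]
            linarith
        _ ≤ _ := Real.rpow_le_rpow (by linarith) (by linarith) (by norm_num)
    have hP2 : 0 < (2 + ‖s‖) ^ (2 : ℝ) := by positivity
    have hfin : Real.exp (Lam Z x₀ p s).re ≤
        (2 ^ (Multiset.card Z) * (|Cg| + 1) * 2) * (2 + ‖s‖) ^ (2 : ℝ) * Real.exp |CE + KI| := by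
      rw [hn]
      have b1 : Real.exp (g s).re * (‖s‖⁻¹ *
          ‖Complex.exp ((Z.map fun ρ => Complex.log (s - ρ + 1)).sum)‖) ≤
          (2 ^ (Multiset.card Z) * (|Cg| + 1) * 2) * (2 + ‖s‖) ^ (2 : ℝ) := by
        have c1 : ‖s‖⁻¹ ≤ 2 := by
          rw [inv_le_comm₀ (by linarith) (by norm_num)]
          linarith
        have c2 : ‖s‖⁻¹ * ‖Complex.exp ((Z.map fun ρ => Complex.log (s - ρ + 1)).sum)‖ ≤
            2 * (2 ^ (Multiset.card Z) * ‖(Z.map fun ρ => s - ρ).prod‖) :=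
          mul_le_mul c1 hprod (norm_nonneg _) (by norm_num)
        have c3 := mul_le_mul_of_nonneg_left c2 hA
        have c4 : Cg * (1 + ‖s‖) ^ (1 + ε) ≤ (|Cg| + 1) * (2 + ‖s‖) ^ (2 : ℝ) := by
          apply mul_le_mul _ hpow (by positivity) (by positivity)
          linarith [le_abs_self Cg]
        calc _ ≤ _ := c3
          _ = (2 * 2 ^ (Multiset.card Z)) * (‖(Z.map fun ρ => s - ρ).prod‖ *
              Real.exp (g s).re) := by ring
          _ ≤ (2 * 2 ^ (Multiset.card Z)) * ((|Cg| + 1) * (2 + ‖s‖) ^ (2 : ℝ)) :=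
              mul_le_mul_of_nonneg_left (hgb'.trans c4) (by positivity)
          _ = _ := by ring
      exact mul_le_mul b1 (Real.exp_le_exp.2 hEI) (Real.exp_nonneg _) (by positivity)
    have hlog := Real.log_le_log (Real.exp_pos _) hfin
    rw [Real.log_exp, Real.log_mul (by positivity) (Real.exp_ne_zero _), Real.log_exp,
      Real.log_mul (by positivity) hP2.ne', Real.log_rpow (by linarith)] at hlog
    have := le_abs_self (Real.log (2 ^ (Multiset.card Z) * (|Cg| + 1) * 2))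
    linarith
  obtain ⟨CR, hCR0, hCR⟩ := hre
  -- the far right
  have hfar : ∃ C : ℝ, 0 ≤ C ∧ ∀ s : ℂ, s.re = 2 → ‖Lam Z x₀ p s‖ ≤ C := by
    refine ⟨∑' j, p j ^ (-(2 : ℝ)) + 1, ?_, fun s hs => ?_⟩
    · have : 0 ≤ ∑' j, p j ^ (-(2 : ℝ)) := tsum_nonneg fun j => Real.rpow_nonneg (hp0 j).le _
      linarith
    · have hs1 : 1 < s.re := by rw [hs]; norm_num
      have h3 := Lam_eq hZ hZc hR hS hV hs1
      have h4 : Lam Z x₀ p s = ∑' j, ((p j : ℝ) : ℂ) ^ (-s) -
          ∫ u in Ioi x₀, (fZ Z u : ℂ) * (u : ℂ) ^ (-s) := by rw [h3]; ring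
      rw [h4]
      refine (norm_sub_le _ _).trans ?_
      apply add_le_add
      · apply tsum_of_norm_bounded (hV 2 (by norm_num)).hasSum
        intro j
        rw [Complex.norm_cpow_eq_rpow_re_of_pos (hp0 j)]
        simp [hs]
      · have hdom : IntegrableOn (fun t : ℝ => t ^ (-(2 : ℝ))) (Ioi x₀) :=
          integrableOn_Ioi_rpow_of_lt (by norm_num) (by linarith)
        have h5 : ‖∫ u in Ioi x₀, (fZ Z u : ℂ) * (u : ℂ) ^ (-s)‖ ≤
            ∫ t in Ioi x₀, t ^ (-(2 : ℝ)) := by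
          apply norm_integral_le_of_norm_le hdom
          filter_upwards [ae_restrict_mem measurableSet_Ioi] with t ht
          have ht' : x₀ < t := ht
          rw [norm_mul, Complex.norm_real, Real.norm_eq_abs,
            Complex.norm_cpow_eq_rpow_re_of_pos (by linarith)]
          have a1 := hR.dens.nonneg t ht'.le
          have a2 := hR.dens.le_one t ht'.le
          rw [abs_of_nonneg a1, Complex.neg_re, hs]
          have a3 : 0 ≤ t ^ (-(2 : ℝ)) := Real.rpow_nonneg (by linarith) _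
          nlinarith
        refine h5.trans ?_
        rw [integral_Ioi_rpow_of_lt (by norm_num) (by linarith)]
        have e : (-(2 : ℝ)) + 1 = -1 := by norm_num
        rw [e, Real.rpow_neg_one, neg_div_neg_eq, div_one]
        exact inv_le_one_of_one_le₀ (by linarith)
  obtain ⟨CF, hCF0, hCF⟩ := hfar
  -- the compact part
  have hcpt : ∃ C : ℝ, 0 ≤ C ∧ ∀ t : ℝ, |t| ≤ T + 2 → ‖Lam Z x₀ p (σ + t * Complex.I)‖ ≤ C := by
    have hK : IsCompact (Icc (-(T + 2)) (T + 2)) := isCompact_Icc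
    have hc : ContinuousOn (fun t : ℝ => Lam Z x₀ p (σ + t * Complex.I))
        (Icc (-(T + 2)) (T + 2)) := by
      apply (diff_Lam hZ hR hS).continuousOn.comp
      · fun_prop
      · intro t _
        simp only [mem_ofPred_eq, Complex.add_re, Complex.ofReal_re, Complex.mul_re,
          Complex.I_re, mul_zero, Complex.ofReal_im, Complex.I_im, mul_one, sub_self, add_zero]
        exact hσ
    obtain ⟨C, hC⟩ := hK.exists_bound_of_continuousOn hc
    refine ⟨|C|, abs_nonneg _, fun t ht => (hC t (abs_le.1 ht)).trans (le_abs_self C)⟩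
  obtain ⟨CK, hCK0, hCK⟩ := hcpt
  -- Borel-Caratheodory
  set d : ℝ := σ - σ₁ with hd
  have hd0 : 0 < d := by rw [hd]; linarith
  refine ⟨CK + (4 * (CR + 1 + 2 * Real.log 6 + 2) + 4 * CF) / d, by positivity, fun t => ?_⟩
  have hL0 : 0 ≤ Real.log (1 + |t|) := Real.log_nonneg (by linarith [abs_nonneg t])
  have hlog6 : 0 ≤ Real.log 6 := Real.log_nonneg (by norm_num)
  set Q : ℝ := (4 * (CR + 1 + 2 * Real.log 6 + 2) + 4 * CF) / d with hQ
  have hQ0 : 0 ≤ Q := by positivity
  rcases le_or_gt |t| (T + 2) with ht | ht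
  · have := hCK t ht
    nlinarith
  · set c : ℂ := 2 + t * Complex.I with hc
    have hcre : c.re = 2 := by simp [hc]
    have hcim : c.im = t := by simp [hc]
    have hcn : ‖c‖ ≤ 2 + |t| := by
      rw [hc]
      refine (norm_add_le _ _).trans ?_
      rw [norm_mul, Complex.norm_I, mul_one, Complex.norm_real, Real.norm_eq_abs]
      simp
    set R : ℝ := 2 - σ₁ with hRd
    have hR0 : 0 < R := by rw [hRd]; linarith
    set M : ℝ := CR + 1 + 2 * Real.log (6 + |t|) with hM
    have hlog6t : 0 ≤ Real.log (6 + |t|) := Real.log_nonneg (by linarith [abs_nonneg t])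
    have hM0 : 0 < M := by positivity
    have hball : ∀ z ∈ Metric.ball (0 : ℂ) R, σ₁ < (c + z).re ∧ T ≤ |(c + z).im| ∧
        ‖c + z‖ ≤ 4 + |t| := by
      intro z hz
      rw [mem_ball_zero_iff] at hz
      have z1 := Complex.abs_re_le_norm z
      have z2 := Complex.abs_im_le_norm z
      rw [Complex.add_re, Complex.add_im, hcre, hcim]
      refine ⟨?_, ?_, ?_⟩
      · have := (abs_le.1 z1).1
        rw [hRd] at hz
        linarith
      · have := abs_sub_abs_le_abs_sub t (-z.im)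
        rw [sub_neg_eq_add, abs_neg] at this
        rw [hRd] at hz
        linarith
      · refine (norm_add_le _ _).trans ?_
        rw [hRd] at hz
        linarith
    have hf : DifferentiableOn ℂ (fun z => Lam Z x₀ p (c + z)) (Metric.ball 0 R) := by
      apply (diff_Lam hZ hR hS).comp (by fun_prop)
      intro z hz
      have := (hball z hz).1
      simp only [mem_ofPred_eq]
      linarith
    have hmaps : Set.MapsTo (fun z => Lam Z x₀ p (c + z)) (Metric.ball 0 R) {z | z.re ≤ M} := by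
      intro z hz
      obtain ⟨z1, z2, z3⟩ := hball z hz
      have z4 := hCR (c + z) z1.le z2
      have z5 : Real.log (2 + ‖c + z‖) ≤ Real.log (6 + |t|) := by
        apply Real.log_le_log (by positivity)
        linarith
      simp only [mem_ofPred_eq]
      rw [hM]
      linarith
    have hzm : ((σ - 2 : ℝ) : ℂ) ∈ Metric.ball (0 : ℂ) R := by
      rw [mem_ball_zero_iff, Complex.norm_real, Real.norm_eq_abs, abs_of_neg (by linarith), hRd]
      linarith
    have key := Complex.borelCaratheodory hM0 hf hmaps hR0 hzm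
    simp only [add_zero] at key
    have e1 : c + ((σ - 2 : ℝ) : ℂ) = σ + t * Complex.I := by rw [hc]; push_cast; ring
    have e2 : ‖((σ - 2 : ℝ) : ℂ)‖ = 2 - σ := by
      rw [Complex.norm_real, Real.norm_eq_abs, abs_of_neg (by linarith)]
      ring
    have e3 : R - (2 - σ) = d := by rw [hRd, hd]; ring
    rw [e1, e2, e3] at key
    have hF := hCF c hcre
    have k1 : 2 * M * (2 - σ) / d ≤ 4 * M / d := by
      apply div_le_div_of_nonneg_right _ hd0.le
      nlinarith
    have k2 : ‖Lam Z x₀ p c‖ * (R + (2 - σ)) / d ≤ 4 * CF / d := by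
      apply div_le_div_of_nonneg_right _ hd0.le
      have : R + (2 - σ) ≤ 4 := by rw [hRd]; linarith
      have h0 : 0 ≤ R + (2 - σ) := by rw [hRd]; linarith
      calc ‖Lam Z x₀ p c‖ * (R + (2 - σ)) ≤ CF * 4 := mul_le_mul hF this h0 hCF0
        _ = _ := by ring
    have k3 : Real.log (6 + |t|) ≤ Real.log 6 + Real.log (1 + |t|) := by
      rw [← Real.log_mul (by norm_num) (by positivity)]
      apply Real.log_le_log (by positivity)
      linarith [abs_nonneg t]
    have k4 : 4 * M / d + 4 * CF / d ≤ Q * (1 + Real.log (1 + |t|)) := by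
      rw [hQ, ← add_div, div_mul_eq_mul_div]
      apply div_le_div_of_nonneg_right _ hd0.le
      rw [hM]
      nlinarith [mul_nonneg hCR0 hL0, mul_nonneg hlog6 hL0, mul_nonneg hCF0 hL0]
    have k5 : 0 ≤ CK * (1 + Real.log (1 + |t|)) := by positivity
    nlinarith

end Pool.Agent.H521.G
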