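import Pool.Agent.H521.G.Sel4

open MeasureTheory Set Filter Topology
open scoped ComplexConjugate FourierTransform ContDiff

namespace Pool.Agent.H521.G

/-- The error term in the exponential variable. -/
noncomputable def aer (Z : Multiset ℂ) (x₀ : ℝ) (p : ℕ → ℝ) (σ v : ℝ) : ℂ :=
  ((Real.exp (-(σ * v)) * Err Z x₀ p (Real.exp v) : ℝ) : ℂ)

section

variable {Z : Multiset ℂ} (hZ : ∀ ρ ∈ Z, ρ.re < 1) {x₀ : ℝ}
    (hR : RDens (fZ Z) x₀) {p : ℕ → ℝ} (hS : SysW Z p)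
include hZ hR hS

theorem aer_integrable {σ : ℝ} (hσ : 1 / 2 < σ) : Integrable (aer Z x₀ p σ) := by
  set ε : ℝ := (σ - 1 / 2) / 2 with hε
  have hε0 : 0 < ε := by rw [hε]; linarith
  obtain ⟨C, hC0, hC⟩ := err_bound hZ hR hS hε0
  have hm : Measurable (aer Z x₀ p σ) := by
    unfold aer
    exact Complex.measurable_ofReal.comp ((by fun_prop : Measurable fun v : ℝ =>
      Real.exp (-(σ * v))).mul ((err_meas hR hS.tendsto).comp Real.measurable_exp))
  have hdom : Integrable ((Ioi (0 : ℝ)).indicator fun v => C * Real.exp (-ε * v)) :=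
    (integrable_indicator_iff measurableSet_Ioi).2
      ((exp_neg_integrableOn_Ioi 0 hε0).const_mul C)
  refine hdom.mono' hm.aestronglyMeasurable ?_
  have h0 : ∀ᵐ v : ℝ, v ≠ 0 := by
    rw [ae_iff]
    simp
  filter_upwards [h0] with v hv
  unfold aer
  rw [Complex.norm_real, Real.norm_eq_abs, abs_mul, abs_of_pos (Real.exp_pos _)]
  rcases lt_or_gt_of_ne hv with h | h
  · have h1 : Real.exp v ≤ 1 := by rw [Real.exp_le_one_iff]; exact h.le
    rw [err_zero hR hS h1, abs_zero, mul_zero, indicator_of_notMem (by simpa using h.le)]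
  · rw [indicator_of_mem (by simpa using h)]
    have h1 : 1 ≤ Real.exp v := Real.one_le_exp h.le
    have h2 := hC _ h1
    have h3 : Real.exp v ^ (1 / 2 + ε) = Real.exp (v * (1 / 2 + ε)) := by
      rw [← Real.exp_mul]
    rw [h3] at h2
    calc Real.exp (-(σ * v)) * |Err Z x₀ p (Real.exp v)| ≤
        Real.exp (-(σ * v)) * (C * Real.exp (v * (1 / 2 + ε))) :=
          mul_le_mul_of_nonneg_left h2 (Real.exp_pos _).le
      _ = C * (Real.exp (-(σ * v)) * Real.exp (v * (1 / 2 + ε))) := by ring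
      _ = C * Real.exp (-ε * v) := by
          rw [← Real.exp_add]
          congr 2
          rw [hε]
          ring

omit hZ hR hS in
theorem aer_fourier (σ ξ : ℝ) :
    ((σ : ℂ) - 2 * Real.pi * Complex.I * ξ) * 𝓕⁻ (aer Z x₀ p σ) ξ =
      Lam Z x₀ p (σ + (-(2 * Real.pi * ξ) : ℝ) * Complex.I) := by
  unfold Lam
  rw [mellin_eq_fourier]
  have e1 : (-((σ : ℂ) + (-(2 * Real.pi * ξ) : ℝ) * Complex.I)).re = -σ := by simp
  have e2 : (-((σ : ℂ) + (-(2 * Real.pi * ξ) : ℝ) * Complex.I)).im = 2 * Real.pi * ξ := by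
    simp
  rw [e1, e2]
  have e3 : 2 * Real.pi * ξ / (2 * Real.pi) = ξ := by
    have := Real.pi_pos
    field_simp
  rw [e3, Real.fourierInv_eq_fourier_comp_neg]
  have e4 : (fun x => aer Z x₀ p σ (-x)) = fun u : ℝ => Real.exp (- -σ * u) •
      ((Err Z x₀ p (Real.exp (-u)) : ℝ) : ℂ) := by
    ext u
    unfold aer
    rw [Complex.real_smul]
    push_cast
    ring_nf
  rw [e4]
  push_cast
  ring

theorem aer_bound (hZc : Z.map conj = Z) {σ η : ℝ} (hσ : 1 / 2 < σ) (hσ2 : σ < 2) (hη : 0 < η)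
    (hη1 : η ≤ 1) :
    ∃ C : ℝ, 0 < C ∧ ∀ δ : ℝ, 0 < δ → δ ≤ 1 → ∀ ξ : ℝ,
      ‖((σ : ℂ) - 2 * Real.pi * Complex.I * ξ) * 𝓕⁻ (aer Z x₀ p σ) ξ‖ ^ 2 ≤
        (C * δ ^ (-η)) * (1 + |δ * ξ|) := by
  obtain ⟨C, hC0, hC⟩ := Lam_bound hZ hZc hR hS hσ hσ2
  refine ⟨(C * (1 + 2 / η)) ^ 2 * 7 + 1, by positivity, fun δ hδ hδ1 ξ => ?_⟩
  rw [aer_fourier]
  have h1 := hC (-(2 * Real.pi * ξ))
  rw [abs_neg] at h1
  set t : ℝ := |2 * Real.pi * ξ| with ht
  have ht0 : 0 ≤ t := abs_nonneg _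
  have h2 : Real.log (1 + t) ≤ (1 + t) ^ (η / 2) / (η / 2) :=
    Real.log_le_rpow_div (by positivity) (by positivity)
  have h3 : 1 ≤ (1 + t) ^ (η / 2) := Real.one_le_rpow (by linarith) (by positivity)
  have h4 : 1 + Real.log (1 + t) ≤ (1 + 2 / η) * (1 + t) ^ (η / 2) := by
    have : (1 + 2 / η) * (1 + t) ^ (η / 2) = (1 + t) ^ (η / 2) + (1 + t) ^ (η / 2) / (η / 2) := by
      field_simp
    linarith
  have h5 : 1 + t ≤ 7 * δ⁻¹ * (1 + |δ * ξ|) := by
    have a1 : t ≤ 7 * |ξ| := by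
      rw [ht, abs_mul, abs_of_pos (by positivity)]
      have := Real.pi_lt_d2
      apply mul_le_mul_of_nonneg_right _ (abs_nonneg ξ)
      linarith
    rw [abs_mul, abs_of_pos hδ, mul_assoc, ← div_eq_inv_mul, ← mul_div_assoc, le_div_iff₀ hδ]
    have := abs_nonneg ξ
    nlinarith
  have hq : 1 ≤ 1 + |δ * ξ| := by linarith [abs_nonneg (δ * ξ)]
  have h6 : (1 + t) ^ η ≤ 7 * δ ^ (-η) * (1 + |δ * ξ|) := by
    calc (1 + t) ^ η ≤ (7 * δ⁻¹ * (1 + |δ * ξ|)) ^ η :=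
          Real.rpow_le_rpow (by positivity) h5 hη.le
      _ = 7 ^ η * δ ^ (-η) * (1 + |δ * ξ|) ^ η := by
          rw [Real.mul_rpow (by positivity) (by positivity), Real.mul_rpow (by norm_num)
            (by positivity), Real.inv_rpow hδ.le, Real.rpow_neg hδ.le]
      _ ≤ 7 * δ ^ (-η) * (1 + |δ * ξ|) := by
          have b1 : (7 : ℝ) ^ η ≤ 7 := by
            calc (7 : ℝ) ^ η ≤ 7 ^ (1 : ℝ) :=
                  Real.rpow_le_rpow_of_exponent_le (by norm_num) hη1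
              _ = 7 := Real.rpow_one _
          have b2 : (1 + |δ * ξ|) ^ η ≤ 1 + |δ * ξ| := by
            calc (1 + |δ * ξ|) ^ η ≤ (1 + |δ * ξ|) ^ (1 : ℝ) :=
                  Real.rpow_le_rpow_of_exponent_le hq hη1
              _ = _ := Real.rpow_one _
          have b3 : 0 ≤ δ ^ (-η) := Real.rpow_nonneg hδ.le _
          apply mul_le_mul (mul_le_mul_of_nonneg_right b1 b3) b2 (by positivity) (by positivity)
  have h7 : ((1 + t) ^ (η / 2)) ^ 2 = (1 + t) ^ η := by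
    rw [← Real.rpow_natCast, ← Real.rpow_mul (by positivity)]
    congr 1
    push_cast
    ring
  calc _ ≤ (C * (1 + Real.log (1 + t))) ^ 2 := pow_le_pow_left₀ (norm_nonneg _) h1 2
    _ ≤ (C * ((1 + 2 / η) * (1 + t) ^ (η / 2))) ^ 2 := by
        apply pow_le_pow_left₀
        · have : 0 ≤ Real.log (1 + t) := Real.log_nonneg (by linarith)
          positivity
        · exact mul_le_mul_of_nonneg_left h4 hC0
    _ = (C * (1 + 2 / η)) ^ 2 * (1 + t) ^ η := by rw [← h7]; ring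
    _ ≤ (C * (1 + 2 / η)) ^ 2 * (7 * δ ^ (-η) * (1 + |δ * ξ|)) :=
        mul_le_mul_of_nonneg_left h6 (by positivity)
    _ ≤ _ := by
        have : 0 ≤ δ ^ (-η) * (1 + |δ * ξ|) := by positivity
        nlinarith

end

/-- The bump function. -/
noncomputable def bmp : ContDiffBump (1 / 2 : ℝ) := ⟨1 / 8, 1 / 4, by norm_num, by norm_num⟩

theorem bmp_zero {y : ℝ} (h : y ≤ 1 / 4 ∨ 3 / 4 ≤ y) : bmp y = 0 := by
  apply ContDiffBump.zero_of_le_dist
  change (1 / 4 : ℝ) ≤ dist y (1 / 2)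
  rw [Real.dist_eq]
  rcases h with h | h
  · rw [abs_of_nonpos (by linarith)]; linarith
  · rw [abs_of_nonneg (by linarith)]; linarith

theorem bmp_one {y : ℝ} (h1 : 3 / 8 ≤ y) (h2 : y ≤ 5 / 8) : bmp y = 1 := by
  apply ContDiffBump.one_of_mem_closedBall
  rw [Metric.mem_closedBall, Real.dist_eq]
  change |y - 1 / 2| ≤ 1 / 8
  rw [abs_le]
  constructor <;> linarith

end Pool.Agent.H521.G
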