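import Pool.Agent.H521.G.Sel5

open MeasureTheory Set Filter Topology
open scoped ComplexConjugate FourierTransform ContDiff

namespace Pool.Agent.H521.G

/-- complex bump -/
noncomputable def psc (y : ℝ) : ℂ := ((bmp y : ℝ) : ℂ)

theorem psc_smooth : ContDiff ℝ ∞ psc := Complex.ofRealCLM.contDiff.comp bmp.contDiff

theorem psc_deriv_smooth : ContDiff ℝ ∞ (deriv psc) := by
  have : ContDiff ℝ (∞ + 1) psc := psc_smooth
  exact (contDiff_succ_iff_deriv.1 this).2.2

theorem psc_deriv2_smooth : ContDiff ℝ ∞ (deriv (deriv psc)) := by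
  have : ContDiff ℝ (∞ + 1) (deriv psc) := psc_deriv_smooth
  exact (contDiff_succ_iff_deriv.1 this).2.2

theorem tsupport_psc : tsupport psc ⊆ Icc (1 / 4) (3 / 4) := by
  apply closure_minimal _ isClosed_Icc
  intro y hy
  rw [Function.mem_support] at hy
  by_contra hc
  apply hy
  unfold psc
  rw [bmp_zero]
  · simp
  · rw [mem_Icc, not_and_or] at hc
    rcases hc with h | h
    · left; linarith
    · right; linarith

theorem psc_zero {y : ℝ} (h : y ∉ Icc (1 / 4 : ℝ) (3 / 4)) : psc y = 0 := by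
  by_contra hc
  exact h (tsupport_psc (subset_tsupport _ hc))

theorem psc_deriv_zero {y : ℝ} (h : y ∉ Icc (1 / 4 : ℝ) (3 / 4)) : deriv psc y = 0 := by
  by_contra hc
  exact h (tsupport_psc (support_deriv_subset hc))

theorem psc_deriv2_zero {y : ℝ} (h : y ∉ Icc (1 / 4 : ℝ) (3 / 4)) : deriv (deriv psc) y = 0 := by
  by_contra hc
  have h1 : tsupport (deriv psc) ⊆ Icc (1 / 4 : ℝ) (3 / 4) := by
    apply closure_minimal _ isClosed_Icc
    intro z hz
    by_contra hc2
    exact hz (psc_deriv_zero hc2)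
  exact h (h1 (support_deriv_subset hc))

/-- the test function of the fourth order -/
noncomputable def tht (y : ℝ) : ℂ := psc y - ((1 / (2 * Real.pi)) ^ 2 : ℝ) * deriv (deriv psc) y

theorem tht_zero {y : ℝ} (h : y ∉ Icc (1 / 4 : ℝ) (3 / 4)) : tht y = 0 := by
  unfold tht
  rw [psc_zero h, psc_deriv2_zero h]
  simp

theorem tht_cont : Continuous tht := by
  unfold tht
  exact psc_smooth.continuous.sub (continuous_const.mul psc_deriv2_smooth.continuous)

theorem tht_int : Integrable fun y => ‖tht y‖ ^ 2 := by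
  apply (tht_cont.norm.pow 2).integrable_of_hasCompactSupport
  apply HasCompactSupport.intro (isCompact_Icc (a := (1 / 4 : ℝ)) (b := 3 / 4))
  intro y hy
  simp only [Pi.pow_apply]
  rw [tht_zero hy]
  simp

/-- shifted and scaled bump -/
noncomputable def pw (δ w v : ℝ) : ℂ := psc ((v - w) / δ)

theorem pw_smooth (δ w : ℝ) : ContDiff ℝ ∞ (pw δ w) := by
  unfold pw
  exact psc_smooth.comp ((contDiff_id.sub contDiff_const).div_const _)

theorem deriv_pw {δ : ℝ} (w v : ℝ) :
    HasDerivAt (pw δ w) ((δ⁻¹ : ℝ) * deriv psc ((v - w) / δ)) v := by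
  have h1 : HasDerivAt psc (deriv psc ((v - w) / δ)) ((v - w) / δ) :=
    (psc_smooth.differentiable (by simp) _).hasDerivAt
  have h2 : HasDerivAt (fun v : ℝ => (v - w) / δ) (1 / δ) v :=
    ((hasDerivAt_id v).sub_const w).div_const δ
  have h3 := h1.scomp v h2
  rw [Complex.real_smul, one_div] at h3
  exact h3

theorem deriv_pw_eq {δ : ℝ} (w : ℝ) :
    deriv (pw δ w) = fun v => ((δ⁻¹ : ℝ) : ℂ) * deriv psc ((v - w) / δ) := by
  ext v
  exact (deriv_pw w v).deriv

theorem deriv2_pw_eq {δ : ℝ} (w : ℝ) :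
    deriv (deriv (pw δ w)) = fun v => (((δ⁻¹) ^ 2 : ℝ) : ℂ) * deriv (deriv psc) ((v - w) / δ) := by
  rw [deriv_pw_eq]
  ext v
  have h1 : HasDerivAt (deriv psc) (deriv (deriv psc) ((v - w) / δ)) ((v - w) / δ) :=
    (psc_deriv_smooth.differentiable (by simp) _).hasDerivAt
  have h2 : HasDerivAt (fun v : ℝ => (v - w) / δ) (1 / δ) v :=
    ((hasDerivAt_id v).sub_const w).div_const δ
  have h3 := (h1.scomp v h2).const_mul ((δ⁻¹ : ℝ) : ℂ)
  rw [Complex.real_smul, one_div] at h3
  have h4 := h3.deriv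
  refine h4.trans ?_
  push_cast
  ring

/-- sum of bumps -/
noncomputable def kT (δ : ℝ) (T : Finset ℝ) (v : ℝ) : ℂ := ∑ w ∈ T, pw δ w v

theorem kT_smooth (δ : ℝ) (T : Finset ℝ) : ContDiff ℝ ∞ (kT δ T) := by
  unfold kT
  exact ContDiff.sum fun w _ => pw_smooth δ w

theorem pw_compact {δ : ℝ} (hδ : 0 < δ) (w : ℝ) : HasCompactSupport (pw δ w) := by
  apply HasCompactSupport.intro (isCompact_Icc (a := w) (b := w + δ))
  intro v hv
  unfold pw
  apply psc_zero
  intro h
  apply hv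
  obtain ⟨h1, h2⟩ := h
  rw [le_div_iff₀ hδ] at h1
  rw [div_le_iff₀ hδ] at h2
  constructor <;> nlinarith

theorem kT_compact {δ : ℝ} (hδ : 0 < δ) (T : Finset ℝ) : HasCompactSupport (kT δ T) := by
  unfold kT
  classical
  induction T using Finset.induction_on with
  | empty =>
    simp only [Finset.sum_empty]
    exact HasCompactSupport.zero
  | insert w T hw ih =>
    simp only [Finset.sum_insert hw]
    exact (pw_compact hδ w).add ih

theorem deriv_kT (δ : ℝ) (T : Finset ℝ) :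
    deriv (kT δ T) = fun v => ∑ w ∈ T, deriv (pw δ w) v := by
  ext v
  unfold kT
  rw [deriv_fun_sum]
  intro w _
  exact (pw_smooth δ w).differentiable (by simp) v

theorem deriv2_kT (δ : ℝ) (T : Finset ℝ) :
    deriv (deriv (kT δ T)) = fun v => ∑ w ∈ T, deriv (deriv (pw δ w)) v := by
  rw [deriv_kT]
  ext v
  rw [deriv_fun_sum]
  intro w _
  have : ContDiff ℝ ∞ (deriv (pw δ w)) := by
    have : ContDiff ℝ (∞ + 1) (pw δ w) := pw_smooth δ w
    exact (contDiff_succ_iff_deriv.1 this).2.2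
  exact this.differentiable (by simp) v

theorem kT_sq {δ : ℝ} (hδ : 0 < δ) {T : Finset ℝ}
    (hT : ∀ w ∈ T, ∀ w' ∈ T, w < w' → w + δ ≤ w') :
    ∫ v, ‖kT δ T v - (δ / (2 * Real.pi)) ^ 2 * deriv (deriv (kT δ T)) v‖ ^ 2 =
      T.card * (δ * ∫ y, ‖tht y‖ ^ 2) := by
  have e1 : ∀ v, kT δ T v - (δ / (2 * Real.pi)) ^ 2 * deriv (deriv (kT δ T)) v =
      ∑ w ∈ T, tht ((v - w) / δ) := by
    intro v
    rw [deriv2_kT]
    unfold kT
    simp only
    rw [Finset.mul_sum, ← Finset.sum_sub_distrib]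
    apply Finset.sum_congr rfl
    intro w _
    rw [deriv2_pw_eq]
    unfold tht pw
    simp only
    push_cast
    have : (δ : ℂ) ≠ 0 := by exact_mod_cast hδ.ne'
    have hpi : (Real.pi : ℂ) ≠ 0 := by exact_mod_cast Real.pi_pos.ne'
    field_simp
  have e2 : ∀ v, ‖kT δ T v - (δ / (2 * Real.pi)) ^ 2 * deriv (deriv (kT δ T)) v‖ ^ 2 =
      ∑ w ∈ T, ‖tht ((v - w) / δ)‖ ^ 2 := by
    intro v
    rw [e1]
    by_cases h : ∃ w ∈ T, tht ((v - w) / δ) ≠ 0
    · obtain ⟨w, hw, hne⟩ := h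
      have hother : ∀ w' ∈ T, w' ≠ w → tht ((v - w') / δ) = 0 := by
        intro w' hw' hne'
        by_contra hc
        have a1 : (v - w) / δ ∈ Icc (1 / 4 : ℝ) (3 / 4) := by
          by_contra h; exact hne (tht_zero h)
        have a2 : (v - w') / δ ∈ Icc (1 / 4 : ℝ) (3 / 4) := by
          by_contra h; exact hc (tht_zero h)
        obtain ⟨b1, b2⟩ := a1
        obtain ⟨b3, b4⟩ := a2
        rw [le_div_iff₀ hδ] at b1 b3
        rw [div_le_iff₀ hδ] at b2 b4
        rcases lt_or_gt_of_ne hne' with h | h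
        · have := hT w' hw' w hw h
          linarith
        · have := hT w hw w' hw' h
          linarith
      rw [Finset.sum_eq_single_of_mem w hw hother,
        Finset.sum_eq_single_of_mem (f := fun w => ‖tht ((v - w) / δ)‖ ^ 2) w hw
          (fun w' hw' hne' => by rw [hother w' hw' hne']; simp)]
    · push Not at h
      rw [Finset.sum_eq_zero h,
        Finset.sum_eq_zero (f := fun w => ‖tht ((v - w) / δ)‖ ^ 2)
          (fun w hw => by rw [h w hw]; simp)]
      simp
  simp_rw [e2]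
  have hi : ∀ w, Integrable fun v => ‖tht ((v - w) / δ)‖ ^ 2 := by
    intro w
    have h1 : Integrable fun v => ‖tht (v / δ)‖ ^ 2 := tht_int.comp_div hδ.ne'
    exact h1.comp_sub_right w
  rw [integral_finsetSum _ fun w _ => hi w]
  have e3 : ∀ w ∈ T, ∫ v, ‖tht ((v - w) / δ)‖ ^ 2 = δ * ∫ y, ‖tht y‖ ^ 2 := by
    intro w _
    rw [integral_sub_right_eq_self (fun v => ‖tht (v / δ)‖ ^ 2) w,
      Measure.integral_comp_div (fun y => ‖tht y‖ ^ 2) δ, abs_of_pos hδ, smul_eq_mul]
  rw [Finset.sum_congr rfl e3, Finset.sum_const, nsmul_eq_mul]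

end Pool.Agent.H521.G
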