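import Pool.Agent.H521.G.Sel6

open MeasureTheory Set Filter Topology
open scoped ComplexConjugate FourierTransform ContDiff

namespace Pool.Agent.H521.G

/-- The contribution of one prime free window. -/
theorem window_int {Z : Multiset ℂ} {x₀ : ℝ} (hR : RDens (fZ Z) x₀) {p : ℕ → ℝ}
    {σ δ w : ℝ} (hσ : σ < 1) (hδ : 0 < δ) (hδ1 : δ ≤ 1) (hw : Real.log x₀ ≤ w) (hw0 : 0 < w)
    (hfree : ∀ k, p k ≤ Real.exp w ∨ Real.exp (w + δ) ≤ p k) :
    ∃ I : ℝ, δ / 4 * Real.exp ((1 - σ) * w) / (2 * (w + 1)) ≤ I ∧
      ∫ v, ((σ : ℂ) * pw δ w v - deriv (pw δ w) v) * aer Z x₀ p σ v = -(I : ℂ) := by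
  have hx3 := hR.dens.hx₀
  have hxw : x₀ ≤ Real.exp w := by
    rw [← Real.log_le_iff_le_exp (by linarith)]; exact hw
  set f := fZ Z with hf
  -- real functions
  set ψ : ℝ → ℝ := fun v => bmp ((v - w) / δ) with hψ
  have hψd : ∀ v, HasDerivAt ψ (deriv ψ v) v := fun v => by
    have h1 : Differentiable ℝ ψ := by
      have : ContDiff ℝ 1 ψ := bmp.contDiff.comp ((contDiff_id.sub contDiff_const).div_const _)
      exact this.differentiable (by simp)
    exact (h1 v).hasDerivAt
  have hψc : Continuous (deriv ψ) := by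
    have : ContDiff ℝ 1 ψ := bmp.contDiff.comp ((contDiff_id.sub contDiff_const).div_const _)
    exact this.continuous_deriv (by simp)
  have hψ0 : ∀ v, v ∉ Ioo w (w + δ) → ψ v = 0 := by
    intro v hv
    rw [hψ]
    simp only
    apply bmp_zero
    rw [mem_Ioo, not_and_or, not_lt, not_lt] at hv
    rcases hv with h | h
    · left
      rw [div_le_iff₀ hδ]
      linarith
    · right
      rw [le_div_iff₀ hδ]
      linarith
  have hψpw : ∀ v, pw δ w v = (ψ v : ℂ) := fun v => rfl
  have hψpwd : ∀ v, deriv (pw δ w) v = ((deriv ψ v : ℝ) : ℂ) := fun v => by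
    have h1 : HasDerivAt (pw δ w) (((deriv ψ v : ℝ) : ℂ)) v := (hψd v).ofReal_comp
    exact h1.deriv
  have hψd0 : ∀ v, v ∉ Icc w (w + δ) → deriv ψ v = 0 := by
    intro v hv
    have hev : ψ =ᶠ[𝓝 v] fun _ => 0 := by
      have : (Icc w (w + δ))ᶜ ∈ 𝓝 v := isClosed_Icc.isOpen_compl.mem_nhds hv
      filter_upwards [this] with z hz
      exact hψ0 z fun h => hz ⟨h.1.le, h.2.le⟩
    rw [hev.deriv_eq]
    simp
  set N : ℝ := (countPr p (Real.exp w) : ℝ) with hN
  have herr : ∀ v ∈ Ico w (w + δ), Err Z x₀ p (Real.exp v) = N - Fp f x₀ (Real.exp v) := by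
    intro v hv
    unfold Err
    rw [if_pos (hxw.trans (Real.exp_le_exp.2 hv.1))]
    have : {j : ℕ | p j ≤ Real.exp v} = {j : ℕ | p j ≤ Real.exp w} := by
      ext j
      simp only [mem_ofPred_eq]
      constructor
      · intro h
        rcases hfree j with h2 | h2
        · exact h2
        · have := Real.exp_lt_exp.2 hv.2
          linarith
      · intro h
        exact h.trans (Real.exp_le_exp.2 hv.1)
    have e : countPr p (Real.exp v) = countPr p (Real.exp w) := by
      unfold countPr
      rw [this]
    rw [e]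
  set u : ℝ → ℝ := fun v => ψ v * Real.exp (-(σ * v)) with hu
  set u' : ℝ → ℝ := fun v => deriv ψ v * Real.exp (-(σ * v)) +
    ψ v * (Real.exp (-(σ * v)) * (-σ)) with hu'
  have hud : ∀ v, HasDerivAt u (u' v) v := by
    intro v
    have h1 : HasDerivAt (fun v : ℝ => Real.exp (-(σ * v))) (Real.exp (-(σ * v)) * (-σ)) v := by
      have h2 : HasDerivAt (fun v : ℝ => -(σ * v)) (-σ) v := by
        have h3 : HasDerivAt (fun v : ℝ => σ * v) σ v := by
          simpa using (hasDerivAt_id v).const_mul σ
        exact h3.fun_neg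
      exact h2.exp
    exact (hψd v).mul h1
  set Vf : ℝ → ℝ := fun v => N - Fp f x₀ (Real.exp v) with hVf
  set V' : ℝ → ℝ := fun v => -(f (Real.exp v) * Real.exp v) with hV'
  have hVd : ∀ v ∈ Ioo w (w + δ), HasDerivAt Vf (V' v) v := by
    intro v hv
    have hxv : x₀ < Real.exp v := lt_of_le_of_lt hxw (Real.exp_lt_exp.2 hv.1)
    have h1 : HasDerivAt (Fp f x₀) (f (Real.exp v)) (Real.exp v) := by
      unfold Fp
      apply intervalIntegral.integral_hasDerivAt_right (hR.dens.ii le_rfl hxv.le)
      · exact hR.dens.meas.stronglyMeasurable.stronglyMeasurableAtFilter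
      · exact hR.dens.cont.continuousAt (Ici_mem_nhds hxv)
    have h2 := (h1.comp v (Real.hasDerivAt_exp v)).const_sub N
    exact h2
  have hww : w ≤ w + δ := by linarith
  have hVc : ContinuousOn Vf (uIcc w (w + δ)) := by
    rw [uIcc_of_le hww]
    apply continuousOn_const.sub
    apply (hR.F_contOn (Real.exp (w + δ)) (hxw.trans (Real.exp_le_exp.2 hww))).comp
      Real.continuous_exp.continuousOn
    intro v hv
    exact ⟨hxw.trans (Real.exp_le_exp.2 hv.1), Real.exp_le_exp.2 hv.2⟩
  have hfc : ContinuousOn (fun v => f (Real.exp v)) (uIcc w (w + δ)) := by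
    rw [uIcc_of_le hww]
    apply hR.dens.cont.comp Real.continuous_exp.continuousOn
    intro v hv
    exact hxw.trans (Real.exp_le_exp.2 hv.1)
  have hV'i : IntervalIntegrable V' volume w (w + δ) :=
    (hfc.mul Real.continuous_exp.continuousOn).neg.intervalIntegrable
  have hψcont : Continuous ψ := by
    rw [continuous_iff_continuousAt]
    exact fun v => (hψd v).continuousAt
  have hexpc : Continuous fun v : ℝ => Real.exp (-(σ * v)) := by fun_prop
  have huc : Continuous u := hψcont.mul hexpc
  have hu'c : Continuous u' := (hψc.mul hexpc).add (hψcont.mul (hexpc.mul continuous_const))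
  have hparts := intervalIntegral.integral_mul_deriv_eq_deriv_mul_of_hasDerivAt
    (u := u) (v := Vf) (u' := u') (v' := V') (a := w) (b := w + δ) huc.continuousOn hVc
    (fun v hv => hud v) (fun v hv => hVd v (by
      rwa [min_eq_left hww, max_eq_right hww] at hv)) (hu'c.intervalIntegrable _ _) hV'i
  have hua : u w = 0 := by
    rw [hu]; simp only; rw [hψ0 w (by simp)]; simp
  have hub : u (w + δ) = 0 := by
    rw [hu]; simp only; rw [hψ0 (w + δ) (by simp)]; simp
  rw [hua, hub, zero_mul, zero_mul, sub_zero, zero_sub] at hparts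
  -- the integral
  refine ⟨∫ v in w..(w + δ), ψ v * (Real.exp ((1 - σ) * v) * f (Real.exp v)), ?_, ?_⟩
  · -- lower bound
    have hci : ContinuousOn (fun v => ψ v * (Real.exp ((1 - σ) * v) * f (Real.exp v)))
        (uIcc w (w + δ)) :=
      hψcont.continuousOn.mul ((by fun_prop : Continuous fun v : ℝ =>
        Real.exp ((1 - σ) * v)).continuousOn.mul hfc)
    have hlow : ∀ v ∈ Icc w (w + δ), 0 ≤ ψ v * (Real.exp ((1 - σ) * v) * f (Real.exp v)) := by
      intro v hv
      have h1 := (hR.pos (hxw.trans (Real.exp_le_exp.2 hv.1))).le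
      have h2 : 0 ≤ ψ v := bmp.nonneg
      have h3 := (Real.exp_pos ((1 - σ) * v)).le
      exact mul_nonneg h2 (mul_nonneg h3 h1)
    set a1 : ℝ := w + δ * (3 / 8) with ha1
    set a2 : ℝ := w + δ * (5 / 8) with ha2
    have hsub : ∫ v in a1..a2, ψ v * (Real.exp ((1 - σ) * v) * f (Real.exp v)) ≤
        ∫ v in w..(w + δ), ψ v * (Real.exp ((1 - σ) * v) * f (Real.exp v)) := by
      apply intervalIntegral.integral_mono_interval (by rw [ha1]; linarith)
        (by rw [ha1, ha2]; linarith) (by rw [ha2]; linarith)
      · filter_upwards [ae_restrict_mem measurableSet_Ioc] with v hv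
        exact hlow v ⟨hv.1.le, hv.2⟩
      · exact hci.intervalIntegrable
    refine le_trans ?_ hsub
    have h1 := intervalIntegral.integral_mono_on (a := a1) (b := a2)
      (by rw [ha1, ha2]; linarith)
      (intervalIntegrable_const (μ := volume) (c := Real.exp ((1 - σ) * w) / (2 * (w + 1))))
      (hci.mono (by
        rw [uIcc_of_le hww, uIcc_of_le (by rw [ha1, ha2]; linarith)]
        apply Icc_subset_Icc <;> [rw [ha1]; rw [ha2]] <;> linarith)).intervalIntegrable
      (fun v hv => by
        have hvw : w ≤ v := by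
          have := hv.1
          rw [ha1] at this
          nlinarith
        have hvd : v ≤ w + δ := by
          have := hv.2
          rw [ha2] at this
          nlinarith
        have hxv : x₀ ≤ Real.exp v := hxw.trans (Real.exp_le_exp.2 hvw)
        have hψ1 : ψ v = 1 := by
          apply bmp_one
          · rw [le_div_iff₀ hδ]
            have := hv.1
            rw [ha1] at this
            linarith
          · rw [div_le_iff₀ hδ]
            have := hv.2
            rw [ha2] at this
            linarith
        have h2 := hR.low _ hxv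
        rw [Real.log_exp] at h2
        have h3 : 1 / (2 * (w + 1)) ≤ f (Real.exp v) := by
          rw [div_le_iff₀ (by linarith)]
          have h4 := (hR.pos hxv).le
          have h5 : f (Real.exp v) * v ≤ f (Real.exp v) * (w + 1) :=
            mul_le_mul_of_nonneg_left (by linarith) h4
          have h6 : f (Real.exp v) * v = fZ Z (Real.exp v) * v := rfl
          linarith
        have h4 : Real.exp ((1 - σ) * w) ≤ Real.exp ((1 - σ) * v) := by
          apply Real.exp_le_exp.2
          apply mul_le_mul_of_nonneg_left hvw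
          linarith
        rw [hψ1, one_mul, div_eq_mul_one_div]
        exact mul_le_mul h4 h3 (by positivity) (Real.exp_pos _).le)
    rw [intervalIntegral.integral_const, smul_eq_mul] at h1
    refine le_trans (le_of_eq ?_) h1
    rw [ha1, ha2]
    ring
  · have e1 : ∀ v, ((σ : ℂ) * pw δ w v - deriv (pw δ w) v) * aer Z x₀ p σ v =
        (((σ * ψ v - deriv ψ v) * (Real.exp (-(σ * v)) * Err Z x₀ p (Real.exp v)) : ℝ) : ℂ) := by
      intro v
      rw [hψpw, hψpwd]
      unfold aer
      push_cast
      ring
    simp_rw [e1]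
    rw [integral_complex_ofReal, ← Complex.ofReal_neg]
    congr 1
    have hzero : ∀ v, v ∉ Icc w (w + δ) →
        (σ * ψ v - deriv ψ v) * (Real.exp (-(σ * v)) * Err Z x₀ p (Real.exp v)) = 0 := by
      intro v hv
      rw [hψ0 v fun h => hv ⟨h.1.le, h.2.le⟩, hψd0 v hv]
      ring
    rw [← setIntegral_eq_integral_of_forall_compl_eq_zero hzero,
      integral_Icc_eq_integral_Ioc, ← intervalIntegral.integral_of_le hww]
    have e2 : ∫ v in w..(w + δ), (σ * ψ v - deriv ψ v) *
        (Real.exp (-(σ * v)) * Err Z x₀ p (Real.exp v)) = ∫ v in w..(w + δ), -(u' v * Vf v) := by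
      rw [intervalIntegral.integral_of_le hww, intervalIntegral.integral_of_le hww,
        integral_Ioc_eq_integral_Ioo, integral_Ioc_eq_integral_Ioo]
      apply setIntegral_congr_fun measurableSet_Ioo
      intro v hv
      simp only
      rw [herr v ⟨hv.1.le, hv.2⟩, hu', hVf]
      ring
    rw [e2, intervalIntegral.integral_neg, ← hparts, ← intervalIntegral.integral_neg]
    apply intervalIntegral.integral_congr
    intro v _
    simp only
    rw [hu, hV']
    simp only
    have e3 : Real.exp ((1 - σ) * v) = Real.exp (-(σ * v)) * Real.exp v := by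
      rw [← Real.exp_add]
      congr 1
      ring
    rw [e3]
    ring

end Pool.Agent.H521.G
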