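import Pool.Agent.H521.G.Sel8

open MeasureTheory Set Filter Topology
open scoped ComplexConjugate FourierTransform ContDiff

namespace Pool.Agent.H521.G

namespace Bp

/-- the support of a bump is contained in `[α, 1 - α]` -/
theorem zero (b : ContDiffBump (1 / 2 : ℝ)) {y : ℝ} (h : y ≤ 1 / 2 - b.rOut ∨ 1 / 2 + b.rOut ≤ y) :
    b y = 0 := by
  apply ContDiffBump.zero_of_le_dist
  rw [Real.dist_eq]
  rcases h with h | h
  · rw [abs_of_nonpos (by linarith [b.rOut_pos])]; linarith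
  · rw [abs_of_nonneg (by linarith [b.rOut_pos])]; linarith

theorem one (b : ContDiffBump (1 / 2 : ℝ)) {y : ℝ} (h1 : 1 / 2 - b.rIn ≤ y)
    (h2 : y ≤ 1 / 2 + b.rIn) : b y = 1 := by
  apply ContDiffBump.one_of_mem_closedBall
  rw [Metric.mem_closedBall, Real.dist_eq, abs_le]
  constructor <;> linarith

/-- complex bump -/
noncomputable def psc (b : ContDiffBump (1 / 2 : ℝ)) (y : ℝ) : ℂ := ((b y : ℝ) : ℂ)

theorem psc_smooth (b : ContDiffBump (1 / 2 : ℝ)) : ContDiff ℝ ∞ (psc b) :=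
  Complex.ofRealCLM.contDiff.comp b.contDiff

theorem psc_deriv_smooth (b : ContDiffBump (1 / 2 : ℝ)) : ContDiff ℝ ∞ (deriv (psc b)) := by
  have : ContDiff ℝ (∞ + 1) (psc b) := psc_smooth b
  exact (contDiff_succ_iff_deriv.1 this).2.2

theorem psc_deriv2_smooth (b : ContDiffBump (1 / 2 : ℝ)) :
    ContDiff ℝ ∞ (deriv (deriv (psc b))) := by
  have : ContDiff ℝ (∞ + 1) (deriv (psc b)) := psc_deriv_smooth b
  exact (contDiff_succ_iff_deriv.1 this).2.2

theorem tsupport_psc (b : ContDiffBump (1 / 2 : ℝ)) :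
    tsupport (psc b) ⊆ Icc (1 / 2 - b.rOut) (1 / 2 + b.rOut) := by
  apply closure_minimal _ isClosed_Icc
  intro y hy
  rw [Function.mem_support] at hy
  by_contra hc
  apply hy
  unfold psc
  rw [zero b]
  · simp
  · rw [mem_Icc, not_and_or] at hc
    rcases hc with h | h
    · left; linarith
    · right; linarith

theorem psc_zero (b : ContDiffBump (1 / 2 : ℝ)) {y : ℝ}
    (h : y ∉ Icc (1 / 2 - b.rOut) (1 / 2 + b.rOut)) : psc b y = 0 := by
  by_contra hc
  exact h (tsupport_psc b (subset_tsupport _ hc))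

theorem psc_deriv_zero (b : ContDiffBump (1 / 2 : ℝ)) {y : ℝ}
    (h : y ∉ Icc (1 / 2 - b.rOut) (1 / 2 + b.rOut)) : deriv (psc b) y = 0 := by
  by_contra hc
  exact h (tsupport_psc b (support_deriv_subset hc))

theorem psc_deriv2_zero (b : ContDiffBump (1 / 2 : ℝ)) {y : ℝ}
    (h : y ∉ Icc (1 / 2 - b.rOut) (1 / 2 + b.rOut)) : deriv (deriv (psc b)) y = 0 := by
  by_contra hc
  have h1 : tsupport (deriv (psc b)) ⊆ Icc (1 / 2 - b.rOut) (1 / 2 + b.rOut) := by
    apply closure_minimal _ isClosed_Icc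
    intro z hz
    by_contra hc2
    exact hz (psc_deriv_zero b hc2)
  exact h (h1 (support_deriv_subset hc))

/-- the test function of the fourth order -/
noncomputable def tht (b : ContDiffBump (1 / 2 : ℝ)) (r y : ℝ) : ℂ :=
  psc b y - ((r / (2 * Real.pi)) ^ 2 : ℝ) * deriv (deriv (psc b)) y

theorem tht_zero (b : ContDiffBump (1 / 2 : ℝ)) {r y : ℝ}
    (h : y ∉ Icc (1 / 2 - b.rOut) (1 / 2 + b.rOut)) : tht b r y = 0 := by
  unfold tht
  rw [psc_zero b h, psc_deriv2_zero b h]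
  simp

/-- the majorant -/
noncomputable def maj (b : ContDiffBump (1 / 2 : ℝ)) (A y : ℝ) : ℝ :=
  2 * ‖psc b y‖ ^ 2 + 2 * ((A / (2 * Real.pi)) ^ 2 * ‖deriv (deriv (psc b)) y‖) ^ 2

theorem maj_nonneg (b : ContDiffBump (1 / 2 : ℝ)) (A y : ℝ) : 0 ≤ maj b A y := by
  unfold maj
  positivity

theorem tht_le (b : ContDiffBump (1 / 2 : ℝ)) {r A y : ℝ} (hr : 0 ≤ r) (hrA : r ≤ A) :
    ‖tht b r y‖ ^ 2 ≤ maj b A y := by
  unfold tht maj
  have h1 := norm_sub_le (psc b y) (((r / (2 * Real.pi)) ^ 2 : ℝ) * deriv (deriv (psc b)) y)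
  have h2 : ‖(((r / (2 * Real.pi)) ^ 2 : ℝ) : ℂ) * deriv (deriv (psc b)) y‖ ≤
      (A / (2 * Real.pi)) ^ 2 * ‖deriv (deriv (psc b)) y‖ := by
    rw [norm_mul, Complex.norm_real, Real.norm_eq_abs, abs_of_nonneg (by positivity)]
    apply mul_le_mul_of_nonneg_right _ (norm_nonneg _)
    apply pow_le_pow_left₀ (by positivity)
    exact div_le_div_of_nonneg_right hrA (by positivity)
  have h3 : ‖psc b y - ((r / (2 * Real.pi)) ^ 2 : ℝ) * deriv (deriv (psc b)) y‖ ≤
      ‖psc b y‖ + (A / (2 * Real.pi)) ^ 2 * ‖deriv (deriv (psc b)) y‖ := by linarith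
  have h4 := pow_le_pow_left₀ (norm_nonneg _) h3 2
  refine h4.trans ?_
  nlinarith [sq_nonneg (‖psc b y‖ - (A / (2 * Real.pi)) ^ 2 * ‖deriv (deriv (psc b)) y‖)]

theorem maj_int (b : ContDiffBump (1 / 2 : ℝ)) (A : ℝ) : Integrable (maj b A) := by
  have hc : Continuous (maj b A) := by
    unfold maj
    exact (continuous_const.mul ((psc_smooth b).continuous.norm.pow 2)).add
      (continuous_const.mul ((continuous_const.mul (psc_deriv2_smooth b).continuous.norm).pow 2))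
  apply hc.integrable_of_hasCompactSupport
  apply HasCompactSupport.intro (isCompact_Icc (a := 1 / 2 - b.rOut) (b := 1 / 2 + b.rOut))
  intro y hy
  unfold maj
  rw [psc_zero b hy, psc_deriv2_zero b hy]
  simp

/-- shifted and scaled bump -/
noncomputable def pw (b : ContDiffBump (1 / 2 : ℝ)) (δ w v : ℝ) : ℂ := psc b ((v - w) / δ)

theorem pw_smooth (b : ContDiffBump (1 / 2 : ℝ)) (δ w : ℝ) : ContDiff ℝ ∞ (pw b δ w) := by
  unfold pw
  exact (psc_smooth b).comp ((contDiff_id.sub contDiff_const).div_const _)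

theorem deriv_pw (b : ContDiffBump (1 / 2 : ℝ)) {δ : ℝ} (w v : ℝ) :
    HasDerivAt (pw b δ w) ((δ⁻¹ : ℝ) * deriv (psc b) ((v - w) / δ)) v := by
  have h1 : HasDerivAt (psc b) (deriv (psc b) ((v - w) / δ)) ((v - w) / δ) :=
    ((psc_smooth b).differentiable (by simp) _).hasDerivAt
  have h2 : HasDerivAt (fun v : ℝ => (v - w) / δ) (1 / δ) v :=
    ((hasDerivAt_id v).sub_const w).div_const δ
  have h3 := h1.scomp v h2
  rw [Complex.real_smul, one_div] at h3
  exact h3

theorem deriv_pw_eq (b : ContDiffBump (1 / 2 : ℝ)) {δ : ℝ} (w : ℝ) :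
    deriv (pw b δ w) = fun v => ((δ⁻¹ : ℝ) : ℂ) * deriv (psc b) ((v - w) / δ) := by
  ext v
  exact (deriv_pw b w v).deriv

theorem deriv2_pw_eq (b : ContDiffBump (1 / 2 : ℝ)) {δ : ℝ} (w : ℝ) :
    deriv (deriv (pw b δ w)) =
      fun v => (((δ⁻¹) ^ 2 : ℝ) : ℂ) * deriv (deriv (psc b)) ((v - w) / δ) := by
  rw [deriv_pw_eq]
  ext v
  have h1 : HasDerivAt (deriv (psc b)) (deriv (deriv (psc b)) ((v - w) / δ)) ((v - w) / δ) :=
    ((psc_deriv_smooth b).differentiable (by simp) _).hasDerivAt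
  have h2 : HasDerivAt (fun v : ℝ => (v - w) / δ) (1 / δ) v :=
    ((hasDerivAt_id v).sub_const w).div_const δ
  have h3 := (h1.scomp v h2).const_mul ((δ⁻¹ : ℝ) : ℂ)
  rw [Complex.real_smul, one_div] at h3
  have h4 := h3.deriv
  refine h4.trans ?_
  push_cast
  ring

/-- sum of bumps -/
noncomputable def kT (b : ContDiffBump (1 / 2 : ℝ)) (T : Finset (ℝ × ℝ)) (v : ℝ) : ℂ :=
  ∑ q ∈ T, pw b q.2 q.1 v

theorem kT_smooth (b : ContDiffBump (1 / 2 : ℝ)) (T : Finset (ℝ × ℝ)) :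
    ContDiff ℝ ∞ (kT b T) := by
  unfold kT
  exact ContDiff.sum fun q _ => pw_smooth b q.2 q.1

theorem pw_compact (b : ContDiffBump (1 / 2 : ℝ)) (hb : b.rOut < 1 / 2) {δ : ℝ} (hδ : 0 < δ)
    (w : ℝ) : HasCompactSupport (pw b δ w) := by
  apply HasCompactSupport.intro (isCompact_Icc (a := w) (b := w + δ))
  intro v hv
  unfold pw
  apply psc_zero
  intro h
  apply hv
  obtain ⟨h1, h2⟩ := h
  rw [le_div_iff₀ hδ] at h1
  rw [div_le_iff₀ hδ] at h2
  constructor <;> nlinarith [mul_pos hδ (sub_pos.2 hb)]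

theorem kT_compact (b : ContDiffBump (1 / 2 : ℝ)) (hb : b.rOut < 1 / 2)
    (T : Finset (ℝ × ℝ)) (hT : ∀ q ∈ T, 0 < q.2) : HasCompactSupport (kT b T) := by
  unfold kT
  classical
  induction T using Finset.induction_on with
  | empty =>
    simp only [Finset.sum_empty]
    exact HasCompactSupport.zero
  | insert w T hw ih =>
    simp only [Finset.sum_insert hw]
    exact (pw_compact b hb (hT w (Finset.mem_insert_self _ _)) w.1).add
      (ih fun q hq => hT q (Finset.mem_insert_of_mem hq))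

theorem deriv_kT (b : ContDiffBump (1 / 2 : ℝ)) (T : Finset (ℝ × ℝ)) :
    deriv (kT b T) = fun v => ∑ q ∈ T, deriv (pw b q.2 q.1) v := by
  ext v
  unfold kT
  rw [deriv_fun_sum]
  intro q _
  exact (pw_smooth b q.2 q.1).differentiable (by simp) v

theorem deriv2_kT (b : ContDiffBump (1 / 2 : ℝ)) (T : Finset (ℝ × ℝ)) :
    deriv (deriv (kT b T)) = fun v => ∑ q ∈ T, deriv (deriv (pw b q.2 q.1)) v := by
  rw [deriv_kT]
  ext v
  rw [deriv_fun_sum]
  intro q _
  have : ContDiff ℝ ∞ (deriv (pw b q.2 q.1)) := by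
    have : ContDiff ℝ (∞ + 1) (pw b q.2 q.1) := pw_smooth b q.2 q.1
    exact (contDiff_succ_iff_deriv.1 this).2.2
  exact this.differentiable (by simp) v

/-- families of disjoint windows of comparable lengths -/
structure Win (δ A : ℝ) (T : Finset (ℝ × ℝ)) : Prop where
  len : ∀ q ∈ T, q.2 ≤ δ ∧ δ ≤ A * q.2
  sep : ∀ q ∈ T, ∀ q' ∈ T, q ≠ q' → q.1 + q.2 ≤ q'.1 ∨ q'.1 + q'.2 ≤ q.1

theorem kT_sq (b : ContDiffBump (1 / 2 : ℝ)) (hb : b.rOut < 1 / 2) {δ A : ℝ} (hδ : 0 < δ)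
    (hA : 0 < A) {T : Finset (ℝ × ℝ)} (hT : Win δ A T) :
    ∫ v, ‖kT b T v - (δ / (2 * Real.pi)) ^ 2 * deriv (deriv (kT b T)) v‖ ^ 2 ≤
      T.card * (δ * ∫ y, maj b A y) := by
  have hpos : ∀ q ∈ T, 0 < q.2 := by
    intro q hq
    have h1 := (hT.len q hq).2
    by_contra hc
    push Not at hc
    nlinarith
  have e1 : ∀ v, kT b T v - (δ / (2 * Real.pi)) ^ 2 * deriv (deriv (kT b T)) v =
      ∑ q ∈ T, tht b (δ / q.2) ((v - q.1) / q.2) := by
    intro v
    rw [deriv2_kT]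
    unfold kT
    simp only
    rw [Finset.mul_sum, ← Finset.sum_sub_distrib]
    apply Finset.sum_congr rfl
    intro q hq
    rw [deriv2_pw_eq]
    unfold tht pw
    simp only
    push_cast
    have : (q.2 : ℂ) ≠ 0 := by exact_mod_cast (hpos q hq).ne'
    have hpi : (Real.pi : ℂ) ≠ 0 := by exact_mod_cast Real.pi_pos.ne'
    field_simp
  have e2 : ∀ v, ‖kT b T v - (δ / (2 * Real.pi)) ^ 2 * deriv (deriv (kT b T)) v‖ ^ 2 ≤
      ∑ q ∈ T, maj b A ((v - q.1) / q.2) := by
    intro v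
    rw [e1]
    have hm : ∀ q ∈ T, ‖tht b (δ / q.2) ((v - q.1) / q.2)‖ ^ 2 ≤ maj b A ((v - q.1) / q.2) := by
      intro q hq
      have h1 := hpos q hq
      apply tht_le b (by positivity)
      rw [div_le_iff₀ h1]
      exact (hT.len q hq).2
    by_cases h : ∃ q ∈ T, tht b (δ / q.2) ((v - q.1) / q.2) ≠ 0
    · obtain ⟨q, hq, hne⟩ := h
      have hother : ∀ q' ∈ T, q' ≠ q → tht b (δ / q'.2) ((v - q'.1) / q'.2) = 0 := by
        intro q' hq' hne'
        by_contra hc
        have a1 : (v - q.1) / q.2 ∈ Icc (1 / 2 - b.rOut) (1 / 2 + b.rOut) := by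
          by_contra h; exact hne (tht_zero b h)
        have a2 : (v - q'.1) / q'.2 ∈ Icc (1 / 2 - b.rOut) (1 / 2 + b.rOut) := by
          by_contra h; exact hc (tht_zero b h)
        obtain ⟨b1, b2⟩ := a1
        obtain ⟨b3, b4⟩ := a2
        have p1 := hpos q hq
        have p2 := hpos q' hq'
        rw [le_div_iff₀ p1] at b1
        rw [le_div_iff₀ p2] at b3
        rw [div_le_iff₀ p1] at b2
        rw [div_le_iff₀ p2] at b4
        have c1 : 0 < (1 / 2 - b.rOut) * q.2 := mul_pos (by linarith) p1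
        have c2 : 0 < (1 / 2 - b.rOut) * q'.2 := mul_pos (by linarith) p2
        rcases hT.sep q hq q' hq' (Ne.symm hne') with h | h
        · nlinarith
        · nlinarith
      rw [Finset.sum_eq_single_of_mem q hq hother]
      refine (hm q hq).trans ?_
      exact Finset.single_le_sum (f := fun q : ℝ × ℝ => maj b A ((v - q.1) / q.2))
        (fun q _ => maj_nonneg b A _) hq
    · push Not at h
      rw [Finset.sum_eq_zero h]
      simp only [norm_zero, ne_eq, OfNat.ofNat_ne_zero, not_false_eq_true, zero_pow]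
      exact Finset.sum_nonneg fun q _ => maj_nonneg b A _
  have hi : ∀ q ∈ T, Integrable fun v => maj b A ((v - q.1) / q.2) := by
    intro q hq
    have h1 : Integrable fun v => maj b A (v / q.2) := (maj_int b A).comp_div (hpos q hq).ne'
    exact h1.comp_sub_right q.1
  have h3 := integral_mono_of_nonneg (μ := volume)
    (Eventually.of_forall fun v => by
      change 0 ≤ ‖kT b T v - (δ / (2 * Real.pi)) ^ 2 * deriv (deriv (kT b T)) v‖ ^ 2
      positivity)
    (integrable_finsetSum _ hi) (Eventually.of_forall e2)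
  refine h3.trans ?_
  rw [integral_finsetSum _ hi]
  have e3 : ∀ q ∈ T, ∫ v, maj b A ((v - q.1) / q.2) ≤ δ * ∫ y, maj b A y := by
    intro q hq
    rw [integral_sub_right_eq_self (fun v => maj b A (v / q.2)) q.1,
      Measure.integral_comp_div (fun y => maj b A y) q.2, abs_of_pos (hpos q hq), smul_eq_mul]
    exact mul_le_mul_of_nonneg_right (hT.len q hq).1 (integral_nonneg fun y => maj_nonneg b A y)
  refine (Finset.sum_le_sum e3).trans ?_
  rw [Finset.sum_const, nsmul_eq_mul]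

end Bp

end Pool.Agent.H521.G
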