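import Pool.Agent.H521.G.Blocked2
import Pool.Agent.H521.G.Andrica

open MeasureTheory Set Filter Topology
open scoped ComplexConjugate Classical

namespace Pool.Agent.H521.G

/-- Break points of quadratic growth. -/
structure Brk (b : ℕ → ℝ) (c C : ℝ) : Prop where
  c0 : 0 < c
  b0 : 0 ≤ b 0
  low : ∀ m : ℕ, c * m ≤ b (m + 1) - b m
  up : ∀ m : ℕ, b (m + 1) - b m ≤ C * (m + 1)

namespace Brk

variable {b : ℕ → ℝ} {c C : ℝ} (hb : Brk b c C)
include hb

theorem mono : Monotone b := monotone_nat_of_le_succ fun m => by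
  have := hb.low m
  have := mul_nonneg hb.c0.le (Nat.cast_nonneg (α := ℝ) m)
  linarith

theorem lt_succ {m : ℕ} (hm : 1 ≤ m) : b m < b (m + 1) := by
  have h1 := hb.low m
  have h2 : (1 : ℝ) ≤ m := by exact_mod_cast hm
  have := hb.c0
  nlinarith

theorem lt {m n : ℕ} (hm : 1 ≤ m) (h : m < n) : b m < b n :=
  lt_of_lt_of_le (hb.lt_succ hm) (hb.mono h)

theorem quad (m : ℕ) : c * (m * (m - 1)) / 2 ≤ b m := by
  induction m with
  | zero => simpa using hb.b0
  | succ m ih =>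
    have := hb.low m
    push_cast
    nlinarith

theorem idx {m : ℕ} {x : ℝ} (hx : 1 ≤ x) (h : b m ≤ x) : (m : ℝ) ≤ (2 / √c + 2) * √x := by
  have h1 := hb.quad m
  have hc := hb.c0
  have hsc : 0 < √c := Real.sqrt_pos.2 hc
  have hsx : 1 ≤ √x := Real.one_le_sqrt.2 hx
  have hxx : √x * √x = x := Real.mul_self_sqrt (by linarith)
  have hcc : √c * √c = c := Real.mul_self_sqrt hc.le
  rcases Nat.lt_or_ge m 2 with h2 | h2
  · have h3 : (m : ℝ) ≤ 1 := by
      have : m ≤ 1 := by omega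
      exact_mod_cast this
    have : 0 < 2 / √c := by positivity
    nlinarith
  · have h3 : (2 : ℝ) ≤ m := by exact_mod_cast h2
    have h4 : (m : ℝ) ^ 2 / 2 ≤ m * (m - 1) := by nlinarith
    have h5 : c * (m : ℝ) ^ 2 ≤ 4 * x := by nlinarith
    have h6 : (√c * m) ^ 2 ≤ (2 * √x) ^ 2 := by
      rw [mul_pow, mul_pow, sq (√c), hcc, sq (√x), hxx]
      linarith
    have h7 : √c * m ≤ 2 * √x := by
      exact (le_abs_self _).trans (abs_le_of_sq_le_sq h6 (by positivity))
    have h8 : (m : ℝ) ≤ 2 / √c * √x := by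
      rw [div_mul_eq_mul_div, le_div_iff₀ hsc]
      linarith
    nlinarith

theorem tendsto : Tendsto b atTop atTop := by
  have hc := hb.c0
  refine tendsto_atTop_mono' _ (f₁ := fun m : ℕ => c / 2 * (m : ℝ)) ?_
    (tendsto_natCast_atTop_atTop.const_mul_atTop (by positivity))
  filter_upwards [eventually_ge_atTop 2] with m hm
  have h1 := hb.quad m
  have h2 : (2 : ℝ) ≤ m := by exact_mod_cast hm
  have h3 : c * (m : ℝ) ≤ c * (m * (m - 1)) := mul_le_mul_of_nonneg_left (by nlinarith) hc.le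
  linarith

end Brk

/-- the prescribed points in an interval. -/
noncomputable def ptsI (b : ℕ → ℝ) (a : ℕ → ℕ) (m : ℕ) : Finset ℝ :=
  (Finset.range (a m)).image fun j : ℕ => b m + (b (m + 1) - b m) * ((j + 1) / (a m + 1))

theorem ptsI_card {b : ℕ → ℝ} {a : ℕ → ℕ} {m : ℕ} (h : b m < b (m + 1)) :
    (ptsI b a m).card = a m := by
  unfold ptsI
  rw [Finset.card_image_of_injective, Finset.card_range]
  intro i j hij
  simp only at hij
  have h1 : (0 : ℝ) < (a m : ℝ) + 1 := by positivity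
  have h2 : 0 < b (m + 1) - b m := by linarith
  have h3 : (b (m + 1) - b m) * (((i : ℝ) + 1) / (a m + 1)) =
      (b (m + 1) - b m) * (((j : ℝ) + 1) / (a m + 1)) := by linarith
  have h4 := mul_left_cancel₀ h2.ne' h3
  rw [div_left_inj' h1.ne'] at h4
  have h5 : (i : ℝ) = j := by linarith
  exact_mod_cast h5

theorem mem_ptsI {b : ℕ → ℝ} {a : ℕ → ℕ} {m : ℕ} (h : b m < b (m + 1)) {u : ℝ}
    (hu : u ∈ ptsI b a m) : b m < u ∧ u < b (m + 1) := by
  unfold ptsI at hu
  obtain ⟨j, hj, rfl⟩ := Finset.mem_image.1 hu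
  rw [Finset.mem_range] at hj
  have h1 : (0 : ℝ) < (a m : ℝ) + 1 := by positivity
  have h2 : 0 < b (m + 1) - b m := by linarith
  have h3 : ((j : ℝ) + 1) ≤ a m := by exact_mod_cast hj
  have h4 : 0 < ((j : ℝ) + 1) / (a m + 1) := by positivity
  have h5 : ((j : ℝ) + 1) / (a m + 1) < 1 := by
    rw [div_lt_one h1]
    linarith
  constructor <;> nlinarith

/-- **Prescribed numbers of primes in exceptional intervals of quadratically growing sequences.** -/
theorem seq_suff {Z : Multiset ℂ} (hZ : ∀ ρ ∈ Z, ρ.re < 1) (hZc : Z.map conj = Z)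
    {x₀ : ℝ} (hR : RDens (fZ Z) x₀) {b : ℕ → ℝ} {c C : ℝ} (hb : Brk b c C) {S : Set ℕ}
    {a : ℕ → ℕ}
    (hS : ∀ ε : ℝ, 0 < ε → ∃ D : ℝ, ∀ N : ℕ, 1 ≤ N →
      ((Set.ncard {m | m ∈ S ∧ m ≤ N} : ℕ) : ℝ) ≤ D * (N : ℝ) ^ ε)
    (ha : ∀ ε : ℝ, 0 < ε → ∃ D : ℝ, ∀ m ∈ S, 1 ≤ m → (a m : ℝ) ≤ D * (m : ℝ) ^ (1 + ε)) :
    ∃ p : ℕ → ℝ, Sys Z p ∧ ∃ m₀ : ℕ, ∀ m, m₀ ≤ m → (∀ k, p k ≠ b m) ∧
      (m ∈ S → Set.ncard {k | b m < p k ∧ p k < b (m + 1)} = a m) ∧
      (m ∉ S → |((Set.ncard {k | b m < p k ∧ p k < b (m + 1)} : ℕ) : ℝ) -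
        (Fp (fZ Z) x₀ (b (m + 1)) - Fp (fZ Z) x₀ (b m))| ≤ 2) := by
  have hc := hb.c0
  have hC0 : 0 ≤ C := by
    have h1 := hb.up 1
    have h2 := hb.low 1
    push_cast at h1 h2
    nlinarith
  set K : ℝ := 2 / √c + 2 with hK
  have hK0 : 2 ≤ K := by
    rw [hK]
    have : 0 ≤ 2 / √c := by positivity
    linarith
  set Q : Set (ℝ × ℝ) := {q | (∃ m, m ∈ S ∧ 1 ≤ m ∧ q = (b m, b (m + 1))) ∨
    ∃ m, 1 ≤ m ∧ q = (b m, b m)} with hQ
  set P : Set ℝ := {u | ∃ m, m ∈ S ∧ 1 ≤ m ∧ u ∈ ptsI b a m} with hP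
  -- the indices up to x
  set M : ℝ → ℕ := fun x => ⌊K * √x⌋₊ with hM
  have hMle : ∀ x : ℝ, 1 ≤ x → (M x : ℝ) ≤ K * √x := fun x hx =>
    Nat.floor_le (by positivity)
  have hM1 : ∀ x : ℝ, 1 ≤ x → 1 ≤ M x := by
    intro x hx
    apply Nat.le_floor
    have hsx : 1 ≤ √x := Real.one_le_sqrt.2 hx
    push_cast
    nlinarith
  have hidx : ∀ m x, 1 ≤ x → b m ≤ x → m ≤ M x := fun m x hx h => Nat.le_floor (hb.idx hx h)
  set G : ℝ → Finset ℕ := fun x => (Finset.Icc 1 (M x)).filter (· ∈ S) with hG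
  have hGcard : ∀ ε : ℝ, 0 < ε → ∃ D : ℝ, 0 ≤ D ∧ ∀ x, 1 ≤ x →
      ((G x).card : ℝ) ≤ D * x ^ (ε / 2) := by
    intro ε hε
    obtain ⟨D, hD⟩ := hS ε hε
    refine ⟨|D| * K ^ ε, by positivity, fun x hx => ?_⟩
    have hfin : {m | m ∈ S ∧ m ≤ M x}.Finite := (Set.finite_Iic (M x)).subset fun m hm => hm.2
    have h1 : (G x).card ≤ Set.ncard {m | m ∈ S ∧ m ≤ M x} := by
      rw [Set.ncard_eq_toFinset_card _ hfin]
      apply Finset.card_le_card
      intro m hm
      rw [hG, Finset.mem_filter, Finset.mem_Icc] at hm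
      rw [Set.Finite.mem_toFinset]
      exact ⟨hm.2, hm.1.2⟩
    have h2 := hD (M x) (hM1 x hx)
    have h3 : (M x : ℝ) ^ ε ≤ (K * √x) ^ ε :=
      Real.rpow_le_rpow (Nat.cast_nonneg _) (hMle x hx) hε.le
    have h4 : (K * √x) ^ ε = K ^ ε * x ^ (ε / 2) := by
      rw [Real.mul_rpow (by linarith) (Real.sqrt_nonneg x), Real.sqrt_eq_rpow,
        ← Real.rpow_mul (by linarith)]
      congr 2
      ring
    have h5 : ((G x).card : ℝ) ≤ ((Set.ncard {m | m ∈ S ∧ m ≤ M x} : ℕ) : ℝ) := by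
      exact_mod_cast h1
    calc ((G x).card : ℝ) ≤ D * (M x : ℝ) ^ ε := h5.trans h2
      _ ≤ |D| * (M x : ℝ) ^ ε :=
          mul_le_mul_of_nonneg_right (le_abs_self D) (Real.rpow_nonneg (Nat.cast_nonneg _) _)
      _ ≤ |D| * (K ^ ε * x ^ (ε / 2)) := by
          rw [← h4]
          exact mul_le_mul_of_nonneg_left h3 (abs_nonneg D)
      _ = _ := by ring
  have hsqrt : ∀ x : ℝ, √x = x ^ (1 / 2 : ℝ) := fun x => Real.sqrt_eq_rpow x
  obtain ⟨x₁, p, hsys, hp1, hp2⟩ := blocked_count hZ hZc hR (Q := Q) (P := P)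
    (by
      rintro q (⟨m, -, -, rfl⟩ | ⟨m, -, rfl⟩)
      · exact hb.mono (Nat.le_succ m)
      · exact le_rfl)
    (by
      intro ε hε
      obtain ⟨D, hD0, hD⟩ := hGcard ε hε
      refine ⟨D * (C * (K + 1) + 1) + K, fun x hx Q' hQ' => ?_⟩
      have hsub : Q' ⊆ (G x).image (fun m => (b m, b (m + 1))) ∪
          (Finset.Icc 1 (M x)).image (fun m => (b m, b m)) := by
        intro q hq
        obtain ⟨h1, h2⟩ := hQ' q hq
        rw [Finset.mem_union, Finset.mem_image, Finset.mem_image]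
        rcases h1 with ⟨m, hm1, hm2, rfl⟩ | ⟨m, hm1, rfl⟩
        · left
          refine ⟨m, ?_, rfl⟩
          rw [hG, Finset.mem_filter, Finset.mem_Icc]
          exact ⟨⟨hm2, hidx m x hx h2⟩, hm1⟩
        · right
          exact ⟨m, Finset.mem_Icc.2 ⟨hm1, hidx m x hx h2⟩, rfl⟩
      have hnn : ∀ q ∈ (G x).image (fun m => (b m, b (m + 1))) ∪
          (Finset.Icc 1 (M x)).image (fun m => (b m, b m)), 0 ≤ q.2 - q.1 + 1 := by
        intro q hq
        rw [Finset.mem_union, Finset.mem_image, Finset.mem_image] at hq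
        rcases hq with ⟨m, -, rfl⟩ | ⟨m, -, rfl⟩
        · have := hb.mono (Nat.le_succ m)
          simp only [Nat.succ_eq_add_one] at this
          simp only
          linarith
        · simp
      have hs1 := Finset.sum_le_sum_of_subset_of_nonneg hsub (f := fun q : ℝ × ℝ => q.2 - q.1 + 1)
        (fun q hq _ => hnn q hq)
      have hs2 := Finset.sum_union_inter (s₁ := (G x).image (fun m => (b m, b (m + 1))))
        (s₂ := (Finset.Icc 1 (M x)).image (fun m => (b m, b m)))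
        (f := fun q : ℝ × ℝ => q.2 - q.1 + 1)
      have hs3 : 0 ≤ ∑ q ∈ (G x).image (fun m => (b m, b (m + 1))) ∩
          (Finset.Icc 1 (M x)).image (fun m => (b m, b m)), (q.2 - q.1 + 1) :=
        Finset.sum_nonneg fun q hq => hnn q (Finset.mem_union_left _ (Finset.mem_inter.1 hq).1)
      have hinj1 : Set.InjOn (fun m => (b m, b (m + 1))) (G x : Set ℕ) := by
        intro m hm n hn hmn
        simp only [Prod.mk.injEq] at hmn
        have hm1 : 1 ≤ m := by
          have := Finset.mem_coe.1 hm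
          rw [hG, Finset.mem_filter, Finset.mem_Icc] at this
          exact this.1.1
        have hn1 : 1 ≤ n := by
          have := Finset.mem_coe.1 hn
          rw [hG, Finset.mem_filter, Finset.mem_Icc] at this
          exact this.1.1
        rcases lt_trichotomy m n with h | h | h
        · have := hb.lt hm1 h
          linarith [hmn.1]
        · exact h
        · have := hb.lt hn1 h
          linarith [hmn.1]
      have hinj2 : Set.InjOn (fun m => (b m, b m)) (Finset.Icc 1 (M x) : Set ℕ) := by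
        intro m hm n hn hmn
        simp only [Prod.mk.injEq, and_self] at hmn
        have hm1 : 1 ≤ m := (Finset.mem_Icc.1 (Finset.mem_coe.1 hm)).1
        have hn1 : 1 ≤ n := (Finset.mem_Icc.1 (Finset.mem_coe.1 hn)).1
        rcases lt_trichotomy m n with h | h | h
        · have := hb.lt hm1 h
          linarith
        · exact h
        · have := hb.lt hn1 h
          linarith
      have hsx : 1 ≤ √x := Real.one_le_sqrt.2 hx
      have hs4 : ∑ q ∈ (G x).image (fun m => (b m, b (m + 1))), (q.2 - q.1 + 1) ≤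
          D * x ^ (ε / 2) * ((C * (K + 1) + 1) * √x) := by
        rw [Finset.sum_image hinj1]
        have h1 : ∀ m ∈ G x, (b (m + 1) - b m + 1) ≤ (C * (K + 1) + 1) * √x := by
          intro m hm
          rw [hG, Finset.mem_filter, Finset.mem_Icc] at hm
          have h2 := hb.up m
          have h3 : (m : ℝ) ≤ K * √x := (by exact_mod_cast hm.1.2 : (m : ℝ) ≤ M x).trans
            (hMle x hx)
          have h4 : C * ((m : ℝ) + 1) ≤ C * ((K + 1) * √x) :=
            mul_le_mul_of_nonneg_left (by nlinarith) hC0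
          nlinarith
        refine (Finset.sum_le_sum h1).trans ?_
        rw [Finset.sum_const, nsmul_eq_mul]
        exact mul_le_mul_of_nonneg_right (hD x hx) (by positivity)
      have hs5 : ∑ q ∈ (Finset.Icc 1 (M x)).image (fun m => (b m, b m)), (q.2 - q.1 + 1) ≤
          K * √x := by
        rw [Finset.sum_image hinj2]
        simp only [sub_self, zero_add, Finset.sum_const, Nat.card_Icc, add_tsub_cancel_right,
          nsmul_eq_mul, mul_one]
        exact hMle x hx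
      have e1 : x ^ (ε / 2) * √x ≤ x ^ (1 / 2 + ε) := by
        rw [hsqrt, ← Real.rpow_add (by linarith)]
        apply Real.rpow_le_rpow_of_exponent_le hx
        linarith
      have e2 : √x ≤ x ^ (1 / 2 + ε) := by
        rw [hsqrt]
        apply Real.rpow_le_rpow_of_exponent_le hx
        linarith
      have e3 : D * x ^ (ε / 2) * ((C * (K + 1) + 1) * √x) ≤
          D * (C * (K + 1) + 1) * x ^ (1 / 2 + ε) := by
        calc _ = D * (C * (K + 1) + 1) * (x ^ (ε / 2) * √x) := by ring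
          _ ≤ _ := mul_le_mul_of_nonneg_left e1 (by positivity)
      have e4 : K * √x ≤ K * x ^ (1 / 2 + ε) := mul_le_mul_of_nonneg_left e2 (by linarith)
      calc ∑ q ∈ Q', (q.2 - q.1 + 1) ≤ _ := hs1
        _ ≤ D * x ^ (ε / 2) * ((C * (K + 1) + 1) * √x) + K * √x := by linarith
        _ ≤ _ := by linarith)
    (by
      intro ε hε
      obtain ⟨D, hD0, hD⟩ := hGcard ε hε
      obtain ⟨A, hA⟩ := ha ε hε
      refine ⟨D * (|A| * K ^ (1 + ε)), fun x hx P' hP' => ?_⟩
      have hsub : P' ⊆ (G x).biUnion (ptsI b a) := by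
        intro u hu
        obtain ⟨⟨m, hm1, hm2, hm3⟩, h2⟩ := hP' u hu
        rw [Finset.mem_biUnion]
        refine ⟨m, ?_, hm3⟩
        rw [hG, Finset.mem_filter, Finset.mem_Icc]
        exact ⟨⟨hm2, hidx m x hx ((mem_ptsI (hb.lt_succ hm2) hm3).1.le.trans h2)⟩, hm1⟩
      have h1 := (Finset.card_le_card hsub).trans Finset.card_biUnion_le
      have h2 : ((∑ m ∈ G x, (ptsI b a m).card : ℕ) : ℝ) ≤
          D * x ^ (ε / 2) * (|A| * (K ^ (1 + ε) * x ^ (1 / 2 + ε / 2))) := by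
        push_cast
        have h3 : ∀ m ∈ G x, ((ptsI b a m).card : ℝ) ≤
            |A| * (K ^ (1 + ε) * x ^ (1 / 2 + ε / 2)) := by
          intro m hm
          rw [hG, Finset.mem_filter, Finset.mem_Icc] at hm
          rw [ptsI_card (hb.lt_succ hm.1.1)]
          have h4 : (m : ℝ) ≤ K * √x := (by exact_mod_cast hm.1.2 : (m : ℝ) ≤ M x).trans
            (hMle x hx)
          have h5 : (m : ℝ) ^ (1 + ε) ≤ (K * √x) ^ (1 + ε) :=
            Real.rpow_le_rpow (Nat.cast_nonneg _) h4 (by linarith)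
          have h6 : (K * √x) ^ (1 + ε) = K ^ (1 + ε) * x ^ (1 / 2 + ε / 2) := by
            rw [Real.mul_rpow (by linarith) (Real.sqrt_nonneg x), Real.sqrt_eq_rpow,
              ← Real.rpow_mul (by linarith)]
            congr 2
            ring
          rw [h6] at h5
          calc (a m : ℝ) ≤ A * (m : ℝ) ^ (1 + ε) := hA m hm.2 hm.1.1
            _ ≤ |A| * (m : ℝ) ^ (1 + ε) :=
              mul_le_mul_of_nonneg_right (le_abs_self A) (Real.rpow_nonneg (Nat.cast_nonneg _) _)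
            _ ≤ _ := mul_le_mul_of_nonneg_left h5 (abs_nonneg A)
        refine (Finset.sum_le_sum h3).trans ?_
        rw [Finset.sum_const, nsmul_eq_mul]
        exact mul_le_mul_of_nonneg_right (hD x hx) (by positivity)
      have h3 : (P'.card : ℝ) ≤ ((∑ m ∈ G x, (ptsI b a m).card : ℕ) : ℝ) := by exact_mod_cast h1
      have e : x ^ (ε / 2) * x ^ (1 / 2 + ε / 2) = x ^ (1 / 2 + ε) := by
        rw [← Real.rpow_add (by linarith)]
        congr 1
        ring
      calc (P'.card : ℝ) ≤ _ := h3.trans h2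
        _ = D * (|A| * K ^ (1 + ε)) * (x ^ (ε / 2) * x ^ (1 / 2 + ε / 2)) := by ring
        _ = _ := by rw [e])
  obtain ⟨m₁, hm₁⟩ := eventually_atTop.1 (hb.tendsto.eventually_ge_atTop x₁)
  have hdisj : ∀ m n u, 1 ≤ m → 1 ≤ n → b m ≤ u → u ≤ b (m + 1) → b n < u → u < b (n + 1) →
      n = m := by
    intro m n u hm hn h1 h2 h3 h4
    rcases lt_trichotomy m n with h | h | h
    · have := hb.mono (Nat.succ_le_of_lt h)
      simp only [Nat.succ_eq_add_one] at this
      linarith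
    · exact h.symm
    · have := hb.mono (Nat.succ_le_of_lt h)
      simp only [Nat.succ_eq_add_one] at this
      linarith
  refine ⟨p, hsys, max m₁ 1, fun m hm => ?_⟩
  have hm1 : 1 ≤ m := (le_max_right _ _).trans hm
  have hmx : x₁ ≤ b m := hm₁ m ((le_max_left _ _).trans hm)
  refine ⟨fun k hk => ?_, fun hmS => ?_, fun hmS => ?_⟩
  · obtain ⟨n, hn1, hn2, hn3⟩ := (hp1 (b m) ⟨(b m, b m), Or.inr ⟨m, hm1, rfl⟩, hmx, le_rfl,
      le_rfl⟩).1 ⟨k, hk⟩
    obtain ⟨h1, h2⟩ := mem_ptsI (hb.lt_succ hn2) hn3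
    rcases Nat.lt_or_ge n m with h | h
    · have := hb.mono (Nat.succ_le_of_lt h)
      simp only [Nat.succ_eq_add_one] at this
      linarith
    · have := hb.mono h
      linarith
  · have himg : p '' {k | b m < p k ∧ p k < b (m + 1)} = (ptsI b a m : Set ℝ) := by
      ext u
      constructor
      · rintro ⟨k, hk, rfl⟩
        obtain ⟨n, hn1, hn2, hn3⟩ := (hp1 (p k) ⟨(b m, b (m + 1)), Or.inl ⟨m, hmS, hm1, rfl⟩,
          hmx, hk.1.le, hk.2.le⟩).1 ⟨k, rfl⟩
        obtain ⟨h1, h2⟩ := mem_ptsI (hb.lt_succ hn2) hn3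
        have := hdisj m n (p k) hm1 hn2 hk.1.le hk.2.le h1 h2
        rw [this] at hn3
        exact hn3
      · intro hu
        have hu' : u ∈ ptsI b a m := hu
        obtain ⟨h1, h2⟩ := mem_ptsI (hb.lt_succ hm1) hu'
        obtain ⟨k, hk⟩ := (hp1 u ⟨(b m, b (m + 1)), Or.inl ⟨m, hmS, hm1, rfl⟩,
          hmx, h1.le, h2.le⟩).2 ⟨m, hmS, hm1, hu'⟩
        exact ⟨k, ⟨by rw [hk]; exact h1, by rw [hk]; exact h2⟩, hk⟩
    rw [← Set.ncard_image_of_injective _ hsys.mono.injective, himg, Set.ncard_coe_finset,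
      ptsI_card (hb.lt_succ hm1)]
  · apply hp2 (b m) (b (m + 1)) hmx (hb.mono (Nat.le_succ m))
    rintro q (⟨n, hn1, hn2, rfl⟩ | ⟨n, hn1, rfl⟩)
    · simp only
      rcases lt_trichotomy m n with h | h | h
      · right
        exact hb.mono (Nat.succ_le_of_lt h)
      · exact absurd (h ▸ hn1) hmS
      · left
        exact hb.mono (Nat.succ_le_of_lt h)
    · simp only
      rcases Nat.lt_or_ge m n with h | h
      · right
        exact hb.mono (Nat.succ_le_of_lt h)
      · left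
        exact hb.mono h

/-- **Few voids** in the intervals between break points. -/
theorem void_count {Z : Multiset ℂ} (hZ : ∀ ρ ∈ Z, ρ.re < 1) (hZc : Z.map conj = Z)
    {p : ℕ → ℝ} (hS : SysW Z p) {b : ℕ → ℝ} {c C : ℝ} (hb : Brk b c C) {η : ℝ} (hη : 0 < η)
    {E : Set ℕ} {u : ℕ → ℝ} (hu1 : ∀ m ∈ E, b m ≤ u m) (hu2 : ∀ m ∈ E, u m + η * m ≤ b (m + 1))
    (hfree : ∀ m ∈ E, ∀ k, p k ≤ u m ∨ u m + η * m ≤ p k) {ε : ℝ} (hε : 0 < ε) :
    ∃ D : ℝ, ∀ N : ℕ, 1 ≤ N →
      ((Set.ncard {m | m ∈ E ∧ m ≤ N} : ℕ) : ℝ) ≤ D * (N : ℝ) ^ ε := by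
  have hc := hb.c0
  have hC0 : 0 ≤ C := by
    have h1 := hb.up 1
    have h2 := hb.low 1
    push_cast at h1 h2
    nlinarith
  obtain ⟨D, hD0, hD⟩ := selberg hZ hZc hS (half_pos hε)
  set A : ℝ := b 0 + C + 1 with hA
  have hb0 := hb.b0
  have hA0 : 0 < A := by rw [hA]; linarith
  have hup : ∀ m : ℕ, b m ≤ A * ((m : ℝ) + 1) ^ 2 := by
    intro m
    induction m with
    | zero => simp; rw [hA]; linarith
    | succ m ih =>
      have h1 := hb.up m
      push_cast
      have h2 : C * ((m : ℝ) + 1) ≤ A * ((m : ℝ) + 1) :=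
        mul_le_mul_of_nonneg_right (by rw [hA]; linarith) (by positivity)
      have h3 : (0 : ℝ) ≤ m := Nat.cast_nonneg m
      nlinarith
  have hfin : ∀ x, {m | m ∈ E ∧ u m ≤ x}.Finite := fun x =>
    (finite_le hb.tendsto x).subset fun m hm => (hu1 m hm.1).trans hm.2
  set κ : ℝ := η * (1 / (2 * √A)) with hκ
  have hsA : 0 < √A := Real.sqrt_pos.2 hA0
  have hκ0 : 0 < κ := by rw [hκ]; positivity
  set X : ℝ := max 1 (max (16 * A) (max (κ ^ 2) (1 / κ ^ 2))) with hX
  have hX1 : 1 ≤ X := le_max_left _ _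
  have hX2 : 16 * A ≤ X := (le_max_left _ _).trans (le_max_right _ _)
  have hX3 : κ ^ 2 ≤ X :=
    (le_max_left _ _).trans ((le_max_right _ _).trans (le_max_right _ _))
  have hX4 : 1 / κ ^ 2 ≤ X :=
    (le_max_right _ _).trans ((le_max_right _ _).trans (le_max_right _ _))
  obtain ⟨D', hD'⟩ := count_doubling (N := fun x => ((Set.ncard {m | m ∈ E ∧ u m ≤ x} : ℕ) : ℝ))
    (fun x y hxy => by
      have h1 : {m | m ∈ E ∧ u m ≤ x} ⊆ {m | m ∈ E ∧ u m ≤ y} := fun n hn => ⟨hn.1, hn.2.trans hxy⟩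
      have h2 := Set.ncard_le_ncard h1 (hfin y)
      exact_mod_cast h2) (C := D / κ ^ 2) (half_pos hε) hX1 (by positivity) (by
    intro x hx
    have hx0 : 0 < x := by linarith
    set W : Set ℕ := {m | m ∈ E ∧ (x < u m ∧ u m ≤ 2 * x)} with hW
    have hWfin : W.Finite := (hfin (2 * x)).subset fun m hm => ⟨hm.1, hm.2.2⟩
    have hsub : {m | m ∈ E ∧ u m ≤ 2 * x} ⊆ {m | m ∈ E ∧ u m ≤ x} ∪ W := by
      intro m hm
      rcases le_or_gt (u m) x with h | h
      · left; exact ⟨hm.1, h⟩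
      · right; exact ⟨hm.1, h, hm.2⟩
    have h1 := (Set.ncard_le_ncard hsub ((hfin x).union hWfin)).trans (Set.ncard_union_le _ _)
    have hsx : √x * √x = x := Real.mul_self_sqrt hx0.le
    have hsx0 : 0 < √x := Real.sqrt_pos.2 hx0
    set h : ℝ := κ * √x with hh
    have hm_low : ∀ m ∈ W, h ≤ η * m := by
      intro m hm
      have h2 : x < A * ((m : ℝ) + 2) ^ 2 := by
        have h3 := hu2 m hm.1
        have h4 := hup (m + 1)
        push_cast at h4
        have h5 : 0 ≤ η * m := by positivity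
        have e : (m : ℝ) + 1 + 1 = m + 2 := by ring
        rw [e] at h4
        linarith [hm.2.1]
      have h3 : √x < √A * ((m : ℝ) + 2) := by
        rw [Real.sqrt_lt' (by positivity), mul_pow, Real.sq_sqrt hA0.le]
        exact h2
      have h4 : 4 * √A ≤ √x := by
        have : (4 : ℝ) * √A = √(16 * A) := by
          rw [Real.sqrt_mul (by norm_num)]
          congr 1
          rw [show (16 : ℝ) = 4 ^ 2 by norm_num, Real.sqrt_sq (by norm_num)]
        rw [this]
        exact Real.sqrt_le_sqrt (hX2.trans hx)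
      have h5 : √x / (2 * √A) ≤ m := by
        rw [div_le_iff₀ (by positivity)]
        nlinarith
      rw [hh, hκ]
      calc η * (1 / (2 * √A)) * √x = η * (√x / (2 * √A)) := by ring
        _ ≤ η * m := mul_le_mul_of_nonneg_left h5 hη.le
    have hh1 : 1 ≤ h := by
      have h2 : 1 / κ ^ 2 ≤ x := hX4.trans hx
      rw [div_le_iff₀ (by positivity)] at h2
      have h3 : 1 ≤ (κ * √x) ^ 2 := by nlinarith
      rw [hh]
      by_contra hcc
      push Not at hcc
      have : 0 < κ * √x := by positivity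
      nlinarith
    have hhx : h ≤ x := by
      have h2 : κ ≤ √x := Real.le_sqrt_of_sq_le (hX3.trans hx)
      rw [hh]
      nlinarith
    set T : Finset ℝ := hWfin.toFinset.image u with hT
    have hsep : ∀ m ∈ W, ∀ n ∈ W, m < n → u m + h ≤ u n := by
      intro m hm n hn hmn
      have h2 := hu2 m hm.1
      have h3 := hb.mono (Nat.succ_le_of_lt hmn)
      simp only [Nat.succ_eq_add_one] at h3
      linarith [hu1 n hn.1, hm_low m hm]
    have hcard : (T.card : ℝ) = W.ncard := by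
      rw [hT, Set.ncard_eq_toFinset_card _ hWfin, Finset.card_image_of_injOn]
      intro m hm n hn hmn
      have hm' := (Set.Finite.mem_toFinset hWfin).1 hm
      have hn' := (Set.Finite.mem_toFinset hWfin).1 hn
      rcases lt_trichotomy m n with h2 | h2 | h2
      · have := hsep m hm' n hn' h2
        linarith
      · exact h2
      · have := hsep n hn' m hm' h2
        linarith
    have hmem : ∀ v ∈ T, ∃ m, m ∈ W ∧ u m = v := by
      intro v hv
      rw [hT] at hv
      obtain ⟨m, hm, rfl⟩ := Finset.mem_image.1 hv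
      exact ⟨m, (Set.Finite.mem_toFinset _).1 hm, rfl⟩
    have key := hD x h (hX1.trans hx) hh1 hhx T (by
      intro v hv
      obtain ⟨m, hm, rfl⟩ := hmem v hv
      exact ⟨hm.2.1.le, hm.2.2⟩) (by
      intro v hv w hw hvw
      obtain ⟨m, hm, rfl⟩ := hmem v hv
      obtain ⟨n, hn, rfl⟩ := hmem w hw
      rcases lt_trichotomy m n with h2 | h2 | h2
      · exact hsep m hm n hn h2
      · rw [h2] at hvw; exact absurd hvw (lt_irrefl _)
      · have := hsep n hn m hm h2
        linarith) (by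
      intro v hv k
      obtain ⟨m, hm, rfl⟩ := hmem v hv
      rcases hfree m hm.1 k with h2 | h2
      · left; exact h2
      · right; linarith [hm_low m hm])
    rw [hcard] at key
    have e1 : h ^ 2 = κ ^ 2 * x := by rw [hh]; nlinarith
    rw [e1, Real.rpow_add hx0, Real.rpow_one] at key
    have h6 : (W.ncard : ℝ) * κ ^ 2 ≤ D * x ^ (ε / 2) := by
      have h7 : ((W.ncard : ℝ) * κ ^ 2) * x ≤ (D * x ^ (ε / 2)) * x := by linarith
      exact le_of_mul_le_mul_right h7 hx0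
    have h7 : (W.ncard : ℝ) ≤ D / κ ^ 2 * x ^ (ε / 2) := by
      rw [div_mul_eq_mul_div, le_div_iff₀ (by positivity)]
      exact h6
    have h8 : ((Set.ncard {m | m ∈ E ∧ u m ≤ 2 * x} : ℕ) : ℝ) ≤
        Set.ncard {m | m ∈ E ∧ u m ≤ x} + W.ncard := by exact_mod_cast h1
    linarith)
  set B : ℝ := max 1 (9 * A) with hB
  have hB1 : 1 ≤ B := le_max_left _ _
  refine ⟨|D'| * B ^ (ε / 2), fun N hN => ?_⟩
  have hN1 : (1 : ℝ) ≤ N := by exact_mod_cast hN
  have hsub : {m | m ∈ E ∧ m ≤ N} ⊆ {m | m ∈ E ∧ u m ≤ B * (N : ℝ) ^ 2} := by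
    rintro m ⟨hm, hmN⟩
    refine ⟨hm, ?_⟩
    have h1 := hu2 m hm
    have h2 := hup (m + 1)
    push_cast at h2
    have h3 : 0 ≤ η * m := by positivity
    have h4 : (m : ℝ) ≤ N := by exact_mod_cast hmN
    have h5 : (0 : ℝ) ≤ m := Nat.cast_nonneg m
    have h6 : ((m : ℝ) + 1 + 1) ^ 2 ≤ 9 * (N : ℝ) ^ 2 := by nlinarith
    have h7 : A * ((m : ℝ) + 1 + 1) ^ 2 ≤ A * (9 * (N : ℝ) ^ 2) :=
      mul_le_mul_of_nonneg_left h6 hA0.le
    have h8 : 9 * A * (N : ℝ) ^ 2 ≤ B * (N : ℝ) ^ 2 :=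
      mul_le_mul_of_nonneg_right (le_max_right _ _) (by positivity)
    linarith
  have h1 := Set.ncard_le_ncard hsub (hfin _)
  have h2 := hD' (B * (N : ℝ) ^ 2) (by nlinarith)
  have h3 : (B * (N : ℝ) ^ 2) ^ (ε / 2) = B ^ (ε / 2) * (N : ℝ) ^ ε := by
    rw [Real.mul_rpow (by linarith) (by positivity), ← Real.rpow_natCast (N : ℝ) 2,
      ← Real.rpow_mul (by linarith)]
    congr 2
    push_cast
    ring
  rw [h3] at h2
  have h4 : (0 : ℝ) ≤ B ^ (ε / 2) * (N : ℝ) ^ ε := by positivity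
  calc ((Set.ncard {m | m ∈ E ∧ m ≤ N} : ℕ) : ℝ) ≤
        ((Set.ncard {m | m ∈ E ∧ u m ≤ B * (N : ℝ) ^ 2} : ℕ) : ℝ) := by exact_mod_cast h1
    _ ≤ _ := h2
    _ ≤ |D'| * (B ^ (ε / 2) * (N : ℝ) ^ ε) := mul_le_mul_of_nonneg_right (le_abs_self _) h4
    _ = _ := by ring

end Pool.Agent.H521.G
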