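import Pool.Agent.H521.G.DevCount

open MeasureTheory Set Filter Topology
open scoped ComplexConjugate Classical

namespace Pool.Agent.H521.G

/-- Diagonal choice of an exceptional set. -/
theorem diag {r : ℕ → ℝ} (h : ∀ δ : ℝ, 0 < δ → Sps {k | δ ≤ |r k - 1|}) :
    ∃ S : Set ℕ, Sps S ∧ ∀ δ : ℝ, 0 < δ → ∃ k₀ : ℕ, ∀ k, k₀ ≤ k → k ∉ S → |r k - 1| < δ := by
  -- thresholds
  have hex : ∀ j : ℕ, ∃ N₀ : ℕ, ∀ N : ℕ, N₀ ≤ N → 1 ≤ N →
      ((Set.ncard {n | n ∈ {k | (1 : ℝ) / (j + 1) ≤ |r k - 1|} ∧ n ≤ N} : ℕ) : ℝ) ≤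
        (N : ℝ) ^ ((1 : ℝ) / (j + 1)) := by
    intro j
    have hj : (0 : ℝ) < 1 / (j + 1) := by positivity
    obtain ⟨C, hC⟩ := h (1 / (j + 1)) hj (1 / (j + 1) / 2) (by positivity)
    have h2 : ∀ᶠ N : ℕ in atTop, C ≤ (N : ℝ) ^ ((1 : ℝ) / (j + 1) / 2) :=
      ((tendsto_rpow_atTop (by positivity : (0 : ℝ) < 1 / (j + 1) / 2)).comp
        tendsto_natCast_atTop_atTop).eventually_ge_atTop C
    obtain ⟨N₀, hN₀⟩ := eventually_atTop.1 h2
    refine ⟨N₀, fun N hN hN1 => (hC N hN1).trans ?_⟩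
    have hN0 : (0 : ℝ) < N := by exact_mod_cast hN1
    have e : (N : ℝ) ^ ((1 : ℝ) / (j + 1)) =
        (N : ℝ) ^ ((1 : ℝ) / (j + 1) / 2) * (N : ℝ) ^ ((1 : ℝ) / (j + 1) / 2) := by
      rw [← Real.rpow_add hN0]
      congr 1
      ring
    rw [e]
    exact mul_le_mul_of_nonneg_right (hN₀ N hN) (by positivity)
  choose M hM using hex
  -- strictly increasing thresholds
  obtain ⟨K, hKm, hKM, hK1⟩ : ∃ K : ℕ → ℕ, StrictMono K ∧ (∀ j, M j ≤ K j) ∧ ∀ j, 1 ≤ K j := by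
    refine ⟨fun j => ∑ i ∈ Finset.range (j + 1), (M i + 1), strictMono_nat_of_lt_succ fun j => ?_,
      fun j => ?_, fun j => ?_⟩
    · rw [Finset.sum_range_succ _ (j + 1)]
      omega
    · simp only
      rw [Finset.sum_range_succ]
      omega
    · simp only
      rw [Finset.sum_range_succ]
      omega
  set S : Set ℕ := {k | ∃ j : ℕ, K j ≤ k ∧ (1 : ℝ) / (j + 1) ≤ |r k - 1|} with hS
  refine ⟨S, ?_, ?_⟩
  · intro ε hε
    obtain ⟨J, hJ⟩ := exists_nat_one_div_lt hε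
    refine ⟨((K J : ℕ) : ℝ) + 1, fun N hN => ?_⟩
    have hN1 : (1 : ℝ) ≤ N := by exact_mod_cast hN
    have hNε : 1 ≤ (N : ℝ) ^ ε := Real.one_le_rpow hN1 hε.le
    rcases Nat.lt_or_ge N (K J) with h1 | h1
    · have h2 : {n | n ∈ S ∧ n ≤ N} ⊆ ↑(Finset.range (K J)) := by
        rintro n ⟨-, hn⟩
        rw [Finset.coe_range]
        exact lt_of_le_of_lt hn h1
      have h3 := Set.ncard_le_ncard h2 (Finset.finite_toSet _)
      rw [Set.ncard_coe_finset, Finset.card_range] at h3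
      have h4 : (({n | n ∈ S ∧ n ≤ N}.ncard : ℕ) : ℝ) ≤ (K J : ℝ) := by exact_mod_cast h3
      have h5 : (0 : ℝ) ≤ K J := Nat.cast_nonneg _
      nlinarith
    · -- the last threshold below `N`
      have hex2 : ∃ j, N < K j := by
        refine ⟨N + 1, lt_of_lt_of_le (Nat.lt_succ_self N) (hKm.id_le (N + 1))⟩
      obtain ⟨j₁, hj₁⟩ : ∃ j, Nat.find hex2 = j + 1 := by
        have : Nat.find hex2 ≠ 0 := by
          intro h0
          have h2 := Nat.find_spec hex2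
          rw [h0] at h2
          have h3 := hKm.monotone (Nat.zero_le J)
          omega
        exact ⟨Nat.find hex2 - 1, by omega⟩
      have h2 : N < K (j₁ + 1) := by
        have := Nat.find_spec hex2
        rwa [hj₁] at this
      have h3 : K j₁ ≤ N := by
        have := Nat.find_min hex2 (m := j₁) (by omega)
        omega
      have hJj : J ≤ j₁ := by
        by_contra hc
        push Not at hc
        have := hKm.monotone (Nat.succ_le_of_lt hc)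
        simp only [Nat.succ_eq_add_one] at this
        omega
      have h4 : {n | n ∈ S ∧ n ≤ N} ⊆
          {n | n ∈ {k | (1 : ℝ) / (j₁ + 1) ≤ |r k - 1|} ∧ n ≤ N} := by
        rintro n ⟨⟨j, hj1, hj2⟩, hn⟩
        refine ⟨?_, hn⟩
        have h5 : j ≤ j₁ := by
          by_contra hc
          push Not at hc
          have := hKm.monotone (Nat.succ_le_of_lt hc)
          simp only [Nat.succ_eq_add_one] at this
          omega
        have h6 : (j : ℝ) ≤ j₁ := by exact_mod_cast h5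
        exact le_trans (one_div_le_one_div_of_le (by positivity) (by linarith)) hj2
      have h5 := Set.ncard_le_ncard h4 (fin_le _ N)
      have h6 := hM j₁ N ((hKM j₁).trans h3) hN
      have h7 : (N : ℝ) ^ ((1 : ℝ) / (j₁ + 1)) ≤ (N : ℝ) ^ ε := by
        apply Real.rpow_le_rpow_of_exponent_le hN1
        have h8 : (J : ℝ) ≤ j₁ := by exact_mod_cast hJj
        have h9 := one_div_le_one_div_of_le (by positivity : (0 : ℝ) < (J : ℝ) + 1)
          (by linarith : (J : ℝ) + 1 ≤ j₁ + 1)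
        linarith
      have h8 : (({n | n ∈ S ∧ n ≤ N}.ncard : ℕ) : ℝ) ≤
          (({n | n ∈ {k | (1 : ℝ) / (j₁ + 1) ≤ |r k - 1|} ∧ n ≤ N}.ncard : ℕ) : ℝ) := by
        exact_mod_cast h5
      have h9 : (0 : ℝ) ≤ K J := Nat.cast_nonneg _
      nlinarith
  · intro δ hδ
    obtain ⟨J, hJ⟩ := exists_nat_one_div_lt hδ
    refine ⟨K J, fun k hk hkS => ?_⟩
    by_contra hc
    push Not at hc
    exact hkS ⟨J, hk, hJ.le.trans hc⟩

/-- The number of primes in an interval between break points is not too large. -/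
theorem cnt_up {Z : Multiset ℂ} (hZ : ∀ ρ ∈ Z, ρ.re < 1) {x₀ : ℝ} (hR : RDens (fZ Z) x₀)
    {p : ℕ → ℝ} (hS : SysW Z p) {b : ℕ → ℝ} {c C : ℝ} (hb : Brk b c C) {ε : ℝ} (hε : 0 < ε) :
    ∃ D : ℝ, ∀ m : ℕ, 1 ≤ m →
      ((Set.ncard {k | b m < p k ∧ p k < b (m + 1)} : ℕ) : ℝ) ≤ D * (m : ℝ) ^ (1 + ε) := by
  obtain ⟨A, hA1, hA⟩ := hb.upq
  obtain ⟨D, hD0, hD⟩ := err_bound hZ hR hS (half_pos hε)
  have hx3 := hR.dens.hx₀
  have hc := hb.c0
  have hC0 : 0 < C := by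
    have h1 := hb.up 1
    have h2 := hb.low 1
    push_cast at h1 h2
    nlinarith
  obtain ⟨m₀, hm₀⟩ := eventually_atTop.1 (hb.tendsto.eventually_ge_atTop x₀)
  obtain ⟨B, hB⟩ : ∃ B : ℝ, ∀ m < m₀,
      ((Set.ncard {k | b m < p k ∧ p k < b (m + 1)} : ℕ) : ℝ) ≤ B := by
    obtain ⟨B, hB⟩ := ((Set.finite_Iio m₀).image fun m =>
      ((Set.ncard {k | b m < p k ∧ p k < b (m + 1)} : ℕ) : ℝ)).bddAbove
    exact ⟨B, fun m hm => hB ⟨m, hm, rfl⟩⟩
  refine ⟨|B| + 2 * C + 2 * (D * (A * 9) ^ (1 / 2 + ε / 2)), fun m hm => ?_⟩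
  have hm1 : (1 : ℝ) ≤ m := by exact_mod_cast hm
  have hmε : 1 ≤ (m : ℝ) ^ (1 + ε) := Real.one_le_rpow hm1 (by linarith)
  have hmm : (m : ℝ) ≤ (m : ℝ) ^ (1 + ε) := by
    calc (m : ℝ) = (m : ℝ) ^ (1 : ℝ) := (Real.rpow_one _).symm
      _ ≤ _ := Real.rpow_le_rpow_of_exponent_le hm1 (by linarith)
  have hB0 := abs_nonneg B
  have hrest : 0 ≤ 2 * (D * (A * 9) ^ (1 / 2 + ε / 2)) * (m : ℝ) ^ (1 + ε) := by positivity
  rcases Nat.lt_or_ge m m₀ with h | h
  · have h1 := hB m h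
    have h2 := le_abs_self B
    have h3 : |B| * 1 ≤ |B| * (m : ℝ) ^ (1 + ε) := mul_le_mul_of_nonneg_left hmε hB0
    have h4 : 0 ≤ 2 * C * (m : ℝ) ^ (1 + ε) := by positivity
    nlinarith
  · have hbm := hm₀ m h
    have hbm1 : b m ≤ b (m + 1) := hb.mono (Nat.le_succ m)
    have hbm2 := hm₀ (m + 1) (by omega)
    have h1 : Set.ncard {k | b m < p k ∧ p k < b (m + 1)} + countPr p (b m) ≤
        countPr p (b (m + 1)) := by
      unfold countPr
      have hdis : Disjoint {k | b m < p k ∧ p k < b (m + 1)} {j | p j ≤ b m} := by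
        rw [Set.disjoint_left]
        intro k hk hk2
        have hk' : p k ≤ b m := hk2
        linarith [hk.1]
      rw [← Set.ncard_union_eq hdis ((finite_le hS.tendsto (b (m + 1))).subset
        fun k hk => hk.2.le) (finite_le hS.tendsto _)]
      apply Set.ncard_le_ncard _ (finite_le hS.tendsto _)
      rintro k (hk | hk)
      · exact hk.2.le
      · have hk' : p k ≤ b m := hk
        exact hk'.trans hbm1
    have h2 : ((Set.ncard {k | b m < p k ∧ p k < b (m + 1)} : ℕ) : ℝ) ≤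
        countPr p (b (m + 1)) - countPr p (b m) := by
      have : ((Set.ncard {k | b m < p k ∧ p k < b (m + 1)} : ℕ) : ℝ) + countPr p (b m) ≤
        countPr p (b (m + 1)) := by exact_mod_cast h1
      linarith
    have e1 := hD (b m) (by linarith)
    have e2 := hD (b (m + 1)) (by linarith)
    unfold Err at e1 e2
    rw [if_pos hbm] at e1
    rw [if_pos hbm2] at e2
    have h3 := hR.F_sub_le hbm hbm1
    have h4 := hb.up m
    have h5 : b (m + 1) ≤ A * 9 * (m : ℝ) ^ 2 := by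
      have := hA (m + 1)
      push_cast at this
      have h6 : ((m : ℝ) + 1 + 1) ^ 2 ≤ 9 * (m : ℝ) ^ 2 := by nlinarith
      nlinarith
    have h6 : b (m + 1) ^ (1 / 2 + ε / 2) ≤ (A * 9) ^ (1 / 2 + ε / 2) * (m : ℝ) ^ (1 + ε) := by
      have h7 : (m : ℝ) ^ (1 + ε) = ((m : ℝ) ^ 2) ^ (1 / 2 + ε / 2) := by
        rw [← Real.rpow_natCast, ← Real.rpow_mul (by linarith)]
        congr 1
        push_cast
        ring
      rw [h7, ← Real.mul_rpow (by positivity) (by positivity)]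
      exact Real.rpow_le_rpow (by linarith) h5 (by positivity)
    have h7 : b m ^ (1 / 2 + ε / 2) ≤ b (m + 1) ^ (1 / 2 + ε / 2) :=
      Real.rpow_le_rpow (by linarith) hbm1 (by positivity)
    have h8 := (abs_le.1 e1).1
    have h9 := (abs_le.1 e2).2
    have h10 : D * b (m + 1) ^ (1 / 2 + ε / 2) ≤
        D * ((A * 9) ^ (1 / 2 + ε / 2) * (m : ℝ) ^ (1 + ε)) := mul_le_mul_of_nonneg_left h6 hD0
    have h11 : D * b m ^ (1 / 2 + ε / 2) ≤ D * b (m + 1) ^ (1 / 2 + ε / 2) :=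
      mul_le_mul_of_nonneg_left h7 hD0
    have h12 : C * ((m : ℝ) + 1) ≤ 2 * C * (m : ℝ) ^ (1 + ε) := by nlinarith
    have h13 : 0 ≤ |B| * (m : ℝ) ^ (1 + ε) := by positivity
    nlinarith

/-- **Necessary conditions** for the asymptotic shape. -/
theorem shape_nec {Z : Multiset ℂ} (hZ : ∀ ρ ∈ Z, ρ.re < 1) (hZc : Z.map conj = Z)
    {x₀ : ℝ} (hR : RDens (fZ Z) x₀) {p : ℕ → ℝ} (hS : SysW Z p) {b : ℕ → ℝ} {c C : ℝ}
    (hb : Brk b c C) {E : ℕ → ℝ} (hE0 : ∀ᶠ m in atTop, 0 < E m)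
    (hE1 : ∀ ε : ℝ, 0 < ε → ∀ᶠ m : ℕ in atTop, (m : ℝ) ^ (1 - ε) ≤ E m)
    (hE : Tendsto (fun m => (Fp (fZ Z) x₀ (b (m + 1)) - Fp (fZ Z) x₀ (b m)) / E m) atTop (𝓝 1))
    {r : ℕ → ℝ}
    (h : Tendsto (fun m => ((Set.ncard {k | b m < p k ∧ p k < b (m + 1)} : ℕ) : ℝ) / E m - r m)
      atTop (𝓝 0)) :
    (∀ δ : ℝ, 0 < δ → Sps {k | δ ≤ |r k - 1|}) ∧
      ∀ ε : ℝ, 0 < ε → ∃ D : ℝ, ∀ m : ℕ, 1 ≤ m → r m ≤ D * (m : ℝ) ^ ε := by
  constructor
  · intro δ hδ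
    set η : ℝ := min 1 (δ / 4) with hη
    have hη0 : 0 < η := by rw [hη]; positivity
    have hη1 : η ≤ 1 := min_le_left _ _
    have hηδ : η ≤ δ / 4 := min_le_right _ _
    have h1 := dev_count hZ hZc hR hS hb hη0 hη1
    have h2 : ∀ᶠ m in atTop, |(Fp (fZ Z) x₀ (b (m + 1)) - Fp (fZ Z) x₀ (b m)) / E m - 1| <
        min 1 (δ / 8) := (tendsto_order.1 (by
          have := (hE.sub_const 1).abs
          simpa using this)).2 _ (by positivity)
    have h3 : ∀ᶠ m in atTop, |((Set.ncard {k | b m < p k ∧ p k < b (m + 1)} : ℕ) : ℝ) / E m -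
        r m| < δ / 8 := (tendsto_order.1 (by simpa using h.abs)).2 _ (by positivity)
    obtain ⟨m₀, hm₀⟩ := eventually_atTop.1 ((h2.and h3).and hE0)
    refine h1.of_map (n₀ := m₀) (A := 1) (f := id) ?_ (fun n => by simp)
      (fun m n _ _ _ _ hmn => hmn)
    intro m hm hmm
    obtain ⟨⟨a1, a2⟩, a3⟩ := hm₀ m hmm
    have hm' : δ ≤ |r m - 1| := hm
    simp only [id, mem_ofPred_eq]
    set N : ℝ := ((Set.ncard {k | b m < p k ∧ p k < b (m + 1)} : ℕ) : ℝ) with hN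
    set G : ℝ := Fp (fZ Z) x₀ (b (m + 1)) - Fp (fZ Z) x₀ (b m) with hG
    have b1 := lt_of_lt_of_le a1 (min_le_left _ _)
    have b2 := lt_of_lt_of_le a1 (min_le_right _ _)
    -- |N/E - G/E| ≥ δ - δ/8 - δ/8
    have b3 : δ / 2 ≤ |N / E m - G / E m| := by
      have c1 : |r m - 1| ≤ |N / E m - r m| + |N / E m - G / E m| + |G / E m - 1| := by
        have e : r m - 1 = -(N / E m - r m) + (N / E m - G / E m) + (G / E m - 1) := by ring
        rw [e]
        refine (abs_add_le _ _).trans ?_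
        have := abs_add_le (-(N / E m - r m)) (N / E m - G / E m)
        rw [abs_neg] at this
        linarith
      linarith
    have b4 : |N / E m - G / E m| = |N - G| / E m := by
      rw [← sub_div, abs_div, abs_of_pos a3]
    rw [b4, le_div_iff₀ a3] at b3
    have b5 : G / E m ≤ 2 := by linarith [(abs_lt.1 b1).2]
    rw [div_le_iff₀ a3] at b5
    have b6 : η * G ≤ η * (2 * E m) := mul_le_mul_of_nonneg_left b5 hη0.le
    have b7 : η * (2 * E m) ≤ δ / 4 * (2 * E m) := mul_le_mul_of_nonneg_right hηδ (by linarith)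
    linarith
  · intro ε hε
    obtain ⟨D, hD⟩ := cnt_up hZ hR hS hb (half_pos hε)
    have h3 : ∀ᶠ m in atTop, |((Set.ncard {k | b m < p k ∧ p k < b (m + 1)} : ℕ) : ℝ) / E m -
        r m| < 1 := (tendsto_order.1 (by simpa using h.abs)).2 _ one_pos
    obtain ⟨m₀, hm₀⟩ := eventually_atTop.1 ((h3.and (hE1 (ε / 2) (half_pos hε))).and hE0)
    obtain ⟨B, hB⟩ : ∃ B : ℝ, ∀ m < m₀, r m ≤ B := by
      obtain ⟨B, hB⟩ := ((Set.finite_Iio m₀).image r).bddAbove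
      exact ⟨B, fun m hm => hB ⟨m, hm, rfl⟩⟩
    refine ⟨|B| + |D| + 1, fun m hm => ?_⟩
    have hm1 : (1 : ℝ) ≤ m := by exact_mod_cast hm
    have hm0 : (0 : ℝ) < m := by linarith
    have hmε : 1 ≤ (m : ℝ) ^ ε := Real.one_le_rpow hm1 hε.le
    have hB0 := abs_nonneg B
    have hD0 := abs_nonneg D
    rcases Nat.lt_or_ge m m₀ with h5 | h5
    · have h1 := hB m h5
      have h2 := le_abs_self B
      nlinarith
    · obtain ⟨⟨a1, a2⟩, a3⟩ := hm₀ m h5
      have a4 := (abs_lt.1 a1).1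
      have a5 := hD m hm
      have a6 : ((Set.ncard {k | b m < p k ∧ p k < b (m + 1)} : ℕ) : ℝ) / E m ≤
          |D| * (m : ℝ) ^ ε := by
        rw [div_le_iff₀ a3]
        have e1 : (m : ℝ) ^ (1 + ε / 2) = (m : ℝ) ^ ε * (m : ℝ) ^ (1 - ε / 2) := by
          rw [← Real.rpow_add hm0]
          congr 1
          ring
        rw [e1] at a5
        calc _ ≤ D * ((m : ℝ) ^ ε * (m : ℝ) ^ (1 - ε / 2)) := a5
          _ ≤ |D| * ((m : ℝ) ^ ε * (m : ℝ) ^ (1 - ε / 2)) :=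
              mul_le_mul_of_nonneg_right (le_abs_self D) (by positivity)
          _ = |D| * (m : ℝ) ^ ε * (m : ℝ) ^ (1 - ε / 2) := by ring
          _ ≤ _ := mul_le_mul_of_nonneg_left a2 (by positivity)
      nlinarith

/-- **Sufficient conditions** for the asymptotic shape. -/
theorem shape_suff {Z : Multiset ℂ} (hZ : ∀ ρ ∈ Z, ρ.re < 1) (hZc : Z.map conj = Z)
    {x₀ : ℝ} (hR : RDens (fZ Z) x₀) {b : ℕ → ℝ} {c C : ℝ}
    (hb : Brk b c C) {E : ℕ → ℝ} (hE0 : ∀ᶠ m in atTop, 0 < E m)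
    (hE2 : Tendsto E atTop atTop)
    (hE3 : ∀ ε : ℝ, 0 < ε → ∃ D : ℝ, ∀ m : ℕ, 1 ≤ m → |E m| ≤ D * (m : ℝ) ^ (1 + ε))
    (hE : Tendsto (fun m => (Fp (fZ Z) x₀ (b (m + 1)) - Fp (fZ Z) x₀ (b m)) / E m) atTop (𝓝 1))
    {r : ℕ → ℝ} (hr0 : ∀ m, 0 ≤ r m) (h1 : ∀ δ : ℝ, 0 < δ → Sps {k | δ ≤ |r k - 1|})
    (h2 : ∀ ε : ℝ, 0 < ε → ∃ D : ℝ, ∀ m : ℕ, 1 ≤ m → r m ≤ D * (m : ℝ) ^ ε) :
    ∃ p : ℕ → ℝ, Sys Z p ∧
      Tendsto (fun m => ((Set.ncard {k | b m < p k ∧ p k < b (m + 1)} : ℕ) : ℝ) / E m - r m)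
        atTop (𝓝 0) := by
  obtain ⟨S, hSs, hSd⟩ := diag h1
  obtain ⟨p, hp, m₀, hm₀⟩ := seq_suff hZ hZc hR hb (S := S) (a := fun m => ⌊r m * E m⌋₊) hSs (by
    intro ε hε
    obtain ⟨D, hD⟩ := h2 (ε / 2) (half_pos hε)
    obtain ⟨D', hD'⟩ := hE3 (ε / 2) (half_pos hε)
    refine ⟨|D| * |D'|, fun m _ hm => ?_⟩
    have hm1 : (1 : ℝ) ≤ m := by exact_mod_cast hm
    have hm0 : (0 : ℝ) < m := by linarith
    have e1 : (⌊r m * E m⌋₊ : ℝ) ≤ r m * |E m| := by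
      have h3 : r m * E m ≤ r m * |E m| := mul_le_mul_of_nonneg_left (le_abs_self _) (hr0 m)
      have h4 : 0 ≤ r m * |E m| := mul_nonneg (hr0 m) (abs_nonneg _)
      rcases le_or_gt 0 (r m * E m) with h5 | h5
      · exact (Nat.floor_le h5).trans h3
      · rw [Nat.floor_of_nonpos h5.le]
        simpa using h4
    refine e1.trans ?_
    have e2 : r m ≤ |D| * (m : ℝ) ^ (ε / 2) :=
      (hD m hm).trans (mul_le_mul_of_nonneg_right (le_abs_self D) (by positivity))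
    have e3 : |E m| ≤ |D'| * (m : ℝ) ^ (1 + ε / 2) :=
      (hD' m hm).trans (mul_le_mul_of_nonneg_right (le_abs_self D') (by positivity))
    calc r m * |E m| ≤ (|D| * (m : ℝ) ^ (ε / 2)) * (|D'| * (m : ℝ) ^ (1 + ε / 2)) :=
          mul_le_mul e2 e3 (abs_nonneg _) (by positivity)
      _ = |D| * |D'| * ((m : ℝ) ^ (ε / 2) * (m : ℝ) ^ (1 + ε / 2)) := by ring
      _ = |D| * |D'| * (m : ℝ) ^ (1 + ε) := by
          rw [← Real.rpow_add hm0]
          congr 2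
          ring)
  refine ⟨p, hp, ?_⟩
  rw [Metric.tendsto_atTop]
  intro ε hε
  obtain ⟨k₀, hk₀⟩ := hSd (ε / 4) (by positivity)
  have h3 : ∀ᶠ m in atTop, |(Fp (fZ Z) x₀ (b (m + 1)) - Fp (fZ Z) x₀ (b m)) / E m - 1| <
      ε / 4 := (tendsto_order.1 (by
        have := (hE.sub_const 1).abs
        simpa using this)).2 _ (by positivity)
  obtain ⟨m₁, hm₁⟩ := eventually_atTop.1 ((h3.and hE0).and (hE2.eventually_ge_atTop (16 / ε)))
  refine ⟨max (max m₀ k₀) m₁, fun m hm => ?_⟩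
  have hma : m₀ ≤ m := (le_max_left _ _).trans ((le_max_left _ _).trans hm)
  have hmb : k₀ ≤ m := (le_max_right _ _).trans ((le_max_left _ _).trans hm)
  obtain ⟨⟨a1, a2⟩, a3⟩ := hm₁ m ((le_max_right _ _).trans hm)
  obtain ⟨-, b1, b2⟩ := hm₀ m hma
  rw [Real.dist_eq, sub_zero]
  have a4 : 2 / E m ≤ ε / 8 := by
    rw [div_le_iff₀ a2]
    rw [div_le_iff₀ hε] at a3
    linarith
  rcases em (m ∈ S) with hmS | hmS
  · rw [b1 hmS]
    have c1 : 0 ≤ r m * E m := mul_nonneg (hr0 m) a2.le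
    have c2 := Nat.floor_le c1
    have c3 := Nat.lt_floor_add_one (r m * E m)
    have c4 : (⌊r m * E m⌋₊ : ℝ) / E m - r m = ((⌊r m * E m⌋₊ : ℝ) - r m * E m) / E m := by
      field_simp
    rw [c4, abs_div, abs_of_pos a2]
    have c5 : |(⌊r m * E m⌋₊ : ℝ) - r m * E m| ≤ 2 := by
      rw [abs_le]
      constructor <;> linarith
    have c6 := div_le_div_of_nonneg_right c5 a2.le
    linarith
  · have c1 := b2 hmS
    have c2 := hk₀ m hmb hmS
    set N : ℝ := ((Set.ncard {k | b m < p k ∧ p k < b (m + 1)} : ℕ) : ℝ) with hN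
    set G : ℝ := Fp (fZ Z) x₀ (b (m + 1)) - Fp (fZ Z) x₀ (b m) with hG
    have e : N / E m - r m = (N - G) / E m + (G / E m - 1) + -(r m - 1) := by
      field_simp
      ring
    rw [e]
    have c3 := abs_add_le ((N - G) / E m + (G / E m - 1)) (-(r m - 1))
    have c4 := abs_add_le ((N - G) / E m) (G / E m - 1)
    rw [abs_neg] at c3
    have c5 : |(N - G) / E m| ≤ 2 / E m := by
      rw [abs_div, abs_of_pos a2]
      exact div_le_div_of_nonneg_right c1 a2.le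
    linarith

end Pool.Agent.H521.G
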