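import Pool.Agent.H521.G.Opp

open MeasureTheory Set Filter Topology
open scoped ComplexConjugate Classical

namespace Pool.Agent.H521.G

/-- distance from `n ^ 2` to the next element -/
noncomputable def gapSq (p : ℕ → ℝ) (n : ℕ) : ℝ :=
  sInf {x : ℝ | (∃ k, p k = x) ∧ (n : ℝ) ^ 2 < x} - (n : ℝ) ^ 2

theorem gapSq_attained {p : ℕ → ℝ} (hpm : StrictMono p) (hpt : Tendsto p atTop atTop) (n : ℕ) :
    ∃ k, p k = (n : ℝ) ^ 2 + gapSq p n ∧ (n : ℝ) ^ 2 < p k ∧
      ∀ j, (n : ℝ) ^ 2 < p j → p k ≤ p j := by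
  have hex : ∃ k, (n : ℝ) ^ 2 < p k := (hpt.eventually_gt_atTop _).exists
  have hk := Nat.find_spec hex
  set k := Nat.find hex with hk0
  have hmin : ∀ j, (n : ℝ) ^ 2 < p j → p k ≤ p j := fun j hj =>
    hpm.monotone (Nat.find_min' hex hj)
  refine ⟨k, ?_, hk, hmin⟩
  have hl : IsLeast {x : ℝ | (∃ k, p k = x) ∧ (n : ℝ) ^ 2 < x} (p k) := by
    refine ⟨⟨⟨k, rfl⟩, hk⟩, ?_⟩
    rintro x ⟨⟨j, rfl⟩, hj⟩
    exact hmin j hj
  unfold gapSq
  rw [hl.csInf_eq]
  ring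

theorem lt_gapSq {p : ℕ → ℝ} (hpm : StrictMono p) (hpt : Tendsto p atTop atTop) {n : ℕ} {w : ℝ} :
    w < gapSq p n ↔ ∀ k, ¬ ((n : ℝ) ^ 2 < p k ∧ p k ≤ (n : ℝ) ^ 2 + w) := by
  obtain ⟨k, h1, h2, h3⟩ := gapSq_attained hpm hpt n
  constructor
  · rintro hw j ⟨h4, h5⟩
    have := h3 j h4
    linarith
  · intro h
    by_contra hc
    push Not at hc
    exact h k ⟨h2, by linarith⟩

theorem gapSq_le {p : ℕ → ℝ} (hpm : StrictMono p) (hpt : Tendsto p atTop atTop) {n : ℕ} {w : ℝ}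
    (h : ∃ k, (n : ℝ) ^ 2 < p k ∧ p k ≤ (n : ℝ) ^ 2 + w) : gapSq p n ≤ w := by
  by_contra hc
  push Not at hc
  obtain ⟨k, hk⟩ := h
  exact (lt_gapSq hpm hpt).1 hc k hk

/-- Selberg's bound for the number of long gaps after squares. -/
theorem sq_count {Z : Multiset ℂ} (hZ : ∀ ρ ∈ Z, ρ.re < 1) (hZc : Z.map conj = Z)
    {p : ℕ → ℝ} (hS : SysW Z p) {θ : ℝ} (hθ : 0 < θ) (hθ1 : θ ≤ 1) {ε : ℝ} (hε : 0 < ε) :
    ∃ C : ℝ, ∀ N : ℕ, 1 ≤ N →
      ((Set.ncard {n : ℕ | n ≤ N ∧ (n : ℝ) ^ θ < gapSq p n} : ℕ) : ℝ) ≤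
        C * (N : ℝ) ^ (2 - 2 * θ + ε) := by
  set e : ℝ := ε / 2 with he
  have he0 : 0 < e := by rw [he]; positivity
  obtain ⟨C, hC0, hC⟩ := selberg hZ hZc hS he0
  set A : ℝ → Set ℕ := fun x => {n : ℕ | (n : ℝ) ^ 2 ≤ x ∧ (n : ℝ) ^ θ < gapSq p n} with hA
  have hfin : ∀ x, (A x).Finite := by
    intro x
    apply (Set.finite_Iic ⌊x⌋₊).subset
    rintro n ⟨h1, -⟩
    rw [mem_Iic]
    apply Nat.le_floor
    rcases Nat.eq_zero_or_pos n with h | h
    · subst h
      simpa using h1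
    · have h2 : (1 : ℝ) ≤ n := by exact_mod_cast h
      nlinarith
  have hexp : 0 < 1 - θ + e := by linarith
  obtain ⟨C', hC'⟩ := count_doubling (N := fun x => ((A x).ncard : ℝ)) (by
    intro x y hxy
    have h1 : A x ⊆ A y := fun n hn => ⟨hn.1.trans hxy, hn.2⟩
    have h2 := Set.ncard_le_ncard h1 (hfin y)
    exact_mod_cast h2) (C := C) hexp le_rfl hC0.le (by
    intro x hx
    have hx0 : 0 < x := by linarith
    set D : Set ℕ := {n : ℕ | (x ≤ (n : ℝ) ^ 2 ∧ (n : ℝ) ^ 2 ≤ 2 * x) ∧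
      (n : ℝ) ^ θ < gapSq p n} with hD
    have hDfin : D.Finite := (hfin (2 * x)).subset fun n hn => ⟨hn.1.2, hn.2⟩
    have hsub : A (2 * x) ⊆ A x ∪ D := by
      intro n hn
      rcases le_or_gt ((n : ℝ) ^ 2) x with h | h
      · left; exact ⟨h, hn.2⟩
      · right; exact ⟨⟨h.le, hn.1⟩, hn.2⟩
    have h1 : (A (2 * x)).ncard ≤ (A x).ncard + D.ncard :=
      (Set.ncard_le_ncard hsub ((hfin x).union hDfin)).trans (Set.ncard_union_le _ _)
    set h : ℝ := x ^ (θ / 2) with hh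
    have hh1 : 1 ≤ h := Real.one_le_rpow hx (by positivity)
    have hhx : h ≤ x := by
      calc h ≤ x ^ (1 : ℝ) := Real.rpow_le_rpow_of_exponent_le hx (by linarith)
        _ = x := Real.rpow_one x
    have hpow : ∀ n : ℕ, x ≤ (n : ℝ) ^ 2 → h ≤ (n : ℝ) ^ θ := by
      intro n hn
      have h2 : (n : ℝ) ^ θ = ((n : ℝ) ^ 2) ^ (θ / 2) := by
        rw [← Real.rpow_natCast, ← Real.rpow_mul (Nat.cast_nonneg n)]
        congr 1
        push_cast
        ring
      rw [h2, hh]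
      exact Real.rpow_le_rpow hx0.le hn (by positivity)
    have hn1 : ∀ n : ℕ, x ≤ (n : ℝ) ^ 2 → (1 : ℝ) ≤ n := by
      intro n hn
      rcases Nat.eq_zero_or_pos n with h5 | h5
      · subst h5
        norm_num at hn
        linarith
      · exact_mod_cast h5
    have hpow1 : ∀ n : ℕ, x ≤ (n : ℝ) ^ 2 → h ≤ n := by
      intro n hn
      refine (hpow n hn).trans ?_
      calc (n : ℝ) ^ θ ≤ (n : ℝ) ^ (1 : ℝ) := Real.rpow_le_rpow_of_exponent_le (hn1 n hn) hθ1
        _ = n := Real.rpow_one _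
    set T : Finset ℝ := hDfin.toFinset.image fun n : ℕ => (n : ℝ) ^ 2 with hT
    have hinj : Function.Injective fun n : ℕ => (n : ℝ) ^ 2 := by
      intro m n hmn
      simp only at hmn
      have h5 : m ^ 2 = n ^ 2 := by exact_mod_cast hmn
      exact (Nat.pow_left_injective (by norm_num : 2 ≠ 0)) h5
    have hcard : (T.card : ℝ) = D.ncard := by
      rw [hT, Finset.card_image_of_injective _ hinj, Set.ncard_eq_toFinset_card _ hDfin]
    have hmem : ∀ u ∈ T, ∃ n : ℕ, n ∈ D ∧ (n : ℝ) ^ 2 = u := by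
      intro u hu
      rw [hT] at hu
      obtain ⟨n, hn, rfl⟩ := Finset.mem_image.1 hu
      exact ⟨n, (Set.Finite.mem_toFinset _).1 hn, rfl⟩
    have key := hC x h hx hh1 hhx T (by
      intro u hu
      obtain ⟨n, hn, rfl⟩ := hmem u hu
      exact hn.1) (by
      intro u hu v hv huv
      obtain ⟨n, hn, rfl⟩ := hmem u hu
      obtain ⟨m, hm, rfl⟩ := hmem v hv
      have h3 : (n : ℝ) < m := by
        by_contra hc
        push Not at hc
        have : (0 : ℝ) ≤ m := Nat.cast_nonneg m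
        nlinarith
      have h4 : n < m := by exact_mod_cast h3
      have h5 : (n : ℝ) + 1 ≤ m := by exact_mod_cast h4
      have h6 := hpow1 n hn.1.1
      have h7 := hn1 n hn.1.1
      nlinarith) (by
      intro u hu k
      obtain ⟨n, hn, rfl⟩ := hmem u hu
      rcases le_or_gt (p k) ((n : ℝ) ^ 2) with h3 | h3
      · left; exact h3
      · right
        have h4 := (lt_gapSq hS.mono hS.tendsto).1 hn.2 k
        push Not at h4
        have h5 := h4 h3
        have h6 := hpow n hn.1.1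
        linarith)
    rw [hcard] at key
    have e1 : h ^ 2 = x ^ θ := by
      rw [hh, ← Real.rpow_natCast, ← Real.rpow_mul hx0.le]
      congr 1
      push_cast
      ring
    have e2 : x ^ (1 + e) = x ^ (1 - θ + e) * x ^ θ := by
      rw [← Real.rpow_add hx0]
      congr 1
      ring
    rw [e1, e2, ← mul_assoc] at key
    have h6 : (D.ncard : ℝ) ≤ C * x ^ (1 - θ + e) :=
      le_of_mul_le_mul_right key (Real.rpow_pos_of_pos hx0 _)
    have h3 : ((A (2 * x)).ncard : ℝ) ≤ (A x).ncard + D.ncard := by exact_mod_cast h1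
    linarith)
  refine ⟨C', fun N hN => ?_⟩
  have hN1 : (1 : ℝ) ≤ N := by exact_mod_cast hN
  have h1 := hC' ((N : ℝ) ^ 2) (by nlinarith)
  have h2 : {n : ℕ | n ≤ N ∧ (n : ℝ) ^ θ < gapSq p n} ⊆ A ((N : ℝ) ^ 2) := by
    rintro n ⟨h3, h4⟩
    refine ⟨?_, h4⟩
    have : (n : ℝ) ≤ N := by exact_mod_cast h3
    exact pow_le_pow_left₀ (Nat.cast_nonneg n) this 2
  have h3 : (({n : ℕ | n ≤ N ∧ (n : ℝ) ^ θ < gapSq p n}.ncard : ℕ) : ℝ) ≤
      ((A ((N : ℝ) ^ 2)).ncard : ℝ) := by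
    exact_mod_cast Set.ncard_le_ncard h2 (hfin _)
  refine h3.trans (h1.trans (le_of_eq ?_))
  rw [← Real.rpow_natCast, ← Real.rpow_mul (Nat.cast_nonneg N)]
  congr 2
  rw [he]
  push_cast
  ring

/-- **Prescribed gaps after the squares.** -/
theorem sq_exists {Z : Multiset ℂ} (hZ : ∀ ρ ∈ Z, ρ.re < 1) (hZc : Z.map conj = Z)
    {v : ℕ → ℝ} (hv0 : ∀ n, 0 ≤ v n) (hv1 : ∀ᶠ n : ℕ in atTop, v n + 10 * Real.log n ≤ 2 * n)
    (hv : ∀ ε : ℝ, 0 < ε → ∃ C : ℝ, ∀ N : ℕ, 1 ≤ N →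
      ∑ n ∈ Finset.Icc 1 N, v n ≤ C * (N : ℝ) ^ (1 + ε)) :
    ∃ p : ℕ → ℝ, Sys Z p ∧ ∀ᶠ n : ℕ in atTop,
      v n < gapSq p n ∧ gapSq p n ≤ v n + 10 * Real.log n := by
  obtain ⟨x₀, hR⟩ := exists_RDens hZ
  obtain ⟨n₀, hn₀⟩ := eventually_atTop.1 hv1
  set m₀ : ℕ := max n₀ 1 with hm₀
  set Q : Set (ℝ × ℝ) := {q | ∃ n : ℕ, m₀ ≤ n ∧ q = ((n : ℝ) ^ 2, (n : ℝ) ^ 2 + v n)} with hQ
  obtain ⟨x₁, p, hsys, hvoid, hgap⟩ := blocked_count hZ hZc hR (Q := Q) (P := ∅) (by
    rintro q ⟨n, -, rfl⟩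
    simp only
    linarith [hv0 n]) (by
    intro ε hε
    obtain ⟨C, hC⟩ := hv (2 * ε) (by positivity)
    refine ⟨|C| + 1, fun x hx Q' hQ' => ?_⟩
    set N : ℕ := ⌊√x⌋₊ with hN
    have hsx : 1 ≤ √x := Real.one_le_sqrt.2 hx
    have hN1 : 1 ≤ N := Nat.le_floor (by simpa using hsx)
    have hNx : (N : ℝ) ≤ √x := Nat.floor_le (Real.sqrt_nonneg x)
    have hsub : Q' ⊆ (Finset.Icc 1 N).image fun n : ℕ => ((n : ℝ) ^ 2, (n : ℝ) ^ 2 + v n) := by
      intro q hq
      obtain ⟨⟨n, hn, rfl⟩, h2⟩ := hQ' q hq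
      simp only at h2
      apply Finset.mem_image_of_mem
      rw [Finset.mem_Icc]
      refine ⟨(le_max_right _ _).trans hn, Nat.le_floor ?_⟩
      exact Real.le_sqrt_of_sq_le h2
    have hnn : ∀ q ∈ (Finset.Icc 1 N).image fun n : ℕ => ((n : ℝ) ^ 2, (n : ℝ) ^ 2 + v n),
        0 ≤ q.2 - q.1 + 1 := by
      intro q hq
      obtain ⟨n, -, rfl⟩ := Finset.mem_image.1 hq
      simp only
      linarith [hv0 n]
    have hinj : Function.Injective fun n : ℕ => (((n : ℝ) ^ 2, (n : ℝ) ^ 2 + v n) : ℝ × ℝ) := by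
      intro m n hmn
      simp only [Prod.mk.injEq] at hmn
      have h5 : m ^ 2 = n ^ 2 := by exact_mod_cast hmn.1
      exact (Nat.pow_left_injective (by norm_num : 2 ≠ 0)) h5
    calc ∑ q ∈ Q', (q.2 - q.1 + 1) ≤
        ∑ q ∈ (Finset.Icc 1 N).image (fun n : ℕ => ((n : ℝ) ^ 2, (n : ℝ) ^ 2 + v n)),
          (q.2 - q.1 + 1) := Finset.sum_le_sum_of_subset_of_nonneg hsub fun q hq _ => hnn q hq
      _ = ∑ n ∈ Finset.Icc 1 N, (v n + 1) := by
          rw [Finset.sum_image fun a _ b _ hab => hinj hab]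
          apply Finset.sum_congr rfl
          intro n _
          simp only
          ring
      _ = ∑ n ∈ Finset.Icc 1 N, v n + N := by
          rw [Finset.sum_add_distrib]
          simp
      _ ≤ |C| * (N : ℝ) ^ (1 + 2 * ε) + N := by
          have h1 := hC N hN1
          have h2 : C * (N : ℝ) ^ (1 + 2 * ε) ≤ |C| * (N : ℝ) ^ (1 + 2 * ε) :=
            mul_le_mul_of_nonneg_right (le_abs_self C) (by positivity)
          linarith
      _ ≤ |C| * (N : ℝ) ^ (1 + 2 * ε) + (N : ℝ) ^ (1 + 2 * ε) := by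
          have hN1' : (1 : ℝ) ≤ N := by exact_mod_cast hN1
          have : (N : ℝ) ^ (1 : ℝ) ≤ (N : ℝ) ^ (1 + 2 * ε) :=
            Real.rpow_le_rpow_of_exponent_le hN1' (by linarith)
          rw [Real.rpow_one] at this
          linarith
      _ = (|C| + 1) * (N : ℝ) ^ (1 + 2 * ε) := by ring
      _ ≤ (|C| + 1) * x ^ (1 / 2 + ε) := by
          apply mul_le_mul_of_nonneg_left _ (by positivity)
          calc (N : ℝ) ^ (1 + 2 * ε) ≤ (√x) ^ (1 + 2 * ε) :=
                Real.rpow_le_rpow (Nat.cast_nonneg N) hNx (by positivity)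
            _ = x ^ (1 / 2 + ε) := by
                rw [Real.sqrt_eq_rpow, ← Real.rpow_mul (by linarith)]
                congr 1
                ring) (by
    intro ε hε
    refine ⟨0, fun x hx P' hP' => ?_⟩
    have : P' = ∅ := by
      apply Finset.eq_empty_of_forall_notMem
      intro u hu
      exact (hP' u hu).1
    rw [this]
    simp)
  refine ⟨p, hsys, ?_⟩
  have hsq : Tendsto (fun n : ℕ => (n : ℝ) ^ 2) atTop atTop :=
    (tendsto_pow_atTop (by norm_num)).comp tendsto_natCast_atTop_atTop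
  have hlog : Tendsto (fun n : ℕ => Real.log n) atTop atTop :=
    Real.tendsto_log_atTop.comp tendsto_natCast_atTop_atTop
  filter_upwards [hsq.eventually_ge_atTop (max x₁ x₀), eventually_ge_atTop m₀,
    hlog.eventually_ge_atTop (10 : ℝ), eventually_ge_atTop 1] with n h1 h2 h3 h4
  have h1a : x₁ ≤ (n : ℝ) ^ 2 := (le_max_left _ _).trans h1
  have h1b : x₀ ≤ (n : ℝ) ^ 2 := (le_max_right _ _).trans h1
  have hn1 : (1 : ℝ) ≤ n := by exact_mod_cast h4
  have hvn := hn₀ n ((le_max_left _ _).trans h2)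
  have hv0n := hv0 n
  constructor
  · rw [lt_gapSq hsys.mono hsys.tendsto]
    rintro k ⟨h5, h6⟩
    have h7 := (hvoid (p k) ⟨((n : ℝ) ^ 2, (n : ℝ) ^ 2 + v n), ⟨n, h2, rfl⟩, h1a, h5.le, h6⟩).1
      ⟨k, rfl⟩
    exact h7
  · apply gapSq_le hsys.mono hsys.tendsto
    set x : ℝ := (n : ℝ) ^ 2 + v n with hx
    set y : ℝ := (n : ℝ) ^ 2 + (v n + 10 * Real.log n) with hy
    have hxy : x ≤ y := by rw [hx, hy]; linarith
    have hcnt := hgap x y (by linarith) hxy (by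
      rintro q ⟨m, hm, rfl⟩
      simp only
      rcases Nat.lt_or_ge n m with h5 | h5
      · right
        have h6 : (n : ℝ) + 1 ≤ m := by exact_mod_cast h5
        nlinarith
      · left
        rcases Nat.eq_or_lt_of_le h5 with h6 | h6
        · rw [h6]
        · have h7 : (m : ℝ) + 1 ≤ n := by exact_mod_cast h6
          have h8 := hn₀ m ((le_max_left _ _).trans hm)
          have h9 : (1 : ℝ) ≤ m := by exact_mod_cast (le_max_right n₀ 1).trans hm
          have h10 : 0 ≤ Real.log m := Real.log_nonneg h9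
          nlinarith)
    have hF := hR.F_sub_ge (by linarith : x₀ ≤ x) hxy
    have hyn : y ≤ ((n : ℝ) + 1) ^ 2 := by rw [hy]; nlinarith
    have hyl : Real.log y ≤ 2 * Real.log n + 2 := by
      have h5 : Real.log y ≤ Real.log (((n : ℝ) + 1) ^ 2) := Real.log_le_log (by rw [hy]; nlinarith) hyn
      rw [Real.log_pow] at h5
      have h6 : Real.log ((n : ℝ) + 1) ≤ Real.log n + 1 := by
        have h7 : (n : ℝ) + 1 ≤ n * Real.exp 1 := by
          have := Real.add_one_le_exp 1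
          nlinarith
        have h8 := Real.log_le_log (by linarith) h7
        rw [Real.log_mul (by linarith) (Real.exp_pos 1).ne', Real.log_exp] at h8
        exact h8
      push_cast at h5
      linarith
    have hyl0 : 0 < Real.log y := Real.log_pos (by rw [hy]; nlinarith)
    have hbig : 2 < Fp (fZ Z) x₀ y - Fp (fZ Z) x₀ x := by
      refine lt_of_lt_of_le ?_ hF
      have e : y - x = 10 * Real.log n := by rw [hy, hx]; ring
      rw [e, lt_div_iff₀ (by positivity)]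
      nlinarith
    have hpos : 0 < ((Set.ncard {k | x < p k ∧ p k < y} : ℕ) : ℝ) := by
      have h5 := (abs_le.1 hcnt).1
      linarith
    have hne : Set.ncard {k | x < p k ∧ p k < y} ≠ 0 := by
      intro h5
      rw [h5] at hpos
      simp at hpos
    obtain ⟨k, hk1, hk2⟩ := Set.nonempty_of_ncard_ne_zero hne
    exact ⟨k, by linarith, hk2.le⟩

end Pool.Agent.H521.G
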