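import Pool.Agent.H521.G.Sq1

open MeasureTheory Set Filter Topology
open scoped ComplexConjugate Classical

namespace Pool.Agent.H521.G

theorem prod_le_card (s : Finset ℕ) (hs : ∀ a ∈ s, 2 ≤ a) :
    ∏ a ∈ s, a ≤ (s.card + 1) * ∏ a ∈ s, (a - 1) := by
  induction s using Finset.induction_on_max with
  | empty => simp
  | insert a s hmax ih =>
    have ha : a ∉ s := fun h => lt_irrefl _ (hmax a h)
    have ih' := ih fun x hx => hs x (Finset.mem_insert_of_mem hx)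
    have h2a := hs a (Finset.mem_insert_self a s)
    have hcard : s.card ≤ a - 2 := by
      have h1 : s ⊆ Finset.Ico 2 a := by
        intro x hx
        rw [Finset.mem_Ico]
        exact ⟨hs x (Finset.mem_insert_of_mem hx), hmax x hx⟩
      have h2 := Finset.card_le_card h1
      rwa [Nat.card_Ico] at h2
    rw [Finset.prod_insert ha, Finset.prod_insert ha, Finset.card_insert_of_notMem ha]
    obtain ⟨b, rfl⟩ : ∃ b, a = b + 2 := ⟨a - 2, by omega⟩
    have e : b + 2 - 1 = b + 1 := by omega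
    rw [e]
    have h3 : s.card ≤ b := by omega
    set k := s.card
    set P := ∏ a ∈ s, (a - 1)
    calc (b + 2) * ∏ a ∈ s, a ≤ (b + 2) * ((k + 1) * P) := Nat.mul_le_mul_left _ ih'
      _ = ((b + 2) * (k + 1)) * P := by ring
      _ ≤ ((k + 1 + 1) * (b + 1)) * P := by
          apply Nat.mul_le_mul_right
          nlinarith
      _ = (k + 1 + 1) * ((b + 1) * P) := by ring

theorem le_totient_mul (n : ℕ) : n ≤ Nat.totient n * (n.primeFactors.card + 1) := by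
  have h1 := Nat.totient_mul_prod_primeFactors n
  have h2 := prod_le_card n.primeFactors fun a ha => (Nat.prime_of_mem_primeFactors ha).two_le
  have h3 : 0 < ∏ p ∈ n.primeFactors, (p - 1) := by
    apply Finset.prod_pos
    intro a ha
    have := (Nat.prime_of_mem_primeFactors ha).two_le
    omega
  have h4 : n * ∏ p ∈ n.primeFactors, (p - 1) ≤
      (Nat.totient n * (n.primeFactors.card + 1)) * ∏ p ∈ n.primeFactors, (p - 1) := by
    rw [← h1, mul_assoc]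
    exact Nat.mul_le_mul_left _ h2
  exact Nat.le_of_mul_le_mul_right h4 h3

theorem card_primeFactors_le (n : ℕ) (hn : 1 ≤ n) : (n.primeFactors.card : ℝ) ≤ 2 * Real.log n := by
  have h1 : 2 ^ n.primeFactors.card ≤ n := by
    calc 2 ^ n.primeFactors.card ≤ ∏ p ∈ n.primeFactors, p :=
          Finset.pow_card_le_prod _ _ _ fun p hp => (Nat.prime_of_mem_primeFactors hp).two_le
      _ ≤ n := Nat.le_of_dvd hn (Nat.prod_primeFactors_dvd n)
  have h2 : ((2 : ℝ) ^ n.primeFactors.card) ≤ n := by exact_mod_cast h1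
  have h3 := Real.log_le_log (by positivity) h2
  rw [Real.log_pow] at h3
  have h4 := Real.log_two_gt_d9
  nlinarith [(Nat.cast_nonneg n.primeFactors.card : (0 : ℝ) ≤ n.primeFactors.card)]

/-- the totient function is at least `n^θ` -/
theorem rpow_le_totient {θ : ℝ} (hθ : θ < 1) : ∀ᶠ n : ℕ in atTop, (n : ℝ) ^ θ ≤ 1 + Nat.totient n := by
  have h1 : Tendsto (fun x : ℝ => Real.log x / x ^ (1 - θ)) atTop (𝓝 0) :=
    (isLittleO_log_rpow_atTop (by linarith)).tendsto_div_nhds_zero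
  have h2 := (h1.comp tendsto_natCast_atTop_atTop).eventually_le_const (by norm_num : (0 : ℝ) < 1 / 3)
  have h3 : ∀ᶠ n : ℕ in atTop, (1 : ℝ) ≤ Real.log n :=
    (Real.tendsto_log_atTop.comp tendsto_natCast_atTop_atTop).eventually_ge_atTop 1
  filter_upwards [h2, h3, eventually_ge_atTop 1] with n h4 h5 h6
  simp only [Function.comp] at h4
  have hn : (0 : ℝ) < n := by exact_mod_cast h6
  have hp : 0 < (n : ℝ) ^ (1 - θ) := Real.rpow_pos_of_pos hn _
  rw [div_le_iff₀ hp] at h4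
  have h7 : (n : ℝ) ≤ Nat.totient n * (n.primeFactors.card + 1) := by
    exact_mod_cast le_totient_mul n
  have h8 := card_primeFactors_le n h6
  have h9 : (0 : ℝ) ≤ Nat.totient n := Nat.cast_nonneg _
  have h10 : (n : ℝ) ≤ Nat.totient n * (n : ℝ) ^ (1 - θ) := by
    refine h7.trans (mul_le_mul_of_nonneg_left ?_ h9)
    linarith
  have h11 : (n : ℝ) = (n : ℝ) ^ θ * (n : ℝ) ^ (1 - θ) := by
    rw [← Real.rpow_add hn]
    simp
  have h12 : (n : ℝ) ^ θ * (n : ℝ) ^ (1 - θ) ≤ Nat.totient n * (n : ℝ) ^ (1 - θ) := by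
    rw [← h11]; exact h10
  have := le_of_mul_le_mul_right h12 hp
  linarith

theorem totient_room : ∀ᶠ n : ℕ in atTop, (1 + Nat.totient n : ℝ) + 10 * Real.log n ≤ 2 * n := by
  have h1 : Tendsto (fun x : ℝ => Real.log x / x) atTop (𝓝 0) :=
    Real.isLittleO_log_id_atTop.tendsto_div_nhds_zero
  have h2 := (h1.comp tendsto_natCast_atTop_atTop).eventually_le_const
    (by norm_num : (0 : ℝ) < 1 / 20)
  filter_upwards [h2, eventually_ge_atTop 2] with n h4 h6
  simp only [Function.comp] at h4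
  have hn : (2 : ℝ) ≤ n := by exact_mod_cast h6
  rw [div_le_iff₀ (by linarith)] at h4
  have h5 : (Nat.totient n : ℝ) ≤ n := by exact_mod_cast Nat.totient_le n
  linarith

/-- **Exceptional sets.** -/
theorem sq_sets {Z : Multiset ℂ} (hZ : ∀ ρ ∈ Z, ρ.re < 1) (hZc : Z.map conj = Z)
    {h : ℕ → ℝ} (h1 : ∀ θ : ℝ, θ < 1 → ∀ᶠ n : ℕ in atTop, (n : ℝ) ^ θ ≤ h n)
    (h2 : ∀ᶠ n : ℕ in atTop, h n + 10 * Real.log n ≤ 2 * n) {S : Set ℕ} (hS : Sps S) :
    ∃ p : ℕ → ℝ, Sys Z p ∧ ∀ᶠ n : ℕ in atTop, (h n < gapSq p n ↔ n ∈ S) := by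
  have hlogb : ∀ᶠ n : ℕ in atTop, 10 * Real.log n ≤ (n : ℝ) ^ (1 / 2 : ℝ) := by
    have h3 : Tendsto (fun x : ℝ => Real.log x / x ^ (1 / 2 : ℝ)) atTop (𝓝 0) :=
      (isLittleO_log_rpow_atTop (by norm_num)).tendsto_div_nhds_zero
    filter_upwards [(h3.comp tendsto_natCast_atTop_atTop).eventually_le_const
      (by norm_num : (0 : ℝ) < 1 / 10), eventually_ge_atTop 1] with n h4 h5
    simp only [Function.comp] at h4
    have hn : (0 : ℝ) < n := by exact_mod_cast h5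
    rw [div_le_iff₀ (Real.rpow_pos_of_pos hn _)] at h4
    linarith
  obtain ⟨n₀, hn₀⟩ := eventually_atTop.1 ((h2.and (h1 (1 / 2) (by norm_num))).and hlogb)
  set m₀ : ℕ := max n₀ 1 with hm₀
  set v : ℕ → ℝ := fun n => if n ∈ S ∧ m₀ ≤ n then h n else 0 with hv
  have hvS : ∀ n, n ∈ S → m₀ ≤ n → v n = h n := by
    intro n a b
    rw [hv]
    simp only
    rw [if_pos ⟨a, b⟩]
  have hvN : ∀ n, n ∉ S → v n = 0 := by
    intro n a
    rw [hv]
    simp only
    rw [if_neg fun h => a h.1]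
  have hh0 : ∀ n, m₀ ≤ n → 0 ≤ h n ∧ h n ≤ 2 * n := by
    intro n hn
    obtain ⟨⟨a, b⟩, -⟩ := hn₀ n ((le_max_left _ _).trans hn)
    have hn1 : (1 : ℝ) ≤ n := by exact_mod_cast (le_max_right _ _).trans hn
    have := Real.log_nonneg hn1
    exact ⟨le_trans (by positivity) b, by linarith⟩
  have hv0 : ∀ n, 0 ≤ v n ∧ v n ≤ 2 * n := by
    intro n
    rw [hv]
    simp only
    split_ifs with hc
    · exact hh0 n hc.2
    · constructor
      · exact le_rfl
      · positivity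
  obtain ⟨p, hp, hgap⟩ := sq_exists hZ hZc (v := v) (fun n => (hv0 n).1) (by
    filter_upwards [eventually_ge_atTop m₀] with n hn
    obtain ⟨⟨a, b⟩, c⟩ := hn₀ n ((le_max_left _ _).trans hn)
    rcases em (n ∈ S) with h3 | h3
    · rw [hvS n h3 hn]; exact a
    · rw [hvN n h3]
      have := (hh0 n hn).1
      linarith) (by
    intro ε hε
    obtain ⟨C, hC⟩ := hS ε hε
    refine ⟨2 * C, fun N hN => ?_⟩
    have hN1 : (1 : ℝ) ≤ N := by exact_mod_cast hN
    have e1 : ∑ n ∈ Finset.Icc 1 N, v n ≤ ∑ n ∈ (Finset.Icc 1 N).filter (· ∈ S), (2 * N : ℝ) := by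
      rw [Finset.sum_filter]
      apply Finset.sum_le_sum
      intro n hn
      split_ifs with h3
      · have h4 : (n : ℝ) ≤ N := by exact_mod_cast (Finset.mem_Icc.1 hn).2
        linarith [(hv0 n).2]
      · rw [hvN n h3]
    have e2 : (((Finset.Icc 1 N).filter (· ∈ S)).card : ℝ) ≤ C * (N : ℝ) ^ ε := by
      refine le_trans ?_ (hC N hN)
      have h3 : (((Finset.Icc 1 N).filter (· ∈ S) : Finset ℕ) : Set ℕ) ⊆ {n | n ∈ S ∧ n ≤ N} := by
        intro n hn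
        rw [Finset.mem_coe, Finset.mem_filter, Finset.mem_Icc] at hn
        exact ⟨hn.2, hn.1.2⟩
      have h4 := Set.ncard_le_ncard h3 (fin_le S N)
      rw [Set.ncard_coe_finset] at h4
      exact_mod_cast h4
    rw [Finset.sum_const, nsmul_eq_mul] at e1
    refine e1.trans ?_
    rw [Real.rpow_add (by linarith), Real.rpow_one]
    have h5 : (((Finset.Icc 1 N).filter (· ∈ S)).card : ℝ) * (2 * N) ≤ (C * (N : ℝ) ^ ε) * (2 * N) :=
      mul_le_mul_of_nonneg_right e2 (by positivity)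
    linarith)
  refine ⟨p, hp, ?_⟩
  filter_upwards [hgap, eventually_ge_atTop m₀] with n h3 h4
  obtain ⟨⟨a, b⟩, c⟩ := hn₀ n ((le_max_left _ _).trans h4)
  constructor
  · intro h5
    by_contra h6
    rw [hvN n h6] at h3
    linarith [h3.2]
  · intro h5
    rw [hvS n h5 h4] at h3
    exact h3.1

/-- Only sparse sets occur. -/
theorem sq_sparse {Z : Multiset ℂ} (hZ : ∀ ρ ∈ Z, ρ.re < 1) (hZc : Z.map conj = Z)
    {h : ℕ → ℝ} (h1 : ∀ θ : ℝ, θ < 1 → ∀ᶠ n : ℕ in atTop, (n : ℝ) ^ θ ≤ h n)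
    {p : ℕ → ℝ} (hS : SysW Z p) {S : Set ℕ}
    (hp : ∀ᶠ n : ℕ in atTop, (h n < gapSq p n ↔ n ∈ S)) : Sps S := by
  intro ε hε
  set θ : ℝ := max (1 / 2) (1 - ε / 4) with hθ
  have hθ0 : 1 / 2 ≤ θ := le_max_left _ _
  have hθ2 : 1 - ε / 4 ≤ θ := le_max_right _ _
  have hθ1 : θ < 1 := max_lt (by norm_num) (by linarith)
  obtain ⟨C, hC⟩ := sq_count hZ hZc hS (by linarith : 0 < θ) hθ1.le (half_pos hε)
  obtain ⟨n₀, hn₀⟩ := eventually_atTop.1 ((h1 θ hθ1).and hp)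
  refine ⟨n₀ + |C|, fun N hN => ?_⟩
  have hN1 : (1 : ℝ) ≤ N := by exact_mod_cast hN
  have hNε : 1 ≤ (N : ℝ) ^ ε := Real.one_le_rpow hN1 hε.le
  have hsub : {n | n ∈ S ∧ n ≤ N} ⊆ (Set.Iio n₀) ∪
      {n : ℕ | n ≤ N ∧ (n : ℝ) ^ θ < gapSq p n} := by
    rintro n ⟨a, b⟩
    rcases Nat.lt_or_ge n n₀ with h3 | h3
    · left; exact h3
    · right
      obtain ⟨h4, h5⟩ := hn₀ n h3
      exact ⟨b, lt_of_le_of_lt h4 (h5.2 a)⟩
  have hf2 : {n : ℕ | n ≤ N ∧ (n : ℝ) ^ θ < gapSq p n}.Finite :=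
    (Set.finite_Iic N).subset fun _ hn => hn.1
  have h4 := (Set.ncard_le_ncard hsub ((Set.finite_Iio n₀).union hf2)).trans
    (Set.ncard_union_le _ _)
  have h5 : (Set.Iio n₀).ncard = n₀ := by
    rw [← Finset.coe_range, Set.ncard_coe_finset, Finset.card_range]
  rw [h5] at h4
  have h6 : (({n | n ∈ S ∧ n ≤ N}.ncard : ℕ) : ℝ) ≤ n₀ +
      (({n : ℕ | n ≤ N ∧ (n : ℝ) ^ θ < gapSq p n}.ncard : ℕ) : ℝ) := by exact_mod_cast h4
  have h7 := hC N hN
  have h8 : (N : ℝ) ^ (2 - 2 * θ + ε / 2) ≤ (N : ℝ) ^ ε :=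
    Real.rpow_le_rpow_of_exponent_le hN1 (by linarith)
  have h9 : C * (N : ℝ) ^ (2 - 2 * θ + ε / 2) ≤ |C| * (N : ℝ) ^ ε :=
    mul_le_mul (le_abs_self C) h8 (by positivity) (abs_nonneg C)
  have h10 : (n₀ : ℝ) ≤ n₀ * (N : ℝ) ^ ε := le_mul_of_one_le_right (Nat.cast_nonneg _) hNε
  rw [add_mul]
  linarith

end Pool.Agent.H521.G
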