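import Mathlib

open MeasureTheory Set Filter Topology

namespace Pool.Agent.H521.G

/-- powers of the logarithm are small -/
theorem stage_arith_aux (c : ℝ) (n : ℕ) {s : ℝ} (hs : 0 < s) :
    ∀ᶠ x : ℝ in atTop, c * Real.log x ^ n ≤ x ^ s := by
  have h1 := (isLittleO_log_rpow_rpow_atTop (n : ℝ) hs).bound
    (show (0 : ℝ) < 1 / (|c| + 1) by positivity)
  filter_upwards [h1, eventually_ge_atTop (1 : ℝ)] with x hx hx1
  have hlog : 0 ≤ Real.log x := Real.log_nonneg hx1
  rw [Real.rpow_natCast, Real.norm_of_nonneg (pow_nonneg hlog n),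
    Real.norm_of_nonneg (Real.rpow_nonneg (by linarith) s), div_mul_eq_mul_div, one_mul,
    le_div_iff₀ (by positivity)] at hx
  have h2 : c * Real.log x ^ n ≤ (|c| + 1) * Real.log x ^ n :=
    mul_le_mul_of_nonneg_right (by linarith [le_abs_self c]) (pow_nonneg hlog n)
  linarith

theorem stage_arith {φ : ℕ → ℝ} (h : Tendsto φ atTop atTop) {x₀ : ℝ}
    (hφ : ∀ u : ℕ, φ u ≤ x₀ + 2 * u * Real.log (φ u)) (i : ℕ) (hi : 12 ≤ i) :
    ∀ᶠ u : ℕ in atTop, (i : ℝ) ^ i ≤ Real.log (φ u) ∧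
      2 * Real.log (φ u) ^ i ≤ φ u ^ (1 / (i : ℝ)) ∧
      4 * i * Real.log (φ u) ^ i ≤ u ∧
      8 * (4 * Real.log (φ u) ^ i) ≤ φ u ∧
      4 * i * (4 * Real.log (φ u) ^ i) * Real.log (φ u) ≤ φ u := by
  have hi0 : (0 : ℝ) < i := by
    have : 0 < i := by omega
    exact_mod_cast this
  have e1 := (Real.tendsto_log_atTop.comp h).eventually_ge_atTop ((i : ℝ) ^ i)
  have e2 := h.eventually (stage_arith_aux 2 i (show (0 : ℝ) < 1 / (i : ℝ) by positivity))
  have e3 := h.eventually (stage_arith_aux (16 * i) (i + 1) one_pos)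
  have e4 := h.eventually (stage_arith_aux 32 i one_pos)
  have e5 := h.eventually_ge_atTop (2 * |x₀| + 1)
  filter_upwards [e1, e2, e3, e4, e5] with u h1 h2 h3 h4 h5
  have h1' : (i : ℝ) ^ i ≤ Real.log (φ u) := h1
  have hL : 0 ≤ Real.log (φ u) := le_trans (by positivity) h1'
  rw [Real.rpow_one] at h3 h4
  have h3' : 16 * i * (Real.log (φ u) ^ i * Real.log (φ u)) ≤ φ u := by
    rw [← pow_succ]
    exact h3
  refine ⟨h1', h2, ?_, ?_, ?_⟩
  · by_contra hc
    rw [not_le] at hc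
    have h6 := hφ u
    have h7 : 2 * (u : ℝ) * Real.log (φ u) ≤ 2 * (4 * i * Real.log (φ u) ^ i) * Real.log (φ u) :=
      mul_le_mul_of_nonneg_right (by linarith) hL
    have h8 : 2 * (4 * i * Real.log (φ u) ^ i) * Real.log (φ u) =
        8 * i * (Real.log (φ u) ^ i * Real.log (φ u)) := by ring
    have h9 := le_abs_self x₀
    have h10 := abs_nonneg x₀
    linarith
  · linarith
  · have h6 : 4 * i * (4 * Real.log (φ u) ^ i) * Real.log (φ u) =
        16 * i * (Real.log (φ u) ^ i * Real.log (φ u)) := by ring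
    rw [h6]
    exact h3'

end Pool.Agent.H521.G
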