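import Pool.Agent.H521.G.StageArith

open MeasureTheory Set Filter Topology

namespace Pool.Agent.H521.G

theorem stage_arith8 {φ : ℕ → ℝ} (h : Tendsto φ atTop atTop) {x₀ : ℝ}
    (hφ : ∀ u : ℕ, φ u ≤ x₀ + 2 * u * Real.log (φ u)) {T : ℕ → ℝ}
    (hT : ∀ δ : ℝ, 0 < δ → ∀ᶠ u in atTop, T u ≤ φ u ^ δ) (i : ℕ) (hi : 12 ≤ i) :
    ∀ᶠ u : ℕ in atTop, (i : ℝ) ^ i ≤ Real.log (φ u) ∧
      2 * T u ≤ φ u ^ (1 / (i : ℝ)) ∧
      4 * i * T u ≤ u ∧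
      8 * (4 * T u) ≤ φ u ∧
      4 * i * (4 * T u) * Real.log (φ u) ≤ φ u := by
  have hi0 : (0 : ℝ) < i := by
    have : 0 < i := by omega
    exact_mod_cast this
  have hi1 : (1 : ℝ) ≤ i := by exact_mod_cast (by omega : 1 ≤ i)
  have hi2 : 1 / (i : ℝ) ≤ 1 / 12 := one_div_le_one_div_of_le (by norm_num) (by exact_mod_cast hi)
  have e1 := (Real.tendsto_log_atTop.comp h).eventually_ge_atTop ((i : ℝ) ^ i)
  have e2 := hT (1 / (i : ℝ) / 2) (by positivity)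
  have e3 := h.eventually (stage_arith_aux (16 * i) 1 (by norm_num : (0 : ℝ) < 1 / 2))
  have e5 := h.eventually_ge_atTop (2 * |x₀| + 1)
  have e6 := ((tendsto_rpow_atTop (by positivity : 0 < 1 / (i : ℝ) / 2)).comp h).eventually_ge_atTop 2
  have e7 := ((tendsto_rpow_atTop (by norm_num : (0 : ℝ) < 1 / 4)).comp h).eventually_ge_atTop 32
  filter_upwards [e1, e2, e3, e5, e6, e7] with u h1 h2 h3 h5 h6 h7
  have h1' : (i : ℝ) ^ i ≤ Real.log (φ u) := h1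
  have hL : 0 ≤ Real.log (φ u) := le_trans (by positivity) h1'
  have h6' : 2 ≤ φ u ^ (1 / (i : ℝ) / 2) := h6
  have h7' : 32 ≤ φ u ^ (1 / 4 : ℝ) := h7
  have hx0 := abs_nonneg x₀
  have hφ1 : 1 ≤ φ u := by linarith
  have hφ0 : 0 < φ u := by linarith
  rw [pow_one] at h3
  have hp : ∀ s : ℝ, 0 < φ u ^ s := fun s => Real.rpow_pos_of_pos hφ0 s
  have e : φ u ^ (1 / (i : ℝ)) = φ u ^ (1 / (i : ℝ) / 2) * φ u ^ (1 / (i : ℝ) / 2) := by
    rw [← Real.rpow_add hφ0]; congr 1; ring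
  have ht : T u ≤ φ u ^ (1 / 4 : ℝ) :=
    h2.trans (Real.rpow_le_rpow_of_exponent_le hφ1 (by linarith))
  have eh : φ u ^ (1 / 2 : ℝ) = φ u ^ (1 / 4 : ℝ) * φ u ^ (1 / 4 : ℝ) := by
    rw [← Real.rpow_add hφ0]; norm_num
  have e1' : φ u ^ (1 / 2 : ℝ) * φ u ^ (1 / 2 : ℝ) = φ u := by
    rw [← Real.rpow_add hφ0]; norm_num
  have h44 : 32 * φ u ^ (1 / 4 : ℝ) ≤ φ u ^ (1 / 2 : ℝ) := by
    rw [eh]
    exact mul_le_mul_of_nonneg_right h7' (hp _).le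
  have hh1 : 1 ≤ φ u ^ (1 / 2 : ℝ) := Real.one_le_rpow hφ1 (by norm_num)
  have hkey : 16 * i * Real.log (φ u) * T u ≤ φ u / 32 := by
    calc 16 * i * Real.log (φ u) * T u ≤ 16 * i * Real.log (φ u) * φ u ^ (1 / 4 : ℝ) :=
          mul_le_mul_of_nonneg_left ht (by positivity)
      _ ≤ φ u ^ (1 / 2 : ℝ) * φ u ^ (1 / 4 : ℝ) := mul_le_mul_of_nonneg_right h3 (hp _).le
      _ ≤ φ u ^ (1 / 2 : ℝ) * (φ u ^ (1 / 2 : ℝ) / 32) :=
          mul_le_mul_of_nonneg_left (by linarith) (hp _).le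
      _ = φ u / 32 := by rw [← mul_div_assoc, e1']
  refine ⟨h1', ?_, ?_, ?_, ?_⟩
  · rw [e]
    calc 2 * T u ≤ 2 * φ u ^ (1 / (i : ℝ) / 2) := by linarith
      _ ≤ φ u ^ (1 / (i : ℝ) / 2) * φ u ^ (1 / (i : ℝ) / 2) :=
        mul_le_mul_of_nonneg_right h6' (hp _).le
  · by_contra hc
    rw [not_le] at hc
    have h8 := hφ u
    have h9 : 2 * (u : ℝ) * Real.log (φ u) ≤ 2 * (4 * i * T u) * Real.log (φ u) :=
      mul_le_mul_of_nonneg_right (by linarith) hL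
    have h10 : 2 * (4 * i * T u) * Real.log (φ u) = (16 * i * Real.log (φ u) * T u) / 2 := by ring
    have h11 := le_abs_self x₀
    linarith
  · nlinarith
  · have h8 : 4 * i * (4 * T u) * Real.log (φ u) = 16 * i * Real.log (φ u) * T u := by ring
    rw [h8]
    linarith

end Pool.Agent.H521.G
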