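import Mathlib

open MeasureTheory Set Filter Topology

namespace Pool.Agent.H521.G

theorem stage_arith9_pt {x x₀ T u : ℝ} {i : ℕ} (hT0 : 0 ≤ T) (hT : T ≤ x ^ (5 / 8 : ℝ))
    (hx : x ≤ x₀ + 2 * u * Real.log x) (h1 : 1 ≤ x) (h2 : 4 * x₀ ≤ x)
    (h3 : 64 * i * Real.log x ≤ x ^ (1 / 8 : ℝ)) (h4 : 32 ≤ x ^ (3 / 8 : ℝ)) :
    4 * i * T ≤ u ∧ 8 * (4 * T) ≤ x ∧ 16 * i * T * Real.log x ≤ x ^ (3 / 4 : ℝ) ∧
      x ^ (3 / 4 : ℝ) ≤ x := by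
  have hx0 : 0 < x := by linarith
  have hL : 0 ≤ Real.log x := Real.log_nonneg h1
  have hi0 : (0 : ℝ) ≤ i := Nat.cast_nonneg _
  have e1 : x ^ (1 / 8 : ℝ) * x ^ (5 / 8 : ℝ) = x ^ (3 / 4 : ℝ) := by
    rw [← Real.rpow_add hx0]; norm_num
  have e2 : x ^ (3 / 8 : ℝ) * x ^ (5 / 8 : ℝ) = x := by
    rw [← Real.rpow_add hx0]; norm_num
  have p1 : 0 < x ^ (5 / 8 : ℝ) := Real.rpow_pos_of_pos hx0 _
  have p2 : 0 < x ^ (3 / 4 : ℝ) := Real.rpow_pos_of_pos hx0 _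
  have hd : x ^ (3 / 4 : ℝ) ≤ x := by
    calc x ^ (3 / 4 : ℝ) ≤ x ^ (1 : ℝ) := Real.rpow_le_rpow_of_exponent_le h1 (by norm_num)
      _ = x := Real.rpow_one x
  have hc' : 64 * i * T * Real.log x ≤ x ^ (3 / 4 : ℝ) := by
    calc 64 * i * T * Real.log x = (64 * i * Real.log x) * T := by ring
      _ ≤ x ^ (1 / 8 : ℝ) * x ^ (5 / 8 : ℝ) :=
          mul_le_mul h3 hT hT0 (Real.rpow_nonneg hx0.le _)
      _ = x ^ (3 / 4 : ℝ) := e1
  have hnn : 0 ≤ i * T * Real.log x := mul_nonneg (mul_nonneg hi0 hT0) hL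
  have hc : 16 * i * T * Real.log x ≤ x ^ (3 / 4 : ℝ) := by
    have : 16 * i * T * Real.log x ≤ 64 * i * T * Real.log x := by nlinarith
    linarith
  have hb : 8 * (4 * T) ≤ x := by
    calc 8 * (4 * T) = 32 * T := by ring
      _ ≤ x ^ (3 / 8 : ℝ) * x ^ (5 / 8 : ℝ) :=
          mul_le_mul h4 hT hT0 (Real.rpow_nonneg hx0.le _)
      _ = x := e2
  refine ⟨?_, hb, hc, hd⟩
  by_contra hlt
  rw [not_le] at hlt
  have h5 : 2 * u * Real.log x ≤ 2 * (4 * i * T) * Real.log x := by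
    apply mul_le_mul_of_nonneg_right _ hL
    linarith
  have h6 : 2 * (4 * i * T) * Real.log x = 8 * (i * T * Real.log x) := by ring
  have h7 : 64 * (i * T * Real.log x) ≤ x := by
    have : 64 * i * T * Real.log x = 64 * (i * T * Real.log x) := by ring
    linarith
  linarith

theorem stage_arith9 {φ : ℕ → ℝ} (h : Tendsto φ atTop atTop) {x₀ : ℝ}
    (hφ : ∀ u : ℕ, φ u ≤ x₀ + 2 * u * Real.log (φ u)) {T : ℕ → ℝ} (hT0 : ∀ u, 0 ≤ T u)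
    (hT : ∀ᶠ u in atTop, T u ≤ φ u ^ (5 / 8 : ℝ)) (i : ℕ) (hi : 12 ≤ i) :
    ∀ᶠ u : ℕ in atTop,
      4 * i * T u ≤ u ∧
      8 * (4 * T u) ≤ φ u ∧
      16 * i * T u * Real.log (φ u) ≤ φ u ^ (3 / 4 : ℝ) ∧
      φ u ^ (3 / 4 : ℝ) ≤ φ u := by
  have hi0 : (0 : ℝ) < i := by
    have : 0 < i := by omega
    exact_mod_cast this
  have k1 : ∀ᶠ x : ℝ in atTop, 64 * i * Real.log x ≤ x ^ (1 / 8 : ℝ) := by
    have hlo : Real.log =o[atTop] fun x : ℝ => x ^ (1 / 8 : ℝ) :=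
      isLittleO_log_rpow_atTop (by norm_num)
    have hb := hlo.bound (show (0 : ℝ) < 1 / (64 * i) by positivity)
    filter_upwards [hb, eventually_ge_atTop (1 : ℝ)] with x hx hx1
    have hL : 0 ≤ Real.log x := Real.log_nonneg hx1
    rw [Real.norm_of_nonneg hL, Real.norm_of_nonneg (Real.rpow_nonneg (by linarith) _)] at hx
    have hp : (0 : ℝ) < 64 * i := by positivity
    calc 64 * i * Real.log x ≤ 64 * i * (1 / (64 * i) * x ^ (1 / 8 : ℝ)) :=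
          mul_le_mul_of_nonneg_left hx hp.le
      _ = x ^ (1 / 8 : ℝ) := by field_simp
  have k2 : ∀ᶠ x : ℝ in atTop, 32 ≤ x ^ (3 / 8 : ℝ) :=
    (tendsto_rpow_atTop (by norm_num : (0 : ℝ) < 3 / 8)).eventually_ge_atTop 32
  filter_upwards [hT, h.eventually k1, h.eventually k2, h.eventually_ge_atTop 1,
    h.eventually_ge_atTop (4 * x₀)] with u a1 a2 a3 a4 a5
  exact stage_arith9_pt (hT0 u) a1 (hφ u) a4 a5 a2 a3

end Pool.Agent.H521.G
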