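import Pool.Agent.H521.G.Insert
import Pool.Agent.H521.G.GreedyForced

open MeasureTheory Set Filter Topology
open scoped Classical

namespace Pool.Agent.H521.G

/-- The template of stage `i` with two forced gaps. -/
theorem exists_template2 {γ : ℕ → ℝ} (hγ : ∀ n, 0 ≤ γ n) {R : ℝ → ℝ} (hR : AntitoneOn R (Ioi 0))
    (hR0 : ∀ c, 0 < c → 0 ≤ R c)
    (hcond : ∀ c K ε : ℝ, 0 < c → 0 < K → 0 < ε → ∀ᶠ N : ℕ in atTop,
      (∑ n ∈ Finset.range N, min (γ n) K) / N + R c ≤ 1 + ε)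
    (i : ℕ) (hi : 6 ≤ i) {τ : ℝ} (hτ1 : 1 / (i : ℝ) ≤ τ) (hτ2 : τ ≤ i)
    (hτR : ∀ c, τ < c → c ≤ i → R c = 0) :
    ∃ Λ : ℝ, ∀ lam : ℝ, Λ ≤ lam → ∀ m : ℕ, (i : ℝ) ^ 4 * lam ≤ m → (m : ℝ) ≤ 2 * i ^ 4 * lam →
      ∃ c : ℕ → ℝ, (∀ l, 0 < c l) ∧ ∑ l ∈ Finset.range m, c l = m ∧ (∀ l, c l ≤ τ * lam) ∧
        (∃ l₁ l₂, l₁ < m ∧ l₂ < m ∧ l₁ ≠ l₂ ∧ c l₁ = τ * lam ∧ c l₂ = τ * lam) ∧
        (((Finset.range m).filter fun l => 2 / (i : ℝ) < |c l - γ l|).card : ℝ) ≤ 6 / i * m ∧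
        (∀ a : ℝ, 1 / (i : ℝ) ≤ a → a ≤ i → (R a - 4 / i) * m ≤
          ∑ l ∈ Finset.range m, (if a * lam ≤ c l then c l else 0)) ∧
        ∀ a' a : ℝ, 1 / (i : ℝ) ≤ a' → a' < a →
          ∑ l ∈ Finset.range m, (if a * lam ≤ c l then c l else 0) ≤ (R a' + 4 / i) * m := by
  obtain ⟨hR1, N₀, hN⟩ := template_base hγ hR0 hcond i (by omega)
  obtain ⟨I, hIi⟩ : ∃ I : ℝ, I = i := ⟨_, rfl⟩
  rw [← hIi] at hτ1 hτ2 hτR hN ⊢
  have hI : 6 ≤ I := by rw [hIi]; exact_mod_cast hi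
  refine ⟨(N₀ : ℝ) + 16 * I ^ 2 + 16, fun lam hlam m hm1 hm2 => ?_⟩
  have hI0 : 0 < I := by linarith
  obtain ⟨u, hu⟩ : ∃ u : ℝ, u = 1 / I := ⟨_, rfl⟩
  have hIu : I * u = 1 := by rw [hu]; field_simp
  have hu0 : 0 < u := by rw [hu]; positivity
  have hu6 : u ≤ 1 / 6 := by rw [hu]; exact one_div_le_one_div_of_le (by norm_num) hI
  have e2 : 1 / (2 * I) = u / 2 := by rw [hu]; field_simp
  have e4 : 1 / (4 * I) = u / 4 := by rw [hu]; field_simp
  have e7 : (4:ℝ) / I = 4 * u := by rw [hu]; ring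
  have hN0 : (0:ℝ) ≤ N₀ := Nat.cast_nonneg _
  have hI2 : 36 ≤ I ^ 2 := by
    have := pow_le_pow_left₀ (by norm_num : (0:ℝ) ≤ 6) hI 2
    norm_num at this
    exact this
  have hlam16 : 16 * I ^ 2 + 16 ≤ lam := by linarith
  have hlam0 : 0 < lam := by linarith
  have hI4 : 36 ≤ I ^ 4 := by nlinarith
  obtain ⟨M, hM⟩ : ∃ M : ℝ, M = m := ⟨_, rfl⟩
  rw [← hM] at hm1 hm2
  have hM16 : 36 * lam ≤ M := (mul_le_mul_of_nonneg_right hI4 hlam0.le).trans hm1
  have hM0 : 0 < M := by linarith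
  have hIlam : I * lam ≤ u ^ 3 * M := by
    have h1 : u ^ 3 * (I ^ 4 * lam) = I * lam := by
      have : u ^ 3 * (I ^ 4 * lam) = (I * u) ^ 3 * (I * lam) := by ring
      rw [this, hIu]; ring
    rw [← h1]
    exact mul_le_mul_of_nonneg_left hm1 (by positivity)
  have hm'0 : 0 < (1 - u) * M := mul_pos (by linarith) hM0
  obtain ⟨n, b, hn2, hb0, hb1, hb, hb2, hb3, hb4⟩ := greedy_forced hR hR0 (i := I) (lam := lam)
    (m := (1 - u) * M) (τ := τ) (by linarith) hlam0 hm'0 hτ1 hτ2 hτR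
  have hlI : lam / I = lam * u := by rw [hu]; ring
  rw [← hu] at hb2
  simp only [hlI] at hb
  have hRu0 : 0 ≤ R u := hR0 u hu0
  have hRu1 : R u ≤ 1 := hR1 u hu0
  have hnb : (n : ℝ) * (lam * u) ≤ ∑ l ∈ Finset.range n, b l := by
    have := Finset.card_nsmul_le_sum (Finset.range n) b (lam * u) (fun l _ => (hb l).1)
    rwa [Finset.card_range, nsmul_eq_mul] at this
  have hn1 : (n : ℝ) * (lam * u) ≤ 2 * I ^ 4 * lam + 3 * (I * lam) := by
    have h1 : R u * ((1 - u) * M) ≤ 1 * (1 * M) := by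
      gcongr
      linarith
    linarith
  have hn2' : (n : ℝ) ≤ 2 * I ^ 5 + 3 * I ^ 2 := by
    have h1 : (n : ℝ) * lam ≤ (2 * I ^ 5 + 3 * I ^ 2) * lam := by
      have h2 := mul_le_mul_of_nonneg_left hn1 hI0.le
      have h3 : I * ((n : ℝ) * (lam * u)) = n * lam * (I * u) := by ring
      rw [h3, hIu] at h2
      linarith
    exact le_of_mul_le_mul_right h1 hlam0
  have hn3 : (n : ℝ) ≤ M * (u / 4) := by
    have h1 : I ^ 4 * (16 * I ^ 2 + 16) ≤ M := le_trans (by gcongr) hm1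
    have h2 : I ^ 4 * (16 * I ^ 2 + 16) * (u / 4) ≤ M * (u / 4) := by gcongr
    have h3 : I ^ 4 * (16 * I ^ 2 + 16) * (u / 4) = (I * u) * (4 * I ^ 5 + 4 * I ^ 3) := by ring
    rw [h3, hIu, one_mul] at h2
    have h4 : 2 * I ^ 5 + 3 * I ^ 2 ≤ 4 * I ^ 5 + 4 * I ^ 3 := by
      have h5 : 0 ≤ I ^ 5 := by positivity
      have h6 : I ^ 2 ≤ I ^ 3 := pow_le_pow_right₀ (by linarith) (by norm_num)
      have h7 : 0 ≤ I ^ 3 := by positivity
      linarith
    linarith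
  obtain ⟨A, hA⟩ : ∃ A : ℕ, A = ⌊(1 - u) * M⌋₊ := ⟨_, rfl⟩
  have hA1 : (A : ℝ) ≤ (1 - u) * M := by rw [hA]; exact Nat.floor_le hm'0.le
  have hA2 : (1 - u) * M < A + 1 := by rw [hA]; exact Nat.lt_floor_add_one _
  have hAN : N₀ ≤ A := by
    have h1 : (N₀ : ℝ) ≤ A := by
      have h2 : 1 / 2 * M ≤ (1 - u) * M := mul_le_mul_of_nonneg_right (by linarith) hM0.le
      have h3 : 0 ≤ I ^ 2 := by positivity
      linarith
    exact_mod_cast h1
  obtain ⟨hN1, hN2⟩ := hN A hAN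
  have hlu : 2 * I < lam * u := by
    have h1 : (16 * I ^ 2 + 16) * u ≤ lam * u := by gcongr
    have h2 : (16 * I ^ 2 + 16) * u = 16 * I * (I * u) + 16 * u := by ring
    rw [h2, hIu] at h1
    linarith
  have hT : ∑ l ∈ Finset.range A, (min (γ l) I + 1 / (4 * I)) + ∑ l ∈ Finset.range n, b l ≤
      (1 - 1 / (4 * I)) * m := by
    rw [← hu, e2] at hN1
    rw [e4, ← hM]
    rw [e4] at hN1
    have h1 : ∑ l ∈ Finset.range A, (min (γ l) I + u / 4) ≤
        ((1 - u) * M) * (1 - R u + u / 2) :=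
      hN1.trans (mul_le_mul_of_nonneg_right hA1 (by linarith))
    have h2 : ∑ l ∈ Finset.range A, (min (γ l) I + u / 4) + ∑ l ∈ Finset.range n, b l ≤
        ((1 - u) * M) * (1 + u / 2) + 3 * (u ^ 3 * M) := by linarith
    have h3 : ((1 - u) * M) * (1 + u / 2) + 3 * (u ^ 3 * M) =
        (1 - u / 4) * M - M * u * (1 / 4 + u / 2 - 3 * u ^ 2) := by ring
    have h4 : 0 ≤ M * u * (1 / 4 + u / 2 - 3 * u ^ 2) := by
      apply mul_nonneg (by positivity)
      nlinarith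
    linarith
  obtain ⟨c, c1, c2, c3, c4, c5⟩ := insert_template hγ (I := I) (by linarith) (M := m) (A := A)
    (n := n) (w := b) (by rw [hA, hu, hM]) (by rw [← hM]; nlinarith)
    (fun l => lt_of_lt_of_le (by positivity) (hb l).1)
    (by rw [← hM]; have : M / (4 * I) = M * (u / 4) := by rw [← e4]; ring
        rw [this]; exact hn3) hT hN2
  have hτu : lam * u ≤ τ * lam := by
    rw [← hu] at hτ1
    nlinarith
  have hcap : ∀ l, c l ≤ τ * lam := by
    intro l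
    rcases c5 l with h | ⟨l', h⟩
    · linarith
    · rw [h]; exact (hb l').2
  refine ⟨c, c1, c2, hcap, ?_, c3, ?_, ?_⟩
  · have h1 := c4 (fun x => if τ * lam ≤ x then 1 else 0) (fun x hx => if_neg (by
      push Not; linarith))
    have h2 : (2 : ℝ) ≤ ∑ l ∈ Finset.range n, (if τ * lam ≤ b l then (1 : ℝ) else 0) := by
      have h3 : Finset.range 2 ⊆ Finset.range n := Finset.range_subset_range.2 hn2
      have h4 := Finset.sum_le_sum_of_subset_of_nonneg h3
        (f := fun l => (if τ * lam ≤ b l then (1 : ℝ) else 0)) (fun l _ _ => by split_ifs <;> norm_num)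
      rw [Finset.sum_range_succ, Finset.sum_range_one, if_pos hb0.ge, if_pos hb1.ge] at h4
      linarith
    have h3 : (2 : ℝ) ≤ (((Finset.range m).filter fun l => τ * lam ≤ c l).card : ℝ) := by
      rw [← Finset.sum_boole]
      linarith
    have h4 : 1 < ((Finset.range m).filter fun l => τ * lam ≤ c l).card := by
      have : 2 ≤ ((Finset.range m).filter fun l => τ * lam ≤ c l).card := by exact_mod_cast h3
      omega
    obtain ⟨l₁, h5, l₂, h6, h7⟩ := Finset.one_lt_card.1 h4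
    rw [Finset.mem_filter, Finset.mem_range] at h5 h6
    exact ⟨l₁, l₂, h5.1, h6.1, h7, le_antisymm (hcap _) h5.2, le_antisymm (hcap _) h6.2⟩
  · intro a ha1 ha2
    have ha1' : u ≤ a := by rw [hu]; exact ha1
    have hal : lam * u ≤ a * lam := by
      have h0 := mul_le_mul_of_nonneg_left ha1' hlam0.le
      linarith
    have h1 := c4 (fun x => if a * lam ≤ x then x else 0) (fun x hx => if_neg (by
      push Not; linarith))
    rw [h1]
    refine le_trans ?_ (hb3 a ha1 ha2)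
    rw [e7, ← hM]
    have ha0 : 0 < a := by linarith
    have h4 := hR1 a ha0
    have h5 := hR0 a ha0
    have h6 : 0 ≤ M * u := by positivity
    have h7 := mul_le_mul_of_nonneg_right h4 h6
    linarith
  · intro a' a ha1 ha2
    have ha1' : u ≤ a' := by rw [hu]; exact ha1
    have hal : lam * u ≤ a * lam := by
      have h0 := mul_le_mul_of_nonneg_left (show u ≤ a by linarith) hlam0.le
      linarith
    have h1 := c4 (fun x => if a * lam ≤ x then x else 0) (fun x hx => if_neg (by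
      push Not; linarith))
    rw [h1]
    refine (hb4 a' a ha1 ha2).trans ?_
    rw [e7, ← hM]
    have ha0 : 0 < a' := by linarith
    have h5 := hR0 a' ha0
    have h6 : 0 ≤ R a' * (M * u) := by positivity
    have h7 : u ^ 3 * M ≤ u * M := by
      have h8 : u ^ 3 ≤ u := pow_le_of_le_one hu0.le (by linarith) (by norm_num)
      gcongr
    have h9 : 0 < u * M := by positivity
    linarith

end Pool.Agent.H521.G
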