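import Pool.Agent.H521.G.TQ
import Pool.Agent.H521.G.Template2

open MeasureTheory Set Filter Topology
open scoped ENNReal NNReal ComplexConjugate Classical

namespace Pool.Agent.H521.G

/-- Diagonal choice of stages. -/
theorem exists_stage {P : ℕ → ℕ → Prop} (h0 : ∀ u, P 0 u) (h : ∀ i, ∀ᶠ u in atTop, P i u) :
    ∃ st : ℕ → ℕ, Tendsto st atTop atTop ∧ (∀ u, P (st u) u) ∧
      ∀ u u', u ≤ u' → u' ≤ 2 * u + 2 → st u' ≤ st u + 1 := by
  have h' : ∀ i, ∃ N, ∀ u, N ≤ u → P i u := fun i => eventually_atTop.1 (h i)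
  choose T hT using h'
  obtain ⟨N, N0, Ns⟩ : ∃ N : ℕ → ℕ, N 0 = 0 ∧ ∀ i, N (i + 1) = max (T (i + 1)) (2 * N i + 1) :=
    ⟨fun i => Nat.rec 0 (fun i n => max (T (i + 1)) (2 * n + 1)) i, rfl, fun i => rfl⟩
  have hNT : ∀ i u, N i ≤ u → P i u := by
    intro i u hu
    cases i with
    | zero => exact h0 u
    | succ i => exact hT _ _ (le_trans (by rw [Ns]; exact le_max_left _ _) hu)
  have hN2 : ∀ i, 2 * N i + 1 ≤ N (i + 1) := fun i => by rw [Ns]; exact le_max_right _ _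
  have hNm : StrictMono N := strictMono_nat_of_lt_succ fun i => by have := hN2 i; omega
  have hNi : ∀ i, i ≤ N i := fun i => hNm.le_apply
  let st : ℕ → ℕ := fun u => Nat.findGreatest (fun i => N i ≤ u) u
  have hst : ∀ u, st u = Nat.findGreatest (fun i => N i ≤ u) u := fun u => rfl
  have h1 : Tendsto st atTop atTop := by
    refine tendsto_atTop.2 fun b => ?_
    filter_upwards [eventually_ge_atTop (N b)] with u hu
    exact Nat.le_findGreatest ((hNi b).trans hu) hu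
  have h2 : ∀ u, P (st u) u := by
    intro u
    apply hNT
    exact Nat.findGreatest_spec (P := fun i => N i ≤ u) (Nat.zero_le u) (by rw [N0]; exact Nat.zero_le u)
  refine ⟨st, h1, h2, ?_⟩
  · intro u u' _ h2
    by_contra hc
    rw [hst, hst] at hc
    push Not at hc
    set s := Nat.findGreatest (fun i => N i ≤ u) u with hs
    set s' := Nat.findGreatest (fun i => N i ≤ u') u' with hs'
    have h3 : N s' ≤ u' :=
      Nat.findGreatest_spec (P := fun i => N i ≤ u') (Nat.zero_le u') (by rw [N0]; exact Nat.zero_le u')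
    have h4 : u < N (s + 1) := by
      by_contra hle
      push Not at hle
      have := Nat.le_findGreatest (P := fun i => N i ≤ u) ((hNi (s + 1)).trans hle) hle
      omega
    have h5 : N (s + 2) ≤ N s' := hNm.monotone (by omega : s + 2 ≤ s')
    have h6 := hN2 (s + 1)
    have e : s + 1 + 1 = s + 2 := rfl
    rw [e] at h6
    omega

/-- `log φ(u)` -/
noncomputable def lamb (f : ℝ → ℝ) (x₀ : ℝ) (u : ℕ) : ℝ := Real.log (phi f x₀ u)

/-- block length of stage `i` -/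
noncomputable def mst (f : ℝ → ℝ) (x₀ : ℝ) (i u : ℕ) : ℕ := ⌈(i : ℝ) ^ 4 * lamb f x₀ u⌉₊

/-- The properties of the pattern of a block. -/
structure Tm (γ : ℕ → ℝ) (R : ℝ → ℝ) (i : ℕ) (τ lam : ℝ) (m : ℕ) (c : ℕ → ℝ) : Prop where
  pos : ∀ l, 0 < c l
  sum : ∑ l ∈ Finset.range m, c l = m
  le : ∀ l, c l ≤ τ * lam
  forced : ∃ l₁ l₂, l₁ < m ∧ l₂ < m ∧ l₁ ≠ l₂ ∧ c l₁ = τ * lam ∧ c l₂ = τ * lam
  near : (((Finset.range m).filter fun l => 2 / (i : ℝ) < |c l - γ l|).card : ℝ) ≤ 6 / i * m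
  lo : ∀ a : ℝ, 1 / (i : ℝ) ≤ a → a ≤ i → (R a - 4 / i) * m ≤
    ∑ l ∈ Finset.range m, (if a * lam ≤ c l then c l else 0)
  up : ∀ a' a : ℝ, 1 / (i : ℝ) ≤ a' → a' < a →
    ∑ l ∈ Finset.range m, (if a * lam ≤ c l then c l else 0) ≤ (R a' + 4 / i) * m

theorem two_le_lamb {f : ℝ → ℝ} {x₀ : ℝ} (hR : RDens f x₀) (u : ℕ) : 2 ≤ lamb f x₀ u :=
  hR.hlog _ (hR.phi_ge _)

theorem lamb_tendsto {f : ℝ → ℝ} {x₀ : ℝ} (hR : RDens f x₀) : Tendsto (lamb f x₀) atTop atTop :=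
  Real.tendsto_log_atTop.comp (hR.phi_tendsto.comp tendsto_natCast_atTop_atTop)

theorem mst_ge {f : ℝ → ℝ} {x₀ : ℝ} (i u : ℕ) : (i : ℝ) ^ 4 * lamb f x₀ u ≤ mst f x₀ i u :=
  Nat.le_ceil _

theorem mst_le {f : ℝ → ℝ} {x₀ : ℝ} (hR : RDens f x₀) {i : ℕ} (hi : 2 ≤ i) (u : ℕ) :
    (mst f x₀ i u : ℝ) ≤ 2 * i ^ 4 * lamb f x₀ u := by
  have h1 := two_le_lamb hR u
  have h2 : (1 : ℝ) ≤ (i : ℝ) ^ 4 := one_le_pow₀ (by exact_mod_cast (by omega : 1 ≤ i))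
  have h3 : 0 ≤ (i : ℝ) ^ 4 * lamb f x₀ u := by positivity
  have h4 := (Nat.ceil_lt_add_one h3).le
  unfold mst
  nlinarith

/-- The conditions on a block starting at `u` with stage `i`. -/
def StP (f : ℝ → ℝ) (x₀ : ℝ) (γ : ℕ → ℝ) (R ω : ℝ → ℝ) (tau : ℕ → ℝ) (i u : ℕ) : Prop :=
  i < 6 ∨ ((∃ c, Tm γ R i (tau i) (lamb f x₀ u) (mst f x₀ i u) c) ∧
    (mst f x₀ i u : ℝ) ≤ lamb f x₀ u ^ 2 ∧
    phi f x₀ ((u + mst f x₀ i u + 1 : ℕ) : ℝ) ≤ (1 + 1 / i) * phi f x₀ u ∧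
    (∀ x, phi f x₀ u ≤ x → 4 * ((mst f x₀ i u : ℝ) + 1) ≤ ω x * Real.log x) ∧
    i * (mst f x₀ i u + 1) ≤ u)

theorem StP_ev {f : ℝ → ℝ} {x₀ : ℝ} (hR : RDens f x₀) {γ : ℕ → ℝ} (hγ : ∀ n, 0 ≤ γ n) {R : ℝ → ℝ}
    (hRa : AntitoneOn R (Ioi 0)) (hR0 : ∀ c, 0 < c → 0 ≤ R c)
    (hcond : ∀ c K ε : ℝ, 0 < c → 0 < K → 0 < ε → ∀ᶠ N : ℕ in atTop,
      (∑ n ∈ Finset.range N, min (γ n) K) / N + R c ≤ 1 + ε)
    {ω : ℝ → ℝ} (hω : Tendsto ω atTop atTop) {tau : ℕ → ℝ}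
    (ht1 : ∀ i : ℕ, 6 ≤ i → 1 / (i : ℝ) ≤ tau i) (ht2 : ∀ i : ℕ, 6 ≤ i → tau i ≤ i)
    (ht3 : ∀ i : ℕ, 6 ≤ i → ∀ c, tau i < c → c ≤ i → R c = 0) (i : ℕ) :
    ∀ᶠ u in atTop, StP f x₀ γ R ω tau i u := by
  rcases lt_or_ge i 6 with hi | hi
  · exact Filter.Eventually.of_forall fun u => Or.inl hi
  have hi0 : (0 : ℝ) < i := by exact_mod_cast (by omega : 0 < i)
  have hi1 : (1 : ℝ) ≤ i := by exact_mod_cast (by omega : 1 ≤ i)
  obtain ⟨Λ, hΛ⟩ := exists_template2 hγ hRa hR0 hcond i hi (ht1 i hi) (ht2 i hi) (ht3 i hi)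
  obtain ⟨X, hX⟩ := eventually_atTop.1 (hω.eventually_ge_atTop (16 * (i : ℝ) ^ 4))
  have hlt := lamb_tendsto hR
  have hphit : Tendsto (fun u : ℕ => phi f x₀ u) atTop atTop :=
    hR.phi_tendsto.comp tendsto_natCast_atTop_atTop
  -- `i m ≤ u` eventually
  have hsmall : ∀ᶠ u : ℕ in atTop, 4 * (i : ℝ) ^ 5 * lamb f x₀ u ≤ u ∧
      8 * (4 * (i : ℝ) ^ 4 * lamb f x₀ u) ≤ phi f x₀ u ∧
      4 * i * (4 * (i : ℝ) ^ 4 * lamb f x₀ u) * lamb f x₀ u ≤ phi f x₀ u := by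
    -- `log φ(u) ≤ √u`-type bounds
    have h1 : ∀ᶠ x : ℝ in atTop, Real.log x ≤ (1 / (32 * (i : ℝ) ^ 5)) * x ^ (1 / 2 : ℝ) := by
      have := (isLittleO_log_rpow_atTop (by norm_num : (0 : ℝ) < 1 / 2)).bound
        (by positivity : (0 : ℝ) < 1 / (32 * (i : ℝ) ^ 5))
      filter_upwards [this, eventually_ge_atTop 1] with x hx hx1
      rwa [Real.norm_of_nonneg (Real.log_nonneg hx1), Real.norm_of_nonneg (by positivity)] at hx
    have h2 : ∀ᶠ u : ℕ in atTop, Real.log (phi f x₀ u) ≤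
        (1 / (32 * (i : ℝ) ^ 5)) * phi f x₀ u ^ (1 / 2 : ℝ) := hphit.eventually h1
    have h3 : ∀ᶠ u : ℕ in atTop, phi f x₀ u ^ (1 / 2 : ℝ) ≤ 4 * u := by
      -- φ(u) - x₀ ≤ 2 u log φ(u) and log φ ≤ φ^{1/2}
      filter_upwards [h2, hphit.eventually_ge_atTop (4 * x₀ ^ 2), eventually_ge_atTop 1]
        with u hu hu2 hu1
      have h4 := hR.phi_sub_le le_rfl (Nat.cast_nonneg u)
      rw [hR.phi_zero, sub_zero] at h4
      set φ := phi f x₀ u with hφ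
      have hφ0 : 0 < φ := hR.phi_pos _
      have hs : φ ^ (1 / 2 : ℝ) * φ ^ (1 / 2 : ℝ) = φ := by
        rw [← Real.rpow_add hφ0]; norm_num
      set s := φ ^ (1 / 2 : ℝ) with hs'
      have hs0 : 0 < s := Real.rpow_pos_of_pos hφ0 _
      have hx3 := hR.dens.hx₀
      have hu0 : (1 : ℝ) ≤ u := by exact_mod_cast hu1
      have h5 : (1 / (32 * (i : ℝ) ^ 5)) ≤ 1 := by
        rw [div_le_one (by positivity)]
        have : (1 : ℝ) ≤ (i : ℝ) ^ 5 := one_le_pow₀ hi1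
        linarith
      have h6 : Real.log φ ≤ s := hu.trans (by nlinarith)
      have h7 : x₀ ≤ s / 2 := by
        by_contra hc
        push Not at hc
        nlinarith
      have h8 : φ ≤ s / 2 + u * (2 * s) := by
        have : (u : ℝ) * (2 * Real.log φ) ≤ u * (2 * s) :=
          mul_le_mul_of_nonneg_left (by linarith) (by positivity)
        linarith
      rw [← hs] at h8
      have h9 : s ≤ 1 / 2 + 2 * u := by
        by_contra hc
        push Not at hc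
        nlinarith
      linarith
    filter_upwards [h2, h3, hlt.eventually_ge_atTop 1, hphit.eventually_ge_atTop 1]
      with u hu2 hu3 hl1 hp1
    have hφ0 : 0 < phi f x₀ u := hR.phi_pos _
    set φ := phi f x₀ u with hφ
    have hs : φ ^ (1 / 2 : ℝ) * φ ^ (1 / 2 : ℝ) = φ := by
      rw [← Real.rpow_add hφ0]; norm_num
    set s := φ ^ (1 / 2 : ℝ) with hs'
    have hs1 : 1 ≤ s := Real.one_le_rpow hp1 (by norm_num)
    have hlam : lamb f x₀ u = Real.log φ := rfl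
    rw [hlam] at hl1 ⊢
    have h16 : 32 * (i : ℝ) ^ 5 * Real.log φ ≤ s := by
      have h5 : (0 : ℝ) < 32 * (i : ℝ) ^ 5 := by positivity
      rw [one_div, inv_mul_eq_div, le_div_iff₀ h5] at hu2
      linarith
    have hsφ : s ≤ φ := by nlinarith
    have h45 : (i : ℝ) ^ 4 ≤ (i : ℝ) ^ 5 := pow_le_pow_right₀ hi1 (by norm_num)
    have hL0 : 0 ≤ Real.log φ := by linarith
    have h5L : (i : ℝ) ^ 4 * Real.log φ ≤ (i : ℝ) ^ 5 * Real.log φ :=
      mul_le_mul_of_nonneg_right h45 hL0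
    refine ⟨?_, ?_, ?_⟩
    · nlinarith
    · linarith
    · have e : 4 * (i : ℝ) * (4 * (i : ℝ) ^ 4 * Real.log φ) * Real.log φ =
        16 * (i : ℝ) ^ 5 * Real.log φ * Real.log φ := by ring
      rw [e]
      have h6 : Real.log φ ≤ s := by
        have : (1 : ℝ) ≤ (i : ℝ) ^ 5 := one_le_pow₀ hi1
        nlinarith
      have h7 : 16 * (i : ℝ) ^ 5 * Real.log φ ≤ s := by linarith [mul_nonneg (by positivity : (0 : ℝ) ≤ (i : ℝ) ^ 5) hL0]
      calc 16 * (i : ℝ) ^ 5 * Real.log φ * Real.log φ ≤ s * s :=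
            mul_le_mul h7 h6 hL0 (by linarith)
        _ = φ := hs
  filter_upwards [hlt.eventually_ge_atTop Λ, hlt.eventually_ge_atTop (2 * (i : ℝ) ^ 4),
    hphit.eventually_ge_atTop X, hsmall] with u h1 h2 h3 ⟨h4, h5, h6⟩
  right
  have hm1 := mst_ge (f := f) (x₀ := x₀) i u
  have hm2 := mst_le hR (by omega : 2 ≤ i) u
  have hl2 := two_le_lamb hR u
  have hm3 : (mst f x₀ i u : ℝ) + 1 ≤ 4 * i ^ 4 * lamb f x₀ u := by
    have h7 : (1 : ℝ) ≤ (i : ℝ) ^ 4 := one_le_pow₀ hi1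
    nlinarith
  refine ⟨?_, ?_, ?_, ?_, ?_⟩
  · obtain ⟨c, c1, c2, c3, c4, c5, c6, c7⟩ := hΛ _ h1 (mst f x₀ i u) hm1 hm2
    exact ⟨c, c1, c2, c3, c4, c5, c6, c7⟩
  · nlinarith
  · have h7 := phi_block hR (Nat.cast_nonneg u) (N := ((mst f x₀ i u : ℝ) + 1) / 2) (by positivity)
      (by linarith)
    have e : (u : ℝ) + 2 * (((mst f x₀ i u : ℝ) + 1) / 2) = ((u + mst f x₀ i u + 1 : ℕ) : ℝ) := by
      push_cast; ring
    rw [e] at h7
    have h8 : 8 * (((mst f x₀ i u : ℝ) + 1) / 2) * Real.log (phi f x₀ u) ≤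
        1 / i * phi f x₀ u := by
      have h9 : 8 * (((mst f x₀ i u : ℝ) + 1) / 2) * Real.log (phi f x₀ u) ≤
          4 * (4 * (i : ℝ) ^ 4 * lamb f x₀ u) * lamb f x₀ u := by
        have h10 : (0 : ℝ) ≤ Real.log (phi f x₀ u) := by
          have : lamb f x₀ u = Real.log (phi f x₀ u) := rfl
          linarith
        have h11 : 8 * (((mst f x₀ i u : ℝ) + 1) / 2) ≤ 4 * (4 * (i : ℝ) ^ 4 * lamb f x₀ u) := by
          linarith
        exact mul_le_mul_of_nonneg_right h11 h10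
      rw [div_mul_eq_mul_div, one_mul, le_div_iff₀ hi0]
      nlinarith
    linarith
  · intro x hx
    have h7 := hX x (h3.trans hx)
    have h8 : lamb f x₀ u ≤ Real.log x := Real.log_le_log (hR.phi_pos _) hx
    have h9 : 0 ≤ Real.log x := by linarith
    calc 4 * ((mst f x₀ i u : ℝ) + 1) ≤ 16 * (i : ℝ) ^ 4 * lamb f x₀ u := by linarith
      _ ≤ 16 * (i : ℝ) ^ 4 * Real.log x := mul_le_mul_of_nonneg_left h8 (by positivity)
      _ ≤ ω x * Real.log x := mul_le_mul_of_nonneg_right h7 h9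
  · have h7 : (i : ℝ) * (mst f x₀ i u + 1) ≤ u := by
      calc (i : ℝ) * (mst f x₀ i u + 1) ≤ i * (4 * i ^ 4 * lamb f x₀ u) :=
            mul_le_mul_of_nonneg_left hm3 hi0.le
        _ = 4 * (i : ℝ) ^ 5 * lamb f x₀ u := by ring
        _ ≤ u := h4
    exact_mod_cast h7

end Pool.Agent.H521.G
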