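import Mathlib

open MeasureTheory Set Filter Topology
open scoped NNReal

namespace Pool.Agent.H521.G

/-- a rotation of `range M` -/
theorem stat_block_rot {β : Type*} [AddCommMonoid β] (M r : ℕ) (F : ℕ → β) :
    ∑ l ∈ Finset.range M, F ((r + l) % M) = ∑ n ∈ Finset.range M, F n := by
  conv_rhs => rw [← Nat.image_Ico_mod r M]
  rw [Finset.sum_image (Nat.mod_injOn_Ico r M), Finset.sum_Ico_eq_sum_range, Nat.add_sub_cancel_left]

/-- the indices near the end -/
theorem stat_block_end (M k : ℕ) :
    ∑ l ∈ Finset.range M, (if M < l + k then (1 : ℝ) else 0) ≤ k := by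
  rw [Finset.sum_boole]
  have h1 : ((Finset.range M).filter fun l => M < l + k) ⊆ Finset.Ico (M - k) M := by
    intro l hl
    rw [Finset.mem_filter, Finset.mem_range] at hl
    rw [Finset.mem_Ico]
    omega
  have h2 := Finset.card_le_card h1
  rw [Nat.card_Ico] at h2
  have h3 : ((Finset.range M).filter fun l => M < l + k).card ≤ k := by omega
  exact_mod_cast h3

/-- the indices near an exceptional one -/
theorem stat_block_exc (E : Finset ℕ) (M i : ℕ) :
    ∑ l ∈ Finset.range M, (if l + i ∈ E then (1 : ℝ) else 0) ≤ E.card := by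
  rw [Finset.sum_boole]
  have h1 : ((Finset.range M).filter fun l => l + i ∈ E).card ≤ E.card := by
    refine Finset.card_le_card_of_injOn (fun l => l + i) ?_ ?_
    · intro l hl
      exact (Finset.mem_filter.1 hl).2
    · intro l _ l' _ h
      exact Nat.add_right_cancel h
  exact_mod_cast h1

/-- One block: if `a` is, up to few indices, close to a rotation of the first `M` terms of `γ`, then
the window sums of `a` over the block and of `γ` over `[0, M)` are close. -/
theorem stat_block {g M r : ℕ} (hM : 0 < M) {a γ : ℕ → ℝ} {k : ℕ} {φ : (Fin k → ℝ) → ℝ} {B : ℝ}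
    (hB : ∀ x, |φ x| ≤ B) {L : ℝ≥0} (hL : LipschitzWith L φ) {ε δ : ℝ} (hε : 0 ≤ ε)
    (H : (((Finset.range M).filter fun l => ε < |a (g + l) - γ ((r + l) % M)|).card : ℝ) ≤ δ * M) :
    |∑ l ∈ Finset.range M, φ (fun i => a (g + l + i)) -
        ∑ n ∈ Finset.range M, φ (fun i => γ (n + i))| ≤
      L * ε * M + 2 * B * (k * (δ * M) + 2 * k) := by
  classical
  have hB0 : 0 ≤ B := (abs_nonneg _).trans (hB fun _ => 0)
  set E : Finset ℕ := (Finset.range M).filter fun l => ε < |a (g + l) - γ ((r + l) % M)| with hE
  have hLε : 0 ≤ (L : ℝ) * ε := mul_nonneg L.coe_nonneg hε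
  set F : ℕ → ℝ := fun n => φ (fun i => γ (n + i)) with hF
  have hpt : ∀ l ∈ Finset.range M, |φ (fun i => a (g + l + i)) - F ((r + l) % M)| ≤
      L * ε + 2 * B * ((if M < l + k then (1 : ℝ) else 0) +
        (if M < (r + l) % M + k then (1 : ℝ) else 0) +
        ∑ i ∈ Finset.range k, (if l + i ∈ E then (1 : ℝ) else 0)) := by
    intro l hl
    have hs0 : 0 ≤ ∑ i ∈ Finset.range k, (if l + i ∈ E then (1 : ℝ) else 0) :=
      Finset.sum_nonneg fun i _ => by split_ifs <;> norm_num
    by_cases hgood : l + k ≤ M ∧ (r + l) % M + k ≤ M ∧ ∀ i < k, l + i ∉ E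
    · obtain ⟨h1, h2, h3⟩ := hgood
      have h4 : dist (φ fun i : Fin k => a (g + l + i)) (F ((r + l) % M)) ≤ L * ε := by
        refine (hL.dist_le_mul _ _).trans (mul_le_mul_of_nonneg_left ?_ L.coe_nonneg)
        rw [dist_pi_le_iff hε]
        intro i
        have hi := i.2
        have h5 := h3 i hi
        rw [hE, Finset.mem_filter, not_and, not_lt, Finset.mem_range] at h5
        have h6 := h5 (by omega)
        have h7 : (r + (l + (i : ℕ))) % M = (r + l) % M + i := by
          rw [← Nat.add_assoc, Nat.add_mod, Nat.mod_eq_of_lt (show (i : ℕ) < M by omega),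
            Nat.mod_eq_of_lt (by omega)]
        rw [h7, ← Nat.add_assoc] at h6
        rw [Real.dist_eq]
        exact h6
      rw [Real.dist_eq] at h4
      refine h4.trans ?_
      have h5 : 0 ≤ (if M < l + k then (1 : ℝ) else 0) := by split_ifs <;> norm_num
      have h6 : 0 ≤ (if M < (r + l) % M + k then (1 : ℝ) else 0) := by split_ifs <;> norm_num
      have h7 : 0 ≤ 2 * B * ((if M < l + k then (1 : ℝ) else 0) +
        (if M < (r + l) % M + k then (1 : ℝ) else 0) +
        ∑ i ∈ Finset.range k, (if l + i ∈ E then (1 : ℝ) else 0)) := by positivity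
      linarith
    · have h1 : |φ (fun i => a (g + l + i)) - F ((r + l) % M)| ≤ 2 * B := by
        refine (abs_sub _ _).trans ?_
        have h2 := hB fun i => a (g + l + i)
        have h3 : |F ((r + l) % M)| ≤ B := hB _
        linarith
      have h5 : 0 ≤ (if M < l + k then (1 : ℝ) else 0) := by split_ifs <;> norm_num
      have h6 : 0 ≤ (if M < (r + l) % M + k then (1 : ℝ) else 0) := by split_ifs <;> norm_num
      have h2 : 1 ≤ (if M < l + k then (1 : ℝ) else 0) +
        (if M < (r + l) % M + k then (1 : ℝ) else 0) +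
        ∑ i ∈ Finset.range k, (if l + i ∈ E then (1 : ℝ) else 0) := by
        by_cases c1 : M < l + k
        · rw [if_pos c1]
          linarith
        · by_cases c2 : M < (r + l) % M + k
          · rw [if_pos c2]
            linarith
          · have c3 : ∃ i < k, l + i ∈ E := by
              by_contra hne
              push Not at hne
              exact hgood ⟨by omega, by omega, hne⟩
            obtain ⟨i, hi, hiE⟩ := c3
            have h7 : (if l + i ∈ E then (1 : ℝ) else 0) ≤
                ∑ i ∈ Finset.range k, (if l + i ∈ E then (1 : ℝ) else 0) :=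
              Finset.single_le_sum (f := fun i => if l + i ∈ E then (1 : ℝ) else 0)
                (fun i _ => by split_ifs <;> norm_num) (Finset.mem_range.2 hi)
            rw [if_pos hiE] at h7
            linarith
      have h3 : 2 * B * 1 ≤ 2 * B * ((if M < l + k then (1 : ℝ) else 0) +
        (if M < (r + l) % M + k then (1 : ℝ) else 0) +
        ∑ i ∈ Finset.range k, (if l + i ∈ E then (1 : ℝ) else 0)) :=
        mul_le_mul_of_nonneg_left h2 (by linarith)
      linarith
  rw [← stat_block_rot M r F, ← Finset.sum_sub_distrib]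
  refine (Finset.abs_sum_le_sum_abs _ _).trans ((Finset.sum_le_sum hpt).trans ?_)
  rw [Finset.sum_add_distrib, Finset.sum_const, Finset.card_range, nsmul_eq_mul,
    ← Finset.mul_sum, Finset.sum_add_distrib, Finset.sum_add_distrib]
  have e1 := stat_block_end M k
  have e2 : ∑ l ∈ Finset.range M, (if M < (r + l) % M + k then (1 : ℝ) else 0) ≤ k := by
    rw [stat_block_rot M r fun n => if M < n + k then (1 : ℝ) else 0]
    exact e1
  have e3 : ∑ l ∈ Finset.range M, ∑ i ∈ Finset.range k, (if l + i ∈ E then (1 : ℝ) else 0) ≤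
      k * (δ * M) := by
    rw [Finset.sum_comm]
    refine (Finset.sum_le_sum fun i _ => (stat_block_exc E M i).trans H).trans ?_
    rw [Finset.sum_const, Finset.card_range, nsmul_eq_mul]
  have e4 : (∑ l ∈ Finset.range M, (if M < l + k then (1 : ℝ) else 0)) +
      (∑ l ∈ Finset.range M, (if M < (r + l) % M + k then (1 : ℝ) else 0)) +
      ∑ l ∈ Finset.range M, ∑ i ∈ Finset.range k, (if l + i ∈ E then (1 : ℝ) else 0) ≤
      k * (δ * M) + 2 * k := by linarith
  have e5 := mul_le_mul_of_nonneg_left e4 (show (0 : ℝ) ≤ 2 * B by linarith)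
  linarith

end Pool.Agent.H521.G

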