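import Mathlib

open MeasureTheory Set Filter Topology
open scoped Classical

namespace Pool.Agent.H521.G

/-- rotation of the indices of a block -/
theorem stat_hyp_rot (M r : ℕ) (p : ℕ → Prop) :
    ((Finset.range M).filter fun l => p ((r + l) % M)).card ≤
      ((Finset.range M).filter fun a => p a).card := by
  refine Finset.card_le_card_of_injOn (fun l => (r + l) % M) ?_ ?_
  · intro l hl
    rw [Finset.mem_coe, Finset.mem_filter, Finset.mem_range] at hl
    rw [Finset.mem_coe, Finset.mem_filter, Finset.mem_range]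
    exact ⟨Nat.mod_lt _ (by omega), hl.2⟩
  · intro l hl l' hl' h
    rw [Finset.mem_coe, Finset.mem_filter, Finset.mem_range] at hl hl'
    have h1 : r + l ≡ r + l' [MOD M] := h
    have h2 : l ≡ l' [MOD M] := Nat.ModEq.add_left_cancel' r h1
    exact Nat.ModEq.eq_of_lt_of_lt h2 hl.1 hl'.1

/-- Markov's inequality for a finite sum -/
theorem stat_hyp_markov (M : ℕ) (c : ℕ → ℝ) (hc : ∀ l, 0 < c l) {T : ℝ} (hT : 0 < T)
    (hs : ∑ l ∈ Finset.range M, c l = M) :
    (((Finset.range M).filter fun a => T < c a).card : ℝ) ≤ M / T := by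
  rw [le_div_iff₀ hT]
  calc (((Finset.range M).filter fun a => T < c a).card : ℝ) * T
      = ∑ _a ∈ (Finset.range M).filter (fun a => T < c a), T := by
        rw [Finset.sum_const, nsmul_eq_mul]
    _ ≤ ∑ a ∈ (Finset.range M).filter (fun a => T < c a), c a :=
        Finset.sum_le_sum fun a ha => (Finset.mem_filter.1 ha).2.le
    _ ≤ ∑ a ∈ Finset.range M, c a :=
        Finset.sum_le_sum_of_subset_of_nonneg (Finset.filter_subset _ _)
          fun a _ _ => (hc a).le
    _ = M := hs

/-- The hypothesis of the statistics transfer, from closeness of the pattern `c j` to the first terms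
of `γ` (up to few indices) and of the normalised gaps `G` to the gaps of `y`. -/
theorem stat_hyp {g M r : ℕ → ℕ} (hM0 : ∀ j, 0 < M j) (hMt : Tendsto M atTop atTop)
    {y G γ : ℕ → ℝ} {c : ℕ → ℕ → ℝ} (hc0 : ∀ j l, 0 < c j l)
    (hcM : ∀ j, ∑ l ∈ Finset.range (M j), c j l = M j)
    (hgap : ∀ j l, l + 1 < M j → y (g j + l + 1) - y (g j + l) = c j ((r j + l) % M j))
    (hG : ∀ ε : ℝ, 0 < ε → ∀ᶠ j in atTop, ∀ l, l < M j →
      |G (g j + l) - (y (g j + l + 1) - y (g j + l))| ≤ ε * (y (g j + l + 1) - y (g j + l)))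
    (hnear : ∀ ε : ℝ, 0 < ε → ∀ᶠ j in atTop,
      (((Finset.range (M j)).filter fun l => ε < |c j l - γ l|).card : ℝ) ≤ ε * M j) :
    ∀ ε : ℝ, 0 < ε → ∀ᶠ j in atTop,
      (((Finset.range (M j)).filter fun l => ε < |G (g j + l) - γ ((r j + l) % M j)|).card : ℝ) ≤
        ε * M j := by
  intro ε hε
  have h1 := hG (ε ^ 2 / 16) (by positivity)
  have h2 := hnear (ε / 4) (by positivity)
  have h3 : ∀ᶠ j in atTop, (1 : ℝ) ≤ ε / 4 * M j := by
    have h4 : Tendsto (fun j => (M j : ℝ)) atTop atTop :=
      tendsto_natCast_atTop_atTop.comp hMt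
    filter_upwards [h4.eventually_ge_atTop (4 / ε)] with j hj
    rw [div_le_iff₀ hε] at hj
    linarith
  filter_upwards [h1, h2, h3] with j h1 h2 h3
  have hM : (0 : ℝ) < M j := by exact_mod_cast hM0 j
  have hsub : ((Finset.range (M j)).filter fun l =>
        ε < |G (g j + l) - γ ((r j + l) % M j)|) ⊆
      ({M j - 1} ∪ ((Finset.range (M j)).filter fun l =>
        (fun a => ε / 4 < |c j a - γ a|) ((r j + l) % M j))) ∪
      ((Finset.range (M j)).filter fun l => (fun a => 4 / ε < c j a) ((r j + l) % M j)) := by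
    intro l hl
    rw [Finset.mem_filter, Finset.mem_range] at hl
    rw [Finset.mem_union, Finset.mem_union, Finset.mem_singleton, Finset.mem_filter,
      Finset.mem_filter, Finset.mem_range]
    by_contra hcon
    push Not at hcon
    obtain ⟨⟨hc1, hc2⟩, hc3⟩ := hcon
    have hc2 := hc2 hl.1
    have hc3 := hc3 hl.1
    have hl1 : l + 1 < M j := by omega
    have hg := hgap j l hl1
    have h4 := h1 l hl.1
    rw [hg] at h4
    set a := (r j + l) % M j with ha
    have h5 : ε ^ 2 / 16 * c j a ≤ ε / 4 := by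
      calc ε ^ 2 / 16 * c j a ≤ ε ^ 2 / 16 * (4 / ε) := by gcongr
        _ = ε / 4 := by field_simp; ring
    have h6 : |G (g j + l) - γ a| ≤ |G (g j + l) - c j a| + |c j a - γ a| :=
      abs_sub_le _ _ _
    linarith [hl.2]
  have h4 : ((((Finset.range (M j)).filter fun l =>
        ε < |G (g j + l) - γ ((r j + l) % M j)|).card : ℕ) : ℝ) ≤
      (1 + (((Finset.range (M j)).filter fun a => ε / 4 < |c j a - γ a|).card : ℝ)) +
        (((Finset.range (M j)).filter fun a => 4 / ε < c j a).card : ℝ) := by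
    have h5 := Finset.card_le_card hsub
    have h6 := Finset.card_union_le ({M j - 1} ∪ ((Finset.range (M j)).filter fun l =>
        (fun a => ε / 4 < |c j a - γ a|) ((r j + l) % M j)))
      ((Finset.range (M j)).filter fun l => (fun a => 4 / ε < c j a) ((r j + l) % M j))
    have h7 := Finset.card_union_le {M j - 1} ((Finset.range (M j)).filter fun l =>
        (fun a => ε / 4 < |c j a - γ a|) ((r j + l) % M j))
    have h8 := stat_hyp_rot (M j) (r j) (fun a => ε / 4 < |c j a - γ a|)
    have h9 := stat_hyp_rot (M j) (r j) (fun a => 4 / ε < c j a)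
    rw [Finset.card_singleton] at h7
    have h10 := h5.trans (h6.trans (Nat.add_le_add (h7.trans (Nat.add_le_add_left h8 1)) h9))
    exact_mod_cast h10
  have h5 := stat_hyp_markov (M j) (c j) (hc0 j) (T := 4 / ε) (by positivity) (hcM j)
  have h6 : (M j : ℝ) / (4 / ε) = ε / 4 * M j := by
    field_simp
  rw [h6] at h5
  have h7 : 0 < ε * M j := by positivity
  linarith

end Pool.Agent.H521.G
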