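import Pool.Agent.H521.G.BlockCesaro
import Pool.Agent.H521.G.StatBlock

open MeasureTheory Set Filter Topology
open scoped NNReal

namespace Pool.Agent.H521.G

/-- With one more point per block. On each block `[g j, g j + M j)` the sequence `a` is, up to few indices, a rotation of the first
`M j` terms of `γ`; then `a` inherits all window averages of `γ`. -/
theorem stat_transfer2 {g M r : ℕ → ℕ} (hg : ∀ j, g (j + 1) = g j + M j + 1) (hM0 : ∀ j, 0 < M j)
    (hMt : Tendsto M atTop atTop)
    (hr : Tendsto (fun j => (g (j + 1) : ℝ) / g j) atTop (𝓝 1)) {a γ : ℕ → ℝ}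
    (H : ∀ ε : ℝ, 0 < ε → ∀ᶠ j in atTop,
      (((Finset.range (M j)).filter fun l => ε < |a (g j + l) - γ ((r j + l) % M j)|).card : ℝ) ≤
        ε * M j)
    {k : ℕ} {φ : (Fin k → ℝ) → ℝ} {B : ℝ} (hB : ∀ x, |φ x| ≤ B) {L : ℝ≥0}
    (hL : LipschitzWith L φ) {l : ℝ}
    (hl : Tendsto (fun N : ℕ => (∑ n ∈ Finset.range N, φ (fun i => γ (n + i))) / N) atTop (𝓝 l)) :
    Tendsto (fun N : ℕ => (∑ n ∈ Finset.range N, φ (fun i => a (n + i))) / N) atTop (𝓝 l) := by
  have hB0 : 0 ≤ B := (abs_nonneg _).trans (hB fun _ => 0)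
  have hgm : StrictMono g := strictMono_nat_of_lt_succ fun j => by
    have h1 := hg j
    have h2 := hM0 j
    omega
  have hL0 : (0 : ℝ) ≤ L := L.2
  refine block_cesaro (g := g) hgm (S := fun N => ∑ n ∈ Finset.range N, φ (fun i => a (n + i)))
    (T := fun N => (N : ℝ)) (C := B) (fun m n h => Nat.cast_le.2 h) tendsto_natCast_atTop_atTop
    (fun n => ?_) hr fun ε₁ hε₁ => ?_
  · simp only [Finset.sum_range_succ]
    rw [add_sub_cancel_left]
    push_cast
    rw [add_sub_cancel_left, mul_one]
    exact hB _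
  · set D : ℝ := L + 2 * B * k + 1 with hD
    have hDp : 0 < D := by positivity
    obtain ⟨ε, hεdef⟩ : ∃ ε : ℝ, ε = ε₁ / 2 := ⟨_, rfl⟩
    have hε : 0 < ε := by rw [hεdef]; positivity
    have hε' : 0 < ε / (3 * D) := by positivity
    have h1 := H (ε / (3 * D)) hε'
    have h2 : ∀ᶠ j in atTop, 12 * B * k / ε ≤ (M j : ℝ) :=
      (tendsto_natCast_atTop_atTop.comp hMt).eventually_ge_atTop _
    have h3 : ∀ᶠ j in atTop, |(∑ n ∈ Finset.range (M j), φ (fun i => γ (n + i))) / (M j : ℝ) - l| <
        ε / 3 := by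
      have h4 := (Metric.tendsto_nhds.1 (hl.comp hMt)) (ε / 3) (by positivity)
      filter_upwards [h4] with j hj
      rw [Real.dist_eq] at hj
      exact hj
    have h0 : ∀ᶠ j in atTop, (B + |l|) / ε ≤ (M j : ℝ) :=
      (tendsto_natCast_atTop_atTop.comp hMt).eventually_ge_atTop _
    filter_upwards [h1, h2, h3, h0] with j hj1 hj2 hj3 hj0
    have hMp : (0 : ℝ) < M j := Nat.cast_pos.2 (hM0 j)
    have hblock := stat_block (hM0 j) hB hL hε'.le hj1
    have e1 : ∑ n ∈ Finset.range (g (j + 1)), φ (fun i => a (n + i)) -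
        ∑ n ∈ Finset.range (g j), φ (fun i => a (n + i)) =
        ∑ l ∈ Finset.range (M j), φ (fun i => a (g j + l + i)) +
          φ (fun i => a (g j + M j + i)) := by
      rw [hg j, Finset.sum_range_succ, Finset.sum_range_add]
      ring
    have e2 : ((g (j + 1) : ℕ) : ℝ) - (g j : ℝ) = M j + 1 := by
      rw [hg j]
      push_cast
      ring
    rw [e1, e2]
    set X := ∑ l ∈ Finset.range (M j), φ (fun i => a (g j + l + i)) with hX
    set Y := ∑ n ∈ Finset.range (M j), φ (fun i => γ (n + i)) with hY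
    have h5 : |Y - l * M j| ≤ ε / 3 * M j := by
      have e3 : Y - l * M j = (Y / M j - l) * M j := by
        field_simp
      rw [e3, abs_mul, abs_of_pos hMp]
      exact mul_le_mul_of_nonneg_right hj3.le hMp.le
    have h6 : 4 * B * k ≤ ε / 3 * M j := by
      rw [div_le_iff₀ hε] at hj2
      linarith
    have h7 : (L + 2 * B * k) * (ε / (3 * D)) * M j ≤ ε / 3 * M j := by
      refine mul_le_mul_of_nonneg_right ?_ hMp.le
      have h8 : (L + 2 * B * k) * (ε / (3 * D)) ≤ D * (ε / (3 * D)) :=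
        mul_le_mul_of_nonneg_right (by rw [hD]; linarith) hε'.le
      refine h8.trans (le_of_eq ?_)
      field_simp
    have h9 : |X - l * M j| ≤ |X - Y| + |Y - l * M j| := by
      have : X - l * M j = (X - Y) + (Y - l * M j) := by ring
      rw [this]
      exact abs_add_le _ _
    have h10 : L * (ε / (3 * D)) * M j + 2 * B * (k * (ε / (3 * D) * M j) + 2 * k) =
        (L + 2 * B * k) * (ε / (3 * D)) * M j + 4 * B * k := by ring
    rw [h10] at hblock
    rw [div_le_iff₀ hε] at hj0
    have h11 := hB fun i : Fin k => a (g j + M j + i)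
    set y := φ fun i : Fin k => a (g j + M j + i) with hy
    have h12 : |X + y - l * (M j + 1)| ≤ |X - l * M j| + |y| + |l| := by
      have : X + y - l * (M j + 1) = (X - l * M j) + y + (-l) := by ring
      rw [this]
      refine (abs_add_le _ _).trans ?_
      rw [abs_neg]
      linarith [abs_add_le (X - l * M j) y]
    have h13 : ε₁ * (M j + 1) = ε * M j + ε * M j + 2 * ε := by rw [hεdef]; ring
    rw [h13]
    linarith

end Pool.Agent.H521.G
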