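import Mathlib

open MeasureTheory Set Filter Topology

namespace Pool.Agent.H521.G

theorem summ6 {φ : ℕ → ℝ} (hφ : ∀ u : ℕ, (u : ℝ) + 1 ≤ φ u) {M st : ℕ → ℕ}
    (hst : Tendsto st atTop atTop)
    (hM : ∀ᶠ u in atTop, (M u : ℝ) ≤ φ u ^ (1 / (st u : ℝ))) {σ : ℝ} (hσ : 1 / 2 < σ) :
    Summable fun n : ℕ => ((M n : ℝ) * φ n ^ (-σ)) ^ 2 := by
  obtain ⟨δ, hδ0, hδ⟩ : ∃ δ : ℝ, 0 < δ ∧ δ = σ - 1 / 2 := ⟨σ - 1 / 2, by linarith, rfl⟩
  have hg : Summable fun n : ℕ => ((n : ℝ) + 1) ^ (-(1 + δ)) := by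
    have h1 := (summable_nat_add_iff 1).2 (Real.summable_nat_rpow.2 (show -(1 + δ) < -1 by linarith))
    refine h1.congr fun n => ?_
    push_cast
    rfl
  have hst' : ∀ᶠ u in atTop, 1 / (st u : ℝ) ≤ δ / 2 := by
    have h1 : Tendsto (fun u => ((st u : ℕ) : ℝ)) atTop atTop := tendsto_natCast_atTop_atTop.comp hst
    filter_upwards [h1.eventually_ge_atTop (2 / δ)] with u hu
    have h2 : 0 < 2 / δ := by positivity
    calc 1 / (st u : ℝ) ≤ 1 / (2 / δ) := one_div_le_one_div_of_le h2 hu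
      _ = δ / 2 := by rw [one_div_div]
  refine Summable.of_norm_bounded_eventually_nat hg ?_
  filter_upwards [hM, hst'] with n hn hs
  have hn0 : (0 : ℝ) ≤ n := Nat.cast_nonneg n
  have hφ1 : 1 ≤ φ n := by linarith [hφ n]
  have hφ0 : 0 < φ n := by linarith
  have h1 : (M n : ℝ) * φ n ^ (-σ) ≤ φ n ^ (δ / 2 - σ) := by
    rw [sub_eq_add_neg, Real.rpow_add hφ0]
    refine mul_le_mul_of_nonneg_right (hn.trans ?_) (Real.rpow_nonneg hφ0.le _)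
    exact Real.rpow_le_rpow_of_exponent_le hφ1 hs
  have h0 : 0 ≤ (M n : ℝ) * φ n ^ (-σ) := mul_nonneg (Nat.cast_nonneg _) (Real.rpow_nonneg hφ0.le _)
  rw [Real.norm_eq_abs, abs_of_nonneg (by positivity)]
  calc ((M n : ℝ) * φ n ^ (-σ)) ^ 2 ≤ (φ n ^ (δ / 2 - σ)) ^ 2 := pow_le_pow_left₀ h0 h1 2
    _ = φ n ^ (-(1 + δ)) := by
      rw [← Real.rpow_natCast, ← Real.rpow_mul hφ0.le]
      congr 1
      push_cast
      rw [hδ]
      ring
    _ ≤ ((n : ℝ) + 1) ^ (-(1 + δ)) :=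
      Real.rpow_le_rpow_of_nonpos (by linarith) (hφ n) (by linarith)

end Pool.Agent.H521.G
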