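import Mathlib

open MeasureTheory Set Filter Topology

namespace Pool.Agent.H521.G

theorem summ8 {φ : ℕ → ℝ} (hφ : ∀ u : ℕ, (u : ℝ) + 1 ≤ φ u) (hm : Monotone φ) {M W : ℕ → ℕ}
    (hW : ∀ ε : ℝ, 0 < ε → ∃ C : ℝ, ∀ k : ℕ, (W k : ℝ) ≤ C * φ (2 ^ k) ^ ε)
    (h1 : ∀ ε : ℝ, 0 < ε → ∃ C : ℝ, ∀ n : ℕ, (∀ k : ℕ, ¬ (2 ^ k ≤ n ∧ n ≤ 2 ^ k + W k)) →
      (M n : ℝ) ≤ C * φ n ^ ε)
    (h2 : ∀ ε : ℝ, 0 < ε → ∃ C : ℝ, ∀ n : ℕ, (M n : ℝ) ≤ C * φ n ^ (1 / 2 + ε))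
    {σ : ℝ} (hσ : 1 / 2 < σ) :
    Summable fun n : ℕ => ((M n : ℝ) * φ n ^ (-σ)) ^ 2 := by
  classical
  obtain ⟨δ, hδ, hσδ⟩ : ∃ δ : ℝ, 0 < δ ∧ 2 * σ = 1 + δ := ⟨2 * σ - 1, by linarith, by ring⟩
  obtain ⟨C1, hC1⟩ := h1 (δ / 4) (by positivity)
  obtain ⟨C2, hC2⟩ := h2 (δ / 4) (by positivity)
  obtain ⟨C3, hC3⟩ := hW (δ / 4) (by positivity)
  have hφ1 : ∀ n, 1 ≤ φ n := fun n => by
    have h3 := hφ n
    have h4 : (0 : ℝ) ≤ n := Nat.cast_nonneg n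
    linarith
  have hφ0 : ∀ n, 0 < φ n := fun n => lt_of_lt_of_le one_pos (hφ1 n)
  -- squares
  have sq_bd : ∀ (n : ℕ) (C e : ℝ), (M n : ℝ) ≤ C * φ n ^ e →
      ((M n : ℝ) * φ n ^ (-σ)) ^ 2 ≤ C ^ 2 * φ n ^ (2 * e - 2 * σ) := by
    intro n C e h
    have h0 : 0 ≤ (M n : ℝ) * φ n ^ (-σ) :=
      mul_nonneg (Nat.cast_nonneg _) (Real.rpow_nonneg (hφ0 n).le _)
    have h3 : (M n : ℝ) * φ n ^ (-σ) ≤ C * φ n ^ (e - σ) := by
      have h4 := mul_le_mul_of_nonneg_right h (Real.rpow_nonneg (hφ0 n).le (-σ))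
      rwa [mul_assoc, ← Real.rpow_add (hφ0 n), ← sub_eq_add_neg] at h4
    have h5 := pow_le_pow_left₀ h0 h3 2
    have h6 : (φ n ^ (e - σ)) ^ 2 = φ n ^ (2 * e - 2 * σ) := by
      rw [← Real.rpow_natCast, ← Real.rpow_mul (hφ0 n).le]
      congr 1
      push_cast
      ring
    rw [mul_pow C, h6] at h5
    exact h5
  obtain ⟨A, hA⟩ : ∃ A : ℕ → ℝ, A = fun n => C1 ^ 2 * ((n + 1 : ℕ) : ℝ) ^ (-(1 + δ / 2)) :=
    ⟨_, rfl⟩
  obtain ⟨c, hc⟩ : ∃ c : ℕ → ℝ, c = fun k => C2 ^ 2 * φ (2 ^ k) ^ (-(δ / 2)) := ⟨_, rfl⟩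
  have hA0 : ∀ n, 0 ≤ A n := fun n => by
    rw [hA]
    positivity
  have hc0 : ∀ k, 0 ≤ c k := fun k => by
    rw [hc]
    exact mul_nonneg (sq_nonneg _) (Real.rpow_nonneg (hφ0 _).le _)
  have hAs : Summable A := by
    rw [hA]
    refine Summable.mul_left _ ?_
    exact (summable_nat_add_iff 1).2 (Real.summable_nat_rpow.2 (by linarith))
  have hoff : ∀ n, (∀ k : ℕ, ¬ (2 ^ k ≤ n ∧ n ≤ 2 ^ k + W k)) →
      ((M n : ℝ) * φ n ^ (-σ)) ^ 2 ≤ A n := by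
    intro n hn
    refine (sq_bd n C1 (δ / 4) (hC1 n hn)).trans ?_
    rw [hA]
    simp only
    refine mul_le_mul_of_nonneg_left ?_ (sq_nonneg _)
    have h3 : 2 * (δ / 4) - 2 * σ = -(1 + δ / 2) := by
      rw [hσδ]
      ring
    rw [h3]
    have h4 : ((n + 1 : ℕ) : ℝ) ≤ φ n := by
      push_cast
      exact hφ n
    exact Real.rpow_le_rpow_of_nonpos (by positivity) h4 (by linarith)
  have hon : ∀ n k, 2 ^ k ≤ n → ((M n : ℝ) * φ n ^ (-σ)) ^ 2 ≤ c k := by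
    intro n k hk
    refine (sq_bd n C2 (1 / 2 + δ / 4) (hC2 n)).trans ?_
    rw [hc]
    simp only
    refine mul_le_mul_of_nonneg_left ?_ (sq_nonneg _)
    have h3 : 2 * (1 / 2 + δ / 4) - 2 * σ = -(δ / 2) := by
      rw [hσδ]
      ring
    rw [h3]
    exact Real.rpow_le_rpow_of_nonpos (hφ0 _) (hm hk) (by linarith)
  obtain ⟨r, hr⟩ : ∃ r : ℝ, r = (2 : ℝ) ^ (-(δ / 4)) := ⟨_, rfl⟩
  have hr0 : 0 ≤ r := by
    rw [hr]
    positivity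
  have hr1 : r < 1 := by
    rw [hr]
    exact Real.rpow_lt_one_of_one_lt_of_neg (by norm_num) (by linarith)
  have hck : ∀ k, ((W k : ℝ) + 1) * c k ≤ C2 ^ 2 * (|C3| + 1) * r ^ k := by
    intro k
    have hp : 0 < φ (2 ^ k) := hφ0 _
    have h3 : (W k : ℝ) + 1 ≤ (|C3| + 1) * φ (2 ^ k) ^ (δ / 4) := by
      have h4 : (1 : ℝ) ≤ φ (2 ^ k) ^ (δ / 4) := Real.one_le_rpow (hφ1 _) (by positivity)
      have h5 : C3 * φ (2 ^ k) ^ (δ / 4) ≤ |C3| * φ (2 ^ k) ^ (δ / 4) :=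
        mul_le_mul_of_nonneg_right (le_abs_self _) (by linarith)
      have h6 := hC3 k
      linarith
    have h7 : φ (2 ^ k) ^ (-(δ / 4)) ≤ r ^ k := by
      have h8 : r ^ k = ((2 : ℝ) ^ k) ^ (-(δ / 4)) := by
        rw [hr, ← Real.rpow_natCast, ← Real.rpow_natCast, ← Real.rpow_mul (by norm_num),
          ← Real.rpow_mul (by norm_num)]
        congr 1
        ring
      rw [h8]
      refine Real.rpow_le_rpow_of_nonpos (by positivity) ?_ (by linarith)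
      have h9 := hφ (2 ^ k)
      push_cast at h9
      linarith
    have h10 : φ (2 ^ k) ^ (δ / 4) * φ (2 ^ k) ^ (-(δ / 2)) = φ (2 ^ k) ^ (-(δ / 4)) := by
      rw [← Real.rpow_add hp]
      congr 1
      ring
    calc ((W k : ℝ) + 1) * c k ≤ ((|C3| + 1) * φ (2 ^ k) ^ (δ / 4)) * c k :=
          mul_le_mul_of_nonneg_right h3 (hc0 k)
      _ = C2 ^ 2 * (|C3| + 1) * (φ (2 ^ k) ^ (δ / 4) * φ (2 ^ k) ^ (-(δ / 2))) := by
          rw [hc]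
          ring
      _ = C2 ^ 2 * (|C3| + 1) * φ (2 ^ k) ^ (-(δ / 4)) := by rw [h10]
      _ ≤ C2 ^ 2 * (|C3| + 1) * r ^ k := mul_le_mul_of_nonneg_left h7 (by positivity)
  have hGs : Summable fun k : ℕ => C2 ^ 2 * (|C3| + 1) * r ^ k :=
    (summable_geometric_of_lt_one hr0 hr1).mul_left _
  refine summable_of_sum_range_le (c := ∑' n, A n + ∑' k : ℕ, C2 ^ 2 * (|C3| + 1) * r ^ k)
    (fun n => sq_nonneg _) fun N => ?_
  have hstep : ∀ n ∈ Finset.range N, ((M n : ℝ) * φ n ^ (-σ)) ^ 2 ≤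
      A n + ∑ k ∈ Finset.range N, if 2 ^ k ≤ n ∧ n ≤ 2 ^ k + W k then c k else 0 := by
    intro n hn
    have hnn : ∀ k ∈ Finset.range N, 0 ≤ (if 2 ^ k ≤ n ∧ n ≤ 2 ^ k + W k then c k else 0) := by
      intro k _
      split_ifs
      · exact hc0 k
      · exact le_rfl
    by_cases hS : ∃ k : ℕ, 2 ^ k ≤ n ∧ n ≤ 2 ^ k + W k
    · obtain ⟨k, hk⟩ := hS
      have hkN : k ∈ Finset.range N := by
        rw [Finset.mem_range] at hn ⊢
        have h3 : k < 2 ^ k := Nat.lt_two_pow_self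
        omega
      have h4 := Finset.single_le_sum hnn hkN
      rw [if_pos hk] at h4
      have h5 := hon n k hk.1
      have h6 := hA0 n
      linarith
    · have h3 := hoff n fun k hk => hS ⟨k, hk⟩
      have h4 := Finset.sum_nonneg hnn
      linarith
  have hwin : ∀ k, ∑ n ∈ Finset.range N, (if 2 ^ k ≤ n ∧ n ≤ 2 ^ k + W k then c k else 0) ≤
      ((W k : ℝ) + 1) * c k := by
    intro k
    rw [← Finset.sum_filter, Finset.sum_const, nsmul_eq_mul]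
    refine mul_le_mul_of_nonneg_right ?_ (hc0 k)
    have h3 : ((Finset.range N).filter fun n => 2 ^ k ≤ n ∧ n ≤ 2 ^ k + W k).card ≤ W k + 1 := by
      refine (Finset.card_le_card (t := Finset.Icc (2 ^ k) (2 ^ k + W k)) ?_).trans ?_
      · intro n hn
        exact Finset.mem_Icc.2 (Finset.mem_filter.1 hn).2
      · rw [Nat.card_Icc]
        omega
    exact_mod_cast h3
  calc ∑ n ∈ Finset.range N, ((M n : ℝ) * φ n ^ (-σ)) ^ 2
      ≤ ∑ n ∈ Finset.range N, (A n +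
          ∑ k ∈ Finset.range N, if 2 ^ k ≤ n ∧ n ≤ 2 ^ k + W k then c k else 0) :=
        Finset.sum_le_sum hstep
    _ = ∑ n ∈ Finset.range N, A n + ∑ k ∈ Finset.range N, ∑ n ∈ Finset.range N,
          (if 2 ^ k ≤ n ∧ n ≤ 2 ^ k + W k then c k else 0) := by
        rw [Finset.sum_add_distrib, Finset.sum_comm]
    _ ≤ ∑' n, A n + ∑' k : ℕ, C2 ^ 2 * (|C3| + 1) * r ^ k := by
        refine add_le_add (hAs.sum_le_tsum _ fun n _ => hA0 n) ?_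
        refine (Finset.sum_le_sum fun k _ => (hwin k).trans (hck k)).trans ?_
        exact hGs.sum_le_tsum _ fun k _ => by positivity

end Pool.Agent.H521.G
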