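import Pool.Agent.H521.G.LimSuff

open MeasureTheory Set Filter Topology
open scoped ENNReal NNReal ComplexConjugate

namespace Pool.Agent.H521.G

/-- The properties of a system, as a bundle. -/
structure Sys (Z : Multiset ℂ) (p : ℕ → ℝ) : Prop where
  three_le : ∀ k, 3 ≤ p k
  mono : StrictMono p
  tendsto : Tendsto p atTop atTop
  summable : ∀ s : ℂ, 1 < s.re → Summable fun e : ℕ →₀ ℕ => ((gint p e : ℝ) : ℂ) ^ (-s)
  zeta : ∃ g : ℂ → ℂ, DifferentiableOn ℂ g {s : ℂ | 1 / 2 < s.re} ∧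
        (∀ s : ℂ, 1 < s.re → (s - 1) * zetaB p s = (Z.map fun ρ => s - ρ).prod *
          Complex.exp (g s)) ∧
        ∀ ε : ℝ, 0 < ε → ∃ C : ℝ, ∀ s : ℂ, 1 / 2 + ε ≤ s.re →
          ‖(Z.map fun ρ => s - ρ).prod * Complex.exp (g s)‖ ≤ C * (1 + ‖s‖) ^ (1 + ε)
  ints : ∃ κ : ℝ, 0 < κ ∧ ∀ ε : ℝ, 0 < ε → ∃ C : ℝ, ∀ x : ℝ, 1 ≤ x →
        |(countInt p x : ℝ) - κ * x| ≤ C * x ^ (1 / 2 + ε)
  pnt : ∀ ε : ℝ, 0 < ε → ∃ C : ℝ, ∀ x : ℝ, 2 ≤ x →
        |(countPr p x : ℝ) - mainTerm Z x| ≤ C * x ^ (1 / 2 + ε)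

section

variable {f : ℝ → ℝ} {x₀ : ℝ} (hR : RDens f x₀) {y : ℕ → ℝ}
include hR

theorem seq_summable (hy0 : ∀ k, 0 ≤ y k)
    {C : ℝ} (hC0 : 0 ≤ C) (hC : ∀ k, |y k - k| ≤ C * phi f x₀ (y k)) {τ : ℝ} (hτ : 1 < τ) :
    Summable fun k => phi f x₀ (y k) ^ (-τ) := by
  have h1 : ∀ k : ℕ, ((k : ℝ) + 1) / (2 + C) ≤ phi f x₀ (y k) := by
    intro k
    have h2 := (abs_le.1 (hC k)).1
    have h3 := hR.phi_ge_add (hy0 k)
    have h4 := hR.dens.hx₀
    rw [div_le_iff₀ (by linarith)]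
    have h5 : 0 ≤ C * phi f x₀ (y k) := mul_nonneg hC0 (hR.phi_pos _).le
    nlinarith
  have hs := (summable_add_one_rpow (p := -τ) (by linarith)).mul_left ((2 + C) ^ τ)
  refine Summable.of_nonneg_of_le (fun k => Real.rpow_nonneg (hR.phi_pos _).le _)
    (fun k => ?_) hs
  have hk : (0 : ℝ) < (k : ℝ) + 1 := by positivity
  have h2C : 0 < 2 + C := by linarith
  calc phi f x₀ (y k) ^ (-τ) ≤ (((k : ℝ) + 1) / (2 + C)) ^ (-τ) :=
        Real.rpow_le_rpow_of_nonpos (by positivity) (h1 k) (by linarith)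
    _ = (2 + C) ^ τ * ((k : ℝ) + 1) ^ (-τ) := by
        rw [Real.div_rpow hk.le h2C.le, Real.rpow_neg h2C.le, div_inv_eq_mul, mul_comm]

theorem seq_count (hmono : StrictMono y) (hyt : Tendsto y atTop atTop) (hy0 : ∀ k, 0 ≤ y k)
    {σ C : ℝ} (hσ : 0 ≤ σ) (hC0 : 0 ≤ C)
    (hC : ∀ k, |y k - k| ≤ C * phi f x₀ (y k) ^ σ)
    (hg0 : y 0 ≤ C) (hg : ∀ k, y (k + 1) - y k ≤ C * phi f x₀ (y k) ^ σ)
    {x : ℝ} (hx : x₀ ≤ x) :
    |(countPr (fun k => phi f x₀ (y k)) x : ℝ) - ∫ u in x₀..x, f u| ≤ (2 * C + 1) * x ^ σ := by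
  have hmono' : StrictMono fun k => phi f x₀ (y k) := fun a b h => hR.phi_lt (hy0 a) (hmono h)
  have hx1 : 1 ≤ x := by linarith [hR.dens.hx₀]
  have hxσ : 1 ≤ x ^ σ := Real.one_le_rpow hx1 hσ
  change |(countPr (fun k => phi f x₀ (y k)) x : ℝ) - Fp f x₀ x| ≤ _
  set Y := Fp f x₀ x with hY
  have hY0 : 0 ≤ Y := by
    have := hR.F_mono le_rfl hx
    rwa [hR.F_zero] at this
  have hφY : phi f x₀ Y = x := hR.phi_F hx
  rcases lt_or_ge x (phi f x₀ (y 0)) with h0 | h0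
  · have hc : countPr (fun k => phi f x₀ (y k)) x = 0 := by
      unfold countPr
      have : {j : ℕ | phi f x₀ (y j) ≤ x} = ∅ := by
        ext j
        simp only [mem_ofPred_eq, mem_empty_iff_false, iff_false, not_le]
        exact lt_of_lt_of_le h0 (hmono'.monotone (Nat.zero_le j))
      rw [this]; simp
    have hyk : Y < y 0 := by
      by_contra hcc
      push Not at hcc
      have := hR.phi_mono hcc
      rw [hφY] at this
      linarith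
    rw [hc]
    simp only [Nat.cast_zero, zero_sub, abs_neg, abs_of_nonneg hY0]
    nlinarith
  · obtain ⟨k, hk1, hk2⟩ : ∃ k, phi f x₀ (y k) ≤ x ∧ x < phi f x₀ (y (k + 1)) := by
      have hex : ∃ k, x < phi f x₀ (y k) :=
        ((hR.phi_tendsto.comp hyt).eventually_gt_atTop x).exists
      classical
      have hpos : Nat.find hex ≠ 0 := by
        intro h
        have := Nat.find_spec hex
        rw [h] at this
        linarith
      refine ⟨Nat.find hex - 1, not_lt.1 (Nat.find_min hex (by omega)), ?_⟩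
      have e : Nat.find hex - 1 + 1 = Nat.find hex := by omega
      rw [e]
      exact Nat.find_spec hex
    have hc := countPr_eq hmono' hk1 hk2
    have hyk1 : y k ≤ Y := by
      by_contra hcc
      push Not at hcc
      have := hR.phi_lt hY0 hcc
      rw [hφY] at this
      linarith
    have hyk2 : Y < y (k + 1) := by
      by_contra hcc
      push Not at hcc
      have := hR.phi_mono hcc
      rw [hφY] at this
      linarith
    have h1 := abs_le.1 (hC k)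
    have h2 := hg k
    have h5 : phi f x₀ (y k) ^ σ ≤ x ^ σ := Real.rpow_le_rpow (hR.phi_pos _).le hk1 hσ
    have h6 := mul_le_mul_of_nonneg_left h5 hC0
    rw [hc, abs_le]
    push_cast
    constructor <;> nlinarith [h1.1, h1.2]

end

/-- From a sequence in the `y`-coordinate to a system. -/
theorem sys_of_seq {Z : Multiset ℂ} (hZ : ∀ ρ ∈ Z, ρ.re < 1) (hZc : Z.map conj = Z)
    {x₀ : ℝ} (hR : RDens (fZ Z) x₀) {y : ℕ → ℝ} (hmono : StrictMono y)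
    (hyt : Tendsto y atTop atTop) (hy0 : ∀ k, 0 ≤ y k)
    (hdisc : ∀ σ : ℝ, 1 / 2 < σ → ∃ C : ℝ, 0 ≤ C ∧ y 0 ≤ C ∧
      (∀ k, |y k - k| ≤ C * phi (fZ Z) x₀ (y k) ^ σ) ∧
      ∀ k, y (k + 1) - y k ≤ C * phi (fZ Z) x₀ (y k) ^ σ)
    {R : ℂ → ℂ} (hRd : DifferentiableOn ℂ R {s : ℂ | 1 / 2 < s.re})
    (hRb : ∀ ε : ℝ, 0 < ε → ∃ C : ℝ, ∀ s : ℂ, 1 / 2 + ε ≤ s.re →
      |(R s).re| ≤ C + ε * Real.log (2 + ‖s‖))
    {K : ℕ → ℕ} (hK : Tendsto K atTop atTop)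
    (hRe : ∀ s : ℂ, 1 < s.re → Tendsto (fun J => ∑ k ∈ Finset.range (K J),
      ((phi (fZ Z) x₀ (y k) : ℝ) : ℂ) ^ (-s)) atTop
        (𝓝 ((∫ u in Ioi x₀, (fZ Z u : ℂ) * (u : ℂ) ^ (-s)) + R s))) :
    Sys Z fun k => phi (fZ Z) x₀ (y k) := by
  obtain ⟨C1, hC10, -, hC1, -⟩ := hdisc 1 (by norm_num)
  simp only [Real.rpow_one] at hC1
  have hsum : ∀ τ : ℝ, 1 < τ → Summable fun k => phi (fZ Z) x₀ (y k) ^ (-τ) := fun τ hτ =>
    seq_summable hR hy0 hC10 hC1 hτ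
  obtain ⟨c1, c2, c3⟩ := core hZ hZc hR.dens.hx₀ (p := fun k => phi (fZ Z) x₀ (y k))
    (fun k => hR.phi_three_le _) hsum hRd
    (fun s hs => by
      have h1 : Summable fun k => ((phi (fZ Z) x₀ (y k) : ℝ) : ℂ) ^ (-s) := by
        refine Summable.of_norm_bounded (hsum s.re hs) (fun k => ?_)
        rw [norm_ofReal_cpow_neg (hR.phi_pos _)]
      exact tendsto_nhds_unique (h1.hasSum.tendsto_sum_nat.comp hK) (hRe s hs)) hRb
  refine ⟨fun k => hR.phi_three_le _, fun a b h => hR.phi_lt (hy0 a) (hmono h),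
    hR.phi_tendsto.comp hyt, c3, c1, c2, fun ε hε => ?_⟩
  obtain ⟨C, hC0, hg0, hC, hg⟩ := hdisc (1 / 2 + ε) (by linarith)
  exact pi_of_count hZ hR.dens (p := fun k => phi (fZ Z) x₀ (y k)) (fun k => hR.phi_ge _) hε
    (by positivity : 0 ≤ 2 * C + 1)
    (fun x hx => seq_count hR hmono hyt hy0 (by positivity) hC0 hC hg0 hg hx)

end Pool.Agent.H521.G
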