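import Mathlib

open MeasureTheory Set Filter Topology

namespace Pool.Agent.H521.G

/-- The sequence `⌊exp √k⌋`. -/
noncomputable def tseq (k : ℕ) : ℕ := ⌊Real.exp (Real.sqrt k)⌋₊

theorem tseq_aux_sq {t : ℝ} (ht : 0 ≤ t) : t ^ 2 ≤ Real.exp t := by
  have h1 := Real.quadratic_le_exp_of_nonneg (x := t / 2) (by linarith)
  have h2 : t ≤ Real.exp (t / 2) := by nlinarith [sq_nonneg (t - 2)]
  have h3 : Real.exp t = Real.exp (t / 2) ^ 2 := by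
    rw [← Real.exp_nat_mul]
    congr 1
    push_cast
    ring
  rw [h3]
  exact pow_le_pow_left₀ ht h2 2

theorem tseq_ge (k : ℕ) : k ≤ tseq k := by
  unfold tseq
  refine Nat.le_floor ?_
  have h1 := tseq_aux_sq (Real.sqrt_nonneg (k : ℝ))
  rwa [Real.sq_sqrt (Nat.cast_nonneg k)] at h1

theorem tseq_mono : Monotone tseq := by
  intro k l hkl
  unfold tseq
  exact Nat.floor_mono (Real.exp_le_exp.2 (Real.sqrt_le_sqrt (by exact_mod_cast hkl)))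

theorem tseq_aux_diff :
    Tendsto (fun k : ℕ => Real.sqrt ((k + 1 : ℕ) : ℝ) - Real.sqrt (k : ℝ)) atTop (𝓝 0) := by
  have h1 : Tendsto (fun k : ℕ => (Real.sqrt ((k + 1 : ℕ) : ℝ))⁻¹) atTop (𝓝 0) :=
    tendsto_inv_atTop_zero.comp (Real.tendsto_sqrt_atTop.comp
      (tendsto_natCast_atTop_atTop.comp (tendsto_add_atTop_nat 1)))
  refine squeeze_zero (fun k => ?_) (fun k => ?_) h1
  · have : Real.sqrt (k : ℝ) ≤ Real.sqrt ((k + 1 : ℕ) : ℝ) :=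
      Real.sqrt_le_sqrt (by push_cast; linarith)
    linarith
  · have h2 : 0 < Real.sqrt ((k + 1 : ℕ) : ℝ) := Real.sqrt_pos.2 (by positivity)
    have h3 : Real.sqrt ((k + 1 : ℕ) : ℝ) ^ 2 = k + 1 := by
      rw [Real.sq_sqrt (by positivity)]
      push_cast
      ring
    have h4 : Real.sqrt (k : ℝ) ^ 2 = k := Real.sq_sqrt (Nat.cast_nonneg k)
    have h5 : Real.sqrt (k : ℝ) ≤ Real.sqrt ((k + 1 : ℕ) : ℝ) :=
      Real.sqrt_le_sqrt (by push_cast; linarith)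
    rw [← one_div, le_div_iff₀ h2]
    nlinarith [Real.sqrt_nonneg (k : ℝ)]

theorem tseq_aux_exp : Tendsto (fun k : ℕ => Real.exp (Real.sqrt (k : ℝ))) atTop atTop :=
  Real.tendsto_exp_atTop.comp (Real.tendsto_sqrt_atTop.comp tendsto_natCast_atTop_atTop)

theorem tseq_aux_div :
    Tendsto (fun k : ℕ => (tseq k : ℝ) / Real.exp (Real.sqrt (k : ℝ))) atTop (𝓝 1) :=
  (tendsto_nat_floor_div_atTop (R := ℝ)).comp tseq_aux_exp

theorem tseq_ratio : Tendsto (fun k : ℕ => (tseq (k + 1) : ℝ) / tseq k) atTop (𝓝 1) := by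
  have h1 : Tendsto (fun k : ℕ => (tseq (k + 1) : ℝ) / Real.exp (Real.sqrt ((k + 1 : ℕ) : ℝ)))
      atTop (𝓝 1) := tseq_aux_div.comp (tendsto_add_atTop_nat 1)
  have h2 : Tendsto (fun k : ℕ => Real.exp (Real.sqrt ((k + 1 : ℕ) : ℝ) - Real.sqrt (k : ℝ)))
      atTop (𝓝 1) := by
    have h3 := (Real.continuous_exp.tendsto 0).comp tseq_aux_diff
    rw [Real.exp_zero] at h3
    exact h3
  have h3 := (h1.mul h2).div tseq_aux_div one_ne_zero
  rw [one_mul, div_one] at h3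
  refine h3.congr fun k => ?_
  simp only [Pi.div_apply]
  rw [Real.exp_sub]
  have h4 := (Real.exp_pos (Real.sqrt ((k + 1 : ℕ) : ℝ))).ne'
  have h5 := (Real.exp_pos (Real.sqrt (k : ℝ))).ne'
  rcases eq_or_ne (tseq k : ℝ) 0 with h6 | h6
  · rw [h6, zero_div, div_zero, div_zero]
  · field_simp

theorem tseq_summable {δ : ℝ} (hδ : 0 < δ) :
    Summable fun k : ℕ => ((tseq k : ℝ) + 1) ^ (-δ) := by
  rw [← summable_nat_add_iff 1]
  have h1 : Summable fun k : ℕ => 24 / δ ^ 4 * (1 / ((k + 1 : ℕ) : ℝ) ^ 2) :=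
    ((summable_nat_add_iff 1).2 (Real.summable_one_div_nat_pow.2 one_lt_two)).mul_left _
  refine Summable.of_nonneg_of_le (fun k => by positivity) (fun k => ?_) h1
  have h2 : Real.exp (Real.sqrt ((k + 1 : ℕ) : ℝ)) ≤ (tseq (k + 1) : ℝ) + 1 :=
    (Nat.lt_floor_add_one _).le
  have h3 : ((tseq (k + 1) : ℝ) + 1) ^ (-δ) ≤ Real.exp (Real.sqrt ((k + 1 : ℕ) : ℝ)) ^ (-δ) :=
    Real.rpow_le_rpow_of_nonpos (Real.exp_pos _) h2 (by linarith)
  refine h3.trans ?_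
  have hs : 0 < Real.sqrt ((k + 1 : ℕ) : ℝ) := Real.sqrt_pos.2 (by positivity)
  rw [← Real.exp_mul]
  have h4 := Real.pow_div_factorial_le_exp (x := δ * Real.sqrt ((k + 1 : ℕ) : ℝ))
    (by positivity) 4
  have h5 : (δ * Real.sqrt ((k + 1 : ℕ) : ℝ)) ^ 4 / (Nat.factorial 4 : ℝ) =
      (24 / δ ^ 4 * (1 / ((k + 1 : ℕ) : ℝ) ^ 2))⁻¹ := by
    have h6 : Real.sqrt ((k + 1 : ℕ) : ℝ) ^ 4 = ((k + 1 : ℕ) : ℝ) ^ 2 := by
      have h7 : Real.sqrt ((k + 1 : ℕ) : ℝ) ^ 4 = (Real.sqrt ((k + 1 : ℕ) : ℝ) ^ 2) ^ 2 := by ring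
      rw [h7, Real.sq_sqrt (by positivity)]
    rw [mul_pow, h6]
    have h8 : (Nat.factorial 4 : ℝ) = 24 := by norm_num [Nat.factorial]
    rw [h8]
    have h9 : ((k + 1 : ℕ) : ℝ) ≠ 0 := by positivity
    field_simp
  rw [h5] at h4
  have h10 : Real.exp (Real.sqrt ((k + 1 : ℕ) : ℝ) * -δ) =
      (Real.exp (δ * Real.sqrt ((k + 1 : ℕ) : ℝ)))⁻¹ := by
    rw [← Real.exp_neg]
    congr 1
    ring
  rw [h10]
  have h11 : 0 < 24 / δ ^ 4 * (1 / ((k + 1 : ℕ) : ℝ) ^ 2) := by positivity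
  exact inv_le_of_inv_le₀ h11 h4

end Pool.Agent.H521.G
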