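import Pool.Agent.H521.G.T8b
import Pool.Agent.H521.G.TSeq

open MeasureTheory Set Filter Topology
open scoped ENNReal NNReal ComplexConjugate Classical

namespace Pool.Agent.H521.G

/-- `φ(u) ^ (1/4) ≤ 4 u ^ (1/2)`. -/
theorem phi_pow_le {f : ℝ → ℝ} {x₀ : ℝ} (hR : RDens f x₀) :
    ∀ᶠ u : ℝ in atTop, phi f x₀ u ^ (1 / 4 : ℝ) ≤ 4 * u ^ (1 / 2 : ℝ) := by
  have h1 : ∀ᶠ x : ℝ in atTop, Real.log x ≤ x ^ (1 / 4 : ℝ) := by
    have := (isLittleO_log_rpow_atTop (by norm_num : (0 : ℝ) < 1 / 4)).bound (one_pos)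
    filter_upwards [this, eventually_ge_atTop 1] with x hx hx1
    rwa [Real.norm_of_nonneg (Real.log_nonneg hx1), Real.norm_of_nonneg (by positivity), one_mul] at hx
  filter_upwards [hR.phi_tendsto.eventually h1, hR.phi_tendsto.eventually_ge_atTop (2 * |x₀| + 1),
    eventually_ge_atTop 1] with u hu hu2 hu1
  have h4 := hR.phi_sub_le le_rfl (by linarith : (0 : ℝ) ≤ u)
  rw [hR.phi_zero, sub_zero] at h4
  set φ := phi f x₀ u with hφ
  have hφ0 : 0 < φ := hR.phi_pos _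
  have hx0 := abs_nonneg x₀
  have hx1 := le_abs_self x₀
  have h5 : φ / 2 ≤ 2 * u * φ ^ (1 / 4 : ℝ) := by
    have : u * (2 * Real.log φ) ≤ u * (2 * φ ^ (1 / 4 : ℝ)) :=
      mul_le_mul_of_nonneg_left (by linarith) (by linarith)
    linarith
  obtain ⟨t, ht⟩ : ∃ t : ℝ, t = φ ^ (1 / 4 : ℝ) := ⟨_, rfl⟩
  have ht0 : 0 < t := by rw [ht]; exact Real.rpow_pos_of_pos hφ0 _
  have ht4 : φ = t * t * t * t := by
    rw [ht, ← Real.rpow_add hφ0, ← Real.rpow_add hφ0, ← Real.rpow_add hφ0]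
    norm_num
  have ht1 : 1 ≤ t := by
    rw [ht]
    exact Real.one_le_rpow (by linarith) (by norm_num)
  rw [← ht, ht4] at h5
  have h6 : t * t * t ≤ 4 * u := by
    by_contra hc
    push Not at hc
    nlinarith
  have h7 : t * t ≤ 4 * u := by nlinarith [mul_pos ht0 ht0]
  rw [← ht]
  set s := u ^ (1 / 2 : ℝ) with hs
  have hs0 : 0 < s := Real.rpow_pos_of_pos (by linarith) _
  have hs2 : s * s = u := by
    rw [hs, ← Real.rpow_add (by linarith)]
    norm_num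
  by_contra hc
  push Not at hc
  nlinarith

/-- The points where the order function passes the levels `tseq k`. -/
theorem exists_levels {f : ℝ → ℝ} {x₀ : ℝ} (hR : RDens f x₀) {h : ℝ → ℝ}
    (hinf : Tendsto h atTop atTop)
    (hh2 : ∀ ε : ℝ, 0 < ε → ∀ᶠ x in atTop, h x ≤ x ^ (1 / 2 + ε)) :
    ∃ T : ℕ → ℕ, (∀ k, k ≤ T k) ∧
      (∀ δ : ℝ, 0 < δ → Summable fun k : ℕ => ((T k : ℝ) + 1) ^ (-δ)) ∧
      ∀ᶠ k in atTop, 1 ≤ T k ∧ (tseq k : ℝ) ≤ h (phi f x₀ (T k)) ∧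
        h (phi f x₀ ((T k - 1 : ℕ) : ℝ)) < tseq k := by
  have hφt : Tendsto (fun u : ℕ => phi f x₀ (u : ℝ)) atTop atTop :=
    hR.phi_tendsto.comp tendsto_natCast_atTop_atTop
  have hht : Tendsto (fun u : ℕ => h (phi f x₀ (u : ℝ))) atTop atTop := hinf.comp hφt
  have hex : ∀ k : ℕ, ∃ u : ℕ, (tseq k : ℝ) ≤ h (phi f x₀ (u : ℝ)) := fun k =>
    (hht.eventually_ge_atTop _).exists
  set F : ℕ → ℕ := fun k => Nat.find (hex k) with hF
  have hF1 : ∀ k, (tseq k : ℝ) ≤ h (phi f x₀ (F k : ℝ)) := fun k => Nat.find_spec (hex k)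
  have hF2 : ∀ k v, v < F k → h (phi f x₀ (v : ℝ)) < tseq k := fun k v hv => by
    have := Nat.find_min (hex k) hv
    push Not at this
    exact this
  have htt : Tendsto tseq atTop atTop := tendsto_atTop_mono tseq_ge tendsto_id
  have httR : Tendsto (fun k => (tseq k : ℝ)) atTop atTop := tendsto_natCast_atTop_atTop.comp htt
  have hFt : Tendsto F atTop atTop := by
    rw [tendsto_atTop]
    intro N
    filter_upwards [httR.eventually_gt_atTop (∑ u ∈ Finset.range N, |h (phi f x₀ (u : ℝ))|)]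
      with k hk
    by_contra hc
    push Not at hc
    have h1 := hF1 k
    have h2 := Finset.single_le_sum (f := fun u : ℕ => |h (phi f x₀ (u : ℝ))|)
      (fun i _ => abs_nonneg _) (Finset.mem_range.2 hc)
    have h3 := le_abs_self (h (phi f x₀ (F k : ℝ)))
    linarith
  have hFR : Tendsto (fun k => (F k : ℝ)) atTop atTop := tendsto_natCast_atTop_atTop.comp hFt
  -- the size of `F`
  have hsz : ∀ᶠ k in atTop, (tseq k : ℝ) ≤ 256 * (F k : ℝ) ^ 2 := by
    have h1 := (hR.phi_tendsto.comp hFR).eventually (hh2 (1 / 2) (by norm_num))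
    have h2 := hFR.eventually (phi_pow_le hR)
    filter_upwards [h1, h2, hFR.eventually_ge_atTop 1] with k h1 h2 h3
    simp only [Function.comp] at h1
    rw [show (1 / 2 + 1 / 2 : ℝ) = 1 by norm_num, Real.rpow_one] at h1
    refine (hF1 k).trans (h1.trans ?_)
    have hφ0 : 0 < phi f x₀ (F k : ℝ) := hR.phi_pos _
    have h4 : (phi f x₀ (F k : ℝ) ^ (1 / 4 : ℝ)) ^ 4 ≤ (4 * (F k : ℝ) ^ (1 / 2 : ℝ)) ^ 4 :=
      pow_le_pow_left₀ (Real.rpow_nonneg hφ0.le _) h2 4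
    have h5 : (phi f x₀ (F k : ℝ) ^ (1 / 4 : ℝ)) ^ 4 = phi f x₀ (F k : ℝ) := by
      rw [← Real.rpow_natCast, ← Real.rpow_mul hφ0.le]
      norm_num
    have h6 : ((F k : ℝ) ^ (1 / 2 : ℝ)) ^ 4 = (F k : ℝ) ^ 2 := by
      rw [← Real.rpow_natCast, ← Real.rpow_mul (by linarith)]
      norm_num
    rw [h5, mul_pow, h6] at h4
    linarith
  have hbig : ∀ᶠ k : ℕ in atTop, 256 * (k : ℝ) ^ 2 < tseq k := by
    filter_upwards [eventually_ge_atTop 400000] with k hk
    have hk' : (400000 : ℝ) ≤ k := by exact_mod_cast hk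
    have h1 : Real.exp (Real.sqrt k) < tseq k + 1 := Nat.lt_floor_add_one _
    have h2 := Real.pow_div_factorial_le_exp (Real.sqrt k) (Real.sqrt_nonneg _) 6
    have h3 : Real.sqrt k ^ 6 = (k : ℝ) ^ 3 := by
      have : Real.sqrt k ^ 2 = k := Real.sq_sqrt (by linarith)
      calc Real.sqrt k ^ 6 = (Real.sqrt k ^ 2) ^ 3 := by ring
        _ = _ := by rw [this]
    have h4 : ((Nat.factorial 6 : ℕ) : ℝ) = 720 := by norm_num [Nat.factorial]
    rw [h3, h4] at h2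
    have h5 : (k : ℝ) ^ 3 / 720 ≥ 400000 / 720 * (k : ℝ) ^ 2 := by
      have : (k : ℝ) ^ 3 = k * (k : ℝ) ^ 2 := by ring
      rw [this]
      have h6 : 0 ≤ (k : ℝ) ^ 2 := by positivity
      nlinarith
    have h6 : (1 : ℝ) ≤ (k : ℝ) ^ 2 := by nlinarith
    nlinarith
  have hkF : ∀ᶠ k in atTop, k ≤ F k := by
    filter_upwards [hsz, hbig] with k h1 h2
    by_contra hc
    push Not at hc
    have h3 : (F k : ℝ) ≤ k := by exact_mod_cast hc.le
    have h4 : (0 : ℝ) ≤ F k := Nat.cast_nonneg _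
    nlinarith
  refine ⟨fun k => max k (F k), fun k => le_max_left _ _, ?_, ?_⟩
  · intro δ hδ
    have hs := (tseq_summable (half_pos hδ)).mul_left ((256 : ℝ) ^ (δ / 2))
    refine Summable.of_norm_bounded_eventually_nat hs ?_
    filter_upwards [hsz] with k h1
    have hM : (F k : ℝ) ≤ ((max k (F k) : ℕ) : ℝ) := by exact_mod_cast le_max_right _ _
    set M : ℝ := ((max k (F k) : ℕ) : ℝ) with hMdef
    have h0 : (0 : ℝ) ≤ F k := Nat.cast_nonneg _
    have hM1 : 0 < M + 1 := by linarith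
    have ht0 : (0 : ℝ) ≤ tseq k := Nat.cast_nonneg _
    have h2 : (tseq k : ℝ) + 1 ≤ 256 * (M + 1) ^ 2 := by nlinarith
    have h3 : ((tseq k : ℝ) + 1) ^ (δ / 2) ≤ (256 : ℝ) ^ (δ / 2) * (M + 1) ^ δ := by
      calc ((tseq k : ℝ) + 1) ^ (δ / 2) ≤ (256 * (M + 1) ^ 2) ^ (δ / 2) :=
            Real.rpow_le_rpow (by linarith) h2 (by linarith)
        _ = (256 : ℝ) ^ (δ / 2) * ((M + 1) ^ 2) ^ (δ / 2) :=
            Real.mul_rpow (by norm_num) (by positivity)
        _ = (256 : ℝ) ^ (δ / 2) * (M + 1) ^ δ := by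
            congr 1
            rw [← Real.rpow_natCast, ← Real.rpow_mul hM1.le]
            congr 1
            push_cast
            ring
    rw [Real.norm_of_nonneg (Real.rpow_nonneg hM1.le _), Real.rpow_neg hM1.le,
      Real.rpow_neg (by linarith), inv_le_iff_one_le_mul₀ (Real.rpow_pos_of_pos hM1 _)]
    have h4 : 0 < ((tseq k : ℝ) + 1) ^ (δ / 2) := Real.rpow_pos_of_pos (by linarith) _
    rw [mul_comm ((256 : ℝ) ^ (δ / 2)) _, ← div_eq_inv_mul, div_mul_eq_mul_div, le_div_iff₀ h4, one_mul]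
    exact h3
  · filter_upwards [hkF, hFt.eventually_ge_atTop 1] with k h1 h2
    have e : max k (F k) = F k := max_eq_right h1
    simp only [e]
    exact ⟨h2, hF1 k, hF2 k _ (by omega)⟩

end Pool.Agent.H521.G
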