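import Pool.Agent.H521.G.T8b
import Pool.Agent.H521.G.Summ9

open MeasureTheory Set Filter Topology
open scoped ENNReal NNReal ComplexConjugate Classical

namespace Pool.Agent.H521.G

theorem tq10_exists {f : ℝ → ℝ} {x₀ : ℝ} (hR : RDens f x₀)
    (h8 : ∀ u, x₀ ≤ u → 8 * Real.log u ≤ u) {γ : ℕ → ℝ} (hγ : ∀ n, 0 ≤ γ n)
    (hcond : ∀ K ε : ℝ, 0 < K → 0 < ε → ∀ᶠ N : ℕ in atTop,
      (∑ n ∈ Finset.range N, min (γ n) K) / N ≤ 1 + ε)
    {Q E : ℕ → ℝ} (hQ : ∀ q, 1 < Q q) {P : ℕ → Prop} (hQE : ∀ q, P q → Q q ≤ E q)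
    {ω h : ℝ → ℝ} (hω : Tendsto ω atTop atTop) (hmono : MonotoneOn h (Ici 2))
    (hh1 : Tendsto (fun x => h x / Real.log x) atTop atTop)
    (hh2 : ∀ ε : ℝ, 0 < ε → ∀ᶠ x in atTop, h x ≤ x ^ (1 / 2 + ε))
    (hPA : ∀ q, P q → ENNReal.ofReal (Q q) < lexp h)
    {T : ℕ → ℕ} (hTge : ∀ k, k ≤ T k)
    (hTsum : ∀ δ : ℝ, 0 < δ → Summable fun k : ℕ => ((T k : ℝ) + 1) ^ (-δ)) :
    ∃ (D : TQ f x₀) (st : ℕ → ℕ) (cap : ℕ → ℝ) (W : ℕ → ℕ), Tendsto st atTop atTop ∧
      (∀ u, 12 ≤ st u → GB8 f x₀ γ Q E P ω h (st u) u (D.M u) (D.C u) (cap u)) ∧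
      (∀ ε : ℝ, 0 < ε → ∃ C : ℝ, ∀ k, (W k : ℝ) ≤ C * phi f x₀ (T k : ℕ) ^ ε) ∧
      ∀ k, 1 ≤ T k → ∃ j, cap (D.g j) = sz f x₀ h (D.g j) ∧ T k ≤ D.g (j + 1) ∧
        D.g j ≤ T k + W k := by
  obtain ⟨st, hst, hP, -⟩ := exists_stage (P := StP8 f x₀ γ Q E P ω h)
    (fun u => Or.inl (by norm_num)) (StP8_ev hR hγ hcond hQ hQE hω hmono hh1 hh2 hPA)
  obtain ⟨φ, hφe⟩ : ∃ φ : ℕ → ℝ, φ = fun u : ℕ => Pool.Agent.H521.G.phi f x₀ u := ⟨_, rfl⟩
  have hφu : ∀ u : ℕ, φ u = Pool.Agent.H521.G.phi f x₀ u := fun u => by rw [hφe]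
  have hφs : ∀ u : ℕ, (u : ℝ) + 1 ≤ φ u := fun u => by
    rw [hφu]; exact phi_ge_succ hR (le_refl (u : ℝ))
  have hφ1 : ∀ u, 1 ≤ φ u := fun u => by
    have := hφs u
    have h0 : (0 : ℝ) ≤ u := Nat.cast_nonneg u
    linarith
  have hφm : Monotone φ := fun u v huv => by
    rw [hφu, hφu]
    exact hR.phi_mono (by exact_mod_cast huv)
  have hl2 := two_le_lamb hR
  -- the two lengths
  set Mt : Bool → ℕ → ℕ := fun b u => if st u < 12 then 1 else mst8 f x₀ h b (st u) u with hMt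
  have hMt1 : ∀ b u, st u < 12 → Mt b u = 1 := fun b u hu => if_pos hu
  have hMt2 : ∀ b u, 12 ≤ st u → Mt b u = mst8 f x₀ h b (st u) u := fun b u hu =>
    if_neg (by omega)
  have hinv : ∀ ε : ℝ, 0 < ε → ∀ᶠ u in atTop, 12 ≤ st u ∧ 1 / (st u : ℝ) ≤ ε := by
    intro ε hε
    filter_upwards [hst.eventually_ge_atTop 12,
      (tendsto_natCast_atTop_atTop.comp hst).eventually_ge_atTop (1 / ε)] with u h1 h2
    refine ⟨h1, ?_⟩
    have h3 : (0 : ℝ) < st u := by exact_mod_cast (by omega : 0 < st u)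
    simp only [Function.comp] at h2
    rw [div_le_iff₀ h3]
    rw [div_le_iff₀ hε] at h2
    linarith
  have hB1 : ∀ ε : ℝ, 0 < ε → ∃ C : ℝ, 0 ≤ C ∧ ∀ u, (Mt false u : ℝ) ≤ C * φ u ^ ε := by
    intro ε hε
    apply bound_of_ev8 hφ1 hε.le
    filter_upwards [hinv ε hε] with u ⟨h1, h2⟩
    rw [hMt2 _ _ h1]
    rcases hP u with h3 | ⟨-, h3, -⟩
    · omega
    · rw [← hφu] at h3
      exact h3.trans (Real.rpow_le_rpow_of_exponent_le (hφ1 u) h2)
  have hB2 : ∀ ε : ℝ, 0 < ε → ∃ C : ℝ, 0 ≤ C ∧ ∀ u, (Mt true u : ℝ) ≤ C * φ u ^ (1 / 2 + ε) := by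
    intro ε hε
    apply bound_of_ev8 hφ1 (by positivity)
    filter_upwards [hinv ε hε] with u ⟨h1, h2⟩
    rw [hMt2 _ _ h1]
    rcases hP u with h3 | ⟨-, -, h3⟩
    · omega
    · rw [← hφu] at h3
      exact h3.trans (Real.rpow_le_rpow_of_exponent_le (hφ1 u) (by linarith))
  -- the windows
  set W : ℕ → ℕ := fun k => (Finset.range (T k + 1)).sup (Mt false) + 1 with hW
  have hWle : ∀ k v, v ≤ T k → Mt false v + 1 ≤ W k := by
    intro k v hv
    have := Finset.le_sup (f := Mt false) (Finset.mem_range.2 (by omega : v < T k + 1))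
    show Mt false v + 1 ≤ (Finset.range (T k + 1)).sup (Mt false) + 1
    omega
  have hWb : ∀ ε : ℝ, 0 < ε → ∃ C : ℝ, ∀ k : ℕ, (W k : ℝ) ≤ C * φ (T k) ^ ε := by
    intro ε hε
    obtain ⟨C₁, hC0, hC1⟩ := hB1 ε hε
    refine ⟨C₁ + 1, fun k => ?_⟩
    have h1 : 1 ≤ φ (T k) ^ ε := Real.one_le_rpow (hφ1 _) hε.le
    have h2 : (((Finset.range (T k + 1)).sup (Mt false) : ℕ) : ℝ) ≤ C₁ * φ (T k) ^ ε := by
      obtain ⟨v, hv1, hv2⟩ := Finset.exists_mem_eq_sup (Finset.range (T k + 1))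
        ⟨0, Finset.mem_range.2 (Nat.succ_pos _)⟩ (Mt false)
      rw [hv2]
      refine (hC1 v).trans ?_
      apply mul_le_mul_of_nonneg_left _ hC0
      apply Real.rpow_le_rpow (by linarith [hφ1 v]) _ hε.le
      apply hφm
      have := Finset.mem_range.1 hv1
      omega
    have e : ((W k : ℕ) : ℝ) = (((Finset.range (T k + 1)).sup (Mt false) : ℕ) : ℝ) + 1 := by
      show ((((Finset.range (T k + 1)).sup (Mt false) + 1 : ℕ)) : ℝ) = _
      push_cast
      rfl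
    rw [e]
    linarith
  set sp : ℕ → Prop := fun u => ∃ k, T k ≤ u ∧ u ≤ T k + W k with hsp
  set kd : ℕ → Bool := fun u => decide (sp u) with hkd
  have hkd1 : ∀ u, sp u → kd u = true := fun u hu => decide_eq_true hu
  have hkd2 : ∀ u, ¬ sp u → kd u = false := fun u hu => decide_eq_false hu
  have hex : ∀ u, ∃ c : ℕ → ℝ, (st u < 12 → ∀ l, c l = 1) ∧
      (12 ≤ st u → GB8 f x₀ γ Q E P ω h (st u) u (mst8 f x₀ h (kd u) (st u) u) c
        (cap8 f x₀ h (kd u) (st u) u)) := by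
    intro u
    rcases lt_or_ge (st u) 12 with h' | h'
    · exact ⟨fun _ => 1, fun _ _ => rfl, fun h'' => by omega⟩
    · rcases hP u with h'' | ⟨h'', -⟩
      · omega
      · obtain ⟨c, hc⟩ := h'' (kd u)
        exact ⟨c, fun h'' => by omega, fun _ => hc⟩
  choose C hC1 hC2 using hex
  obtain ⟨D, hDM', hDC⟩ : ∃ D : TQ f x₀, D.M = (fun u => Mt (kd u) u) ∧ D.C = C := by
   refine ⟨{ M := fun u => Mt (kd u) u
             C := C
             Mpos := ?_
             Cpos := ?_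
             Csum := ?_
             hS := ?_
             two := ?_ }, rfl, rfl⟩
   · intro u
     rcases lt_or_ge (st u) 12 with h' | h'
     · rw [hMt1 _ _ h']; exact one_pos
     · rw [hMt2 _ _ h']
       have h3 := (hC2 u h').ge
       have := hl2 u
       have h4 : 0 < lamb f x₀ u ^ st u := by positivity
       exact_mod_cast h4.trans_le h3
   · intro u l
     rcases lt_or_ge (st u) 12 with h' | h'
     · rw [hC1 u h']; exact one_pos
     · exact (hC2 u h').tm.pos l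
   · intro u
     rcases lt_or_ge (st u) 12 with h' | h'
     · simp only [hMt1 _ _ h']
       rw [Finset.sum_range_one, hC1 u h']
       simp
     · simp only [hMt2 _ _ h']
       exact (hC2 u h').tm.sum
   · intro σ hσ
     have key := summ9 (φ := φ) hφs hφm (M := fun u => Mt (kd u) u) (W := W) (T := T) hTge
      hTsum ?_ ?_ ?_ hσ
     · refine key.congr fun n => ?_
       rw [hφu]
     · exact hWb
     · intro ε hε
       obtain ⟨C₁, hC0, hC1⟩ := hB1 ε hε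
       refine ⟨C₁, fun n hn => ?_⟩
       have h1 : kd n = false := hkd2 n (fun ⟨k, hk1, hk2⟩ => hn k ⟨hk1, hk2⟩)
       simp only [h1]
       exact hC1 n
     · intro ε hε
       obtain ⟨C₁, hC0, hC1⟩ := hB1 ε hε
       obtain ⟨C₂, hC0', hC2⟩ := hB2 ε hε
       refine ⟨C₁ + C₂, fun n => ?_⟩
       have h1 : 0 < φ n ^ (1 / 2 + ε) := Real.rpow_pos_of_pos (by linarith [hφ1 n]) _
       have h2 : φ n ^ ε ≤ φ n ^ (1 / 2 + ε) :=
         Real.rpow_le_rpow_of_exponent_le (hφ1 n) (by linarith)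
       cases hb : kd n
       · have := hC1 n
         nlinarith [mul_le_mul_of_nonneg_left h2 hC0, mul_nonneg hC0' h1.le]
       · have := hC2 n
         nlinarith [mul_nonneg hC0 h1.le]
   · intro u
     rcases lt_or_ge (st u) 12 with h' | h'
     · simp only [hMt1 _ _ h']
       have h1 := phi_block hR (Nat.cast_nonneg u) (N := 1) (by norm_num) (by
         linarith [hR.phi_eight_le (u : ℝ)])
       have h2 := h8 _ (hR.phi_ge (u : ℝ))
       have e : (u : ℝ) + 2 * 1 = ((u + 1 + 1 : ℕ) : ℝ) := by push_cast; ring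
       rw [e] at h1
       linarith
     · simp only [hMt2 _ _ h']
       have h1 := (hC2 u h').phi
       have h2 : (1 : ℝ) / st u ≤ 1 := by
         have : (1 : ℝ) ≤ st u := by exact_mod_cast (by omega : 1 ≤ st u)
         rw [div_le_one (by linarith)]
         exact this
       have h3 := hR.phi_pos (u : ℝ)
       nlinarith
  have hDM : ∀ u, D.M u = Mt (kd u) u := fun u => by rw [hDM']
  refine ⟨D, st, fun u => cap8 f x₀ h (kd u) (st u) u, W, hst, ?_, ?_, ?_⟩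
  · intro u hu
    rw [hDM, hDC, hMt2 _ _ hu]
    exact hC2 u hu
  · intro ε hε
    obtain ⟨C, hC⟩ := hWb ε hε
    exact ⟨C, fun k => by rw [← hφu]; exact hC k⟩
  · intro k hk1
    obtain ⟨j, hj1, hj2⟩ : ∃ j, T k ≤ D.g (j + 1) ∧ D.g j < T k := by
      have hex2 : ∃ j, T k ≤ D.g (j + 1) := by
        refine ⟨T k, ?_⟩
        have := D.g_mono.le_apply (x := T k + 1)
        omega
      refine ⟨Nat.find hex2, Nat.find_spec hex2, ?_⟩
      rcases Nat.eq_zero_or_pos (Nat.find hex2) with h0 | h0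
      · rw [h0]
        have : D.g 0 = 0 := rfl
        rw [this]
        omega
      · have h1 := Nat.find_min hex2 (Nat.sub_lt h0 one_pos)
        have e : Nat.find hex2 - 1 + 1 = Nat.find hex2 := by omega
        rw [e] at h1
        omega
    have hcap : ∀ u, sp u → cap8 f x₀ h (kd u) (st u) u = sz f x₀ h u := by
      intro u hu
      rw [hkd1 _ hu]
      rfl
    by_cases hs : sp (D.g j)
    · exact ⟨j, hcap _ hs, hj1, by omega⟩
    · have h1 := hWle k (D.g j) hj2.le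
      have h2 : D.g (j + 1) = D.g j + D.M (D.g j) + 1 := D.g_succ j
      rw [hDM, hkd2 _ hs] at h2
      refine ⟨j + 1, hcap _ ⟨k, hj1, by omega⟩, ?_, by omega⟩
      exact hj1.trans (D.g_mono (Nat.lt_succ_self (j + 1))).le

end Pool.Agent.H521.G
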