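import Pool.Agent.H521.G.T8g
import Pool.Agent.H521.G.T10a
import Pool.Agent.H521.G.T10b

open MeasureTheory Set Filter Topology
open scoped ENNReal NNReal ComplexConjugate Classical

namespace Pool.Agent.H521.G

/-- the maximal gap -/
noncomputable def maxG (p : ℕ → ℝ) (x : ℝ) : ℝ := sSup {g | ∃ n, p n ≤ x ∧ g = p (n + 1) - p n}

theorem maxG_bdd {p : ℕ → ℝ} (hp : Tendsto p atTop atTop) (x : ℝ) :
    BddAbove {g | ∃ n, p n ≤ x ∧ g = p (n + 1) - p n} := by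
  obtain ⟨N, hN⟩ := eventually_atTop.1 (hp.eventually_gt_atTop x)
  have h1 : {g | ∃ n, p n ≤ x ∧ g = p (n + 1) - p n} ⊆
      (fun n => p (n + 1) - p n) '' (Finset.range N : Set ℕ) := by
    rintro g ⟨n, hn, rfl⟩
    refine ⟨n, ?_, rfl⟩
    rw [Finset.coe_range, mem_Iio]
    by_contra hc
    push Not at hc
    exact absurd hn (not_le.2 (hN n hc))
  exact ((Finset.finite_toSet _).image _).bddAbove.mono h1

/-- Short windows. -/
theorem win_short {f : ℝ → ℝ} {x₀ : ℝ} (hR : RDens f x₀) {T W : ℕ → ℕ}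
    (hT : Tendsto T atTop atTop)
    (hW : ∀ ε : ℝ, 0 < ε → ∃ C : ℝ, ∀ k, (W k : ℝ) ≤ C * phi f x₀ (T k : ℕ) ^ ε) :
    ∀ᶠ k in atTop, phi f x₀ ((T k : ℝ) + W k) ≤
      phi f x₀ ((T k - 1 : ℕ) : ℝ) + phi f x₀ ((T k - 1 : ℕ) : ℝ) ^ (3 / 4 : ℝ) := by
  obtain ⟨C, hC⟩ := hW (1 / 4) (by norm_num)
  have hT1 : Tendsto (fun k => ((T k - 1 : ℕ) : ℝ)) atTop atTop :=
    tendsto_natCast_atTop_atTop.comp ((tendsto_sub_atTop_nat 1).comp hT)
  have hX : Tendsto (fun k => phi f x₀ ((T k - 1 : ℕ) : ℝ)) atTop atTop := hR.phi_tendsto.comp hT1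
  have hlog : ∀ᶠ x : ℝ in atTop, 4 * (2 * |C| * x ^ (1 / 4 : ℝ) + 1) * Real.log x ≤ x ^ (3 / 4 : ℝ) ∧
      4 * Real.log x ≤ x ∧ 8 ≤ x ∧ 4 * (2 * |C| * x ^ (1 / 4 : ℝ) + 1) ≤ x := by
    have h1 := (isLittleO_log_rpow_atTop (by norm_num : (0 : ℝ) < 1 / 4)).bound (one_pos)
    have h2 := (tendsto_rpow_atTop (by norm_num : (0 : ℝ) < 1 / 4)).eventually_ge_atTop
      (8 * |C| + 4)
    filter_upwards [h1, h2, eventually_ge_atTop 8] with x h1 h2 h3
    rw [Real.norm_of_nonneg (Real.log_nonneg (by linarith)), Real.norm_of_nonneg (by positivity),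
      one_mul] at h1
    obtain ⟨t, ht⟩ : ∃ t : ℝ, t = x ^ (1 / 4 : ℝ) := ⟨_, rfl⟩
    have hx0 : 0 < x := by linarith
    have e3 : x ^ (3 / 4 : ℝ) = t * t * t := by
      rw [ht, ← Real.rpow_add hx0, ← Real.rpow_add hx0]
      norm_num
    have e4 : x = t * t * t * t := by
      rw [ht, ← Real.rpow_add hx0, ← Real.rpow_add hx0, ← Real.rpow_add hx0]
      norm_num
    rw [← ht] at h1 h2
    rw [← ht, e3]
    have hC0 := abs_nonneg C
    have ht4 : 4 ≤ t := by linarith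
    have hl0 : 0 ≤ Real.log x := Real.log_nonneg (by linarith)
    have h5 : 4 * (2 * |C| * t + 1) ≤ t * t := by nlinarith
    have h6 : t * t ≤ t * t * t := by nlinarith [mul_pos (by linarith : 0 < t) (by linarith : 0 < t)]
    have h7 : t * t * t ≤ x := by
      rw [e4]
      nlinarith [mul_pos (mul_pos (by linarith : 0 < t) (by linarith : 0 < t)) (by linarith : 0 < t)]
    refine ⟨?_, ?_, h3, by linarith⟩
    · calc 4 * (2 * |C| * t + 1) * Real.log x ≤ (t * t) * t :=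
            mul_le_mul h5 h1 hl0 (by positivity)
        _ = _ := rfl
    · nlinarith
  filter_upwards [hX.eventually hlog, hT.eventually_ge_atTop 1] with k h1 h2
  obtain ⟨h1, h3, h4, h5⟩ := h1
  set y : ℝ := ((T k - 1 : ℕ) : ℝ) with hy
  have hy0 : 0 ≤ y := Nat.cast_nonneg _
  have hTy : (T k : ℝ) = y + 1 := by
    rw [hy]
    have : T k = (T k - 1) + 1 := by omega
    conv_lhs => rw [this]
    push_cast
    ring
  set X := phi f x₀ y with hXd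
  -- one step
  have h6 := phi_block hR hy0 (N := 1 / 2) (by norm_num) (by linarith)
  rw [show y + 2 * (1 / 2) = (T k : ℝ) by rw [hTy]; ring] at h6
  have h7 : phi f x₀ (T k : ℝ) ≤ 2 * X := by linarith
  have h8 : phi f x₀ (T k : ℝ) ^ (1 / 4 : ℝ) ≤ 2 * X ^ (1 / 4 : ℝ) := by
    calc phi f x₀ (T k : ℝ) ^ (1 / 4 : ℝ) ≤ (2 * X) ^ (1 / 4 : ℝ) :=
          Real.rpow_le_rpow (hR.phi_pos _).le h7 (by norm_num)
      _ = 2 ^ (1 / 4 : ℝ) * X ^ (1 / 4 : ℝ) := Real.mul_rpow (by norm_num) (hR.phi_pos _).le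
      _ ≤ 2 * X ^ (1 / 4 : ℝ) := by
          apply mul_le_mul_of_nonneg_right _ (Real.rpow_nonneg (hR.phi_pos _).le _)
          calc (2 : ℝ) ^ (1 / 4 : ℝ) ≤ 2 ^ (1 : ℝ) :=
                Real.rpow_le_rpow_of_exponent_le (by norm_num) (by norm_num)
            _ = 2 := Real.rpow_one 2
  have h9 : (W k : ℝ) ≤ 2 * |C| * X ^ (1 / 4 : ℝ) := by
    calc (W k : ℝ) ≤ C * phi f x₀ (T k : ℕ) ^ (1 / 4 : ℝ) := hC k
      _ ≤ |C| * phi f x₀ (T k : ℕ) ^ (1 / 4 : ℝ) :=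
          mul_le_mul_of_nonneg_right (le_abs_self C) (Real.rpow_nonneg (hR.phi_pos _).le _)
      _ ≤ |C| * (2 * X ^ (1 / 4 : ℝ)) := mul_le_mul_of_nonneg_left h8 (abs_nonneg _)
      _ = _ := by ring
  have h10 : (0 : ℝ) ≤ W k := Nat.cast_nonneg _
  have h11 := phi_block hR hy0 (N := ((W k : ℝ) + 1) / 2) (by linarith) (by linarith)
  rw [show y + 2 * (((W k : ℝ) + 1) / 2) = (T k : ℝ) + W k by rw [hTy]; ring] at h11
  have hl0 : 0 ≤ Real.log X := Real.log_nonneg (by linarith)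
  have h12 : 8 * (((W k : ℝ) + 1) / 2) * Real.log X ≤
      4 * (2 * |C| * X ^ (1 / 4 : ℝ) + 1) * Real.log X :=
    mul_le_mul_of_nonneg_right (by linarith) hl0
  linarith

namespace T8

variable {Z : Multiset ℂ} {x₀ : ℝ} {γ : ℕ → ℝ} {Q E : ℕ → ℝ} {P : ℕ → Prop} {ω h : ℝ → ℝ}
  (S : T8 Z x₀ γ Q E P ω h)

/-- A gap of the maximal size in every special block. -/
theorem gap_lo (hmono : MonotoneOn h (Ici 2)) (hh1 : Tendsto (fun x => h x / Real.log x) atTop atTop)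
    (hd : Tendsto (fun x => h (x + x ^ (3 / 4 : ℝ)) / h x) atTop (𝓝 1)) {e : ℝ} (he0 : 0 < e) :
    ∀ᶠ j in atTop, S.cap (S.D.g j) = sz (fZ Z) x₀ h (S.D.g j) → ∃ l, l + 1 < S.m j ∧
      (1 - e) * h (S.a j) ≤ S.p (S.D.g j + l + 1) - S.p (S.D.g j + l) := by
  filter_upwards [S.D_ev he0, S.ord_ev hmono hh1 hd he0, S.st_tendsto.eventually_ge_atTop 12]
    with j hj1 hjx hj4 hjs
  obtain ⟨hj2, hj3, -, hj5⟩ := hjx
  obtain ⟨l₁, l₂, h1, h2, h3, h4, h5⟩ := (S.hGB _ hj4).tm.forced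
  rw [hjs] at h4 h5
  have hm0 : 0 < S.m j := S.m_pos j
  obtain ⟨a, ha1, ha2, ha3⟩ : ∃ a, a < S.m j ∧ a ≠ (S.r j + (S.m j - 1)) % S.m j ∧
      S.D.C (S.D.g j) a = sz (fZ Z) x₀ h (S.D.g j) := by
    by_cases h' : l₁ = (S.r j + (S.m j - 1)) % S.m j
    · exact ⟨l₂, h2, fun h'' => h3 (h'.trans h''.symm), h5⟩
    · exact ⟨l₁, h1, h', h4⟩
  obtain ⟨l, hl1, hl2'⟩ : ∃ l, l < S.m j ∧ (S.r j + l) % S.m j = a := by
    refine ⟨(a + (S.m j - S.r j % S.m j)) % S.m j, Nat.mod_lt _ hm0, ?_⟩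
    have h6 : S.r j % S.m j < S.m j := Nat.mod_lt _ hm0
    have h7 := Nat.div_add_mod (S.r j) (S.m j)
    rw [Nat.add_mod_mod]
    have h8 : S.r j + (a + (S.m j - S.r j % S.m j)) = a + S.m j * (S.r j / S.m j + 1) := by
      have h9 : S.m j * (S.r j / S.m j + 1) = S.m j * (S.r j / S.m j) + S.m j := by ring
      omega
    rw [h8, Nat.add_mul_mod_self_left, Nat.mod_eq_of_lt ha1]
  have hl3 : l + 1 < S.m j := by
    by_contra hc
    have h6 : l = S.m j - 1 := by omega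
    rw [h6] at hl2'
    exact ha2 hl2'.symm
  refine ⟨l, hl3, ?_⟩
  have hgap := S.ygap j l hl3
  have hD := (abs_le.1 (hj1 l (by omega))).1
  have e1 : S.y (S.D.g j + l + 1) - S.y (S.D.g j + l) = sz (fZ Z) x₀ h (S.D.g j) := by
    rw [hgap, ← ha3]
    congr 1
  rw [e1, S.sz_eq] at hD
  linarith

/-- Large gaps near every point. -/
theorem G_lo10 (hmono : MonotoneOn h (Ici 2)) (hh1 : Tendsto (fun x => h x / Real.log x) atTop atTop)
    (hinf : Tendsto h atTop atTop)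
    (hd : Tendsto (fun x => h (x + x ^ (3 / 4 : ℝ)) / h x) atTop (𝓝 1))
    {T W : ℕ → ℕ} (hT : Tendsto T atTop atTop)
    (hlev : ∀ᶠ k in atTop, 1 ≤ T k ∧ (tseq k : ℝ) ≤ h (Pool.Agent.H521.G.phi (fZ Z) x₀ (T k)) ∧
        h (Pool.Agent.H521.G.phi (fZ Z) x₀ ((T k - 1 : ℕ) : ℝ)) < tseq k)
    (hW : ∀ ε : ℝ, 0 < ε → ∃ C : ℝ, ∀ k, (W k : ℝ) ≤
      C * Pool.Agent.H521.G.phi (fZ Z) x₀ (T k : ℕ) ^ ε)
    (hwin : ∀ k, 1 ≤ T k → ∃ j, S.cap (S.D.g j) = sz (fZ Z) x₀ h (S.D.g j) ∧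
      T k ≤ S.D.g (j + 1) ∧ S.D.g j ≤ T k + W k) {ε : ℝ} (hε : 0 < ε) (hε1 : ε < 1) :
    ∀ᶠ x in atTop, ∃ n, S.p n ≤ x ∧ (1 - ε) * h x ≤ S.p (n + 1) - S.p n := by
  -- a small parameter
  obtain ⟨e, he0, he1, he2⟩ : ∃ e : ℝ, 0 < e ∧ e ≤ 1 / 8 ∧ (1 - ε) * (1 + e) ^ 4 ≤ 1 - e := by
    refine ⟨ε / 8, by positivity, by linarith, ?_⟩
    have h1 : (1 + ε / 8) ^ 4 ≤ 1 + 6 * (ε / 8) := by
      have : (1 + ε / 8) ^ 4 = 1 + (ε / 8) * (4 + 6 * (ε / 8) + 4 * (ε / 8) ^ 2 + (ε / 8) ^ 3) := by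
        ring
      rw [this]
      have h2 : (ε / 8) ^ 2 ≤ 1 / 64 := by nlinarith
      have h3 : (ε / 8) ^ 3 ≤ 1 / 64 := by
        calc (ε / 8) ^ 3 = (ε / 8) ^ 2 * (ε / 8) := by ring
          _ ≤ 1 / 64 * 1 := mul_le_mul h2 (by linarith) (by positivity) (by norm_num)
          _ = 1 / 64 := by norm_num
      nlinarith
    calc (1 - ε) * (1 + ε / 8) ^ 4 ≤ (1 - ε) * (1 + 6 * (ε / 8)) :=
          mul_le_mul_of_nonneg_left h1 (by linarith)
      _ ≤ 1 - ε / 8 := by nlinarith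
  have htt : Tendsto tseq atTop atTop := tendsto_atTop_mono tseq_ge tendsto_id
  have httR : Tendsto (fun k => (tseq k : ℝ)) atTop atTop := tendsto_natCast_atTop_atTop.comp htt
  -- properties of the blocks
  obtain ⟨J, hJ⟩ := eventually_atTop.1 ((S.gap_lo hmono hh1 hd he0).and
    ((S.ord_ev hmono hh1 hd he0).and (S.a_tendsto.eventually_ge_atTop 2)))
  -- properties of the windows
  have hT1 : Tendsto (fun k => ((T k - 1 : ℕ) : ℝ)) atTop atTop :=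
    tendsto_natCast_atTop_atTop.comp ((tendsto_sub_atTop_nat 1).comp hT)
  have hX : Tendsto (fun k => Pool.Agent.H521.G.phi (fZ Z) x₀ ((T k - 1 : ℕ) : ℝ)) atTop atTop :=
    S.hR.phi_tendsto.comp hT1
  have hpos : ∀ᶠ x in atTop, 0 < h x := hinf.eventually_gt_atTop 0
  obtain ⟨K, hK⟩ := eventually_atTop.1 (hlev.and ((win_short S.hR hT hW).and
    ((hX.eventually (hd.eventually_le_const (by linarith : 1 < 1 + e))).and
    ((hX.eventually (hpos.and (eventually_ge_atTop 2))).and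
    ((tseq_ratio.eventually_le_const (by linarith : 1 < 1 + e)).and
    ((hT.eventually_gt_atTop (S.D.g (J + 1))).and (httR.eventually_ge_atTop 1)))))))
  set b : ℕ → ℝ := fun k => (1 + e) ^ 2 * tseq k with hb
  have hbt : Tendsto b atTop atTop := Tendsto.const_mul_atTop (by positivity) httR
  filter_upwards [hinf.eventually_ge_atTop (b K), eventually_ge_atTop 2] with x hxK hx2
  -- the largest `k` with `b k ≤ h x`
  obtain ⟨k, hkK, hk1, hk2⟩ : ∃ k, K ≤ k ∧ b k ≤ h x ∧ h x < b (k + 1) := by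
    have hex : ∃ k, K ≤ k ∧ h x < b (k + 1) := by
      obtain ⟨N, hN⟩ := eventually_atTop.1 (hbt.eventually_gt_atTop (h x))
      exact ⟨max N K, le_max_right _ _, hN _ (by have := le_max_left N K; omega)⟩
    refine ⟨Nat.find hex, (Nat.find_spec hex).1, ?_, (Nat.find_spec hex).2⟩
    rcases Nat.eq_or_lt_of_le (Nat.find_spec hex).1 with h0 | h0
    · rw [← h0]; exact hxK
    · have h1 := Nat.find_min hex (Nat.sub_lt (by omega : 0 < Nat.find hex) one_pos)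
      push Not at h1
      have h2 := h1 (by omega)
      have e : Nat.find hex - 1 + 1 = Nat.find hex := by omega
      rwa [e] at h2
  obtain ⟨⟨c1, c2, c3⟩, c4, c5, ⟨c6, c7⟩, c8, c9, c10⟩ := hK k hkK
  obtain ⟨j, hj1, hj2, hj3⟩ := hwin k c1
  have hjJ : J ≤ j := by
    by_contra hc
    push Not at hc
    have := S.D.g_mono.monotone (by omega : j + 1 ≤ J + 1)
    omega
  obtain ⟨h5, ⟨h6, -, h7, -⟩, h8⟩ := hJ j hjJ
  obtain ⟨l, hl1, hl2⟩ := h5 hj1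
  have ha8 : 2 ≤ S.a (j + 1) := h8.trans (S.a_mono j)
  -- upper bound for `h` at the block
  have u1 : S.a j ≤ Pool.Agent.H521.G.phi (fZ Z) x₀ ((T k : ℝ) + W k) :=
    S.hR.phi_mono (by exact_mod_cast hj3)
  have u2 : h (S.a j) ≤ (1 + e) * h (Pool.Agent.H521.G.phi (fZ Z) x₀ ((T k - 1 : ℕ) : ℝ)) := by
    have h9 := u1.trans c4
    rw [div_le_iff₀ c6] at c5
    exact (hmono (by simp only [mem_Ici]; exact h8) (by simp only [mem_Ici]; exact h8.trans h9)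
      h9).trans c5
  have ha1 : S.a (j + 1) ≤ x := by
    by_contra hc
    push Not at hc
    have h9 := hmono (by simp only [mem_Ici]; exact hx2) (by simp only [mem_Ici]; exact ha8) hc.le
    have h10 : (1 + e) * h (S.a j) ≤
        (1 + e) * ((1 + e) * h (Pool.Agent.H521.G.phi (fZ Z) x₀ ((T k - 1 : ℕ) : ℝ))) :=
      mul_le_mul_of_nonneg_left u2 (by linarith)
    have h11 : (1 + e) * ((1 + e) * h (Pool.Agent.H521.G.phi (fZ Z) x₀ ((T k - 1 : ℕ) : ℝ))) <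
        b k := by
      rw [hb]
      have h12 : (0 : ℝ) < (1 + e) ^ 2 := by positivity
      have := mul_lt_mul_of_pos_left c3 h12
      calc (1 + e) * ((1 + e) * h (Pool.Agent.H521.G.phi (fZ Z) x₀ ((T k - 1 : ℕ) : ℝ))) =
          (1 + e) ^ 2 * h (Pool.Agent.H521.G.phi (fZ Z) x₀ ((T k - 1 : ℕ) : ℝ)) := by ring
        _ < _ := this
    linarith
  refine ⟨S.D.g j + l, ((S.loc j l (by omega)).2).trans ha1, ?_⟩
  -- lower bound for `h` at the block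
  have l1 : (tseq k : ℝ) ≤ (1 + e) * h (S.a j) := by
    refine c2.trans (le_trans ?_ h7)
    have h9 : Pool.Agent.H521.G.phi (fZ Z) x₀ (T k : ℝ) ≤ S.a (j + 1) :=
      S.hR.phi_mono (by exact_mod_cast hj2)
    have h10 : Pool.Agent.H521.G.phi (fZ Z) x₀ ((T k - 1 : ℕ) : ℝ) ≤
        Pool.Agent.H521.G.phi (fZ Z) x₀ (T k : ℝ) :=
      S.hR.phi_mono (by exact_mod_cast Nat.sub_le _ _)
    exact hmono (by simp only [mem_Ici]; exact c7.trans h10) (by simp only [mem_Ici]; exact ha8) h9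
  have l2 : (tseq (k + 1) : ℝ) ≤ (1 + e) * tseq k := by
    rwa [div_le_iff₀ (by linarith)] at c8
  have l3 : h x ≤ (1 + e) ^ 4 * h (S.a j) := by
    calc h x ≤ (1 + e) ^ 2 * tseq (k + 1) := hk2.le
      _ ≤ (1 + e) ^ 2 * ((1 + e) * ((1 + e) * h (S.a j))) :=
          mul_le_mul_of_nonneg_left (l2.trans (mul_le_mul_of_nonneg_left l1 (by linarith)))
            (by positivity)
      _ = _ := by ring
  calc (1 - ε) * h x ≤ (1 - ε) * ((1 + e) ^ 4 * h (S.a j)) :=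
        mul_le_mul_of_nonneg_left l3 (by linarith)
    _ = ((1 - ε) * (1 + e) ^ 4) * h (S.a j) := by ring
    _ ≤ (1 - e) * h (S.a j) := mul_le_mul_of_nonneg_right he2 h6.le
    _ ≤ _ := hl2

end T8

end Pool.Agent.H521.G
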