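import Pool.Agent.H521.G.T10c

open MeasureTheory Set Filter Topology
open scoped ENNReal NNReal ComplexConjugate Classical

namespace Pool.Agent.H521.G

theorem tendsto_of_div_log {h : ℝ → ℝ} (hh1 : Tendsto (fun x => h x / Real.log x) atTop atTop) :
    Tendsto h atTop atTop := by
  have h1 := hh1.atTop_mul_atTop₀ Real.tendsto_log_atTop
  refine h1.congr' ?_
  filter_upwards [eventually_gt_atTop 1] with x hx
  exact div_mul_cancel₀ _ (Real.log_pos hx).ne'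

theorem T8.maxG_tendsto10 {Z : Multiset ℂ} {x₀ : ℝ} {γ : ℕ → ℝ} {Q E : ℕ → ℝ} {P : ℕ → Prop}
    {ω h : ℝ → ℝ} (S : T8 Z x₀ γ Q E P ω h) (hmono : MonotoneOn h (Ici 2))
    (hh1 : Tendsto (fun x => h x / Real.log x) atTop atTop)
    (hd : Tendsto (fun x => h (x + x ^ (3 / 4 : ℝ)) / h x) atTop (𝓝 1))
    {T W : ℕ → ℕ} (hT : Tendsto T atTop atTop)
    (hlev : ∀ᶠ k in atTop, 1 ≤ T k ∧ (tseq k : ℝ) ≤ h (phi (fZ Z) x₀ (T k)) ∧
        h (phi (fZ Z) x₀ ((T k - 1 : ℕ) : ℝ)) < tseq k)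
    (hW : ∀ ε : ℝ, 0 < ε → ∃ C : ℝ, ∀ k, (W k : ℝ) ≤ C * phi (fZ Z) x₀ (T k : ℕ) ^ ε)
    (hwin : ∀ k, 1 ≤ T k → ∃ j, S.cap (S.D.g j) = sz (fZ Z) x₀ h (S.D.g j) ∧
      T k ≤ S.D.g (j + 1) ∧ S.D.g j ≤ T k + W k) :
    Tendsto (fun x => maxG S.p x / h x) atTop (𝓝 1) := by
  have hpos : ∀ᶠ x in atTop, 0 < h x := by
    filter_upwards [hh1.eventually_gt_atTop 0, eventually_gt_atTop 1] with x h1 h2
    exact (div_pos_iff_of_pos_right (Real.log_pos h2)).1 h1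
  have hinf : Tendsto h atTop atTop := tendsto_of_div_log hh1
  rw [Metric.tendsto_nhds]
  intro ε hε
  obtain ⟨ε', hε', hε'1, hε'2⟩ : ∃ ε' : ℝ, 0 < ε' ∧ ε' < 1 ∧ ε' < ε :=
    ⟨min (1 / 2) (ε / 2), by positivity, lt_of_le_of_lt (min_le_left _ _) (by norm_num),
      lt_of_le_of_lt (min_le_right _ _) (by linarith)⟩
  obtain ⟨N₁, hN₁⟩ := eventually_atTop.1 ((S.rat_up hmono hh1 hd hε').and
    (S.p_tendsto.eventually ((eventually_ge_atTop 2).and hpos)))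
  obtain ⟨B, hB⟩ : ∃ B : ℝ, ∀ n, n < N₁ → S.p (n + 1) - S.p n ≤ B := by
    refine ⟨∑ n ∈ Finset.range N₁, |S.p (n + 1) - S.p n|, fun n hn => ?_⟩
    exact (le_abs_self _).trans (Finset.single_le_sum
      (f := fun n => |S.p (n + 1) - S.p n|) (fun i _ => abs_nonneg _) (Finset.mem_range.2 hn))
  filter_upwards [S.G_lo10 hmono hh1 hinf hd hT hlev hW hwin hε' hε'1, hpos, hinf.eventually_ge_atTop B]
    with x h1 h2 h3
  obtain ⟨n, hn1, hn2⟩ := h1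
  have hle : (1 - ε') * h x ≤ maxG S.p x :=
    hn2.trans (le_csSup (maxG_bdd S.p_tendsto x) ⟨n, hn1, rfl⟩)
  have hge : maxG S.p x ≤ (1 + ε') * h x := by
    have hne : {g | ∃ n, S.p n ≤ x ∧ g = S.p (n + 1) - S.p n}.Nonempty := ⟨_, n, hn1, rfl⟩
    refine csSup_le hne ?_
    rintro g ⟨k, hk, rfl⟩
    rcases lt_or_ge k N₁ with h4 | h4
    · have := hB k h4
      nlinarith
    · obtain ⟨h5, h6, h7⟩ := hN₁ k h4
      have h8 : S.rat k = (S.p (k + 1) - S.p k) / h (S.p k) := rfl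
      rw [h8, div_le_iff₀ h7] at h5
      refine h5.trans ?_
      apply mul_le_mul_of_nonneg_left _ (by linarith)
      exact hmono (by simp only [mem_Ici]; exact h6) (by simp only [mem_Ici]; exact h6.trans hk) hk
  rw [Real.dist_eq]
  have h4 : maxG S.p x / h x - 1 = (maxG S.p x - h x) / h x := by
    field_simp
  rw [h4, abs_div, abs_of_pos h2, div_lt_iff₀ h2, abs_lt]
  constructor <;> nlinarith

/-- **Existence.** -/
theorem t10_suff {Z : Multiset ℂ} (hZ : ∀ ρ ∈ Z, ρ.re < 1) (hZc : Z.map conj = Z)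
    {γ : ℕ → ℝ} (hγ : ∀ n, 0 ≤ γ n)
    (hcond : ∀ K ε : ℝ, 0 < K → 0 < ε → ∀ᶠ N : ℕ in atTop,
      (∑ n ∈ Finset.range N, min (γ n) K) / N ≤ 1 + ε)
    {h : ℝ → ℝ} (hmono : MonotoneOn h (Ici 2))
    (hh1 : Tendsto (fun x => h x / Real.log x) atTop atTop)
    (hd : Tendsto (fun x => h (x + x ^ (3 / 4 : ℝ)) / h x) atTop (𝓝 1))
    (hh2 : ∀ ε : ℝ, 0 < ε → ∀ᶠ x in atTop, h x ≤ x ^ (1 / 2 + ε))
    {e : ℝ → ℝ≥0∞} (he1 : MonotoneOn e {a | 1 < a ∧ ENNReal.ofReal a < lexp h})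
    (he2 : ∀ a, 1 < a → ENNReal.ofReal a < lexp h → ENNReal.ofReal a ≤ e a)
    {ω : ℝ → ℝ} (hω : Tendsto ω atTop atTop) :
    ∃ p : ℕ → ℝ, Sys Z p ∧
      (∀ (k : ℕ) (φ : (Fin k → ℝ) → ℝ) (B : ℝ), (∀ x, |φ x| ≤ B) → ∀ L : ℝ≥0, LipschitzWith L φ →
        ∀ l : ℝ, Tendsto (fun N : ℕ => (∑ n ∈ Finset.range N, φ (fun i => γ (n + i))) / N)
          atTop (𝓝 l) →
        Tendsto (fun N : ℕ => (∑ n ∈ Finset.range N,
          φ (fun i => (p (n + i + 1) - p (n + i)) / Real.log (p (n + i)))) / N) atTop (𝓝 l)) ∧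
      (∀ a, 1 < a → ENNReal.ofReal a < lexp h → HasExp p a (e a)) ∧
      Tendsto (fun x => maxG p x / h x) atTop (𝓝 1) ∧
      ∀ᶠ x in atTop, |(countPr p x : ℝ) - mainTerm Z x| ≤ h x * Real.log x ^ ω x := by
  obtain ⟨x₀, hR, h8⟩ := exists_RDens8 hZ
  -- the exponents
  set e' : ℝ → ℝ≥0∞ := fun a => if ENNReal.ofReal a < lexp h then e a else ∞ with he'
  have hm' : MonotoneOn e' (Ioi 1) := by
    intro a ha b hb hab
    show (if ENNReal.ofReal a < lexp h then e a else ∞) ≤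
      (if ENNReal.ofReal b < lexp h then e b else ∞)
    by_cases h1 : ENNReal.ofReal b < lexp h
    · have h2 := lt_of_le_of_lt (ENNReal.ofReal_le_ofReal hab) h1
      rw [if_pos h1, if_pos h2]
      exact he1 ⟨ha, h2⟩ ⟨hb, h1⟩ hab
    · rw [if_neg h1]
      exact le_top
  obtain ⟨Q, hQ, hQ2, hQ3⟩ := expo_seq hm'
  set P : ℕ → Prop := fun q => e' (Q q) ≠ ∞ with hP
  set E : ℕ → ℝ := fun q => (e' (Q q)).toReal with hE
  have hPA : ∀ q, P q → ENNReal.ofReal (Q q) < lexp h := by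
    intro q hq
    by_contra hc
    exact hq (if_neg hc)
  have hEe : ∀ q, P q → ENNReal.ofReal (E q) = e' (Q q) := fun q hq => ENNReal.ofReal_toReal hq
  have hQE : ∀ q, P q → Q q ≤ E q := by
    intro q hq
    have h1 : ENNReal.ofReal (Q q) ≤ e' (Q q) := by
      show _ ≤ (if ENNReal.ofReal (Q q) < lexp h then e (Q q) else ∞)
      rw [if_pos (hPA q hq)]
      exact he2 _ (hQ q) (hPA q hq)
    rw [← hEe q hq] at h1
    exact (ENNReal.ofReal_le_ofReal_iff ENNReal.toReal_nonneg).1 h1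
  have hinf : Tendsto h atTop atTop := tendsto_of_div_log hh1
  obtain ⟨T, hTge, hTsum, hlev⟩ := exists_levels hR hinf hh2
  have htt : Tendsto T atTop atTop := tendsto_atTop_mono hTge tendsto_id
  obtain ⟨D, st, cap, W, hst, hGB, hW, hwin⟩ :=
    tq10_exists hR h8 hγ hcond hQ hQE hω hmono hh1 hh2 hPA hTge hTsum
  have hsp : ∃ᶠ j in atTop, cap (D.g j) = sz (fZ Z) x₀ h (D.g j) := by
    rw [frequently_atTop]
    intro J
    obtain ⟨k, hk⟩ := (htt.eventually_gt_atTop (D.g J)).exists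
    obtain ⟨j, hj1, hj2, -⟩ := hwin k (by omega)
    refine ⟨j, ?_, hj1⟩
    by_contra hc
    push Not at hc
    have := D.g_mono.monotone (by omega : j + 1 ≤ J)
    omega
  obtain ⟨y, r, h1, h2, h3, h4, h5, h6, h7, h8⟩ := D.system hR hZ hZc rfl
  let S : T8 Z x₀ γ Q E P ω h := ⟨hZ, hR, D, st, cap, hst, hGB, hsp, y, r, h1, h2,
    h3, h5, h6, h7, h8⟩
  have hpnt := (pnt_asymp hZ h4.mono h4.tendsto h4.pnt).1
  refine ⟨S.p, h4, fun k φ B hB L hL l hl => S.stats hB hL hl, ?_,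
    S.maxG_tendsto10 hmono hh1 hd htt hlev hW hwin, S.error hω hh1⟩
  intro a ha haA
  have hea : e' a = e a := if_pos haA
  refine S.hasExp ha (he2 a ha haA) hpnt (fun q hq => ((hQ q).trans_le (hQE q hq)).le) ?_ ?_
  · intro b₁ hb
    have hlt : ∀ q, P q → ENNReal.ofReal b₁ < e' (Q q) → b₁ ≤ E q := by
      intro q hq h9
      rw [← hEe q hq] at h9
      by_contra hc
      push Not at hc
      exact absurd h9 (not_lt.2 (ENNReal.ofReal_le_ofReal hc.le))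
    rcases hQ3 a ha (ENNReal.ofReal b₁) (by rw [hea]; exact hb) with ⟨i, hi⟩ | ⟨a', ha1, ha2, ha3⟩
    · refine Or.inl ⟨i, hi, fun q hq haq => hlt q hq ?_⟩
      refine lt_of_lt_of_le ?_ (hm' ha (hQ q) haq)
      rw [hea]; exact hb
    · exact Or.inr ⟨a', ha1, ha2, fun q hq haq => hlt q hq (ha3.trans_le (hm' ha1 (hQ q) haq))⟩
  · intro b hb
    obtain ⟨q, hq1, hq2⟩ := hQ2 a ha (ENNReal.ofReal b) (by rw [hea]; exact hb)
    have hPq : P q := ne_top_of_lt hq2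
    refine ⟨q, hPq, hq1, ?_⟩
    rw [← hEe q hPq] at hq2
    by_contra hc
    push Not at hc
    exact absurd hq2 (not_lt.2 (ENNReal.ofReal_le_ofReal hc))

end Pool.Agent.H521.G
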