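import Pool.Agent.H521.G.T4Qa

open MeasureTheory Set Filter Topology
open scoped ENNReal NNReal ComplexConjugate Classical

namespace Pool.Agent.H521.G

theorem tq12_exists {f : ℝ → ℝ} {x₀ : ℝ} (hR : RDens f x₀)
    (h8 : ∀ u, x₀ ≤ u → 8 * Real.log u ≤ u) {γ : ℕ → ℝ} (hγ : ∀ n, 0 ≤ γ n)
    (hcond : ∀ K ε : ℝ, 0 < K → 0 < ε → ∀ᶠ N : ℕ in atTop,
      (∑ n ∈ Finset.range N, min (γ n) K) / N ≤ 1 + ε)
    {ω : ℝ → ℝ} (hω : Tendsto ω atTop atTop) {V : ℕ → Finset ℝ}
    (hV : ∀ i, 6 ≤ i → ∀ t ∈ V i, 1 / (i : ℝ) ≤ t ∧ t ≤ i)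
    {χ : ℕ → ℕ → ℝ} (hχ : ∀ i u, 6 ≤ i → χ i u ∈ V i) :
    ∃ (D : TQ f x₀) (st : ℕ → ℕ), Tendsto st atTop atTop ∧
      (∀ u u', u ≤ u' → u' ≤ 2 * u + 2 → st u' ≤ st u + 1) ∧
      (∀ u, 6 ≤ st u → GB f x₀ γ (fun _ => 0) ω (χ (st u) u) (st u) u (D.M u) (D.C u)) ∧
      (∀ u, st u < 6 → ∀ l, D.C u l = 1) ∧ ∀ u, (D.M u : ℝ) ≤ lamb f x₀ u ^ 2 := by
  obtain ⟨st, hst, hP', hslow⟩ := exists_stage
    (P := fun i u => i < 6 ∨ ∀ t ∈ V i, StP f x₀ γ (fun _ => 0) ω (fun _ => t) i u)
    (fun u => Or.inl (by norm_num)) (fun i => by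
      rcases lt_or_ge i 6 with hi | hi
      · exact Filter.Eventually.of_forall fun u => Or.inl hi
      · have h1 : ∀ᶠ u in atTop, ∀ t ∈ V i, StP f x₀ γ (fun _ => 0) ω (fun _ => t) i u := by
          rw [Filter.eventually_all_finset]
          intro t ht
          obtain ⟨ht1, ht2⟩ := hV i hi t ht
          have hi0 : (0 : ℝ) < i := by exact_mod_cast (by omega : 0 < i)
          -- clip the value at the other stages
          have h2 := StP_ev (tau := fun k => if k = i then t else 1) hR hγ (R := fun _ => 0)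
            (fun _ _ _ _ _ => le_refl _) (fun _ _ => le_refl _)
            (fun c K ε _ hK hε => by simpa using hcond K ε hK hε) hω
            (fun k hk => by
              show 1 / (k : ℝ) ≤ (if k = i then t else 1)
              by_cases h : k = i
              · rw [if_pos h, h]; exact ht1
              · rw [if_neg h, div_le_one (by exact_mod_cast (by omega : 0 < k))]
                exact_mod_cast (by omega : 1 ≤ k))
            (fun k hk => by
              show (if k = i then t else 1) ≤ (k : ℝ)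
              by_cases h : k = i
              · rw [if_pos h, h]; exact ht2
              · rw [if_neg h]
                exact_mod_cast (by omega : 1 ≤ k))
            (fun _ _ _ _ _ => rfl) i
          refine h2.mono fun u hu => ?_
          unfold StP at hu ⊢
          simpa using hu
        exact h1.mono fun u hu => Or.inr hu)
  have hP : ∀ u, st u < 6 ∨ ((∃ c, Tm γ (fun _ => 0) (st u) (χ (st u) u) (lamb f x₀ u) (mst f x₀ (st u) u) c) ∧
    (mst f x₀ (st u) u : ℝ) ≤ lamb f x₀ u ^ 2 ∧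
    Pool.Agent.H521.G.phi f x₀ ((u + mst f x₀ (st u) u + 1 : ℕ) : ℝ) ≤
      (1 + 1 / (st u : ℕ)) * Pool.Agent.H521.G.phi f x₀ u ∧
    (∀ x, Pool.Agent.H521.G.phi f x₀ u ≤ x → 4 * ((mst f x₀ (st u) u : ℝ) + 1) ≤ ω x * Real.log x) ∧
    st u * (mst f x₀ (st u) u + 1) ≤ u) := by
    intro u
    rcases hP' u with h | h
    · exact Or.inl h
    · rcases lt_or_ge (st u) 6 with hi | hi
      · exact Or.inl hi
      · exact h _ (hχ _ _ hi)
  have hex : ∀ u, ∃ c : ℕ → ℝ, (st u < 6 → ∀ l, c l = 1) ∧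
      (6 ≤ st u → Tm γ (fun _ => 0) (st u) (χ (st u) u) (lamb f x₀ u) (mst f x₀ (st u) u) c) := by
    intro u
    rcases lt_or_ge (st u) 6 with h | h
    · exact ⟨fun _ => 1, fun _ _ => rfl, fun h' => by omega⟩
    · rcases hP u with h' | ⟨⟨c, hc⟩, -⟩
      · omega
      · exact ⟨c, fun h' => by omega, fun _ => hc⟩
  choose C hC1 hC2 using hex
  have hl2 := two_le_lamb hR
  have hM2 : ∀ u, 6 ≤ st u → (mst f x₀ (st u) u : ℝ) ≤ lamb f x₀ u ^ 2 := by
    intro u hu
    rcases hP u with h | ⟨-, h, -⟩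
    · omega
    · exact h
  have hphi2 : ∀ u, 6 ≤ st u → Pool.Agent.H521.G.phi f x₀ ((u + mst f x₀ (st u) u + 1 : ℕ) : ℝ) ≤
      (1 + 1 / st u) * Pool.Agent.H521.G.phi f x₀ u := by
    intro u hu
    rcases hP u with h | ⟨-, -, h, -⟩
    · omega
    · exact h
  have hMb : ∀ u, ((if st u < 6 then 1 else mst f x₀ (st u) u : ℕ) : ℝ) ≤ lamb f x₀ u ^ 2 := by
    intro u
    have := hl2 u
    by_cases h : st u < 6
    · rw [if_pos h]
      push_cast
      nlinarith
    · rw [if_neg h]
      exact hM2 u (by omega)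
  refine ⟨{ M := fun u => if st u < 6 then 1 else mst f x₀ (st u) u
            C := C
            Mpos := ?_
            Cpos := ?_
            Csum := ?_
            hS := ?_
            two := ?_ }, st, hst, hslow, ?_, hC1, hMb⟩
  · intro u
    by_cases h : st u < 6
    · rw [if_pos h]; exact one_pos
    · rw [if_neg h]
      apply Nat.ceil_pos.2
      have h1 : (0 : ℝ) < st u := by exact_mod_cast (by omega : 0 < st u)
      have := hl2 u
      positivity
  · intro u l
    by_cases h : st u < 6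
    · rw [hC1 u h]; exact one_pos
    · exact (hC2 u (by omega)).pos l
  · intro u
    by_cases h : st u < 6
    · simp only [if_pos h]
      rw [Finset.sum_range_one, hC1 u h]
      simp
    · simp only [if_neg h]
      exact (hC2 u (by omega)).sum
  · intro σ hσ
    set δ : ℝ := σ - 1 / 2 with hδ
    have hδ0 : 0 < δ := by rw [hδ]; linarith
    have h1 := (summable_add_one_rpow (p := -(1 + δ)) (by linarith)).mul_left ((4 / δ) ^ 4)
    refine Summable.of_nonneg_of_le (fun n => sq_nonneg _) (fun n => ?_) h1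
    have hp := hR.phi_pos (n : ℝ)
    set φ := Pool.Agent.H521.G.phi f x₀ n with hφ
    have h2 : lamb f x₀ n ≤ 4 / δ * φ ^ (δ / 4) := by
      have := Real.log_le_rpow_div hp.le (by positivity : (0 : ℝ) < δ / 4)
      have e : 4 / δ * φ ^ (δ / 4) = φ ^ (δ / 4) / (δ / 4) := by field_simp
      rw [e]
      exact this
    have h3 := hMb n
    have hl0 : 0 ≤ lamb f x₀ n := by linarith [hl2 n]
    have h4 : lamb f x₀ n ^ 4 ≤ (4 / δ) ^ 4 * φ ^ δ := by
      have h5 := pow_le_pow_left₀ hl0 h2 4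
      rw [mul_pow, ← Real.rpow_natCast (φ ^ (δ / 4)) 4, ← Real.rpow_mul hp.le] at h5
      have e : δ / 4 * ((4 : ℕ) : ℝ) = δ := by push_cast; ring
      rwa [e] at h5
    have h5 : ((((if st n < 6 then 1 else mst f x₀ (st n) n : ℕ) : ℝ)) * φ ^ (-σ)) ^ 2 ≤
        lamb f x₀ n ^ 4 * φ ^ (-(2 * σ)) := by
      have e : φ ^ (-(2 * σ)) = (φ ^ (-σ)) ^ 2 := by
        rw [← Real.rpow_natCast (φ ^ (-σ)) 2, ← Real.rpow_mul hp.le]
        congr 1
        push_cast
        ring
      rw [mul_pow, e]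
      apply mul_le_mul_of_nonneg_right _ (sq_nonneg _)
      have h6 : (0 : ℝ) ≤ ((if st n < 6 then 1 else mst f x₀ (st n) n : ℕ) : ℝ) := Nat.cast_nonneg _
      nlinarith
    refine h5.trans ?_
    have h6 : φ ^ δ * φ ^ (-(2 * σ)) = φ ^ (-(1 + δ)) := by
      rw [← Real.rpow_add hp]
      congr 1
      rw [hδ]; ring
    calc lamb f x₀ n ^ 4 * φ ^ (-(2 * σ)) ≤ ((4 / δ) ^ 4 * φ ^ δ) * φ ^ (-(2 * σ)) :=
          mul_le_mul_of_nonneg_right h4 (Real.rpow_nonneg hp.le _)
      _ = (4 / δ) ^ 4 * φ ^ (-(1 + δ)) := by rw [mul_assoc, h6]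
      _ ≤ (4 / δ) ^ 4 * ((n : ℝ) + 1) ^ (-(1 + δ)) := by
          apply mul_le_mul_of_nonneg_left _ (by positivity)
          exact Real.rpow_le_rpow_of_nonpos (by positivity) (phi_ge_succ hR (le_refl (n : ℝ)))
            (by linarith)
  · intro u
    by_cases h : st u < 6
    · simp only [if_pos h]
      have h1 := phi_block hR (Nat.cast_nonneg u) (N := 1) (by norm_num) (by
        linarith [hR.phi_eight_le (u : ℝ)])
      have h2 := h8 _ (hR.phi_ge (u : ℝ))
      have e : (u : ℝ) + 2 * 1 = ((u + 1 + 1 : ℕ) : ℝ) := by push_cast; ring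
      rw [e] at h1
      linarith
    · simp only [if_neg h]
      have h1 := hphi2 u (by omega)
      have h2 : (1 : ℝ) / st u ≤ 1 := by
        have : (1 : ℝ) ≤ st u := by exact_mod_cast (by omega : 1 ≤ st u)
        rw [div_le_one (by linarith)]
        exact this
      have h3 := hR.phi_pos (u : ℝ)
      nlinarith
  · intro u hu
    have h : ¬ st u < 6 := by omega
    rcases hP u with h' | ⟨-, -, h3, h4, h5⟩
    · omega
    · have e : (if st u < 6 then 1 else mst f x₀ (st u) u) = mst f x₀ (st u) u := if_neg h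
      exact ⟨by simp only [e]; exact hC2 u hu, by simp only [e]; exact mst_ge _ _,
        by simp only [e]; exact h3, by simp only [e]; exact h4, by simp only [e]; exact h5⟩

end Pool.Agent.H521.G
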