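import Mathlib

open MeasureTheory Set Filter Topology

namespace Pool.Agent.H521.G

theorem tsum_eq_range {p : ℕ → ℝ} (hp : StrictMono p) {Q : ℕ → Prop} [DecidablePred Q] {x : ℝ} {n : ℕ}
    (h1 : ∀ k < n, p k ≤ x) (h2 : x < p n) :
    (∑' k, if p k ≤ x ∧ Q k then p (k + 1) - p k else 0) =
      ∑ k ∈ Finset.range n, if Q k then p (k + 1) - p k else 0 := by
  rw [tsum_eq_sum (s := Finset.range n)]
  · refine Finset.sum_congr rfl fun k hk => ?_
    have h3 : p k ≤ x := h1 k (Finset.mem_range.1 hk)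
    by_cases hQ : Q k
    · rw [if_pos ⟨h3, hQ⟩, if_pos hQ]
    · rw [if_neg (fun h => hQ h.2), if_neg hQ]
  · intro k hk
    rw [Finset.mem_range, not_lt] at hk
    have h3 : p n ≤ p k := hp.monotone hk
    rw [if_neg]
    rintro ⟨h4, -⟩
    linarith

theorem tsum_transfer {p : ℕ → ℝ} (hp : StrictMono p) (hp0 : 0 < p 0)
    (hpt : Tendsto p atTop atTop) (hr : Tendsto (fun n => p (n + 1) / p n) atTop (𝓝 1))
    {Q : ℕ → Prop} [DecidablePred Q] {ρ : ℝ}
    (h : Tendsto (fun n => (∑ k ∈ Finset.range n, if Q k then p (k + 1) - p k else 0) / p n)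
      atTop (𝓝 ρ)) :
    Tendsto (fun x : ℝ => (∑' k, if p k ≤ x ∧ Q k then p (k + 1) - p k else 0) / x)
      atTop (𝓝 ρ) := by
  classical
  have hpos : ∀ n, 0 < p n := fun n => hp0.trans_le (hp.monotone (Nat.zero_le n))
  have hex : ∀ x : ℝ, ∃ n, x < p n := fun x => (hpt.eventually_gt_atTop x).exists
  obtain ⟨N, hN1, hN2⟩ : ∃ N : ℝ → ℕ, (∀ x, x < p (N x)) ∧ ∀ x, ∀ k < N x, p k ≤ x :=
    ⟨fun x => Nat.find (hex x), fun x => Nat.find_spec (hex x),
      fun x k hk => not_lt.1 (Nat.find_min (hex x) hk)⟩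
  have hlt : ∀ m x, p m ≤ x → m < N x := by
    intro m x hx
    exact hp.lt_iff_lt.1 (lt_of_le_of_lt hx (hN1 x))
  have hNt : Tendsto N atTop atTop := by
    refine tendsto_atTop.2 fun m => ?_
    filter_upwards [eventually_ge_atTop (p m)] with x hx
    exact (hlt m x hx).le
  have hNt' : Tendsto (fun x => N x - 1) atTop atTop := by
    refine tendsto_atTop.2 fun m => ?_
    filter_upwards [eventually_ge_atTop (p m)] with x hx
    have := hlt m x hx
    omega
  have h1 := h.comp hNt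
  have h2 : Tendsto (fun x => p (N x) / x) atTop (𝓝 1) := by
    have h3 := hr.comp hNt'
    refine tendsto_of_tendsto_of_tendsto_of_le_of_le' tendsto_const_nhds h3 ?_ ?_
    · filter_upwards [eventually_gt_atTop (0 : ℝ)] with x hx
      rw [le_div_iff₀ hx, one_mul]
      exact (hN1 x).le
    · filter_upwards [eventually_ge_atTop (p 0)] with x hx
      have h4 : 0 < N x := hlt 0 x hx
      have h5 : N x - 1 + 1 = N x := by omega
      have h6 : p (N x - 1) ≤ x := hN2 x _ (by omega)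
      show p (N x) / x ≤ p (N x - 1 + 1) / p (N x - 1)
      rw [h5]
      exact div_le_div_of_nonneg_left (hpos _).le (hpos _) h6
  have h3 := h1.mul h2
  rw [mul_one] at h3
  refine h3.congr' ?_
  filter_upwards [eventually_ge_atTop (p 0)] with x hx
  have hx0 : 0 < x := hp0.trans_le hx
  rw [tsum_eq_range hp (hN2 x) (hN1 x)]
  show (∑ k ∈ Finset.range (N x), if Q k then p (k + 1) - p k else 0) / p (N x) *
    (p (N x) / x) = _
  rw [div_mul_div_cancel₀ (hpos _).ne']

theorem tsum_transfer' {p : ℕ → ℝ} (hp : StrictMono p) (hp0 : 0 < p 0)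
    (hpt : Tendsto p atTop atTop) (hr : Tendsto (fun n => p (n + 1) / p n) atTop (𝓝 1))
    {Q : ℕ → Prop} [DecidablePred Q] {ρ : ℝ}
    (h : Tendsto (fun x : ℝ => (∑' k, if p k ≤ x ∧ Q k then p (k + 1) - p k else 0) / x)
      atTop (𝓝 ρ)) :
    Tendsto (fun n => (∑ k ∈ Finset.range n, if Q k then p (k + 1) - p k else 0) / p n)
      atTop (𝓝 ρ) := by
  have hpos : ∀ n, 0 < p n := fun n => hp0.trans_le (hp.monotone (Nat.zero_le n))
  have h1 := h.comp hpt
  have h2 : Tendsto (fun n => (p (n + 1) / p n)⁻¹) atTop (𝓝 1) := by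
    have h3 := hr.inv₀ one_ne_zero
    rw [inv_one] at h3
    exact h3
  have h3 := h1.mul h2
  rw [mul_one] at h3
  rw [← tendsto_add_atTop_iff_nat 1]
  refine h3.congr fun n => ?_
  show (∑' k, if p k ≤ p n ∧ Q k then p (k + 1) - p k else 0) / p n * (p (n + 1) / p n)⁻¹ = _
  rw [tsum_eq_range hp (n := n + 1) (fun k hk => hp.monotone (by omega)) (hp (by omega)),
    inv_div, div_mul_div_cancel₀ (hpos _).ne']

end Pool.Agent.H521.G
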