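import Pool.Agent.H521.G.T12c

open MeasureTheory Set Filter Topology
open scoped ENNReal NNReal ComplexConjugate Classical

namespace Pool.Agent.H521.G

namespace T12

variable {Z : Multiset ℂ} {x₀ : ℝ} {γ : ℕ → ℝ} {R ω : ℝ → ℝ} (S : T12 Z x₀ γ R ω)

/-- the block of an index -/
theorem exists_blk (N n : ℕ) (hn : S.D.g N ≤ n) :
    ∃ j l, l < S.m j + 1 ∧ n = S.D.g j + l ∧ N ≤ j := by
  have hex : ∃ j, n < S.D.g (j + 1) := by
    refine ⟨n, ?_⟩
    have := S.D.g_mono.le_apply (x := n + 1)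
    omega
  set j := Nat.find hex with hj
  have h1 : n < S.D.g (j + 1) := Nat.find_spec hex
  have h2 : S.D.g j ≤ n := by
    rcases Nat.eq_zero_or_pos j with h | h
    · rw [h]; exact Nat.zero_le n
    · have := Nat.find_min hex (Nat.sub_lt h one_pos)
      have e : j - 1 + 1 = j := by omega
      rw [e] at this
      omega
  refine ⟨j, n - S.D.g j, ?_, by omega, ?_⟩
  · rw [S.g_succ] at h1
    omega
  · by_contra hc
    push Not at hc
    have h3 : S.D.g (j + 1) ≤ S.D.g N := S.D.g_mono.monotone (by omega)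
    omega

/-- the ratio of a gap with the square of the logarithm -/
noncomputable def rat (k : ℕ) : ℝ := (S.p (k + 1) - S.p k) / Real.log (S.p k) ^ 2

theorem lam_tendsto : Tendsto S.lam atTop atTop := Real.tendsto_log_atTop.comp S.a_tendsto

/-- Upper bound for the gaps of a block. -/
theorem ratl_up {ε : ℝ} (hε : 0 < ε) : ∀ᶠ j in atTop, ∀ l, l < S.m j + 1 → ∀ t, 0 ≤ t →
    S.tau (S.D.g j) ≤ t → S.tau (S.D.g (j + 1)) ≤ t → S.rat (S.D.g j + l) ≤ (1 + ε) * t + ε := by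
  obtain ⟨e, he0, he1, he2⟩ : ∃ e : ℝ, 0 < e ∧ e ≤ 1 ∧ e ≤ ε / 4 :=
    ⟨min 1 (ε / 4), by positivity, min_le_left _ _, min_le_right _ _⟩
  have ev3 := S.st_tendsto.eventually_ge_atTop 6
  have ev4 := (tendsto_add_atTop_nat 1).eventually ev3
  filter_upwards [S.D_ev he0, S.a_succ one_pos, ev3, ev4, S.lam_tendsto.eventually_ge_atTop (1 / e)]
    with j h1 h2 h5 h6 h7 l hl t ht0 ht1 ht2
  have hl2 := S.two_le_lam j
  have hl0 : 0 < S.lam j := by linarith
  have hle : 1 ≤ e * S.lam j := by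
    rw [div_le_iff₀ he0] at h7
    linarith
  -- the next logarithm
  have hnext : lamb (fZ Z) x₀ (S.D.g (j + 1)) ≤ (1 + e) * S.lam j := by
    have h8 : lamb (fZ Z) x₀ (S.D.g (j + 1)) ≤ Real.log (2 * S.a j) := by
      apply Real.log_le_log (S.a_pos (j + 1))
      have : S.a (j + 1) = phi (fZ Z) x₀ (S.D.g (j + 1)) := rfl
      linarith
    rw [Real.log_mul two_ne_zero (S.a_pos j).ne', ← S.lam_eq] at h8
    have h9 : Real.log 2 ≤ 1 := by
      have := Real.log_le_sub_one_of_pos (two_pos : (0 : ℝ) < 2)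
      linarith
    nlinarith
  -- the gap of y
  have hC : S.y (S.D.g j + l + 1) - S.y (S.D.g j + l) ≤ (t * (1 + e) + e) * S.lam j := by
    have hin : ∀ q, S.D.C (S.D.g j) q ≤ t * S.lam j := fun q => by
      refine ((S.hGB _ h5).tm.le q).trans ?_
      exact mul_le_mul_of_nonneg_right ht1 hl0.le
    have hin2 : ∀ q, S.D.C (S.D.g (j + 1)) q ≤ t * ((1 + e) * S.lam j) := fun q => by
      refine ((S.hGB _ h6).tm.le q).trans ?_
      have := two_le_lamb S.hR (S.D.g (j + 1))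
      exact mul_le_mul ht2 hnext (by linarith) ht0
    have h0 : t * S.lam j ≤ t * (1 + e) * S.lam j := by
      apply mul_le_mul_of_nonneg_right _ hl0.le
      nlinarith
    rcases lt_trichotomy (l + 1) (S.m j) with h | h | h
    · have := S.ygap j l h
      rw [this]
      have := hin ((S.r j + l) % S.D.M (S.D.g j))
      nlinarith
    · obtain ⟨q, hq⟩ := S.ylast j
      have e1 : S.D.g j + l + 1 = S.D.g j + S.D.M (S.D.g j) := by
        have : S.m j = S.D.M (S.D.g j) := rfl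
        omega
      have e2 : S.D.g j + l = S.D.g j + S.D.M (S.D.g j) - 1 := by omega
      rw [e1, e2]
      have := hin (q % S.D.M (S.D.g j))
      linarith
    · obtain ⟨q, hq⟩ := S.ybuf j
      have e1 : S.D.g j + l + 1 = S.D.g (j + 1) := by
        rw [S.g_succ]
        omega
      have e2 : S.D.g j + l = S.D.g j + S.D.M (S.D.g j) := by
        have : S.m j = S.D.M (S.D.g j) := rfl
        omega
      rw [e1, e2]
      have := hin2 (q % S.D.M (S.D.g (j + 1)))
      nlinarith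
  have hD := (abs_le.1 (h1 l hl)).2
  have hlog : S.lam j ≤ Real.log (S.p (S.D.g j + l)) := by
    rw [S.lam_eq]; exact Real.log_le_log (S.a_pos j) (S.loc j l hl).1
  have hlogp : 0 < Real.log (S.p (S.D.g j + l)) := by linarith
  unfold rat
  rw [div_le_iff₀ (by positivity)]
  have h8 : S.p (S.D.g j + l + 1) - S.p (S.D.g j + l) ≤ (1 + e) * (S.lam j *
      ((t * (1 + e) + e) * S.lam j)) := by
    have h9 : S.lam j * (S.y (S.D.g j + l + 1) - S.y (S.D.g j + l)) ≤
        S.lam j * ((t * (1 + e) + e) * S.lam j) := mul_le_mul_of_nonneg_left hC hl0.le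
    have := mul_le_mul_of_nonneg_left h9 (by linarith : 0 ≤ 1 + e)
    linarith
  have he3 : (1 + e) * (t * (1 + e) + e) ≤ (1 + ε) * t + ε := by
    have h9 : e * e ≤ e := by nlinarith
    have h10 : (1 + e) * (1 + e) ≤ 1 + ε := by nlinarith
    have h11 : (1 + e) * (1 + e) * t ≤ (1 + ε) * t := mul_le_mul_of_nonneg_right h10 ht0
    nlinarith
  calc S.p (S.D.g j + l + 1) - S.p (S.D.g j + l) ≤ (1 + e) * (S.lam j *
      ((t * (1 + e) + e) * S.lam j)) := h8
    _ = (1 + e) * (t * (1 + e) + e) * S.lam j ^ 2 := by ring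
    _ ≤ ((1 + ε) * t + ε) * S.lam j ^ 2 := mul_le_mul_of_nonneg_right he3 (by positivity)
    _ ≤ ((1 + ε) * t + ε) * Real.log (S.p (S.D.g j + l)) ^ 2 := by
        apply mul_le_mul_of_nonneg_left _ (by positivity)
        exact pow_le_pow_left₀ hl0.le hlog 2

/-- Lower bound for the largest gap of a block. -/
theorem ratl_lo {ε : ℝ} (hε : 0 < ε) (hε1 : ε ≤ 1) : ∀ᶠ j in atTop, ∃ l, l + 1 < S.m j ∧
    (1 - ε) * S.tau (S.D.g j) ≤ S.rat (S.D.g j + l) := by
  obtain ⟨e, he0, he1, he2⟩ : ∃ e : ℝ, 0 < e ∧ e ≤ 1 / 2 ∧ e ≤ ε / 4 :=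
    ⟨min (1 / 2) (ε / 4), by positivity, min_le_left _ _, min_le_right _ _⟩
  have ev3 := S.st_tendsto.eventually_ge_atTop 6
  filter_upwards [S.D_ev he0, S.log_ev he0, ev3] with j hj1 hj2 hj4
  have hl2 := S.two_le_lam j
  have hl0 : 0 < S.lam j := by linarith
  have htau : 0 < S.tau (S.D.g j) := by
    refine lt_of_lt_of_le ?_ (S.ht1 _ hj4)
    have : (0 : ℝ) < S.st (S.D.g j) := by exact_mod_cast (by omega : 0 < S.st (S.D.g j))
    positivity
  obtain ⟨l₁, l₂, h1, h2, h3, h4, h5⟩ := (S.hGB _ hj4).tm.forced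
  have hm0 : 0 < S.m j := S.m_pos j
  -- an index different from the cut
  obtain ⟨a, ha1, ha2, ha3⟩ : ∃ a, a < S.m j ∧ a ≠ (S.r j + (S.m j - 1)) % S.m j ∧
      S.D.C (S.D.g j) a = S.tau (S.D.g j) * S.lam j := by
    by_cases h : l₁ = (S.r j + (S.m j - 1)) % S.m j
    · exact ⟨l₂, h2, fun h' => h3 (h.trans h'.symm), h5⟩
    · exact ⟨l₁, h1, h, h4⟩
  obtain ⟨l, hl1, hl2'⟩ : ∃ l, l < S.m j ∧ (S.r j + l) % S.m j = a := by
    refine ⟨(a + (S.m j - S.r j % S.m j)) % S.m j, Nat.mod_lt _ hm0, ?_⟩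
    have h6 : S.r j % S.m j < S.m j := Nat.mod_lt _ hm0
    have h7 := Nat.div_add_mod (S.r j) (S.m j)
    rw [Nat.add_mod_mod]
    have h8 : S.r j + (a + (S.m j - S.r j % S.m j)) = a + S.m j * (S.r j / S.m j + 1) := by
      have h9 : S.m j * (S.r j / S.m j + 1) = S.m j * (S.r j / S.m j) + S.m j := by ring
      omega
    rw [h8, Nat.add_mul_mod_self_left, Nat.mod_eq_of_lt ha1]
  have hl3 : l + 1 < S.m j := by
    by_contra hc
    have h6 : l = S.m j - 1 := by omega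
    rw [h6] at hl2'
    exact ha2 hl2'.symm
  refine ⟨l, hl3, ?_⟩
  have hgap := S.ygap j l hl3
  have hD := (abs_le.1 (hj1 l (by omega))).1
  have hlog := (abs_le.1 (hj2 l (by omega))).2
  have e1 : S.y (S.D.g j + l + 1) - S.y (S.D.g j + l) = S.tau (S.D.g j) * S.lam j := by
    rw [hgap, ← ha3]
    congr 1
  rw [e1] at hD
  have hlog0 : S.lam j ≤ Real.log (S.p (S.D.g j + l)) := by
    rw [S.lam_eq]; exact Real.log_le_log (S.a_pos j) (S.loc j l (by omega)).1
  have hlogp : 0 < Real.log (S.p (S.D.g j + l)) := by linarith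
  unfold rat
  rw [le_div_iff₀ (by positivity)]
  have h7 : Real.log (S.p (S.D.g j + l)) ^ 2 ≤ ((1 + e) * S.lam j) ^ 2 :=
    pow_le_pow_left₀ (by linarith) (by linarith) 2
  have h8 : (1 - ε) * (1 + e) ^ 2 ≤ 1 - e := by
    have h9 : (1 + e) ^ 2 ≤ 1 + 3 * e := by nlinarith
    calc (1 - ε) * (1 + e) ^ 2 ≤ (1 - ε) * (1 + 3 * e) :=
          mul_le_mul_of_nonneg_left h9 (by linarith)
      _ ≤ 1 - e := by nlinarith
  calc (1 - ε) * S.tau (S.D.g j) * Real.log (S.p (S.D.g j + l)) ^ 2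
      ≤ (1 - ε) * S.tau (S.D.g j) * ((1 + e) * S.lam j) ^ 2 :=
        mul_le_mul_of_nonneg_left h7 (mul_nonneg (by linarith) htau.le)
    _ = (1 - ε) * (1 + e) ^ 2 * (S.tau (S.D.g j) * S.lam j ^ 2) := by ring
    _ ≤ (1 - e) * (S.tau (S.D.g j) * S.lam j ^ 2) :=
        mul_le_mul_of_nonneg_right h8 (by positivity)
    _ = (1 - e) * (S.lam j * (S.tau (S.D.g j) * S.lam j)) := by ring
    _ ≤ _ := by linarith

/-- indices and primes -/
theorem size_ev : ∀ᶠ j in atTop, (S.D.g (j + 1) : ℝ) ≤ 2 * S.a j := by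
  filter_upwards [S.st_tendsto.eventually_ge_atTop 6, S.g_tendsto.eventually_ge_atTop 1] with j h1 h2
  have h3 := (S.hGB _ h1).small
  have h4 : S.m j + 1 ≤ S.st (S.D.g j) * (S.m j + 1) := Nat.le_mul_of_pos_left _ (by omega)
  have h4' : S.m j + 1 ≤ S.D.g j := h4.trans h3
  have h5 : S.D.g (j + 1) ≤ 2 * S.D.g j := by
    rw [S.g_succ]
    omega
  have h6 : (S.D.g (j + 1) : ℝ) ≤ 2 * S.D.g j := by exact_mod_cast h5
  have h7 := phi_ge_succ S.hR (le_refl (S.D.g j : ℝ))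
  have e : S.a j = phi (fZ Z) x₀ (S.D.g j) := rfl
  rw [e]
  linarith

end T12

end Pool.Agent.H521.G
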