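import Pool.Agent.H521.G.T12d
import Pool.Agent.H521.G.DyCount
import Pool.Agent.H521.G.BlkCnt2
import Pool.Agent.H521.G.LogLim
import Pool.Agent.H521.G.PhiUp
import Pool.Agent.H521.G.LoArith12

open MeasureTheory Set Filter Topology
open scoped ENNReal NNReal ComplexConjugate Classical

namespace Pool.Agent.H521.G

theorem phi_bounds12 {f : ℝ → ℝ} {x₀ : ℝ} (hR : RDens f x₀) :
    (∀ ε : ℝ, 0 < ε → ∀ᶠ u in atTop, phi f x₀ u ≤ u ^ (1 + ε)) ∧
      ∀ᶠ u in atTop, Real.log (phi f x₀ u) ≤ 3 * Real.log u := by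
  apply phi_up hR.phi_tendsto (C := 4)
  filter_upwards [hR.phi_tendsto.eventually_ge_atTop (2 * x₀), eventually_ge_atTop 0] with u h1 h2
  have h3 := hR.phi_sub_le le_rfl h2
  rw [hR.phi_zero, sub_zero] at h3
  linarith

/-- the large gaps -/
def bigG (p : ℕ → ℝ) (c x : ℝ) : Set ℕ := {n | p n ≤ x ∧ c * Real.log (p n) ^ 2 ≤ p (n + 1) - p n}

namespace T12

variable {Z : Multiset ℂ} {x₀ : ℝ} {γ : ℕ → ℝ} {R ω : ℝ → ℝ} (S : T12 Z x₀ γ R ω)

theorem log_p_pos (n : ℕ) : 0 < Real.log (S.p n) := by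
  have h1 : 2 ≤ Real.log (S.p n) := S.hR.hlog _ (S.hR.phi_ge _)
  linarith

theorem bigG_fin (c x : ℝ) : (bigG S.p c x).Finite := by
  obtain ⟨N, hN⟩ := eventually_atTop.1 (S.p_tendsto.eventually_gt_atTop x)
  apply (Finset.finite_toSet (Finset.range N)).subset
  intro n hn
  rw [Finset.coe_range, mem_Iio]
  by_contra hc
  push Not at hc
  exact absurd hn.1 (not_le.2 (hN n hc))

theorem cnt_up {c c' : ℝ} (hc' : 0 < c') (hcc : c' < c) {ρ : ℝ} (h0 : 0 ≤ ρ) (h1 : ρ ≤ 1)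
    (hτ : ∀ᶠ u in atTop, c' < S.tau u → DyA ρ u ∨ DyB u) :
    ∃ C : ℝ, ∀ᶠ x in atTop, ((bigG S.p c x).ncard : ℝ) ≤
      C * Real.log x ^ (7 : ℝ) * (x ^ (1 - ρ) + 1) := by
  obtain ⟨ε, hε, hε1⟩ : ∃ ε : ℝ, 0 < ε ∧ (1 + ε) * c' + ε < c := by
    refine ⟨(c - c') / (2 * (c' + 1)), by apply div_pos <;> linarith, ?_⟩
    have e : (1 + (c - c') / (2 * (c' + 1))) * c' + (c - c') / (2 * (c' + 1)) =
        c' + (c - c') / 2 := by
      field_simp
      ring
    rw [e]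
    linarith
  have hτ1 := S.g_tendsto.eventually hτ
  have hτ2 := (tendsto_add_atTop_nat 1).eventually hτ1
  obtain ⟨J, hJ⟩ := eventually_atTop.1 ((S.ratl_up hε).and (S.size_ev.and (hτ1.and hτ2)))
  refine ⟨1680 + S.D.g J, ?_⟩
  filter_upwards [eventually_ge_atTop (Real.exp 1), eventually_ge_atTop 2] with x hx1 hx2
  have hℓ : 1 ≤ Real.log x := by
    rw [Real.le_log_iff_exp_le (by linarith)]
    exact hx1
  set ℓ := Real.log x with hℓd
  set U := ⌊2 * x⌋₊ with hU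
  set L := ⌊ℓ ^ 2⌋₊ + 1 with hL
  set W := (Finset.range (U + 1)).filter fun u => DyA ρ u ∨ DyB u with hW
  have hsub : bigG S.p c x ⊆
      ((Finset.range (S.D.g J) ∪ W.biUnion fun u => Finset.Icc (u - L) (u + L) : Finset ℕ) : Set ℕ) := by
    intro n hn
    rw [Finset.mem_coe, Finset.mem_union, Finset.mem_range, Finset.mem_biUnion]
    rcases lt_or_ge n (S.D.g J) with h | h
    · exact Or.inl h
    right
    obtain ⟨j, l, hl, rfl, hjJ⟩ := S.exists_blk J n h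
    obtain ⟨g1, g2, g3, g4⟩ := hJ j hjJ
    obtain ⟨k1, k2⟩ := S.loc j l hl
    have hn1 : S.p (S.D.g j + l) ≤ x := hn.1
    have hn2 : c * Real.log (S.p (S.D.g j + l)) ^ 2 ≤ S.p (S.D.g j + l + 1) - S.p (S.D.g j + l) := hn.2
    have hrat : c ≤ S.rat (S.D.g j + l) := by
      unfold rat
      rw [le_div_iff₀ (by have := S.log_p_pos (S.D.g j + l); positivity)]
      exact hn2
    have hax : S.a j ≤ x := k1.trans hn1
    have hm : S.m j ≤ ⌊ℓ ^ 2⌋₊ := by
      apply Nat.le_floor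
      have h3 : (S.m j : ℝ) ≤ S.lam j ^ 2 := S.hMb _
      have h4 : S.lam j ≤ ℓ := Real.log_le_log (S.a_pos j) hax
      exact h3.trans (pow_le_pow_left₀ (by linarith [S.two_le_lam j]) h4 2)
    have hgU : S.D.g (j + 1) ≤ U := by
      apply Nat.le_floor
      linarith
    have hgU' : S.D.g j ≤ U := (S.D.g_mono (Nat.lt_succ_self j)).le.trans hgU
    have hgs := S.g_succ j
    by_cases hj1 : S.tau (S.D.g j) ≤ c'
    · by_cases hj2 : S.tau (S.D.g (j + 1)) ≤ c'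
      · have := g1 l hl c' hc'.le hj1 hj2
        linarith
      · push Not at hj2
        refine ⟨S.D.g (j + 1), ?_, ?_⟩
        · rw [hW, Finset.mem_filter, Finset.mem_range]
          exact ⟨by omega, g4 hj2⟩
        · rw [Finset.mem_Icc]
          omega
    · push Not at hj1
      refine ⟨S.D.g j, ?_, ?_⟩
      · rw [hW, Finset.mem_filter, Finset.mem_range]
        exact ⟨by omega, g3 hj1⟩
      · rw [Finset.mem_Icc]
        omega
  have hcard : (bigG S.p c x).ncard ≤ S.D.g J + W.card * (2 * L + 1) := by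
    refine (Set.ncard_le_ncard hsub (Finset.finite_toSet _)).trans ?_
    rw [Set.ncard_coe_finset]
    refine (Finset.card_union_le _ _).trans ?_
    rw [Finset.card_range]
    apply Nat.add_le_add_left
    refine Finset.card_biUnion_le_card_mul _ _ _ fun u _ => ?_
    rw [Nat.card_Icc]
    omega
  -- the number of special points
  have hU1 : 1 ≤ U := by
    apply Nat.le_floor
    push_cast
    linarith
  have hWc : (W.card : ℝ) ≤ (Nat.log 2 U + 1) * ((U : ℝ) ^ (1 - ρ) + 1) +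
      (Nat.log 2 U + 1) * ((Nat.log 2 U : ℝ) ^ 4 + 1) := by
    have h3 := dyA_count h0 h1 U hU1
    have h4 := dyB_count U hU1
    have h5 : W.card ≤ ((Finset.range (U + 1)).filter fun u => DyA ρ u).card +
        ((Finset.range (U + 1)).filter fun u => DyB u).card := by
      rw [hW, Finset.filter_or]
      exact Finset.card_union_le _ _
    have h4' : ((((Finset.range (U + 1)).filter fun u => DyB u).card : ℕ) : ℝ) ≤
        (Nat.log 2 U + 1) * ((Nat.log 2 U : ℝ) ^ 4 + 1) := by exact_mod_cast h4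
    have h5' : (W.card : ℝ) ≤ (((Finset.range (U + 1)).filter fun u => DyA ρ u).card : ℝ) +
        (((Finset.range (U + 1)).filter fun u => DyB u).card : ℝ) := by exact_mod_cast h5
    linarith
  have hUx : (U : ℝ) ≤ 2 * x := Nat.floor_le (by linarith)
  have hlogU : (Nat.log 2 U : ℝ) ≤ 3 * ℓ := by
    have h3 : (2 : ℝ) ^ Nat.log 2 U ≤ U := by exact_mod_cast Nat.pow_log_le_self 2 (by omega)
    have h4 := Real.log_le_log (by positivity) (h3.trans hUx)
    rw [Real.log_pow, Real.log_mul two_ne_zero (by linarith)] at h4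
    have h5 : 0.6931471803 < Real.log 2 := Real.log_two_gt_d9
    have h6 : Real.log 2 < 0.6931471808 := Real.log_two_lt_d9
    have h7 : (0 : ℝ) ≤ Nat.log 2 U := Nat.cast_nonneg _
    nlinarith
  have hUp : (U : ℝ) ^ (1 - ρ) ≤ 2 * x ^ (1 - ρ) := by
    calc (U : ℝ) ^ (1 - ρ) ≤ (2 * x) ^ (1 - ρ) :=
          Real.rpow_le_rpow (Nat.cast_nonneg _) hUx (by linarith)
      _ = 2 ^ (1 - ρ) * x ^ (1 - ρ) := Real.mul_rpow (by norm_num) (by linarith)
      _ ≤ 2 * x ^ (1 - ρ) := by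
          apply mul_le_mul_of_nonneg_right _ (Real.rpow_nonneg (by linarith) _)
          calc (2 : ℝ) ^ (1 - ρ) ≤ 2 ^ (1 : ℝ) :=
                Real.rpow_le_rpow_of_exponent_le (by norm_num) (by linarith)
            _ = 2 := Real.rpow_one 2
  set X := x ^ (1 - ρ) with hX
  have hX0 : 0 ≤ X := Real.rpow_nonneg (by linarith) _
  set a : ℝ := (Nat.log 2 U : ℝ) with ha
  have ha0 : 0 ≤ a := Nat.cast_nonneg _
  have hℓ2 : 1 ≤ ℓ ^ 2 := one_le_pow₀ hℓ
  have hℓ4 : 1 ≤ ℓ ^ 4 := one_le_pow₀ hℓ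
  have hℓ5 : 1 ≤ ℓ ^ 5 := one_le_pow₀ hℓ
  have hℓ7 : 1 ≤ ℓ ^ 7 := one_le_pow₀ hℓ
  have hW2 : (W.card : ℝ) ≤ 336 * ℓ ^ 5 * (X + 1) := by
    have h3 : a ^ 4 ≤ 81 * ℓ ^ 4 := by
      calc a ^ 4 ≤ (3 * ℓ) ^ 4 := pow_le_pow_left₀ ha0 hlogU 4
        _ = _ := by ring
    have h4 : (a + 1) ≤ 4 * ℓ := by linarith
    have h5 : (U : ℝ) ^ (1 - ρ) + 1 ≤ 2 * (X + 1) := by linarith
    have h6 : (a + 1) * ((U : ℝ) ^ (1 - ρ) + 1) ≤ 4 * ℓ * (2 * (X + 1)) :=
      mul_le_mul h4 h5 (by have : 0 ≤ (U : ℝ) ^ (1 - ρ) := Real.rpow_nonneg (Nat.cast_nonneg _) _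
                           linarith) (by linarith)
    have h7 : (a + 1) * (a ^ 4 + 1) ≤ 4 * ℓ * (82 * ℓ ^ 4) :=
      mul_le_mul h4 (by linarith) (by positivity) (by linarith)
    have h8 : 4 * ℓ * (2 * (X + 1)) ≤ 8 * ℓ ^ 5 * (X + 1) := by
      have h9 : ℓ ≤ ℓ ^ 5 := by
        calc ℓ = ℓ ^ 1 := (pow_one _).symm
          _ ≤ ℓ ^ 5 := pow_le_pow_right₀ hℓ (by norm_num)
      have h10 : ℓ * (X + 1) ≤ ℓ ^ 5 * (X + 1) := mul_le_mul_of_nonneg_right h9 (by linarith)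
      linarith
    have h9 : 4 * ℓ * (82 * ℓ ^ 4) ≤ 328 * ℓ ^ 5 * (X + 1) := by
      have h10 : ℓ ^ 5 * 1 ≤ ℓ ^ 5 * (X + 1) :=
        mul_le_mul_of_nonneg_left (by linarith) (by positivity)
      have e : 4 * ℓ * (82 * ℓ ^ 4) = 328 * ℓ ^ 5 := by ring
      rw [e]
      linarith
    linarith
  have hL2 : ((2 * L + 1 : ℕ) : ℝ) ≤ 5 * ℓ ^ 2 := by
    have h3 : (⌊ℓ ^ 2⌋₊ : ℝ) ≤ ℓ ^ 2 := Nat.floor_le (by positivity)
    rw [hL]
    push_cast
    linarith
  have hcard' : ((bigG S.p c x).ncard : ℝ) ≤ S.D.g J + W.card * ((2 * L + 1 : ℕ) : ℝ) := by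
    exact_mod_cast hcard
  have h3 : (W.card : ℝ) * ((2 * L + 1 : ℕ) : ℝ) ≤ 336 * ℓ ^ 5 * (X + 1) * (5 * ℓ ^ 2) :=
    mul_le_mul hW2 hL2 (Nat.cast_nonneg _) (by positivity)
  have h4 : (S.D.g J : ℝ) ≤ S.D.g J * (ℓ ^ 7 * (X + 1)) := by
    apply le_mul_of_one_le_right (Nat.cast_nonneg _)
    nlinarith
  have e7 : ℓ ^ (7 : ℝ) = ℓ ^ 7 := by
    rw [← Real.rpow_natCast]
    norm_num
  rw [e7]
  calc ((bigG S.p c x).ncard : ℝ) ≤ S.D.g J * (ℓ ^ 7 * (X + 1)) +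
        336 * ℓ ^ 5 * (X + 1) * (5 * ℓ ^ 2) := by linarith
    _ = (1680 + S.D.g J) * ℓ ^ 7 * (X + 1) := by ring

theorem cnt_lo {c t : ℝ} (hc : 0 < c) (hct : c < t) {ρ : ℝ} (h0 : 0 ≤ ρ) (h1 : ρ < 1)
    (hτ : ∀ᶠ u in atTop, DyA ρ u → t ≤ S.tau u) {ε : ℝ} (hε : 0 < ε) (hε1 : ε < 1 - ρ) :
    ∀ᶠ x in atTop, x ^ (1 - ρ - ε) ≤ ((bigG S.p c x).ncard : ℝ) := by
  obtain ⟨ε₁, he0, he1, he2⟩ : ∃ e : ℝ, 0 < e ∧ e ≤ 1 ∧ (1 - e) * t = c := by
    refine ⟨(t - c) / t, by apply div_pos <;> linarith, ?_, ?_⟩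
    · rw [div_le_one (by linarith)]
      linarith
    · have : t ≠ 0 := by linarith
      field_simp
      ring
  obtain ⟨J, hJ⟩ := eventually_atTop.1 ((S.ratl_lo he0 he1).and (S.g_tendsto.eventually hτ))
  have hδ0 : 0 < ε / 2 := by linarith
  have hδ1 : ε / 2 < 1 := by linarith
  obtain ⟨hb1, hb2⟩ := phi_bounds12 S.hR
  have hnt := dyN_tendsto hδ0 hδ1
  -- facts for large `n`
  have hlarge : ∀ᶠ n : ℕ in atTop, S.D.g J < 2 ^ n ∧ 9 * (n + 1) ^ 2 + 1 ≤ 2 * 2 ^ n ∧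
      Real.log (Pool.Agent.H521.G.phi (fZ Z) x₀ ((2 : ℝ) ^ (n + 1))) ≤ 3 * (n + 1) := by
    have h2 : Tendsto (fun n : ℕ => (2 : ℝ) ^ (n + 1)) atTop atTop :=
      (tendsto_pow_atTop_atTop_of_one_lt (by norm_num : (1 : ℝ) < 2)).comp (tendsto_add_atTop_nat 1)
    have h3 : Tendsto (fun n : ℕ => 2 ^ n) atTop atTop := tendsto_pow_atTop_atTop_of_one_lt one_lt_two
    filter_upwards [h3.eventually_gt_atTop (S.D.g J), h2.eventually hb2, eventually_ge_atTop 12]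
      with n h4 h5 h6
    refine ⟨h4, ?_, ?_⟩
    · clear h4 h5
      induction n, h6 using Nat.le_induction with
      | base => norm_num
      | succ k hk ih =>
        have e : 2 * 2 ^ (k + 1) = 2 * (2 * 2 ^ k) := by rw [pow_succ]; ring
        rw [e]
        nlinarith
    · refine h5.trans ?_
      rw [Real.log_pow]
      have h7 : Real.log 2 ≤ 1 := by
        have := Real.log_le_sub_one_of_pos (two_pos : (0 : ℝ) < 2)
        linarith
      push_cast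
      have h8 : (0 : ℝ) ≤ (n : ℝ) + 1 := by positivity
      nlinarith
  have hpow : Tendsto (fun x : ℝ => x ^ (1 - ε / 2)) atTop atTop :=
    tendsto_rpow_atTop (by linarith)
  filter_upwards [lo_arith12 h0 h1 hε hε1, dyN_le hδ0 hδ1, hnt.eventually hlarge,
    hpow.eventually (hb1 (ε / 2) hδ0), eventually_ge_atTop 1] with x k1 k2 k3 k4 hx1
  set n := dyN (ε / 2) x with hn
  obtain ⟨k5, k6, k7⟩ := k3
  set H := ⌊((2 : ℝ) ^ n) ^ (1 - ρ)⌋₊ with hH
  set G := 9 * (n + 1) ^ 2 + 1 with hG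
  have h2n : (1 : ℝ) ≤ 2 ^ n := one_le_pow₀ (by norm_num)
  have hH1 : (H : ℝ) ≤ ((2 : ℝ) ^ n) ^ (1 - ρ) := Nat.floor_le (by positivity)
  have hH2 : H ≤ 2 ^ n := by
    have h3 : (H : ℝ) ≤ 2 ^ n := by
      refine hH1.trans ?_
      calc ((2 : ℝ) ^ n) ^ (1 - ρ) ≤ ((2 : ℝ) ^ n) ^ (1 : ℝ) :=
            Real.rpow_le_rpow_of_exponent_le h2n (by linarith)
        _ = 2 ^ n := Real.rpow_one _
    exact_mod_cast h3
  have hgap : ∀ j, S.D.g j ≤ 2 ^ n + H → S.D.g (j + 1) ≤ S.D.g j + G := by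
    intro j hj
    have h3 : (S.m j : ℝ) ≤ S.lam j ^ 2 := S.hMb _
    have h4 : S.lam j ≤ 3 * (n + 1) := by
      refine le_trans (Real.log_le_log (S.a_pos j) (S.hR.phi_mono ?_)) k7
      have h5 : S.D.g j ≤ 2 ^ (n + 1) := by rw [pow_succ]; omega
      exact_mod_cast h5
    have h5 : (S.m j : ℝ) ≤ 9 * ((n : ℝ) + 1) ^ 2 := by
      refine h3.trans ?_
      calc S.lam j ^ 2 ≤ (3 * ((n : ℝ) + 1)) ^ 2 :=
            pow_le_pow_left₀ (by linarith [S.two_le_lam j]) h4 2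
        _ = _ := by ring
    have h6 : S.m j ≤ 9 * (n + 1) ^ 2 := by exact_mod_cast h5
    rw [S.g_succ]
    omega
  have hcnt := blk_count2 S.D.g_mono (A := 2 ^ n) (H := H) (G := G)
    (by have : S.D.g 0 = 0 := rfl
        rw [this]; exact Nat.zero_le _) (by omega) hgap
  set J' := (Finset.range (2 ^ n + H + 1)).filter fun j => 2 ^ n ≤ S.D.g j ∧ S.D.g j ≤ 2 ^ n + H
    with hJ'
  have hJJ : ∀ j ∈ J', J ≤ j := by
    intro j hj
    rw [hJ', Finset.mem_filter] at hj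
    by_contra hc
    push Not at hc
    have := S.D.g_mono.monotone hc.le
    omega
  have hex : ∀ j, ∃ l, J ≤ j → l + 1 < S.m j ∧
      (1 - ε₁) * S.tau (S.D.g j) ≤ S.rat (S.D.g j + l) := by
    intro j
    by_cases hj : J ≤ j
    · obtain ⟨l, hl⟩ := (hJ j hj).1
      exact ⟨l, fun _ => hl⟩
    · exact ⟨0, fun h => absurd h hj⟩
  choose lf hlf using hex
  have hinj : Set.InjOn (fun j => S.D.g j + lf j) (J' : Set ℕ) := by
    intro i hi j hj hij
    have hi' := hlf i (hJJ i hi)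
    have hj' := hlf j (hJJ j hj)
    simp only at hij
    by_contra hne
    rcases lt_or_gt_of_ne hne with h | h
    · have h3 : S.D.g (i + 1) ≤ S.D.g j := S.D.g_mono.monotone h
      rw [S.g_succ] at h3
      omega
    · have h3 : S.D.g (j + 1) ≤ S.D.g i := S.D.g_mono.monotone h
      rw [S.g_succ] at h3
      omega
  have hsub : ((J'.image fun j => S.D.g j + lf j : Finset ℕ) : Set ℕ) ⊆ bigG S.p c x := by
    intro q hq
    rw [Finset.mem_coe, Finset.mem_image] at hq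
    obtain ⟨j, hj, rfl⟩ := hq
    obtain ⟨h3, h4⟩ := hlf j (hJJ j hj)
    have h5 := (hJ j (hJJ j hj)).2
    have hj2 := hj
    rw [hJ', Finset.mem_filter] at hj2
    obtain ⟨-, hj3, hj4⟩ := hj2
    have hA : DyA ρ (S.D.g j) := by
      refine ⟨n, hj3, ?_⟩
      have h6 : (S.D.g j : ℝ) ≤ 2 ^ n + H := by exact_mod_cast hj4
      linarith
    have h6 := h5 hA
    constructor
    · refine ((S.loc j (lf j) (by omega)).2).trans ?_
      have h7 : (S.D.g (j + 1) : ℝ) ≤ x ^ (1 - ε / 2) := by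
        refine le_trans ?_ k2
        have h8 := hgap j hj4
        have h9 : S.D.g (j + 1) ≤ 4 * 2 ^ n := by omega
        exact_mod_cast h9
      refine (S.hR.phi_mono h7).trans (k4.trans ?_)
      rw [← Real.rpow_mul (by linarith)]
      calc x ^ ((1 - ε / 2) * (1 + ε / 2)) ≤ x ^ (1 : ℝ) :=
            Real.rpow_le_rpow_of_exponent_le hx1 (by nlinarith)
        _ = x := Real.rpow_one x
    · have h7 : c ≤ S.rat (S.D.g j + lf j) := by
        refine le_trans ?_ h4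
        rw [← he2]
        exact mul_le_mul_of_nonneg_left h6 (by linarith)
      unfold rat at h7
      rwa [le_div_iff₀ (by have := S.log_p_pos (S.D.g j + lf j); positivity)] at h7
  have hfin := Set.ncard_le_ncard hsub (S.bigG_fin c x)
  rw [Set.ncard_coe_finset, Finset.card_image_of_injOn hinj] at hfin
  refine k1.trans ?_
  exact_mod_cast hcnt.trans hfin

end T12

end Pool.Agent.H521.G
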