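import Pool.Agent.H521.G.T4Qc

open MeasureTheory Set Filter Topology
open scoped ENNReal NNReal ComplexConjugate Classical

namespace Pool.Agent.H521.G

/-- The truncations of the Cramér constant. -/
noncomputable def tauC (c₀ : ℝ≥0∞) (i : ℕ) : ℝ := max (1 / (i : ℝ)) (min (i : ℝ≥0∞) c₀).toReal

theorem tauC_ge (c₀ : ℝ≥0∞) (i : ℕ) : 1 / (i : ℝ) ≤ tauC c₀ i := le_max_left _ _

theorem min_ne_topC (c₀ : ℝ≥0∞) (i : ℕ) : min (i : ℝ≥0∞) c₀ ≠ ∞ :=
  ne_top_of_le_ne_top (ENNReal.natCast_ne_top i) (min_le_left _ _)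

theorem tauC_le (c₀ : ℝ≥0∞) {i : ℕ} (hi : 1 ≤ i) : tauC c₀ i ≤ i := by
  have h1 : (1 : ℝ) ≤ i := by exact_mod_cast hi
  apply max_le
  · rw [div_le_iff₀ (by linarith)]
    nlinarith
  · have h2 := ENNReal.toReal_mono (ENNReal.natCast_ne_top i) (min_le_left (i : ℝ≥0∞) c₀)
    simpa using h2

theorem tauC_R {c₀ : ℝ≥0∞} {R : ℝ → ℝ} (h : ∀ c : ℝ, 0 < c → c₀ < ENNReal.ofReal c → R c = 0)
    {i : ℕ} {c : ℝ} (h1 : tauC c₀ i < c) (h2 : c ≤ i) : R c = 0 := by
  have h3 : 0 ≤ tauC c₀ i := le_trans (by positivity) (tauC_ge c₀ i)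
  have hc : 0 < c := by linarith
  apply h c hc
  have h4 : (min (i : ℝ≥0∞) c₀).toReal < c := lt_of_le_of_lt (le_max_right _ _) h1
  have h5 : min (i : ℝ≥0∞) c₀ < ENNReal.ofReal c := by
    rw [← ENNReal.ofReal_toReal (min_ne_topC c₀ i)]
    exact (ENNReal.ofReal_lt_ofReal_iff hc).2 h4
  rcases min_lt_iff.1 h5 with h6 | h6
  · exfalso
    have h7 : ENNReal.ofReal c ≤ ENNReal.ofReal i := ENNReal.ofReal_le_ofReal h2
    rw [ENNReal.ofReal_natCast] at h7
    exact absurd h6 (not_lt.2 h7)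
  · exact h6

theorem tauC_up {c₀ : ℝ≥0∞} (hc : c₀ ≠ ∞) {ε : ℝ} (hε : 0 < ε) :
    ∀ᶠ i in atTop, tauC c₀ i ≤ c₀.toReal + ε := by
  have h1 : Tendsto (fun i : ℕ => 1 / (i : ℝ)) atTop (𝓝 0) := tendsto_one_div_atTop_nhds_zero_nat
  filter_upwards [h1.eventually_le_const hε] with i hi
  apply max_le
  · linarith [ENNReal.toReal_nonneg (a := c₀)]
  · have := ENNReal.toReal_mono hc (min_le_right (i : ℝ≥0∞) c₀)
    linarith

theorem tauC_lo {c₀ : ℝ≥0∞} {b : ℝ} (hb : ENNReal.ofReal b < c₀) :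
    ∃ b' : ℝ, b < b' ∧ 0 < b' ∧ ∀ᶠ i in atTop, b' ≤ tauC c₀ i := by
  obtain ⟨q, hq1, hq2⟩ := ENNReal.lt_iff_exists_nnreal_btwn.1 hb
  have hqb : b < q := by
    by_contra hc
    push Not at hc
    have := ENNReal.ofReal_le_ofReal hc
    rw [ENNReal.ofReal_coe_nnreal] at this
    exact absurd hq1 (not_lt.2 this)
  have hq0 : (0 : ℝ) < q := by
    have : (0 : ℝ≥0∞) < q := lt_of_le_of_lt bot_le hq1
    exact_mod_cast this
  refine ⟨q, hqb, hq0, ?_⟩
  obtain ⟨N, hN⟩ := exists_nat_gt (q : ℝ)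
  filter_upwards [eventually_ge_atTop N] with i hi
  refine le_trans ?_ (le_max_right _ _)
  have h1 : (q : ℝ≥0∞) ≤ min (i : ℝ≥0∞) c₀ := by
    apply le_min _ hq2.le
    have h2 : (q : ℝ) ≤ i := hN.le.trans (by exact_mod_cast hi)
    have h3 : q ≤ (i : ℝ≥0) := by exact_mod_cast h2
    exact_mod_cast h3
  have h2 := ENNReal.toReal_mono (min_ne_topC c₀ i) h1
  simpa using h2

namespace T4

variable {Z : Multiset ℂ} {x₀ : ℝ} {γ : ℕ → ℝ} {R ω : ℝ → ℝ} (S : T4 Z x₀ γ R ω)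

/-- the block of an index -/
theorem exists_blk (N n : ℕ) (hn : S.D.g N ≤ n) :
    ∃ j l, l < S.m j + 1 ∧ n = S.D.g j + l ∧ N ≤ j := by
  have hex : ∃ j, n < S.D.g (j + 1) := by
    refine ⟨n, ?_⟩
    have := S.D.g_mono.le_apply (x := n + 1)
    omega
  set j := Nat.find hex with hj
  have h1 : n < S.D.g (j + 1) := Nat.find_spec hex
  have h2 : S.D.g j ≤ n := by
    rcases Nat.eq_zero_or_pos j with h | h
    · rw [h]; exact Nat.zero_le n
    · have := Nat.find_min hex (Nat.sub_lt h one_pos)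
      have e : j - 1 + 1 = j := by omega
      rw [e] at this
      omega
  refine ⟨j, n - S.D.g j, ?_, by omega, ?_⟩
  · rw [S.g_succ] at h1
    omega
  · by_contra hc
    push Not at hc
    have h3 : S.D.g (j + 1) ≤ S.D.g N := S.D.g_mono.monotone (by omega)
    omega

/-- the ratio of a gap with the square of the logarithm -/
noncomputable def rat (k : ℕ) : ℝ := (S.p (k + 1) - S.p k) / Real.log (S.p k) ^ 2

theorem rat_up {t : ℝ} (ht0 : 0 ≤ t) (ht : ∀ᶠ i in atTop, S.tau i ≤ t) {ε : ℝ} (hε : 0 < ε) :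
    ∀ᶠ k in atTop, S.rat k ≤ t + ε := by
  -- choose a small parameter
  obtain ⟨e, he0, he1, he2⟩ : ∃ e : ℝ, 0 < e ∧ e ≤ 1 ∧ (1 + e) * ((t + e) * (1 + e) + e) ≤ t + ε := by
    refine ⟨min 1 (ε / (4 * t + 8)), by positivity, min_le_left _ _, ?_⟩
    set e := min 1 (ε / (4 * t + 8)) with he
    have h0 : 0 < e := by rw [he]; positivity
    have h1 : e ≤ 1 := min_le_left _ _
    have h2 : e * (4 * t + 8) ≤ ε := by
      have h3 : e ≤ ε / (4 * t + 8) := min_le_right _ _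
      rwa [le_div_iff₀ (by positivity)] at h3
    have h3 : e * e ≤ e := by nlinarith
    have h4 : e * e * e ≤ e := by nlinarith
    nlinarith [mul_nonneg ht0 h0.le, mul_nonneg ht0 (mul_nonneg h0.le h0.le)]
  have hlamt : Tendsto S.lam atTop atTop := Real.tendsto_log_atTop.comp S.a_tendsto
  have ev1 : ∀ᶠ j in atTop, S.tau (S.st (S.D.g j)) ≤ t := S.st_tendsto.eventually ht
  have ev2 := (tendsto_add_atTop_nat 1).eventually ev1
  have ev3 := S.st_tendsto.eventually_ge_atTop 6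
  have ev4 := (tendsto_add_atTop_nat 1).eventually ev3
  obtain ⟨N, hN⟩ := eventually_atTop.1 ((S.D_ev he0).and ((S.a_succ one_pos).and (ev1.and
    (ev2.and (ev3.and (ev4.and (hlamt.eventually_ge_atTop (1 / e))))))))
  filter_upwards [eventually_ge_atTop (S.D.g N)] with k hk
  obtain ⟨j, l, hl, rfl, hjN⟩ := S.exists_blk N k hk
  obtain ⟨h1, h2, h3, h4, h5, h6, h7⟩ := hN j hjN
  have hl2 := S.two_le_lam j
  have hl0 : 0 < S.lam j := by linarith
  have hle : 1 ≤ e * S.lam j := by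
    rw [div_le_iff₀ he0] at h7
    linarith
  -- the next logarithm
  have hnext : lamb (fZ Z) x₀ (S.D.g (j + 1)) ≤ (1 + e) * S.lam j := by
    have h8 : lamb (fZ Z) x₀ (S.D.g (j + 1)) ≤ Real.log (2 * S.a j) := by
      apply Real.log_le_log (S.a_pos (j + 1))
      have : S.a (j + 1) = phi (fZ Z) x₀ (S.D.g (j + 1)) := rfl
      linarith
    rw [Real.log_mul two_ne_zero (S.a_pos j).ne', ← S.lam_eq] at h8
    have h9 : Real.log 2 ≤ 1 := by
      have := Real.log_le_sub_one_of_pos (two_pos : (0 : ℝ) < 2)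
      linarith
    nlinarith
  -- the gap of y
  have hC : S.y (S.D.g j + l + 1) - S.y (S.D.g j + l) ≤ ((t + e) * (1 + e) + e) * S.lam j := by
    have hin : ∀ q, S.D.C (S.D.g j) q ≤ (t + e) * S.lam j := fun q => by
      refine ((S.hGB _ h5).tm.le q).trans ?_
      exact mul_le_mul_of_nonneg_right (by linarith) hl0.le
    have hin2 : ∀ q, S.D.C (S.D.g (j + 1)) q ≤ (t + e) * ((1 + e) * S.lam j) := fun q => by
      refine ((S.hGB _ h6).tm.le q).trans ?_
      have := two_le_lamb S.hR (S.D.g (j + 1))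
      exact mul_le_mul (by linarith) hnext (by linarith) (by linarith)
    have h0 : (t + e) * S.lam j ≤ (t + e) * (1 + e) * S.lam j := by
      apply mul_le_mul_of_nonneg_right _ hl0.le
      nlinarith
    rcases lt_trichotomy (l + 1) (S.m j) with h | h | h
    · have := S.ygap j l h
      rw [this]
      have := hin ((S.r j + l) % S.D.M (S.D.g j))
      nlinarith
    · obtain ⟨q, hq⟩ := S.ylast j
      have e1 : S.D.g j + l + 1 = S.D.g j + S.D.M (S.D.g j) := by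
        have : S.m j = S.D.M (S.D.g j) := rfl
        omega
      have e2 : S.D.g j + l = S.D.g j + S.D.M (S.D.g j) - 1 := by omega
      rw [e1, e2]
      have := hin (q % S.D.M (S.D.g j))
      linarith
    · obtain ⟨q, hq⟩ := S.ybuf j
      have e1 : S.D.g j + l + 1 = S.D.g (j + 1) := by
        rw [S.g_succ]
        omega
      have e2 : S.D.g j + l = S.D.g j + S.D.M (S.D.g j) := by
        have : S.m j = S.D.M (S.D.g j) := rfl
        omega
      rw [e1, e2]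
      have := hin2 (q % S.D.M (S.D.g (j + 1)))
      nlinarith
  have hD := (abs_le.1 (h1 l hl)).2
  have hC0 := S.gapy_pos (S.D.g j + l)
  have hlog : S.lam j ≤ Real.log (S.p (S.D.g j + l)) := by
    rw [S.lam_eq]; exact Real.log_le_log (S.a_pos j) (S.loc j l hl).1
  have hlogp : 0 < Real.log (S.p (S.D.g j + l)) := by linarith
  unfold rat
  rw [div_le_iff₀ (by positivity)]
  have h8 : S.p (S.D.g j + l + 1) - S.p (S.D.g j + l) ≤ (1 + e) * (S.lam j *
      (((t + e) * (1 + e) + e) * S.lam j)) := by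
    have h9 : S.lam j * (S.y (S.D.g j + l + 1) - S.y (S.D.g j + l)) ≤
        S.lam j * (((t + e) * (1 + e) + e) * S.lam j) := mul_le_mul_of_nonneg_left hC hl0.le
    have := mul_le_mul_of_nonneg_left h9 (by linarith : 0 ≤ 1 + e)
    linarith
  calc S.p (S.D.g j + l + 1) - S.p (S.D.g j + l) ≤ (1 + e) * (S.lam j *
      (((t + e) * (1 + e) + e) * S.lam j)) := h8
    _ = (1 + e) * ((t + e) * (1 + e) + e) * S.lam j ^ 2 := by ring
    _ ≤ (t + ε) * S.lam j ^ 2 := mul_le_mul_of_nonneg_right he2 (by positivity)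
    _ ≤ (t + ε) * Real.log (S.p (S.D.g j + l)) ^ 2 := by
        apply mul_le_mul_of_nonneg_left _ (by positivity)
        exact pow_le_pow_left₀ hl0.le hlog 2

theorem rat_lo {b b' : ℝ} (hb : b < b') (hb' : 0 < b') (ht : ∀ᶠ i in atTop, b' ≤ S.tau i) :
    ∃ᶠ k in atTop, b ≤ S.rat k := by
  obtain ⟨e, he0, he1, he2⟩ : ∃ e : ℝ, 0 < e ∧ e ≤ 1 / 2 ∧ b * (1 + e) ^ 2 ≤ (1 - e) * b' := by
    have hb2 : 0 < b' - b := by linarith
    refine ⟨min (1 / 2) ((b' - b) / (4 * |b| + b' + 1)), by positivity, min_le_left _ _, ?_⟩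
    set e := min (1 / 2) ((b' - b) / (4 * |b| + b' + 1)) with he
    have h0 : 0 < e := by rw [he]; positivity
    have h1 : e ≤ 1 / 2 := min_le_left _ _
    have h2 : e * (4 * |b| + b' + 1) ≤ b' - b := by
      have h3 : e ≤ (b' - b) / (4 * |b| + b' + 1) := min_le_right _ _
      rwa [le_div_iff₀ (by positivity)] at h3
    have h3 : b * (1 + e) ^ 2 ≤ b + 4 * |b| * e := by
      have h4 : b * (1 + e) ^ 2 = b + b * (2 * e + e ^ 2) := by ring
      rw [h4]
      have h5 : b * (2 * e + e ^ 2) ≤ |b| * (2 * e + e ^ 2) :=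
        mul_le_mul_of_nonneg_right (le_abs_self b) (by positivity)
      have h6 : |b| * (2 * e + e ^ 2) ≤ |b| * (4 * e) :=
        mul_le_mul_of_nonneg_left (by nlinarith) (abs_nonneg b)
      linarith
    nlinarith
  have ev1 : ∀ᶠ j in atTop, b' ≤ S.tau (S.st (S.D.g j)) := S.st_tendsto.eventually ht
  have ev3 := S.st_tendsto.eventually_ge_atTop 6
  rw [frequently_atTop]
  intro K
  obtain ⟨j, hj1, hj2, hj3, hj4, hj5⟩ := ((S.D_ev he0).and ((S.log_ev he0).and (ev1.and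
    (ev3.and (S.g_tendsto.eventually_ge_atTop K))))).exists
  have hl2 := S.two_le_lam j
  have hl0 : 0 < S.lam j := by linarith
  obtain ⟨l₁, l₂, h1, h2, h3, h4, h5⟩ := (S.hGB _ hj4).tm.forced
  have hm0 : 0 < S.m j := S.m_pos j
  -- an index different from the cut
  obtain ⟨a, ha1, ha2, ha3⟩ : ∃ a, a < S.m j ∧ a ≠ (S.r j + (S.m j - 1)) % S.m j ∧
      S.D.C (S.D.g j) a = S.tau (S.st (S.D.g j)) * S.lam j := by
    by_cases h : l₁ = (S.r j + (S.m j - 1)) % S.m j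
    · exact ⟨l₂, h2, fun h' => h3 (h.trans h'.symm), h5⟩
    · exact ⟨l₁, h1, h, h4⟩
  obtain ⟨l, hl1, hl2'⟩ : ∃ l, l < S.m j ∧ (S.r j + l) % S.m j = a := by
    refine ⟨(a + (S.m j - S.r j % S.m j)) % S.m j, Nat.mod_lt _ hm0, ?_⟩
    have h6 : S.r j % S.m j < S.m j := Nat.mod_lt _ hm0
    have h7 := Nat.div_add_mod (S.r j) (S.m j)
    rw [Nat.add_mod_mod]
    have h8 : S.r j + (a + (S.m j - S.r j % S.m j)) = a + S.m j * (S.r j / S.m j + 1) := by
      have h9 : S.m j * (S.r j / S.m j + 1) = S.m j * (S.r j / S.m j) + S.m j := by ring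
      omega
    rw [h8, Nat.add_mul_mod_self_left, Nat.mod_eq_of_lt ha1]
  have hl3 : l + 1 < S.m j := by
    by_contra hc
    have h6 : l = S.m j - 1 := by omega
    rw [h6] at hl2'
    exact ha2 hl2'.symm
  refine ⟨S.D.g j + l, by omega, ?_⟩
  have hgap := S.ygap j l hl3
  have hD := (abs_le.1 (hj1 l (by omega))).1
  have hlog := (abs_le.1 (hj2 l (by omega))).2
  have e1 : S.y (S.D.g j + l + 1) - S.y (S.D.g j + l) = S.tau (S.st (S.D.g j)) * S.lam j := by
    rw [hgap, ← ha3]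
    congr 1
  rw [e1] at hD
  have hlog0 : S.lam j ≤ Real.log (S.p (S.D.g j + l)) := by
    rw [S.lam_eq]; exact Real.log_le_log (S.a_pos j) (S.loc j l (by omega)).1
  have hlogp : 0 < Real.log (S.p (S.D.g j + l)) := by linarith
  unfold rat
  rw [le_div_iff₀ (by positivity)]
  have h6 : (1 - e) * (S.lam j * (b' * S.lam j)) ≤
      S.p (S.D.g j + l + 1) - S.p (S.D.g j + l) := by
    have h7 : S.lam j * (b' * S.lam j) ≤ S.lam j * (S.tau (S.st (S.D.g j)) * S.lam j) :=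
      mul_le_mul_of_nonneg_left (mul_le_mul_of_nonneg_right hj3 hl0.le) hl0.le
    have h8 := mul_le_mul_of_nonneg_left h7 (by linarith : 0 ≤ 1 - e)
    linarith
  rcases le_or_gt b 0 with hb0 | hb0
  · have h7 : b * Real.log (S.p (S.D.g j + l)) ^ 2 ≤ 0 :=
      mul_nonpos_of_nonpos_of_nonneg hb0 (sq_nonneg _)
    have h8 : 0 ≤ (1 - e) * (S.lam j * (b' * S.lam j)) := by
      have : 0 ≤ 1 - e := by linarith
      positivity
    linarith
  · have h7 : Real.log (S.p (S.D.g j + l)) ^ 2 ≤ ((1 + e) * S.lam j) ^ 2 :=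
      pow_le_pow_left₀ (by linarith) (by linarith) 2
    calc b * Real.log (S.p (S.D.g j + l)) ^ 2 ≤ b * ((1 + e) * S.lam j) ^ 2 :=
          mul_le_mul_of_nonneg_left h7 hb0.le
      _ = b * (1 + e) ^ 2 * S.lam j ^ 2 := by ring
      _ ≤ (1 - e) * b' * S.lam j ^ 2 := mul_le_mul_of_nonneg_right he2 (by positivity)
      _ = (1 - e) * (S.lam j * (b' * S.lam j)) := by ring
      _ ≤ _ := h6

end T4

/-- the limsup of the gaps divided by the square of the logarithm -/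
noncomputable def crC (p : ℕ → ℝ) : ℝ≥0∞ :=
  limsup (fun k => ENNReal.ofReal ((p (k + 1) - p k) / Real.log (p k) ^ 2)) atTop

/-- **Existence.** -/
theorem t4_suff {Z : Multiset ℂ} (hZ : ∀ ρ ∈ Z, ρ.re < 1) (hZc : Z.map conj = Z)
    {γ : ℕ → ℝ} (hγ : ∀ n, 0 ≤ γ n)
    {R : ℝ → ℝ} (hRa : AntitoneOn R (Ioi 0)) (hR0 : ∀ c, 0 < c → 0 ≤ R c)
    (hcond : ∀ c K ε : ℝ, 0 < c → 0 < K → 0 < ε → ∀ᶠ N : ℕ in atTop,
      (∑ n ∈ Finset.range N, min (γ n) K) / N + R c ≤ 1 + ε)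
    {c₀ : ℝ≥0∞} (hc₀ : ∀ c : ℝ, 0 < c → c₀ < ENNReal.ofReal c → R c = 0)
    {ω : ℝ → ℝ} (hω : Tendsto ω atTop atTop) :
    ∃ p : ℕ → ℝ, Sys Z p ∧
      (∀ (k : ℕ) (φ : (Fin k → ℝ) → ℝ) (B : ℝ), (∀ x, |φ x| ≤ B) → ∀ L : ℝ≥0, LipschitzWith L φ →
        ∀ l : ℝ, Tendsto (fun N : ℕ => (∑ n ∈ Finset.range N, φ (fun i => γ (n + i))) / N)
          atTop (𝓝 l) →
        Tendsto (fun N : ℕ => (∑ n ∈ Finset.range N,
          φ (fun i => (p (n + i + 1) - p (n + i)) / Real.log (p (n + i)))) / N) atTop (𝓝 l)) ∧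
      (∀ b : ℝ, 0 < b → ContinuousAt R b →
        Tendsto (fun x : ℝ => (∑' k, if p k ≤ x ∧ b * Real.log (p k) ^ 2 ≤ p (k + 1) - p k
          then p (k + 1) - p k else 0) / x) atTop (𝓝 (R b))) ∧
      crC p = c₀ ∧
      ∀ᶠ x in atTop, |(countPr p x : ℝ) - mainTerm Z x| ≤ ω x * Real.log x := by
  obtain ⟨x₀, hR, h8⟩ := exists_RDens8 hZ
  have ht1 : ∀ i : ℕ, 6 ≤ i → 1 / (i : ℝ) ≤ tauC c₀ i := fun i _ => tauC_ge c₀ i
  have ht2 : ∀ i : ℕ, 6 ≤ i → tauC c₀ i ≤ i := fun i hi => tauC_le c₀ (by omega)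
  have ht3 : ∀ i : ℕ, 6 ≤ i → ∀ c, tauC c₀ i < c → c ≤ i → R c = 0 :=
    fun i _ c h1 h2 => tauC_R hc₀ h1 h2
  obtain ⟨D, st, hst, hslow, hGB, hC1⟩ := tq_exists hR h8 hγ hRa hR0 hcond hω ht1 ht2 ht3
  obtain ⟨y, r, h1, h2, h3, h4, h5, h6, h7, h8⟩ := D.system hR hZ hZc rfl
  let S : T4 Z x₀ γ R ω := ⟨hZ, hR, tauC c₀, ht1, ht2, D, st, hst, hslow, hGB, hC1, y, r, h1, h2,
    h3, h5, h6, h7, h8⟩
  refine ⟨S.p, h4, fun k φ B hB L hL l hl => S.stats hB hL hl, fun b hb hc => S.mass hb hc,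
    ?_, S.error hω⟩
  apply le_antisymm
  · by_cases hc : c₀ = ∞
    · rw [hc]; exact le_top
    · apply ENNReal.le_of_forall_pos_le_add
      intro ε hε _
      have hε' : (0 : ℝ) < ε := by exact_mod_cast hε
      have h9 := S.rat_up (t := c₀.toReal + ε / 2) (by positivity)
        (tauC_up hc (by positivity : (0 : ℝ) < ε / 2)) (by positivity : (0 : ℝ) < ε / 2)
      apply limsup_le_of_le (by isBoundedDefault)
      filter_upwards [h9] with k hk
      have h10 : S.rat k ≤ c₀.toReal + ε := by linarith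
      refine (ENNReal.ofReal_le_ofReal h10).trans ?_
      rw [ENNReal.ofReal_add ENNReal.toReal_nonneg hε'.le, ENNReal.ofReal_toReal hc,
        ENNReal.ofReal_coe_nnreal]
  · apply le_of_forall_lt
    intro d hd
    obtain ⟨q, hq1, hq2⟩ := ENNReal.lt_iff_exists_nnreal_btwn.1 hd
    have hq3 : ENNReal.ofReal (q : ℝ) < c₀ := by rwa [ENNReal.ofReal_coe_nnreal]
    obtain ⟨b', hb1, hb2, hb3⟩ := tauC_lo hq3
    have h9 := S.rat_lo hb1 hb2 hb3
    refine lt_of_lt_of_le hq1 ?_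
    apply le_limsup_of_frequently_le _ (by isBoundedDefault)
    refine h9.mono fun k hk => ?_
    have := ENNReal.ofReal_le_ofReal hk
    rwa [ENNReal.ofReal_coe_nnreal] at this

end Pool.Agent.H521.G
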