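import Pool.Agent.H521.G.T12e
import Pool.Agent.H521.G.T4Qd

open MeasureTheory Set Filter Topology
open scoped ENNReal NNReal ComplexConjugate Classical

namespace Pool.Agent.H521.G

/-- A dense sequence of positive reals. -/
theorem exists_dense_pos : ∃ v : ℕ → ℝ, (∀ q, 0 < v q) ∧
    ∀ a b : ℝ, 0 ≤ a → a < b → ∃ q, a < v q ∧ v q < b := by
  have : Nonempty {q : ℚ // 0 < q} := ⟨⟨1, one_pos⟩⟩
  obtain ⟨e, he⟩ := exists_surjective_nat {q : ℚ // 0 < q}
  refine ⟨fun n => ((e n : ℚ) : ℝ), fun q => by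
    show (0 : ℝ) < ((e q : ℚ) : ℝ)
    exact_mod_cast (e q).2, fun a b ha hab => ?_⟩
  obtain ⟨r, hr1, hr2⟩ := exists_rat_btwn hab
  have hr0 : 0 < r := by
    have : (0 : ℝ) < r := lt_of_le_of_lt ha hr1
    exact_mod_cast this
  obtain ⟨n, hn⟩ := he ⟨r, hr0⟩
  refine ⟨n, ?_, ?_⟩
  · simp only [hn]; exact hr1
  · simp only [hn]; exact hr2

/-- the possible sizes of the largest gap of a block of stage `i` starting at `u` -/
noncomputable def chS (g : ℝ → ℝ) (v : ℕ → ℝ) (c₀ : ℝ≥0∞) (i u : ℕ) : Finset ℝ :=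
  insert (1 / (i : ℝ)) ((if DyB u then {tauC c₀ i} else ∅) ∪
    ((Finset.range i).filter fun q => g (v q) < 1 ∧ DyA (g (v q)) u ∧ 1 / (i : ℝ) ≤ v q ∧
      v q ≤ i).image v)

theorem chS_ne (g : ℝ → ℝ) (v : ℕ → ℝ) (c₀ : ℝ≥0∞) (i u : ℕ) : (chS g v c₀ i u).Nonempty :=
  ⟨_, Finset.mem_insert_self _ _⟩

/-- the size of the largest gap of a block of stage `i` starting at `u` -/
noncomputable def chi (g : ℝ → ℝ) (v : ℕ → ℝ) (c₀ : ℝ≥0∞) (i u : ℕ) : ℝ :=
  (chS g v c₀ i u).max' (chS_ne g v c₀ i u)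

/-- all possible sizes at the stage `i` -/
noncomputable def chV (v : ℕ → ℝ) (c₀ : ℝ≥0∞) (i : ℕ) : Finset ℝ :=
  insert (1 / (i : ℝ)) (insert (tauC c₀ i)
    (((Finset.range i).filter fun q => 1 / (i : ℝ) ≤ v q ∧ v q ≤ i).image v))

theorem chi_cases (g : ℝ → ℝ) (v : ℕ → ℝ) (c₀ : ℝ≥0∞) (i u : ℕ) :
    chi g v c₀ i u = 1 / (i : ℝ) ∨ (DyB u ∧ chi g v c₀ i u = tauC c₀ i) ∨
      ∃ q, q < i ∧ g (v q) < 1 ∧ DyA (g (v q)) u ∧ (1 / (i : ℝ) ≤ v q ∧ v q ≤ i) ∧
        chi g v c₀ i u = v q := by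
  have h := Finset.max'_mem _ (chS_ne g v c₀ i u)
  change chi g v c₀ i u ∈ _ at h
  unfold chS at h
  rw [Finset.mem_insert, Finset.mem_union, Finset.mem_image] at h
  rcases h with h | h | ⟨q, hq, h⟩
  · exact Or.inl h
  · right; left
    by_cases hB : DyB u
    · rw [if_pos hB, Finset.mem_singleton] at h
      exact ⟨hB, h⟩
    · rw [if_neg hB] at h
      exact absurd h (Finset.notMem_empty _)
  · rw [Finset.mem_filter, Finset.mem_range] at hq
    exact Or.inr (Or.inr ⟨q, hq.1, hq.2.1, hq.2.2.1, hq.2.2.2, h.symm⟩)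

theorem chi_mem (g : ℝ → ℝ) (v : ℕ → ℝ) (c₀ : ℝ≥0∞) (i u : ℕ) : chi g v c₀ i u ∈ chV v c₀ i := by
  unfold chV
  rw [Finset.mem_insert, Finset.mem_insert, Finset.mem_image]
  rcases chi_cases g v c₀ i u with h | ⟨-, h⟩ | ⟨q, h1, -, -, h4, h5⟩
  · exact Or.inl h
  · exact Or.inr (Or.inl h)
  · exact Or.inr (Or.inr ⟨q, by rw [Finset.mem_filter, Finset.mem_range]; exact ⟨h1, h4⟩, h5.symm⟩)

theorem chi_B {g : ℝ → ℝ} {v : ℕ → ℝ} {c₀ : ℝ≥0∞} {i u : ℕ} (h : DyB u) :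
    tauC c₀ i ≤ chi g v c₀ i u := by
  apply Finset.le_max'
  unfold chS
  rw [Finset.mem_insert, Finset.mem_union, if_pos h, Finset.mem_singleton]
  exact Or.inr (Or.inl rfl)

theorem chi_A {g : ℝ → ℝ} {v : ℕ → ℝ} {c₀ : ℝ≥0∞} {i u q : ℕ} (h1 : q < i) (h2 : g (v q) < 1)
    (h3 : DyA (g (v q)) u) (h4 : 1 / (i : ℝ) ≤ v q) (h5 : v q ≤ i) :
    v q ≤ chi g v c₀ i u := by
  apply Finset.le_max'
  unfold chS
  rw [Finset.mem_insert, Finset.mem_union, Finset.mem_image]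
  exact Or.inr (Or.inr ⟨q, by rw [Finset.mem_filter, Finset.mem_range]; exact ⟨h1, h2, h3, h4, h5⟩, rfl⟩)

theorem chV_bd {v : ℕ → ℝ} {c₀ : ℝ≥0∞} {i : ℕ} (hi : 6 ≤ i) {t : ℝ} (ht : t ∈ chV v c₀ i) :
    1 / (i : ℝ) ≤ t ∧ t ≤ i := by
  have hi1 : (1 : ℝ) ≤ i := by exact_mod_cast (by omega : 1 ≤ i)
  unfold chV at ht
  rw [Finset.mem_insert, Finset.mem_insert, Finset.mem_image] at ht
  rcases ht with h | h | ⟨q, hq, h⟩
  · rw [h]
    refine ⟨le_refl _, ?_⟩
    rw [div_le_iff₀ (by linarith)]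
    nlinarith
  · rw [h]
    exact ⟨tauC_ge c₀ i, tauC_le c₀ (by omega)⟩
  · rw [Finset.mem_filter] at hq
    rw [← h]
    exact hq.2

namespace T12

variable {Z : Multiset ℂ} {x₀ : ℝ} {γ : ℕ → ℝ} {R ω : ℝ → ℝ} (S : T12 Z x₀ γ R ω)

theorem dyB_freq : ∃ᶠ j in atTop, DyB (S.D.g j) := by
  obtain ⟨-, hb2⟩ := phi_bounds12 S.hR
  rw [frequently_atTop]
  intro K
  have h2 : Tendsto (fun n : ℕ => (2 : ℝ) ^ (n + 1)) atTop atTop :=
    (tendsto_pow_atTop_atTop_of_one_lt (by norm_num : (1 : ℝ) < 2)).comp (tendsto_add_atTop_nat 1)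
  have h3 : Tendsto (fun n : ℕ => 2 ^ n) atTop atTop := tendsto_pow_atTop_atTop_of_one_lt one_lt_two
  obtain ⟨n, h4, h5, h6⟩ := ((h3.eventually_gt_atTop (S.D.g K)).and
    ((h2.eventually hb2).and (eventually_ge_atTop 12))).exists
  have hex : ∃ j, 2 ^ n ≤ S.D.g j := ⟨2 ^ n, S.D.g_mono.le_apply⟩
  have j1 := Nat.find_spec hex
  set j := Nat.find hex with hj
  have hKj : K < j := by
    by_contra hc
    push Not at hc
    have := S.D.g_mono.monotone hc
    omega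
  obtain ⟨i, hi⟩ : ∃ i, j = i + 1 := ⟨j - 1, by omega⟩
  have h7 : S.D.g i < 2 ^ n := by
    have := Nat.find_min hex (m := i) (by omega)
    omega
  refine ⟨j, hKj.le, n, j1, ?_⟩
  have h8 : (S.m i : ℝ) ≤ S.lam i ^ 2 := S.hMb _
  have h9 : S.lam i ≤ 3 * (n + 1) := by
    have h10 : S.lam i ≤ Real.log (Pool.Agent.H521.G.phi (fZ Z) x₀ ((2 : ℝ) ^ (n + 1))) := by
      refine Real.log_le_log (S.a_pos i) (S.hR.phi_mono ?_)
      have h5 : S.D.g i ≤ 2 ^ (n + 1) := by rw [pow_succ]; omega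
      exact_mod_cast h5
    refine h10.trans (h5.trans ?_)
    rw [Real.log_pow]
    have h7 : Real.log 2 ≤ 1 := by
      have := Real.log_le_sub_one_of_pos (two_pos : (0 : ℝ) < 2)
      linarith
    push_cast
    have h8 : (0 : ℝ) ≤ (n : ℝ) + 1 := by positivity
    nlinarith
  have h10 : (S.m i : ℝ) ≤ 9 * ((n : ℝ) + 1) ^ 2 := by
    refine h8.trans ?_
    calc S.lam i ^ 2 ≤ (3 * ((n : ℝ) + 1)) ^ 2 :=
          pow_le_pow_left₀ (by linarith [S.two_le_lam i]) h9 2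
      _ = _ := by ring
  have h11 : S.m i ≤ 9 * (n + 1) ^ 2 := by exact_mod_cast h10
  have h12 : 9 * (n + 1) ^ 2 + 1 ≤ n ^ 4 := by
    have h13 : 144 ≤ n ^ 2 := by nlinarith
    have h14 : n ^ 4 = n ^ 2 * n ^ 2 := by ring
    nlinarith
  rw [hi, S.g_succ]
  omega

/-- the upper bound for the limsup -/
theorem ls_up {t : ℝ} (ht0 : 0 ≤ t) (ht : ∀ ε : ℝ, 0 < ε → ∀ᶠ u in atTop, S.tau u ≤ t + ε) {ε : ℝ}
    (hε : 0 < ε) : ∀ᶠ k in atTop, S.rat k ≤ t + ε := by
  obtain ⟨e, he0, he2⟩ : ∃ e : ℝ, 0 < e ∧ (1 + e) * (t + ε / 2) + e ≤ t + ε := by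
    refine ⟨(ε / 2) / (t + ε / 2 + 1), by positivity, ?_⟩
    have e1 : (1 + (ε / 2) / (t + ε / 2 + 1)) * (t + ε / 2) + (ε / 2) / (t + ε / 2 + 1) =
        t + ε / 2 + ε / 2 := by
      field_simp
      ring
    rw [e1]
    linarith
  have h1 := S.g_tendsto.eventually (ht (ε / 2) (by positivity))
  have h2 := (tendsto_add_atTop_nat 1).eventually h1
  obtain ⟨N, hN⟩ := eventually_atTop.1 ((S.ratl_up he0).and (h1.and h2))
  filter_upwards [eventually_ge_atTop (S.D.g N)] with k hk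
  obtain ⟨j, l, hl, rfl, hjN⟩ := S.exists_blk N k hk
  obtain ⟨k1, k2, k3⟩ := hN j hjN
  exact (k1 l hl _ (by positivity) k2 k3).trans he2

/-- the lower bound for the limsup -/
theorem ls_lo {b b' : ℝ} (hb : b < b') (hb' : 0 < b') (ht : ∀ᶠ u in atTop, DyB u → b' ≤ S.tau u) :
    ∃ᶠ k in atTop, b ≤ S.rat k := by
  obtain ⟨e, he0, he1, he2⟩ : ∃ e : ℝ, 0 < e ∧ e ≤ 1 ∧ b ≤ (1 - e) * b' := by
    refine ⟨min 1 ((b' - b) / b'), by have := sub_pos.2 hb; positivity, min_le_left _ _, ?_⟩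
    have h1 : min 1 ((b' - b) / b') * b' ≤ b' - b := by
      have := mul_le_mul_of_nonneg_right (min_le_right 1 ((b' - b) / b')) hb'.le
      rwa [div_mul_cancel₀ _ hb'.ne'] at this
    nlinarith
  rw [frequently_atTop]
  intro K
  obtain ⟨j, hj1, hj2, hj3, hj4⟩ := (S.dyB_freq.and_eventually ((S.ratl_lo he0 he1).and
    ((S.g_tendsto.eventually ht).and (S.g_tendsto.eventually_ge_atTop K)))).exists
  obtain ⟨l, -, hl⟩ := hj2
  refine ⟨S.D.g j + l, by omega, he2.trans (le_trans ?_ hl)⟩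
  exact mul_le_mul_of_nonneg_left (hj3 hj1) (by linarith)

end T12

/-- **Existence.** -/
theorem t12_suff {Z : Multiset ℂ} (hZ : ∀ ρ ∈ Z, ρ.re < 1) (hZc : Z.map conj = Z)
    {γ : ℕ → ℝ} (hγ : ∀ n, 0 ≤ γ n)
    (hcond : ∀ K ε : ℝ, 0 < K → 0 < ε → ∀ᶠ N : ℕ in atTop,
      (∑ n ∈ Finset.range N, min (γ n) K) / N ≤ 1 + ε)
    {g : ℝ → ℝ} (hg : MonotoneOn g (Ioi 0)) (hg0 : ∀ c, 0 < c → 0 ≤ g c) (hg1 : ∀ c, 0 < c → g c ≤ 1)
    {c₀ : ℝ≥0∞} (hc₀ : ∀ c : ℝ, 0 < c → c₀ < ENNReal.ofReal c → g c = 1)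
    {ω : ℝ → ℝ} (hω : Tendsto ω atTop atTop) :
    ∃ p : ℕ → ℝ, Sys Z p ∧
      (∀ (k : ℕ) (φ : (Fin k → ℝ) → ℝ) (B : ℝ), (∀ x, |φ x| ≤ B) → ∀ L : ℝ≥0, LipschitzWith L φ →
        ∀ l : ℝ, Tendsto (fun N : ℕ => (∑ n ∈ Finset.range N, φ (fun i => γ (n + i))) / N)
          atTop (𝓝 l) →
        Tendsto (fun N : ℕ => (∑ n ∈ Finset.range N,
          φ (fun i => (p (n + i + 1) - p (n + i)) / Real.log (p (n + i)))) / N) atTop (𝓝 l)) ∧
      (∀ c : ℝ, 0 < c → ContinuousAt g c →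
        Tendsto (fun x : ℝ => Real.log (1 + (bigG p c x).ncard) / Real.log x) atTop (𝓝 (1 - g c))) ∧
      crC p = c₀ ∧
      ∀ᶠ x in atTop, |(countPr p x : ℝ) - mainTerm Z x| ≤ ω x * Real.log x := by
  obtain ⟨x₀, hR, h8⟩ := exists_RDens8 hZ
  obtain ⟨v, hv0, hv⟩ := exists_dense_pos
  obtain ⟨D, st, hst, hslow, hGB, hC1, hMb⟩ := tq12_exists hR h8 hγ hcond hω
    (V := chV v c₀) (fun i hi t ht => chV_bd hi ht) (χ := chi g v c₀) (fun i u _ => chi_mem g v c₀ i u)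
  obtain ⟨y, r, h1, h2, h3, h4, h5, h6, h7, h8⟩ := D.system hR hZ hZc rfl
  let S : T12 Z x₀ γ (fun _ => 0) ω := ⟨hZ, hR, fun u => chi g v c₀ (st u) u, D, st,
    fun u hu => (chV_bd hu (chi_mem g v c₀ _ _)).1, fun u hu => (chV_bd hu (chi_mem g v c₀ _ _)).2,
    hst, hslow, hGB, hC1, hMb, y, r, h1, h2, h3, h5, h6, h7, h8⟩
  have hτ : ∀ u, S.tau u = chi g v c₀ (st u) u := fun u => rfl
  have hstR : Tendsto (fun u => (st u : ℝ)) atTop atTop := tendsto_natCast_atTop_atTop.comp hst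
  have hinv : ∀ ε : ℝ, 0 < ε → ∀ᶠ u in atTop, 1 / (st u : ℝ) < ε := by
    intro ε hε
    filter_upwards [hstR.eventually_gt_atTop (1 / ε), hstR.eventually_gt_atTop 0] with u h1 h2
    rw [div_lt_iff₀ hε] at h1
    rw [div_lt_iff₀ h2]
    linarith
  refine ⟨S.p, h4, fun k φ B hB L hL l hl => S.stats hB hL hl, ?_, ?_, S.error hω⟩
  · -- the number of large gaps
    intro c hc hcont
    apply log_lim (by linarith [hg1 c hc])
    · intro ε hε
      obtain ⟨δ, hδ, hδ2⟩ := Metric.continuousAt_iff.1 hcont ε hε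
      obtain ⟨c', hc'0, hc'1, hc'2⟩ : ∃ c', 0 < c' ∧ c' < c ∧ c - c' < δ := by
        refine ⟨max (c / 2) (c - δ / 2), lt_of_lt_of_le (by positivity) (le_max_left _ _),
          max_lt (by linarith) (by linarith), ?_⟩
        have := le_max_right (c / 2) (c - δ / 2)
        linarith
      have h9 : |g c' - g c| < ε := by
        have := hδ2 (x := c') (by rw [Real.dist_eq, abs_sub_comm, abs_of_pos (by linarith)]; exact hc'2)
        rwa [Real.dist_eq] at this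
      have h10 : ∀ᶠ u in atTop, c' < S.tau u → DyA (g c') u ∨ DyB u := by
        filter_upwards [hinv c' hc'0] with u hu1 hu2
        rw [hτ] at hu2
        rcases chi_cases g v c₀ (st u) u with h | ⟨h, -⟩ | ⟨q, -, -, hq3, -, hq5⟩
        · rw [h] at hu2
          linarith
        · exact Or.inr h
        · rw [hq5] at hu2
          exact Or.inl (dyA_anti (hg hc'0 (hv0 q) hu2.le) hq3)
      obtain ⟨C, hC⟩ := S.cnt_up hc'0 hc'1 (hg0 c' hc'0) (hg1 c' hc'0) h10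
      refine ⟨|C|, 7, ?_⟩
      filter_upwards [hC, eventually_ge_atTop 1] with x hx hx1
      refine hx.trans ?_
      have hl : 0 ≤ Real.log x ^ (7 : ℝ) := Real.rpow_nonneg (Real.log_nonneg hx1) _
      have hx2 : x ^ (1 - g c') ≤ x ^ (1 - g c + ε) := by
        apply Real.rpow_le_rpow_of_exponent_le hx1
        have := (abs_lt.1 h9).1
        linarith
      have hx3 : 0 ≤ x ^ (1 - g c') := Real.rpow_nonneg (by linarith) _
      calc C * Real.log x ^ (7 : ℝ) * (x ^ (1 - g c') + 1)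
          ≤ |C| * Real.log x ^ (7 : ℝ) * (x ^ (1 - g c') + 1) :=
            mul_le_mul_of_nonneg_right (mul_le_mul_of_nonneg_right (le_abs_self C) hl) (by linarith)
        _ ≤ |C| * Real.log x ^ (7 : ℝ) * (x ^ (1 - g c + ε) + 1) :=
            mul_le_mul_of_nonneg_left (by linarith) (mul_nonneg (abs_nonneg _) hl)
    · intro hs ε hε hεs
      obtain ⟨δ, hδ, hδ2⟩ := Metric.continuousAt_iff.1 hcont (ε / 2) (by positivity)
      obtain ⟨q, hq1, hq2⟩ := hv c (c + δ) hc.le (by linarith)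
      have h9 : |g (v q) - g c| < ε / 2 := by
        have := hδ2 (x := v q) (by rw [Real.dist_eq, abs_of_pos (by linarith)]; linarith)
        rwa [Real.dist_eq] at this
      have h9' := (abs_lt.1 h9).2
      have h10 : ∀ᶠ u in atTop, DyA (g (v q)) u → v q ≤ S.tau u := by
        filter_upwards [hst.eventually_gt_atTop q, hinv (v q) (hv0 q),
          hstR.eventually_ge_atTop (v q)] with u hu1 hu2 hu3 hu4
        rw [hτ]
        exact chi_A hu1 (by linarith) hu4 hu2.le hu3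
      have h11 := S.cnt_lo hc hq1 (hg0 _ (hv0 q)) (by linarith) h10 (half_pos hε) (by linarith)
      filter_upwards [h11, eventually_ge_atTop 1] with x hx hx1
      refine le_trans ?_ hx
      apply Real.rpow_le_rpow_of_exponent_le hx1
      linarith
  · -- the limsup
    apply le_antisymm
    · by_cases hc : c₀ = ∞
      · rw [hc]; exact le_top
      · apply ENNReal.le_of_forall_pos_le_add
        intro ε hε _
        have hε' : (0 : ℝ) < ε := by exact_mod_cast hε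
        have h9 := S.ls_up (t := c₀.toReal) ENNReal.toReal_nonneg (fun e he => by
          filter_upwards [hinv e he, hst.eventually (tauC_up hc he)] with u hu1 hu2
          rw [hτ]
          rcases chi_cases g v c₀ (st u) u with h | ⟨-, h⟩ | ⟨q, -, hq2, -, -, hq5⟩
          · rw [h]
            have := @ENNReal.toReal_nonneg c₀
            linarith
          · rw [h]
            exact hu2
          · rw [hq5]
            have h10 : ENNReal.ofReal (v q) ≤ c₀ := by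
              by_contra hcc
              push Not at hcc
              have := hc₀ _ (hv0 q) hcc
              linarith
            have h11 : v q ≤ c₀.toReal := by
              have := ENNReal.toReal_mono hc h10
              rwa [ENNReal.toReal_ofReal (hv0 q).le] at this
            linarith) hε'
        apply limsup_le_of_le (by isBoundedDefault)
        filter_upwards [h9] with k hk
        refine (ENNReal.ofReal_le_ofReal hk).trans ?_
        rw [ENNReal.ofReal_add ENNReal.toReal_nonneg hε'.le, ENNReal.ofReal_toReal hc,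
          ENNReal.ofReal_coe_nnreal]
    · apply le_of_forall_lt
      intro d hd
      obtain ⟨q, hq1, hq2⟩ := ENNReal.lt_iff_exists_nnreal_btwn.1 hd
      have hq3 : ENNReal.ofReal (q : ℝ) < c₀ := by rwa [ENNReal.ofReal_coe_nnreal]
      obtain ⟨b', hb1, hb2, hb3⟩ := tauC_lo hq3
      have h9 := S.ls_lo hb1 hb2 (by
        filter_upwards [hst.eventually hb3] with u hu1 hu2
        rw [hτ]
        exact hu1.trans (chi_B hu2))
      refine lt_of_lt_of_le hq1 ?_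
      apply le_limsup_of_frequently_le _ (by isBoundedDefault)
      refine h9.mono fun k hk => ?_
      have := ENNReal.ofReal_le_ofReal hk
      rwa [ENNReal.ofReal_coe_nnreal] at this

end Pool.Agent.H521.G
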