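import Pool.Agent.H521.G.T4Qd
import Pool.Agent.H521.G.PrimAsymp
import Pool.Agent.H521.G.PnAsymp
import Pool.Agent.H521.G.Necess
import Pool.Agent.H521.G.LimSet
import Pool.Agent.H521.G.Sel2

open MeasureTheory Set Filter Topology
open scoped ENNReal NNReal ComplexConjugate Classical

namespace Pool.Agent.H521.G

/-- `p_n ~ n log n` and `p_{n+1} ~ p_n`. -/
theorem pnt_asymp {Z : Multiset ℂ} (hZ : ∀ ρ ∈ Z, ρ.re < 1) {p : ℕ → ℝ} (hp : StrictMono p)
    (hpt : Tendsto p atTop atTop)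
    (hpnt : ∀ ε : ℝ, 0 < ε → ∃ C : ℝ, ∀ x : ℝ, 2 ≤ x →
        |(countPr p x : ℝ) - mainTerm Z x| ≤ C * x ^ (1 / 2 + ε)) :
    Tendsto (fun n : ℕ => p n / (n * Real.log n)) atTop (𝓝 1) ∧
      Tendsto (fun n : ℕ => p (n + 1) / p n) atTop (𝓝 1) := by
  obtain ⟨x₀, hR⟩ := exists_RDens hZ
  have hx3 := hR.dens.hx₀
  have h1 := F_div_n hZ hR hp hpt hpnt
  have h2 := (prim_asymp (by linarith : 1 < x₀) ((continuousOn_fZ Z).mono fun u hu => by
    have : x₀ ≤ u := hu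
    change (1 : ℝ) < u
    linarith) (tendsto_fZ_log hZ)).comp hpt
  apply pn_asymp hpt
  have h3 := h1.mul h2
  rw [one_mul] at h3
  refine h3.congr' ?_
  filter_upwards [hpt.eventually_gt_atTop x₀] with n hn
  have h4 : 0 < Fp (fZ Z) x₀ (p n) := by
    have := hR.F_strict le_rfl hn
    rwa [hR.F_zero] at this
  have h5 : 0 < p n := by linarith
  simp only [Function.comp]
  change (n : ℝ) / Fp (fZ Z) x₀ (p n) * (Fp (fZ Z) x₀ (p n) * Real.log (p n) / p n) = _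
  field_simp

theorem exists_cont_btw {R : ℝ → ℝ} (hR : AntitoneOn R (Ioi 0)) {a c : ℝ} (ha : 0 ≤ a)
    (hc : a < c) : ∃ b, a < b ∧ b < c ∧ ContinuousAt R b := by
  have h1 := hR.countable_not_continuousWithinAt
  by_contra hcon
  push Not at hcon
  have h2 : Ioo a c ⊆ {x | x ∈ Ioi (0 : ℝ) ∧ ¬ContinuousWithinAt R (Ioi 0) x} := by
    intro b hb
    have hb0 : 0 < b := lt_of_le_of_lt ha hb.1
    refine ⟨hb0, fun h => hcon b hb.1 hb.2 (h.continuousAt (Ioi_mem_nhds hb0))⟩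
  have h3 := (h1.mono h2).measure_zero volume
  rw [Real.volume_Ioo, ENNReal.ofReal_eq_zero] at h3
  linarith

/-- No mass above the Cramér constant. -/
theorem t4_nec2 {Z : Multiset ℂ} (hZ : ∀ ρ ∈ Z, ρ.re < 1) {p : ℕ → ℝ} (hS : SysW Z p)
    {R : ℝ → ℝ} (hRa : AntitoneOn R (Ioi 0)) (hR0 : ∀ c, 0 < c → 0 ≤ R c)
    (hmass : ∀ b : ℝ, 0 < b → ContinuousAt R b →
        Tendsto (fun x : ℝ => (∑' k, if p k ≤ x ∧ b * Real.log (p k) ^ 2 ≤ p (k + 1) - p k
          then p (k + 1) - p k else 0) / x) atTop (𝓝 (R b)))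
    {c : ℝ} (hc : 0 < c) (h : crC p < ENNReal.ofReal c) : R c = 0 := by
  have hp1 : ∀ n, 1 < p n := fun n => hS.one_lt.trans_le (hS.mono.monotone (Nat.zero_le n))
  obtain ⟨-, h2⟩ := pnt_asymp hZ hS.mono hS.tendsto hS.pnt
  have hne : crC p ≠ ∞ := ne_top_of_lt h
  have h1 : (crC p).toReal < c := by
    rw [← ENNReal.ofReal_toReal hne] at h
    exact (ENNReal.ofReal_lt_ofReal_iff hc).1 h
  obtain ⟨b, hb1, hb2, hb3⟩ := exists_cont_btw hRa ENNReal.toReal_nonneg h1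
  have hb0 : 0 < b := lt_of_le_of_lt ENNReal.toReal_nonneg hb1
  have h3 : crC p < ENNReal.ofReal b := by
    rw [← ENNReal.ofReal_toReal hne]
    exact (ENNReal.ofReal_lt_ofReal_iff hb0).2 hb1
  have h4 : ∀ᶠ k in atTop, ENNReal.ofReal ((p (k + 1) - p k) / Real.log (p k) ^ 2) <
      ENNReal.ofReal b := eventually_lt_of_limsup_lt h3 (by isBoundedDefault)
  obtain ⟨N, hN⟩ := eventually_atTop.1 h4
  have h5 : ∀ k, N ≤ k → ¬ (b * Real.log (p k) ^ 2 ≤ p (k + 1) - p k) := by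
    intro k hk hc'
    have h6 := hN k hk
    have h7 := (ENNReal.ofReal_lt_ofReal_iff hb0).1 h6
    have h8 : 0 < Real.log (p k) := Real.log_pos (hp1 k)
    rw [div_lt_iff₀ (by positivity)] at h7
    linarith
  have h6 := tsum_transfer' (Q := fun k => b * Real.log (p k) ^ 2 ≤ p (k + 1) - p k) hS.mono
    (by linarith [hp1 0]) hS.tendsto h2 (hmass b hb0 hb3)
  have hterm : ∀ k, 0 ≤ (if b * Real.log (p k) ^ 2 ≤ p (k + 1) - p k then p (k + 1) - p k else 0) := by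
    intro k
    split_ifs
    · exact sub_nonneg.2 (hS.mono (Nat.lt_succ_self k)).le
    · exact le_rfl
  set C := ∑ k ∈ Finset.range N, (if b * Real.log (p k) ^ 2 ≤ p (k + 1) - p k
    then p (k + 1) - p k else 0) with hC
  have h7 : ∀ n, (∑ k ∈ Finset.range n, if b * Real.log (p k) ^ 2 ≤ p (k + 1) - p k
      then p (k + 1) - p k else 0) ≤ C := by
    intro n
    rcases le_total n N with hn | hn
    · exact Finset.sum_le_sum_of_subset_of_nonneg (Finset.range_subset_range.2 hn)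
        fun k _ _ => hterm k
    · obtain ⟨d, rfl⟩ := Nat.exists_eq_add_of_le hn
      rw [Finset.sum_range_add, hC, Finset.sum_eq_zero (s := Finset.range d) fun k _ =>
        if_neg (h5 (N + k) (Nat.le_add_right _ _)), add_zero]
  have h8 : Tendsto (fun n => C / p n) atTop (𝓝 0) := hS.tendsto.const_div_atTop C
  have h9 : Tendsto (fun n => (∑ k ∈ Finset.range n, if b * Real.log (p k) ^ 2 ≤ p (k + 1) - p k
      then p (k + 1) - p k else 0) / p n) atTop (𝓝 0) := by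
    refine squeeze_zero (fun n => ?_) (fun n => ?_) h8
    · exact div_nonneg (Finset.sum_nonneg fun k _ => hterm k) (by linarith [hp1 n])
    · exact div_le_div_of_nonneg_right (h7 n) (by linarith [hp1 n])
  have h10 : R b = 0 := tendsto_nhds_unique h6 h9
  exact le_antisymm (h10 ▸ hRa hb0 hc hb2.le) (hR0 c hc)

/-- **Necessity.** -/
theorem t4_nec {Z : Multiset ℂ} (hZ : ∀ ρ ∈ Z, ρ.re < 1) {p : ℕ → ℝ} (hS : SysW Z p)
    {γ : ℕ → ℝ} (hγ : ∀ n, 0 ≤ γ n)
    (hγs : ∀ φ : (Fin 1 → ℝ) → ℝ, (∃ B, ∀ x, |φ x| ≤ B) → (∃ L, LipschitzWith L φ) →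
      ∃ l, Tendsto (fun N : ℕ => (∑ n ∈ Finset.range N, φ (fun i => γ (n + i))) / N) atTop (𝓝 l))
    {R : ℝ → ℝ} (hRa : AntitoneOn R (Ioi 0))
    (hstat : ∀ φ : (Fin 1 → ℝ) → ℝ, (∃ B, ∀ x, |φ x| ≤ B) → (∃ L, LipschitzWith L φ) → ∀ l : ℝ,
      Tendsto (fun N : ℕ => (∑ n ∈ Finset.range N, φ (fun i => γ (n + i))) / N) atTop (𝓝 l) →
      Tendsto (fun N : ℕ => (∑ n ∈ Finset.range N,
          φ (fun i => (p (n + i + 1) - p (n + i)) / Real.log (p (n + i)))) / N) atTop (𝓝 l))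
    (hmass : ∀ b : ℝ, 0 < b → ContinuousAt R b →
        Tendsto (fun x : ℝ => (∑' k, if p k ≤ x ∧ b * Real.log (p k) ^ 2 ≤ p (k + 1) - p k
          then p (k + 1) - p k else 0) / x) atTop (𝓝 (R b))) :
    ∀ c K ε : ℝ, 0 < c → 0 < K → 0 < ε → ∀ᶠ N : ℕ in atTop,
      (∑ n ∈ Finset.range N, min (γ n) K) / N + R c ≤ 1 + ε := by
  intro c K ε hc hK hε
  obtain ⟨b, hb0, hbc, hb⟩ := exists_cont_btw hRa le_rfl hc
  have hRb : R c ≤ R b := hRa hb0 hc hbc.le
  obtain ⟨h1, h2⟩ := pnt_asymp hZ hS.mono hS.tendsto hS.pnt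
  set φ : (Fin 1 → ℝ) → ℝ := fun x => max 0 (min (x 0) K) with hφ
  have hφB : ∃ B, ∀ x, |φ x| ≤ B := ⟨K, fun x => by
    rw [hφ, abs_of_nonneg (le_max_left _ _)]
    exact max_le hK.le (min_le_right _ _)⟩
  have hφL : ∃ L, LipschitzWith L φ := by
    refine ⟨1, LipschitzWith.of_dist_le_mul fun x y => ?_⟩
    rw [NNReal.coe_one, one_mul, Real.dist_eq]
    have h3 : |φ x - φ y| ≤ |x 0 - y 0| := by
      rw [hφ]
      exact (abs_max_sub_max_le_max _ _ _ _).trans (by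
        rw [sub_self, abs_zero]
        apply max_le (abs_nonneg _)
        refine (abs_min_sub_min_le_max _ _ _ _).trans ?_
        rw [sub_self, abs_zero]
        exact max_le le_rfl (abs_nonneg _))
    refine h3.trans ?_
    rw [← Real.dist_eq]
    exact dist_le_pi_dist x y 0
  obtain ⟨μ, hμ⟩ := hγs φ hφB hφL
  have h3 := hstat φ hφB hφL μ hμ
  have hp1 : ∀ n, 1 < p n := fun n => hS.one_lt.trans_le (hS.mono.monotone (Nat.zero_le n))
  have h4 : Tendsto (fun N : ℕ => (∑ n ∈ Finset.range N,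
      min ((p (n + 1) - p n) / Real.log (p n)) K) / N) atTop (𝓝 μ) := by
    refine h3.congr fun N => ?_
    congr 1
    apply Finset.sum_congr rfl
    intro n _
    rw [hφ]
    have e : n + ((0 : Fin 1) : ℕ) = n := by simp
    simp only [e]
    rw [max_eq_right]
    apply le_min _ hK.le
    exact div_nonneg (sub_nonneg.2 (hS.mono (Nat.lt_succ_self n)).le) (Real.log_pos (hp1 n)).le
  have h5 := tsum_transfer' (Q := fun k => b * Real.log (p k) ^ 2 ≤ p (k + 1) - p k) hS.mono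
    (by linarith [hp1 0]) hS.tendsto h2 (hmass b hb0 hb)
  have h6 := mass_conservation hS.mono hS.one_lt hS.tendsto h1 hK hb0 h4 h5
  have h7 : Tendsto (fun N : ℕ => (∑ n ∈ Finset.range N, min (γ n) K) / N) atTop (𝓝 μ) := by
    refine hμ.congr fun N => ?_
    congr 1
    apply Finset.sum_congr rfl
    intro n _
    rw [hφ]
    have e : n + ((0 : Fin 1) : ℕ) = n := by simp
    simp only [e]
    rw [max_eq_right]
    exact le_min (hγ n) hK.le
  filter_upwards [h7.eventually_le_const (by linarith : μ < μ + ε)] with N hN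
  linarith

end Pool.Agent.H521.G
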