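import Pool.Agent.H521.G.T12f
import Pool.Agent.H521.G.T4Qe

open MeasureTheory Set Filter Topology
open scoped ENNReal NNReal ComplexConjugate Classical

namespace Pool.Agent.H521.G

/-- **Necessity.** -/
theorem t12_nec {p : ℕ → ℝ} (hp : StrictMono p) (hp0 : 1 < p 0) {g : ℝ → ℝ}
    (hg : MonotoneOn g (Ioi 0)) (hg1 : ∀ c, 0 < c → g c ≤ 1)
    (hlim : ∀ c : ℝ, 0 < c → ContinuousAt g c →
        Tendsto (fun x : ℝ => Real.log (1 + (bigG p c x).ncard) / Real.log x) atTop (𝓝 (1 - g c)))
    {c : ℝ} (hc : 0 < c) (h : crC p < ENNReal.ofReal c) : g c = 1 := by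
  have hp1 : ∀ n, 1 < p n := fun n => hp0.trans_le (hp.monotone (Nat.zero_le n))
  have hne : crC p ≠ ∞ := ne_top_of_lt h
  have h1 : (crC p).toReal < c := by
    rw [← ENNReal.ofReal_toReal hne] at h
    exact (ENNReal.ofReal_lt_ofReal_iff hc).1 h
  have hR : AntitoneOn (fun c => 1 - g c) (Ioi 0) := fun a ha b hb hab => by
    have := hg ha hb hab
    simp only
    linarith
  obtain ⟨b, hb1, hb2, hb3⟩ := exists_cont_btw hR ENNReal.toReal_nonneg h1
  have hb0 : 0 < b := lt_of_le_of_lt ENNReal.toReal_nonneg hb1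
  have hbc : ContinuousAt g b := by
    have h2 : g = fun c => 1 - (1 - g c) := by
      funext c
      ring
    rw [h2]
    exact continuousAt_const.sub hb3
  have h3 : crC p < ENNReal.ofReal b := by
    rw [← ENNReal.ofReal_toReal hne]
    exact (ENNReal.ofReal_lt_ofReal_iff hb0).2 hb1
  have h4 : ∀ᶠ k in atTop, ENNReal.ofReal ((p (k + 1) - p k) / Real.log (p k) ^ 2) <
      ENNReal.ofReal b := eventually_lt_of_limsup_lt h3 (by isBoundedDefault)
  obtain ⟨N, hN⟩ := eventually_atTop.1 h4
  have h5 : ∀ x, (bigG p b x).ncard ≤ N := by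
    intro x
    have hsub : bigG p b x ⊆ ((Finset.range N : Finset ℕ) : Set ℕ) := by
      intro n hn
      rw [Finset.coe_range, mem_Iio]
      by_contra hc'
      push Not at hc'
      have h6 := hN n hc'
      have h7 := (ENNReal.ofReal_lt_ofReal_iff hb0).1 h6
      have h8 : 0 < Real.log (p n) := Real.log_pos (hp1 n)
      rw [div_lt_iff₀ (by positivity)] at h7
      have h9 := hn.2
      linarith
    refine (Set.ncard_le_ncard hsub (Finset.finite_toSet _)).trans ?_
    rw [Set.ncard_coe_finset, Finset.card_range]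
  have h6 : Tendsto (fun x : ℝ => Real.log (1 + (bigG p b x).ncard) / Real.log x) atTop (𝓝 0) := by
    have h7 : Tendsto (fun x : ℝ => Real.log (1 + N) / Real.log x) atTop (𝓝 0) :=
      Real.tendsto_log_atTop.const_div_atTop _
    refine tendsto_of_tendsto_of_tendsto_of_le_of_le' tendsto_const_nhds h7 ?_ ?_
    · filter_upwards [eventually_ge_atTop 1] with x hx
      apply div_nonneg _ (Real.log_nonneg hx)
      apply Real.log_nonneg
      have : (0 : ℝ) ≤ ((bigG p b x).ncard : ℝ) := Nat.cast_nonneg _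
      linarith
    · filter_upwards [eventually_ge_atTop 1] with x hx
      apply div_le_div_of_nonneg_right _ (Real.log_nonneg hx)
      have h8 : (0 : ℝ) ≤ ((bigG p b x).ncard : ℝ) := Nat.cast_nonneg _
      apply Real.log_le_log (by linarith)
      have : ((bigG p b x).ncard : ℝ) ≤ N := by exact_mod_cast h5 x
      linarith
  have h7 := tendsto_nhds_unique h6 (hlim b hb0 hbc)
  have h8 := hg hb0 hc hb2.le
  have h9 := hg1 c hc
  linarith

end Pool.Agent.H521.G
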