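import Pool.Agent.H521.G.StageQ

open MeasureTheory Set Filter Topology
open scoped ENNReal NNReal ComplexConjugate Classical

namespace Pool.Agent.H521.G

/-- The properties of a block starting at `u` with stage `i ≥ 6`. -/
structure GB (f : ℝ → ℝ) (x₀ : ℝ) (γ : ℕ → ℝ) (R ω : ℝ → ℝ) (τ : ℝ) (i u m : ℕ) (c : ℕ → ℝ) :
    Prop where
  tm : Tm γ R i τ (lamb f x₀ u) m c
  ge : (i : ℝ) ^ 4 * lamb f x₀ u ≤ m
  phi : phi f x₀ ((u + m + 1 : ℕ) : ℝ) ≤ (1 + 1 / i) * phi f x₀ u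
  om : ∀ x, Pool.Agent.H521.G.phi f x₀ u ≤ x → 4 * ((m : ℝ) + 1) ≤ ω x * Real.log x
  small : i * (m + 1) ≤ u

theorem RDens.mono_x {f : ℝ → ℝ} {x₀ x₁ : ℝ} (hR : RDens f x₀) (h : x₀ ≤ x₁) : RDens f x₁ :=
  ⟨⟨hR.dens.hx₀.trans h, hR.dens.meas, hR.dens.cont.mono (Ici_subset_Ici.2 h),
    fun u hu => hR.dens.nonneg u (h.trans hu), fun u hu => hR.dens.le_one u (h.trans hu)⟩,
    fun u hu => hR.low u (h.trans hu), fun u hu => hR.hlog u (h.trans hu),
    fun u hu => hR.hlog4 u (h.trans hu)⟩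

theorem exists_RDens8 {Z : Multiset ℂ} (hZ : ∀ ρ ∈ Z, ρ.re < 1) :
    ∃ x₀ : ℝ, RDens (fZ Z) x₀ ∧ ∀ u, x₀ ≤ u → 8 * Real.log u ≤ u := by
  obtain ⟨x₀, hR⟩ := exists_RDens hZ
  have h1 : ∀ᶠ u : ℝ in atTop, 8 * Real.log u ≤ u := by
    have := Real.isLittleO_log_id_atTop.bound (c := 1 / 8) (by norm_num)
    filter_upwards [this, eventually_ge_atTop 1] with u hu hu1
    rw [Real.norm_eq_abs, abs_of_nonneg (Real.log_nonneg hu1)] at hu
    have h2 : ‖id u‖ = u := by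
      simp only [id, Real.norm_eq_abs, abs_of_nonneg (by linarith : 0 ≤ u)]
    rw [h2] at hu
    linarith
  obtain ⟨X, hX⟩ := eventually_atTop.1 h1
  exact ⟨max x₀ X, hR.mono_x (le_max_left _ _), fun u hu => hX u ((le_max_right _ _).trans hu)⟩

theorem tq_exists {f : ℝ → ℝ} {x₀ : ℝ} (hR : RDens f x₀)
    (h8 : ∀ u, x₀ ≤ u → 8 * Real.log u ≤ u) {γ : ℕ → ℝ} (hγ : ∀ n, 0 ≤ γ n)
    {R : ℝ → ℝ} (hRa : AntitoneOn R (Ioi 0)) (hR0 : ∀ c, 0 < c → 0 ≤ R c)
    (hcond : ∀ c K ε : ℝ, 0 < c → 0 < K → 0 < ε → ∀ᶠ N : ℕ in atTop,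
      (∑ n ∈ Finset.range N, min (γ n) K) / N + R c ≤ 1 + ε)
    {ω : ℝ → ℝ} (hω : Tendsto ω atTop atTop) {tau : ℕ → ℝ}
    (ht1 : ∀ i : ℕ, 6 ≤ i → 1 / (i : ℝ) ≤ tau i) (ht2 : ∀ i : ℕ, 6 ≤ i → tau i ≤ i)
    (ht3 : ∀ i : ℕ, 6 ≤ i → ∀ c, tau i < c → c ≤ i → R c = 0) :
    ∃ (D : TQ f x₀) (st : ℕ → ℕ), Tendsto st atTop atTop ∧
      (∀ u u', u ≤ u' → u' ≤ 2 * u + 2 → st u' ≤ st u + 1) ∧
      (∀ u, 6 ≤ st u → GB f x₀ γ R ω (tau (st u)) (st u) u (D.M u) (D.C u)) ∧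
      ∀ u, st u < 6 → ∀ l, D.C u l = 1 := by
  obtain ⟨st, hst, hP, hslow⟩ := exists_stage (P := StP f x₀ γ R ω tau)
    (fun u => Or.inl (by norm_num)) (StP_ev hR hγ hRa hR0 hcond hω ht1 ht2 ht3)
  have hex : ∀ u, ∃ c : ℕ → ℝ, (st u < 6 → ∀ l, c l = 1) ∧
      (6 ≤ st u → Tm γ R (st u) (tau (st u)) (lamb f x₀ u) (mst f x₀ (st u) u) c) := by
    intro u
    rcases lt_or_ge (st u) 6 with h | h
    · exact ⟨fun _ => 1, fun _ _ => rfl, fun h' => by omega⟩
    · rcases hP u with h' | ⟨⟨c, hc⟩, -⟩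
      · omega
      · exact ⟨c, fun h' => by omega, fun _ => hc⟩
  choose C hC1 hC2 using hex
  have hl2 := two_le_lamb hR
  have hM2 : ∀ u, 6 ≤ st u → (mst f x₀ (st u) u : ℝ) ≤ lamb f x₀ u ^ 2 := by
    intro u hu
    rcases hP u with h | ⟨-, h, -⟩
    · omega
    · exact h
  have hphi2 : ∀ u, 6 ≤ st u → Pool.Agent.H521.G.phi f x₀ ((u + mst f x₀ (st u) u + 1 : ℕ) : ℝ) ≤
      (1 + 1 / st u) * Pool.Agent.H521.G.phi f x₀ u := by
    intro u hu
    rcases hP u with h | ⟨-, -, h, -⟩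
    · omega
    · exact h
  have hMb : ∀ u, ((if st u < 6 then 1 else mst f x₀ (st u) u : ℕ) : ℝ) ≤ lamb f x₀ u ^ 2 := by
    intro u
    have := hl2 u
    by_cases h : st u < 6
    · rw [if_pos h]
      push_cast
      nlinarith
    · rw [if_neg h]
      exact hM2 u (by omega)
  refine ⟨{ M := fun u => if st u < 6 then 1 else mst f x₀ (st u) u
            C := C
            Mpos := ?_
            Cpos := ?_
            Csum := ?_
            hS := ?_
            two := ?_ }, st, hst, hslow, ?_, hC1⟩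
  · intro u
    by_cases h : st u < 6
    · rw [if_pos h]; exact one_pos
    · rw [if_neg h]
      apply Nat.ceil_pos.2
      have h1 : (0 : ℝ) < st u := by exact_mod_cast (by omega : 0 < st u)
      have := hl2 u
      positivity
  · intro u l
    by_cases h : st u < 6
    · rw [hC1 u h]; exact one_pos
    · exact (hC2 u (by omega)).pos l
  · intro u
    by_cases h : st u < 6
    · simp only [if_pos h]
      rw [Finset.sum_range_one, hC1 u h]
      simp
    · simp only [if_neg h]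
      exact (hC2 u (by omega)).sum
  · intro σ hσ
    set δ : ℝ := σ - 1 / 2 with hδ
    have hδ0 : 0 < δ := by rw [hδ]; linarith
    have h1 := (summable_add_one_rpow (p := -(1 + δ)) (by linarith)).mul_left ((4 / δ) ^ 4)
    refine Summable.of_nonneg_of_le (fun n => sq_nonneg _) (fun n => ?_) h1
    have hp := hR.phi_pos (n : ℝ)
    set φ := Pool.Agent.H521.G.phi f x₀ n with hφ
    have h2 : lamb f x₀ n ≤ 4 / δ * φ ^ (δ / 4) := by
      have := Real.log_le_rpow_div hp.le (by positivity : (0 : ℝ) < δ / 4)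
      have e : 4 / δ * φ ^ (δ / 4) = φ ^ (δ / 4) / (δ / 4) := by field_simp
      rw [e]
      exact this
    have h3 := hMb n
    have hl0 : 0 ≤ lamb f x₀ n := by linarith [hl2 n]
    have h4 : lamb f x₀ n ^ 4 ≤ (4 / δ) ^ 4 * φ ^ δ := by
      have h5 := pow_le_pow_left₀ hl0 h2 4
      rw [mul_pow, ← Real.rpow_natCast (φ ^ (δ / 4)) 4, ← Real.rpow_mul hp.le] at h5
      have e : δ / 4 * ((4 : ℕ) : ℝ) = δ := by push_cast; ring
      rwa [e] at h5
    have h5 : ((((if st n < 6 then 1 else mst f x₀ (st n) n : ℕ) : ℝ)) * φ ^ (-σ)) ^ 2 ≤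
        lamb f x₀ n ^ 4 * φ ^ (-(2 * σ)) := by
      have e : φ ^ (-(2 * σ)) = (φ ^ (-σ)) ^ 2 := by
        rw [← Real.rpow_natCast (φ ^ (-σ)) 2, ← Real.rpow_mul hp.le]
        congr 1
        push_cast
        ring
      rw [mul_pow, e]
      apply mul_le_mul_of_nonneg_right _ (sq_nonneg _)
      have h6 : (0 : ℝ) ≤ ((if st n < 6 then 1 else mst f x₀ (st n) n : ℕ) : ℝ) := Nat.cast_nonneg _
      nlinarith
    refine h5.trans ?_
    have h6 : φ ^ δ * φ ^ (-(2 * σ)) = φ ^ (-(1 + δ)) := by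
      rw [← Real.rpow_add hp]
      congr 1
      rw [hδ]; ring
    calc lamb f x₀ n ^ 4 * φ ^ (-(2 * σ)) ≤ ((4 / δ) ^ 4 * φ ^ δ) * φ ^ (-(2 * σ)) :=
          mul_le_mul_of_nonneg_right h4 (Real.rpow_nonneg hp.le _)
      _ = (4 / δ) ^ 4 * φ ^ (-(1 + δ)) := by rw [mul_assoc, h6]
      _ ≤ (4 / δ) ^ 4 * ((n : ℝ) + 1) ^ (-(1 + δ)) := by
          apply mul_le_mul_of_nonneg_left _ (by positivity)
          exact Real.rpow_le_rpow_of_nonpos (by positivity) (phi_ge_succ hR (le_refl (n : ℝ)))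
            (by linarith)
  · intro u
    by_cases h : st u < 6
    · simp only [if_pos h]
      have h1 := phi_block hR (Nat.cast_nonneg u) (N := 1) (by norm_num) (by
        linarith [hR.phi_eight_le (u : ℝ)])
      have h2 := h8 _ (hR.phi_ge (u : ℝ))
      have e : (u : ℝ) + 2 * 1 = ((u + 1 + 1 : ℕ) : ℝ) := by push_cast; ring
      rw [e] at h1
      linarith
    · simp only [if_neg h]
      have h1 := hphi2 u (by omega)
      have h2 : (1 : ℝ) / st u ≤ 1 := by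
        have : (1 : ℝ) ≤ st u := by exact_mod_cast (by omega : 1 ≤ st u)
        rw [div_le_one (by linarith)]
        exact this
      have h3 := hR.phi_pos (u : ℝ)
      nlinarith
  · intro u hu
    have h : ¬ st u < 6 := by omega
    rcases hP u with h' | ⟨-, -, h3, h4, h5⟩
    · omega
    · have e : (if st u < 6 then 1 else mst f x₀ (st u) u) = mst f x₀ (st u) u := if_neg h
      exact ⟨by simp only [e]; exact hC2 u hu, by simp only [e]; exact mst_ge _ _,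
        by simp only [e]; exact h3, by simp only [e]; exact h4, by simp only [e]; exact h5⟩

end Pool.Agent.H521.G
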