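import Pool.Agent.H521.G.T4Qa
import Pool.Agent.H521.G.StatTransfer2
import Pool.Agent.H521.G.StatHyp
import Pool.Agent.H521.G.TsumTransfer
import Pool.Agent.H521.G.MassUp
import Pool.Agent.H521.G.MassLo
import Pool.Agent.H521.G.Maier4

open MeasureTheory Set Filter Topology
open scoped ENNReal NNReal ComplexConjugate Classical

namespace Pool.Agent.H521.G

/-- The data of the construction. -/
structure T4 (Z : Multiset ℂ) (x₀ : ℝ) (γ : ℕ → ℝ) (R ω : ℝ → ℝ) where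
  hZ : ∀ ρ ∈ Z, ρ.re < 1
  hR : RDens (fZ Z) x₀
  tau : ℕ → ℝ
  ht1 : ∀ i : ℕ, 6 ≤ i → 1 / (i : ℝ) ≤ tau i
  ht2 : ∀ i : ℕ, 6 ≤ i → tau i ≤ i
  D : TQ (fZ Z) x₀
  st : ℕ → ℕ
  hst : Tendsto st atTop atTop
  hslow : ∀ u u', u ≤ u' → u' ≤ 2 * u + 2 → st u' ≤ st u + 1
  hGB : ∀ u, 6 ≤ st u → GB (fZ Z) x₀ γ R ω (tau (st u)) (st u) u (D.M u) (D.C u)
  hC1 : ∀ u, st u < 6 → ∀ l, D.C u l = 1
  y : ℕ → ℝ
  r : ℕ → ℕ
  ymono : StrictMono y
  y0 : ∀ k, 0 ≤ y k
  ytend : Tendsto y atTop atTop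
  yloc : ∀ j l, l < D.M (D.g j) + 1 → (D.g j : ℝ) ≤ y (D.g j + l) ∧ y (D.g j + l) < D.g (j + 1)
  ygap : ∀ j l, l + 1 < D.M (D.g j) → y (D.g j + l + 1) - y (D.g j + l) =
    D.C (D.g j) ((r j + l) % D.M (D.g j))
  ylast : ∀ j, ∃ l, y (D.g j + D.M (D.g j)) - y (D.g j + D.M (D.g j) - 1) ≤
    D.C (D.g j) (l % D.M (D.g j)) + 1
  ybuf : ∀ j, ∃ l, y (D.g (j + 1)) - y (D.g j + D.M (D.g j)) ≤
    D.C (D.g (j + 1)) (l % D.M (D.g (j + 1))) + 1

namespace T4

variable {Z : Multiset ℂ} {x₀ : ℝ} {γ : ℕ → ℝ} {R ω : ℝ → ℝ} (S : T4 Z x₀ γ R ω)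

/-- the primes -/
noncomputable def p (k : ℕ) : ℝ := phi (fZ Z) x₀ (S.y k)

/-- block length -/
noncomputable def m (j : ℕ) : ℕ := S.D.M (S.D.g j)

/-- logarithm at the block -/
noncomputable def lam (j : ℕ) : ℝ := lamb (fZ Z) x₀ (S.D.g j)

/-- left end of the block -/
noncomputable def a (j : ℕ) : ℝ := phi (fZ Z) x₀ (S.D.g j)

theorem g_succ (j : ℕ) : S.D.g (j + 1) = S.D.g j + S.m j + 1 := rfl

theorem m_pos (j : ℕ) : 0 < S.m j := S.D.Mpos _

theorem g_tendsto : Tendsto S.D.g atTop atTop := S.D.g_mono.tendsto_atTop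

theorem st_tendsto : Tendsto (fun j => S.st (S.D.g j)) atTop atTop := S.hst.comp S.g_tendsto

theorem stR_tendsto : Tendsto (fun j => (S.st (S.D.g j) : ℝ)) atTop atTop :=
  tendsto_natCast_atTop_atTop.comp S.st_tendsto

theorem inv_ev {ε : ℝ} (hε : 0 < ε) : ∀ᶠ j in atTop, 6 ≤ S.st (S.D.g j) ∧
    1 / (S.st (S.D.g j) : ℝ) ≤ ε := by
  filter_upwards [S.st_tendsto.eventually_ge_atTop 6, S.stR_tendsto.eventually_ge_atTop (1 / ε)]
    with j h1 h2
  refine ⟨h1, ?_⟩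
  have h3 : (0 : ℝ) < S.st (S.D.g j) := by exact_mod_cast (by omega : 0 < S.st (S.D.g j))
  rw [div_le_iff₀ h3]
  rw [div_le_iff₀ hε] at h2
  linarith

theorem lam_eq (j : ℕ) : S.lam j = Real.log (S.a j) := rfl

theorem two_le_lam (j : ℕ) : 2 ≤ S.lam j := two_le_lamb S.hR _

theorem a_pos (j : ℕ) : 0 < S.a j := S.hR.phi_pos _

theorem a_mono (j : ℕ) : S.a j ≤ S.a (j + 1) :=
  S.hR.phi_mono (by exact_mod_cast (S.D.g_mono (Nat.lt_succ_self j)).le)

theorem a_tendsto : Tendsto S.a atTop atTop :=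
  S.hR.phi_tendsto.comp (tendsto_natCast_atTop_atTop.comp S.g_tendsto)

theorem a_succ {ε : ℝ} (hε : 0 < ε) : ∀ᶠ j in atTop, S.a (j + 1) ≤ (1 + ε) * S.a j := by
  filter_upwards [S.inv_ev hε] with j ⟨h1, h2⟩
  have h3 := (S.hGB _ h1).phi
  have h4 := S.a_pos j
  refine le_trans h3 ?_
  apply mul_le_mul_of_nonneg_right _ h4.le
  linarith

theorem loc (j l : ℕ) (hl : l < S.m j + 1) : S.a j ≤ S.p (S.D.g j + l) ∧ S.p (S.D.g j + l) ≤ S.a (j + 1) :=
  ⟨S.hR.phi_mono (S.yloc j l hl).1, S.hR.phi_mono (S.yloc j l hl).2.le⟩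

theorem loc' (j l : ℕ) (hl : l < S.m j + 1) : S.p (S.D.g j + l + 1) ≤ S.a (j + 2) := by
  by_cases h : l + 1 < S.m j + 1
  · have := (S.loc j (l + 1) h).2
    rw [add_assoc]
    exact this.trans (S.a_mono (j + 1))
  · have e : S.D.g j + l + 1 = S.D.g (j + 1) + 0 := by
      rw [S.g_succ]; omega
    rw [e]
    exact (S.loc (j + 1) 0 (Nat.succ_pos _)).2

theorem p_mono : StrictMono S.p := fun _ _ h => S.hR.phi_lt (S.y0 _) (S.ymono h)

theorem p_tendsto : Tendsto S.p atTop atTop := S.hR.phi_tendsto.comp S.ytend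

theorem log_ev {ε : ℝ} (hε : 0 < ε) : ∀ᶠ j in atTop, ∀ l, l < S.m j + 1 →
    |Real.log (S.p (S.D.g j + l)) - S.lam j| ≤ ε * S.lam j := by
  filter_upwards [S.a_succ hε] with j h1 l hl
  obtain ⟨h2, h3⟩ := S.loc j l hl
  have h4 := S.a_pos j
  have h5 : S.lam j ≤ Real.log (S.p (S.D.g j + l)) := by
    rw [S.lam_eq]; exact Real.log_le_log h4 h2
  have h6 : Real.log (S.p (S.D.g j + l)) ≤ S.lam j + ε := by
    have h7 : Real.log (S.p (S.D.g j + l)) ≤ Real.log ((1 + ε) * S.a j) :=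
      Real.log_le_log (by linarith) (h3.trans h1)
    rw [Real.log_mul (by linarith) h4.ne'] at h7
    have h8 := Real.log_le_sub_one_of_pos (by linarith : 0 < 1 + ε)
    rw [← S.lam_eq] at h7
    linarith
  have h7 := S.two_le_lam j
  rw [abs_le]
  constructor <;> nlinarith

/-- gaps of `y` and of `p` -/
theorem cd_ev {ε : ℝ} (hε : 0 < ε) : ∀ᶠ j in atTop, ∀ l, l < S.m j + 1 →
    |(S.y (S.D.g j + l + 1) - S.y (S.D.g j + l)) * Real.log (S.p (S.D.g j + l)) -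
      (S.p (S.D.g j + l + 1) - S.p (S.D.g j + l))| ≤
      ε * (S.p (S.D.g j + l + 1) - S.p (S.D.g j + l)) := by
  obtain ⟨X, hX⟩ := eventually_atTop.1 (transfer S.hZ S.hR hε)
  have ha1 := S.a_succ (by norm_num : (0 : ℝ) < 1 / 4)
  have ha2 := (tendsto_add_atTop_nat 1).eventually ha1
  filter_upwards [S.a_tendsto.eventually_ge_atTop X, ha1, ha2] with j h1 h2 h3 l hl
  obtain ⟨h4, h5⟩ := S.loc j l hl
  have h6 := S.loc' j l hl
  have h7 := hX _ (h1.trans h4)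
  have h8 : S.p (S.D.g j + l) ≤ S.p (S.D.g j + l + 1) := (S.p_mono (Nat.lt_succ_self _)).le
  have h9 := S.a_pos j
  have h10 := h7.2 _ h8 (by
    have e : S.a (j + 1 + 1) = S.a (j + 2) := rfl
    rw [e] at h3
    nlinarith)
  unfold p at h10 ⊢
  rw [S.hR.F_phi (S.y0 _), S.hR.F_phi (S.y0 _)] at h10
  exact h10

theorem gapy_pos (k : ℕ) : 0 < S.y (k + 1) - S.y k := sub_pos.2 (S.ymono (Nat.lt_succ_self k))

theorem gapp_pos (k : ℕ) : 0 < S.p (k + 1) - S.p k := sub_pos.2 (S.p_mono (Nat.lt_succ_self k))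

/-- normalised gaps -/
theorem G_ev {ε : ℝ} (hε : 0 < ε) : ∀ᶠ j in atTop, ∀ l, l < S.m j + 1 →
    |(S.p (S.D.g j + l + 1) - S.p (S.D.g j + l)) / Real.log (S.p (S.D.g j + l)) -
      (S.y (S.D.g j + l + 1) - S.y (S.D.g j + l))| ≤
      ε * (S.y (S.D.g j + l + 1) - S.y (S.D.g j + l)) := by
  set e : ℝ := min (ε / 2) (1 / 2) with he
  have he0 : 0 < e := by rw [he]; positivity
  filter_upwards [S.cd_ev he0] with j h1 l hl
  have h2 := h1 l hl
  set G := S.p (S.D.g j + l + 1) - S.p (S.D.g j + l) with hG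
  set C := S.y (S.D.g j + l + 1) - S.y (S.D.g j + l) with hC
  set L := Real.log (S.p (S.D.g j + l)) with hL
  have hG0 : 0 < G := S.gapp_pos _
  have hC0 : 0 < C := S.gapy_pos _
  have hL2 : 2 ≤ L := S.hR.hlog _ (S.hR.phi_ge _)
  have hL0 : 0 < L := by linarith
  have he2 : e ≤ 1 / 2 := min_le_right _ _
  have he3 : e ≤ ε / 2 := min_le_left _ _
  rw [abs_le] at h2
  have h3 : G ≤ 2 * (C * L) := by nlinarith
  have h4 : |C * L - G| ≤ ε * C * L := by
    rw [abs_le]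
    have h5 : e * G ≤ ε * C * L := by
      calc e * G ≤ ε / 2 * (2 * (C * L)) := mul_le_mul he3 h3 hG0.le (by linarith)
        _ = ε * C * L := by ring
    constructor <;> linarith [h2.1, h2.2]
  have e1 : G / L - C = -((C * L - G) / L) := by field_simp; ring
  rw [e1, abs_neg, abs_div, abs_of_pos hL0, div_le_iff₀ hL0]
  exact h4

/-- gaps with the logarithm of the block -/
theorem D_ev {ε : ℝ} (hε : 0 < ε) : ∀ᶠ j in atTop, ∀ l, l < S.m j + 1 →
    |S.p (S.D.g j + l + 1) - S.p (S.D.g j + l) -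
      S.lam j * (S.y (S.D.g j + l + 1) - S.y (S.D.g j + l))| ≤
      ε * (S.lam j * (S.y (S.D.g j + l + 1) - S.y (S.D.g j + l))) := by
  set e : ℝ := min (ε / 4) 1 with he
  have he0 : 0 < e := by rw [he]; positivity
  filter_upwards [S.G_ev he0, S.log_ev he0] with j h1 h2 l hl
  have h3 := h1 l hl
  have h4 := h2 l hl
  set G := S.p (S.D.g j + l + 1) - S.p (S.D.g j + l) with hG
  set C := S.y (S.D.g j + l + 1) - S.y (S.D.g j + l) with hC
  set L := Real.log (S.p (S.D.g j + l)) with hL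
  have hG0 : 0 < G := S.gapp_pos _
  have hC0 : 0 < C := S.gapy_pos _
  have hL2 : 2 ≤ L := S.hR.hlog _ (S.hR.phi_ge _)
  have hL0 : 0 < L := by linarith
  have hl2 := S.two_le_lam j
  have he2 : e ≤ 1 := min_le_right _ _
  have he3 : e ≤ ε / 4 := min_le_left _ _
  have h5 : |G - C * L| ≤ e * C * L := by
    have e1 : G - C * L = (G / L - C) * L := by field_simp
    rw [e1, abs_mul, abs_of_pos hL0]
    exact mul_le_mul_of_nonneg_right h3 hL0.le
  have h6 : |C * L - S.lam j * C| ≤ e * (S.lam j * C) := by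
    have e1 : C * L - S.lam j * C = (L - S.lam j) * C := by ring
    rw [e1, abs_mul, abs_of_pos hC0]
    calc |L - S.lam j| * C ≤ e * S.lam j * C := mul_le_mul_of_nonneg_right h4 hC0.le
      _ = _ := by ring
  have h7 : L ≤ 2 * S.lam j := by
    have := (abs_le.1 h4).2
    nlinarith
  have h8 : e * C * L ≤ 2 * (e * (S.lam j * C)) := by
    have : e * C * L ≤ e * C * (2 * S.lam j) := mul_le_mul_of_nonneg_left h7 (by positivity)
    linarith
  have h9 := abs_sub_le G (C * L) (S.lam j * C)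
  have h10 : 0 ≤ S.lam j * C := by positivity
  have h11 : e * (S.lam j * C) ≤ ε / 4 * (S.lam j * C) := mul_le_mul_of_nonneg_right he3 h10
  have h12 : 0 ≤ ε * (S.lam j * C) := by positivity
  linarith

theorem c_pos (j l : ℕ) : 0 < S.D.C (S.D.g j) l := S.D.Cpos _ _

theorem c_sum (j : ℕ) : ∑ l ∈ Finset.range (S.m j), S.D.C (S.D.g j) l = S.m j := S.D.Csum _

/-- bound for the entries of the pattern -/
noncomputable def cb (u : ℕ) : ℝ := max 1 (S.st u * lamb (fZ Z) x₀ u) + 1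

theorem c_le (u l : ℕ) : S.D.C u l + 1 ≤ S.cb u := by
  unfold cb
  rcases lt_or_ge (S.st u) 6 with h | h
  · rw [S.hC1 u h]
    linarith [le_max_left (1 : ℝ) (S.st u * lamb (fZ Z) x₀ u)]
  · have h1 := (S.hGB u h).tm.le l
    have h2 := S.ht2 _ h
    have h3 := two_le_lamb S.hR u
    have h4 : S.tau (S.st u) * lamb (fZ Z) x₀ u ≤ S.st u * lamb (fZ Z) x₀ u :=
      mul_le_mul_of_nonneg_right h2 (by linarith)
    linarith [le_max_right (1 : ℝ) (S.st u * lamb (fZ Z) x₀ u)]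

/-- bound for the gaps of `y` at a block -/
noncomputable def kap (j : ℕ) : ℝ := S.cb (S.D.g j) + S.cb (S.D.g (j + 1))

theorem cb_pos (u : ℕ) : 0 < S.cb u := by
  unfold cb
  linarith [le_max_left (1 : ℝ) (S.st u * lamb (fZ Z) x₀ u)]

theorem c_le_kap (j l : ℕ) : S.D.C (S.D.g j) l ≤ S.kap j := by
  have h1 := S.c_le (S.D.g j) l
  unfold kap
  linarith [S.cb_pos (S.D.g (j + 1))]

theorem last_le (j : ℕ) : S.y (S.D.g j + S.m j) - S.y (S.D.g j + S.m j - 1) ≤ S.kap j := by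
  obtain ⟨l, h⟩ := S.ylast j
  refine h.trans ((S.c_le _ _).trans ?_)
  unfold kap
  linarith [S.cb_pos (S.D.g (j + 1))]

theorem buf_le (j : ℕ) : S.y (S.D.g (j + 1)) - S.y (S.D.g j + S.m j) ≤ S.kap j := by
  obtain ⟨l, h⟩ := S.ybuf j
  refine h.trans ((S.c_le _ _).trans ?_)
  unfold kap
  linarith [S.cb_pos (S.D.g j)]

theorem kap_small {ε : ℝ} (hε : 0 < ε) : ∀ᶠ j in atTop, S.kap j ≤ ε * S.m j := by
  have ha1 := S.a_succ (by norm_num : (0 : ℝ) < 1)
  filter_upwards [S.inv_ev (by positivity : 0 < min (ε / 10) (1 / 8)), ha1] with j ⟨h1, h2⟩ h3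
  set i := S.st (S.D.g j) with hi
  have hG := S.hGB _ h1
  have hi2 : (2 : ℝ) ≤ i := by exact_mod_cast (by omega : 2 ≤ i)
  have h4 : S.D.g (j + 1) ≤ 2 * S.D.g j + 2 := by
    rw [S.g_succ]
    have h6 := hG.small
    have h5 : S.m j + 1 ≤ i * (S.m j + 1) := Nat.le_mul_of_pos_left _ (by omega)
    have h7 : i * (S.m j + 1) ≤ S.D.g j := h6
    omega
  have h5 := S.hslow _ _ (S.D.g_mono (Nat.lt_succ_self j)).le h4
  rw [← hi] at h5
  have hl := S.two_le_lam j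
  have h6 : lamb (fZ Z) x₀ (S.D.g (j + 1)) ≤ 2 * S.lam j := by
    have h7 : lamb (fZ Z) x₀ (S.D.g (j + 1)) ≤ Real.log (2 * S.a j) := by
      apply Real.log_le_log (S.a_pos (j + 1))
      have : S.a (j + 1) = phi (fZ Z) x₀ (S.D.g (j + 1)) := rfl
      linarith
    rw [Real.log_mul two_ne_zero (S.a_pos j).ne'] at h7
    have h8 : Real.log 2 ≤ 2 := by
      have := Real.log_le_sub_one_of_pos (two_pos : (0 : ℝ) < 2)
      linarith
    rw [← S.lam_eq] at h7
    linarith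
  have hlam0 : 0 < S.lam j := by linarith
  have h7 : S.cb (S.D.g j) ≤ i * S.lam j + 1 := by
    unfold cb
    rw [← hi]
    apply add_le_add_left
    apply max_le
    · nlinarith
    · exact le_refl _
  have h8 : S.cb (S.D.g (j + 1)) ≤ (i + 1) * (2 * S.lam j) + 1 := by
    unfold cb
    apply add_le_add_left
    apply max_le
    · nlinarith
    · apply mul_le_mul _ h6 _ (by positivity)
      · exact_mod_cast h5
      · linarith [two_le_lamb S.hR (S.D.g (j + 1))]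
  have h9 : S.kap j ≤ 10 * i * S.lam j := by
    unfold kap
    nlinarith
  have h10 : (i : ℝ) ^ 4 * S.lam j ≤ S.m j := hG.ge
  have h11 : 1 ≤ ε / 10 * i := by
    have h12 : 1 / (i : ℝ) ≤ ε / 10 := h2.trans (min_le_left _ _)
    rwa [div_le_iff₀ (by linarith)] at h12
  calc S.kap j ≤ 10 * i * S.lam j := h9
    _ = 10 * i * S.lam j * 1 := by ring
    _ ≤ 10 * i * S.lam j * (ε / 10 * i) := mul_le_mul_of_nonneg_left h11 (by positivity)
    _ = ε * (i ^ 2 * S.lam j) := by ring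
    _ ≤ ε * (i ^ 4 * S.lam j) := by
        apply mul_le_mul_of_nonneg_left _ hε.le
        apply mul_le_mul_of_nonneg_right _ hlam0.le
        exact pow_le_pow_right₀ (by linarith) (by norm_num)
    _ ≤ ε * S.m j := mul_le_mul_of_nonneg_left h10 hε.le

theorem kap_tendsto : Tendsto (fun j => S.kap j / S.m j) atTop (𝓝 0) := by
  rw [Metric.tendsto_atTop']
  intro ε hε
  obtain ⟨N, hN⟩ := eventually_atTop.1 (S.kap_small (half_pos hε))
  refine ⟨N, fun j hj => ?_⟩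
  have h1 := hN j hj.le
  have h2 : (0 : ℝ) < S.m j := by exact_mod_cast S.m_pos j
  have h3 : 0 ≤ S.kap j := by
    unfold kap
    linarith [S.cb_pos (S.D.g j), S.cb_pos (S.D.g (j + 1))]
  rw [Real.dist_eq, sub_zero, abs_of_nonneg (div_nonneg h3 h2.le), div_lt_iff₀ h2]
  nlinarith

theorem m_tendsto : Tendsto S.m atTop atTop := by
  have h1 : Tendsto (fun j => (S.m j : ℝ)) atTop atTop := by
    refine tendsto_atTop_mono' _ ?_ S.stR_tendsto
    filter_upwards [S.st_tendsto.eventually_ge_atTop 6] with j h1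
    have hi2 : (2 : ℝ) ≤ S.st (S.D.g j) := by exact_mod_cast (by omega : 2 ≤ S.st (S.D.g j))
    have h2 := (S.hGB _ h1).ge
    have hl := two_le_lamb S.hR (S.D.g j)
    refine le_trans ?_ h2
    have h3 : (S.st (S.D.g j) : ℝ) ^ 1 ≤ (S.st (S.D.g j) : ℝ) ^ 4 :=
      pow_le_pow_right₀ (by linarith) (by norm_num)
    rw [pow_one] at h3
    nlinarith
  exact tendsto_natCast_atTop_iff.1 h1

theorem g_ratio : Tendsto (fun j => (S.D.g (j + 1) : ℝ) / S.D.g j) atTop (𝓝 1) := by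
  rw [Metric.tendsto_atTop']
  intro ε hε
  obtain ⟨N, hN⟩ := eventually_atTop.1 ((S.inv_ev (half_pos hε)).and
    (S.g_tendsto.eventually_ge_atTop 1))
  refine ⟨N, fun j hj => ?_⟩
  obtain ⟨⟨h1, h2⟩, h3⟩ := hN j hj.le
  have h4 : (0 : ℝ) < S.D.g j := by exact_mod_cast h3
  have h5 := (S.hGB _ h1).small
  have h6 : (S.st (S.D.g j) : ℝ) * (S.m j + 1) ≤ S.D.g j := by exact_mod_cast h5
  have h7 : (0 : ℝ) < S.st (S.D.g j) := by exact_mod_cast (by omega : 0 < S.st (S.D.g j))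
  have e : (S.D.g (j + 1) : ℝ) / S.D.g j - 1 = (S.m j + 1) / S.D.g j := by
    rw [S.g_succ]
    push_cast
    field_simp
    ring
  rw [Real.dist_eq, e, abs_of_nonneg (by positivity), div_lt_iff₀ h4]
  rw [div_le_iff₀ h7] at h2
  have h8 : (0 : ℝ) ≤ S.m j := Nat.cast_nonneg _
  nlinarith

theorem near_ev {ε : ℝ} (hε : 0 < ε) : ∀ᶠ j in atTop,
    (((Finset.range (S.m j)).filter fun l => ε < |S.D.C (S.D.g j) l - γ l|).card : ℝ) ≤
      ε * S.m j := by
  filter_upwards [S.inv_ev (by positivity : 0 < ε / 6)] with j ⟨h1, h2⟩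
  have h3 := (S.hGB _ h1).tm.near
  have h4 : 2 / (S.st (S.D.g j) : ℝ) ≤ ε := by
    have : 2 / (S.st (S.D.g j) : ℝ) = 2 * (1 / (S.st (S.D.g j) : ℝ)) := by ring
    rw [this]; linarith
  have h5 : 6 / (S.st (S.D.g j) : ℝ) ≤ ε := by
    have : 6 / (S.st (S.D.g j) : ℝ) = 6 * (1 / (S.st (S.D.g j) : ℝ)) := by ring
    rw [this]; linarith
  have h6 : ((Finset.range (S.m j)).filter fun l => ε < |S.D.C (S.D.g j) l - γ l|).card ≤
      ((Finset.range (S.m j)).filter fun l =>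
        2 / (S.st (S.D.g j) : ℝ) < |S.D.C (S.D.g j) l - γ l|).card := by
    apply Finset.card_le_card
    intro l hl
    rw [Finset.mem_filter] at hl ⊢
    exact ⟨hl.1, lt_of_le_of_lt h4 hl.2⟩
  have h7 : (0 : ℝ) ≤ S.m j := Nat.cast_nonneg _
  calc (((Finset.range (S.m j)).filter fun l => ε < |S.D.C (S.D.g j) l - γ l|).card : ℝ) ≤
      (((Finset.range (S.m j)).filter fun l =>
        2 / (S.st (S.D.g j) : ℝ) < |S.D.C (S.D.g j) l - γ l|).card : ℝ) := by exact_mod_cast h6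
    _ ≤ 6 / (S.st (S.D.g j) : ℝ) * S.m j := h3
    _ ≤ ε * S.m j := mul_le_mul_of_nonneg_right h5 h7

/-- **Statistics.** -/
theorem stats {k : ℕ} {φ : (Fin k → ℝ) → ℝ} {B : ℝ} (hB : ∀ x, |φ x| ≤ B) {L : ℝ≥0}
    (hL : LipschitzWith L φ) {l : ℝ}
    (hl : Tendsto (fun N : ℕ => (∑ n ∈ Finset.range N, φ (fun i => γ (n + i))) / N) atTop (𝓝 l)) :
    Tendsto (fun N : ℕ => (∑ n ∈ Finset.range N,
      φ (fun i => (S.p (n + i + 1) - S.p (n + i)) / Real.log (S.p (n + i)))) / N) atTop (𝓝 l) := by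
  refine stat_transfer2 (g := S.D.g) (M := S.m) (r := S.r)
    (a := fun k => (S.p (k + 1) - S.p k) / Real.log (S.p k)) S.g_succ S.m_pos S.m_tendsto
    S.g_ratio ?_ hB hL hl
  exact stat_hyp (y := S.y) (G := fun k => (S.p (k + 1) - S.p k) / Real.log (S.p k))
    (c := fun j => S.D.C (S.D.g j)) S.m_pos S.m_tendsto S.c_pos S.c_sum S.ygap
    (fun ε hε => (S.G_ev hε).mono fun j h l hl => h l (by omega)) (fun ε hε => S.near_ev hε)

theorem p_ratio : Tendsto (fun j => S.p (S.D.g (j + 1)) / S.p (S.D.g j)) atTop (𝓝 1) := by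
  rw [Metric.tendsto_atTop']
  intro ε hε
  have h0 : 0 < min (ε / 4) 1 := by positivity
  have ha1 := S.a_succ h0
  have ha2 := (tendsto_add_atTop_nat 1).eventually ha1
  obtain ⟨N, hN⟩ := eventually_atTop.1 (ha1.and ha2)
  refine ⟨N, fun j hj => ?_⟩
  obtain ⟨h1, h2⟩ := hN j hj.le
  have h3 := (S.loc (j + 1) 0 (Nat.succ_pos _)).2
  have h4 := (S.loc j 0 (Nat.succ_pos _)).1
  rw [add_zero] at h3 h4
  have h5 := S.a_pos j
  have h6 : 0 < S.p (S.D.g j) := by linarith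
  have h7 : S.p (S.D.g j) < S.p (S.D.g (j + 1)) := S.p_mono (S.D.g_mono (Nat.lt_succ_self j))
  set e := min (ε / 4) 1 with he
  have he1 : e ≤ ε / 4 := min_le_left _ _
  have he2 : e ≤ 1 := min_le_right _ _
  have e1 : S.p (S.D.g (j + 1)) / S.p (S.D.g j) - 1 =
      (S.p (S.D.g (j + 1)) - S.p (S.D.g j)) / S.p (S.D.g j) := by field_simp
  rw [Real.dist_eq, e1, abs_of_nonneg (div_nonneg (by linarith) h6.le), div_lt_iff₀ h6]
  have h8 : S.a (j + 1 + 1) ≤ (1 + e) * ((1 + e) * S.a j) :=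
    h2.trans (mul_le_mul_of_nonneg_left h1 (by linarith))
  have h9 : S.p (S.D.g (j + 1)) ≤ (1 + 3 * e) * S.a j := by
    refine h3.trans (h8.trans ?_)
    nlinarith [mul_pos h0 h5]
  have h10 : 3 * e * S.a j < ε * S.p (S.D.g j) := by nlinarith
  nlinarith

theorem p_ratio1 : Tendsto (fun n => S.p (n + 1) / S.p n) atTop (𝓝 1) := by
  rw [Metric.tendsto_atTop']
  intro ε hε
  have h0 : 0 < min (ε / 4) 1 := by positivity
  have ha1 := S.a_succ h0
  have ha2 := (tendsto_add_atTop_nat 1).eventually ha1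
  obtain ⟨N, hN⟩ := eventually_atTop.1 (ha1.and ha2)
  refine ⟨S.D.g N, fun n hn => ?_⟩
  -- the block of `n`
  obtain ⟨j, l, hl, hjn, hjN⟩ : ∃ j l, l < S.m j + 1 ∧ n = S.D.g j + l ∧ N ≤ j := by
    have hex : ∃ j, n < S.D.g (j + 1) := by
      refine ⟨n, ?_⟩
      have := S.D.g_mono.le_apply (x := n + 1)
      omega
    set j := Nat.find hex with hj
    have h1 : n < S.D.g (j + 1) := Nat.find_spec hex
    have h2 : S.D.g j ≤ n := by
      rcases Nat.eq_zero_or_pos j with h | h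
      · rw [h]; exact Nat.zero_le n
      · have := Nat.find_min hex (Nat.sub_lt h one_pos)
        have e : j - 1 + 1 = j := by omega
        rw [e] at this
        omega
    refine ⟨j, n - S.D.g j, ?_, by omega, ?_⟩
    · rw [S.g_succ] at h1
      omega
    · by_contra hc
      push Not at hc
      have h3 : S.D.g (j + 1) ≤ S.D.g N := S.D.g_mono.monotone (by omega)
      omega
  subst hjn
  obtain ⟨h1, h2⟩ := hN j hjN
  have h3 := S.loc' j l hl
  have h4 := (S.loc j l hl).1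
  have h5 := S.a_pos j
  have h6 : 0 < S.p (S.D.g j + l) := by linarith
  have h7 : S.p (S.D.g j + l) < S.p (S.D.g j + l + 1) := S.p_mono (Nat.lt_succ_self _)
  set e := min (ε / 4) 1 with he
  have he1 : e ≤ ε / 4 := min_le_left _ _
  have he2 : e ≤ 1 := min_le_right _ _
  have e1 : S.p (S.D.g j + l + 1) / S.p (S.D.g j + l) - 1 =
      (S.p (S.D.g j + l + 1) - S.p (S.D.g j + l)) / S.p (S.D.g j + l) := by field_simp
  rw [Real.dist_eq, e1, abs_of_nonneg (div_nonneg (by linarith) h6.le), div_lt_iff₀ h6]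
  have h8 : S.a (j + 1 + 1) ≤ (1 + e) * ((1 + e) * S.a j) :=
    h2.trans (mul_le_mul_of_nonneg_left h1 (by linarith))
  have h9 : S.p (S.D.g j + l + 1) ≤ (1 + 3 * e) * S.a j := by
    refine h3.trans (h8.trans ?_)
    nlinarith [mul_pos h0 h5]
  have h10 : 3 * e * S.a j < ε * S.p (S.D.g j + l) := by nlinarith
  nlinarith

end T4

end Pool.Agent.H521.G
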