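import Pool.Agent.H521.G.T4Qb

open MeasureTheory Set Filter Topology
open scoped ENNReal NNReal ComplexConjugate Classical

namespace Pool.Agent.H521.G

namespace T4

variable {Z : Multiset ℂ} {x₀ : ℝ} {γ : ℕ → ℝ} {R ω : ℝ → ℝ} (S : T4 Z x₀ γ R ω)

theorem up_ev (a' a : ℝ) (h0 : 0 < a') (h1 : a' < a) (ε : ℝ) (hε : 0 < ε) : ∀ᶠ j in atTop,
    ∑ l ∈ Finset.range (S.m j), (if a * S.lam j ≤ S.D.C (S.D.g j) l then S.D.C (S.D.g j) l else 0) ≤
      (R a' + ε) * S.m j := by
  filter_upwards [S.inv_ev (by positivity : 0 < min (ε / 4) a')] with j ⟨h2, h3⟩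
  have h4 := (S.hGB _ h2).tm.up a' a (h3.trans (min_le_right _ _)) h1
  refine h4.trans ?_
  have h5 : 4 / (S.st (S.D.g j) : ℝ) ≤ ε := by
    have : 4 / (S.st (S.D.g j) : ℝ) = 4 * (1 / (S.st (S.D.g j) : ℝ)) := by ring
    rw [this]; linarith [h3.trans (min_le_left (ε / 4) a')]
  exact mul_le_mul_of_nonneg_right (by linarith) (Nat.cast_nonneg _)

theorem lo_ev (a : ℝ) (h0 : 0 < a) (ε : ℝ) (hε : 0 < ε) : ∀ᶠ j in atTop,
    (R a - ε) * S.m j ≤ ∑ l ∈ Finset.range (S.m j),
      (if a * S.lam j ≤ S.D.C (S.D.g j) l then S.D.C (S.D.g j) l else 0) := by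
  filter_upwards [S.inv_ev (by positivity : 0 < min (ε / 4) a),
    S.stR_tendsto.eventually_ge_atTop a] with j ⟨h2, h3⟩ h6
  have h4 := (S.hGB _ h2).tm.lo a (h3.trans (min_le_right _ _)) h6
  refine le_trans ?_ h4
  have h5 : 4 / (S.st (S.D.g j) : ℝ) ≤ ε := by
    have : 4 / (S.st (S.D.g j) : ℝ) = 4 * (1 / (S.st (S.D.g j) : ℝ)) := by ring
    rw [this]; linarith [h3.trans (min_le_left (ε / 4) a)]
  exact mul_le_mul_of_nonneg_right (by linarith) (Nat.cast_nonneg _)

/-- the sum over a block -/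
theorem sum_block (F : ℕ → ℝ) (j : ℕ) :
    ∑ k ∈ Finset.range (S.D.g (j + 1)), F k - ∑ k ∈ Finset.range (S.D.g j), F k =
      ∑ l ∈ Finset.range (S.m j), F (S.D.g j + l) + F (S.D.g j + S.m j) := by
  rw [S.g_succ, Finset.sum_range_succ, Finset.sum_range_add]
  ring

theorem total_ev {ε : ℝ} (hε : 0 < ε) : ∀ᶠ j in atTop,
    |S.p (S.D.g j + S.m j) - S.p (S.D.g j) - S.lam j * S.m j| ≤ ε * (S.lam j * S.m j) := by
  have h1 : ∀ j, 1 ≤ S.lam j := fun j => by linarith [S.two_le_lam j]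
  exact mass_total (g := S.D.g) (M := S.m) (r := S.r) (p := S.p) (y := S.y) (lam := S.lam)
    (κ := S.kap) (c := fun j => S.D.C (S.D.g j)) S.m_pos S.p_mono S.ymono h1
    S.c_pos S.c_sum (fun j l _ => S.c_le_kap j l) S.kap_tendsto S.ygap S.last_le
    (fun ε hε => (S.D_ev hε).mono fun j h l hl => h l (by omega)) ε hε

theorem buf_ev {ε : ℝ} (hε : 0 < ε) : ∀ᶠ j in atTop,
    S.p (S.D.g (j + 1)) - S.p (S.D.g j + S.m j) ≤
      ε * (S.p (S.D.g j + S.m j) - S.p (S.D.g j)) := by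
  filter_upwards [S.total_ev (by norm_num : (0 : ℝ) < 1 / 2), S.D_ev one_pos,
    S.kap_small (by positivity : 0 < ε / 4)] with j h1 h2 h3
  have h4 := (abs_le.1 (h2 (S.m j) (Nat.lt_succ_self _))).2
  have h5 := (abs_le.1 h1).1
  have h6 := S.buf_le j
  have e : S.D.g j + S.m j + 1 = S.D.g (j + 1) := (S.g_succ j).symm
  rw [e] at h4
  have hl := S.two_le_lam j
  have h7 : S.lam j * (S.y (S.D.g (j + 1)) - S.y (S.D.g j + S.m j)) ≤ S.lam j * (ε / 4 * S.m j) :=
    mul_le_mul_of_nonneg_left (h6.trans h3) (by linarith)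
  have h8 : S.lam j * S.m j / 2 ≤ S.p (S.D.g j + S.m j) - S.p (S.D.g j) := by linarith
  have h9 := mul_le_mul_of_nonneg_left h8 hε.le
  have e1 : S.lam j * (ε / 4 * S.m j) = ε * (S.lam j * S.m j / 2) / 2 := by ring
  linarith

/-- **Mass of the large gaps.** -/
theorem mass {b : ℝ} (hb : 0 < b) (hRc : ContinuousAt R b) :
    Tendsto (fun x : ℝ => (∑' k, if S.p k ≤ x ∧ b * Real.log (S.p k) ^ 2 ≤ S.p (k + 1) - S.p k
      then S.p (k + 1) - S.p k else 0) / x) atTop (𝓝 (R b)) := by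
  have hp0 : 0 < S.p 0 := S.hR.phi_pos _
  refine tsum_transfer (Q := fun k => b * Real.log (S.p k) ^ 2 ≤ S.p (k + 1) - S.p k)
    S.p_mono hp0 S.p_tendsto S.p_ratio1 ?_
  have h1 : ∀ j, 1 ≤ S.lam j := fun j => by linarith [S.two_le_lam j]
  have hup := mass_up (g := S.D.g) (M := S.m) (r := S.r) (p := S.p) (y := S.y) (lam := S.lam)
    (κ := S.kap) (c := fun j => S.D.C (S.D.g j)) (R := R) S.m_pos S.p_mono S.ymono h1
    S.c_pos S.c_sum (fun j l _ => S.c_le_kap j l) S.kap_tendsto S.ygap S.last_le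
    (fun ε hε => (S.D_ev hε).mono fun j h l hl => h l (by omega))
    (fun ε hε => (S.log_ev hε).mono fun j h l hl => h l (by omega)) S.up_ev S.lo_ev hb hRc
  have hlo := mass_lo (g := S.D.g) (M := S.m) (r := S.r) (p := S.p) (y := S.y) (lam := S.lam)
    (κ := S.kap) (c := fun j => S.D.C (S.D.g j)) (R := R) S.m_pos S.p_mono S.ymono h1
    S.c_pos S.c_sum (fun j l _ => S.c_le_kap j l) S.kap_tendsto S.ygap S.last_le
    (fun ε hε => (S.D_ev hε).mono fun j h l hl => h l (by omega))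
    (fun ε hε => (S.log_ev hε).mono fun j h l hl => h l (by omega)) S.up_ev S.lo_ev hb hRc
  refine block_cesaro (g := S.D.g) (T := S.p) (C := 1) S.D.g_mono
    (S := fun n => ∑ k ∈ Finset.range n, if b * Real.log (S.p k) ^ 2 ≤ S.p (k + 1) - S.p k
      then S.p (k + 1) - S.p k else 0) S.p_mono.monotone S.p_tendsto ?_ S.p_ratio ?_
  · intro n
    rw [Finset.sum_range_succ, add_sub_cancel_left, one_mul]
    have := S.gapp_pos n
    split_ifs
    · rw [abs_of_pos this]
    · rw [abs_zero]; exact this.le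
  · intro ε hε
    filter_upwards [hup (ε / 2) (by positivity), hlo (ε / 2) (by positivity),
      S.buf_ev (by positivity : 0 < ε / (2 * (1 + |R b|)))] with j h2 h3 h4
    rw [S.sum_block]
    have e : S.D.g j + S.m j + 1 = S.D.g (j + 1) := (S.g_succ j).symm
    rw [e]
    set P := S.p (S.D.g j + S.m j) - S.p (S.D.g j) with hP
    have hE0 : 0 < S.p (S.D.g (j + 1)) - S.p (S.D.g j + S.m j) := by
      rw [← e]; exact S.gapp_pos _
    set E := S.p (S.D.g (j + 1)) - S.p (S.D.g j + S.m j) with hE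
    have hPE : S.p (S.D.g (j + 1)) - S.p (S.D.g j) = P + E := by rw [hP, hE]; ring
    rw [hPE]
    have hP0 : 0 < P := by
      rw [hP]; exact sub_pos.2 (S.p_mono (by have := S.m_pos j; omega))
    have hr0 : 0 < 1 + |R b| := by positivity
    have h5 : (1 + |R b|) * E ≤ ε / 2 * P := by
      have := mul_le_mul_of_nonneg_left h4 hr0.le
      have e2 : (1 + |R b|) * (ε / (2 * (1 + |R b|)) * P) = ε / 2 * P := by field_simp
      linarith
    have h6 : ∀ t : ℝ, 0 ≤ t → t ≤ E → |t - R b * E| ≤ ε / 2 * P := by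
      intro t ht0 ht
      refine le_trans ?_ h5
      refine (abs_sub _ _).trans ?_
      rw [abs_of_nonneg ht0, abs_mul, abs_of_pos hE0]
      nlinarith
    have h7 := h6 (if b * Real.log (S.p (S.D.g j + S.m j)) ^ 2 ≤ E then E else 0) (by
      split_ifs
      · exact hE0.le
      · exact le_rfl) (by
      split_ifs
      · exact le_rfl
      · exact hE0.le)
    rw [abs_le] at h7 ⊢
    have h8 : 0 ≤ ε * E := by positivity
    constructor <;> linarith [h7.1, h7.2]

/-- the number of primes up to `x` -/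
theorem count_ev : ∀ᶠ x in atTop,
    |(countPr S.p x : ℝ) - Fp (fZ Z) x₀ x| ≤ ω x * Real.log x / 4 := by
  obtain ⟨N, hN⟩ := eventually_atTop.1 (S.st_tendsto.eventually_ge_atTop 6)
  filter_upwards [eventually_ge_atTop (S.a N), eventually_ge_atTop x₀] with x hx hx0
  have e : countPr S.p x = countPr S.y (Fp (fZ Z) x₀ x) := countPr_phi S.hR S.y0 hx0
  rw [e]
  set Y := Fp (fZ Z) x₀ x with hY
  have hxY : phi (fZ Z) x₀ Y = x := S.hR.phi_F hx0
  have hY0 : 0 ≤ Y := by
    have := S.hR.F_mono le_rfl hx0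
    rwa [S.hR.F_zero] at this
  -- the block of `Y`
  have hYN : (S.D.g N : ℝ) ≤ Y := by
    have h1 := S.hR.F_mono (S.hR.phi_ge _) hx
    rw [S.hR.F_phi (Nat.cast_nonneg _)] at h1
    exact h1
  obtain ⟨j, hj1, hj2⟩ : ∃ j, (S.D.g j : ℝ) ≤ Y ∧ Y < S.D.g (j + 1) := by
    have hex : ∃ j, Y < S.D.g (j + 1) := by
      obtain ⟨n, hn⟩ := exists_nat_gt Y
      refine ⟨n, hn.trans_le ?_⟩
      have := S.D.g_mono.le_apply (x := n + 1)
      exact_mod_cast (by omega : n ≤ S.D.g (n + 1))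
    refine ⟨Nat.find hex, ?_, Nat.find_spec hex⟩
    rcases Nat.eq_zero_or_pos (Nat.find hex) with h | h
    · rw [h]
      have : S.D.g 0 = 0 := rfl
      rw [this]
      simpa using hY0
    · have h1 := Nat.find_min hex (Nat.sub_lt h one_pos)
      have e : Nat.find hex - 1 + 1 = Nat.find hex := by omega
      rw [e] at h1
      exact not_lt.1 h1
  have hjN : N ≤ j := by
    by_contra hc
    push Not at hc
    have h3 : S.D.g (j + 1) ≤ S.D.g N := S.D.g_mono.monotone (by omega)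
    have h4 : (S.D.g (j + 1) : ℝ) ≤ S.D.g N := by exact_mod_cast h3
    linarith
  have hG := S.hGB _ (hN j hjN)
  have haj : phi (fZ Z) x₀ (S.D.g j) ≤ x := by
    rw [← hxY]
    exact S.hR.phi_mono hj1
  have h5 := hG.om x haj
  -- the count
  have h6 : ∀ k, k < S.D.g j → S.y k ≤ Y := by
    intro k hk
        -- `y (g j) - ...`: the point `k` lies in an earlier block
    obtain ⟨i, hi1, hi2⟩ : ∃ i, S.D.g i ≤ k ∧ k < S.D.g (i + 1) := by
      have hex : ∃ i, k < S.D.g (i + 1) := ⟨j, hk.trans_le (S.D.g_mono (Nat.lt_succ_self j)).le⟩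
      refine ⟨Nat.find hex, ?_, Nat.find_spec hex⟩
      rcases Nat.eq_zero_or_pos (Nat.find hex) with h | h
      · rw [h]; exact Nat.zero_le k
      · have h1 := Nat.find_min hex (Nat.sub_lt h one_pos)
        have e : Nat.find hex - 1 + 1 = Nat.find hex := by omega
        rw [e] at h1
        exact not_lt.1 h1
    have hij : i + 1 ≤ j := by
      by_contra hc
      have : S.D.g j ≤ S.D.g i := S.D.g_mono.monotone (by omega)
      omega
    have h8 := (S.yloc i (k - S.D.g i) (by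
      have := S.D.g_succ i
      omega)).2
    have e : S.D.g i + (k - S.D.g i) = k := by omega
    rw [e] at h8
    have h9 : (S.D.g (i + 1) : ℝ) ≤ S.D.g j := by exact_mod_cast S.D.g_mono.monotone hij
    linarith
  have h7 : ∀ k, S.y k ≤ Y → k < S.D.g (j + 1) := by
    intro k hk
    by_contra hc
    push Not at hc
    have h8 := (S.yloc (j + 1) 0 (Nat.succ_pos _)).1
    rw [add_zero] at h8
    have h9 := S.ymono.monotone hc
    linarith
  have h8 : S.D.g j ≤ countPr S.y Y := by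
    unfold countPr
    have : (Finset.range (S.D.g j) : Set ℕ) ⊆ {k | S.y k ≤ Y} := fun k hk => h6 k (by simpa using hk)
    have hfin : {k | S.y k ≤ Y}.Finite := (Set.finite_lt_nat (S.D.g (j + 1))).subset fun k hk => h7 k hk
    have h9 := Set.ncard_le_ncard this hfin
    rwa [Set.ncard_coe_finset, Finset.card_range] at h9
  have h9 : countPr S.y Y ≤ S.D.g (j + 1) := by
    unfold countPr
    have : {k | S.y k ≤ Y} ⊆ (Finset.range (S.D.g (j + 1)) : Set ℕ) := fun k hk => by
      simpa using h7 k hk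
    have h9 := Set.ncard_le_ncard this (Finset.finite_toSet _)
    rwa [Set.ncard_coe_finset, Finset.card_range] at h9
  have h10 : (S.D.g j : ℝ) ≤ countPr S.y Y := by exact_mod_cast h8
  have h11 : (countPr S.y Y : ℝ) ≤ S.D.g (j + 1) := by exact_mod_cast h9
  have h12 : (S.D.g (j + 1) : ℝ) = S.D.g j + S.D.M (S.D.g j) + 1 := by
    rw [S.D.g_succ]; push_cast; ring
  rw [abs_le]
  constructor <;> linarith

/-- the error term in the prime number theorem -/
theorem error (hω : Tendsto ω atTop atTop) : ∀ᶠ x in atTop,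
    |(countPr S.p x : ℝ) - mainTerm Z x| ≤ ω x * Real.log x := by
  set K : ℝ := (1 + (Multiset.card Z : ℝ)) with hK
  have hK0 : 0 ≤ K := by positivity
  have hx3 := S.hR.dens.hx₀
  filter_upwards [S.count_ev, eventually_ge_atTop x₀,
    hω.eventually_ge_atTop (2 * (|mainTerm Z x₀| + K)), eventually_ge_atTop (Real.exp 1)]
    with x h1 hx h3 h4
  have h2 := abs_main_diff_le S.hZ hx3 hx
  have hl : 1 ≤ Real.log x := by
    rw [Real.le_log_iff_exp_le (by linarith)]
    exact h4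
  have h5 : mainTerm Z x = mainTerm Z x₀ + ∫ u in x₀..x, (1 - osc Z u) / Real.log u := by
    unfold mainTerm
    exact (intervalIntegral.integral_add_adjacent_intervals
      (main_ii Z (by norm_num) (by linarith)) (main_ii Z (by linarith) hx)).symm
  have e1 : (countPr S.p x : ℝ) - mainTerm Z x = ((countPr S.p x : ℝ) - Fp (fZ Z) x₀ x) -
      mainTerm Z x₀ - ((∫ u in x₀..x, (1 - osc Z u) / Real.log u) - ∫ u in x₀..x, fZ Z u) := by
    rw [h5]; unfold Fp; ring
  rw [e1]
  have h6 := abs_sub (((countPr S.p x : ℝ) - Fp (fZ Z) x₀ x) - mainTerm Z x₀)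
    ((∫ u in x₀..x, (1 - osc Z u) / Real.log u) - ∫ u in x₀..x, fZ Z u)
  have h7 := abs_sub ((countPr S.p x : ℝ) - Fp (fZ Z) x₀ x) (mainTerm Z x₀)
  have h8 : |mainTerm Z x₀| ≤ |mainTerm Z x₀| * Real.log x :=
    le_mul_of_one_le_right (abs_nonneg _) hl
  have h9 : 2 * (|mainTerm Z x₀| + K) * Real.log x ≤ ω x * Real.log x :=
    mul_le_mul_of_nonneg_right h3 (by linarith)
  have h10 : |(∫ u in x₀..x, (1 - osc Z u) / Real.log u) - ∫ u in x₀..x, fZ Z u| ≤
      K * Real.log x := h2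
  have h11 : 0 ≤ ω x * Real.log x := by
    have : 0 ≤ 2 * (|mainTerm Z x₀| + K) * Real.log x := by positivity
    linarith
  linarith

end T4

end Pool.Agent.H521.G
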