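import Mathlib

open MeasureTheory Set Filter Topology
open scoped Classical

namespace Pool.Agent.H521.G

/-- The base part of the template. -/
theorem template_base {γ : ℕ → ℝ} (hγ : ∀ n, 0 ≤ γ n) {R : ℝ → ℝ}
    (hR0 : ∀ c, 0 < c → 0 ≤ R c)
    (hcond : ∀ c K ε : ℝ, 0 < c → 0 < K → 0 < ε → ∀ᶠ N : ℕ in atTop,
      (∑ n ∈ Finset.range N, min (γ n) K) / N + R c ≤ 1 + ε)
    (i : ℕ) (hi : 2 ≤ i) :
    (∀ c, 0 < c → R c ≤ 1) ∧ ∃ N₀ : ℕ, ∀ A : ℕ, N₀ ≤ A →
      ∑ l ∈ Finset.range A, (min (γ l) i + 1 / (4 * i)) ≤ A * (1 - R (1 / i) + 1 / (2 * i)) ∧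
      (((Finset.range A).filter fun l => (i : ℝ) < γ l).card : ℝ) ≤ 2 / i * A := by
  have hi0 : (0 : ℝ) < i := by exact_mod_cast (by omega : 0 < i)
  have hi1 : (1 : ℝ) ≤ i := by exact_mod_cast (by omega : 1 ≤ i)
  refine ⟨?_, ?_⟩
  · intro c hc
    refine le_of_forall_pos_le_add fun ε hε => ?_
    obtain ⟨N, hN⟩ := (hcond c 1 ε hc one_pos hε).exists
    have h1 : 0 ≤ (∑ n ∈ Finset.range N, min (γ n) 1) / (N : ℝ) :=
      div_nonneg (Finset.sum_nonneg fun n _ => le_min (hγ n) zero_le_one) (Nat.cast_nonneg N)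
    linarith
  · have hc : (0 : ℝ) < 1 / i := by positivity
    obtain ⟨N₁, hN₁⟩ := eventually_atTop.1 (hcond (1 / i) i (1 / (4 * i)) hc hi0 (by positivity))
    refine ⟨max N₁ 1, fun A hA => ?_⟩
    have hA1 : 1 ≤ A := (le_max_right _ _).trans hA
    have hA0 : (0 : ℝ) < A := by exact_mod_cast hA1
    have h1 := hN₁ A ((le_max_left _ _).trans hA)
    set S : ℝ := ∑ n ∈ Finset.range A, min (γ n) (i : ℝ) with hS
    have h2 : S / A ≤ 1 + 1 / (4 * i) - R (1 / i) := by linarith
    have h3 : S ≤ (1 + 1 / (4 * i) - R (1 / i)) * A := by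
      rwa [div_le_iff₀ hA0] at h2
    have h4 : (1 : ℝ) / (4 * i) ≤ 1 := by
      rw [div_le_one (by positivity)]
      linarith
    have hR := hR0 (1 / i) hc
    constructor
    · rw [Finset.sum_add_distrib, ← hS, Finset.sum_const, Finset.card_range, nsmul_eq_mul]
      have h5 : (1 : ℝ) / (2 * i) = 1 / (4 * i) + 1 / (4 * i) := by
        field_simp
        norm_num
      rw [h5]
      linarith
    · have h5 : (i : ℝ) * (((Finset.range A).filter fun l => (i : ℝ) < γ l).card : ℝ) ≤ S := by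
        have h6 : (i : ℝ) * (((Finset.range A).filter fun l => (i : ℝ) < γ l).card : ℝ) =
            ∑ l ∈ (Finset.range A).filter (fun l => (i : ℝ) < γ l), min (γ l) (i : ℝ) := by
          rw [Finset.sum_congr rfl (g := fun _ => (i : ℝ)), Finset.sum_const, nsmul_eq_mul]
          · ring
          · intro l hl
            exact min_eq_right (Finset.mem_filter.1 hl).2.le
        rw [h6, hS]
        exact Finset.sum_le_sum_of_subset_of_nonneg (Finset.filter_subset _ _)
          fun l _ _ => le_min (hγ l) hi0.le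
      have h6 : S ≤ 2 * A := by
        refine h3.trans (mul_le_mul_of_nonneg_right ?_ hA0.le)
        linarith
      have h7 : (2 : ℝ) / i * A = 2 * A / i := by ring
      rw [h7, le_div_iff₀ hi0]
      linarith

end Pool.Agent.H521.G
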