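import Pool.Agent.H521.G.Insert
import Pool.Agent.H521.G.TemplateBase

open MeasureTheory Set Filter Topology
open scoped Classical

namespace Pool.Agent.H521.G

/-- a list with prescribed multiplicities -/
theorem list_t6 (k : ℕ → ℕ) (s : ℕ → ℝ) : ∀ J : ℕ, ∃ (n : ℕ) (w : ℕ → ℝ),
    (∀ F : ℝ → ℝ, ∑ l ∈ Finset.range n, F (w l) = ∑ q ∈ Finset.range J, (k q : ℝ) * F (s q)) ∧
    ∀ l, w l = 1 ∨ ∃ q < J, k q ≠ 0 ∧ w l = s q := by
  intro J
  induction J with
  | zero => exact ⟨0, fun _ => 1, fun F => by simp, fun l => Or.inl rfl⟩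
  | succ J ih =>
    obtain ⟨n, w, h1, h2⟩ := ih
    refine ⟨n + k J, fun l => if l < n then w l else if l < n + k J then s J else 1,
      fun F => ?_, fun l => ?_⟩
    · rw [Finset.sum_range_add, Finset.sum_range_succ, ← h1 F]
      congr 1
      · refine Finset.sum_congr rfl fun l hl => ?_
        rw [Finset.mem_range] at hl
        show F (if l < n then w l else if l < n + k J then s J else 1) = F (w l)
        rw [if_pos hl]
      · have h3 : ∀ l ∈ Finset.range (k J),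
            F (if n + l < n then w (n + l) else if n + l < n + k J then s J else 1) = F (s J) := by
          intro l hl
          rw [Finset.mem_range] at hl
          rw [if_neg (by omega), if_pos (by omega)]
        rw [Finset.sum_congr rfl h3, Finset.sum_const, Finset.card_range, nsmul_eq_mul]
    · show (if l < n then w l else if l < n + k J then s J else 1) = 1 ∨ ∃ q < J + 1, k q ≠ 0 ∧
        (if l < n then w l else if l < n + k J then s J else 1) = s q
      by_cases h3 : l < n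
      · rw [if_pos h3]
        rcases h2 l with h4 | ⟨q, h4, h5, h6⟩
        · exact Or.inl h4
        · exact Or.inr ⟨q, by omega, h5, h6⟩
      · rw [if_neg h3]
        by_cases h4 : l < n + k J
        · rw [if_pos h4]
          exact Or.inr ⟨J, by omega, by omega, rfl⟩
        · rw [if_neg h4]
          exact Or.inl rfl

/-- the number of values in `[θ, ∞)` as a sum -/
theorem card_t6 (M : ℕ) (c : ℕ → ℝ) (θ : ℝ) :
    (((Finset.range M).filter fun l => θ ≤ c l).card : ℝ) =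
      ∑ l ∈ Finset.range M, (if θ ≤ c l then (1 : ℝ) else 0) := by
  rw [Finset.card_filter]
  push_cast
  rfl

/-- The template of stage `i` at polylogarithmic scales: about `M λ^{1 - E q} / i³` gaps of size
`2 λ^{Q q - 1}` for the active `q < i`, and two gaps of the maximal size `sA`. -/
theorem exists_template7 {γ : ℕ → ℝ} (hγ : ∀ n, 0 ≤ γ n)
    (hcond : ∀ K ε : ℝ, 0 < K → 0 < ε → ∀ᶠ N : ℕ in atTop,
      (∑ n ∈ Finset.range N, min (γ n) K) / N ≤ 1 + ε)
    {Q E : ℕ → ℝ} (hQ : ∀ q, 1 < Q q) (P : ℕ → Prop) (hQE : ∀ q, P q → Q q ≤ E q)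
    (i : ℕ) (hi : 12 ≤ i) :
    ∃ Λ : ℝ, ∀ lam : ℝ, Λ ≤ lam → ∀ sA : ℝ, 2 * (i : ℝ) < sA →
      (∀ q, q < i → P q → E q ≤ i / 2 → 2 * lam ^ (Q q - 1) ≤ sA) →
      ∀ M : ℕ, lam ^ i ≤ M → 2 * (i : ℝ) ^ 2 * sA ≤ M →
      ∃ c : ℕ → ℝ, (∀ l, 0 < c l) ∧ ∑ l ∈ Finset.range M, c l = M ∧
        (((Finset.range M).filter fun l => 2 / (i : ℝ) < |c l - γ l|).card : ℝ) ≤ 6 / i * M ∧
        (∀ l, c l ≤ sA) ∧
        (∃ l₁ l₂, l₁ < M ∧ l₂ < M ∧ l₁ ≠ l₂ ∧ c l₁ = sA ∧ c l₂ = sA) ∧
        (∀ q, q < i → P q → E q ≤ i / 2 → M * lam ^ (1 - E q) / (2 * i ^ 3) ≤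
          (((Finset.range M).filter fun l => 2 * lam ^ (Q q - 1) ≤ c l).card : ℝ)) ∧
        ∀ θ : ℝ, 2 * (i : ℝ) < θ → (((Finset.range M).filter fun l => θ ≤ c l).card : ℝ) ≤
          2 + ∑ q ∈ Finset.range i, (if P q ∧ E q ≤ i / 2 ∧ θ ≤ 2 * lam ^ (Q q - 1) then
            M * lam ^ (1 - E q) else 0) := by
  have hi0 : (0 : ℝ) < i := by
    have : 0 < i := by omega
    exact_mod_cast this
  have hi12 : (12 : ℝ) ≤ i := by exact_mod_cast hi
  obtain ⟨-, N₀, hN₀⟩ := template_base hγ (R := fun _ => 0) (fun _ _ => le_rfl)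
    (fun c K ε _ hK hε => by
      filter_upwards [hcond K ε hK hε] with N hN
      rw [add_zero]
      exact hN) i (by omega)
  -- large `lam`
  have hev : ∀ᶠ lam : ℝ in atTop, (4 * (i : ℝ) ^ 2 ≤ lam ∧ 2 * (N₀ : ℝ) + 2 ≤ lam) ∧
      (∀ q ∈ Finset.range i, (i : ℝ) < lam ^ (Q q - 1)) := by
    refine ((eventually_ge_atTop _).and (eventually_ge_atTop _)).and ?_
    rw [Filter.eventually_all_finset]
    intro q _
    exact (tendsto_rpow_atTop (by linarith [hQ q])).eventually_gt_atTop _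
  obtain ⟨Λ, hΛ⟩ := eventually_atTop.1 hev
  refine ⟨Λ, fun lam hlam sA hsA1 hAQ M hM1 hAM => ?_⟩
  obtain ⟨⟨g1, g2⟩, g3⟩ := hΛ lam hlam
  have hilam : (i : ℝ) ≤ lam := by nlinarith
  have hlam1 : 1 ≤ lam := by linarith
  have hlam0 : 0 < lam := by linarith
  have hlamM : lam ≤ M := (le_self_pow₀ hlam1 (by omega)).trans hM1
  have hM0 : (0 : ℝ) < M := by linarith
  -- the sizes
  have hE : ∀ q, P q → lam ^ (1 - E q) ≤ 1 := by
    intro q hq
    exact Real.rpow_le_one_of_one_le_of_nonpos hlam1 (by linarith [hQE q hq, hQ q])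
  have hQE' : ∀ q, P q → lam ^ (1 - E q) * lam ^ (Q q - 1) ≤ 1 := by
    intro q hq
    rw [← Real.rpow_add hlam0]
    exact Real.rpow_le_one_of_one_le_of_nonpos hlam1 (by linarith [hQE q hq])
  have hpos : ∀ x : ℝ, 0 < lam ^ x := fun x => Real.rpow_pos_of_pos hlam0 x
  have hsA0 : 0 < sA := by linarith
  set X : ℕ → ℝ := fun q => M * lam ^ (1 - E q) / i ^ 3 with hX
  have hX0 : ∀ q, 0 ≤ X q := by
    intro q
    have := hpos (1 - E q)
    show 0 ≤ M * lam ^ (1 - E q) / (i : ℝ) ^ 3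
    positivity
  set k : ℕ → ℕ := fun q => if q < i then (if P q ∧ E q ≤ i / 2 then ⌊X q⌋₊ else 0) else 2 with hk
  set s : ℕ → ℝ := fun q => if q < i then 2 * lam ^ (Q q - 1) else sA with hs
  obtain ⟨n, w, hw1, hw2⟩ := list_t6 k s (i + 1)
  have hki : k i = 2 := by
    show (if i < i then (if P i ∧ E i ≤ i / 2 then ⌊X i⌋₊ else 0) else 2) = 2
    rw [if_neg (lt_irrefl i)]
  have hsi : s i = sA := by
    show (if i < i then 2 * lam ^ (Q i - 1) else sA) = sA
    rw [if_neg (lt_irrefl i)]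
  have hkq : ∀ q, q < i → k q = if P q ∧ E q ≤ i / 2 then ⌊X q⌋₊ else 0 := by
    intro q hq
    show (if q < i then (if P q ∧ E q ≤ i / 2 then ⌊X q⌋₊ else 0) else 2) = _
    rw [if_pos hq]
  have hsq : ∀ q, q < i → s q = 2 * lam ^ (Q q - 1) := by
    intro q hq
    show (if q < i then 2 * lam ^ (Q q - 1) else sA) = _
    rw [if_pos hq]
  have hkX : ∀ q, q < i → (k q : ℝ) ≤ X q := by
    intro q hq
    rw [hkq q hq]
    split_ifs
    · exact Nat.floor_le (hX0 q)
    · rw [Nat.cast_zero]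
      exact hX0 q
  have hsum : ∀ F : ℝ → ℝ, ∑ l ∈ Finset.range n, F (w l) =
      ∑ q ∈ Finset.range i, (k q : ℝ) * F (2 * lam ^ (Q q - 1)) + 2 * F sA := by
    intro F
    rw [hw1 F, Finset.sum_range_succ, hki, hsi, Nat.cast_ofNat]
    congr 1
    refine Finset.sum_congr rfl fun q hq => ?_
    rw [hsq q (Finset.mem_range.1 hq)]
  have hw0 : ∀ l, 0 < w l := by
    intro l
    rcases hw2 l with h | ⟨q, h1, h2, h3⟩
    · rw [h]
      exact one_pos
    · rw [h3]
      by_cases hq : q < i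
      · rw [hsq q hq]
        have := hpos (Q q - 1)
        positivity
      · have : q = i := by omega
        rw [this, hsi]
        exact hsA0
  -- upper bound for the numbers `k q`
  have hk1 : ∀ q ∈ Finset.range i, (k q : ℝ) ≤ M / i ^ 3 := by
    intro q hq
    have hq' := Finset.mem_range.1 hq
    rw [hkq q hq']
    split_ifs with h
    · refine (Nat.floor_le (hX0 q)).trans ?_
      show M * lam ^ (1 - E q) / (i : ℝ) ^ 3 ≤ M / i ^ 3
      have := hE q h.1
      gcongr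
      exact mul_le_of_le_one_right hM0.le this
    · rw [Nat.cast_zero]
      positivity
  have hk2 : ∀ q ∈ Finset.range i, (k q : ℝ) * (2 * lam ^ (Q q - 1)) ≤ 2 * M / i ^ 3 := by
    intro q hq
    have hq' := Finset.mem_range.1 hq
    by_cases h : P q ∧ E q ≤ i / 2
    · have h1 : (k q : ℝ) ≤ M * lam ^ (1 - E q) / (i : ℝ) ^ 3 := hkX q hq'
      have h2 := hpos (Q q - 1)
      calc (k q : ℝ) * (2 * lam ^ (Q q - 1))
          ≤ M * lam ^ (1 - E q) / (i : ℝ) ^ 3 * (2 * lam ^ (Q q - 1)) :=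
            mul_le_mul_of_nonneg_right h1 (by positivity)
        _ = 2 * M / i ^ 3 * (lam ^ (1 - E q) * lam ^ (Q q - 1)) := by ring
        _ ≤ 2 * M / i ^ 3 * 1 := mul_le_mul_of_nonneg_left (hQE' q h.1) (by positivity)
        _ = 2 * M / i ^ 3 := mul_one _
    · rw [hkq q hq', if_neg h, Nat.cast_zero, zero_mul]
      positivity
  have hnn : (n : ℝ) ≤ M / i ^ 2 + 2 := by
    have h1 := hsum fun _ => 1
    simp only [Finset.sum_const, Finset.card_range, nsmul_eq_mul, mul_one] at h1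
    have h2 := Finset.sum_le_sum hk1
    rw [Finset.sum_const, Finset.card_range, nsmul_eq_mul] at h2
    have h3 : (i : ℝ) * (M / i ^ 3) = M / i ^ 2 := by
      field_simp
    linarith
  have hM12 : 12 * (i : ℝ) ≤ M := by nlinarith
  have hn : (n : ℝ) ≤ M / (4 * i) := by
    refine hnn.trans ?_
    have h1 : (M : ℝ) / i ^ 2 ≤ M / (12 * i) := by
      apply div_le_div_of_nonneg_left hM0.le (by positivity)
      nlinarith
    have h2 : (2 : ℝ) ≤ M / (6 * i) := by
      rw [le_div_iff₀ (by positivity)]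
      linarith
    have h3 : (M : ℝ) / (12 * i) + M / (6 * i) = M / (4 * i) := by
      field_simp
      norm_num
    linarith
  have hws : ∑ l ∈ Finset.range n, w l ≤ 3 * M / i ^ 2 := by
    have h1 := hsum fun x => x
    have h2 := Finset.sum_le_sum hk2
    rw [Finset.sum_const, Finset.card_range, nsmul_eq_mul] at h2
    have h3 : (i : ℝ) * (2 * M / i ^ 3) = 2 * M / i ^ 2 := by
      field_simp
    have h4 : 2 * sA ≤ M / i ^ 2 := by
      rw [le_div_iff₀ (by positivity)]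
      linarith
    have h5 : 2 * (M : ℝ) / i ^ 2 + M / i ^ 2 = 3 * M / i ^ 2 := by
      field_simp
      norm_num
    rw [h1]
    linarith
  set A0 : ℕ := ⌊(1 - 1 / (i : ℝ)) * M⌋₊ with hA0'
  have h1i : 1 / (i : ℝ) ≤ 1 / 12 := one_div_le_one_div_of_le (by norm_num) hi12
  have h1i0 : 0 < 1 / (i : ℝ) := by positivity
  have hA0le : (A0 : ℝ) ≤ (1 - 1 / (i : ℝ)) * M :=
    Nat.floor_le (mul_nonneg (by linarith) hM0.le)
  have hA0ge : N₀ ≤ A0 := by
    apply Nat.le_floor
    nlinarith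
  obtain ⟨hb1, hb2⟩ := hN₀ A0 hA0ge
  have htot : ∑ l ∈ Finset.range A0, (min (γ l) i + 1 / (4 * i)) + ∑ l ∈ Finset.range n, w l ≤
      (1 - 1 / (4 * (i : ℝ))) * M := by
    have h1 : (A0 : ℝ) * (1 - 0 + 1 / (2 * i)) ≤ (1 - 1 / (i : ℝ)) * M * (1 - 0 + 1 / (2 * i)) :=
      mul_le_mul_of_nonneg_right hA0le (by positivity)
    have h2 : (1 - 1 / (i : ℝ)) * M * (1 - 0 + 1 / (2 * i)) + 3 * M / i ^ 2 ≤
        (1 - 1 / (4 * (i : ℝ))) * M := by
      have e1 : (1 - 1 / (4 * (i : ℝ))) * M - ((1 - 1 / (i : ℝ)) * M * (1 - 0 + 1 / (2 * i)) +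
          3 * M / i ^ 2) = M / (4 * i ^ 2) * (i - 10) := by
        field_simp
        ring
      have e2 : 0 ≤ (M : ℝ) / (4 * i ^ 2) * (i - 10) := mul_nonneg (by positivity) (by linarith)
      linarith
    have h3 : ∑ l ∈ Finset.range A0, (min (γ l) i + 1 / (4 * i)) ≤
        (A0 : ℝ) * (1 - 0 + 1 / (2 * i)) := hb1
    linarith
  obtain ⟨c, hc0, hcs, hc3, hcF, hccap⟩ := insert_template hγ (I := i) (by linarith) hA0'
    (by linarith) hw0 hn htot hb2
  -- counting
  have hcnt : ∀ θ : ℝ, 2 * (i : ℝ) < θ → (((Finset.range M).filter fun l => θ ≤ c l).card : ℝ) =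
      ∑ q ∈ Finset.range i, (k q : ℝ) * (if θ ≤ 2 * lam ^ (Q q - 1) then (1 : ℝ) else 0) +
        2 * (if θ ≤ sA then (1 : ℝ) else 0) := by
    intro θ hθ
    rw [card_t6]
    have h1 := hcF (fun x => if θ ≤ x then (1 : ℝ) else 0) (fun x hx => if_neg (by linarith))
    have h2 := hsum (fun x => if θ ≤ x then (1 : ℝ) else 0)
    exact h1.trans h2
  have hnn0 : ∀ θ : ℝ, ∀ q ∈ Finset.range i,
      0 ≤ (k q : ℝ) * (if θ ≤ 2 * lam ^ (Q q - 1) then (1 : ℝ) else 0) := by
    intro θ q _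
    split_ifs
    · positivity
    · rw [mul_zero]
  have hcap : ∀ l, c l ≤ sA := by
    intro l
    rcases hccap l with h | ⟨l', h⟩
    · exact h.trans hsA1.le
    · rw [h]
      rcases hw2 l' with h1 | ⟨q, h1, h2, h3⟩
      · rw [h1]
        linarith
      · rw [h3]
        by_cases hq : q < i
        · rw [hsq q hq]
          have h4 : P q ∧ E q ≤ i / 2 := by
            by_contra h5
            rw [hkq q hq, if_neg h5] at h2
            exact h2 rfl
          exact hAQ q hq h4.1 h4.2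
        · have h4 : q = i := by omega
          rw [h4, hsi]
  refine ⟨c, hc0, hcs, hc3, hcap, ?_, fun q hq hPq hEq => ?_, fun θ hθ => ?_⟩
  · -- two large gaps
    have h1 := hcnt sA hsA1
    rw [if_pos le_rfl] at h1
    have h2 := Finset.sum_nonneg (hnn0 sA)
    have h3 : (1 : ℝ) < (((Finset.range M).filter fun l => sA ≤ c l).card : ℝ) := by
      rw [h1]
      linarith
    have h4 : 1 < ((Finset.range M).filter fun l => sA ≤ c l).card := by exact_mod_cast h3
    obtain ⟨l₁, hl1, l₂, hl2, hne⟩ := Finset.one_lt_card.1 h4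
    rw [Finset.mem_filter, Finset.mem_range] at hl1 hl2
    exact ⟨l₁, l₂, hl1.1, hl2.1, hne, le_antisymm (hcap _) hl1.2, le_antisymm (hcap _) hl2.2⟩
  · -- many gaps of size `2 lam ^ (Q q - 1)`
    have h1 := hcnt (2 * lam ^ (Q q - 1)) (by
      have := g3 q (Finset.mem_range.2 hq)
      linarith)
    rw [h1]
    have h2 := Finset.single_le_sum (hnn0 (2 * lam ^ (Q q - 1))) (Finset.mem_range.2 hq)
    rw [if_pos le_rfl, mul_one] at h2
    have h3 : 0 ≤ 2 * (if 2 * lam ^ (Q q - 1) ≤ sA then (1 : ℝ) else 0) := by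
      split_ifs <;> norm_num
    have h4 : (k q : ℝ) = (⌊X q⌋₊ : ℝ) := by
      rw [hkq q hq, if_pos ⟨hPq, hEq⟩]
    have h5 : 1 ≤ X q := by
      show 1 ≤ M * lam ^ (1 - E q) / (i : ℝ) ^ 3
      rw [one_le_div (by positivity)]
      calc (i : ℝ) ^ 3 ≤ lam ^ 3 := pow_le_pow_left₀ hi0.le hilam 3
        _ = lam ^ (3 : ℝ) := by
            rw [← Real.rpow_natCast]
            norm_num
        _ ≤ lam ^ ((i : ℝ) + (1 - E q)) := Real.rpow_le_rpow_of_exponent_le hlam1 (by linarith)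
        _ = lam ^ i * lam ^ (1 - E q) := by rw [Real.rpow_add hlam0, Real.rpow_natCast]
        _ ≤ M * lam ^ (1 - E q) := mul_le_mul_of_nonneg_right hM1 (hpos _).le
    have h6 : X q / 2 ≤ (⌊X q⌋₊ : ℝ) := (Nat.div_two_lt_floor h5).le
    have h7 : M * lam ^ (1 - E q) / (2 * (i : ℝ) ^ 3) = X q / 2 := by
      show _ = M * lam ^ (1 - E q) / (i : ℝ) ^ 3 / 2
      field_simp
    rw [h7]
    linarith
  · -- the upper bound
    rw [hcnt θ hθ, add_comm]
    refine add_le_add ?_ (Finset.sum_le_sum fun q hq => ?_)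
    · split_ifs <;> norm_num
    · have hq' := Finset.mem_range.1 hq
      by_cases h1 : P q ∧ E q ≤ i / 2
      · by_cases h2 : θ ≤ 2 * lam ^ (Q q - 1)
        · rw [if_pos h2, if_pos ⟨h1.1, h1.2, h2⟩, mul_one]
          refine (hkX q hq').trans ?_
          show M * lam ^ (1 - E q) / (i : ℝ) ^ 3 ≤ M * lam ^ (1 - E q)
          have h3 := hpos (1 - E q)
          apply div_le_self (by positivity)
          exact one_le_pow₀ (by linarith)
        · rw [if_neg h2, mul_zero, if_neg (fun h => h2 h.2.2)]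
      · rw [hkq q hq', if_neg h1, Nat.cast_zero, zero_mul, if_neg (fun h => h1 ⟨h.1, h.2.1⟩)]

end Pool.Agent.H521.G
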