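import Pool.Agent.H521.G.T4Qa
import Pool.Agent.H521.G.Template7
import Pool.Agent.H521.G.StageArith8
import Pool.Agent.H521.G.Summ6
import Pool.Agent.H521.G.Forder8

open MeasureTheory Set Filter Topology
open scoped ENNReal NNReal ComplexConjugate Classical

namespace Pool.Agent.H521.G

/-- The properties of the pattern of a block. -/
structure Tm6 (γ : ℕ → ℝ) (Q E : ℕ → ℝ) (P : ℕ → Prop) (i : ℕ) (s lam : ℝ) (m : ℕ) (c : ℕ → ℝ) :
    Prop where
  pos : ∀ l, 0 < c l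
  sum : ∑ l ∈ Finset.range m, c l = m
  near : (((Finset.range m).filter fun l => 2 / (i : ℝ) < |c l - γ l|).card : ℝ) ≤ 6 / i * m
  le : ∀ l, c l ≤ s
  forced : ∃ l₁ l₂, l₁ < m ∧ l₂ < m ∧ l₁ ≠ l₂ ∧ c l₁ = s ∧ c l₂ = s
  lo : ∀ q, q < i → P q → E q ≤ i / 2 → m * lam ^ (1 - E q) / (2 * i ^ 3) ≤
    (((Finset.range m).filter fun l => 2 * lam ^ (Q q - 1) ≤ c l).card : ℝ)
  up : ∀ θ : ℝ, 2 * (i : ℝ) < θ → (((Finset.range m).filter fun l => θ ≤ c l).card : ℝ) ≤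
    2 + ∑ q ∈ Finset.range i, (if P q ∧ E q ≤ i / 2 ∧ θ ≤ 2 * lam ^ (Q q - 1) then
      m * lam ^ (1 - E q) else 0)

/-- The maximal entry of a pattern. -/
noncomputable def sz (f : ℝ → ℝ) (x₀ : ℝ) (h : ℝ → ℝ) (u : ℕ) : ℝ :=
  h (phi f x₀ u) / lamb f x₀ u

/-- block length of stage `i` -/
noncomputable def mst6 (f : ℝ → ℝ) (x₀ : ℝ) (h : ℝ → ℝ) (i u : ℕ) : ℕ :=
  ⌈lamb f x₀ u ^ i * sz f x₀ h u⌉₊

/-- The properties of a block starting at `u` with stage `i`. -/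
structure GB6 (f : ℝ → ℝ) (x₀ : ℝ) (γ : ℕ → ℝ) (Q E : ℕ → ℝ) (P : ℕ → Prop) (ω h : ℝ → ℝ)
    (i u m : ℕ) (c : ℕ → ℝ) : Prop where
  tm : Tm6 γ Q E P i (sz f x₀ h u) (lamb f x₀ u) m c
  ge : lamb f x₀ u ^ i ≤ m
  il : (i : ℝ) ^ i ≤ lamb f x₀ u
  phi : phi f x₀ ((u + m + 1 : ℕ) : ℝ) ≤ (1 + 1 / i) * phi f x₀ u
  om : ∀ x, Pool.Agent.H521.G.phi f x₀ u ≤ x → 4 * ((m : ℝ) + 1) ≤ h x * Real.log x ^ ω x
  small : i * (m + 1) ≤ u
  sep : ∀ q, q < i → ∀ q', q' < i → Q q < Q q' →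
    2 * lamb f x₀ u ^ (Q q - 1) < lamb f x₀ u ^ (Q q' - 1) / 2

/-- The conditions on a block starting at `u` with stage `i`. -/
def StP6 (f : ℝ → ℝ) (x₀ : ℝ) (γ : ℕ → ℝ) (Q E : ℕ → ℝ) (P : ℕ → Prop) (ω h : ℝ → ℝ) (I₀ : ℕ)
    (i u : ℕ) : Prop :=
  i < I₀ ∨ ((∃ c, Tm6 γ Q E P i (sz f x₀ h u) (lamb f x₀ u) (mst6 f x₀ h i u) c) ∧
    (i : ℝ) ^ i ≤ lamb f x₀ u ∧
    (mst6 f x₀ h i u : ℝ) ≤ phi f x₀ u ^ (1 / (i : ℝ)) ∧
    phi f x₀ ((u + mst6 f x₀ h i u + 1 : ℕ) : ℝ) ≤ (1 + 1 / i) * phi f x₀ u ∧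
    (∀ x, phi f x₀ u ≤ x → 4 * ((mst6 f x₀ h i u : ℝ) + 1) ≤ h x * Real.log x ^ ω x) ∧
    i * (mst6 f x₀ h i u + 1) ≤ u ∧
    (∀ q, q < i → ∀ q', q' < i → Q q < Q q' →
      2 * lamb f x₀ u ^ (Q q - 1) < lamb f x₀ u ^ (Q q' - 1) / 2) ∧
    lamb f x₀ u ^ i ≤ mst6 f x₀ h i u)

theorem sep_ev (Q : ℕ → ℝ) (i : ℕ) : ∀ᶠ lam : ℝ in atTop, ∀ q, q < i → ∀ q', q' < i → Q q < Q q' →
    2 * lam ^ (Q q - 1) < lam ^ (Q q' - 1) / 2 := by
  have h : ∀ᶠ lam : ℝ in atTop, ∀ q ∈ Finset.range i, ∀ q' ∈ Finset.range i, Q q < Q q' →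
      2 * lam ^ (Q q - 1) < lam ^ (Q q' - 1) / 2 := by
    rw [Filter.eventually_all_finset]
    intro q _
    rw [Filter.eventually_all_finset]
    intro q' _
    by_cases hq : Q q < Q q'
    · filter_upwards [(tendsto_rpow_atTop (by linarith : 0 < Q q' - Q q)).eventually_gt_atTop 4,
        eventually_gt_atTop 0] with lam h1 h2 _
      have e : lam ^ (Q q' - 1) = lam ^ (Q q' - Q q) * lam ^ (Q q - 1) := by
        rw [← Real.rpow_add h2]; congr 1; ring
      have h3 : 0 < lam ^ (Q q - 1) := Real.rpow_pos_of_pos h2 _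
      rw [e]
      nlinarith
    · exact Filter.Eventually.of_forall fun lam h => absurd h hq
  filter_upwards [h] with lam h q hq q' hq' hqq
  exact h q (Finset.mem_range.2 hq) q' (Finset.mem_range.2 hq') hqq

theorem StP6_ev {f : ℝ → ℝ} {x₀ : ℝ} (hR : RDens f x₀) {γ : ℕ → ℝ} (hγ : ∀ n, 0 ≤ γ n)
    (hcond : ∀ K ε : ℝ, 0 < K → 0 < ε → ∀ᶠ N : ℕ in atTop,
      (∑ n ∈ Finset.range N, min (γ n) K) / N ≤ 1 + ε)
    {Q E : ℕ → ℝ} (hQ : ∀ q, 1 < Q q) {P : ℕ → Prop} (hQE : ∀ q, P q → Q q ≤ E q)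
    {ω h : ℝ → ℝ} (hω : Tendsto ω atTop atTop) (hmono : MonotoneOn h (Ici 2))
    (hh1 : Tendsto (fun x => h x / Real.log x) atTop atTop)
    (hh2 : Tendsto (fun x => Real.log (h x) / Real.log x) atTop (𝓝 0))
    (hPA : ∀ q, P q → ENNReal.ofReal (Q q) < lexp h) {I₀ : ℕ} (hI : 12 ≤ I₀) (i : ℕ) :
    ∀ᶠ u in atTop, StP6 f x₀ γ Q E P ω h I₀ i u := by
  rcases lt_or_ge i I₀ with hi | hi
  · exact Filter.Eventually.of_forall fun u => Or.inl hi
  have hi12 : 12 ≤ i := hI.trans hi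
  have hi0 : (0 : ℝ) < i := by exact_mod_cast (by omega : 0 < i)
  have hi1 : (1 : ℝ) ≤ i := by exact_mod_cast (by omega : 1 ≤ i)
  obtain ⟨Λ, hΛ⟩ := exists_template7 hγ hcond hQ P hQE i hi12
  obtain ⟨X, hX⟩ := eventually_atTop.1 (hω.eventually_ge_atTop ((i : ℝ) + 1))
  have hlt := lamb_tendsto hR
  have hphit : Tendsto (fun u : ℕ => phi f x₀ u) atTop atTop :=
    hR.phi_tendsto.comp tendsto_natCast_atTop_atTop
  have hT : ∀ δ : ℝ, 0 < δ → ∀ᶠ u : ℕ in atTop,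
      lamb f x₀ u ^ i * sz f x₀ h u ≤ phi f x₀ u ^ δ := by
    intro δ hδ
    have e1 := hphit.eventually (stage_arith_aux 1 i (half_pos hδ))
    have e2 := hphit.eventually (hh2.eventually_lt_const (half_pos hδ))
    have e3 := hphit.eventually (hh1.eventually_gt_atTop 0)
    filter_upwards [e1, e2, e3] with u h1 h2 h3
    have hl := two_le_lamb hR u
    have hφ0 := hR.phi_pos (u : ℝ)
    have hlam : Real.log (phi f x₀ u) = lamb f x₀ u := rfl
    rw [hlam] at h1 h2 h3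
    have hl0 : 0 < lamb f x₀ u := by linarith
    have h4 : 0 < h (phi f x₀ u) := by
      have := mul_pos h3 hl0
      rwa [div_mul_cancel₀ _ hl0.ne'] at this
    rw [div_lt_iff₀ hl0] at h2
    have h5 : h (phi f x₀ u) ≤ phi f x₀ u ^ (δ / 2) := by
      rw [← Real.log_le_log_iff h4 (Real.rpow_pos_of_pos hφ0 _), Real.log_rpow hφ0, hlam]
      exact h2.le
    have h6 : sz f x₀ h u ≤ phi f x₀ u ^ (δ / 2) := by
      unfold sz
      rw [div_le_iff₀ hl0]
      have : 0 < phi f x₀ u ^ (δ / 2) := Real.rpow_pos_of_pos hφ0 _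
      nlinarith
    have e : phi f x₀ u ^ δ = phi f x₀ u ^ (δ / 2) * phi f x₀ u ^ (δ / 2) := by
      rw [← Real.rpow_add hφ0]; congr 1; ring
    rw [one_mul] at h1
    rw [e]
    have h7 : 0 ≤ sz f x₀ h u := by
      unfold sz
      positivity
    exact mul_le_mul h1 h6 h7 (Real.rpow_nonneg hφ0.le _)
  have hsa := stage_arith8 (φ := fun u : ℕ => phi f x₀ u) hphit (x₀ := x₀) (fun u => by
    have h4 := hR.phi_sub_le le_rfl (Nat.cast_nonneg u)
    rw [hR.phi_zero, sub_zero] at h4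
    have e : (u : ℝ) * (2 * Real.log (phi f x₀ u)) = 2 * u * Real.log (phi f x₀ u) := by ring
    linarith) hT i hi12
  have hfo := hphit.eventually (forder8 hh1 i (Q := Q))
  filter_upwards [hlt.eventually_ge_atTop Λ, hlt.eventually_ge_atTop (2 * (i : ℝ) ^ 2 + 12),
    hphit.eventually_ge_atTop X, hsa, hfo, hlt.eventually (sep_ev Q i),
    hphit.eventually_ge_atTop 2] with u h1 h2 h3 ⟨h4, h5, h6, h7, h8⟩ ⟨h9, h11⟩ h12 h13
  right
  have hlam : Real.log (phi f x₀ u) = lamb f x₀ u := rfl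
  have hs9 : 2 * (i : ℝ) < sz f x₀ h u := h9
  rw [hlam] at h4 h8 h11
  set L := lamb f x₀ u with hL
  set s := sz f x₀ h u with hs
  have hi22 : 0 ≤ 2 * (i : ℝ) ^ 2 := by positivity
  have hL12 : 12 ≤ L := by linarith
  have hs1 : 1 ≤ s := by linarith
  have hL1 : 1 ≤ L ^ i := one_le_pow₀ (by linarith)
  have hLs : L ^ i ≤ L ^ i * s := le_mul_of_one_le_right (by linarith) hs1
  have hm1 : L ^ i * s ≤ mst6 f x₀ h i u := Nat.le_ceil _
  have hm2 : (mst6 f x₀ h i u : ℝ) ≤ 2 * (L ^ i * s) := by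
    have := (Nat.ceil_lt_add_one (by positivity : 0 ≤ L ^ i * s)).le
    have e : mst6 f x₀ h i u = ⌈L ^ i * s⌉₊ := rfl
    rw [e]
    linarith
  have hm3 : (mst6 f x₀ h i u : ℝ) + 1 ≤ 3 * (L ^ i * s) := by linarith
  have hφ0 := hR.phi_pos (u : ℝ)
  refine ⟨?_, h4, hm2.trans h5, ?_, ?_, ?_, h12, hLs.trans hm1⟩
  · obtain ⟨c, c1, c2, c3, c4, c5, c6, c7⟩ := hΛ L h1 s hs9
      (fun q hq hP _ => h11 q hq (hPA q hP)) (mst6 f x₀ h i u) (hLs.trans hm1) (by
        refine le_trans ?_ hm1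
        apply mul_le_mul_of_nonneg_right _ (by linarith)
        have h14 : L ≤ L ^ i := le_self_pow₀ (by linarith) (by omega)
        linarith)
    exact ⟨c, c1, c2, c3, c4, c5, c6, c7⟩
  · have h13 := phi_block hR (Nat.cast_nonneg u) (N := ((mst6 f x₀ h i u : ℝ) + 1) / 2)
      (by positivity) (by linarith)
    have e : (u : ℝ) + 2 * (((mst6 f x₀ h i u : ℝ) + 1) / 2) =
        ((u + mst6 f x₀ h i u + 1 : ℕ) : ℝ) := by
      push_cast; ring
    rw [e] at h13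
    have h14 : 8 * (((mst6 f x₀ h i u : ℝ) + 1) / 2) * Real.log (phi f x₀ u) ≤
        1 / i * phi f x₀ u := by
      rw [hlam]
      have h15 : 8 * (((mst6 f x₀ h i u : ℝ) + 1) / 2) * L ≤ 4 * (4 * (L ^ i * s)) * L :=
        mul_le_mul_of_nonneg_right (by linarith) (by linarith)
      rw [div_mul_eq_mul_div, one_mul, le_div_iff₀ hi0]
      calc 8 * (((mst6 f x₀ h i u : ℝ) + 1) / 2) * L * i ≤ 4 * (4 * (L ^ i * s)) * L * i :=
            mul_le_mul_of_nonneg_right h15 hi0.le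
        _ = 4 * i * (4 * (L ^ i * s)) * L := by ring
        _ ≤ phi f x₀ u := h8
    linarith
  · intro x hx
    have h14' := hX x (h3.trans hx)
    have h14 : L ≤ Real.log x := Real.log_le_log hφ0 hx
    have h15 : 1 ≤ Real.log x := by linarith
    have h16 : h (phi f x₀ u) ≤ h x :=
      hmono (by simp only [mem_Ici]; exact h13) (by simp only [mem_Ici]; linarith) hx
    have h17 : L * s = h (phi f x₀ u) := by
      have e : s = h (phi f x₀ u) / L := rfl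
      rw [e]
      field_simp
    have h18 : 0 ≤ h (phi f x₀ u) := by
      rw [← h17]; positivity
    calc 4 * ((mst6 f x₀ h i u : ℝ) + 1) ≤ 12 * (L ^ i * s) := by linarith
      _ ≤ L * (L ^ i * s) := mul_le_mul_of_nonneg_right hL12 (by positivity)
      _ = h (phi f x₀ u) * L ^ i := by rw [← h17]; ring
      _ ≤ h x * L ^ (i + 1) := by
          apply mul_le_mul h16 _ (by positivity) (h18.trans h16)
          exact pow_le_pow_right₀ (by linarith) (by omega)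
      _ ≤ h x * Real.log x ^ (i + 1) :=
          mul_le_mul_of_nonneg_left (pow_le_pow_left₀ (by linarith) h14 _) (h18.trans h16)
      _ = h x * Real.log x ^ ((i + 1 : ℕ) : ℝ) := by rw [Real.rpow_natCast]
      _ ≤ h x * Real.log x ^ ω x := by
          apply mul_le_mul_of_nonneg_left _ (h18.trans h16)
          exact Real.rpow_le_rpow_of_exponent_le h15 (by push_cast; exact h14')
  · have h13 : (i : ℝ) * (mst6 f x₀ h i u + 1) ≤ u := by
      calc (i : ℝ) * (mst6 f x₀ h i u + 1) ≤ i * (4 * (L ^ i * s)) :=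
            mul_le_mul_of_nonneg_left (by linarith) hi0.le
        _ = 4 * i * (L ^ i * s) := by ring
        _ ≤ u := h6
    exact_mod_cast h13

theorem tq6_exists {f : ℝ → ℝ} {x₀ : ℝ} (hR : RDens f x₀)
    (h8 : ∀ u, x₀ ≤ u → 8 * Real.log u ≤ u) {γ : ℕ → ℝ} (hγ : ∀ n, 0 ≤ γ n)
    (hcond : ∀ K ε : ℝ, 0 < K → 0 < ε → ∀ᶠ N : ℕ in atTop,
      (∑ n ∈ Finset.range N, min (γ n) K) / N ≤ 1 + ε)
    {Q E : ℕ → ℝ} (hQ : ∀ q, 1 < Q q) {P : ℕ → Prop} (hQE : ∀ q, P q → Q q ≤ E q)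
    {ω h : ℝ → ℝ} (hω : Tendsto ω atTop atTop) (hmono : MonotoneOn h (Ici 2))
    (hh1 : Tendsto (fun x => h x / Real.log x) atTop atTop)
    (hh2 : Tendsto (fun x => Real.log (h x) / Real.log x) atTop (𝓝 0))
    (hPA : ∀ q, P q → ENNReal.ofReal (Q q) < lexp h) {I₀ : ℕ} (hI : 12 ≤ I₀) :
    ∃ (D : TQ f x₀) (st : ℕ → ℕ), Tendsto st atTop atTop ∧
      (∀ u, I₀ ≤ st u → GB6 f x₀ γ Q E P ω h (st u) u (D.M u) (D.C u)) := by
  obtain ⟨st, hst, hP, -⟩ := exists_stage (P := StP6 f x₀ γ Q E P ω h I₀)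
    (fun u => Or.inl (by omega)) (StP6_ev hR hγ hcond hQ hQE hω hmono hh1 hh2 hPA hI)
  have hex : ∀ u, ∃ c : ℕ → ℝ, (st u < I₀ → ∀ l, c l = 1) ∧
      (I₀ ≤ st u → Tm6 γ Q E P (st u) (sz f x₀ h u) (lamb f x₀ u) (mst6 f x₀ h (st u) u) c) := by
    intro u
    rcases lt_or_ge (st u) I₀ with h' | h'
    · exact ⟨fun _ => 1, fun _ _ => rfl, fun h'' => by omega⟩
    · rcases hP u with h'' | ⟨⟨c, hc⟩, -⟩
      · omega
      · exact ⟨c, fun h'' => by omega, fun _ => hc⟩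
  choose C hC1 hC2 using hex
  have hl2 := two_le_lamb hR
  have hge : ∀ u, I₀ ≤ st u → lamb f x₀ u ^ st u ≤ mst6 f x₀ h (st u) u := by
    intro u hu
    rcases hP u with h' | h'
    · omega
    · exact h'.2.2.2.2.2.2.2
  have hphi2 : ∀ u, I₀ ≤ st u → Pool.Agent.H521.G.phi f x₀ ((u + mst6 f x₀ h (st u) u + 1 : ℕ) : ℝ) ≤
      (1 + 1 / st u) * Pool.Agent.H521.G.phi f x₀ u := by
    intro u hu
    rcases hP u with h' | ⟨-, -, -, h', -⟩
    · omega
    · exact h'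
  refine ⟨{ M := fun u => if st u < I₀ then 1 else mst6 f x₀ h (st u) u
            C := C
            Mpos := ?_
            Cpos := ?_
            Csum := ?_
            hS := ?_
            two := ?_ }, st, hst, ?_⟩
  · intro u
    by_cases h' : st u < I₀
    · rw [if_pos h']; exact one_pos
    · rw [if_neg h']
      have h'' : 2 * lamb f x₀ u ^ st u ≤ 2 * (mst6 f x₀ h (st u) u : ℝ) :=
        by linarith [hge u (by omega)]
      have h3 : (0 : ℝ) < mst6 f x₀ h (st u) u := by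
        have := hl2 u
        have h4 : 0 < lamb f x₀ u ^ st u := by positivity
        linarith
      exact_mod_cast h3
  · intro u l
    by_cases h' : st u < I₀
    · rw [hC1 u h']; exact one_pos
    · exact (hC2 u (by omega)).pos l
  · intro u
    by_cases h' : st u < I₀
    · simp only [if_pos h']
      rw [Finset.sum_range_one, hC1 u h']
      simp
    · simp only [if_neg h']
      exact (hC2 u (by omega)).sum
  · intro σ hσ
    refine summ6 (φ := fun u : ℕ => Pool.Agent.H521.G.phi f x₀ u)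
      (fun u => phi_ge_succ hR (le_refl (u : ℝ))) hst ?_ hσ
    filter_upwards [hst.eventually_ge_atTop I₀] with u hu
    rw [if_neg (by omega)]
    rcases hP u with h' | ⟨-, -, h', -⟩
    · omega
    · exact h'
  · intro u
    by_cases h' : st u < I₀
    · simp only [if_pos h']
      have h1 := phi_block hR (Nat.cast_nonneg u) (N := 1) (by norm_num) (by
        linarith [hR.phi_eight_le (u : ℝ)])
      have h2 := h8 _ (hR.phi_ge (u : ℝ))
      have e : (u : ℝ) + 2 * 1 = ((u + 1 + 1 : ℕ) : ℝ) := by push_cast; ring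
      rw [e] at h1
      linarith
    · simp only [if_neg h']
      have h1 := hphi2 u (by omega)
      have h2 : (1 : ℝ) / st u ≤ 1 := by
        have : (1 : ℝ) ≤ st u := by exact_mod_cast (by omega : 1 ≤ st u)
        rw [div_le_one (by linarith)]
        exact this
      have h3 := hR.phi_pos (u : ℝ)
      nlinarith
  · intro u hu
    have h' : ¬ st u < I₀ := by omega
    rcases hP u with h'' | ⟨-, h1, -, h3, h4, h5, h6, h7⟩
    · omega
    · have e : (if st u < I₀ then 1 else mst6 f x₀ h (st u) u) = mst6 f x₀ h (st u) u := if_neg h'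
      exact ⟨by simp only [e]; exact hC2 u hu, by simp only [e]; exact h7, h1,
        by simp only [e]; exact h3, by simp only [e]; exact h4, by simp only [e]; exact h5, h6⟩

end Pool.Agent.H521.G
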