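import Pool.Agent.H521.G.T6Qa
import Pool.Agent.H521.G.StageArith9
import Pool.Agent.H521.G.Summ8

open MeasureTheory Set Filter Topology
open scoped ENNReal NNReal ComplexConjugate Classical

namespace Pool.Agent.H521.G

/-- The maximal entry of a pattern: the order function for special blocks, and truncated at a power
of the logarithm for the others. -/
noncomputable def cap8 (f : ℝ → ℝ) (x₀ : ℝ) (h : ℝ → ℝ) (b : Bool) (i u : ℕ) : ℝ :=
  if b then sz f x₀ h u else min (sz f x₀ h u) (lamb f x₀ u ^ i)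

/-- block length of stage `i` -/
noncomputable def mst8 (f : ℝ → ℝ) (x₀ : ℝ) (h : ℝ → ℝ) (b : Bool) (i u : ℕ) : ℕ :=
  ⌈lamb f x₀ u ^ i * cap8 f x₀ h b i u⌉₊

/-- The properties of a block starting at `u` with stage `i`. -/
structure GB8 (f : ℝ → ℝ) (x₀ : ℝ) (γ : ℕ → ℝ) (Q E : ℕ → ℝ) (P : ℕ → Prop) (ω h : ℝ → ℝ)
    (i u m : ℕ) (c : ℕ → ℝ) (s : ℝ) : Prop where
  tm : Tm6 γ Q E P i s (lamb f x₀ u) m c
  cap : s ≤ sz f x₀ h u
  ge : lamb f x₀ u ^ i ≤ m
  il : (i : ℝ) ^ i ≤ lamb f x₀ u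
  phi : phi f x₀ ((u + m + 1 : ℕ) : ℝ) ≤ (1 + 1 / i) * phi f x₀ u
  grow : Pool.Agent.H521.G.phi f x₀ ((u + m + 1 : ℕ) : ℝ) ≤
    Pool.Agent.H521.G.phi f x₀ u + Pool.Agent.H521.G.phi f x₀ u ^ (3 / 4 : ℝ)
  om : ∀ x, Pool.Agent.H521.G.phi f x₀ u ≤ x → 4 * ((m : ℝ) + 1) ≤ h x * Real.log x ^ ω x
  small : i * (m + 1) ≤ u
  sep : ∀ q, q < i → ∀ q', q' < i → Q q < Q q' →
    2 * lamb f x₀ u ^ (Q q - 1) < lamb f x₀ u ^ (Q q' - 1) / 2

/-- The conditions on a block starting at `u` with stage `i`. -/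
def StP8 (f : ℝ → ℝ) (x₀ : ℝ) (γ : ℕ → ℝ) (Q E : ℕ → ℝ) (P : ℕ → Prop) (ω h : ℝ → ℝ)
    (i u : ℕ) : Prop :=
  i < 12 ∨ ((∀ b : Bool, ∃ c, GB8 f x₀ γ Q E P ω h i u (mst8 f x₀ h b i u) c
      (cap8 f x₀ h b i u)) ∧
    (mst8 f x₀ h false i u : ℝ) ≤ phi f x₀ u ^ (1 / (i : ℝ)) ∧
    (mst8 f x₀ h true i u : ℝ) ≤ phi f x₀ u ^ (1 / 2 + 1 / (i : ℝ)))

theorem StP8_ev {f : ℝ → ℝ} {x₀ : ℝ} (hR : RDens f x₀) {γ : ℕ → ℝ} (hγ : ∀ n, 0 ≤ γ n)
    (hcond : ∀ K ε : ℝ, 0 < K → 0 < ε → ∀ᶠ N : ℕ in atTop,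
      (∑ n ∈ Finset.range N, min (γ n) K) / N ≤ 1 + ε)
    {Q E : ℕ → ℝ} (hQ : ∀ q, 1 < Q q) {P : ℕ → Prop} (hQE : ∀ q, P q → Q q ≤ E q)
    {ω h : ℝ → ℝ} (hω : Tendsto ω atTop atTop) (hmono : MonotoneOn h (Ici 2))
    (hh1 : Tendsto (fun x => h x / Real.log x) atTop atTop)
    (hh2 : ∀ ε : ℝ, 0 < ε → ∀ᶠ x in atTop, h x ≤ x ^ (1 / 2 + ε))
    (hPA : ∀ q, P q → ENNReal.ofReal (Q q) < lexp h) (i : ℕ) :
    ∀ᶠ u in atTop, StP8 f x₀ γ Q E P ω h i u := by
  rcases lt_or_ge i 12 with hi12 | hi12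
  · exact Filter.Eventually.of_forall fun u => Or.inl hi12
  have hi0 : (0 : ℝ) < i := by exact_mod_cast (by omega : 0 < i)
  have hi1 : (1 : ℝ) ≤ i := by exact_mod_cast (by omega : 1 ≤ i)
  obtain ⟨Λ, hΛ⟩ := exists_template7 hγ hcond hQ P hQE i hi12
  obtain ⟨X, hX⟩ := eventually_atTop.1 (hω.eventually_ge_atTop ((i : ℝ) + 1))
  have hlt := lamb_tendsto hR
  have hphit : Tendsto (fun u : ℕ => phi f x₀ u) atTop atTop :=
    hR.phi_tendsto.comp tendsto_natCast_atTop_atTop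
  have hszb : ∀ᶠ u : ℕ in atTop, 2 * (i : ℝ) < sz f x₀ h u := hphit.eventually
    (hh1.eventually_gt_atTop (2 * (i : ℝ)))
  -- basic bounds for the two sizes
  have hT1 : ∀ δ : ℝ, 0 < δ → ∀ᶠ u : ℕ in atTop,
      lamb f x₀ u ^ i * sz f x₀ h u ≤ phi f x₀ u ^ (1 / 2 + δ) := by
    intro δ hδ
    have e1 := hphit.eventually (stage_arith_aux 1 i (half_pos hδ))
    have e2 := hphit.eventually (hh2 (δ / 2) (half_pos hδ))
    filter_upwards [e1, e2, hszb] with u h1 h2 h3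
    have hl := two_le_lamb hR u
    have hφ0 := hR.phi_pos (u : ℝ)
    have hlam : Real.log (phi f x₀ u) = lamb f x₀ u := rfl
    rw [hlam] at h1
    have hl0 : 0 < lamb f x₀ u := by linarith
    have h6 : sz f x₀ h u ≤ phi f x₀ u ^ (1 / 2 + δ / 2) := by
      unfold sz
      rw [div_le_iff₀ hl0]
      have : 0 < phi f x₀ u ^ (1 / 2 + δ / 2) := Real.rpow_pos_of_pos hφ0 _
      nlinarith
    have e : phi f x₀ u ^ (1 / 2 + δ) = phi f x₀ u ^ (δ / 2) * phi f x₀ u ^ (1 / 2 + δ / 2) := by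
      rw [← Real.rpow_add hφ0]; congr 1; ring
    rw [one_mul] at h1
    rw [e]
    exact mul_le_mul h1 h6 (by linarith) (Real.rpow_nonneg hφ0.le _)
  have hT2 : ∀ δ : ℝ, 0 < δ → ∀ᶠ u : ℕ in atTop,
      lamb f x₀ u ^ i * cap8 f x₀ h false i u ≤ phi f x₀ u ^ δ := by
    intro δ hδ
    have e1 := hphit.eventually (stage_arith_aux 1 (i + i) hδ)
    filter_upwards [e1] with u h1
    have hl := two_le_lamb hR u
    have hlam : Real.log (phi f x₀ u) = lamb f x₀ u := rfl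
    rw [hlam, one_mul, pow_add] at h1
    refine le_trans ?_ h1
    apply mul_le_mul_of_nonneg_left _ (by positivity)
    unfold cap8
    simp only [Bool.false_eq_true, if_false]
    exact min_le_right _ _
  have hcapsz : ∀ (b : Bool) (u : ℕ), cap8 f x₀ h b i u ≤ sz f x₀ h u := by
    intro b u
    unfold cap8
    split_ifs
    · exact le_rfl
    · exact min_le_left _ _
  have hsa := stage_arith9 (φ := fun u : ℕ => phi f x₀ u) hphit (x₀ := x₀) (fun u => by
    have h4 := hR.phi_sub_le le_rfl (Nat.cast_nonneg u)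
    rw [hR.phi_zero, sub_zero] at h4
    have e : (u : ℝ) * (2 * Real.log (phi f x₀ u)) = 2 * u * Real.log (phi f x₀ u) := by ring
    linarith) (T := fun u => |lamb f x₀ u ^ i * sz f x₀ h u|) (fun u => abs_nonneg _) (by
      filter_upwards [hT1 (1 / 8) (by norm_num), hszb] with u h1 h2
      have hl := two_le_lamb hR u
      have h3 : 0 ≤ lamb f x₀ u ^ i * sz f x₀ h u :=
        mul_nonneg (by positivity) (by linarith)
      rw [abs_of_nonneg h3]
      have e : (5 / 8 : ℝ) = 1 / 2 + 1 / 8 := by norm_num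
      rw [e]
      exact h1) i hi12
  have hfo := hphit.eventually (forder8 hh1 i (Q := Q))
  have hil := hlt.eventually_ge_atTop ((i : ℝ) ^ i)
  have hT2' := hT2 (1 / (i : ℝ) / 2) (by positivity)
  have hT1' := hT1 (1 / (i : ℝ) / 2) (by positivity)
  have h2ev := ((tendsto_rpow_atTop (by positivity : 0 < 1 / (i : ℝ) / 2)).comp
    hphit).eventually_ge_atTop 2
  filter_upwards [hlt.eventually_ge_atTop Λ, hlt.eventually_ge_atTop (2 * (i : ℝ) ^ 2 + 12),
    hphit.eventually_ge_atTop X, hsa, hfo, hlt.eventually (sep_ev Q i),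
    hphit.eventually_ge_atTop 2, hil, hT2', hT1', h2ev]
    with u h1 h2 h3 ⟨h6, h7, h8, h8'⟩ ⟨h9, h11⟩ h12 h13 h4 h14 h15 h16
  right
  have hlam : Real.log (phi f x₀ u) = lamb f x₀ u := rfl
  have hs9 : 2 * (i : ℝ) < sz f x₀ h u := h9
  have h16' : 2 ≤ phi f x₀ u ^ (1 / (i : ℝ) / 2) := h16
  rw [hlam] at h8 h11
  set L := lamb f x₀ u with hL
  have hi22 : 0 ≤ 2 * (i : ℝ) ^ 2 := by positivity
  have hL12 : 12 ≤ L := by linarith
  have hL1 : 1 ≤ L ^ i := one_le_pow₀ (by linarith)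
  have hLL : L ≤ L ^ i := le_self_pow₀ (by linarith) (by omega)
  have hφ0 := hR.phi_pos (u : ℝ)
  have hT0 : 0 ≤ L ^ i * sz f x₀ h u := mul_nonneg (by positivity) (by linarith)
  rw [abs_of_nonneg hT0] at h6 h7 h8
  -- the cap
  have hcap2 : ∀ b : Bool, 2 * (i : ℝ) < cap8 f x₀ h b i u := by
    intro b
    unfold cap8
    split_ifs
    · exact hs9
    · apply lt_min hs9
      have : 2 * (i : ℝ) < L := by nlinarith
      linarith
  have hcapT : ∀ b : Bool, L ^ i * cap8 f x₀ h b i u ≤ L ^ i * sz f x₀ h u := fun b =>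
    mul_le_mul_of_nonneg_left (hcapsz b u) (by linarith)
  have hm1 : ∀ b : Bool, L ^ i * cap8 f x₀ h b i u ≤ mst8 f x₀ h b i u := fun b => Nat.le_ceil _
  have hLs : ∀ b : Bool, L ^ i ≤ L ^ i * cap8 f x₀ h b i u := fun b =>
    le_mul_of_one_le_right (by linarith) (by linarith [hcap2 b])
  have hm2 : ∀ b : Bool, (mst8 f x₀ h b i u : ℝ) ≤ 2 * (L ^ i * cap8 f x₀ h b i u) := by
    intro b
    have h0 : 0 ≤ L ^ i * cap8 f x₀ h b i u := by linarith [hLs b]
    have := (Nat.ceil_lt_add_one h0).le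
    have e : mst8 f x₀ h b i u = ⌈L ^ i * cap8 f x₀ h b i u⌉₊ := rfl
    rw [e]
    linarith [hLs b]
  have hm3 : ∀ b : Bool, (mst8 f x₀ h b i u : ℝ) + 1 ≤ 3 * (L ^ i * sz f x₀ h u) := fun b => by
    linarith [hm2 b, hcapT b, hLs b]
  have hgrow : ∀ b : Bool, phi f x₀ ((u + mst8 f x₀ h b i u + 1 : ℕ) : ℝ) - phi f x₀ u ≤
      16 * (L ^ i * sz f x₀ h u) * L := by
    intro b
    have h17 := phi_block hR (Nat.cast_nonneg u) (N := ((mst8 f x₀ h b i u : ℝ) + 1) / 2)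
      (by positivity) (by linarith [hm3 b])
    have e : (u : ℝ) + 2 * (((mst8 f x₀ h b i u : ℝ) + 1) / 2) =
        ((u + mst8 f x₀ h b i u + 1 : ℕ) : ℝ) := by
      push_cast; ring
    rw [e, hlam] at h17
    refine h17.trans ?_
    exact mul_le_mul_of_nonneg_right (by linarith [hm3 b]) (by linarith)
  have hg1 : 16 * (L ^ i * sz f x₀ h u) * L ≤ phi f x₀ u ^ (3 / 4 : ℝ) := by
    have h17 : 16 * (L ^ i * sz f x₀ h u) * L ≤ 16 * i * (L ^ i * sz f x₀ h u) * L := by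
      have h18 : 0 ≤ 16 * (L ^ i * sz f x₀ h u) * L := by positivity
      calc 16 * (L ^ i * sz f x₀ h u) * L ≤ i * (16 * (L ^ i * sz f x₀ h u) * L) :=
            le_mul_of_one_le_left h18 hi1
        _ = 16 * i * (L ^ i * sz f x₀ h u) * L := by ring
    linarith
  have hg2 : 16 * (L ^ i * sz f x₀ h u) * L ≤ 1 / i * phi f x₀ u := by
    rw [div_mul_eq_mul_div, one_mul, le_div_iff₀ hi0]
    calc 16 * (L ^ i * sz f x₀ h u) * L * i = 16 * i * (L ^ i * sz f x₀ h u) * L := by ring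
      _ ≤ phi f x₀ u := h8.trans h8'
  refine ⟨fun b => ?_, ?_, ?_⟩
  · obtain ⟨c, c1, c2, c3, c4, c5, c6, c7⟩ := hΛ L h1 (cap8 f x₀ h b i u) (hcap2 b)
      (fun q hq hP hE => by
        unfold cap8
        split_ifs
        · exact h11 q hq (hPA q hP)
        · apply le_min (h11 q hq (hPA q hP))
          have h17 : L ^ (Q q - 1) ≤ L ^ ((i : ℝ) - 1) :=
            Real.rpow_le_rpow_of_exponent_le (by linarith) (by linarith [hQE q hP])
          have h18 : L ^ i = L * L ^ ((i : ℝ) - 1) := by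
            rw [mul_comm, ← Real.rpow_add_one (by linarith), sub_add_cancel, Real.rpow_natCast]
          have h19 : 0 < L ^ ((i : ℝ) - 1) := Real.rpow_pos_of_pos (by linarith) _
          rw [h18]
          nlinarith) (mst8 f x₀ h b i u) ((hLs b).trans (hm1 b)) (by
        refine le_trans ?_ (hm1 b)
        apply mul_le_mul_of_nonneg_right _ (by linarith [hcap2 b])
        linarith)
    refine ⟨c, ⟨c1, c2, c3, c4, c5, c6, c7⟩, hcapsz b u, (hLs b).trans (hm1 b), h4, ?_, ?_, ?_, ?_,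
      h12⟩
    · linarith [hgrow b]
    · linarith [hgrow b]
    · intro x hx
      have h14' := hX x (h3.trans hx)
      have h17 : L ≤ Real.log x := Real.log_le_log hφ0 hx
      have h18 : 1 ≤ Real.log x := by linarith
      have h19 : h (phi f x₀ u) ≤ h x :=
        hmono (by simp only [mem_Ici]; exact h13) (by simp only [mem_Ici]; linarith) hx
      have h20 : L * sz f x₀ h u = h (phi f x₀ u) := by
        have e : sz f x₀ h u = h (phi f x₀ u) / L := rfl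
        rw [e]
        field_simp
      have h21 : 0 ≤ h (phi f x₀ u) := by
        rw [← h20]
        exact mul_nonneg (by linarith) (by linarith)
      calc 4 * ((mst8 f x₀ h b i u : ℝ) + 1) ≤ 12 * (L ^ i * sz f x₀ h u) := by linarith [hm3 b]
        _ ≤ L * (L ^ i * sz f x₀ h u) := mul_le_mul_of_nonneg_right hL12 hT0
        _ = h (phi f x₀ u) * L ^ i := by rw [← h20]; ring
        _ ≤ h x * L ^ (i + 1) := by
            apply mul_le_mul h19 _ (by positivity) (h21.trans h19)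
            exact pow_le_pow_right₀ (by linarith) (by omega)
        _ ≤ h x * Real.log x ^ (i + 1) :=
            mul_le_mul_of_nonneg_left (pow_le_pow_left₀ (by linarith) h17 _) (h21.trans h19)
        _ = h x * Real.log x ^ ((i + 1 : ℕ) : ℝ) := by rw [Real.rpow_natCast]
        _ ≤ h x * Real.log x ^ ω x := by
            apply mul_le_mul_of_nonneg_left _ (h21.trans h19)
            exact Real.rpow_le_rpow_of_exponent_le h18 (by push_cast; exact h14')
    · have h17 : (i : ℝ) * (mst8 f x₀ h b i u + 1) ≤ u := by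
        calc (i : ℝ) * (mst8 f x₀ h b i u + 1) ≤ i * (4 * (L ^ i * sz f x₀ h u)) :=
              mul_le_mul_of_nonneg_left (by linarith [hm3 b]) hi0.le
          _ = 4 * i * (L ^ i * sz f x₀ h u) := by ring
          _ ≤ u := h6
      exact_mod_cast h17
  · have e : phi f x₀ u ^ (1 / (i : ℝ)) =
        phi f x₀ u ^ (1 / (i : ℝ) / 2) * phi f x₀ u ^ (1 / (i : ℝ) / 2) := by
      rw [← Real.rpow_add hφ0]; congr 1; ring
    rw [e]
    calc (mst8 f x₀ h false i u : ℝ) ≤ 2 * (L ^ i * cap8 f x₀ h false i u) := hm2 false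
      _ ≤ 2 * phi f x₀ u ^ (1 / (i : ℝ) / 2) := by linarith
      _ ≤ _ := mul_le_mul_of_nonneg_right h16' (Real.rpow_nonneg hφ0.le _)
  · have e : phi f x₀ u ^ (1 / 2 + 1 / (i : ℝ)) =
        phi f x₀ u ^ (1 / (i : ℝ) / 2) * phi f x₀ u ^ (1 / 2 + 1 / (i : ℝ) / 2) := by
      rw [← Real.rpow_add hφ0]; congr 1; ring
    rw [e]
    calc (mst8 f x₀ h true i u : ℝ) ≤ 2 * (L ^ i * sz f x₀ h u) := by
          linarith [hm2 true, hcapT true]
      _ ≤ 2 * phi f x₀ u ^ (1 / 2 + 1 / (i : ℝ) / 2) := by linarith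
      _ ≤ _ := mul_le_mul_of_nonneg_right h16' (Real.rpow_nonneg hφ0.le _)

end Pool.Agent.H521.G
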