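import Pool.Agent.H521.G.T8b
import Pool.Agent.H521.G.StatTransfer2
import Pool.Agent.H521.G.StatHyp
import Pool.Agent.H521.G.Maier4

open MeasureTheory Set Filter Topology
open scoped ENNReal NNReal ComplexConjugate Classical

namespace Pool.Agent.H521.G

/-- The data of the construction. -/
structure T8 (Z : Multiset ℂ) (x₀ : ℝ) (γ : ℕ → ℝ) (Q E : ℕ → ℝ) (P : ℕ → Prop)
    (ω h : ℝ → ℝ) where
  hZ : ∀ ρ ∈ Z, ρ.re < 1
  hR : RDens (fZ Z) x₀
  D : TQ (fZ Z) x₀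
  st : ℕ → ℕ
  cap : ℕ → ℝ
  hst : Tendsto st atTop atTop
  hGB : ∀ u, 12 ≤ st u → GB8 (fZ Z) x₀ γ Q E P ω h (st u) u (D.M u) (D.C u) (cap u)
  hsp : ∃ᶠ j in atTop, cap (D.g j) = sz (fZ Z) x₀ h (D.g j)
  y : ℕ → ℝ
  r : ℕ → ℕ
  ymono : StrictMono y
  y0 : ∀ k, 0 ≤ y k
  ytend : Tendsto y atTop atTop
  yloc : ∀ j l, l < D.M (D.g j) + 1 → (D.g j : ℝ) ≤ y (D.g j + l) ∧ y (D.g j + l) < D.g (j + 1)
  ygap : ∀ j l, l + 1 < D.M (D.g j) → y (D.g j + l + 1) - y (D.g j + l) =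
    D.C (D.g j) ((r j + l) % D.M (D.g j))
  ylast : ∀ j, ∃ l, y (D.g j + D.M (D.g j)) - y (D.g j + D.M (D.g j) - 1) ≤
    D.C (D.g j) (l % D.M (D.g j)) + 1
  ybuf : ∀ j, ∃ l, y (D.g (j + 1)) - y (D.g j + D.M (D.g j)) ≤
    D.C (D.g (j + 1)) (l % D.M (D.g (j + 1))) + 1

namespace T8

variable {Z : Multiset ℂ} {x₀ : ℝ} {γ : ℕ → ℝ} {Q E : ℕ → ℝ} {P : ℕ → Prop} {ω h : ℝ → ℝ}
  (S : T8 Z x₀ γ Q E P ω h)

/-- the primes -/
noncomputable def p (k : ℕ) : ℝ := phi (fZ Z) x₀ (S.y k)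

/-- block length -/
noncomputable def m (j : ℕ) : ℕ := S.D.M (S.D.g j)

/-- logarithm at the block -/
noncomputable def lam (j : ℕ) : ℝ := lamb (fZ Z) x₀ (S.D.g j)

/-- left end of the block -/
noncomputable def a (j : ℕ) : ℝ := phi (fZ Z) x₀ (S.D.g j)

theorem g_succ (j : ℕ) : S.D.g (j + 1) = S.D.g j + S.m j + 1 := rfl

theorem m_pos (j : ℕ) : 0 < S.m j := S.D.Mpos _

theorem g_tendsto : Tendsto S.D.g atTop atTop := S.D.g_mono.tendsto_atTop

theorem st_tendsto : Tendsto (fun j => S.st (S.D.g j)) atTop atTop := S.hst.comp S.g_tendsto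

theorem stR_tendsto : Tendsto (fun j => (S.st (S.D.g j) : ℝ)) atTop atTop :=
  tendsto_natCast_atTop_atTop.comp S.st_tendsto

theorem inv_ev {ε : ℝ} (hε : 0 < ε) : ∀ᶠ j in atTop, 12 ≤ S.st (S.D.g j) ∧
    1 / (S.st (S.D.g j) : ℝ) ≤ ε := by
  filter_upwards [S.st_tendsto.eventually_ge_atTop 12, S.stR_tendsto.eventually_ge_atTop (1 / ε)]
    with j h1 h2
  refine ⟨h1, ?_⟩
  have h3 : (0 : ℝ) < S.st (S.D.g j) := by exact_mod_cast (by omega : 0 < S.st (S.D.g j))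
  rw [div_le_iff₀ h3]
  rw [div_le_iff₀ hε] at h2
  linarith

theorem lam_eq (j : ℕ) : S.lam j = Real.log (S.a j) := rfl

theorem two_le_lam (j : ℕ) : 2 ≤ S.lam j := two_le_lamb S.hR _

theorem a_pos (j : ℕ) : 0 < S.a j := S.hR.phi_pos _

theorem a_mono (j : ℕ) : S.a j ≤ S.a (j + 1) :=
  S.hR.phi_mono (by exact_mod_cast (S.D.g_mono (Nat.lt_succ_self j)).le)

theorem a_tendsto : Tendsto S.a atTop atTop :=
  S.hR.phi_tendsto.comp (tendsto_natCast_atTop_atTop.comp S.g_tendsto)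

theorem a_succ {ε : ℝ} (hε : 0 < ε) : ∀ᶠ j in atTop, S.a (j + 1) ≤ (1 + ε) * S.a j := by
  filter_upwards [S.inv_ev hε] with j ⟨h1, h2⟩
  have h3 := (S.hGB _ h1).phi
  have h4 := S.a_pos j
  refine le_trans h3 ?_
  apply mul_le_mul_of_nonneg_right _ h4.le
  linarith

theorem loc (j l : ℕ) (hl : l < S.m j + 1) : S.a j ≤ S.p (S.D.g j + l) ∧ S.p (S.D.g j + l) ≤ S.a (j + 1) :=
  ⟨S.hR.phi_mono (S.yloc j l hl).1, S.hR.phi_mono (S.yloc j l hl).2.le⟩

theorem loc' (j l : ℕ) (hl : l < S.m j + 1) : S.p (S.D.g j + l + 1) ≤ S.a (j + 2) := by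
  by_cases h : l + 1 < S.m j + 1
  · have := (S.loc j (l + 1) h).2
    rw [add_assoc]
    exact this.trans (S.a_mono (j + 1))
  · have e : S.D.g j + l + 1 = S.D.g (j + 1) + 0 := by
      rw [S.g_succ]; omega
    rw [e]
    exact (S.loc (j + 1) 0 (Nat.succ_pos _)).2

theorem p_mono : StrictMono S.p := fun _ _ h => S.hR.phi_lt (S.y0 _) (S.ymono h)

theorem p_tendsto : Tendsto S.p atTop atTop := S.hR.phi_tendsto.comp S.ytend

theorem log_ev {ε : ℝ} (hε : 0 < ε) : ∀ᶠ j in atTop, ∀ l, l < S.m j + 1 →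
    |Real.log (S.p (S.D.g j + l)) - S.lam j| ≤ ε * S.lam j := by
  filter_upwards [S.a_succ hε] with j h1 l hl
  obtain ⟨h2, h3⟩ := S.loc j l hl
  have h4 := S.a_pos j
  have h5 : S.lam j ≤ Real.log (S.p (S.D.g j + l)) := by
    rw [S.lam_eq]; exact Real.log_le_log h4 h2
  have h6 : Real.log (S.p (S.D.g j + l)) ≤ S.lam j + ε := by
    have h7 : Real.log (S.p (S.D.g j + l)) ≤ Real.log ((1 + ε) * S.a j) :=
      Real.log_le_log (by linarith) (h3.trans h1)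
    rw [Real.log_mul (by linarith) h4.ne'] at h7
    have h8 := Real.log_le_sub_one_of_pos (by linarith : 0 < 1 + ε)
    rw [← S.lam_eq] at h7
    linarith
  have h7 := S.two_le_lam j
  rw [abs_le]
  constructor <;> nlinarith

/-- gaps of `y` and of `p` -/
theorem cd_ev {ε : ℝ} (hε : 0 < ε) : ∀ᶠ j in atTop, ∀ l, l < S.m j + 1 →
    |(S.y (S.D.g j + l + 1) - S.y (S.D.g j + l)) * Real.log (S.p (S.D.g j + l)) -
      (S.p (S.D.g j + l + 1) - S.p (S.D.g j + l))| ≤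
      ε * (S.p (S.D.g j + l + 1) - S.p (S.D.g j + l)) := by
  obtain ⟨X, hX⟩ := eventually_atTop.1 (transfer S.hZ S.hR hε)
  have ha1 := S.a_succ (by norm_num : (0 : ℝ) < 1 / 4)
  have ha2 := (tendsto_add_atTop_nat 1).eventually ha1
  filter_upwards [S.a_tendsto.eventually_ge_atTop X, ha1, ha2] with j h1 h2 h3 l hl
  obtain ⟨h4, h5⟩ := S.loc j l hl
  have h6 := S.loc' j l hl
  have h7 := hX _ (h1.trans h4)
  have h8 : S.p (S.D.g j + l) ≤ S.p (S.D.g j + l + 1) := (S.p_mono (Nat.lt_succ_self _)).le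
  have h9 := S.a_pos j
  have h10 := h7.2 _ h8 (by
    have e : S.a (j + 1 + 1) = S.a (j + 2) := rfl
    rw [e] at h3
    nlinarith)
  unfold p at h10 ⊢
  rw [S.hR.F_phi (S.y0 _), S.hR.F_phi (S.y0 _)] at h10
  exact h10

theorem gapy_pos (k : ℕ) : 0 < S.y (k + 1) - S.y k := sub_pos.2 (S.ymono (Nat.lt_succ_self k))

theorem gapp_pos (k : ℕ) : 0 < S.p (k + 1) - S.p k := sub_pos.2 (S.p_mono (Nat.lt_succ_self k))

/-- normalised gaps -/
theorem G_ev {ε : ℝ} (hε : 0 < ε) : ∀ᶠ j in atTop, ∀ l, l < S.m j + 1 →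
    |(S.p (S.D.g j + l + 1) - S.p (S.D.g j + l)) / Real.log (S.p (S.D.g j + l)) -
      (S.y (S.D.g j + l + 1) - S.y (S.D.g j + l))| ≤
      ε * (S.y (S.D.g j + l + 1) - S.y (S.D.g j + l)) := by
  set e : ℝ := min (ε / 2) (1 / 2) with he
  have he0 : 0 < e := by rw [he]; positivity
  filter_upwards [S.cd_ev he0] with j h1 l hl
  have h2 := h1 l hl
  set G := S.p (S.D.g j + l + 1) - S.p (S.D.g j + l) with hG
  set C := S.y (S.D.g j + l + 1) - S.y (S.D.g j + l) with hC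
  set L := Real.log (S.p (S.D.g j + l)) with hL
  have hG0 : 0 < G := S.gapp_pos _
  have hC0 : 0 < C := S.gapy_pos _
  have hL2 : 2 ≤ L := S.hR.hlog _ (S.hR.phi_ge _)
  have hL0 : 0 < L := by linarith
  have he2 : e ≤ 1 / 2 := min_le_right _ _
  have he3 : e ≤ ε / 2 := min_le_left _ _
  rw [abs_le] at h2
  have h3 : G ≤ 2 * (C * L) := by nlinarith
  have h4 : |C * L - G| ≤ ε * C * L := by
    rw [abs_le]
    have h5 : e * G ≤ ε * C * L := by
      calc e * G ≤ ε / 2 * (2 * (C * L)) := mul_le_mul he3 h3 hG0.le (by linarith)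
        _ = ε * C * L := by ring
    constructor <;> linarith [h2.1, h2.2]
  have e1 : G / L - C = -((C * L - G) / L) := by field_simp; ring
  rw [e1, abs_neg, abs_div, abs_of_pos hL0, div_le_iff₀ hL0]
  exact h4

/-- gaps with the logarithm of the block -/
theorem D_ev {ε : ℝ} (hε : 0 < ε) : ∀ᶠ j in atTop, ∀ l, l < S.m j + 1 →
    |S.p (S.D.g j + l + 1) - S.p (S.D.g j + l) -
      S.lam j * (S.y (S.D.g j + l + 1) - S.y (S.D.g j + l))| ≤
      ε * (S.lam j * (S.y (S.D.g j + l + 1) - S.y (S.D.g j + l))) := by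
  set e : ℝ := min (ε / 4) 1 with he
  have he0 : 0 < e := by rw [he]; positivity
  filter_upwards [S.G_ev he0, S.log_ev he0] with j h1 h2 l hl
  have h3 := h1 l hl
  have h4 := h2 l hl
  set G := S.p (S.D.g j + l + 1) - S.p (S.D.g j + l) with hG
  set C := S.y (S.D.g j + l + 1) - S.y (S.D.g j + l) with hC
  set L := Real.log (S.p (S.D.g j + l)) with hL
  have hG0 : 0 < G := S.gapp_pos _
  have hC0 : 0 < C := S.gapy_pos _
  have hL2 : 2 ≤ L := S.hR.hlog _ (S.hR.phi_ge _)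
  have hL0 : 0 < L := by linarith
  have hl2 := S.two_le_lam j
  have he2 : e ≤ 1 := min_le_right _ _
  have he3 : e ≤ ε / 4 := min_le_left _ _
  have h5 : |G - C * L| ≤ e * C * L := by
    have e1 : G - C * L = (G / L - C) * L := by field_simp
    rw [e1, abs_mul, abs_of_pos hL0]
    exact mul_le_mul_of_nonneg_right h3 hL0.le
  have h6 : |C * L - S.lam j * C| ≤ e * (S.lam j * C) := by
    have e1 : C * L - S.lam j * C = (L - S.lam j) * C := by ring
    rw [e1, abs_mul, abs_of_pos hC0]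
    calc |L - S.lam j| * C ≤ e * S.lam j * C := mul_le_mul_of_nonneg_right h4 hC0.le
      _ = _ := by ring
  have h7 : L ≤ 2 * S.lam j := by
    have := (abs_le.1 h4).2
    nlinarith
  have h8 : e * C * L ≤ 2 * (e * (S.lam j * C)) := by
    have : e * C * L ≤ e * C * (2 * S.lam j) := mul_le_mul_of_nonneg_left h7 (by positivity)
    linarith
  have h9 := abs_sub_le G (C * L) (S.lam j * C)
  have h10 : 0 ≤ S.lam j * C := by positivity
  have h11 : e * (S.lam j * C) ≤ ε / 4 * (S.lam j * C) := mul_le_mul_of_nonneg_right he3 h10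
  have h12 : 0 ≤ ε * (S.lam j * C) := by positivity
  linarith

theorem c_pos (j l : ℕ) : 0 < S.D.C (S.D.g j) l := S.D.Cpos _ _

theorem c_sum (j : ℕ) : ∑ l ∈ Finset.range (S.m j), S.D.C (S.D.g j) l = S.m j := S.D.Csum _

theorem m_tendsto : Tendsto S.m atTop atTop := by
  have h1 : Tendsto (fun j => (S.m j : ℝ)) atTop atTop := by
    refine tendsto_atTop_mono' _ ?_ S.stR_tendsto
    filter_upwards [S.st_tendsto.eventually_ge_atTop 12] with j h1
    have h2 := (S.hGB _ h1).ge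
    have h3 := (S.hGB _ h1).il
    have hi1 : (1 : ℝ) ≤ S.st (S.D.g j) := by exact_mod_cast (by omega : 1 ≤ S.st (S.D.g j))
    have h4 : (S.st (S.D.g j) : ℝ) ≤ (S.st (S.D.g j) : ℝ) ^ S.st (S.D.g j) :=
      le_self_pow₀ hi1 (by omega)
    have hl := two_le_lamb S.hR (S.D.g j)
    have h5 : lamb (fZ Z) x₀ (S.D.g j) ≤ lamb (fZ Z) x₀ (S.D.g j) ^ S.st (S.D.g j) :=
      le_self_pow₀ (by linarith) (by omega)
    exact h4.trans (h3.trans (h5.trans h2))
  exact tendsto_natCast_atTop_iff.1 h1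

theorem g_ratio : Tendsto (fun j => (S.D.g (j + 1) : ℝ) / S.D.g j) atTop (𝓝 1) := by
  rw [Metric.tendsto_atTop']
  intro ε hε
  obtain ⟨N, hN⟩ := eventually_atTop.1 ((S.inv_ev (half_pos hε)).and
    (S.g_tendsto.eventually_ge_atTop 1))
  refine ⟨N, fun j hj => ?_⟩
  obtain ⟨⟨h1, h2⟩, h3⟩ := hN j hj.le
  have h4 : (0 : ℝ) < S.D.g j := by exact_mod_cast h3
  have h5 := (S.hGB _ h1).small
  have h6 : (S.st (S.D.g j) : ℝ) * (S.m j + 1) ≤ S.D.g j := by exact_mod_cast h5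
  have h7 : (0 : ℝ) < S.st (S.D.g j) := by exact_mod_cast (by omega : 0 < S.st (S.D.g j))
  have e : (S.D.g (j + 1) : ℝ) / S.D.g j - 1 = (S.m j + 1) / S.D.g j := by
    rw [S.g_succ]
    push_cast
    field_simp
    ring
  rw [Real.dist_eq, e, abs_of_nonneg (by positivity), div_lt_iff₀ h4]
  rw [div_le_iff₀ h7] at h2
  have h8 : (0 : ℝ) ≤ S.m j := Nat.cast_nonneg _
  nlinarith

theorem near_ev {ε : ℝ} (hε : 0 < ε) : ∀ᶠ j in atTop,
    (((Finset.range (S.m j)).filter fun l => ε < |S.D.C (S.D.g j) l - γ l|).card : ℝ) ≤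
      ε * S.m j := by
  filter_upwards [S.inv_ev (by positivity : 0 < ε / 6)] with j ⟨h1, h2⟩
  have h3 := (S.hGB _ h1).tm.near
  have h4 : 2 / (S.st (S.D.g j) : ℝ) ≤ ε := by
    have : 2 / (S.st (S.D.g j) : ℝ) = 2 * (1 / (S.st (S.D.g j) : ℝ)) := by ring
    rw [this]; linarith
  have h5 : 6 / (S.st (S.D.g j) : ℝ) ≤ ε := by
    have : 6 / (S.st (S.D.g j) : ℝ) = 6 * (1 / (S.st (S.D.g j) : ℝ)) := by ring
    rw [this]; linarith
  have h6 : ((Finset.range (S.m j)).filter fun l => ε < |S.D.C (S.D.g j) l - γ l|).card ≤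
      ((Finset.range (S.m j)).filter fun l =>
        2 / (S.st (S.D.g j) : ℝ) < |S.D.C (S.D.g j) l - γ l|).card := by
    apply Finset.card_le_card
    intro l hl
    rw [Finset.mem_filter] at hl ⊢
    exact ⟨hl.1, lt_of_le_of_lt h4 hl.2⟩
  have h7 : (0 : ℝ) ≤ S.m j := Nat.cast_nonneg _
  calc (((Finset.range (S.m j)).filter fun l => ε < |S.D.C (S.D.g j) l - γ l|).card : ℝ) ≤
      (((Finset.range (S.m j)).filter fun l =>
        2 / (S.st (S.D.g j) : ℝ) < |S.D.C (S.D.g j) l - γ l|).card : ℝ) := by exact_mod_cast h6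
    _ ≤ 6 / (S.st (S.D.g j) : ℝ) * S.m j := h3
    _ ≤ ε * S.m j := mul_le_mul_of_nonneg_right h5 h7

/-- **Statistics.** -/
theorem stats {k : ℕ} {φ : (Fin k → ℝ) → ℝ} {B : ℝ} (hB : ∀ x, |φ x| ≤ B) {L : ℝ≥0}
    (hL : LipschitzWith L φ) {l : ℝ}
    (hl : Tendsto (fun N : ℕ => (∑ n ∈ Finset.range N, φ (fun i => γ (n + i))) / N) atTop (𝓝 l)) :
    Tendsto (fun N : ℕ => (∑ n ∈ Finset.range N,
      φ (fun i => (S.p (n + i + 1) - S.p (n + i)) / Real.log (S.p (n + i)))) / N) atTop (𝓝 l) := by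
  refine stat_transfer2 (g := S.D.g) (M := S.m) (r := S.r)
    (a := fun k => (S.p (k + 1) - S.p k) / Real.log (S.p k)) S.g_succ S.m_pos S.m_tendsto
    S.g_ratio ?_ hB hL hl
  exact stat_hyp (y := S.y) (G := fun k => (S.p (k + 1) - S.p k) / Real.log (S.p k))
    (c := fun j => S.D.C (S.D.g j)) S.m_pos S.m_tendsto S.c_pos S.c_sum S.ygap
    (fun ε hε => (S.G_ev hε).mono fun j h l hl => h l (by omega)) (fun ε hε => S.near_ev hε)

end T8

end Pool.Agent.H521.G
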