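import Pool.Agent.H521.G.T8c

open MeasureTheory Set Filter Topology
open scoped ENNReal NNReal ComplexConjugate Classical

namespace Pool.Agent.H521.G

namespace T8

variable {Z : Multiset ℂ} {x₀ : ℝ} {γ : ℕ → ℝ} {Q E : ℕ → ℝ} {P : ℕ → Prop} {ω h : ℝ → ℝ}
  (S : T8 Z x₀ γ Q E P ω h)

/-- the number of primes up to `x` -/
theorem count_ev : ∀ᶠ x in atTop,
    |(countPr S.p x : ℝ) - Fp (fZ Z) x₀ x| ≤ h x * Real.log x ^ ω x / 4 := by
  obtain ⟨N, hN⟩ := eventually_atTop.1 (S.st_tendsto.eventually_ge_atTop 12)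
  filter_upwards [eventually_ge_atTop (S.a N), eventually_ge_atTop x₀] with x hx hx0
  have e : countPr S.p x = countPr S.y (Fp (fZ Z) x₀ x) := countPr_phi S.hR S.y0 hx0
  rw [e]
  set Y := Fp (fZ Z) x₀ x with hY
  have hxY : phi (fZ Z) x₀ Y = x := S.hR.phi_F hx0
  have hY0 : 0 ≤ Y := by
    have := S.hR.F_mono le_rfl hx0
    rwa [S.hR.F_zero] at this
  -- the block of `Y`
  have hYN : (S.D.g N : ℝ) ≤ Y := by
    have h1 := S.hR.F_mono (S.hR.phi_ge _) hx
    rw [S.hR.F_phi (Nat.cast_nonneg _)] at h1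
    exact h1
  obtain ⟨j, hj1, hj2⟩ : ∃ j, (S.D.g j : ℝ) ≤ Y ∧ Y < S.D.g (j + 1) := by
    have hex : ∃ j, Y < S.D.g (j + 1) := by
      obtain ⟨n, hn⟩ := exists_nat_gt Y
      refine ⟨n, hn.trans_le ?_⟩
      have := S.D.g_mono.le_apply (x := n + 1)
      exact_mod_cast (by omega : n ≤ S.D.g (n + 1))
    refine ⟨Nat.find hex, ?_, Nat.find_spec hex⟩
    rcases Nat.eq_zero_or_pos (Nat.find hex) with h | h
    · rw [h]
      have : S.D.g 0 = 0 := rfl
      rw [this]
      simpa using hY0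
    · have h1 := Nat.find_min hex (Nat.sub_lt h one_pos)
      have e : Nat.find hex - 1 + 1 = Nat.find hex := by omega
      rw [e] at h1
      exact not_lt.1 h1
  have hjN : N ≤ j := by
    by_contra hc
    push Not at hc
    have h3 : S.D.g (j + 1) ≤ S.D.g N := S.D.g_mono.monotone (by omega)
    have h4 : (S.D.g (j + 1) : ℝ) ≤ S.D.g N := by exact_mod_cast h3
    linarith
  have hG := S.hGB _ (hN j hjN)
  have haj : phi (fZ Z) x₀ (S.D.g j) ≤ x := by
    rw [← hxY]
    exact S.hR.phi_mono hj1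
  have h5 := hG.om x haj
  -- the count
  have h6 : ∀ k, k < S.D.g j → S.y k ≤ Y := by
    intro k hk
        -- `y (g j) - ...`: the point `k` lies in an earlier block
    obtain ⟨i, hi1, hi2⟩ : ∃ i, S.D.g i ≤ k ∧ k < S.D.g (i + 1) := by
      have hex : ∃ i, k < S.D.g (i + 1) := ⟨j, hk.trans_le (S.D.g_mono (Nat.lt_succ_self j)).le⟩
      refine ⟨Nat.find hex, ?_, Nat.find_spec hex⟩
      rcases Nat.eq_zero_or_pos (Nat.find hex) with h | h
      · rw [h]; exact Nat.zero_le k
      · have h1 := Nat.find_min hex (Nat.sub_lt h one_pos)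
        have e : Nat.find hex - 1 + 1 = Nat.find hex := by omega
        rw [e] at h1
        exact not_lt.1 h1
    have hij : i + 1 ≤ j := by
      by_contra hc
      have : S.D.g j ≤ S.D.g i := S.D.g_mono.monotone (by omega)
      omega
    have h8 := (S.yloc i (k - S.D.g i) (by
      have := S.D.g_succ i
      omega)).2
    have e : S.D.g i + (k - S.D.g i) = k := by omega
    rw [e] at h8
    have h9 : (S.D.g (i + 1) : ℝ) ≤ S.D.g j := by exact_mod_cast S.D.g_mono.monotone hij
    linarith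
  have h7 : ∀ k, S.y k ≤ Y → k < S.D.g (j + 1) := by
    intro k hk
    by_contra hc
    push Not at hc
    have h8 := (S.yloc (j + 1) 0 (Nat.succ_pos _)).1
    rw [add_zero] at h8
    have h9 := S.ymono.monotone hc
    linarith
  have h8 : S.D.g j ≤ countPr S.y Y := by
    unfold countPr
    have : (Finset.range (S.D.g j) : Set ℕ) ⊆ {k | S.y k ≤ Y} := fun k hk => h6 k (by simpa using hk)
    have hfin : {k | S.y k ≤ Y}.Finite := (Set.finite_lt_nat (S.D.g (j + 1))).subset fun k hk => h7 k hk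
    have h9 := Set.ncard_le_ncard this hfin
    rwa [Set.ncard_coe_finset, Finset.card_range] at h9
  have h9 : countPr S.y Y ≤ S.D.g (j + 1) := by
    unfold countPr
    have : {k | S.y k ≤ Y} ⊆ (Finset.range (S.D.g (j + 1)) : Set ℕ) := fun k hk => by
      simpa using h7 k hk
    have h9 := Set.ncard_le_ncard this (Finset.finite_toSet _)
    rwa [Set.ncard_coe_finset, Finset.card_range] at h9
  have h10 : (S.D.g j : ℝ) ≤ countPr S.y Y := by exact_mod_cast h8
  have h11 : (countPr S.y Y : ℝ) ≤ S.D.g (j + 1) := by exact_mod_cast h9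
  have h12 : (S.D.g (j + 1) : ℝ) = S.D.g j + S.D.M (S.D.g j) + 1 := by
    rw [S.D.g_succ]; push_cast; ring
  rw [abs_le]
  constructor <;> linarith

/-- the error term in the prime number theorem -/
theorem error (hω : Tendsto ω atTop atTop)
    (hh1 : Tendsto (fun x => h x / Real.log x) atTop atTop) : ∀ᶠ x in atTop,
    |(countPr S.p x : ℝ) - mainTerm Z x| ≤ h x * Real.log x ^ ω x := by
  set K : ℝ := (1 + (Multiset.card Z : ℝ)) with hK
  have hK0 : 0 ≤ K := by positivity
  have hx3 := S.hR.dens.hx₀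
  filter_upwards [S.count_ev, eventually_ge_atTop x₀, hω.eventually_ge_atTop 2,
    Real.tendsto_log_atTop.eventually_ge_atTop (2 * (|mainTerm Z x₀| + K)),
    Real.tendsto_log_atTop.eventually_ge_atTop 1, hh1.eventually_ge_atTop 1]
    with x h1 hx h3 h4 hl hhx
  have h2 := abs_main_diff_le S.hZ hx3 hx
  have h5 : mainTerm Z x = mainTerm Z x₀ + ∫ u in x₀..x, (1 - osc Z u) / Real.log u := by
    unfold mainTerm
    exact (intervalIntegral.integral_add_adjacent_intervals
      (main_ii Z (by norm_num) (by linarith)) (main_ii Z (by linarith) hx)).symm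
  have e1 : (countPr S.p x : ℝ) - mainTerm Z x = ((countPr S.p x : ℝ) - Fp (fZ Z) x₀ x) -
      mainTerm Z x₀ - ((∫ u in x₀..x, (1 - osc Z u) / Real.log u) - ∫ u in x₀..x, fZ Z u) := by
    rw [h5]; unfold Fp; ring
  rw [e1]
  have h6 := abs_sub (((countPr S.p x : ℝ) - Fp (fZ Z) x₀ x) - mainTerm Z x₀)
    ((∫ u in x₀..x, (1 - osc Z u) / Real.log u) - ∫ u in x₀..x, fZ Z u)
  have h7 := abs_sub ((countPr S.p x : ℝ) - Fp (fZ Z) x₀ x) (mainTerm Z x₀)
  have h8 : |mainTerm Z x₀| ≤ |mainTerm Z x₀| * Real.log x :=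
    le_mul_of_one_le_right (abs_nonneg _) hl
  have hx1 : 1 ≤ h x := by
    rw [le_div_iff₀ (by linarith)] at hhx
    linarith
  have h9' : Real.log x ^ ω x ≤ h x * Real.log x ^ ω x :=
    le_mul_of_one_le_left (Real.rpow_nonneg (by linarith) _) hx1
  have h9 : 2 * (|mainTerm Z x₀| + K) * Real.log x ≤ Real.log x ^ ω x := by
    calc 2 * (|mainTerm Z x₀| + K) * Real.log x ≤ Real.log x * Real.log x :=
          mul_le_mul_of_nonneg_right h4 (by linarith)
      _ = Real.log x ^ (2 : ℝ) := by rw [← sq, ← Real.rpow_natCast]; norm_num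
      _ ≤ Real.log x ^ ω x := Real.rpow_le_rpow_of_exponent_le hl h3
  have h10 : |(∫ u in x₀..x, (1 - osc Z u) / Real.log u) - ∫ u in x₀..x, fZ Z u| ≤
      K * Real.log x := h2
  have h11 : 0 ≤ Real.log x ^ ω x := by positivity
  linarith

/-- the block of an index -/
theorem exists_blk (N n : ℕ) (hn : S.D.g N ≤ n) :
    ∃ j l, l < S.m j + 1 ∧ n = S.D.g j + l ∧ N ≤ j := by
  have hex : ∃ j, n < S.D.g (j + 1) := by
    refine ⟨n, ?_⟩
    have := S.D.g_mono.le_apply (x := n + 1)
    omega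
  set j := Nat.find hex with hj
  have h1 : n < S.D.g (j + 1) := Nat.find_spec hex
  have h2 : S.D.g j ≤ n := by
    rcases Nat.eq_zero_or_pos j with h | h
    · rw [h]; exact Nat.zero_le n
    · have := Nat.find_min hex (Nat.sub_lt h one_pos)
      have e : j - 1 + 1 = j := by omega
      rw [e] at this
      omega
  refine ⟨j, n - S.D.g j, ?_, by omega, ?_⟩
  · rw [S.g_succ] at h1
    omega
  · by_contra hc
    push Not at hc
    have h3 : S.D.g (j + 1) ≤ S.D.g N := S.D.g_mono.monotone (by omega)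
    omega

end T8

end Pool.Agent.H521.G
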