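import Pool.Agent.H521.G.T8d
import Pool.Agent.H521.G.BlockCnt
import Pool.Agent.H521.G.CountToX
import Pool.Agent.H521.G.CntArith
import Pool.Agent.H521.G.Defs6

open MeasureTheory Set Filter Topology
open scoped ENNReal NNReal ComplexConjugate Classical

namespace Pool.Agent.H521.G

namespace T8

variable {Z : Multiset ℂ} {x₀ : ℝ} {γ : ℕ → ℝ} {Q E : ℕ → ℝ} {P : ℕ → Prop} {ω h : ℝ → ℝ}
  (S : T8 Z x₀ γ Q E P ω h)

theorem lam_tendsto : Tendsto S.lam atTop atTop := Real.tendsto_log_atTop.comp S.a_tendsto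

/-- the forced size -/
theorem sz_eq (j : ℕ) : S.lam j * sz (fZ Z) x₀ h (S.D.g j) = h (S.a j) := by
  have := S.two_le_lam j
  have e : sz (fZ Z) x₀ h (S.D.g j) = h (S.a j) / S.lam j := rfl
  rw [e]
  field_simp

/-- the order function on a block -/
theorem ord_ev (hmono : MonotoneOn h (Ici 2)) (hh1 : Tendsto (fun x => h x / Real.log x) atTop atTop)
    (hd : Tendsto (fun x => h (x + x ^ (3 / 4 : ℝ)) / h x) atTop (𝓝 1)) {ε : ℝ} (hε : 0 < ε) :
    ∀ᶠ j in atTop, 0 < h (S.a j) ∧ S.lam j ≤ ε * h (S.a j) ∧ h (S.a (j + 1)) ≤ (1 + ε) * h (S.a j) ∧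
      ∀ l, l < S.m j + 1 → h (S.a j) ≤ h (S.p (S.D.g j + l)) ∧
        h (S.p (S.D.g j + l)) ≤ (1 + ε) * h (S.a j) := by
  have e1 := S.a_tendsto.eventually (hh1.eventually_ge_atTop (1 / ε))
  have e2 := S.a_tendsto.eventually (hd.eventually_le_const (by linarith : 1 < 1 + ε))
  filter_upwards [e1, e2, S.st_tendsto.eventually_ge_atTop 12, S.a_tendsto.eventually_ge_atTop 2]
    with j h1 h2 h3 h4
  have hap : 0 ≤ S.a j ^ (3 / 4 : ℝ) := Real.rpow_nonneg (S.a_pos j).le _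
  have hl := S.two_le_lam j
  have hla : Real.log (S.a j) = S.lam j := rfl
  have hl0 : 0 < S.lam j := by linarith
  rw [hla] at h1
  rw [le_div_iff₀ hl0] at h1
  have h5 : S.lam j ≤ ε * h (S.a j) := by
    have := mul_le_mul_of_nonneg_left h1 hε.le
    have e : ε * (1 / ε * S.lam j) = S.lam j := by field_simp
    linarith
  have h6 : 0 < h (S.a j) := by
    by_contra hc
    push Not at hc
    nlinarith
  have h7 : h (S.a j + S.a j ^ (3 / 4 : ℝ)) ≤ (1 + ε) * h (S.a j) := by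
    rwa [div_le_iff₀ h6] at h2
  have h8 : ∀ x, S.a j ≤ x → x ≤ S.a j + S.a j ^ (3 / 4 : ℝ) → h x ≤ (1 + ε) * h (S.a j) := fun x hx1 hx2 =>
    (hmono (by simp only [mem_Ici]; linarith) (by simp only [mem_Ici]; linarith) hx2).trans h7
  have h9 : S.a (j + 1) ≤ S.a j + S.a j ^ (3 / 4 : ℝ) := (S.hGB _ h3).grow
  refine ⟨h6, h5, h8 _ (S.a_mono j) h9, fun l hl => ?_⟩
  obtain ⟨h10, h11⟩ := S.loc j l hl
  exact ⟨hmono (by simp only [mem_Ici]; linarith) (by simp only [mem_Ici]; linarith) h10,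
    h8 _ h10 (h11.trans h9)⟩

/-- the ratio of a gap with the order function -/
noncomputable def rat (k : ℕ) : ℝ := (S.p (k + 1) - S.p k) / h (S.p k)

theorem rat_up (hmono : MonotoneOn h (Ici 2)) (hh1 : Tendsto (fun x => h x / Real.log x) atTop atTop)
    (hd : Tendsto (fun x => h (x + x ^ (3 / 4 : ℝ)) / h x) atTop (𝓝 1)) {ε : ℝ} (hε : 0 < ε) :
    ∀ᶠ k in atTop, S.rat k ≤ 1 + ε := by
  obtain ⟨e, he0, he1⟩ : ∃ e : ℝ, 0 < e ∧ (1 + e) * (1 + 2 * e) ≤ 1 + ε := by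
    refine ⟨min 1 (ε / 5), by positivity, ?_⟩
    set e := min 1 (ε / 5) with he
    have h0 : 0 < e := by rw [he]; positivity
    have h1 : e ≤ 1 := min_le_left _ _
    have h2 : e ≤ ε / 5 := min_le_right _ _
    nlinarith
  have ev3 := S.st_tendsto.eventually_ge_atTop 12
  have ev4 := (tendsto_add_atTop_nat 1).eventually ev3
  obtain ⟨N, hN⟩ := eventually_atTop.1 ((S.D_ev he0).and ((S.ord_ev hmono hh1 hd he0).and
    (ev3.and ev4)))
  filter_upwards [eventually_ge_atTop (S.D.g N)] with k hk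
  obtain ⟨j, l, hl, rfl, hjN⟩ := S.exists_blk N k hk
  obtain ⟨h1, ⟨h2, h3, h4, h5⟩, h6, h7⟩ := hN j hjN
  have hl2 := S.two_le_lam j
  have hl0 : 0 < S.lam j := by linarith
  have hl2' := S.two_le_lam (j + 1)
  have hlm : S.lam j ≤ S.lam (j + 1) := Real.log_le_log (S.a_pos j) (S.a_mono j)
  have hs := S.sz_eq j
  have hs' := S.sz_eq (j + 1)
  have hs0 : 0 ≤ sz (fZ Z) x₀ h (S.D.g (j + 1)) := by
    have h8 := ((S.hGB _ h7).tm.le 0).trans (S.hGB _ h7).cap
    exact (S.D.Cpos _ 0).le.trans h8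
  have hs2 : S.lam j * sz (fZ Z) x₀ h (S.D.g (j + 1)) ≤ (1 + e) * h (S.a j) := by
    have := mul_le_mul_of_nonneg_right hlm hs0
    linarith
  -- the gap of y
  have hC : S.lam j * (S.y (S.D.g j + l + 1) - S.y (S.D.g j + l)) ≤ (1 + 2 * e) * h (S.a j) := by
    have hin : ∀ q, S.D.C (S.D.g j) q ≤ sz (fZ Z) x₀ h (S.D.g j) := fun q =>
      ((S.hGB _ h6).tm.le q).trans (S.hGB _ h6).cap
    have hin2 : ∀ q, S.D.C (S.D.g (j + 1)) q ≤ sz (fZ Z) x₀ h (S.D.g (j + 1)) := fun q =>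
      ((S.hGB _ h7).tm.le q).trans (S.hGB _ h7).cap
    have he2 : 0 ≤ e * h (S.a j) := by positivity
    rcases lt_trichotomy (l + 1) (S.m j) with h' | h' | h'
    · have := S.ygap j l h'
      rw [this]
      have := mul_le_mul_of_nonneg_left (hin ((S.r j + l) % S.D.M (S.D.g j))) hl0.le
      linarith
    · obtain ⟨q, hq⟩ := S.ylast j
      have e1 : S.D.g j + l + 1 = S.D.g j + S.D.M (S.D.g j) := by
        have : S.m j = S.D.M (S.D.g j) := rfl
        omega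
      have e2 : S.D.g j + l = S.D.g j + S.D.M (S.D.g j) - 1 := by omega
      rw [e1, e2]
      have := mul_le_mul_of_nonneg_left (hq.trans (add_le_add_left (hin _) 1)) hl0.le
      linarith
    · obtain ⟨q, hq⟩ := S.ybuf j
      have e1 : S.D.g j + l + 1 = S.D.g (j + 1) := by
        rw [S.g_succ]
        omega
      have e2 : S.D.g j + l = S.D.g j + S.D.M (S.D.g j) := by
        have : S.m j = S.D.M (S.D.g j) := rfl
        omega
      rw [e1, e2]
      have := mul_le_mul_of_nonneg_left (hq.trans (add_le_add_left (hin2 _) 1)) hl0.le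
      linarith
  have hD := (abs_le.1 (h1 l hl)).2
  obtain ⟨h8, h9⟩ := h5 l hl
  have h10 : 0 < h (S.p (S.D.g j + l)) := h2.trans_le h8
  unfold rat
  rw [div_le_iff₀ h10]
  calc S.p (S.D.g j + l + 1) - S.p (S.D.g j + l) ≤
      (1 + e) * (S.lam j * (S.y (S.D.g j + l + 1) - S.y (S.D.g j + l))) := by linarith
    _ ≤ (1 + e) * ((1 + 2 * e) * h (S.a j)) := mul_le_mul_of_nonneg_left hC (by linarith)
    _ = (1 + e) * (1 + 2 * e) * h (S.a j) := by ring
    _ ≤ (1 + ε) * h (S.a j) := mul_le_mul_of_nonneg_right he1 h2.le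
    _ ≤ (1 + ε) * h (S.p (S.D.g j + l)) := mul_le_mul_of_nonneg_left h8 (by linarith)

theorem rat_lo (hmono : MonotoneOn h (Ici 2)) (hh1 : Tendsto (fun x => h x / Real.log x) atTop atTop)
    (hd : Tendsto (fun x => h (x + x ^ (3 / 4 : ℝ)) / h x) atTop (𝓝 1)) {b : ℝ} (hb : b < 1) :
    ∃ᶠ k in atTop, b ≤ S.rat k := by
  obtain ⟨e, he0, he1, he2⟩ : ∃ e : ℝ, 0 < e ∧ e ≤ 1 / 2 ∧ b * (1 + e) ≤ 1 - e := by
    refine ⟨min (1 / 2) ((1 - b) / (|b| + 1)), ?_, min_le_left _ _, ?_⟩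
    · have : 0 < 1 - b := by linarith
      positivity
    set e := min (1 / 2) ((1 - b) / (|b| + 1)) with he
    have h2 : e * (|b| + 1) ≤ 1 - b := by
      have h3 : e ≤ (1 - b) / (|b| + 1) := min_le_right _ _
      rwa [le_div_iff₀ (by positivity)] at h3
    have h0 : 0 < e := by
      have : 0 < 1 - b := by linarith
      rw [he]; positivity
    have h3 : b * e ≤ |b| * e := mul_le_mul_of_nonneg_right (le_abs_self b) h0.le
    linarith
  have ev3 := S.st_tendsto.eventually_ge_atTop 12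
  rw [frequently_atTop]
  intro K
  obtain ⟨j, hjs, hj1, ⟨hj2, hj3, -, hj5⟩, hj4, hj6⟩ := (S.hsp.and_eventually ((S.D_ev he0).and
    ((S.ord_ev hmono hh1 hd he0).and (ev3.and (S.g_tendsto.eventually_ge_atTop K))))).exists
  obtain ⟨l₁, l₂, h1, h2, h3, h4, h5⟩ := (S.hGB _ hj4).tm.forced
  rw [hjs] at h4 h5
  have hm0 : 0 < S.m j := S.m_pos j
  -- an index different from the cut
  obtain ⟨a, ha1, ha2, ha3⟩ : ∃ a, a < S.m j ∧ a ≠ (S.r j + (S.m j - 1)) % S.m j ∧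
      S.D.C (S.D.g j) a = sz (fZ Z) x₀ h (S.D.g j) := by
    by_cases h' : l₁ = (S.r j + (S.m j - 1)) % S.m j
    · exact ⟨l₂, h2, fun h'' => h3 (h'.trans h''.symm), h5⟩
    · exact ⟨l₁, h1, h', h4⟩
  obtain ⟨l, hl1, hl2'⟩ : ∃ l, l < S.m j ∧ (S.r j + l) % S.m j = a := by
    refine ⟨(a + (S.m j - S.r j % S.m j)) % S.m j, Nat.mod_lt _ hm0, ?_⟩
    have h6 : S.r j % S.m j < S.m j := Nat.mod_lt _ hm0
    have h7 := Nat.div_add_mod (S.r j) (S.m j)
    rw [Nat.add_mod_mod]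
    have h8 : S.r j + (a + (S.m j - S.r j % S.m j)) = a + S.m j * (S.r j / S.m j + 1) := by
      have h9 : S.m j * (S.r j / S.m j + 1) = S.m j * (S.r j / S.m j) + S.m j := by ring
      omega
    rw [h8, Nat.add_mul_mod_self_left, Nat.mod_eq_of_lt ha1]
  have hl3 : l + 1 < S.m j := by
    by_contra hc
    have h6 : l = S.m j - 1 := by omega
    rw [h6] at hl2'
    exact ha2 hl2'.symm
  refine ⟨S.D.g j + l, by omega, ?_⟩
  have hgap := S.ygap j l hl3
  have hD := (abs_le.1 (hj1 l (by omega))).1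
  have e1 : S.y (S.D.g j + l + 1) - S.y (S.D.g j + l) = sz (fZ Z) x₀ h (S.D.g j) := by
    rw [hgap, ← ha3]
    congr 1
  rw [e1, S.sz_eq] at hD
  obtain ⟨h8, h9⟩ := hj5 l (by omega)
  have h10 : 0 < h (S.p (S.D.g j + l)) := hj2.trans_le h8
  unfold rat
  rw [le_div_iff₀ h10]
  have h11 : (1 - e) * h (S.a j) ≤ S.p (S.D.g j + l + 1) - S.p (S.D.g j + l) := by linarith
  rcases le_or_gt b 0 with hb0 | hb0
  · have h12 : b * h (S.p (S.D.g j + l)) ≤ 0 := mul_nonpos_of_nonpos_of_nonneg hb0 h10.le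
    have h13 : 0 ≤ (1 - e) * h (S.a j) := mul_nonneg (by linarith) hj2.le
    linarith
  · calc b * h (S.p (S.D.g j + l)) ≤ b * ((1 + e) * h (S.a j)) :=
          mul_le_mul_of_nonneg_left h9 hb0.le
      _ = b * (1 + e) * h (S.a j) := by ring
      _ ≤ (1 - e) * h (S.a j) := mul_le_mul_of_nonneg_right he2 hj2.le
      _ ≤ _ := h11

/-- the logarithm of the index of a block -/
theorem logg_ev : ∀ᶠ j in atTop, S.lam j / 2 ≤ Real.log (S.D.g j) ∧ Real.log (S.D.g j) ≤ S.lam j := by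
  filter_upwards [S.st_tendsto.eventually_ge_atTop 12, S.g_tendsto.eventually_ge_atTop 1,
    (tendsto_natCast_atTop_atTop.comp S.g_tendsto).eventually_ge_atTop (2 * x₀)] with j h1 h2 h3
  have hG := S.hGB _ h1
  have hg : (1 : ℝ) ≤ S.D.g j := by exact_mod_cast h2
  have hg0 : (0 : ℝ) < S.D.g j := by linarith
  have hl := S.two_le_lam j
  set i := S.st (S.D.g j) with hi
  have h4 : (i : ℝ) * (S.D.M (S.D.g j) + 1) ≤ S.D.g j := by exact_mod_cast hG.small
  have h5 : S.lam j ≤ S.D.M (S.D.g j) := by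
    have h6 : S.lam j ≤ S.lam j ^ i := le_self_pow₀ (by linarith) (by omega)
    exact h6.trans hG.ge
  have h6 : (12 : ℝ) ≤ i := by exact_mod_cast h1
  have h7 : 12 * S.lam j ≤ S.D.g j := by
    have : (0 : ℝ) ≤ S.D.M (S.D.g j) := Nat.cast_nonneg _
    nlinarith
  have hx3 := S.hR.dens.hx₀
  constructor
  · have h8 := S.hR.phi_sub_le le_rfl (Nat.cast_nonneg (S.D.g j))
    rw [S.hR.phi_zero, sub_zero] at h8
    have h9 : S.a j ≤ (S.D.g j : ℝ) ^ 2 := by
      have h10 : S.a j ≤ x₀ + S.D.g j * (2 * S.lam j) := by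
        have : Pool.Agent.H521.G.phi (fZ Z) x₀ (S.D.g j) = S.a j := rfl
        rw [this] at h8
        rw [S.lam_eq]
        linarith
      have h11 : (S.D.g j : ℝ) * (2 * S.lam j) ≤ S.D.g j * (S.D.g j / 2) :=
        mul_le_mul_of_nonneg_left (by linarith) hg0.le
      have h12 : 2 * x₀ ≤ S.D.g j := h3
      nlinarith
    have h10 := Real.log_le_log (S.a_pos j) h9
    rw [Real.log_pow] at h10
    rw [S.lam_eq]
    push_cast at h10
    linarith
  · rw [S.lam_eq]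
    apply Real.log_le_log hg0
    have := phi_ge_succ S.hR (le_refl ((S.D.g j : ℕ) : ℝ))
    have e : Pool.Agent.H521.G.phi (fZ Z) x₀ (S.D.g j) = S.a j := rfl
    rw [e] at this
    linarith

theorem cnt_blocks {a : ℝ} (ha : 1 < a) :
    (∀ᶠ j in atTop, ((Finset.range (S.m j + 1)).filter fun l =>
        Real.log (S.p (S.D.g j + l)) ^ a ≤ S.p (S.D.g j + l + 1) - S.p (S.D.g j + l)).card ≤
      ((Finset.range (S.m j)).filter fun l => S.lam j ^ (a - 1) / 2 ≤ S.D.C (S.D.g j) l).card + 2) ∧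
    ∀ᶠ j in atTop, ((Finset.range (S.m j)).filter fun l =>
        2 * S.lam j ^ (a - 1) ≤ S.D.C (S.D.g j) l).card ≤
      ((Finset.range (S.m j + 1)).filter fun l =>
        Real.log (S.p (S.D.g j + l)) ^ a ≤ S.p (S.D.g j + l + 1) - S.p (S.D.g j + l)).card + 1 := by
  have hp1 : 1 < S.p 0 := by
    have h1 := S.hR.phi_ge (S.y 0)
    have h2 := S.hR.dens.hx₀
    have e : S.p 0 = Pool.Agent.H521.G.phi (fZ Z) x₀ (S.y 0) := rfl
    rw [e]
    linarith
  exact block_cnt (g := S.D.g) (M := S.m) (r := S.r) (p := S.p) (y := S.y) (lam := S.lam)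
    (c := fun j => S.D.C (S.D.g j)) S.m_pos S.p_mono hp1 S.ymono S.lam_tendsto S.c_pos S.ygap
    (fun ε hε => S.D_ev hε) (fun ε hε => S.log_ev hε) ha

end T8

end Pool.Agent.H521.G
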