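import Pool.Agent.H521.G.T8e
import Pool.Agent.H521.G.T4Qe

open MeasureTheory Set Filter Topology
open scoped ENNReal NNReal ComplexConjugate Classical

namespace Pool.Agent.H521.G

namespace T8

variable {Z : Multiset ℂ} {x₀ : ℝ} {γ : ℕ → ℝ} {Q E : ℕ → ℝ} {P : ℕ → Prop} {ω h : ℝ → ℝ}
  (S : T8 Z x₀ γ Q E P ω h)

theorem il_ev : ∀ᶠ j in atTop, (S.st (S.D.g j) : ℝ) ^ S.st (S.D.g j) ≤ S.lam j := by
  filter_upwards [S.st_tendsto.eventually_ge_atTop 12] with j h1
  exact (S.hGB _ h1).il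

theorem ge_ev : ∀ᶠ j in atTop, S.lam j ^ S.st (S.D.g j) ≤ S.m j := by
  filter_upwards [S.st_tendsto.eventually_ge_atTop 12] with j h1
  exact (S.hGB _ h1).ge

theorem small_ev : ∀ᶠ j in atTop, S.m j + 1 ≤ S.D.g j := by
  filter_upwards [S.st_tendsto.eventually_ge_atTop 12] with j h1
  have h2 := (S.hGB _ h1).small
  have h3 : S.m j + 1 ≤ S.st (S.D.g j) * (S.m j + 1) := Nat.le_mul_of_pos_left _ (by omega)
  exact h3.trans h2

/-- the stage is small -/
theorem stage_ev {t : ℝ} (ht : 0 < t) : ∀ᶠ j in atTop, 4 * (S.st (S.D.g j) : ℝ) < S.lam j ^ t := by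
  have h1 := h190_st_le S.lam_tendsto S.st_tendsto S.il_ev (half_pos ht)
  filter_upwards [h1, ((tendsto_rpow_atTop (half_pos ht)).comp S.lam_tendsto).eventually_gt_atTop 4]
    with j h2 h3
  simp only [Function.comp] at h3
  have hl := S.two_le_lam j
  have e : S.lam j ^ t = S.lam j ^ (t / 2) * S.lam j ^ (t / 2) := by
    rw [← Real.rpow_add (by linarith)]; congr 1; ring
  rw [e]
  have h4 : (0 : ℝ) ≤ S.st (S.D.g j) := Nat.cast_nonneg _
  nlinarith

theorem hasExp {a : ℝ} (ha : 1 < a) {E₀ : ℝ≥0∞} (haE : ENNReal.ofReal a ≤ E₀)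
    (hpnt : Tendsto (fun n : ℕ => S.p n / (n * Real.log n)) atTop (𝓝 1))
    (hQE1 : ∀ q, P q → 1 ≤ E q)
    (hup : ∀ b₁ : ℝ, ENNReal.ofReal b₁ < E₀ →
      (∃ q₀, Q q₀ = a ∧ ∀ q, P q → a ≤ Q q → b₁ ≤ E q) ∨
      ∃ a', 1 < a' ∧ a' < a ∧ ∀ q, P q → a' ≤ Q q → b₁ ≤ E q)
    (hlo : ∀ b : ℝ, E₀ < ENNReal.ofReal b → ∃ q₀, P q₀ ∧ a ≤ Q q₀ ∧ E q₀ < b) :
    HasExp S.p a E₀ := by
  have hp1 : 1 < S.p 0 := by
    have h1 := S.hR.phi_ge (S.y 0)
    have h2 := S.hR.dens.hx₀
    have e : S.p 0 = Pool.Agent.H521.G.phi (fZ Z) x₀ (S.y 0) := rfl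
    rw [e]
    linarith
  have hctx := fun (b : ℝ) (hb : 1 ≤ b) => count_to_x (g := S.D.g) (M := fun j => S.m j + 1)
    (W := fun n => Real.log (S.p n) ^ a ≤ S.p (n + 1) - S.p n) S.p_mono hp1 S.p_tendsto hpnt
    rfl S.D.g_succ (fun j => Nat.succ_pos _) S.small_ev hb
  obtain ⟨hc1, hc2⟩ := S.cnt_blocks ha
  have hL0 : ∀ᶠ j in atTop, S.lam j / 2 ≤ Real.log (S.D.g j) := S.logg_ev.mono fun j h => h.1
  have hL1 : ∀ᶠ j in atTop, Real.log (S.D.g j) ≤ S.lam j := S.logg_ev.mono fun j h => h.2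
  constructor
  · intro b hb
    have h1 : ENNReal.ofReal (max b 1) < E₀ := by
      rcases le_total b 1 with h | h
      · rw [max_eq_right h]
        refine lt_of_lt_of_le ?_ haE
        exact (ENNReal.ofReal_lt_ofReal_iff (by linarith)).2 ha
      · rwa [max_eq_left h]
    obtain ⟨b₁, hb1, hb2⟩ := ENNReal.lt_iff_exists_nnreal_btwn.1 h1
    have hb3 : max b 1 < b₁ := by
      by_contra hc
      push Not at hc
      have := ENNReal.ofReal_le_ofReal hc
      rw [ENNReal.ofReal_coe_nnreal] at this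
      exact absurd hb1 (not_lt.2 this)
    have hb4 : ENNReal.ofReal (b₁ : ℝ) < E₀ := by rwa [ENNReal.ofReal_coe_nnreal]
    obtain ⟨B, hB⟩ : ∃ B : ℝ, B = b₁ := ⟨_, rfl⟩
    rw [← hB] at hb3 hb4
    have hbm := le_max_left b 1
    have hbm1 := le_max_right b 1
    refine (hctx ((max b 1 + B) / 2) (by linarith)).1 ?_ b (by linarith)
    refine cnt_up (lam := S.lam) (L := fun j => Real.log (S.D.g j)) (st := fun j => S.st (S.D.g j))
      (M := S.m) (b₁ := B) S.lam_tendsto S.st_tendsto S.il_ev hL0 hL1 S.ge_ev (by linarith)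
      (by linarith) ?_
    -- the active indices
    have hact : ∀ᶠ j in atTop, ∀ q, q < S.st (S.D.g j) → P q →
        S.lam j ^ (a - 1) / 2 ≤ 2 * S.lam j ^ (Q q - 1) → B ≤ E q := by
      rcases hup B hb4 with ⟨q₀, hq0, h⟩ | ⟨a', ha1, ha2, h⟩
      · filter_upwards [S.st_tendsto.eventually_ge_atTop 12, S.st_tendsto.eventually_gt_atTop q₀]
          with j h1 h2 q hq hP hle
        apply h q hP
        by_contra hc
        push Not at hc
        have h3 := (S.hGB _ h1).sep q hq q₀ h2 (by rw [hq0]; exact hc)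
        rw [hq0] at h3
        have e : lamb (fZ Z) x₀ (S.D.g j) = S.lam j := rfl
        rw [e] at h3
        linarith
      · have h3 : 0 < a - a' := by linarith
        filter_upwards [((tendsto_rpow_atTop h3).comp S.lam_tendsto).eventually_gt_atTop 4]
          with j h1 q hq hP hle
        apply h q hP
        by_contra hc
        push Not at hc
        simp only [Function.comp] at h1
        have hl := S.two_le_lam j
        have e : S.lam j ^ (a - 1) = S.lam j ^ (a - a') * S.lam j ^ (a' - 1) := by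
          rw [← Real.rpow_add (by linarith)]; congr 1; ring
        have h4 : S.lam j ^ (Q q - 1) ≤ S.lam j ^ (a' - 1) :=
          Real.rpow_le_rpow_of_exponent_le (by linarith) (by linarith)
        have h5 : 0 < S.lam j ^ (a' - 1) := Real.rpow_pos_of_pos (by linarith) _
        rw [e] at hle
        nlinarith
    filter_upwards [hc1, hact, S.st_tendsto.eventually_ge_atTop 12,
      S.stage_ev (by linarith : 0 < a - 1)] with j h1 h2 h3 h4
    have hl := S.two_le_lam j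
    have h5 := (S.hGB _ h3).tm.up (S.lam j ^ (a - 1) / 2) (by linarith)
    have h6 : ∑ q ∈ Finset.range (S.st (S.D.g j)), (if P q ∧ E q ≤ (S.st (S.D.g j) : ℝ) / 2 ∧
        S.lam j ^ (a - 1) / 2 ≤ 2 * lamb (fZ Z) x₀ (S.D.g j) ^ (Q q - 1) then
        (S.D.M (S.D.g j) : ℝ) * lamb (fZ Z) x₀ (S.D.g j) ^ (1 - E q) else 0) ≤
        S.st (S.D.g j) * (S.m j * S.lam j ^ (1 - B)) := by
      have h7 : ∀ q ∈ Finset.range (S.st (S.D.g j)), (if P q ∧ E q ≤ (S.st (S.D.g j) : ℝ) / 2 ∧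
        S.lam j ^ (a - 1) / 2 ≤ 2 * lamb (fZ Z) x₀ (S.D.g j) ^ (Q q - 1) then
        (S.D.M (S.D.g j) : ℝ) * lamb (fZ Z) x₀ (S.D.g j) ^ (1 - E q) else 0) ≤
        S.m j * S.lam j ^ (1 - B) := by
        intro q hq
        have h8 : 0 < S.lam j ^ (1 - B) := Real.rpow_pos_of_pos (by linarith) _
        split_ifs with h9
        · have h10 := h2 q (Finset.mem_range.1 hq) h9.1 h9.2.2
          apply mul_le_mul_of_nonneg_left _ (Nat.cast_nonneg _)
          exact Real.rpow_le_rpow_of_exponent_le (by linarith [S.two_le_lam j, S.lam_eq j] : (1 : ℝ) ≤ S.lam j) (by linarith)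
        · positivity
      have h8 := Finset.sum_le_sum h7
      rwa [Finset.sum_const, Finset.card_range, nsmul_eq_mul] at h8
    have h7 : ((((Finset.range (S.m j + 1)).filter fun l => Real.log (S.p (S.D.g j + l)) ^ a ≤
        S.p (S.D.g j + l + 1) - S.p (S.D.g j + l)).card : ℕ) : ℝ) ≤
        (((Finset.range (S.m j)).filter fun l =>
          S.lam j ^ (a - 1) / 2 ≤ S.D.C (S.D.g j) l).card : ℝ) + 2 := by exact_mod_cast h1
    have h8 : (((Finset.range (S.m j)).filter fun l =>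
          S.lam j ^ (a - 1) / 2 ≤ S.D.C (S.D.g j) l).card : ℝ) ≤
          2 + S.st (S.D.g j) * (S.m j * S.lam j ^ (1 - B)) := h5.trans (by linarith)
    linarith
  · intro b hb
    obtain ⟨b₂, hb1, hb2⟩ := ENNReal.lt_iff_exists_nnreal_btwn.1 hb
    have hb3 : (b₂ : ℝ) < b := by
      by_contra hc
      push Not at hc
      have := ENNReal.ofReal_le_ofReal hc
      rw [ENNReal.ofReal_coe_nnreal] at this
      exact absurd hb2 (not_lt.2 this)
    have hb4 : E₀ < ENNReal.ofReal (b₂ : ℝ) := by rwa [ENNReal.ofReal_coe_nnreal]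
    obtain ⟨B, hB⟩ : ∃ B : ℝ, B = b₂ := ⟨_, rfl⟩
    rw [← hB] at hb3 hb4
    obtain ⟨q₀, hq1, hq2, hq3⟩ := hlo B hb4
    have hE1 := hQE1 q₀ hq1
    refine (hctx B (by linarith)).2 ?_ b hb3
    refine cnt_lo (lam := S.lam) (L := fun j => Real.log (S.D.g j)) (st := fun j => S.st (S.D.g j))
      (M := S.m) (E := E q₀) S.lam_tendsto S.st_tendsto S.il_ev hL0 hL1 S.ge_ev hE1 hq3 ?_
    filter_upwards [hc2, S.st_tendsto.eventually_ge_atTop 12, S.st_tendsto.eventually_gt_atTop q₀,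
      S.stR_tendsto.eventually_ge_atTop (2 * E q₀)] with j h1 h2 h3 h4
    have hl := S.two_le_lam j
    have h5 := (S.hGB _ h2).tm.lo q₀ h3 hq1 (by linarith)
    refine h5.trans ?_
    have h6 : ((Finset.range (S.D.M (S.D.g j))).filter fun l =>
        2 * lamb (fZ Z) x₀ (S.D.g j) ^ (Q q₀ - 1) ≤ S.D.C (S.D.g j) l).card ≤
        ((Finset.range (S.m j)).filter fun l => 2 * S.lam j ^ (a - 1) ≤ S.D.C (S.D.g j) l).card := by
      apply Finset.card_le_card
      intro l hl'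
      rw [Finset.mem_filter] at hl' ⊢
      refine ⟨hl'.1, le_trans ?_ hl'.2⟩
      apply mul_le_mul_of_nonneg_left _ (by norm_num)
      exact Real.rpow_le_rpow_of_exponent_le (by linarith [S.two_le_lam j] : (1 : ℝ) ≤ S.lam j) (by linarith)
    have h7 := h6.trans h1
    exact_mod_cast h7

end T8

end Pool.Agent.H521.G
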