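import Pool.Agent.H521.G.T8f
import Pool.Agent.H521.G.ExpoSeq
import Pool.Agent.H521.G.NecA
import Pool.Agent.H521.G.NecB
import Pool.Agent.H521.G.MeanOne

open MeasureTheory Set Filter Topology
open scoped ENNReal NNReal ComplexConjugate Classical

namespace Pool.Agent.H521.G

/-- the limsup of the gaps divided by the order function -/
noncomputable def ordC8 (h : ℝ → ℝ) (p : ℕ → ℝ) : ℝ≥0∞ :=
  limsup (fun k => ENNReal.ofReal ((p (k + 1) - p k) / h (p k))) atTop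

/-- **Existence.** -/
theorem t8_suff {Z : Multiset ℂ} (hZ : ∀ ρ ∈ Z, ρ.re < 1) (hZc : Z.map conj = Z)
    {γ : ℕ → ℝ} (hγ : ∀ n, 0 ≤ γ n)
    (hcond : ∀ K ε : ℝ, 0 < K → 0 < ε → ∀ᶠ N : ℕ in atTop,
      (∑ n ∈ Finset.range N, min (γ n) K) / N ≤ 1 + ε)
    {h : ℝ → ℝ} (hmono : MonotoneOn h (Ici 2))
    (hh1 : Tendsto (fun x => h x / Real.log x) atTop atTop)
    (hd : Tendsto (fun x => h (x + x ^ (3 / 4 : ℝ)) / h x) atTop (𝓝 1))
    (hh2 : ∀ ε : ℝ, 0 < ε → ∀ᶠ x in atTop, h x ≤ x ^ (1 / 2 + ε))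
    {e : ℝ → ℝ≥0∞} (he1 : MonotoneOn e {a | 1 < a ∧ ENNReal.ofReal a < lexp h})
    (he2 : ∀ a, 1 < a → ENNReal.ofReal a < lexp h → ENNReal.ofReal a ≤ e a)
    {ω : ℝ → ℝ} (hω : Tendsto ω atTop atTop) :
    ∃ p : ℕ → ℝ, Sys Z p ∧
      (∀ (k : ℕ) (φ : (Fin k → ℝ) → ℝ) (B : ℝ), (∀ x, |φ x| ≤ B) → ∀ L : ℝ≥0, LipschitzWith L φ →
        ∀ l : ℝ, Tendsto (fun N : ℕ => (∑ n ∈ Finset.range N, φ (fun i => γ (n + i))) / N)
          atTop (𝓝 l) →
        Tendsto (fun N : ℕ => (∑ n ∈ Finset.range N,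
          φ (fun i => (p (n + i + 1) - p (n + i)) / Real.log (p (n + i)))) / N) atTop (𝓝 l)) ∧
      (∀ a, 1 < a → ENNReal.ofReal a < lexp h → HasExp p a (e a)) ∧
      ordC8 h p = 1 ∧
      ∀ᶠ x in atTop, |(countPr p x : ℝ) - mainTerm Z x| ≤ h x * Real.log x ^ ω x := by
  obtain ⟨x₀, hR, h8⟩ := exists_RDens8 hZ
  -- the exponents
  set e' : ℝ → ℝ≥0∞ := fun a => if ENNReal.ofReal a < lexp h then e a else ∞ with he'
  have hm' : MonotoneOn e' (Ioi 1) := by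
    intro a ha b hb hab
    show (if ENNReal.ofReal a < lexp h then e a else ∞) ≤
      (if ENNReal.ofReal b < lexp h then e b else ∞)
    by_cases h1 : ENNReal.ofReal b < lexp h
    · have h2 := lt_of_le_of_lt (ENNReal.ofReal_le_ofReal hab) h1
      rw [if_pos h1, if_pos h2]
      exact he1 ⟨ha, h2⟩ ⟨hb, h1⟩ hab
    · rw [if_neg h1]
      exact le_top
  obtain ⟨Q, hQ, hQ2, hQ3⟩ := expo_seq hm'
  set P : ℕ → Prop := fun q => e' (Q q) ≠ ∞ with hP
  set E : ℕ → ℝ := fun q => (e' (Q q)).toReal with hE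
  have hPA : ∀ q, P q → ENNReal.ofReal (Q q) < lexp h := by
    intro q hq
    by_contra hc
    exact hq (if_neg hc)
  have hEe : ∀ q, P q → ENNReal.ofReal (E q) = e' (Q q) := fun q hq => ENNReal.ofReal_toReal hq
  have hQE : ∀ q, P q → Q q ≤ E q := by
    intro q hq
    have h1 : ENNReal.ofReal (Q q) ≤ e' (Q q) := by
      show _ ≤ (if ENNReal.ofReal (Q q) < lexp h then e (Q q) else ∞)
      rw [if_pos (hPA q hq)]
      exact he2 _ (hQ q) (hPA q hq)
    rw [← hEe q hq] at h1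
    exact (ENNReal.ofReal_le_ofReal_iff ENNReal.toReal_nonneg).1 h1
  obtain ⟨D, st, cap, hst, hGB, hsp⟩ := tq8_exists hR h8 hγ hcond hQ hQE hω hmono hh1 hh2 hPA
  obtain ⟨y, r, h1, h2, h3, h4, h5, h6, h7, h8⟩ := D.system hR hZ hZc rfl
  let S : T8 Z x₀ γ Q E P ω h := ⟨hZ, hR, D, st, cap, hst, hGB, hsp, y, r, h1, h2,
    h3, h5, h6, h7, h8⟩
  have hpnt := (pnt_asymp hZ h4.mono h4.tendsto h4.pnt).1
  refine ⟨S.p, h4, fun k φ B hB L hL l hl => S.stats hB hL hl, ?_, ?_, S.error hω hh1⟩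
  · intro a ha haA
    have hea : e' a = e a := if_pos haA
    refine S.hasExp ha (he2 a ha haA) hpnt (fun q hq => ((hQ q).trans_le (hQE q hq)).le) ?_ ?_
    · intro b₁ hb
      have hlt : ∀ q, P q → ENNReal.ofReal b₁ < e' (Q q) → b₁ ≤ E q := by
        intro q hq h9
        rw [← hEe q hq] at h9
        by_contra hc
        push Not at hc
        exact absurd h9 (not_lt.2 (ENNReal.ofReal_le_ofReal hc.le))
      rcases hQ3 a ha (ENNReal.ofReal b₁) (by rw [hea]; exact hb) with ⟨i, hi⟩ | ⟨a', ha1, ha2, ha3⟩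
      · refine Or.inl ⟨i, hi, fun q hq haq => hlt q hq ?_⟩
        refine lt_of_lt_of_le ?_ (hm' ha (hQ q) haq)
        rw [hea]; exact hb
      · exact Or.inr ⟨a', ha1, ha2, fun q hq haq => hlt q hq (ha3.trans_le (hm' ha1 (hQ q) haq))⟩
    · intro b hb
      obtain ⟨q, hq1, hq2⟩ := hQ2 a ha (ENNReal.ofReal b) (by rw [hea]; exact hb)
      have hPq : P q := ne_top_of_lt hq2
      refine ⟨q, hPq, hq1, ?_⟩
      rw [← hEe q hPq] at hq2
      by_contra hc
      push Not at hc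
      exact absurd hq2 (not_lt.2 (ENNReal.ofReal_le_ofReal hc))
  · apply le_antisymm
    · apply ENNReal.le_of_forall_pos_le_add
      intro ε hε _
      have hε' : (0 : ℝ) < ε := by exact_mod_cast hε
      apply limsup_le_of_le (by isBoundedDefault)
      filter_upwards [S.rat_up hmono hh1 hd hε'] with k hk
      refine (ENNReal.ofReal_le_ofReal hk).trans ?_
      rw [ENNReal.ofReal_add zero_le_one hε'.le, ENNReal.ofReal_one, ENNReal.ofReal_coe_nnreal]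
    · apply le_of_forall_lt
      intro d hd'
      obtain ⟨q, hq1, hq2⟩ := ENNReal.lt_iff_exists_nnreal_btwn.1 hd'
      have hq3 : (q : ℝ) < 1 := by exact_mod_cast hq2
      refine lt_of_lt_of_le hq1 ?_
      apply le_limsup_of_frequently_le _ (by isBoundedDefault)
      refine (S.rat_lo hmono hh1 hd hq3).mono fun k hk => ?_
      have := ENNReal.ofReal_le_ofReal hk
      rwa [ENNReal.ofReal_coe_nnreal] at this

/-- **Necessity: the mean.** -/
theorem t8_nec1 {Z : Multiset ℂ} (hZ : ∀ ρ ∈ Z, ρ.re < 1) {p : ℕ → ℝ} (hS : SysW Z p)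
    {γ : ℕ → ℝ} (hγ : ∀ n, 0 ≤ γ n)
    (hγs : ∀ φ : (Fin 1 → ℝ) → ℝ, (∃ B, ∀ x, |φ x| ≤ B) → (∃ L, LipschitzWith L φ) →
      ∃ l, Tendsto (fun N : ℕ => (∑ n ∈ Finset.range N, φ (fun i => γ (n + i))) / N) atTop (𝓝 l))
    (hstat : ∀ φ : (Fin 1 → ℝ) → ℝ, (∃ B, ∀ x, |φ x| ≤ B) → (∃ L, LipschitzWith L φ) → ∀ l : ℝ,
      Tendsto (fun N : ℕ => (∑ n ∈ Finset.range N, φ (fun i => γ (n + i))) / N) atTop (𝓝 l) →
      Tendsto (fun N : ℕ => (∑ n ∈ Finset.range N,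
          φ (fun i => (p (n + i + 1) - p (n + i)) / Real.log (p (n + i)))) / N) atTop (𝓝 l)) :
    ∀ K ε : ℝ, 0 < K → 0 < ε → ∀ᶠ N : ℕ in atTop,
      (∑ n ∈ Finset.range N, min (γ n) K) / N ≤ 1 + ε := by
  intro K ε hK hε
  obtain ⟨h1, -⟩ := pnt_asymp hZ hS.mono hS.tendsto hS.pnt
  set φ : (Fin 1 → ℝ) → ℝ := fun x => max 0 (min (x 0) K) with hφ
  have hφB : ∃ B, ∀ x, |φ x| ≤ B := ⟨K, fun x => by
    rw [hφ, abs_of_nonneg (le_max_left _ _)]
    exact max_le hK.le (min_le_right _ _)⟩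
  have hφL : ∃ L, LipschitzWith L φ := by
    refine ⟨1, LipschitzWith.of_dist_le_mul fun x y => ?_⟩
    rw [NNReal.coe_one, one_mul, Real.dist_eq]
    have h3 : |φ x - φ y| ≤ |x 0 - y 0| := by
      rw [hφ]
      exact (abs_max_sub_max_le_max _ _ _ _).trans (by
        rw [sub_self, abs_zero]
        apply max_le (abs_nonneg _)
        refine (abs_min_sub_min_le_max _ _ _ _).trans ?_
        rw [sub_self, abs_zero]
        exact max_le le_rfl (abs_nonneg _))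
    refine h3.trans ?_
    rw [← Real.dist_eq]
    exact dist_le_pi_dist x y 0
  obtain ⟨μ, hμ⟩ := hγs φ hφB hφL
  have h3 := hstat φ hφB hφL μ hμ
  have hp1 : ∀ n, 1 < p n := fun n => hS.one_lt.trans_le (hS.mono.monotone (Nat.zero_le n))
  have h4 : Tendsto (fun N : ℕ => (∑ n ∈ Finset.range N,
      min ((p (n + 1) - p n) / Real.log (p n)) K) / N) atTop (𝓝 μ) := by
    refine h3.congr fun N => ?_
    congr 1
    apply Finset.sum_congr rfl
    intro n _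
    rw [hφ]
    have e : n + ((0 : Fin 1) : ℕ) = n := by simp
    simp only [e]
    rw [max_eq_right]
    apply le_min _ hK.le
    exact div_nonneg (sub_nonneg.2 (hS.mono (Nat.lt_succ_self n)).le) (Real.log_pos (hp1 n)).le
  have h6 := mean_le_one hS.mono hS.one_lt hS.tendsto h1 hK h4
  have h7 : Tendsto (fun N : ℕ => (∑ n ∈ Finset.range N, min (γ n) K) / N) atTop (𝓝 μ) := by
    refine hμ.congr fun N => ?_
    congr 1
    apply Finset.sum_congr rfl
    intro n _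
    rw [hφ]
    have e : n + ((0 : Fin 1) : ℕ) = n := by simp
    simp only [e]
    rw [max_eq_right]
    exact le_min (hγ n) hK.le
  filter_upwards [h7.eventually_le_const (by linarith : μ < μ + ε)] with N hN
  linarith

/-- **Necessity: the exponents.** -/
theorem t8_nec2 {Z : Multiset ℂ} (hZ : ∀ ρ ∈ Z, ρ.re < 1) {p : ℕ → ℝ} (hS : SysW Z p)
    {h : ℝ → ℝ} {e : ℝ → ℝ≥0∞}
    (he : ∀ a, 1 < a → ENNReal.ofReal a < lexp h → HasExp p a (e a)) :
    MonotoneOn e {a | 1 < a ∧ ENNReal.ofReal a < lexp h} ∧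
      ∀ a, 1 < a → ENNReal.ofReal a < lexp h → ENNReal.ofReal a ≤ e a := by
  obtain ⟨-, h2⟩ := pnt_asymp hZ hS.mono hS.tendsto hS.pnt
  refine ⟨fun a ha b hb hab => hasExp_mono hS.mono hS.one_lt hS.tendsto ha.1 hab
    (he a ha.1 ha.2) (he b hb.1 hb.2),
    fun a ha haA => hasExp_ge hS.mono hS.one_lt hS.tendsto h2 ha (he a ha haA)⟩

end Pool.Agent.H521.G
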