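import Pool.Agent.H521.G.Block
import Pool.Agent.H521.G.Cyc

open MeasureTheory Set Filter Topology
open scoped ENNReal NNReal ComplexConjugate Classical

namespace Pool.Agent.H521.G

/-- Position-dependent cyclic patterns, with a buffer: a block starting at `u` consists of `M u`
points with the cyclic gap pattern `C u`, and one more point in the last unit interval. -/
structure TQ (f : ℝ → ℝ) (x₀ : ℝ) where
  M : ℕ → ℕ
  C : ℕ → ℕ → ℝ
  Mpos : ∀ u, 0 < M u
  Cpos : ∀ u l, 0 < C u l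
  Csum : ∀ u, ∑ l ∈ Finset.range (M u), C u l = M u
  hS : ∀ σ : ℝ, 1 / 2 < σ → Summable fun n : ℕ => ((M n : ℝ) * phi f x₀ n ^ (-σ)) ^ 2
  two : ∀ u : ℕ, phi f x₀ ((u + M u + 1 : ℕ) : ℝ) ≤ 2 * phi f x₀ u

/-- points of a block with buffer -/
noncomputable def cq (c : ℕ → ℝ) (m l : ℕ) (v : ℝ) : ℝ := if l < m then ct c m l v else m + v

namespace TQ

variable {f : ℝ → ℝ} {x₀ : ℝ} (D : TQ f x₀)

/-- starting points -/
def g : ℕ → ℕ
  | 0 => 0
  | j + 1 => g j + D.M (g j) + 1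

theorem g_succ (j : ℕ) : D.g (j + 1) = D.g j + D.M (D.g j) + 1 := rfl

theorem g_mono : StrictMono D.g := strictMono_nat_of_lt_succ fun j => by
  rw [D.g_succ]; omega

theorem KK_eq (j : ℕ) : KK (fun i => D.M (D.g i) + 1) j = D.g j := by
  induction j with
  | zero => rfl
  | succ j ih => rw [KK_succ, ih, D.g_succ]; rfl

/-- The block system. -/
noncomputable def toBd : Bd f x₀ where
  m j := D.M (D.g j) + 1
  t j l v := cq (D.C (D.g j)) (D.M (D.g j)) l v
  mpos j := Nat.succ_pos _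
  tmeas j l := by
    unfold cq
    split_ifs
    · exact ct_meas _
    · fun_prop
  t0 j l v hv _ := by
    unfold cq
    split_ifs
    · exact ct_nonneg (D.Mpos _) (D.Cpos _) (D.Csum _) _ hv
    · have := hv.1
      positivity
  tm j l v hv hl := by
    unfold cq
    push_cast
    split_ifs with h
    · have := ct_lt (D.Mpos _) (D.Cpos _) (D.Csum _) h hv
      linarith
    · linarith [hv.2]
  tlt j l v hv hl := by
    unfold cq
    by_cases h : l + 1 < D.M (D.g j)
    · rw [if_pos h, if_pos (by omega)]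
      have h1 := ct_succ (c := D.C (D.g j)) (m := D.M (D.g j)) l v
      have h2 := D.Cpos (D.g j) ((cr (D.C (D.g j)) (D.M (D.g j)) v + l) % D.M (D.g j))
      linarith
    · rw [if_neg h, if_pos (by omega)]
      have := ct_lt (D.Mpos (D.g j)) (D.Cpos _) (D.Csum _) (by omega : l < D.M (D.g j)) hv
      linarith [hv.1]
  mean j g hg hb := by
    have hii : ∀ a b : ℝ, IntervalIntegrable g volume a b := by
      intro a b
      rw [intervalIntegrable_iff]
      exact Measure.integrableOn_of_bounded (by simp) hg.aestronglyMeasurable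
        (M := 1) (Filter.Eventually.of_forall hb)
    rw [Finset.sum_range_succ]
    have h1 : ∑ l ∈ Finset.range (D.M (D.g j)), ∫ v in (0 : ℝ)..1,
        g (cq (D.C (D.g j)) (D.M (D.g j)) l v) =
        ∑ l ∈ Finset.range (D.M (D.g j)), ∫ v in (0 : ℝ)..1,
          g (ct (D.C (D.g j)) (D.M (D.g j)) l v) := by
      apply Finset.sum_congr rfl
      intro l hl
      unfold cq
      simp only [if_pos (Finset.mem_range.1 hl)]
    have h2 : ∫ v in (0 : ℝ)..1, g (cq (D.C (D.g j)) (D.M (D.g j)) (D.M (D.g j)) v) =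
        ∫ x in (D.M (D.g j) : ℝ)..(D.M (D.g j) + 1 : ℝ), g x := by
      unfold cq
      simp only [if_neg (lt_irrefl _)]
      rw [intervalIntegral.integral_comp_add_left (fun x => g x)]
      simp
    rw [h1, h2, ct_mean (D.Mpos _) (D.Cpos _) (D.Csum _) g hg hb,
      intervalIntegral.integral_add_adjacent_intervals (hii _ _) (hii _ _)]
    push_cast
    rfl
  hB σ hσ := by
    have h1 := ((D.hS σ hσ).mul_left 4)
    have h2 : Summable fun n : ℕ => (((D.M n + 1 : ℕ) : ℝ) * phi f x₀ n ^ (-σ)) ^ 2 := by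
      refine Summable.of_nonneg_of_le (fun n => sq_nonneg _) (fun n => ?_) h1
      have h3 : (1 : ℝ) ≤ D.M n := by exact_mod_cast D.Mpos n
      rw [mul_pow, mul_pow]
      push_cast
      have h4 : ((D.M n : ℝ) + 1) ^ 2 ≤ 4 * (D.M n : ℝ) ^ 2 := by nlinarith
      calc ((D.M n : ℝ) + 1) ^ 2 * (phi f x₀ n ^ (-σ)) ^ 2 ≤
          4 * (D.M n : ℝ) ^ 2 * (phi f x₀ n ^ (-σ)) ^ 2 :=
            mul_le_mul_of_nonneg_right h4 (sq_nonneg _)
        _ = _ := by ring
    have h3 := h2.comp_injective D.g_mono.injective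
    refine h3.congr fun j => ?_
    simp only [Function.comp]
    rw [D.KK_eq]
  two j := by
    rw [D.KK_eq, D.KK_eq, D.g_succ]
    exact D.two _

/-- **Systems with prescribed cyclic patterns.** -/
theorem system (hR : RDens f x₀) {Z : Multiset ℂ} (hZ : ∀ ρ ∈ Z, ρ.re < 1)
    (hZc : Z.map conj = Z) (hf : f = fZ Z) :
    ∃ y : ℕ → ℝ, ∃ r : ℕ → ℕ, StrictMono y ∧ (∀ k, 0 ≤ y k) ∧ Tendsto y atTop atTop ∧
      Sys Z (fun k => phi f x₀ (y k)) ∧
      (∀ j l, l < D.M (D.g j) + 1 → (D.g j : ℝ) ≤ y (D.g j + l) ∧ y (D.g j + l) < D.g (j + 1)) ∧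
      (∀ j l, l + 1 < D.M (D.g j) → y (D.g j + l + 1) - y (D.g j + l) =
        D.C (D.g j) ((r j + l) % D.M (D.g j))) ∧
      (∀ j, ∃ l, y (D.g j + D.M (D.g j)) - y (D.g j + D.M (D.g j) - 1) ≤
        D.C (D.g j) (l % D.M (D.g j)) + 1) ∧
      ∀ j, ∃ l, y (D.g (j + 1)) - y (D.g j + D.M (D.g j)) ≤
        D.C (D.g (j + 1)) (l % D.M (D.g (j + 1))) + 1 := by
  obtain ⟨V, hV, hsys⟩ := D.toBd.system hR hZ hZc hf
  set W := D.toBd with hW
  have hm : ∀ j, W.m j = D.M (D.g j) + 1 := fun j => rfl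
  have hK : ∀ j, KK W.m j = D.g j := D.KK_eq
  have hY : ∀ j, W.Y j = D.g j := fun j => by
    unfold Bd.Y
    rw [hK]
  have ht : ∀ j l v, W.t j l v = cq (D.C (D.g j)) (D.M (D.g j)) l v := fun _ _ _ => rfl
  have hy : ∀ j l, l < D.M (D.g j) + 1 → W.yk V (D.g j + l) =
      D.g j + cq (D.C (D.g j)) (D.M (D.g j)) l (V j) := by
    intro j l hl
    have h1 := W.yk_eq V (j := j) (l := l) hl
    rw [hK, hY, ht] at h1
    exact h1
  have hy1 : ∀ j l, l < D.M (D.g j) → W.yk V (D.g j + l) =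
      D.g j + ct (D.C (D.g j)) (D.M (D.g j)) l (V j) := by
    intro j l hl
    rw [hy j l (by omega)]
    unfold cq
    rw [if_pos hl]
  have hy2 : ∀ j, W.yk V (D.g j + D.M (D.g j)) = D.g j + (D.M (D.g j) + V j) := by
    intro j
    rw [hy j _ (by omega)]
    unfold cq
    rw [if_neg (lt_irrefl _)]
  refine ⟨W.yk V, fun j => cr (D.C (D.g j)) (D.M (D.g j)) (V j), W.yk_strictMono hV,
    W.yk_nonneg hV, W.yk_tendsto hV, hsys, ?_, ?_, ?_, ?_⟩
  · intro j l hl
    rw [D.g_succ]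
    push_cast
    by_cases h : l < D.M (D.g j)
    · rw [hy1 j l h]
      have h1 := ct_nonneg (D.Mpos (D.g j)) (D.Cpos _) (D.Csum _) l (hV j)
      have h2 := ct_lt (D.Mpos (D.g j)) (D.Cpos _) (D.Csum _) h (hV j)
      constructor <;> linarith
    · have e : l = D.M (D.g j) := by omega
      rw [e, hy2]
      have h1 := (hV j).1
      have h2 := (hV j).2
      have h3 : (0 : ℝ) ≤ D.M (D.g j) := Nat.cast_nonneg _
      constructor <;> linarith
  · intro j l hl
    rw [add_assoc, hy1 j (l + 1) hl, hy1 j l (by omega)]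
    have h1 := ct_succ (c := D.C (D.g j)) (m := D.M (D.g j)) l (V j)
    linarith
  · intro j
    refine ⟨cr (D.C (D.g j)) (D.M (D.g j)) (V j) - 1, ?_⟩
    have hpos := D.Mpos (D.g j)
    have e : D.g j + D.M (D.g j) - 1 = D.g j + (D.M (D.g j) - 1) := by omega
    rw [hy2, e, hy1 j _ (by omega)]
    have h3 := ct_last (D.Mpos (D.g j)) (D.Cpos _) (D.Csum _) (hV j)
    linarith [(hV j).2]
  · intro j
    refine ⟨cr (D.C (D.g (j + 1))) (D.M (D.g (j + 1))) (V (j + 1)) - 1, ?_⟩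
    have h0 := hy1 (j + 1) 0 (D.Mpos _)
    rw [add_zero] at h0
    rw [h0, hy2]
    have h2 := ct_first (D.Mpos (D.g (j + 1))) (D.Cpos _) (D.Csum _) (hV (j + 1))
    have h4 : (D.g (j + 1) : ℝ) = D.g j + D.M (D.g j) + 1 := by rw [D.g_succ]; push_cast; ring
    linarith [(hV j).1]

end TQ

end Pool.Agent.H521.G
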