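import Pool.Agent.H521.G.Phi

open MeasureTheory Set Filter Topology
open scoped ENNReal NNReal

namespace Pool.Agent.H521.G

/-- The representative modulo `2`. -/
noncomputable def rep (x : ℝ) : ℝ := x - 2 * round (x / 2)

/-- The distance to the nearest even integer. -/
noncomputable def tri (x : ℝ) : ℝ := |rep x|

theorem rep_eq (x : ℝ) : rep x = 2 * (x / 2 - round (x / 2)) := by unfold rep; ring

theorem abs_rep_le (x : ℝ) : |rep x| ≤ 1 := by
  have h := abs_sub_round (x / 2)
  rw [rep_eq, abs_mul, abs_two]
  linarith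

theorem rep_add_int (x : ℝ) (n : ℤ) : rep (x + 2 * n) = rep x := by
  unfold rep
  have : (x + 2 * n) / 2 = x / 2 + n := by ring
  rw [this, round_add_intCast]
  push_cast
  ring

theorem rep_periodic : Function.Periodic rep 2 := fun x => by
  have := rep_add_int x 1
  simpa using this

theorem rep_of_abs_lt {x : ℝ} (h : |x| < 1) : rep x = x := by
  unfold rep
  have : round (x / 2) = 0 := by
    rw [round_eq_zero_iff]
    rw [abs_lt] at h
    constructor
    · linarith
    · linarith
  rw [this]
  simp

theorem tri_nonneg (x : ℝ) : 0 ≤ tri x := abs_nonneg _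

theorem tri_le_one (x : ℝ) : tri x ≤ 1 := abs_rep_le x

theorem tri_periodic : Function.Periodic tri 2 := fun x => by
  unfold tri
  rw [rep_periodic x]

theorem tri_zero : tri 0 = 0 := by simp [tri, rep]

theorem tri_le_add (x y : ℝ) : tri x ≤ tri y + |x - y| := by
  unfold tri
  rw [rep_eq x, abs_mul, abs_two]
  have h := round_le (x / 2) (round (y / 2))
  have h2 : 2 * (x / 2 - round (y / 2)) = rep y + (x - y) := by unfold rep; ring
  have h3 : 2 * |x / 2 - round (y / 2)| ≤ |rep y| + |x - y| := by
    rw [← abs_two (α := ℝ), ← abs_mul, abs_two, h2]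
    exact abs_add_le _ _
  linarith

theorem tri_lip (x y : ℝ) : |tri x - tri y| ≤ |x - y| := by
  rw [abs_le]
  have h1 := tri_le_add x y
  have h2 := tri_le_add y x
  rw [abs_sub_comm] at h2
  constructor <;> linarith

theorem tri_add_rep (α β : ℝ) : tri (α + rep (β - α)) = tri β := by
  have : α + rep (β - α) = β + 2 * ((-round ((β - α) / 2) : ℤ) : ℝ) := by
    unfold rep
    push_cast
    ring
  unfold tri
  rw [this, rep_add_int]

theorem measurable_round : Measurable (round : ℝ → ℤ) := by
  have : (round : ℝ → ℤ) = fun x => ⌊x + 1 / 2⌋ := by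
    ext x
    exact round_eq x
  rw [this]
  exact Int.measurable_floor.comp (measurable_id.add_const _)

theorem measurable_rep : Measurable rep := by
  unfold rep
  apply Measurable.sub measurable_id
  apply Measurable.const_mul
  have h1 : Measurable fun n : ℤ => (n : ℝ) := measurable_from_top
  exact h1.comp (measurable_round.comp (measurable_id.div_const 2))

theorem measurable_tri : Measurable tri := by
  unfold tri
  exact measurable_rep.abs

/-- The uniform probability measure on `(-1, 1]`. -/
noncomputable def muU : Measure ℝ := (1 / 2 : ℝ≥0∞) • volume.restrict (Ioc (-1) 1)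

instance : IsProbabilityMeasure muU := by
  constructor
  unfold muU
  rw [Measure.smul_apply, Measure.restrict_apply_univ, Real.volume_Ioc]
  norm_num
  rw [← ENNReal.ofReal_ofNat, ← ENNReal.ofReal_inv_of_pos (by norm_num),
    ← ENNReal.ofReal_mul (by norm_num)]
  norm_num

theorem muU_compl : muU (Ioc (-1) 1)ᶜ = 0 := by
  unfold muU
  rw [Measure.smul_apply, Measure.restrict_apply (measurableSet_Ioc.compl)]
  simp

theorem integral_muU {E : Type*} [NormedAddCommGroup E] [NormedSpace ℝ E] (g : ℝ → E) :
    ∫ x, g x ∂muU = (1 / 2 : ℝ) • ∫ x in (-1 : ℝ)..1, g x := by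
  unfold muU
  rw [integral_smul_measure, intervalIntegral.integral_of_le (by norm_num)]
  congr 1
  simp

theorem int_periodic {E : Type*} [NormedAddCommGroup E] [NormedSpace ℝ E] {g : ℝ → E}
    (hg : Function.Periodic g 2) (c : ℝ) :
    ∫ x in (-1 : ℝ)..1, g (x + c) = ∫ x in (-1 : ℝ)..1, g x := by
  rw [intervalIntegral.integral_comp_add_right]
  have h := hg.intervalIntegral_add_eq (-1 + c) (-1)
  have e1 : -1 + c + 2 = 1 + c := by ring
  have e2 : (-1 : ℝ) + 2 = 1 := by ring
  rw [e1, e2] at h
  exact h

theorem int_rep {E : Type*} [NormedAddCommGroup E] [NormedSpace ℝ E] (H : ℝ → E) (c : ℝ) :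
    ∫ x in (-1 : ℝ)..1, H (rep (x - c)) = ∫ x in (-1 : ℝ)..1, H x := by
  have hper : Function.Periodic (fun x => H (rep x)) 2 := fun x => by
    simp only
    rw [rep_periodic x]
  have h1 := int_periodic hper (-c)
  simp only [← sub_eq_add_neg] at h1
  rw [h1]
  rw [intervalIntegral.integral_of_le (by norm_num), intervalIntegral.integral_of_le (by norm_num)]
  rw [integral_Ioc_eq_integral_Ioo, integral_Ioc_eq_integral_Ioo]
  apply setIntegral_congr_fun measurableSet_Ioo
  intro x hx
  simp only
  rw [rep_of_abs_lt (abs_lt.2 hx)]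

theorem int_tri {E : Type*} [NormedAddCommGroup E] [NormedSpace ℝ E] {K : ℝ → E}
    (hK : IntervalIntegrable (fun x => K (tri x)) volume (-1) 1) :
    ∫ x in (-1 : ℝ)..1, K (tri x) = (2 : ℝ) • ∫ v in (0 : ℝ)..1, K v := by
  have h1 : IntervalIntegrable (fun x => K (tri x)) volume (-1) 0 :=
    hK.mono_set (by
      rw [uIcc_of_le (by norm_num), uIcc_of_le (by norm_num)]
      exact Icc_subset_Icc_right (by norm_num))
  have h2 : IntervalIntegrable (fun x => K (tri x)) volume 0 1 :=
    hK.mono_set (by
      rw [uIcc_of_le (by norm_num), uIcc_of_le (by norm_num)]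
      exact Icc_subset_Icc_left (by norm_num))
  rw [← intervalIntegral.integral_add_adjacent_intervals h1 h2]
  have e2 : ∫ x in (0 : ℝ)..1, K (tri x) = ∫ v in (0 : ℝ)..1, K v := by
    rw [intervalIntegral.integral_of_le (by norm_num), intervalIntegral.integral_of_le
      (by norm_num), integral_Ioc_eq_integral_Ioo, integral_Ioc_eq_integral_Ioo]
    apply setIntegral_congr_fun measurableSet_Ioo
    intro x hx
    simp only
    unfold tri
    rw [rep_of_abs_lt (abs_lt.2 ⟨by linarith [hx.1], hx.2⟩), abs_of_pos hx.1]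
  have e1 : ∫ x in (-1 : ℝ)..0, K (tri x) = ∫ v in (0 : ℝ)..1, K v := by
    have : ∫ x in (-1 : ℝ)..0, K (tri x) = ∫ x in (-1 : ℝ)..0, K (-x) := by
      rw [intervalIntegral.integral_of_le (by norm_num), intervalIntegral.integral_of_le
        (by norm_num), integral_Ioc_eq_integral_Ioo, integral_Ioc_eq_integral_Ioo]
      apply setIntegral_congr_fun measurableSet_Ioo
      intro x hx
      simp only
      unfold tri
      rw [rep_of_abs_lt (abs_lt.2 ⟨hx.1, by linarith [hx.2]⟩), abs_of_neg hx.2]
    rw [this, intervalIntegral.integral_comp_neg]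
    simp
  rw [e1, e2, two_smul]

/-- Uniformity of the moving phase. -/
theorem exact_phase {K : ℝ → ℂ} (hK : Measurable K) {C : ℝ} (hKb : ∀ v ∈ Icc (0 : ℝ) 1, ‖K v‖ ≤ C)
    (t : ℝ) :
    ∫ θ, ∫ θ', K (tri (θ + rep (θ' - θ) * t)) ∂muU ∂muU = ∫ v in (0 : ℝ)..1, K v := by
  have hb : ∀ x, ‖K (tri x)‖ ≤ C := fun x => hKb _ ⟨tri_nonneg x, tri_le_one x⟩
  have h1 : ∀ θ, ∫ θ', K (tri (θ + rep (θ' - θ) * t)) ∂muU = ∫ δ, K (tri (θ + δ * t)) ∂muU := by
    intro θ
    rw [integral_muU, integral_muU]
    congr 1
    exact int_rep (fun δ => K (tri (θ + δ * t))) θ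
  simp_rw [h1]
  rw [integral_integral_swap]
  · have h2 : ∀ δ, ∫ θ, K (tri (θ + δ * t)) ∂muU = ∫ v in (0 : ℝ)..1, K v := by
      intro δ
      rw [integral_muU]
      have hper : Function.Periodic (fun x => K (tri x)) 2 := fun x => by
        simp only
        rw [tri_periodic x]
      have h3 := int_periodic hper (δ * t)
      rw [h3, int_tri, smul_smul]
      · norm_num
      · rw [intervalIntegrable_iff, uIoc_of_le (by norm_num)]
        exact Measure.integrableOn_of_bounded (by simp)
          (hK.comp measurable_tri).aestronglyMeasurable (M := C)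
          (Filter.Eventually.of_forall hb)
    simp_rw [h2]
    simp
  · apply Integrable.of_bound _ C
    · exact Filter.Eventually.of_forall fun q => hb _
    · apply Measurable.aestronglyMeasurable
      apply hK.comp
      apply measurable_tri.comp
      exact measurable_fst.add (measurable_snd.mul_const t)

end Pool.Agent.H521.G
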