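import Pool.Agent.H521.G.Block

open MeasureTheory Set Filter Topology
open scoped ENNReal NNReal ComplexConjugate Classical

namespace Pool.Agent.H521.G

/-- Starting points and half lengths of blocks containing a void. -/
structure VD (f : ℝ → ℝ) (x₀ : ℝ) where
  w : ℕ → ℕ
  w0 : w 0 = 0
  sep : ∀ u v, 1 ≤ w u → u < v → v < u + 2 * w u + 1 → w v = 0
  hS : ∀ σ : ℝ, 1 / 2 < σ → Summable fun n : ℕ => ((w n : ℝ) * phi f x₀ n ^ (-σ)) ^ 2
  two : ∀ u : ℕ, 1 ≤ w u → phi f x₀ ((u + 2 * w u : ℕ) : ℝ) ≤ 2 * phi f x₀ u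

namespace VD

variable {f : ℝ → ℝ} {x₀ : ℝ} (D : VD f x₀)

/-- length of a block -/
def L (n : ℕ) : ℕ := if D.w n = 0 then 1 else 2 * D.w n

theorem L_pos (n : ℕ) : 0 < D.L n := by
  unfold L
  split_ifs with h
  · exact one_pos
  · omega

/-- starting points -/
def g : ℕ → ℕ
  | 0 => 0
  | j + 1 => g j + D.L (g j)

theorem g_succ (j : ℕ) : D.g (j + 1) = D.g j + D.L (D.g j) := rfl

theorem g_mono : StrictMono D.g := strictMono_nat_of_lt_succ fun j => by
  rw [D.g_succ]; have := D.L_pos (D.g j); omega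

theorem KK_eq (j : ℕ) : KK (fun i => D.L (D.g i)) j = D.g j := by
  induction j with
  | zero => rfl
  | succ j ih => rw [KK_succ, ih, D.g_succ]

theorem exists_g (u : ℕ) (hu : 1 ≤ D.w u) : ∃ j, D.g j = u := by
  have hex : ∃ j, u < D.g (j + 1) := by
    refine ⟨u, ?_⟩
    have := D.g_mono.le_apply (x := u + 1)
    omega
  set j := Nat.find hex with hj
  have h1 : u < D.g (j + 1) := Nat.find_spec hex
  have h2 : D.g j ≤ u := by
    rcases Nat.eq_zero_or_pos j with h | h
    · rw [h]; exact Nat.zero_le u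
    · have := Nat.find_min hex (Nat.sub_lt h one_pos)
      have e : j - 1 + 1 = j := by omega
      rw [e] at this
      omega
  refine ⟨j, ?_⟩
  by_contra hne
  have h3 : D.g j < u := lt_of_le_of_ne h2 hne
  rw [D.g_succ] at h1
  unfold L at h1
  split_ifs at h1 with h4
  · omega
  · have := D.sep (D.g j) u (by omega) h3 (by omega)
    omega

/-- positions of the points in a block -/
noncomputable def tt (w l : ℕ) (v : ℝ) : ℝ :=
  if w = 0 then v else if v < 1 / 2 then w + (l : ℝ) / 2 + v else (l : ℝ) / 2 + v - 1 / 2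

theorem tt_zero (l : ℕ) (v : ℝ) : tt 0 l v = v := by unfold tt; rw [if_pos rfl]

theorem tt_left {w l : ℕ} (hw : w ≠ 0) {v : ℝ} (hv : v < 1 / 2) :
    tt w l v = w + (l : ℝ) / 2 + v := by unfold tt; rw [if_neg hw, if_pos hv]

theorem tt_right {w l : ℕ} (hw : w ≠ 0) {v : ℝ} (hv : 1 / 2 ≤ v) :
    tt w l v = (l : ℝ) / 2 + v - 1 / 2 := by
  unfold tt; rw [if_neg hw, if_neg (not_lt.2 hv)]

theorem tt_meas (w l : ℕ) : Measurable (tt w l) := by
  unfold tt
  split_ifs with h
  · exact measurable_id
  · apply Measurable.ite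
    · exact measurableSet_lt measurable_id measurable_const
    · fun_prop
    · fun_prop

theorem L_of_zero {n : ℕ} (h : D.w n = 0) : D.L n = 1 := by unfold L; rw [if_pos h]

theorem L_of_pos {n : ℕ} (h : D.w n ≠ 0) : D.L n = 2 * D.w n := by unfold L; rw [if_neg h]

theorem tt_nonneg {n l : ℕ} {v : ℝ} (hv : v ∈ Ico (0 : ℝ) 1) : 0 ≤ tt (D.w n) l v := by
  by_cases h : D.w n = 0
  · rw [h, tt_zero]; exact hv.1
  · rcases lt_or_ge v (1 / 2) with h1 | h1
    · rw [tt_left h h1]
      have := hv.1
      positivity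
    · rw [tt_right h h1]
      have : (0 : ℝ) ≤ (l : ℝ) / 2 := by positivity
      linarith

theorem tt_lt {n l : ℕ} {v : ℝ} (hv : v ∈ Ico (0 : ℝ) 1) (hl : l < D.L n) :
    tt (D.w n) l v < D.L n := by
  by_cases h : D.w n = 0
  · rw [D.L_of_zero h, h, tt_zero]; simpa using hv.2
  · rw [D.L_of_pos h] at hl ⊢
    have hl' : (l : ℝ) + 1 ≤ 2 * D.w n := by exact_mod_cast hl
    push_cast
    rcases lt_or_ge v (1 / 2) with h1 | h1
    · rw [tt_left h h1]; linarith
    · rw [tt_right h h1]
      have : (1 : ℝ) ≤ D.w n := by exact_mod_cast Nat.one_le_iff_ne_zero.2 h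
      linarith [hv.2]

theorem tt_step {n l : ℕ} {v : ℝ} (hl : l + 1 < D.L n) :
    tt (D.w n) (l + 1) v = tt (D.w n) l v + 1 / 2 := by
  by_cases h : D.w n = 0
  · rw [D.L_of_zero h] at hl; omega
  · rcases lt_or_ge v (1 / 2) with h1 | h1
    · rw [tt_left h h1, tt_left h h1]; push_cast; ring
    · rw [tt_right h h1, tt_right h h1]; push_cast; ring

theorem tt_mean (n : ℕ) (g : ℝ → ℂ) (hg : Measurable g) (hb : ∀ x, ‖g x‖ ≤ 1) :
    ∑ l ∈ Finset.range (D.L n), ∫ v in (0 : ℝ)..1, g (tt (D.w n) l v) =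
      ∫ x in (0 : ℝ)..(D.L n), g x := by
  have hii : ∀ a b : ℝ, IntervalIntegrable g volume a b := by
    intro a b
    rw [intervalIntegrable_iff]
    exact Measure.integrableOn_of_bounded (by simp) hg.aestronglyMeasurable
      (M := 1) (Filter.Eventually.of_forall hb)
  by_cases h : D.w n = 0
  · rw [D.L_of_zero h, h]
    simp [tt_zero]
  · rw [D.L_of_pos h]
    set w := D.w n with hw
    have hiit : ∀ l a b, IntervalIntegrable (fun v => g (tt w l v)) volume a b := by
      intro l a b
      rw [intervalIntegrable_iff]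
      exact Measure.integrableOn_of_bounded (by simp) (hg.comp (tt_meas w l)).aestronglyMeasurable
        (M := 1) (Filter.Eventually.of_forall fun y => hb _)
    have h1 : ∀ l : ℕ, ∫ v in (0 : ℝ)..1, g (tt w l v) =
        (∫ x in ((w : ℝ) + (l : ℝ) * (1 / 2))..((w : ℝ) + ((l + 1 : ℕ) : ℝ) * (1 / 2)), g x) +
        ∫ x in (0 + (l : ℝ) * (1 / 2))..(0 + ((l + 1 : ℕ) : ℝ) * (1 / 2)), g x := by
      intro l
      rw [← intervalIntegral.integral_add_adjacent_intervals (hiit l 0 (1 / 2)) (hiit l (1 / 2) 1)]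
      congr 1
      · have h2 : ∫ v in (0 : ℝ)..(1 / 2), g (tt w l v) =
            ∫ v in (0 : ℝ)..(1 / 2), g ((w : ℝ) + (l : ℝ) * (1 / 2) + v) := by
          apply intervalIntegral.integral_congr_ae
          have h3 : ∀ᵐ v : ℝ ∂volume, v ≠ 1 / 2 := by
            rw [ae_iff]; simp
          filter_upwards [h3] with v hv hv2
          rw [uIoc_of_le (by norm_num)] at hv2
          rw [tt_left h (lt_of_le_of_ne hv2.2 hv)]
          congr 1
          ring
        rw [h2, intervalIntegral.integral_comp_add_left (fun x => g x)]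
        congr 1
        · ring
        · push_cast; ring
      · have h2 : ∫ v in (1 / 2 : ℝ)..1, g (tt w l v) =
            ∫ v in (1 / 2 : ℝ)..1, g ((l : ℝ) * (1 / 2) - 1 / 2 + v) := by
          apply intervalIntegral.integral_congr
          intro v hv
          rw [uIcc_of_le (by norm_num)] at hv
          simp only
          rw [tt_right h hv.1]
          congr 1
          ring
        rw [h2, intervalIntegral.integral_comp_add_left (fun x => g x)]
        congr 1
        · ring
        · push_cast; ring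
    rw [Finset.sum_congr rfl fun l _ => h1 l, Finset.sum_add_distrib]
    have h2 : ∀ a : ℝ, ∑ l ∈ Finset.range (2 * w), ∫ x in (a + (l : ℝ) * (1 / 2))..
        (a + ((l + 1 : ℕ) : ℝ) * (1 / 2)), g x = ∫ x in a..(a + w), g x := by
      intro a
      have := intervalIntegral.sum_integral_adjacent_intervals (μ := volume) (f := g)
        (a := fun l : ℕ => a + (l : ℝ) * (1 / 2)) (n := 2 * w) (fun l _ => hii _ _)
      rw [this]
      congr 1
      · push_cast; ring
      · push_cast; ring
    rw [h2 w, h2 0, zero_add, add_comm,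
      intervalIntegral.integral_add_adjacent_intervals (hii _ _) (hii _ _)]
    congr 1
    push_cast
    ring

variable (hR : RDens f x₀)

/-- The block system. -/
noncomputable def toBd : Bd f x₀ where
  m j := D.L (D.g j)
  t j l v := tt (D.w (D.g j)) l v
  mpos j := D.L_pos _
  tmeas j l := tt_meas _ _
  t0 j l v hv _ := D.tt_nonneg hv
  tm j l v hv hl := D.tt_lt hv hl
  tlt j l v hv hl := by rw [D.tt_step hl]; linarith
  mean j g hg hb := D.tt_mean _ g hg hb
  hB σ hσ := by
    have h1 : Summable fun n : ℕ => ((D.L n : ℝ) * phi f x₀ n ^ (-σ)) ^ 2 := by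
      have h2 := (summable_add_one_rpow (p := -(2 * σ)) (by linarith))
      have h3 := h2.add ((D.hS σ hσ).mul_left 4)
      refine Summable.of_nonneg_of_le (fun n => sq_nonneg _) (fun n => ?_) h3
      have h4 := phi_ge_succ hR (le_refl (n : ℝ))
      have h5 : phi f x₀ n ^ (-(2 * σ)) ≤ ((n : ℝ) + 1) ^ (-(2 * σ)) :=
        Real.rpow_le_rpow_of_nonpos (by positivity) h4 (by linarith)
      have h6 : (phi f x₀ n ^ (-σ)) ^ 2 = phi f x₀ n ^ (-(2 * σ)) := by
        rw [← Real.rpow_natCast (phi f x₀ n ^ (-σ)) 2, ← Real.rpow_mul (hR.phi_pos _).le]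
        congr 1
        push_cast
        ring
      by_cases h : D.w n = 0
      · rw [D.L_of_zero h, h]
        simp only [Nat.cast_one, one_mul, CharP.cast_eq_zero, zero_mul]
        rw [h6]
        simpa using h5
      · rw [D.L_of_pos h]
        push_cast
        have h7 : 0 ≤ ((n : ℝ) + 1) ^ (-(2 * σ)) := by positivity
        have h8 : (2 * (D.w n : ℝ) * phi f x₀ n ^ (-σ)) ^ 2 =
          4 * ((D.w n : ℝ) * phi f x₀ n ^ (-σ)) ^ 2 := by ring
        rw [h8]
        linarith
    have h2 := h1.comp_injective D.g_mono.injective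
    refine h2.congr fun j => ?_
    simp only [Function.comp]
    rw [D.KK_eq]
  two j := by
    rw [D.KK_eq, D.KK_eq, D.g_succ]
    by_cases h : D.w (D.g j) = 0
    · rw [D.L_of_zero h]
      have h1 := hR.phi_cell (Nat.cast_nonneg (D.g j))
      have h2 := hR.hlog4 _ (hR.phi_ge (D.g j : ℝ))
      push_cast
      linarith
    · rw [D.L_of_pos h]
      exact D.two _ (Nat.one_le_iff_ne_zero.2 h)

/-- **Systems with prescribed numbers of voids.** -/
theorem system (hR : RDens f x₀) {Z : Multiset ℂ} (hZ : ∀ ρ ∈ Z, ρ.re < 1)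
    (hZc : Z.map conj = Z) (hf : f = fZ Z) :
    ∃ y : ℕ → ℝ, ∃ κ : ℕ → ℕ, StrictMono y ∧ (∀ k, 0 ≤ y k) ∧ Tendsto y atTop atTop ∧
      Sys Z (fun k => phi f x₀ (y k)) ∧
      (∀ u, 1 ≤ D.w u → (u : ℝ) - 1 ≤ y (κ u) ∧ y (κ u) ≤ u + D.w u ∧
        (D.w u : ℝ) ≤ y (κ u + 1) - y (κ u) ∧ y (κ u + 1) - y (κ u) ≤ D.w u + 2) ∧
      ∀ k, 2 < y (k + 1) - y k → ∃ u, 1 ≤ D.w u ∧ k = κ u := by
  obtain ⟨V, hV, hsys⟩ := (D.toBd hR).system hR hZ hZc hf
  set W := D.toBd hR with hW
  have hm : ∀ j, W.m j = D.L (D.g j) := fun j => rfl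
  have hY : ∀ j, W.Y j = D.g j := fun j => by
    have := D.KK_eq j
    unfold Bd.Y
    rw [← this]
    rfl
  have ht : ∀ j l v, W.t j l v = tt (D.w (D.g j)) l v := fun _ _ _ => rfl
  -- first and last points of the blocks
  have hfirst : ∀ j, W.yk V (KK W.m j) = D.g j + tt (D.w (D.g j)) 0 (V j) := by
    intro j
    have := W.yk_eq V (W.mpos j)
    rw [add_zero, hY, ht] at this
    exact this
  have hlast : ∀ j, W.yk V (KK W.m (j + 1) - 1) =
      D.g j + tt (D.w (D.g j)) (D.L (D.g j) - 1) (V j) := by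
    intro j
    have h1 : D.L (D.g j) - 1 < W.m j := by rw [hm]; have := D.L_pos (D.g j); omega
    have := W.yk_eq V h1
    rw [hY, ht] at this
    rw [← this]
    congr 1
    rw [KK_succ, hm]
    have := D.L_pos (D.g j)
    omega
  -- after a void block comes a unit block
  have hnext : ∀ j, D.w (D.g j) ≠ 0 → D.w (D.g (j + 1)) = 0 := by
    intro j hj
    rw [D.g_succ, D.L_of_pos hj]
    exact D.sep (D.g j) _ (Nat.one_le_iff_ne_zero.2 hj) (by omega) (by omega)
  choose! ju hju using D.exists_g
  set κ : ℕ → ℕ := fun u => if V (ju u) < 1 / 2 then KK W.m (ju u) - 1 else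
    KK W.m (ju u + 1) - 1 with hκ
  have hgj : ∀ j, D.w (D.g j) ≠ 0 → ju (D.g j) = j := fun j hj =>
    D.g_mono.injective (hju _ (Nat.one_le_iff_ne_zero.2 hj))
  refine ⟨W.yk V, κ, W.yk_strictMono hV, W.yk_nonneg hV, W.yk_tendsto hV, hsys, ?_, ?_⟩
  · intro u hu
    have hu0 : D.w u ≠ 0 := by omega
    have hj := hju u hu
    set j := ju u with hjd
    have hw1 : (1 : ℝ) ≤ D.w u := by exact_mod_cast hu
    rcases lt_or_ge (V j) (1 / 2) with hv | hv
    · -- void on the left
      have hj0 : j ≠ 0 := by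
        intro h
        rw [h] at hj
        have : D.g 0 = 0 := rfl
        rw [this] at hj
        rw [← hj, D.w0] at hu
        omega
      obtain ⟨i, hi⟩ : ∃ i, j = i + 1 := ⟨j - 1, by omega⟩
      have hprev : D.w (D.g i) = 0 := by
        by_contra hc
        have := hnext i hc
        rw [← hi, hj] at this
        exact hu0 this
      have e : κ u = KK W.m j - 1 := by rw [hκ]; simp only; rw [if_pos hv]
      have hpos : 1 ≤ KK W.m j := by
        have := KK_ge W.mpos j
        omega
      have e1 : κ u + 1 = KK W.m j := by omega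
      have hyprev : W.yk V (KK W.m j - 1) = D.g i + V i := by
        have := hlast i
        rw [← hi, hprev, tt_zero] at this
        exact this
      have hyfirst : W.yk V (KK W.m j) = u + (D.w u + V j) := by
        rw [hfirst j, hj, tt_left hu0 hv]
        simp
      rw [e1, e, hyprev, hyfirst]
      have hgi : (D.g i : ℝ) + 1 = u := by
        have h1 : D.g (i + 1) = D.g i + D.L (D.g i) := D.g_succ i
        rw [D.L_of_zero hprev, ← hi, hj] at h1
        rw [h1]; push_cast; ring
      have h3 := hV i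
      have h4 := hV j
      refine ⟨?_, ?_, ?_, ?_⟩
      · linarith [h3.1]
      · linarith [h3.2]
      · linarith [h3.2, h4.1]
      · linarith [h3.1]
    · have e : κ u = KK W.m (j + 1) - 1 := by
        rw [hκ]; simp only; rw [if_neg (not_lt.2 hv)]
      have hpos : 1 ≤ KK W.m (j + 1) := by
        have := KK_ge W.mpos (j + 1)
        omega
      have e1 : κ u + 1 = KK W.m (j + 1) := by omega
      have hn := hnext j (by rw [hj]; exact hu0)
      rw [e1, e, hfirst (j + 1), hlast j, hn, tt_zero, hj, tt_right hu0 hv]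
      have h1 : (D.g (j + 1) : ℝ) = u + 2 * D.w u := by
        rw [D.g_succ, hj, D.L_of_pos hu0]; push_cast; ring
      have h2 : ((D.L u - 1 : ℕ) : ℝ) = 2 * D.w u - 1 := by
        rw [D.L_of_pos hu0, Nat.cast_sub (by omega)]; push_cast; ring
      rw [h1, h2]
      have h3 := hV (j + 1)
      have h4 := hV j
      refine ⟨?_, ?_, ?_, ?_⟩
      · linarith [h4.1]
      · linarith [h4.2]
      · linarith [h3.1, h4.2]
      · linarith [h3.2, h4.1]
  · intro k hk
    set j := blk W.m k with hj
    rcases blk_succ W.mpos k with ⟨h1, h2, h3⟩ | ⟨h1, h2, h3⟩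
    · exfalso
      have e1 : W.yk V (k + 1) = W.yk V k + 1 / 2 := by
        unfold Bd.yk
        rw [h2, h3, ht, ht, D.tt_step (by rw [← hj] at h1 ⊢; exact h1)]
        ring
      rw [e1] at hk
      linarith
    · have hk1 : k = KK W.m (j + 1) - 1 := by
        have := KK_add_pos W.mpos k
        rw [KK_succ, ← hj] at *
        omega
      have hk2 : k + 1 = KK W.m (j + 1) := by
        have := KK_add_pos W.mpos k
        rw [KK_succ, ← hj] at *
        omega
      have e2 : W.yk V (k + 1) = D.g (j + 1) + tt (D.w (D.g (j + 1))) 0 (V (j + 1)) := by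
        rw [hk2, hfirst]
      have e3 : W.yk V k = D.g j + tt (D.w (D.g j)) (D.L (D.g j) - 1) (V j) := by
        rw [← hlast j, ← hk1]
      rw [e2, e3] at hk
      by_cases hwj : D.w (D.g j) = 0
      · rw [hwj, tt_zero] at hk
        have hg1 : (D.g (j + 1) : ℝ) = D.g j + 1 := by
          rw [D.g_succ, D.L_of_zero hwj]; push_cast; ring
        rw [hg1] at hk
        by_cases hwn : D.w (D.g (j + 1)) = 0
        · exfalso
          rw [hwn, tt_zero] at hk
          linarith [(hV j).1, (hV (j + 1)).2]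
        · refine ⟨D.g (j + 1), Nat.one_le_iff_ne_zero.2 hwn, ?_⟩
          rcases lt_or_ge (V (j + 1)) (1 / 2) with hv | hv
          · rw [hκ]
            simp only
            rw [hgj _ hwn, if_pos hv, hk1]
          · exfalso
            rw [tt_right hwn hv] at hk
            simp only [CharP.cast_eq_zero, zero_div, zero_add] at hk
            linarith [(hV j).1, (hV (j + 1)).2]
      · have hwn := hnext j hwj
        rw [hwn, tt_zero] at hk
        have hg1 : (D.g (j + 1) : ℝ) = D.g j + 2 * D.w (D.g j) := by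
          rw [D.g_succ, D.L_of_pos hwj]; push_cast; ring
        have h2' : ((D.L (D.g j) - 1 : ℕ) : ℝ) = 2 * D.w (D.g j) - 1 := by
          rw [D.L_of_pos hwj, Nat.cast_sub (by omega)]; push_cast; ring
        rw [hg1] at hk
        rcases lt_or_ge (V j) (1 / 2) with hv | hv
        · exfalso
          rw [tt_left hwj hv, h2'] at hk
          linarith [(hV j).1, (hV (j + 1)).2]
        · refine ⟨D.g j, Nat.one_le_iff_ne_zero.2 hwj, ?_⟩
          rw [hκ]
          simp only
          rw [hgj _ hwj, if_neg (not_lt.2 hv), hk1]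

end VD

end Pool.Agent.H521.G
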