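import Pool.Agent.H521.G.SysSeq

open MeasureTheory Set Filter Topology
open scoped ENNReal NNReal ComplexConjugate

namespace Pool.Agent.H521.G

/-- The uniform probability measure on `[0, 1)`. -/
noncomputable def muI : Measure ℝ := volume.restrict (Ico (0 : ℝ) 1)

instance : IsProbabilityMeasure muI := ⟨by unfold muI; simp⟩

theorem muI_compl : muI (Ico (0 : ℝ) 1)ᶜ = 0 := by
  unfold muI
  rw [Measure.restrict_apply measurableSet_Ico.compl]
  simp

theorem integral_muI {E : Type*} [NormedAddCommGroup E] [NormedSpace ℝ E] (g : ℝ → E) :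
    ∫ x, g x ∂muI = ∫ x in (0 : ℝ)..1, g x := by
  unfold muI
  rw [intervalIntegral.integral_of_le (by norm_num), integral_Ico_eq_integral_Ioo,
    integral_Ioc_eq_integral_Ioo]

/-- Data of a system with windows: cells `[Y j, Y j + 1)` with one free point, followed by windows
`[Y j + 1, Y (j+1))` containing `r j` prescribed points. -/
structure Wdata (f : ℝ → ℝ) (x₀ : ℝ) where
  Y : ℕ → ℝ
  w : ℕ → ℝ
  r : ℕ → ℕ
  t : ℕ → ℕ → ℝ
  Y0 : Y 0 = 0
  Ys : ∀ j, Y (j + 1) = Y j + 1 + w j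
  w0 : ∀ j, 0 ≤ w j
  tl : ∀ j l, l < r j → Y j + 1 ≤ t j l
  tu : ∀ j l, l < r j → t j l < Y (j + 1)
  tm : ∀ j l, l + 1 < r j → t j l < t j (l + 1)
  hS : ∀ σ : ℝ, 1 / 2 < σ → Summable fun j => (w j + r j) * phi f x₀ (Y j) ^ (-σ)

namespace Wdata

variable {f : ℝ → ℝ} {x₀ : ℝ} (W : Wdata f x₀)

/-- the number of points of block `j` -/
def n (j : ℕ) : ℕ := W.r j + 1

theorem n_pos (j : ℕ) : 0 < W.n j := Nat.succ_pos _

theorem n_eq (j : ℕ) : W.n j = W.r j + 1 := rfl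

theorem Y_ge (j : ℕ) : (j : ℝ) ≤ W.Y j := by
  induction j with
  | zero => rw [W.Y0]; simp
  | succ j ih =>
    rw [W.Ys]
    push_cast
    linarith [W.w0 j]

theorem Y_nonneg (j : ℕ) : 0 ≤ W.Y j := (Nat.cast_nonneg j).trans (W.Y_ge j)

theorem Y_mono : Monotone W.Y := monotone_nat_of_le_succ fun j => by
  rw [W.Ys]; linarith [W.w0 j]

theorem Y_tendsto : Tendsto W.Y atTop atTop :=
  tendsto_atTop_mono W.Y_ge tendsto_natCast_atTop_atTop

/-- The `y`-coordinates of the points. -/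
noncomputable def yk (V : ℕ → ℝ) (k : ℕ) : ℝ :=
  if pos W.n k = 0 then W.Y (blk W.n k) + V (blk W.n k) else W.t (blk W.n k) (pos W.n k - 1)

theorem yk_zero (V : ℕ → ℝ) (j : ℕ) : W.yk V (KK W.n j) = W.Y j + V j := by
  have h1 := blk_eq W.n_pos (W.n_pos j)
  have h2 := pos_eq W.n_pos (W.n_pos j)
  rw [add_zero] at h1 h2
  unfold yk
  rw [h1, h2, if_pos rfl]

theorem yk_succ (V : ℕ → ℝ) {j l : ℕ} (hl : l < W.r j) :
    W.yk V (KK W.n j + (l + 1)) = W.t j l := by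
  have h0 : l + 1 < W.n j := Nat.succ_lt_succ hl
  have h1 := blk_eq W.n_pos h0
  have h2 := pos_eq W.n_pos h0
  unfold yk
  rw [h1, h2, if_neg (Nat.succ_ne_zero l)]
  rfl

variable {V : ℕ → ℝ} (hV : ∀ j, V j ∈ Ico (0 : ℝ) 1)
include hV

theorem Y_le_yk (k : ℕ) : W.Y (blk W.n k) ≤ W.yk V k := by
  unfold yk
  split_ifs with h
  · linarith [(hV (blk W.n k)).1]
  · have h1 := pos_lt W.n_pos k
    rw [W.n_eq] at h1
    have h2 := W.tl (blk W.n k) (pos W.n k - 1) (by omega)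
    linarith

theorem yk_lt_Y (k : ℕ) : W.yk V k < W.Y (blk W.n k + 1) := by
  unfold yk
  split_ifs with h
  · rw [W.Ys]
    linarith [(hV (blk W.n k)).2, W.w0 (blk W.n k)]
  · have h1 := pos_lt W.n_pos k
    rw [W.n_eq] at h1
    exact W.tu (blk W.n k) (pos W.n k - 1) (by omega)

theorem yk_nonneg (k : ℕ) : 0 ≤ W.yk V k := (W.Y_nonneg _).trans (W.Y_le_yk hV k)

theorem yk_step (k : ℕ) : W.yk V k < W.yk V (k + 1) ∧
    W.yk V (k + 1) - W.yk V k ≤ 2 + W.w (blk W.n k) := by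
  have hj := W.Ys (blk W.n k)
  have hlo := W.Y_le_yk hV k
  have hhi := W.yk_lt_Y hV k
  rcases blk_succ W.n_pos k with ⟨h1, h2, h3⟩ | ⟨h1, h2, h3⟩
  · have hhi' := W.yk_lt_Y hV (k + 1)
    rw [h2] at hhi'
    refine ⟨?_, by linarith [W.w0 (blk W.n k)]⟩
    have e1 : W.yk V (k + 1) = W.t (blk W.n k) (pos W.n k) := by
      unfold yk
      rw [h2, h3, if_neg (Nat.succ_ne_zero _)]
      rfl
    rw [e1]
    have hr : pos W.n k < W.r (blk W.n k) := by rw [W.n_eq] at h1; omega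
    unfold yk
    split_ifs with h0
    · have := W.tl (blk W.n k) (pos W.n k) hr
      linarith [(hV (blk W.n k)).2]
    · have e : pos W.n k - 1 + 1 = pos W.n k := by omega
      have := W.tm (blk W.n k) (pos W.n k - 1) (by rw [e]; exact hr)
      rwa [e] at this
  · have e1 : W.yk V (k + 1) = W.Y (blk W.n k + 1) + V (blk W.n k + 1) := by
      unfold yk
      rw [h2, h3, if_pos rfl]
    rw [e1]
    have := hV (blk W.n k + 1)
    constructor
    · linarith [this.1]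
    · linarith [this.2]

theorem yk_strictMono : StrictMono (W.yk V) := strictMono_nat_of_lt_succ fun k =>
  (W.yk_step hV k).1

theorem yk_tendsto : Tendsto (W.yk V) atTop atTop :=
  tendsto_atTop_mono (W.Y_le_yk hV) (W.Y_tendsto.comp (blk_tendsto W.n_pos))

omit hV in
/-- the deviation of the index. -/
theorem dev (j : ℕ) : W.Y j - KK W.n j = ∑ i ∈ Finset.range j, (W.w i - W.r i) := by
  induction j with
  | zero => simp [W.Y0, KK_zero]
  | succ j ih =>
    rw [W.Ys, KK_succ, Finset.sum_range_succ, ← ih]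
    unfold n
    push_cast
    ring

variable (hR : RDens f x₀)
include hR

omit hV in
theorem sum_le {σ : ℝ} (hσ : 1 / 2 < σ) (j : ℕ) :
    ∑ i ∈ Finset.range (j + 1), (W.w i + W.r i) ≤
      (∑' i, (W.w i + W.r i) * phi f x₀ (W.Y i) ^ (-σ)) * phi f x₀ (W.Y j) ^ σ := by
  have hnn : ∀ i, 0 ≤ (W.w i + W.r i) * phi f x₀ (W.Y i) ^ (-σ) := fun i =>
    mul_nonneg (add_nonneg (W.w0 i) (Nat.cast_nonneg _)) (Real.rpow_nonneg (hR.phi_pos _).le _)
  have h1 : ∀ i ∈ Finset.range (j + 1), W.w i + W.r i ≤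
      (W.w i + W.r i) * phi f x₀ (W.Y i) ^ (-σ) * phi f x₀ (W.Y j) ^ σ := by
    intro i hi
    have hij : i ≤ j := Nat.lt_succ_iff.1 (Finset.mem_range.1 hi)
    have h2 : phi f x₀ (W.Y i) ^ σ ≤ phi f x₀ (W.Y j) ^ σ :=
      Real.rpow_le_rpow (hR.phi_pos _).le (hR.phi_mono (W.Y_mono hij)) (by linarith)
    have h3 : 0 < phi f x₀ (W.Y i) ^ (-σ) := Real.rpow_pos_of_pos (hR.phi_pos _) _
    have h4 : phi f x₀ (W.Y i) ^ (-σ) * phi f x₀ (W.Y i) ^ σ = 1 := by
      rw [← Real.rpow_add (hR.phi_pos _)]; simp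
    have h5 : 1 ≤ phi f x₀ (W.Y i) ^ (-σ) * phi f x₀ (W.Y j) ^ σ := by
      rw [← h4]
      exact mul_le_mul_of_nonneg_left h2 h3.le
    have h6 : 0 ≤ W.w i + (W.r i : ℝ) := add_nonneg (W.w0 i) (Nat.cast_nonneg _)
    calc W.w i + (W.r i : ℝ) = (W.w i + W.r i) * 1 := (mul_one _).symm
      _ ≤ (W.w i + W.r i) * (phi f x₀ (W.Y i) ^ (-σ) * phi f x₀ (W.Y j) ^ σ) :=
        mul_le_mul_of_nonneg_left h5 h6
      _ = _ := by ring
  refine (Finset.sum_le_sum h1).trans ?_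
  rw [← Finset.sum_mul]
  exact mul_le_mul_of_nonneg_right ((W.hS σ hσ).sum_le_tsum _ fun i _ => hnn i)
    (Real.rpow_nonneg (hR.phi_pos _).le _)

theorem yk_disc {σ : ℝ} (hσ : 1 / 2 < σ) : ∃ C : ℝ, 0 ≤ C ∧ W.yk V 0 ≤ C ∧
    (∀ k, |W.yk V k - k| ≤ C * phi f x₀ (W.yk V k) ^ σ) ∧
    ∀ k, W.yk V (k + 1) - W.yk V k ≤ C * phi f x₀ (W.yk V k) ^ σ := by
  set S := ∑' i, (W.w i + W.r i) * phi f x₀ (W.Y i) ^ (-σ) with hSd
  have hS0 : 0 ≤ S := tsum_nonneg fun i =>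
    mul_nonneg (add_nonneg (W.w0 i) (Nat.cast_nonneg _)) (Real.rpow_nonneg (hR.phi_pos _).le _)
  have hkey : ∀ k, ∑ i ∈ Finset.range (blk W.n k + 1), (W.w i + W.r i) ≤
      S * phi f x₀ (W.yk V k) ^ σ := by
    intro k
    refine (W.sum_le hR hσ (blk W.n k)).trans ?_
    apply mul_le_mul_of_nonneg_left _ hS0
    exact Real.rpow_le_rpow (hR.phi_pos _).le (hR.phi_mono (W.Y_le_yk hV k)) (by linarith)
  have hone : ∀ k, 1 ≤ phi f x₀ (W.yk V k) ^ σ := fun k =>
    Real.one_le_rpow (hR.phi_one_le _) (by linarith)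
  refine ⟨S + 2, by linarith, ?_, fun k => ?_, fun k => ?_⟩
  · have h0 := W.yk_zero V 0
    rw [KK_zero, W.Y0, zero_add] at h0
    rw [h0]
    linarith [(hV 0).2]
  · have h1 := hkey k
    have h2 := hone k
    have hlo := W.Y_le_yk hV k
    have hhi := W.yk_lt_Y hV k
    have hd := W.dev (blk W.n k)
    have hk : (k : ℝ) = KK W.n (blk W.n k) + pos W.n k := by
      exact_mod_cast (KK_add_pos W.n_pos k).symm
    have hp : (pos W.n k : ℝ) ≤ W.r (blk W.n k) := by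
      have := pos_lt W.n_pos k
      rw [W.n_eq] at this
      exact_mod_cast Nat.lt_succ_iff.1 this
    have hp0 : (0 : ℝ) ≤ pos W.n k := Nat.cast_nonneg _
    rw [W.Ys] at hhi
    rw [Finset.sum_range_succ] at h1
    have h3 : |∑ i ∈ Finset.range (blk W.n k), (W.w i - (W.r i : ℝ))| ≤
        ∑ i ∈ Finset.range (blk W.n k), (W.w i + W.r i) := by
      refine (Finset.abs_sum_le_sum_abs _ _).trans (Finset.sum_le_sum fun i _ => ?_)
      have h6 : (0 : ℝ) ≤ W.r i := Nat.cast_nonneg _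
      have h7 := W.w0 i
      rw [abs_le]
      constructor <;> linarith
    rw [← hd] at h3
    have h4 := abs_le.1 h3
    have hw := W.w0 (blk W.n k)
    rw [abs_le]
    constructor <;> nlinarith [h4.1, h4.2]
  · have h1 := hkey k
    have h2 := hone k
    have h3 := (W.yk_step hV k).2
    rw [Finset.sum_range_succ] at h1
    have h4 : 0 ≤ ∑ i ∈ Finset.range (blk W.n k), (W.w i + (W.r i : ℝ)) :=
      Finset.sum_nonneg fun i _ => add_nonneg (W.w0 i) (Nat.cast_nonneg _)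
    have h5 : (0 : ℝ) ≤ W.r (blk W.n k) := Nat.cast_nonneg _
    nlinarith

end Wdata

end Pool.Agent.H521.G
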