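import Pool.Agent.H521.G.Win

open MeasureTheory Set Filter Topology
open scoped ENNReal NNReal ComplexConjugate

namespace Pool.Agent.H521.G

namespace RDens

variable {f : ℝ → ℝ} {x₀ : ℝ} (hR : RDens f x₀)
include hR

theorem phi_eight_le (y : ℝ) : 8 ≤ phi f x₀ y := by
  have h1 := hR.hlog _ (hR.phi_ge y)
  have h2 := hR.hlog4 _ (hR.phi_ge y)
  linarith

/-- the increments of `φ` over a cell -/
theorem phi_cell {y : ℝ} (hy : 0 ≤ y) :
    phi f x₀ (y + 1) - phi f x₀ y ≤ 4 * Real.log (phi f x₀ y) := by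
  have h := phi_block hR hy (N := 1 / 2) (by norm_num) (by linarith [hR.phi_eight_le y])
  have e : y + 2 * (1 / 2) = y + 1 := by ring
  rw [e] at h
  linarith

theorem summable_cell {Y : ℕ → ℝ} (hY : ∀ j : ℕ, (j : ℝ) ≤ Y j) {σ : ℝ} (hσ : 1 / 2 < σ) :
    Summable fun j => (phi f x₀ (Y j + 1) - phi f x₀ (Y j)) * phi f x₀ (Y j) ^ (-σ - 1) := by
  have hs := (summable_add_one_rpow (p := -σ - 3 / 4) (by linarith)).mul_left 16
  have hY0 : ∀ j, 0 ≤ Y j := fun j => (Nat.cast_nonneg j).trans (hY j)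
  refine Summable.of_nonneg_of_le (fun j => ?_) (fun j => ?_) hs
  · apply mul_nonneg _ (Real.rpow_nonneg (hR.phi_pos _).le _)
    have := hR.phi_mono (by linarith : Y j ≤ Y j + 1)
    linarith
  · have h1 := hR.phi_cell (hY0 j)
    have h2 := Real.log_le_rpow_div (hR.phi_pos (Y j)).le (by norm_num : (0 : ℝ) < 1 / 4)
    have hp := hR.phi_pos (Y j)
    have h3 : 0 < phi f x₀ (Y j) ^ (-σ - 1) := Real.rpow_pos_of_pos hp _
    have h4 : phi f x₀ (Y j) ^ (1 / 4 : ℝ) * phi f x₀ (Y j) ^ (-σ - 1) =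
        phi f x₀ (Y j) ^ (-σ - 3 / 4) := by
      rw [← Real.rpow_add hp]; congr 1; ring
    have h5 := phi_ge_succ hR (hY j)
    have h6 : phi f x₀ (Y j) ^ (-σ - 3 / 4) ≤ ((j : ℝ) + 1) ^ (-σ - 3 / 4) :=
      Real.rpow_le_rpow_of_nonpos (by positivity) h5 (by linarith)
    calc _ ≤ (4 * (phi f x₀ (Y j) ^ (1 / 4 : ℝ) / (1 / 4))) * phi f x₀ (Y j) ^ (-σ - 1) := by
          apply mul_le_mul_of_nonneg_right _ h3.le
          linarith
      _ = 16 * (phi f x₀ (Y j) ^ (1 / 4 : ℝ) * phi f x₀ (Y j) ^ (-σ - 1)) := by ring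
      _ ≤ _ := by rw [h4]; linarith

theorem measurable_Ph2 : Measurable fun x : ℝ × ℂ => Ph f x₀ x.2 x.1 :=
  measurable_cpow_neg2.comp ((hR.phi_measurable.comp measurable_fst).prodMk measurable_snd)

theorem diff_Ph (y : ℝ) : Differentiable ℂ fun s => Ph f x₀ s y := by
  intro s
  have hne : ((phi f x₀ y : ℝ) : ℂ) ≠ 0 := by exact_mod_cast (hR.phi_pos y).ne'
  exact (differentiableAt_id.neg).const_cpow (Or.inl hne)

end RDens

namespace Wdata

variable {f : ℝ → ℝ} {x₀ : ℝ} (W : Wdata f x₀)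

/-- The centred terms. -/
noncomputable def X (j : ℕ) (ω : ℝ) (s : ℂ) : ℂ :=
  Ph f x₀ s (W.Y j + ω) - (Ip f x₀ s (W.Y j + 1) - Ip f x₀ s (W.Y j))

variable (hR : RDens f x₀)
include hR

theorem X_eq (j : ℕ) (ω : ℝ) {s : ℂ} (hs : 0 ≤ s.re) :
    W.X j ω s = ∫ v, (Ph f x₀ s (W.Y j + ω) - Ph f x₀ s (W.Y j + v)) ∂muI := by
  have hi : Integrable (fun v => Ph f x₀ s (W.Y j + v)) muI := by
    apply Integrable.of_bound _ 1
    · exact Filter.Eventually.of_forall fun y => hR.norm_Ph_le_one _ hs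
    · exact ((hR.measurable_Ph s).comp (measurable_const.add measurable_id)).aestronglyMeasurable
  rw [integral_sub (integrable_const _) hi, integral_muI (fun v => Ph f x₀ s (W.Y j + v))]
  have h1 := hR.int01 (W.Y j) one_pos hs
  simp only [one_mul, div_one] at h1
  rw [h1]
  simp [X]

theorem X_norm_le (j : ℕ) {ω : ℝ} (hω : ω ∈ Ico (0 : ℝ) 1) {s : ℂ} (hs : 0 ≤ s.re) :
    ‖W.X j ω s‖ ≤ 2 * phi f x₀ (W.Y j) ^ (-s.re) := by
  unfold X
  refine (norm_sub_le _ _).trans ?_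
  have h1 := hR.norm_Ph_le (by linarith [hω.1] : W.Y j ≤ W.Y j + ω) hs
  have h2 := hR.norm_Ip_sub_le (le_refl (W.Y j)) (by linarith : W.Y j ≤ W.Y j + 1) hs
  have e : W.Y j + 1 - W.Y j = 1 := by ring
  rw [e, abs_one, mul_one] at h2
  linarith

theorem X_lip_le (j : ℕ) {ω : ℝ} (hω : ω ∈ Ico (0 : ℝ) 1) {s : ℂ} (hs : 0 ≤ s.re) :
    ‖W.X j ω s‖ ≤ ‖s‖ * ((phi f x₀ (W.Y j + 1) - phi f x₀ (W.Y j)) *
      phi f x₀ (W.Y j) ^ (-s.re - 1)) := by
  rw [W.X_eq hR j ω hs]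
  have hae : ∀ᵐ v ∂muI, v ∈ Ico (0 : ℝ) 1 := by rw [ae_iff]; exact muI_compl
  have h := norm_integral_le_of_norm_le_const (μ := muI)
    (f := fun v => Ph f x₀ s (W.Y j + ω) - Ph f x₀ s (W.Y j + v))
    (C := ‖s‖ * ((phi f x₀ (W.Y j + 1) - phi f x₀ (W.Y j)) *
      phi f x₀ (W.Y j) ^ (-s.re - 1))) (by
      filter_upwards [hae] with v hv
      have hm : ∀ u ∈ Ico (0 : ℝ) 1, phi f x₀ (W.Y j + u) ∈
          Icc (phi f x₀ (W.Y j)) (phi f x₀ (W.Y j + 1)) := fun u hu =>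
        ⟨hR.phi_mono (by linarith [hu.1]), hR.phi_mono (by linarith [hu.2])⟩
      have := norm_cpow_neg_sub_le' (hR.phi_pos (W.Y j)) (hm ω hω) (hm v hv)
        (by linarith : (-1 : ℝ) ≤ s.re)
      unfold Ph
      linarith)
  simpa using h

/-- The kernels. -/
noncomputable def kernels : Kernels ℝ where
  μ _ _ := muI
  A _ _ := Ico 0 1
  X j _ ω s := W.X j ω s
  B j σ := 2 * phi f x₀ (W.Y j) ^ (-σ)
  D j σ := (phi f x₀ (W.Y j + 1) - phi f x₀ (W.Y j)) * phi f x₀ (W.Y j) ^ (-σ - 1)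
  prob _ _ := inferInstance
  full _ _ := muI_compl
  meas j _ := by
    have h1 : Measurable fun x : ℝ × ℂ => Ph f x₀ x.2 (W.Y j + x.1) :=
      hR.measurable_Ph2.comp ((measurable_const.add measurable_fst).prodMk measurable_snd)
    have h2 : Measurable fun x : ℝ × ℂ => Ip f x₀ x.2 (W.Y j + 1) :=
      ((hR.diff_Ip (by linarith [W.Y_nonneg j])).continuous.measurable).comp measurable_snd
    have h3 : Measurable fun x : ℝ × ℂ => Ip f x₀ x.2 (W.Y j) :=
      ((hR.diff_Ip (W.Y_nonneg j)).continuous.measurable).comp measurable_snd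
    exact h1.sub (h2.sub h3)
  cent j _ s hs := by
    have hs0 : 0 ≤ s.re := by linarith
    have hi : Integrable (fun v => Ph f x₀ s (W.Y j + v)) muI := by
      apply Integrable.of_bound _ 1
      · exact Filter.Eventually.of_forall fun y => hR.norm_Ph_le_one _ hs0
      · exact ((hR.measurable_Ph s).comp (measurable_const.add measurable_id)).aestronglyMeasurable
    unfold X
    rw [integral_sub hi (integrable_const _), integral_muI (fun v => Ph f x₀ s (W.Y j + v))]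
    have h1 := hR.int01 (W.Y j) one_pos hs0
    simp only [one_mul, div_one] at h1
    rw [h1]
    simp
  diff j _ ω _ := by
    have h1 := hR.diff_Ph (W.Y j + ω)
    have h2 := hR.diff_Ip (by linarith [W.Y_nonneg j] : 0 ≤ W.Y j + 1)
    have h3 := hR.diff_Ip (W.Y_nonneg j)
    exact (h1.sub (h2.sub h3)).differentiableOn
  B0 j σ _ := mul_nonneg two_pos.le (Real.rpow_nonneg (hR.phi_pos _).le _)
  Bmeas j := by fun_prop
  Bmono j σ τ _ hst := by
    apply mul_le_mul_of_nonneg_left _ two_pos.le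
    exact Real.rpow_le_rpow_of_exponent_le (hR.phi_one_le _) (by linarith)
  Ble j _ ω hω s hs := W.X_norm_le hR j hω (by linarith)
  Bsum σ hσ := by
    have hs := (summable_add_one_rpow (p := -(2 * σ)) (by linarith)).mul_left 4
    refine Summable.of_nonneg_of_le (fun j => sq_nonneg _) (fun j => ?_) hs
    have h1 := phi_ge_succ hR (W.Y_ge j)
    have h2 : phi f x₀ (W.Y j) ^ (-(2 * σ)) ≤ ((j : ℝ) + 1) ^ (-(2 * σ)) :=
      Real.rpow_le_rpow_of_nonpos (by positivity) h1 (by linarith)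
    have h3 : (phi f x₀ (W.Y j) ^ (-σ)) ^ 2 = phi f x₀ (W.Y j) ^ (-(2 * σ)) := by
      rw [← Real.rpow_natCast (phi f x₀ (W.Y j) ^ (-σ)) 2, ← Real.rpow_mul (hR.phi_pos _).le]
      congr 1
      push_cast
      ring
    rw [mul_pow, h3]
    linarith
  Dle j _ ω hω σ s hσ hs := by
    refine (W.X_lip_le hR j hω (by linarith)).trans ?_
    apply mul_le_mul_of_nonneg_left _ (norm_nonneg _)
    apply mul_le_mul_of_nonneg_left
    · exact Real.rpow_le_rpow_of_exponent_le (hR.phi_one_le _) (by linarith)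
    · have := hR.phi_mono (by linarith : W.Y j ≤ W.Y j + 1)
      linarith
  Dsum σ hσ := hR.summable_cell W.Y_ge hσ

/-- The deterministic part of block `j`. -/
noncomputable def G (j : ℕ) (s : ℂ) : ℂ :=
  ∑ l ∈ Finset.range (W.r j), Ph f x₀ s (W.t j l) -
    (Ip f x₀ s (W.Y (j + 1)) - Ip f x₀ s (W.Y j + 1))

theorem G_norm_le (j : ℕ) {σ : ℝ} {s : ℂ} (hσ : 0 ≤ σ) (hs : σ ≤ s.re) :
    ‖W.G j s‖ ≤ (W.w j + W.r j) * phi f x₀ (W.Y j) ^ (-σ) := by
  have hs0 : 0 ≤ s.re := hσ.trans hs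
  unfold G
  have h1 : ‖∑ l ∈ Finset.range (W.r j), Ph f x₀ s (W.t j l)‖ ≤
      W.r j * phi f x₀ (W.Y j) ^ (-s.re) := by
    refine (norm_sum_le _ _).trans ?_
    refine (Finset.sum_le_sum (g := fun _ => phi f x₀ (W.Y j) ^ (-s.re)) fun l hl => ?_).trans ?_
    · exact hR.norm_Ph_le (by linarith [W.tl j l (Finset.mem_range.1 hl)]) hs0
    · simp
  have h2 := hR.norm_Ip_sub_le (Y := W.Y j) (a := W.Y j + 1) (b := W.Y (j + 1)) (by linarith)
    (by linarith [W.Ys j, W.w0 j]) hs0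
  have e : W.Y (j + 1) - (W.Y j + 1) = W.w j := by rw [W.Ys]; ring
  rw [e, abs_of_nonneg (W.w0 j)] at h2
  have h3 : phi f x₀ (W.Y j) ^ (-s.re) ≤ phi f x₀ (W.Y j) ^ (-σ) :=
    Real.rpow_le_rpow_of_exponent_le (hR.phi_one_le _) (by linarith)
  have h4 : 0 ≤ W.w j + (W.r j : ℝ) := add_nonneg (W.w0 j) (Nat.cast_nonneg _)
  calc _ ≤ _ := norm_sub_le _ _
    _ ≤ W.r j * phi f x₀ (W.Y j) ^ (-s.re) + phi f x₀ (W.Y j) ^ (-s.re) * W.w j :=
      add_le_add h1 h2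
    _ = (W.w j + W.r j) * phi f x₀ (W.Y j) ^ (-s.re) := by ring
    _ ≤ _ := mul_le_mul_of_nonneg_left h3 h4

theorem G_diff (j : ℕ) : Differentiable ℂ (W.G j) := by
  unfold G
  have h2 := hR.diff_Ip (W.Y_nonneg (j + 1))
  have h3 := hR.diff_Ip (by linarith [W.Y_nonneg j] : 0 ≤ W.Y j + 1)
  exact (Differentiable.fun_sum fun l _ => hR.diff_Ph _).sub (h2.sub h3)

/-- **The window theorem.** -/
theorem system {Z : Multiset ℂ} (hZ : ∀ ρ ∈ Z, ρ.re < 1) (hZc : Z.map conj = Z)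
    (hf : f = fZ Z) :
    ∃ V : ℕ → ℝ, (∀ j, V j ∈ Ico (0 : ℝ) 1) ∧ Sys Z fun k => phi f x₀ (W.yk V k) := by
  obtain ⟨V, hV, hsum, hdiff, hbd⟩ := (W.kernels hR).engine
  have hV' : ∀ j, V j ∈ Ico (0 : ℝ) 1 := hV
  obtain ⟨g1, g2, g3⟩ := diffOn_tsum_half (F := W.G)
    (B := fun σ j => (W.w j + W.r j) * phi f x₀ (W.Y j) ^ (-σ))
    (fun j => (W.G_diff hR j).differentiableOn)
    (fun j σ s hσ hs => W.G_norm_le hR j (by linarith) hs) W.hS
  refine ⟨V, hV', ?_⟩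
  subst hf
  have hint : ∀ s : ℂ, 1 < s.re →
      IntegrableOn (fun u : ℝ => (fZ Z u : ℂ) * (u : ℂ) ^ (-s)) (Ioi x₀) := fun s hs =>
    (int_fZ hZ hZc hs).1.mono_set (Ioi_subset_Ioi (by linarith [hR.dens.hx₀]))
  have hKt : Tendsto (KK W.n) atTop atTop :=
    tendsto_atTop_mono (fun j => KK_ge W.n_pos j) tendsto_id
  refine sys_of_seq hZ hZc hR (W.yk_strictMono hV') (W.yk_tendsto hV') (W.yk_nonneg hV')
    (fun σ hσ => W.yk_disc hV' hR hσ)
    (R := fun s => ∑' j, W.X j (V j) s + ∑' j, W.G j s) (hdiff.add g1) ?_ hKt ?_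
  · intro ε hε
    obtain ⟨C1, h1⟩ := hbd ε hε
    obtain ⟨C2, h2⟩ := g3 ε hε
    refine ⟨C1 + C2, fun s hs => ?_⟩
    have h3 : |(∑' j, W.X j (V j) s).re| ≤ C1 + ε * Real.log (2 + ‖s‖) := h1 s hs
    have h4 := (Complex.abs_re_le_norm _).trans (h2 s hs)
    rw [Complex.add_re]
    refine (abs_add_le _ _).trans ?_
    linarith
  · intro s hs
    have hs1 : 1 / 2 < s.re := by linarith
    have hs0 : 0 ≤ s.re := by linarith
    have hL := (hR.Ip_tendsto (hint s hs)).comp W.Y_tendsto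
    have hX : Tendsto (fun J => ∑ j ∈ Finset.range J, W.X j (V j) s) atTop
        (𝓝 (∑' j, W.X j (V j) s)) := (hsum s hs1).hasSum.tendsto_sum_nat
    have hG := (g2 s hs1).hasSum.tendsto_sum_nat
    have h1 := hL.add (hX.add hG)
    refine h1.congr fun J => ?_
    rw [sum_blocks]
    have h2 : ∀ j, ∑ l ∈ Finset.range (W.n j), Ph (fZ Z) x₀ s (W.yk V (KK W.n j + l)) =
        Ph (fZ Z) x₀ s (W.Y j + V j) + ∑ l ∈ Finset.range (W.r j), Ph (fZ Z) x₀ s (W.t j l) := by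
      intro j
      rw [W.n_eq, Finset.sum_range_succ', add_comm]
      congr 1
      · rw [add_zero, W.yk_zero]
      · apply Finset.sum_congr rfl
        intro l hl
        rw [W.yk_succ V (Finset.mem_range.1 hl)]
    have h3 : Ip (fZ Z) x₀ s (W.Y J) =
        ∑ j ∈ Finset.range J, (Ip (fZ Z) x₀ s (W.Y (j + 1)) - Ip (fZ Z) x₀ s (W.Y j)) := by
      rw [Finset.sum_range_sub (fun j => Ip (fZ Z) x₀ s (W.Y j)), W.Y0]
      simp [Ip]
    change Ip (fZ Z) x₀ s (W.Y J) + _ = ∑ j ∈ Finset.range J, ∑ l ∈ Finset.range (W.n j),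
      Ph (fZ Z) x₀ s (W.yk V (KK W.n j + l))
    rw [h3, ← Finset.sum_add_distrib, ← Finset.sum_add_distrib]
    apply Finset.sum_congr rfl
    intro j _
    rw [h2 j]
    unfold X G
    ring

end Wdata

end Pool.Agent.H521.G
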